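import Pool.Agent.Lib.H19S.Defs

/-!
# H19S, chunk A0: basic facts about triangulated surfaces (immediate from the definitions)
-/

namespace H19S

open Finset

variable {α : Type*} [DecidableEq α] {F : Finset (α × α × α)}

theorem mem_vs {x : α} : x ∈ vs F ↔ ∃ a b, (x, a, b) ∈ F := by
  unfold vs
  rw [mem_image]
  constructor
  · rintro ⟨⟨x', a, b⟩, h, rfl⟩
    exact ⟨a, b, h⟩
  · rintro ⟨a, b, h⟩
    exact ⟨_, h, rfl⟩

theorem IsSurf.rot2 (hF : IsSurf F) {a b c : α} (h : (a, b, c) ∈ F) : (c, a, b) ∈ F :=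
  hF.rot (hF.rot h)

theorem IsSurf.ne2 (hF : IsSurf F) {a b c : α} (h : (a, b, c) ∈ F) : b ≠ c :=
  hF.ne (hF.rot h)

theorem IsSurf.ne3 (hF : IsSurf F) {a b c : α} (h : (a, b, c) ∈ F) : c ≠ a :=
  hF.ne (hF.rot2 h)

theorem IsSurf.vs1 (_hF : IsSurf F) {a b c : α} (h : (a, b, c) ∈ F) : a ∈ vs F :=
  mem_vs.mpr ⟨_, _, h⟩

theorem IsSurf.vs2 (hF : IsSurf F) {a b c : α} (h : (a, b, c) ∈ F) : b ∈ vs F :=
  mem_vs.mpr ⟨_, _, hF.rot h⟩

theorem IsSurf.vs3 (hF : IsSurf F) {a b c : α} (h : (a, b, c) ∈ F) : c ∈ vs F :=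
  mem_vs.mpr ⟨_, _, hF.rot2 h⟩

/-- From `opp`. -/
theorem IsSurf.adj_symm (hF : IsSurf F) {x y : α} (h : Adj F x y) : Adj F y x := by
  obtain ⟨z, hz⟩ := h
  exact hF.opp hz

theorem IsSurf.adj_ne (hF : IsSurf F) {x y : α} (h : Adj F x y) : x ≠ y := by
  obtain ⟨z, hz⟩ := h
  exact hF.ne hz

theorem Adj.mem_left {x y : α} (h : Adj F x y) : x ∈ vs F := by
  obtain ⟨z, hz⟩ := h
  exact mem_vs.mpr ⟨_, _, hz⟩

theorem IsSurf.adj_mem_right (hF : IsSurf F) {x y : α} (h : Adj F x y) : y ∈ vs F := by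
  obtain ⟨z, hz⟩ := h
  exact hF.vs2 hz

theorem mem_nbr {x y : α} : y ∈ nbr F x ↔ Adj F x y := by
  unfold nbr Adj
  rw [mem_image]
  constructor
  · rintro ⟨⟨x', a, b⟩, h, rfl⟩
    obtain ⟨h1, h2⟩ := mem_filter.mp h
    simp only at h2
    subst h2
    exact ⟨b, h1⟩
  · rintro ⟨z, hz⟩
    exact ⟨_, mem_filter.mpr ⟨hz, rfl⟩, rfl⟩

private theorem injOn_snd (hF : IsSurf F) (x : α) :
    Set.InjOn (fun t : α × α × α => t.2.1) ((F.filter fun t => t.1 = x : Finset _) : Set _) := by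
  rintro ⟨a, b, c⟩ h ⟨a', b', c'⟩ h' he
  obtain ⟨h1, h2⟩ := mem_filter.mp (mem_coe.mp h)
  obtain ⟨h1', h2'⟩ := mem_filter.mp (mem_coe.mp h')
  simp only at h2 h2' he
  subst h2 h2' he
  rw [hF.uniq h1 h1']

/-- The third vertices are determined by the first two (`uniq`), so `t ↦ t.2.1` is injective on the
faces at `x`. -/
theorem IsSurf.deg_eq (hF : IsSurf F) (x : α) : deg F x = (nbr F x).card := by
  unfold deg nbr
  rw [card_image_of_injOn (injOn_snd hF x)]

/-- In a surface the predecessor in the link is unique. -/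
theorem IsSurf.uniq' (hF : IsSurf F) {x a b c : α} (h : (x, a, c) ∈ F) (h' : (x, b, c) ∈ F) :
    a = b :=
  hF.uniq (hF.rot2 h) (hF.rot2 h')

/-- Sums over oriented sides can be reversed: the map sending `(a,b,c)` to the face `(b,a,d)` on the
other side of `ab` is an involution of `F`. -/
theorem IsSurf.sum_rev (hF : IsSurf F) {M : Type*} [AddCommMonoid M] (f : α → α → M) :
    ∑ t ∈ F, f t.1 t.2.1 = ∑ t ∈ F, f t.2.1 t.1 := by
  refine Finset.sum_bij (fun t ht =>
    (t.2.1, t.1, (hF.opp (a := t.1) (b := t.2.1) (c := t.2.2) ht).choose)) ?_ ?_ ?_ ?_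
  · intro t ht
    exact (hF.opp (a := t.1) (b := t.2.1) (c := t.2.2) ht).choose_spec
  · rintro ⟨a, b, c⟩ ht ⟨a', b', c'⟩ ht' he
    simp only [Prod.mk.injEq] at he
    obtain ⟨h1, h2, -⟩ := he
    subst h1 h2
    rw [hF.uniq ht ht']
  · rintro ⟨a, b, c⟩ hs
    obtain ⟨d, hd⟩ := hF.opp hs
    refine ⟨(b, a, d), hd, ?_⟩
    have := (hF.opp (a := b) (b := a) (c := d) hd).choose_spec
    simp only [Prod.mk.injEq, true_and]
    exact hF.uniq this hs
  · intro t ht
    rfl

/-- Sums over `F` can be organised by the first vertex. -/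
theorem sum_vs {M : Type*} [AddCommMonoid M] (f : α × α × α → M) :
    ∑ x ∈ vs F, ∑ t ∈ F.filter (fun t => t.1 = x), f t = ∑ t ∈ F, f t := by
  refine Finset.sum_fiberwise_of_maps_to (g := fun t => t.1) ?_ f
  rintro ⟨a, b, c⟩ ht
  exact mem_vs.mpr ⟨_, _, ht⟩

/-- Sum over the faces at `x` of a function of the second vertex = sum over the neighbours. -/
theorem IsSurf.sum_nbr (hF : IsSurf F) {M : Type*} [AddCommMonoid M] (x : α) (f : α → M) :
    ∑ t ∈ F.filter (fun t => t.1 = x), f t.2.1 = ∑ y ∈ nbr F x, f y := by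
  unfold nbr
  rw [sum_image (injOn_snd hF x)]

theorem sum_deg : ∑ x ∈ vs F, deg F x = F.card := by
  unfold deg
  refine (Finset.card_eq_sum_card_fiberwise (f := fun t : α × α × α => t.1) ?_).symm
  rintro ⟨a, b, c⟩ ht
  exact mem_coe.mpr (mem_vs.mpr ⟨_, _, mem_coe.mp ht⟩)

theorem deg_pos {x : α} (hx : x ∈ vs F) : 0 < deg F x := by
  obtain ⟨a, b, h⟩ := mem_vs.mp hx
  exact card_pos.mpr ⟨_, mem_filter.mpr ⟨h, rfl⟩⟩

private theorem adj_third (hF : IsSurf F) {x a b : α} (h : (x, a, b) ∈ F) : Adj F x b :=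
  hF.adj_symm ⟨a, hF.rot2 h⟩

/-- Every vertex has degree at least two: if `(x,a,b) ∈ F` then `a ≠ b` are both neighbours. -/
theorem IsSurf.two_le_deg (hF : IsSurf F) {x : α} (hx : x ∈ vs F) : 2 ≤ deg F x := by
  obtain ⟨a, b, h⟩ := mem_vs.mp hx
  rw [hF.deg_eq]
  exact Finset.one_lt_card.mpr ⟨a, mem_nbr.mpr ⟨b, h⟩, b, mem_nbr.mpr (adj_third hF h), hF.ne2 h⟩

private theorem link2 (hF : IsSurf F) {v p q r s : α} (h1 : (v, p, q) ∈ F) (h2 : (v, q, p) ∈ F)
    (h3 : (v, r, s) ∈ F) : r = p ∨ r = q := by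
  have h := hF.link h1 h3
  clear h3
  induction h with
  | refl => exact Or.inl rfl
  | tail _ hs ih =>
    rcases ih with rfl | rfl
    · exact Or.inr (hF.uniq hs h1)
    · exact Or.inl (hF.uniq hs h2)

private theorem rev_vs (hF : IsSurf F) {a b c : α} (h : (a, b, c) ∈ F) (h' : (b, a, c) ∈ F) :
    vs F ⊆ {a, b, c} := by
  intro y hy
  have hconn := hF.conn (hF.vs1 h) hy
  clear hy
  induction hconn with
  | refl => simp
  | tail _ hs ih =>
    obtain ⟨z, hz⟩ := hs
    simp only [mem_insert, mem_singleton] at ih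
    rcases ih with rfl | rfl | rfl
    · have := link2 hF h (hF.rot h') hz
      simp only [mem_insert, mem_singleton]
      tauto
    · have := link2 hF h' (hF.rot h) hz
      simp only [mem_insert, mem_singleton]
      tauto
    · have := link2 hF (hF.rot2 h) (hF.rot2 h') hz
      simp only [mem_insert, mem_singleton]
      tauto

private theorem rev_card (hF : IsSurf F) {a b c : α} (h : (a, b, c) ∈ F) (h' : (b, a, c) ∈ F) :
    (vs F).card ≤ 3 :=
  (card_le_card (rev_vs hF h h')).trans card_le_three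

/-- If there are at least four vertices every degree is at least three.  Otherwise the link of `x` is
`{a, b}`, so `(x,a,b), (x,b,a) ∈ F`; then the link of `a` is `{b, x}` (as `(a,b,x), (a,x,b) ∈ F`, and
the link of `a` is one orbit) and that of `b` is `{x, a}`; by connectedness `vs F = {x,a,b}`. -/
theorem IsSurf.three_le_deg (hF : IsSurf F) (h4 : 4 ≤ (vs F).card) {x : α} (hx : x ∈ vs F) :
    3 ≤ deg F x := by
  by_contra hlt
  rw [hF.deg_eq] at hlt
  obtain ⟨a, b, h⟩ := mem_vs.mp hx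
  have ha : a ∈ nbr F x := mem_nbr.mpr ⟨b, h⟩
  have hb : b ∈ nbr F x := mem_nbr.mpr (adj_third hF h)
  obtain ⟨d, hd⟩ := mem_nbr.mp hb
  have hdn : d ∈ nbr F x := mem_nbr.mpr (adj_third hF hd)
  have hab : a ≠ b := hF.ne2 h
  have hbd : b ≠ d := hF.ne2 hd
  have hda : d = a := by
    by_contra hne
    have : ({a, b, d} : Finset α) ⊆ nbr F x := by
      intro y hy
      simp only [mem_insert, mem_singleton] at hy
      rcases hy with rfl | rfl | rfl <;> assumption
    have h3 := card_le_card this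
    rw [card_eq_three.mpr ⟨a, b, d, hab, fun h => hne h.symm, hbd, rfl⟩] at h3
    omega
  subst hda
  have := rev_card hF h (hF.rot2 hd)
  omega

/-- If there are at least four vertices, a face and its reversal cannot both be present (proof as for
`three_le_deg`: the link of `a` would be `{b, c}`, etc.). -/
theorem IsSurf.no_rev (hF : IsSurf F) (h4 : 4 ≤ (vs F).card) {a b c : α} (h : (a, b, c) ∈ F) :
    (b, a, c) ∉ F := by
  intro h'
  have := rev_card hF h h'
  omega

theorem IsTri.three_le (hF : IsTri F) : 3 ≤ (vs F).card := by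
  obtain ⟨⟨a, b, c⟩, h⟩ := hF.nonempty
  have hS := hF.toIsSurf
  have : ({a, b, c} : Finset α) ⊆ vs F := by
    intro y hy
    simp only [mem_insert, mem_singleton] at hy
    rcases hy with rfl | rfl | rfl
    · exact hS.vs1 h
    · exact hS.vs2 h
    · exact hS.vs3 h
  have h3 := card_le_card this
  rwa [card_eq_three.mpr ⟨a, b, c, hS.ne h, (hS.ne3 h).symm, hS.ne2 h, rfl⟩] at h3

end H19S
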