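import Pool.Agent.Lib.H19S.A0

/-!
# H19S, chunk A0b: relabelling
-/

namespace H19S

open Finset

variable {α : Type*} [DecidableEq α] {F : Finset (α × α × α)}

omit [DecidableEq α] in
/-- Relabelling by an injective map. -/
theorem mem_relab {β : Type*} [DecidableEq β] {f : α → β} {t : β × β × β} :
    t ∈ relab f F ↔ ∃ a b c, (a, b, c) ∈ F ∧ t = (f a, f b, f c) := by
  unfold relab map3
  rw [mem_image]
  constructor
  · rintro ⟨⟨a, b, c⟩, h, rfl⟩
    exact ⟨a, b, c, h, rfl⟩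
  · rintro ⟨a, b, c, h, rfl⟩
    exact ⟨(a, b, c), h, rfl⟩

theorem vs_relab {β : Type*} [DecidableEq β] (f : α → β) : vs (relab f F) = (vs F).image f := by
  ext x
  rw [mem_vs, mem_image]
  constructor
  · rintro ⟨a, b, h⟩
    obtain ⟨a', b', c', h', he⟩ := mem_relab.mp h
    simp only [Prod.mk.injEq] at he
    exact ⟨a', mem_vs.mpr ⟨b', c', h'⟩, he.1.symm⟩
  · rintro ⟨a', ha', rfl⟩
    obtain ⟨b', c', h'⟩ := mem_vs.mp ha'
    exact ⟨f b', f c', mem_relab.mpr ⟨a', b', c', h', rfl⟩⟩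

/-- Relabelling of a surface by a map which is injective on the vertices. -/
theorem IsSurf.relab {β : Type*} [DecidableEq β] (hF : IsSurf F) {f : α → β}
    (hf : Set.InjOn f (vs F)) : IsSurf (relab f F) where
  rot := by
    intro a b c h
    obtain ⟨a', b', c', h', he⟩ := mem_relab.mp h
    simp only [Prod.mk.injEq] at he
    obtain ⟨rfl, rfl, rfl⟩ := he
    exact mem_relab.mpr ⟨b', c', a', hF.rot h', rfl⟩
  ne := by
    intro a b c h
    obtain ⟨a', b', c', h', he⟩ := mem_relab.mp h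
    simp only [Prod.mk.injEq] at he
    obtain ⟨rfl, rfl, rfl⟩ := he
    intro heq
    exact hF.ne h' (hf (hF.vs1 h') (hF.vs2 h') heq)
  uniq := by
    intro a b c d h hd
    obtain ⟨a', b', c', h', he⟩ := mem_relab.mp h
    obtain ⟨a2, b2, d2, h2, he2⟩ := mem_relab.mp hd
    simp only [Prod.mk.injEq] at he he2
    obtain ⟨rfl, rfl, rfl⟩ := he
    obtain ⟨e1, e2, rfl⟩ := he2
    have g1 := hf (hF.vs1 h') (hF.vs1 h2) e1
    have g2 := hf (hF.vs2 h') (hF.vs2 h2) e2
    subst g1 g2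
    rw [hF.uniq h' h2]
  opp := by
    intro a b c h
    obtain ⟨a', b', c', h', he⟩ := mem_relab.mp h
    simp only [Prod.mk.injEq] at he
    obtain ⟨rfl, rfl, rfl⟩ := he
    obtain ⟨d', hd'⟩ := hF.opp h'
    exact ⟨f d', mem_relab.mpr ⟨b', a', d', hd', rfl⟩⟩
  link := by
    intro v a b a' b' h h'
    obtain ⟨v1, a1, b1, h1, he1⟩ := mem_relab.mp h
    obtain ⟨v2, a2, b2, h2, he2⟩ := mem_relab.mp h'
    simp only [Prod.mk.injEq] at he1 he2
    obtain ⟨rfl, rfl, rfl⟩ := he1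
    obtain ⟨e1, rfl, rfl⟩ := he2
    have g1 := hf (hF.vs1 h1) (hF.vs1 h2) e1
    subst g1
    refine Relation.ReflTransGen.lift f ?_ _ _ (hF.link h1 h2)
    intro x y hxy
    exact mem_relab.mpr ⟨v1, x, y, hxy, rfl⟩
  conn := by
    intro a b ha hb
    rw [vs_relab, mem_image] at ha hb
    obtain ⟨a', ha', rfl⟩ := ha
    obtain ⟨b', hb', rfl⟩ := hb
    refine Relation.ReflTransGen.lift f ?_ _ _ (hF.conn ha' hb')
    rintro x y ⟨z, hz⟩
    exact ⟨f z, mem_relab.mpr ⟨x, y, z, hz, rfl⟩⟩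
  nonempty := by
    obtain ⟨t, ht⟩ := hF.nonempty
    exact ⟨_, mem_image.mpr ⟨t, ht, rfl⟩⟩

theorem card_relab {β : Type*} [DecidableEq β] (hF : IsSurf F) {f : α → β}
    (hf : Set.InjOn f (vs F)) : (relab f F).card = F.card := by
  unfold H19S.relab
  apply card_image_of_injOn
  rintro ⟨a, b, c⟩ h ⟨a', b', c'⟩ h' he
  have h := mem_coe.mp h
  have h' := mem_coe.mp h'
  simp only [map3, Prod.mk.injEq] at he
  obtain ⟨e1, e2, e3⟩ := he
  have g1 := hf (hF.vs1 h) (hF.vs1 h') e1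
  have g2 := hf (hF.vs2 h) (hF.vs2 h') e2
  have g3 := hf (hF.vs3 h) (hF.vs3 h') e3
  rw [g1, g2, g3]

theorem IsTri.relab {β : Type*} [DecidableEq β] (hF : IsTri F) {f : α → β}
    (hf : Set.InjOn f (vs F)) : IsTri (relab f F) where
  toIsSurf := hF.toIsSurf.relab hf
  euler := by
    rw [card_relab hF.toIsSurf hf, vs_relab, card_image_of_injOn hf]
    exact hF.euler

end H19S
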