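import Pool.Agent.Lib.H19S.A0

/-!
# H19S, chunk A1: dual connectedness
-/

namespace H19S

set_option linter.unusedSimpArgs false
set_option linter.unusedSectionVars false

open Finset

variable {α : Type*} [DecidableEq α] {F R : Finset (α × α × α)}

/-- `R` is closed under rotation of faces. -/
def RotC (R : Finset (α × α × α)) : Prop := ∀ {a b c : α}, (a, b, c) ∈ R → (b, c, a) ∈ R

/-- `RStep R` is reversible for rotation-closed `R`: a rotation is undone by two rotations, crossing a
side is undone by crossing it again. -/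
theorem rstep_symm (hR : RotC R) {s t : α × α × α} (hs : s ∈ R) (h : RStep R s t) :
    Relation.ReflTransGen (RStep R) t s := by
  obtain ⟨a, b, c⟩ := s
  obtain ⟨ht, h | ⟨d, h⟩⟩ := h
  · simp only at h
    subst h
    have h2 : (c, a, b) ∈ R := hR ht
    exact (Relation.ReflTransGen.single (show RStep R (b, c, a) (c, a, b) from
      ⟨h2, Or.inl rfl⟩)).tail (show RStep R (c, a, b) (a, b, c) from ⟨hs, Or.inl rfl⟩)
  · simp only at h
    subst h
    exact Relation.ReflTransGen.single ⟨hs, Or.inr ⟨c, rfl⟩⟩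

theorem a1_mem {s t : α × α × α} (hs : s ∈ R) (h : Relation.ReflTransGen (RStep R) s t) :
    t ∈ R := by
  induction h with
  | refl => exact hs
  | tail _ h _ => exact h.1

theorem rstep_refl_symm (hR : RotC R) {s t : α × α × α} (hs : s ∈ R)
    (h : Relation.ReflTransGen (RStep R) s t) : Relation.ReflTransGen (RStep R) t s := by
  induction h with
  | refl => exact Relation.ReflTransGen.refl
  | tail h1 h2 ih => exact (rstep_symm hR (a1_mem hs h1) h2).trans ih

/-- all faces at a vertex are joined -/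
theorem IsSurf.a1_link (hF : IsSurf F) {v x y x' y' : α} (h : (v, x, y) ∈ F)
    (h' : (v, x', y') ∈ F) : Relation.ReflTransGen (RStep F) (v, x, y) (v, x', y') := by
  have hl := hF.link h h'
  induction hl generalizing y' with
  | refl =>
    obtain rfl := hF.uniq h h'
    exact Relation.ReflTransGen.refl
  | @tail b c _ h2 ih =>
    have h3 := ih h2
    have h4 : (b, c, v) ∈ F := hF.rot h2
    have h5 : (c, v, b) ∈ F := hF.rot h4
    exact ((h3.tail (⟨h4, Or.inl rfl⟩ : RStep F (v, b, c) (b, c, v))).tail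
      (⟨h5, Or.inl rfl⟩ : RStep F (b, c, v) (c, v, b))).tail ⟨h', Or.inr ⟨y', rfl⟩⟩

/-- Any two faces of a surface are joined by rotations and crossings of sides.  Proof: (i) all faces at
a vertex `v` are joined, since `(v,x,y), (v,y,z) ∈ F` are joined by rotating `(v,x,y)` to `(y,v,x)` and
crossing the side `yv` to the face `(v,y,z)`; use `link`.  (ii) for an edge `xy`, the face `(x,y,c)` is a
face at `x` and (rotated) at `y`; use `conn`. -/
theorem IsSurf.dual_conn (hF : IsSurf F) {s t : α × α × α} (hs : s ∈ F) (ht : t ∈ F) :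
    Relation.ReflTransGen (RStep F) s t := by
  obtain ⟨a, b, c⟩ := s
  obtain ⟨a', b', c'⟩ := t
  have hc := hF.conn (mem_vs.2 ⟨b, c, hs⟩) (mem_vs.2 ⟨b', c', ht⟩)
  induction hc generalizing b' c' with
  | refl => exact hF.a1_link hs ht
  | @tail x y _ h2 ih =>
    obtain ⟨z, hz⟩ := h2
    have h3 := ih y z hz
    have h4 : (y, z, x) ∈ F := hF.rot hz
    exact (h3.tail (⟨h4, Or.inl rfl⟩ : RStep F (x, y, z) (y, z, x))).trans (hF.a1_link h4 ht)

/-- A rotation-closed set of faces without boundary is everything. -/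
theorem IsSurf.eq_of_bd_empty (hF : IsSurf F) (hRF : R ⊆ F) (hR : RotC R) (hne : R.Nonempty)
    (hb : ∀ a b c d : α, (a, b, c) ∈ R → (b, a, d) ∈ F → (b, a, d) ∈ R) : R = F := by
  refine Finset.Subset.antisymm hRF fun t ht => ?_
  obtain ⟨s, hs⟩ := hne
  have h := hF.dual_conn (hRF hs) ht
  clear ht
  induction h with
  | refl => exact hs
  | @tail x y _ h2 ih =>
    obtain ⟨a, b, c⟩ := x
    obtain ⟨hy, h2 | ⟨d, h2⟩⟩ := h2
    · subst h2
      exact hR ih
    · subst h2
      exact hb _ _ _ _ ih hy

/-- Indicator (mod 2) of a face and its rotations. -/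
def fi (s t : α × α × α) : ZMod 2 :=
  if t = s ∨ t = (s.2.1, s.2.2, s.1) ∨ t = (s.2.2, s.1, s.2.1) then 1 else 0

/-- indicator of an edge -/
def a1e (a b x y : α) : ZMod 2 := if (x = a ∧ y = b) ∨ (x = b ∧ y = a) then 1 else 0

theorem a1_fi_rot (s : α × α × α) : fi (s.2.1, s.2.2, s.1) = fi s := by
  funext t
  unfold fi
  simp only
  congr 1
  apply propext
  constructor
  · rintro (h | h | h)
    · exact Or.inr (Or.inl h)
    · exact Or.inr (Or.inr h)
    · exact Or.inl h
  · rintro (h | h | h)
    · exact Or.inr (Or.inr h)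
    · exact Or.inl h
    · exact Or.inr (Or.inl h)

theorem a1_fi_eq (hF : IsSurf F) {a b c x y z : α} (h : (a, b, c) ∈ F) (h' : (x, y, z) ∈ F) :
    fi (a, b, c) (x, y, z) =
      if (x = a ∧ y = b) ∨ (z = a ∧ x = b) ∨ (y = a ∧ z = b) then 1 else 0 := by
  unfold fi
  simp only
  congr 1
  apply propext
  constructor
  · rintro (h1 | h1 | h1)
    · simp only [Prod.mk.injEq] at h1
      exact Or.inl ⟨h1.1, h1.2.1⟩
    · simp only [Prod.mk.injEq] at h1
      exact Or.inr (Or.inl ⟨h1.2.2, h1.1⟩)
    · simp only [Prod.mk.injEq] at h1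
      exact Or.inr (Or.inr ⟨h1.2.1, h1.2.2⟩)
  · rintro (⟨rfl, rfl⟩ | ⟨rfl, rfl⟩ | ⟨rfl, rfl⟩)
    · exact Or.inl (by rw [hF.uniq h h'])
    · refine Or.inr (Or.inl ?_)
      have h2 : (z, x, y) ∈ F := hF.rot (hF.rot h')
      rw [hF.uniq h h2]
    · refine Or.inr (Or.inr ?_)
      have h2 : (y, z, x) ∈ F := hF.rot h'
      rw [hF.uniq h h2]

theorem a1_edge (hF : IsSurf F) {a b c d x y z : α} (h : (a, b, c) ∈ F) (h' : (b, a, d) ∈ F)
    (hx : (x, y, z) ∈ F) :
    a1e a b x y + a1e a b y z + a1e a b z x = fi (a, b, c) (x, y, z) + fi (b, a, d) (x, y, z) := by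
  rw [a1_fi_eq hF h hx, a1_fi_eq hF h' hx]
  have n1 : x ≠ y := hF.ne hx
  have n2 : y ≠ z := hF.ne (hF.rot hx)
  have n3 : z ≠ x := hF.ne (hF.rot (hF.rot hx))
  have n4 : a ≠ b := hF.ne h
  unfold a1e
  by_cases h1 : x = a
  · subst h1
    by_cases h2 : y = b
    · subst h2
      simp [n1, n1.symm, n2, n2.symm, n3, n3.symm]
    · by_cases h3 : z = b
      · subst h3
        simp [n1, n1.symm, n2, n2.symm, n3, n3.symm]
      · simp [n1, n1.symm, n2, n2.symm, n3, n3.symm, h2, h3]
  · by_cases h1' : x = b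
    · subst h1'
      by_cases h2 : y = a
      · subst h2
        simp [n1, n1.symm, n2, n2.symm, n3, n3.symm]
      · by_cases h3 : z = a
        · subst h3
          simp [n1, n1.symm, n2, n2.symm, n3, n3.symm]
        · simp [n1, n1.symm, n2, n2.symm, n3, n3.symm, h1, h2, h3]
    · by_cases h2 : y = a
      · subst h2
        by_cases h3 : z = b
        · subst h3
          simp [n1, n1.symm, n2, n2.symm, n3, n3.symm]
        · simp [n1, n1.symm, n2, n2.symm, n3, n3.symm, h1, h1', h3]
      · by_cases h2' : y = b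
        · subst h2'
          by_cases h3 : z = a
          · subst h3
            simp [n1, n1.symm, n2, n2.symm, n3, n3.symm]
          · simp [n1, n1.symm, n2, n2.symm, n3, n3.symm, h1, h1', h2, h3]
        · simp [h1, h1', h2, h2']

/-- Telescoping: a dual path inside `R` from `s` to `t` gives a cochain `ω`, supported on the sides
crossed (sides with a face of `R` on both sides), with `δω = 1_s + 1_t`.  Induction on the path: crossing
the side `ab` from `(a,b,c)` to `(b,a,d)` adds the indicator of the edge `ab`, whose coboundary is the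
indicator of these two faces (`uniq`; in a simple triangulation the two faces are different up to
rotation unless there are only three vertices, and the formula is true also in this case since only
`(a,b,c)` and its rotations, `(b,a,d)` and its rotations contain the edge `ab`, each exactly once). -/
theorem tele (hF : IsSurf F) (hRF : R ⊆ F) (hR : RotC R) {s t : α × α × α} (hs : s ∈ R)
    (h : Relation.ReflTransGen (RStep R) s t) :
    ∃ ω : α → α → ZMod 2, (∀ a b, ω a b = ω b a) ∧
      (∀ a b, ω a b ≠ 0 → (∃ c, (a, b, c) ∈ R) ∧ ∃ d, (b, a, d) ∈ R) ∧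
      ∀ a b c, (a, b, c) ∈ F → ω a b + ω b c + ω c a = fi s (a, b, c) + fi t (a, b, c) := by
  induction h with
  | refl =>
    refine ⟨fun _ _ => 0, fun _ _ => rfl, fun a b h => absurd rfl h, fun a b c _ => ?_⟩
    rw [CharTwo.add_self_eq_zero (fi s (a, b, c))]
    simp
  | @tail u t h1 h2 ih =>
    obtain ⟨ω, hω1, hω2, hω3⟩ := ih
    have hu : u ∈ R := a1_mem hs h1
    obtain ⟨ht, h2 | ⟨d, h2⟩⟩ := h2
    · refine ⟨ω, hω1, hω2, fun a b c habc => ?_⟩
      rw [h2, a1_fi_rot]
      exact hω3 a b c habc
    · obtain ⟨p, q, r⟩ := u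
      simp only at h2
      subst h2
      refine ⟨fun x y => ω x y + a1e p q x y, fun x y => ?_, fun x y hxy => ?_,
        fun x y z hxyz => ?_⟩
      · have h3 : a1e p q x y = a1e p q y x := by
          unfold a1e
          congr 1
          apply propext
          constructor
          · rintro (⟨e1, e2⟩ | ⟨e1, e2⟩)
            · exact Or.inr ⟨e2, e1⟩
            · exact Or.inl ⟨e2, e1⟩
          · rintro (⟨e1, e2⟩ | ⟨e1, e2⟩)
            · exact Or.inr ⟨e2, e1⟩
            · exact Or.inl ⟨e2, e1⟩
        simp only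
        rw [hω1 x y, h3]
      · by_cases h3 : (x = p ∧ y = q) ∨ (x = q ∧ y = p)
        · rcases h3 with ⟨rfl, rfl⟩ | ⟨rfl, rfl⟩
          · exact ⟨⟨r, hu⟩, ⟨d, ht⟩⟩
          · exact ⟨⟨d, ht⟩, ⟨r, hu⟩⟩
        · apply hω2
          intro h4
          apply hxy
          simp only [h4, a1e, if_neg h3, add_zero]
      · have h3 := hω3 x y z hxyz
        have h4 := a1_edge hF (hRF hu) (hRF ht) hxyz
        have h5 : fi (p, q, r) (x, y, z) + fi (p, q, r) (x, y, z) = 0 :=
          CharTwo.add_self_eq_zero _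
        calc ω x y + a1e p q x y + (ω y z + a1e p q y z) + (ω z x + a1e p q z x)
            = (ω x y + ω y z + ω z x) + (a1e p q x y + a1e p q y z + a1e p q z x) := by ring
          _ = (fi s (x, y, z) + fi (p, q, r) (x, y, z)) +
                (fi (p, q, r) (x, y, z) + fi (q, p, d) (x, y, z)) := by rw [h3, h4]
          _ = fi s (x, y, z) + fi (q, p, d) (x, y, z) +
                (fi (p, q, r) (x, y, z) + fi (p, q, r) (x, y, z)) := by ring
          _ = _ := by rw [h5, add_zero]

end H19S
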