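import Pool.Agent.Lib.H19S.A1

/-!
# H19S, chunk A2: homology mod 2 by counting dimensions

Let `V = vs F`, `C0` = functions `V → ZMod 2`, `C1` = functions on `F` invariant under
`(a,b,c) ↦ (b,a,d)` (crossing; a fixed point free involution of `F`), i.e. functions of unoriented edges,
`C2` = functions on `F` invariant under rotation (free action of order 3).  Dimensions `|V|`, `|F|/2`,
`|F|/3` (a function invariant under a free action is given by its values on a transversal).
We use the maps `A : C0 → C1` (coboundary) and `B : C2 → C1` (transposed coboundary), whose kernels consist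
of constants (connectedness), and whose ranges are orthogonal for the dot product on functions of edges.
-/

namespace H19S

open Finset

section perp

open Module

variable {K : Type*} [Field K] {V E T : Type*} [Fintype V] [Fintype E] [Fintype T]

theorem perp_aux (A : (V → K) →ₗ[K] (E → K)) (B : (T → K) →ₗ[K] (E → K))
    (h : ∀ φ ρ, ∑ e, A φ e * B ρ e = 0) :
    finrank K (LinearMap.range A) + finrank K (LinearMap.range B) ≤ Fintype.card E ∧
    (Fintype.card E ≤ finrank K (LinearMap.range A) + finrank K (LinearMap.range B) →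
      ∀ ω : E → K, (∀ ρ, ∑ e, ω e * B ρ e = 0) → ∃ φ, A φ = ω) := by
  classical
  let D : LinearMap.BilinForm K (E → K) := dotProductBilin K K
  have hD : ∀ a b : E → K, D a b = ∑ e, a e * b e := fun a b => rfl
  have hnd : D.Nondegenerate := by
    constructor
    · intro a ha
      exact dotProduct_eq_zero_iff.1 fun w => ha w
    · intro a ha
      refine dotProduct_eq_zero_iff.1 fun w => ?_
      rw [dotProduct_comm]
      exact ha w
  have hle : LinearMap.range A ≤ D.orthogonal (LinearMap.range B) := by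
    rintro _ ⟨φ, rfl⟩
    rw [LinearMap.BilinForm.mem_orthogonal_iff]
    rintro _ ⟨ρ, rfl⟩
    change D _ _ = 0
    rw [hD, ← h φ ρ]
    exact Finset.sum_congr rfl fun e _ => mul_comm _ _
  have hfo := LinearMap.BilinForm.finrank_orthogonal hnd (LinearMap.range B)
  have hB : finrank K (LinearMap.range B) ≤ finrank K (E → K) := Submodule.finrank_le _
  have hE : finrank K (E → K) = Fintype.card E := Module.finrank_fintype_fun_eq_card K
  have hmono := Submodule.finrank_mono hle
  refine ⟨by omega, fun hc ω hω => ?_⟩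
  have heq : LinearMap.range A = D.orthogonal (LinearMap.range B) :=
    Submodule.eq_of_le_of_finrank_le hle (by omega)
  have : ω ∈ LinearMap.range A := by
    rw [heq, LinearMap.BilinForm.mem_orthogonal_iff]
    rintro _ ⟨ρ, rfl⟩
    change D _ _ = 0
    rw [hD, ← hω ρ]
    exact Finset.sum_congr rfl fun e _ => mul_comm _ _
  exact this

end perp

section absmap

variable {V T : Type*} [Fintype V] [Fintype T]

/-- orbits of an involution -/
def setE (κ : T → T) (hκ : ∀ t, κ (κ t) = t) : Setoid T where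
  r s t := s = t ∨ s = κ t
  iseqv := by
    refine ⟨fun s => Or.inl rfl, ?_, ?_⟩
    · rintro s t (h | h)
      · exact Or.inl h.symm
      · right; rw [h, hκ]
    · rintro s t u (h | h) (h' | h')
      · left; rw [h, h']
      · right; rw [h, h']
      · right; rw [h, h']
      · left; rw [h, h', hκ]

/-- orbits of a rotation of order three -/
def setT (r : T → T) (hr : ∀ t, r (r (r t)) = t) : Setoid T where
  r s t := s = t ∨ s = r t ∨ s = r (r t)
  iseqv := by
    refine ⟨fun s => Or.inl rfl, ?_, ?_⟩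
    · rintro s t (h | h | h)
      · exact Or.inl h.symm
      · right; right; rw [h, hr]
      · right; left; rw [h, hr]
    · rintro s t u (h | h | h) (h' | h' | h')
      · left; rw [h, h']
      · right; left; rw [h, h']
      · right; right; rw [h, h']
      · right; left; rw [h, h']
      · right; right; rw [h, h']
      · left; rw [h, h', hr]
      · right; right; rw [h, h']
      · left; rw [h, h', hr]
      · right; left; rw [h, h', hr]

open Classical in
theorem sum_setE (κ : T → T) (hκ : ∀ t, κ (κ t) = t) (hκ' : ∀ t, κ t ≠ t)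
    {M : Type*} [AddCommMonoid M] (g : T → M) :
    ∑ e : Quotient (setE κ hκ), (g e.out + g (κ e.out)) = ∑ t, g t := by
  letI := setE κ hκ
  rw [← Finset.sum_fiberwise univ (fun t => (⟦t⟧ : Quotient (setE κ hκ))) g]
  refine Finset.sum_congr rfl fun e _ => ?_
  have : (univ.filter fun t => (⟦t⟧ : Quotient (setE κ hκ)) = e) = {e.out, κ e.out} := by
    ext t
    rw [mem_filter, mem_insert, mem_singleton]
    constructor
    · rintro ⟨_, h⟩
      rw [← e.out_eq] at h
      exact Quotient.exact h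
    · intro h
      refine ⟨mem_univ _, ?_⟩
      rw [← e.out_eq]
      exact Quotient.sound h
  rw [this, sum_pair (hκ' _).symm]

open Classical in
theorem sum_setT (r : T → T) (hr : ∀ t, r (r (r t)) = t) (hr' : ∀ t, r t ≠ t)
    {M : Type*} [AddCommMonoid M] (g : T → M) :
    ∑ e : Quotient (setT r hr), (g e.out + (g (r e.out) + g (r (r e.out)))) = ∑ t, g t := by
  letI := setT r hr
  rw [← Finset.sum_fiberwise univ (fun t => (⟦t⟧ : Quotient (setT r hr))) g]
  refine Finset.sum_congr rfl fun e _ => ?_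
  have : (univ.filter fun t => (⟦t⟧ : Quotient (setT r hr)) = e) =
      {e.out, r e.out, r (r e.out)} := by
    ext t
    rw [mem_filter, mem_insert, mem_insert, mem_singleton]
    constructor
    · rintro ⟨_, h⟩
      rw [← e.out_eq] at h
      exact Quotient.exact h
    · intro h
      refine ⟨mem_univ _, ?_⟩
      rw [← e.out_eq]
      exact Quotient.sound h
  have h1 : e.out ∉ ({r e.out, r (r e.out)} : Finset T) := by
    rw [mem_insert, mem_singleton]
    rintro (h | h)
    · exact hr' _ h.symm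
    · apply hr' e.out
      conv_lhs => rw [h]
      rw [hr]
  rw [this, sum_insert h1, sum_pair (hr' _).symm]

theorem ker_bound {X E : Type*} [Fintype X] [Fintype E] [Nonempty X] {K : Type*} [Field K]
    (f : (X → K) →ₗ[K] (E → K)) (hf : ∀ φ, f φ = 0 → ∀ x y, φ x = φ y) :
    Fintype.card X ≤ Module.finrank K (LinearMap.range f) + 1 := by
  obtain ⟨x₀⟩ := ‹Nonempty X›
  have h1 := LinearMap.finrank_range_add_finrank_ker f
  rw [Module.finrank_fintype_fun_eq_card] at h1
  have h2 : Module.finrank K (LinearMap.ker f) ≤ 1 := by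
    have hinj : Function.Injective ((LinearMap.proj x₀ : (X → K) →ₗ[K] K).comp
        (LinearMap.ker f).subtype) := by
      intro a b hab
      apply Subtype.ext
      funext x
      have ha := hf a.1 a.2 x x₀
      have hb := hf b.1 b.2 x x₀
      rw [ha, hb]
      exact hab
    have := LinearMap.finrank_le_finrank_of_injective hinj
    rwa [Module.finrank_self] at this
  omega

theorem zmod2_add_self (x : ZMod 2) : x + x = 0 := CharTwo.add_self_eq_zero x

theorem zmod2_add_eq_zero {x y : ZMod 2} (h : x + y = 0) : x = y := CharTwo.add_eq_zero.1 h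

theorem absmap [Nonempty T] (κ r : T → T) (v : T → V)
    (hκ : ∀ t, κ (κ t) = t) (hκ' : ∀ t, κ t ≠ t) (hr : ∀ t, r (r (r t)) = t) (hr' : ∀ t, r t ≠ t)
    (hv : ∀ t, v (κ t) = v (r t))
    (hV : ∀ φ : V → ZMod 2, (∀ t, φ (v t) = φ (v (r t))) → ∀ x y, φ x = φ y)
    (hT : ∀ ρ : T → ZMod 2, (∀ t, ρ (r t) = ρ t) → (∀ t, ρ (κ t) = ρ t) → ∀ s t, ρ s = ρ t) :
    6 * Fintype.card V ≤ Fintype.card T + 12 ∧ (Fintype.card T + 12 = 6 * Fintype.card V →
      (∀ ω : T → ZMod 2, (∀ t, ω (κ t) = ω t) → (∀ t, ω t + ω (r t) + ω (r (r t)) = 0) →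
        ∃ φ : V → ZMod 2, ∀ t, ω t = φ (v t) + φ (v (r t))) ∧
      (∀ z : T → ZMod 2, (∀ t, z (κ t) = z t) →
        (∀ φ : V → ZMod 2, ∑ t, φ (v t) * z t = 0) →
        ∃ ρ : T → ZMod 2, (∀ t, ρ (r t) = ρ t) ∧ ∀ t, z t = ρ t + ρ (κ t))) := by
  classical
  letI iE : Setoid T := setE κ hκ
  let E := Quotient (setE κ hκ)
  let Q := Quotient (setT r hr)
  let q : T → Q := fun t => Quotient.mk (setT r hr) t
  have hq : ∀ t, q (r t) = q t := fun t => Quotient.sound (s := setT r hr) (Or.inr (Or.inl rfl))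
  have hqo : ∀ e : Q, q e.out = e := fun e => Quotient.out_eq e
  -- two cases for a half edge
  have hcase : ∀ t : T, t = (Quotient.mk (setE κ hκ) t).out ∨
      t = κ (Quotient.mk (setE κ hκ) t).out := by
    intro t
    have := Quotient.exact (Quotient.out_eq (Quotient.mk (setE κ hκ) t))
    rcases this with h | h
    · exact Or.inl h.symm
    · right; rw [h, hκ]
  have hvr : ∀ t, v (r (κ t)) = v t := by
    intro t
    rw [← hv, hκ]
  -- the linear maps
  let A : (V → ZMod 2) →ₗ[ZMod 2] (E → ZMod 2) :=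
    { toFun := fun φ e => φ (v e.out) + φ (v (r e.out))
      map_add' := by intro a b; ext e; simp only [Pi.add_apply]; ring
      map_smul' := by intro a b; ext e; simp only [Pi.smul_apply, smul_eq_mul, RingHom.id_apply]; ring }
  let B : (Q → ZMod 2) →ₗ[ZMod 2] (E → ZMod 2) :=
    { toFun := fun ρ e => ρ (q e.out) + ρ (q (κ e.out))
      map_add' := by intro a b; ext e; simp only [Pi.add_apply]; ring
      map_smul' := by intro a b; ext e; simp only [Pi.smul_apply, smul_eq_mul, RingHom.id_apply]; ring }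
  have hA : ∀ φ t, A φ (Quotient.mk (setE κ hκ) t) = φ (v t) + φ (v (r t)) := by
    intro φ t
    change φ (v (Quotient.mk (setE κ hκ) t).out) + φ (v (r (Quotient.mk (setE κ hκ) t).out)) = _
    rcases hcase t with h | h
    · rw [← h]
    · have h2 : (Quotient.mk (setE κ hκ) t).out = κ t := by
        conv_rhs => rw [h]
        rw [hκ]
      rw [h2, hvr, hv, add_comm]
  have hB : ∀ ρ t, B ρ (Quotient.mk (setE κ hκ) t) = ρ (q t) + ρ (q (κ t)) := by
    intro ρ t
    change ρ (q (Quotient.mk (setE κ hκ) t).out) + ρ (q (κ (Quotient.mk (setE κ hκ) t).out)) = _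
    rcases hcase t with h | h
    · rw [← h]
    · have h2 : (Quotient.mk (setE κ hκ) t).out = κ t := by
        conv_rhs => rw [h]
        rw [hκ]
      rw [h2, hκ, add_comm]
  -- rotation of sums
  have hrot : ∀ g : T → ZMod 2, ∑ t, g (r t) = ∑ t, g t := by
    intro g
    exact Fintype.sum_bijective r ⟨fun a b h => by rw [← hr a, h, hr], fun a => ⟨r (r a), hr a⟩⟩
      _ _ fun _ => rfl
  have hflip : ∀ g : T → ZMod 2, ∑ t, g (κ t) = ∑ t, g t := by
    intro g
    exact Fintype.sum_bijective κ ⟨fun a b h => by rw [← hκ a, h, hκ], fun a => ⟨κ a, hκ a⟩⟩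
      _ _ fun _ => rfl
  -- orthogonality against B of a general function on edges
  have hpB : ∀ (ω : T → ZMod 2) (ρ : Q → ZMod 2), (∀ t, ω (κ t) = ω t) →
      ∑ e : E, ω e.out * B ρ e = ∑ t, ω t * ρ (q t) := by
    intro ω ρ hω
    rw [← sum_setE κ hκ hκ' (fun t => ω t * ρ (q t))]
    refine Finset.sum_congr rfl fun e _ => ?_
    change ω e.out * (ρ (q e.out) + ρ (q (κ e.out))) = _
    rw [hω]; ring
  have hpA : ∀ (z : T → ZMod 2) (φ : V → ZMod 2), (∀ t, z (κ t) = z t) →
      ∑ e : E, z e.out * A φ e = ∑ t, φ (v t) * z t := by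
    intro z φ hz
    rw [← sum_setE κ hκ hκ' (fun t => φ (v t) * z t)]
    refine Finset.sum_congr rfl fun e _ => ?_
    change z e.out * (φ (v e.out) + φ (v (r e.out))) = _
    rw [hz, hv]; ring
  have hthree : ∀ (ω : T → ZMod 2) (ρ : Q → ZMod 2),
      (∀ t, ω t + ω (r t) + ω (r (r t)) = 0) → ∑ t, ω t * ρ (q t) = 0 := by
    intro ω ρ hω
    have h1 : ∑ t, ω (r t) * ρ (q t) = ∑ t, ω t * ρ (q t) := by
      rw [← hrot (fun t => ω t * ρ (q t))]
      exact Finset.sum_congr rfl fun t _ => by rw [hq]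
    have h2 : ∑ t, ω (r (r t)) * ρ (q t) = ∑ t, ω t * ρ (q t) := by
      rw [← hrot (fun t => ω t * ρ (q t)), ← hrot (fun t => ω (r t) * ρ (q (r t)))]
      exact Finset.sum_congr rfl fun t _ => by rw [hq, hq]
    have h3 : ∑ t, (ω t + ω (r t) + ω (r (r t))) * ρ (q t) = 0 :=
      Finset.sum_eq_zero fun t _ => by rw [hω, zero_mul]
    simp only [add_mul, Finset.sum_add_distrib, h1, h2] at h3
    rwa [zmod2_add_self, zero_add] at h3
  have horth : ∀ (φ : V → ZMod 2) (ρ : Q → ZMod 2), ∑ e, A φ e * B ρ e = 0 := by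
    intro φ ρ
    have h1 := hpB (fun t => φ (v t) + φ (v (r t))) ρ (fun t => by
      change φ (v (κ t)) + φ (v (r (κ t))) = _
      rw [hvr, hv, add_comm])
    rw [hthree _ ρ (fun t => by
      change (φ (v t) + φ (v (r t))) + (φ (v (r t)) + φ (v (r (r t)))) +
        (φ (v (r (r t))) + φ (v (r (r (r t))))) = 0
      rw [hr]
      have := zmod2_add_self (φ (v t) + φ (v (r t)) + φ (v (r (r t))))
      rw [← this]; ring)] at h1
    exact h1
  -- kernels
  obtain ⟨t₀⟩ := ‹Nonempty T›
  have hkA : Fintype.card V ≤ Module.finrank (ZMod 2) (LinearMap.range A) + 1 := by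
    haveI : Nonempty V := ⟨v t₀⟩
    refine ker_bound A fun φ hφ => hV φ fun t => ?_
    have := hA φ t
    rw [hφ] at this
    exact zmod2_add_eq_zero this.symm
  have hkB : Fintype.card Q ≤ Module.finrank (ZMod 2) (LinearMap.range B) + 1 := by
    haveI : Nonempty Q := ⟨q t₀⟩
    refine ker_bound B fun ρ hρ => ?_
    have h2 : ∀ s t, ρ (q s) = ρ (q t) := by
      refine hT (fun t => ρ (q t)) (fun t => by rw [hq]) (fun t => ?_)
      have := hB ρ t
      rw [hρ] at this
      exact (zmod2_add_eq_zero this.symm).symm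
    intro x y
    rw [← hqo x, ← hqo y]
    exact h2 _ _
  -- cardinalities
  have hcE : Fintype.card T = 2 * Fintype.card E := by
    have := sum_setE κ hκ hκ' (fun _ => (1 : ℕ))
    simp only [sum_const, card_univ, smul_eq_mul, mul_one] at this
    change Fintype.card E * (1 + 1) = _ at this
    omega
  have hcQ : Fintype.card T = 3 * Fintype.card Q := by
    have := sum_setT r hr hr' (fun _ => (1 : ℕ))
    simp only [sum_const, card_univ, smul_eq_mul, mul_one] at this
    change Fintype.card Q * (1 + (1 + 1)) = _ at this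
    omega
  obtain ⟨hp1, hp2⟩ := perp_aux A B horth
  refine ⟨by omega, fun heul => ⟨?_, ?_⟩⟩
  · intro ω hω hω3
    obtain ⟨φ, hφ⟩ := hp2 (by omega) (fun e => ω e.out) (fun ρ => by
      rw [hpB ω ρ hω, hthree ω ρ hω3])
    refine ⟨φ, fun t => ?_⟩
    rw [← hA φ t, hφ]
    change ω t = ω (Quotient.mk (setE κ hκ) t).out
    rcases hcase t with h | h
    · rw [← h]
    · conv_lhs => rw [h, hω]
  · intro z hz hz2
    have horth' : ∀ (ρ : Q → ZMod 2) (φ : V → ZMod 2), ∑ e, B ρ e * A φ e = 0 := fun ρ φ => by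
      rw [← horth φ ρ]
      exact Finset.sum_congr rfl fun e _ => mul_comm _ _
    obtain ⟨_, hp2'⟩ := perp_aux B A horth'
    obtain ⟨ρ, hρ⟩ := hp2' (by omega) (fun e => z e.out) (fun φ => by
      rw [hpA z φ hz, hz2])
    refine ⟨fun t => ρ (q t), fun t => by simp only [hq], fun t => ?_⟩
    rw [← hB ρ t, hρ]
    change z t = z (Quotient.mk (setE κ hκ) t).out
    rcases hcase t with h | h
    · rw [← h]
    · conv_lhs => rw [h, hz]

end absmap

variable {α : Type*} [DecidableEq α] {F : Finset (α × α × α)}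

/-- The abstract map of a surface. -/
theorem surf_main (hF : IsSurf F) :
    6 * (vs F).card ≤ F.card + 12 ∧ (F.card + 12 = 6 * (vs F).card →
      (∀ ω : α → α → ZMod 2, (∀ a b, ω a b = ω b a) →
        (∀ a b c, (a, b, c) ∈ F → ω a b + ω b c + ω c a = 0) →
        ∃ φ : α → ZMod 2, ∀ a b, Adj F a b → ω a b = φ a + φ b) ∧
      (∀ z : α → α → ZMod 2, (∀ a b, z a b = z b a) →
        (∀ x ∈ vs F, ∑ t ∈ F.filter (fun t => t.1 = x), z x t.2.1 = 0) →
        ∃ ρ : α × α × α → ZMod 2, (∀ a b c, (a, b, c) ∈ F → ρ (b, c, a) = ρ (a, b, c)) ∧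
          ∀ a b c d, (a, b, c) ∈ F → (b, a, d) ∈ F → z a b = ρ (a, b, c) + ρ (b, a, d))) := by
  classical
  let T := {t : α × α × α // t ∈ F}
  let V := {x : α // x ∈ vs F}
  haveI : Nonempty T := by
    obtain ⟨t, ht⟩ := hF.nonempty
    exact ⟨⟨t, ht⟩⟩
  let r : T → T := fun t => ⟨(t.1.2.1, t.1.2.2, t.1.1), hF.rot t.2⟩
  let κ : T → T := fun t => ⟨(t.1.2.1, t.1.1, (hF.opp (a := t.1.1) (b := t.1.2.1) (c := t.1.2.2) t.2).choose),
    (hF.opp (a := t.1.1) (b := t.1.2.1) (c := t.1.2.2) t.2).choose_spec⟩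
  let v : T → V := fun t => ⟨t.1.1, hF.vs1 t.2⟩
  have hκκ : ∀ t, κ (κ t) = t := by
    intro t
    apply Subtype.ext
    have h1 := (κ (κ t)).2
    have h2 : (κ (κ t)).1 = (t.1.1, t.1.2.1, (κ (κ t)).1.2.2) := rfl
    rw [h2] at h1
    have h3 : (κ (κ t)).1.2.2 = t.1.2.2 := hF.uniq h1 t.2
    rw [h2, h3]
  have hκne : ∀ t, κ t ≠ t := by
    intro t h
    have h1 : (κ t).1.1 = t.1.1 := by rw [h]
    exact hF.ne t.2 h1.symm
  have hrne : ∀ t, r t ≠ t := by
    intro t h
    have h1 : (r t).1.1 = t.1.1 := by rw [h]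
    exact hF.ne t.2 h1.symm
  have hV : ∀ φ : V → ZMod 2, (∀ t, φ (v t) = φ (v (r t))) → ∀ x y, φ x = φ y := by
    intro φ hφ x y
    have key : ∀ b : α, Relation.ReflTransGen (Adj F) x.1 b → ∀ hb : b ∈ vs F, φ x = φ ⟨b, hb⟩ := by
      intro b h
      induction h with
      | refl => intro hb; rfl
      | @tail b c _ hbc ih =>
        intro hc
        obtain ⟨d, hd⟩ := hbc
        have hb : b ∈ vs F := hF.vs1 hd
        rw [ih hb]
        exact hφ ⟨(b, c, d), hd⟩
    exact key y.1 (hF.conn x.2 y.2) y.2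
  have hT : ∀ ρ : T → ZMod 2, (∀ t, ρ (r t) = ρ t) → (∀ t, ρ (κ t) = ρ t) → ∀ s t, ρ s = ρ t := by
    intro ρ h1 h2 s t
    have key : ∀ u : α × α × α, Relation.ReflTransGen (RStep F) s.1 u → ∀ hu : u ∈ F,
        ρ s = ρ ⟨u, hu⟩ := by
      intro u h
      induction h with
      | refl => intro hu; rfl
      | @tail b c hsb hbc ih =>
        intro hc
        have hb : b ∈ F := by
          rcases Relation.ReflTransGen.cases_tail hsb with h | ⟨_, _, h⟩
          · rw [h]; exact s.2
          · exact h.1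
        rw [ih hb]
        obtain ⟨_, h | ⟨d, h⟩⟩ := hbc
        · subst h
          exact (h1 ⟨b, hb⟩).symm
        · subst h
          rw [← h2 ⟨b, hb⟩]
          congr 1
          apply Subtype.ext
          have h3 := (κ ⟨b, hb⟩).2
          have h4 : (κ ⟨b, hb⟩).1 = (b.2.1, b.1, (κ ⟨b, hb⟩).1.2.2) := rfl
          rw [h4] at h3
          rw [h4, hF.uniq h3 hc]
    exact key t.1 (hF.dual_conn s.2 t.2) t.2
  obtain ⟨m1, m2⟩ := absmap κ r v hκκ hκne (fun t => rfl) hrne (fun t => rfl) hV hT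
  have cV : Fintype.card V = (vs F).card := Fintype.card_coe _
  have cT : Fintype.card T = F.card := Fintype.card_coe _
  rw [cV, cT] at m1 m2
  refine ⟨m1, fun he => ?_⟩
  obtain ⟨n1, n2⟩ := m2 he
  constructor
  · intro ω hs hc
    obtain ⟨φ, hφ⟩ := n1 (fun t => ω t.1.1 t.1.2.1) (fun t => hs _ _) (fun t => hc _ _ _ t.2)
    refine ⟨fun x => if h : x ∈ vs F then φ ⟨x, h⟩ else 0, ?_⟩
    rintro a b ⟨c, hc⟩
    simp only [dif_pos (hF.vs1 hc), dif_pos (hF.vs2 hc)]
    exact hφ ⟨(a, b, c), hc⟩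
  · intro z hs he'
    obtain ⟨ρ, hρ1, hρ2⟩ := n2 (fun t => z t.1.1 t.1.2.1) (fun t => hs _ _) (fun φ => by
      have h1 : ∑ t : T, φ (v t) * z t.1.1 t.1.2.1 =
          ∑ t ∈ F, (if h : t.1 ∈ vs F then φ ⟨t.1, h⟩ else 0) * z t.1 t.2.1 := by
        rw [← Finset.sum_coe_sort F (fun t => (if h : t.1 ∈ vs F then φ ⟨t.1, h⟩ else 0) * z t.1 t.2.1)]
        refine Finset.sum_congr rfl fun t _ => ?_
        rw [dif_pos (hF.vs1 t.2)]
      rw [h1, ← sum_vs (F := F) (fun t => (if h : t.1 ∈ vs F then φ ⟨t.1, h⟩ else 0) * z t.1 t.2.1)]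
      refine Finset.sum_eq_zero fun x hx => ?_
      have h2 : ∑ t ∈ F.filter (fun t => t.1 = x),
          (if h : t.1 ∈ vs F then φ ⟨t.1, h⟩ else 0) * z t.1 t.2.1 =
          (if h : x ∈ vs F then φ ⟨x, h⟩ else 0) * ∑ t ∈ F.filter (fun t => t.1 = x), z x t.2.1 := by
        rw [Finset.mul_sum]
        refine Finset.sum_congr rfl fun t ht => ?_
        have htx : t.1 = x := (mem_filter.1 ht).2
        subst htx
        rfl
      rw [h2, he' x hx, mul_zero])
    refine ⟨fun t => if h : t ∈ F then ρ ⟨t, h⟩ else 0, ?_, ?_⟩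
    · intro a b c h
      simp only [dif_pos h, dif_pos (hF.rot h)]
      exact hρ1 ⟨(a, b, c), h⟩
    · intro a b c d h h'
      simp only [dif_pos h, dif_pos h']
      have h2 := hρ2 ⟨(a, b, c), h⟩
      have h3 : κ ⟨(a, b, c), h⟩ = ⟨(b, a, d), h'⟩ := by
        apply Subtype.ext
        have h3 := (κ ⟨(a, b, c), h⟩).2
        have h4 : (κ ⟨(a, b, c), h⟩).1 = (b, a, (κ ⟨(a, b, c), h⟩).1.2.2) := rfl
        rw [h4] at h3
        rw [h4, hF.uniq h3 h']
      rw [h3] at h2
      exact h2

theorem IsSurf.euler_le (hF : IsSurf F) : 6 * (vs F).card ≤ F.card + 12 := (surf_main hF).1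

/-- `H^1 = 0`: a closed cochain is a coboundary. -/
theorem IsTri.H1 (hF : IsTri F) (ω : α → α → ZMod 2) (hs : ∀ a b, ω a b = ω b a)
    (hc : ∀ a b c, (a, b, c) ∈ F → ω a b + ω b c + ω c a = 0) :
    ∃ φ : α → ZMod 2, ∀ a b, Adj F a b → ω a b = φ a + φ b :=
  ((surf_main hF.toIsSurf).2 hF.euler).1 ω hs hc

/-- `H_1 = 0`: a cycle is a boundary. -/
theorem IsTri.cyc_bd (hF : IsTri F) (z : α → α → ZMod 2) (hs : ∀ a b, z a b = z b a)
    (he : ∀ x ∈ vs F, ∑ t ∈ F.filter (fun t => t.1 = x), z x t.2.1 = 0) :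
    ∃ ρ : α × α × α → ZMod 2, (∀ a b c, (a, b, c) ∈ F → ρ (b, c, a) = ρ (a, b, c)) ∧
      ∀ a b c d, (a, b, c) ∈ F → (b, a, d) ∈ F → z a b = ρ (a, b, c) + ρ (b, a, d) :=
  ((surf_main hF.toIsSurf).2 hF.euler).2 z hs he

end H19S
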