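import Pool.Agent.Lib.H19S.A1

/-!
# H19S, chunk A3a: arcs in the link of a vertex
-/

namespace H19S

open Finset

variable {α : Type*} [DecidableEq α] {F R : Finset (α × α × α)}

/-- Link steps at `b` whose source is not `y1`. -/
def A3a_st (F : Finset (α × α × α)) (b y1 p q : α) : Prop := (b, p, q) ∈ F ∧ p ≠ y1

theorem A3a_adj (hF : IsSurf F) {b p q : α} (h : (b, p, q) ∈ F) : Adj F b q := by
  obtain ⟨d, hd⟩ := hF.opp (hF.rot2 h)
  exact ⟨d, hd⟩

/-- Arc of the link of `b` from (after) `y2` to `y1` (included), `w_i` the successor of `y_i`.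
Proof: let `P` be the set of all `p` which can be reached from `w2` by link steps `(b,p,q) ∈ F` with
source `p ≠ y1`.  The link of `b` is a single finite cycle on which the successor map is a bijection
(`uniq`, `uniq'`, `link`, `opp`).  `y1 ∈ P` (stop a path from `w2` to `y1` at its first visit to `y1`).
`w1 ∉ P`, `y2 ∉ P`: otherwise the successor map would map `P \ {y1}` ... (a path from `w2` to `y2` with no
source `y1` would be closed up by `y2 → w2` to a cycle not using the source `y1`, but the cycle is the whole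
link). -/
theorem IsSurf.arc (hF : IsSurf F) {b y1 w1 y2 w2 : α} (h1 : (b, y1, w1) ∈ F)
    (h2 : (b, y2, w2) ∈ F) (hne : y1 ≠ y2) :
    ∃ P : Finset α, y1 ∈ P ∧ y2 ∉ P ∧ w2 ∈ P ∧ w1 ∉ P ∧
      (∀ p q, (b, p, q) ∈ F → p ≠ y1 → p ≠ y2 → (p ∈ P ↔ q ∈ P)) ∧
      ∀ p ∈ P, Adj F b p := by
  classical
  have hR : ∀ p, Relation.ReflTransGen (A3a_st F b y1) w2 p → Adj F b p := by
    intro p hp
    cases hp with
    | refl => exact A3a_adj hF h2
    | tail _ h => exact A3a_adj hF h.1
  obtain ⟨d2, hd2⟩ := A3a_adj hF h2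
  -- the last step
  have hlast : ∀ p q, (b, p, q) ∈ F → Relation.ReflTransGen (A3a_st F b y1) w2 q →
      q = w2 ∨ (Relation.ReflTransGen (A3a_st F b y1) w2 p ∧ p ≠ y1) := by
    intro p q hpq hq
    cases hq with
    | refl => exact Or.inl rfl
    | @tail p' _ hp' hs =>
      have : p' = p := hF.uniq' hs.1 hpq
      subst this
      exact Or.inr ⟨hp', hs.2⟩
  have hy1 : Relation.ReflTransGen (A3a_st F b y1) w2 y1 := by
    have key : ∀ z, Relation.ReflTransGen (fun x y => (b, x, y) ∈ F) w2 z →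
        Relation.ReflTransGen (A3a_st F b y1) w2 z ∨
          Relation.ReflTransGen (A3a_st F b y1) w2 y1 := by
      intro z hz
      induction hz with
      | refl => exact Or.inl Relation.ReflTransGen.refl
      | @tail p q _ hpq ih =>
        rcases ih with ih | ih
        · by_cases hp : p = y1
          · subst hp
            exact Or.inr ih
          · exact Or.inl (ih.tail ⟨hpq, hp⟩)
        · exact Or.inr ih
    rcases key y1 (hF.link hd2 h1) with h | h <;> exact h
  have hw1 : ¬ Relation.ReflTransGen (A3a_st F b y1) w2 w1 := by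
    intro h
    rcases hlast y1 w1 h1 h with h3 | h3
    · subst h3
      exact hne (hF.uniq' h1 h2)
    · exact h3.2 rfl
  have hy2 : ¬ Relation.ReflTransGen (A3a_st F b y1) w2 y2 := by
    intro h
    have hQ : ∀ z, Relation.ReflTransGen (fun x y => (b, x, y) ∈ F) w2 z →
        Relation.ReflTransGen (A3a_st F b y1) z y2 := by
      intro z hz
      induction hz with
      | refl => exact h
      | @tail p q _ hpq ih =>
        rcases Relation.ReflTransGen.cases_head ih with h3 | ⟨c, hc, h3⟩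
        · rw [h3] at hpq
          have : q = w2 := hF.uniq hpq h2
          rw [this]
          exact h
        · have : q = c := hF.uniq hpq hc.1
          rw [this]
          exact h3
    have h3 := hQ y1 (hF.link hd2 h1)
    rcases Relation.ReflTransGen.cases_head h3 with h4 | ⟨c, hc, -⟩
    · exact hne h4
    · exact hc.2 rfl
  refine ⟨(nbr F b).filter fun p => Relation.ReflTransGen (A3a_st F b y1) w2 p, ?_, ?_, ?_, ?_,
    ?_, ?_⟩
  · exact mem_filter.2 ⟨mem_nbr.2 (hR _ hy1), hy1⟩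
  · intro h
    exact hy2 (mem_filter.1 h).2
  · exact mem_filter.2 ⟨mem_nbr.2 (hR _ Relation.ReflTransGen.refl), Relation.ReflTransGen.refl⟩
  · intro h
    exact hw1 (mem_filter.1 h).2
  · intro p q hpq hp1 hp2
    simp only [mem_filter, mem_nbr]
    constructor
    · rintro ⟨-, h⟩
      have := h.tail (show A3a_st F b y1 p q from ⟨hpq, hp1⟩)
      exact ⟨hR _ this, this⟩
    · rintro ⟨-, h⟩
      rcases hlast p q hpq h with h3 | h3
      · subst h3
        exact absurd (hF.uniq' hpq h2) hp2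
      · exact ⟨hR _ h3.1, h3.1⟩
  · intro p hp
    exact mem_nbr.1 (mem_filter.1 hp).1

theorem A3a_fi_rot (s : α × α × α) (x y z : α) : fi s (y, z, x) = fi s (x, y, z) := by
  obtain ⟨a, b, c⟩ := s
  unfold fi
  simp only [Prod.mk.injEq]
  refine if_congr ?_ rfl rfl
  constructor
  · rintro (⟨rfl, rfl, rfl⟩ | ⟨rfl, rfl, rfl⟩ | ⟨rfl, rfl, rfl⟩) <;> simp
  · rintro (⟨rfl, rfl, rfl⟩ | ⟨rfl, rfl, rfl⟩ | ⟨rfl, rfl, rfl⟩) <;> simp

theorem A3a_main (hF : IsSurf F) {b y1 w1 y2 w2 : α} (h1 : (b, y1, w1) ∈ F)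
    (h2 : (b, y2, w2) ∈ F) {P : Finset α} (hy1 : y1 ∈ P) (hy2 : y2 ∉ P) (hw2 : w2 ∈ P)
    (hw1 : w1 ∉ P)
    (hP : ∀ p q, (b, p, q) ∈ F → p ≠ y1 → p ≠ y2 → (p ∈ P ↔ q ∈ P))
    (y z : α) (hf : (b, y, z) ∈ F) :
    (if (b = b ∧ y ∈ P) ∨ (y = b ∧ b ∈ P) then (1 : ZMod 2) else 0) +
      (if (y = b ∧ z ∈ P) ∨ (z = b ∧ y ∈ P) then 1 else 0) +
      (if (z = b ∧ b ∈ P) ∨ (b = b ∧ z ∈ P) then 1 else 0) =
      fi (b, y1, w1) (b, y, z) + fi (b, y2, w2) (b, y, z) := by
  have hyb : y ≠ b := (hF.ne hf).symm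
  have hzb : z ≠ b := hF.ne3 hf
  have hy1b : y1 ≠ b := (hF.ne h1).symm
  have hw1b : w1 ≠ b := hF.ne3 h1
  have hy2b : y2 ≠ b := (hF.ne h2).symm
  have hw2b : w2 ≠ b := hF.ne3 h2
  have e1 : fi (b, y1, w1) (b, y, z) = if y = y1 then 1 else 0 := by
    unfold fi
    simp only [Prod.mk.injEq, true_and, hy1b.symm, hw1b.symm, false_and, or_false]
    by_cases h : y = y1
    · subst h
      have : z = w1 := hF.uniq hf h1
      simp [this]
    · simp [h]
  have e2 : fi (b, y2, w2) (b, y, z) = if y = y2 then 1 else 0 := by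
    unfold fi
    simp only [Prod.mk.injEq, true_and, hy2b.symm, hw2b.symm, false_and, or_false]
    by_cases h : y = y2
    · subst h
      have : z = w2 := hF.uniq hf h2
      simp [this]
    · simp [h]
  rw [e1, e2]
  simp only [true_and, hyb, hzb, false_and, or_false, false_or, if_false, add_zero]
  by_cases ha : y = y1
  · subst ha
    have hz : z = w1 := hF.uniq hf h1
    subst hz
    have hne : y ≠ y2 := fun h => hy2 (h ▸ hy1)
    simp [hy1, hw1, hne]
  · by_cases hb : y = y2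
    · subst hb
      have hz : z = w2 := hF.uniq hf h2
      subst hz
      simp [hy2, hw2, ha]
    · have := hP y z hf ha hb
      by_cases hc : y ∈ P
      · simp only [hc, this.1 hc, if_true, ha, hb, if_false]
        decide
      · have hd : z ∉ P := fun h => hc (this.2 h)
        simp [hc, hd, ha, hb]

/-- The cochain of the rotation around `b` through an arc `P`: its coboundary is the indicator of the
faces `(b,y1,w1)` and `(b,y2,w2)`. -/
theorem IsSurf.arc_cochain (hF : IsSurf F) {b y1 w1 y2 w2 : α} (h1 : (b, y1, w1) ∈ F)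
    (h2 : (b, y2, w2) ∈ F) {P : Finset α} (hy1 : y1 ∈ P) (hy2 : y2 ∉ P) (hw2 : w2 ∈ P)
    (hw1 : w1 ∉ P)
    (hP : ∀ p q, (b, p, q) ∈ F → p ≠ y1 → p ≠ y2 → (p ∈ P ↔ q ∈ P))
    (x y z : α) (hf : (x, y, z) ∈ F) :
    (if (x = b ∧ y ∈ P) ∨ (y = b ∧ x ∈ P) then 1 else 0) +
      (if (y = b ∧ z ∈ P) ∨ (z = b ∧ y ∈ P) then 1 else 0) +
      (if (z = b ∧ x ∈ P) ∨ (x = b ∧ z ∈ P) then 1 else 0) =
      fi (b, y1, w1) (x, y, z) + fi (b, y2, w2) (x, y, z) := by
  have hrot : ∀ p q r : ZMod 2, p + q + r = q + r + p := by decide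
  by_cases hx : x = b
  · subst hx
    exact A3a_main hF h1 h2 hy1 hy2 hw2 hw1 hP y z hf
  by_cases hy : y = b
  · subst hy
    have := A3a_main hF h1 h2 hy1 hy2 hw2 hw1 hP z x (hF.rot hf)
    rw [A3a_fi_rot (y, y1, w1) x y z, A3a_fi_rot (y, y2, w2) x y z] at this
    rw [hrot, this]
  by_cases hz : z = b
  · subst hz
    have := A3a_main hF h1 h2 hy1 hy2 hw2 hw1 hP x y (hF.rot2 hf)
    rw [← A3a_fi_rot (z, y1, w1) z x y, ← A3a_fi_rot (z, y2, w2) z x y] at this
    rw [← hrot, this]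
  · simp only [hx, hy, hz, false_and, or_false, if_false, add_zero]
    have hb1 : fi (b, y1, w1) (x, y, z) = 0 := by
      unfold fi
      simp only [Prod.mk.injEq]
      rw [if_neg]
      rintro (⟨h, -, -⟩ | ⟨-, -, h⟩ | ⟨-, h, -⟩)
      · exact hx h
      · exact hz h
      · exact hy h
    have hb2 : fi (b, y2, w2) (x, y, z) = 0 := by
      unfold fi
      simp only [Prod.mk.injEq]
      rw [if_neg]
      rintro (⟨h, -, -⟩ | ⟨-, -, h⟩ | ⟨-, h, -⟩)
      · exact hx h
      · exact hz h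
      · exact hy h
    rw [hb1, hb2, add_zero]

end H19S
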