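import Pool.Agent.Lib.H19S.A1

/-!
# H19S, chunk A3b: boundary sides of a set of faces
-/

namespace H19S

open Finset

variable {α : Type*} [DecidableEq α] {F R : Finset (α × α × α)}

theorem mem_bd {a b : α} : (a, b) ∈ bd R ↔ (∃ c, (a, b, c) ∈ R) ∧ ∀ d, (b, a, d) ∉ R := by
  unfold bd
  simp only [mem_filter, mem_image, Prod.exists, Prod.mk.injEq, ne_eq, Prod.forall]
  constructor
  · rintro ⟨⟨x, y, z, h, rfl, rfl⟩, h2⟩
    exact ⟨⟨z, h⟩, fun d hd => h2 _ _ _ hd ⟨rfl, rfl⟩⟩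
  · rintro ⟨⟨c, h⟩, h2⟩
    refine ⟨⟨a, b, c, h, rfl, rfl⟩, ?_⟩
    rintro x y z hd ⟨rfl, rfl⟩
    exact h2 _ hd

/-- The face `(b,q,c)` is in `R`, the previous one is not. -/
theorem A3b_out (hF : IsSurf F) (hRF : R ⊆ F) (hR : RotC R) {b p q c : α} (hq : (b, q, c) ∈ R)
    (hpF : (b, p, q) ∈ F) (hp : (b, p, q) ∉ R) : (b, q) ∈ bd R := by
  refine mem_bd.2 ⟨⟨c, hq⟩, fun d hd => hp ?_⟩
  have h1 : (b, d, q) ∈ R := hR hd
  have : d = p := hF.uniq' (hRF h1) hpF
  rwa [this] at h1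

/-- The face `(b,p,q)` is in `R`, the next one is not. -/
theorem A3b_in (hF : IsSurf F) (hRF : R ⊆ F) (hR : RotC R) {b p q c : α} (hp : (b, p, q) ∈ R)
    (hqF : (b, q, c) ∈ F) (hq : (b, q, c) ∉ R) : (q, b) ∈ bd R := by
  refine mem_bd.2 ⟨⟨p, hR (hR hp)⟩, fun d hd => hq ?_⟩
  have : d = c := hF.uniq (hRF hd) hqF
  rwa [this] at hd

/-- If `R` contains a face at `b` but not all faces at `b`, then there is an outgoing boundary side. -/
theorem IsSurf.exists_out (hF : IsSurf F) (hRF : R ⊆ F) (hR : RotC R) {b x y x' y' : α}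
    (h : (b, x, y) ∈ R) (h' : (b, x', y') ∈ F) (h'' : (b, x', y') ∉ R) : ∃ z, (b, z) ∈ bd R := by
  have key : ∀ z, Relation.ReflTransGen (fun p q => (b, p, q) ∈ F) x' z →
      ∀ c, (b, z, c) ∈ R → ∃ z', (b, z') ∈ bd R := by
    intro z hz
    induction hz with
    | refl =>
      intro c hc
      have : c = y' := hF.uniq (hRF hc) h'
      rw [this] at hc
      exact absurd hc h''
    | @tail p q _ hpq ih =>
      intro c hc
      by_cases hp : (b, p, q) ∈ R
      · exact ih q hp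
      · exact ⟨q, A3b_out hF hRF hR hc hpq hp⟩
  exact key x (hF.link h' (hRF h)) y h

/-- The incoming version. -/
theorem A3b_exists_in (hF : IsSurf F) (hRF : R ⊆ F) (hR : RotC R) {b x y x' y' : α}
    (h : (b, x, y) ∈ R) (h' : (b, x', y') ∈ F) (h'' : (b, x', y') ∉ R) :
    ∃ z, (z, b) ∈ bd R := by
  have key : ∀ z, Relation.ReflTransGen (fun p q => (b, p, q) ∈ F) x z →
      ∀ c, (b, z, c) ∈ F → (b, z, c) ∉ R → ∃ z', (z', b) ∈ bd R := by
    intro z hz
    induction hz with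
    | refl =>
      intro c hc hc'
      have : c = y := hF.uniq hc (hRF h)
      rw [this] at hc'
      exact absurd h hc'
    | @tail p q _ hpq ih =>
      intro c hc hc'
      by_cases hp : (b, p, q) ∈ R
      · exact ⟨q, A3b_in hF hRF hR hp hc hc'⟩
      · exact ih q hpq hp
  exact key x' (hF.link (hRF h) h') y' h' h''

/-- At every vertex there is an outgoing boundary side iff there is an incoming one. -/
theorem IsSurf.out_iff_in (hF : IsSurf F) (hRF : R ⊆ F) (hR : RotC R) (b : α) :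
    (∃ z, (b, z) ∈ bd R) ↔ ∃ z, (z, b) ∈ bd R := by
  constructor
  · rintro ⟨z, hz⟩
    obtain ⟨⟨c, hc⟩, hd⟩ := mem_bd.1 hz
    obtain ⟨d, hd'⟩ := hF.opp (hRF hc)
    exact A3b_exists_in hF hRF hR hc (hF.rot hd') fun h => hd d (hR (hR h))
  · rintro ⟨z, hz⟩
    obtain ⟨⟨c, hc⟩, hd⟩ := mem_bd.1 hz
    obtain ⟨d, hd'⟩ := hF.opp (hRF hc)
    exact hF.exists_out hRF hR (hR hc) hd' (hd d)

/-- If the outgoing boundary side at `b` is unique, all faces of `R` at `b` can be reached from it by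
link steps inside `R`.  Proof: going backward from a face `(b,p,q) ∈ R` with `p ≠ y`: the previous face
`(b,p',p)` is in `R` (else `(b,p) ∈ bd R`); going on we reach `y` because the link is a finite cycle
and `y` is on it. -/
theorem IsSurf.rarc (hF : IsSurf F) (hRF : R ⊆ F) (hR : RotC R) {b y : α} (hy : (b, y) ∈ bd R)
    (hu : ∀ z, (b, z) ∈ bd R → z = y) {p q : α} (hp : (b, p, q) ∈ R) :
    Relation.ReflTransGen (fun x x' => (b, x, x') ∈ R) y p := by
  obtain ⟨⟨c, hc⟩, -⟩ := mem_bd.1 hy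
  have key : ∀ z, Relation.ReflTransGen (fun p q => (b, p, q) ∈ F) y z →
      ∀ c, (b, z, c) ∈ R → Relation.ReflTransGen (fun x x' => (b, x, x') ∈ R) y z := by
    intro z hz
    induction hz with
    | refl =>
      intro c _
      exact Relation.ReflTransGen.refl
    | @tail p q _ hpq ih =>
      intro c hc
      by_cases hp : (b, p, q) ∈ R
      · exact (ih q hp).tail hp
      · have : q = y := hu q (A3b_out hF hRF hR hc hpq hp)
        rw [this]
  exact key p (hF.link (hRF hc) (hRF hp)) q hp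

/-- If the outgoing boundary side at `b` is unique then so is the incoming one. -/
theorem IsSurf.in_unique (hF : IsSurf F) (hRF : R ⊆ F) (hR : RotC R) {b : α}
    (hu : ∀ z z', (b, z) ∈ bd R → (b, z') ∈ bd R → z = z') {z z' : α} (h : (z, b) ∈ bd R)
    (h' : (z', b) ∈ bd R) : z = z' := by
  obtain ⟨y, hy⟩ := (hF.out_iff_in hRF hR b).2 ⟨z, h⟩
  obtain ⟨⟨c, hc⟩, hd⟩ := mem_bd.1 h
  obtain ⟨⟨c', hc'⟩, hd'⟩ := mem_bd.1 h'
  have h1 : Relation.ReflTransGen (fun x x' => (b, x, x') ∈ R) y z :=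
    (hF.rarc hRF hR hy (fun w hw => hu w y hw hy) (hR hc)).tail (hR hc)
  have h2 : Relation.ReflTransGen (fun x x' => (b, x, x') ∈ R) y z' :=
    (hF.rarc hRF hR hy (fun w hw => hu w y hw hy) (hR hc')).tail (hR hc')
  have hU : Relator.RightUnique (fun x x' => (b, x, x') ∈ R) := by
    intro p q r hq hr
    exact hF.uniq (hRF hq) (hRF hr)
  rcases Relation.ReflTransGen.total_of_right_unique hU h1 h2 with h3 | h3
  · rcases Relation.ReflTransGen.cases_head h3 with h4 | ⟨e, he, -⟩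
    · exact h4
    · exact absurd he (hd e)
  · rcases Relation.ReflTransGen.cases_head h3 with h4 | ⟨e, he, -⟩
    · exact h4.symm
    · exact absurd he (hd' e)

/-- A rotation-closed set `R`, `∅ ≠ R ≠ F`, has a boundary side. -/
theorem IsSurf.bd_nonempty (hF : IsSurf F) (hRF : R ⊆ F) (hR : RotC R) (hne : R.Nonempty)
    (hneF : R ≠ F) : (bd R).Nonempty := by
  by_contra hcon
  apply hneF
  refine hF.eq_of_bd_empty hRF hR hne fun a b c d hc hd => ?_
  by_contra hd'
  apply hcon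
  refine ⟨(a, b), mem_bd.2 ⟨⟨c, hc⟩, fun d' hd'' => ?_⟩⟩
  have : d' = d := hF.uniq (hRF hd'') hd
  rw [this] at hd''
  exact hd' hd''

/-- The boundary of the complement is the reversed boundary. -/
theorem IsSurf.bd_sdiff (hF : IsSurf F) (hRF : R ⊆ F) :
    bd (F \ R) = (bd R).image Prod.swap := by
  ext ⟨a, b⟩
  have h1 : (a, b) ∈ (bd R).image Prod.swap ↔ (b, a) ∈ bd R := by
    rw [mem_image]
    constructor
    · rintro ⟨⟨x, y⟩, h, h2⟩
      simp only [Prod.swap_prod_mk, Prod.mk.injEq] at h2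
      obtain ⟨rfl, rfl⟩ := h2
      exact h
    · intro h
      exact ⟨(b, a), h, rfl⟩
  rw [h1, mem_bd, mem_bd]
  simp only [mem_sdiff]
  constructor
  · rintro ⟨⟨c, hc, hc'⟩, h2⟩
    obtain ⟨d, hd⟩ := hF.opp hc
    refine ⟨⟨d, ?_⟩, fun d' hd' => ?_⟩
    · by_contra hd'
      exact h2 d ⟨hd, hd'⟩
    · have : d' = c := hF.uniq (hRF hd') hc
      rw [this] at hd'
      exact hc' hd'
  · rintro ⟨⟨c, hc⟩, h2⟩
    obtain ⟨d, hd⟩ := hF.opp (hRF hc)
    refine ⟨⟨d, hd, h2 d⟩, fun d' hd' => ?_⟩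
    have : d' = c := hF.uniq hd'.1 (hRF hc)
    rw [this] at hd'
    exact hd'.2 hc

end H19S
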