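import Pool.Agent.Lib.H19S.A3b

/-!
# H19S, chunk A4a: first facts on holes
-/

namespace H19S

open Finset

variable {α : Type*} [DecidableEq α] {F : Finset (α × α × α)} {K : Finset α} {y : α}

theorem a4a_mem_avoid {a b c : α} :
    (a, b, c) ∈ avoid F K ↔ (a, b, c) ∈ F ∧ a ∉ K ∧ b ∉ K ∧ c ∉ K := by
  unfold avoid
  rw [Finset.mem_filter]

theorem a4a_mem_hole {t : α × α × α} :
    t ∈ hole F K y ↔ t ∈ avoid F K ∧ ∃ b c, (y, b, c) ∈ avoid F K ∧
      Relation.ReflTransGen (RStep (avoid F K)) (y, b, c) t := by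
  classical
  unfold hole
  rw [Finset.mem_filter]

/-- (chunk A4a, easy) -/
theorem hole_subset : hole F K y ⊆ avoid F K := by
  intro t ht
  exact (a4a_mem_hole.mp ht).1

theorem hole_subset' : hole F K y ⊆ F := by
  intro t ht
  have h := hole_subset ht
  unfold avoid at h
  exact (Finset.mem_filter.mp h).1

theorem avoid_rotC (hF : IsSurf F) : RotC (avoid F K) := by
  intro a b c h
  rw [a4a_mem_avoid] at h ⊢
  exact ⟨hF.rot h.1, h.2.2.1, h.2.2.2, h.2.1⟩

theorem hole_rotC (hF : IsSurf F) : RotC (hole F K y) := by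
  intro a b c h
  rw [a4a_mem_hole] at h ⊢
  obtain ⟨h1, b0, c0, h2, h3⟩ := h
  have h4 := avoid_rotC hF h1
  exact ⟨h4, b0, c0, h2, h3.tail ⟨h4, Or.inl rfl⟩⟩

/-- A face avoiding `K` on the other side of a side of a face of the hole is in the hole. -/
theorem hole_cross (hF : IsSurf F) {a b c d : α} (h : (a, b, c) ∈ hole F K y)
    (h' : (b, a, d) ∈ avoid F K) : (b, a, d) ∈ hole F K y := by
  rw [a4a_mem_hole] at h ⊢
  obtain ⟨h1, b0, c0, h2, h3⟩ := h
  exact ⟨h', b0, c0, h2, h3.tail ⟨h', Or.inr ⟨d, rfl⟩⟩⟩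

/-- The third vertex of the outer face at a boundary side of a hole is in `K`. -/
theorem hole_bd_third (hF : IsSurf F) {a b : α} (h : (a, b) ∈ bd (hole F K y)) :
    ∃ k ∈ K, (b, a, k) ∈ F := by
  rw [mem_bd] at h
  obtain ⟨⟨c, hc⟩, h2⟩ := h
  obtain ⟨d, hd⟩ := hF.opp (hole_subset' hc)
  refine ⟨d, ?_, hd⟩
  by_contra hdK
  have h3 := a4a_mem_avoid.mp (hole_subset hc)
  have h4 : (b, a, d) ∈ avoid F K := a4a_mem_avoid.mpr ⟨hd, h3.2.2.1, h3.2.1, hdK⟩
  exact h2 d (hole_cross hF hc h4)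

/-- Vertices of the hole are not in `K`. -/
theorem hole_not_mem (hF : IsSurf F) {x : α} (h : x ∈ vs (hole F K y)) : x ∉ K := by
  rw [mem_vs] at h
  obtain ⟨a, b, hab⟩ := h
  exact (a4a_mem_avoid.mp (hole_subset hab)).2.1

theorem a4a_path {s t : α × α × α} (hs : s ∈ hole F K y)
    (h : Relation.ReflTransGen (RStep (avoid F K)) s t) :
    t ∈ hole F K y ∧ Relation.ReflTransGen (RStep (hole F K y)) s t := by
  induction h with
  | refl => exact ⟨hs, Relation.ReflTransGen.refl⟩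
  | tail _ hbc ih =>
    obtain ⟨h1, h2⟩ := ih
    rw [a4a_mem_hole] at h1
    obtain ⟨h3, b0, c0, h4, h5⟩ := h1
    have h6 : _ ∈ hole F K y := a4a_mem_hole.mpr ⟨hbc.1, b0, c0, h4, h5.tail hbc⟩
    exact ⟨h6, h2.tail ⟨h6, hbc.2⟩⟩

theorem a4a_star (hF : IsSurf F) (hy : y ∈ inner F (hole F K y)) {b c b' c' : α}
    (h : (y, b, c) ∈ F) (h' : (y, b', c') ∈ F) :
    Relation.ReflTransGen (RStep (hole F K y)) (y, b, c) (y, b', c') := by
  have hin : ∀ p q, (y, p, q) ∈ F → (y, p, q) ∈ hole F K y := by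
    intro p q hpq
    unfold inner at hy
    exact (Finset.mem_filter.mp hy).2 _ hpq rfl
  have hl := hF.link h h'
  have key : ∀ p, Relation.ReflTransGen (fun x y' => (y, x, y') ∈ F) b p →
      ∀ q, (y, p, q) ∈ F → Relation.ReflTransGen (RStep (hole F K y)) (y, b, c) (y, p, q) := by
    intro p hp
    induction hp with
    | refl =>
      intro q hq
      rw [hF.uniq h hq]
    | tail hbc hstep ih =>
      intro q hq
      have h1 := ih _ hstep
      have h2 := hin _ _ hstep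
      have h3 := hole_rotC hF h2
      have h4 := hole_rotC hF h3
      have h5 := hin _ _ hq
      exact ((h1.tail ⟨h3, Or.inl rfl⟩).tail ⟨h4, Or.inl rfl⟩).tail ⟨h5, Or.inr ⟨q, rfl⟩⟩
  exact key b' hl c' h'

/-- If all faces at `y` avoid `K` or more generally if `(y,b,c) ∈ hole F K y`, the hole is connected:
any two of its faces are joined inside the hole by `RStep (hole F K y)`, PROVIDED all faces at `y` which avoid
`K` are joined; this is the case if `y ∈ inner F (hole F K y)`. -/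
theorem hole_conn (hF : IsSurf F) (hy : y ∈ inner F (hole F K y)) {s t : α × α × α}
    (hs : s ∈ hole F K y) (ht : t ∈ hole F K y) :
    Relation.ReflTransGen (RStep (hole F K y)) s t := by
  have hs' := hs
  have ht' := ht
  rw [a4a_mem_hole] at hs' ht'
  obtain ⟨_, b1, c1, h1, h2⟩ := hs'
  obtain ⟨_, b2, c2, h3, h4⟩ := ht'
  have h5 : (y, b1, c1) ∈ hole F K y :=
    a4a_mem_hole.mpr ⟨h1, b1, c1, h1, Relation.ReflTransGen.refl⟩
  have h6 : (y, b2, c2) ∈ hole F K y :=
    a4a_mem_hole.mpr ⟨h3, b2, c2, h3, Relation.ReflTransGen.refl⟩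
  have h7 := rstep_refl_symm (hole_rotC hF) h5 (a4a_path h5 h2).2
  have h8 := a4a_star hF hy (hole_subset' h5) (hole_subset' h6)
  exact (h7.trans h8).trans (a4a_path h6 h4).2

/-- If `y` is inner for its hole then all faces at `y` avoid `K` and are in the hole. -/
theorem inner_hole_iff (hF : IsSurf F) :
    y ∈ inner F (hole F K y) ↔ y ∈ vs F ∧ ∀ b c, (y, b, c) ∈ F → (y, b, c) ∈ avoid F K := by
  constructor
  · intro h
    unfold inner at h
    rw [Finset.mem_filter] at h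
    refine ⟨?_, ?_⟩
    · obtain ⟨a, b, hab⟩ := mem_vs.mp h.1
      exact mem_vs.mpr ⟨a, b, hole_subset' hab⟩
    · intro b c hbc
      exact hole_subset (h.2 _ hbc rfl)
  · rintro ⟨h1, h2⟩
    have h3 : ∀ b c, (y, b, c) ∈ F → (y, b, c) ∈ hole F K y := by
      intro b c hbc
      have h4 := h2 b c hbc
      exact a4a_mem_hole.mpr ⟨h4, b, c, h4, Relation.ReflTransGen.refl⟩
    unfold inner
    rw [Finset.mem_filter]
    refine ⟨?_, ?_⟩
    · obtain ⟨a, b, hab⟩ := mem_vs.mp h1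
      exact mem_vs.mpr ⟨a, b, h3 a b hab⟩
    · rintro ⟨t1, t2, t3⟩ ht htx
      simp only at htx
      subst htx
      exact h3 t2 t3 ht

end H19S
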