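import Pool.Agent.Lib.H19S.A4a
import Pool.Agent.Lib.H19S.A3a

/-!
# H19S, chunk A4b: the star of a connected set
-/

namespace H19S

open Finset

variable {α : Type*} [DecidableEq α] {F : Finset (α × α × α)}

/-- The two faces are joined by a cochain supported on the edges at `K`. -/
def A4b_J (F : Finset (α × α × α)) (K : Set α) (s t : α × α × α) : Prop :=
  ∃ ω : α → α → ZMod 2, (∀ a b, ω a b = ω b a) ∧ (∀ a b, ω a b ≠ 0 → a ∈ K ∨ b ∈ K) ∧
      ∀ a b c, (a, b, c) ∈ F → ω a b + ω b c + ω c a = fi s (a, b, c) + fi t (a, b, c)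

theorem A4b_fi_rot (a b c : α) (t : α × α × α) : fi (b, c, a) t = fi (a, b, c) t := by
  obtain ⟨x, y, z⟩ := t
  unfold fi
  simp only [Prod.mk.injEq]
  refine if_congr ?_ rfl rfl
  constructor
  · rintro (⟨rfl, rfl, rfl⟩ | ⟨rfl, rfl, rfl⟩ | ⟨rfl, rfl, rfl⟩) <;> simp
  · rintro (⟨rfl, rfl, rfl⟩ | ⟨rfl, rfl, rfl⟩ | ⟨rfl, rfl, rfl⟩) <;> simp

theorem A4b_two (x : ZMod 2) : x + x = 0 := by
  revert x
  decide

theorem A4b_refl {K : Set α} (s : α × α × α) : A4b_J F K s s :=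
  ⟨fun _ _ => 0, fun _ _ => rfl, fun _ _ h => absurd rfl h, fun a b c _ => by
    rw [A4b_two (fi s (a, b, c))]; rfl⟩

theorem A4b_trans {K : Set α} {s t r : α × α × α} (h : A4b_J F K s t) (h' : A4b_J F K t r) :
    A4b_J F K s r := by
  obtain ⟨ω, h1, h2, h3⟩ := h
  obtain ⟨ω', h1', h2', h3'⟩ := h'
  refine ⟨fun a b => ω a b + ω' a b, fun a b => by simp only [h1 a b, h1' a b], fun a b hab => ?_,
    fun a b c habc => ?_⟩
  · by_cases h4 : ω a b = 0
    · refine h2' a b fun h5 => hab ?_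
      simp only [h4, h5, add_zero]
    · exact h2 a b h4
  · have e1 := h3 a b c habc
    have e2 := h3' a b c habc
    have e3 := A4b_two (fi t (a, b, c))
    calc (ω a b + ω' a b) + (ω b c + ω' b c) + (ω c a + ω' c a)
        = (ω a b + ω b c + ω c a) + (ω' a b + ω' b c + ω' c a) := by ring
      _ = (fi s (a, b, c) + fi t (a, b, c)) + (fi t (a, b, c) + fi r (a, b, c)) := by rw [e1, e2]
      _ = fi s (a, b, c) + (fi t (a, b, c) + fi t (a, b, c)) + fi r (a, b, c) := by ring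
      _ = _ := by rw [e3, add_zero]

theorem A4b_symm {K : Set α} {s t : α × α × α} (h : A4b_J F K s t) : A4b_J F K t s := by
  obtain ⟨ω, h1, h2, h3⟩ := h
  exact ⟨ω, h1, h2, fun a b c habc => by rw [h3 a b c habc, add_comm]⟩

theorem A4b_rot {K : Set α} {a b c : α} {t : α × α × α} (h : A4b_J F K (a, b, c) t) :
    A4b_J F K (b, c, a) t := by
  obtain ⟨ω, h1, h2, h3⟩ := h
  exact ⟨ω, h1, h2, fun x y z hxyz => by rw [h3 x y z hxyz, A4b_fi_rot a b c]⟩

/-- Two faces at a vertex of `K`. -/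
theorem A4b_vertex (hF : IsSurf F) {K : Set α} {k y1 w1 y2 w2 : α} (hk : k ∈ K)
    (h1 : (k, y1, w1) ∈ F) (h2 : (k, y2, w2) ∈ F) : A4b_J F K (k, y1, w1) (k, y2, w2) := by
  by_cases hne : y1 = y2
  · subst hne
    have : w1 = w2 := hF.uniq h1 h2
    rw [this]
    exact A4b_refl _
  · obtain ⟨P, hy1, hy2, hw2, hw1, hP, -⟩ := hF.arc h1 h2 hne
    refine ⟨fun a b => if (a = k ∧ b ∈ P) ∨ (b = k ∧ a ∈ P) then 1 else 0, fun a b => ?_,
      fun a b hab => ?_, fun a b c habc => ?_⟩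
    · exact if_congr or_comm rfl rfl
    · by_contra hcon
      rw [not_or] at hcon
      apply hab
      refine if_neg ?_
      rintro (⟨rfl, -⟩ | ⟨rfl, -⟩)
      · exact hcon.1 hk
      · exact hcon.2 hk
    · exact hF.arc_cochain h1 h2 hy1 hy2 hw2 hw1 hP a b c habc

theorem A4b_path (hF : IsSurf F) {K : Set α} {k k' x y : α} (hk : k ∈ K) (h1 : (k, x, y) ∈ F)
    (hp : Relation.ReflTransGen (fun p q => q ∈ K ∧ Adj F p q) k k') :
    ∀ x' y', (k', x', y') ∈ F → A4b_J F K (k, x, y) (k', x', y') := by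
  induction hp with
  | refl =>
    intro x' y' h2
    exact A4b_vertex hF hk h1 h2
  | @tail p q _ hpq ih =>
    intro x' y' h2
    obtain ⟨z, hz⟩ := hpq.2
    have h3 := ih q z hz
    have h4 := A4b_vertex hF hpq.1 (hF.rot hz) h2
    exact A4b_trans h3 (A4b_rot (A4b_rot h4))

/-- A face with a vertex in `K` is joined to a face whose first vertex is in `K`. -/
theorem A4b_first (hF : IsSurf F) {K : Set α} {s : α × α × α} (hs : s ∈ F)
    (hsK : s.1 ∈ K ∨ s.2.1 ∈ K ∨ s.2.2 ∈ K) :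
    ∃ k x y, k ∈ K ∧ (k, x, y) ∈ F ∧ A4b_J F K s (k, x, y) := by
  obtain ⟨a, b, c⟩ := s
  rcases hsK with h | h | h
  · exact ⟨a, b, c, h, hs, A4b_refl _⟩
  · exact ⟨b, c, a, h, hF.rot hs, A4b_symm (A4b_rot (A4b_refl _))⟩
  · exact ⟨c, a, b, h, hF.rot2 hs, A4b_symm (A4b_rot (A4b_rot (A4b_refl _)))⟩

/-- (chunk A4b) For a nonempty connected set `K` the star of `K` is connected: cochain supported on edges with an
endpoint in `K` joining two faces with a vertex in `K`.  Proof: as in `tele`; rotate around vertices `k ∈ K`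
(crossing edges at `k`), and pass from `k` to an adjacent `k' ∈ K` using a common face. -/
theorem kstar (hF : IsSurf F) {K : Set α} (hK : ConnIn F K) {s t : α × α × α}
    (hs : s ∈ F) (ht : t ∈ F) (hsK : s.1 ∈ K ∨ s.2.1 ∈ K ∨ s.2.2 ∈ K)
    (htK : t.1 ∈ K ∨ t.2.1 ∈ K ∨ t.2.2 ∈ K) :
    ∃ ω : α → α → ZMod 2, (∀ a b, ω a b = ω b a) ∧
      (∀ a b, ω a b ≠ 0 → a ∈ K ∨ b ∈ K) ∧
      ∀ a b c, (a, b, c) ∈ F → ω a b + ω b c + ω c a = fi s (a, b, c) + fi t (a, b, c) := by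
  obtain ⟨k, x, y, hk, h1, h2⟩ := A4b_first hF hs hsK
  obtain ⟨k', x', y', hk', h1', h2'⟩ := A4b_first hF ht htK
  exact A4b_trans (A4b_trans h2 (A4b_path hF hk h1 (hK k hk k' hk') x' y' h1')) (A4b_symm h2')

end H19S
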