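import Pool.Agent.Lib.H19S.A2
import Pool.Agent.Lib.H19S.A3a
import Pool.Agent.Lib.H19S.A4a

/-!
# H19S, chunk A4c: outgoing boundary sides of a hole are unique
-/

namespace H19S

open Finset

variable {α : Type*} [DecidableEq α] {F : Finset (α × α × α)} {K : Finset α} {y : α}

omit [DecidableEq α] in
theorem A4c_const {K : Set α} {φ : α → ZMod 2} (hK : ConnIn F K)
    (h : ∀ p q, p ∈ K → q ∈ K → Adj F p q → φ p = φ q) {x z : α} (hx : x ∈ K) (hz : z ∈ K) :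
    φ x = φ z := by
  have key : ∀ w, Relation.ReflTransGen (fun p q => q ∈ K ∧ Adj F p q) x w → w ∈ K ∧ φ x = φ w := by
    intro w hw
    induction hw with
    | refl => exact ⟨hx, rfl⟩
    | tail _ h2 ih => exact ⟨h2.1, ih.2.trans (h _ _ ih.1 h2.1 h2.2)⟩
  exact (key z (hK x hx z hz)).2

theorem A4c_two (a : ZMod 2) : a + a = 0 := by
  revert a; decide

/-- (chunk A4c) Outgoing boundary sides of a hole are unique at each vertex.  Let `(b,y1), (b,y2)` be boundary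
sides, `y1 ≠ y2`, `(b,k_i,y_i) ∈ F`; then `k_i ∈ K` by `hole_bd_third`.  Let `(b,y_i,w_i)` be the faces of the
hole.  `ω` = (cochain of a path inside the hole between these two faces, `tele`) + (rotation around `b` from
`(b,y2,w2)` to `(b,y1,w1)`, `arc`, `arc_cochain`); it is closed, so `ω = δφ` by `IsTri.H1`.  No edge inside
`K` is crossed (edges crossed inside the hole have no vertex in `K`; `b ∉ K`), so `φ` is constant on `K`
(`ConnIn`).  But `k1 ∈ P` (as `y1 ∈ P`, `k1 ≠ y1`, `k1 ≠ y2` because `y2 ∉ K`) and `k2 ∉ P`, so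
`φ k1 + φ b = 1` and `φ k2 + φ b = 0`. -/
theorem hole_out_unique (hF : IsTri F) (hK : ConnIn F (K : Set α))
    (hy : y ∈ inner F (hole F K y)) {b y1 y2 : α} (h1 : (b, y1) ∈ bd (hole F K y))
    (h2 : (b, y2) ∈ bd (hole F K y)) : y1 = y2 := by
  classical
  by_contra hne
  obtain ⟨⟨w1, hw1⟩, -⟩ := mem_bd.1 h1
  obtain ⟨⟨w2, hw2⟩, -⟩ := mem_bd.1 h2
  obtain ⟨k1, hk1, hf1⟩ := hole_bd_third hF.toIsSurf h1
  obtain ⟨k2, hk2, hf2⟩ := hole_bd_third hF.toIsSurf h2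
  have hf1' := hF.rot hf1
  have hf2' := hF.rot hf2
  have hrc : RotC (hole F K y) := hole_rotC hF.toIsSurf
  have hb : b ∉ K := hole_not_mem hF.toIsSurf (mem_vs.2 ⟨_, _, hw1⟩)
  have hy1 : y1 ∉ K := hole_not_mem hF.toIsSurf (mem_vs.2 ⟨_, _, hrc hw1⟩)
  have hy2 : y2 ∉ K := hole_not_mem hF.toIsSurf (mem_vs.2 ⟨_, _, hrc hw2⟩)
  obtain ⟨P, hP1, hP2, hP3, hP4, hP5, -⟩ := hF.arc (hole_subset' hw1) (hole_subset' hw2) hne
  have hk1P : k1 ∈ P := by
    rw [hP5 k1 y1 hf1' (hF.ne2 hf1') (fun h => hy2 (h ▸ hk1))]; exact hP1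
  have hk2P : k2 ∉ P := by
    rw [hP5 k2 y2 hf2' (fun h => hy1 (h ▸ hk2)) (hF.ne2 hf2')]; exact hP2
  obtain ⟨ω1, hs1, hn1, hd1⟩ := tele hF.toIsSurf hole_subset' hrc hw1
    (hole_conn hF.toIsSurf hy hw1 hw2)
  have hn1' : ∀ p q, p ∈ K → ω1 p q = 0 := by
    intro p q hp
    by_contra h0
    obtain ⟨⟨c, hc⟩, -⟩ := hn1 p q h0
    exact hole_not_mem hF.toIsSurf (mem_vs.2 ⟨_, _, hc⟩) hp
  set ω2 : α → α → ZMod 2 := fun p q => if (p = b ∧ q ∈ P) ∨ (q = b ∧ p ∈ P) then 1 else 0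
    with hω2
  have hd2 : ∀ p q r, (p, q, r) ∈ F → ω2 p q + ω2 q r + ω2 r p
      = fi (b, y1, w1) (p, q, r) + fi (b, y2, w2) (p, q, r) := by
    intro p q r hpqr
    exact hF.arc_cochain (hole_subset' hw1) (hole_subset' hw2) hP1 hP2 hP3 hP4 hP5 p q r hpqr
  obtain ⟨φ, hφ⟩ := hF.H1 (fun p q => ω1 p q + ω2 p q)
    (fun p q => by
      show ω1 p q + ω2 p q = ω1 q p + ω2 q p
      rw [hs1 p q]
      congr 1
      simp only [hω2]
      exact if_congr (Or.comm) rfl rfl)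
    (fun p q r hpqr => by
      have e1 := hd1 p q r hpqr
      have e2 := hd2 p q r hpqr
      show ω1 p q + ω2 p q + (ω1 q r + ω2 q r) + (ω1 r p + ω2 r p) = 0
      calc ω1 p q + ω2 p q + (ω1 q r + ω2 q r) + (ω1 r p + ω2 r p)
          = (ω1 p q + ω1 q r + ω1 r p) + (ω2 p q + ω2 q r + ω2 r p) := by ring
        _ = 0 := by rw [e1, e2]; exact A4c_two _)
  have hc : φ k1 = φ k2 := by
    apply A4c_const hK _ (Finset.mem_coe.2 hk1) (Finset.mem_coe.2 hk2)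
    intro p q hp hq hpq
    have hp' : p ∈ K := Finset.mem_coe.1 hp
    have hq' : q ∈ K := Finset.mem_coe.1 hq
    have h0 := hφ p q hpq
    have h2 : ω2 p q = 0 := by
      simp only [hω2]
      rw [if_neg]
      rintro (⟨h, -⟩ | ⟨h, -⟩)
      · exact hb (h ▸ hp')
      · exact hb (h ▸ hq')
    simp only [hn1' p q hp', h2, add_zero] at h0
    calc φ p = φ p + φ q + φ q := by rw [add_assoc, A4c_two, add_zero]
      _ = φ q := by rw [← h0, zero_add]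
  have e1 := hφ b k1 ⟨_, hf1'⟩
  have e2 := hφ b k2 ⟨_, hf2'⟩
  have z1 : ω1 b k1 = 0 := by rw [hs1]; exact hn1' _ _ hk1
  have z2 : ω1 b k2 = 0 := by rw [hs1]; exact hn1' _ _ hk2
  have u1 : ω2 b k1 = 1 := if_pos (Or.inl ⟨rfl, hk1P⟩)
  have u2 : ω2 b k2 = 0 := by
    simp only [hω2]
    rw [if_neg]
    rintro (⟨-, h⟩ | ⟨h, -⟩)
    · exact hk2P h
    · exact hb (h ▸ hk2)
  simp only [z1, u1, zero_add] at e1
  simp only [z2, u2, zero_add] at e2
  rw [hc, ← e2] at e1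
  exact one_ne_zero e1

end H19S
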