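import Pool.Agent.Lib.H19S.A4b
import Pool.Agent.Lib.H19S.A4c

/-!
# H19S, chunk A4d: the boundary of a hole is a simple cycle
-/

namespace H19S

open Finset

variable {α : Type*} [DecidableEq α] {F : Finset (α × α × α)} {K : Finset α} {y : α}

theorem A4d_fi (hF : IsSurf F) {a b c x y z : α} (h : (a, b, c) ∈ F) (hf : (x, y, z) ∈ F) :
    fi (a, b, c) (x, y, z) = (if x = a ∧ y = b then 1 else 0) + (if y = a ∧ z = b then 1 else 0) +
      (if z = a ∧ x = b then 1 else 0) := by
  have hab := hF.ne h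
  by_cases h1 : x = a ∧ y = b
  · obtain ⟨rfl, rfl⟩ := h1
    obtain rfl := hF.uniq h hf
    rw [if_pos ⟨rfl, rfl⟩, if_neg (fun h => hab h.1.symm), if_neg (fun h => hab h.2), add_zero,
      add_zero]
    exact if_pos (Or.inl rfl)
  by_cases h2 : y = a ∧ z = b
  · obtain ⟨rfl, rfl⟩ := h2
    obtain rfl := hF.uniq h (hF.rot hf)
    rw [if_neg h1, if_pos ⟨rfl, rfl⟩, if_neg (fun h => hab h.1.symm), add_zero, zero_add]
    exact if_pos (Or.inr (Or.inr rfl))
  by_cases h3 : z = a ∧ x = b
  · obtain ⟨rfl, rfl⟩ := h3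
    obtain rfl := hF.uniq h (hF.rot (hF.rot hf))
    rw [if_neg h1, if_neg h2, if_pos ⟨rfl, rfl⟩, add_zero, zero_add]
    exact if_pos (Or.inr (Or.inl rfl))
  rw [if_neg h1, if_neg h2, if_neg h3, add_zero, add_zero]
  unfold fi
  rw [if_neg]
  rintro (h | h | h)
  · simp only [Prod.mk.injEq] at h
    exact h1 ⟨h.1, h.2.1⟩
  · simp only [Prod.mk.injEq] at h
    exact h3 ⟨h.2.2, h.1⟩
  · simp only [Prod.mk.injEq] at h
    exact h2 ⟨h.2.1, h.2.2⟩

/-- indicator of an unoriented edge -/
def A4d_I (a b x y : α) : ZMod 2 := if (x = a ∧ y = b) ∨ (x = b ∧ y = a) then 1 else 0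

theorem A4d_I_symm (a b x y : α) : A4d_I a b x y = A4d_I a b y x := by
  unfold A4d_I
  apply if_congr _ rfl rfl
  tauto

theorem A4d_I_eq {a b : α} (hab : a ≠ b) (x y : α) :
    A4d_I a b x y = (if x = a ∧ y = b then 1 else 0) + (if x = b ∧ y = a then 1 else 0) := by
  unfold A4d_I
  by_cases h1 : x = a ∧ y = b
  · rw [if_pos (Or.inl h1), if_pos h1, if_neg, add_zero]
    rintro ⟨h, -⟩
    exact hab (h1.1.symm.trans h)
  · by_cases h2 : x = b ∧ y = a
    · rw [if_pos (Or.inr h2), if_neg h1, if_pos h2, zero_add]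
    · rw [if_neg (by tauto), if_neg h1, if_neg h2, zero_add]

/-- The coboundary of the indicator of an edge. -/
theorem A4d_edge (hF : IsSurf F) {a b c d x y z : α} (h : (a, b, c) ∈ F) (h' : (b, a, d) ∈ F)
    (hf : (x, y, z) ∈ F) :
    A4d_I a b x y + A4d_I a b y z + A4d_I a b z x = fi (a, b, c) (x, y, z) + fi (b, a, d) (x, y, z) := by
  rw [A4d_fi hF h hf, A4d_fi hF h' hf]
  have hab := hF.ne h
  rw [A4d_I_eq hab, A4d_I_eq hab, A4d_I_eq hab]
  ring

/-- (chunk A4d) The boundary of a hole is a simple cycle.  `outu` is `hole_out_unique`, `inu` is `in_unique`.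
`orbit`: suppose `e2` is not in the forward orbit of `e1` under the next-boundary-side map.  Let `ω` = (path inside the
hole from `left e1` to `left e2`, `tele`) + (indicator of the edge `e2`) + (path through the star of `K` from
`right e2` to `right e1`, `kstar`) + (indicator of the edge `e1`); it is closed, `ω = δφ`.  Sum of `ω` over the
(finite, cyclic) orbit of `e1`: it is `1` (only `e1` is crossed: path in the hole crosses only sides with both
faces in the hole, path in the star only edges with a vertex in `K`), and it is `0` since `∑ (φ a + φ b)` over a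
cycle vanishes.  `card ≥ 3`: the orbit of a side has at least three elements because `a ≠ b` for
`(a,b) ∈ bd` and `(b,a) ∉ bd`. -/
theorem hole_isCyc (hF : IsTri F) (hK : ConnIn F (K : Set α)) (hKF : K ⊆ vs F)
    (hKne : K.Nonempty) (hy : y ∈ inner F (hole F K y)) : IsCyc (bd (hole F K y)) := by
  classical
  -- MAIN
  set H := hole F K y with hH
  have hHF : H ⊆ F := hole_subset'
  have hrc : RotC H := hole_rotC hF.toIsSurf
  have outu : ∀ {a b c : α}, (a, b) ∈ bd H → (a, c) ∈ bd H → b = c := by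
    intro a b c h h'
    exact hole_out_unique hF hK hy h h'
  have inu : ∀ {a b c : α}, (b, a) ∈ bd H → (c, a) ∈ bd H → b = c := by
    intro a b c h h'
    exact hF.in_unique hHF hrc (fun z z' h h' => outu h h') h h'
  have norev : ∀ {a b : α}, (a, b) ∈ bd H → (b, a) ∉ bd H := by
    intro a b h h'
    obtain ⟨-, h1⟩ := mem_bd.1 h
    obtain ⟨⟨c, hc⟩, -⟩ := mem_bd.1 h'
    exact h1 c hc
  have hvs1 : ∀ {a b : α}, (a, b) ∈ bd H → a ∉ K := by
    intro a b h
    obtain ⟨⟨c, hc⟩, -⟩ := mem_bd.1 h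
    exact hole_not_mem hF.toIsSurf (mem_vs.2 ⟨_, _, hc⟩)
  have hvs2 : ∀ {a b : α}, (a, b) ∈ bd H → b ∉ K := by
    intro a b h
    obtain ⟨⟨c, hc⟩, -⟩ := mem_bd.1 h
    exact hole_not_mem hF.toIsSurf (mem_vs.2 ⟨_, _, hrc hc⟩)
  have out : ∀ {a b : α}, (a, b) ∈ bd H → ∃ c, (b, c) ∈ bd H := by
    intro a b h
    exact (hF.out_iff_in hHF hrc b).2 ⟨a, h⟩
  have hne : ∀ {a b : α}, (a, b) ∈ bd H → a ≠ b := by
    intro a b h
    obtain ⟨⟨c, hc⟩, -⟩ := mem_bd.1 h
    exact hF.ne (hHF hc)
  refine ⟨?_, outu, inu, ?_⟩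
  · -- card
    have hy' := (inner_hole_iff hF.toIsSurf).1 hy
    have hHne : H.Nonempty := by
      obtain ⟨b, c, hbc⟩ := mem_vs.1 hy'.1
      have : y ∈ vs H := (Finset.mem_filter.1 hy).1
      obtain ⟨b, c, h⟩ := mem_vs.1 this
      exact ⟨_, h⟩
    have hHneF : H ≠ F := by
      intro h
      obtain ⟨k, hk⟩ := hKne
      have : k ∈ vs H := by rw [h]; exact hKF hk
      exact hole_not_mem hF.toIsSurf this hk
    obtain ⟨⟨a, b⟩, hab⟩ := hF.bd_nonempty hHF hrc hHne hHneF
    obtain ⟨c, hbc⟩ := out hab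
    obtain ⟨d, hcd⟩ := out hbc
    have hca : c ≠ a := by
      rintro rfl
      exact norev hab hbc
    have hsub : ({(a, b), (b, c), (c, d)} : Finset (α × α)) ⊆ bd H := by
      intro e he
      simp only [Finset.mem_insert, Finset.mem_singleton] at he
      rcases he with rfl | rfl | rfl <;> assumption
    have h3 : ({(a, b), (b, c), (c, d)} : Finset (α × α)).card = 3 := by
      apply Finset.card_eq_three.2
      refine ⟨_, _, _, ?_, ?_, ?_, rfl⟩
      · intro h; exact hne hab (Prod.mk.inj h).1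
      · intro h; exact hca (Prod.mk.inj h).1.symm
      · intro h; exact hne hbc (Prod.mk.inj h).1
    rw [← h3]
    exact Finset.card_le_card hsub
  · -- orbit
    intro a b c d hab hcd
    by_contra hcon
    set Rch : α → Prop := fun x => Relation.ReflTransGen (fun x y => (x, y) ∈ bd H) b x with hRch
    set E := (bd H).filter (fun e => Rch e.1) with hE
    set O := E.image Prod.fst with hO
    have hE2 : ∀ e ∈ E, e.2 ∈ O := by
      rintro ⟨p, q⟩ he
      obtain ⟨he1, he2⟩ := Finset.mem_filter.1 he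
      obtain ⟨r, hr⟩ := out he1
      exact Finset.mem_image.2 ⟨(q, r), Finset.mem_filter.2 ⟨hr, he2.tail he1⟩, rfl⟩
    have inj1 : Set.InjOn (Prod.fst : α × α → α) E := by
      rintro ⟨p, q⟩ he ⟨p', q'⟩ he' (h : p = p')
      subst h
      have := outu (Finset.mem_filter.1 he).1 (Finset.mem_filter.1 he').1
      rw [this]
    have inj2 : Set.InjOn (Prod.snd : α × α → α) E := by
      rintro ⟨p, q⟩ he ⟨p', q'⟩ he' (h : q = q')
      subst h
      have := inu (Finset.mem_filter.1 he).1 (Finset.mem_filter.1 he').1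
      rw [this]
    have hO2 : E.image Prod.snd = O := by
      apply Finset.eq_of_subset_of_card_le
      · intro x hx
        obtain ⟨e, he, rfl⟩ := Finset.mem_image.1 hx
        exact hE2 e he
      · rw [hO, Finset.card_image_of_injOn inj1, Finset.card_image_of_injOn inj2]
    have hbO : b ∈ O := by
      obtain ⟨r, hr⟩ := out hab
      exact Finset.mem_image.2 ⟨(b, r), Finset.mem_filter.2 ⟨hr, Relation.ReflTransGen.refl⟩, rfl⟩
    have habE : (a, b) ∈ E := by
      rw [← hO2] at hbO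
      obtain ⟨⟨p, q⟩, he, (rfl : q = b)⟩ := Finset.mem_image.1 hbO
      have := inu (Finset.mem_filter.1 he).1 hab
      rw [← this]; exact he
    have hcE : ∀ q, (c, q) ∉ E := fun q h => hcon (Finset.mem_filter.1 h).2
    obtain ⟨⟨w1, hw1⟩, -⟩ := mem_bd.1 hab
    obtain ⟨⟨w2, hw2⟩, -⟩ := mem_bd.1 hcd
    obtain ⟨k1, hk1, hf1⟩ := hole_bd_third hF.toIsSurf hab
    obtain ⟨k2, hk2, hf2⟩ := hole_bd_third hF.toIsSurf hcd
    obtain ⟨ω1, hs1, hn1, hd1⟩ := tele hF.toIsSurf hHF hrc hw1
      (hole_conn hF.toIsSurf hy hw1 hw2)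
    obtain ⟨ω2, hs2, hn2, hd2⟩ := kstar hF.toIsSurf hK hf1 hf2 (Or.inr (Or.inr hk1))
      (Or.inr (Or.inr hk2))
    obtain ⟨φ, hφ⟩ := hF.H1 (fun p q => ω1 p q + ω2 p q + A4d_I a b p q + A4d_I c d p q)
      (fun p q => by
        show ω1 p q + ω2 p q + A4d_I a b p q + A4d_I c d p q =
          ω1 q p + ω2 q p + A4d_I a b q p + A4d_I c d q p
        rw [hs1 p q, hs2 p q, A4d_I_symm a b p q, A4d_I_symm c d p q])
      (fun p q r hpqr => by
        have e1 := hd1 p q r hpqr
        have e2 := hd2 p q r hpqr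
        have e3 := A4d_edge hF.toIsSurf (hHF hw1) hf1 hpqr
        have e4 := A4d_edge hF.toIsSurf (hHF hw2) hf2 hpqr
        show ω1 p q + ω2 p q + A4d_I a b p q + A4d_I c d p q +
          (ω1 q r + ω2 q r + A4d_I a b q r + A4d_I c d q r) +
          (ω1 r p + ω2 r p + A4d_I a b r p + A4d_I c d r p) = 0
        calc ω1 p q + ω2 p q + A4d_I a b p q + A4d_I c d p q +
              (ω1 q r + ω2 q r + A4d_I a b q r + A4d_I c d q r) +
              (ω1 r p + ω2 r p + A4d_I a b r p + A4d_I c d r p)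
            = (ω1 p q + ω1 q r + ω1 r p) + (ω2 p q + ω2 q r + ω2 r p) +
              (A4d_I a b p q + A4d_I a b q r + A4d_I a b r p) +
              (A4d_I c d p q + A4d_I c d q r + A4d_I c d r p) := by ring
          _ = (fi (a, b, w1) (p, q, r) + fi (a, b, w1) (p, q, r)) +
              (fi (c, d, w2) (p, q, r) + fi (c, d, w2) (p, q, r)) +
              (fi (b, a, k1) (p, q, r) + fi (b, a, k1) (p, q, r)) +
              (fi (d, c, k2) (p, q, r) + fi (d, c, k2) (p, q, r)) := by
            rw [e1, e2, e3, e4]; ring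
          _ = 0 := by simp only [A4c_two, add_zero])
    have hsum1 : ∑ e ∈ E, (φ e.1 + φ e.2) = 0 := by
      rw [Finset.sum_add_distrib]
      have s1 : ∑ e ∈ E, φ e.1 = ∑ x ∈ O, φ x := by
        rw [hO, Finset.sum_image inj1]
      have s2 : ∑ e ∈ E, φ e.2 = ∑ x ∈ O, φ x := by
        rw [← hO2, Finset.sum_image inj2]
      rw [s1, s2, A4c_two]
    have hval : ∀ e ∈ E, φ e.1 + φ e.2 = if e = (a, b) then 1 else 0 := by
      rintro ⟨p, q⟩ he
      have hpq := (Finset.mem_filter.1 he).1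
      obtain ⟨⟨w, hw⟩, hn⟩ := mem_bd.1 hpq
      have h0 := hφ p q ⟨w, hHF hw⟩
      have z1 : ω1 p q = 0 := by
        by_contra h
        obtain ⟨-, d', hd'⟩ := hn1 p q h
        exact hn d' hd'
      have z2 : ω2 p q = 0 := by
        by_contra h
        rcases hn2 p q h with h | h
        · exact hvs1 hpq h
        · exact hvs2 hpq h
      have z3 : A4d_I c d p q = 0 := by
        unfold A4d_I
        rw [if_neg]
        rintro (⟨h, -⟩ | ⟨rfl, rfl⟩)
        · rw [h] at he
          exact hcE q he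
        · exact norev hcd hpq
      have z4 : A4d_I a b p q = if (p, q) = (a, b) then 1 else 0 := by
        unfold A4d_I
        by_cases h : (p, q) = (a, b)
        · rw [if_pos h, if_pos (Or.inl (Prod.mk.inj h))]
        · rw [if_neg h, if_neg]
          rintro (⟨h1, h2⟩ | ⟨rfl, rfl⟩)
          · exact h (by rw [h1, h2])
          · exact norev hab hpq
      simp only [z1, z2, z3, add_zero, zero_add] at h0
      rw [z4] at h0
      exact h0.symm
    rw [Finset.sum_congr rfl hval, Finset.sum_ite_eq' E (a, b), if_pos habE] at hsum1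
    exact one_ne_zero hsum1

end H19S
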