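import Pool.Agent.Lib.H19S.A4d

/-!
# H19S, chunk A4e: no chord outside a hole
-/

namespace H19S

open Finset

variable {α : Type*} [DecidableEq α] {F : Finset (α × α × α)} {K : Finset α} {y : α}

theorem A4e_fi_rot (a b c : α) (t : α × α × α) : fi (a, b, c) t = fi (b, c, a) t := by
  unfold fi
  apply if_congr _ rfl rfl
  tauto

/-- (chunk A4e) No chord outside a hole.  Suppose `(b,b',w) ∈ F \ hole` and `(b',b,w') ∈ F \ hole` with `b, b'`
on the boundary of the hole.  Let `(b,yo) ∈ bd` be the outgoing side and `(yi,b) ∈ bd` the incoming side at `b`,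
`(b,k,yo) ∈ F`, `(b,yi,k') ∈ F`, `k, k' ∈ K`; `(b,xi,yi)` the face of the hole at the side `(yi,b)`.  `P` = arc from
`xi` to `b'` (`arc`): contains `yi` and hence `k'` (`yi ≠ b'`, since the edge `b b'` is not in the hole, `yi ≠ xi`).
`k ∉ P`: otherwise `yo ∈ P` and then, along the faces of the hole at `b` (`rarc`; their link vertices are
`≠ b'`), `xi ∈ P`.  Choose a face `(b',x',y')` of the hole at `b'`; `ω` = (path in the hole from a rotation of
`(b',x',y')` to `(b,xi,yi)`) + (rotation around `b` from `(b,xi,yi)` to `(b,b',w)`, crossing `b p`, `p ∈ P`) +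
(rotation around `b'` from `(b',w,b)` (the same face) to `(b',x',y')`).  Closed, `= δφ`, `φ` constant on `K`,
but `φ k' + φ b = 1` and `φ k + φ b = 0` (the edges `b k`, `b k'` are not crossed by the other two parts, which
cross edges at `b'` or inside the hole). -/
theorem hole_no_chord (hF : IsTri F) (hK : ConnIn F (K : Set α)) (hKF : K ⊆ vs F)
    (hKne : K.Nonempty) (hy : y ∈ inner F (hole F K y)) {b b' w w' : α}
    (hb : b ∈ vb (bd (hole F K y))) (hb' : b' ∈ vb (bd (hole F K y)))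
    (h : (b, b', w) ∈ F) (h' : (b', b, w') ∈ F) (hn : (b, b', w) ∉ hole F K y)
    (hn' : (b', b, w') ∉ hole F K y) : False := by
  classical
  -- MAIN
  have hHF : hole F K y ⊆ F := hole_subset'
  have hrc : RotC (hole F K y) := hole_rotC hF.toIsSurf
  have hio : ∀ {x : α}, x ∈ vb (bd (hole F K y)) →
      (∃ z, (x, z) ∈ bd (hole F K y)) ∧ ∃ z, (z, x) ∈ bd (hole F K y) := by
    intro x hx
    have hiff := hF.out_iff_in hHF hrc x
    unfold vb at hx
    rcases Finset.mem_union.1 hx with hx | hx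
    · obtain ⟨⟨p, q⟩, he, (rfl : p = x)⟩ := Finset.mem_image.1 hx
      exact ⟨⟨q, he⟩, hiff.1 ⟨q, he⟩⟩
    · obtain ⟨⟨p, q⟩, he, (rfl : q = x)⟩ := Finset.mem_image.1 hx
      exact ⟨hiff.2 ⟨p, he⟩, ⟨p, he⟩⟩
  obtain ⟨⟨yo, hyo⟩, ⟨yi, hyi⟩⟩ := hio hb
  obtain ⟨⟨yo', hyo'⟩, -⟩ := hio hb'
  obtain ⟨⟨w1, hw1⟩, -⟩ := mem_bd.1 hyo
  obtain ⟨⟨xi, hxi0⟩, -⟩ := mem_bd.1 hyi
  have hxi : (b, xi, yi) ∈ hole F K y := hrc hxi0
  obtain ⟨⟨w2, hw2⟩, -⟩ := mem_bd.1 hyo'
  obtain ⟨k, hk, hfk0⟩ := hole_bd_third hF.toIsSurf hyo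
  obtain ⟨k', hk', hfk'⟩ := hole_bd_third hF.toIsSurf hyi
  have hfk : (b, k, yo) ∈ F := hF.rot hfk0
  have hnm : ∀ {x p q : α}, (x, p, q) ∈ hole F K y → x ∉ K := by
    intro x p q h
    exact hole_not_mem hF.toIsSurf (mem_vs.2 ⟨_, _, h⟩)
  have hbK : b ∉ K := hnm hw1
  have hb'K : b' ∉ K := hnm hw2
  have hxiK : xi ∉ K := hnm (hrc hxi)
  have hbb' : b ≠ b' := hF.ne h
  have hb'xi : b' ≠ xi := by
    rintro rfl
    have := hF.uniq h (hHF hxi)
    rw [this] at hn
    exact hn hxi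
  have hyib' : yi ≠ b' := by
    rintro rfl
    have := hF.uniq h' (hHF hxi0)
    rw [this] at hn'
    exact hn' hxi0
  obtain ⟨P, hP1, hP2, hP3, hP4, hP5, -⟩ := hF.arc h (hHF hxi) hb'xi
  have hk'P : k' ∈ P := by
    rw [← hP5 yi k' hfk' hyib' (hF.ne2 (hHF hxi)).symm]; exact hP3
  have hkP : k ∉ P := by
    intro hkP
    have hyoP : yo ∈ P := by
      rw [← hP5 k yo hfk (fun e => hb'K (e ▸ hk)) (fun e => hxiK (e ▸ hk))]; exact hkP
    have hpath := hF.rarc hHF hrc hyo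
      (fun z hz => hole_out_unique hF hK hy hz hyo) hxi
    have key : ∀ x, Relation.ReflTransGen (fun x x' => (b, x, x') ∈ hole F K y) yo x → x ∈ P := by
      intro x hx
      induction hx with
      | refl => exact hyoP
      | @tail p q _ h2 ih =>
        have hpb' : p ≠ b' := by
          rintro rfl
          have := hF.uniq h (hHF h2)
          rw [this] at hn
          exact hn h2
        have hpxi : p ≠ xi := by
          rintro rfl
          exact hP2 ih
        exact (hP5 p q (hHF h2) hpb' hpxi).1 ih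
    exact hP2 (key xi hpath)
  have hr : (b', w, b) ∈ F := hF.rot h
  have hwx : w ≠ yo' := by
    rintro rfl
    have := hF.uniq hr (hHF hw2)
    rw [← this] at hw2
    exact hn (hrc (hrc hw2))
  obtain ⟨Q, hQ1, hQ2, hQ3, hQ4, hQ5, -⟩ := hF.arc hr (hHF hw2) hwx
  obtain ⟨ω1, hs1, hn1, hd1⟩ := tele hF.toIsSurf hHF hrc hw2
    (hole_conn hF.toIsSurf hy hw2 hxi)
  have hn1' : ∀ p q, p ∈ K → ω1 p q = 0 := by
    intro p q hp
    by_contra h0
    obtain ⟨⟨c, hc⟩, -⟩ := hn1 p q h0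
    exact hnm hc hp
  set ω2 : α → α → ZMod 2 := fun p q => if (p = b ∧ q ∈ P) ∨ (q = b ∧ p ∈ P) then 1 else 0
    with hω2
  set ω3 : α → α → ZMod 2 := fun p q => if (p = b' ∧ q ∈ Q) ∨ (q = b' ∧ p ∈ Q) then 1 else 0
    with hω3
  have hd2 : ∀ p q r, (p, q, r) ∈ F → ω2 p q + ω2 q r + ω2 r p
      = fi (b, b', w) (p, q, r) + fi (b, xi, yi) (p, q, r) := by
    intro p q r hpqr
    exact hF.arc_cochain h (hHF hxi) hP1 hP2 hP3 hP4 hP5 p q r hpqr
  have hd3 : ∀ p q r, (p, q, r) ∈ F → ω3 p q + ω3 q r + ω3 r p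
      = fi (b', w, b) (p, q, r) + fi (b', yo', w2) (p, q, r) := by
    intro p q r hpqr
    exact hF.arc_cochain hr (hHF hw2) hQ1 hQ2 hQ3 hQ4 hQ5 p q r hpqr
  obtain ⟨φ, hφ⟩ := hF.H1 (fun p q => ω1 p q + ω2 p q + ω3 p q)
    (fun p q => by
      show ω1 p q + ω2 p q + ω3 p q = ω1 q p + ω2 q p + ω3 q p
      rw [hs1 p q]
      congr 1
      · congr 1
        simp only [hω2]
        exact if_congr (Or.comm) rfl rfl
      · simp only [hω3]
        exact if_congr (Or.comm) rfl rfl)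
    (fun p q r hpqr => by
      have e1 := hd1 p q r hpqr
      have e2 := hd2 p q r hpqr
      have e3 := hd3 p q r hpqr
      rw [← A4e_fi_rot] at e3
      show ω1 p q + ω2 p q + ω3 p q + (ω1 q r + ω2 q r + ω3 q r) +
        (ω1 r p + ω2 r p + ω3 r p) = 0
      calc ω1 p q + ω2 p q + ω3 p q + (ω1 q r + ω2 q r + ω3 q r) +
            (ω1 r p + ω2 r p + ω3 r p)
          = (ω1 p q + ω1 q r + ω1 r p) + (ω2 p q + ω2 q r + ω2 r p) +
            (ω3 p q + ω3 q r + ω3 r p) := by ring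
        _ = (fi (b', yo', w2) (p, q, r) + fi (b', yo', w2) (p, q, r)) +
            (fi (b, xi, yi) (p, q, r) + fi (b, xi, yi) (p, q, r)) +
            (fi (b, b', w) (p, q, r) + fi (b, b', w) (p, q, r)) := by
          rw [e1, e2, e3]; ring
        _ = 0 := by simp only [A4c_two, add_zero])
  have hc : φ k' = φ k := by
    apply A4c_const hK _ (Finset.mem_coe.2 hk') (Finset.mem_coe.2 hk)
    intro p q hp hq hpq
    have hp' : p ∈ K := Finset.mem_coe.1 hp
    have hq' : q ∈ K := Finset.mem_coe.1 hq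
    have h0 := hφ p q hpq
    have h2 : ω2 p q = 0 := by
      simp only [hω2]
      rw [if_neg]
      rintro (⟨h, -⟩ | ⟨h, -⟩)
      · exact hbK (h ▸ hp')
      · exact hbK (h ▸ hq')
    have h3 : ω3 p q = 0 := by
      simp only [hω3]
      rw [if_neg]
      rintro (⟨h, -⟩ | ⟨h, -⟩)
      · exact hb'K (h ▸ hp')
      · exact hb'K (h ▸ hq')
    simp only [hn1' p q hp', h2, h3, add_zero] at h0
    calc φ p = φ p + φ q + φ q := by rw [add_assoc, A4c_two, add_zero]
      _ = φ q := by rw [← h0, zero_add]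
  have e1 := hφ b k' (hF.adj_symm ⟨_, hF.rot2 hfk'⟩)
  have e2 := hφ b k ⟨_, hfk⟩
  have z1 : ω1 b k' = 0 := by rw [hs1]; exact hn1' _ _ hk'
  have z2 : ω1 b k = 0 := by rw [hs1]; exact hn1' _ _ hk
  have u1 : ω2 b k' = 1 := if_pos (Or.inl ⟨rfl, hk'P⟩)
  have u2 : ω2 b k = 0 := by
    apply if_neg
    rintro (⟨-, h⟩ | ⟨h, -⟩)
    · exact hkP h
    · exact hbK (h ▸ hk)
  have v1 : ω3 b k' = 0 := by
    apply if_neg
    rintro (⟨h, -⟩ | ⟨h, -⟩)
    · exact hbb' h
    · exact hb'K (h ▸ hk')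
  have v2 : ω3 b k = 0 := by
    apply if_neg
    rintro (⟨h, -⟩ | ⟨h, -⟩)
    · exact hbb' h
    · exact hb'K (h ▸ hk)
  simp only [z1, u1, v1, zero_add, add_zero] at e1
  simp only [z2, u2, v2, zero_add, add_zero] at e2
  rw [hc, ← e2] at e1
  exact one_ne_zero e1

end H19S
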