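import Pool.Agent.Lib.H19S.A3b

/-!
# H19S, chunk A5: cones and simple cycles
-/

namespace H19S

open Finset

variable {α : Type*} [DecidableEq α] {F R : Finset (α × α × α)}

theorem mem_cone {o : α} {B : Finset (α × α)} {t : α × α × α} :
    t ∈ cone o B ↔ ∃ a b, (a, b) ∈ B ∧ (t = (b, a, o) ∨ t = (a, o, b) ∨ t = (o, b, a)) := by
  unfold cone
  simp only [mem_union, mem_image, Prod.exists]
  constructor
  · rintro ((⟨a, b, h, rfl⟩ | ⟨a, b, h, rfl⟩) | ⟨a, b, h, rfl⟩)
    · exact ⟨a, b, h, Or.inl rfl⟩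
    · exact ⟨a, b, h, Or.inr (Or.inl rfl)⟩
    · exact ⟨a, b, h, Or.inr (Or.inr rfl)⟩
  · rintro ⟨a, b, h, rfl | rfl | rfl⟩
    · exact Or.inl (Or.inl ⟨a, b, h, rfl⟩)
    · exact Or.inl (Or.inr ⟨a, b, h, rfl⟩)
    · exact Or.inr ⟨a, b, h, rfl⟩

theorem IsCyc.ne {B : Finset (α × α)} (hB : IsCyc B) {a b : α} (h : (a, b) ∈ B) : a ≠ b := by
  rintro rfl
  have key : ∀ x, Relation.ReflTransGen (fun x y => (x, y) ∈ B) a x → x = a := by
    intro x hx
    induction hx with
    | refl => rfl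
    | tail _ h2 ih => subst ih; exact hB.outu h2 h
  have hs : B ⊆ {(a, a)} := by
    rintro ⟨c, d⟩ hcd
    have h1 := key c (hB.orbit h hcd)
    subst h1
    have h2 := hB.outu hcd h
    subst h2
    simp
  have h1 := Finset.card_le_card hs
  have h2 := hB.card
  simp at h1
  omega

theorem IsCyc.not_rev {B : Finset (α × α)} (hB : IsCyc B) {a b : α} (h : (a, b) ∈ B) :
    (b, a) ∉ B := by
  intro h'
  have key : ∀ x, Relation.ReflTransGen (fun x y => (x, y) ∈ B) b x → x = a ∨ x = b := by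
    intro x hx
    induction hx with
    | refl => exact Or.inr rfl
    | tail _ h2 ih =>
      rcases ih with rfl | rfl
      · exact Or.inr (hB.outu h2 h)
      · exact Or.inl (hB.outu h2 h')
  have hs : B ⊆ {(a, b), (b, a)} := by
    rintro ⟨c, d⟩ hcd
    rcases key c (hB.orbit h hcd) with rfl | rfl
    · have h2 := hB.outu hcd h
      subst h2
      simp
    · have h2 := hB.outu hcd h'
      subst h2
      simp
  have h1 := Finset.card_le_card hs
  have h2 := hB.card
  have h3 : ({(a, b), (b, a)} : Finset (α × α)).card ≤ 2 := Finset.card_le_two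
  omega

/-- Every vertex of a cycle has an outgoing and an incoming side. -/
theorem IsCyc.out {B : Finset (α × α)} (hB : IsCyc B) {a : α} (h : a ∈ vb B) : ∃ b, (a, b) ∈ B := by
  unfold vb at h
  simp only [mem_union, mem_image, Prod.exists, exists_and_right, exists_eq_right] at h
  rcases h with ⟨b, h⟩ | ⟨b, h⟩
  · exact ⟨b, h⟩
  · rcases Relation.ReflTransGen.cases_head (hB.orbit h h) with h1 | ⟨c, h1, _⟩
    · exact absurd h1.symm (hB.ne h)
    · exact ⟨c, h1⟩

theorem IsCyc.inc {B : Finset (α × α)} (hB : IsCyc B) {a : α} (h : a ∈ vb B) : ∃ b, (b, a) ∈ B := by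
  unfold vb at h
  simp only [mem_union, mem_image, Prod.exists, exists_and_right, exists_eq_right] at h
  rcases h with ⟨b, h⟩ | ⟨b, h⟩
  · rcases Relation.ReflTransGen.cases_tail (hB.orbit h h) with h1 | ⟨c, _, h1⟩
    · exact absurd h1 (hB.ne h)
    · exact ⟨c, h1⟩
  · exact ⟨b, h⟩

theorem IsCyc.card_vb {B : Finset (α × α)} (hB : IsCyc B) : (vb B).card = B.card := by
  have h1 : vb B = B.image (fun e => e.1) := by
    ext x
    constructor
    · intro hx
      obtain ⟨b, hb⟩ := hB.out hx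
      exact mem_image.2 ⟨(x, b), hb, rfl⟩
    · intro hx
      exact mem_union_left _ hx
  rw [h1]
  apply Finset.card_image_of_injOn
  rintro ⟨a, b⟩ hab ⟨c, d⟩ hcd h
  simp only at h
  subst h
  have h2 := hB.outu (Finset.mem_coe.1 hab) (Finset.mem_coe.1 hcd)
  subst h2
  rfl

theorem a5_mem_swap {B : Finset (α × α)} {a b : α} : (a, b) ∈ B.image Prod.swap ↔ (b, a) ∈ B := by
  constructor
  · intro h
    obtain ⟨⟨c, d⟩, h1, h2⟩ := mem_image.1 h
    simp only [Prod.swap_prod_mk, Prod.mk.injEq] at h2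
    obtain ⟨rfl, rfl⟩ := h2
    exact h1
  · intro h
    exact mem_image.2 ⟨(b, a), h, rfl⟩

theorem IsCyc.swap {B : Finset (α × α)} (hB : IsCyc B) : IsCyc (B.image Prod.swap) where
  card := by
    rw [Finset.card_image_of_injective _ Prod.swap_injective]
    exact hB.card
  outu := by
    intro a b c h1 h2
    exact hB.inu (a5_mem_swap.1 h1) (a5_mem_swap.1 h2)
  inu := by
    intro a b c h1 h2
    exact hB.outu (a5_mem_swap.1 h1) (a5_mem_swap.1 h2)
  orbit := by
    intro a b c d h1 h2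
    have h3 := hB.orbit (a5_mem_swap.1 h2) (a5_mem_swap.1 h1)
    have h4 := Relation.reflTransGen_swap.2 h3
    exact h4.lift id (fun x y hxy => a5_mem_swap.2 hxy)

theorem a5_vb_left {B : Finset (α × α)} {a b : α} (h : (a, b) ∈ B) : a ∈ vb B :=
  mem_union_left _ (mem_image.2 ⟨(a, b), h, rfl⟩)

theorem a5_vb_right {B : Finset (α × α)} {a b : α} (h : (a, b) ∈ B) : b ∈ vb B :=
  mem_union_right _ (mem_image.2 ⟨(a, b), h, rfl⟩)

theorem card_cone {o : α} {B : Finset (α × α)} (hB : IsCyc B) (ho : o ∉ vb B) :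
    (cone o B).card = 3 * B.card := by
  unfold cone
  have hl : ∀ {a b : α}, (a, b) ∈ B → a ≠ o := fun h h' => ho (h' ▸ a5_vb_left h)
  have hr : ∀ {a b : α}, (a, b) ∈ B → b ≠ o := fun h h' => ho (h' ▸ a5_vb_right h)
  rw [Finset.card_union_of_disjoint, Finset.card_union_of_disjoint, Finset.card_image_of_injective,
    Finset.card_image_of_injective, Finset.card_image_of_injective]
  · ring
  · rintro ⟨a, b⟩ ⟨c, d⟩ h
    simp only [Prod.mk.injEq, true_and] at h
    rw [Prod.mk.injEq]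
    exact ⟨h.2, h.1⟩
  · rintro ⟨a, b⟩ ⟨c, d⟩ h
    simp only [Prod.mk.injEq, true_and] at h
    rw [Prod.mk.injEq]
    exact h
  · rintro ⟨a, b⟩ ⟨c, d⟩ h
    simp only [Prod.mk.injEq, and_true] at h
    rw [Prod.mk.injEq]
    exact ⟨h.2, h.1⟩
  · rw [Finset.disjoint_left]
    intro t h1 h2
    obtain ⟨⟨a, b⟩, hab, rfl⟩ := mem_image.1 h1
    obtain ⟨⟨c, d⟩, hcd, h⟩ := mem_image.1 h2
    simp only [Prod.mk.injEq] at h
    exact hl hab h.2.1.symm
  · rw [Finset.disjoint_left]
    intro t h1 h2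
    obtain ⟨⟨c, d⟩, hcd, h⟩ := mem_image.1 h2
    rcases mem_union.1 h1 with h1 | h1
    · obtain ⟨⟨a, b⟩, hab, rfl⟩ := mem_image.1 h1
      simp only [Prod.mk.injEq] at h
      exact hr hab h.1.symm
    · obtain ⟨⟨a, b⟩, hab, rfl⟩ := mem_image.1 h1
      simp only [Prod.mk.injEq] at h
      exact hl hab h.1.symm

theorem vs_cone {o : α} {B : Finset (α × α)} (hB : IsCyc B) : vs (cone o B) = insert o (vb B) := by
  have hne : B.Nonempty := by
    rw [← Finset.card_pos]
    have := hB.card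
    omega
  ext x
  unfold vs
  simp only [mem_image, mem_insert, mem_cone]
  constructor
  · rintro ⟨t, ⟨a, b, h, rfl | rfl | rfl⟩, rfl⟩
    · exact Or.inr (a5_vb_right h)
    · exact Or.inr (a5_vb_left h)
    · exact Or.inl rfl
  · rintro (rfl | h)
    · obtain ⟨⟨a, b⟩, h⟩ := hne
      exact ⟨(x, b, a), ⟨a, b, h, Or.inr (Or.inr rfl)⟩, rfl⟩
    · obtain ⟨b, hb⟩ := hB.out h
      exact ⟨(x, o, b), ⟨x, b, hb, Or.inr (Or.inl rfl)⟩, rfl⟩

theorem vb_bd_subset (hR : RotC R) : vb (bd R) ⊆ vs R := by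
  intro x hx
  unfold vb at hx
  simp only [mem_union, mem_image, Prod.exists, exists_and_right, exists_eq_right] at hx
  rcases hx with ⟨b, h⟩ | ⟨a, h⟩
  · obtain ⟨⟨c, hc⟩, _⟩ := mem_bd.1 h
    exact mem_vs.2 ⟨b, c, hc⟩
  · obtain ⟨⟨c, hc⟩, _⟩ := mem_bd.1 h
    exact mem_vs.2 ⟨c, a, hR hc⟩

theorem vs_union_cone {o : α} (hR : RotC R) (hB : IsCyc (bd R)) :
    vs (R ∪ cone o (bd R)) = insert o (vs R) := by
  have h1 : vs (R ∪ cone o (bd R)) = vs R ∪ vs (cone o (bd R)) := by
    unfold vs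
    rw [Finset.image_union]
  rw [h1, vs_cone hB]
  ext x
  simp only [mem_union, mem_insert]
  constructor
  · rintro (h | h | h)
    · exact Or.inr h
    · exact Or.inl h
    · exact Or.inr (vb_bd_subset hR h)
  · rintro (h | h)
    · exact Or.inr (Or.inl h)
    · exact Or.inl h

end H19S
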