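import Pool.Agent.Lib.H19S.A5

/-!
# H19S, chunk A5a: closing a region with simple boundary gives a surface
-/

namespace H19S

open Finset

variable {α : Type*} [DecidableEq α] {F R : Finset (α × α × α)}

theorem a5a_mem {o : α} {B : Finset (α × α)} {a b c : α} :
    (a, b, c) ∈ R ∪ cone o B ↔ (a, b, c) ∈ R ∨ (c = o ∧ (b, a) ∈ B) ∨ (b = o ∧ (a, c) ∈ B) ∨
      (a = o ∧ (c, b) ∈ B) := by
  rw [mem_union, mem_cone]
  constructor
  · rintro (h | ⟨x, y, h, h' | h' | h'⟩)
    · exact Or.inl h
    · simp only [Prod.mk.injEq] at h'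
      obtain ⟨rfl, rfl, rfl⟩ := h'
      exact Or.inr (Or.inl ⟨rfl, h⟩)
    · simp only [Prod.mk.injEq] at h'
      obtain ⟨rfl, rfl, rfl⟩ := h'
      exact Or.inr (Or.inr (Or.inl ⟨rfl, h⟩))
    · simp only [Prod.mk.injEq] at h'
      obtain ⟨rfl, rfl, rfl⟩ := h'
      exact Or.inr (Or.inr (Or.inr ⟨rfl, h⟩))
  · rintro (h | ⟨rfl, h⟩ | ⟨rfl, h⟩ | ⟨rfl, h⟩)
    · exact Or.inl h
    · exact Or.inr ⟨b, a, h, Or.inl rfl⟩
    · exact Or.inr ⟨a, c, h, Or.inr (Or.inl rfl)⟩
    · exact Or.inr ⟨c, b, h, Or.inr (Or.inr rfl)⟩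

/-- (chunk A5a) Closing a region with simple boundary gives a surface.  `rot, ne, uniq, opp`: direct (sides of `R` which
are not boundary sides have both faces in `R`, a boundary side `(a,b)` gets the cone face `(b,a,o)`, sides `(a,o)`,
`(o,b)` occur once for each boundary side).  `link` at an interior vertex: as in `F`; at a boundary vertex `b`:
the faces of `R` at `b` form one arc from the outgoing to the incoming boundary side (`rarc`), closed up by
the two cone faces; at `o`: `orbit` of `IsCyc`.  `conn`: every vertex of `R` can be joined to `o`: in `F`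
its face can be joined to a face outside `R` by dual steps (`dual_conn`), stop before leaving `R` the first time. -/
theorem cut_surf (hF : IsSurf F) (hRF : R ⊆ F) (hR : RotC R) (hB : IsCyc (bd R)) {o : α}
    (ho : o ∉ vs F) : IsSurf (R ∪ cone o (bd R)) := by
  have hoR1 : ∀ {a b : α}, (o, a, b) ∉ R := fun h => ho (hF.vs1 (hRF h))
  have hoR2 : ∀ {a b : α}, (a, o, b) ∉ R := fun h => ho (hF.vs2 (hRF h))
  have hoB1 : ∀ {a b : α}, (a, b) ∈ bd R → a ≠ o := by
    intro a b h h'
    subst h'
    obtain ⟨⟨c, hc⟩, _⟩ := mem_bd.1 h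
    exact hoR1 hc
  have hoB2 : ∀ {a b : α}, (a, b) ∈ bd R → b ≠ o := by
    intro a b h h'
    subst h'
    obtain ⟨⟨c, hc⟩, _⟩ := mem_bd.1 h
    exact hoR2 hc
  have hbn : (bd R).Nonempty := by
    rw [← Finset.card_pos]
    have := hB.card
    omega
  have hopp : ∀ {a b c : α}, (a, b, c) ∈ R ∪ cone o (bd R) → ∃ d, (b, a, d) ∈ R ∪ cone o (bd R) := by
    intro a b c h
    rw [a5a_mem] at h
    rcases h with h | ⟨rfl, h⟩ | ⟨rfl, h⟩ | ⟨rfl, h⟩
    · by_cases h' : ∃ d, (b, a, d) ∈ R
      · obtain ⟨d, hd⟩ := h'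
        exact ⟨d, a5a_mem.2 (Or.inl hd)⟩
      · push Not at h'
        exact ⟨o, a5a_mem.2 (Or.inr (Or.inl ⟨rfl, mem_bd.2 ⟨⟨c, h⟩, h'⟩⟩))⟩
    · obtain ⟨⟨d, hd⟩, _⟩ := mem_bd.1 h
      exact ⟨d, a5a_mem.2 (Or.inl hd)⟩
    · obtain ⟨d, hd⟩ := hB.inc (a5_vb_left h)
      exact ⟨d, a5a_mem.2 (Or.inr (Or.inr (Or.inr ⟨rfl, hd⟩)))⟩
    · obtain ⟨d, hd⟩ := hB.out (a5_vb_right h)
      exact ⟨d, a5a_mem.2 (Or.inr (Or.inr (Or.inl ⟨rfl, hd⟩)))⟩
  refine ⟨?_, ?_, ?_, hopp, ?_, ?_, ?_⟩
  · -- rot
    intro a b c h
    rw [a5a_mem] at h ⊢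
    rcases h with h | ⟨rfl, h⟩ | ⟨rfl, h⟩ | ⟨rfl, h⟩
    · exact Or.inl (hR h)
    · exact Or.inr (Or.inr (Or.inl ⟨rfl, h⟩))
    · exact Or.inr (Or.inr (Or.inr ⟨rfl, h⟩))
    · exact Or.inr (Or.inl ⟨rfl, h⟩)
  · -- ne
    intro a b c h
    rw [a5a_mem] at h
    rcases h with h | ⟨rfl, h⟩ | ⟨rfl, h⟩ | ⟨rfl, h⟩
    · exact hF.ne (hRF h)
    · exact (hB.ne h).symm
    · exact hoB1 h
    · exact (hoB2 h).symm
  · -- uniq
    intro a b c d h h'
    rw [a5a_mem] at h h'
    rcases h with h | ⟨rfl, h⟩ | ⟨rfl, h⟩ | ⟨rfl, h⟩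
    · rcases h' with h' | ⟨rfl, h'⟩ | ⟨rfl, h'⟩ | ⟨rfl, h'⟩
      · exact hF.uniq (hRF h) (hRF h')
      · exact absurd h ((mem_bd.1 h').2 _)
      · exact absurd h hoR2
      · exact absurd h hoR1
    · rcases h' with h' | ⟨rfl, h'⟩ | ⟨rfl, h'⟩ | ⟨rfl, h'⟩
      · exact absurd h' ((mem_bd.1 h).2 _)
      · rfl
      · exact absurd rfl (hoB1 h)
      · exact absurd rfl (hoB2 h)
    · rcases h' with h' | ⟨rfl, h'⟩ | ⟨_, h'⟩ | ⟨rfl, h'⟩
      · exact absurd h' hoR2
      · exact absurd rfl (hoB1 h')
      · exact hB.outu h h'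
      · exact absurd rfl (hoB1 h)
    · rcases h' with h' | ⟨rfl, h'⟩ | ⟨rfl, h'⟩ | ⟨_, h'⟩
      · exact absurd h' hoR1
      · exact absurd rfl (hoB2 h')
      · exact absurd rfl (hoB2 h)
      · exact hB.inu h h'
  · -- link
    intro v a b a' b' h h'
    by_cases hv : v = o
    · subst hv
      have e1 : (b, a) ∈ bd R := by
        rcases a5a_mem.1 h with h | ⟨_, h⟩ | ⟨_, h⟩ | ⟨_, h⟩
        · exact absurd h hoR1
        · exact absurd rfl (hoB2 h)
        · exact absurd rfl (hoB1 h)
        · exact h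
      have e2 : (b', a') ∈ bd R := by
        rcases a5a_mem.1 h' with h | ⟨_, h⟩ | ⟨_, h⟩ | ⟨_, h⟩
        · exact absurd h hoR1
        · exact absurd rfl (hoB2 h)
        · exact absurd rfl (hoB1 h)
        · exact h
      have h3 := Relation.reflTransGen_swap.2 (hB.orbit e2 e1)
      have h4 : Relation.ReflTransGen (fun x y => (v, x, y) ∈ R ∪ cone v (bd R)) b a' :=
        h3.lift id (fun x y hxy => a5a_mem.2 (Or.inr (Or.inr (Or.inr ⟨rfl, hxy⟩))))
      exact Relation.ReflTransGen.head h h4
    · by_cases hvb : v ∈ vb (bd R)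
      · obtain ⟨y, hy⟩ := hB.out hvb
        obtain ⟨z, hz⟩ := hB.inc hvb
        have fzo : (v, z, o) ∈ R ∪ cone o (bd R) := a5a_mem.2 (Or.inr (Or.inl ⟨rfl, hz⟩))
        have foy : (v, o, y) ∈ R ∪ cone o (bd R) := a5a_mem.2 (Or.inr (Or.inr (Or.inl ⟨rfl, hy⟩)))
        have hlift : ∀ {p q : α}, Relation.ReflTransGen (fun x x' => (v, x, x') ∈ R) p q →
            Relation.ReflTransGen (fun x y => (v, x, y) ∈ R ∪ cone o (bd R)) p q :=
          fun hpq => hpq.lift id (fun x y hxy => a5a_mem.2 (Or.inl hxy))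
        have hyp : ∀ {p q : α}, (v, p, q) ∈ R →
            Relation.ReflTransGen (fun x x' => (v, x, x') ∈ R) y p :=
          fun hp => hF.rarc hRF hR hy (fun z hz => hB.outu hz hy) hp
        obtain ⟨⟨c, hc⟩, hc'⟩ := mem_bd.1 hz
        have hvcz : (v, c, z) ∈ R := hR hc
        have hyz : Relation.ReflTransGen (fun x x' => (v, x, x') ∈ R) y z :=
          Relation.ReflTransGen.tail (hyp hvcz) hvcz
        obtain ⟨w, hw⟩ := hF.opp (hRF hc)
        have hpz : ∀ {p q : α}, (v, p, q) ∈ R →
            Relation.ReflTransGen (fun x x' => (v, x, x') ∈ R) p z := by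
          intro p q hp
          have hl := hF.link (hRF hp) hw
          have key : ∀ x, Relation.ReflTransGen (fun x y => (v, x, y) ∈ F) p x →
              Relation.ReflTransGen (fun x x' => (v, x, x') ∈ R) p x ∨
              Relation.ReflTransGen (fun x x' => (v, x, x') ∈ R) p z := by
            intro x hx
            induction hx with
            | refl => exact Or.inl Relation.ReflTransGen.refl
            | @tail x x' _ hxx' ih =>
              rcases ih with ih | ih
              · by_cases hR' : (v, x, x') ∈ R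
                · exact Or.inl (Relation.ReflTransGen.tail ih hR')
                · right
                  rcases Relation.ReflTransGen.cases_tail ih with h1 | ⟨u, _, hu⟩
                  · subst h1
                    have := hF.uniq (hRF hp) hxx'
                    subst this
                    exact absurd hp hR'
                  · have h2 : (x, v, u) ∈ R := hR (hR hu)
                    have h3 : (x, v) ∈ bd R := by
                      refine mem_bd.2 ⟨⟨u, h2⟩, ?_⟩
                      intro d hd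
                      have := hF.uniq (hRF hd) hxx'
                      subst this
                      exact hR' hd
                    have h4 := hB.inu h3 hz
                    subst h4
                    exact ih
              · exact Or.inr ih
          rcases key z hl with h1 | h1
          · exact h1
          · exact h1
        have hzy : Relation.ReflTransGen (fun x y => (v, x, y) ∈ R ∪ cone o (bd R)) z y :=
          Relation.ReflTransGen.tail (Relation.ReflTransGen.single fzo) foy
        have toY : ∀ {p q : α}, (v, p, q) ∈ R ∪ cone o (bd R) →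
            Relation.ReflTransGen (fun x y => (v, x, y) ∈ R ∪ cone o (bd R)) p y := by
          intro p q hp
          rcases a5a_mem.1 hp with h | ⟨_, h⟩ | ⟨hpo, h⟩ | ⟨h, _⟩
          · exact (hlift (hpz h)).trans hzy
          · have := hB.inu h hz
            subst this
            exact hzy
          · subst hpo
            exact Relation.ReflTransGen.single foy
          · exact absurd h hv
        have fromY : ∀ {p q : α}, (v, p, q) ∈ R ∪ cone o (bd R) →
            Relation.ReflTransGen (fun x y => (v, x, y) ∈ R ∪ cone o (bd R)) y p := by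
          intro p q hp
          rcases a5a_mem.1 hp with h | ⟨_, h⟩ | ⟨hpo, h⟩ | ⟨h, _⟩
          · exact hlift (hyp h)
          · have := hB.inu h hz
            subst this
            exact hlift hyz
          · subst hpo
            exact Relation.ReflTransGen.tail (hlift hyz) fzo
          · exact absurd h hv
        exact (toY h).trans (fromY h')
      · have hin : ∀ {p q : α}, (v, p, q) ∈ R ∪ cone o (bd R) → (v, p, q) ∈ R := by
          intro p q hp
          rcases a5a_mem.1 hp with h | ⟨_, h⟩ | ⟨_, h⟩ | ⟨h, _⟩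
          · exact h
          · exact absurd (a5_vb_right h) hvb
          · exact absurd (a5_vb_left h) hvb
          · exact absurd h hv
        have hall : ∀ {p q : α}, (v, p, q) ∈ F → (v, p, q) ∈ R := by
          intro p q hp
          by_contra hcon
          obtain ⟨z, hz⟩ := hF.exists_out hRF hR (hin h) hp hcon
          exact hvb (a5_vb_left hz)
        exact (hF.link (hRF (hin h)) (hRF (hin h'))).lift id
          (fun x y hxy => a5a_mem.2 (Or.inl (hall hxy)))
  · -- conn
    have hsym : ∀ {x y : α}, Adj (R ∪ cone o (bd R)) x y → Adj (R ∪ cone o (bd R)) y x := by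
      rintro x y ⟨z, hz⟩
      exact hopp hz
    obtain ⟨⟨a0, b0⟩, hab0⟩ := hbn
    obtain ⟨⟨c0, hc0⟩, _⟩ := mem_bd.1 hab0
    have hadj0 : ∀ {a b : α}, (a, b) ∈ bd R → Adj (R ∪ cone o (bd R)) a o := fun {a b} h =>
      ⟨b, a5a_mem.2 (Or.inr (Or.inr (Or.inl ⟨rfl, h⟩)))⟩
    have toO : ∀ x ∈ vs (R ∪ cone o (bd R)), Relation.ReflTransGen (Adj (R ∪ cone o (bd R))) x o := by
      intro x hx
      rw [vs_union_cone hR hB, mem_insert] at hx
      rcases hx with rfl | hx
      · exact Relation.ReflTransGen.refl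
      · obtain ⟨p, q, hpq⟩ := mem_vs.1 hx
        have hd := hF.dual_conn (hRF hpq) (hRF hc0)
        have key : ∀ s, Relation.ReflTransGen (RStep F) (x, p, q) s →
            (s ∈ R ∧ Relation.ReflTransGen (Adj (R ∪ cone o (bd R))) x s.1) ∨
            Relation.ReflTransGen (Adj (R ∪ cone o (bd R))) x o := by
          intro s hs
          induction hs with
          | refl => exact Or.inl ⟨hpq, Relation.ReflTransGen.refl⟩
          | @tail s t _ hst ih =>
            rcases ih with ⟨h1, h2⟩ | ih
            · obtain ⟨s1, s2, s3⟩ := s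
              have h3 : Adj (R ∪ cone o (bd R)) s1 s2 := ⟨s3, a5a_mem.2 (Or.inl h1)⟩
              obtain ⟨htF, ht⟩ := hst
              rcases ht with ht | ⟨d, ht⟩
              · subst ht
                exact Or.inl ⟨hR h1, Relation.ReflTransGen.tail h2 h3⟩
              · subst ht
                by_cases htR : (s2, s1, d) ∈ R
                · exact Or.inl ⟨htR, Relation.ReflTransGen.tail h2 h3⟩
                · right
                  have h4 : (s1, s2) ∈ bd R := by
                    refine mem_bd.2 ⟨⟨s3, h1⟩, ?_⟩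
                    intro d' hd'
                    have := hF.uniq (hRF hd') htF
                    subst this
                    exact htR hd'
                  exact Relation.ReflTransGen.tail h2 (hadj0 h4)
            · exact Or.inr ih
        rcases key _ hd with ⟨_, h⟩ | h
        · exact Relation.ReflTransGen.tail h (hadj0 hab0)
        · exact h
    intro a b ha hb
    refine (toO a ha).trans ?_
    exact (Relation.reflTransGen_swap.2 (toO b hb)).lift id (fun x y hxy => hsym hxy)
  · -- nonempty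
    obtain ⟨⟨a, b⟩, h⟩ := hbn
    obtain ⟨⟨c, hc⟩, _⟩ := mem_bd.1 h
    exact ⟨(a, b, c), mem_union_left _ hc⟩

end H19S
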