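import Pool.Agent.Lib.H19S.A2
import Pool.Agent.Lib.H19S.A5a

/-!
# H19S, chunk A5b: both sides of a simple cycle are spheres
-/

namespace H19S

open Finset

variable {α : Type*} [DecidableEq α] {F R : Finset (α × α × α)}

/-- A vertex of both `R` and the complement is a boundary vertex. -/
theorem mem_vb_of_both (hF : IsSurf F) (hRF : R ⊆ F) (hR : RotC R) {x : α} (h : x ∈ vs R)
    (h' : x ∈ vs (F \ R)) : x ∈ vb (bd R) := by
  obtain ⟨a, b, hab⟩ := mem_vs.1 h
  obtain ⟨a', b', hab'⟩ := mem_vs.1 h'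
  rw [mem_sdiff] at hab'
  obtain ⟨z, hz⟩ := hF.exists_out hRF hR hab hab'.1 hab'.2
  exact mem_union_left _ (mem_image.2 ⟨(x, z), hz, rfl⟩)

theorem A5b_rotC_sdiff (hF : IsSurf F) (hR : RotC R) : RotC (F \ R) := by
  intro a b c h
  rw [mem_sdiff] at h ⊢
  exact ⟨hF.rot h.1, fun h' => h.2 (hR (hR h'))⟩

theorem A5b_mem_vb {B : Finset (α × α)} {x : α} :
    x ∈ vb B ↔ (∃ y, (x, y) ∈ B) ∨ ∃ y, (y, x) ∈ B := by
  unfold vb
  simp only [mem_union, mem_image, Prod.exists, exists_and_right, exists_eq_right]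

theorem A5b_mem_vb_swap {B : Finset (α × α)} {x : α} :
    x ∈ vb (B.image Prod.swap) ↔ x ∈ vb B := by
  rw [A5b_mem_vb, A5b_mem_vb]
  constructor
  · rintro (⟨y, hy⟩ | ⟨y, hy⟩)
    · obtain ⟨e, he, h⟩ := mem_image.1 hy
      right
      refine ⟨y, ?_⟩
      have : e = (y, x) := by
        rw [← Prod.swap_swap e, h]; rfl
      rwa [this] at he
    · obtain ⟨e, he, h⟩ := mem_image.1 hy
      left
      refine ⟨y, ?_⟩
      have : e = (x, y) := by
        rw [← Prod.swap_swap e, h]; rfl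
      rwa [this] at he
  · rintro (⟨y, hy⟩ | ⟨y, hy⟩)
    · exact Or.inr ⟨y, mem_image.2 ⟨(x, y), hy, rfl⟩⟩
    · exact Or.inl ⟨y, mem_image.2 ⟨(y, x), hy, rfl⟩⟩

/-- Cardinalities for the cut surface. -/
theorem A5b_cards (hF : IsSurf F) (hRF : R ⊆ F) (hR : RotC R) (hB : IsCyc (bd R)) {o : α}
    (ho : o ∉ vs F) :
    (R ∪ cone o (bd R)).card = R.card + 3 * (bd R).card ∧
      (vs (R ∪ cone o (bd R))).card = (vs R).card + 1 := by
  have hsub : vs R ⊆ vs F := by
    intro x hx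
    obtain ⟨a, b, h⟩ := mem_vs.1 hx
    exact mem_vs.2 ⟨a, b, hRF h⟩
  have hoR : o ∉ vs R := fun h => ho (hsub h)
  have hob : o ∉ vb (bd R) := fun h => hoR (vb_bd_subset hR h)
  constructor
  · rw [card_union_of_disjoint, card_cone hB hob]
    rw [disjoint_left]
    intro t ht ht'
    obtain ⟨a, b, -, h⟩ := mem_cone.1 ht'
    have h3 := ht
    rcases h with h | h | h
    · subst h
      exact hoR (mem_vs.2 ⟨b, a, hR (hR h3)⟩)
    · subst h
      exact hoR (mem_vs.2 ⟨b, a, hR h3⟩)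
    · subst h
      exact hoR (mem_vs.2 ⟨b, a, h3⟩)
  · rw [vs_union_cone hR hB, card_insert_of_notMem hoR]

/-- Both sides at once. -/
theorem A5b_cut_both (hF : IsTri F) (hRF : R ⊆ F) (hR : RotC R) (hB : IsCyc (bd R)) {o : α}
    (ho : o ∉ vs F) : IsTri (R ∪ cone o (bd R)) ∧
      IsTri ((F \ R) ∪ cone o ((bd R).image Prod.swap)) := by
  have hFs : IsSurf F := hF.toIsSurf
  have hR2 : RotC (F \ R) := A5b_rotC_sdiff hFs hR
  have hbd : bd (F \ R) = (bd R).image Prod.swap := hFs.bd_sdiff hRF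
  have hB2 : IsCyc (bd (F \ R)) := by rw [hbd]; exact hB.swap
  have hsub2 : F \ R ⊆ F := sdiff_subset
  have s1 := cut_surf hFs hRF hR hB ho
  have s2 := cut_surf hFs hsub2 hR2 hB2 ho
  obtain ⟨c1, v1⟩ := A5b_cards hFs hRF hR hB ho
  obtain ⟨c2, v2⟩ := A5b_cards hFs hsub2 hR2 hB2 ho
  have e1 := s1.euler_le
  have e2 := s2.euler_le
  have hcB : (bd (F \ R)).card = (bd R).card := by
    rw [hbd, card_image_of_injective _ Prod.swap_injective]
  have hcF : R.card + (F \ R).card = F.card := by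
    rw [add_comm]; exact card_sdiff_add_card_eq_card hRF
  have hun : vs R ∪ vs (F \ R) = vs F := by
    ext x
    rw [mem_union, mem_vs, mem_vs, mem_vs]
    constructor
    · rintro (⟨a, b, h⟩ | ⟨a, b, h⟩)
      · exact ⟨a, b, hRF h⟩
      · exact ⟨a, b, hsub2 h⟩
    · rintro ⟨a, b, h⟩
      by_cases h' : (x, a, b) ∈ R
      · exact Or.inl ⟨a, b, h'⟩
      · exact Or.inr ⟨a, b, mem_sdiff.2 ⟨h, h'⟩⟩
  have hint : vs R ∩ vs (F \ R) = vb (bd R) := by
    ext x
    rw [mem_inter]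
    constructor
    · rintro ⟨h, h'⟩
      exact mem_vb_of_both hFs hRF hR h h'
    · intro h
      refine ⟨vb_bd_subset hR h, vb_bd_subset hR2 ?_⟩
      rw [hbd]
      exact A5b_mem_vb_swap.2 h
  have hcv : (vs R).card + (vs (F \ R)).card = (vs F).card + (bd R).card := by
    rw [← hB.card_vb, ← hint, ← hun, card_union_add_card_inter]
  have hE := hF.euler
  rw [hbd] at s2 c2 v2 e2
  have hcB' : ((bd R).image Prod.swap).card = (bd R).card := by
    rw [card_image_of_injective _ Prod.swap_injective]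
  rw [hcB'] at c2
  rw [c1, v1] at e1
  rw [c2, v2] at e2
  refine ⟨⟨s1, ?_⟩, ⟨s2, ?_⟩⟩
  · rw [c1, v1]; omega
  · rw [c2, v2]; omega

/-- (chunk A5b) Both sides are spheres: by `euler_le` for `R ∪ cone` and for `(F \ R) ∪ cone`, and
`|R| + |F\R| = |F| = 6|V| - 12`, `|vs R| + |vs (F\R)| = |V| + |B|` (vertices in both = boundary vertices, by
`exists_out` and `out_iff_in`), both inequalities are equalities. -/
theorem cut_tri (hF : IsTri F) (hRF : R ⊆ F) (hR : RotC R) (hB : IsCyc (bd R)) {o : α}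
    (ho : o ∉ vs F) : IsTri (R ∪ cone o (bd R)) :=
  (A5b_cut_both hF hRF hR hB ho).1

theorem cut_tri' (hF : IsTri F) (hRF : R ⊆ F) (hR : RotC R) (hB : IsCyc (bd R)) {o : α}
    (ho : o ∉ vs F) : IsTri ((F \ R) ∪ cone o ((bd R).image Prod.swap)) :=
  (A5b_cut_both hF hRF hR hB ho).2

theorem inner_eq (hF : IsSurf F) (hRF : R ⊆ F) (hR : RotC R) : inner F R = vs R \ vb (bd R) := by
  ext x
  unfold inner
  rw [mem_filter, mem_sdiff]
  refine and_congr_right fun hx => ?_
  constructor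
  · intro h hb
    have hin : ∃ z, (z, x) ∈ bd R := by
      rcases A5b_mem_vb.1 hb with h1 | h1
      · exact (hF.out_iff_in hRF hR x).1 h1
      · exact h1
    obtain ⟨z, hz⟩ := hin
    obtain ⟨⟨c, hc⟩, hn⟩ := mem_bd.1 hz
    obtain ⟨d, hd⟩ := hF.opp (hRF hc)
    exact hn d (h _ hd rfl)
  · intro hb t ht htx
    by_contra hR'
    refine hb (mem_vb_of_both hF hRF hR hx ?_)
    obtain ⟨t1, t2, t3⟩ := t
    simp only at htx
    subst htx
    exact mem_vs.2 ⟨t2, t3, mem_sdiff.2 ⟨ht, hR'⟩⟩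

theorem vs_sdiff (hF : IsSurf F) (hRF : R ⊆ F) (hR : RotC R) : vs (F \ R) = vs F \ inner F R := by
  ext x
  rw [mem_sdiff]
  constructor
  · intro h
    obtain ⟨a, b, hab⟩ := mem_vs.1 h
    rw [mem_sdiff] at hab
    refine ⟨mem_vs.2 ⟨a, b, hab.1⟩, fun hi => ?_⟩
    unfold inner at hi
    exact hab.2 ((mem_filter.1 hi).2 _ hab.1 rfl)
  · rintro ⟨h, hi⟩
    obtain ⟨a, b, hab⟩ := mem_vs.1 h
    by_contra hn
    refine hi ?_
    have key : ∀ t ∈ F, t.1 = x → t ∈ R := by
      rintro ⟨t1, t2, t3⟩ ht htx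
      simp only at htx
      subst htx
      by_contra h'
      exact hn (mem_vs.2 ⟨t2, t3, mem_sdiff.2 ⟨ht, h'⟩⟩)
    unfold inner
    exact mem_filter.2 ⟨mem_vs.2 ⟨a, b, key _ hab rfl⟩, key⟩

/-- The label `o` does not occur in `R`. -/
def NoV (o : α) (R : Finset (α × α × α)) : Prop := ∀ t ∈ R, t.1 ≠ o ∧ t.2.1 ≠ o ∧ t.2.2 ≠ o

/-- If `R' ∪ cone o B` is a surface and `o` does not occur in `R'`, the boundary of `R'` is `B`. -/
theorem bd_of_fill {R' : Finset (α × α × α)} {B : Finset (α × α)} {o : α} (hB : IsCyc B)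
    (ho : NoV o R') (hR' : IsSurf (R' ∪ cone o B)) (hv : vb B ⊆ vs R') : bd R' = B := by
  have hob : o ∉ vb B := by
    intro h
    obtain ⟨a, b, hab⟩ := mem_vs.1 (hv h)
    exact (ho _ hab).1 rfl
  ext ⟨a, b⟩
  rw [mem_bd]
  constructor
  · rintro ⟨⟨c, hc⟩, hn⟩
    obtain ⟨d, hd⟩ := hR'.opp (mem_union_left _ hc)
    rcases mem_union.1 hd with h | h
    · exact absurd h (hn d)
    · obtain ⟨x, y, hxy, h⟩ := mem_cone.1 h
      have ha := (ho _ hc).1
      have hb := (ho _ hc).2.1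
      rcases h with h | h | h
      · simp only [Prod.mk.injEq] at h
        obtain ⟨rfl, rfl, -⟩ := h
        exact hxy
      · simp only [Prod.mk.injEq] at h
        exact absurd h.2.1 ha
      · simp only [Prod.mk.injEq] at h
        exact absurd h.1 hb
  · intro h
    have ha : a ≠ o := by
      rintro rfl
      exact hob (A5b_mem_vb.2 (Or.inl ⟨b, h⟩))
    have hb : b ≠ o := by
      rintro rfl
      exact hob (A5b_mem_vb.2 (Or.inr ⟨a, h⟩))
    have hcone : (b, a, o) ∈ R' ∪ cone o B :=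
      mem_union_right _ (mem_cone.2 ⟨a, b, h, Or.inl rfl⟩)
    constructor
    · obtain ⟨d, hd⟩ := hR'.opp hcone
      refine ⟨d, ?_⟩
      rcases mem_union.1 hd with h1 | h1
      · exact h1
      · exfalso
        obtain ⟨x, y, hxy, h2⟩ := mem_cone.1 h1
        rcases h2 with h2 | h2 | h2
        · simp only [Prod.mk.injEq] at h2
          obtain ⟨rfl, rfl, -⟩ := h2
          exact hB.not_rev h hxy
        · simp only [Prod.mk.injEq] at h2
          exact hb h2.2.1
        · simp only [Prod.mk.injEq] at h2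
          exact ha h2.1
    · intro d hd
      have : d = o := hR'.uniq (mem_union_left _ hd) hcone
      exact (ho _ hd).2.2 this

theorem rotC_of_fill {R' : Finset (α × α × α)} {B : Finset (α × α)} {o : α} (hB : IsCyc B)
    (ho : NoV o R') (hR' : IsSurf (R' ∪ cone o B)) : RotC R' := by
  intro a b c h
  have h1 := hR'.rot (mem_union_left (cone o B) h)
  rcases mem_union.1 h1 with h2 | h2
  · exact h2
  · exfalso
    obtain ⟨ha, hb, hc⟩ := ho _ h
    obtain ⟨x, y, -, h3⟩ := mem_cone.1 h2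
    rcases h3 with h3 | h3 | h3
    · simp only [Prod.mk.injEq] at h3
      exact ha h3.2.2
    · simp only [Prod.mk.injEq] at h3
      exact hc h3.2.1
    · simp only [Prod.mk.injEq] at h3
      exact hb h3.1

end H19S
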