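import Pool.Agent.Lib.H19S.A0b
import Pool.Agent.Lib.H19S.A5b

/-!
# H19S, chunk A5c: gluing
-/

namespace H19S

open Finset

variable {α : Type*} [DecidableEq α] {F R : Finset (α × α × α)}

theorem A5c_mono {β : Type*} {r p : β → β → Prop} {a b : β} (h : ∀ x y, r x y → p x y)
    (hab : Relation.ReflTransGen r a b) : Relation.ReflTransGen p a b :=
  Relation.ReflTransGen.mono h _ _ hab

section relabel

variable {β : Type*} [DecidableEq β]

theorem A5c_mem_relab {f : α → β} (hf : Function.Injective f) {a b c : α} :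
    (f a, f b, f c) ∈ relab f F ↔ (a, b, c) ∈ F := by
  rw [mem_relab]
  constructor
  · rintro ⟨a', b', c', h, he⟩
    simp only [Prod.mk.injEq] at he
    obtain ⟨h1, h2, h3⟩ := he
    rw [hf h1, hf h2, hf h3]
    exact h
  · intro h
    exact ⟨a, b, c, h, rfl⟩

theorem A5c_map3_inj {f : α → β} (hf : Function.Injective f) : Function.Injective (map3 f) := by
  rintro ⟨a, b, c⟩ ⟨a', b', c'⟩ h
  unfold map3 at h
  simp only [Prod.mk.injEq] at h
  obtain ⟨h1, h2, h3⟩ := h
  rw [hf h1, hf h2, hf h3]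

theorem A5c_rotC {f : α → β} (hR : RotC R) : RotC (relab f R) := by
  intro a b c h
  obtain ⟨a', b', c', h', he⟩ := mem_relab.1 h
  simp only [Prod.mk.injEq] at he
  obtain ⟨rfl, rfl, rfl⟩ := he
  exact mem_relab.2 ⟨b', c', a', hR h', rfl⟩

theorem A5c_bd {f : α → β} (hf : Function.Injective f) :
    bd (relab f R) = (bd R).image (Prod.map f f) := by
  ext ⟨x, y⟩
  rw [mem_bd, mem_image]
  constructor
  · rintro ⟨⟨z, hz⟩, hn⟩
    obtain ⟨a, b, c, h, he⟩ := mem_relab.1 hz
    simp only [Prod.mk.injEq] at he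
    obtain ⟨rfl, rfl, rfl⟩ := he
    refine ⟨(a, b), mem_bd.2 ⟨⟨c, h⟩, fun d hd => hn (f d) ?_⟩, rfl⟩
    exact (A5c_mem_relab hf).2 hd
  · rintro ⟨⟨a, b⟩, h, he⟩
    simp only [Prod.map_apply, Prod.mk.injEq] at he
    obtain ⟨rfl, rfl⟩ := he
    obtain ⟨⟨c, hc⟩, hn⟩ := mem_bd.1 h
    refine ⟨⟨f c, (A5c_mem_relab hf).2 hc⟩, fun d hd => ?_⟩
    obtain ⟨a', b', c', h', he⟩ := mem_relab.1 hd
    simp only [Prod.mk.injEq] at he
    obtain ⟨h1, h2, rfl⟩ := he
    have h1' := hf h1
    have h2' := hf h2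
    subst h1' h2'
    exact hn c' h'

theorem A5c_cyc {f : α → β} (hf : Function.Injective f) {B : Finset (α × α)} (hB : IsCyc B) :
    IsCyc (B.image (Prod.map f f)) := by
  have hinj : Function.Injective (Prod.map f f) := hf.prodMap hf
  constructor
  · rw [card_image_of_injective _ hinj]; exact hB.card
  · intro a b c h h'
    obtain ⟨⟨a1, b1⟩, h1, he⟩ := mem_image.1 h
    obtain ⟨⟨a2, b2⟩, h2, he2⟩ := mem_image.1 h'
    simp only [Prod.map_apply, Prod.mk.injEq] at he he2
    obtain ⟨rfl, rfl⟩ := he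
    obtain ⟨h3, rfl⟩ := he2
    have := hf h3
    subst this
    rw [hB.outu h1 h2]
  · intro a b c h h'
    obtain ⟨⟨b1, a1⟩, h1, he⟩ := mem_image.1 h
    obtain ⟨⟨b2, a2⟩, h2, he2⟩ := mem_image.1 h'
    simp only [Prod.map_apply, Prod.mk.injEq] at he he2
    obtain ⟨rfl, rfl⟩ := he
    obtain ⟨rfl, h3⟩ := he2
    have := hf h3
    subst this
    rw [hB.inu h1 h2]
  · intro a b c d h h'
    obtain ⟨⟨a1, b1⟩, h1, he⟩ := mem_image.1 h
    obtain ⟨⟨c1, d1⟩, h2, he2⟩ := mem_image.1 h'
    simp only [Prod.map_apply, Prod.mk.injEq] at he he2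
    obtain ⟨rfl, rfl⟩ := he
    obtain ⟨rfl, rfl⟩ := he2
    refine Relation.ReflTransGen.lift f ?_ _ _ (hB.orbit h1 h2)
    intro x y hxy
    exact mem_image.2 ⟨(x, y), hxy, rfl⟩

theorem A5c_sdiff {f : α → β} (hf : Function.Injective f) :
    relab f F \ relab f R = relab f (F \ R) := by
  unfold relab
  rw [image_sdiff _ _ (A5c_map3_inj hf)]

theorem A5c_card {f : α → β} (hf : Function.Injective f) : (relab f F).card = F.card := by
  unfold relab
  exact card_image_of_injective _ (A5c_map3_inj hf)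

theorem A5c_vs_card {f : α → β} (hf : Function.Injective f) :
    (vs (relab f F)).card = (vs F).card := by
  rw [vs_relab, card_image_of_injective _ hf]

end relabel

/-- Counting for the complement of a region with simple boundary, without an apex. -/
theorem A5c_count (hF : IsTri F) (hRF : R ⊆ F) (hR : RotC R) (hB : IsCyc (bd R)) :
    (F \ R).card + 3 * (bd R).card + 12 = 6 * ((vs (F \ R)).card + 1) := by
  classical
  have hs : Function.Injective (some : α → Option α) := Option.some_injective α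
  have hF1 : IsTri (relab (some : α → Option α) F) := hF.relab hs.injOn
  have hRF1 : relab (some : α → Option α) R ⊆ relab some F := image_subset_image hRF
  have hR1 : RotC (relab (some : α → Option α) R) := A5c_rotC hR
  have hbd1 := A5c_bd (R := R) hs
  have hB1 : IsCyc (bd (relab (some : α → Option α) R)) := by
    rw [hbd1]; exact A5c_cyc hs hB
  have hnone : (none : Option α) ∉ vs (relab (some : α → Option α) F) := by
    rw [vs_relab]
    intro h
    obtain ⟨x, -, hx⟩ := mem_image.1 h
    exact Option.some_ne_none x hx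
  have h1 := (cut_tri' hF1 hRF1 hR1 hB1 hnone).euler
  have hbs : (bd (relab (some : α → Option α) R)).image Prod.swap =
      bd (relab (some : α → Option α) F \ relab some R) := by
    rw [hF1.toIsSurf.bd_sdiff hRF1]
  have hR2 : RotC (relab (some : α → Option α) F \ relab some R) :=
    A5b_rotC_sdiff hF1.toIsSurf hR1
  have hB2 : IsCyc (bd (relab (some : α → Option α) F \ relab some R)) := by
    rw [← hbs]; exact hB1.swap
  obtain ⟨c2, v2⟩ := A5b_cards hF1.toIsSurf sdiff_subset hR2 hB2 hnone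
  rw [hbs, c2, v2, ← hbs, card_image_of_injective _ Prod.swap_injective, hbd1,
    card_image_of_injective _ (hs.prodMap hs), A5c_sdiff hs, A5c_card hs, A5c_vs_card hs] at h1
  omega

/-- Inside a filling, every source at a boundary vertex leads to the incoming boundary side. -/
theorem A5c_link_fill {R' : Finset (α × α × α)} {B : Finset (α × α)} {o : α} (hB : IsCyc B)
    (ho : NoV o R') (hS : IsSurf (R' ∪ cone o B)) (hob : o ∉ vb B) {v w a b : α}
    (hw : (w, v) ∈ B) (ha : (v, a, b) ∈ R') :
    Relation.ReflTransGen (fun x y => (v, x, y) ∈ R') a w := by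
  have hvo : v ≠ o := (ho _ ha).1
  have hao : a ≠ o := (ho _ ha).2.1
  have hcw : (v, w, o) ∈ R' ∪ cone o B :=
    mem_union_right _ (mem_cone.2 ⟨w, v, hw, Or.inl rfl⟩)
  have hvv : v ∈ vb B := A5b_mem_vb.2 (Or.inr ⟨w, hw⟩)
  obtain ⟨y, hy⟩ := hB.out hvv
  have hco : (v, o, y) ∈ R' ∪ cone o B :=
    mem_union_right _ (mem_cone.2 ⟨v, y, hy, Or.inr (Or.inl rfl)⟩)
  have hch := hS.link (mem_union_left _ ha) hco
  have key : ∀ x, Relation.ReflTransGen (fun x y => (v, x, y) ∈ R' ∪ cone o B) x o →
      x = o ∨ Relation.ReflTransGen (fun x y => (v, x, y) ∈ R') x w := by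
    intro x hx
    induction hx using Relation.ReflTransGen.head_induction_on with
    | refl => exact Or.inl rfl
    | @head p q hstep hqr ih =>
      rcases mem_union.1 hstep with h | h
      · rcases ih with rfl | ih
        · exact absurd rfl (ho _ h).2.2
        · exact Or.inr (Relation.ReflTransGen.head h ih)
      · obtain ⟨e1, e2, he, h⟩ := mem_cone.1 h
        rcases h with h | h | h
        · simp only [Prod.mk.injEq] at h
          obtain ⟨rfl, rfl, rfl⟩ := h
          right
          rw [hB.inu he hw]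
        · simp only [Prod.mk.injEq] at h
          exact Or.inl h.2.1
        · simp only [Prod.mk.injEq] at h
          exact absurd h.1 hvo
  exact (key a hch).resolve_left hao

/-- In the complement `C` of a region, every source at a boundary vertex leads to the outgoing
boundary side of the region. -/
theorem A5c_link_out (hF : IsSurf F) (hRF : R ⊆ F) (hR : RotC R) (hB : IsCyc (bd R)) {v y a b : α}
    (hy : (v, y) ∈ bd R) (ha : (v, a, b) ∈ F \ R) :
    Relation.ReflTransGen (fun x x' => (v, x, x') ∈ F \ R) a y := by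
  obtain ⟨⟨c, hc⟩, hn⟩ := mem_bd.1 hy
  have hch := hF.link (mem_sdiff.1 ha).1 (hRF hc)
  have hC : RotC (F \ R) := A5b_rotC_sdiff hF hR
  have key : ∀ x, Relation.ReflTransGen (fun x y => (v, x, y) ∈ F) x y →
      (∃ x1, (v, x, x1) ∈ F \ R) →
      Relation.ReflTransGen (fun x x' => (v, x, x') ∈ F \ R) x y := by
    intro x hx
    induction hx using Relation.ReflTransGen.head_induction_on with
    | refl => exact fun _ => Relation.ReflTransGen.refl
    | @head p q hstep hqr ih =>
      rintro ⟨x1, hx1⟩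
      have hq : x1 = q := hF.uniq (mem_sdiff.1 hx1).1 hstep
      subst hq
      obtain ⟨d, hd⟩ := hF.opp (hF.rot2 hstep)
      by_cases hdR : (v, x1, d) ∈ R
      · have hbd : (v, x1) ∈ bd R := by
          refine mem_bd.2 ⟨⟨d, hdR⟩, fun e he => ?_⟩
          have h1 : (x1, v, p) ∈ F \ R := hC (hC hx1)
          have h2 : e = p := hF.uniq (hRF he) (mem_sdiff.1 h1).1
          subst h2
          exact (mem_sdiff.1 h1).2 he
        have : x1 = y := hB.outu hbd hy
        subst this
        exact Relation.ReflTransGen.single hx1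
      · exact Relation.ReflTransGen.head hx1 (ih ⟨d, mem_sdiff.2 ⟨hd, hdR⟩⟩)
  exact key a hch ⟨b, ha⟩

/-- (chunk A5c) Replacing a region: gluing.  Surface axioms are local; `link` at a boundary vertex: arc of `F \ R`
followed by arc of `R'` (`rarc` for both surfaces); `conn` clear through the boundary (`F \ R` side: every vertex can
be joined to the boundary inside `F \ R`, as in `cut_surf`); Euler by `cut_tri'` and counting. -/
theorem glue (hF : IsTri F) (hRF : R ⊆ F) (hR : RotC R) (hB : IsCyc (bd R))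
    {R' : Finset (α × α × α)} {o : α} (ho : NoV o R') (hR' : IsTri (R' ∪ cone o (bd R)))
    (hv : vs R' ∩ vs (F \ R) ⊆ vb (bd R))
    (hvb : vb (bd R) ⊆ vs R')
    (hd : ∀ a b c d, (a, b, c) ∈ R' → (a, b, d) ∈ F \ R → False) :
    IsTri ((F \ R) ∪ R') := by
  classical
  have hFs : IsSurf F := hF.toIsSurf
  have hSs : IsSurf (R' ∪ cone o (bd R)) := hR'.toIsSurf
  have hC : RotC (F \ R) := A5b_rotC_sdiff hFs hR
  have hR'c : RotC R' := rotC_of_fill hB ho hSs
  have hbR' : bd R' = bd R := bd_of_fill hB ho hSs hvb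
  have hob : o ∉ vb (bd R) := by
    intro h
    obtain ⟨a, b, hab⟩ := mem_vs.1 (hvb h)
    exact (ho _ hab).1 rfl
  have hbC : bd (F \ R) = (bd R).image Prod.swap := hFs.bd_sdiff hRF
  have hCF : F \ R ⊆ F := sdiff_subset
  have hvbC : vb (bd R) ⊆ vs (F \ R) := by
    intro x hx
    refine vb_bd_subset hC ?_
    rw [hbC]
    exact A5b_mem_vb_swap.2 hx
  have hBc : IsCyc (bd (F \ R)) := by rw [hbC]; exact hB.swap
  -- opposite faces
  have hopp : ∀ {a b c : α}, (a, b, c) ∈ (F \ R) ∪ R' → ∃ d, (b, a, d) ∈ (F \ R) ∪ R' := by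
    intro a b c h
    rcases mem_union.1 h with h | h
    · obtain ⟨d, hd'⟩ := hFs.opp (mem_sdiff.1 h).1
      by_cases hdR : (b, a, d) ∈ R
      · have hba : (b, a) ∈ bd R := by
          refine mem_bd.2 ⟨⟨d, hdR⟩, fun e he => ?_⟩
          have : e = c := hFs.uniq (hRF he) (mem_sdiff.1 h).1
          subst this
          exact (mem_sdiff.1 h).2 he
        rw [← hbR'] at hba
        obtain ⟨⟨e, he⟩, -⟩ := mem_bd.1 hba
        exact ⟨e, mem_union_right _ he⟩
      · exact ⟨d, mem_union_left _ (mem_sdiff.2 ⟨hd', hdR⟩)⟩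
    · obtain ⟨d, hd'⟩ := hSs.opp (mem_union_left _ h)
      rcases mem_union.1 hd' with h1 | h1
      · exact ⟨d, mem_union_right _ h1⟩
      · obtain ⟨e1, e2, he, h2⟩ := mem_cone.1 h1
        have hab : (a, b) ∈ bd R := by
          rcases h2 with h2 | h2 | h2
          · simp only [Prod.mk.injEq] at h2
            obtain ⟨rfl, rfl, -⟩ := h2
            exact he
          · simp only [Prod.mk.injEq] at h2
            exact absurd h2.2.1 (ho _ h).1
          · simp only [Prod.mk.injEq] at h2
            exact absurd h2.1 (ho _ h).2.1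
        obtain ⟨⟨e, he'⟩, hn⟩ := mem_bd.1 hab
        obtain ⟨d', hd''⟩ := hFs.opp (hRF he')
        exact ⟨d', mem_union_left _ (mem_sdiff.2 ⟨hd'', hn d'⟩)⟩
  have hrot : ∀ {a b c : α}, (a, b, c) ∈ (F \ R) ∪ R' → (b, c, a) ∈ (F \ R) ∪ R' := by
    intro a b c h
    rcases mem_union.1 h with h | h
    · exact mem_union_left _ (hC h)
    · exact mem_union_right _ (hR'c h)
  -- link chains at boundary vertices
  have hLto : ∀ {v y a b : α}, (v, y) ∈ bd R → (v, a, b) ∈ (F \ R) ∪ R' →
      Relation.ReflTransGen (fun x x' => (v, x, x') ∈ (F \ R) ∪ R') a y := by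
    intro v y a b hy h
    have hCto : ∀ {a b : α}, (v, a, b) ∈ F \ R →
        Relation.ReflTransGen (fun x x' => (v, x, x') ∈ (F \ R) ∪ R') a y := by
      intro a b h
      refine A5c_mono ?_ (A5c_link_out hFs hRF hR hB hy h)
      intro p q hpq
      exact mem_union_left _ hpq
    rcases mem_union.1 h with h | h
    · exact hCto h
    · have hvv : v ∈ vb (bd R) := A5b_mem_vb.2 (Or.inl ⟨y, hy⟩)
      obtain ⟨w, hw⟩ := hB.inc hvv
      have h1 := A5c_link_fill hB ho hSs hob hw h
      have h2 : Relation.ReflTransGen (fun x x' => (v, x, x') ∈ (F \ R) ∪ R') a w := by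
        refine A5c_mono ?_ h1
        intro p q hpq
        exact mem_union_right _ hpq
      obtain ⟨⟨e, he⟩, hn⟩ := mem_bd.1 hw
      obtain ⟨d, hd'⟩ := hFs.opp (hRF he)
      exact h2.trans (hCto (mem_sdiff.2 ⟨hd', hn d⟩))
  have hLfrom : ∀ {v y a b : α}, (v, y) ∈ bd R → (v, a, b) ∈ (F \ R) ∪ R' →
      Relation.ReflTransGen (fun x x' => (v, x, x') ∈ (F \ R) ∪ R') y a := by
    intro v y a b hy h
    rcases mem_union.1 h with h | h
    · have hvv : v ∈ vb (bd R) := A5b_mem_vb.2 (Or.inl ⟨y, hy⟩)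
      obtain ⟨w, hw⟩ := hB.inc hvv
      -- from y to w inside R'
      have hy' : (v, y) ∈ bd R' := by rw [hbR']; exact hy
      obtain ⟨⟨e, he⟩, -⟩ := mem_bd.1 hy'
      have h1 : Relation.ReflTransGen (fun x x' => (v, x, x') ∈ (F \ R) ∪ R') y w := by
        refine A5c_mono ?_ (A5c_link_fill hB ho hSs hob hw he)
        intro p q hpq
        exact mem_union_right _ hpq
      -- from w to a inside C
      have hw' : (v, w) ∈ bd (F \ R) := by
        rw [hbC]; exact mem_image.2 ⟨(w, v), hw, rfl⟩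
      have h2 := hFs.rarc hCF hC hw' (fun z hz => hBc.outu hz hw') h
      refine h1.trans (A5c_mono ?_ h2)
      intro p q hpq
      exact mem_union_left _ hpq
    · have hy' : (v, y) ∈ bd R' := by rw [hbR']; exact hy
      have h2 := hSs.rarc subset_union_left hR'c hy'
        (fun z hz => by rw [hbR'] at hz; exact hB.outu hz hy) h
      refine A5c_mono ?_ h2
      intro p q hpq
      exact mem_union_right _ hpq
  have hlink : ∀ {v a b a' b' : α}, (v, a, b) ∈ (F \ R) ∪ R' → (v, a', b') ∈ (F \ R) ∪ R' →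
      Relation.ReflTransGen (fun x y => (v, x, y) ∈ (F \ R) ∪ R') a a' := by
    intro v a b a' b' h h'
    by_cases hvv : v ∈ vb (bd R)
    · obtain ⟨y, hy⟩ := hB.out hvv
      exact (hLto hy h).trans (hLfrom hy h')
    · have hnot : ¬ (v ∈ vs R' ∧ v ∈ vs (F \ R)) := fun hh => hvv (hv (mem_inter.2 hh))
      rcases mem_union.1 h with h1 | h1
      · have hvC : v ∈ vs (F \ R) := mem_vs.2 ⟨a, b, h1⟩
        have hvR' : v ∉ vs R' := fun hh => hnot ⟨hh, hvC⟩
        have h1' : (v, a', b') ∈ F \ R := by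
          rcases mem_union.1 h' with h2 | h2
          · exact h2
          · exact absurd (mem_vs.2 ⟨a', b', h2⟩) hvR'
        refine A5c_mono ?_ (hFs.link (mem_sdiff.1 h1).1 (mem_sdiff.1 h1').1)
        intro p q hpq
        refine mem_union_left _ (mem_sdiff.2 ⟨hpq, fun hpR => ?_⟩)
        exact hvv (mem_vb_of_both hFs hRF hR (mem_vs.2 ⟨p, q, hpR⟩) hvC)
      · have hvR' : v ∈ vs R' := mem_vs.2 ⟨a, b, h1⟩
        have hvC : v ∉ vs (F \ R) := fun hh => hnot ⟨hvR', hh⟩
        have h1' : (v, a', b') ∈ R' := by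
          rcases mem_union.1 h' with h2 | h2
          · exact absurd (mem_vs.2 ⟨a', b', h2⟩) hvC
          · exact h2
        refine A5c_mono ?_
          (hSs.link (mem_union_left _ h1) (mem_union_left _ h1'))
        intro p q hpq
        refine mem_union_right _ ?_
        rcases mem_union.1 hpq with h2 | h2
        · exact h2
        · exfalso
          obtain ⟨e1, e2, he, h3⟩ := mem_cone.1 h2
          rcases h3 with h3 | h3 | h3
          · simp only [Prod.mk.injEq] at h3
            obtain ⟨rfl, -, -⟩ := h3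
            exact hvv (A5b_mem_vb.2 (Or.inr ⟨e1, he⟩))
          · simp only [Prod.mk.injEq] at h3
            obtain ⟨rfl, -, -⟩ := h3
            exact hvv (A5b_mem_vb.2 (Or.inl ⟨e2, he⟩))
          · simp only [Prod.mk.injEq] at h3
            exact (ho _ h1).1 h3.1
  -- adjacency
  have hsym : ∀ {x y : α}, Adj ((F \ R) ∪ R') x y → Adj ((F \ R) ∪ R') y x := by
    rintro x y ⟨z, hz⟩
    exact hopp hz
  have hsymG : ∀ {x y : α}, Relation.ReflTransGen (Adj ((F \ R) ∪ R')) x y →
      Relation.ReflTransGen (Adj ((F \ R) ∪ R')) y x := by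
    intro x y h
    induction h with
    | refl => exact Relation.ReflTransGen.refl
    | tail _ h2 ih => exact Relation.ReflTransGen.head (hsym h2) ih
  -- boundary vertices are joined
  obtain ⟨⟨b0, b1⟩, hb01⟩ : (bd R).Nonempty := by
    rw [← card_pos]; have := hB.card; omega
  have hbdAdj : ∀ {x y : α}, (x, y) ∈ bd R → Adj ((F \ R) ∪ R') x y := by
    intro x y h
    rw [← hbR'] at h
    obtain ⟨⟨e, he⟩, -⟩ := mem_bd.1 h
    exact ⟨e, mem_union_right _ he⟩
  have hvbconn : ∀ {x : α}, x ∈ vb (bd R) → Relation.ReflTransGen (Adj ((F \ R) ∪ R')) x b0 := by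
    intro x hx
    obtain ⟨y, hy⟩ := hB.out hx
    have h1 := hB.orbit hy hb01
    refine Relation.ReflTransGen.head (hbdAdj hy) ?_
    exact A5c_mono (fun _ _ hh => hbdAdj hh) h1
  have hconnR' : ∀ {x : α}, x ∈ vs R' → Relation.ReflTransGen (Adj ((F \ R) ∪ R')) x b0 := by
    intro x hx
    have hb0 : b0 ∈ vs R' := hvb (A5b_mem_vb.2 (Or.inl ⟨b1, hb01⟩))
    have hsubS : ∀ {z : α}, z ∈ vs R' → z ∈ vs (R' ∪ cone o (bd R)) := by
      intro z hz
      obtain ⟨p, q, hpq⟩ := mem_vs.1 hz
      exact mem_vs.2 ⟨p, q, mem_union_left _ hpq⟩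
    have hch := hSs.conn (hsubS hx) (hsubS hb0)
    have hxo : x ≠ o := by
      rintro rfl
      obtain ⟨p, q, hpq⟩ := mem_vs.1 hx
      exact (ho _ hpq).1 rfl
    have key : ∀ z, Relation.ReflTransGen (Adj (R' ∪ cone o (bd R))) z b0 →
        z = o ∨ Relation.ReflTransGen (Adj ((F \ R) ∪ R')) z b0 := by
      intro z hz
      induction hz using Relation.ReflTransGen.head_induction_on with
      | refl => exact Or.inr Relation.ReflTransGen.refl
      | @head p q hstep hqr ih =>
        obtain ⟨t, ht⟩ := hstep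
        rcases mem_union.1 ht with h | h
        · rcases ih with rfl | ih
          · exact absurd rfl (ho _ h).2.1
          · exact Or.inr (Relation.ReflTransGen.head ⟨t, mem_union_right _ h⟩ ih)
        · obtain ⟨e1, e2, he, h3⟩ := mem_cone.1 h
          rcases h3 with h3 | h3 | h3
          · simp only [Prod.mk.injEq] at h3
            obtain ⟨rfl, rfl, -⟩ := h3
            exact Or.inr (hvbconn (A5b_mem_vb.2 (Or.inr ⟨_, he⟩)))
          · simp only [Prod.mk.injEq] at h3
            obtain ⟨rfl, -, -⟩ := h3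
            exact Or.inr (hvbconn (A5b_mem_vb.2 (Or.inl ⟨_, he⟩)))
          · simp only [Prod.mk.injEq] at h3
            exact Or.inl h3.1
    exact (key x hch).resolve_left hxo
  have hconnC : ∀ {x : α}, x ∈ vs (F \ R) → Relation.ReflTransGen (Adj ((F \ R) ∪ R')) x b0 := by
    intro x hx
    have hb0 : b0 ∈ vs (F \ R) := hvbC (A5b_mem_vb.2 (Or.inl ⟨b1, hb01⟩))
    have hsubS : ∀ {z : α}, z ∈ vs (F \ R) → z ∈ vs F := by
      intro z hz
      obtain ⟨p, q, hpq⟩ := mem_vs.1 hz
      exact mem_vs.2 ⟨p, q, hCF hpq⟩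
    have hch := hFs.conn (hsubS hx) (hsubS hb0)
    have key : ∀ z, Relation.ReflTransGen (Adj F) z b0 → z ∈ vs (F \ R) →
        Relation.ReflTransGen (Adj ((F \ R) ∪ R')) z b0 := by
      intro z hz
      induction hz using Relation.ReflTransGen.head_induction_on with
      | refl => exact fun _ => Relation.ReflTransGen.refl
      | @head p q hstep hqr ih =>
        intro hp
        obtain ⟨t, ht⟩ := hstep
        by_cases htR : (p, q, t) ∈ R
        · exact hvbconn (mem_vb_of_both hFs hRF hR (mem_vs.2 ⟨q, t, htR⟩) hp)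
        · have h1 : (p, q, t) ∈ F \ R := mem_sdiff.2 ⟨ht, htR⟩
          exact Relation.ReflTransGen.head ⟨t, mem_union_left _ h1⟩
            (ih (mem_vs.2 ⟨t, p, hC h1⟩))
    exact key x hch hx
  have hconn0 : ∀ {x : α}, x ∈ vs ((F \ R) ∪ R') →
      Relation.ReflTransGen (Adj ((F \ R) ∪ R')) x b0 := by
    intro x hx
    obtain ⟨p, q, hpq⟩ := mem_vs.1 hx
    rcases mem_union.1 hpq with h | h
    · exact hconnC (mem_vs.2 ⟨p, q, h⟩)
    · exact hconnR' (mem_vs.2 ⟨p, q, h⟩)
  -- counting
  have hcount := A5c_count hF hRF hR hB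
  have hcone : (R' ∪ cone o (bd R)).card = R'.card + 3 * (bd R).card := by
    rw [card_union_of_disjoint, card_cone hB hob]
    rw [disjoint_left]
    intro t ht ht'
    obtain ⟨a, b, -, h⟩ := mem_cone.1 ht'
    obtain ⟨h1, h2, h3⟩ := ho _ ht
    rcases h with rfl | rfl | rfl
    · exact h3 rfl
    · exact h2 rfl
    · exact h1 rfl
  have hvcone : (vs (R' ∪ cone o (bd R))).card = (vs R').card + 1 := by
    have h1 : vs (R' ∪ cone o (bd R)) = insert o (vs R') := by
      have h2 : vs (R' ∪ cone o (bd R)) = vs R' ∪ vs (cone o (bd R)) := by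
        unfold vs; rw [image_union]
      rw [h2, vs_cone hB]
      ext x
      simp only [mem_union, mem_insert]
      constructor
      · rintro (h | h | h)
        · exact Or.inr h
        · exact Or.inl h
        · exact Or.inr (hvb h)
      · rintro (h | h)
        · exact Or.inr (Or.inl h)
        · exact Or.inl h
    rw [h1, card_insert_of_notMem]
    intro h
    obtain ⟨p, q, hpq⟩ := mem_vs.1 h
    exact (ho _ hpq).1 rfl
  have hE := hR'.euler
  rw [hcone, hvcone] at hE
  have hdisj : ((F \ R) ∪ R').card = (F \ R).card + R'.card := by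
    rw [card_union_of_disjoint]
    rw [disjoint_left]
    rintro ⟨a, b, c⟩ h h'
    exact hd a b c c h' h
  have hvs : vs ((F \ R) ∪ R') = vs (F \ R) ∪ vs R' := by
    unfold vs; rw [image_union]
  have hint : vs (F \ R) ∩ vs R' = vb (bd R) := by
    ext x
    rw [mem_inter]
    constructor
    · rintro ⟨h1, h2⟩
      exact hv (mem_inter.2 ⟨h2, h1⟩)
    · intro h
      exact ⟨hvbC h, hvb h⟩
  have hcv : (vs ((F \ R) ∪ R')).card + (bd R).card = (vs (F \ R)).card + (vs R').card := by
    rw [hvs, ← hB.card_vb, ← hint, card_union_add_card_inter]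
  refine ⟨⟨hrot, ?_, ?_, hopp, hlink, ?_, ?_⟩, ?_⟩
  · intro a b c h
    rcases mem_union.1 h with h | h
    · exact hFs.ne (mem_sdiff.1 h).1
    · exact hSs.ne (mem_union_left _ h)
  · intro a b c d h h'
    rcases mem_union.1 h with h | h <;> rcases mem_union.1 h' with h' | h'
    · exact hFs.uniq (mem_sdiff.1 h).1 (mem_sdiff.1 h').1
    · exact (hd a b d c h' h).elim
    · exact (hd a b c d h h').elim
    · exact hSs.uniq (mem_union_left _ h) (mem_union_left _ h')
  · intro a b ha hb
    exact (hconn0 ha).trans (hsymG (hconn0 hb))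
  · obtain ⟨e, he⟩ := hbdAdj hb01
    exact ⟨_, he⟩
  · rw [hdisj]
    omega

/-- The apex of a filling is irrelevant (relabel `o` to `o'`). -/
theorem fill_apex {R' : Finset (α × α × α)} {B : Finset (α × α)} {o o' : α} (hB : IsCyc B)
    (ho : NoV o R') (hob : o ∉ vb B) (ho' : NoV o' R') (hob' : o' ∉ vb B)
    (h : IsTri (R' ∪ cone o B)) :
    IsTri (R' ∪ cone o' B) := by
  classical
  have hf : Function.Injective (Equiv.swap o o') := (Equiv.swap o o').injective
  have h1 := h.relab (f := fun x => Equiv.swap o o' x) hf.injOn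
  have h2 : relab (fun x => Equiv.swap o o' x) (R' ∪ cone o B) = R' ∪ cone o' B := by
    have hsw : ∀ {x : α}, x ≠ o → x ≠ o' → Equiv.swap o o' x = x := by
      intro x hx hx'
      exact Equiv.swap_apply_of_ne_of_ne hx hx'
    have hso : Equiv.swap o o' o = o' := Equiv.swap_apply_left o o'
    have hBo : ∀ {a b : α}, (a, b) ∈ B → Equiv.swap o o' a = a ∧ Equiv.swap o o' b = b := by
      intro a b hab
      have ha1 : a ≠ o := by rintro rfl; exact hob (A5b_mem_vb.2 (Or.inl ⟨b, hab⟩))
      have ha2 : a ≠ o' := by rintro rfl; exact hob' (A5b_mem_vb.2 (Or.inl ⟨b, hab⟩))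
      have hb1 : b ≠ o := by rintro rfl; exact hob (A5b_mem_vb.2 (Or.inr ⟨a, hab⟩))
      have hb2 : b ≠ o' := by rintro rfl; exact hob' (A5b_mem_vb.2 (Or.inr ⟨a, hab⟩))
      exact ⟨hsw ha1 ha2, hsw hb1 hb2⟩
    have hRo : ∀ {a b c : α}, (a, b, c) ∈ R' → Equiv.swap o o' a = a ∧ Equiv.swap o o' b = b ∧
        Equiv.swap o o' c = c := by
      intro a b c habc
      obtain ⟨p1, p2, p3⟩ := ho _ habc
      obtain ⟨q1, q2, q3⟩ := ho' _ habc
      exact ⟨hsw p1 q1, hsw p2 q2, hsw p3 q3⟩
    ext t
    rw [mem_relab, mem_union]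
    constructor
    · rintro ⟨a, b, c, habc, rfl⟩
      rcases mem_union.1 habc with habc | habc
      · obtain ⟨r1, r2, r3⟩ := hRo habc
        left
        rw [r1, r2, r3]
        exact habc
      · right
        obtain ⟨x, y, hxy, h3⟩ := mem_cone.1 habc
        obtain ⟨s1, s2⟩ := hBo hxy
        refine mem_cone.2 ⟨x, y, hxy, ?_⟩
        rcases h3 with h3 | h3 | h3
        · simp only [Prod.mk.injEq] at h3
          obtain ⟨rfl, rfl, rfl⟩ := h3
          left
          rw [s1, s2, hso]
        · simp only [Prod.mk.injEq] at h3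
          obtain ⟨rfl, rfl, rfl⟩ := h3
          right; left
          rw [s1, s2, hso]
        · simp only [Prod.mk.injEq] at h3
          obtain ⟨rfl, rfl, rfl⟩ := h3
          right; right
          rw [s1, s2, hso]
    · rintro (ht | ht)
      · obtain ⟨a, b, c⟩ := t
        obtain ⟨r1, r2, r3⟩ := hRo ht
        exact ⟨a, b, c, mem_union_left _ ht, by rw [r1, r2, r3]⟩
      · obtain ⟨x, y, hxy, h3⟩ := mem_cone.1 ht
        obtain ⟨s1, s2⟩ := hBo hxy
        rcases h3 with h3 | h3 | h3
        · exact ⟨y, x, o, mem_union_right _ (mem_cone.2 ⟨x, y, hxy, Or.inl rfl⟩),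
            by rw [h3, s1, s2, hso]⟩
        · exact ⟨x, o, y, mem_union_right _ (mem_cone.2 ⟨x, y, hxy, Or.inr (Or.inl rfl)⟩),
            by rw [h3, s1, s2, hso]⟩
        · exact ⟨o, y, x, mem_union_right _ (mem_cone.2 ⟨x, y, hxy, Or.inr (Or.inr rfl)⟩),
            by rw [h3, s1, s2, hso]⟩
  rw [h2] at h1
  exact h1

end H19S
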