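import Pool.Agent.Lib.H19S.A2
import Pool.Agent.Lib.H19S.A5

/-!
# H19S, chunk A6: Jordan curves
-/

namespace H19S

open Finset

variable {α : Type*} [DecidableEq α] {F : Finset (α × α × α)}

theorem A6_zmod_ne {a b : ZMod 2} (h : b ≠ a) : a + b = 1 := by
  revert a b; decide

theorem A6_zmod_eq {a b : ZMod 2} (h : a + b = 0) : a = b := by
  revert a b; decide

/-- Consecutive sides of the cycle have the same value on the left. -/
theorem A6_step (hF : IsSurf F) {B : Finset (α × α)} (hB : IsCyc B)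
    {ρ : α × α × α → ZMod 2} (hrot : ∀ a b c, (a, b, c) ∈ F → ρ (b, c, a) = ρ (a, b, c))
    (hz : ∀ a b c d, (a, b, c) ∈ F → (b, a, d) ∈ F →
      (if (a, b) ∈ B ∨ (b, a) ∈ B then (1 : ZMod 2) else 0) = ρ (a, b, c) + ρ (b, a, d))
    {a b c l1 l2 : α} (h1 : (a, b) ∈ B) (h2 : (b, c) ∈ B) (hf1 : (a, b, l1) ∈ F)
    (hf2 : (b, c, l2) ∈ F) : ρ (a, b, l1) = ρ (b, c, l2) := by
  obtain ⟨d, hd⟩ := hF.opp hf1
  have hpath := hF.link hf2 hd
  have hca : c ≠ a := by
    rintro rfl
    exact hB.not_rev h1 h2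
  have key : ∀ x, Relation.ReflTransGen (fun x y => (b, x, y) ∈ F) c x →
      (x ≠ a ∧ ∀ x', (b, x, x') ∈ F → ρ (b, x, x') = ρ (b, c, l2)) ∨
        ρ (a, b, l1) = ρ (b, c, l2) := by
    intro x hx
    induction hx with
    | refl =>
      left
      refine ⟨hca, fun x' hx' => ?_⟩
      rw [hF.uniq hx' hf2]
    | @tail x x' _ hxx ih =>
      rcases ih with ⟨hxa, ih⟩ | ih
      · have e0 := ih x' hxx
        by_cases hx'a : x' = a
        · subst hx'a
          right
          have hf1' := hF.rot hf1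
          have : x = l1 := hF.uniq' hxx hf1'
          subst this
          rw [← hrot _ _ _ hf1]
          exact e0
        · left
          refine ⟨hx'a, fun x'' hx'' => ?_⟩
          by_cases hx'c : x' = c
          · subst hx'c
            rw [hF.uniq hx'' hf2]
          · have hr : (x', b, x) ∈ F := hF.rot2 hxx
            have e1 := hz b x' x'' x hx'' hr
            rw [if_neg] at e1
            · have e2 := A6_zmod_eq e1.symm
              rw [e2, ← e0]
              have e3 := hrot _ _ _ hr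
              rw [← e3]
            · rintro (h | h)
              · exact hx'c (hB.outu h h2)
              · exact hx'a (hB.inu h h1)
      · exact Or.inr ih
  rcases key a hpath with ⟨h, -⟩ | h
  · exact absurd rfl h
  · exact h

/-- All sides of the cycle have the same value on the left. -/
theorem A6_all (hF : IsSurf F) {B : Finset (α × α)} (hB : IsCyc B)
    (hBF : ∀ a b, (a, b) ∈ B → Adj F a b)
    {ρ : α × α × α → ZMod 2} (hrot : ∀ a b c, (a, b, c) ∈ F → ρ (b, c, a) = ρ (a, b, c))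
    (hz : ∀ a b c d, (a, b, c) ∈ F → (b, a, d) ∈ F →
      (if (a, b) ∈ B ∨ (b, a) ∈ B then (1 : ZMod 2) else 0) = ρ (a, b, c) + ρ (b, a, d))
    {a0 b0 l0 a b l : α} (h0 : (a0, b0) ∈ B) (h : (a, b) ∈ B) (hf0 : (a0, b0, l0) ∈ F)
    (hf : (a, b, l) ∈ F) : ρ (a, b, l) = ρ (a0, b0, l0) := by
  have key : ∀ x, Relation.ReflTransGen (fun x y => (x, y) ∈ B) b0 x →
      ∃ p l, (p, x) ∈ B ∧ (p, x, l) ∈ F ∧ ρ (p, x, l) = ρ (a0, b0, l0) := by
    intro x hx
    induction hx with
    | refl => exact ⟨a0, l0, h0, hf0, rfl⟩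
    | @tail x x' _ hxx ih =>
      obtain ⟨p, l', hp, hpf, hpe⟩ := ih
      obtain ⟨l'', hl''⟩ := hBF _ _ hxx
      exact ⟨x, l'', hxx, hl'', (A6_step hF hB hrot hz hp hxx hpf hl'').symm.trans hpe⟩
  obtain ⟨p, l', hp, hpf, hpe⟩ := key a (hB.orbit h0 h)
  exact (A6_step hF hB hrot hz hp h hpf hf).symm.trans hpe

theorem A6_even (hF : IsSurf F) {B : Finset (α × α)} (hB : IsCyc B)
    (hBF : ∀ a b, (a, b) ∈ B → Adj F a b) (x : α) :
    ∑ t ∈ F.filter (fun t => t.1 = x),
      (fun a b => if (a, b) ∈ B ∨ (b, a) ∈ B then (1 : ZMod 2) else 0) x t.2.1 = 0 := by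
  rw [hF.sum_nbr x (fun b => (fun a b => if (a, b) ∈ B ∨ (b, a) ∈ B then (1 : ZMod 2) else 0) x b)]
  by_cases hx : x ∈ vb B
  · obtain ⟨b, hb⟩ := hB.out hx
    obtain ⟨c, hc⟩ := hB.inc hx
    have hbc : b ≠ c := by
      rintro rfl
      exact hB.not_rev hb hc
    have hbn : b ∈ nbr F x := mem_nbr.2 (hBF _ _ hb)
    have hcn : c ∈ nbr F x := mem_nbr.2 (hF.adj_symm (hBF _ _ hc))
    have e : ∀ p ∈ nbr F x, (if (x, p) ∈ B ∨ (p, x) ∈ B then (1 : ZMod 2) else 0)
        = (if p = b then 1 else 0) + (if p = c then 1 else 0) := by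
      intro p _
      by_cases h1 : p = b
      · subst h1
        rw [if_pos (Or.inl hb), if_pos rfl, if_neg hbc, add_zero]
      · by_cases h2 : p = c
        · subst h2
          rw [if_pos (Or.inr hc), if_neg h1, if_pos rfl, zero_add]
        · rw [if_neg, if_neg h1, if_neg h2, add_zero]
          rintro (h | h)
          · exact h1 (hB.outu h hb)
          · exact h2 (hB.inu h hc)
    rw [Finset.sum_congr rfl e, Finset.sum_add_distrib, Finset.sum_ite_eq', Finset.sum_ite_eq',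
      if_pos hbn, if_pos hcn]
    decide
  · apply Finset.sum_eq_zero
    intro p _
    show (if (x, p) ∈ B ∨ (p, x) ∈ B then (1 : ZMod 2) else 0) = 0
    rw [if_neg]
    rintro (h | h)
    · exact hx (Finset.mem_union_left _ (Finset.mem_image.2 ⟨_, h, rfl⟩))
    · exact hx (Finset.mem_union_right _ (Finset.mem_image.2 ⟨_, h, rfl⟩))

/-- (chunk A6) Jordan curve theorem.  Let `z` be the indicator of the unoriented edges of `B`; it is even at every vertex,
so `z a b = ρ(left) + ρ(right)` with `ρ` rotation invariant (`cyc_bd`).  Claim: `ρ (left (a,b)) = ρ (left (b,c))`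
for consecutive `(a,b), (b,c) ∈ B`: the faces at `b` from `(b,c,·)` to `(b,·,a)` in link order have no edge of `B`
strictly between them, so they have the same `ρ` (follow the link from `c` until the first visit to `a`; only the
edges `bc` and `ba` at `b` are in `B`).  By `orbit` all `(a,b) ∈ B` have the same `ρ (left)`; let `R` be the set of faces with
this value of `ρ`. -/
theorem jordan (hF : IsTri F) {B : Finset (α × α)} (hB : IsCyc B)
    (hBF : ∀ a b, (a, b) ∈ B → Adj F a b) : ∃ R ⊆ F, RotC R ∧ bd R = B := by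
  classical
  obtain ⟨ρ, hrot, hz⟩ := hF.cyc_bd
    (fun a b => if (a, b) ∈ B ∨ (b, a) ∈ B then (1 : ZMod 2) else 0)
    (fun a b => if_congr Or.comm rfl rfl)
    (fun x _ => A6_even hF.toIsSurf hB hBF x)
  have hne : B.Nonempty := Finset.card_pos.1 (by have := hB.card; omega)
  obtain ⟨⟨a0, b0⟩, h0⟩ := hne
  obtain ⟨l0, hl0⟩ := hBF a0 b0 h0
  refine ⟨F.filter (fun t => ρ t = ρ (a0, b0, l0)), Finset.filter_subset _ _, ?_, ?_⟩
  · intro a b c h
    obtain ⟨h1, h2⟩ := Finset.mem_filter.1 h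
    exact Finset.mem_filter.2 ⟨hF.rot h1, (hrot _ _ _ h1).trans h2⟩
  · ext ⟨a, b⟩
    rw [mem_bd]
    constructor
    · rintro ⟨⟨c, hc⟩, hn⟩
      obtain ⟨hc1, hc2⟩ := Finset.mem_filter.1 hc
      obtain ⟨d, hd⟩ := hF.opp hc1
      have hne : ρ (b, a, d) ≠ ρ (a0, b0, l0) := fun h => hn d (Finset.mem_filter.2 ⟨hd, h⟩)
      have e := hz a b c d hc1 hd
      rw [hc2, A6_zmod_ne hne] at e
      have : (a, b) ∈ B ∨ (b, a) ∈ B := by
        by_contra h
        have e' : (if (a, b) ∈ B ∨ (b, a) ∈ B then (1 : ZMod 2) else 0) = 1 := e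
        rw [if_neg h] at e'
        exact zero_ne_one e'
      rcases this with h | h
      · exact h
      · exact absurd (A6_all hF.toIsSurf hB hBF hrot hz h0 h hl0 hd) hne
    · intro h
      obtain ⟨c, hc⟩ := hBF a b h
      have hc' := A6_all hF.toIsSurf hB hBF hrot hz h0 h hl0 hc
      refine ⟨⟨c, Finset.mem_filter.2 ⟨hc, hc'⟩⟩, fun d hd => ?_⟩
      obtain ⟨hd1, hd2⟩ := Finset.mem_filter.1 hd
      have e : (if (a, b) ∈ B ∨ (b, a) ∈ B then (1 : ZMod 2) else 0) =
        ρ (a, b, c) + ρ (b, a, d) := hz a b c d hc hd1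
      rw [if_pos (Or.inl h), hc', hd2] at e
      have h2 : ∀ x : ZMod 2, x + x = 0 := by decide
      rw [h2] at e
      exact one_ne_zero e

theorem A6_sub (hF : IsSurf F) {R R' : Finset (α × α × α)} (hR : R ⊆ F) (hR' : R' ⊆ F)
    (h1 : RotC R) (h2 : RotC R') (hne : (bd R').Nonempty) (h : bd R = bd R') : R ⊆ R' := by
  by_contra hcon
  have hD : R \ R' = F := by
    apply hF.eq_of_bd_empty (fun t ht => hR (Finset.mem_sdiff.1 ht).1)
    · intro a b c habc
      obtain ⟨h3, h4⟩ := Finset.mem_sdiff.1 habc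
      exact Finset.mem_sdiff.2 ⟨h1 h3, fun h5 => h4 (h2 (h2 h5))⟩
    · obtain ⟨t, ht, ht'⟩ := Finset.not_subset.1 hcon
      exact ⟨t, Finset.mem_sdiff.2 ⟨ht, ht'⟩⟩
    · intro a b c d habc hbad
      obtain ⟨h3, h4⟩ := Finset.mem_sdiff.1 habc
      have h5 : (b, a, d) ∈ R := by
        by_contra h5
        have hab : (a, b) ∈ bd R := mem_bd.2 ⟨⟨c, h3⟩, fun d' hd' => by
          rw [hF.uniq (hR hd') hbad] at hd'
          exact h5 hd'⟩
        rw [h] at hab
        obtain ⟨⟨c', hc'⟩, -⟩ := mem_bd.1 hab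
        rw [hF.uniq (hR' hc') (hR h3)] at hc'
        exact h4 hc'
      refine Finset.mem_sdiff.2 ⟨h5, fun h6 => ?_⟩
      have hba : (b, a) ∈ bd R' := mem_bd.2 ⟨⟨d, h6⟩, fun c' hc' => by
        rw [hF.uniq (hR' hc') (hR h3)] at hc'
        exact h4 hc'⟩
      rw [← h] at hba
      exact (mem_bd.1 hba).2 c h3
  obtain ⟨⟨a, b⟩, hab⟩ := hne
  obtain ⟨⟨c, hc⟩, -⟩ := mem_bd.1 hab
  have := hR' hc
  rw [← hD] at this
  exact (Finset.mem_sdiff.1 this).2 hc

/-- The region of `jordan` is unique. -/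
theorem region_unique (hF : IsSurf F) {R R' : Finset (α × α × α)} (hR : R ⊆ F) (hR' : R' ⊆ F)
    (h1 : RotC R) (h2 : RotC R') (hne : (bd R).Nonempty) (h : bd R = bd R') : R = R' := by
  exact Finset.Subset.antisymm (A6_sub hF hR hR' h1 h2 (h ▸ hne) h)
    (A6_sub hF hR' hR h2 h1 hne h.symm)

end H19S
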