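import Pool.Agent.Lib.H19S.A0

/-!
# H19S, chunk A7: small local moves
-/

namespace H19S

open Finset

variable {α : Type*} [DecidableEq α] {F : Finset (α × α × α)}

/-- The three rotations of a face. -/
def rots (a b c : α) : Finset (α × α × α) := {(a, b, c), (b, c, a), (c, a, b)}

theorem A7_mem_rots {a b c x y z : α} : (x, y, z) ∈ rots a b c ↔
    (x = a ∧ y = b ∧ z = c) ∨ (x = b ∧ y = c ∧ z = a) ∨ (x = c ∧ y = a ∧ z = b) := by
  simp [rots]

theorem A7_card_rots {a b c : α} (h1 : a ≠ b) (h2 : b ≠ c) (h3 : c ≠ a) : (rots a b c).card = 3 := by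
  unfold rots
  have _ := h1
  have _ := h2
  have _ := h3
  rw [card_insert_of_notMem, card_insert_of_notMem, card_singleton]
  · simp only [mem_singleton, Prod.mk.injEq]
    grind
  · simp only [mem_insert, mem_singleton, Prod.mk.injEq]
    grind

theorem A7_rots_sub (hF : IsSurf F) {a b c : α} (h : (a, b, c) ∈ F) : rots a b c ⊆ F := by
  rintro ⟨x, y, z⟩ ht
  rw [A7_mem_rots] at ht
  rcases ht with ⟨rfl, rfl, rfl⟩ | ⟨rfl, rfl, rfl⟩ | ⟨rfl, rfl, rfl⟩
  · exact h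
  · exact hF.rot h
  · exact hF.rot2 h

theorem A7_disj {a b c a' b' c' : α} (h : (a', b', c') ∉ rots a b c) :
    Disjoint (rots a b c) (rots a' b' c') := by
  rw [Finset.disjoint_left]
  rintro ⟨x, y, z⟩ h1 h2
  rw [A7_mem_rots] at h1 h2 h
  grind

theorem A7_disjF (hF : IsSurf F) {a b c : α} (h : (a, b, c) ∉ F) : Disjoint F (rots a b c) := by
  rw [Finset.disjoint_left]
  rintro ⟨x, y, z⟩ h1 h2
  rw [A7_mem_rots] at h2
  rcases h2 with ⟨rfl, rfl, rfl⟩ | ⟨rfl, rfl, rfl⟩ | ⟨rfl, rfl, rfl⟩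
  · exact h h1
  · exact h (hF.rot2 h1)
  · exact h (hF.rot h1)

omit [DecidableEq α] in
/-- If every step is mapped by `f` to a path then so is every path. -/
theorem A7_lift {r r' : α → α → Prop} (f : α → α)
    (hf : ∀ p q, r p q → Relation.ReflTransGen r' (f p) (f q)) {x y : α}
    (h : Relation.ReflTransGen r x y) :
    Relation.ReflTransGen r' (f x) (f y) := Relation.ReflTransGen.lift' f hf _ _ h

theorem A7_ins3_vs (hF : IsTri F) {a b c w : α} (h : (a, b, c) ∈ F) (hw : w ∉ vs F) :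
    vs ((F \ rots a b c) ∪ (rots a b w ∪ rots b c w ∪ rots c a w)) = insert w (vs F) := by
  have h' := hF.rot h
  have h'' := hF.rot h'
  have _ := hw
  ext x
  rw [mem_insert, mem_vs, mem_vs]
  simp only [mem_union, mem_sdiff, A7_mem_rots]
  constructor
  · rintro ⟨y, z, hx⟩
    grind
  · rintro (rfl | ⟨y, z, hx⟩)
    · exact ⟨a, b, by grind⟩
    · by_cases hc : ((x = a ∧ y = b ∧ z = c) ∨ (x = b ∧ y = c ∧ z = a) ∨ (x = c ∧ y = a ∧ z = b))
      · rcases hc with ⟨rfl, rfl, rfl⟩ | ⟨rfl, rfl, rfl⟩ | ⟨rfl, rfl, rfl⟩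
        · exact ⟨y, w, by grind⟩
        · exact ⟨y, w, by grind⟩
        · exact ⟨y, w, by grind⟩
      · exact ⟨y, z, Or.inl ⟨hx, hc⟩⟩

/-- (chunk A7) Insertion of a vertex of degree three. -/
theorem ins3 (hF : IsTri F) {a b c w : α} (h : (a, b, c) ∈ F) (hw : w ∉ vs F) :
    IsTri ((F \ rots a b c) ∪ (rots a b w ∪ rots b c w ∪ rots c a w)) := by
  have hw1 : ∀ x y z, (x, y, z) ∈ F → x ≠ w := fun x y z h h' => hw (h' ▸ hF.toIsSurf.vs1 h)
  have hw2 : ∀ x y z, (x, y, z) ∈ F → y ≠ w := fun x y z h h' => hw (h' ▸ hF.toIsSurf.vs2 h)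
  have hw3 : ∀ x y z, (x, y, z) ∈ F → z ≠ w := fun x y z h h' => hw (h' ▸ hF.toIsSurf.vs3 h)
  have u : ∀ x y z z', (x, y, z) ∈ F → (x, y, z') ∈ F → z = z' := fun x y z z' => hF.uniq
  have n1 : a ≠ b := hF.ne h
  have n2 : b ≠ c := hF.toIsSurf.ne2 h
  have n3 : c ≠ a := hF.toIsSurf.ne3 h
  have m1 := hw1 _ _ _ h
  have m2 := hw2 _ _ _ h
  have m3 := hw3 _ _ _ h
  have h' := hF.rot h
  have h'' := hF.rot h'
  obtain ⟨ea, hea⟩ := hF.opp h
  obtain ⟨eb, heb⟩ := hF.opp h'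
  obtain ⟨ec, hec⟩ := hF.opp h''
  have hr : ∀ x y z, (x, y, z) ∈ F → (y, z, x) ∈ F := fun x y z => hF.rot
  have hne : ∀ x y z, (x, y, z) ∈ F → x ≠ y := fun x y z => hF.ne
  have ho : ∀ x y z, (x, y, z) ∈ F → ∃ d, (y, x, d) ∈ F := fun x y z => hF.opp
  have heq := A7_ins3_vs hF h hw
  have hcard : ((F \ rots a b c) ∪ (rots a b w ∪ rots b c w ∪ rots c a w)).card = F.card + 6 := by
    have s1 : rots a b c ⊆ F := A7_rots_sub hF.toIsSurf h
    have c0 : (rots a b c).card = 3 := A7_card_rots n1 n2 n3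
    have c1 : (rots a b w).card = 3 := A7_card_rots n1 m2 m1.symm
    have c2 : (rots b c w).card = 3 := A7_card_rots n2 m3 m2.symm
    have c3 : (rots c a w).card = 3 := A7_card_rots n3 m1 m3.symm
    have d1 : Disjoint (rots a b w) (rots b c w) := A7_disj (by rw [A7_mem_rots]; grind)
    have d2 : Disjoint (rots a b w) (rots c a w) := A7_disj (by rw [A7_mem_rots]; grind)
    have d3 : Disjoint (rots b c w) (rots c a w) := A7_disj (by rw [A7_mem_rots]; grind)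
    have e1 : Disjoint F (rots a b w) := A7_disjF hF.toIsSurf fun hh => hw3 _ _ _ hh rfl
    have e2 : Disjoint F (rots b c w) := A7_disjF hF.toIsSurf fun hh => hw3 _ _ _ hh rfl
    have e3 : Disjoint F (rots c a w) := A7_disjF hF.toIsSurf fun hh => hw3 _ _ _ hh rfl
    have e4 : Disjoint F (rots a b w ∪ rots b c w ∪ rots c a w) := by
      rw [disjoint_union_right, disjoint_union_right]
      exact ⟨⟨e1, e2⟩, e3⟩
    rw [card_union_of_disjoint (Disjoint.mono_left sdiff_subset e4), card_sdiff_of_subset s1,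
      card_union_of_disjoint (disjoint_union_left.2 ⟨d2, d3⟩), card_union_of_disjoint d1, c0, c1, c2,
      c3]
    have := card_le_card s1
    omega
  set F' := (F \ rots a b c) ∪ (rots a b w ∪ rots b c w ∪ rots c a w) with hF'
  have hmem : ∀ x y z, (x, y, z) ∈ F' ↔ ((x, y, z) ∈ F ∧ ¬ ((x = a ∧ y = b ∧ z = c) ∨
      (x = b ∧ y = c ∧ z = a) ∨ (x = c ∧ y = a ∧ z = b))) ∨
      (((x = a ∧ y = b ∧ z = w) ∨ (x = b ∧ y = w ∧ z = a) ∨ (x = w ∧ y = a ∧ z = b)) ∨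
      ((x = b ∧ y = c ∧ z = w) ∨ (x = c ∧ y = w ∧ z = b) ∨ (x = w ∧ y = b ∧ z = c))) ∨
      ((x = c ∧ y = a ∧ z = w) ∨ (x = a ∧ y = w ∧ z = c) ∨ (x = w ∧ y = c ∧ z = a)) := by
    intro x y z
    rw [hF']
    simp only [mem_union, mem_sdiff, A7_mem_rots]
  clear_value F'
  have Rrot : ∀ x y z, (x, y, z) ∈ F' → (y, z, x) ∈ F' := by
    clear heq hcard hF' ho hne hea heb hec hw1 hw2 hw3 u
    intro x y z hx
    rw [hmem] at hx ⊢
    grind
  have Rne : ∀ x y z, (x, y, z) ∈ F' → x ≠ y := by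
    clear heq hcard hF' ho hr hea heb hec hw1 hw2 hw3 u Rrot
    intro x y z hx
    rw [hmem] at hx
    grind
  have Runiq : ∀ x y z z', (x, y, z) ∈ F' → (x, y, z') ∈ F' → z = z' := by
    clear heq hcard hF' ho hr hea heb hec hne Rrot Rne
    intro x y z z' h1 h2
    rw [hmem] at h1 h2
    clear hmem
    grind
  have f1 : (a, b, w) ∈ F' := by rw [hmem]; grind
  have f2 : (b, w, a) ∈ F' := by rw [hmem]; grind
  have f3 : (w, a, b) ∈ F' := by rw [hmem]; grind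
  have f4 : (b, c, w) ∈ F' := by rw [hmem]; grind
  have f5 : (c, w, b) ∈ F' := by rw [hmem]; grind
  have f6 : (w, b, c) ∈ F' := by rw [hmem]; grind
  have f7 : (c, a, w) ∈ F' := by rw [hmem]; grind
  have f8 : (a, w, c) ∈ F' := by rw [hmem]; grind
  have f9 : (w, c, a) ∈ F' := by rw [hmem]; grind
  -- every old side is a side
  have hside : ∀ x y z, (x, y, z) ∈ F → ∃ z', (x, y, z') ∈ F' := by
    intro x y z hx
    by_cases hc : ((x = a ∧ y = b ∧ z = c) ∨ (x = b ∧ y = c ∧ z = a) ∨ (x = c ∧ y = a ∧ z = b))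
    · rcases hc with ⟨rfl, rfl, rfl⟩ | ⟨rfl, rfl, rfl⟩ | ⟨rfl, rfl, rfl⟩
      · exact ⟨_, f1⟩
      · exact ⟨_, f4⟩
      · exact ⟨_, f7⟩
    · exact ⟨z, (hmem _ _ _).2 (Or.inl ⟨hx, hc⟩)⟩
  have hstep : ∀ v p q, (v, p, q) ∈ F → Relation.ReflTransGen (fun x y => (v, x, y) ∈ F') p q := by
    intro v p q hx
    by_cases hc : ((v = a ∧ p = b ∧ q = c) ∨ (v = b ∧ p = c ∧ q = a) ∨ (v = c ∧ p = a ∧ q = b))
    · rcases hc with ⟨rfl, rfl, rfl⟩ | ⟨rfl, rfl, rfl⟩ | ⟨rfl, rfl, rfl⟩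
      · exact (Relation.ReflTransGen.single f1).tail f8
      · exact (Relation.ReflTransGen.single f4).tail f2
      · exact (Relation.ReflTransGen.single f7).tail f5
    · exact Relation.ReflTransGen.single ((hmem _ _ _).2 (Or.inl ⟨hx, hc⟩))
  have hpath : ∀ v p q, Relation.ReflTransGen (fun x y => (v, x, y) ∈ F) p q →
      Relation.ReflTransGen (fun x y => (v, x, y) ∈ F') p q := fun v p q hp =>
    A7_lift (fun x => x) (fun x y hx => hstep v x y hx) hp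
  have hends : ∀ v x y, v ≠ w → (v, x, y) ∈ F' → ∃ x0 x1, (∃ y, (v, x0, y) ∈ F) ∧
      (∃ y, (v, x1, y) ∈ F) ∧ Relation.ReflTransGen (fun x y => (v, x, y) ∈ F') x x0 ∧
      Relation.ReflTransGen (fun x y => (v, x, y) ∈ F') x1 x := by
    intro v x y hv hx
    by_cases hxw : x = w
    · subst hxw
      have : (v = a ∧ y = c) ∨ (v = b ∧ y = a) ∨ (v = c ∧ y = b) := by
        rw [hmem] at hx
        grind
      rcases this with ⟨rfl, rfl⟩ | ⟨rfl, rfl⟩ | ⟨rfl, rfl⟩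
      · exact ⟨y, b, ⟨_, hec⟩, ⟨_, h⟩, Relation.ReflTransGen.single f8,
          Relation.ReflTransGen.single f1⟩
      · exact ⟨y, c, ⟨_, hea⟩, ⟨_, h'⟩, Relation.ReflTransGen.single f2,
          Relation.ReflTransGen.single f4⟩
      · exact ⟨y, a, ⟨_, heb⟩, ⟨_, h''⟩, Relation.ReflTransGen.single f5,
          Relation.ReflTransGen.single f7⟩
    · have : ∃ y, (v, x, y) ∈ F := by
        rw [hmem] at hx
        rcases hx with ⟨hx, -⟩ | ((⟨rfl, rfl, rfl⟩ | ⟨rfl, rfl, rfl⟩ | ⟨rfl, rfl, rfl⟩) |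
          ⟨rfl, rfl, rfl⟩ | ⟨rfl, rfl, rfl⟩ | ⟨rfl, rfl, rfl⟩) | ⟨rfl, rfl, rfl⟩ | ⟨rfl, rfl, rfl⟩ |
          ⟨rfl, rfl, rfl⟩
        all_goals first
          | exact ⟨_, hx⟩
          | exact absurd rfl hv
          | exact absurd rfl hxw
          | exact ⟨_, h⟩
          | exact ⟨_, h'⟩
          | exact ⟨_, h''⟩
      exact ⟨x, x, this, this, Relation.ReflTransGen.refl, Relation.ReflTransGen.refl⟩
  refine ⟨⟨fun {x y z} => Rrot x y z, fun {x y z} => Rne x y z, fun {x y z z'} => Runiq x y z z',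
    ?_, ?_, ?_, ⟨_, f1⟩⟩, ?_⟩
  · intro x y z hx
    by_cases hxw : x = w
    · subst hxw
      have : (y = a ∧ z = b) ∨ (y = b ∧ z = c) ∨ (y = c ∧ z = a) := by
        rw [hmem] at hx
        grind
      rcases this with ⟨rfl, rfl⟩ | ⟨rfl, rfl⟩ | ⟨rfl, rfl⟩
      · exact ⟨_, f8⟩
      · exact ⟨_, f2⟩
      · exact ⟨_, f5⟩
    · by_cases hyw : y = w
      · subst hyw
        have : (x = a ∧ z = c) ∨ (x = b ∧ z = a) ∨ (x = c ∧ z = b) := by
          rw [hmem] at hx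
          grind
        rcases this with ⟨rfl, rfl⟩ | ⟨rfl, rfl⟩ | ⟨rfl, rfl⟩
        · exact ⟨_, f3⟩
        · exact ⟨_, f6⟩
        · exact ⟨_, f9⟩
      · have : ∃ z, (x, y, z) ∈ F := by
          rw [hmem] at hx
          rcases hx with ⟨hx, -⟩ | ((⟨rfl, rfl, rfl⟩ | ⟨rfl, rfl, rfl⟩ | ⟨rfl, rfl, rfl⟩) |
            ⟨rfl, rfl, rfl⟩ | ⟨rfl, rfl, rfl⟩ | ⟨rfl, rfl, rfl⟩) | ⟨rfl, rfl, rfl⟩ | ⟨rfl, rfl, rfl⟩ |
            ⟨rfl, rfl, rfl⟩
          all_goals first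
            | exact ⟨_, hx⟩
            | exact absurd rfl hxw
            | exact absurd rfl hyw
            | exact ⟨_, h⟩
            | exact ⟨_, h'⟩
            | exact ⟨_, h''⟩
        obtain ⟨z0, hz0⟩ := this
        obtain ⟨d, hd⟩ := hF.opp hz0
        exact hside _ _ _ hd
  · intro v x y x' y' h1 h2
    by_cases hv : v = w
    · subst hv
      have g1 : x = a ∨ x = b ∨ x = c := by
        rw [hmem] at h1
        grind
      have g2 : x' = a ∨ x' = b ∨ x' = c := by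
        rw [hmem] at h2
        grind
      have sab := Relation.ReflTransGen.single (r := fun x y => (v, x, y) ∈ F') f3
      have sbc := Relation.ReflTransGen.single (r := fun x y => (v, x, y) ∈ F') f6
      have sca := Relation.ReflTransGen.single (r := fun x y => (v, x, y) ∈ F') f9
      rcases g1 with rfl | rfl | rfl <;> rcases g2 with rfl | rfl | rfl
      · exact Relation.ReflTransGen.refl
      · exact sab
      · exact sab.trans sbc
      · exact sbc.trans sca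
      · exact Relation.ReflTransGen.refl
      · exact sbc
      · exact sca
      · exact sca.trans sab
      · exact Relation.ReflTransGen.refl
    · obtain ⟨x0, -, ⟨y0, hy0⟩, -, hp0, -⟩ := hends v x y hv h1
      obtain ⟨-, x1, -, ⟨y1, hy1⟩, -, hp1⟩ := hends v x' y' hv h2
      exact (hp0.trans (hpath v _ _ (hF.link hy0 hy1))).trans hp1
  · have hconn : ∀ x y, Relation.ReflTransGen (Adj F) x y → Relation.ReflTransGen (Adj F') x y := by
      intro x y hxy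
      refine A7_lift (fun x => x) (fun p q hpq => ?_) hxy
      obtain ⟨z, hz⟩ := hpq
      obtain ⟨z', hz'⟩ := hside _ _ _ hz
      exact Relation.ReflTransGen.single ⟨z', hz'⟩
    have hto : ∀ x, x ∈ vs F' → ∃ x0 ∈ vs F, Relation.ReflTransGen (Adj F') x x0 ∧
        Relation.ReflTransGen (Adj F') x0 x := by
      intro x hx
      rw [heq, mem_insert] at hx
      rcases hx with rfl | hx
      · exact ⟨a, hF.toIsSurf.vs1 h, Relation.ReflTransGen.single ⟨_, f3⟩,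
          Relation.ReflTransGen.single ⟨_, f8⟩⟩
      · exact ⟨x, hx, Relation.ReflTransGen.refl, Relation.ReflTransGen.refl⟩
    intro x y hx hy
    obtain ⟨x0, hx0, hp, -⟩ := hto x hx
    obtain ⟨y0, hy0, -, hq⟩ := hto y hy
    exact (hp.trans (hconn _ _ (hF.conn hx0 hy0))).trans hq
  · rw [hcard, heq, card_insert_of_notMem hw]
    have := hF.euler
    omega

theorem vs_ins3 (hF : IsTri F) {a b c w : α} (h : (a, b, c) ∈ F) (hw : w ∉ vs F) :
    vs ((F \ rots a b c) ∪ (rots a b w ∪ rots b c w ∪ rots c a w)) = insert w (vs F) :=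
  A7_ins3_vs hF h hw

/-- The faces around a vertex of degree three. -/
theorem A7_del3_link (hF : IsTri F) {a b c w : α} (h1 : (a, b, w) ∈ F)
    (h2 : (b, c, w) ∈ F) (h3 : (c, a, w) ∈ F) {x y : α} (h : (w, x, y) ∈ F) :
    (x = a ∧ y = b) ∨ (x = b ∧ y = c) ∨ (x = c ∧ y = a) := by
  have e1 : (w, a, b) ∈ F := hF.toIsSurf.rot2 h1
  have e2 : (w, b, c) ∈ F := hF.toIsSurf.rot2 h2
  have e3 : (w, c, a) ∈ F := hF.toIsSurf.rot2 h3
  have hx : x = a ∨ x = b ∨ x = c := by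
    have hl := hF.link e1 h
    clear h
    induction hl with
    | refl => exact Or.inl rfl
    | tail _ hs ih =>
      rcases ih with rfl | rfl | rfl
      · exact Or.inr (Or.inl (hF.uniq hs e1))
      · exact Or.inr (Or.inr (hF.uniq hs e2))
      · exact Or.inl (hF.uniq hs e3)
  rcases hx with rfl | rfl | rfl
  · exact Or.inl ⟨rfl, hF.uniq h e1⟩
  · exact Or.inr (Or.inl ⟨rfl, hF.uniq h e2⟩)
  · exact Or.inr (Or.inr ⟨rfl, hF.uniq h e3⟩)

theorem A7_del3_mem (hF : IsTri F) {a b c w : α} (h1 : (a, b, w) ∈ F)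
    (h2 : (b, c, w) ∈ F) (h3 : (c, a, w) ∈ F) {x y z : α} :
    (x, y, z) ∈ ((F \ (rots a b w ∪ rots b c w ∪ rots c a w)) ∪ rots a b c) ↔
      ((x, y, z) ∈ F ∧ x ≠ w ∧ y ≠ w ∧ z ≠ w) ∨
      ((x = a ∧ y = b ∧ z = c) ∨ (x = b ∧ y = c ∧ z = a) ∨ (x = c ∧ y = a ∧ z = b)) := by
  have hW : ∀ x y, (w, x, y) ∈ F → (x = a ∧ y = b) ∨ (x = b ∧ y = c) ∨ (x = c ∧ y = a) :=
    fun x y => A7_del3_link hF h1 h2 h3
  have n1 := hF.toIsSurf.ne2 h1
  have n2 := hF.toIsSurf.ne3 h1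
  have n3 := hF.toIsSurf.ne2 h2
  simp only [mem_union, mem_sdiff, A7_mem_rots]
  constructor
  · rintro (⟨hx, hn⟩ | hx)
    · refine Or.inl ⟨hx, ?_, ?_, ?_⟩
      · rintro rfl
        rcases hW _ _ hx with ⟨rfl, rfl⟩ | ⟨rfl, rfl⟩ | ⟨rfl, rfl⟩
        · exact hn (Or.inl (Or.inl (Or.inr (Or.inr ⟨rfl, rfl, rfl⟩))))
        · exact hn (Or.inl (Or.inr (Or.inr (Or.inr ⟨rfl, rfl, rfl⟩))))
        · exact hn (Or.inr (Or.inr (Or.inr ⟨rfl, rfl, rfl⟩)))
      · rintro rfl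
        rcases hW _ _ (hF.rot hx) with ⟨rfl, rfl⟩ | ⟨rfl, rfl⟩ | ⟨rfl, rfl⟩
        · exact hn (Or.inl (Or.inl (Or.inr (Or.inl ⟨rfl, rfl, rfl⟩))))
        · exact hn (Or.inl (Or.inr (Or.inr (Or.inl ⟨rfl, rfl, rfl⟩))))
        · exact hn (Or.inr (Or.inr (Or.inl ⟨rfl, rfl, rfl⟩)))
      · rintro rfl
        rcases hW _ _ (hF.toIsSurf.rot2 hx) with ⟨rfl, rfl⟩ | ⟨rfl, rfl⟩ | ⟨rfl, rfl⟩
        · exact hn (Or.inl (Or.inl (Or.inl ⟨rfl, rfl, rfl⟩)))
        · exact hn (Or.inl (Or.inr (Or.inl ⟨rfl, rfl, rfl⟩)))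
        · exact hn (Or.inr (Or.inl ⟨rfl, rfl, rfl⟩))
    · exact Or.inr hx
  · rintro (⟨hx, k1, k2, k3⟩ | hx)
    · refine Or.inl ⟨hx, ?_⟩
      clear hW hx
      have _ := k1
      have _ := k2
      have _ := k3
      grind
    · exact Or.inr hx

theorem A7_del3_side (hF : IsTri F) {a b c w : α} (h1 : (a, b, w) ∈ F)
    (h2 : (b, c, w) ∈ F) (h3 : (c, a, w) ∈ F) {x y z : α} (h : (x, y, z) ∈ F) (hx : x ≠ w)
    (hy : y ≠ w) :
    ∃ z', (x, y, z') ∈ ((F \ (rots a b w ∪ rots b c w ∪ rots c a w)) ∪ rots a b c) := by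
  by_cases hz : z = w
  · subst hz
    rcases A7_del3_link hF h1 h2 h3 (hF.toIsSurf.rot2 h) with ⟨rfl, rfl⟩ | ⟨rfl, rfl⟩ | ⟨rfl, rfl⟩
    · exact ⟨c, (A7_del3_mem hF h1 h2 h3).2 (Or.inr (Or.inl ⟨rfl, rfl, rfl⟩))⟩
    · exact ⟨a, (A7_del3_mem hF h1 h2 h3).2 (Or.inr (Or.inr (Or.inl ⟨rfl, rfl, rfl⟩)))⟩
    · exact ⟨b, (A7_del3_mem hF h1 h2 h3).2 (Or.inr (Or.inr (Or.inr ⟨rfl, rfl, rfl⟩)))⟩
  · exact ⟨z, (A7_del3_mem hF h1 h2 h3).2 (Or.inl ⟨h, hx, hy, hz⟩)⟩

theorem A7_del3_side' (hF : IsTri F) {a b c w : α} (h1 : (a, b, w) ∈ F)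
    (h2 : (b, c, w) ∈ F) (h3 : (c, a, w) ∈ F) {x y z : α}
    (h : (x, y, z) ∈ ((F \ (rots a b w ∪ rots b c w ∪ rots c a w)) ∪ rots a b c)) :
    x ≠ w ∧ y ≠ w ∧ ∃ z', (x, y, z') ∈ F := by
  rcases (A7_del3_mem hF h1 h2 h3).1 h with ⟨hx, k1, k2, k3⟩ | ⟨rfl, rfl, rfl⟩ | ⟨rfl, rfl, rfl⟩ |
    ⟨rfl, rfl, rfl⟩
  · exact ⟨k1, k2, z, hx⟩
  · exact ⟨(hF.toIsSurf.ne3 h1).symm, hF.toIsSurf.ne2 h1, _, h1⟩
  · exact ⟨(hF.toIsSurf.ne3 h2).symm, hF.toIsSurf.ne2 h2, _, h2⟩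
  · exact ⟨(hF.toIsSurf.ne3 h3).symm, hF.toIsSurf.ne2 h3, _, h3⟩

theorem vs_del3 (hF : IsTri F) {a b c w : α} (h1 : (a, b, w) ∈ F)
    (h2 : (b, c, w) ∈ F) (h3 : (c, a, w) ∈ F) :
    vs ((F \ (rots a b w ∪ rots b c w ∪ rots c a w)) ∪ rots a b c) = (vs F).erase w := by
  ext x
  rw [mem_erase, mem_vs]
  constructor
  · rintro ⟨y, z, hx⟩
    obtain ⟨k1, -, z', hz'⟩ := A7_del3_side' hF h1 h2 h3 hx
    exact ⟨k1, hF.toIsSurf.vs1 hz'⟩
  · rintro ⟨hxw, hx⟩
    obtain ⟨y, z, hx⟩ := mem_vs.1 hx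
    by_cases hy : y = w
    · subst hy
      rcases A7_del3_link hF h1 h2 h3 (hF.rot hx) with ⟨rfl, rfl⟩ | ⟨rfl, rfl⟩ | ⟨rfl, rfl⟩
      · exact ⟨_, _, (A7_del3_mem hF h1 h2 h3).2 (Or.inr (Or.inr (Or.inl ⟨rfl, rfl, rfl⟩)))⟩
      · exact ⟨_, _, (A7_del3_mem hF h1 h2 h3).2 (Or.inr (Or.inr (Or.inr ⟨rfl, rfl, rfl⟩)))⟩
      · exact ⟨_, _, (A7_del3_mem hF h1 h2 h3).2 (Or.inr (Or.inl ⟨rfl, rfl, rfl⟩))⟩
    · obtain ⟨z', hz'⟩ := A7_del3_side hF h1 h2 h3 hx hxw hy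
      exact ⟨y, z', hz'⟩

/-- Removal of a vertex of degree three (the link of `w` is the cycle `a → b → c → a`). -/
theorem del3 (hF : IsTri F) {a b c w : α} (h1 : (a, b, w) ∈ F)
    (h2 : (b, c, w) ∈ F) (h3 : (c, a, w) ∈ F) :
    IsTri ((F \ (rots a b w ∪ rots b c w ∪ rots c a w)) ∪ rots a b c) := by
  have hW : ∀ x y, (w, x, y) ∈ F → (x = a ∧ y = b) ∨ (x = b ∧ y = c) ∨ (x = c ∧ y = a) :=
    fun x y => A7_del3_link hF h1 h2 h3
  have n1 : a ≠ b := hF.ne h1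
  have n2 : b ≠ c := hF.ne h2
  have n3 : c ≠ a := hF.ne h3
  have m1 : a ≠ w := (hF.toIsSurf.ne3 h1).symm
  have m2 : b ≠ w := (hF.toIsSurf.ne3 h2).symm
  have m3 : c ≠ w := (hF.toIsSurf.ne3 h3).symm
  have heq := vs_del3 hF h1 h2 h3
  have hcard : ((F \ (rots a b w ∪ rots b c w ∪ rots c a w)) ∪ rots a b c).card + 6 = F.card := by
    have c0 : (rots a b c).card = 3 := A7_card_rots n1 n2 n3
    have c1 : (rots a b w).card = 3 := A7_card_rots n1 m2 m1.symm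
    have c2 : (rots b c w).card = 3 := A7_card_rots n2 m3 m2.symm
    have c3 : (rots c a w).card = 3 := A7_card_rots n3 m1 m3.symm
    have d1 : Disjoint (rots a b w) (rots b c w) := A7_disj (by rw [A7_mem_rots]; grind)
    have d2 : Disjoint (rots a b w) (rots c a w) := A7_disj (by rw [A7_mem_rots]; grind)
    have d3 : Disjoint (rots b c w) (rots c a w) := A7_disj (by rw [A7_mem_rots]; grind)
    have e0 : Disjoint F (rots a b c) := A7_disjF hF.toIsSurf fun hh => m3 (hF.uniq hh h1)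
    have s1 : rots a b w ∪ rots b c w ∪ rots c a w ⊆ F :=
      union_subset (union_subset (A7_rots_sub hF.toIsSurf h1) (A7_rots_sub hF.toIsSurf h2))
        (A7_rots_sub hF.toIsSurf h3)
    have c4 : (rots a b w ∪ rots b c w ∪ rots c a w).card = 9 := by
      rw [card_union_of_disjoint (disjoint_union_left.2 ⟨d2, d3⟩), card_union_of_disjoint d1, c1,
        c2, c3]
    rw [card_union_of_disjoint (Disjoint.mono_left sdiff_subset e0), card_sdiff_of_subset s1, c4, c0]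
    have := card_le_card s1
    omega
  have hmem : ∀ x y z, (x, y, z) ∈ ((F \ (rots a b w ∪ rots b c w ∪ rots c a w)) ∪ rots a b c) ↔
      ((x, y, z) ∈ F ∧ x ≠ w ∧ y ≠ w ∧ z ≠ w) ∨
      ((x = a ∧ y = b ∧ z = c) ∨ (x = b ∧ y = c ∧ z = a) ∨ (x = c ∧ y = a ∧ z = b)) :=
    fun x y z => A7_del3_mem hF h1 h2 h3
  have hside : ∀ x y z, (x, y, z) ∈ F → x ≠ w → y ≠ w → ∃ z', (x, y, z') ∈
      ((F \ (rots a b w ∪ rots b c w ∪ rots c a w)) ∪ rots a b c) :=
    fun x y z => A7_del3_side hF h1 h2 h3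
  have hside' : ∀ x y z, (x, y, z) ∈ ((F \ (rots a b w ∪ rots b c w ∪ rots c a w)) ∪ rots a b c) →
      x ≠ w ∧ y ≠ w ∧ ∃ z', (x, y, z') ∈ F := fun x y z => A7_del3_side' hF h1 h2 h3
  generalize ((F \ (rots a b w ∪ rots b c w ∪ rots c a w)) ∪ rots a b c) = F' at *
  have f1 : (a, b, c) ∈ F' := (hmem _ _ _).2 (Or.inr (Or.inl ⟨rfl, rfl, rfl⟩))
  have f2 : (b, c, a) ∈ F' := (hmem _ _ _).2 (Or.inr (Or.inr (Or.inl ⟨rfl, rfl, rfl⟩)))
  have f3 : (c, a, b) ∈ F' := (hmem _ _ _).2 (Or.inr (Or.inr (Or.inr ⟨rfl, rfl, rfl⟩)))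
  refine ⟨⟨?_, ?_, ?_, ?_, ?_, ?_, ⟨_, f1⟩⟩, ?_⟩
  · intro x y z hx
    rcases (hmem _ _ _).1 hx with ⟨hx, k1, k2, k3⟩ | ⟨rfl, rfl, rfl⟩ | ⟨rfl, rfl, rfl⟩ |
      ⟨rfl, rfl, rfl⟩
    · exact (hmem _ _ _).2 (Or.inl ⟨hF.rot hx, k2, k3, k1⟩)
    · exact f2
    · exact f3
    · exact f1
  · intro x y z hx
    obtain ⟨-, -, z', hz'⟩ := hside' _ _ _ hx
    exact hF.ne hz'
  · intro x y z z' k1 k2
    rcases (hmem _ _ _).1 k1 with ⟨hx, l1, l2, l3⟩ | hx
    · rcases (hmem _ _ _).1 k2 with ⟨hx', l1', l2', l3'⟩ | hx'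
      · exact hF.uniq hx hx'
      · rcases hx' with ⟨rfl, rfl, rfl⟩ | ⟨rfl, rfl, rfl⟩ | ⟨rfl, rfl, rfl⟩
        · exact absurd (hF.uniq hx h1) l3
        · exact absurd (hF.uniq hx h2) l3
        · exact absurd (hF.uniq hx h3) l3
    · rcases (hmem _ _ _).1 k2 with ⟨hx', l1', l2', l3'⟩ | hx'
      · rcases hx with ⟨rfl, rfl, rfl⟩ | ⟨rfl, rfl, rfl⟩ | ⟨rfl, rfl, rfl⟩
        · exact absurd (hF.uniq hx' h1) l3'
        · exact absurd (hF.uniq hx' h2) l3'
        · exact absurd (hF.uniq hx' h3) l3'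
      · clear hmem hside hside' hW k1 k2 f1 f2 f3 heq hcard h1 h2 h3
        grind
  · intro x y z hx
    obtain ⟨k1, k2, z', hz'⟩ := hside' _ _ _ hx
    obtain ⟨d, hd⟩ := hF.opp hz'
    exact hside _ _ _ hd k2 k1
  · intro v x y x' y' k1 k2
    obtain ⟨hv, hx, y0, hy0⟩ := hside' _ _ _ k1
    obtain ⟨-, hx', y1, hy1⟩ := hside' _ _ _ k2
    have hl := hF.link hy0 hy1
    by_cases hs : ∃ s, (v, w, s) ∈ F
    · obtain ⟨s, hs⟩ := hs
      have hsw : s ≠ w := (hF.toIsSurf.ne2 hs).symm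
      have := A7_lift (r' := fun x y => (v, x, y) ∈ F') (fun p => if p = w then s else p)
        (fun p q hpq => by
          by_cases hp : p = w
          · subst hp
            have : q = s := hF.uniq hpq hs
            subst this
            simp only [if_true, if_neg hsw]
            exact Relation.ReflTransGen.refl
          · by_cases hq : q = w
            · subst hq
              simp only [if_true, if_neg hp]
              refine Relation.ReflTransGen.single ?_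
              have g1 := hW _ _ (hF.toIsSurf.rot2 hpq)
              have g2 := hW _ _ (hF.rot hs)
              rcases g1 with ⟨rfl, rfl⟩ | ⟨rfl, rfl⟩ | ⟨rfl, rfl⟩
              · rcases g2 with ⟨e1, e2⟩ | ⟨e1, e2⟩ | ⟨e1, e2⟩
                · exact absurd e2 n1
                · exact absurd e2 n3.symm
                · subst e1
                  exact f1
              · rcases g2 with ⟨e1, e2⟩ | ⟨e1, e2⟩ | ⟨e1, e2⟩
                · subst e1
                  exact f2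
                · exact absurd e2 n2
                · exact absurd e2 n1.symm
              · rcases g2 with ⟨e1, e2⟩ | ⟨e1, e2⟩ | ⟨e1, e2⟩
                · exact absurd e2 n2.symm
                · subst e1
                  exact f3
                · exact absurd e2 n3
            · simp only [if_neg hp, if_neg hq]
              exact Relation.ReflTransGen.single ((hmem _ _ _).2 (Or.inl ⟨hpq, hv, hp, hq⟩))) hl
      simpa only [if_neg hx, if_neg hx'] using this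
    · refine A7_lift (r' := fun x y => (v, x, y) ∈ F') (fun p => p) (fun p q hpq => ?_) hl
      refine Relation.ReflTransGen.single ((hmem _ _ _).2 (Or.inl ⟨hpq, hv, ?_, ?_⟩))
      · rintro rfl
        exact hs ⟨_, hpq⟩
      · rintro rfl
        obtain ⟨s, hs'⟩ := hF.opp (hF.toIsSurf.rot2 hpq)
        exact hs ⟨_, hs'⟩
  · intro x y hx hy
    rw [heq, mem_erase] at hx hy
    have hl := hF.conn hx.2 hy.2
    have sab := Relation.ReflTransGen.single (r := Adj F') ⟨_, f1⟩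
    have sbc := Relation.ReflTransGen.single (r := Adj F') ⟨_, f2⟩
    have sca := Relation.ReflTransGen.single (r := Adj F') ⟨_, f3⟩
    have := A7_lift (r' := Adj F') (fun p => if p = w then a else p) (fun p q hpq => by
      obtain ⟨z, hz⟩ := hpq
      by_cases hp : p = w
      · subst hp
        have hq : q ≠ p := (hF.ne hz).symm
        simp only [if_true, if_neg hq]
        rcases hW _ _ hz with ⟨rfl, rfl⟩ | ⟨rfl, rfl⟩ | ⟨rfl, rfl⟩
        · exact Relation.ReflTransGen.refl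
        · exact sab
        · exact sab.trans sbc
      · by_cases hq : q = w
        · subst hq
          simp only [if_true, if_neg hp]
          rcases hW _ _ (hF.rot hz) with ⟨rfl, rfl⟩ | ⟨rfl, rfl⟩ | ⟨rfl, rfl⟩
          · exact sbc.trans sca
          · exact sca
          · exact Relation.ReflTransGen.refl
        · simp only [if_neg hp, if_neg hq]
          obtain ⟨z', hz'⟩ := hside _ _ _ hz hp hq
          exact Relation.ReflTransGen.single ⟨z', hz'⟩) hl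
    simpa only [if_neg hx.1, if_neg hy.1] using this
  · have hwv : w ∈ vs F := hF.toIsSurf.vs3 h1
    rw [heq, card_erase_of_mem hwv]
    have := hF.euler
    have := card_pos.2 ⟨w, hwv⟩
    omega

theorem A7_flip_mem {a b y o p q r : α} :
    (p, q, r) ∈ ((F \ (rots a b y ∪ rots b a o)) ∪ (rots a o y ∪ rots o b y)) ↔
      ((p, q, r) ∈ F ∧ ¬ (((p = a ∧ q = b ∧ r = y) ∨ (p = b ∧ q = y ∧ r = a) ∨
        (p = y ∧ q = a ∧ r = b)) ∨ (p = b ∧ q = a ∧ r = o) ∨ (p = a ∧ q = o ∧ r = b) ∨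
        (p = o ∧ q = b ∧ r = a))) ∨
      ((p = a ∧ q = o ∧ r = y) ∨ (p = o ∧ q = y ∧ r = a) ∨ (p = y ∧ q = a ∧ r = o)) ∨
      (p = o ∧ q = b ∧ r = y) ∨ (p = b ∧ q = y ∧ r = o) ∨ (p = y ∧ q = o ∧ r = b) := by
  simp only [mem_union, mem_sdiff, A7_mem_rots]

theorem A7_flip_side {a b y o p q r : α} (h : (p, q, r) ∈ F)
    (hpq : ¬ (p = a ∧ q = b)) (hqp : ¬ (p = b ∧ q = a)) :
    ∃ r', (p, q, r') ∈ ((F \ (rots a b y ∪ rots b a o)) ∪ (rots a o y ∪ rots o b y)) := by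
  by_cases hc : (((p = a ∧ q = b ∧ r = y) ∨ (p = b ∧ q = y ∧ r = a) ∨
        (p = y ∧ q = a ∧ r = b)) ∨ (p = b ∧ q = a ∧ r = o) ∨ (p = a ∧ q = o ∧ r = b) ∨
        (p = o ∧ q = b ∧ r = a))
  · rcases hc with (⟨rfl, rfl, rfl⟩ | ⟨rfl, rfl, rfl⟩ | ⟨rfl, rfl, rfl⟩) | ⟨rfl, rfl, rfl⟩ |
      ⟨rfl, rfl, rfl⟩ | ⟨rfl, rfl, rfl⟩
    · exact absurd ⟨rfl, rfl⟩ hpq
    · exact ⟨o, A7_flip_mem.2 (Or.inr (Or.inr (Or.inr (Or.inl ⟨rfl, rfl, rfl⟩))))⟩
    · exact ⟨o, A7_flip_mem.2 (Or.inr (Or.inl (Or.inr (Or.inr ⟨rfl, rfl, rfl⟩))))⟩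
    · exact absurd ⟨rfl, rfl⟩ hqp
    · exact ⟨y, A7_flip_mem.2 (Or.inr (Or.inl (Or.inl ⟨rfl, rfl, rfl⟩)))⟩
    · exact ⟨y, A7_flip_mem.2 (Or.inr (Or.inr (Or.inl ⟨rfl, rfl, rfl⟩)))⟩
  · exact ⟨r, A7_flip_mem.2 (Or.inl ⟨h, hc⟩)⟩

theorem A7_flip_side' (hF : IsTri F) {a b y o p q r : α} (h1 : (a, b, y) ∈ F)
    (h2 : (b, a, o) ∈ F)
    (h : (p, q, r) ∈ ((F \ (rots a b y ∪ rots b a o)) ∪ (rots a o y ∪ rots o b y))) :
    (∃ r', (p, q, r') ∈ F) ∨ (p = o ∧ q = y) ∨ (p = y ∧ q = o) := by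
  rcases A7_flip_mem.1 h with ⟨hx, -⟩ | (⟨rfl, rfl, rfl⟩ | ⟨rfl, rfl, rfl⟩ | ⟨rfl, rfl, rfl⟩) |
    ⟨rfl, rfl, rfl⟩ | ⟨rfl, rfl, rfl⟩ | ⟨rfl, rfl, rfl⟩
  · exact Or.inl ⟨r, hx⟩
  · exact Or.inl ⟨b, hF.rot h2⟩
  · exact Or.inr (Or.inl ⟨rfl, rfl⟩)
  · exact Or.inl ⟨b, hF.toIsSurf.rot2 h1⟩
  · exact Or.inl ⟨a, hF.toIsSurf.rot2 h2⟩
  · exact Or.inl ⟨a, hF.rot h1⟩
  · exact Or.inr (Or.inr ⟨rfl, rfl⟩)

theorem A7_flip_vs (hF : IsTri F) {a b y o : α} (h1 : (a, b, y) ∈ F) (h2 : (b, a, o) ∈ F)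
    (_hne : o ≠ y) (_hn : ¬ Adj F o y) :
    vs ((F \ (rots a b y ∪ rots b a o)) ∪ (rots a o y ∪ rots o b y)) = vs F := by
  ext x
  rw [mem_vs, mem_vs]
  constructor
  · rintro ⟨q, r, hx⟩
    rcases A7_flip_side' hF h1 h2 hx with ⟨r', hr⟩ | ⟨rfl, rfl⟩ | ⟨rfl, rfl⟩
    · exact ⟨_, _, hr⟩
    · exact ⟨_, _, hF.toIsSurf.rot2 h2⟩
    · exact ⟨_, _, hF.toIsSurf.rot2 h1⟩
  · rintro ⟨q, r, hx⟩
    by_cases g1 : x = a ∧ q = b
    · obtain ⟨rfl, rfl⟩ := g1
      exact ⟨o, y, A7_flip_mem.2 (Or.inr (Or.inl (Or.inl ⟨rfl, rfl, rfl⟩)))⟩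
    · by_cases g2 : x = b ∧ q = a
      · obtain ⟨rfl, rfl⟩ := g2
        exact ⟨y, o, A7_flip_mem.2 (Or.inr (Or.inr (Or.inr (Or.inl ⟨rfl, rfl, rfl⟩))))⟩
      · obtain ⟨r', hr'⟩ := A7_flip_side (y := y) (o := o) hx g1 g2
        exact ⟨q, r', hr'⟩

/-- Flip of the edge `ab`: the faces `(a,b,y)` and `(b,a,o)` are replaced by `(a,o,y)` and `(o,b,y)`. -/
theorem flip (hF : IsTri F) {a b y o : α} (h1 : (a, b, y) ∈ F) (h2 : (b, a, o) ∈ F) (hne : o ≠ y)
    (hn : ¬ Adj F o y) :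
    IsTri ((F \ (rots a b y ∪ rots b a o)) ∪ (rots a o y ∪ rots o b y)) := by
  have heq := A7_flip_vs hF h1 h2 hne hn
  have ab : a ≠ b := hF.ne h1
  have by' : b ≠ y := hF.toIsSurf.ne2 h1
  have ya : y ≠ a := hF.toIsSurf.ne3 h1
  have ao : a ≠ o := hF.toIsSurf.ne2 h2
  have ob : o ≠ b := hF.toIsSurf.ne3 h2
  have hoy : ∀ r, (o, y, r) ∉ F := fun r hr => hn ⟨r, hr⟩
  have hyo : ∀ r, (y, o, r) ∉ F := fun r hr => hn (hF.toIsSurf.adj_symm ⟨r, hr⟩)
  have e1 : (a, o, b) ∈ F := hF.rot h2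
  have e2 : (o, b, a) ∈ F := hF.toIsSurf.rot2 h2
  have e3 : (b, y, a) ∈ F := hF.rot h1
  have e4 : (y, a, b) ∈ F := hF.toIsSurf.rot2 h1
  have hcard : ((F \ (rots a b y ∪ rots b a o)) ∪ (rots a o y ∪ rots o b y)).card = F.card := by
    have c0 : (rots a b y).card = 3 := A7_card_rots ab by' ya
    have c1 : (rots b a o).card = 3 := A7_card_rots ab.symm ao ob
    have c2 : (rots a o y).card = 3 := A7_card_rots ao hne ya
    have c3 : (rots o b y).card = 3 := A7_card_rots ob by' hne.symm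
    have d1 : Disjoint (rots a b y) (rots b a o) := A7_disj (by rw [A7_mem_rots]; grind)
    have d2 : Disjoint (rots a o y) (rots o b y) := A7_disj (by rw [A7_mem_rots]; grind)
    have k1 : Disjoint F (rots a o y) :=
      A7_disjF hF.toIsSurf fun hh => by' (hF.uniq hh e1).symm
    have k2 : Disjoint F (rots o b y) :=
      A7_disjF hF.toIsSurf fun hh => ya (hF.uniq hh e2)
    have s1 : rots a b y ∪ rots b a o ⊆ F :=
      union_subset (A7_rots_sub hF.toIsSurf h1) (A7_rots_sub hF.toIsSurf h2)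
    have c4 : (rots a b y ∪ rots b a o).card = 6 := by
      rw [card_union_of_disjoint d1, c0, c1]
    have c5 : (rots a o y ∪ rots o b y).card = 6 := by
      rw [card_union_of_disjoint d2, c2, c3]
    rw [card_union_of_disjoint (Disjoint.mono_left sdiff_subset (disjoint_union_right.2 ⟨k1, k2⟩)),
      card_sdiff_of_subset s1, c4, c5]
    have := card_le_card s1
    omega
  have hmem : ∀ p q r, (p, q, r) ∈ ((F \ (rots a b y ∪ rots b a o)) ∪ (rots a o y ∪ rots o b y)) ↔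
      ((p, q, r) ∈ F ∧ ¬ (((p = a ∧ q = b ∧ r = y) ∨ (p = b ∧ q = y ∧ r = a) ∨
        (p = y ∧ q = a ∧ r = b)) ∨ (p = b ∧ q = a ∧ r = o) ∨ (p = a ∧ q = o ∧ r = b) ∨
        (p = o ∧ q = b ∧ r = a))) ∨
      ((p = a ∧ q = o ∧ r = y) ∨ (p = o ∧ q = y ∧ r = a) ∨ (p = y ∧ q = a ∧ r = o)) ∨
      (p = o ∧ q = b ∧ r = y) ∨ (p = b ∧ q = y ∧ r = o) ∨ (p = y ∧ q = o ∧ r = b) :=
    fun p q r => A7_flip_mem
  have hside : ∀ p q r, (p, q, r) ∈ F → ¬ (p = a ∧ q = b) → ¬ (p = b ∧ q = a) →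
      ∃ r', (p, q, r') ∈ ((F \ (rots a b y ∪ rots b a o)) ∪ (rots a o y ∪ rots o b y)) :=
    fun p q r => A7_flip_side
  have hside' : ∀ p q r,
      (p, q, r) ∈ ((F \ (rots a b y ∪ rots b a o)) ∪ (rots a o y ∪ rots o b y)) →
      (∃ r', (p, q, r') ∈ F) ∨ (p = o ∧ q = y) ∨ (p = y ∧ q = o) :=
    fun p q r => A7_flip_side' hF h1 h2
  generalize ((F \ (rots a b y ∪ rots b a o)) ∪ (rots a o y ∪ rots o b y)) = F' at *
  have f1 : (a, o, y) ∈ F' := (hmem _ _ _).2 (Or.inr (Or.inl (Or.inl ⟨rfl, rfl, rfl⟩)))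
  have f2 : (o, y, a) ∈ F' := (hmem _ _ _).2 (Or.inr (Or.inl (Or.inr (Or.inl ⟨rfl, rfl, rfl⟩))))
  have f3 : (y, a, o) ∈ F' := (hmem _ _ _).2 (Or.inr (Or.inl (Or.inr (Or.inr ⟨rfl, rfl, rfl⟩))))
  have f4 : (o, b, y) ∈ F' := (hmem _ _ _).2 (Or.inr (Or.inr (Or.inl ⟨rfl, rfl, rfl⟩)))
  have f5 : (b, y, o) ∈ F' := (hmem _ _ _).2 (Or.inr (Or.inr (Or.inr (Or.inl ⟨rfl, rfl, rfl⟩))))
  have f6 : (y, o, b) ∈ F' := (hmem _ _ _).2 (Or.inr (Or.inr (Or.inr (Or.inr ⟨rfl, rfl, rfl⟩))))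
  have u : ∀ x y z z', (x, y, z) ∈ F → (x, y, z') ∈ F → z = z' := fun x y z z' => hF.uniq
  have hab : ∀ r, (a, b, r) ∉ F' := by
    intro r hr
    rw [hmem] at hr
    have := u a b y r h1
    clear hmem hside hside' u heq hcard f1 f2 f3 f4 f5 f6 hoy hyo hn e1 e2 e3 e4
    grind
  have hba : ∀ r, (b, a, r) ∉ F' := by
    intro r hr
    rw [hmem] at hr
    have := u b a o r h2
    clear hmem hside hside' u heq hcard f1 f2 f3 f4 f5 f6 hoy hyo hn e1 e2 e3 e4 hab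
    grind
  have hdir : ∀ v p q, (v, p, q) ∈ F → ¬ (((v = a ∧ p = b ∧ q = y) ∨ (v = b ∧ p = y ∧ q = a) ∨
        (v = y ∧ p = a ∧ q = b)) ∨ (v = b ∧ p = a ∧ q = o) ∨ (v = a ∧ p = o ∧ q = b) ∨
        (v = o ∧ p = b ∧ q = a)) → (v, p, q) ∈ F' := fun v p q h h' =>
    (hmem _ _ _).2 (Or.inl ⟨h, h'⟩)
  refine ⟨⟨?_, ?_, ?_, ?_, ?_, ?_, ⟨_, f1⟩⟩, ?_⟩
  · intro x y z hx
    rcases (hmem _ _ _).1 hx with ⟨hx, k⟩ | (⟨rfl, rfl, rfl⟩ | ⟨rfl, rfl, rfl⟩ | ⟨rfl, rfl, rfl⟩) |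
      ⟨rfl, rfl, rfl⟩ | ⟨rfl, rfl, rfl⟩ | ⟨rfl, rfl, rfl⟩
    · refine hdir _ _ _ (hF.rot hx) ?_
      clear hmem hside hside' u heq hcard f1 f2 f3 f4 f5 f6 hoy hyo hn e1 e2 e3 e4 hab hba hdir
      grind
    · exact f2
    · exact f3
    · exact f1
    · exact f5
    · exact f6
    · exact f4
  · intro x y z hx
    rcases hside' _ _ _ hx with ⟨r, hr⟩ | ⟨rfl, rfl⟩ | ⟨rfl, rfl⟩
    · exact hF.ne hr
    · exact hne
    · exact hne.symm
  · intro x x' z z' k1 k2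
    rw [hmem] at k1 k2
    clear hmem hside hside' heq hcard f1 f2 f3 f4 f5 f6 hn hab hba hdir
    rcases k1 with ⟨hx, l1⟩ | k1
    · rcases k2 with ⟨hx', l2⟩ | k2
      · exact u _ _ _ _ hx hx'
      · rcases k2 with (⟨rfl, rfl, rfl⟩ | ⟨rfl, rfl, rfl⟩ | ⟨rfl, rfl, rfl⟩) |
          ⟨rfl, rfl, rfl⟩ | ⟨rfl, rfl, rfl⟩ | ⟨rfl, rfl, rfl⟩
        · exact absurd (u _ _ _ _ hx e1) (by clear u hoy hyo; grind)
        · exact absurd hx (hoy _)
        · exact absurd (u _ _ _ _ hx e4) (by clear u hoy hyo; grind)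
        · exact absurd (u _ _ _ _ hx e2) (by clear u hoy hyo; grind)
        · exact absurd (u _ _ _ _ hx e3) (by clear u hoy hyo; grind)
        · exact absurd hx (hyo _)
    · rcases k2 with ⟨hx', l2⟩ | k2
      · rcases k1 with (⟨rfl, rfl, rfl⟩ | ⟨rfl, rfl, rfl⟩ | ⟨rfl, rfl, rfl⟩) |
          ⟨rfl, rfl, rfl⟩ | ⟨rfl, rfl, rfl⟩ | ⟨rfl, rfl, rfl⟩
        · exact absurd (u _ _ _ _ hx' e1) (by clear u hoy hyo; grind)
        · exact absurd hx' (hoy _)
        · exact absurd (u _ _ _ _ hx' e4) (by clear u hoy hyo; grind)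
        · exact absurd (u _ _ _ _ hx' e2) (by clear u hoy hyo; grind)
        · exact absurd (u _ _ _ _ hx' e3) (by clear u hoy hyo; grind)
        · exact absurd hx' (hyo _)
      · clear u hoy hyo e1 e2 e3 e4 h1 h2
        grind
  · intro p q r hx
    rcases hside' _ _ _ hx with ⟨r', hr⟩ | ⟨rfl, rfl⟩ | ⟨rfl, rfl⟩
    · obtain ⟨d, hd⟩ := hF.opp hr
      refine hside _ _ _ hd ?_ ?_
      · rintro ⟨rfl, rfl⟩
        exact hba _ hx
      · rintro ⟨rfl, rfl⟩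
        exact hab _ hx
    · exact ⟨_, f6⟩
    · exact ⟨_, f2⟩
  · -- the links
    have hstart : ∀ v x x', (v, x, x') ∈ F' → ∃ x0 x1, (∃ r, (v, x0, r) ∈ F) ∧
        (∃ r, (v, x1, r) ∈ F) ∧ Relation.ReflTransGen (fun x y => (v, x, y) ∈ F') x x0 ∧
        Relation.ReflTransGen (fun x y => (v, x, y) ∈ F') x1 x ∧
        ¬ (v = a ∧ x0 = b) ∧ ¬ (v = b ∧ x0 = a) ∧ ¬ (v = a ∧ x1 = b) ∧ ¬ (v = b ∧ x1 = a) := by
      intro v x x' hx
      rcases hside' _ _ _ hx with ⟨r', hr⟩ | ⟨rfl, rfl⟩ | ⟨rfl, rfl⟩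
      · have g1 : ¬ (v = a ∧ x = b) := by
          rintro ⟨rfl, rfl⟩
          exact hab _ hx
        have g2 : ¬ (v = b ∧ x = a) := by
          rintro ⟨rfl, rfl⟩
          exact hba _ hx
        exact ⟨x, x, ⟨_, hr⟩, ⟨_, hr⟩, Relation.ReflTransGen.refl, Relation.ReflTransGen.refl,
          g1, g2, g1, g2⟩
      · obtain ⟨d, hd⟩ := hF.opp e1
        exact ⟨a, b, ⟨d, hd⟩, ⟨_, e2⟩, Relation.ReflTransGen.single f2,
          Relation.ReflTransGen.single f4, fun h => ao h.1.symm, fun h => ob h.1,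
          fun h => ao h.1.symm, fun h => ob h.1⟩
      · obtain ⟨d, hd⟩ := hF.opp e3
        exact ⟨b, a, ⟨d, hd⟩, ⟨_, e4⟩, Relation.ReflTransGen.single f6,
          Relation.ReflTransGen.single f3, fun h => ya h.1, fun h => by' h.1.symm,
          fun h => ya h.1, fun h => by' h.1.symm⟩
    have hlink : ∀ v p q, Relation.ReflTransGen (fun x y => (v, x, y) ∈ F) p q →
        ¬ (v = a ∧ p = b) → ¬ (v = b ∧ p = a) → ¬ (v = a ∧ q = b) → ¬ (v = b ∧ q = a) →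
        Relation.ReflTransGen (fun x y => (v, x, y) ∈ F') p q := by
      intro v p q hpq g1 g2 g3 g4
      by_cases hva : v = a
      · subst hva
        have hp : p ≠ b := fun h => g1 ⟨rfl, h⟩
        have hq : q ≠ b := fun h => g3 ⟨rfl, h⟩
        have := A7_lift (r' := fun x y => (v, x, y) ∈ F') (fun p => if p = b then y else p)
          (fun p q hpq => by
            by_cases hp : p = b
            · subst hp
              have hqy : q = y := u _ _ _ _ hpq h1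
              subst hqy
              simp only [if_true, if_neg by'.symm]
              exact Relation.ReflTransGen.refl
            · by_cases hq : q = b
              · subst hq
                have hpo : p = o := hF.toIsSurf.uniq' hpq e1
                subst hpo
                simp only [if_true, if_neg hp]
                exact Relation.ReflTransGen.single f1
              · simp only [if_neg hp, if_neg hq]
                refine Relation.ReflTransGen.single (hdir _ _ _ hpq ?_)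
                clear hmem hside hside' u heq hcard f1 f2 f3 f4 f5 f6 hoy hyo hn e1 e2 e3 e4 hab hba hdir
                  hstart
                grind) hpq
        simpa only [if_neg hp, if_neg hq] using this
      · by_cases hvb : v = b
        · subst hvb
          have hp : p ≠ a := fun h => g2 ⟨rfl, h⟩
          have hq : q ≠ a := fun h => g4 ⟨rfl, h⟩
          have := A7_lift (r' := fun x y => (v, x, y) ∈ F') (fun p => if p = a then o else p)
            (fun p q hpq => by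
              by_cases hp : p = a
              · subst hp
                have hqo : q = o := u _ _ _ _ hpq h2
                subst hqo
                simp only [if_true, if_neg ao.symm]
                exact Relation.ReflTransGen.refl
              · by_cases hq : q = a
                · subst hq
                  have hpy : p = y := hF.toIsSurf.uniq' hpq e3
                  subst hpy
                  simp only [if_true, if_neg hp]
                  exact Relation.ReflTransGen.single f5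
                · simp only [if_neg hp, if_neg hq]
                  refine Relation.ReflTransGen.single (hdir _ _ _ hpq ?_)
                  clear hmem hside hside' u heq hcard f1 f2 f3 f4 f5 f6 hoy hyo hn e1 e2 e3 e4 hab hba
                    hdir hstart
                  grind) hpq
          simpa only [if_neg hp, if_neg hq] using this
        · refine A7_lift (r' := fun x y => (v, x, y) ∈ F') (fun p => p) (fun p q hpq => ?_) hpq
          by_cases hc : (v = y ∧ p = a ∧ q = b) ∨ (v = o ∧ p = b ∧ q = a)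
          · rcases hc with ⟨rfl, rfl, rfl⟩ | ⟨rfl, rfl, rfl⟩
            · exact (Relation.ReflTransGen.single f3).tail f6
            · exact (Relation.ReflTransGen.single f4).tail f2
          · refine Relation.ReflTransGen.single (hdir _ _ _ hpq ?_)
            clear hmem hside hside' u heq hcard f1 f2 f3 f4 f5 f6 hoy hyo hn e1 e2 e3 e4 hab hba
              hdir hstart
            grind
    intro v x z x' z' k1 k2
    obtain ⟨x0, -, ⟨r0, hr0⟩, -, hp0, -, g1, g2, -, -⟩ := hstart _ _ _ k1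
    obtain ⟨-, x1, -, ⟨r1, hr1⟩, -, hp1, -, -, g3, g4⟩ := hstart _ _ _ k2
    exact (hp0.trans (hlink v _ _ (hF.link hr0 hr1) g1 g2 g3 g4)).trans hp1
  · intro x z hx hz
    rw [heq] at hx hz
    refine A7_lift (r' := Adj F') (fun p => p) (fun p q hpq => ?_) (hF.conn hx hz)
    obtain ⟨r, hr⟩ := hpq
    by_cases g1 : p = a ∧ q = b
    · obtain ⟨rfl, rfl⟩ := g1
      exact (Relation.ReflTransGen.single (r := Adj F') ⟨_, f1⟩).tail ⟨_, f4⟩
    · by_cases g2 : p = b ∧ q = a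
      · obtain ⟨rfl, rfl⟩ := g2
        exact (Relation.ReflTransGen.single (r := Adj F') ⟨_, f5⟩).tail ⟨_, f3⟩
      · obtain ⟨r', hr'⟩ := hside _ _ _ hr g1 g2
        exact Relation.ReflTransGen.single ⟨r', hr'⟩
  · rw [heq, hcard]
    exact hF.euler

theorem vs_flip (hF : IsTri F) {a b y o : α} (h1 : (a, b, y) ∈ F) (h2 : (b, a, o) ∈ F)
    (hne : o ≠ y) (hn : ¬ Adj F o y) :
    vs ((F \ (rots a b y ∪ rots b a o)) ∪ (rots a o y ∪ rots o b y)) = vs F :=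
  A7_flip_vs hF h1 h2 hne hn

end H19S
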