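import Pool.Agent.Lib.H19S.A0

/-!
# H19S, chunk A8: removing the vertices of a face
-/

namespace H19S

open Finset

variable {α : Type*} [DecidableEq α] {F : Finset (α × α × α)}

/-- The neighbours of `a` other than `b, c` are joined inside the link of `a`. -/
theorem A8_ring (hF : IsSurf F) {a b c e : α} (h : (a, b, c) ∈ F) (he : (a, c, e) ∈ F)
    {A : Set α} (hA : ∀ x, Adj F a x → x ≠ b → x ≠ c → x ∈ A) {x : α} (hx : Adj F a x)
    (hxb : x ≠ b) (hxc : x ≠ c) :
    Relation.ReflTransGen (fun p q => q ∈ A ∧ Adj F p q) e x := by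
  have key : ∀ q, Relation.ReflTransGen (fun x y => (a, x, y) ∈ F) c q →
      Relation.ReflTransGen (fun x y => (a, x, y) ∈ F ∧ y ≠ b ∧ y ≠ c) c q ∨ q = b := by
    intro q hq
    induction hq with
    | refl => exact Or.inl Relation.ReflTransGen.refl
    | @tail p q _ hs ih =>
      by_cases hqc : q = c
      · subst hqc
        exact Or.inl Relation.ReflTransGen.refl
      · by_cases hqb : q = b
        · exact Or.inr hqb
        · rcases ih with ih | rfl
          · exact Or.inl (ih.tail ⟨hs, hqb, hqc⟩)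
          · exact absurd (hF.uniq hs h) hqc
  obtain ⟨y, hy⟩ := hx
  rcases key x (hF.link he hy) with hk | hk
  · rcases Relation.ReflTransGen.cases_head hk with h' | ⟨e', ⟨h1, h2, h3⟩, hk⟩
    · exact absurd h'.symm hxc
    · have : e' = e := hF.uniq h1 he
      subst this
      refine Relation.ReflTransGen.mono (fun p q hpq => ?_) _ _ hk
      obtain ⟨g1, g2, g3⟩ := hpq
      exact ⟨hA q (hF.adj_symm ⟨p, hF.rot2 g1⟩) g2 g3, a, hF.rot g1⟩
  · exact absurd hk hxb

/-- (chunk A8) Removing the vertices of a face does not disconnect.  Let `N_a` be the set of neighbours of `a` other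
than `b, c`; it is connected inside the link of `a` (the link of `a` is the cycle `b → c → ... → b`; remove the two
consecutive vertices `b, c`); same for `N_b, N_c`.  The face on the other side of `ab` has third vertex
`d ∈ N_a ∩ N_b` (`d ≠ c` by `no_rev`); so `N_a ∪ N_b ∪ N_c` is connected.  Every other vertex is joined to
`a` in `F`; stop before the first visit to `{a,b,c}`. -/
theorem conn_minus_face (hF : IsSurf F) (h4 : 4 ≤ (vs F).card) {a b c : α} (h : (a, b, c) ∈ F) :
    ConnIn F ((vs F : Set α) \ {a, b, c}) := by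
  have h' := hF.rot h
  have h'' := hF.rot h'
  obtain ⟨ea, hea⟩ := hF.opp h''
  obtain ⟨eb, heb⟩ := hF.opp h
  obtain ⟨ec, hec⟩ := hF.opp h'
  -- `hea : (a, c, ea)`, `heb : (b, a, eb)`, `hec : (c, b, ec)`
  have n1 : ea ≠ b := fun hh => hF.no_rev h4 h'' (by rw [hh] at hea; exact hea)
  have n2 : eb ≠ c := fun hh => hF.no_rev h4 h (by rw [hh] at heb; exact heb)
  have n3 : ec ≠ a := fun hh => hF.no_rev h4 h' (by rw [hh] at hec; exact hec)
  have ab : a ≠ b := hF.ne h
  have bc : b ≠ c := hF.ne h'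
  have ca : c ≠ a := hF.ne h''
  set A : Set α := (vs F : Set α) \ {a, b, c} with hAdef
  have hA : ∀ x, x ∈ A ↔ x ∈ vs F ∧ x ≠ a ∧ x ≠ b ∧ x ≠ c := by
    intro x
    simp [hAdef]
  have hAa : ∀ x, Adj F a x → x ≠ b → x ≠ c → x ∈ A := fun x hx h1 h2 =>
    (hA x).2 ⟨hF.adj_mem_right hx, (hF.adj_ne hx).symm, h1, h2⟩
  have hAb : ∀ x, Adj F b x → x ≠ c → x ≠ a → x ∈ A := fun x hx h1 h2 =>
    (hA x).2 ⟨hF.adj_mem_right hx, h2, (hF.adj_ne hx).symm, h1⟩
  have hAc : ∀ x, Adj F c x → x ≠ a → x ≠ b → x ∈ A := fun x hx h1 h2 =>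
    (hA x).2 ⟨hF.adj_mem_right hx, h1, h2, (hF.adj_ne hx).symm⟩
  set J := Relation.ReflTransGen (fun p q => q ∈ A ∧ Adj F p q) with hJ
  have hsymm : ∀ x y, x ∈ A → J x y → J y x := by
    intro x y hx hxy
    have : y ∈ A ∧ J y x := by
      rw [hJ] at hxy ⊢
      induction hxy with
      | refl => exact ⟨hx, Relation.ReflTransGen.refl⟩
      | tail _ hs ih => exact ⟨hs.1, Relation.ReflTransGen.head ⟨ih.1, hF.adj_symm hs.2⟩ ih.2⟩
    exact this.2
  have Ra : ∀ x, Adj F a x → x ≠ b → x ≠ c → J ea x := fun x hx h1 h2 =>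
    A8_ring hF h hea hAa hx h1 h2
  have Rb : ∀ x, Adj F b x → x ≠ c → x ≠ a → J eb x := fun x hx h1 h2 =>
    A8_ring hF h' heb hAb hx h1 h2
  have Rc : ∀ x, Adj F c x → x ≠ a → x ≠ b → J ec x := fun x hx h1 h2 =>
    A8_ring hF h'' hec hAc hx h1 h2
  have aea : Adj F a ea := hF.adj_symm ⟨c, hF.rot2 hea⟩
  have cea : Adj F c ea := ⟨a, hF.rot hea⟩
  have beb : Adj F b eb := hF.adj_symm ⟨a, hF.rot2 heb⟩
  have aeb : Adj F a eb := ⟨b, hF.rot heb⟩
  have cec : Adj F c ec := hF.adj_symm ⟨b, hF.rot2 hec⟩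
  have eaA : ea ∈ A := hAa _ aea n1 (hF.adj_ne cea).symm
  have ebA : eb ∈ A := hAb _ beb n2 (hF.adj_ne aeb).symm
  have ecA : ec ∈ A := hAc _ cec n3 (hF.ne2 hec).symm
  have J1 : J ea eb := Ra eb aeb (hF.adj_ne beb).symm n2
  have J2 : J ec ea := Rc ea cea (hF.adj_ne aea).symm n1
  have hN : ∀ x, x ∈ A → (Adj F a x ∨ Adj F b x ∨ Adj F c x) → J ea x := by
    intro x hx hadj
    obtain ⟨-, k1, k2, k3⟩ := (hA x).1 hx
    rcases hadj with hadj | hadj | hadj
    · exact Ra x hadj k2 k3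
    · exact J1.trans (Rb x hadj k3 k1)
    · exact (hsymm _ _ ecA J2).trans (Rc x hadj k1 k2)
  have hall : ∀ x, x ∈ A → J ea x := by
    intro x hx
    have hxv : x ∈ vs F := ((hA x).1 hx).1
    have hc := hF.conn hxv (hF.vs1 h)
    have key : ∀ q, Relation.ReflTransGen (Adj F) x q →
        (J x q ∧ q ∈ A) ∨ ∃ n, n ∈ A ∧ (Adj F a n ∨ Adj F b n ∨ Adj F c n) ∧ J x n := by
      intro q hq
      induction hq with
      | refl => exact Or.inl ⟨Relation.ReflTransGen.refl, hx⟩
      | @tail p q _ hs ih =>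
        rcases ih with ⟨ih, hp⟩ | ih
        · by_cases hq : q ∈ A
          · exact Or.inl ⟨Relation.ReflTransGen.tail ih ⟨hq, hs⟩, hq⟩
          · have hqv : q ∈ vs F := hF.adj_mem_right hs
            have hq' : q = a ∨ q = b ∨ q = c := by
              by_contra hcon
              push Not at hcon
              exact hq ((hA q).2 ⟨hqv, hcon⟩)
            refine Or.inr ⟨p, hp, ?_, ih⟩
            rcases hq' with rfl | rfl | rfl
            · exact Or.inl (hF.adj_symm hs)
            · exact Or.inr (Or.inl (hF.adj_symm hs))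
            · exact Or.inr (Or.inr (hF.adj_symm hs))
        · exact Or.inr ih
    rcases key a hc with ⟨-, ha⟩ | ⟨n, hn, hadj, hJn⟩
    · exact absurd rfl ((hA a).1 ha).2.1
    · exact (hN n hn hadj).trans (hsymm _ _ hx hJn)
  intro x hx y hy
  exact (hsymm _ _ eaA (hall x hx)).trans (hall y hy)

end H19S
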