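import Pool.Agent.Lib.H19S.C0a

/-!
# H19S, chunk C0b: level sets of the potential
-/

namespace H19S

open Finset

variable {α : Type*} [DecidableEq α] {F : Finset (α × α × α)} {v u : α} {h g : α → ℝ}

/-- The steps inside a set `A`. -/
def C0b_step (F : Finset (α × α × α)) (A : Set α) (p q : α) : Prop := q ∈ A ∧ Adj F p q

omit [DecidableEq α] in
theorem C0b_mem {A : Set α} {x y : α} (hx : x ∈ A)
    (h : Relation.ReflTransGen (C0b_step F A) x y) : y ∈ A := by
  cases h with
  | refl => exact hx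
  | tail _ h => exact h.1

theorem C0b_rev (hF : IsSurf F) {A : Set α} {x y : α} (hx : x ∈ A)
    (h : Relation.ReflTransGen (C0b_step F A) x y) :
    Relation.ReflTransGen (C0b_step F A) y x := by
  induction h with
  | refl => exact Relation.ReflTransGen.refl
  | tail hab hbc ih =>
    exact Relation.ReflTransGen.head ⟨C0b_mem hx hab, hF.adj_symm hbc.2⟩ ih

/-- Descent: `h` superharmonic off `v`, `A` closed under going down. -/
theorem C0b_desc (hF : IsSurf F) (hv : v ∈ vs F)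
    (hsup : ∀ x ∈ vs F, x ≠ v → lap F h x ≤ 0) {A : Set α} (hA : ∀ x ∈ A, x ∈ vs F)
    (hdown : ∀ p ∈ A, ∀ q, Adj F p q → h q ≤ h p → q ∈ A) {x : α} (hx : x ∈ A) :
    Relation.ReflTransGen (C0b_step F A) x v := by
  classical
  by_contra hcon
  have hC : ∀ y, Relation.ReflTransGen (C0b_step F A) x y → y ∈ A := fun y hy => C0b_mem hx hy
  obtain ⟨y, hy, hmin⟩ := exists_min_image
    ((vs F).filter fun y => Relation.ReflTransGen (C0b_step F A) x y) h
    ⟨x, mem_filter.2 ⟨hA x hx, Relation.ReflTransGen.refl⟩⟩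
  obtain ⟨hyv, hyC⟩ := mem_filter.1 hy
  have hmin' : ∀ z, Relation.ReflTransGen (C0b_step F A) x z → h y ≤ h z := fun z hz =>
    hmin z (mem_filter.2 ⟨hA z (hC z hz), hz⟩)
  have key : ∀ z, Relation.ReflTransGen (Adj F) y z →
      Relation.ReflTransGen (C0b_step F A) x z ∧ h z = h y := by
    intro z hz
    induction hz with
    | refl => exact ⟨hyC, rfl⟩
    | @tail p q _ hpq ih =>
      obtain ⟨hpC, hp⟩ := ih
      have hpv : p ≠ v := by
        rintro rfl
        exact hcon hpC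
      have hl := hsup p (hA p (hC p hpC)) hpv
      have hnn : ∀ t ∈ F.filter (fun t => t.1 = p), 0 ≤ h t.2.1 - h p := by
        intro t ht
        obtain ⟨h1, h2⟩ := mem_filter.1 ht
        have hadj : Adj F p t.2.1 := ⟨t.2.2, by rw [← h2]; exact h1⟩
        by_cases hr : h t.2.1 ≤ h p
        · have h3 : Relation.ReflTransGen (C0b_step F A) x t.2.1 :=
            hpC.tail ⟨hdown p (hC p hpC) _ hadj hr, hadj⟩
          have := hmin' _ h3
          linarith
        · linarith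
      have hz : ∑ t ∈ F.filter (fun t => t.1 = p), (h t.2.1 - h p) = 0 :=
        le_antisymm hl (sum_nonneg hnn)
      rw [sum_eq_zero_iff_of_nonneg hnn] at hz
      obtain ⟨c, hc⟩ := hpq
      have h4 := hz (p, q, c) (mem_filter.2 ⟨hc, rfl⟩)
      simp only at h4
      have h5 : h q = h p := by linarith
      exact ⟨hpC.tail ⟨hdown p (hC p hpC) q ⟨c, hc⟩ h5.le, ⟨c, hc⟩⟩, h5.trans hp⟩
  exact hcon (key v (hF.conn hyv hv)).1

theorem C0b_conn (hF : IsSurf F) (hv : v ∈ vs F)
    (hsup : ∀ x ∈ vs F, x ≠ v → lap F h x ≤ 0) {A : Set α} (hA : ∀ x ∈ A, x ∈ vs F)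
    (hdown : ∀ p ∈ A, ∀ q, Adj F p q → h q ≤ h p → q ∈ A) : ConnIn F A := by
  intro x hx y hy
  exact (C0b_desc hF hv hsup hA hdown hx).trans
    (C0b_rev hF hy (C0b_desc hF hv hsup hA hdown hy))

theorem C0b_sup (hF : IsSurf F) (hv : v ∈ vs F) (hu : u ∈ vs F) (hvu : v ≠ u)
    (hh : IsPot F v u h) : ∀ x ∈ vs F, x ≠ v → lap F h x ≤ 0 := by
  intro x hx hxv
  by_cases hxu : x = u
  · rw [hxu, hh.snk hF hv hu hvu]; norm_num
  · rw [hh.harm x hx hxv hxu]

theorem C0b_lap_neg (h : α → ℝ) (x : α) : lap F (fun y => - h y) x = - lap F h x := by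
  unfold lap
  rw [← sum_neg_distrib]
  exact sum_congr rfl fun t _ => by ring

theorem C0b_sup' (hh : IsPot F v u h) :
    ∀ x ∈ vs F, x ≠ u → lap F (fun y => - h y) x ≤ 0 := by
  intro x hx hxu
  rw [C0b_lap_neg]
  by_cases hxv : x = v
  · rw [hxv, hh.src]; norm_num
  · rw [hh.harm x hx hxv hxu]; norm_num

/-- `h ≥ 0 = h v`: maximum principle (at a minimum other than `v`, all neighbours are minima; `u` is not a minimum since
`lap F h u = -1`, unless ...: at `u` the Laplacian is negative so `u` is not a minimum; spread to `v` by connectedness). -/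
theorem IsPot.nonneg (hF : IsSurf F) (hv : v ∈ vs F) (hu : u ∈ vs F) (hvu : v ≠ u)
    (hh : IsPot F v u h) {x : α} (hx : x ∈ vs F) : 0 ≤ h x := by
  have h1 := C0b_desc hF hv (C0b_sup hF hv hu hvu hh) (A := {y | y ∈ vs F ∧ h y ≤ h x})
    (fun y hy => hy.1) (fun p hp q hpq hq => ⟨hF.adj_mem_right hpq, hq.trans hp.2⟩)
    (x := x) ⟨hx, le_rfl⟩
  have h2 := (C0b_mem (A := {y | y ∈ vs F ∧ h y ≤ h x}) ⟨hx, le_rfl⟩ h1).2
  rw [hh.zero] at h2
  exact h2

theorem IsPot.le_top (hF : IsSurf F) (hv : v ∈ vs F) (hu : u ∈ vs F) (hvu : v ≠ u)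
    (hh : IsPot F v u h) {x : α} (hx : x ∈ vs F) : h x ≤ h u := by
  have h1 := C0b_desc hF hu (C0b_sup' hh) (A := {y | y ∈ vs F ∧ h x ≤ h y})
    (fun y hy => hy.1) (fun p hp q hpq hq => ⟨hF.adj_mem_right hpq, by
      have h3 := hp.2
      linarith⟩)
    (x := x) ⟨hx, le_rfl⟩
  exact (C0b_mem (A := {y | y ∈ vs F ∧ h x ≤ h y}) ⟨hx, le_rfl⟩ h1).2

/-- The current through a level is one: for `0 ≤ s < h u`, summing `lap F h x` over `h x ≤ s`, the terms of edges inside
the set cancel. -/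
theorem IsPot.level (hF : IsSurf F) (hv : v ∈ vs F) (hu : u ∈ vs F) (hvu : v ≠ u)
    (hh : IsPot F v u h) {s : ℝ} (h0 : 0 ≤ s) (h1 : s < h u) :
    ∑ t ∈ F.filter (fun t => h t.1 ≤ s ∧ s < h t.2.1), (h t.2.1 - h t.1) = 1 := by
  have e1 : ∑ x ∈ vs F, (if h x ≤ s then (1 : ℝ) else 0) * lap F h x = 1 := by
    rw [← add_sum_erase _ _ hv, hh.zero, if_pos h0, hh.src]
    rw [sum_eq_zero]
    · norm_num
    · intro x hx
      obtain ⟨h2, h3⟩ := mem_erase.1 hx
      by_cases hxu : x = u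
      · rw [hxu, if_neg (not_le.2 h1), zero_mul]
      · rw [hh.harm x h3 h2 hxu, mul_zero]
  rw [C0a_sum] at e1
  have e2 : ∑ t ∈ F, (if h t.1 ≤ s ∧ h t.2.1 ≤ s then h t.2.1 - h t.1 else 0) = 0 := by
    have h2 := hF.sum_rev fun a b => if h a ≤ s ∧ h b ≤ s then h b - h a else 0
    have h3 : ∑ t ∈ F, (if h t.2.1 ≤ s ∧ h t.1 ≤ s then h t.1 - h t.2.1 else 0) =
        - ∑ t ∈ F, (if h t.1 ≤ s ∧ h t.2.1 ≤ s then h t.2.1 - h t.1 else 0) := by
      rw [← sum_neg_distrib]
      refine sum_congr rfl fun t _ => ?_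
      by_cases h4 : h t.1 ≤ s <;> by_cases h5 : h t.2.1 ≤ s <;> simp [h4, h5]
    rw [h3] at h2
    linarith
  rw [sum_filter]
  have e3 : ∑ t ∈ F, (if h t.1 ≤ s then (1 : ℝ) else 0) * (h t.2.1 - h t.1) =
      ∑ t ∈ F, (if h t.1 ≤ s ∧ s < h t.2.1 then h t.2.1 - h t.1 else 0) +
      ∑ t ∈ F, (if h t.1 ≤ s ∧ h t.2.1 ≤ s then h t.2.1 - h t.1 else 0) := by
    rw [← sum_add_distrib]
    refine sum_congr rfl fun t _ => ?_
    by_cases h4 : h t.1 ≤ s
    · by_cases h5 : h t.2.1 ≤ s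
      · simp [h4, h5, not_lt.2 h5]
      · simp [h4, h5, not_le.1 h5]
    · simp [h4]
  rw [e3, e2, add_zero] at e1
  exact e1

theorem C0b_grad (hF : IsSurf F) (hv : v ∈ vs F) (hu : u ∈ vs F) (hvu : v ≠ u)
    (hh : IsPot F v u h) {a b : α} (hab : Adj F a b) (hlt : h a < h b) : h b - h a ≤ 1 := by
  have h1 := hh.level hF hv hu hvu (hh.nonneg hF hv hu hvu (Adj.mem_left hab))
    (hlt.trans_le (hh.le_top hF hv hu hvu (hF.adj_mem_right hab)))
  obtain ⟨c, hc⟩ := hab
  rw [← h1]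
  exact single_le_sum (f := fun t : α × α × α => h t.2.1 - h t.1) (fun t ht => by
    have := (mem_filter.1 ht).2
    linarith [this.1, this.2]) (mem_filter.2 ⟨hc, le_rfl, hlt⟩)

theorem IsPot.grad_le (hF : IsSurf F) (hv : v ∈ vs F) (hu : u ∈ vs F) (hvu : v ≠ u)
    (hh : IsPot F v u h) {a b : α} (hab : Adj F a b) : |h b - h a| ≤ 1 := by
  rcases lt_trichotomy (h a) (h b) with h1 | h1 | h1
  · rw [abs_of_pos (by linarith)]
    exact C0b_grad hF hv hu hvu hh hab h1
  · rw [h1, sub_self, abs_zero]; norm_num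
  · rw [abs_of_neg (by linarith)]
    have := C0b_grad hF hv hu hvu hh (hF.adj_symm hab) h1
    linarith

theorem thr_nonneg (x : α) : 0 ≤ thr F h x := by
  unfold thr
  have := sum_nonneg (s := F.filter fun t => t.1 = x) (f := fun t => |h t.2.1 - h x|)
    fun t _ => abs_nonneg _
  linarith

/-- At `x ≠ v, u` outflow = inflow = throughput. -/
theorem IsPot.outflow (hF : IsSurf F) (hh : IsPot F v u h) {x : α} (hx : x ∈ vs F) (hxv : x ≠ v)
    (hxu : x ≠ u) : ∑ t ∈ F.filter (fun t => t.1 = x), max 0 (h t.2.1 - h t.1) = thr F h x := by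
  have h1 := hh.harm x hx hxv hxu
  unfold lap at h1
  unfold thr
  have h2 : ∀ t ∈ F.filter (fun t => t.1 = x), max 0 (h t.2.1 - h t.1) =
      |h t.2.1 - h x| / 2 + (h t.2.1 - h x) / 2 := by
    intro t ht
    rw [(mem_filter.1 ht).2]
    rcases le_total 0 (h t.2.1 - h x) with h3 | h3
    · rw [max_eq_right h3, abs_of_nonneg h3]; ring
    · rw [max_eq_left h3, abs_of_nonpos h3]; ring
  rw [sum_congr rfl h2, sum_add_distrib, ← sum_div, ← sum_div, h1]
  ring

/-- The throughput is at most one: for `x ≠ u` with outflow, use the level `h x`: the edges from `x` upwards are among the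
edges of the level; `x ≠ v, u` has inflow = outflow; at `v` and `u` it is `1/2`. -/
theorem IsPot.thr_le (hF : IsSurf F) (hv : v ∈ vs F) (hu : u ∈ vs F) (hvu : v ≠ u)
    (hh : IsPot F v u h) {x : α} (hx : x ∈ vs F) : thr F h x ≤ 1 := by
  have hnb : ∀ t ∈ F.filter (fun t => t.1 = x), t.2.1 ∈ vs F := fun t ht =>
    hF.vs2 (a := t.1) (b := t.2.1) (c := t.2.2) (mem_filter.1 ht).1
  by_cases hxv : x = v
  · have h1 : thr F h x = lap F h v / 2 := by
      unfold thr lap
      rw [hxv]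
      congr 1
      refine sum_congr rfl fun t ht => abs_of_nonneg ?_
      rw [hh.zero, sub_zero]
      exact hh.nonneg hF hv hu hvu (hnb t (by rw [hxv]; exact ht))
    rw [h1, hh.src]; norm_num
  by_cases hxu : x = u
  · have h1 : thr F h x = - lap F h u / 2 := by
      unfold thr lap
      rw [hxu, ← sum_neg_distrib]
      congr 1
      refine sum_congr rfl fun t ht => abs_of_nonpos ?_
      have := hh.le_top hF hv hu hvu (hnb t (by rw [hxu]; exact ht))
      linarith
    rw [h1, hh.snk hF hv hu hvu]; norm_num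
  rw [← hh.outflow hF hx hxv hxu]
  by_cases hlt : h x < h u
  · have h1 := hh.level hF hv hu hvu (hh.nonneg hF hv hu hvu hx) hlt
    rw [← h1, sum_filter, sum_filter]
    refine sum_le_sum fun t ht => ?_
    by_cases h2 : t.1 = x
    · rw [if_pos h2]
      by_cases h3 : h x < h t.2.1
      · rw [if_pos ⟨by rw [h2], h3⟩, h2, max_eq_right (by linarith)]
      · rw [if_neg (fun h4 => h3 h4.2), h2, max_eq_left (by linarith)]
    · rw [if_neg h2]
      split_ifs with h3
      · linarith [h3.1, h3.2]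
      · exact le_rfl
  · rw [sum_eq_zero]
    · norm_num
    · intro t ht
      have h2 := hh.le_top hF hv hu hvu (hnb t ht)
      rw [(mem_filter.1 ht).2]
      exact max_eq_left (by linarith)

/-- Sublevel sets are connected: every vertex `x ≠ v` has a neighbour `y` with `h y < h x`
or all neighbours have the same value; descend to `v` (a connected component of `{h ≤ s}` not containing `v` would have a
minimum whose neighbours outside the component have larger values: take the set of minimisers, use harmonicity). -/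
theorem IsPot.conn_le (hF : IsSurf F) (hv : v ∈ vs F) (hu : u ∈ vs F) (hvu : v ≠ u)
    (hh : IsPot F v u h) (s : ℝ) : ConnIn F {x | x ∈ vs F ∧ h x ≤ s} :=
  C0b_conn hF hv (C0b_sup hF hv hu hvu hh) (fun _ hy => hy.1)
    (fun _ hp _ hpq hq => ⟨hF.adj_mem_right hpq, hq.trans hp.2⟩)

theorem IsPot.conn_lt (hF : IsSurf F) (hv : v ∈ vs F) (hu : u ∈ vs F) (hvu : v ≠ u)
    (hh : IsPot F v u h) (s : ℝ) : ConnIn F {x | x ∈ vs F ∧ h x < s} :=
  C0b_conn hF hv (C0b_sup hF hv hu hvu hh) (fun _ hy => hy.1)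
    (fun _ hp _ hpq hq => ⟨hF.adj_mem_right hpq, hq.trans_lt hp.2⟩)

theorem IsPot.conn_ge (hF : IsSurf F) (hv : v ∈ vs F) (hu : u ∈ vs F) (hvu : v ≠ u)
    (hh : IsPot F v u h) (s : ℝ) : ConnIn F {x | x ∈ vs F ∧ s ≤ h x} :=
  C0b_conn hF hu (C0b_sup' hh) (fun _ hy => hy.1)
    (fun _ hp _ hpq hq => ⟨hF.adj_mem_right hpq, by have := hp.2; linarith⟩)

theorem IsPot.conn_gt (hF : IsSurf F) (hv : v ∈ vs F) (hu : u ∈ vs F) (hvu : v ≠ u)
    (hh : IsPot F v u h) (s : ℝ) : ConnIn F {x | x ∈ vs F ∧ s < h x} :=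
  C0b_conn hF hu (C0b_sup' hh) (fun _ hy => hy.1)
    (fun _ hp _ hpq hq => ⟨hF.adj_mem_right hpq, by have := hp.2; linarith⟩)

/-- For every function `g`: `∑_{edges} ∇g ∇h = g u - g v`. -/
theorem IsPot.green (hF : IsSurf F) (hv : v ∈ vs F) (hu : u ∈ vs F) (hvu : v ≠ u)
    (hh : IsPot F v u h) (g : α → ℝ) :
    (∑ t ∈ F, (g t.2.1 - g t.1) * (h t.2.1 - h t.1)) / 2 = g u - g v := by
  rw [H19S.green hF g h, ← add_sum_erase _ _ hv,
    ← add_sum_erase _ _ (mem_erase.2 ⟨hvu.symm, hu⟩),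
    sum_eq_zero (s := ((vs F).erase v).erase u), hh.src, hh.snk hF hv hu hvu]
  · ring
  · intro x hx
    obtain ⟨h2, h3⟩ := mem_erase.1 hx
    obtain ⟨h4, h5⟩ := mem_erase.1 h3
    rw [hh.harm x h5 h4 h2, mul_zero]

theorem C0b_clamp {a b p q : ℝ} (hpq : p ≤ q) :
    0 ≤ max a (min b q) - max a (min b p) ∧
      max a (min b q) - max a (min b p) ≤ q - p := by
  constructor
  · have : max a (min b p) ≤ max a (min b q) := max_le_max_left a (min_le_min_left b hpq)
    linarith
  · have h1 : min b q ≤ min b p + (q - p) := by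
      rcases le_total b p with h | h
      · rw [min_eq_left h]
        have := min_le_left b q
        linarith
      · rw [min_eq_right h]
        have := min_le_right b q
        linarith
    have h2 : max a (min b q) ≤ max a (min b p) + (q - p) := by
      refine max_le ?_ ?_
      · have := le_max_left a (min b p)
        linarith
      · have := le_max_right a (min b p)
        linarith
    linarith

/-- Energy of a truncation (no assumption on `a ≤ b` except `a ≤ b`): `(∇g)^2 ≤ ∇g ∇h`, then `IsPot.green`, and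
`g u - g v ≤ b - a`. -/
theorem IsPot.energy_clamp (hF : IsSurf F) (hv : v ∈ vs F) (hu : u ∈ vs F) (hvu : v ≠ u)
    (hh : IsPot F v u h) {a b : ℝ} (hab : a ≤ b) :
    energy F (fun x => max a (min b (h x))) ≤ b - a := by
  have h1 := hh.green hF hv hu hvu (fun x => max a (min b (h x)))
  have h2 : energy F (fun x => max a (min b (h x))) ≤
      (∑ t ∈ F, (max a (min b (h t.2.1)) - max a (min b (h t.1))) * (h t.2.1 - h t.1)) / 2 := by
    unfold energy
    refine div_le_div_of_nonneg_right (sum_le_sum fun t _ => ?_) (by norm_num)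
    rcases le_total (h t.1) (h t.2.1) with h3 | h3
    · obtain ⟨h4, h5⟩ := C0b_clamp (a := a) (b := b) h3
      nlinarith
    · obtain ⟨h4, h5⟩ := C0b_clamp (a := a) (b := b) h3
      nlinarith
  rw [h1] at h2
  have h3 : max a (min b (h u)) ≤ b := max_le hab (min_le_left _ _)
  have h4 : a ≤ max a (min b (h v)) := le_max_left _ _
  linarith

/-- `i(x)^2 ≤ d_x/4 * a(x)`, Cauchy-Schwarz. -/
theorem thr_sq_le (x : α) :
    (thr F h x) ^ 2 ≤ (deg F x : ℝ) / 4 *
      ∑ t ∈ F.filter (fun t => t.1 = x), (h t.2.1 - h t.1) ^ 2 := by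
  have h1 := sq_sum_le_card_mul_sum_sq (s := F.filter fun t => t.1 = x)
    (f := fun t => |h t.2.1 - h x|)
  have h2 : ∑ t ∈ F.filter (fun t => t.1 = x), |h t.2.1 - h x| ^ 2 =
      ∑ t ∈ F.filter (fun t => t.1 = x), (h t.2.1 - h t.1) ^ 2 := by
    refine sum_congr rfl fun t ht => ?_
    rw [sq_abs, (mem_filter.1 ht).2]
  rw [h2] at h1
  unfold thr deg
  rw [div_pow]
  linarith

end H19S
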