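import Pool.Agent.Lib.H19S.Defs

/-!
# H19S, chunk F10: there are many good windows (sums of real numbers)
-/

namespace H19S

open Finset

theorem f10_count {M : ℕ} (hM : 1 ≤ M) (k : ℕ) (I : Finset ℕ) (hI : ∀ j ∈ I, 1 ≤ j) :
    (I.filter fun j => k ∈ Icc ((j - 1) * M) ((j + 4) * M)).card ≤ 6 := by
  have hsub : (I.filter fun j => k ∈ Icc ((j - 1) * M) ((j + 4) * M))
      ⊆ Icc (k / M - 4) (k / M + 1) := by
    intro j hj
    rw [mem_filter, mem_Icc] at hj
    obtain ⟨hjI, h1, h2⟩ := hj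
    have hj1 := hI j hjI
    have h3 : j - 1 ≤ k / M := (Nat.le_div_iff_mul_le hM).2 h1
    have h4 : k / M ≤ j + 4 := by
      calc k / M ≤ ((j + 4) * M) / M := Nat.div_le_div_right h2
        _ = j + 4 := Nat.mul_div_cancel _ hM
    rw [mem_Icc]
    omega
  refine (card_le_card hsub).trans ?_
  rw [Nat.card_Icc]
  omega

theorem f10_log {a b : ℕ} (ha : 1 ≤ a) (hab : a ≤ b) :
    Real.log b - Real.log a ≤ ∑ j ∈ Ico a b, (1 : ℝ) / j := by
  induction b, hab using Nat.le_induction with
  | base => simp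
  | succ b hb ih =>
    rw [sum_Ico_succ_top hb]
    have hb0 : (0 : ℝ) < b := by exact_mod_cast (lt_of_lt_of_le ha hb)
    have h1 : Real.log ((b + 1 : ℕ) : ℝ) - Real.log b ≤ 1 / b := by
      have h2 : ((b + 1 : ℕ) : ℝ) = b * (1 + 1 / b) := by
        push_cast
        field_simp
      rw [h2, Real.log_mul hb0.ne' (by positivity)]
      have h3 := Real.log_le_sub_one_of_pos (show (0 : ℝ) < 1 + 1 / b by positivity)
      linarith
    linarith

/-- `b k ≥ 0`, `∑_{k=1}^J b k / k ≤ B log J`.  `S j = ∑_{k = (j-1) M}^{(j+4) M} b k` for `j ≥ 2`.  Then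
`∑_{j=2}^{J1} S j / j ≤ 30 M ∑_k b k / k ≤ 30 M B log J` if `(J1+4) M ≤ J` (each `k` is in at most `6` windows, and
`1/j ≤ 5M/k`), so the sum of `1/j` over the `j ≤ J1` with `S j > Λ0 := 120 M B` is at most `(log J)/4`; with
`J1 = J/M - 4` (natural division) the sum of `1/j` over `j0 ≤ j ≤ J1` is `≥ log J1 - log j0 - 1 ≥ (log J)/2` for large `J`. -/
theorem many_good {M j0 : ℕ} (hM : 1 ≤ M) (hj0 : 2 ≤ j0) {B : ℝ} (hB : 0 < B) :
    ∃ J0 : ℕ, ∀ J : ℕ, J0 ≤ J → ∀ b : ℕ → ℝ, (∀ k, 0 ≤ b k) →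
      ∑ k ∈ Icc 1 J, b k / k ≤ B * Real.log J →
      Real.log J / 4 ≤
        ∑ j ∈ (Icc j0 (J / M - 4)).filter (fun j => ∑ k ∈ Icc ((j - 1) * M) ((j + 4) * M), b k ≤
          120 * M * B), (1 : ℝ) / j := by
  refine ⟨(2 * M * j0) ^ 2 + 8 * M, fun J hJ b hb hsum => ?_⟩
  have hM0 : (0 : ℝ) < M := by exact_mod_cast hM
  have hj00 : (0 : ℝ) < j0 := by
    have : 0 < j0 := by omega
    exact_mod_cast this
  have hMj : 2 * M * j0 ≤ J := by
    have h1 : 2 * M * j0 ≤ (2 * M * j0) ^ 2 := by
      rw [sq]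
      exact Nat.le_mul_of_pos_left _ (by positivity)
    omega
  have h8 : 8 * M ≤ J := by omega
  have hJpos : 0 < J := by
    have : 0 < 8 * M := by omega
    omega
  have hJ0 : (0 : ℝ) < J := by exact_mod_cast hJpos
  set J1 := J / M - 4 with hJ1
  have hdiv : J / M * M ≤ J := Nat.div_mul_le_self J M
  have hdiv8 : 8 ≤ J / M := (Nat.le_div_iff_mul_le hM).2 (by omega)
  set I := Icc j0 J1 with hI
  have hIj : ∀ j ∈ I, 2 ≤ j ∧ (j + 4) * M ≤ J := by
    intro j hj
    rw [hI, mem_Icc] at hj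
    refine ⟨by omega, ?_⟩
    have h1 : j + 4 ≤ J / M := by omega
    exact (Nat.mul_le_mul_right M h1).trans hdiv
  -- total sum
  have hJ1big : (J : ℝ) / (2 * M) ≤ ((J1 + 1 : ℕ) : ℝ) := by
    have h1 : J1 + 1 = J / M - 3 := by omega
    have h2 : (J : ℝ) / M - 1 ≤ ((J / M : ℕ) : ℝ) := by
      have h3 : J < (J / M + 1) * M := by
        have := Nat.lt_div_mul_add (a := J) (b := M) hM
        nlinarith
      have h4 : (J : ℝ) < ((J / M : ℕ) + 1) * M := by exact_mod_cast h3
      rw [sub_le_iff_le_add, div_le_iff₀ hM0]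
      exact h4.le
    have h5 : ((J1 + 1 : ℕ) : ℝ) = ((J / M : ℕ) : ℝ) - 3 := by
      rw [h1, Nat.cast_sub (by omega)]
      norm_num
    rw [h5]
    have h6 : (8 : ℝ) ≤ J / M := by
      rw [le_div_iff₀ hM0]
      exact_mod_cast h8
    have h7 : (J : ℝ) / (2 * M) = (J / M) / 2 := by ring
    rw [h7]
    linarith
  have hj0J1 : j0 ≤ J1 + 1 := by
    have h1 : (j0 : ℝ) ≤ (J : ℝ) / (2 * M) := by
      rw [le_div_iff₀ (by positivity)]
      have : ((2 * M * j0 : ℕ) : ℝ) ≤ J := by exact_mod_cast hMj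
      push_cast at this
      linarith
    exact_mod_cast h1.trans hJ1big
  have htot : Real.log J / 2 ≤ ∑ j ∈ I, (1 : ℝ) / j := by
    have h1 : I = Ico j0 (J1 + 1) := by
      rw [hI]
      ext j
      simp only [mem_Icc, mem_Ico]
      omega
    rw [h1]
    refine le_trans ?_ (f10_log (by omega) hj0J1)
    have h2 : Real.log (J / (2 * M)) ≤ Real.log ((J1 + 1 : ℕ) : ℝ) :=
      Real.log_le_log (by positivity) hJ1big
    rw [Real.log_div hJ0.ne' (by positivity)] at h2
    have h3 : Real.log (2 * M) + Real.log j0 ≤ Real.log J / 2 := by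
      rw [← Real.log_mul (by positivity) hj00.ne']
      have h4 : ((2 * M * j0) ^ 2 : ℝ) ≤ J := by
        have h5 : (2 * M * j0) ^ 2 ≤ J := by omega
        exact_mod_cast h5
      have h5 := Real.log_le_log (by positivity) h4
      rw [Real.log_pow] at h5
      push_cast at h5
      linarith
    linarith
  -- weighted sum
  have hw : ∑ j ∈ I, (1 : ℝ) / j * ∑ k ∈ Icc ((j - 1) * M) ((j + 4) * M), b k
      ≤ 18 * M * (B * Real.log J) := by
    calc ∑ j ∈ I, (1 : ℝ) / j * ∑ k ∈ Icc ((j - 1) * M) ((j + 4) * M), b k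
        = ∑ j ∈ I, ∑ k ∈ Icc 1 J,
            (if k ∈ Icc ((j - 1) * M) ((j + 4) * M) then (1 : ℝ) / j * b k else 0) := by
          apply sum_congr rfl
          intro j hj
          obtain ⟨hj2, hjJ⟩ := hIj j hj
          rw [mul_sum, ← sum_filter]
          apply sum_congr _ (fun _ _ => rfl)
          ext k
          simp only [mem_filter, mem_Icc]
          constructor
          · rintro ⟨h1, h2⟩
            have h3 : 1 ≤ (j - 1) * M := Nat.mul_pos (by omega) hM
            exact ⟨⟨h3.trans h1, h2.trans hjJ⟩, h1, h2⟩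
          · rintro ⟨_, h⟩
            exact h
      _ ≤ ∑ j ∈ I, ∑ k ∈ Icc 1 J,
            (if k ∈ Icc ((j - 1) * M) ((j + 4) * M) then 3 * M * (b k / k) else 0) := by
          apply sum_le_sum
          intro j hj
          apply sum_le_sum
          intro k hk
          obtain ⟨hj2, hjJ⟩ := hIj j hj
          split_ifs with hkw
          · rw [mem_Icc] at hk hkw
            have hk0 : (0 : ℝ) < k := by exact_mod_cast hk.1
            have hjp : (0 : ℝ) < j := by
              have : 0 < j := by omega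
              exact_mod_cast this
            have h1 : (k : ℝ) ≤ 3 * M * j := by
              have h2 : k ≤ 3 * M * j := by
                calc k ≤ (j + 4) * M := hkw.2
                  _ ≤ (3 * j) * M := Nat.mul_le_mul_right M (by omega)
                  _ = 3 * M * j := by ring
              exact_mod_cast h2
            have h3 : (1 : ℝ) / j ≤ 3 * M / k := by
              rw [div_le_div_iff₀ hjp hk0]
              linarith
            calc (1 : ℝ) / j * b k ≤ 3 * M / k * b k := mul_le_mul_of_nonneg_right h3 (hb k)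
              _ = 3 * M * (b k / k) := by ring
          · exact le_refl _
      _ = ∑ k ∈ Icc 1 J, ∑ j ∈ I,
            (if k ∈ Icc ((j - 1) * M) ((j + 4) * M) then 3 * M * (b k / k) else 0) := sum_comm
      _ ≤ ∑ k ∈ Icc 1 J, 18 * M * (b k / k) := by
          apply sum_le_sum
          intro k hk
          rw [← sum_filter, sum_const, nsmul_eq_mul]
          have h1 := f10_count hM k I (fun j hj => by have := (hIj j hj).1; omega)
          have h2 : (((I.filter fun j => k ∈ Icc ((j - 1) * M) ((j + 4) * M)).card : ℕ) : ℝ) ≤ 6 := by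
            exact_mod_cast h1
          have h3 : 0 ≤ 3 * M * (b k / k) := by
            have := hb k
            positivity
          calc _ ≤ 6 * (3 * M * (b k / k)) := mul_le_mul_of_nonneg_right h2 h3
            _ = 18 * M * (b k / k) := by ring
      _ = 18 * M * ∑ k ∈ Icc 1 J, b k / k := by rw [mul_sum]
      _ ≤ 18 * M * (B * Real.log J) := mul_le_mul_of_nonneg_left hsum (by positivity)
  -- bad windows
  have hJ1' : (1 : ℝ) ≤ J := by exact_mod_cast hJpos
  have hlogJ : 0 ≤ Real.log J := Real.log_nonneg hJ1'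
  set p : ℕ → Prop := fun j => ∑ k ∈ Icc ((j - 1) * M) ((j + 4) * M), b k ≤ 120 * M * B with hp
  have hsplit : ∑ j ∈ I, (1 : ℝ) / j = ∑ j ∈ I.filter p, (1 : ℝ) / j
      + ∑ j ∈ I.filter (fun j => ¬ p j), (1 : ℝ) / j := (sum_filter_add_sum_filter_not I p _).symm
  have hbad : 120 * M * B * ∑ j ∈ I.filter (fun j => ¬ p j), (1 : ℝ) / j
      ≤ 18 * M * (B * Real.log J) := by
    refine le_trans ?_ hw
    rw [mul_sum]
    calc ∑ j ∈ I.filter (fun j => ¬ p j), 120 * M * B * ((1 : ℝ) / j)
        ≤ ∑ j ∈ I.filter (fun j => ¬ p j),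
          (1 : ℝ) / j * ∑ k ∈ Icc ((j - 1) * M) ((j + 4) * M), b k := by
          apply sum_le_sum
          intro j hj
          rw [mem_filter] at hj
          have h1 : 120 * M * B ≤ ∑ k ∈ Icc ((j - 1) * M) ((j + 4) * M), b k :=
            (not_le.1 hj.2).le
          have h2 : (0 : ℝ) ≤ 1 / j := by positivity
          calc 120 * M * B * ((1 : ℝ) / j) = 1 / j * (120 * M * B) := by ring
            _ ≤ _ := mul_le_mul_of_nonneg_left h1 h2
      _ ≤ _ := by
          apply sum_le_sum_of_subset_of_nonneg (filter_subset _ _)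
          intro j _ _
          have h2 : (0 : ℝ) ≤ 1 / j := by positivity
          exact mul_nonneg h2 (sum_nonneg fun k _ => hb k)
  have hMB : 0 < M * B := mul_pos hM0 hB
  have hbad2 : ∑ j ∈ I.filter (fun j => ¬ p j), (1 : ℝ) / j ≤ Real.log J / 4 := by
    have h1 : (M * B) * (120 * ∑ j ∈ I.filter (fun j => ¬ p j), (1 : ℝ) / j)
        ≤ (M * B) * (18 * Real.log J) := by
      calc _ = 120 * M * B * ∑ j ∈ I.filter (fun j => ¬ p j), (1 : ℝ) / j := by ring
        _ ≤ 18 * M * (B * Real.log J) := hbad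
        _ = _ := by ring
    have h2 := le_of_mul_le_mul_left h1 hMB
    linarith
  have : Real.log J / 4 ≤ ∑ j ∈ I.filter p, (1 : ℝ) / j := by linarith
  exact this

end H19S
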