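import Pool.Agent.Lib.H19S.DDefs

/-!
# H19S, Part D, chunk D-COMP: concatenation of families of walks

PROOF. `wt_append`: if `q.head? = p.getLast?`, `p ≠ []` (so `q = y :: q'` with `y` the last element of `p`) then
`wt N (p ++ q.tail) = wt N p * wt N q` (induction on `p`).
`comp_prefixFree`: let `p ++ q.tail <+: p' ++ q'.tail`. Then `p` and `p'` are both prefixes of the same
list, so one of them is a prefix of the other (`List.prefix_or_prefix_of_prefix`), so `p = p'` (`hG`);
then `q.tail <+: q'.tail`, and both have the same head, so `q <+: q'`, so `q = q'`.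
`W_comp_ge`: the same argument shows that `(p, q) ↦ p ++ q.tail` is injective on pairs `p ∈ G`, `q ∈ H p`; so
`W N (comp G H) = ∑'_{p ∈ G} ∑'_{q ∈ H p} wt p * wt q = ∑'_{p ∈ G} wt p * W N (H p) ≥ c * W N G`
(`ENNReal.tsum_comp_le_tsum_of_injective` applied to the subtype of pairs, `ENNReal.tsum_sigma`,
`ENNReal.tsum_mul_left`, `tsum_subtype`).
-/

namespace H19S.PD

open Finset
open scoped ENNReal

variable {β : Type*} [DecidableEq β]

theorem wt_append (N : β → Finset β) {p q : List β} (hp : p ≠ []) (hq : q ≠ [])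
    (h : q.head? = p.getLast?) : wt N (p ++ q.tail) = wt N p * wt N q := by
  induction p with
  | nil => exact absurd rfl hp
  | cons a l ih =>
    cases l with
    | nil =>
      cases q with
      | nil => exact absurd rfl hq
      | cons b m =>
        simp only [List.head?_cons, List.getLast?_singleton, Option.some.injEq] at h
        subst h
        simp [wt]
    | cons b l =>
      have h1 : (b :: l : List β) ≠ [] := List.cons_ne_nil _ _
      have h2 : q.head? = (b :: l).getLast? := by
        rw [h, List.getLast?_cons_cons]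
      have h3 := ih h1 h2
      have h4 : wt N (a :: b :: l ++ q.tail) =
          (if b ∈ N a then ((N a).card : ℝ≥0∞)⁻¹ else 0) * wt N (b :: l ++ q.tail) := by
        simp only [List.cons_append, wt]
      rw [h4, h3, ← mul_assoc]
      simp only [wt]

theorem DC_eq {G : Set (List β)} {H : List β → Set (List β)} (hG : PrefixFree G)
    (hH : ∀ p ∈ G, PrefixFree (H p))
    (hh : ∀ p ∈ G, ∀ q ∈ H p, q ≠ [] ∧ q.head? = p.getLast?) {p q p' q' : List β}
    (hp : p ∈ G) (hq : q ∈ H p) (hp' : p' ∈ G) (hq' : q' ∈ H p')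
    (h : p ++ q.tail <+: p' ++ q'.tail) : p = p' ∧ q = q' := by
  have h1 : p <+: p' ++ q'.tail := (List.prefix_append p q.tail).trans h
  have h2 : p' <+: p' ++ q'.tail := List.prefix_append p' q'.tail
  have h3 : p = p' := by
    rcases List.prefix_or_prefix_of_prefix h1 h2 with h3 | h3
    · exact hG p hp p' hp' h3
    · exact (hG p' hp' p hp h3).symm
  subst h3
  refine ⟨rfl, hH p hp q hq q' hq' ?_⟩
  have h4 : q.tail <+: q'.tail := (List.prefix_append_right_inj p).1 h
  obtain ⟨n1, e1⟩ := hh p hp q hq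
  obtain ⟨n2, e2⟩ := hh p hp q' hq'
  cases q with
  | nil => exact absurd rfl n1
  | cons a l =>
    cases q' with
    | nil => exact absurd rfl n2
    | cons b m =>
      rw [← e1] at e2
      simp only [List.head?_cons, Option.some.injEq] at e2
      subst e2
      exact (List.prefix_cons_inj _).2 h4

theorem comp_prefixFree {G : Set (List β)} {H : List β → Set (List β)} (hG : PrefixFree G)
    (hH : ∀ p ∈ G, PrefixFree (H p)) (hne : ∀ p ∈ G, p ≠ [])
    (hh : ∀ p ∈ G, ∀ q ∈ H p, q ≠ [] ∧ q.head? = p.getLast?) : PrefixFree (comp G H) := by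
  rintro r ⟨p, hp, q, hq, rfl⟩ r' ⟨p', hp', q', hq', rfl⟩ h
  obtain ⟨rfl, rfl⟩ := DC_eq hG hH hh hp hq hp' hq' h
  rfl

/-- D-COMP. -/
theorem W_comp_ge (N : β → Finset β) {G : Set (List β)} {H : List β → Set (List β)}
    (hG : PrefixFree G) (hH : ∀ p ∈ G, PrefixFree (H p)) (hne : ∀ p ∈ G, p ≠ [])
    (hh : ∀ p ∈ G, ∀ q ∈ H p, q ≠ [] ∧ q.head? = p.getLast?) (c : ℝ≥0∞)
    (hc : ∀ p ∈ G, c ≤ W N (H p)) : W N G * c ≤ W N (comp G H) := by
  classical
  have h0 : W N G * c ≤ ∑' p : List β, ∑' q : List β,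
      Set.indicator {pq : List β × List β | pq.1 ∈ G ∧ pq.2 ∈ H pq.1}
        (fun pq => wt N pq.1 * wt N pq.2) (p, q) := by
    unfold W
    rw [← ENNReal.tsum_mul_right]
    refine ENNReal.tsum_le_tsum fun p => ?_
    by_cases hp : p ∈ G
    · rw [if_pos hp]
      have h1 : ∀ q : List β,
          Set.indicator {pq : List β × List β | pq.1 ∈ G ∧ pq.2 ∈ H pq.1}
            (fun pq => wt N pq.1 * wt N pq.2) (p, q) =
          wt N p * (if q ∈ H p then wt N q else 0) := by
        intro q
        by_cases hq : q ∈ H p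
        · rw [if_pos hq, Set.indicator_of_mem]
          exact ⟨hp, hq⟩
        · rw [if_neg hq, mul_zero, Set.indicator_of_notMem]
          exact fun h => hq h.2
      simp_rw [h1]
      rw [ENNReal.tsum_mul_left]
      refine mul_le_mul_right ?_ _
      refine le_trans (hc p hp) (le_of_eq ?_)
      unfold W
      refine tsum_congr fun q => ?_
      by_cases hq : q ∈ H p
      · rw [if_pos hq]
      · rw [if_neg hq]
    · rw [if_neg hp, zero_mul]
      exact zero_le
  refine le_trans h0 ?_
  rw [← ENNReal.tsum_prod (f := fun p q =>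
    Set.indicator {pq : List β × List β | pq.1 ∈ G ∧ pq.2 ∈ H pq.1}
        (fun pq => wt N pq.1 * wt N pq.2) (p, q))]
  have h2 : (∑' pq : List β × List β,
      Set.indicator {pq : List β × List β | pq.1 ∈ G ∧ pq.2 ∈ H pq.1}
        (fun pq => wt N pq.1 * wt N pq.2) (pq.1, pq.2)) =
      ∑' x : {pq : List β × List β | pq.1 ∈ G ∧ pq.2 ∈ H pq.1},
        (fun pq : List β × List β => wt N pq.1 * wt N pq.2) x := by
    rw [tsum_subtype {pq : List β × List β | pq.1 ∈ G ∧ pq.2 ∈ H pq.1}
      (fun pq : List β × List β => wt N pq.1 * wt N pq.2)]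
  rw [h2]
  have hinj : Function.Injective
      (fun x : {pq : List β × List β | pq.1 ∈ G ∧ pq.2 ∈ H pq.1} =>
        x.1.1 ++ x.1.2.tail) := by
    rintro ⟨⟨p, q⟩, hp, hq⟩ ⟨⟨p', q'⟩, hp', hq'⟩ h
    obtain ⟨h3, h4⟩ := DC_eq hG hH hh hp hq hp' hq' ⟨[], by
      rw [List.append_nil]; exact h⟩
    simp only at h3 h4
    subst h3 h4
    rfl
  refine le_trans (le_of_eq ?_) (ENNReal.tsum_comp_le_tsum_of_injective hinj
    (fun r => if r ∈ comp G H then wt N r else 0))
  · refine tsum_congr ?_
    rintro ⟨⟨p, q⟩, hp, hq⟩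
    have h5 : p ++ q.tail ∈ comp G H := ⟨p, hp, q, hq, rfl⟩
    simp only
    rw [if_pos h5, wt_append N (hne p hp) (hh p hp q hq).1 (hh p hp q hq).2]

end H19S.PD
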