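import Pool.Agent.Lib.H19S.DWalk
import Pool.Agent.Lib.H19S.DComp

/-!
# H19S, Part D, chunk D-PRE: domination of prefix-free families (used by Part F)

PROOF. Choose for every `q ∈ H` a prefix `p = P q ∈ G`, `q = p ++ r`. For fixed `p` the lists `last p :: r`, `q ∈ H`,
`P q = p`, form a prefix-free family with head `last p`, so their total weight is `≤ 1` (`W_le_one`), and
`wt N q = wt N p * wt N (last p :: r)` (`wt_append`). Sum over `p ∈ G` (`ENNReal.tsum_sigma`-type rearrangement; e.g.
`∑'_q = ∑'_p ∑'_{q} [P q = p] ...` by `ENNReal.tsum_comm`).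
-/

namespace H19S.PD

open Finset
open scoped ENNReal

variable {β : Type*} [DecidableEq β]

theorem dpre_W_eq (N : β → Finset β) (G : Set (List β)) : W N G = ∑' p : G, wt N p := by
  rw [tsum_subtype G (wt N), W]
  apply tsum_congr
  intro p
  by_cases hp : p ∈ G
  · simp [hp]
  · simp [hp]

/-- D-PRE. -/
theorem W_le_of_prefix (N : β → Finset β) {G H : Set (List β)} (hH : PrefixFree H)
    (h : ∀ q ∈ H, ∃ p ∈ G, p ≠ [] ∧ p <+: q) : W N H ≤ W N G := by
  classical
  choose! P hP using h
  set g : H → G := fun q => ⟨P q, (hP q q.2).1⟩ with hg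
  rw [dpre_W_eq, dpre_W_eq, ← ENNReal.tsum_fiberwise (fun q : H => wt N (q : List β)) g]
  apply ENNReal.tsum_le_tsum
  intro p
  rcases isEmpty_or_nonempty (g ⁻¹' {p}) with he | ⟨⟨b0, hb0⟩⟩
  · simp
  have hpne : (p : List β) ≠ [] := by
    have := (hP b0 b0.2).2.1
    have e : g b0 = p := hb0
    rw [← e]
    exact this
  obtain ⟨z, hz⟩ : ∃ z, (p : List β).getLast? = some z :=
    ⟨_, List.getLast?_eq_getLast_of_ne_nil hpne⟩
  set sfun : (g ⁻¹' {p}) → List β := fun b => z :: ((b : H) : List β).drop (p : List β).length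
    with hs
  have hdec : ∀ b : (g ⁻¹' {p}), ((b : H) : List β) = (p : List β) ++ (sfun b).tail := by
    intro b
    have h1 := (hP (b : H) (b : H).2).2.2
    have e : g (b : H) = p := b.2
    have e2 : P ((b : H) : List β) = p := congrArg Subtype.val e
    rw [e2] at h1
    obtain ⟨r, hr⟩ := h1
    simp only [hs, List.tail_cons]
    rw [← hr, List.drop_left]
  have hw : ∀ b : (g ⁻¹' {p}), wt N ((b : H) : List β) = wt N p * wt N (sfun b) := by
    intro b
    rw [hdec b]
    exact wt_append N hpne (by simp [hs]) (by simp [hs, hz])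
  calc ∑' b : (g ⁻¹' {p}), wt N ((b : H) : List β)
      = ∑' b : (g ⁻¹' {p}), wt N p * wt N (sfun b) := tsum_congr hw
    _ = wt N p * ∑' b : (g ⁻¹' {p}), wt N (sfun b) := ENNReal.tsum_mul_left
    _ ≤ wt N p * 1 := by
        gcongr
        have hinj : Function.Injective (fun b => (⟨sfun b, b, rfl⟩ : Set.range sfun)) := by
          intro b b' hbb
          have h1 : sfun b = sfun b' := congrArg Subtype.val hbb
          apply Subtype.ext
          apply Subtype.ext
          rw [hdec b, hdec b', h1]
        have h2 := ENNReal.tsum_comp_le_tsum_of_injective hinj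
          (fun s : Set.range sfun => wt N (s : List β))
        refine le_trans h2 ?_
        rw [← dpre_W_eq]
        apply W_le_one N _ z
        · rintro _ ⟨b, rfl⟩
          simp [hs]
        · rintro _ ⟨b, rfl⟩ _ ⟨b', rfl⟩ hpre
          have hq : ((b : H) : List β) <+: ((b' : H) : List β) := by
            rw [hdec b, hdec b', List.prefix_append_right_inj]
            obtain ⟨t, ht⟩ := hpre
            refine ⟨t, ?_⟩
            have h3 := congrArg List.tail ht
            simpa [hs] using h3
          have := hH _ (b : H).2 _ (b' : H).2 hq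
          have e : b = b' := Subtype.ext (Subtype.ext this)
          rw [e]
    _ = wt N p := mul_one _

end H19S.PD
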