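import Pool.Agent.Lib.H19S.F8
import Pool.Agent.Lib.H19S.DPre

/-!
# H19S, chunk F11a: the contribution of one good window
-/

namespace H19S

open Finset
open scoped ENNReal

/-- Combine `window` (with `t0 = j M`; the sum of the bands over the window is at most the sum over
`[(j-1) M, (j+4) M]`, since `CA ≤ M`, `41 + CA ≤ 2M`), the family `H` of walks of the window (`hW`, from `walkfam`), `goodStop_prefix` and
`PD.W_le_of_prefix`: `W (GoodStop) ≥ W H ≥ cw / (j M)`. -/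
theorem per_window {F : Finset (ℕ × ℕ × ℕ)} {c : ℕ → S2} {r : ℕ → ℝ} {a A rN r0 c0 δz c1 : ℝ}
    (hG : Geo F c r a A rN r0 c0 δz c1) {R κ Λ η η' Λ0 cw : ℝ} {M j : ℕ} (hR : 1 ≤ R)
    (hRA : 2 * A ≤ a * R ^ 2) (hj : 1 ≤ j) (hM : CA * R ^ 2 + CA + 40 ≤ M)
    (hκ : 1 ≤ κ * ((M : ℝ) - 38))
    (htop : (j : ℝ) * M + 2 * M + 40 + CA ≤ pot F 0 1 2) (hH : 2 < pot F 0 1 1 - pot F 0 1 2)
    (hS : ∑ k ∈ Icc ((j - 1) * M) ((j + 4) * M), band F (k : ℤ) ≤ Λ0)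
    (hN : rN ≤ dd F c ((j : ℝ) * M + 2 * M + 40 + CA))
    (hη : η = a / A * Real.exp (-(2 * (CB * (4 + Λ0)))))
    (hΛ : A / a * Real.exp (2 * (CB * (4 + Λ0))) ≤ Λ)
    (hη' : η' * (vs F).card ≤ ((vs F).filter fun x => dep F x ≤ -2).card)
    (hW : ∀ t0 : ℝ, 1 ≤ t0 → t0 + 2 * M + 40 ≤ pot F 0 1 2 → ∃ H : Set (List ℕ), PrefixFree H ∧
      (∀ π ∈ H, WinWalk F t0 M π) ∧ ENNReal.ofReal (cw / t0) ≤ W (nbr F) H) :
    ∃ k : ℕ, (cnt F ((j : ℝ) * M + 2 * M) : ℝ) ≤ (vs F).card / 2 ^ k ∧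
      ((vs F).card : ℝ) / 2 ^ k < cnt F ((j : ℝ) * M + M + 39) ∧
      a * (dd F c ((j : ℝ) * M + 2 * M + 40 + CA)) ^ 2 ≤ 1 / 2 ^ k ∧
      1 / 2 ^ k ≤ A * (dd F c ((j : ℝ) * M + 38)) ^ 2 ∧
      ENNReal.ofReal (cw / (j * M)) ≤ W (nbr F) (GoodStop F ((vs F).card / 2 ^ k) η η' Λ κ) := by
  have hCA := one_le_CA
  have hR2 : 1 ≤ R ^ 2 := by nlinarith
  have hCR : 1 ≤ CA * R ^ 2 := by nlinarith
  have hj0 : (1 : ℝ) ≤ j := by exact_mod_cast hj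
  have hMR : (42 : ℝ) ≤ M := by linarith
  have hjM : (M : ℝ) ≤ (j : ℝ) * M := by nlinarith
  have hband : ∑ k ∈ Icc ⌊(j : ℝ) * M - CA⌋ ⌊(j : ℝ) * M + 2 * M + 41 + CA⌋, band F k ≤ Λ0 := by
    refine le_trans ?_ hS
    have himg : ∑ k ∈ Icc ((j - 1) * M) ((j + 4) * M), band F (k : ℤ)
        = ∑ k ∈ (Icc ((j - 1) * M) ((j + 4) * M)).image (fun k : ℕ => (k : ℤ)), band F k := by
      rw [sum_image]
      intro x _ y _ hxy
      exact Int.ofNat.inj hxy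
    rw [himg]
    apply sum_le_sum_of_subset_of_nonneg _ (fun k _ _ => band_nonneg F k)
    intro k hk
    rw [mem_Icc] at hk
    have hlo : (((j - 1) * M : ℕ) : ℤ) ≤ k := by
      refine le_trans ?_ hk.1
      rw [Int.le_floor]
      push_cast [Nat.cast_sub hj]
      nlinarith
    have hhi : k ≤ (((j + 4) * M : ℕ) : ℤ) := by
      refine le_trans hk.2 ?_
      have h1 : ⌊(j : ℝ) * M + 2 * M + 41 + CA⌋ ≤ ⌊((((j + 4) * M : ℕ) : ℤ) : ℝ)⌋ := by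
        apply Int.floor_le_floor
        push_cast
        nlinarith
      rwa [Int.floor_intCast] at h1
    have hk0 : 0 ≤ k := le_trans (by positivity) hlo
    rw [mem_image]
    refine ⟨k.toNat, ?_, Int.toNat_of_nonneg hk0⟩
    rw [mem_Icc]
    omega
  obtain ⟨k, w1, w2, w3, w4, w5, w6⟩ := window hG (by linarith) (t0 := (j : ℝ) * M) (M := (M : ℝ))
    hR hRA (by linarith) (by linarith) htop hband hN
  refine ⟨k, w1, w2, w5, w6, ?_⟩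
  have hμ : 0 ≤ ((vs F).card : ℝ) / 2 ^ k := by positivity
  obtain ⟨H, hH1, hH2, hH3⟩ := hW ((j : ℝ) * M) (by linarith) (by linarith)
  refine hH3.trans (PD.W_le_of_prefix (nbr F) hH1 ?_)
  intro q hq
  have k3 : η * (((vs F).card : ℝ) / 2 ^ k) ≤ cnt F ((j : ℝ) * M + 2 * M + 39) := by
    rw [hη]
    exact w3
  have k4 : (cnt F ((j : ℝ) * M + 38) : ℝ) ≤ Λ * (((vs F).card : ℝ) / 2 ^ k) :=
    w4.trans (mul_le_mul_of_nonneg_right hΛ hμ)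
  obtain ⟨π', hπ', hpre⟩ := goodStop_prefix hG.tri hG.m0 hG.m1 (t0 := (j : ℝ) * M) (M := (M : ℝ))
    (by linarith) (by linarith) hκ (by linarith) hH w1 w2 k3 k4 hη' (hH2 q hq)
  refine ⟨π', hπ', ?_, hpre⟩
  intro hnil
  have h1 := hπ'.1
  rw [hnil] at h1
  simp at h1

end H19S
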