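import Pool.Agent.Lib.H19S.F3

/-!
# H19S, chunk F4a: the side of u
-/

namespace H19S

open Finset
open scoped ENNReal

variable {F : Finset (ℕ × ℕ × ℕ)} {c : ℕ → S2} {r : ℕ → ℝ} {a A rN r0 c0 δz c1 : ℝ}

theorem F4a_swap (hG : Geo F c r a A rN r0 c0 δz c1) {x : ℕ} (hx : x ∈ vs F) :
    pot F 1 0 x = pot F 0 1 1 - pot F 0 1 x :=
  pot_swap hG.tri.toIsSurf hG.m0 hG.m1 (by norm_num) hx

theorem F4a_top (hG : Geo F c r a A rN r0 c0 δz c1) {x : ℕ} (hx : x ∈ vs F) :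
    pot F 0 1 x ≤ pot F 0 1 1 :=
  (pot_isPot hG.tri.toIsSurf hG.m0 hG.m1 (by norm_num)).le_top hG.tri.toIsSurf
    hG.m0 hG.m1 (by norm_num) hx

theorem F4a_zero (hG : Geo F c r a A rN r0 c0 δz c1) : pot F 0 1 0 = 0 :=
  (pot_isPot hG.tri.toIsSurf hG.m0 hG.m1 (by norm_num)).zero

theorem F4a_log {x y z : ℝ} (hx : 0 < x) (hy : 0 < y) (h : Real.log (x / y) ≤ z) :
    x * Real.exp (-z) ≤ y := by
  rw [Real.log_le_iff_le_exp (div_pos hx hy), div_le_iff₀ hy] at h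
  rw [Real.exp_neg, ← div_eq_mul_inv, div_le_iff₀ (Real.exp_pos z)]
  linarith

/-- The part of `lemB'` common to the two cases: poles `1`, `0`. -/
theorem F4a_core (hG : Geo F c r a A rN r0 c0 δz c1) {K0 : ℕ} {B τ a' ρ : ℝ}
    (hK1 : τ + 3 ≤ K0) (hK2 : CA + 4 ≤ K0) (hB : ∑ k ∈ Icc (-(K0 : ℤ)) K0, band F k ≤ B)
    (hρ : rN ≤ ρ) (hρR : ρ < r0 / 4) (ha'0 : 0 ≤ a')
    (ha' : pot F 0 1 1 - pot F 0 1 2 - τ ≤ a')
    (hab : a' < min (pot F 0 1 1 - pot F 0 1 2 + CA + 1) (pot F 0 1 1))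
    (hlow : ∀ x ∈ vs F, pot F 1 0 x ≤ a' → dist (c x) (c 1) ≤ ρ) :
    r0 / 4 * Real.exp (-(CB * (4 + B))) ≤ ρ := by
  have hCA := one_le_CA
  have hCB := one_le_CB
  have hr0 : 0 < r0 := hG.rN_pos.trans_le hG.rN_le
  have h3 := hG.h3
  have hh1 := hG.h1
  have hh2 := hG.h2
  have hfar := hG.far
  have hzhi := hG.zhi
  have hρ0 : 0 < ρ := hG.rN_pos.trans_le hρ
  refine F4a_log (by linarith) hρ0 ?_
  have h1 := lemB' F hG.tri hG.four c r hG.pack 1 hG.m1 0 hG.m0 (by norm_num) ρ (r0 / 4)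
    a' (min (pot F 0 1 1 - pot F 0 1 2 + CA + 1) (pot F 0 1 1)) hρ0 hρR (by linarith)
    (fun s' hs1 hs2 w hw hm => (hG.reg1 s' (hρ.trans hs1) (by linarith)).2.2 w hw hm)
    ha'0 hab (by
      rw [F4a_swap hG hG.m0, F4a_zero hG, sub_zero]
      exact min_le_right _ _) hlow ?_
  · refine h1.trans ?_
    have h2 := sum_thr_le_band' hG.tri hG.m0 hG.m1 a'
      (min (pot F 0 1 1 - pot F 0 1 2 + CA + 1) (pot F 0 1 1))
    have h4 : ∑ k ∈ Icc ⌊pot F 0 1 2 - pot F 0 1 1 + a' - 1⌋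
        ⌊pot F 0 1 2 - pot F 0 1 1 + min (pot F 0 1 1 - pot F 0 1 2 + CA + 1) (pot F 0 1 1) + 1⌋,
        band F k ≤ B := by
      refine le_trans ?_ hB
      refine sum_le_sum_of_subset_of_nonneg (Icc_subset_Icc ?_ ?_) fun k _ _ => band_nonneg F k
      · rw [Int.le_floor]
        push_cast
        linarith
      · have h5 : pot F 0 1 2 - pot F 0 1 1 +
            min (pot F 0 1 1 - pot F 0 1 2 + CA + 1) (pot F 0 1 1) + 1 ≤ (K0 : ℝ) := by
          have := min_le_left (pot F 0 1 1 - pot F 0 1 2 + CA + 1) (pot F 0 1 1)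
          linarith
        have h6 := Int.floor_le_floor h5
        rwa [Int.floor_natCast] at h6
    have h5 : (0 : ℝ) ≤ CB := by linarith
    refine mul_le_mul_of_nonneg_left ?_ h5
    linarith
  · intro x hx hb
    rw [F4a_swap hG hx, min_le_iff] at hb
    rcases hb with hb | hb
    · have hd : CA + 1 ≤ dep F x := by
        unfold dep
        linarith
      have h5 := dd_lt hG (t := CA + 1) (by linarith)
      have h6 := le_dd (c := c) hx hd
      have h7 := dist_triangle (c 0) (c x) (c 1)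
      rw [dist_comm (c 0) (c x)] at h7
      linarith
    · have hx0 : x = 0 := by
        by_contra hne
        have := pot_pos hG.tri hG.four hG.m0 hG.m1 (by norm_num) hx hne
        linarith
      rw [hx0]
      linarith

/-- (chunk F4a)  The side of `u = 1`.  `h' = pot F 1 0`, `H = h 1 - h 2`, `e = r0/4 * exp(-CB (4+B))`, `R' = r0/4`,
`b' = min (H + CA + 1) (h 1)`.  A vertex with `h' x ≥ b'` is `0` (`pot_pos`) or has depth `≥ CA + 1`, so by `dd_lt` it is within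
`c1` of `c 0`, hence at distance `≥ c0 - c1 ≥ R'` from `c 1`.  If `H < τ`: apply `lemB'` (poles `1, 0`) with `a' = 0`
(`{h' ≤ 0} = {1}`, `pot_pos`), `ρ = rN`: `log (R'/rN) ≤ CB (1 + 3 + B)` by `sum_thr_le_band'` (the window of depths is in
`[-τ-1, CA+2]`), contradiction to `rN < e`.  If `H ≥ τ`: `a' = H - τ`; if all vertices with `h' ≤ a'` (height
`≥ τ`) were at distance `< e` from `c 1`, let `ρ < e` be the maximum of `rN` and these distances; `lemB'` gives
`log (R'/ρ) ≤ CB (4 + B)`, contradiction. -/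
theorem uside (hG : Geo F c r a A rN r0 c0 δz c1) {K0 : ℕ} {B τ : ℝ} (hτ : 0 ≤ τ)
    (hK1 : τ + 3 ≤ K0) (hK2 : CA + 4 ≤ K0) (hB : ∑ k ∈ Icc (-(K0 : ℤ)) K0, band F k ≤ B)
    (hrN : rN < r0 / 4 * Real.exp (-(CB * (4 + B)))) :
    τ ≤ pot F 0 1 1 - pot F 0 1 2 ∧
      ∃ x ∈ vs F, τ ≤ pot F 0 1 x - pot F 0 1 2 ∧
        r0 / 4 * Real.exp (-(CB * (4 + B))) ≤ dist (c x) (c 1) := by
  have hCA := one_le_CA
  have hCB := one_le_CB
  have hr0 : 0 < r0 := hG.rN_pos.trans_le hG.rN_le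
  have hB0 : 0 ≤ B := (sum_nonneg fun k _ => band_nonneg F k).trans hB
  have hexp : Real.exp (-(CB * (4 + B))) ≤ 1 := by
    rw [Real.exp_le_one_iff]
    have : 0 ≤ CB * (4 + B) := by positivity
    linarith
  have hes : r0 / 4 * Real.exp (-(CB * (4 + B))) ≤ r0 / 4 :=
    mul_le_of_le_one_right (by linarith) hexp
  have hH0 := F4a_top hG hG.m2
  have h2pos := pot_pos hG.tri hG.four hG.m0 hG.m1 (by norm_num) hG.m2 (by norm_num)
  have h1pos := pot_pos hG.tri hG.four hG.m0 hG.m1 (by norm_num) hG.m1 (by norm_num)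
  have hτH : τ ≤ pot F 0 1 1 - pot F 0 1 2 := by
    by_contra hcon
    push Not at hcon
    have h1 := F4a_core hG hK1 hK2 hB (ρ := rN) (a' := 0) le_rfl (hrN.trans_le hes) le_rfl
      (by linarith) (lt_min (by linarith) h1pos) ?_
    · exact absurd h1 (not_le.2 hrN)
    · intro x hx hp
      have hx1 : x = 1 := by
        by_contra hne
        have := pot_pos hG.tri hG.four hG.m1 hG.m0 (by norm_num) hx hne
        linarith
      rw [hx1, dist_self]
      exact hG.rN_pos.le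
  refine ⟨hτH, ?_⟩
  by_contra hcon
  push Not at hcon
  obtain ⟨x0, hx0, hmax⟩ := exists_max_image
    ((vs F).filter fun x => τ ≤ pot F 0 1 x - pot F 0 1 2) (fun x => dist (c x) (c 1))
    ⟨1, mem_filter.2 ⟨hG.m1, hτH⟩⟩
  obtain ⟨hx0v, hx0t⟩ := mem_filter.1 hx0
  have hρ : max rN (dist (c x0) (c 1)) < r0 / 4 * Real.exp (-(CB * (4 + B))) :=
    max_lt hrN (hcon x0 hx0v hx0t)
  have h1 := F4a_core hG hK1 hK2 hB (ρ := max rN (dist (c x0) (c 1)))
    (a' := pot F 0 1 1 - pot F 0 1 2 - τ) (le_max_left _ _) (hρ.trans_le hes) (by linarith)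
    le_rfl (lt_min (by linarith) (by linarith)) ?_
  · exact absurd h1 (not_le.2 hρ)
  · intro x hx hp
    rw [F4a_swap hG hx] at hp
    exact (hmax x (mem_filter.2 ⟨hx, by linarith⟩)).trans (le_max_right _ _)

/-- (chunk F4a)  Consequence (`sepA` for `p = 1`, `q = 0`, `ρ = e`, `R = 1`): at least `a e² n` vertices have height `≥ 2`. -/
theorem uside_count (hG : Geo F c r a A rN r0 c0 δz c1) {K0 : ℕ} {B : ℝ} (hB0 : 0 ≤ B)
    (hK1 : CA + 5 ≤ K0) (hB : ∑ k ∈ Icc (-(K0 : ℤ)) K0, band F k ≤ B)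
    (hrN : rN < r0 / 4 * Real.exp (-(CB * (4 + B)))) :
    a * (r0 / 4 * Real.exp (-(CB * (4 + B)))) ^ 2 * (vs F).card ≤
      ((vs F).filter fun x => dep F x ≤ -2).card := by
  have hCA := one_le_CA
  have hCB := one_le_CB
  have hr0 : 0 < r0 := hG.rN_pos.trans_le hG.rN_le
  have h3 := hG.h3
  have hh2 := hG.h2
  have hfar := hG.far
  have hexp : Real.exp (-(CB * (4 + B))) ≤ 1 := by
    rw [Real.exp_le_one_iff]
    have : 0 ≤ CB * (4 + B) := by positivity
    linarith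
  have hes : r0 / 4 * Real.exp (-(CB * (4 + B))) ≤ r0 / 4 :=
    mul_le_of_le_one_right (by linarith) hexp
  obtain ⟨-, x0, hx0, hx0t, hx0d⟩ := uside hG (τ := CA + 2) (by linarith) (by linarith)
    (by linarith) hB hrN
  set e := r0 / 4 * Real.exp (-(CB * (4 + B))) with he
  have he0 : 0 < e := hG.rN_pos.trans hrN
  refine ((hG.reg1 e hrN.le (by linarith)).1).trans ?_
  have hsub : ((vs F).filter fun w => dist (c w) (c 1) ≤ e) ⊆
      (vs F).filter fun x => dep F x ≤ -2 := by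
    intro w hw
    obtain ⟨hwv, hwd⟩ := mem_filter.1 hw
    refine mem_filter.2 ⟨hwv, ?_⟩
    have h1 := sepA hG.tri hG.four hG.pack hG.m1 hG.m0 (by norm_num) (ρ := e) (R := 1)
      (a := pot F 1 0 x0) he0 le_rfl (by linarith) (by linarith) ⟨x0, hx0, le_rfl, hx0d⟩ hwv
      ⟨c w, Metric.mem_closedBall_self (hG.pack.pos w hwv).le,
        Metric.mem_closedBall.2 (by rw [one_mul]; exact hwd)⟩
    rw [F4a_swap hG hwv, F4a_swap hG hx0, one_pow, mul_one] at h1
    unfold dep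
    linarith
  exact_mod_cast card_le_card hsub

end H19S
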