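import Pool.Agent.Lib.H19S.F9
import Pool.Agent.Lib.H19S.F10
import Pool.Agent.Lib.H19S.F11a
import Pool.Agent.Lib.H19S.F4a

/-!
# H19S, chunk F11b: the top statement of Part F
-/

namespace H19S

open Finset
open scoped ENNReal

private theorem f11b_R {a A : ℝ} (ha : 0 < a) (hA : 0 < A) : ∃ R : ℝ, 1 ≤ R ∧ 13 * A ≤ a * R ^ 2 := by
  refine ⟨max 1 (√(13 * A / a)), le_max_left _ _, ?_⟩
  have h5 : √(13 * A / a) ^ 2 = 13 * A / a := Real.sq_sqrt (by positivity)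
  have h6 : √(13 * A / a) ^ 2 ≤ (max 1 (√(13 * A / a))) ^ 2 :=
    pow_le_pow_left₀ (Real.sqrt_nonneg _) (le_max_right _ _) 2
  rw [h5] at h6
  calc 13 * A = a * (13 * A / a) := by field_simp
    _ ≤ a * (max 1 (√(13 * A / a))) ^ 2 := mul_le_mul_of_nonneg_left h6 ha.le

private theorem f11b_k1 {A r0 R Λ : ℝ} (hA : 0 < A) (hr0 : 0 < r0) : ∃ k1 : ℕ, Λ ≤ 2 ^ k1 ∧
    3 * Λ * R ^ 2 ≤ 2 * A * r0 ^ 2 * 2 ^ k1 := by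
  obtain ⟨k1, hk1⟩ : ∃ k1 : ℕ, max Λ (3 * Λ * R ^ 2 / (2 * A * r0 ^ 2)) < (2 : ℝ) ^ k1 :=
    pow_unbounded_of_one_lt _ (by norm_num)
  refine ⟨k1, (le_max_left _ _).trans hk1.le, ?_⟩
  have h5 := (le_max_right Λ (3 * Λ * R ^ 2 / (2 * A * r0 ^ 2))).trans hk1.le
  rw [div_le_iff₀ (by positivity)] at h5
  linarith

private theorem f11b_ρ1 {A r0 : ℝ} (hA : 0 < A) (hr0 : 0 < r0) (k1 : ℕ) :
    ∃ ρ1 : ℝ, 0 < ρ1 ∧ ρ1 ≤ r0 ∧ A * ρ1 ^ 2 ≤ 1 / 2 ^ k1 := by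
  refine ⟨min r0 (√(1 / 2 ^ k1 / A)), lt_min hr0 (Real.sqrt_pos.2 (by positivity)),
    min_le_left _ _, ?_⟩
  have h5 : √(1 / 2 ^ k1 / A) ^ 2 = 1 / 2 ^ k1 / A := Real.sq_sqrt (by positivity)
  have h6 : (min r0 (√(1 / 2 ^ k1 / A))) ^ 2 ≤ √(1 / 2 ^ k1 / A) ^ 2 :=
    pow_le_pow_left₀ (le_min hr0.le (Real.sqrt_nonneg _)) (min_le_right _ _) 2
  rw [h5] at h6
  calc A * (min r0 (√(1 / 2 ^ k1 / A))) ^ 2 ≤ A * (1 / 2 ^ k1 / A) :=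
        mul_le_mul_of_nonneg_left h6 hA.le
    _ = 1 / 2 ^ k1 := by field_simp

private theorem f11b_j0 {M : ℕ} (hM100 : (103 : ℝ) ≤ M) (x : ℝ) : ∃ j0 : ℕ, 2 ≤ j0 ∧ x < (j0 : ℝ) * M := by
  obtain ⟨m, hm⟩ := exists_nat_gt x
  refine ⟨max 2 m, le_max_left _ _, ?_⟩
  have h5 : (m : ℝ) ≤ ((max 2 m : ℕ) : ℝ) := by exact_mod_cast le_max_right 2 m
  have h6 : (0 : ℝ) ≤ ((max 2 m : ℕ) : ℝ) := by positivity
  nlinarith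

private theorem f11b_k2 {a e1 : ℝ} (ha : 0 < a) (he10 : 0 < e1) (k1 : ℕ) :
    ∃ k2 : ℕ, 1 / 2 ^ k2 ≤ a * e1 ^ 2 ∧ k1 ≤ k2 := by
  obtain ⟨m, hm⟩ := pow_unbounded_of_one_lt (1 / (a * e1 ^ 2)) (show (1 : ℝ) < 2 by norm_num)
  refine ⟨max k1 m, ?_, le_max_left _ _⟩
  have h5 : (2 : ℝ) ^ m ≤ 2 ^ (max k1 m) := pow_le_pow_right₀ (by norm_num) (le_max_right _ _)
  have h6 : 1 / (a * e1 ^ 2) ≤ 2 ^ (max k1 m) := hm.le.trans h5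
  rw [div_le_iff₀ (by positivity)] at h6
  rw [div_le_iff₀ (by positivity)]
  linarith

private theorem f11b_rN {A r0 e1 eu Λ : ℝ} (hA : 0 < A) (hr0 : 0 < r0) (he10 : 0 < e1) (heu0 : 0 < eu)
    (hΛ : 0 < Λ) (k2 : ℕ) : ∃ rN : ℝ, 0 < rN ∧ rN ≤ r0 ∧ rN < e1 ∧ rN < eu ∧
      4 * A * rN ^ 2 * 2 ^ k2 ≤ Λ := by
  have hs : 0 < √(Λ / (4 * A * 2 ^ k2)) := Real.sqrt_pos.2 (by positivity)
  refine ⟨min (min r0 (e1 / 2)) (min (eu / 2) (√(Λ / (4 * A * 2 ^ k2)))), ?_, ?_, ?_, ?_, ?_⟩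
  · exact lt_min (lt_min hr0 (by positivity)) (lt_min (by positivity) hs)
  · exact (min_le_left _ _).trans (min_le_left _ _)
  · exact lt_of_le_of_lt ((min_le_left _ _).trans (min_le_right _ _)) (by linarith)
  · exact lt_of_le_of_lt ((min_le_right _ _).trans (min_le_left _ _)) (by linarith)
  · have h5 : √(Λ / (4 * A * 2 ^ k2)) ^ 2 = Λ / (4 * A * 2 ^ k2) := Real.sq_sqrt (by positivity)
    have h6 : (min (min r0 (e1 / 2)) (min (eu / 2) (√(Λ / (4 * A * 2 ^ k2))))) ^ 2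
        ≤ √(Λ / (4 * A * 2 ^ k2)) ^ 2 := by
      apply pow_le_pow_left₀ _ ((min_le_right _ _).trans (min_le_right _ _)) 2
      exact le_min (le_min hr0.le (by positivity)) (le_min (by positivity) hs.le)
    rw [h5] at h6
    have h7 : 0 < 4 * A * 2 ^ k2 := by positivity
    rw [le_div_iff₀ h7] at h6
    linarith

private theorem f11b_sum {F : Finset (ℕ × ℕ × ℕ)} {K0 J : ℕ} {B C0 : ℝ} (hK0 : C0 + 5 ≤ (K0 : ℝ))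
    (hJ3 : (3 : ℝ) ≤ J) (hT1 : ∑ k ∈ Icc (-(K0 : ℤ)) K0, band F k ≤ B)
    (hT3 : ∑ k ∈ Icc 1 J, band F (k : ℤ) ≤ B * J) :
    ∑ k ∈ Icc ⌊-(C0 + 2)⌋ ⌊((J : ℝ) - 2) + 1⌋, band F k ≤ B + B * J := by
  have hfl : ⌊((J : ℝ) - 2) + 1⌋ = (J : ℤ) - 1 := by
    rw [Int.floor_eq_iff]
    push_cast
    constructor <;> linarith
  have hfl2 : -(K0 : ℤ) ≤ ⌊-(C0 + 2)⌋ := by
    rw [Int.le_floor]
    push_cast
    linarith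
  have hss : Icc ⌊-(C0 + 2)⌋ ⌊((J : ℝ) - 2) + 1⌋ ⊆
      Icc (-(K0 : ℤ)) K0 ∪ (Icc 1 J).image (fun k : ℕ => (k : ℤ)) := by
    intro k hk
    rw [mem_Icc, hfl] at hk
    rw [mem_union]
    by_cases hkK : k ≤ K0
    · left
      rw [mem_Icc]
      exact ⟨hfl2.trans hk.1, hkK⟩
    · right
      rw [mem_image]
      have hk0 : 0 ≤ k := by omega
      refine ⟨k.toNat, ?_, Int.toNat_of_nonneg hk0⟩
      rw [mem_Icc]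
      omega
  calc ∑ k ∈ Icc ⌊-(C0 + 2)⌋ ⌊((J : ℝ) - 2) + 1⌋, band F k
      ≤ ∑ k ∈ Icc (-(K0 : ℤ)) K0 ∪ (Icc 1 J).image (fun k : ℕ => (k : ℤ)), band F k :=
        sum_le_sum_of_subset_of_nonneg hss (fun k _ _ => band_nonneg F k)
    _ ≤ ∑ k ∈ Icc (-(K0 : ℤ)) K0, band F k
        + ∑ k ∈ (Icc 1 J).image (fun k : ℕ => (k : ℤ)), band F k := by
        have h5 := sum_union_inter (s₁ := Icc (-(K0 : ℤ)) K0)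
          (s₂ := (Icc 1 J).image (fun k : ℕ => (k : ℤ))) (f := fun k => band F k)
        have h6 : 0 ≤ ∑ k ∈ Icc (-(K0 : ℤ)) K0 ∩ (Icc 1 J).image (fun k : ℕ => (k : ℤ)),
            band F k := sum_nonneg (fun k _ => band_nonneg F k)
        linarith
    _ ≤ B + B * J := by
        have himg : ∑ k ∈ (Icc 1 J).image (fun k : ℕ => (k : ℤ)), band F k
            = ∑ k ∈ Icc 1 J, band F (k : ℤ) := by
          apply sum_image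
          intro x _ y _ hxy
          exact Int.ofNat.inj hxy
        rw [himg]
        exact add_le_add hT1 hT3

private theorem f11b_nb {F : Finset (ℕ × ℕ × ℕ)} {cc : ℕ → S2} {rr : ℕ → ℝ}
    {a A rN r0 c0 δz c1 : ℝ} (hG : Geo F cc rr a A rN r0 c0 δz c1) {R κ Λ : ℝ} {k1 k2 : ℕ}
    (hR : 1 ≤ R) (hRA : 13 * A ≤ a * R ^ 2) (hκ1 : CA * R ^ 2 * κ < 1)
    (hrNΛ : 4 * A * rN ^ 2 * 2 ^ k2 ≤ Λ) (hΛ1 : 1 ≤ Λ) (hn4 : 4 * 2 ^ k2 ≤ ((vs F).card : ℝ))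
    (h2k : (2 : ℝ) ^ k1 ≤ 2 ^ k2) (hk1b : 3 * Λ * R ^ 2 ≤ 2 * A * r0 ^ 2 * 2 ^ k1) :
    ¬ NBig F κ (Λ * ((vs F).card / 2 ^ k2) / 2) (2 * Λ * ((vs F).card / 2 ^ k1) + 1) := by
  have hpk2 : (0 : ℝ) < 2 ^ k2 := by positivity
  have hpk1 : (0 : ℝ) < 2 ^ k1 := by positivity
  have hn : (0 : ℝ) < (vs F).card := lt_of_lt_of_le (by positivity) hn4
  generalize hnn : ((vs F).card : ℝ) = n at *
  apply not_nbig hG hR hRA hκ1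
  · rw [hnn]
    have h5 : 2 * A * rN ^ 2 ≤ Λ / 2 ^ k2 / 2 := by
      rw [le_div_iff₀ (by norm_num), le_div_iff₀ hpk2]
      linarith
    calc 2 * A * rN ^ 2 * n ≤ Λ / 2 ^ k2 / 2 * n := mul_le_mul_of_nonneg_right h5 hn.le
      _ = Λ * (n / 2 ^ k2) / 2 := by ring
  · positivity
  · rw [hnn]
    have h5 : 1 ≤ Λ * (n / 2 ^ k1) := by
      have h6 : 1 ≤ n / 2 ^ k1 := by
        rw [le_div_iff₀ hpk1]
        linarith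
      nlinarith
    have h6 : 2 * Λ * (n / 2 ^ k1) + 1 ≤ 3 * Λ * (n / 2 ^ k1) := by linarith
    calc (2 * Λ * (n / 2 ^ k1) + 1) * R ^ 2 ≤ (3 * Λ * (n / 2 ^ k1)) * R ^ 2 :=
          mul_le_mul_of_nonneg_right h6 (by positivity)
      _ = (3 * Λ * R ^ 2) * (n / 2 ^ k1) := by ring
      _ ≤ (2 * A * r0 ^ 2 * 2 ^ k1) * (n / 2 ^ k1) :=
          mul_le_mul_of_nonneg_right hk1b (by positivity)
      _ = 2 * A * r0 ^ 2 * n := by field_simp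

private theorem f11b_Gd {M J j0 j : ℕ} (hj : j ∈ Icc j0 (J / M - 4)) (hj0 : 2 ≤ j0) :
    2 ≤ j ∧ (j : ℝ) * M + 4 * M ≤ J ∧ j0 ≤ j := by
  have hdiv : J / M * M ≤ J := Nat.div_mul_le_self J M
  rw [mem_Icc] at hj
  obtain ⟨hj1, hj2⟩ := hj
  refine ⟨by omega, ?_, hj1⟩
  have h5 : j + 4 ≤ J / M := by omega
  have h6 : (j + 4) * M ≤ J := (Nat.mul_le_mul_right M h5).trans hdiv
  have h7 : (((j + 4) * M : ℕ) : ℝ) ≤ J := by exact_mod_cast h6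
  push_cast at h7
  linarith

private theorem f11b_kf1 {F : Finset (ℕ × ℕ × ℕ)} {cc : ℕ → S2} {rr : ℕ → ℝ}
    {a A rN r0 c0 δz c1 : ℝ} (hG : Geo F cc rr a A rN r0 c0 δz c1) {ρ1 : ℝ} {k1 M j0 j k : ℕ}
    (hρ1 : 0 < ρ1) (hρ1r : ρ1 ≤ r0) (hρ1A : A * ρ1 ^ 2 ≤ 1 / 2 ^ k1)
    (hj0M : CA * (max 1 (c1 / ρ1)) ^ 2 < (j0 : ℝ) * M) (hj : j0 ≤ j)
    (w4 : 1 / 2 ^ k ≤ A * (dd F cc ((j : ℝ) * M + 38)) ^ 2) : k1 ≤ k := by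
  have hA := hG.A_pos
  have hjr : (j0 : ℝ) ≤ j := by exact_mod_cast hj
  have hM0 : (0 : ℝ) ≤ M := Nat.cast_nonneg _
  have h5 : CA * (max 1 (c1 / ρ1)) ^ 2 < (j : ℝ) * M + 38 := by
    have := mul_le_mul_of_nonneg_right hjr hM0
    linarith
  have h6 := dd_lt' hG hρ1 hρ1r h5
  have h7 : (0 : ℝ) ≤ dd F cc ((j : ℝ) * M + 38) := od_nonneg
  have h8 : (dd F cc ((j : ℝ) * M + 38)) ^ 2 ≤ ρ1 ^ 2 := pow_le_pow_left₀ h7 h6.le 2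
  have h9 : 1 / (2 : ℝ) ^ k ≤ 1 / 2 ^ k1 :=
    w4.trans ((mul_le_mul_of_nonneg_left h8 hA.le).trans hρ1A)
  rw [one_div_le_one_div (by positivity) (by positivity)] at h9
  exact (pow_le_pow_iff_right₀ (by norm_num)).1 h9

private theorem f11b_kf2 {a e1 d : ℝ} {k2 k : ℕ} (ha : 0 < a) (he10 : 0 < e1)
    (hk2 : 1 / 2 ^ k2 ≤ a * e1 ^ 2) (h5 : e1 ≤ d) (w3 : a * d ^ 2 ≤ 1 / 2 ^ k) : k ≤ k2 := by
  have h6 : e1 ^ 2 ≤ d ^ 2 := pow_le_pow_left₀ he10.le h5 2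
  have h7 : 1 / (2 : ℝ) ^ k2 ≤ 1 / 2 ^ k :=
    hk2.trans ((mul_le_mul_of_nonneg_left h6 ha.le).trans w3)
  rw [one_div_le_one_div (by positivity) (by positivity)] at h7
  exact (pow_le_pow_iff_right₀ (by norm_num)).1 h7

private theorem f11b_lt {F : Finset (ℕ × ℕ × ℕ)} {M j j' k k' : ℕ} {n : ℝ} (hn : 0 < n)
    (hM100 : (103 : ℝ) ≤ M) (hjj : j < j')
    (w1 : (cnt F ((j : ℝ) * M + 2 * M) : ℝ) ≤ n / 2 ^ k)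
    (w2 : n / 2 ^ k' < cnt F ((j' : ℝ) * M + M + 39)) : k < k' := by
  have h5 : (j : ℝ) + 1 ≤ j' := by exact_mod_cast hjj
  have h6 : (j : ℝ) * M + 2 * M ≤ (j' : ℝ) * M + M + 39 := by
    have := mul_le_mul_of_nonneg_right h5 (show (0 : ℝ) ≤ M by linarith)
    linarith
  have h7 : (cnt F ((j' : ℝ) * M + M + 39) : ℝ) ≤ cnt F ((j : ℝ) * M + 2 * M) := by
    exact_mod_cast cnt_anti h6
  have h8 : n / 2 ^ k' < n / 2 ^ k := lt_of_lt_of_le w2 (h7.trans w1)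
  rw [div_lt_div_iff_of_pos_left hn (by positivity) (by positivity)] at h8
  exact (pow_lt_pow_iff_right₀ (by norm_num)).1 h8

private theorem f11b_fin {Gd : Finset ℕ} {kf : ℕ → ℕ} {f : ℕ → ℝ≥0∞} {cw x : ℝ} {M k1 k2 : ℕ}
    (hcw : 0 < cw) (hM0 : (0 : ℝ) < M) (hGd2 : ∀ j ∈ Gd, 2 ≤ j)
    (hgood : x / 4 ≤ ∑ j ∈ Gd, (1 : ℝ) / j)
    (hkf : ∀ j ∈ Gd, ENNReal.ofReal (cw / (j * M)) ≤ f (kf j))
    (hkf1 : ∀ j ∈ Gd, k1 ≤ kf j) (hkf2 : ∀ j ∈ Gd, kf j ≤ k2)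
    (hlt : ∀ j ∈ Gd, ∀ j' ∈ Gd, j < j' → kf j < kf j') :
    ENNReal.ofReal (cw / (4 * M) * x) ≤ ∑ k ∈ Icc k1 k2, f k := by
  have hinj : Set.InjOn kf (Gd : Set ℕ) := by
    intro j hj j' hj' hkk
    rcases lt_trichotomy j j' with h5 | h5 | h5
    · exact absurd hkk (hlt j hj j' hj' h5).ne
    · exact h5
    · exact absurd hkk (hlt j' hj' j hj h5).ne'
  calc ENNReal.ofReal (cw / (4 * M) * x)
      ≤ ENNReal.ofReal (∑ j ∈ Gd, cw / (j * M)) := by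
        apply ENNReal.ofReal_le_ofReal
        have h5 : ∑ j ∈ Gd, cw / ((j : ℝ) * M) = cw / M * ∑ j ∈ Gd, (1 : ℝ) / j := by
          rw [mul_sum]
          apply sum_congr rfl
          intro j hj
          have hj2 := hGd2 j hj
          have hjp : (0 : ℝ) < j := by
            have : 0 < j := by omega
            exact_mod_cast this
          field_simp
        rw [h5]
        calc cw / (4 * M) * x = cw / M * (x / 4) := by ring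
          _ ≤ _ := mul_le_mul_of_nonneg_left hgood (by positivity)
    _ = ∑ j ∈ Gd, ENNReal.ofReal (cw / (j * M)) := by
        apply ENNReal.ofReal_sum_of_nonneg
        intro j _
        positivity
    _ ≤ ∑ j ∈ Gd, f (kf j) := sum_le_sum (fun j hj => hkf j hj)
    _ = ∑ k ∈ Gd.image kf, f k := by
        rw [sum_image (fun x hx y hy hxy => hinj hx hy hxy)]
    _ ≤ ∑ k ∈ Icc k1 k2, f k := by
        apply sum_le_sum_of_subset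
        intro k hk
        rw [mem_image] at hk
        obtain ⟨j, hj, rfl⟩ := hk
        rw [mem_Icc]
        exact ⟨hkf1 j hj, hkf2 j hj⟩

private theorem f11b_scales {F : Finset (ℕ × ℕ × ℕ)} {cc : ℕ → S2} {rr : ℕ → ℝ}
    {a A rN r0 c0 δz c1 : ℝ} (hG : Geo F cc rr a A rN r0 c0 δz c1)
    {R κ Λ η η' Λ0 cw B e1 ρ1 : ℝ} {M J j0 k1 k2 : ℕ} (hR : 1 ≤ R) (hRA : 13 * A ≤ a * R ^ 2)
    (hM : 2 * CA * R ^ 2 + CA + 100 ≤ (M : ℝ)) (hM100 : (103 : ℝ) ≤ M)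
    (hκM : 1 ≤ κ * ((M : ℝ) - 38)) (hΛ0 : Λ0 = 120 * M * B)
    (hη : η = a / A * Real.exp (-(2 * (CB * (4 + Λ0)))))
    (hΛ : A / a * Real.exp (2 * (CB * (4 + Λ0))) ≤ Λ)
    (huc : η' * (vs F).card ≤ ((vs F).filter fun x => dep F x ≤ -2).card)
    (hH2 : 2 < pot F 0 1 1 - pot F 0 1 2) (hcw : 0 < cw)
    (hwalk : ∀ t0 : ℝ, 1 ≤ t0 → t0 + 2 * M + 40 ≤ pot F 0 1 2 → ∃ H : Set (List ℕ),
      PrefixFree H ∧ (∀ π ∈ H, WinWalk F t0 M π) ∧ ENNReal.ofReal (cw / t0) ≤ W (nbr F) H)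
    (htop : (J : ℝ) - 2 ≤ pot F 0 1 2) (hdde : e1 ≤ dd F cc ((J : ℝ) - 2)) (he10 : 0 < e1)
    (hrNe1 : rN < e1) (hρ1 : 0 < ρ1) (hρ1r : ρ1 ≤ r0) (hρ1A : A * ρ1 ^ 2 ≤ 1 / 2 ^ k1)
    (hj0 : 2 ≤ j0) (hj0M : CA * (max 1 (c1 / ρ1)) ^ 2 < (j0 : ℝ) * M)
    (hk2 : 1 / 2 ^ k2 ≤ a * e1 ^ 2)
    (hgood : Real.log J / 4 ≤ ∑ j ∈ (Icc j0 (J / M - 4)).filter
      (fun j => ∑ k ∈ Icc ((j - 1) * M) ((j + 4) * M), band F (k : ℤ) ≤ 120 * M * B), (1 : ℝ) / j) :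
    ENNReal.ofReal (cw / (4 * M) * Real.log J) ≤
      ∑ k ∈ Icc k1 k2, W (nbr F) (GoodStop F ((vs F).card / 2 ^ k) η η' Λ κ) := by
  have hCA := one_le_CA
  have ha := hG.a_pos
  have hA := hG.A_pos
  have hR2 : 0 ≤ CA * R ^ 2 := by positivity
  have hnpos : (0 : ℝ) < (vs F).card := by
    have := hG.four
    have h4 : (4 : ℝ) ≤ (vs F).card := by exact_mod_cast this
    linarith
  have hM1 : (0 : ℝ) < M := by linarith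
  have hMM : CA * R ^ 2 + CA + 40 ≤ M := by linarith
  have hRA' : 2 * A ≤ a * R ^ 2 := by linarith
  have hper : ∀ j ∈ (Icc j0 (J / M - 4)).filter
      (fun j => ∑ k ∈ Icc ((j - 1) * M) ((j + 4) * M), band F (k : ℤ) ≤ 120 * M * B),
      ∃ k : ℕ, (cnt F ((j : ℝ) * M + 2 * M) : ℝ) ≤ (vs F).card / 2 ^ k ∧
      ((vs F).card : ℝ) / 2 ^ k < cnt F ((j : ℝ) * M + M + 39) ∧
      a * (dd F cc ((j : ℝ) * M + 2 * M + 40 + CA)) ^ 2 ≤ 1 / 2 ^ k ∧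
      1 / 2 ^ k ≤ A * (dd F cc ((j : ℝ) * M + 38)) ^ 2 ∧
      ENNReal.ofReal (cw / (j * M)) ≤ W (nbr F) (GoodStop F ((vs F).card / 2 ^ k) η η' Λ κ) := by
    intro j hj
    rw [mem_filter] at hj
    obtain ⟨hj2, hjJ, hjj0⟩ := f11b_Gd hj.1 hj0
    have htj : (j : ℝ) * M + 2 * M + 40 + CA ≤ (J : ℝ) - 2 := by linarith
    have hN : rN ≤ dd F cc ((j : ℝ) * M + 2 * M + 40 + CA) :=
      hrNe1.le.trans (hdde.trans (dd_anti htj))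
    exact per_window hG hR hRA' (by omega) hMM hκM (htj.trans htop) hH2 (hj.2.trans hΛ0.ge) hN
      hη hΛ huc hwalk
  choose! kf hkf using hper
  refine f11b_fin hcw hM1 (fun j hj => (f11b_Gd (mem_filter.1 hj).1 hj0).1) hgood
    (fun j hj => (hkf j hj).2.2.2.2) (fun j hj => ?_) (fun j hj => ?_) (fun j hj j' hj' hjj => ?_)
  · exact f11b_kf1 hG hρ1 hρ1r hρ1A hj0M (f11b_Gd (mem_filter.1 hj).1 hj0).2.2 (hkf j hj).2.2.2.1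
  · have hjJ := (f11b_Gd (mem_filter.1 hj).1 hj0).2.1
    have htj : (j : ℝ) * M + 2 * M + 40 + CA ≤ (J : ℝ) - 2 := by linarith
    exact f11b_kf2 ha he10 hk2 (hdde.trans (dd_anti htj)) (hkf j hj).2.2.1
  · exact f11b_lt hnpos hM100 hjj (hkf j hj).1 (hkf j' hj').2.1

private theorem f11b_F {F : Finset (ℕ × ℕ × ℕ)} {cc : ℕ → S2} {rr : ℕ → ℝ}
    {a A rN r0 c0 δz c1 : ℝ} (hG : Geo F cc rr a A rN r0 c0 δz c1)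
    {R κ Λ η Λ0 cw B ρ1 : ℝ} {M J K0 j0 k1 k2 : ℕ} (hR : 1 ≤ R) (hRA : 13 * A ≤ a * R ^ 2)
    (hM : 2 * CA * R ^ 2 + CA + 100 ≤ (M : ℝ)) (hM100 : (103 : ℝ) ≤ M)
    (hK0 : CA + 5 ≤ (K0 : ℝ)) (hB : 0 < B)
    (hκM : 1 ≤ κ * ((M : ℝ) - 38)) (hκ1 : CA * R ^ 2 * κ < 1) (hΛ0 : Λ0 = 120 * M * B)
    (hη : η = a / A * Real.exp (-(2 * (CB * (4 + Λ0)))))
    (hΛ : A / a * Real.exp (2 * (CB * (4 + Λ0))) ≤ Λ) (hΛ1 : 1 ≤ Λ) (hcw : 0 < cw)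
    (hwalk : ∀ F : Finset (ℕ × ℕ × ℕ), IsTri F → 0 ∈ vs F → 1 ∈ vs F → 2 ∈ vs F →
      ∀ t0 : ℝ, 1 ≤ t0 → t0 + 2 * M + 40 ≤ pot F 0 1 2 → 2 < pot F 0 1 1 - pot F 0 1 2 →
      ∃ H : Set (List ℕ), PrefixFree H ∧ (∀ π ∈ H, WinWalk F t0 M π) ∧
        ENNReal.ofReal (cw / t0) ≤ W (nbr F) H)
    (hk1b : 3 * Λ * R ^ 2 ≤ 2 * A * r0 ^ 2 * 2 ^ k1)
    (hρ1 : 0 < ρ1) (hρ1r : ρ1 ≤ r0) (hρ1A : A * ρ1 ^ 2 ≤ 1 / 2 ^ k1)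
    (hj0 : 2 ≤ j0) (hj0M : CA * (max 1 (c1 / ρ1)) ^ 2 < (j0 : ℝ) * M)
    (hgood : Real.log J / 4 ≤ ∑ j ∈ (Icc j0 (J / M - 4)).filter
      (fun j => ∑ k ∈ Icc ((j - 1) * M) ((j + 4) * M), band F (k : ℤ) ≤ 120 * M * B), (1 : ℝ) / j)
    (hJ3 : (3 : ℝ) ≤ J) (hk12 : k1 ≤ k2)
    (hk2 : 1 / 2 ^ k2 ≤ a * (δz * Real.exp (-(CB * (4 + (B + B * J))))) ^ 2)
    (hrNe1 : rN < δz * Real.exp (-(CB * (4 + (B + B * J)))))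
    (hrNeu : rN < r0 / 4 * Real.exp (-(CB * (4 + B))))
    (hrNΛ : 4 * A * rN ^ 2 * 2 ^ k2 ≤ Λ) (hn4 : 4 * 2 ^ k2 ≤ ((vs F).card : ℝ))
    (hT : Typ F K0 B J) :
    ¬ NBig F κ (Λ * ((vs F).card / 2 ^ k2) / 2) (2 * Λ * ((vs F).card / 2 ^ k1) + 1) ∧
    ENNReal.ofReal (cw / (4 * M) * Real.log J) ≤
      ∑ k ∈ Icc k1 k2, W (nbr F) (GoodStop F ((vs F).card / 2 ^ k) η
        (a * (r0 / 4 * Real.exp (-(CB * (4 + B)))) ^ 2) Λ κ) := by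
  have hCA := one_le_CA
  have hCB := one_le_CB
  have hδz := hG.δz_pos
  obtain ⟨hT1, hT2, hT3⟩ := hT
  have hu := (uside hG (K0 := K0) (B := B) (τ := CA + 2) (by linarith) (by linarith)
    (by linarith) hT1 hrNeu).1
  have huc := uside_count hG (K0 := K0) (B := B) hB.le hK0 hT1 hrNeu
  have hH2 : 2 < pot F 0 1 1 - pot F 0 1 2 := by linarith
  have h2k : (2 : ℝ) ^ k1 ≤ 2 ^ k2 := pow_le_pow_right₀ (by norm_num) hk12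
  have he10 : 0 < δz * Real.exp (-(CB * (4 + (B + B * J)))) := mul_pos hδz (Real.exp_pos _)
  have hdist : δz * Real.exp (-(CB * (4 + (B + B * J)))) ≤
      dist (cc 2) (cc 0) * Real.exp (-(CB * (4 + (B + B * J)))) :=
    mul_le_mul_of_nonneg_right hG.zlo (Real.exp_pos _).le
  obtain ⟨htop, hdd⟩ := v5 hG (by linarith) (t' := (J : ℝ) - 2) (Sg := B + B * J) (by linarith)
    (f11b_sum hK0 hJ3 hT1 hT3) (lt_of_lt_of_le hrNe1 hdist)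
  exact ⟨f11b_nb hG hR hRA hκ1 hrNΛ hΛ1 hn4 h2k hk1b,
    f11b_scales hG hR hRA hM hM100 hκM hΛ0 hη hΛ huc hH2 hcw
      (fun t0 ht0 ht0' => hwalk F hG.tri hG.m0 hG.m1 hG.m2 t0 ht0 ht0' hH2) htop
      (hdist.trans hdd) he10 hrNe1 hρ1 hρ1r hρ1A hj0 hj0M hk2 hgood⟩

/-- CHOICE OF PARAMETERS.  `R = max 1 (sqrt (13 A / a))`, `κ = 1/(2 CA R²)`, `M = ⌈2 CA R² + CA + 100⌉₊` (so `κ (M-38) ≥ 1`,
`CA R² + CA + 40 ≤ M`, `41 + CA ≤ 2M`), `K0 = ⌈CA + 5⌉₊`.  Given `B`: `Λ0 = 120 M B`, `η = a/A exp(-2CB(4+Λ0))`,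
`Λ = max 1 (A/a exp(2CB(4+Λ0)))`, `eu = r0/4 exp(-CB(4+B))`, `η' = a eu²`, `cw` from `walkfam M`, `c = cw/(4M)`; `k1` with
`Λ ≤ 2^k1` and `3 Λ R² ≤ 2 A r0² 2^k1`; `ρ1 = min r0 (sqrt (2^{-k1}/A))`; `j0 ≥ 2` with
`CA (max 1 (c1/ρ1))² < j0 M`; `J0` from `many_good` (for `M, j0, B`), `J0 ≥ K0 + 3`.  Given `J`: `Sg = B + B J`, `e1 = δz exp(-CB(4+Sg))`;
`k2 ≥ k1` with `1/(a e1²) ≤ 2^k2`; `rN > 0` with `rN ≤ r0/2`, `rN < e1`, `rN < eu`, `4 A rN² 2^k2 ≤ Λ`; `n0` with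
`3 ≤ Λ n0/2^k2`, `1 ≤ n0/2^k2`, `2^k1 ≤ n0`, `4 ≤ n0`.
PROOF for given `F`, `n = |vs F| ≥ n0`, packing from `RegEv`: `Geo` holds.  `uside` (`τ = CA + 2`) and
`uside_count`: `CA + 2 ≤ h 1 - h 2`, `η' n ≤ #{dep ≤ -2}`.  `v5` with `t' = J - 2` (the bands in `[⌊-(CA+2)⌋, J - 1]` have sum
`≤ Sg` by the first and third property of `Typ`): `J - 2 ≤ h 2`, `rN < e1 ≤ dd (J-2)`.
`¬ NBig`: `not_nbig` (`D1 = Λ n/2^k2/2 ≥ 2 A rN² n`, `D2 = 2Λ n/2^k1 + 1 ≤ 3Λ n/2^k1`).  For `j ∈ [j0, J/M - 4]` good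
(`many_good` with `b k = band F k`): `j M + 2M + 40 + CA ≤ J - 2`, `per_window` gives `k(j)`; `k(j) ≥ k1` since
`2^-k ≤ A dd(jM+38)² < A ρ1² ≤ 2^-k1` (`dd_lt'`), `k(j) ≤ k2` since `a e1² ≤ 2^-k`; `k(j) < k(j')` for `j < j'` because
`n/2^{k(j')} < cnt (j'M + M + 39) ≤ cnt (jM + 2M) ≤ n/2^{k(j)}`.  So the sum over `k` is at least
`∑_{j good} cw/(jM) ≥ cw/(4M) log J`. -/
theorem analysis' (a A r0 c0 δz c1 : ℝ) (ha : 0 < a) (hA : 0 < A) (hr0 : 0 < r0) (hc0 : 0 < c0)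
    (hδz : 0 < δz) (hc1 : δz ≤ c1) (h1 : 100 * c1 ≤ r0) (h2 : 100 * r0 ≤ c0) (h3 : 1000 * r0 ≤ 1) :
    ∃ K0 : ℕ, ∀ B : ℝ, 0 < B → ∃ (κ Λ η η' c : ℝ) (k1 J0 : ℕ), 1 ≤ Λ ∧ 0 < η ∧ 0 < η' ∧ 0 < c ∧
      Λ ≤ 2 ^ k1 ∧ ∀ J : ℕ, J0 ≤ J → ∃ (rN : ℝ) (k2 n0 : ℕ), 0 < rN ∧ k1 ≤ k2 ∧
        3 ≤ Λ * ((n0 : ℝ) / 2 ^ k2) ∧ 1 ≤ (n0 : ℝ) / 2 ^ k2 ∧
        ∀ F : Finset (ℕ × ℕ × ℕ), IsTri F → {0, 1, 2} ⊆ vs F → n0 ≤ (vs F).card →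
          Typ F K0 B J → RegEv a A rN r0 c0 δz c1 F →
          ¬ NBig F κ (Λ * ((vs F).card / 2 ^ k2) / 2) (2 * Λ * ((vs F).card / 2 ^ k1) + 1) ∧
          ENNReal.ofReal (c * Real.log J) ≤
            ∑ k ∈ Icc k1 k2, W (nbr F) (GoodStop F ((vs F).card / 2 ^ k) η η' Λ κ)  := by
  have hCA := one_le_CA
  have hCB := one_le_CB
  obtain ⟨R, hR, hRA⟩ := f11b_R ha hA
  have hR2 : 1 ≤ R ^ 2 := by nlinarith
  have hCR : 1 ≤ CA * R ^ 2 := by nlinarith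
  obtain ⟨M, hM⟩ : ∃ M : ℕ, 2 * CA * R ^ 2 + CA + 100 ≤ (M : ℝ) := ⟨_, Nat.le_ceil _⟩
  have hM100 : (103 : ℝ) ≤ M := by linarith
  have hM1 : 1 ≤ M := by
    have : (1 : ℝ) ≤ M := by linarith
    exact_mod_cast this
  have hM0 : (0 : ℝ) < M := by linarith
  obtain ⟨K0, hK0⟩ : ∃ K0 : ℕ, CA + 5 ≤ (K0 : ℝ) := ⟨_, Nat.le_ceil _⟩
  refine ⟨K0, fun B hB => ?_⟩
  obtain ⟨κ, hκdef⟩ : ∃ κ : ℝ, κ = 1 / (2 * CA * R ^ 2) := ⟨_, rfl⟩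
  have hκM : 1 ≤ κ * ((M : ℝ) - 38) := by
    rw [hκdef, one_div, ← div_eq_inv_mul, le_div_iff₀ (by positivity)]
    linarith
  have hκ1 : CA * R ^ 2 * κ < 1 := by
    have : CA * R ^ 2 * κ = 1 / 2 := by
      rw [hκdef]
      field_simp
    rw [this]
    norm_num
  obtain ⟨Λ0, hΛ0⟩ : ∃ Λ0 : ℝ, Λ0 = 120 * M * B := ⟨_, rfl⟩
  obtain ⟨η, hη⟩ : ∃ η : ℝ, η = a / A * Real.exp (-(2 * (CB * (4 + Λ0)))) := ⟨_, rfl⟩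
  obtain ⟨Λ, hΛ1, hΛ⟩ : ∃ Λ : ℝ, 1 ≤ Λ ∧ A / a * Real.exp (2 * (CB * (4 + Λ0))) ≤ Λ :=
    ⟨_, le_max_left _ _, le_max_right _ _⟩
  obtain ⟨cw, hcw, hwalk⟩ := walkfam (M := (M : ℝ)) (by linarith)
  obtain ⟨k1, hk1a, hk1b⟩ := f11b_k1 (R := R) (Λ := Λ) hA hr0
  obtain ⟨ρ1, hρ1, hρ1r, hρ1A⟩ := f11b_ρ1 hA hr0 k1
  obtain ⟨j0, hj0, hj0M⟩ := f11b_j0 hM100 (CA * (max 1 (c1 / ρ1)) ^ 2)
  obtain ⟨Jg, hJg⟩ := many_good hM1 hj0 hB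
  have hη0 : 0 < η := by rw [hη]; positivity
  have heu0 : 0 < r0 / 4 * Real.exp (-(CB * (4 + B))) := by positivity
  refine ⟨κ, Λ, η, a * (r0 / 4 * Real.exp (-(CB * (4 + B)))) ^ 2, cw / (4 * M), k1,
    max Jg (K0 + 3), hΛ1, hη0, by positivity, by positivity, hk1a, fun J hJ => ?_⟩
  have hJg' : Jg ≤ J := (le_max_left _ _).trans hJ
  have hJK : K0 + 3 ≤ J := (le_max_right _ _).trans hJ
  have he10 : 0 < δz * Real.exp (-(CB * (4 + (B + B * J)))) := mul_pos hδz (Real.exp_pos _)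
  obtain ⟨k2, hk2, hk12⟩ := f11b_k2 ha he10 k1
  obtain ⟨rN, hrN0, hrNr, hrNe1, hrNeu, hrNΛ⟩ :=
    f11b_rN hA hr0 he10 heu0 (zero_lt_one.trans_le hΛ1) k2
  have hn0 : (((4 * 2 ^ k2 : ℕ) : ℝ)) / 2 ^ k2 = 4 := by
    push_cast
    field_simp
  refine ⟨rN, k2, 4 * 2 ^ k2, hrN0, hk12, ?_, ?_, ?_⟩
  · rw [hn0]
    linarith
  · rw [hn0]
    norm_num
  intro F hF hsub hn hTyp hReg
  obtain ⟨cc, rr, hP, hreg0, hreg1, hfar, hzlo, hzhi⟩ := hReg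
  have hfour : 4 ≤ (vs F).card := by
    have : 1 ≤ 2 ^ k2 := Nat.one_le_two_pow
    omega
  have hG : Geo F cc rr a A rN r0 c0 δz c1 :=
    { tri := hF, m0 := hsub (by simp), m1 := hsub (by simp), m2 := hsub (by simp), four := hfour,
      pack := hP, reg0 := hreg0, reg1 := hreg1, far := hfar, zlo := hzlo, zhi := hzhi,
      a_pos := ha, A_pos := hA, rN_pos := hrN0, rN_le := hrNr, δz_pos := hδz, h1 := h1, h2 := h2,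
      h3 := h3 }
  have hn4 : 4 * 2 ^ k2 ≤ ((vs F).card : ℝ) := by
    have h5 : ((4 * 2 ^ k2 : ℕ) : ℝ) ≤ ((vs F).card : ℝ) := by exact_mod_cast hn
    push_cast at h5
    exact h5
  have hJ3 : (3 : ℝ) ≤ J := by
    have : 3 ≤ J := by omega
    exact_mod_cast this
  exact f11b_F hG hR hRA hM hM100 hK0 hB hκM hκ1 hΛ0 hη hΛ hΛ1 hcw hwalk hk1b hρ1 hρ1r hρ1A hj0
    hj0M (hJg J hJg' (fun k => band F (k : ℤ)) (fun k => band_nonneg F k) hTyp.2.1) hJ3 hk12 hk2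
    hrNe1 hrNeu hrNΛ hn4 hTyp

end H19S
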