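import Pool.Agent.Lib.H19S.G6a

/-!
# H19S, chunk G6b: the hole of a smaller set, consequences
-/

namespace H19S

open Finset

theorem G6b_vs_mono {R R' : Finset (ℕ × ℕ × ℕ)} (h : R ⊆ R') : vs R ⊆ vs R' := by
  intro x hx
  obtain ⟨a, b, hab⟩ := mem_vs.1 hx
  exact mem_vs.2 ⟨a, b, h hab⟩

theorem Val.G6b_bdv {F : Finset (ℕ × ℕ × ℕ)} {K : Finset ℕ} (hV : Val F K) {i : ℕ}
    (hi : i = 0 ∨ i = 1) {x : ℕ} (h : x ∈ vs (hole F K i)) (h' : x ∈ vs (ext F K)) :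
    x ∈ vb (bd (hole F K i)) := by
  refine mem_vb_of_both hV.tri.toIsSurf hole_subset' (hole_rotC hV.tri.toIsSurf) h ?_
  refine G6b_vs_mono ?_ h'
  intro t ht
  rw [mem_sdiff]
  exact ⟨G6a_ext_sub ht, G6a_ext_not ht hi⟩

/-- a vertex of the hole `i` of `F` lying in the exterior is a vertex of the hole `i` of `F'` -/
theorem G6b_bdv' {F F' : Finset (ℕ × ℕ × ℕ)} {K : Finset ℕ} (hV : Val F K) (hV' : Val F' K)
    (hk : key F K = key F' K) {i : ℕ} (hi : i = 0 ∨ i = 1) {x : ℕ} (h : x ∈ vs (hole F K i))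
    (h' : x ∈ vs (ext F K)) : x ∈ vs (hole F' K i) := by
  have h1 := hV.G6b_bdv hi h h'
  rw [G6a_bd hk hi] at h1
  exact vb_bd_subset (hole_rotC hV'.tri.toIsSurf) h1

theorem G6b_mem_inner {F R : Finset (ℕ × ℕ × ℕ)} {x : ℕ} (hR : R ⊆ F) :
    x ∈ inner F R ↔ x ∈ vs F ∧ ∀ a b, (x, a, b) ∈ F → (x, a, b) ∈ R := by
  unfold inner
  rw [Finset.mem_filter]
  constructor
  · rintro ⟨h1, h2⟩
    exact ⟨G6b_vs_mono hR h1, fun a b h => h2 _ h rfl⟩
  · rintro ⟨h1, h2⟩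
    obtain ⟨a, b, hab⟩ := mem_vs.1 h1
    refine ⟨mem_vs.2 ⟨a, b, h2 a b hab⟩, ?_⟩
    rintro ⟨t1, t2, t3⟩ ht h
    simp only at h
    subst h
    exact h2 _ _ ht

theorem G6b_inner_mono {F R R' : Finset (ℕ × ℕ × ℕ)} (h : R ⊆ R') (hR' : R' ⊆ F) :
    inner F R ⊆ inner F R' := by
  intro x hx
  rw [G6b_mem_inner (h.trans hR')] at hx
  rw [G6b_mem_inner hR']
  exact ⟨hx.1, fun a b hab => h (hx.2 a b hab)⟩

theorem Val.G6b_vsF {F : Finset (ℕ × ℕ × ℕ)} {K : Finset ℕ} (hV : Val F K) {x : ℕ}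
    (hx : x ∈ vs F) (h : x ∉ vs (ext F K)) : ∃ i, (i = 0 ∨ i = 1) ∧ x ∈ inner F (hole F K i) := by
  rw [vs_ext hV, mem_sdiff, mem_sdiff] at h
  by_cases h0 : x ∈ inner F (hole F K 0)
  · exact ⟨0, Or.inl rfl, h0⟩
  · refine ⟨1, Or.inr rfl, ?_⟩
    by_contra h1
    exact h ⟨⟨hx, h0⟩, h1⟩

/-- transfer of the vertices of the holes of `K''` -/
theorem G6b_vtransfer {F F' : Finset (ℕ × ℕ × ℕ)} {K K'' : Finset ℕ} (hV : Val F K)
    (hV' : Val F' K) (hk : key F K = key F' K) (hK'' : K'' ⊆ K) {y : ℕ} (hy : y = 0 ∨ y = 1)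
    {x : ℕ} (hx : x ∈ vs (hole F K'' y)) (hxE : x ∈ vs (ext F K)) : x ∈ vs (hole F' K'' y) := by
  obtain ⟨a, b, hab⟩ := mem_vs.1 hx
  have hm := G6a_main hV hV' hk hK'' hy hab
  rcases Val.G6a_part (K := K) (hole_subset' hab) with h1 | ⟨i, hi, h1⟩
  · exact mem_vs.2 ⟨a, b, hm.1 h1⟩
  · have h2 := G6b_bdv' hV hV' hk hi (mem_vs.2 ⟨a, b, h1⟩) hxE
    exact G6b_vs_mono (hm.2 i hi h1) h2

theorem G6b_ext_inner {F F' : Finset (ℕ × ℕ × ℕ)} {K K'' : Finset ℕ} (hV : Val F K)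
    (hV' : Val F' K) (hk : key F K = key F' K) (hK'' : K'' ⊆ K) {x : ℕ}
    (hx : x ∈ inner F (hole F K'' 0)) (hxE : x ∈ vs (ext F K)) :
    x ∈ inner F' (hole F' K'' 0) := by
  rw [G6b_mem_inner hole_subset'] at hx ⊢
  have hE := G6a_ext hk
  refine ⟨?_, fun a b hab => ?_⟩
  · rw [hE] at hxE
    refine G6b_vs_mono ?_ hxE
    exact fun t ht => G6a_ext_sub ht
  · rcases Val.G6a_part (K := K) hab with h1 | ⟨i, hi, h1⟩
    · rw [← hE] at h1
      exact (G6a_main hV hV' hk hK'' (Or.inl rfl) (hx.2 a b (G6a_ext_sub h1))).1 h1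
    · have hxE' := hxE
      rw [hE] at hxE'
      have h2 := G6b_bdv' hV' hV hk.symm hi (mem_vs.2 ⟨a, b, h1⟩) hxE'
      obtain ⟨a', b', hab'⟩ := mem_vs.1 h2
      exact (G6a_main hV hV' hk hK'' (Or.inl rfl) (hx.2 a' b' (hole_subset' hab'))).2 i hi hab' h1

theorem G6b_ext_inner_eq {F F' : Finset (ℕ × ℕ × ℕ)} {K K'' : Finset ℕ} (hV : Val F K)
    (hV' : Val F' K) (hk : key F K = key F' K) (hK'' : K'' ⊆ K) :
    inner F (hole F K'' 0) ∩ vs (ext F K) = inner F' (hole F' K'' 0) ∩ vs (ext F' K) := by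
  have hE := G6a_ext hk
  ext x
  rw [mem_inter, mem_inter]
  constructor
  · rintro ⟨h1, h2⟩
    exact ⟨G6b_ext_inner hV hV' hk hK'' h1 h2, hE ▸ h2⟩
  · rintro ⟨h1, h2⟩
    exact ⟨G6b_ext_inner hV' hV hk.symm hK'' h1 h2, hE ▸ h2⟩

theorem Val.G6b_inner_disj {F : Finset (ℕ × ℕ × ℕ)} {K : Finset ℕ} (hV : Val F K) :
    Disjoint (inner F (hole F K 0)) (inner F (hole F K 1)) := by
  refine Finset.disjoint_of_subset_left ?_ (Finset.disjoint_of_subset_right ?_ hV.disj)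
  · exact Finset.filter_subset _ _
  · exact Finset.filter_subset _ _

theorem Val.G6b_card {F : Finset (ℕ × ℕ × ℕ)} {K K'' : Finset ℕ} (hV : Val F K)
    (hK'' : K'' ⊆ K) : Mh F K'' 0 = Mh F K 0 +
      (if hole F K 1 ⊆ hole F K'' 0 then Mh F K 1 else 0) +
      (inner F (hole F K'' 0) ∩ vs (ext F K)).card := by
  have h01 := G6b_inner_mono (F := F) (G6a_hole_mono (F := F) hK'' 0) hole_subset'
  have hsplit : inner F (hole F K'' 0) = inner F (hole F K 0) ∪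
      (if hole F K 1 ⊆ hole F K'' 0 then inner F (hole F K 1) else ∅) ∪
      (inner F (hole F K'' 0) ∩ vs (ext F K)) := by
    ext x
    rw [mem_union, mem_union, mem_inter]
    constructor
    · intro hx
      by_cases hE : x ∈ vs (ext F K)
      · exact Or.inr ⟨hx, hE⟩
      left
      obtain ⟨i, hi, h⟩ := hV.G6b_vsF ((G6b_mem_inner hole_subset').1 hx).1 hE
      rcases hi with rfl | rfl
      · exact Or.inl h
      · right
        rw [if_pos]
        · exact h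
        · rw [G6b_mem_inner hole_subset'] at hx h
          obtain ⟨a, b, hab⟩ := mem_vs.1 hx.1
          exact hV.G6a_all hK'' (Or.inr rfl) (h.2 a b hab) (hx.2 a b hab)
    · rintro ((h | h) | h)
      · exact h01 h
      · split_ifs at h with hc
        · exact G6b_inner_mono hc hole_subset' h
        · exact absurd h (Finset.notMem_empty x)
      · exact h.1
  have hd1 : Disjoint (inner F (hole F K 0))
      (if hole F K 1 ⊆ hole F K'' 0 then inner F (hole F K 1) else ∅) := by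
    split_ifs
    · exact hV.G6b_inner_disj
    · exact Finset.disjoint_empty_right _
  have hd2 : Disjoint (inner F (hole F K 0) ∪
      (if hole F K 1 ⊆ hole F K'' 0 then inner F (hole F K 1) else ∅))
      (inner F (hole F K'' 0) ∩ vs (ext F K)) := by
    rw [Finset.disjoint_left]
    intro x hx hx2
    rw [mem_inter, vs_ext hV, mem_sdiff, mem_sdiff] at hx2
    rw [mem_union] at hx
    rcases hx with hx | hx
    · exact hx2.2.1.2 hx
    · split_ifs at hx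
      · exact hx2.2.2 hx
      · exact absurd hx (Finset.notMem_empty x)
  unfold Mh
  rw [hsplit, Finset.card_union_of_disjoint hd2, Finset.card_union_of_disjoint hd1, ← hsplit]
  congr 2
  split_ifs
  · rfl
  · rfl

/-- (chunk G6b) Inner vertices: `x` in the exterior is inner for `hole F K'' 0` iff it is for `hole F' K'' 0`
(its faces are in the exterior or in the holes of `K`); so, if `F'` has `d` more vertices in the hole of `K` at `0` and
at least as many at `1`, then `Mh F' K'' 0 ≥ Mh F K'' 0 + d`. -/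
theorem subhole_card {F F' : Finset (ℕ × ℕ × ℕ)} {K K'' : Finset ℕ} (hV : Val F K) (hV' : Val F' K)
    (hk : key F K = key F' K) (hK'' : K'' ⊆ K) {d : ℕ} (h0 : Mh F' K 0 = Mh F K 0 + d)
    (h1 : Mh F K 1 ≤ Mh F' K 1) : Mh F K'' 0 + d ≤ Mh F' K'' 0 := by
  rw [hV.G6b_card hK'', hV'.G6b_card hK'', h0, G6b_ext_inner_eq hV hV' hk hK'']
  have h2 := (subhole_ext hV hV' hk hK'' (Or.inl rfl : (0 : ℕ) = 0 ∨ (0 : ℕ) = 1)).2.2.1
  simp only [Nat.sub_zero] at h2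
  by_cases h3 : hole F K 1 ⊆ hole F K'' 0
  · rw [if_pos h3, if_pos (h2.1 h3)]
    omega
  · rw [if_neg h3, if_neg fun h => h3 (h2.2 h)]
    omega

/-- the content of hole `i` is not in the hole `j` of `K''` if the holes of `K''` are disjoint -/
theorem G6b_not_sub {F : Finset (ℕ × ℕ × ℕ)} {K K'' : Finset ℕ} (hV : Val F K)
    (hV2 : Val F K'') (hK'' : K'' ⊆ K) {i j : ℕ} (hi : i = 0 ∨ i = 1) (hj : j = 0 ∨ j = 1)
    {t : ℕ × ℕ × ℕ} (ht : t ∈ hole F K i) (ht' : t ∈ hole F K'' j) : i = j := by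
  obtain ⟨a, b, c⟩ := t
  have h1 := G6a_hole_mono hK'' i ht
  exact hV2.G6a_disj hi hj (mem_vs.2 ⟨_, _, h1⟩) (mem_vs.2 ⟨_, _, ht'⟩)

theorem G6b_bd_sub {F F' : Finset (ℕ × ℕ × ℕ)} {K K'' : Finset ℕ} (hV : Val F K)
    (hV' : Val F' K) (hk : key F K = key F' K) (hK'' : K'' ⊆ K) (hV2 : Val F K'')
    {i : ℕ} (hi : i = 0 ∨ i = 1) : bd (hole F K'' i) ⊆ bd (hole F' K'' i) := by
  have hS := hV.tri.toIsSurf
  have hS' := hV'.tri.toIsSurf
  rintro ⟨a, b⟩ hab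
  have hab' := mem_bd.1 hab
  obtain ⟨⟨c, hc⟩, hn⟩ := hab'
  obtain ⟨d, hd⟩ := hS.opp (hole_subset' hc)
  have hdE : (b, a, d) ∈ ext F K := by
    rcases Val.G6a_part (K := K) hd with h1 | ⟨j, hj, h1⟩
    · exact h1
    · exfalso
      have h2 := G6a_hole_mono hK'' j h1
      have h3 : i = j := hV2.G6a_disj hi hj (mem_vs.2 ⟨_, _, hc⟩)
        (mem_vs.2 ⟨_, _, hole_rotC hS h2⟩)
      subst h3
      exact hn d h2
  have hdn : (b, a, d) ∉ hole F' K'' i := by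
    intro h
    exact hn d (((subhole_ext hV hV' hk hK'' hi).1 _ hdE).2 h)
  have hdF' : (b, a, d) ∈ F' := by
    rw [G6a_ext hk] at hdE
    exact G6a_ext_sub hdE
  rw [mem_bd]
  refine ⟨?_, fun d' hd' => ?_⟩
  · have hm := G6a_main hV hV' hk hK'' hi hc
    rcases Val.G6a_part (K := K) (hole_subset' hc) with h1 | ⟨j, hj, h1⟩
    · exact ⟨c, hm.1 h1⟩
    · have hb : (a, b) ∈ bd (hole F K j) := by
        rw [mem_bd]
        refine ⟨⟨c, h1⟩, fun d' hd' => ?_⟩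
        have := hS.uniq (hole_subset' hd') hd
        subst this
        exact G6a_ext_not hdE hj hd'
      rw [G6a_bd hk hj, mem_bd] at hb
      obtain ⟨⟨c', hc'⟩, -⟩ := hb
      exact ⟨c', hm.2 j hj h1 hc'⟩
  · have := hS'.uniq (hole_subset' hd') hdF'
    subst this
    exact hdn hd'

theorem G6b_key {F F' : Finset (ℕ × ℕ × ℕ)} {K K'' : Finset ℕ} (hV : Val F K)
    (hV' : Val F' K) (hk : key F K = key F' K) (hK'' : K'' ⊆ K) (hV2 : Val F K'')
    (hV2' : Val F' K'') : key F K'' = key F' K'' := by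
  have hb : ∀ i : ℕ, (i = 0 ∨ i = 1) → bd (hole F K'' i) = bd (hole F' K'' i) := fun i hi =>
    Finset.Subset.antisymm (G6b_bd_sub hV hV' hk hK'' hV2 hi)
      (G6b_bd_sub hV' hV hk.symm hK'' hV2' hi)
  have hext : ∀ {G G' : Finset (ℕ × ℕ × ℕ)}, Val G K → Val G' K → key G K = key G' K →
      ext G K'' ⊆ ext G' K'' := by
    intro G G' hG hG' hk t ht
    have h0 : t ∉ hole G K 0 := fun h =>
      G6a_ext_not ht (Or.inl rfl) (G6a_hole_mono hK'' 0 h)
    have h1 : t ∉ hole G K 1 := fun h =>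
      G6a_ext_not ht (Or.inr rfl) (G6a_hole_mono hK'' 1 h)
    have hE : t ∈ ext G K := by
      unfold ext
      rw [mem_sdiff, mem_sdiff]
      exact ⟨⟨G6a_ext_sub ht, h0⟩, h1⟩
    have hn : ∀ i : ℕ, (i = 0 ∨ i = 1) → t ∉ hole G' K'' i := fun i hi h =>
      G6a_ext_not ht hi (((subhole_ext hG hG' hk hK'' hi).1 _ hE).2 h)
    unfold ext
    rw [mem_sdiff, mem_sdiff]
    refine ⟨⟨?_, hn 0 (Or.inl rfl)⟩, hn 1 (Or.inr rfl)⟩
    rw [G6a_ext hk] at hE
    exact G6a_ext_sub hE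
  unfold key
  rw [hb 0 (Or.inl rfl), hb 1 (Or.inr rfl),
    Finset.Subset.antisymm (hext hV hV' hk) (hext hV' hV hk.symm)]

/-- (chunk G6b) If moreover `K''` is such that `Val F' K''` (so the holes of `K''` at `0` and `1` are different), then `Val F K''` (if
`K''` is connected in `F`, nonempty), the keys of `F` and `F'` with respect to `K''` agree, and
`Mh F' K'' 0 = Mh F K'' 0 + d`. -/
theorem subhole_val {F F' : Finset (ℕ × ℕ × ℕ)} {K K'' : Finset ℕ} (hV : Val F K) (hV' : Val F' K)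
    (hk : key F K = key F' K) (hK'' : K'' ⊆ K) {d : ℕ} (h0 : Mh F' K 0 = Mh F K 0 + d)
    (hV'' : Val F' K'') (hc : ConnIn F (K'' : Set ℕ)) :
    Val F K'' ∧ key F K'' = key F' K'' ∧ Mh F' K'' 0 = Mh F K'' 0 + d := by
  have hin : ∀ i : ℕ, (i = 0 ∨ i = 1) → i ∈ inner F (hole F K'' i) := fun i hi =>
    G6b_inner_mono (G6a_hole_mono hK'' i) hole_subset' (hV.G6a_in hi)
  have hcon : ∀ i j : ℕ, (i = 0 ∨ i = 1) → (j = 0 ∨ j = 1) → ∀ t, t ∈ hole F K i →
      t ∈ hole F K'' j → i = j := by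
    intro i j hi hj t h1 h2
    have h3 := (G6a_main hV hV' hk hK'' hj h2).2 i hi h1
    obtain ⟨s, hs⟩ := hV'.G6a_ne hi
    exact G6b_not_sub hV' hV'' hK'' hi hj hs (h3 hs)
  have hdisj : Disjoint (vs (hole F K'' 0)) (vs (hole F K'' 1)) := by
    rw [Finset.disjoint_left]
    intro x hx0 hx1
    by_cases hE : x ∈ vs (ext F K)
    · exact Finset.disjoint_left.1 hV''.disj
        (G6b_vtransfer hV hV' hk hK'' (Or.inl rfl) hx0 hE)
        (G6b_vtransfer hV hV' hk hK'' (Or.inr rfl) hx1 hE)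
    · have hxF : x ∈ vs F := G6b_vs_mono hole_subset' hx0
      obtain ⟨i, hi, h⟩ := hV.G6b_vsF hxF hE
      rw [G6b_mem_inner hole_subset'] at h
      obtain ⟨a, b, h1⟩ := mem_vs.1 hx0
      obtain ⟨a', b', h2⟩ := mem_vs.1 hx1
      have e0 := hcon i 0 hi (Or.inl rfl) _ (h.2 a b (hole_subset' h1)) h1
      have e1 := hcon i 1 hi (Or.inr rfl) _ (h.2 a' b' (hole_subset' h2)) h2
      omega
  have hV2 : Val F K'' :=
    { tri := hV.tri
      sub := hK''.trans hV.sub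
      ne := hV''.ne
      conn := hc
      in0 := hin 0 (Or.inl rfl)
      in1 := hin 1 (Or.inr rfl)
      disj := hdisj }
  refine ⟨hV2, G6b_key hV hV' hk hK'' hV2 hV'', ?_⟩
  rw [hV.G6b_card hK'', hV'.G6b_card hK'', h0, G6b_ext_inner_eq hV hV' hk hK'']
  have n1 : ¬ hole F K 1 ⊆ hole F K'' 0 := by
    intro h
    obtain ⟨s, hs⟩ := hV.G6a_ne (Or.inr rfl : (1 : ℕ) = 0 ∨ (1 : ℕ) = 1)
    have := G6b_not_sub hV hV2 hK'' (Or.inr rfl) (Or.inl rfl) hs (h hs)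
    omega
  have n2 : ¬ hole F' K 1 ⊆ hole F' K'' 0 := by
    intro h
    obtain ⟨s, hs⟩ := hV'.G6a_ne (Or.inr rfl : (1 : ℕ) = 0 ∨ (1 : ℕ) = 1)
    have := G6b_not_sub hV' hV'' hK'' (Or.inr rfl) (Or.inl rfl) hs (h hs)
    omega
  rw [if_neg n1, if_neg n2]
  omega

end H19S
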