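import Pool.Agent.Lib.H19S.G5a
import Pool.Agent.Lib.H19S.G6b

/-!
# H19S, chunk G7: elements of Tk are stopped at a level
-/

namespace H19S

open Finset
open scoped ENNReal

theorem G7_card {F : Finset (ℕ × ℕ × ℕ)} {K : Finset ℕ} (hV : Val F K) :
    (vs F).card = (vs (ext F K)).card + Mh F K 0 + Mh F K 1 := by
  have h0 : inner F (hole F K 0) ⊆ vs F := fun x hx => ((G6b_mem_inner hole_subset').1 hx).1
  have h1 : inner F (hole F K 1) ⊆ vs F \ inner F (hole F K 0) := fun x hx =>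
    mem_sdiff.2 ⟨((G6b_mem_inner hole_subset').1 hx).1,
      fun h => Finset.disjoint_left.1 hV.G6b_inner_disj h hx⟩
  have e1 := card_sdiff_add_card_eq_card h0
  have e2 := card_sdiff_add_card_eq_card h1
  rw [vs_ext hV]
  unfold Mh
  omega

theorem G7_labN {N n : ℕ} {F : Finset (ℕ × ℕ × ℕ)} (h : F ∈ LabN N n) : (vs F).card = n := by
  classical
  simp only [LabN, mem_filter] at h
  exact h.2.2.2

/-- (chunk G7) Elements of `Tk` are stopped at the first time when the hole at `0` has at most `μ + Δ` inner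
vertices: `subhole_card` for the proper prefixes (the hole at `1` does not lose vertices because
`|vs F'| - |vs F| = Δs ≥ Δ`). -/
theorem tk_stop {N n Δ Δs : ℕ} {D1 D2 μ η η' Λ κ : ℝ} (hΔs : Δ ≤ Δs) {F' : Finset (ℕ × ℕ × ℕ)}
    (hF' : F' ∈ LabN N (n + Δs)) {π : List ℕ} (hπ : π ∈ Tk N n D1 D2 μ η η' Λ κ Δ F') :
    (Mh F' π.toFinset 0 : ℝ) ≤ μ + Δ ∧
      ∀ π' : List ℕ, π' <+: π → π' ≠ [] → π' ≠ π → μ + Δ < Mh F' π'.toFinset 0 := by
  obtain ⟨hV', -, F, hF, -, hG, -, hV, hk, hM⟩ := hπ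
  obtain ⟨-, hle, hpre, -⟩ := hG
  have c1 := G7_card hV
  have c2 := G7_card hV'
  rw [G7_labN hF] at c1
  rw [G7_labN hF', ← G6a_ext hk] at c2
  have h1 : Mh F π.toFinset 1 ≤ Mh F' π.toFinset 1 := by omega
  constructor
  · rw [hM]
    push_cast
    linarith
  · intro π' h2 h3 h4
    have hsub : π'.toFinset ⊆ π.toFinset := by
      intro x hx
      rw [List.mem_toFinset] at hx ⊢
      exact h2.subset hx
    have h5 := subhole_card hV hV' hk hsub hM h1
    have h6 := hpre π' h2 h3 h4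
    have h7 : (Mh F π'.toFinset 0 : ℝ) + Δ ≤ Mh F' π'.toFinset 0 := by exact_mod_cast h5
    linarith

end H19S
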