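import Pool.Agent.Lib.H19S.G2

/-!
# H19S, chunk G8a: transfer of the certificate
-/

namespace H19S

open Finset
open scoped ENNReal

section g8a

variable {α : Type*} [DecidableEq α]

/-- The vertices of a dual connected set of faces are connected. -/
theorem g8a_conn {F R : Finset (α × α × α)} (hRF : R ⊆ F)
    (hc : ∀ s ∈ R, ∀ t ∈ R, Relation.ReflTransGen (RStep R) s t) :
    ConnIn F (vs R : Set α) := by
  intro x hx y hy
  obtain ⟨a, b, hs⟩ := mem_vs.mp (mem_coe.mp hx)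
  obtain ⟨c, d, ht⟩ := mem_vs.mp (mem_coe.mp hy)
  have key : ∀ t, Relation.ReflTransGen (RStep R) (x, a, b) t →
      Relation.ReflTransGen (fun p q => q ∈ (vs R : Set α) ∧ Adj F p q) x t.1 := by
    intro t h
    induction h with
    | refl => exact Relation.ReflTransGen.refl
    | @tail p q hp hpq ih =>
      have hpR : p ∈ R := a1_mem hs hp
      obtain ⟨p1, p2, p3⟩ := p
      obtain ⟨q1, q2, q3⟩ := q
      have hq : q1 = p2 := by
        rcases hpq.2 with h | ⟨d, h⟩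
        · simp only [Prod.mk.injEq] at h
          exact h.1
        · simp only [Prod.mk.injEq] at h
          exact h.1
      subst hq
      refine ih.tail ⟨?_, ⟨p3, hRF hpR⟩⟩
      exact mem_coe.mpr (mem_vs.mpr ⟨_, _, hpq.1⟩)
  exact key _ (hc _ hs _ ht)

theorem g8a_symm {F : Finset (α × α × α)} (hF : IsSurf F) {A : Set α} {x y : α} (hx : x ∈ A)
    (h : Relation.ReflTransGen (fun p q => q ∈ A ∧ Adj F p q) x y) :
    Relation.ReflTransGen (fun p q => q ∈ A ∧ Adj F p q) y x := by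
  have : y ∈ A ∧ Relation.ReflTransGen (fun p q => q ∈ A ∧ Adj F p q) y x := by
    induction h with
    | refl => exact ⟨hx, Relation.ReflTransGen.refl⟩
    | @tail p q _ hpq ih =>
      exact ⟨hpq.1, Relation.ReflTransGen.head ⟨ih.1, hF.adj_symm hpq.2⟩ ih.2⟩
  exact this.2

end g8a

theorem g8a_ext_sub {F : Finset (ℕ × ℕ × ℕ)} {K : Finset ℕ} : ext F K ⊆ F :=
  fun _ ht => (mem_sdiff.mp (mem_sdiff.mp ht).1).1

theorem g8a_mem {F : Finset (ℕ × ℕ × ℕ)} {K : Finset ℕ} {t : ℕ × ℕ × ℕ} (ht : t ∈ F) :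
    t ∈ ext F K ∨ t ∈ hole F K 0 ∨ t ∈ hole F K 1 := by
  unfold ext
  simp only [mem_sdiff]
  tauto

theorem g8a_rot {F : Finset (ℕ × ℕ × ℕ)} (hF : IsSurf F) {K : Finset ℕ} : RotC (ext F K) := by
  intro a b c h
  obtain ⟨h1, h2⟩ := mem_sdiff.mp h
  obtain ⟨h3, h4⟩ := mem_sdiff.mp h1
  refine mem_sdiff.mpr ⟨mem_sdiff.mpr ⟨hF.rot h3, fun h5 => h4 ?_⟩, fun h5 => h2 ?_⟩
  · exact hole_rotC hF (hole_rotC hF h5)
  · exact hole_rotC hF (hole_rotC hF h5)

/-- A vertex of the exterior and of the hole at `0` is on the boundary of the hole. -/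
theorem g8a_vb0 {F : Finset (ℕ × ℕ × ℕ)} (hF : IsSurf F) {K : Finset ℕ} {x : ℕ}
    (hx : x ∈ vs (ext F K)) (h : x ∈ vs (hole F K 0)) : x ∈ vb (bd (hole F K 0)) := by
  refine mem_vb_of_both hF hole_subset' (hole_rotC hF) h ?_
  obtain ⟨a, b, hab⟩ := mem_vs.mp hx
  exact mem_vs.mpr ⟨a, b, (mem_sdiff.mp hab).1⟩

theorem g8a_vb1 {F : Finset (ℕ × ℕ × ℕ)} (hF : IsSurf F) {K : Finset ℕ} {x : ℕ}
    (hx : x ∈ vs (ext F K)) (h : x ∈ vs (hole F K 1)) : x ∈ vb (bd (hole F K 1)) := by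
  refine mem_vb_of_both hF hole_subset' (hole_rotC hF) h ?_
  obtain ⟨a, b, hab⟩ := mem_vs.mp hx
  obtain ⟨h1, h2⟩ := mem_sdiff.mp hab
  exact mem_vs.mpr ⟨a, b, mem_sdiff.mpr ⟨(mem_sdiff.mp h1).1, h2⟩⟩

theorem g8a_card {F : Finset (ℕ × ℕ × ℕ)} (hF : IsSurf F) {K : Finset ℕ} :
    (vs (hole F K 0)).card = Mh F K 0 + (vb (bd (hole F K 0))).card := by
  unfold Mh
  rw [inner_eq hF hole_subset' (hole_rotC hF)]
  exact (card_sdiff_add_card_eq_card (vb_bd_subset (hole_rotC hF))).symm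

theorem g8a_vs_cases {F : Finset (ℕ × ℕ × ℕ)} {K : Finset ℕ} {x : ℕ} (hx : x ∈ vs F) :
    x ∈ vs (ext F K) ∨ x ∈ vs (hole F K 0) ∨ x ∈ vs (hole F K 1) := by
  obtain ⟨a, b, h⟩ := mem_vs.mp hx
  rcases g8a_mem (K := K) h with h1 | h1 | h1
  · exact Or.inl (mem_vs.mpr ⟨_, _, h1⟩)
  · exact Or.inr (Or.inl (mem_vs.mpr ⟨_, _, h1⟩))
  · exact Or.inr (Or.inr (mem_vs.mpr ⟨_, _, h1⟩))

theorem g8a_vs_mono {F R : Finset (ℕ × ℕ × ℕ)} (h : R ⊆ F) : vs R ⊆ vs F := by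
  intro x hx
  obtain ⟨a, b, hab⟩ := mem_vs.mp hx
  exact mem_vs.mpr ⟨a, b, h hab⟩

/-- (chunk G8a) Transfer of the certificate.  `F1` and `F2` have the same key with respect to `K`, and `(Q, g)` is a certificate for `F1`.  Put
`H = vs (hole F2 K 0)`, `Q2 = (Q ∩ vs (ext)) ∪ vs (hole F2 K 1)`, `g2 = g` on `vs (ext)`, `0` on `H`,
`1` on `Q2` (consistent since `g = 0` on `vs (hole F1 K 0) ⊇` boundary and `vs (hole F1 K 1) ⊆ Q`).  `H` is connected (`hole_conn`), `Q2` is connected (replace the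
parts of a path of `Q` inside the hole at `1` by paths in the new content, all its boundary vertices being in
`vs (hole F2 K 1)`, which is connected).  Energy: only faces of the exterior contribute. -/
theorem transfer {F1 F2 : Finset (ℕ × ℕ × ℕ)} {K : Finset ℕ} (hV1 : Val F1 K) (hV2 : Val F2 K)
    (hk : key F1 K = key F2 K) {Q : Finset ℕ} {g : ℕ → ℝ} (hQ : Q ⊆ vs F1)
    (hQc : ConnIn F1 (Q : Set ℕ)) (hQ1 : vs (hole F1 K 1) ⊆ Q)
    (hQ0 : Disjoint (vs (hole F1 K 0)) Q) (hg0 : ∀ x ∈ vs (hole F1 K 0), g x = 0)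
    (hg1 : ∀ x ∈ Q, g x = 1) :
    ∃ (Q2 : Finset ℕ) (g2 : ℕ → ℝ), Q2 ⊆ vs F2 ∧ ConnIn F2 (Q2 : Set ℕ) ∧
      ConnIn F2 (vs (hole F2 K 0) : Set ℕ) ∧ 1 ∈ Q2 ∧ (∀ x ∈ vs (hole F2 K 0), g2 x = 0) ∧
      (∀ x ∈ Q2, g2 x = 1) ∧ energy F2 g2 ≤ energy F1 g ∧
      (vs F2 \ Q2).card ≤ (vs F1 \ Q).card + (vs (hole F2 K 0)).card ∧
      (vs (hole F1 K 0)).card ≤ (vs F1 \ Q).card ∧
      (vs (hole F2 K 0)).card + Mh F1 K 0 = (vs (hole F1 K 0)).card + Mh F2 K 0 := by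
  classical
  have hS1 : IsSurf F1 := hV1.tri.toIsSurf
  have hS2 : IsSurf F2 := hV2.tri.toIsSurf
  unfold key at hk
  simp only [Prod.mk.injEq] at hk
  obtain ⟨hE, hB0, hB1⟩ := hk
  -- boundary vertices
  have hb0 : ∀ x ∈ vs (ext F1 K), x ∈ vs (hole F2 K 0) → x ∈ vs (hole F1 K 0) := by
    intro x hx h
    rw [hE] at hx
    have h1 := g8a_vb0 hS2 hx h
    rw [← hB0] at h1
    exact vb_bd_subset (hole_rotC hS1) h1
  have hb1 : ∀ x ∈ vs (ext F1 K), x ∈ vs (hole F2 K 1) → x ∈ vs (hole F1 K 1) := by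
    intro x hx h
    rw [hE] at hx
    have h1 := g8a_vb1 hS2 hx h
    rw [← hB1] at h1
    exact vb_bd_subset (hole_rotC hS1) h1
  have hb1' : ∀ x ∈ vs (ext F1 K), x ∈ vs (hole F1 K 1) → x ∈ vs (hole F2 K 1) := by
    intro x hx h
    have h1 := g8a_vb1 hS1 hx h
    rw [hB1] at h1
    exact vb_bd_subset (hole_rotC hS2) h1
  have hd2 := Finset.disjoint_left.mp hV2.disj
  have hQ0' := Finset.disjoint_left.mp hQ0
  have h1in : (1 : ℕ) ∈ vs (hole F2 K 1) := (mem_filter.mp hV2.in1).1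
  have h1in1 : (1 : ℕ) ∈ vs (hole F1 K 1) := (mem_filter.mp hV1.in1).1
  have hc1 : ConnIn F2 (vs (hole F2 K 1) : Set ℕ) :=
    g8a_conn hole_subset' fun s hs t ht => hole_conn hS2 hV2.in1 hs ht
  have hc0 : ConnIn F2 (vs (hole F2 K 0) : Set ℕ) :=
    g8a_conn hole_subset' fun s hs t ht => hole_conn hS2 hV2.in0 hs ht
  set Q2 : Finset ℕ := (Q ∩ vs (ext F1 K)) ∪ vs (hole F2 K 1) with hQ2
  set g2 : ℕ → ℝ := fun x => if x ∈ vs (hole F2 K 0) then 0 else
    if x ∈ vs (hole F2 K 1) then 1 else g x with hg2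
  have hg2E : ∀ x ∈ vs (ext F1 K), g2 x = g x := by
    intro x hx
    simp only [hg2]
    split_ifs with h1 h2
    · exact (hg0 x (hb0 x hx h1)).symm
    · exact (hg1 x (hQ1 (hb1 x hx h2))).symm
    · rfl
  have hg20 : ∀ x ∈ vs (hole F2 K 0), g2 x = 0 := by
    intro x hx
    simp only [hg2]
    rw [if_pos hx]
  have hg21 : ∀ x ∈ vs (hole F2 K 1), g2 x = 1 := by
    intro x hx
    simp only [hg2]
    rw [if_neg (fun h => hd2 h hx), if_pos hx]
  have hsub1 : (vs (hole F2 K 1) : Set ℕ) ⊆ (Q2 : Set ℕ) := by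
    intro x hx
    exact mem_coe.mpr (mem_union_right _ (mem_coe.mp hx))
  -- every point of `Q2` is joined to `1`
  have hjoin1 : ∀ x ∈ vs (hole F2 K 1),
      Relation.ReflTransGen (fun p q => q ∈ (Q2 : Set ℕ) ∧ Adj F2 p q) x 1 := by
    intro x hx
    exact Relation.ReflTransGen.mono (fun p q h => ⟨hsub1 h.1, h.2⟩) _ _
      (hc1 x (mem_coe.mpr hx) 1 (mem_coe.mpr h1in))
  have hjoinE : ∀ x, Relation.ReflTransGen (fun p q => q ∈ (Q : Set ℕ) ∧ Adj F1 p q) x 1 →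
      x ∈ Q → x ∈ vs (ext F1 K) →
      Relation.ReflTransGen (fun p q => q ∈ (Q2 : Set ℕ) ∧ Adj F2 p q) x 1 := by
    intro x hx
    induction hx using Relation.ReflTransGen.head_induction_on with
    | refl => intro _ _; exact Relation.ReflTransGen.refl
    | @head p q hpq _ ih =>
      intro hpQ hpE
      by_cases hp1 : p ∈ vs (hole F1 K 1)
      · exact hjoin1 p (hb1' p hpE hp1)
      · have hp0 : p ∉ vs (hole F1 K 0) := fun h => hQ0' h hpQ
        obtain ⟨hqQ, z, hz⟩ := hpq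
        have hzE : (p, q, z) ∈ ext F1 K := by
          rcases g8a_mem (K := K) hz with h | h | h
          · exact h
          · exact absurd (mem_vs.mpr ⟨_, _, h⟩) hp0
          · exact absurd (mem_vs.mpr ⟨_, _, h⟩) hp1
        have hqE : q ∈ vs (ext F1 K) := mem_vs.mpr ⟨_, _, g8a_rot hS1 hzE⟩
        have hq := ih (mem_coe.mp hqQ) hqE
        refine Relation.ReflTransGen.head ⟨?_, z, ?_⟩ hq
        · exact mem_coe.mpr (mem_union_left _ (mem_inter.mpr ⟨mem_coe.mp hqQ, hqE⟩))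
        · rw [hE] at hzE
          exact g8a_ext_sub hzE
  have hjoin : ∀ x ∈ Q2,
      Relation.ReflTransGen (fun p q => q ∈ (Q2 : Set ℕ) ∧ Adj F2 p q) x 1 := by
    intro x hx
    rcases mem_union.mp hx with h | h
    · obtain ⟨h1, h2⟩ := mem_inter.mp h
      exact hjoinE x (hQc x (mem_coe.mpr h1) 1 (mem_coe.mpr (hQ1 h1in1))) h1 h2
    · exact hjoin1 x h
  refine ⟨Q2, g2, ?_, ?_, hc0, mem_union_right _ h1in, hg20, ?_, ?_, ?_, ?_, ?_⟩
  · intro x hx
    rcases mem_union.mp hx with h | h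
    · have h2 := (mem_inter.mp h).2
      rw [hE] at h2
      exact g8a_vs_mono g8a_ext_sub h2
    · exact g8a_vs_mono hole_subset' h
  · intro x hx y hy
    exact (hjoin x (mem_coe.mp hx)).trans (g8a_symm hS2 hy (hjoin y (mem_coe.mp hy)))
  · intro x hx
    rcases mem_union.mp hx with h | h
    · obtain ⟨h1, h2⟩ := mem_inter.mp h
      rw [hg2E x h2]
      exact hg1 x h1
    · exact hg21 x h
  · -- energy
    unfold energy
    have hle : ∑ t ∈ F2, (g2 t.2.1 - g2 t.1) ^ 2 ≤ ∑ t ∈ ext F1 K, (g t.2.1 - g t.1) ^ 2 := by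
      have h1 : ∑ t ∈ F2, (g2 t.2.1 - g2 t.1) ^ 2 = ∑ t ∈ ext F2 K, (g2 t.2.1 - g2 t.1) ^ 2 := by
        refine (sum_subset g8a_ext_sub ?_).symm
        rintro ⟨a, b, c⟩ ht hn
        rcases g8a_mem (K := K) ht with h | h | h
        · exact absurd h hn
        · have ha : a ∈ vs (hole F2 K 0) := mem_vs.mpr ⟨_, _, h⟩
          have hb : b ∈ vs (hole F2 K 0) := mem_vs.mpr ⟨_, _, hole_rotC hS2 h⟩
          simp only [hg20 a ha, hg20 b hb]
          norm_num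
        · have ha : a ∈ vs (hole F2 K 1) := mem_vs.mpr ⟨_, _, h⟩
          have hb : b ∈ vs (hole F2 K 1) := mem_vs.mpr ⟨_, _, hole_rotC hS2 h⟩
          simp only [hg21 a ha, hg21 b hb]
          norm_num
      rw [h1, ← hE]
      refine le_of_eq (sum_congr rfl ?_)
      rintro ⟨a, b, c⟩ ht
      have ha : a ∈ vs (ext F1 K) := mem_vs.mpr ⟨_, _, ht⟩
      have hb : b ∈ vs (ext F1 K) := mem_vs.mpr ⟨_, _, g8a_rot hS1 ht⟩
      simp only [hg2E a ha, hg2E b hb]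
    have hle2 : ∑ t ∈ ext F1 K, (g t.2.1 - g t.1) ^ 2 ≤ ∑ t ∈ F1, (g t.2.1 - g t.1) ^ 2 :=
      sum_le_sum_of_subset_of_nonneg g8a_ext_sub fun _ _ _ => sq_nonneg _
    linarith
  · -- cardinality
    refine (card_le_card (t := (vs F1 \ Q) ∪ vs (hole F2 K 0)) ?_).trans (card_union_le _ _)
    intro x hx
    obtain ⟨hx1, hx2⟩ := mem_sdiff.mp hx
    rcases g8a_vs_cases (K := K) hx1 with h | h | h
    · rw [← hE] at h
      refine mem_union_left _ (mem_sdiff.mpr ⟨g8a_vs_mono g8a_ext_sub h, fun hq => hx2 ?_⟩)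
      exact mem_union_left _ (mem_inter.mpr ⟨hq, h⟩)
    · exact mem_union_right _ h
    · exact absurd (mem_union_right _ h) hx2
  · refine card_le_card ?_
    intro x hx
    exact mem_sdiff.mpr ⟨g8a_vs_mono hole_subset' hx, hQ0' hx⟩
  · rw [g8a_card hS1, g8a_card hS2, hB0]
    ring

end H19S
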