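import Pool.Agent.Lib.H19S.G5a
import Pool.Agent.Lib.H19S.G6b
import Pool.Agent.Lib.H19S.G8a

/-!
# H19S, chunk G8b: non-comparability
-/

namespace H19S

open Finset
open scoped ENNReal

/-- Prefixes of walks of positive weight have positive weight. -/
theorem g8b_wt {β : Type*} [DecidableEq β] {N : β → Finset β} :
    ∀ {l m : List β}, l ≠ [] → wt N (l ++ m) ≠ 0 → wt N l ≠ 0
  | [], _, h, _ => absurd rfl h
  | [x], m, _, _ => by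
    simp [wt]
  | x :: y :: l, m, _, h => by
    have h' : (if y ∈ N x then ((N x).card : ℝ≥0∞)⁻¹ else 0) * wt N (y :: (l ++ m)) ≠ 0 := h
    have h1 := mul_ne_zero_iff.mp h'
    have h2 : wt N ((y :: l) ++ m) ≠ 0 := h1.2
    have h3 := g8b_wt (l := y :: l) (m := m) (by simp) h2
    show (if y ∈ N x then ((N x).card : ℝ≥0∞)⁻¹ else 0) * wt N (y :: l) ≠ 0
    exact mul_ne_zero h1.1 h3

/-- (chunk G8b) Non-comparability.  Suppose `π ∈ Tk` at scale `μ` (witness `F1`) is a prefix of `π' ∈ Tk` at scale `μ' ≤ μ/8` (witness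
`F2`).  `K = π.toFinset ⊆ K' = π'.toFinset`.  By `subhole_val` (for `F2`, `F'`, with respect to `K'`; `K` is connected in `F2` by
`conn_of_wt` for the prefix): `Val F2 K`, `key F2 K = key F' K = key F1 K`, `Mh F' K 0 = Mh F2 K 0 + Δ'`, so
`Mh F2 K 0 = Mh F1 K 0 + Δ - Δ'`.  `transfer` gives `H = vs (hole F2 K 0)` with
`|H| = |vs (hole F1 K 0)| + Δ - Δ' ≥ Λ μ - (Λ μ/8 + 1) ≥ Λ μ / 2 ≥ D1` and `|H| ≤ Λ μ + (Λ μ + 1) ≤ D2`, and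
`|vs F2 \ Q2| ≤ Λ μ + |H| ≤ 3 |H|`, energy `≤ κ`: so `NBig F2`, contradiction. -/
theorem tk_incomp {N n Δs Δ Δ' : ℕ} {D1 D2 μ μ' η η' Λ κ : ℝ} (hΛ : 1 ≤ Λ)
    (hΔ : Λ * μ ≤ Δ) (hΔu : (Δ : ℝ) ≤ Λ * μ + 1) (hΔ'u : (Δ' : ℝ) ≤ Λ * μ' + 1)
    (hΔ' : Λ * μ' ≤ Δ') (hμ : μ' ≤ μ / 8) (h3 : 3 ≤ Λ * μ') (hs : Δ ≤ Δs) (hs' : Δ' ≤ Δs)
    (hD1 : D1 ≤ Λ * μ / 2) (hD2 : 2 * Λ * μ + 1 ≤ D2)
    {F' : Finset (ℕ × ℕ × ℕ)} (hF' : F' ∈ LabN N (n + Δs)) {π π' : List ℕ}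
    (hπ : π ∈ Tk N n D1 D2 μ η η' Λ κ Δ F') (hπ' : π' ∈ Tk N n D1 D2 μ' η η' Λ κ Δ' F')
    (hpre : π <+: π') : False := by
  obtain ⟨hV, -, F1, -, -, hG1, -, hV1, hk1, hM1⟩ := hπ
  obtain ⟨hV', -, F2, -, hnb, -, hw2, hV2, hk2, hM2⟩ := hπ'
  have hne : π ≠ [] := by
    rintro rfl
    have := hV.ne
    simp at this
  obtain ⟨m, rfl⟩ := hpre
  have hsub : π.toFinset ⊆ (π ++ m).toFinset := by
    intro x hx
    simp only [List.mem_toFinset, List.mem_append] at hx ⊢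
    exact Or.inl hx
  have hc : ConnIn F2 (π.toFinset : Set ℕ) := conn_of_wt hV2.tri (g8b_wt hne hw2)
  obtain ⟨hV2K, hk2K, hM2K⟩ := subhole_val hV2 hV' hk2 hsub hM2 hV hc
  obtain ⟨-, -, -, -, -, -, -, Q, g, hQ, hQc, hQ1, hQ0, hg0, hg1, hen, hcard⟩ := hG1
  obtain ⟨Q2, g2, a1, a2, a3, a4, a5, a6, a7, a8, a9, a10⟩ :=
    transfer hV1 hV2K (hk1.trans hk2K.symm) hQ hQc hQ1 hQ0 hg0 hg1
  have hM : Mh F1 π.toFinset 0 + Δ = Mh F2 π.toFinset 0 + Δ' := by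
    rw [← hM1, ← hM2K]
  have hMr : (Mh F1 π.toFinset 0 : ℝ) + Δ = Mh F2 π.toFinset 0 + Δ' := by
    exact_mod_cast hM
  have a8r : ((vs F2 \ Q2).card : ℝ) ≤ (vs F1 \ Q).card + (vs (hole F2 π.toFinset 0)).card := by
    exact_mod_cast a8
  have a9r : ((vs (hole F1 π.toFinset 0)).card : ℝ) ≤ (vs F1 \ Q).card := by
    exact_mod_cast a9
  have a10r : ((vs (hole F2 π.toFinset 0)).card : ℝ) + Mh F1 π.toFinset 0 =
      (vs (hole F1 π.toFinset 0)).card + Mh F2 π.toFinset 0 := by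
    exact_mod_cast a10
  have h0 : (0 : ℝ) ≤ (vs (hole F1 π.toFinset 0)).card := Nat.cast_nonneg _
  have hL : Λ * μ' ≤ Λ * μ / 8 := by
    have := mul_le_mul_of_nonneg_left hμ (by linarith : (0 : ℝ) ≤ Λ)
    linarith
  refine hnb ⟨vs (hole F2 π.toFinset 0), Q2, g2, g8a_vs_mono hole_subset', a1, a3, a2, ?_, a4, a5,
    a6, a7.trans hen, ?_, ?_, ?_⟩
  · exact (mem_filter.mp hV2K.in0).1
  · nlinarith
  · nlinarith
  · nlinarith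

end H19S
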