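import Pool.Agent.Lib.H19S.G5b
import Pool.Agent.Lib.H19S.G7
import Pool.Agent.Lib.H19S.G8b

/-!
# H19S, chunk G9: the counting theorem
-/

namespace H19S

open Finset
open scoped ENNReal

/-- (G9) Disjoint families: the weights add up. -/
theorem G9_sum {β : Type*} [DecidableEq β] (N : β → Finset β) (s : Finset ℕ)
    (T : ℕ → Set (List β)) (hne : ∀ k ∈ s, ∀ k' ∈ s, ∀ p, p ∈ T k → p ∈ T k' → k = k') :
    ∑ k ∈ s, W N (T k) ≤ W N {p | ∃ k ∈ s, p ∈ T k} := by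
  classical
  unfold W
  rw [← Summable.tsum_finsetSum (fun _ _ => ENNReal.summable)]
  refine ENNReal.tsum_le_tsum fun p => ?_
  by_cases hp : ∃ k ∈ s, p ∈ T k
  · obtain ⟨k, hk, hpk⟩ := hp
    have h1 : p ∈ {p | ∃ k ∈ s, p ∈ T k} := ⟨k, hk, hpk⟩
    rw [if_pos h1, Finset.sum_eq_single k]
    · rw [if_pos hpk]
    · intro b hb hbk
      rw [if_neg]
      intro hpb
      exact hbk (hne b hb k hk p hpb hpk)
    · intro h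
      exact absurd hk h
  · rw [Finset.sum_eq_zero]
    · exact bot_le
    · intro k hk
      rw [if_neg]
      intro hpk
      exact hp ⟨k, hk, hpk⟩

/-- (G9) The scales decrease. -/
theorem G9_mono (n : ℕ) {j k : ℕ} (h : j ≤ k) : (n : ℝ) / 2 ^ k ≤ n / 2 ^ j := by
  apply div_le_div_of_nonneg_left (Nat.cast_nonneg n) (by positivity)
  exact pow_le_pow_right₀ (by norm_num) h

/-- (G9) Three scales further. -/
theorem G9_eighth (n : ℕ) {j k : ℕ} (h : j + 3 ≤ k) : (n : ℝ) / 2 ^ k ≤ n / 2 ^ j / 8 := by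
  have h1 := G9_mono n h
  have h2 : (n : ℝ) / 2 ^ (j + 3) = n / 2 ^ j / 8 := by
    rw [pow_add]
    field_simp
    norm_num
  rw [h2] at h1
  exact h1

/-- (G9) Comparable elements of the families at scales of the same residue class are equal. -/
theorem G9_key {n k1 k2 : ℕ} {η η' Λ κ : ℝ} (hΛ : 1 ≤ Λ) (h3 : 3 ≤ Λ * (n / 2 ^ k2))
    {F' : Finset (ℕ × ℕ × ℕ)}
    (hF' : F' ∈ LabN (n + ⌈Λ * (n / 2 ^ k1)⌉₊) (n + ⌈Λ * ((n : ℝ) / 2 ^ k1)⌉₊))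
    {k k' : ℕ} (hk : k ∈ Icc k1 k2) (hk' : k' ∈ Icc k1 k2) (hmod : k % 3 = k' % 3)
    {p q : List ℕ}
    (hp : p ∈ Tk (n + ⌈Λ * (n / 2 ^ k1)⌉₊) n (Λ * (n / 2 ^ k2) / 2)
      (2 * Λ * (n / 2 ^ k1) + 1) (n / 2 ^ k) η η' Λ κ ⌈Λ * ((n : ℝ) / 2 ^ k)⌉₊ F')
    (hq : q ∈ Tk (n + ⌈Λ * (n / 2 ^ k1)⌉₊) n (Λ * (n / 2 ^ k2) / 2)
      (2 * Λ * (n / 2 ^ k1) + 1) (n / 2 ^ k') η η' Λ κ ⌈Λ * ((n : ℝ) / 2 ^ k')⌉₊ F')
    (hpq : p <+: q) : k = k' ∧ p = q := by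
  rw [Finset.mem_Icc] at hk hk'
  have hΛ0 : 0 ≤ Λ := by linarith
  have hincomp : ∀ {a b : ℕ}, k1 ≤ a → a + 3 ≤ b → b ≤ k2 → ∀ {r t : List ℕ},
      r ∈ Tk (n + ⌈Λ * (n / 2 ^ k1)⌉₊) n (Λ * (n / 2 ^ k2) / 2)
      (2 * Λ * (n / 2 ^ k1) + 1) (n / 2 ^ a) η η' Λ κ ⌈Λ * ((n : ℝ) / 2 ^ a)⌉₊ F' →
      t ∈ Tk (n + ⌈Λ * (n / 2 ^ k1)⌉₊) n (Λ * (n / 2 ^ k2) / 2)
      (2 * Λ * (n / 2 ^ k1) + 1) (n / 2 ^ b) η η' Λ κ ⌈Λ * ((n : ℝ) / 2 ^ b)⌉₊ F' →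
      r <+: t → False := by
    intro a b h1 h2 h4 r t hr ht hrt
    have ha : (n : ℝ) / 2 ^ k2 ≤ n / 2 ^ a := G9_mono n (by omega)
    have hb : (n : ℝ) / 2 ^ k2 ≤ n / 2 ^ b := G9_mono n h4
    have ha1 : (n : ℝ) / 2 ^ a ≤ n / 2 ^ k1 := G9_mono n h1
    have hb1 : (n : ℝ) / 2 ^ b ≤ n / 2 ^ k1 := G9_mono n (by omega)
    have hn0 : ∀ j : ℕ, 0 ≤ Λ * ((n : ℝ) / 2 ^ j) := fun j => by positivity
    refine tk_incomp hΛ (Nat.le_ceil _) (Nat.ceil_lt_add_one (hn0 a)).le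
      (Nat.ceil_lt_add_one (hn0 b)).le (Nat.le_ceil _) (G9_eighth n h2) ?_ ?_ ?_ ?_ ?_ hF' hr ht hrt
    · exact h3.trans (mul_le_mul_of_nonneg_left hb hΛ0)
    · exact Nat.ceil_mono (mul_le_mul_of_nonneg_left ha1 hΛ0)
    · exact Nat.ceil_mono (mul_le_mul_of_nonneg_left hb1 hΛ0)
    · have := mul_le_mul_of_nonneg_left ha hΛ0
      linarith
    · have := mul_le_mul_of_nonneg_left ha1 hΛ0
      linarith
  have hstop : ∀ {b : ℕ}, k1 ≤ b → ∀ {t : List ℕ},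
      t ∈ Tk (n + ⌈Λ * (n / 2 ^ k1)⌉₊) n (Λ * (n / 2 ^ k2) / 2)
      (2 * Λ * (n / 2 ^ k1) + 1) (n / 2 ^ b) η η' Λ κ ⌈Λ * ((n : ℝ) / 2 ^ b)⌉₊ F' →
      (Mh F' t.toFinset 0 : ℝ) ≤ n / 2 ^ b + ⌈Λ * ((n : ℝ) / 2 ^ b)⌉₊ ∧
      ∀ π' : List ℕ, π' <+: t → π' ≠ [] → π' ≠ t →
        (n : ℝ) / 2 ^ b + ⌈Λ * ((n : ℝ) / 2 ^ b)⌉₊ < Mh F' π'.toFinset 0 := by
    intro b hb t ht
    have hb1 : (n : ℝ) / 2 ^ b ≤ n / 2 ^ k1 := G9_mono n hb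
    exact tk_stop (Nat.ceil_mono (mul_le_mul_of_nonneg_left hb1 hΛ0)) hF' ht
  have hpne : p ≠ [] := by
    intro h
    have := hp.2.1
    rw [h] at this
    exact this rfl
  rcases lt_trichotomy k k' with h | h | h
  · exact (hincomp hk.1 (by omega) hk'.2 hp hq hpq).elim
  · refine ⟨h, ?_⟩
    by_contra hne
    subst h
    exact absurd (hstop hk.1 hp).1 (not_le.2 ((hstop hk.1 hq).2 p hpq hpne hne))
  · by_cases hne : p = q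
    · subst hne
      exact (hincomp hk'.1 (by omega) hk.2 hq hp List.prefix_rfl).elim
    · exfalso
      have h5 := (hstop hk'.1 hq).2 p hpq hpne hne
      have h6 := (hstop hk.1 hp).1
      have h7 : (n : ℝ) / 2 ^ k ≤ n / 2 ^ k' := G9_mono n h.le
      have h8 : ((⌈Λ * ((n : ℝ) / 2 ^ k)⌉₊ : ℕ) : ℝ) ≤ (⌈Λ * ((n : ℝ) / 2 ^ k')⌉₊ : ℕ) := by
        exact_mod_cast Nat.ceil_mono (mul_le_mul_of_nonneg_left h7 hΛ0)
      linarith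

/-- For `F' ∈ LabN N (n + Δs)`: the families at scales `μ k = n / 2^k`, `k ≡ i mod 3`, are pairwise non-comparable (`tk_incomp`;
if the element of the smaller scale were a prefix of the one of the larger scale use `tk_stop`: the
levels `μ k + Δ k` decrease with `k`) and prefix-free (`tk_stop`), so the total weight over the three
residue classes is at most `3` (weights of prefix-free families from a point, Part D: hypothesis `hW`). -/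
theorem tk_total (hW : ∀ F : Finset (ℕ × ℕ × ℕ), IsTri F → ∀ G : Set (List ℕ), PrefixFree G →
      (∀ π ∈ G, π.head? = some 2) → W (nbr F) G ≤ 1)
    {n k1 k2 : ℕ} {η η' Λ κ : ℝ} (hk : k1 ≤ k2) (hΛ : 1 ≤ Λ) (h3 : 3 ≤ Λ * (n / 2 ^ k2))
    {F' : Finset (ℕ × ℕ × ℕ)}
    (hF' : F' ∈ LabN (n + ⌈Λ * (n / 2 ^ k1)⌉₊) (n + ⌈Λ * ((n : ℝ) / 2 ^ k1)⌉₊)) :
    ∑ k ∈ Icc k1 k2, W (nbr F') (Tk (n + ⌈Λ * (n / 2 ^ k1)⌉₊) n (Λ * (n / 2 ^ k2) / 2)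
      (2 * Λ * (n / 2 ^ k1) + 1) (n / 2 ^ k) η η' Λ κ ⌈Λ * ((n : ℝ) / 2 ^ k)⌉₊ F') ≤ 3 := by
  classical
  have htri : IsTri F' := by
    have := hF'
    unfold LabN at this
    rw [Finset.mem_filter] at this
    exact this.2.1
  set T : ℕ → Set (List ℕ) := fun k => Tk (n + ⌈Λ * (n / 2 ^ k1)⌉₊) n (Λ * (n / 2 ^ k2) / 2)
      (2 * Λ * (n / 2 ^ k1) + 1) (n / 2 ^ k) η η' Λ κ ⌈Λ * ((n : ℝ) / 2 ^ k)⌉₊ F' with hT
  have hkey : ∀ {k k' : ℕ}, k ∈ Icc k1 k2 → k' ∈ Icc k1 k2 → k % 3 = k' % 3 →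
      ∀ {p q : List ℕ}, p ∈ T k → q ∈ T k' → p <+: q → k = k' ∧ p = q := by
    intro k k' hk hk' hmod p q hp hq hpq
    exact G9_key hΛ h3 hF' hk hk' hmod hp hq hpq
  have hclass : ∀ i : ℕ, ∑ k ∈ (Icc k1 k2).filter (fun k => k % 3 = i), W (nbr F') (T k) ≤ 1 := by
    intro i
    refine (G9_sum (nbr F') _ T ?_).trans ?_
    · intro k hk k' hk' p hp hp'
      rw [Finset.mem_filter] at hk hk'
      exact (hkey hk.1 hk'.1 (hk.2.trans hk'.2.symm) hp hp' List.prefix_rfl).1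
    · refine hW F' htri _ ?_ ?_
      · rintro p ⟨k, hk, hp⟩ q ⟨k', hk', hq⟩ hpq
        rw [Finset.mem_filter] at hk hk'
        exact (hkey hk.1 hk'.1 (hk.2.trans hk'.2.symm) hp hq hpq).2
      · rintro p ⟨k, hk, hp⟩
        obtain ⟨-, -, F, -, -, hg, -⟩ := hp
        exact hg.1
  have hsum : ∑ k ∈ Icc k1 k2, W (nbr F') (T k) =
      ∑ i ∈ range 3, ∑ k ∈ (Icc k1 k2).filter (fun k => k % 3 = i), W (nbr F') (T k) := by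
    rw [Finset.sum_fiberwise_of_maps_to]
    intro k _
    exact Finset.mem_range.2 (Nat.mod_lt _ (by norm_num))
  change ∑ k ∈ Icc k1 k2, W (nbr F') (T k) ≤ 3
  rw [hsum]
  refine (Finset.sum_le_sum (fun i _ => hclass i)).trans ?_
  simp

/-- The counting theorem from `surgery_pi` (sum over all lists `π`, exchange of sums) and `tk_total`; constant
`36 (1 + (Λ+1)/η)² (1 + 2/η')²`.  (`LabN N n` nonempty or the statement is trivial.) -/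
theorem multiscale' (hW : ∀ F : Finset (ℕ × ℕ × ℕ), IsTri F → ∀ G : Set (List ℕ), PrefixFree G →
      (∀ π ∈ G, π.head? = some 2) → W (nbr F) G ≤ 1)
    (En1 : ∀ l m D : ℕ, 3 ≤ l → 1 ≤ m →
      (256 / 27 : ℝ) ^ D * ((m : ℝ) / (m + D)) ^ 3 * Zf l m ≤ Zf l (m + D))
    (En2 : ∀ m D : ℕ, Zf 3 (m + D) ≤ (256 / 27 : ℝ) ^ D * Zf 3 m)
    (κ Λ η η' : ℝ) (hΛ : 1 ≤ Λ) (hη : 0 < η) (hη' : 0 < η') :
    ∃ C : ℝ, 0 < C ∧ ∀ n k1 k2 : ℕ, k1 ≤ k2 → 3 ≤ Λ * (n / 2 ^ k2) → 1 ≤ (n : ℝ) / 2 ^ k2 →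
      Λ ≤ 2 ^ k1 →
      ∑ k ∈ Icc k1 k2,
        ∑ F ∈ (by classical exact (LabN (n + ⌈Λ * (n / 2 ^ k1)⌉₊) n).filter (fun F =>
            ¬ NBig F κ (Λ * (n / 2 ^ k2) / 2) (2 * Λ * (n / 2 ^ k1) + 1))),
          W (nbr F) (GoodStop F (n / 2 ^ k) η η' Λ κ)
        ≤ ENNReal.ofReal (C * (LabN (n + ⌈Λ * (n / 2 ^ k1)⌉₊) n).card) := by
  classical
  have hc0 : (0 : ℝ) < 36 * (1 + (Λ + 1) / η) ^ 2 * (1 + 2 / η') ^ 2 := by positivity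
  refine ⟨36 * (1 + (Λ + 1) / η) ^ 2 * (1 + 2 / η') ^ 2, hc0, ?_⟩
  intro n k1 k2 hk h3 h1 hΛ2
  have hn3 : 3 ≤ n := by
    have e1 : Λ * (n / 2 ^ k2) ≤ n := by
      have e2 : Λ ≤ 2 ^ k2 := hΛ2.trans (pow_le_pow_right₀ (by norm_num) hk)
      have e3 : Λ * ((n : ℝ) / 2 ^ k2) ≤ 2 ^ k2 * (n / 2 ^ k2) :=
        mul_le_mul_of_nonneg_right e2 (by positivity)
      have e4 : (2 : ℝ) ^ k2 * (n / 2 ^ k2) = n := by
        field_simp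
      linarith
    have e5 : (3 : ℝ) ≤ n := h3.trans e1
    exact_mod_cast e5
  have hΔn : ⌈Λ * ((n : ℝ) / 2 ^ k1)⌉₊ ≤ n := by
    rw [Nat.ceil_le]
    have e3 : Λ * ((n : ℝ) / 2 ^ k1) ≤ 2 ^ k1 * (n / 2 ^ k1) :=
      mul_le_mul_of_nonneg_right hΛ2 (by positivity)
    have e4 : (2 : ℝ) ^ k1 * (n / 2 ^ k1) = n := by
      field_simp
    linarith
  set Δs : ℕ := ⌈Λ * ((n : ℝ) / 2 ^ k1)⌉₊ with hΔs
  set c : ℝ := 12 * (1 + (Λ + 1) / η) ^ 2 * (1 + 2 / η') ^ 2 * ((LabN (n + Δs) n).card : ℝ) with hc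
  have hstep : ∀ k ∈ Icc k1 k2,
      (∑ F ∈ (LabN (n + Δs) n).filter (fun F =>
          ¬ NBig F κ (Λ * (n / 2 ^ k2) / 2) (2 * Λ * (n / 2 ^ k1) + 1)),
        W (nbr F) (GoodStop F (n / 2 ^ k) η η' Λ κ)) * (LabN (n + Δs) (n + Δs)).card ≤
      ENNReal.ofReal c * ∑ F' ∈ LabN (n + Δs) (n + Δs),
        W (nbr F') (Tk (n + Δs) n (Λ * (n / 2 ^ k2) / 2) (2 * Λ * (n / 2 ^ k1) + 1) (n / 2 ^ k)
          η η' Λ κ ⌈Λ * ((n : ℝ) / 2 ^ k)⌉₊ F') := by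
    intro k hkk
    rw [Finset.mem_Icc] at hkk
    unfold W
    rw [← Summable.tsum_finsetSum (fun _ _ => ENNReal.summable),
      ← Summable.tsum_finsetSum (fun _ _ => ENNReal.summable), ← ENNReal.tsum_mul_right,
      ← ENNReal.tsum_mul_left]
    refine ENNReal.tsum_le_tsum fun π => ?_
    have hμ : (1 : ℝ) ≤ n / 2 ^ k := h1.trans (G9_mono n hkk.2)
    have hs := surgery_pi (N := n + Δs) (n := n) (Δ := ⌈Λ * ((n : ℝ) / 2 ^ k)⌉₊) (Δs := Δs)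
      (D1 := Λ * (n / 2 ^ k2) / 2) (D2 := 2 * Λ * (n / 2 ^ k1) + 1) (μ := n / 2 ^ k)
      (κ := κ) En1 En2 hη hη' hΛ hμ
      (Nat.ceil_lt_add_one (by positivity)).le
      (Nat.ceil_mono (mul_le_mul_of_nonneg_left (G9_mono n hkk.1) (by linarith)))
      (by omega) rfl hn3 π
    have hL : (∑ F ∈ (LabN (n + Δs) n).filter (fun F =>
          ¬ NBig F κ (Λ * (n / 2 ^ k2) / 2) (2 * Λ * (n / 2 ^ k1) + 1)),
          if π ∈ GoodStop F (n / 2 ^ k) η η' Λ κ then wt (nbr F) π else 0) =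
        ∑ F ∈ (LabN (n + Δs) n).filter (fun F => ¬ NBig F κ (Λ * (n / 2 ^ k2) / 2)
          (2 * Λ * (n / 2 ^ k1) + 1) ∧ π ∈ GoodStop F (n / 2 ^ k) η η' Λ κ), wt (nbr F) π := by
      rw [← Finset.sum_filter, Finset.filter_filter]
    have hR : (∑ F' ∈ LabN (n + Δs) (n + Δs),
          if π ∈ Tk (n + Δs) n (Λ * (n / 2 ^ k2) / 2) (2 * Λ * (n / 2 ^ k1) + 1) (n / 2 ^ k)
            η η' Λ κ ⌈Λ * ((n : ℝ) / 2 ^ k)⌉₊ F' then wt (nbr F') π else 0) =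
        ∑ F' ∈ (LabN (n + Δs) (n + Δs)).filter (fun F' =>
          π ∈ Tk (n + Δs) n (Λ * (n / 2 ^ k2) / 2) (2 * Λ * (n / 2 ^ k1) + 1) (n / 2 ^ k)
            η η' Λ κ ⌈Λ * ((n : ℝ) / 2 ^ k)⌉₊ F'), wt (nbr F') π := by
      rw [← Finset.sum_filter]
    rw [hL, hR]
    exact hs
  have hTot : ∀ F' ∈ LabN (n + Δs) (n + Δs), ∑ k ∈ Icc k1 k2,
      W (nbr F') (Tk (n + Δs) n (Λ * (n / 2 ^ k2) / 2) (2 * Λ * (n / 2 ^ k1) + 1) (n / 2 ^ k)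
          η η' Λ κ ⌈Λ * ((n : ℝ) / 2 ^ k)⌉₊ F') ≤ 3 := fun F' hF' =>
    tk_total hW hk hΛ h3 hF'
  have hcard : 0 < (LabN (n + Δs) (n + Δs)).card := by
    rw [labN_card (by omega) le_rfl, Nat.choose_self, one_mul]
    have h7 := lab_card (n := n + Δs) (by omega)
    by_contra h8
    have h9 : (Lab (n + Δs)).card = 0 := by omega
    rw [h9] at h7
    have h10 : (0 : ℝ) < (n + Δs).factorial * Zf 3 (n + Δs - 3) := by
      unfold Zf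
      positivity
    rw [← h7] at h10
    simp at h10
  have hmain : (∑ k ∈ Icc k1 k2, ∑ F ∈ (LabN (n + Δs) n).filter (fun F =>
          ¬ NBig F κ (Λ * (n / 2 ^ k2) / 2) (2 * Λ * (n / 2 ^ k1) + 1)),
        W (nbr F) (GoodStop F (n / 2 ^ k) η η' Λ κ)) * (LabN (n + Δs) (n + Δs)).card ≤
      ENNReal.ofReal (36 * (1 + (Λ + 1) / η) ^ 2 * (1 + 2 / η') ^ 2 *
        ((LabN (n + Δs) n).card : ℝ)) * (LabN (n + Δs) (n + Δs)).card := by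
    rw [Finset.sum_mul]
    refine (Finset.sum_le_sum hstep).trans ?_
    rw [← Finset.mul_sum, Finset.sum_comm]
    have h5 : ∑ F' ∈ LabN (n + Δs) (n + Δs), ∑ k ∈ Icc k1 k2,
        W (nbr F') (Tk (n + Δs) n (Λ * (n / 2 ^ k2) / 2) (2 * Λ * (n / 2 ^ k1) + 1) (n / 2 ^ k)
          η η' Λ κ ⌈Λ * ((n : ℝ) / 2 ^ k)⌉₊ F') ≤ (LabN (n + Δs) (n + Δs)).card * 3 := by
      refine (Finset.sum_le_sum hTot).trans ?_
      rw [Finset.sum_const, nsmul_eq_mul]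
    refine (mul_le_mul_right h5 (ENNReal.ofReal c)).trans ?_
    have h6 : ENNReal.ofReal (36 * (1 + (Λ + 1) / η) ^ 2 * (1 + 2 / η') ^ 2 *
        ((LabN (n + Δs) n).card : ℝ)) = ENNReal.ofReal c * 3 := by
      have h7 : (3 : ℝ≥0∞) = ENNReal.ofReal 3 := by norm_num
      rw [h7, ← ENNReal.ofReal_mul (by positivity)]
      congr 1
      rw [hc]
      ring
    rw [h6]
    apply le_of_eq
    ring
  have hne0 : ((LabN (n + Δs) (n + Δs)).card : ℝ≥0∞) ≠ 0 := by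
    exact_mod_cast hcard.ne'
  have hnet : ((LabN (n + Δs) (n + Δs)).card : ℝ≥0∞) ≠ ⊤ := ENNReal.natCast_ne_top _
  exact (ENNReal.mul_le_mul_iff_left hne0 hnet).1 hmain

end H19S
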