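import Pool.Agent.Lib.H19S.A0b

/-!
# H19S, chunk C0a: existence, uniqueness, symmetry and relabelling of the potential
-/

namespace H19S

open Finset

variable {α : Type*} [DecidableEq α] {F : Finset (α × α × α)} {v u : α} {h g : α → ℝ}

/-- The sum over the vertices of `g x * lap F h x`. -/
theorem C0a_sum (g h : α → ℝ) :
    ∑ x ∈ vs F, g x * lap F h x = ∑ t ∈ F, g t.1 * (h t.2.1 - h t.1) := by
  rw [← sum_vs (F := F) (fun t => g t.1 * (h t.2.1 - h t.1))]
  refine sum_congr rfl fun x _ => ?_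
  unfold lap
  rw [mul_sum]
  refine sum_congr rfl fun t ht => ?_
  rw [(mem_filter.1 ht).2]

/-- Summation by parts. -/
theorem green (hF : IsSurf F) (g h : α → ℝ) :
    (∑ t ∈ F, (g t.2.1 - g t.1) * (h t.2.1 - h t.1)) / 2 = - ∑ x ∈ vs F, g x * lap F h x := by
  rw [C0a_sum]
  have h1 : ∑ t ∈ F, g t.2.1 * (h t.2.1 - h t.1) = ∑ t ∈ F, g t.1 * (h t.1 - h t.2.1) :=
    hF.sum_rev fun a b => g b * (h b - h a)
  have h2 : ∑ t ∈ F, (g t.2.1 - g t.1) * (h t.2.1 - h t.1) =
      ∑ t ∈ F, g t.2.1 * (h t.2.1 - h t.1) - ∑ t ∈ F, g t.1 * (h t.2.1 - h t.1) := by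
    rw [← sum_sub_distrib]
    exact sum_congr rfl fun t _ => by ring
  have h3 : ∑ t ∈ F, g t.1 * (h t.1 - h t.2.1) = - ∑ t ∈ F, g t.1 * (h t.2.1 - h t.1) := by
    rw [← sum_neg_distrib]
    exact sum_congr rfl fun t _ => by ring
  rw [h2, h1, h3]
  ring

/-- The sum of the Laplacian vanishes. -/
theorem sum_lap (hF : IsSurf F) (h : α → ℝ) : ∑ x ∈ vs F, lap F h x = 0 := by
  have h1 := green hF (fun _ => 1) h
  simp only [sub_self, zero_mul, sum_const_zero, zero_div, one_mul] at h1
  linarith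

/-- A function which is harmonic everywhere is constant (maximum principle, `conn`). -/
theorem harm_const (hF : IsSurf F) (hh : ∀ x ∈ vs F, lap F h x = 0) :
    ∀ x ∈ vs F, ∀ y ∈ vs F, h x = h y := by
  have h1 := green hF h h
  have h2 : ∑ x ∈ vs F, h x * lap F h x = 0 :=
    sum_eq_zero fun x hx => by rw [hh x hx, mul_zero]
  rw [h2, neg_zero] at h1
  have h3 : ∑ t ∈ F, (h t.2.1 - h t.1) * (h t.2.1 - h t.1) = 0 := by linarith
  rw [sum_eq_zero_iff_of_nonneg fun t _ => mul_self_nonneg _] at h3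
  have hadj : ∀ x y, Adj F x y → h x = h y := by
    rintro x y ⟨z, hz⟩
    have h4 := mul_self_eq_zero.1 (h3 _ hz)
    simp only at h4
    linarith
  intro x hx y hy
  have h5 := hF.conn hx hy
  induction h5 with
  | refl => rfl
  | tail hab hbc ih => exact (ih (Adj.mem_left hbc)).trans (hadj _ _ hbc)

theorem C0a_lap_congr (hF : IsSurf F) {h g : α → ℝ} (hg : ∀ x ∈ vs F, h x = g x) {x : α}
    (hx : x ∈ vs F) : lap F h x = lap F g x := by
  unfold lap
  refine sum_congr rfl fun t ht => ?_
  obtain ⟨h1, h2⟩ := mem_filter.1 ht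
  rw [hg x hx, hg t.2.1 (hF.vs2 (a := t.1) (b := t.2.1) (c := t.2.2) h1)]

theorem C0a_lap_sub (h g : α → ℝ) (x : α) :
    lap F (fun y => h y - g y) x = lap F h x - lap F g x := by
  unfold lap
  rw [← sum_sub_distrib]
  exact sum_congr rfl fun t _ => by ring

theorem C0a_lap_add (h g : α → ℝ) (x : α) :
    lap F (fun y => h y + g y) x = lap F h x + lap F g x := by
  unfold lap
  rw [← sum_add_distrib]
  exact sum_congr rfl fun t _ => by ring

theorem C0a_lap_smul (c : ℝ) (h : α → ℝ) (x : α) :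
    lap F (fun y => c * h y) x = c * lap F h x := by
  unfold lap
  rw [mul_sum]
  exact sum_congr rfl fun t _ => by ring

/-- extension by zero -/
def C0a_ext (F : Finset (α × α × α)) (h : {x // x ∈ vs F} → ℝ) (x : α) : ℝ :=
  if hx : x ∈ vs F then h ⟨x, hx⟩ else 0

/-- the linear map used for the existence -/
noncomputable def C0a_map (F : Finset (α × α × α)) (v : α) :
    ({x // x ∈ vs F} → ℝ) →ₗ[ℝ] ({x // x ∈ vs F} → ℝ) where
  toFun h := fun x => if x.1 = v then h x else lap F (C0a_ext F h) x.1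
  map_add' h g := by
    funext x
    have e : C0a_ext F (h + g) = fun y => C0a_ext F h y + C0a_ext F g y := by
      funext y
      unfold C0a_ext
      split_ifs <;> simp
    simp only [Pi.add_apply, e, C0a_lap_add]
    split_ifs <;> rfl
  map_smul' c h := by
    funext x
    have e : C0a_ext F (c • h) = fun y => c * C0a_ext F h y := by
      funext y
      unfold C0a_ext
      split_ifs <;> simp
    simp only [Pi.smul_apply, smul_eq_mul, e, C0a_lap_smul, RingHom.id_apply]
    split_ifs <;> rfl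

theorem C0a_sum_vu (hF : IsSurf F) (hv : v ∈ vs F) (hu : u ∈ vs F) (hvu : v ≠ u)
    (hh : ∀ x ∈ vs F, x ≠ v → x ≠ u → lap F h x = 0) : lap F h v + lap F h u = 0 := by
  have h1 := sum_lap hF h
  rw [← add_sum_erase _ _ hv, ← add_sum_erase _ _ (mem_erase.2 ⟨hvu.symm, hu⟩)] at h1
  rw [sum_eq_zero (s := ((vs F).erase v).erase u)] at h1
  · linarith
  · intro x hx
    obtain ⟨h2, h3⟩ := mem_erase.1 hx
    obtain ⟨h4, h5⟩ := mem_erase.1 h3
    exact hh x h5 h4 h2

/-- Existence: the linear map `h ↦ lap F h` on functions on `vs F` has kernel the constants, so its range is the set of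
functions with sum zero (`sum_lap`, dimensions); take the preimage of `1_v - 1_u` and normalise. -/
theorem exists_pot (hF : IsSurf F) (hv : v ∈ vs F) (hu : u ∈ vs F) (hvu : v ≠ u) :
    ∃ h, IsPot F v u h := by
  have hinj : Function.Injective (C0a_map F v) := by
    rw [← LinearMap.ker_eq_bot, LinearMap.ker_eq_bot']
    intro h hh
    have hm : ∀ x, C0a_map F v h x = 0 := fun x => by rw [hh]; rfl
    have hl : ∀ x ∈ vs F, x ≠ v → lap F (C0a_ext F h) x = 0 := by
      intro x hx hxv
      have := hm ⟨x, hx⟩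
      simpa [C0a_map, hxv] using this
    have hlv : lap F (C0a_ext F h) v = 0 := by
      have h1 := C0a_sum_vu hF hv hu hvu (h := C0a_ext F h) fun x hx hxv _ => hl x hx hxv
      rw [hl u hu hvu.symm] at h1
      linarith
    have hall : ∀ x ∈ vs F, lap F (C0a_ext F h) x = 0 := by
      intro x hx
      by_cases hxv : x = v
      · rw [hxv]; exact hlv
      · exact hl x hx hxv
    have hc := harm_const hF hall
    have hv0 : C0a_ext F h v = 0 := by
      have := hm ⟨v, hv⟩
      simp only [C0a_map, LinearMap.coe_mk, AddHom.coe_mk, if_true] at this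
      simpa [C0a_ext, hv] using this
    funext x
    have h2 := hc x.1 x.2 v hv
    rw [hv0] at h2
    simpa [C0a_ext, x.2] using h2
  have hsurj : Function.Surjective (C0a_map F v) :=
    (LinearMap.injective_iff_surjective).1 hinj
  obtain ⟨h, hh⟩ := hsurj fun x => if x.1 = u then -1 else 0
  have hm : ∀ x, C0a_map F v h x = if x.1 = u then -1 else 0 := fun x => by rw [hh]
  have hl : ∀ x ∈ vs F, x ≠ v → lap F (C0a_ext F h) x = if x = u then -1 else 0 := by
    intro x hx hxv
    have := hm ⟨x, hx⟩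
    simpa [C0a_map, hxv] using this
  refine ⟨C0a_ext F h, ?_, ?_, ?_, ?_⟩
  · have := hm ⟨v, hv⟩
    simp only [C0a_map, LinearMap.coe_mk, AddHom.coe_mk, if_true, if_neg hvu] at this
    simpa [C0a_ext, hv] using this
  · intro x hx
    simp [C0a_ext, hx]
  · intro x hx hxv hxu
    rw [hl x hx hxv, if_neg hxu]
  · have h1 := C0a_sum_vu hF hv hu hvu (h := C0a_ext F h) fun x hx hxv hxu => by
      rw [hl x hx hxv, if_neg hxu]
    rw [hl u hu hvu.symm, if_pos rfl] at h1
    linarith

theorem pot_isPot (hF : IsSurf F) (hv : v ∈ vs F) (hu : u ∈ vs F) (hvu : v ≠ u) :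
    IsPot F v u (pot F v u) := by
  have h := exists_pot hF hv hu hvu
  unfold pot
  rw [dif_pos h]
  exact h.choose_spec

/-- The sink has Laplacian `-1`. -/
theorem IsPot.snk (hF : IsSurf F) (hv : v ∈ vs F) (hu : u ∈ vs F) (hvu : v ≠ u)
    (hh : IsPot F v u h) : lap F h u = -1 := by
  have h1 := C0a_sum_vu hF hv hu hvu hh.harm
  rw [hh.src] at h1
  linarith

theorem IsPot.unique (hF : IsSurf F) (hv : v ∈ vs F) (hu : u ∈ vs F) (hvu : v ≠ u)
    (hh : IsPot F v u h) (hg : IsPot F v u g) : h = g := by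
  have hall : ∀ x ∈ vs F, lap F (fun y => h y - g y) x = 0 := by
    intro x hx
    rw [C0a_lap_sub]
    by_cases hxv : x = v
    · rw [hxv, hh.src, hg.src, sub_self]
    · by_cases hxu : x = u
      · rw [hxu, hh.snk hF hv hu hvu, hg.snk hF hv hu hvu, sub_self]
      · rw [hh.harm x hx hxv hxu, hg.harm x hx hxv hxu, sub_self]
  have hc := harm_const hF hall
  funext x
  by_cases hx : x ∈ vs F
  · have h1 := hc x hx v hv
    simp only [hh.zero, hg.zero, sub_self] at h1
    linarith
  · rw [hh.out x hx, hg.out x hx]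

/-- Exchanging the poles. -/
theorem pot_swap (hF : IsSurf F) (hv : v ∈ vs F) (hu : u ∈ vs F) (hvu : v ≠ u) {x : α}
    (hx : x ∈ vs F) : pot F u v x = pot F v u u - pot F v u x := by
  have hh := pot_isPot hF hv hu hvu
  set h := pot F v u
  have hg : IsPot F u v (fun y => if y ∈ vs F then h u - h y else 0) := by
    have hl : ∀ y ∈ vs F, lap F (fun y => if y ∈ vs F then h u - h y else 0) y = - lap F h y := by
      intro y hy
      rw [C0a_lap_congr hF (g := fun y => h u - h y) (fun z hz => if_pos hz) hy]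
      unfold lap
      rw [← sum_neg_distrib]
      exact sum_congr rfl fun t _ => by ring
    refine ⟨?_, ?_, ?_, ?_⟩
    · simp
    · intro y hy
      rw [if_neg hy]
    · intro y hy h1 h2
      rw [hl y hy, hh.harm y hy h2 h1, neg_zero]
    · rw [hl u hu, hh.snk hF hv hu hvu, neg_neg]
  have h1 := (pot_isPot hF hu hv hvu.symm).unique hF hu hv hvu.symm hg
  rw [h1]
  simp only [if_pos hx]

omit [DecidableEq α] in
theorem C0a_map3_inj (ρ : Equiv.Perm α) : Function.Injective (map3 (fun x => ρ x)) := by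
  rintro ⟨a, b, c⟩ ⟨a', b', c'⟩ h
  simp only [map3, Prod.mk.injEq, EmbeddingLike.apply_eq_iff_eq] at h
  obtain ⟨rfl, rfl, rfl⟩ := h
  rfl

theorem C0a_filter (ρ : Equiv.Perm α) (x : α) :
    (prel ρ F).filter (fun t => t.1 = ρ x) =
      (F.filter fun t => t.1 = x).image (map3 (fun x => ρ x)) := by
  unfold prel relab
  rw [filter_image]
  congr 1
  refine filter_congr fun t _ => ?_
  simp only [map3, EmbeddingLike.apply_eq_iff_eq]

theorem thr_prel (ρ : Equiv.Perm α) (h : α → ℝ) (x : α) :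
    thr (prel ρ F) (fun y => h (ρ.symm y)) (ρ x) = thr F h x := by
  unfold thr
  rw [C0a_filter, sum_image fun _ _ _ _ hab => C0a_map3_inj ρ hab]
  simp only [map3, Equiv.symm_apply_apply]

theorem lap_prel (ρ : Equiv.Perm α) (h : α → ℝ) (x : α) :
    lap (prel ρ F) (fun y => h (ρ.symm y)) (ρ x) = lap F h x := by
  unfold lap
  rw [C0a_filter, sum_image fun _ _ _ _ hab => C0a_map3_inj ρ hab]
  simp only [map3, Equiv.symm_apply_apply]

theorem energy_prel (ρ : Equiv.Perm α) (h : α → ℝ) :
    energy (prel ρ F) (fun y => h (ρ.symm y)) = energy F h := by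
  unfold energy prel relab
  rw [sum_image fun _ _ _ _ hab => C0a_map3_inj ρ hab]
  simp only [map3, Equiv.symm_apply_apply]

/-- Relabelling. -/
theorem pot_prel (hF : IsSurf F) (hv : v ∈ vs F) (hu : u ∈ vs F) (hvu : v ≠ u)
    (ρ : Equiv.Perm α) (x : α) : pot (prel ρ F) (ρ v) (ρ u) (ρ x) = pot F v u x := by
  have hF' : IsSurf (prel ρ F) := hF.relab fun a _ b _ hab => ρ.injective hab
  have hvs : ∀ y, y ∈ vs (prel ρ F) ↔ ρ.symm y ∈ vs F := by
    intro y
    unfold prel
    rw [vs_relab, mem_image]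
    constructor
    · rintro ⟨z, hz, rfl⟩
      simpa using hz
    · intro hy
      exact ⟨_, hy, by simp⟩
  have hh := pot_isPot hF hv hu hvu
  set h := pot F v u
  have hg : IsPot (prel ρ F) (ρ v) (ρ u) (fun y => h (ρ.symm y)) := by
    refine ⟨?_, ?_, ?_, ?_⟩
    · simp only [Equiv.symm_apply_apply]
      exact hh.zero
    · intro y hy
      rw [hvs] at hy
      exact hh.out _ hy
    · intro y hy h1 h2
      rw [hvs] at hy
      have h3 := lap_prel (F := F) ρ h (ρ.symm y)
      rw [Equiv.apply_symm_apply] at h3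
      rw [h3]
      refine hh.harm _ hy ?_ ?_
      · rintro rfl
        simp at h1
      · rintro rfl
        simp at h2
    · rw [lap_prel]
      exact hh.src
  have hv' : ρ v ∈ vs (prel ρ F) := by rw [hvs]; simpa using hv
  have hu' : ρ u ∈ vs (prel ρ F) := by rw [hvs]; simpa using hu
  have hvu' : ρ v ≠ ρ u := fun h => hvu (ρ.injective h)
  have h1 := (pot_isPot hF' hv' hu' hvu').unique hF' hv' hu' hvu' hg
  rw [h1]
  simp only [Equiv.symm_apply_apply]

end H19S
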