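import Pool.Agent.Lib.H19S.TopB
import Pool.Agent.Lib.H19S.A0b

/-!
# H19S, chunk G4a: numbers of labelled triangulations for other label sets
-/

namespace H19S

open Finset

theorem G4a_sub {F : Finset (ℕ × ℕ × ℕ)} (hF : IsSurf F) {S : Finset ℕ} (hS : vs F ⊆ S) :
    F ⊆ S ×ˢ S ×ˢ S := by
  rintro ⟨a, b, c⟩ h
  simp only [mem_product]
  exact ⟨hS (hF.vs1 h), hS (hF.vs2 h), hS (hF.vs3 h)⟩

theorem G4a_mem {F : Finset (ℕ × ℕ × ℕ)} {S : Finset ℕ} :
    F ∈ LabS S ↔ IsTri F ∧ vs F = S := by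
  classical
  simp only [LabS, mem_filter, mem_powerset]
  constructor
  · exact fun h => h.2
  · exact fun h => ⟨G4a_sub h.1.toIsSurf h.2.subset, h⟩

theorem G4a_memN {F : Finset (ℕ × ℕ × ℕ)} {N n : ℕ} :
    F ∈ LabN N n ↔ IsTri F ∧ {0, 1, 2} ⊆ vs F ∧ (vs F).card = n ∧ vs F ⊆ range N := by
  classical
  simp only [LabN, mem_filter, mem_powerset]
  constructor
  · rintro ⟨h1, h2, h3, h4⟩
    refine ⟨h2, h3, h4, fun x hx => ?_⟩
    obtain ⟨a, b, hab⟩ := mem_vs.1 hx
    exact (mem_product.1 (h1 hab)).1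
  · rintro ⟨h1, h2, h3, h4⟩
    exact ⟨G4a_sub h1.toIsSurf h4, h1, h2, h3⟩

theorem G4a_le {S S' : Finset ℕ} (h : S.card = S'.card) : (LabS S).card ≤ (LabS S').card := by
  classical
  let e := Finset.equivOfCardEq h
  let f : ℕ → ℕ := fun x => if hx : x ∈ S then (e ⟨x, hx⟩ : ℕ) else x
  have hf : ∀ x (hx : x ∈ S), f x = e ⟨x, hx⟩ := fun x hx => by
    simp only [f, dif_pos hx]
  have hinj : Set.InjOn f S := by
    intro x hx y hy hxy
    rw [hf x hx, hf y hy] at hxy
    have := e.injective (Subtype.ext hxy)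
    exact congrArg Subtype.val this
  have himg : S.image f = S' := by
    ext y
    rw [mem_image]
    constructor
    · rintro ⟨x, hx, rfl⟩
      rw [hf x hx]
      exact (e ⟨x, hx⟩).2
    · intro hy
      refine ⟨(e.symm ⟨y, hy⟩ : ℕ), (e.symm ⟨y, hy⟩).2, ?_⟩
      rw [hf _ (e.symm ⟨y, hy⟩).2]
      simp
  refine card_le_card_of_injOn (relab f) ?_ ?_
  · intro F hF
    obtain ⟨h1, h2⟩ := G4a_mem.1 (mem_coe.1 hF)
    refine mem_coe.2 (G4a_mem.2 ⟨h1.relab (by rw [h2]; exact hinj), ?_⟩)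
    rw [vs_relab, h2, himg]
  · intro F hF G hG hFG
    have key : ∀ F G : Finset (ℕ × ℕ × ℕ), F ∈ LabS S → G ∈ LabS S → relab f F = relab f G →
        F ⊆ G := by
      rintro F G hF hG hFG ⟨a, b, c⟩ ht
      obtain ⟨h1, h2⟩ := G4a_mem.1 hF
      obtain ⟨h1', h2'⟩ := G4a_mem.1 hG
      have h3 : (f a, f b, f c) ∈ relab f G := by
        rw [← hFG]
        exact mem_relab.2 ⟨a, b, c, ht, rfl⟩
      obtain ⟨a', b', c', ht', he⟩ := mem_relab.1 h3
      simp only [Prod.mk.injEq] at he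
      have ha := hinj (h2 ▸ h1.vs1 ht) (h2' ▸ h1'.vs1 ht') he.1
      have hb := hinj (h2 ▸ h1.vs2 ht) (h2' ▸ h1'.vs2 ht') he.2.1
      have hc := hinj (h2 ▸ h1.vs3 ht) (h2' ▸ h1'.vs3 ht') he.2.2
      rw [ha, hb, hc]
      exact ht'
    exact Subset.antisymm (key F G (mem_coe.1 hF) (mem_coe.1 hG) hFG)
      (key G F (mem_coe.1 hG) (mem_coe.1 hF) hFG.symm)

/-- All label sets of the same size carry the same number of triangulations (relabel by a bijection). -/
theorem labS_card {S S' : Finset ℕ} (h : S.card = S'.card) : (LabS S).card = (LabS S').card :=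
  le_antisymm (G4a_le h) (G4a_le h.symm)

/-- `LabN N n` is the disjoint union of `LabS S` over `{0,1,2} ⊆ S ⊆ range N`, `|S| = n`. -/
theorem labN_card {N n : ℕ} (h3 : 3 ≤ n) (hn : n ≤ N) :
    (LabN N n).card = (N - 3).choose (n - 3) * (Lab n).card := by
  classical
  have h012 : ({0, 1, 2} : Finset ℕ).card = 3 := rfl
  have hsub : ({0, 1, 2} : Finset ℕ) ⊆ range N := by
    intro x hx
    simp only [mem_insert, mem_singleton] at hx
    rw [mem_range]
    omega
  set U : Finset (Finset ℕ) := (powersetCard (n - 3) (range N \ {0, 1, 2})).image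
    (fun A => A ∪ {0, 1, 2}) with hU
  have hUcard : U.card = (N - 3).choose (n - 3) := by
    rw [hU, card_image_of_injOn, card_powersetCard, card_sdiff_of_subset hsub, card_range, h012]
    intro A hA B hB hAB
    have hA' := (mem_powersetCard.1 (mem_coe.1 hA)).1
    have hB' := (mem_powersetCard.1 (mem_coe.1 hB)).1
    have key : ∀ A : Finset ℕ, A ⊆ range N \ {0, 1, 2} → (A ∪ {0, 1, 2}) \ {0, 1, 2} = A := by
      intro A hA
      rw [union_sdiff_right, sdiff_eq_self_of_disjoint]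
      rw [disjoint_left]
      intro x hx hx'
      exact (mem_sdiff.1 (hA hx)).2 hx'
    rw [← key A hA', ← key B hB']
    simp only at hAB
    rw [hAB]
  have hUmem : ∀ S ∈ U, S.card = n ∧ {0, 1, 2} ⊆ S ∧ S ⊆ range N := by
    intro S hS
    rw [hU, mem_image] at hS
    obtain ⟨A, hA, rfl⟩ := hS
    obtain ⟨h1, h2⟩ := mem_powersetCard.1 hA
    refine ⟨?_, subset_union_right, union_subset (h1.trans sdiff_subset) hsub⟩
    rw [card_union_of_disjoint, h2, h012]
    · omega
    · rw [disjoint_left]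
      intro x hx hx'
      exact (mem_sdiff.1 (h1 hx)).2 hx'
  rw [card_eq_sum_card_fiberwise (f := vs) (t := U)]
  · have : ∀ S ∈ U, ((LabN N n).filter (fun F => vs F = S)).card = (Lab n).card := by
      intro S hS
      obtain ⟨h1, h2, h4⟩ := hUmem S hS
      have e : (LabN N n).filter (fun F => vs F = S) = LabS S := by
        ext F
        rw [mem_filter, G4a_memN, G4a_mem]
        constructor
        · rintro ⟨⟨h5, -⟩, h6⟩
          exact ⟨h5, h6⟩
        · rintro ⟨h5, h6⟩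
          rw [h6]
          exact ⟨⟨h5, h2, h1, h4⟩, rfl⟩
      rw [e]
      unfold Lab
      exact labS_card (by rw [h1, card_range])
    rw [sum_congr rfl this, sum_const, hUcard, smul_eq_mul]
  · intro F hF
    obtain ⟨-, h5, h6, h7⟩ := G4a_memN.1 (mem_coe.1 hF)
    rw [mem_coe, hU, mem_image]
    refine ⟨vs F \ {0, 1, 2}, mem_powersetCard.2 ⟨sdiff_subset_sdiff h7 (Subset.refl _), ?_⟩,
      sdiff_union_of_subset h5⟩
    rw [card_sdiff_of_subset h5, h6, h012]

end H19S
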