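import Pool.Agent.Lib.H19S.IStat

/-!
# H19S, chunk I-0: packings under relabelling
-/

namespace H19S

open Finset MeasureTheory Filter Topology

theorem mem_prel {ρ : Equiv.Perm ℕ} {F : Finset (ℕ × ℕ × ℕ)} {a b c : ℕ} :
    (ρ a, ρ b, ρ c) ∈ prel ρ F ↔ (a, b, c) ∈ F := by
  simp only [prel, relab, mem_image]
  constructor
  · rintro ⟨⟨x, y, z⟩, h, he⟩
    simp only [map3, Prod.mk.injEq, EmbeddingLike.apply_eq_iff_eq] at he
    obtain ⟨rfl, rfl, rfl⟩ := he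
    exact h
  · intro h
    exact ⟨(a, b, c), h, rfl⟩

theorem adj_prel {ρ : Equiv.Perm ℕ} {F : Finset (ℕ × ℕ × ℕ)} {a b : ℕ} :
    Adj (prel ρ F) (ρ a) (ρ b) ↔ Adj F a b := by
  constructor
  · rintro ⟨z, hz⟩
    refine ⟨ρ.symm z, ?_⟩
    rw [← mem_prel (ρ := ρ), Equiv.apply_symm_apply]
    exact hz
  · rintro ⟨z, hz⟩
    exact ⟨ρ z, mem_prel.2 hz⟩

theorem vs_prel (ρ : Equiv.Perm ℕ) (F : Finset (ℕ × ℕ × ℕ)) : vs (prel ρ F) = (vs F).image ρ := by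
  unfold vs prel relab
  rw [Finset.image_image, Finset.image_image]
  rfl

theorem i_0_mem_vs_prel {ρ : Equiv.Perm ℕ} {F : Finset (ℕ × ℕ × ℕ)} {x : ℕ} :
    x ∈ vs (prel ρ F) ↔ ρ.symm x ∈ vs F := by
  rw [vs_prel, mem_image]
  constructor
  · rintro ⟨y, hy, rfl⟩
    rwa [Equiv.symm_apply_apply]
  · intro h
    exact ⟨_, h, Equiv.apply_symm_apply _ _⟩

theorem packing_prel (ρ : Equiv.Perm ℕ) {F : Finset (ℕ × ℕ × ℕ)} {c : ℕ → S2} {r : ℕ → ℝ}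
    (h : IsPacking F c r) :
    IsPacking (prel ρ F) (fun x => c (ρ.symm x)) (fun x => r (ρ.symm x)) := by
  refine ⟨?_, ?_, ?_⟩
  · intro x hx
    exact h.pos _ (i_0_mem_vs_prel.1 hx)
  · intro x hx y hy hxy
    exact h.disj _ (i_0_mem_vs_prel.1 hx) _ (i_0_mem_vs_prel.1 hy)
      (fun he => hxy (ρ.symm.injective he))
  · intro x hx y hy hxy
    rw [h.tang _ (i_0_mem_vs_prel.1 hx) _ (i_0_mem_vs_prel.1 hy)
      (fun he => hxy (ρ.symm.injective he)), ← adj_prel (ρ := ρ), Equiv.apply_symm_apply,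
      Equiv.apply_symm_apply]

theorem i_0_card_vs (ρ : Equiv.Perm ℕ) (F : Finset (ℕ × ℕ × ℕ)) :
    (vs (prel ρ F)).card = (vs F).card := by
  rw [vs_prel, Finset.card_image_of_injective _ ρ.injective]

theorem i_0_card_filter (ρ : Equiv.Perm ℕ) (F : Finset (ℕ × ℕ × ℕ)) (P : ℕ → Prop)
    [DecidablePred P] [DecidablePred fun w => P (ρ.symm w)] :
    ((vs (prel ρ F)).filter fun w => P (ρ.symm w)).card = ((vs F).filter fun w => P w).card := by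
  rw [vs_prel, Finset.filter_image, Finset.card_image_of_injective _ ρ.injective]
  congr 1
  apply Finset.filter_congr
  intro x _
  rw [Equiv.symm_apply_apply]

theorem regPt_prel (ρ : Equiv.Perm ℕ) {F : Finset (ℕ × ℕ × ℕ)} {c : ℕ → S2} {r : ℕ → ℝ}
    {a A rN r0 : ℝ} {x : ℕ} (h : RegPt F c r a A rN r0 x) :
    RegPt (prel ρ F) (fun y => c (ρ.symm y)) (fun y => r (ρ.symm y)) a A rN r0 (ρ x) := by
  classical
  intro s h1 h2
  obtain ⟨ha, hb, hc⟩ := h s h1 h2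
  have e := i_0_card_filter ρ F (fun w => dist (c w) (c x) ≤ s)
  refine ⟨?_, ?_, ?_⟩
  · rw [i_0_card_vs]
    simp only [Equiv.symm_apply_apply]
    convert ha using 2
  · rw [i_0_card_vs]
    simp only [Equiv.symm_apply_apply]
    convert hb using 2
  · intro w hw hne
    simp only [Equiv.symm_apply_apply] at hne
    exact hc _ (i_0_mem_vs_prel.1 hw) hne

/-- A good triple `(v, u, z)` of vertices of a packed triangulation. -/
def GoodTr (F : Finset (ℕ × ℕ × ℕ)) (c : ℕ → S2) (r : ℕ → ℝ) (a A rN r0 c0 δz c1 : ℝ)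
    (t : ℕ × ℕ × ℕ) : Prop :=
  RegPt F c r a A rN r0 t.1 ∧ RegPt F c r a A rN r0 t.2.1 ∧ c0 ≤ dist (c t.1) (c t.2.1) ∧
    δz ≤ dist (c t.2.2) (c t.1) ∧ dist (c t.2.2) (c t.1) ≤ c1

theorem regEv_of_good {F : Finset (ℕ × ℕ × ℕ)} {c : ℕ → S2} {r : ℕ → ℝ}
    {a A rN r0 c0 δz c1 : ℝ} (hp : IsPacking F c r) (t : ℕ × ℕ × ℕ)
    (ht : GoodTr F c r a A rN r0 c0 δz c1 t) (ρ : Equiv.Perm ℕ) (h0 : ρ t.1 = 0)
    (h1 : ρ t.2.1 = 1) (h2 : ρ t.2.2 = 2) : RegEv a A rN r0 c0 δz c1 (prel ρ F) := by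
  obtain ⟨g1, g2, g3, g4, g5⟩ := ht
  have s0 : ρ.symm 0 = t.1 := by rw [← h0, Equiv.symm_apply_apply]
  have s1 : ρ.symm 1 = t.2.1 := by rw [← h1, Equiv.symm_apply_apply]
  have s2 : ρ.symm 2 = t.2.2 := by rw [← h2, Equiv.symm_apply_apply]
  refine ⟨fun y => c (ρ.symm y), fun y => r (ρ.symm y), packing_prel ρ hp, ?_, ?_, ?_, ?_, ?_⟩
  · rw [← h0]
    exact regPt_prel ρ g1
  · rw [← h1]
    exact regPt_prel ρ g2
  · simp only [s0, s1]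
    exact g3
  · simp only [s0, s2]
    exact g4
  · simp only [s0, s2]
    exact g5

theorem i_0_regEv_mp {F : Finset (ℕ × ℕ × ℕ)} {a A rN r0 c0 δz c1 : ℝ} (ρ : Equiv.Perm ℕ)
    (h0 : ρ 0 = 0) (h1 : ρ 1 = 1) (h2 : ρ 2 = 2) (h : RegEv a A rN r0 c0 δz c1 F) :
    RegEv a A rN r0 c0 δz c1 (prel ρ F) := by
  obtain ⟨c, r, hp, g1, g2, g3, g4, g5⟩ := h
  exact regEv_of_good hp (0, 1, 2) ⟨g1, g2, g3, g4, g5⟩ ρ h0 h1 h2

theorem regEv_prel {F : Finset (ℕ × ℕ × ℕ)} {a A rN r0 c0 δz c1 : ℝ} (ρ : Equiv.Perm ℕ)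
    (h0 : ρ 0 = 0) (h1 : ρ 1 = 1) (h2 : ρ 2 = 2) :
    RegEv a A rN r0 c0 δz c1 (prel ρ F) ↔ RegEv a A rN r0 c0 δz c1 F := by
  constructor
  · intro h
    have h3 := i_0_regEv_mp ρ⁻¹ (by rw [Equiv.Perm.inv_eq_iff_eq, h0])
      (by rw [Equiv.Perm.inv_eq_iff_eq, h1]) (by rw [Equiv.Perm.inv_eq_iff_eq, h2]) h
    rwa [← prel_mul, inv_mul_cancel, prel_one] at h3
  · exact i_0_regEv_mp ρ h0 h1 h2

end H19S
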