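import Pool.Agent.Lib.H19S.TopC
import Pool.Agent.Lib.H19S.G4a
import Pool.Agent.Lib.H19S.I0
import Pool.Agent.Lib.H19S.C0a

/-!
# H19S, chunk MA: from Lab to LabN, Markov
-/

namespace H19S

open Finset
open scoped ENNReal

/-! ### permutations fixing `0, 1, 2` -/

theorem MA_perm0 {S T : Finset ℕ} (h : S.card = T.card) : ∃ ρ : Equiv.Perm ℕ, S.image ρ = T := by
  classical
  have e1 : {x // x ∈ S} ≃ {x // x ∈ T} := Finset.equivOfCardEq h
  have i1 : Infinite {x : ℕ // x ∉ S} := Set.infinite_coe_iff.2 S.finite_toSet.infinite_compl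
  have i2 : Infinite {x : ℕ // x ∉ T} := Set.infinite_coe_iff.2 T.finite_toSet.infinite_compl
  obtain ⟨d1⟩ := nonempty_denumerable {x : ℕ // x ∉ S}
  obtain ⟨d2⟩ := nonempty_denumerable {x : ℕ // x ∉ T}
  have e2 : {x : ℕ // x ∉ S} ≃ {x : ℕ // x ∉ T} := Denumerable.equiv₂ _ _
  let ρ : Equiv.Perm ℕ := (Equiv.sumCompl (· ∈ S)).symm.trans
    ((Equiv.sumCongr e1 e2).trans (Equiv.sumCompl (· ∈ T)))
  have hρ : ∀ x (hx : x ∈ S), ρ x = e1 ⟨x, hx⟩ := by
    intro x hx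
    change (Equiv.sumCompl (· ∈ T)) ((Equiv.sumCongr e1 e2) ((Equiv.sumCompl (· ∈ S)).symm x)) = _
    rw [Equiv.sumCompl_symm_apply_of_pos hx]
    rfl
  refine ⟨ρ, ?_⟩
  ext y
  rw [mem_image]
  constructor
  · rintro ⟨x, hx, rfl⟩
    rw [hρ x hx]
    exact (e1 ⟨x, hx⟩).2
  · intro hy
    refine ⟨e1.symm ⟨y, hy⟩, (e1.symm ⟨y, hy⟩).2, ?_⟩
    rw [hρ _ (e1.symm ⟨y, hy⟩).2]
    simp

theorem MA_step {S T : Finset ℕ} {ρ : Equiv.Perm ℕ} (hρ : S.image ρ = T) {x : ℕ} (hS : x ∈ S)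
    (hT : x ∈ T) : ∃ ρ' : Equiv.Perm ℕ, S.image ρ' = T ∧ ρ' x = x ∧
      ∀ y, y ≠ x → ρ y = y → ρ' y = y := by
  have hx : ρ x ∈ T := by
    rw [← hρ]
    exact mem_image_of_mem _ hS
  have hsw : ∀ y ∈ T, Equiv.swap (ρ x) x y ∈ T := by
    intro y hy
    rcases eq_or_ne y (ρ x) with h | h
    · rw [h, Equiv.swap_apply_left]
      exact hT
    · rcases eq_or_ne y x with h2 | h2
      · rw [h2, Equiv.swap_apply_right]
        exact hx
      · rw [Equiv.swap_apply_of_ne_of_ne h h2]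
        exact hy
  refine ⟨Equiv.swap (ρ x) x * ρ, ?_, ?_, ?_⟩
  · refine Finset.eq_of_subset_of_card_le ?_ ?_
    · intro y hy
      obtain ⟨z, hz, rfl⟩ := mem_image.1 hy
      rw [Equiv.Perm.mul_apply]
      apply hsw
      rw [← hρ]
      exact mem_image_of_mem _ hz
    · rw [card_image_of_injective _ (Equiv.injective _), ← hρ,
        card_image_of_injective _ (Equiv.injective _)]
  · rw [Equiv.Perm.mul_apply, Equiv.swap_apply_left]
  · intro y hy hyy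
    rw [Equiv.Perm.mul_apply, hyy, Equiv.swap_apply_of_ne_of_ne _ hy]
    intro h
    rw [← hyy] at h
    exact hy (ρ.injective h)

theorem MA_perm {S T : Finset ℕ} (h : S.card = T.card) (hS : {0, 1, 2} ⊆ S) (hT : {0, 1, 2} ⊆ T) :
    ∃ ρ : Equiv.Perm ℕ, S.image ρ = T ∧ ρ 0 = 0 ∧ ρ 1 = 1 ∧ ρ 2 = 2 := by
  obtain ⟨ρ0, h0⟩ := MA_perm0 h
  obtain ⟨ρ1, h1, h10, -⟩ := MA_step h0 (x := 0) (hS (by simp)) (hT (by simp))
  obtain ⟨ρ2, h2, h21, h22⟩ := MA_step h1 (x := 1) (hS (by simp)) (hT (by simp))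
  obtain ⟨ρ3, h3, h31, h32⟩ := MA_step h2 (x := 2) (hS (by simp)) (hT (by simp))
  have h20 : ρ2 0 = 0 := h22 0 (by norm_num) h10
  exact ⟨ρ3, h3, h32 0 (by norm_num) h20, h32 1 (by norm_num) h21, h31⟩

/-- Sums over `LabS S` of functions invariant under permutations fixing `0, 1, 2`. -/
theorem MA_sumS {M : Type*} [AddCommMonoid M] (g : Finset (ℕ × ℕ × ℕ) → M)
    (hg : ∀ (ρ : Equiv.Perm ℕ) (F : Finset (ℕ × ℕ × ℕ)), ρ 0 = 0 → ρ 1 = 1 → ρ 2 = 2 →
      IsTri F → {0, 1, 2} ⊆ vs F → g (prel ρ F) = g F) {S T : Finset ℕ} (h : S.card = T.card)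
    (hS : {0, 1, 2} ⊆ S) (hT : {0, 1, 2} ⊆ T) : ∑ F ∈ LabS S, g F = ∑ F ∈ LabS T, g F := by
  classical
  obtain ⟨ρ, h1, h2, h3, h4⟩ := MA_perm h hS hT
  have h5 : T.image (⇑(ρ⁻¹ : Equiv.Perm ℕ)) = S := by
    rw [← h1, image_image]
    have : (⇑(ρ⁻¹ : Equiv.Perm ℕ) ∘ ⇑ρ) = id := by
      funext x
      simp
    rw [this, image_id]
  refine sum_nbij' (prel ρ) (prel ρ⁻¹) ?_ ?_ ?_ ?_ ?_
  · intro F hF
    obtain ⟨h6, h7⟩ := G4a_mem.1 hF
    refine G4a_mem.2 ⟨h6.relab (fun a _ b _ hab => ρ.injective hab), ?_⟩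
    rw [vs_prel, h7, h1]
  · intro F hF
    obtain ⟨h6, h7⟩ := G4a_mem.1 hF
    refine G4a_mem.2 ⟨h6.relab (fun a _ b _ hab => (ρ⁻¹).injective hab), ?_⟩
    rw [vs_prel, h7, h5]
  · intro F _
    rw [← prel_mul, inv_mul_cancel, prel_one]
  · intro F _
    rw [← prel_mul, mul_inv_cancel, prel_one]
  · intro F hF
    obtain ⟨h6, h7⟩ := G4a_mem.1 hF
    rw [hg ρ F h2 h3 h4 h6 (h7 ▸ hS)]

/-- Sums over `LabN N n` of functions invariant under permutations fixing `0, 1, 2`. -/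
theorem MA_sum {M : Type*} [AddCommMonoid M] (g : Finset (ℕ × ℕ × ℕ) → M)
    (hg : ∀ (ρ : Equiv.Perm ℕ) (F : Finset (ℕ × ℕ × ℕ)), ρ 0 = 0 → ρ 1 = 1 → ρ 2 = 2 →
      IsTri F → {0, 1, 2} ⊆ vs F → g (prel ρ F) = g F) {N n : ℕ} (h3 : 3 ≤ n) (hn : n ≤ N) :
    ∑ F ∈ LabN N n, g F = (N - 3).choose (n - 3) • ∑ F ∈ Lab n, g F := by
  classical
  have h012 : ({0, 1, 2} : Finset ℕ).card = 3 := rfl
  have hsubn : ∀ m : ℕ, 3 ≤ m → ({0, 1, 2} : Finset ℕ) ⊆ range m := by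
    intro m hm x hx
    simp only [mem_insert, mem_singleton] at hx
    rw [mem_range]
    omega
  have hsub := hsubn N (by omega)
  set U : Finset (Finset ℕ) := (powersetCard (n - 3) (range N \ {0, 1, 2})).image
    (fun A => A ∪ {0, 1, 2}) with hU
  have hUcard : U.card = (N - 3).choose (n - 3) := by
    rw [hU, card_image_of_injOn, card_powersetCard, card_sdiff_of_subset hsub, card_range, h012]
    intro A hA B hB hAB
    have hA' := (mem_powersetCard.1 (mem_coe.1 hA)).1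
    have hB' := (mem_powersetCard.1 (mem_coe.1 hB)).1
    have key : ∀ A : Finset ℕ, A ⊆ range N \ {0, 1, 2} → (A ∪ {0, 1, 2}) \ {0, 1, 2} = A := by
      intro A hA
      rw [union_sdiff_right, sdiff_eq_self_of_disjoint]
      rw [disjoint_left]
      intro x hx hx'
      exact (mem_sdiff.1 (hA hx)).2 hx'
    rw [← key A hA', ← key B hB']
    simp only at hAB
    rw [hAB]
  have hUmem : ∀ S ∈ U, S.card = n ∧ {0, 1, 2} ⊆ S ∧ S ⊆ range N := by
    intro S hS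
    rw [hU, mem_image] at hS
    obtain ⟨A, hA, rfl⟩ := hS
    obtain ⟨h1, h2⟩ := mem_powersetCard.1 hA
    refine ⟨?_, subset_union_right, union_subset (h1.trans sdiff_subset) hsub⟩
    rw [card_union_of_disjoint, h2, h012]
    · omega
    · rw [disjoint_left]
      intro x hx hx'
      exact (mem_sdiff.1 (h1 hx)).2 hx'
  have hmaps : ∀ F ∈ LabN N n, vs F ∈ U := by
    intro F hF
    obtain ⟨-, h5, h6, h7⟩ := G4a_memN.1 hF
    rw [hU, mem_image]
    refine ⟨vs F \ {0, 1, 2}, mem_powersetCard.2 ⟨sdiff_subset_sdiff h7 (Subset.refl _), ?_⟩,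
      sdiff_union_of_subset h5⟩
    rw [card_sdiff_of_subset h5, h6, h012]
  rw [← sum_fiberwise_of_maps_to hmaps]
  have : ∀ S ∈ U, ∑ F ∈ (LabN N n).filter (fun F => vs F = S), g F = ∑ F ∈ Lab n, g F := by
    intro S hS
    obtain ⟨h1, h2, h4⟩ := hUmem S hS
    have e : (LabN N n).filter (fun F => vs F = S) = LabS S := by
      ext F
      rw [mem_filter, G4a_memN, G4a_mem]
      constructor
      · rintro ⟨⟨h5, -⟩, h6⟩
        exact ⟨h5, h6⟩
      · rintro ⟨h5, h6⟩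
        rw [h6]
        exact ⟨⟨h5, h2, h1, h4⟩, rfl⟩
    rw [e]
    unfold Lab
    exact MA_sumS g hg (by rw [h1, card_range]) h2 (hsubn n h3)
  rw [sum_congr rfl this, sum_const, hUcard]

theorem MA_band_nonneg (F : Finset (ℕ × ℕ × ℕ)) (k : ℤ) : 0 ≤ band F k :=
  sum_nonneg fun _ _ => sq_nonneg _

theorem MA_band (ρ : Equiv.Perm ℕ) (F : Finset (ℕ × ℕ × ℕ)) (h0 : ρ 0 = 0) (h1 : ρ 1 = 1)
    (h2 : ρ 2 = 2) (hF : IsTri F) (hs : {0, 1, 2} ⊆ vs F) (k : ℤ) :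
    band (prel ρ F) k = band F k := by
  classical
  have hS := hF.toIsSurf
  have m0 : 0 ∈ vs F := hs (by simp)
  have m1 : 1 ∈ vs F := hs (by simp)
  have hpot : ∀ x, pot (prel ρ F) 0 1 (ρ x) = pot F 0 1 x := by
    intro x
    have := pot_prel hS m0 m1 (by norm_num) ρ x
    rwa [h0, h1] at this
  have hpot2 : pot (prel ρ F) 0 1 2 = pot F 0 1 2 := by
    have := hpot 2
    rwa [h2] at this
  have hfun : pot (prel ρ F) 0 1 = fun y => pot F 0 1 (ρ.symm y) := by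
    funext y
    have := hpot (ρ.symm y)
    rwa [Equiv.apply_symm_apply] at this
  have hthr : ∀ x, thr (prel ρ F) (pot (prel ρ F) 0 1) (ρ x) = thr F (pot F 0 1) x := by
    intro x
    rw [hfun]
    exact thr_prel ρ _ x
  unfold band
  have e : ((vs (prel ρ F)) \ {0, 1, 2}).filter (fun x =>
      (k : ℝ) ≤ pot (prel ρ F) 0 1 2 - pot (prel ρ F) 0 1 x ∧
        pot (prel ρ F) 0 1 2 - pot (prel ρ F) 0 1 x < k + 1) =
      (((vs F) \ {0, 1, 2}).filter (fun x =>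
      (k : ℝ) ≤ pot F 0 1 2 - pot F 0 1 x ∧ pot F 0 1 2 - pot F 0 1 x < k + 1)).image ρ := by
    ext y
    simp only [mem_filter, mem_sdiff, mem_image, vs_prel, mem_insert, mem_singleton]
    constructor
    · rintro ⟨⟨⟨x, hx, rfl⟩, h4⟩, h5⟩
      rw [hpot, hpot2] at h5
      refine ⟨x, ⟨⟨hx, ?_⟩, h5⟩, rfl⟩
      rintro (h6 | h6 | h6)
      · exact h4 (Or.inl (by rw [h6, h0]))
      · exact h4 (Or.inr (Or.inl (by rw [h6, h1])))
      · exact h4 (Or.inr (Or.inr (by rw [h6, h2])))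
    · rintro ⟨x, ⟨⟨hx, h4⟩, h5⟩, rfl⟩
      rw [hpot, hpot2]
      refine ⟨⟨⟨x, hx, rfl⟩, ?_⟩, h5⟩
      rintro (h6 | h6 | h6)
      · exact h4 (Or.inl (ρ.injective (by rw [h6, h0])))
      · exact h4 (Or.inr (Or.inl (ρ.injective (by rw [h6, h1]))))
      · exact h4 (Or.inr (Or.inr (ρ.injective (by rw [h6, h2]))))
  rw [e, sum_image fun _ _ _ _ hab => ρ.injective hab]
  refine sum_congr rfl fun x _ => ?_
  rw [hthr]

/-- (chunk MA) `lemmaD` on `LabN`: relabelling by a bijection fixing `0, 1, 2` does not change `band` (`pot_prel`, `thr_prel`);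
`LabN N n` is the disjoint union of the `LabS S`, `{0,1,2} ⊆ S ⊆ range N`, `|S| = n`. -/
theorem lemmaD_N : ∃ C : ℝ, 0 < C ∧ ∀ N n : ℕ, 4 ≤ n → n ≤ N → ∀ k : ℤ,
    ∑ F ∈ LabN N n, band F k ≤ C * (LabN N n).card := by
  obtain ⟨C, hC, h⟩ := lemmaD
  refine ⟨C, hC, fun N n h4 hn k => ?_⟩
  rw [MA_sum (fun F => band F k) (fun ρ F h0 h1 h2 hF hs => MA_band ρ F h0 h1 h2 hF hs k)
    (by omega) hn, labN_card (by omega) hn, nsmul_eq_mul]
  push_cast
  have h5 := h n h4 k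
  have h6 : (0 : ℝ) ≤ ((N - 3).choose (n - 3) : ℕ) := Nat.cast_nonneg _
  calc ((N - 3).choose (n - 3) : ℝ) * ∑ F ∈ Lab n, band F k
      ≤ ((N - 3).choose (n - 3) : ℝ) * (C * (Lab n).card) := mul_le_mul_of_nonneg_left h5 h6
    _ = C * (((N - 3).choose (n - 3) : ℝ) * (Lab n).card) := by ring

open Classical in
/-- Markov's inequality for finite sums -/
theorem MA_markov {ι : Type*} (s : Finset ι) (X : ι → ℝ) (hX : ∀ i ∈ s, 0 ≤ X i) {t S : ℝ}
    (ht : 0 < t) (hS : ∑ i ∈ s, X i ≤ S) : ((s.filter fun i => ¬ X i ≤ t).card : ℝ) ≤ S / t := by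
  rw [le_div_iff₀ ht]
  calc ((s.filter fun i => ¬ X i ≤ t).card : ℝ) * t = ∑ i ∈ s.filter fun i => ¬ X i ≤ t, t := by
        rw [sum_const, nsmul_eq_mul]
    _ ≤ ∑ i ∈ s.filter fun i => ¬ X i ≤ t, X i :=
        sum_le_sum fun i hi => (not_le.1 (mem_filter.1 hi).2).le
    _ ≤ ∑ i ∈ s, X i := sum_le_sum_of_subset_of_nonneg (filter_subset _ _) fun i hi _ => hX i hi
    _ ≤ S := hS

theorem MA_harm (J : ℕ) (hJ : 3 ≤ J) : ∑ k ∈ Icc 1 J, 1 / (k : ℝ) ≤ 2 * Real.log J := by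
  have h1 := harmonic_le_one_add_log J
  have h2 : ((harmonic J : ℚ) : ℝ) = ∑ k ∈ Icc 1 J, 1 / (k : ℝ) := by
    rw [harmonic_eq_sum_Icc]
    push_cast
    exact sum_congr rfl fun k _ => by rw [one_div]
  have h3 : 1 ≤ Real.log J := by
    rw [Real.le_log_iff_exp_le (by positivity)]
    have h4 := Real.exp_one_lt_d9
    have h5 : (3 : ℝ) ≤ J := by exact_mod_cast hJ
    linarith
  rw [← h2]
  linarith

/-- (chunk MA) Markov: the three conditions of `Typ` fail with probability at most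
`C (2K0+1)/B + C (1 + log J)/(B log J) + C/B ≤ p` if `B ≥ C (2 K0 + 4)/p` (`∑_{k ≤ J} 1/k ≤ 1 + log J ≤ 2 log J` for `J ≥ 3`). -/
theorem typ_prob (K0 : ℕ) {p : ℝ} (hp : 0 < p) : ∃ B : ℝ, 0 < B ∧ ∀ N n J : ℕ, 4 ≤ n → n ≤ N → 3 ≤ J →
    (by classical exact (((LabN N n).filter (fun F => ¬ Typ F K0 B J)).card : ℝ)) ≤
      p * (LabN N n).card := by
  classical
  obtain ⟨C, hC, h⟩ := lemmaD_N
  set B : ℝ := C * (2 * K0 + 4) / p with hB
  have hB0 : 0 < B := by positivity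
  refine ⟨B, hB0, fun N n J h4 hn hJ => ?_⟩
  have hlog : 1 ≤ Real.log J := by
    rw [Real.le_log_iff_exp_le (by positivity)]
    have h4 := Real.exp_one_lt_d9
    have h5 : (3 : ℝ) ≤ J := by exact_mod_cast hJ
    linarith
  have hJ0 : (0 : ℝ) < J := by
    have : 0 < J := by omega
    exact_mod_cast this
  set M : ℝ := ((LabN N n).card : ℝ) with hM
  have hM0 : 0 ≤ M := Nat.cast_nonneg _
  have k1 := MA_markov (LabN N n) (fun F => ∑ k ∈ Icc (-(K0 : ℤ)) K0, band F k)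
    (fun F _ => sum_nonneg fun k _ => MA_band_nonneg F k) hB0 (S := (2 * K0 + 1) * (C * M)) (by
      rw [sum_comm]
      calc ∑ k ∈ Icc (-(K0 : ℤ)) K0, ∑ F ∈ LabN N n, band F k
          ≤ ∑ k ∈ Icc (-(K0 : ℤ)) K0, C * M := sum_le_sum fun k _ => h N n h4 hn k
        _ = (2 * K0 + 1) * (C * M) := by
          rw [sum_const, nsmul_eq_mul, Int.card_Icc]
          congr 1
          have : ((K0 : ℤ) + 1 - -(K0 : ℤ)).toNat = 2 * K0 + 1 := by omega
          rw [this]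
          push_cast
          ring)
  have k2 := MA_markov (LabN N n) (fun F => ∑ k ∈ Icc 1 J, band F (k : ℤ) / k)
    (fun F _ => sum_nonneg fun k _ => div_nonneg (MA_band_nonneg F k) (Nat.cast_nonneg _))
    (t := B * Real.log J) (by positivity) (S := 2 * Real.log J * (C * M)) (by
      rw [sum_comm]
      calc ∑ k ∈ Icc 1 J, ∑ F ∈ LabN N n, band F (k : ℤ) / k
          ≤ ∑ k ∈ Icc 1 J, 1 / (k : ℝ) * (C * M) := by
            refine sum_le_sum fun k _ => ?_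
            rw [← sum_div, div_mul_eq_mul_div, one_mul]
            exact div_le_div_of_nonneg_right (h N n h4 hn k) (Nat.cast_nonneg _)
        _ = (∑ k ∈ Icc 1 J, 1 / (k : ℝ)) * (C * M) := by rw [sum_mul]
        _ ≤ 2 * Real.log J * (C * M) :=
            mul_le_mul_of_nonneg_right (MA_harm J hJ) (by positivity))
  have k3 := MA_markov (LabN N n) (fun F => ∑ k ∈ Icc 1 J, band F (k : ℤ))
    (fun F _ => sum_nonneg fun k _ => MA_band_nonneg F k)
    (t := B * J) (by positivity) (S := J * (C * M)) (by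
      rw [sum_comm]
      calc ∑ k ∈ Icc 1 J, ∑ F ∈ LabN N n, band F (k : ℤ)
          ≤ ∑ k ∈ Icc 1 J, C * M := sum_le_sum fun k _ => h N n h4 hn k
        _ = J * (C * M) := by
          rw [sum_const, nsmul_eq_mul, Nat.card_Icc]
          simp)
  have k4 : (LabN N n).filter (fun F => ¬ Typ F K0 B J) ⊆
      ((LabN N n).filter (fun F => ¬ ∑ k ∈ Icc (-(K0 : ℤ)) K0, band F k ≤ B)) ∪
      (((LabN N n).filter (fun F => ¬ ∑ k ∈ Icc 1 J, band F (k : ℤ) / k ≤ B * Real.log J)) ∪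
      ((LabN N n).filter (fun F => ¬ ∑ k ∈ Icc 1 J, band F (k : ℤ) ≤ B * J))) := by
    intro F hF
    rw [mem_filter] at hF
    rw [mem_union, mem_union, mem_filter, mem_filter, mem_filter]
    by_contra hcon
    push Not at hcon
    apply hF.2
    exact ⟨hcon.1 hF.1, hcon.2.1 hF.1, hcon.2.2 hF.1⟩
  have k5 := card_le_card k4
  have k6 : (((LabN N n).filter (fun F => ¬ Typ F K0 B J)).card : ℝ) ≤
      (((LabN N n).filter (fun F => ¬ ∑ k ∈ Icc (-(K0 : ℤ)) K0, band F k ≤ B)).card : ℝ) +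
      ((((LabN N n).filter (fun F => ¬ ∑ k ∈ Icc 1 J, band F (k : ℤ) / k ≤
        B * Real.log J)).card : ℝ) +
      (((LabN N n).filter (fun F => ¬ ∑ k ∈ Icc 1 J, band F (k : ℤ) ≤ B * J)).card : ℝ)) := by
    have := k5.trans ((card_union_le _ _).trans (Nat.add_le_add_left (card_union_le _ _) _))
    exact_mod_cast this
  have e1 : (2 * K0 + 1) * (C * M) / B + (2 * Real.log J * (C * M) / (B * Real.log J) +
      J * (C * M) / (B * J)) = p * M := by
    have hl0 : Real.log J ≠ 0 := by positivity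
    rw [hB]
    field_simp
    ring
  refine k6.trans ?_
  rw [← e1]
  exact add_le_add k1 (add_le_add k2 k3)

/-- (chunk MA) The proportion of `RegEv` is the same on `LabN N n` and `Lab n` (relabelling, `RegEv` is invariant under
permutations fixing `0, 1, 2`: see `I0.lean`). -/
theorem regEv_LabN {a A rN r0 c0 δz c1 : ℝ} {N n : ℕ} (h3 : 3 ≤ n) (hn : n ≤ N) :
    (by classical exact (((LabN N n).filter (RegEv a A rN r0 c0 δz c1)).card : ℕ)) =
      (N - 3).choose (n - 3) *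
        (by classical exact ((Lab n).filter (RegEv a A rN r0 c0 δz c1)).card) := by
  classical
  have h := MA_sum (fun F => if RegEv a A rN r0 c0 δz c1 F then 1 else 0)
    (fun ρ F h0 h1 h2 _ _ => by simp only [regEv_prel ρ h0 h1 h2]) h3 hn
  rw [← card_filter, ← card_filter, smul_eq_mul] at h
  convert h using 2

end H19S
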