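import Pool.Agent.Lib.H19S.BMain

/-!
# H19S part B: bounds for the number of labelled triangulations
-/

namespace H19S

open Finset PB

theorem lab_pos {n : ℕ} (hn : 3 ≤ n) : 0 < ((Lab n).card : ℝ) := by
  have h := PB.lab_card hn
  have h1 : (0 : ℝ) < n.factorial * Zf 3 (n - 3) :=
    mul_pos (by exact_mod_cast n.factorial_pos) (Zf_pos _ _)
  rw [← h] at h1
  have h2 : (3 : ℝ) ≤ n := by exact_mod_cast hn
  by_contra hcon
  push Not at hcon
  have := mul_nonpos_of_nonpos_of_nonneg hcon (by linarith : (0 : ℝ) ≤ 6 * n - 12)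
  linarith

theorem lab_succ {n : ℕ} (hn : 4 ≤ n) :
    ((Lab (n + 1)).card : ℝ) ≤ 16 * (n - 2) * (Lab n).card := by
  have h := PB.lab_card (n := n) (by omega)
  have h' := PB.lab_card (n := n + 1) (by omega)
  have h4 : (4 : ℝ) ≤ n := by exact_mod_cast hn
  have hE := En2 (n - 3)
  have e1 : n - 3 + 1 = n + 1 - 3 := by omega
  rw [e1] at hE
  rw [Nat.factorial_succ] at h'
  push_cast at h'
  have hf : (0 : ℝ) < n.factorial := by exact_mod_cast n.factorial_pos
  have h5 : ((Lab (n + 1)).card : ℝ) * (6 * (n + 1) - 12) ≤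
      (n + 1) * (256 / 27) * ((Lab n).card * (6 * n - 12)) := by
    rw [h', h]
    have e2 : n + 1 - 3 = n - 2 := by omega
    rw [e2] at hE
    have : (n.factorial : ℝ) * Zf 3 (n - 2) ≤ n.factorial * (256 / 27 * Zf 3 (n - 3)) :=
      mul_le_mul_of_nonneg_left hE hf.le
    nlinarith
  have hL : (0 : ℝ) ≤ (Lab n).card := by positivity
  have h6 : ((Lab (n + 1)).card : ℝ) * (6 * (n + 1) - 12) ≤
      16 * (n - 2) * (Lab n).card * (6 * (n + 1) - 12) := by
    refine h5.trans ?_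
    have h7 : (n + 1) * (256 / 27) * (6 * n - 12) ≤ 16 * ((n : ℝ) - 2) * (6 * (n + 1) - 12) := by
      nlinarith
    nlinarith
  exact le_of_mul_le_mul_right h6 (by linarith)

/-- Growth of the numbers of fillings (used in Part G). -/
theorem Zf_growth : ∀ l m D : ℕ, 3 ≤ l → 1 ≤ m →
    (256 / 27 : ℝ) ^ D * ((m : ℝ) / (m + D)) ^ 3 * Zf l m ≤ Zf l (m + D) :=
  fun _ _ D hl hm => En1 hl hm D

theorem Zf3_growth : ∀ m D : ℕ, Zf 3 (m + D) ≤ (256 / 27 : ℝ) ^ D * Zf 3 m := by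
  intro m D
  induction D with
  | zero => simp
  | succ D ih =>
    have := En2 (m + D)
    rw [← add_assoc, pow_succ]
    nlinarith

theorem Zf3_le (m : ℕ) : Zf 3 m ≤ (256 / 27 : ℝ) ^ m := by
  induction m with
  | zero => rw [Zf3_zero]; simp
  | succ m ih =>
    rw [pow_succ]
    have := En2 m
    nlinarith

theorem lab_upper {n : ℕ} (hn : 3 ≤ n) :
    ((Lab n).card : ℝ) * (6 * n - 12) ≤ n.factorial * (256 / 27 : ℝ) ^ (n - 3) := by
  rw [PB.lab_card hn]
  exact mul_le_mul_of_nonneg_left (Zf3_le _) (by positivity)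

theorem lab_lower {n : ℕ} (hn : 4 ≤ n) :
    n.factorial * (256 / 27 : ℝ) ^ (n - 4) ≤
      ((Lab n).card : ℝ) * (6 * n - 12) * ((n : ℝ) - 3) ^ 3 := by
  rw [PB.lab_card (by omega)]
  have h := En1 (l := 3) (m := 1) le_rfl le_rfl (n - 4)
  rw [Zf3_one, mul_one] at h
  have e : 1 + (n - 4) = n - 3 := by omega
  have e' : ((1 : ℕ) : ℝ) + ((n - 4 : ℕ) : ℝ) = (n : ℝ) - 3 := by
    rw [Nat.cast_sub hn]; push_cast; ring
  rw [e, e'] at h
  have h3 : (0 : ℝ) < (n : ℝ) - 3 := by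
    have : (4 : ℝ) ≤ n := by exact_mod_cast hn
    linarith
  have h4 : (256 / 27 : ℝ) ^ (n - 4) ≤ Zf 3 (n - 3) * ((n : ℝ) - 3) ^ 3 := by
    have := mul_le_mul_of_nonneg_right h (by positivity : 0 ≤ ((n : ℝ) - 3) ^ 3)
    refine le_trans (le_of_eq ?_) this
    push_cast
    field_simp
  rw [mul_assoc]
  exact mul_le_mul_of_nonneg_left h4 (by positivity)

end H19S
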