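import Pool.Agent.Lib.H19S.DDefs

/-!
# H19S, Part D, chunks D-WLE (W_le_one), D-HIT (hit_prefixFree, hp lemmas)

D-WLE. `W N G` is the supremum of the finite sums (`ENNReal.tsum_eq_iSup_sum`, or `ENNReal.tsum_le_of_...`);
so it suffices: for every `n`, every finite set `S` of lists, prefix-free, all of length `≤ n` and with head
`x`: `∑ p ∈ S, wt N p ≤ 1`. Induction on `n` (all `x`, all `S`). If `[x] ∈ S` then `S = {[x]}` (every list with head
`x` has the prefix `[x]`) and `wt = 1`. Otherwise every element is `x :: y :: l`; group by `y`: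
`wt N (x :: y :: l) = (if y ∈ N x then 1/deg else 0) * wt N (y :: l)`; for fixed `y` the lists `y :: l` form
a prefix-free set with head `y` and length `≤ n - 1`, so the sum is `≤ ∑_{y ∈ N x} 1/deg ≤ 1`
(`ENNReal.mul_inv_cancel` or `≤` if `N x` is empty).

D-HIT. If `p <+: q`, both in `Hit`, `p ≠ q`, then the last element of `p` is an element of `q.dropLast`
(`q = p ++ r`, `r ≠ []`, `q.dropLast = p ++ r.dropLast`), so not in `A`, but it is in `A`.
`x ∈ A`: `Hit N D A x = {[x]}` (a longer list has `x ∈ dropLast`), weight 1.
`x ∉ D`, `x ∉ A`: `Hit N D A x = ∅` (one-element list: `x ∈ A`; longer: `x ∈ D`).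
`x ∈ D`, `x ∉ A`: the map `q ↦ x :: q` is a bijection from `⋃_{y ∈ N x} Hit N D A y` to `Hit N D A x`, and
`wt N (x :: q) = (card (N x))⁻¹ * wt N q`, so `W N (Hit N D A x) = ∑_{y ∈ N x} (card (N x))⁻¹ * W N (Hit N D A y)`;
all the numbers are `≤ 1` by D-WLE, so take `toReal` and multiply by the degree.
-/

namespace H19S.PD

open Finset
open scoped ENNReal

variable {β : Type*} [DecidableEq β]

theorem DW_cons_le (N : β → Finset β) (x : β) {q : List β} (hq : q ≠ []) :
    wt N (x :: q) ≤
      ∑ y ∈ N x, ((N x).card : ℝ≥0∞)⁻¹ * (if q.head? = some y then wt N q else 0) := by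
  cases q with
  | nil => exact absurd rfl hq
  | cons y l =>
    by_cases hy : y ∈ N x
    · have h1 : wt N (x :: y :: l) = ((N x).card : ℝ≥0∞)⁻¹ * wt N (y :: l) := by
        simp [wt, hy]
      rw [h1]
      refine le_trans (le_of_eq ?_) (single_le_sum (f := fun y' =>
        ((N x).card : ℝ≥0∞)⁻¹ * (if (y :: l).head? = some y' then wt N (y :: l) else 0))
        (fun _ _ => zero_le) hy)
      simp
    · have h1 : wt N (x :: y :: l) = 0 := by
        simp [wt, hy]
      rw [h1]
      exact zero_le

theorem DW_fin (N : β → Finset β) : ∀ (n : ℕ) (S : Finset (List β)) (x : β),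
    (∀ p ∈ S, p.length ≤ n) → (∀ p ∈ S, p.head? = some x) →
    (∀ p ∈ S, ∀ q ∈ S, p <+: q → p = q) → ∑ p ∈ S, wt N p ≤ 1 := by
  intro n
  induction n with
  | zero =>
    intro S x hl hx _
    have hS : S = ∅ := by
      rw [eq_empty_iff_forall_notMem]
      intro p hp
      have h1 := hl p hp
      have h2 := hx p hp
      have h3 : p = [] := List.length_eq_zero_iff.1 (Nat.le_zero.1 h1)
      subst h3
      simp at h2
    rw [hS]
    simp
  | succ n ih =>
    intro S x hl hx hpf
    have hform : ∀ p ∈ S, p = x :: p.tail := by
      intro p hp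
      have := hx p hp
      cases p with
      | nil => simp at this
      | cons a l =>
        simp only [List.head?_cons, Option.some.injEq] at this
        rw [this, List.tail_cons]
    by_cases h1 : [x] ∈ S
    · have hS : S = {[x]} := by
        ext p
        rw [mem_singleton]
        constructor
        · intro hp
          have h2 : [x] <+: p := by
            rw [hform p hp]
            exact ⟨p.tail, rfl⟩
          exact (hpf _ h1 _ hp h2).symm
        · rintro rfl
          exact h1
      rw [hS, sum_singleton]
      simp [wt]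
    · have hne : ∀ p ∈ S, p.tail ≠ [] := by
        intro p hp h2
        have h3 := hform p hp
        rw [h2] at h3
        rw [h3] at hp
        exact h1 hp
      have hinj : Set.InjOn List.tail (S : Set (List β)) := by
        intro p hp q hq h
        rw [hform p hp, hform q hq, h]
      have hsum : ∑ p ∈ S, wt N p = ∑ q ∈ S.image List.tail, wt N (x :: q) := by
        rw [sum_image hinj]
        refine sum_congr rfl fun p hp => ?_
        rw [← hform p hp]
      rw [hsum]
      calc ∑ q ∈ S.image List.tail, wt N (x :: q)
          ≤ ∑ q ∈ S.image List.tail, ∑ y ∈ N x, ((N x).card : ℝ≥0∞)⁻¹ *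
              (if q.head? = some y then wt N q else 0) := by
            refine sum_le_sum fun q hq => ?_
            obtain ⟨p, hp, rfl⟩ := mem_image.1 hq
            exact DW_cons_le N x (hne p hp)
        _ = ∑ y ∈ N x, ((N x).card : ℝ≥0∞)⁻¹ *
              ∑ q ∈ (S.image List.tail).filter (fun q => q.head? = some y), wt N q := by
            rw [sum_comm]
            refine sum_congr rfl fun y _ => ?_
            rw [← mul_sum, sum_filter]
        _ ≤ ∑ _y ∈ N x, ((N x).card : ℝ≥0∞)⁻¹ * 1 := by
            refine sum_le_sum fun y _ => ?_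
            refine mul_le_mul_right ?_ _
            refine ih _ y ?_ ?_ ?_
            · intro q hq
              obtain ⟨p, hp, rfl⟩ := mem_image.1 (mem_filter.1 hq).1
              have := hl p hp
              rw [List.length_tail]
              omega
            · intro q hq
              exact (mem_filter.1 hq).2
            · intro q hq q' hq' hqq
              obtain ⟨p, hp, rfl⟩ := mem_image.1 (mem_filter.1 hq).1
              obtain ⟨p', hp', rfl⟩ := mem_image.1 (mem_filter.1 hq').1
              have h3 : p <+: p' := by
                rw [hform p hp, hform p' hp']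
                exact (List.prefix_cons_inj x).2 hqq
              rw [hpf p hp p' hp' h3]
        _ ≤ 1 := by
            rw [sum_const, mul_one, nsmul_eq_mul]
            exact ENNReal.mul_inv_le_one _

/-- D-WLE. -/
theorem W_le_one (N : β → Finset β) {G : Set (List β)} (hG : PrefixFree G) (x : β)
    (hx : ∀ p ∈ G, p.head? = some x) : W N G ≤ 1 := by
  classical
  unfold W
  rw [ENNReal.tsum_eq_iSup_sum]
  refine iSup_le fun S => ?_
  have h1 : ∑ p ∈ S, (if p ∈ G then wt N p else 0) = ∑ p ∈ S.filter (fun p => p ∈ G), wt N p := by
    rw [sum_filter]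
  refine le_trans (le_of_eq ?_) (DW_fin N (S.sup List.length) (S.filter (fun p => p ∈ G)) x ?_ ?_ ?_)
  · rw [← h1]
  · intro p hp
    exact le_sup (f := List.length) (mem_filter.1 hp).1
  · intro p hp
    exact hx p (mem_filter.1 hp).2
  · intro p hp q hq hpq
    exact hG p (mem_filter.1 hp).2 q (mem_filter.1 hq).2 hpq

end H19S.PD
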