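import Pool.Agent.Lib.H19S.G9
import Pool.Agent.Lib.H19S.BBounds
import Pool.Agent.Lib.H19S.DWalk

/-!
# H19S: top statement(s) of part G (proved in G9)
-/

namespace H19S

open Finset
open scoped ENNReal

/-- PART G (counting theorem). -/
theorem multiscale (κ Λ η η' : ℝ) (hΛ : 1 ≤ Λ) (hη : 0 < η) (hη' : 0 < η') :
    ∃ C : ℝ, 0 < C ∧ ∀ n k1 k2 : ℕ, k1 ≤ k2 → 3 ≤ Λ * (n / 2 ^ k2) → 1 ≤ (n : ℝ) / 2 ^ k2 →
      Λ ≤ 2 ^ k1 →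
      ∑ k ∈ Icc k1 k2,
        ∑ F ∈ (by classical exact (LabN (n + ⌈Λ * (n / 2 ^ k1)⌉₊) n).filter (fun F =>
            ¬ NBig F κ (Λ * (n / 2 ^ k2) / 2) (2 * Λ * (n / 2 ^ k1) + 1))),
          W (nbr F) (GoodStop F (n / 2 ^ k) η η' Λ κ)
        ≤ ENNReal.ofReal (C * (LabN (n + ⌈Λ * (n / 2 ^ k1)⌉₊) n).card) :=
  multiscale' (fun F _ _ hG hx => PD.W_le_one (nbr F) hG 2 hx) Zf_growth Zf3_growth κ Λ η η' hΛ hη hη'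

end H19S
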