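import Pool.Agent.Lib.H19S.TopF
import Pool.Agent.Lib.H19S.TopG
import Pool.Agent.Lib.H19S.MA

/-!
# H19S, chunk MB: the event RegEv has small probability
-/

namespace H19S

open Finset
open scoped ENNReal

/-- (chunk MB) `mainfin`.  `K0` from `analysis`; `B` from `typ_prob K0 (p/2)`; `κ, Λ, η, η', c, k1, J0` from `analysis`; `C` from
`multiscale κ Λ η η'`; `J ≥ max J0 3` with `c log J * (p/2) > C`; `rN, k2, n0` from `analysis`.  For `n ≥ max n0 4`, `N = n + ⌈Λ (n/2^k1)⌉₊`: let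
`X` be the number of `F ∈ LabN N n` with `Typ` and `RegEv`.  Summing the conclusion of `analysis` over these `F`, exchanging sums, and
`multiscale`: `c log J X ≤ C |LabN N n|`, so `X ≤ (p/2) |LabN N n|`, and `#RegEv ≤ X + #(not Typ) ≤ p |LabN N n|`; then
`regEv_LabN` and `labN_card`. -/
theorem mainfin' (a A r0 c0 δz c1 p : ℝ) (ha : 0 < a) (hA : 0 < A) (hr0 : 0 < r0) (hc0 : 0 < c0)
    (hδz : 0 < δz) (hc1 : δz ≤ c1) (h1 : 100 * c1 ≤ r0) (h2 : 100 * r0 ≤ c0) (h3 : 1000 * r0 ≤ 1)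
    (hp : 0 < p) :
    ∃ (rN : ℝ) (n0 : ℕ), 0 < rN ∧ ∀ n : ℕ, n0 ≤ n →
      (by classical exact (((Lab n).filter (RegEv a A rN r0 c0 δz c1)).card : ℝ)) ≤
        p * (Lab n).card := by
  classical
  obtain ⟨K0, hK0⟩ := analysis a A r0 c0 δz c1 ha hA hr0 hc0 hδz hc1 h1 h2 h3
  obtain ⟨B, hB, hTyp⟩ := typ_prob K0 (p := p / 2) (by positivity)
  obtain ⟨κ, Λ, η, η', c, k1, J0, hΛ, hη, hη', hc, hΛk, hJ⟩ := hK0 B hB
  obtain ⟨C, hC, hmul⟩ := multiscale κ Λ η η' hΛ hη hη'
  -- choice of J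
  obtain ⟨J, hJ0, hJ3, hJlog⟩ : ∃ J : ℕ, J0 ≤ J ∧ 3 ≤ J ∧ C < c * Real.log J * (p / 2) := by
    have ht : Filter.Tendsto (fun J : ℕ => c * Real.log J * (p / 2)) Filter.atTop Filter.atTop := by
      have h0 : Filter.Tendsto (fun J : ℕ => Real.log (J : ℝ)) Filter.atTop Filter.atTop :=
        Real.tendsto_log_atTop.comp tendsto_natCast_atTop_atTop
      exact (h0.const_mul_atTop hc).atTop_mul_const (by positivity)
    obtain ⟨J, h⟩ := ((ht.eventually (Filter.eventually_gt_atTop C)).and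
      ((Filter.eventually_ge_atTop J0).and (Filter.eventually_ge_atTop 3))).exists
    exact ⟨J, h.2.1, h.2.2, h.1⟩
  obtain ⟨rN, k2, n0, hrN, hk12, h3n, h1n, hmain⟩ := hJ J hJ0
  refine ⟨rN, max n0 4, hrN, fun n hn => ?_⟩
  have hn0 : n0 ≤ n := le_trans (le_max_left _ _) hn
  have hn4 : 4 ≤ n := le_trans (le_max_right _ _) hn
  set N : ℕ := n + ⌈Λ * (n / 2 ^ k1)⌉₊ with hN
  have hnN : n ≤ N := by omega
  have hmono : (n0 : ℝ) / 2 ^ k2 ≤ (n : ℝ) / 2 ^ k2 := by
    have : (n0 : ℝ) ≤ n := by exact_mod_cast hn0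
    gcongr
  have h3n' : 3 ≤ Λ * ((n : ℝ) / 2 ^ k2) :=
    h3n.trans (mul_le_mul_of_nonneg_left hmono (by linarith))
  have h1n' : 1 ≤ (n : ℝ) / 2 ^ k2 := h1n.trans hmono
  have hM := hmul n k1 k2 hk12 h3n' h1n' hΛk
  rw [← hN] at hM
  set X : Finset (Finset (ℕ × ℕ × ℕ)) := (LabN N n).filter
    (fun F => Typ F K0 B J ∧ RegEv a A rN r0 c0 δz c1 F) with hX
  have hXmem : ∀ F ∈ X, F ∈ LabN N n ∧ IsTri F ∧ {0, 1, 2} ⊆ vs F ∧ (vs F).card = n ∧
      Typ F K0 B J ∧ RegEv a A rN r0 c0 δz c1 F := by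
    intro F hF
    rw [hX, mem_filter] at hF
    have h := hF.1
    rw [G4a_memN] at h
    exact ⟨hF.1, h.1, h.2.1, h.2.2.1, hF.2.1, hF.2.2⟩
  have hkey : ENNReal.ofReal (c * Real.log J) * (X.card : ℝ≥0∞) ≤
      ENNReal.ofReal (C * (LabN N n).card) := by
    calc ENNReal.ofReal (c * Real.log J) * (X.card : ℝ≥0∞)
        = ∑ F ∈ X, ENNReal.ofReal (c * Real.log J) := by
          rw [sum_const, nsmul_eq_mul, mul_comm]
      _ ≤ ∑ F ∈ X, ∑ k ∈ Icc k1 k2, W (nbr F) (GoodStop F (n / 2 ^ k) η η' Λ κ) := by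
          apply sum_le_sum
          intro F hF
          obtain ⟨_, hT, h012, hcard, hty, hre⟩ := hXmem F hF
          have h := (hmain F hT h012 (by rw [hcard]; exact hn0) hty hre).2
          rw [hcard] at h
          exact h
      _ = ∑ k ∈ Icc k1 k2, ∑ F ∈ X, W (nbr F) (GoodStop F (n / 2 ^ k) η η' Λ κ) := sum_comm
      _ ≤ ∑ k ∈ Icc k1 k2, ∑ F ∈ (LabN N n).filter (fun F =>
            ¬ NBig F κ (Λ * (n / 2 ^ k2) / 2) (2 * Λ * (n / 2 ^ k1) + 1)),
          W (nbr F) (GoodStop F (n / 2 ^ k) η η' Λ κ) := by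
          apply sum_le_sum
          intro k _
          apply sum_le_sum_of_subset_of_nonneg
          · intro F hF
            obtain ⟨hL, hT, h012, hcard, hty, hre⟩ := hXmem F hF
            have h := (hmain F hT h012 (by rw [hcard]; exact hn0) hty hre).1
            rw [hcard] at h
            rw [mem_filter]
            exact ⟨hL, h⟩
          · intro _ _ _
            exact zero_le
      _ ≤ ENNReal.ofReal (C * (LabN N n).card) := by
          convert hM using 5
  have hlogJ : 0 < c * Real.log J := by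
    have : 0 < Real.log (J : ℝ) := Real.log_pos (by exact_mod_cast (by omega : 1 < J))
    positivity
  have hkey' : c * Real.log J * (X.card : ℝ) ≤ C * (LabN N n).card := by
    have h := hkey
    rw [show (X.card : ℝ≥0∞) = ENNReal.ofReal (X.card : ℝ) by simp,
      ← ENNReal.ofReal_mul hlogJ.le] at h
    exact (ENNReal.ofReal_le_ofReal_iff (by positivity)).1 h
  have hXp : (X.card : ℝ) ≤ p / 2 * (LabN N n).card := by
    have h4 : c * Real.log J * (X.card : ℝ) ≤ c * Real.log J * (p / 2 * (LabN N n).card) := by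
      have : C * ((LabN N n).card : ℝ) ≤ c * Real.log J * (p / 2) * (LabN N n).card :=
        mul_le_mul_of_nonneg_right hJlog.le (by positivity)
      nlinarith
    exact le_of_mul_le_mul_left h4 hlogJ
  have hT := hTyp N n J hn4 hnN hJ3
  have hsub : (LabN N n).filter (RegEv a A rN r0 c0 δz c1) ⊆
      X ∪ (LabN N n).filter (fun F => ¬ Typ F K0 B J) := by
    intro F hF
    rw [mem_filter] at hF
    rw [mem_union, hX, mem_filter, mem_filter]
    by_cases h : Typ F K0 B J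
    · exact Or.inl ⟨hF.1, h, hF.2⟩
    · exact Or.inr ⟨hF.1, h⟩
  have hcard : (((LabN N n).filter (RegEv a A rN r0 c0 δz c1)).card : ℝ) ≤
      p * (LabN N n).card := by
    have h5 : (((LabN N n).filter (RegEv a A rN r0 c0 δz c1)).card : ℝ) ≤
        (X.card : ℝ) + (((LabN N n).filter (fun F => ¬ Typ F K0 B J)).card : ℝ) := by
      exact_mod_cast (card_le_card hsub).trans (card_union_le _ _)
    have h6 : (((LabN N n).filter (fun F => ¬ Typ F K0 B J)).card : ℝ) ≤
        p / 2 * (LabN N n).card := by convert hT using 3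
    linarith
  have hreg := regEv_LabN (a := a) (A := A) (rN := rN) (r0 := r0) (c0 := c0) (δz := δz) (c1 := c1)
    (N := N) (n := n) (by omega) hnN
  have hlab := labN_card (N := N) (n := n) (by omega) hnN
  have hch : 0 < (N - 3).choose (n - 3) := Nat.choose_pos (by omega)
  have hreg' : (((LabN N n).filter (RegEv a A rN r0 c0 δz c1)).card : ℝ) =
      ((N - 3).choose (n - 3) : ℝ) * (((Lab n).filter (RegEv a A rN r0 c0 δz c1)).card : ℝ) := by
    have : ((LabN N n).filter (RegEv a A rN r0 c0 δz c1)).card =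
      ((N - 3).choose (n - 3)) * (((Lab n).filter (RegEv a A rN r0 c0 δz c1)).card) := by
      convert hreg using 2
    exact_mod_cast this
  rw [hreg', hlab] at hcard
  push_cast at hcard
  have hch' : (0 : ℝ) < ((N - 3).choose (n - 3) : ℝ) := by exact_mod_cast hch
  have h7 : ((N - 3).choose (n - 3) : ℝ) * (((Lab n).filter (RegEv a A rN r0 c0 δz c1)).card : ℝ) ≤
      ((N - 3).choose (n - 3) : ℝ) * (p * (Lab n).card) := by linarith
  exact le_of_mul_le_mul_left h7 hch'

end H19S
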