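import Pool.Agent.Lib.H19S.BBounds

/-!
# H19S: top statement(s) of part B (proved in BMain)
-/

namespace H19S

open Finset
open scoped ENNReal

/-- PART B (enumeration of fillings). -/
theorem fill_card {B : Finset (ℕ × ℕ)} {I : Finset ℕ} {o : ℕ} (hB : IsCyc B)
    (hI : Disjoint I (vb B)) (ho : o ∉ vb B ∪ I) :
    ((Fill o B I).card : ℝ) = I.card.factorial * Zf B.card I.card :=
  PB.fill_card hB hI ho

/-- PART B (number of labelled triangulations). -/
theorem lab_card {n : ℕ} (hn : 3 ≤ n) :
    ((Lab n).card : ℝ) * (6 * n - 12) = n.factorial * Zf 3 (n - 3) :=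
  PB.lab_card hn

end H19S
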