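import Pool.Agent.Lib.H19S.C5
import Pool.Agent.Lib.H19S.TopB

/-!
# H19S: top statement(s) of part C (proved in C5)
-/

namespace H19S

open Finset
open scoped ENNReal

/-- PART C (Lemma D). -/
theorem lemmaD : ∃ C : ℝ, 0 < C ∧ ∀ n : ℕ, 4 ≤ n → ∀ k : ℤ,
    ∑ F ∈ Lab n, band F k ≤ C * (Lab n).card :=
  lemmaD_of fun _ hn => lab_card hn

end H19S
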