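import Mathlib

/-!
# H19S, Part D, chunk D-AVG: choice of a good level by integration

PROOF. Otherwise `K ≤ ∑_{i ∈ S} w i * 1[b i ≤ s < c i]` for all `s ∈ (p, q)`; integrate over `Ioo p q` (lintegral of
`ENNReal.ofReal`, or interval integral): the integral of the indicator of `Ico (b i) (c i)` over `Ioo p q` is at most
`max 0 (min (c i) q - max (b i) p)` (`Real.volume_Ico`, the intersection is contained in `Icc (max (b i) p) (min (c i) q)`).
-/

namespace H19S.PD

open Finset MeasureTheory

lemma d_avg_int (b c p q : ℝ) :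
    ∫ s in Set.Ioo p q, (Set.Ico b c).indicator (fun _ => (1 : ℝ)) s
      ≤ max 0 (min c q - max b p) := by
  rw [integral_indicator measurableSet_Ico]
  rw [Measure.restrict_restrict measurableSet_Ico]
  simp only [integral_const, MeasurableSet.univ, measureReal_restrict_apply, Set.univ_inter,
    smul_eq_mul, mul_one]
  have hsub : Set.Ico b c ∩ Set.Ioo p q ⊆ Set.Icc (max b p) (min c q) := by
    intro x hx
    simp only [Set.mem_inter_iff, Set.mem_Ico, Set.mem_Ioo] at hx
    constructor
    · exact max_le hx.1.1 hx.2.1.le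
    · exact le_min hx.1.2.le hx.2.2.le
  calc volume.real (Set.Ico b c ∩ Set.Ioo p q) ≤ volume.real (Set.Icc (max b p) (min c q)) :=
        measureReal_mono hsub (by simp)
    _ = max (min c q - max b p) 0 := by
        rw [Measure.real, Real.volume_Icc, ENNReal.toReal_ofReal']
    _ = max 0 (min c q - max b p) := max_comm _ _

/-- D-AVG. -/
theorem avg_choice {ι : Type*} (S : Finset ι) (w b c : ι → ℝ) (hw : ∀ i ∈ S, 0 ≤ w i)
    {p q K : ℝ} (hpq : p < q)
    (h : ∑ i ∈ S, w i * max 0 (min (c i) q - max (b i) p) < K * (q - p)) :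
    ∃ s, p < s ∧ s < q ∧ ∑ i ∈ S.filter (fun i => b i ≤ s ∧ s < c i), w i < K := by
  by_contra hcon
  push Not at hcon
  have hfin : ∀ i, IntegrableOn (fun s => w i * (Set.Ico (b i) (c i)).indicator (fun _ => (1 : ℝ)) s)
      (Set.Ioo p q) := by
    intro i
    apply Integrable.const_mul
    apply Integrable.indicator _ measurableSet_Ico
    exact integrable_const _
  have h1 : K * (q - p) ≤ ∫ s in Set.Ioo p q,
      ∑ i ∈ S, w i * (Set.Ico (b i) (c i)).indicator (fun _ => (1 : ℝ)) s := by
    have h2 : ∫ s in Set.Ioo p q, K = K * (q - p) := by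
      simp [hpq.le, mul_comm, Measure.real]
    rw [← h2]
    apply setIntegral_mono_on
    · exact integrable_const _
    · exact integrable_finset_sum _ (fun i _ => hfin i)
    · exact measurableSet_Ioo
    · intro s hs
      refine (hcon s hs.1 hs.2).trans (le_of_eq ?_)
      rw [Finset.sum_filter]
      apply Finset.sum_congr rfl
      intro i _
      by_cases hi : b i ≤ s ∧ s < c i
      · rw [if_pos hi, Set.indicator_of_mem (show s ∈ Set.Ico (b i) (c i) from hi), mul_one]
      · rw [if_neg hi, Set.indicator_of_notMem (show s ∉ Set.Ico (b i) (c i) from hi), mul_zero]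
  rw [integral_finset_sum _ (fun i _ => hfin i)] at h1
  have h3 : ∑ i ∈ S, ∫ s in Set.Ioo p q, w i * (Set.Ico (b i) (c i)).indicator (fun _ => (1 : ℝ)) s
      ≤ ∑ i ∈ S, w i * max 0 (min (c i) q - max (b i) p) := by
    apply Finset.sum_le_sum
    intro i hi
    rw [integral_const_mul]
    exact mul_le_mul_of_nonneg_left (d_avg_int _ _ _ _) (hw i hi)
  linarith

end H19S.PD
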