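import Pool.Agent.Lib.H19S.DPart

/-!
# H19S, Part D, chunk D-CACC: Caccioppoli inequality for the logarithm of a superharmonic function

PROOF. Dart by dart, with `p = U x`, `q = U y`, `A = χ x`, `B = χ y` (`p, q > 0`):
`(B²/q - A²/p)(q - p) + (A q - B p)²/(p q) = (B - A)²` (ring after multiplying by `p q`). (*)
By `sum_parts` with `f = χ²/U`, `g = U`:
`∑_x ∑_{y ∈ N x} (χ y²/U y - χ x²/U x)(U y - U x) = - 2 ∑_x (χ x²/U x) nlap U x ≥ 0`,
because `nlap U x ≤ 0` where `χ x ≠ 0`. So summing (*): `∑∑ (A q - B p)²/(p q) ≤ ∑∑ (B - A)²`.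
All terms on the left are nonnegative; for `A = B = 1` the term is
`(q - p)²/(p q) = t + 1/t - 2` with `t = q/p`, and `t + 1/t - 2 ≥ (log t)²` (chunk lemma `log_sq_le`:
with `t = exp s`: `exp s + exp (-s) - 2 = (2 sinh (s/2))² ≥ s²`; Mathlib: `Real.self_le_sinh_iff`,
or monotonicity of `t + 1/t - 2 - (log t)²`, or `Real.one_sub_inv_le_log_of_pos`...), and
`log U y - log U x = log (q/p)`.
-/

namespace H19S.PD

open Finset

variable {β : Type*} [DecidableEq β]

theorem dcacc_sinh (s : ℝ) : s ^ 2 ≤ (Real.sinh s) ^ 2 := by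
  rw [sq_le_sq]
  rcases le_total 0 s with h | h
  · have h1 := Real.self_le_sinh_iff.2 h
    rw [abs_of_nonneg h, abs_of_nonneg (le_trans h h1)]
    exact h1
  · have h0 : 0 ≤ -s := by linarith
    have h1 := Real.self_le_sinh_iff.2 h0
    rw [Real.sinh_neg] at h1
    rw [abs_of_nonpos h, abs_of_nonpos (by linarith)]
    exact h1

theorem log_sq_le {t : ℝ} (ht : 0 < t) : (Real.log t) ^ 2 ≤ t + 1 / t - 2 := by
  have h1 := dcacc_sinh (Real.log t / 2)
  have h2 : t = Real.exp (Real.log t / 2) * Real.exp (Real.log t / 2) := by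
    rw [← Real.exp_add, add_halves, Real.exp_log ht]
  have h3 : 1 / t = Real.exp (-(Real.log t / 2)) * Real.exp (-(Real.log t / 2)) := by
    rw [Real.exp_neg, ← mul_inv, ← h2, one_div]
  have h4 : Real.exp (Real.log t / 2) * Real.exp (-(Real.log t / 2)) = 1 := by
    rw [← Real.exp_add, add_neg_cancel, Real.exp_zero]
  rw [Real.sinh_eq] at h1
  rw [h3]
  nlinarith [h1, h2, h3, h4]

/-- D-CACC. -/
theorem cacc {V : Finset β} {N : β → Finset β} (hG : IsGr V N) (U χ : β → ℝ)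
    (hU : ∀ x ∈ V, 0 < U x) (hs : ∀ x ∈ V, χ x ≠ 0 → nlap N U x ≤ 0) :
    ∑ x ∈ V, ∑ y ∈ (N x).filter (fun y => χ x = 1 ∧ χ y = 1), (Real.log (U y) - Real.log (U x)) ^ 2
      ≤ ∑ x ∈ V, ∑ y ∈ N x, (χ y - χ x) ^ 2 := by
  have key := sum_parts hG (fun x => χ x ^ 2 / U x) U
  have hneg : ∑ x ∈ V, (fun x => χ x ^ 2 / U x) x * nlap N U x ≤ 0 := by
    apply Finset.sum_nonpos
    intro x hx
    have hUx := hU x hx
    by_cases hc : χ x = 0
    · simp [hc]
    · have h1 := hs x hx hc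
      have h2 : 0 ≤ χ x ^ 2 / U x := by positivity
      exact mul_nonpos_of_nonneg_of_nonpos h2 h1
  have hpos : 0 ≤ ∑ x ∈ V, ∑ y ∈ N x, (χ y ^ 2 / U y - χ x ^ 2 / U x) * (U y - U x) := by
    have h3 : (∑ x ∈ V, ∑ y ∈ N x, (χ y ^ 2 / U y - χ x ^ 2 / U x) * (U y - U x)) / 2 
        = - ∑ x ∈ V, (fun x => χ x ^ 2 / U x) x * nlap N U x := by
      rw [key]; ring
    linarith
  have hdart : ∀ x ∈ V, ∀ y ∈ N x, (χ y - χ x) ^ 2 =
      (χ y ^ 2 / U y - χ x ^ 2 / U x) * (U y - U x)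
        + (χ x * U y - χ y * U x) ^ 2 / (U x * U y) := by
    intro x hx y hy
    have hUx := hU x hx
    have hUy := hU y (hG.sub x hx hy)
    field_simp
    ring
  have hsum : ∑ x ∈ V, ∑ y ∈ N x, (χ y - χ x) ^ 2 =
      ∑ x ∈ V, ∑ y ∈ N x, (χ y ^ 2 / U y - χ x ^ 2 / U x) * (U y - U x)
        + ∑ x ∈ V, ∑ y ∈ N x, (χ x * U y - χ y * U x) ^ 2 / (U x * U y) := by
    rw [← Finset.sum_add_distrib]
    apply Finset.sum_congr rfl
    intro x hx
    rw [← Finset.sum_add_distrib]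
    exact Finset.sum_congr rfl (fun y hy => hdart x hx y hy)
  have hlog : ∑ x ∈ V, ∑ y ∈ (N x).filter (fun y => χ x = 1 ∧ χ y = 1),
      (Real.log (U y) - Real.log (U x)) ^ 2
      ≤ ∑ x ∈ V, ∑ y ∈ N x, (χ x * U y - χ y * U x) ^ 2 / (U x * U y) := by
    apply Finset.sum_le_sum
    intro x hx
    have hUx := hU x hx
    calc ∑ y ∈ (N x).filter (fun y => χ x = 1 ∧ χ y = 1),
          (Real.log (U y) - Real.log (U x)) ^ 2
        ≤ ∑ y ∈ (N x).filter (fun y => χ x = 1 ∧ χ y = 1),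
          (χ x * U y - χ y * U x) ^ 2 / (U x * U y) := by
          apply Finset.sum_le_sum
          intro y hy
          rw [Finset.mem_filter] at hy
          obtain ⟨hy, h1, h2⟩ := hy
          have hUy := hU y (hG.sub x hx hy)
          have h4 := log_sq_le (div_pos hUy hUx)
          rw [Real.log_div hUy.ne' hUx.ne'] at h4
          refine le_trans h4 (le_of_eq ?_)
          rw [h1, h2]
          field_simp
          ring
      _ ≤ ∑ y ∈ N x, (χ x * U y - χ y * U x) ^ 2 / (U x * U y) := by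
          apply Finset.sum_le_sum_of_subset_of_nonneg (Finset.filter_subset _ _)
          intro y hy _
          have hUy := hU y (hG.sub x hx hy)
          positivity
  linarith

end H19S.PD
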