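import Pool.Agent.Lib.H19S.DDefs

/-!
# H19S, Part D, chunk D-COV: the double cover is a finite graph

`cov_sum` is `Finset.sum_image` (`y ↦ (y, _)` is injective). The rest is immediate:
`(y, e) ∈ cov N σ (x, e')` iff `y ∈ N x` and `e = e' + σ x y`; for symmetric `σ` and in `ZMod 2` this is symmetric.
`cov_reach`: lift a path step by step.
-/

namespace H19S.PD

open Finset

variable {α : Type*} [DecidableEq α]

theorem mem_cov {N : α → Finset α} {σ : α → α → ZMod 2} {x y : α × ZMod 2} :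
    y ∈ cov N σ x ↔ y.1 ∈ N x.1 ∧ y.2 = x.2 + σ x.1 y.1 := by
  obtain ⟨y1, y2⟩ := y
  simp only [cov, mem_image, Prod.mk.injEq]
  constructor
  · rintro ⟨z, hz, rfl, rfl⟩
    exact ⟨hz, rfl⟩
  · rintro ⟨h1, h2⟩
    exact ⟨y1, h1, rfl, h2.symm⟩

theorem cov_sum (N : α → Finset α) (σ : α → α → ZMod 2) (x : α × ZMod 2) (f : α × ZMod 2 → ℝ) :
    ∑ z ∈ cov N σ x, f z = ∑ y ∈ N x.1, f (y, x.2 + σ x.1 y) := by
  unfold cov
  rw [Finset.sum_image]
  intro a _ b _ h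
  exact (Prod.mk.inj h).1

theorem d_cov_zmod2 (a : ZMod 2) : a + a = 0 := CharTwo.add_self_eq_zero a

theorem cov_isGr {V : Finset α} {N : α → Finset α} {σ : α → α → ZMod 2} (hG : IsGr V N)
    (hσ : ∀ a b, σ a b = σ b a) : IsGr (V ×ˢ (univ : Finset (ZMod 2))) (cov N σ) := by
  refine ⟨?_, ?_, ?_⟩
  · intro x hx y hy
    rw [mem_cov] at hy
    rw [mem_product] at hx ⊢
    exact ⟨hG.sub _ hx.1 hy.1, mem_univ _⟩
  · intro x hx y hy
    rw [mem_product] at hx
    rw [mem_cov] at hy ⊢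
    refine ⟨hG.symm _ hx.1 _ hy.1, ?_⟩
    rw [hy.2, hσ y.1 x.1, add_assoc, d_cov_zmod2, add_zero]
  · intro x hx
    rw [mem_product] at hx
    exact (hG.ne _ hx.1).image _

theorem cov_nlap (N : α → Finset α) (σ : α → α → ZMod 2) (g : α → ℝ) (x : α × ZMod 2) :
    nlap (cov N σ) (fun z => g z.1) x = nlap N g x.1 := by
  unfold nlap
  rw [cov_sum N σ x (fun z => g z.1 - g x.1)]

theorem cov_reach {N : α → Finset α} (σ : α → α → ZMod 2) {x y : α}
    (h : Relation.ReflTransGen (fun p q => q ∈ N p) x y) (e : ZMod 2) :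
    ∃ e', Relation.ReflTransGen (fun p q => q ∈ cov N σ p) (x, e) (y, e') := by
  induction h with
  | refl => exact ⟨e, Relation.ReflTransGen.refl⟩
  | @tail b c _ hbc ih =>
    obtain ⟨e', he'⟩ := ih
    refine ⟨e' + σ b c, he'.tail ?_⟩
    rw [mem_cov]
    exact ⟨hbc, rfl⟩

theorem cov_harmOn {V : Finset α} {N : α → Finset α} {σ : α → α → ZMod 2} {k : α → ℝ} {a b : ℝ}
    (hk : HarmOn V N k a b) (hσ : ∀ a b, σ a b = σ b a) :
    HarmOn (V ×ˢ (univ : Finset (ZMod 2))) (cov N σ) (fun z => k z.1) a b := by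
  refine ⟨cov_isGr hk.gr hσ, ?_, ?_, ?_⟩
  · intro x hx y hy
    rw [mem_product] at hx
    rw [mem_cov] at hy
    exact hk.lip _ hx.1 _ hy.1
  · intro x hx h1 h2
    rw [mem_product] at hx
    rw [cov_nlap N σ k x]
    exact hk.harm _ hx.1 h1 h2
  · intro x hx
    rw [mem_product] at hx
    obtain ⟨y, hy, hya, hr⟩ := hk.exit _ hx.1
    obtain ⟨e', he'⟩ := cov_reach σ hr x.2
    exact ⟨(y, e'), mem_product.2 ⟨hy, mem_univ _⟩, hya, he'⟩

theorem deck_deck (x : α × ZMod 2) : deck (deck x) = x := by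
  obtain ⟨x1, x2⟩ := x
  simp only [deck, Prod.mk.injEq, true_and]
  rw [add_assoc, d_cov_zmod2, add_zero]

end H19S.PD
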