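import Pool.Agent.Lib.H19S.DPot
import Pool.Agent.Lib.H19S.DCacc
import Pool.Agent.Lib.H19S.DCov
import Pool.Agent.Lib.H19S.DAvg

/-!
# H19S, Part D, chunk D-LVL: a level on which `log U` has small variation

PROOF. Write `ψ = log U`, `χ~ z = chi h lo z.1`. `cacc` on the cover (`cov_isGr (nbr_isGr _) hσ`,
`V~ = vs F ×ˢ univ`): `chi_ne_zero` gives superharmonicity where `χ~ ≠ 0`. With `cov_sum`, `dart_sum` and
`chi_energy`: `∑_{t ∈ F} ∑_e [χ = 1 at t.1 and t.2.1] (ψ(t.2.1, e + σ) - ψ(t.1, e))² ≤ 2 * (1/2) = 1`. (1)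
For `i = (t, e) ∈ F ×ˢ univ` let `w i = |ψ(t.1, e) - ψ(t.2.1, e + σ t.1 t.2.1)|`, `b i = max (h t.1) (h t.2.1)`,
`c i = h t.2.2`, `p = lo + 9`, `q = lo + 17`, `λ i = max 0 (min (c i) q - max (b i) p)`.
If `λ i > 0` then `h t.1, h t.2.1 ≤ lo + 17`, and both are `≥ c i - 1 > lo + 8` (`IsPot.grad_le`, rotations of `t`), so `χ = 1`
at both. And `λ i ≤ |clamp (h t.2.2) - clamp (h t.2.1)|`, `clamp y = max p (min q y)`, so (`sum_rot`, `energy_clamp`)
`∑_i (λ i)² ≤ 2 * (2 * energy) ≤ 4 * 8 = 32`. (2) So `∑ w i * λ i ≤ ∑ (4 (w i)² + (λ i)²/4)/2 ≤ (4 + 8)/2 = 6 < 8`,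
where `(w i)²` is only summed over `λ i > 0`. `avg_choice` with `K = 1` gives the level `s`; the sum over the filter
`b i ≤ s ∧ s < c i` is `tv F h σ ψ s` (`max ≤ s` iff both `≤ s`; `Finset.sum_product`).
-/

namespace H19S.PD

open Finset

variable {α : Type*} [DecidableEq α]

private theorem d_lvl_one {F : Finset (α × α × α)} (hF : IsSurf F) {v u : α} (hv : v ∈ vs F)
    (hu : u ∈ vs F) (hvu : v ≠ u) {h : α → ℝ} (hh : IsPot F v u h) {σ : α → α → ZMod 2}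
    (hσ : ∀ a b, σ a b = σ b a) {lo : ℝ} (U : α × ZMod 2 → ℝ) (hU : ∀ z, 0 < U z)
    (hs : ∀ z : α × ZMod 2, z.1 ∈ vs F → lo < h z.1 → h z.1 < lo + 38 →
      nlap (cov (nbr F) σ) U z ≤ 0) :
    ∑ t ∈ F, ∑ e : ZMod 2, (if chi h lo t.1 = 1 ∧ chi h lo t.2.1 = 1 then
      (Real.log (U (t.2.1, e + σ t.1 t.2.1)) - Real.log (U (t.1, e))) ^ 2 else 0) ≤ 1 := by
  classical
  have hG := cov_isGr (nbr_isGr hF) hσ
  have h1 := cacc hG U (fun z => chi h lo z.1) (fun x _ => hU x) (fun z hz hχ => by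
    obtain ⟨h2, h3⟩ := chi_ne_zero hχ
    exact hs z (Finset.mem_product.1 hz).1 h2 (by linarith))
  have h4 : ∑ x ∈ vs F ×ˢ (univ : Finset (ZMod 2)), ∑ y ∈ cov (nbr F) σ x,
      (chi h lo y.1 - chi h lo x.1) ^ 2 ≤ 1 := by
    have h5 : ∀ x : α × ZMod 2, ∑ y ∈ cov (nbr F) σ x, (chi h lo y.1 - chi h lo x.1) ^ 2 =
        ∑ y ∈ nbr F x.1, (chi h lo y - chi h lo x.1) ^ 2 := fun x =>
      cov_sum (nbr F) σ x (fun y => (chi h lo y.1 - chi h lo x.1) ^ 2)
    rw [sum_congr rfl fun x _ => h5 x, sum_product]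
    have h6 : ∀ a : α, ∑ e : ZMod 2, ∑ y ∈ nbr F a, (chi h lo y - chi h lo a) ^ 2 =
        2 * ∑ y ∈ nbr F a, (chi h lo y - chi h lo a) ^ 2 := by
      intro a
      rw [sum_const, Finset.card_univ, ZMod.card]
      simp
    rw [sum_congr rfl fun a _ => h6 a, ← mul_sum,
      dart_sum hF (fun a y => (chi h lo y - chi h lo a) ^ 2)]
    have h7 := chi_energy hF hv hu hvu hh lo
    linarith
  have h8 : ∑ x ∈ vs F ×ˢ (univ : Finset (ZMod 2)), ∑ y ∈ (cov (nbr F) σ x).filter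
      (fun y => chi h lo x.1 = 1 ∧ chi h lo y.1 = 1), (Real.log (U y) - Real.log (U x)) ^ 2 =
      ∑ t ∈ F, ∑ e : ZMod 2, (if chi h lo t.1 = 1 ∧ chi h lo t.2.1 = 1 then
      (Real.log (U (t.2.1, e + σ t.1 t.2.1)) - Real.log (U (t.1, e))) ^ 2 else 0) := by
    have h9 : ∀ x : α × ZMod 2, ∑ y ∈ (cov (nbr F) σ x).filter
      (fun y => chi h lo x.1 = 1 ∧ chi h lo y.1 = 1), (Real.log (U y) - Real.log (U x)) ^ 2 =
        ∑ y ∈ nbr F x.1, (if chi h lo x.1 = 1 ∧ chi h lo y = 1 then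
          (Real.log (U (y, x.2 + σ x.1 y)) - Real.log (U x)) ^ 2 else 0) := by
      intro x
      rw [sum_filter]
      exact cov_sum (nbr F) σ x (fun y => if chi h lo x.1 = 1 ∧ chi h lo y.1 = 1 then
          (Real.log (U y) - Real.log (U x)) ^ 2 else 0)
    rw [sum_congr rfl fun x _ => h9 x, sum_product, sum_comm, sum_comm (s := F)]
    refine sum_congr rfl fun e _ => ?_
    exact dart_sum hF (fun a y => if chi h lo a = 1 ∧ chi h lo y = 1 then
          (Real.log (U (y, e + σ a y)) - Real.log (U (a, e))) ^ 2 else 0)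
  have h10 : ∑ x ∈ vs F ×ˢ (univ : Finset (ZMod 2)), ∑ y ∈ (cov (nbr F) σ x).filter
      (fun y => chi h lo x.1 = 1 ∧ chi h lo y.1 = 1), (Real.log (U y) - Real.log (U x)) ^ 2 ≤
      ∑ x ∈ vs F ×ˢ (univ : Finset (ZMod 2)), ∑ y ∈ cov (nbr F) σ x,
      (chi h lo y.1 - chi h lo x.1) ^ 2 := h1
  rw [← h8]
  exact h10.trans h4

private theorem d_lvl_real (a b c p q : ℝ) (hpq : p ≤ q) :
    (max 0 (min c q - max (max a b) p)) ^ 2 ≤ (max p (min q c) - max p (min q b)) ^ 2 := by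
  have h0 : 0 ≤ max 0 (min c q - max (max a b) p) := le_max_left _ _
  rw [← sq_abs (max p (min q c) - max p (min q b))]
  refine pow_le_pow_left₀ h0 ?_ 2
  refine max_le (abs_nonneg _) ?_
  have hbp : b ≤ max (max a b) p := le_trans (le_max_right a b) (le_max_left _ _)
  have hpp : p ≤ max (max a b) p := le_max_right _ _
  have h1 : max p (min q b) ≤ max (max a b) p := max_le hpp (le_trans (min_le_right _ _) hbp)
  have h2 : min c q ≤ max p (min q c) := by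
    rw [min_comm]
    exact le_max_right _ _
  have h3 := le_abs_self (max p (min q c) - max p (min q b))
  linarith

private theorem d_lvl_two {F : Finset (α × α × α)} (hF : IsSurf F) {v u : α} (hv : v ∈ vs F)
    (hu : u ∈ vs F) (hvu : v ≠ u) {h : α → ℝ} (hh : IsPot F v u h) (p q : ℝ) (hpq : p ≤ q) :
    ∑ t ∈ F, (max 0 (min (h t.2.2) q - max (max (h t.1) (h t.2.1)) p)) ^ 2 ≤ 2 * (q - p) := by
  have h1 := hh.energy_clamp hF hv hu hvu hpq
  unfold energy at h1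
  have h2 := sum_rot hF (fun t => (max p (min q (h t.2.1)) - max p (min q (h t.1))) ^ 2)
  have h3 : ∑ t ∈ F, (max 0 (min (h t.2.2) q - max (max (h t.1) (h t.2.1)) p)) ^ 2 ≤
      ∑ t ∈ F, (max p (min q (h t.2.2)) - max p (min q (h t.2.1))) ^ 2 :=
    sum_le_sum fun t _ => d_lvl_real _ _ _ _ _ hpq
  have h4 : ∑ t ∈ F, (max p (min q (h t.2.2)) - max p (min q (h t.2.1))) ^ 2 =
      ∑ t ∈ F, (max p (min q (h t.2.1)) - max p (min q (h t.1))) ^ 2 := h2
  rw [h4] at h3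
  linarith

private theorem d_lvl_pt {F : Finset (α × α × α)} (hF : IsSurf F) {v u : α} (hv : v ∈ vs F)
    (hu : u ∈ vs F) (hvu : v ≠ u) {h : α → ℝ} (hh : IsPot F v u h) {lo : ℝ} {t : α × α × α}
    (ht : t ∈ F) (a b : ℝ) :
    |a - b| * max 0 (min (h t.2.2) (lo + 17) - max (max (h t.1) (h t.2.1)) (lo + 9)) ≤
      2 * (if chi h lo t.1 = 1 ∧ chi h lo t.2.1 = 1 then (b - a) ^ 2 else 0) +
      (max 0 (min (h t.2.2) (lo + 17) - max (max (h t.1) (h t.2.1)) (lo + 9))) ^ 2 / 8 := by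
  obtain ⟨x, y, z⟩ := t
  set l : ℝ := max 0 (min (h z) (lo + 17) - max (max (h x) (h y)) (lo + 9)) with hl
  have hl0 : 0 ≤ l := le_max_left _ _
  rcases hl0.eq_or_lt with h0 | h0
  · simp only
    rw [← h0]
    have : 0 ≤ (if chi h lo x = 1 ∧ chi h lo y = 1 then (b - a) ^ 2 else 0) := by
      split_ifs
      · positivity
      · exact le_rfl
    linarith
  · have h1 : 0 < min (h z) (lo + 17) - max (max (h x) (h y)) (lo + 9) := by
      by_contra hcon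
      have : l = 0 := by
        rw [hl]
        exact max_eq_left (not_lt.1 hcon)
      linarith
    have hz1 : min (h z) (lo + 17) ≤ h z := min_le_left _ _
    have hz2 : min (h z) (lo + 17) ≤ lo + 17 := min_le_right _ _
    have hx1 : h x ≤ max (max (h x) (h y)) (lo + 9) :=
      le_trans (le_max_left _ _) (le_max_left _ _)
    have hy1 : h y ≤ max (max (h x) (h y)) (lo + 9) :=
      le_trans (le_max_right _ _) (le_max_left _ _)
    have hp1 : lo + 9 ≤ max (max (h x) (h y)) (lo + 9) := le_max_right _ _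
    have hyz : Adj F y z := ⟨x, hF.rot ht⟩
    have hzx : Adj F z x := ⟨y, hF.rot (hF.rot ht)⟩
    have g1 := abs_le.1 (hh.grad_le hF hv hu hvu hyz)
    have g2 := abs_le.1 (hh.grad_le hF hv hu hvu hzx)
    have cx : chi h lo x = 1 := chi_eq_one (by linarith [g2.1]) (by linarith)
    have cy : chi h lo y = 1 := chi_eq_one (by linarith [g1.2]) (by linarith)
    simp only
    rw [if_pos ⟨cx, cy⟩]
    have h5 : (b - a) ^ 2 = |a - b| ^ 2 := by
      rw [sq_abs]; ring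
    rw [h5]
    nlinarith [sq_nonneg (4 * |a - b| - l)]

/-- D-LVL. -/
theorem exists_level {F : Finset (α × α × α)} (hF : IsSurf F) {v u : α} (hv : v ∈ vs F)
    (hu : u ∈ vs F) (hvu : v ≠ u) {h : α → ℝ} (hh : IsPot F v u h) {σ : α → α → ZMod 2}
    (hσ : ∀ a b, σ a b = σ b a) {lo : ℝ} (U : α × ZMod 2 → ℝ) (hU : ∀ z, 0 < U z)
    (hs : ∀ z : α × ZMod 2, z.1 ∈ vs F → lo < h z.1 → h z.1 < lo + 38 →
      nlap (cov (nbr F) σ) U z ≤ 0) :
    ∃ s, lo + 9 < s ∧ s < lo + 17 ∧ tv F h σ (fun z => Real.log (U z)) s < 1 := by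
  classical
  have h1 := d_lvl_one hF hv hu hvu hh hσ U hU hs
  have h2 := d_lvl_two hF hv hu hvu hh (lo + 9) (lo + 17) (by linarith)
  have h3 : ∑ i ∈ F ×ˢ (univ : Finset (ZMod 2)),
      |Real.log (U (i.1.1, i.2)) - Real.log (U (i.1.2.1, i.2 + σ i.1.1 i.1.2.1))| *
        max 0 (min (h i.1.2.2) (lo + 17) - max (max (h i.1.1) (h i.1.2.1)) (lo + 9)) <
      1 * ((lo + 17) - (lo + 9)) := by
    rw [sum_product]
    have h4 : ∑ t ∈ F, ∑ e : ZMod 2,
        |Real.log (U (t.1, e)) - Real.log (U (t.2.1, e + σ t.1 t.2.1))| *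
        max 0 (min (h t.2.2) (lo + 17) - max (max (h t.1) (h t.2.1)) (lo + 9)) ≤
        ∑ t ∈ F, ∑ e : ZMod 2, (2 * (if chi h lo t.1 = 1 ∧ chi h lo t.2.1 = 1 then
      (Real.log (U (t.2.1, e + σ t.1 t.2.1)) - Real.log (U (t.1, e))) ^ 2 else 0) +
      (max 0 (min (h t.2.2) (lo + 17) - max (max (h t.1) (h t.2.1)) (lo + 9))) ^ 2 / 8) :=
      sum_le_sum fun t ht => sum_le_sum fun e _ => d_lvl_pt hF hv hu hvu hh ht _ _
    have h5 : ∑ t ∈ F, ∑ e : ZMod 2, (2 * (if chi h lo t.1 = 1 ∧ chi h lo t.2.1 = 1 then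
      (Real.log (U (t.2.1, e + σ t.1 t.2.1)) - Real.log (U (t.1, e))) ^ 2 else 0) +
      (max 0 (min (h t.2.2) (lo + 17) - max (max (h t.1) (h t.2.1)) (lo + 9))) ^ 2 / 8) =
      2 * ∑ t ∈ F, ∑ e : ZMod 2, (if chi h lo t.1 = 1 ∧ chi h lo t.2.1 = 1 then
      (Real.log (U (t.2.1, e + σ t.1 t.2.1)) - Real.log (U (t.1, e))) ^ 2 else 0) +
      (1 / 4) * ∑ t ∈ F, (max 0 (min (h t.2.2) (lo + 17) -
        max (max (h t.1) (h t.2.1)) (lo + 9))) ^ 2 := by
      rw [mul_sum, mul_sum, ← sum_add_distrib]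
      refine sum_congr rfl fun t _ => ?_
      rw [sum_add_distrib, mul_sum, sum_const, Finset.card_univ, ZMod.card]
      simp only [nsmul_eq_mul]
      push_cast
      ring
    refine lt_of_le_of_lt (h4.trans_eq h5) ?_
    linarith
  obtain ⟨s, hs1, hs2, hs3⟩ := avg_choice (F ×ˢ (univ : Finset (ZMod 2)))
    (fun i => |Real.log (U (i.1.1, i.2)) - Real.log (U (i.1.2.1, i.2 + σ i.1.1 i.1.2.1))|)
    (fun i => max (h i.1.1) (h i.1.2.1)) (fun i => h i.1.2.2) (fun i _ => abs_nonneg _)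
    (by linarith) h3
  refine ⟨s, hs1, hs2, ?_⟩
  refine lt_of_eq_of_lt ?_ hs3
  unfold tv
  rw [sum_filter, sum_filter, sum_product]
  refine sum_congr rfl fun t _ => ?_
  by_cases hc : h t.1 ≤ s ∧ h t.2.1 ≤ s ∧ s < h t.2.2
  · rw [if_pos hc]
    refine sum_congr rfl fun e _ => ?_
    simp only
    rw [if_pos ⟨max_le hc.1 hc.2.1, hc.2.2⟩]
  · rw [if_neg hc]
    symm
    refine sum_eq_zero fun e _ => ?_
    simp only
    rw [if_neg]
    intro h6
    exact hc ⟨(le_max_left _ _).trans h6.1, (le_max_right _ _).trans h6.1, h6.2⟩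

end H19S.PD
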