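import Pool.Agent.Lib.H19S.DDefs

/-!
# H19S, Part D, chunk D-PROJ: walks of the double cover project to walks with the same weight

PROOF. For a walk `p` of `cov N σ`: `wt (cov N σ) p = wt N (p.map Prod.fst)` (induction: if
`y ∈ cov N σ x` then `y.1 ∈ N x.1`, and `(cov N σ x).card = (N x.1).card` because `y ↦ (y, _)` is injective).
Lifting is unique: if `p`, `q` are walks of `cov N σ` with the same head and
`p.map Prod.fst <+: q.map Prod.fst` then `p <+: q` (induction on `p`: the second coordinate of the next
vertex is determined by the first one, `y.2 = x.2 + σ x.1 y.1`). So `List.map Prod.fst` is injective on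
`G`, the image is prefix-free, and the weights are equal (`tsum` over the image = `tsum` over `G`).
-/

namespace H19S.PD

open Finset
open scoped ENNReal

variable {α : Type*} [DecidableEq α]

theorem DPROJ_mem {N : α → Finset α} {σ : α → α → ZMod 2} {x y : α × ZMod 2}
    (h : y ∈ cov N σ x) : y.1 ∈ N x.1 ∧ y.2 = x.2 + σ x.1 y.1 := by
  unfold cov at h
  rw [mem_image] at h
  obtain ⟨z, hz, rfl⟩ := h
  exact ⟨hz, rfl⟩

theorem DPROJ_card (N : α → Finset α) (σ : α → α → ZMod 2) (x : α × ZMod 2) :
    (cov N σ x).card = (N x.1).card := by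
  unfold cov
  exact card_image_of_injective _ fun a b h => congrArg Prod.fst h

theorem DPROJ_wt (N : α → Finset α) (σ : α → α → ZMod 2) (p : List (α × ZMod 2))
    (hp : p.IsChain (fun a b => b ∈ cov N σ a)) :
    wt (cov N σ) p = wt N (p.map Prod.fst) := by
  induction p with
  | nil => rfl
  | cons x p ih =>
    cases p with
    | nil => rfl
    | cons y l =>
      rw [List.isChain_cons_cons] at hp
      have h1 := ih hp.2
      have h2 := (DPROJ_mem hp.1).1
      rw [List.map_cons, List.map_cons] at *
      unfold wt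
      rw [if_pos hp.1, if_pos h2, DPROJ_card, h1]

theorem DPROJ_prefix {N : α → Finset α} {σ : α → α → ZMod 2} (p : List (α × ZMod 2)) :
    ∀ (q : List (α × ZMod 2)) (x : α × ZMod 2), (x :: p).IsChain (fun a b => b ∈ cov N σ a) →
      (x :: q).IsChain (fun a b => b ∈ cov N σ a) → p.map Prod.fst <+: q.map Prod.fst →
      p <+: q := by
  induction p with
  | nil => intro q x _ _ _; exact List.nil_prefix
  | cons y p ih =>
    intro q x h1 h2 h
    cases q with
    | nil =>
      simp at h
    | cons z q =>
      rw [List.map_cons, List.map_cons, List.cons_prefix_cons] at h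
      rw [List.isChain_cons_cons] at h1 h2
      have e1 := (DPROJ_mem h1.1).2
      have e2 := (DPROJ_mem h2.1).2
      have : y = z := Prod.ext h.1 (by rw [e1, e2, h.1])
      subst this
      rw [List.cons_prefix_cons]
      exact ⟨rfl, ih q y h1.2 h2.2 h.2⟩

theorem walk_prefix {N : α → Finset α} {σ : α → α → ZMod 2} {p q : List (α × ZMod 2)}
    (hp : Walk (cov N σ) p) (hq : Walk (cov N σ) q) (hh : p.head? = q.head?)
    (h : p.map Prod.fst <+: q.map Prod.fst) : p <+: q := by
  cases p with
  | nil => exact absurd rfl hp.1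
  | cons x p =>
    cases q with
    | nil => exact absurd rfl hq.1
    | cons y q =>
      rw [List.head?_cons, List.head?_cons, Option.some.injEq] at hh
      subst hh
      rw [List.map_cons, List.map_cons, List.cons_prefix_cons] at h
      rw [List.cons_prefix_cons]
      exact ⟨rfl, DPROJ_prefix p q x hp.2 hq.2 h.2⟩

theorem DPROJ_W {β : Type*} [DecidableEq β] (N : β → Finset β) (G : Set (List β)) :
    W N G = ∑' p : G, wt N p := by
  classical
  rw [tsum_subtype G (wt N)]
  unfold W
  refine tsum_congr fun p => ?_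
  by_cases hp : p ∈ G
  · rw [if_pos hp, Set.indicator_of_mem hp]
  · rw [if_neg hp, Set.indicator_of_notMem hp]

/-- D-PROJ. -/
theorem W_proj (N : α → Finset α) (σ : α → α → ZMod 2) {G : Set (List (α × ZMod 2))}
    (hG : PrefixFree G) (x : α × ZMod 2) (hx : ∀ p ∈ G, p.head? = some x ∧ Walk (cov N σ) p) :
    PrefixFree ((List.map Prod.fst) '' G) ∧ W N ((List.map Prod.fst) '' G) = W (cov N σ) G := by
  have key : ∀ p ∈ G, ∀ q ∈ G, p.map Prod.fst <+: q.map Prod.fst → p = q := by
    intro p hp q hq h
    exact hG p hp q hq (walk_prefix (hx p hp).2 (hx q hq).2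
      ((hx p hp).1.trans (hx q hq).1.symm) h)
  constructor
  · rintro _ ⟨p, hp, rfl⟩ _ ⟨q, hq, rfl⟩ h
    rw [key p hp q hq h]
  · have hinj : Set.InjOn (List.map (Prod.fst : α × ZMod 2 → α)) G := by
      intro p hp q hq h
      exact key p hp q hq (by rw [h])
    rw [DPROJ_W, DPROJ_W, tsum_image (wt N) hinj]
    refine tsum_congr fun p => ?_
    exact (DPROJ_wt N σ p.1 (hx p.1 p.2).2.2).symm

end H19S.PD
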