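import Pool.Agent.Lib.H19S.DNbr
import Pool.Agent.Lib.H19S.A2
import Pool.Agent.Lib.H19S.A4b

/-!
# H19S, Part D, chunks D-SEP (odd walks separate), D-SUM (the parity of the lower side)

D-SEP. Let `A` be connected, `v, u ∈ A`, disjoint from the trace. `kstar` (with `K = A`, faces `sv`, `su`) gives a symmetric
`ω`, zero on edges without endpoint in `A`, with the same coboundary as `σ` on `F`. By `IsTri.H1` `σ + ω = dφ` on edges.
Along the walk `r` in `cov (nbr F) σ` consecutive vertices `z, z'` have `z.1, z'.1 ∉ A`, so `ω = 0` and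
`z'.2 = z.2 + σ z.1 z'.1 = z.2 + φ z.1 + φ z'.1`: the quantity `z.2 + φ z.1` is constant along `r`. But `z` and `deck z` have
different values. Contradiction.

D-SUM. `cob σ t = fi sv t + fi su t` on `F`. The three rotations of `sv` are in the filter (all in `F`, distinct since
the vertices are distinct), no rotation of `su` is (`s < h su.1`). So the sum is `3 * 1 + 0 = 1` in `ZMod 2`.
-/

namespace H19S.PD

open Finset

variable {α : Type*} [DecidableEq α]

theorem D_SEP_aux {F : Finset (α × α × α)} {σ ω : α → α → ZMod 2} {φ : α → ZMod 2} {A : Set α}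
    (hφ : ∀ a b, Adj F a b → σ a b + ω a b = φ a + φ b)
    (hω : ∀ a b, ω a b ≠ 0 → a ∈ A ∨ b ∈ A) (r : List (α × ZMod 2))
    (hr : r.IsChain (fun a b => b ∈ cov (nbr F) σ a)) (hA : ∀ z ∈ r, z.1 ∉ A) :
    ∀ z ∈ r, ∀ w ∈ r, z.2 + φ z.1 = w.2 + φ w.1 := by
  induction r with
  | nil => intro z hz; simp at hz
  | cons a l ih =>
    cases l with
    | nil =>
      intro z hz w hw
      rw [List.mem_singleton] at hz hw
      rw [hz, hw]
    | cons b l =>
      rw [List.isChain_cons_cons] at hr
      have ih' := ih hr.2 (fun z hz => hA z (List.mem_cons_of_mem _ hz))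
      have hab : a.2 + φ a.1 = b.2 + φ b.1 := by
        have h1 := hr.1
        unfold cov at h1
        rw [mem_image] at h1
        obtain ⟨y, hy, e⟩ := h1
        have e1 : b.1 = y := by rw [← e]
        have e2 : b.2 = a.2 + σ a.1 y := by rw [← e]
        have hadj : Adj F a.1 b.1 := by
          rw [e1]
          exact mem_nbr.1 hy
        have h2 := hφ a.1 b.1 hadj
        have h3 : ω a.1 b.1 = 0 := by
          by_contra hne
          rcases hω _ _ hne with h | h
          · exact hA a (by simp) h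
          · exact hA b (by simp) h
        rw [h3, add_zero] at h2
        rw [e2, ← e1, h2]
        have h4 : φ b.1 + φ b.1 = 0 := CharTwo.add_self_eq_zero _
        linear_combination -h4
      have key : ∀ z ∈ a :: b :: l, z.2 + φ z.1 = b.2 + φ b.1 := by
        intro z hz
        rw [List.mem_cons] at hz
        rcases hz with rfl | hz
        · exact hab
        · exact ih' z hz b (by simp)
      intro z hz w hw
      rw [key z hz, key w hw]

/-- D-SEP. -/
theorem sep_walk {F : Finset (α × α × α)} (hF : IsTri F) {σ : α → α → ZMod 2}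
    (hσ : ∀ a b, σ a b = σ b a) {sv su : α × α × α} (hsv : sv ∈ F) (hsu : su ∈ F)
    (hc : ∀ a b c, (a, b, c) ∈ F → σ a b + σ b c + σ c a = fi sv (a, b, c) + fi su (a, b, c))
    {r : List (α × ZMod 2)} (hr : Walk (cov (nbr F) σ) r) {z : α × ZMod 2} (hz : z ∈ r)
    (hz' : deck z ∈ r) : Sep F sv.1 su.1 (r.map Prod.fst).toFinset := by
  intro A hA hv hu
  by_contra hno
  push Not at hno
  obtain ⟨ω, h1, h2, h3⟩ := kstar hF.toIsSurf hA hsv hsu (Or.inl hv) (Or.inl hu)
  obtain ⟨φ, hφ⟩ := hF.H1 (fun a b => σ a b + ω a b) (fun a b => by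
      change σ a b + ω a b = σ b a + ω b a
      rw [hσ a b, h1 a b]) (fun a b c habc => by
    change σ a b + ω a b + (σ b c + ω b c) + (σ c a + ω c a) = 0
    have e1 := hc a b c habc
    have e2 := h3 a b c habc
    have e3 : (fi sv (a, b, c) + fi su (a, b, c)) + (fi sv (a, b, c) + fi su (a, b, c)) = 0 :=
      CharTwo.add_self_eq_zero _
    linear_combination e1 + e2 + e3)
  have hnot : ∀ w ∈ r, w.1 ∉ A := by
    intro w hw
    exact hno w.1 (by
      rw [List.mem_toFinset, List.mem_map]
      exact ⟨w, hw, rfl⟩)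
  have h4 := D_SEP_aux hφ h2 r hr.2 hnot z hz (deck z) hz'
  unfold deck at h4
  simp only at h4
  have h5 : (1 : ZMod 2) = 0 := by linear_combination -h4
  exact one_ne_zero h5

/-- D-SUM. -/
theorem cob_sum {F : Finset (α × α × α)} (hF : IsSurf F) {σ : α → α → ZMod 2}
    {sv su : α × α × α} (hsv : sv ∈ F) (hsu : su ∈ F)
    (hc : ∀ a b c, (a, b, c) ∈ F → σ a b + σ b c + σ c a = fi sv (a, b, c) + fi su (a, b, c))
    {h : α → ℝ} {s : ℝ} (h1 : h sv.1 ≤ s) (h2 : h sv.2.1 ≤ s) (h3 : h sv.2.2 ≤ s)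
    (h4 : s < h su.1) :
    ∑ t ∈ F.filter (fun t => h t.1 ≤ s ∧ h t.2.1 ≤ s ∧ h t.2.2 ≤ s), cob σ t = 1 := by
  obtain ⟨a, b, c⟩ := sv
  simp only at h1 h2 h3
  have e1 : ∑ t ∈ F.filter (fun t => h t.1 ≤ s ∧ h t.2.1 ≤ s ∧ h t.2.2 ≤ s), cob σ t =
      ∑ t ∈ F.filter (fun t => h t.1 ≤ s ∧ h t.2.1 ≤ s ∧ h t.2.2 ≤ s), fi (a, b, c) t := by
    refine sum_congr rfl ?_
    rintro ⟨x, y, w⟩ ht
    rw [mem_filter] at ht
    obtain ⟨ht, k1, k2, k3⟩ := ht
    simp only at k1 k2 k3
    have e2 : fi su (x, y, w) = 0 := by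
      unfold fi
      rw [if_neg]
      rintro (e | e | e)
      · rw [← e] at h4
        exact absurd k1 (not_le.2 h4)
      · simp only [Prod.mk.injEq] at e
        rw [← e.2.2] at h4
        exact absurd k3 (not_le.2 h4)
      · simp only [Prod.mk.injEq] at e
        rw [← e.2.1] at h4
        exact absurd k2 (not_le.2 h4)
    unfold cob
    simp only
    rw [hc x y w ht, e2, add_zero]
  rw [e1]
  have hab : a ≠ b := hF.ne hsv
  have hbc : b ≠ c := hF.ne2 hsv
  have hca : c ≠ a := hF.ne3 hsv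
  have hsub : ({(a, b, c), (b, c, a), (c, a, b)} : Finset (α × α × α)) ⊆
      F.filter (fun t => h t.1 ≤ s ∧ h t.2.1 ≤ s ∧ h t.2.2 ≤ s) := by
    intro t ht
    rw [mem_insert, mem_insert, mem_singleton] at ht
    rw [mem_filter]
    rcases ht with rfl | rfl | rfl
    · exact ⟨hsv, h1, h2, h3⟩
    · exact ⟨hF.rot hsv, h2, h3, h1⟩
    · exact ⟨hF.rot2 hsv, h3, h1, h2⟩
  rw [← sum_subset hsub]
  · rw [sum_insert, sum_insert, sum_singleton]
    · unfold fi
      simp only [true_or, or_true, if_true]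
      decide
    · rw [mem_singleton]
      intro e
      simp only [Prod.mk.injEq] at e
      exact hbc e.1
    · rw [mem_insert, mem_singleton]
      rintro (e | e)
      · simp only [Prod.mk.injEq] at e
        exact hab e.1
      · simp only [Prod.mk.injEq] at e
        exact hca e.1.symm
  · intro t _ ht
    rw [mem_insert, mem_insert, mem_singleton] at ht
    unfold fi
    exact if_neg ht

end H19S.PD
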