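import Pool.Agent.Lib.H19S.DLev

/-!
# H19S, Part D, chunk D-TV: the total variation bounds the oscillation

PROOF. By symmetry let `p = ψ (x', e') < q = ψ (x, e)`. For every `τ ∈ (p, q]` the function
`f z ε = if τ ≤ ψ (z, ε) then 1 else 0` has `f x e = 1`, `f x' e' = 0`, so by `level_const` (contraposition) there are
`t ∈ F` of type `LLH` and `ε` with `f t.1 ε ≠ f t.2.1 (ε + σ)`, i.e. `τ ∈ Set.uIoc (ψ (t.1, ε)) (ψ (t.2.1, ε + σ))`. So
`Set.Ioc p q ⊆ ⋃_{(t, ε)} uIoc ...`; take Lebesgue measures (`measure_biUnion_finset_le`): `q - p ≤ tv`.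
-/

namespace H19S.PD

open Finset

variable {α : Type*} [DecidableEq α]

/-- D-TV. -/
theorem tv_bound {F : Finset (α × α × α)} (hF : IsTri F) {h : α → ℝ} {s : ℝ}
    (hL : ConnIn F {x | x ∈ vs F ∧ h x ≤ s}) (hH : ConnIn F {x | x ∈ vs F ∧ s < h x})
    {σ : α → α → ZMod 2} (hσ : ∀ a b, σ a b = σ b a)
    (hsum : ∑ t ∈ F.filter (fun t => h t.1 ≤ s ∧ h t.2.1 ≤ s ∧ h t.2.2 ≤ s), cob σ t = 1)
    (ψ : α × ZMod 2 → ℝ) :
    ∀ x ∈ Low F h s, ∀ x' ∈ Low F h s, ∀ e e', |ψ (x, e) - ψ (x', e')| ≤ tv F h σ ψ s := by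
  have main : ∀ x ∈ Low F h s, ∀ x' ∈ Low F h s, ∀ e e',
      ψ (x', e') < ψ (x, e) → ψ (x, e) - ψ (x', e') ≤ tv F h σ ψ s := by
    intro x hx x' hx' e e' hlt
    set T := (F.filter (fun t => h t.1 ≤ s ∧ h t.2.1 ≤ s ∧ s < h t.2.2)) ×ˢ
      (Finset.univ : Finset (ZMod 2)) with hT
    have hsub : Set.Ioc (ψ (x', e')) (ψ (x, e)) ⊆
        ⋃ i ∈ T, Set.uIoc (ψ (i.1.1, i.2)) (ψ (i.1.2.1, i.2 + σ i.1.1 i.1.2.1)) := by
      intro τ hτ
      by_contra hcon
      simp only [Set.mem_iUnion, not_exists] at hcon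
      have hf := level_const hF hL hH hσ hsum
        (f := fun z ε => if τ ≤ ψ (z, ε) then 1 else 0) (by
          intro t ht h1 h2 h3 ε
          have hn := hcon (t, ε) (by
            rw [hT, Finset.mem_product]
            exact ⟨Finset.mem_filter.2 ⟨ht, h1, h2, h3⟩, Finset.mem_univ _⟩)
          rw [Set.mem_uIoc] at hn
          push Not at hn
          obtain ⟨n1, n2⟩ := hn
          simp only at n1 n2
          by_cases c1 : τ ≤ ψ (t.1, ε)
          · have c2 : τ ≤ ψ (t.2.1, ε + σ t.1 t.2.1) := by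
              by_contra c2
              push Not at c2
              exact absurd c1 (not_le.2 (n2 c2))
            rw [if_pos c1, if_pos c2]
          · have c2 : ¬ τ ≤ ψ (t.2.1, ε + σ t.1 t.2.1) := by
              intro c2
              push Not at c1
              exact absurd c2 (not_le.2 (n1 c1))
            rw [if_neg c1, if_neg c2]) x hx x' hx' e e'
      rw [if_pos hτ.2, if_neg (not_le.2 hτ.1)] at hf
      exact one_ne_zero hf
    have hmeas := (MeasureTheory.measure_mono hsub).trans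
      (MeasureTheory.measure_biUnion_finset_le (μ := MeasureTheory.volume) T _)
    rw [Real.volume_Ioc] at hmeas
    simp only [Real.volume_uIoc] at hmeas
    rw [← ENNReal.ofReal_sum_of_nonneg (fun _ _ => abs_nonneg _)] at hmeas
    have h2 := (ENNReal.ofReal_le_ofReal_iff (Finset.sum_nonneg (fun _ _ => abs_nonneg _))).1 hmeas
    refine h2.trans (le_of_eq ?_)
    rw [hT, Finset.sum_product, tv]
    apply Finset.sum_congr rfl
    intro t _
    apply Finset.sum_congr rfl
    intro ε _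
    rw [abs_sub_comm]
  intro x hx x' hx' e e'
  rcases lt_trichotomy (ψ (x', e')) (ψ (x, e)) with hlt | heq | hlt
  · rw [abs_of_pos (by linarith)]
    exact main x hx x' hx' e e' hlt
  · rw [heq, sub_self, abs_zero]
    exact Finset.sum_nonneg (fun _ _ => Finset.sum_nonneg (fun _ _ => abs_nonneg _))
  · rw [abs_sub_comm, abs_of_pos (by linarith)]
    exact main x' hx' x hx e' e hlt

end H19S.PD
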