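import Pool.Agent.Lib.H19S.DUp
import Pool.Agent.Lib.H19S.DComp
import Pool.Agent.Lib.H19S.DProj
import Pool.Agent.Lib.H19S.DTv
import Pool.Agent.Lib.H19S.DLvl
import Pool.Agent.Lib.H19S.DSep

/-!
# H19S, Part D, final assembly: the universal loop lemma
-/

namespace H19S.PD

open Finset
open scoped ENNReal

section lists

variable {β : Type*} [DecidableEq β]

theorem walk_append {N : β → Finset β} {p q : List β} (hp : Walk N p) (hq : Walk N q)
    (h : q.head? = p.getLast?) : Walk N (p ++ q.tail) := by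
  obtain ⟨hp0, hpc⟩ := hp
  obtain ⟨hq0, hqc⟩ := hq
  refine ⟨by simp [hp0], ?_⟩
  cases q with
  | nil => exact absurd rfl hq0
  | cons y q' =>
    rw [List.tail_cons]
    have h2 := List.isChain_append.mp (show List.IsChain (fun a b => b ∈ N a) ([] ++ (y :: q')) from by
      simpa using hqc)
    refine List.isChain_append.mpr ⟨hpc, ?_, ?_⟩
    · exact hqc.tail
    · intro a ha b hb
      rw [← h] at ha
      simp only [List.head?_cons, Option.mem_def, Option.some.injEq] at ha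
      subst ha
      cases q' with
      | nil => simp at hb
      | cons c l =>
        simp only [List.head?_cons, Option.mem_def, Option.some.injEq] at hb
        subst hb
        exact (List.isChain_cons_cons.mp hqc).1

theorem mem_append_tail {p q : List β} (hp : p ≠ []) (h : q.head? = p.getLast?) {z : β} :
    z ∈ p ++ q.tail ↔ z ∈ p ∨ z ∈ q := by
  constructor
  · intro hz
    rcases List.mem_append.mp hz with h1 | h1
    · exact Or.inl h1
    · exact Or.inr (List.mem_of_mem_tail h1)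
  · rintro (h1 | h1)
    · exact List.mem_append.mpr (Or.inl h1)
    · cases q with
      | nil => simp at h1
      | cons y q' =>
        rcases List.mem_cons.mp h1 with h2 | h2
        · subst h2
          refine List.mem_append.mpr (Or.inl ?_)
          rw [List.head?_cons] at h
          exact List.mem_of_getLast? h.symm
        · exact List.mem_append.mpr (Or.inr h2)

theorem head_append {p q : List β} (hp : p ≠ []) : (p ++ q).head? = p.head? := by
  cases p with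
  | nil => exact absurd rfl hp
  | cons a l => simp

theorem last_append {p q : List β} (hp : p ≠ []) (hq : q ≠ []) (h : q.head? = p.getLast?) :
    (p ++ q.tail).getLast? = q.getLast? := by
  cases q with
  | nil => exact absurd rfl hq
  | cons y q' =>
    rw [List.tail_cons]
    cases q' with
    | nil => simp only [List.append_nil, List.getLast?_singleton]; rw [← h]; simp
    | cons c l => simp [List.getLast?_append, List.getLast?_cons]

theorem exists_cross {V : Finset β} {N : β → Finset β} (hG : IsGr V N) {k : β → ℝ} {s : ℝ} :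
    ∀ {p : List β}, Walk N p → (∀ z ∈ p, z ∈ V) → (∀ z ∈ p.head?, s < k z) →
      (∀ z ∈ p.getLast?, k z ≤ s) → ∃ z ∈ p, k z ≤ s ∧ ∃ y ∈ N z, s < k y := by
  intro p
  induction p with
  | nil => intro h; exact absurd rfl h.1
  | cons a l ih =>
    intro hw hV h1 h2
    cases l with
    | nil =>
      have := h1 a (by simp)
      have := h2 a (by simp)
      linarith
    | cons b l' =>
      have hab := (List.isChain_cons_cons.mp hw.2).1
      by_cases hb : k b ≤ s
      · exact ⟨b, by simp, hb, a, hG.symm a (hV a (by simp)) b hab, h1 a (by simp)⟩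
      · obtain ⟨z, hz, hz2⟩ := ih ⟨by simp, (List.isChain_cons_cons.mp hw.2).2⟩
          (fun z hz => hV z (List.mem_cons_of_mem _ hz))
          (fun z hz => by
            simp only [List.head?_cons, Option.mem_def, Option.some.injEq] at hz
            subst hz; exact not_le.mp hb)
          (fun z hz => h2 z (by rwa [List.getLast?_cons_cons]))
        exact ⟨z, List.mem_cons_of_mem _ hz, hz2⟩

theorem hp_super {N : β → Finset β} {D A : Set β} {z : β} (hz : z ∈ D) (hne : (N z).Nonempty) :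
    nlap N (hp N D A) z ≤ 0 := by
  by_cases hA : z ∈ A
  · unfold nlap
    apply Finset.sum_nonpos
    intro y _
    rw [hp_mem N D hA]
    linarith [hp_le_one N D A y]
  · exact (hp_harm hz hA hne).le

theorem hit_ne {N : β → Finset β} {D A : Set β} {x : β} {p : List β} (hp : p ∈ Hit N D A x) :
    p ≠ [] := hp.2.1.1

/-- All vertices of a hitting walk are in `D` or equal to the last one (in `A`). -/
theorem hit_mem {N : β → Finset β} {D A : Set β} {x : β} {p : List β} (hp : p ∈ Hit N D A x)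
    {y : β} (hy : y ∈ p) : y ∈ D ∨ (y ∈ A ∧ (p.dropLast = [] ∨ ∃ w ∈ p.dropLast, y ∈ N w)) := by
  obtain ⟨_, ⟨h0, hc⟩, h3, h4⟩ := hp
  have hp' := List.dropLast_append_getLast h0
  rw [← hp'] at hy
  rcases List.mem_append.mp hy with h | h
  · exact Or.inl (h3 y h).1
  · right
    have hyl : y = p.getLast h0 := by simpa using h
    refine ⟨h4 y (by rw [List.getLast?_eq_getLast_of_ne_nil h0]; exact congrArg some hyl.symm), ?_⟩
    by_cases hd : p.dropLast = []
    · exact Or.inl hd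
    · right
      rw [← hp'] at hc
      have := (List.isChain_append.mp hc).2.2 (p.dropLast.getLast hd)
        (by rw [List.getLast?_eq_getLast_of_ne_nil hd]; exact rfl) y (by simp [hyl])
      exact ⟨_, List.getLast_mem hd, this⟩

end lists

section main

variable {α : Type*} [DecidableEq α]

/-- The window. -/
def Win (F : Finset (α × α × α)) (h : α → ℝ) (lo : ℝ) : Set (α × ZMod 2) :=
  {y | y ∈ vs F ×ˢ (univ : Finset (ZMod 2)) ∧ lo < h y.1 ∧ h y.1 < lo + 38}

theorem stage3 {F : Finset (α × α × α)} (hF : IsTri F) {v u : α} (hv : v ∈ vs F)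
    (hu : u ∈ vs F) (hvu : v ≠ u) {h : α → ℝ} (hh : IsPot F v u h) {σ : α → α → ZMod 2}
    (hσ : ∀ a b, σ a b = σ b a) {sv su : α × α × α} (hsv : sv ∈ F) (hsu : su ∈ F)
    (hsv1 : sv.1 = v) (hsu1 : su.1 = u)
    (hc : ∀ a b c, (a, b, c) ∈ F → σ a b + σ b c + σ c a = fi sv (a, b, c) + fi su (a, b, c))
    {lo : ℝ} (hlo : 1 < lo) (hlo2 : lo + 38 < h u - 1) {p : List (α × ZMod 2)}
    (hw : Walk (cov (nbr F) σ) p) (hV : ∀ z ∈ p, z ∈ Win F h lo)
    (hhead : ∀ z ∈ p.head?, lo + 17 ≤ h z.1) (hlast : ∀ z ∈ p.getLast?, h z.1 ≤ lo + 9) :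
    ∃ s, lo + 9 < s ∧ s < lo + 17 ∧ ∀ w : α × ZMod 2, w.1 ∈ Low F h s →
      3 / 10 ≤ hp (cov (nbr F) σ) (Win F h lo) {y | deck y ∈ p} w := by
  have hS : IsSurf F := hF.toIsSurf
  have hgr := cov_isGr (nbr_isGr hS) hσ
  obtain ⟨s, hs1, hs2, hs3⟩ := exists_level hS hv hu hvu hh hσ (lo := lo)
    (fun z => hp (cov (nbr F) σ) (Win F h lo) {y | deck y ∈ p} z + 1 / 10)
    (fun z => by
      have := hp_nonneg (cov (nbr F) σ) (Win F h lo) {y | deck y ∈ p} z
      linarith)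
    (fun z hz h1 h2 => by
      have hzW : z ∈ Win F h lo := ⟨by simp [hz], h1, h2⟩
      have := hp_super (N := cov (nbr F) σ) (A := {y | deck y ∈ p}) hzW
        (hgr.ne z (by simp [hz]))
      unfold nlap at this ⊢
      simpa using this)
  refine ⟨s, hs1, hs2, ?_⟩
  have hsv0 : h sv.1 = 0 := by rw [hsv1]; exact hh.zero
  obtain ⟨sa, sb, sc⟩ := sv
  have hnb : ∀ b, Adj F sa b → h b ≤ s := by
    intro b hb
    have := hh.grad_le hS hv hu hvu hb
    have h0 : h sa = 0 := hsv0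
    rw [h0, sub_zero] at this
    have := (abs_le.mp this).2
    linarith
  have hsum := cob_sum hS (σ := σ) hsv hsu hc (h := h) (s := s) (by rw [hsv0]; linarith)
    (hnb _ ⟨_, hsv⟩) (hnb _ (hS.adj_symm ⟨_, hS.rot2 hsv⟩)) (by rw [hsu1]; linarith)
  have htv := tv_bound hF (hh.conn_le hS hv hu hvu s) (hh.conn_gt hS hv hu hvu s) hσ hsum
    (fun z => Real.log (hp (cov (nbr F) σ) (Win F h lo) {y | deck y ∈ p} z + 1 / 10))
  obtain ⟨z, hz, hz1, y, hy, hy1⟩ := exists_cross hgr (k := fun z => h z.1) (s := s) hw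
    (fun z hz => (hV z hz).1) (fun z hz => by have := hhead z hz; linarith)
    (fun z hz => by have := hlast z hz; linarith)
  have hzl : z.1 ∈ Low F h s := ⟨hz1, y.1, mem_nbr.mp (mem_cov.mp hy).1, hy1⟩
  intro w hwl
  have h1 := htv w.1 hwl z.1 hzl w.2 (z.2 + 1)
  have hone : hp (cov (nbr F) σ) (Win F h lo) {y | deck y ∈ p} (z.1, z.2 + 1) = 1 := by
    apply hp_mem
    show deck (z.1, z.2 + 1) ∈ p
    have : deck (z.1, z.2 + 1) = z := deck_deck z
    rw [this]; exact hz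
  simp only [Prod.mk.eta] at h1
  rw [hone] at h1
  have hpos := hp_nonneg (cov (nbr F) σ) (Win F h lo) {y | deck y ∈ p} w
  have hlog : Real.log (1 + 1 / 10) - 1
      < Real.log (hp (cov (nbr F) σ) (Win F h lo) {y | deck y ∈ p} w + 1 / 10) := by
    have := (abs_le.mp h1).1
    linarith
  by_contra hcon
  rw [not_le] at hcon
  have h4 : hp (cov (nbr F) σ) (Win F h lo) {y | deck y ∈ p} w + 1 / 10 ≤ 2 / 5 := by linarith
  have h5 := Real.log_le_log (by linarith) h4
  have h6 : Real.log (1 + 1 / 10) - 1 < Real.log (2 / 5) := lt_of_lt_of_le hlog h5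
  have h7 : Real.log ((1 + 1 / 10) / (2 / 5)) < 1 := by
    rw [Real.log_div (by norm_num) (by norm_num)]; linarith
  have h8 : (1 + 1 / 10 : ℝ) / (2 / 5) < Real.exp 1 := by
    rw [← Real.log_lt_iff_lt_exp (by norm_num)]; exact h7
  have h9 := Real.exp_one_lt_d9
  norm_num at h8
  linarith

theorem win_iff {F : Finset (α × α × α)} {h : α → ℝ} {lo : ℝ} {y : α × ZMod 2} :
    y ∈ Win F h lo ↔ y.1 ∈ vs F ∧ lo < h y.1 ∧ h y.1 < lo + 38 := by
  simp [Win]

theorem head_of_hit {β : Type*} [DecidableEq β] {N : β → Finset β} {D A : Set β} {x : β}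
    {p : List β} (hp : p ∈ Hit N D A x) : p.head? = some x := hp.1

/-- PART D. -/
theorem loops_gen {F : Finset (α × α × α)} (hF : IsTri F) {v u : α} (hv : v ∈ vs F)
    (hu : u ∈ vs F) (hvu : v ≠ u) {lo : ℝ} (hlo : 1 < lo) (hlo2 : lo + 38 < pot F v u u - 1)
    {x : α} (hx : x ∈ vs F) (hx1 : |pot F v u x - (lo + 19)| ≤ 1) :
    ∃ G : Set (List α), PrefixFree G ∧
      (∀ π ∈ G, π.head? = some x ∧ (∀ y ∈ π, lo < pot F v u y ∧ pot F v u y < lo + 38) ∧
        Sep F v u π.toFinset) ∧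
      ENNReal.ofReal (2 / 25) ≤ W (nbr F) G := by
  classical
  have hS : IsSurf F := hF.toIsSurf
  have hh := pot_isPot hS hv hu hvu
  obtain ⟨va, vb, hsv⟩ := mem_vs.mp hv
  obtain ⟨ua, ub, hsu⟩ := mem_vs.mp hu
  obtain ⟨σ, hσ, -, hc⟩ := kstar hS (conn_vs hS) hsv hsu (Or.inl hv) (Or.inl hu)
  generalize pot F v u = h at hh hlo2 hx1 ⊢
  have hk : ∀ a b, 0 ≤ a → b ≤ h u →
      HarmOn (vs F ×ˢ (univ : Finset (ZMod 2))) (cov (nbr F) σ) (fun z => h z.1) a b :=
    fun a b ha hb => cov_harmOn (pot_harmOn hS hv hu hvu hh ha hb) hσ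
  have hgr := cov_isGr (nbr_isGr hS) hσ
  have hmV : ∀ y : α × ZMod 2, y ∈ vs F ×ˢ (univ : Finset (ZMod 2)) ↔ y.1 ∈ vs F := by
    intro y; simp
  have hlip : ∀ y z : α × ZMod 2, z ∈ cov (nbr F) σ y → |h z.1 - h y.1| ≤ 1 := fun y z hz =>
    hh.grad_le hS hv hu hvu (mem_nbr.mp (mem_cov.mp hz).1)
  have hx2 := abs_le.mp hx1
  -- stage 1
  obtain ⟨G1, hG1⟩ : ∃ G1 : Set (List (α × ZMod 2)), G1 = Hit (cov (nbr F) σ)
    {y | y ∈ vs F ×ˢ (univ : Finset (ZMod 2)) ∧ lo + 9 < h y.1 ∧ h y.1 < lo + 38}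
    {y | y ∈ vs F ×ˢ (univ : Finset (ZMod 2)) ∧ h y.1 ≤ lo + 9} (x, 0) := ⟨_, rfl⟩
  have hW1 : ENNReal.ofReal (3 / 5) ≤ W (cov (nbr F) σ) G1 := by
    rw [hG1, W_hit]
    apply ENNReal.ofReal_le_ofReal
    refine le_trans ?_ (hit_down (hk (lo + 9) (lo + 38) (by linarith) (by linarith))
      (x := (x, 0)) ((hmV _).mpr hx) (by show lo + 9 < h x; linarith)
      (by show h x < lo + 38; linarith))
    show 3 / 5 ≤ (lo + 38 - h x) / (lo + 38 - (lo + 9) + 1)
    rw [le_div_iff₀ (by linarith)]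
    linarith
  have hp1 : ∀ p ∈ G1, p ≠ [] ∧ p.head? = some (x, 0) ∧ Walk (cov (nbr F) σ) p ∧
      (∀ z ∈ p, z ∈ Win F h lo) ∧ ∃ l : α × ZMod 2, p.getLast? = some l ∧ l.1 ∈ vs F ∧
        lo + 8 < h l.1 ∧ h l.1 ≤ lo + 9 := by
    intro p hp
    rw [hG1] at hp
    have hne : p ≠ [] := hit_ne hp
    have key : ∀ z ∈ p, z.1 ∈ vs F ∧ lo + 8 < h z.1 ∧ h z.1 < lo + 38 := by
      intro z hz
      rcases hit_mem hp hz with h1 | ⟨h1, h2⟩
      · exact ⟨(hmV z).mp h1.1, by linarith [h1.2.1], h1.2.2⟩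
      · refine ⟨(hmV z).mp h1.1, ?_, by linarith [h1.2]⟩
        rcases h2 with h3 | ⟨w, hw, hzw⟩
        · have hpx : p = [(x, 0)] := by
            have h5 : p.head? = some (x, 0) := hp.1
            cases p with
            | nil => exact absurd rfl hne
            | cons a l =>
              cases l with
              | nil => simp at h5; rw [h5]
              | cons b l' => simp at h3
          rw [hpx] at hz
          have hzx : z = (x, 0) := by simpa using hz
          have h6 := h1.2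
          rw [hzx] at h6
          have h7 : h x ≤ lo + 9 := h6
          linarith
        · have h4 := (hp.2.2.1 w hw).1.2.1
          have h5 := (abs_le.mp (hlip w z hzw)).1
          linarith
    refine ⟨hne, hp.1, hp.2.1, fun z hz => win_iff.mpr ⟨(key z hz).1, by
      linarith [(key z hz).2.1], (key z hz).2.2⟩, p.getLast hne,
      List.getLast?_eq_getLast_of_ne_nil hne, (key _ (List.getLast_mem hne)).1,
      (key _ (List.getLast_mem hne)).2.1, ?_⟩
    exact (hp.2.2.2 _ (by rw [List.getLast?_eq_getLast_of_ne_nil hne]; exact rfl)).2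
  have hlev : ∀ p ∈ G1, ∃ s, lo + 9 < s ∧ s < lo + 17 ∧ ∀ w : α × ZMod 2, w.1 ∈ Low F h s →
      3 / 10 ≤ hp (cov (nbr F) σ) (Win F h lo) {y | deck y ∈ p} w := by
    intro p hp
    obtain ⟨hne, hhd, hwk, hwin, l, hl, -, -, hl3⟩ := hp1 p hp
    refine stage3 hF hv hu hvu hh hσ hsv hsu rfl rfl hc hlo hlo2 hwk hwin ?_ ?_
    · intro z hz
      rw [hhd] at hz
      have hzx : z = (x, 0) := by simpa using hz.symm
      rw [hzx]
      show lo + 17 ≤ h x
      linarith
    · intro z hz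
      rw [hl] at hz
      have hzx : z = l := by simpa using hz.symm
      rw [hzx]; exact hl3
  choose! s hs1 hs2 hs3 using hlev
  obtain ⟨G2, hG2⟩ : ∃ G2 : List (α × ZMod 2) → Set (List (α × ZMod 2)), ∀ p, G2 p =
    Hit (cov (nbr F) σ)
      {y | y ∈ vs F ×ˢ (univ : Finset (ZMod 2)) ∧ lo < h y.1 ∧ h y.1 ≤ s p}
      {y | y ∈ vs F ×ˢ (univ : Finset (ZMod 2)) ∧ h y.1 ≤ s p ∧
        ∃ z ∈ cov (nbr F) σ y, s p < h z.1} (p.getLast?.getD (x, 0)) := ⟨_, fun _ => rfl⟩
  obtain ⟨G3, hG3⟩ : ∃ G3 : List (α × ZMod 2) → List (α × ZMod 2) → Set (List (α × ZMod 2)),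
    ∀ p q, G3 p q = Hit (cov (nbr F) σ) (Win F h lo) {y | deck y ∈ p}
      (q.getLast?.getD (x, 0)) := ⟨_, fun _ _ => rfl⟩
  have hp2 : ∀ p ∈ G1, ∀ q ∈ G2 p, q ≠ [] ∧ q.head? = p.getLast? ∧ Walk (cov (nbr F) σ) q ∧
      (∀ z ∈ q, z ∈ Win F h lo) ∧ ∃ l : α × ZMod 2, q.getLast? = some l ∧
        l.1 ∈ Low F h (s p) := by
    intro p hp q hq
    obtain ⟨hne, hhd, hwk, hwin, l, hl, hl1, hl2, hl3⟩ := hp1 p hp
    have h1 := hs1 p hp
    have h2 := hs2 p hp
    rw [hG2] at hq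
    have hqne : q ≠ [] := hit_ne hq
    refine ⟨hqne, ?_, hq.2.1, ?_, q.getLast hqne, List.getLast?_eq_getLast_of_ne_nil hqne, ?_⟩
    · rw [hq.1, hl]; rfl
    · intro z hz
      rcases hit_mem hq hz with h3 | ⟨h3, -⟩
      · exact win_iff.mpr ⟨(hmV z).mp h3.1, h3.2.1, by linarith [h3.2.2]⟩
      · obtain ⟨h4, h5, w, hw, h6⟩ := h3
        have h7 := (abs_le.mp (hlip z w hw)).2
        exact win_iff.mpr ⟨(hmV z).mp h4, by linarith, by linarith⟩
    · obtain ⟨h4, h5, w, hw, h6⟩ := hq.2.2.2 (q.getLast hqne)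
        (by rw [List.getLast?_eq_getLast_of_ne_nil hqne]; exact rfl)
      exact ⟨h5, w.1, mem_nbr.mp (mem_cov.mp hw).1, h6⟩
  have hp3 : ∀ p ∈ G1, ∀ q ∈ G2 p, ∀ r ∈ G3 p q, r ≠ [] ∧ r.head? = q.getLast? ∧
      Walk (cov (nbr F) σ) r ∧ (∀ z ∈ r, z ∈ Win F h lo) ∧ ∃ l : α × ZMod 2,
        r.getLast? = some l ∧ deck l ∈ p := by
    intro p hp q hq r hr
    obtain ⟨hne, hhd, hwk, hwin, -⟩ := hp1 p hp
    obtain ⟨hqne, -, -, -, l, hl, -⟩ := hp2 p hp q hq
    rw [hG3] at hr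
    have hrne : r ≠ [] := hit_ne hr
    refine ⟨hrne, ?_, hr.2.1, ?_, r.getLast hrne, List.getLast?_eq_getLast_of_ne_nil hrne, ?_⟩
    · rw [hr.1, hl]; rfl
    · intro z hz
      rcases hit_mem hr hz with h3 | ⟨h3, -⟩
      · exact h3
      · have h5 := win_iff.mp (hwin (deck z) h3)
        exact win_iff.mpr h5
    · exact hr.2.2.2 (r.getLast hrne)
        (by rw [List.getLast?_eq_getLast_of_ne_nil hrne]; exact rfl)
  have hW2 : ∀ p ∈ G1, ENNReal.ofReal (8 / 17) ≤ W (cov (nbr F) σ) (G2 p) := by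
    intro p hp
    obtain ⟨hne, hhd, hwk, hwin, l, hl, hl1, hl2, hl3⟩ := hp1 p hp
    have h1 := hs1 p hp
    have h2 := hs2 p hp
    rw [hG2, W_hit]
    apply ENNReal.ofReal_le_ofReal
    have hgl : p.getLast?.getD (x, 0) = l := by rw [hl]; rfl
    rw [hgl]
    refine le_trans ?_ (hit_low (hk lo (lo + 38) (by linarith) (by linarith)) (s := s p)
      (by linarith) (x := l) ((hmV _).mpr hl1) (by show lo < h l.1; linarith)
      (by show h l.1 ≤ s p; linarith))
    show 8 / 17 ≤ (h l.1 - lo) / (s p - lo)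
    rw [le_div_iff₀ (by linarith)]
    linarith
  have hW3 : ∀ p ∈ G1, ∀ q ∈ G2 p, ENNReal.ofReal (3 / 10) ≤ W (cov (nbr F) σ) (G3 p q) := by
    intro p hp q hq
    obtain ⟨hqne, -, -, -, l, hl, hl2⟩ := hp2 p hp q hq
    rw [hG3, W_hit]
    apply ENNReal.ofReal_le_ofReal
    have hgl : q.getLast?.getD (x, 0) = l := by rw [hl]; rfl
    rw [hgl]
    exact hs3 p hp l hl2
  have pf1 : PrefixFree G1 := by rw [hG1]; exact hit_prefixFree _ _ _ _
  have pf2 : ∀ p, PrefixFree (G2 p) := fun p => by rw [hG2]; exact hit_prefixFree _ _ _ _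
  have pf3 : ∀ p q, PrefixFree (G3 p q) := fun p q => by rw [hG3]; exact hit_prefixFree _ _ _ _
  have hcne : ∀ p ∈ G1, ∀ q ∈ comp (G2 p) (G3 p), q ≠ [] ∧ q.head? = p.getLast? := by
    rintro p hp q ⟨q2, hq2, q3, hq3, rfl⟩
    obtain ⟨hqne, hqh, -⟩ := hp2 p hp q2 hq2
    exact ⟨by simp [hqne], by rw [head_append hqne, hqh]⟩
  have pfc : ∀ p ∈ G1, PrefixFree (comp (G2 p) (G3 p)) := fun p hp =>
    comp_prefixFree (pf2 p) (fun q _ => pf3 p q) (fun q hq => (hp2 p hp q hq).1)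
      (fun q hq r hr => ⟨(hp3 p hp q hq r hr).1, (hp3 p hp q hq r hr).2.1⟩)
  have pfG : PrefixFree (comp G1 (fun p => comp (G2 p) (G3 p))) :=
    comp_prefixFree pf1 pfc (fun p hp => (hp1 p hp).1) hcne
  have hWc : ∀ p ∈ G1, ENNReal.ofReal (8 / 17) * ENNReal.ofReal (3 / 10)
      ≤ W (cov (nbr F) σ) (comp (G2 p) (G3 p)) := fun p hp =>
    le_trans (mul_le_mul_left (hW2 p hp) _)
      (W_comp_ge _ (pf2 p) (fun q _ => pf3 p q) (fun q hq => (hp2 p hp q hq).1)
      (fun q hq r hr => ⟨(hp3 p hp q hq r hr).1, (hp3 p hp q hq r hr).2.1⟩) _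
      (fun q hq => hW3 p hp q hq))
  have hWG : ENNReal.ofReal (3 / 5) * (ENNReal.ofReal (8 / 17) * ENNReal.ofReal (3 / 10))
      ≤ W (cov (nbr F) σ) (comp G1 (fun p => comp (G2 p) (G3 p))) :=
    le_trans (mul_le_mul_left hW1 _)
      (W_comp_ge _ pf1 pfc (fun p hp => (hp1 p hp).1) hcne _ hWc)
  have hGall : ∀ r ∈ comp G1 (fun p => comp (G2 p) (G3 p)), r.head? = some (x, 0) ∧
      Walk (cov (nbr F) σ) r ∧ (∀ z ∈ r, z ∈ Win F h lo) ∧ ∃ z ∈ r, deck z ∈ r := by
    rintro r ⟨p, hp, q, ⟨q2, hq2, q3, hq3, rfl⟩, rfl⟩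
    obtain ⟨hne, hhd, hwk, hwin, -⟩ := hp1 p hp
    obtain ⟨hqne, hqh, hqw, hqwin, -⟩ := hp2 p hp q2 hq2
    obtain ⟨hrne, hrh, hrw, hrwin, l, hl, hl2⟩ := hp3 p hp q2 hq2 q3 hq3
    have hq4 : (q2 ++ q3.tail).head? = p.getLast? := by rw [head_append hqne, hqh]
    have hmem : ∀ z, z ∈ p ++ (q2 ++ q3.tail).tail ↔ z ∈ p ∨ z ∈ q2 ∨ z ∈ q3 := by
      intro z
      rw [mem_append_tail hne hq4, mem_append_tail hqne hrh]
    refine ⟨by rw [head_append hne, hhd], walk_append hwk (walk_append hqw hrw hrh) hq4, ?_, ?_⟩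
    · intro z hz
      rcases (hmem z).mp hz with h1 | h1 | h1
      · exact hwin z h1
      · exact hqwin z h1
      · exact hrwin z h1
    · exact ⟨l, (hmem l).mpr (Or.inr (Or.inr (List.mem_of_getLast? hl))),
        (hmem _).mpr (Or.inl hl2)⟩
  obtain ⟨hpf, hWp⟩ := W_proj (nbr F) σ pfG (x, 0) (fun r hr => ⟨(hGall r hr).1, (hGall r hr).2.1⟩)
  refine ⟨_, hpf, ?_, ?_⟩
  · rintro π ⟨r, hr, rfl⟩
    obtain ⟨h1, h2, h3, z, hz, hz2⟩ := hGall r hr
    refine ⟨by rw [List.head?_map, h1]; rfl, ?_, sep_walk hF hσ hsv hsu hc h2 hz hz2⟩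
    intro y hy
    obtain ⟨w, hw, rfl⟩ := List.mem_map.mp hy
    exact (win_iff.mp (h3 w hw)).2
  · rw [hWp]
    refine le_trans ?_ hWG
    rw [← ENNReal.ofReal_mul (by norm_num), ← ENNReal.ofReal_mul (by norm_num)]
    apply ENNReal.ofReal_le_ofReal
    norm_num

end main

end H19S.PD
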