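import Pool.Agent.Lib.H19S.Iface
import Pool.Agent.Lib.H19S.DFin

/-!
# H19S: top statement of PART D
-/

namespace H19S

open Finset
open scoped ENNReal

/-- PART D (loops). -/
theorem loops : ∃ c1 : ℝ, 0 < c1 ∧ c1 ≤ 1 ∧ ∀ (F : Finset (ℕ × ℕ × ℕ)), IsTri F →
    ∀ v ∈ vs F, ∀ u ∈ vs F, v ≠ u → ∀ lo : ℝ, 1 < lo → lo + 38 < pot F v u u - 1 →
    ∀ x ∈ vs F, |pot F v u x - (lo + 19)| ≤ 1 →
    ∃ G : Set (List ℕ), PrefixFree G ∧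
      (∀ π ∈ G, π.head? = some x ∧ (∀ y ∈ π, lo < pot F v u y ∧ pot F v u y < lo + 38) ∧
        Sep F v u π.toFinset) ∧
      ENNReal.ofReal c1 ≤ W (nbr F) G :=
  ⟨2 / 25, by norm_num, by norm_num, fun _ hF _ hv _ hu hvu _ h1 h2 _ hx hx1 =>
    PD.loops_gen hF hv hu hvu h1 h2 hx hx1⟩

end H19S
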