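import Pool.Agent.Lib.H19S.E14b
import Pool.Agent.Lib.H19S.C0b

/-!
# H19S, chunk E15: lemma B
-/

namespace H19S

open Finset Metric

/-- (chunk E15) Lemma B.  Let `h = pot F v u`, `g x = log (sx c v ρ R' x)`, `L = log (R'/ρ) > 0`.  `g v = log ρ`, `g u = log R'`
(`b ≤ h u`), so `IsPot.green`: `L = (∑_t ∇g ∇h) / 2 ≤ (∑_{t ∈ T} |∇g| |∇h|) / 2`, `T` the set of `t` with `g t.1 ≠ g t.2.1`.  For `t ∈ T` the two
values `h t.1`, `h t.2.1` are not both `≤ a` (both `s` would be `ρ`) and not both `≥ b`; `|∇h| ≤ 1`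
(`IsPot.grad_le`), so both are in `[a - 1, b + 1]`.  By `log_edge`, with `X` the set of `x` with `a - 1 ≤ h x ≤ b + 1` and
`dist (c x) (c v) ≤ 2R'`: `L ≤ ∑_{t ∈ T} (r/s (t.1) + r/s (t.2.1)) |∇h| ≤ 2 ∑_{t ∈ T} (r/s)(t.1) |∇h|`
(`sum_rev`) `≤ 2 ∑_{x ∈ X} (r_x/s_x) (2 thr x) ≤ 4 (∑ (r/s)²)^(1/2) (∑_{x ∈ X} thr²)^(1/2) ≤ 4 (600000 (L+1) S)^(1/2)`, `S = ∑_{a-1 ≤ h ≤ b+1} thr²`.
If `L ≤ 1` the claim is clear; otherwise `L² ≤ 16 · 600000 · 2 L · S`, `L ≤ 19200000 S`. -/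
theorem lemBE : ∃ CB : ℝ, 1 ≤ CB ∧ ∀ (F : Finset (ℕ × ℕ × ℕ)), IsTri F → 4 ≤ (vs F).card →
    ∀ (c : ℕ → S2) (r : ℕ → ℝ), IsPacking F c r → ∀ v ∈ vs F, ∀ u ∈ vs F, v ≠ u →
    ∀ (ρ R' a b : ℝ), 0 < ρ → ρ < R' → R' ≤ 1 / 40 →
    (∀ s : ℝ, ρ ≤ s → s ≤ 2 * R' → ∀ w ∈ vs F,
      (Metric.closedBall (c w) (r w) ∩ Metric.closedBall (c v) s).Nonempty → r w ≤ s / 10) →
    0 ≤ a → a < b → b ≤ pot F v u u →
    (∀ x ∈ vs F, pot F v u x ≤ a → dist (c x) (c v) ≤ ρ) →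
    (∀ x ∈ vs F, b ≤ pot F v u x → R' ≤ dist (c x) (c v)) →
    Real.log (R' / ρ) ≤ CB * (1 + ∑ x ∈ (vs F).filter (fun x => a - 1 ≤ pot F v u x ∧
      pot F v u x ≤ b + 1), (thr F (pot F v u) x) ^ 2) := by
  refine ⟨19200000, by norm_num, ?_⟩
  intro F hF h4 c r hP v hv u hu hvu ρ R' a b hρ hρR hR' hreg ha hab hbu hlo hhi
  have hS := hF.toIsSurf
  have hh := pot_isPot hS hv hu hvu
  set h : ℕ → ℝ := pot F v u with hdef
  set s : ℕ → ℝ := sx c v ρ R' with hs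
  have hR0 : 0 < R' := hρ.trans hρR
  have hs_ge : ∀ x, ρ ≤ s x := fun x => le_max_left _ _
  have hs_pos : ∀ x, 0 < s x := fun x => hρ.trans_le (hs_ge x)
  have hsv : s v = ρ := by
    show max ρ (min R' (dist (c v) (c v))) = ρ
    rw [dist_self, min_eq_right hR0.le, max_eq_left hρ.le]
  have hs_lo : ∀ x ∈ vs F, h x ≤ a → s x = ρ := by
    intro x hx hxa
    show max ρ (min R' (dist (c x) (c v))) = ρ
    exact max_eq_left ((min_le_right _ _).trans (hlo x hx hxa))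
  have hs_hi : ∀ x ∈ vs F, b ≤ h x → s x = R' := by
    intro x hx hxb
    show max ρ (min R' (dist (c x) (c v))) = R'
    rw [min_eq_left (hhi x hx hxb), max_eq_right hρR.le]
  have hsu : s u = R' := hs_hi u hu hbu
  set L : ℝ := Real.log (R' / ρ) with hL
  have hLpos : 0 < L := Real.log_pos (by rw [one_lt_div hρ]; exact hρR)
  have hLeq : L = Real.log (s u) - Real.log (s v) := by
    rw [hsu, hsv, hL, Real.log_div hR0.ne' hρ.ne']
  have hgreen := hh.green hS hv hu hvu (fun x => Real.log (s x))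
  set X : Finset ℕ := (vs F).filter fun x => dist (c x) (c v) ≤ 2 * R' ∧ a - 1 ≤ h x ∧ h x ≤ b + 1
    with hX
  set q : ℕ → ℝ := fun x => if x ∈ X then r x / s x else 0 with hq
  have hq0 : ∀ x, 0 ≤ q x := by
    intro x
    simp only [hq]
    split_ifs with hx
    · exact div_nonneg (hP.pos x (mem_filter.1 hx).1).le (hs_pos x).le
    · exact le_rfl
  have hterm : ∀ t ∈ F, (Real.log (s t.2.1) - Real.log (s t.1)) * (h t.2.1 - h t.1) ≤
      2 * (q t.1 + q t.2.1) * |h t.2.1 - h t.1| := by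
    rintro ⟨x, y, z⟩ ht
    simp only
    have hxv := hS.vs1 ht
    have hyv := hS.vs2 ht
    have hadj : Adj F x y := ⟨z, ht⟩
    by_cases hne : s x = s y
    · rw [hne, sub_self, zero_mul]
      have := hq0 x
      have := hq0 y
      positivity
    · obtain ⟨d1, d2, d3⟩ := hP.log_edge hF hv hρ hρR hreg hadj hne
      have hgr := hh.grad_le hS hv hu hvu hadj
      rw [abs_le] at hgr
      have ha1 : a < h x ∨ a < h y := by
        by_contra hcon
        push Not at hcon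
        exact hne (by rw [hs_lo x hxv hcon.1, hs_lo y hyv hcon.2])
      have hb1 : h x < b ∨ h y < b := by
        by_contra hcon
        push Not at hcon
        exact hne (by rw [hs_hi x hxv hcon.1, hs_hi y hyv hcon.2])
      have hxX : x ∈ X := by
        rw [hX, mem_filter]
        refine ⟨hxv, d1, ?_, ?_⟩
        · rcases ha1 with h1 | h1 <;> linarith [hgr.1, hgr.2]
        · rcases hb1 with h1 | h1 <;> linarith [hgr.1, hgr.2]
      have hyX : y ∈ X := by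
        rw [hX, mem_filter]
        refine ⟨hyv, d2, ?_, ?_⟩
        · rcases ha1 with h1 | h1 <;> linarith [hgr.1, hgr.2]
        · rcases hb1 with h1 | h1 <;> linarith [hgr.1, hgr.2]
      have e1 : q x = r x / s x := if_pos hxX
      have e2 : q y = r y / s y := if_pos hyX
      rw [e1, e2]
      calc (Real.log (s y) - Real.log (s x)) * (h y - h x) ≤
          |(Real.log (s y) - Real.log (s x)) * (h y - h x)| := le_abs_self _
        _ = |Real.log (s y) - Real.log (s x)| * |h y - h x| := abs_mul _ _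
        _ ≤ _ := mul_le_mul_of_nonneg_right d3 (abs_nonneg _)
  have hsum : L ≤ 4 * ∑ x ∈ vs F, q x * thr F h x := by
    have e0 : (∑ t ∈ F, (Real.log (s t.2.1) - Real.log (s t.1)) * (h t.2.1 - h t.1)) / 2 = L := by
      rw [hLeq]; exact hgreen
    have e1 : ∑ t ∈ F, (Real.log (s t.2.1) - Real.log (s t.1)) * (h t.2.1 - h t.1) ≤
        ∑ t ∈ F, 2 * (q t.1 + q t.2.1) * |h t.2.1 - h t.1| := sum_le_sum hterm
    have e2 : ∑ t ∈ F, q t.2.1 * |h t.2.1 - h t.1| = ∑ t ∈ F, q t.1 * |h t.2.1 - h t.1| := by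
      rw [hS.sum_rev fun x y => q y * |h y - h x|]
      refine sum_congr rfl fun t _ => ?_
      rw [abs_sub_comm]
    have e3 : ∑ t ∈ F, 2 * (q t.1 + q t.2.1) * |h t.2.1 - h t.1| =
        4 * ∑ t ∈ F, q t.1 * |h t.2.1 - h t.1| := by
      have : ∀ t ∈ F, 2 * (q t.1 + q t.2.1) * |h t.2.1 - h t.1| =
          2 * (q t.1 * |h t.2.1 - h t.1|) + 2 * (q t.2.1 * |h t.2.1 - h t.1|) := by
        intro t _; ring
      rw [sum_congr rfl this, sum_add_distrib, ← mul_sum, ← mul_sum, e2]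
      ring
    have e4 : ∑ t ∈ F, q t.1 * |h t.2.1 - h t.1| = 2 * ∑ x ∈ vs F, q x * thr F h x := by
      rw [← sum_vs (F := F) (fun t => q t.1 * |h t.2.1 - h t.1|), mul_sum]
      refine sum_congr rfl fun x _ => ?_
      unfold thr
      have : ∑ t ∈ F.filter (fun t => t.1 = x), q t.1 * |h t.2.1 - h t.1| =
          q x * ∑ t ∈ F.filter (fun t => t.1 = x), |h t.2.1 - h x| := by
        rw [mul_sum]
        refine sum_congr rfl fun t ht => ?_
        rw [(mem_filter.1 ht).2]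
      rw [this]
      ring
    rw [e3, e4] at e1
    linarith
  set S : ℝ := ∑ x ∈ (vs F).filter (fun x => a - 1 ≤ h x ∧ h x ≤ b + 1), (thr F h x) ^ 2 with hSdef
  have hS0 : 0 ≤ S := sum_nonneg fun x _ => sq_nonneg _
  have hQ : ∑ x ∈ vs F, q x * thr F h x = ∑ x ∈ X, (r x / s x) * thr F h x := by
    rw [hX, sum_filter]
    refine sum_congr rfl fun x hx => ?_
    by_cases hxX : x ∈ X
    · have h1 : dist (c x) (c v) ≤ 2 * R' ∧ a - 1 ≤ h x ∧ h x ≤ b + 1 := (mem_filter.1 hxX).2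
      rw [if_pos h1]
      simp only [hq, if_pos hxX]
    · have h1 : ¬ (dist (c x) (c v) ≤ 2 * R' ∧ a - 1 ≤ h x ∧ h x ≤ b + 1) := fun h2 =>
        hxX (mem_filter.2 ⟨hx, h2⟩)
      rw [if_neg h1]
      simp only [hq, if_neg hxX, zero_mul]
  have hCS : (∑ x ∈ X, (r x / s x) * thr F h x) ^ 2 ≤
      (∑ x ∈ X, (r x / s x) ^ 2) * ∑ x ∈ X, (thr F h x) ^ 2 :=
    sum_mul_sq_le_sq_mul_sq X (fun x => r x / s x) (fun x => thr F h x)
  have hA1 : ∑ x ∈ X, (r x / s x) ^ 2 ≤ 600000 * (L + 1) := by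
    refine le_trans ?_ (hP.shells hv hρ hρR hR' hreg)
    refine sum_le_sum_of_subset_of_nonneg ?_ fun x _ _ => sq_nonneg _
    intro x hx
    obtain ⟨h1, h2⟩ := mem_filter.1 hx
    exact mem_filter.2 ⟨h1, h2.1⟩
  have hA2 : ∑ x ∈ X, (thr F h x) ^ 2 ≤ S := by
    refine sum_le_sum_of_subset_of_nonneg ?_ fun x _ _ => sq_nonneg _
    intro x hx
    obtain ⟨h1, h2⟩ := mem_filter.1 hx
    exact mem_filter.2 ⟨h1, h2.2⟩
  have hfin : L ^ 2 ≤ 16 * (600000 * (L + 1) * S) := by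
    have h1 : L ^ 2 ≤ (4 * ∑ x ∈ vs F, q x * thr F h x) ^ 2 :=
      pow_le_pow_left₀ hLpos.le hsum 2
    rw [hQ] at h1
    have h2 : (∑ x ∈ X, (r x / s x) ^ 2) * ∑ x ∈ X, (thr F h x) ^ 2 ≤ 600000 * (L + 1) * S :=
      mul_le_mul hA1 hA2 (sum_nonneg fun x _ => sq_nonneg _) (by positivity)
    nlinarith
  by_cases hL1 : L ≤ 1
  · nlinarith
  · push Not at hL1
    have h1 : L * L ≤ L * (19200000 * S) := by nlinarith
    have h2 := le_of_mul_le_mul_left h1 hLpos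
    linarith

end H19S
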