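import Pool.Agent.Lib.H19S.E13b
import Pool.Agent.Lib.H19S.E15

/-!
# H19S: top statement(s) of part E (proved in E13b and E15)
-/

namespace H19S

open Finset
open scoped ENNReal

/-- PART E (A2): two connected sets, one joining `y` to distance `ρ`, the other one joining distance
`≤ R ρ` to distance `≥ 10 R ρ`, cannot be separated with small energy. -/
theorem lemA2 : ∃ C2 : ℝ, 1 ≤ C2 ∧ ∀ (F : Finset (ℕ × ℕ × ℕ)), IsTri F → 4 ≤ (vs F).card →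
    ∀ (c : ℕ → S2) (r : ℕ → ℝ), IsPacking F c r → ∀ (y : S2) (ρ R : ℝ), 0 < ρ → 1 ≤ R →
    R * ρ ≤ 1 / 20 → ∀ (S₁ S₂ : Set ℕ), S₁ ⊆ vs F → S₂ ⊆ vs F → ConnIn F S₁ → ConnIn F S₂ →
    (∃ x ∈ S₁, y ∈ Metric.closedBall (c x) (r x)) → (∃ x ∈ S₁, ρ ≤ dist (c x) y) →
    (∃ x ∈ S₂, (Metric.closedBall (c x) (r x) ∩ Metric.closedBall y (R * ρ)).Nonempty) →
    (∃ x ∈ S₂, 10 * (R * ρ) ≤ dist (c x) y) →
    ∀ g : ℕ → ℝ, (∀ x ∈ S₁, g x = 0) → (∀ x ∈ S₂, g x = 1) → 1 ≤ C2 * R ^ 2 * energy F g :=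
  lemA2E

/-- PART E (B): the logarithmic test function. -/
theorem lemB : ∃ CB : ℝ, 1 ≤ CB ∧ ∀ (F : Finset (ℕ × ℕ × ℕ)), IsTri F → 4 ≤ (vs F).card →
    ∀ (c : ℕ → S2) (r : ℕ → ℝ), IsPacking F c r → ∀ v ∈ vs F, ∀ u ∈ vs F, v ≠ u →
    ∀ (ρ R' a b : ℝ), 0 < ρ → ρ < R' → R' ≤ 1 / 40 →
    (∀ s : ℝ, ρ ≤ s → s ≤ 2 * R' → ∀ w ∈ vs F,
      (Metric.closedBall (c w) (r w) ∩ Metric.closedBall (c v) s).Nonempty → r w ≤ s / 10) →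
    0 ≤ a → a < b → b ≤ pot F v u u →
    (∀ x ∈ vs F, pot F v u x ≤ a → dist (c x) (c v) ≤ ρ) →
    (∀ x ∈ vs F, b ≤ pot F v u x → R' ≤ dist (c x) (c v)) →
    Real.log (R' / ρ) ≤ CB * (1 + ∑ x ∈ (vs F).filter (fun x => a - 1 ≤ pot F v u x ∧
      pot F v u x ≤ b + 1), (thr F (pot F v u) x) ^ 2) :=
  lemBE

end H19S
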