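import Pool.Agent.Lib.H19S.F11b

/-!
# H19S: top statement(s) of part F (proved in F11b)
-/

namespace H19S

open Finset
open scoped ENNReal

/-- PART F (analysis). -/
theorem analysis (a A r0 c0 δz c1 : ℝ) (ha : 0 < a) (hA : 0 < A) (hr0 : 0 < r0) (hc0 : 0 < c0)
    (hδz : 0 < δz) (hc1 : δz ≤ c1) (h1 : 100 * c1 ≤ r0) (h2 : 100 * r0 ≤ c0) (h3 : 1000 * r0 ≤ 1) :
    ∃ K0 : ℕ, ∀ B : ℝ, 0 < B → ∃ (κ Λ η η' c : ℝ) (k1 J0 : ℕ), 1 ≤ Λ ∧ 0 < η ∧ 0 < η' ∧ 0 < c ∧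
      Λ ≤ 2 ^ k1 ∧ ∀ J : ℕ, J0 ≤ J → ∃ (rN : ℝ) (k2 n0 : ℕ), 0 < rN ∧ k1 ≤ k2 ∧
        3 ≤ Λ * ((n0 : ℝ) / 2 ^ k2) ∧ 1 ≤ (n0 : ℝ) / 2 ^ k2 ∧
        ∀ F : Finset (ℕ × ℕ × ℕ), IsTri F → {0, 1, 2} ⊆ vs F → n0 ≤ (vs F).card →
          Typ F K0 B J → RegEv a A rN r0 c0 δz c1 F →
          ¬ NBig F κ (Λ * ((vs F).card / 2 ^ k2) / 2) (2 * Λ * ((vs F).card / 2 ^ k1) + 1) ∧
          ENNReal.ofReal (c * Real.log J) ≤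
            ∑ k ∈ Icc k1 k2, W (nbr F) (GoodStop F ((vs F).card / 2 ^ k) η η' Λ κ) :=
  analysis' a A r0 c0 δz c1 ha hA hr0 hc0 hδz hc1 h1 h2 h3

end H19S
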