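import Pool.Agent.Lib.H19S.H14
import Pool.Agent.Lib.H19S.TopB

/-!
# H19S: top statement(s) of part H (proved in H14)
-/

namespace H19S

open Finset
open scoped ENNReal

/-- PART H (almost all triangulations are asymmetric). -/
theorem symbound : ∃ C : ℝ, ∀ n : ℕ, 10 ≤ n →
    (by classical exact (((Lab n).filter (fun F => ¬ Asym F)).card : ℝ)) * n ^ 2 ≤
      C * (Lab n).card :=
  Asy.symbound_of fun _ hn => lab_card hn

end H19S
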