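import Pool.Agent.Lib.H19S.MB

/-!
# H19S: top statement(s) of part M (proved in MB)
-/

namespace H19S

open Finset
open scoped ENNReal

/-- The event `RegEv` has small probability. -/
theorem mainfin (a A r0 c0 δz c1 p : ℝ) (ha : 0 < a) (hA : 0 < A) (hr0 : 0 < r0) (hc0 : 0 < c0)
    (hδz : 0 < δz) (hc1 : δz ≤ c1) (h1 : 100 * c1 ≤ r0) (h2 : 100 * r0 ≤ c0) (h3 : 1000 * r0 ≤ 1)
    (hp : 0 < p) :
    ∃ (rN : ℝ) (n0 : ℕ), 0 < rN ∧ ∀ n : ℕ, n0 ≤ n →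
      (by classical exact (((Lab n).filter (RegEv a A rN r0 c0 δz c1)).card : ℝ)) ≤
        p * (Lab n).card :=
  mainfin' a A r0 c0 δz c1 p ha hA hr0 hc0 hδz hc1 h1 h2 h3 hp

end H19S
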