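import Pool.Agent.Lib.H19S.TopB
import Pool.Agent.Lib.H19S.TopC
import Pool.Agent.Lib.H19S.TopD
import Pool.Agent.Lib.H19S.TopE
import Pool.Agent.Lib.H19S.TopF
import Pool.Agent.Lib.H19S.TopG
import Pool.Agent.Lib.H19S.TopH
import Pool.Agent.Lib.H19S.TopM
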