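import Pool.Agent.Lib.H19S.A4e
import Pool.Agent.Lib.H19S.A5c
import Pool.Agent.Lib.H19S.A6
import Pool.Agent.Lib.H19S.A7
import Pool.Agent.Lib.H19S.A8
import Pool.Agent.Lib.H19S.C0b
import Pool.Agent.Lib.H19S.Top
import Pool.Agent.Lib.H19S.G9
import Pool.Agent.Lib.H19S.F11b
import Pool.Agent.Lib.H19S.MB
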