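import Pool.Agent.Lib.H19S.BTF

/-!
# H19S part B, chunk BT8: the 2-gon

PROOF.  `cyc [a, b] = {(a,b), (b,a)}`.  `D = rots b a o ∪ rots a b o` (double triangle) is `IsTri` (`6 + 12 = 6 * 3`), `vs D = {a, b, o}`, `lk D o = cyc [a, b]`.
If `T ∈ TF o [a, b] I` then `(b,a,o), (a,b,o) ∈ T`, so `D ⊆ T`, `D` is closed under rotation and crossing sides, so `T = D` (`closed_sub`),
and then `I = ∅` from the vertex set.
-/

namespace H19S.PB

open Finset

variable {α : Type*} [DecidableEq α]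

theorem BT8_mem {a b c x y z : α} : (x, y, z) ∈ rots a b c ∪ rots b a c ↔
    ((x = a ∧ y = b ∧ z = c) ∨ (x = b ∧ y = c ∧ z = a) ∨ (x = c ∧ y = a ∧ z = b)) ∨
    ((x = b ∧ y = a ∧ z = c) ∨ (x = a ∧ y = c ∧ z = b) ∨ (x = c ∧ y = b ∧ z = a)) := by
  rw [mem_union, mem_rots, mem_rots]

theorem BT8_vs {a b c : α} : vs (rots a b c ∪ rots b a c) = {a, b, c} := by
  ext x
  simp only [mem_vs, BT8_mem, mem_insert, mem_singleton]
  constructor
  · rintro ⟨y, z, h⟩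
    rcases h with (⟨rfl, -, -⟩ | ⟨rfl, -, -⟩ | ⟨rfl, -, -⟩) |
      (⟨rfl, -, -⟩ | ⟨rfl, -, -⟩ | ⟨rfl, -, -⟩) <;> simp
  · rintro (rfl | rfl | rfl)
    · exact ⟨b, c, Or.inl (Or.inl ⟨rfl, rfl, rfl⟩)⟩
    · exact ⟨a, c, Or.inr (Or.inl ⟨rfl, rfl, rfl⟩)⟩
    · exact ⟨a, b, Or.inl (Or.inr (Or.inr ⟨rfl, rfl, rfl⟩))⟩

theorem BT8_card {a b c : α} (hab : a ≠ b) (hbc : b ≠ c) (hca : c ≠ a) :
    (rots a b c ∪ rots b a c).card = 6 := by
  have e : rots a b c ∪ rots b a c =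
      {(a, b, c), (b, c, a), (c, a, b), (b, a, c), (a, c, b), (c, b, a)} := by
    ext t
    simp only [rots, mem_union, mem_insert, mem_singleton]
    tauto
  rw [e]
  have h1 := hab.symm
  have h2 := hbc.symm
  have h3 := hca.symm
  rw [card_insert_of_notMem, card_insert_of_notMem, card_insert_of_notMem,
    card_insert_of_notMem, card_insert_of_notMem, card_singleton] <;>
  simp only [mem_insert, mem_singleton, Prod.mk.injEq, not_or] <;> tauto

theorem BT8_six (a b c : α) : (a, b, c) ∈ rots a b c ∪ rots b a c ∧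
    (b, c, a) ∈ rots a b c ∪ rots b a c ∧ (c, a, b) ∈ rots a b c ∪ rots b a c ∧
    (b, a, c) ∈ rots a b c ∪ rots b a c ∧ (a, c, b) ∈ rots a b c ∪ rots b a c ∧
    (c, b, a) ∈ rots a b c ∪ rots b a c := by
  simp [rots]

/-- The double triangle. -/
theorem double_tri {a b c : α} (hab : a ≠ b) (hbc : b ≠ c) (hca : c ≠ a) :
    IsTri (rots a b c ∪ rots b a c) ∧ vs (rots a b c ∪ rots b a c) = {a, b, c} := by
  have h1 := hab.symm
  have h2 := hbc.symm
  have h3 := hca.symm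
  obtain ⟨m1, m2, m3, m4, m5, m6⟩ := BT8_six a b c
  have hadj : ∀ x y : α, x ∈ vs (rots a b c ∪ rots b a c) → y ∈ vs (rots a b c ∪ rots b a c) →
      x ≠ y → Adj (rots a b c ∪ rots b a c) x y := by
    intro x y hx hy hxy
    rw [BT8_vs] at hx hy
    simp only [mem_insert, mem_singleton] at hx hy
    rcases hx with rfl | rfl | rfl <;> rcases hy with rfl | rfl | rfl
    · exact absurd rfl hxy
    · exact ⟨_, m1⟩
    · exact ⟨_, m5⟩
    · exact ⟨_, m4⟩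
    · exact absurd rfl hxy
    · exact ⟨_, m2⟩
    · exact ⟨_, m3⟩
    · exact ⟨_, m6⟩
    · exact absurd rfl hxy
  refine ⟨{ rot := ?_, ne := ?_, uniq := ?_, opp := ?_, link := ?_, conn := ?_,
            nonempty := ⟨_, m1⟩, euler := ?_ }, BT8_vs⟩
  · intro x y z h
    rcases BT8_mem.1 h with (⟨rfl, rfl, rfl⟩ | ⟨rfl, rfl, rfl⟩ | ⟨rfl, rfl, rfl⟩) |
      (⟨rfl, rfl, rfl⟩ | ⟨rfl, rfl, rfl⟩ | ⟨rfl, rfl, rfl⟩)
    exacts [m2, m3, m1, m5, m6, m4]
  · intro x y z h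
    rcases BT8_mem.1 h with (⟨rfl, rfl, rfl⟩ | ⟨rfl, rfl, rfl⟩ | ⟨rfl, rfl, rfl⟩) |
      (⟨rfl, rfl, rfl⟩ | ⟨rfl, rfl, rfl⟩ | ⟨rfl, rfl, rfl⟩) <;> assumption
  · intro x y z w h h'
    rcases BT8_mem.1 h with (⟨rfl, rfl, rfl⟩ | ⟨rfl, rfl, rfl⟩ | ⟨rfl, rfl, rfl⟩) |
      (⟨rfl, rfl, rfl⟩ | ⟨rfl, rfl, rfl⟩ | ⟨rfl, rfl, rfl⟩) <;>
    rcases BT8_mem.1 h' with (⟨e1, e2, e3⟩ | ⟨e1, e2, e3⟩ | ⟨e1, e2, e3⟩) |
      (⟨e1, e2, e3⟩ | ⟨e1, e2, e3⟩ | ⟨e1, e2, e3⟩) <;>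
    first
      | exact e3.symm
      | exact absurd e1 (by assumption)
      | exact absurd e2 (by assumption)
  · intro x y z h
    rcases BT8_mem.1 h with (⟨rfl, rfl, rfl⟩ | ⟨rfl, rfl, rfl⟩ | ⟨rfl, rfl, rfl⟩) |
      (⟨rfl, rfl, rfl⟩ | ⟨rfl, rfl, rfl⟩ | ⟨rfl, rfl, rfl⟩)
    exacts [⟨_, m4⟩, ⟨_, m6⟩, ⟨_, m5⟩, ⟨_, m1⟩, ⟨_, m3⟩, ⟨_, m2⟩]
  · intro v x y x' y' h h'
    by_cases hxx : x = x'
    · rw [hxx]
    · refine Relation.ReflTransGen.single ?_
      show (v, x, x') ∈ rots a b c ∪ rots b a c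
      have hy : x' = y := by
        rcases BT8_mem.1 h with (⟨rfl, rfl, rfl⟩ | ⟨rfl, rfl, rfl⟩ | ⟨rfl, rfl, rfl⟩) |
          (⟨rfl, rfl, rfl⟩ | ⟨rfl, rfl, rfl⟩ | ⟨rfl, rfl, rfl⟩) <;>
        rcases BT8_mem.1 h' with (⟨e1, e2, e3⟩ | ⟨e1, e2, e3⟩ | ⟨e1, e2, e3⟩) |
          (⟨e1, e2, e3⟩ | ⟨e1, e2, e3⟩ | ⟨e1, e2, e3⟩) <;>
        first
          | exact e2
          | exact absurd e1 (by assumption)
          | exact absurd e2.symm hxx
      rw [hy]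
      exact h
  · intro x y hx hy
    by_cases hxy : x = y
    · rw [hxy]
    · exact Relation.ReflTransGen.single (hadj x y hx hy hxy)
  · rw [BT8_card hab hbc hca, BT8_vs, card_insert_of_notMem, card_insert_of_notMem,
      card_singleton]
    · simpa using hbc
    · simp only [mem_insert, mem_singleton, not_or]
      exact ⟨hab, h3⟩

theorem TF_two {o a b : α} {I : Finset α} (hl : [a, b].Nodup) (hI : Disjoint I [a, b].toFinset)
    (ho : o ∉ [a, b].toFinset ∪ I) : (TF o [a, b] I).card = if I = ∅ then 1 else 0 := by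
  classical
  have hab : a ≠ b := by simpa using hl
  have ho' : o ≠ a ∧ o ≠ b ∧ o ∉ I := by
    simpa [mem_union, not_or, and_assoc] using ho
  obtain ⟨hoa, hob, hoI⟩ := ho'
  obtain ⟨hD, hvD⟩ := double_tri (a := b) (b := a) (c := o) hab.symm hoa.symm hob
  have hcyc : cyc [a, b] = {(a, b), (b, a)} := by
    ext t
    simp [cyc, path]
  have hlk : lk (rots b a o ∪ rots a b o) o = cyc [a, b] := by
    rw [hcyc]
    ext ⟨x, y⟩
    rw [mem_lk, BT8_mem]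
    simp only [mem_insert, mem_singleton, Prod.mk.injEq]
    constructor
    · rintro ((⟨h1, h2, h3⟩ | ⟨h1, h2, h3⟩ | ⟨h1, h2, h3⟩) |
        (⟨h1, h2, h3⟩ | ⟨h1, h2, h3⟩ | ⟨h1, h2, h3⟩))
      · exact Or.inl ⟨h2, h1⟩
      · exact absurd h3 hob
      · exact absurd h3 hoa
      · exact Or.inr ⟨h2, h1⟩
      · exact absurd h3 hoa
      · exact absurd h3 hob
    · rintro (⟨rfl, rfl⟩ | ⟨rfl, rfl⟩)
      · exact Or.inl (Or.inl ⟨rfl, rfl, trivial⟩)
      · exact Or.inr (Or.inl ⟨rfl, rfl, trivial⟩)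
  have huniq : ∀ T ∈ TF o [a, b] I, T = rots b a o ∪ rots a b o := by
    intro T hT
    rw [mem_TF] at hT
    obtain ⟨hT, -, hTl⟩ := hT
    have m1 : (b, a, o) ∈ T := by
      rw [← mem_lk, hTl, hcyc]; simp
    have m2 : (a, b, o) ∈ T := by
      rw [← mem_lk, hTl, hcyc]; simp
    have hsub : rots b a o ∪ rots a b o ⊆ T :=
      union_subset (rots_sub hT.toIsSurf m1) (rots_sub hT.toIsSurf m2)
    symm
    refine closed_sub hT.toIsSurf hsub hD.nonempty (fun x y z h => hD.rot h) ?_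
    intro x y z d h h'
    obtain ⟨e, he⟩ := hD.opp h
    rw [hT.uniq h' (hsub he)]
    exact he
  by_cases hI0 : I = ∅
  · rw [if_pos hI0, card_eq_one]
    refine ⟨rots b a o ∪ rots a b o, ?_⟩
    ext T
    rw [mem_singleton]
    constructor
    · exact huniq T
    · rintro rfl
      rw [mem_TF]
      refine ⟨hD, ?_, hlk⟩
      rw [hvD, hI0]
      ext x
      simp only [mem_insert, mem_singleton, List.toFinset_cons, List.toFinset_nil, union_empty,
        insert_empty_eq]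
      tauto
  · rw [if_neg hI0, card_eq_zero, eq_empty_iff_forall_notMem]
    intro T hT
    have hTD := huniq T hT
    rw [mem_TF] at hT
    obtain ⟨-, hv, -⟩ := hT
    rw [hTD, hvD] at hv
    obtain ⟨x, hx⟩ := nonempty_iff_ne_empty.2 hI0
    have hx2 : x ∈ ({b, a, o} : Finset α) := by
      rw [hv]; simp [hx]
    simp only [mem_insert, mem_singleton] at hx2
    have hx3 := disjoint_left.1 hI hx
    simp only [List.toFinset_cons, List.toFinset_nil, insert_empty_eq, mem_insert,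
      mem_singleton, not_or] at hx3
    rcases hx2 with rfl | rfl | rfl
    · exact hx3.2 rfl
    · exact hx3.1 rfl
    · exact hoI hx

end H19S.PB
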