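import Pool.Agent.Lib.H19S.BSurf
import Pool.Agent.Lib.H19S.A6
import Pool.Agent.Lib.H19S.A5b
import Pool.Agent.Lib.H19S.A7

/-!
# H19S part B, chunk BS6: cutting a triangulation along a triangle (uses part A)

PROOF.  Let `B = {(y,a), (a,o), (o,y)}` (`IsCyc`).  `jordan` (A6) gives `R ⊆ T`, `RotC R`, `bd R = B`.  Let `w` be a label not in `vs T` (`α` infinite).
`cut_tri` (A5b): `R ∪ cone w B` is `IsTri`, and `cone w B = rots a y w ∪ rots o a w ∪ rots y o w`; `del3` (A7) for `(a,y,w), (y,o,w), (o,a,w)` gives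
`T₁ := R ∪ rots a y o` is `IsTri` (no face of `R` contains `w`; `rots a y o` is disjoint from `R` or not, this does not matter for the union).
`cut_tri'` in the same way: `T₂ := (T \ R) ∪ rots y a o` is `IsTri` (the cone over the reversed cycle `{(a,y), (o,a), (y,o)}` has the faces
`(y,a,w), (a,o,w), (o,y,w)`).  Common vertices: `mem_vb_of_both` (a vertex of `R` and of `T \ R` is in `vb B = {a,y,o}`).
`glue a y o T₁ T₂ = (T₁ \ rots a y o) ∪ (T₂ \ rots y a o) = T`: `R` contains no face of `rots a y o`, since e.g. `(a, y, o) ∈ R` contradicts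
`(y, a) ∈ bd R` (no face of `R` at the dart `(a, y)`); `T \ R` contains no face of `rots y a o`, since `(y,a) ∈ bd R` means that the face of `T` at the dart
`(y,a)` is in `R`.
-/

namespace H19S.PB

open Finset

variable {α : Type*} [DecidableEq α] [Infinite α]

omit [Infinite α] in
private theorem bs6_mem {p q a y o : α} :
    (p, q) ∈ ({(y, a), (a, o), (o, y)} : Finset (α × α)) ↔
      (p = y ∧ q = a) ∨ (p = a ∧ q = o) ∨ (p = o ∧ q = y) := by
  simp [mem_insert, mem_singleton, Prod.mk.injEq]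

omit [Infinite α] in
theorem bs6_cyc {a y o : α} (h1 : a ≠ y) (h2 : y ≠ o) (h3 : o ≠ a) :
    IsCyc ({(y, a), (a, o), (o, y)} : Finset (α × α)) where
  card := by
    rw [card_eq_three.mpr ⟨(y, a), (a, o), (o, y), ?_, ?_, ?_, rfl⟩]
    · intro h
      exact h1 (congrArg Prod.fst h).symm
    · intro h
      exact h2 (congrArg Prod.fst h)
    · intro h
      exact h3 (congrArg Prod.fst h).symm
  outu := by
    intro p q r hq hr
    rw [bs6_mem] at hq hr
    rcases hq with ⟨rfl, rfl⟩ | ⟨rfl, rfl⟩ | ⟨rfl, rfl⟩ <;>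
      rcases hr with ⟨e1, e2⟩ | ⟨e1, e2⟩ | ⟨e1, e2⟩ <;>
      first
        | exact e2.symm
        | exact absurd e1 h1
        | exact absurd e1.symm h1
        | exact absurd e1 h2
        | exact absurd e1.symm h2
        | exact absurd e1 h3
        | exact absurd e1.symm h3
  inu := by
    intro p q r hq hr
    rw [bs6_mem] at hq hr
    rcases hq with ⟨rfl, rfl⟩ | ⟨rfl, rfl⟩ | ⟨rfl, rfl⟩ <;>
      rcases hr with ⟨e1, e2⟩ | ⟨e1, e2⟩ | ⟨e1, e2⟩ <;>
      first
        | exact e1.symm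
        | exact absurd e2 h1
        | exact absurd e2.symm h1
        | exact absurd e2 h2
        | exact absurd e2.symm h2
        | exact absurd e2 h3
        | exact absurd e2.symm h3
  orbit := by
    intro p q r s hq hr
    rw [bs6_mem] at hq hr
    have s1 : Relation.ReflTransGen
        (fun x z => (x, z) ∈ ({(y, a), (a, o), (o, y)} : Finset (α × α))) a o :=
      Relation.ReflTransGen.single (bs6_mem.mpr (Or.inr (Or.inl ⟨rfl, rfl⟩)))
    have s2 : Relation.ReflTransGen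
        (fun x z => (x, z) ∈ ({(y, a), (a, o), (o, y)} : Finset (α × α))) o y :=
      Relation.ReflTransGen.single (bs6_mem.mpr (Or.inr (Or.inr ⟨rfl, rfl⟩)))
    have s3 : Relation.ReflTransGen
        (fun x z => (x, z) ∈ ({(y, a), (a, o), (o, y)} : Finset (α × α))) y a :=
      Relation.ReflTransGen.single (bs6_mem.mpr (Or.inl ⟨rfl, rfl⟩))
    rcases hq with ⟨-, rfl⟩ | ⟨-, rfl⟩ | ⟨-, rfl⟩ <;>
      rcases hr with ⟨rfl, -⟩ | ⟨rfl, -⟩ | ⟨rfl, -⟩ <;>
      first
        | exact Relation.ReflTransGen.refl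
        | exact s1
        | exact s2
        | exact s3
        | exact s1.trans s2
        | exact s2.trans s3
        | exact s3.trans s1

omit [Infinite α] in
/-- The cone over a triangle. -/
theorem bs6_cone {a y o w : α} :
    cone w ({(y, a), (a, o), (o, y)} : Finset (α × α)) =
      rots a y w ∪ rots y o w ∪ rots o a w := by
  ext ⟨p, q, r⟩
  simp only [cone, rots, mem_union, mem_image, mem_insert, mem_singleton, Prod.exists,
    Prod.mk.injEq]
  constructor
  · rintro ((⟨x, z, h, h'⟩ | ⟨x, z, h, h'⟩) | ⟨x, z, h, h'⟩) <;>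
      rcases h with ⟨rfl, rfl⟩ | ⟨rfl, rfl⟩ | ⟨rfl, rfl⟩ <;>
      obtain ⟨rfl, rfl, rfl⟩ := h' <;> simp
  · rintro (((h | h | h) | (h | h | h)) | (h | h | h)) <;> obtain ⟨rfl, rfl, rfl⟩ := h <;> simp

omit [Infinite α] in
/-- A region bounded by a triangle, closed by the triangle. -/
theorem bs6_close {R : Finset (α × α × α)} {a y o w : α}
    (h : IsTri (R ∪ cone w ({(y, a), (a, o), (o, y)} : Finset (α × α)))) (hw : w ∉ vs R)
    (hR : RotC R) : IsTri (R ∪ rots a y o) := by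
  rw [bs6_cone] at h
  have h1 := del3 h (a := a) (b := y) (c := o) (w := w)
    (by simp [rots]) (by simp [rots]) (by simp [rots])
  have e : (R ∪ (rots a y w ∪ rots y o w ∪ rots o a w)) \
      (rots a y w ∪ rots y o w ∪ rots o a w) = R := by
    rw [union_sdiff_right]
    apply sdiff_eq_self_of_disjoint
    rw [disjoint_left]
    rintro ⟨p, q, r⟩ hp hq
    have n1 : p ≠ w := by
      rintro rfl
      exact hw (mem_vs.2 ⟨_, _, hp⟩)
    have n2 : q ≠ w := by
      rintro rfl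
      exact hw (mem_vs.2 ⟨_, _, hR hp⟩)
    have n3 : r ≠ w := by
      rintro rfl
      exact hw (mem_vs.2 ⟨_, _, hR (hR hp)⟩)
    simp only [rots, mem_union, mem_insert, mem_singleton, Prod.mk.injEq] at hq
    tauto
  rwa [e] at h1

theorem cut3_tri {T : Finset (α × α × α)} (h : IsTri T) {a y o : α} (h1 : Adj T a y)
    (h2 : Adj T y o) (h3 : Adj T o a) :
    ∃ T₁ T₂ : Finset (α × α × α), IsTri T₁ ∧ IsTri T₂ ∧ (a, y, o) ∈ T₁ ∧ (y, a, o) ∈ T₂ ∧
      (∀ x ∈ vs T₁, x ∈ vs T₂ → x = a ∨ x = y ∨ x = o) ∧ glue a y o T₁ T₂ = T := by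
  have hS : IsSurf T := h.toIsSurf
  have n1 : a ≠ y := hS.adj_ne h1
  have n2 : y ≠ o := hS.adj_ne h2
  have n3 : o ≠ a := hS.adj_ne h3
  have hcyc : IsCyc ({(y, a), (a, o), (o, y)} : Finset (α × α)) := bs6_cyc n1 n2 n3
  obtain ⟨R, hRT, hR, hbd⟩ := jordan h hcyc (by
    intro p q hpq
    rw [bs6_mem] at hpq
    rcases hpq with ⟨rfl, rfl⟩ | ⟨rfl, rfl⟩ | ⟨rfl, rfl⟩
    · exact hS.adj_symm h1
    · exact hS.adj_symm h3
    · exact hS.adj_symm h2)
  obtain ⟨w, hw⟩ := Infinite.exists_notMem_finset (vs T)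
  have hwR : w ∉ vs R := by
    intro hx
    obtain ⟨p, q, hpq⟩ := mem_vs.1 hx
    exact hw (mem_vs.2 ⟨p, q, hRT hpq⟩)
  have hwR' : w ∉ vs (T \ R) := by
    intro hx
    obtain ⟨p, q, hpq⟩ := mem_vs.1 hx
    exact hw (mem_vs.2 ⟨p, q, (mem_sdiff.1 hpq).1⟩)
  have hR' : RotC (T \ R) := A5b_rotC_sdiff hS hR
  have hc1 := cut_tri h hRT hR (by rw [hbd]; exact hcyc) hw
  have hc2 := cut_tri' h hRT hR (by rw [hbd]; exact hcyc) hw
  rw [hbd] at hc1 hc2
  have hsw : ({(y, a), (a, o), (o, y)} : Finset (α × α)).image Prod.swap =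
      ({(a, y), (y, o), (o, a)} : Finset (α × α)) := by
    ext ⟨p, q⟩
    simp only [mem_image, mem_insert, mem_singleton, Prod.exists, Prod.swap_prod_mk,
      Prod.mk.injEq]
    constructor
    · rintro ⟨x, z, h | h | h, rfl, rfl⟩ <;> obtain ⟨rfl, rfl⟩ := h <;> simp
    · rintro (h | h | h) <;> obtain ⟨rfl, rfl⟩ := h
      · exact ⟨q, p, by simp⟩
      · exact ⟨q, p, by simp⟩
      · exact ⟨q, p, by simp⟩
  rw [hsw] at hc2
  have t1 := bs6_close hc1 hwR hR
  have t2 := bs6_close (a := y) (y := a) (o := o) hc2 hwR' hR'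
  refine ⟨R ∪ rots a y o, (T \ R) ∪ rots y a o, t1, t2, ?_, ?_, ?_, ?_⟩
  · exact mem_union_right _ (by simp [rots])
  · exact mem_union_right _ (by simp [rots])
  · intro x hx1 hx2
    by_contra hn
    push Not at hn
    obtain ⟨m1, m2, m3⟩ := hn
    have k1 : x ∈ vs R := by
      obtain ⟨p, q, hpq⟩ := mem_vs.1 hx1
      rcases mem_union.1 hpq with h' | h'
      · exact mem_vs.2 ⟨p, q, h'⟩
      · rw [mem_rots] at h'
        tauto
    have k2 : x ∈ vs (T \ R) := by
      obtain ⟨p, q, hpq⟩ := mem_vs.1 hx2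
      rcases mem_union.1 hpq with h' | h'
      · exact mem_vs.2 ⟨p, q, h'⟩
      · rw [mem_rots] at h'
        tauto
    have k3 := mem_vb_of_both hS hRT hR k1 k2
    rw [hbd, A5b_mem_vb] at k3
    rcases k3 with ⟨z, hz⟩ | ⟨z, hz⟩ <;> rw [bs6_mem] at hz <;> tauto
  · unfold glue
    have m1 : (y, a) ∈ bd R := by rw [hbd]; simp
    obtain ⟨⟨c, hc⟩, hn⟩ := mem_bd.1 m1
    have e1 : (R ∪ rots a y o) \ rots a y o = R := by
      rw [union_sdiff_right]
      apply sdiff_eq_self_of_disjoint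
      rw [disjoint_left]
      rintro ⟨p, q, r⟩ hp hq
      rw [mem_rots] at hq
      rcases hq with ⟨rfl, rfl, rfl⟩ | ⟨rfl, rfl, rfl⟩ | ⟨rfl, rfl, rfl⟩
      · exact hn _ hp
      · exact hn _ (hR (hR hp))
      · exact hn _ (hR hp)
    have e2 : ((T \ R) ∪ rots y a o) \ rots y a o = T \ R := by
      rw [union_sdiff_right]
      apply sdiff_eq_self_of_disjoint
      rw [disjoint_left]
      have key : ∀ r, (y, a, r) ∈ T \ R → False := by
        intro r hr
        rw [mem_sdiff] at hr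
        rw [hS.uniq hr.1 (hRT hc)] at hr
        exact hr.2 hc
      rintro ⟨p, q, r⟩ hp hq
      rw [mem_rots] at hq
      rcases hq with ⟨rfl, rfl, rfl⟩ | ⟨rfl, rfl, rfl⟩ | ⟨rfl, rfl, rfl⟩
      · exact key _ hp
      · exact key _ (hR' (hR' hp))
      · exact key _ (hR' hp)
    rw [e1, e2]
    exact union_sdiff_of_subset hRT

end H19S.PB
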