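import Pool.Agent.Lib.H19S.BSurf
import Pool.Agent.Lib.H19S.BCut
import Pool.Agent.Lib.H19S.A5c
import Pool.Agent.Lib.H19S.A7

/-!
# H19S part B, chunk BS5: gluing two triangulations along a triangle

`glue a y o T₁ T₂ = (T₁ \ rots a y o) ∪ (T₂ \ rots y a o)`, `(a,y,o) ∈ T₁`, `(y,a,o) ∈ T₂`, common vertices `a, y, o` only.
PROOF of `glue_tri`.  Use `H19S.glue` (A5c) with `F := T₁`, `R := rots a y o`, `bd R = {(a,y), (y,o), (o,a)}` (a simple cycle; if `T₁` is the double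
triangle, too), `R' := T₂ \ rots y a o` and a label `o'` which does not occur (`α` infinite).  `R' ∪ cone o' (bd R)` is the result of the insertion of `o'`
in the face `(y,a,o)` of `T₂` (`ins3`): `cone o' (bd R) = rots y a o' ∪ rots o y o' ∪ rots a o o'`.  Darts: the darts `(a,y), (y,o), (o,a)` of `T₁` are
darts of `rots a y o` only (`uniq`), the darts `(y,a), (a,o), (o,y)` of `T₂` are darts of `rots y a o` only; a dart common to `T₁` and `T₂` has
both ends in `{a, y, o}`, so it is one of these six, and none of them is a dart of both `T₁ \ rots a y o` and `T₂ \ rots y a o`.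
`{a, y, o} ⊆ vs R'`: the opposite of the dart `(y,a)` is a dart of `T₂` with a face not in `rots y a o`.
The vertex set: `vs ((T₁ \ rots a y o) ∪ R') = vs T₁ ∪ vs T₂` since `a, y, o ∈ vs R'`.
-/

namespace H19S.PB

open Finset

variable {α : Type*} [DecidableEq α] [Infinite α]

omit [Infinite α] in
private theorem bs5_bd {a y o : α} (h1 : a ≠ y) (h2 : y ≠ o) (h3 : o ≠ a) :
    bd (rots a y o) = ({(a, y), (y, o), (o, a)} : Finset (α × α)) := by
  ext ⟨p, q⟩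
  rw [mem_bd]
  simp only [mem_rots, mem_insert, mem_singleton, Prod.mk.injEq]
  constructor
  · rintro ⟨⟨c, hc⟩, -⟩
    tauto
  · rintro (⟨rfl, rfl⟩ | ⟨rfl, rfl⟩ | ⟨rfl, rfl⟩)
    · exact ⟨⟨o, by tauto⟩, fun d => by
        rintro (⟨e1, e2, -⟩ | ⟨e1, e2, -⟩ | ⟨e1, e2, -⟩) <;> first
          | exact h1 e1 | exact h1 e1.symm | exact h1 e2 | exact h1 e2.symm
          | exact h2 e1 | exact h2 e1.symm | exact h2 e2 | exact h2 e2.symm
          | exact h3 e1 | exact h3 e1.symm | exact h3 e2 | exact h3 e2.symm⟩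
    · exact ⟨⟨a, by tauto⟩, fun d => by
        rintro (⟨e1, e2, -⟩ | ⟨e1, e2, -⟩ | ⟨e1, e2, -⟩) <;> first
          | exact h1 e1 | exact h1 e1.symm | exact h1 e2 | exact h1 e2.symm
          | exact h2 e1 | exact h2 e1.symm | exact h2 e2 | exact h2 e2.symm
          | exact h3 e1 | exact h3 e1.symm | exact h3 e2 | exact h3 e2.symm⟩
    · exact ⟨⟨y, by tauto⟩, fun d => by
        rintro (⟨e1, e2, -⟩ | ⟨e1, e2, -⟩ | ⟨e1, e2, -⟩) <;> first
          | exact h1 e1 | exact h1 e1.symm | exact h1 e2 | exact h1 e2.symm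
          | exact h2 e1 | exact h2 e1.symm | exact h2 e2 | exact h2 e2.symm
          | exact h3 e1 | exact h3 e1.symm | exact h3 e2 | exact h3 e2.symm⟩

omit [Infinite α] in
private theorem bs5_rotC (a b c : α) : RotC (rots a b c) := by
  intro p q r h
  rw [mem_rots] at h ⊢
  tauto

omit [Infinite α] in
private theorem bs5_rotC_sdiff {T : Finset (α × α × α)} (h : IsSurf T) (a b c : α) :
    RotC (T \ rots a b c) :=
  A5b_rotC_sdiff h (bs5_rotC a b c)

omit [Infinite α] in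
/-- the three vertices of the triangle lie on faces other than it -/
private theorem bs5_vs {T : Finset (α × α × α)} (h : IsSurf T) {a y o : α} (f : (y, a, o) ∈ T) :
    (∃ d, (a, y, d) ∈ T \ rots y a o) ∧ a ∈ vs (T \ rots y a o) ∧ y ∈ vs (T \ rots y a o) ∧
      o ∈ vs (T \ rots y a o) := by
  obtain ⟨n1, n2, n3⟩ := ne3 h f
  obtain ⟨d, hd⟩ := h.opp f
  obtain ⟨d', hd'⟩ := h.opp (h.rot f)
  have m1 : (a, y, d) ∈ T \ rots y a o := by
    rw [mem_sdiff]
    refine ⟨hd, fun hm => ?_⟩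
    rw [mem_rots] at hm
    rcases hm with ⟨e1, -, -⟩ | ⟨-, e2, -⟩ | ⟨e1, -, -⟩
    · exact n1 e1.symm
    · exact n3 e2.symm
    · exact n2 e1
  have m2 : (o, a, d') ∈ T \ rots y a o := by
    rw [mem_sdiff]
    refine ⟨hd', fun hm => ?_⟩
    rw [mem_rots] at hm
    rcases hm with ⟨e1, -, -⟩ | ⟨e1, -, -⟩ | ⟨-, e2, -⟩
    · exact n3 e1
    · exact n2 e1.symm
    · exact n1 e2.symm
  have hr : RotC (T \ rots y a o) := bs5_rotC_sdiff h y a o
  exact ⟨⟨d, m1⟩, mem_vs.2 ⟨_, _, m1⟩, mem_vs.2 ⟨_, _, hr m1⟩, mem_vs.2 ⟨_, _, m2⟩⟩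

theorem glue_tri {T₁ T₂ : Finset (α × α × α)} (h1 : IsTri T₁) (h2 : IsTri T₂) {a y o : α}
    (f1 : (a, y, o) ∈ T₁) (f2 : (y, a, o) ∈ T₂)
    (hv : ∀ x ∈ vs T₁, x ∈ vs T₂ → x = a ∨ x = y ∨ x = o) :
    IsTri (glue a y o T₁ T₂) ∧ vs (glue a y o T₁ T₂) = vs T₁ ∪ vs T₂ := by
  have s1 : IsSurf T₁ := h1.toIsSurf
  have s2 : IsSurf T₂ := h2.toIsSurf
  obtain ⟨n1, n2, n3⟩ := ne3 s1 f1
  have hbd := bs5_bd n1 n2 n3
  obtain ⟨-, va, vy, vo⟩ := bs5_vs s2 f2
  have hsub2 : vs (T₂ \ rots y a o) ⊆ vs T₂ := by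
    intro x hx
    obtain ⟨p, q, hpq⟩ := mem_vs.1 hx
    exact mem_vs.2 ⟨p, q, (mem_sdiff.1 hpq).1⟩
  have hsub1 : vs (T₁ \ rots a y o) ⊆ vs T₁ := by
    intro x hx
    obtain ⟨p, q, hpq⟩ := mem_vs.1 hx
    exact mem_vs.2 ⟨p, q, (mem_sdiff.1 hpq).1⟩
  constructor
  · obtain ⟨w, hw⟩ := Infinite.exists_notMem_finset (vs T₂)
    have hins := ins3 h2 f2 hw
    have hcone : cone w (bd (rots a y o)) = rots y a w ∪ rots a o w ∪ rots o y w := by
      rw [hbd]
      exact bs6_cone (a := y) (y := a) (o := o) (w := w)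
    rw [← hcone] at hins
    refine H19S.glue (R := rots a y o) (R' := T₂ \ rots y a o) (o := w) h1 (rots_sub s1 f1)
      (bs5_rotC a y o) ?_ ?_ hins ?_ ?_ ?_
    · rw [hbd]
      exact bs6_cyc n1.symm n3.symm n2.symm
    · rintro ⟨p, q, r⟩ ht
      have ht' := (mem_sdiff.1 ht).1
      obtain ⟨k1, k2, k3⟩ := mem_vs_of s2 ht'
      refine ⟨?_, ?_, ?_⟩
      · rintro rfl; exact hw k1
      · rintro rfl; exact hw k2
      · rintro rfl; exact hw k3
    · intro x hx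
      obtain ⟨hx2, hx1⟩ := mem_inter.1 hx
      rw [hbd, A5b_mem_vb]
      rcases hv x (hsub1 hx1) (hsub2 hx2) with rfl | rfl | rfl
      · exact Or.inl ⟨y, by simp⟩
      · exact Or.inl ⟨o, by simp⟩
      · exact Or.inl ⟨a, by simp⟩
    · intro x hx
      rw [hbd, A5b_mem_vb] at hx
      simp only [mem_insert, mem_singleton, Prod.mk.injEq] at hx
      rcases hx with ⟨z, ⟨rfl, -⟩ | ⟨rfl, -⟩ | ⟨rfl, -⟩⟩ | ⟨z, ⟨-, rfl⟩ | ⟨-, rfl⟩ | ⟨-, rfl⟩⟩ <;>
        assumption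
    · intro p q c d hc hd
      rw [mem_sdiff, mem_rots] at hc hd
      obtain ⟨hc1, hc2⟩ := hc
      obtain ⟨hd1, hd2⟩ := hd
      obtain ⟨k1, k2, -⟩ := mem_vs_of s2 hc1
      obtain ⟨l1, l2, -⟩ := mem_vs_of s1 hd1
      have npq := s2.ne hc1
      rcases hv p l1 k1 with rfl | rfl | rfl <;> rcases hv q l2 k2 with rfl | rfl | rfl
      · exact npq rfl
      · exact hd2 (Or.inl ⟨rfl, rfl, s1.uniq hd1 f1⟩)
      · exact hc2 (Or.inr (Or.inl ⟨rfl, rfl, s2.uniq hc1 (s2.rot f2)⟩))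
      · exact hc2 (Or.inl ⟨rfl, rfl, s2.uniq hc1 f2⟩)
      · exact npq rfl
      · exact hd2 (Or.inr (Or.inl ⟨rfl, rfl, s1.uniq hd1 (s1.rot f1)⟩))
      · exact hd2 (Or.inr (Or.inr ⟨rfl, rfl, s1.uniq hd1 (s1.rot (s1.rot f1))⟩))
      · exact hc2 (Or.inr (Or.inr ⟨rfl, rfl, s2.uniq hc1 (s2.rot (s2.rot f2))⟩))
      · exact npq rfl
  · have key : ∀ x, x = a ∨ x = y ∨ x = o → x ∈ vs (glue a y o T₁ T₂) := by
      intro x hx
      have : x ∈ vs (T₂ \ rots y a o) := by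
        rcases hx with rfl | rfl | rfl <;> assumption
      obtain ⟨p, q, hpq⟩ := mem_vs.1 this
      exact mem_vs.2 ⟨p, q, mem_union_right _ hpq⟩
    ext x
    constructor
    · intro hx
      obtain ⟨p, q, hpq⟩ := mem_vs.1 hx
      rcases mem_union.1 hpq with h' | h'
      · exact mem_union_left _ (mem_vs.2 ⟨p, q, (mem_sdiff.1 h').1⟩)
      · exact mem_union_right _ (mem_vs.2 ⟨p, q, (mem_sdiff.1 h').1⟩)
    · intro hx
      rcases mem_union.1 hx with h' | h'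
      · obtain ⟨p, q, hpq⟩ := mem_vs.1 h'
        by_cases hr : (x, p, q) ∈ rots a y o
        · rw [mem_rots] at hr
          exact key x (by tauto)
        · exact mem_vs.2 ⟨p, q, mem_union_left _ (mem_sdiff.2 ⟨hpq, hr⟩)⟩
      · obtain ⟨p, q, hpq⟩ := mem_vs.1 h'
        by_cases hr : (x, p, q) ∈ rots y a o
        · rw [mem_rots] at hr
          exact key x (by tauto)
        · exact mem_vs.2 ⟨p, q, mem_union_right _ (mem_sdiff.2 ⟨hpq, hr⟩)⟩

omit [Infinite α] in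
/-- the two parts are disjoint -/
private theorem bs5_disj {T₁ T₂ : Finset (α × α × α)} (s1 : IsSurf T₁) (s2 : IsSurf T₂) {a y o : α}
    (f1 : (a, y, o) ∈ T₁) (f2 : (y, a, o) ∈ T₂)
    (hv : ∀ x ∈ vs T₁, x ∈ vs T₂ → x = a ∨ x = y ∨ x = o) {p q r s : α}
    (k1 : (p, q, r) ∈ T₁ \ rots a y o) (k2 : (p, q, s) ∈ T₂ \ rots y a o) : False := by
  rw [mem_sdiff, mem_rots] at k1 k2
  obtain ⟨hd1, hd2⟩ := k1
  obtain ⟨hc1, hc2⟩ := k2
  obtain ⟨k1, k2, -⟩ := mem_vs_of s2 hc1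
  obtain ⟨l1, l2, -⟩ := mem_vs_of s1 hd1
  have npq := s2.ne hc1
  rcases hv p l1 k1 with rfl | rfl | rfl <;> rcases hv q l2 k2 with rfl | rfl | rfl
  · exact npq rfl
  · exact hd2 (Or.inl ⟨rfl, rfl, s1.uniq hd1 f1⟩)
  · exact hc2 (Or.inr (Or.inl ⟨rfl, rfl, s2.uniq hc1 (s2.rot f2)⟩))
  · exact hc2 (Or.inl ⟨rfl, rfl, s2.uniq hc1 f2⟩)
  · exact npq rfl
  · exact hd2 (Or.inr (Or.inl ⟨rfl, rfl, s1.uniq hd1 (s1.rot f1)⟩))
  · exact hd2 (Or.inr (Or.inr ⟨rfl, rfl, s1.uniq hd1 (s1.rot (s1.rot f1))⟩))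
  · exact hc2 (Or.inr (Or.inr ⟨rfl, rfl, s2.uniq hc1 (s2.rot (s2.rot f2))⟩))
  · exact npq rfl

/-- the darts at which one passes from the first part to the second -/
private def bs5_c (a y o p q : α) : Prop := (p = y ∧ q = a) ∨ (p = a ∧ q = o) ∨ (p = o ∧ q = y)

omit [Infinite α] in
/-- crossing a side from the first part -/
private theorem bs5_cross1 {T₁ T₂ : Finset (α × α × α)} (s1 : IsSurf T₁) (s2 : IsSurf T₂)
    {a y o : α} (f1 : (a, y, o) ∈ T₁) (f2 : (y, a, o) ∈ T₂)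
    (hT : IsSurf (glue a y o T₁ T₂)) {p q r s : α}
    (k : (p, q, r) ∈ T₁ \ rots a y o) (k' : (q, p, s) ∈ glue a y o T₁ T₂) :
    (bs5_c a y o p q → (q, p, s) ∈ T₂ \ rots y a o) ∧
      (¬ bs5_c a y o p q → (q, p, s) ∈ T₁ \ rots a y o) := by
  obtain ⟨n1, n2, n3⟩ := ne3 s1 f1
  constructor
  · intro hc
    have g : ∃ d, (q, p, d) ∈ T₂ \ rots y a o := by
      rcases hc with ⟨rfl, rfl⟩ | ⟨rfl, rfl⟩ | ⟨rfl, rfl⟩
      · obtain ⟨d, hd⟩ := s2.opp f2
        refine ⟨d, mem_sdiff.2 ⟨hd, fun hm => ?_⟩⟩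
        rw [mem_rots] at hm
        rcases hm with ⟨e1, -, -⟩ | ⟨-, e2, -⟩ | ⟨e1, -, -⟩
        · exact n1 e1
        · exact n2 e2
        · exact n3 e1.symm
      · obtain ⟨d, hd⟩ := s2.opp (s2.rot f2)
        refine ⟨d, mem_sdiff.2 ⟨hd, fun hm => ?_⟩⟩
        rw [mem_rots] at hm
        rcases hm with ⟨e1, -, -⟩ | ⟨e1, -, -⟩ | ⟨-, e2, -⟩
        · exact n2 e1.symm
        · exact n3 e1
        · exact n1 e2
      · obtain ⟨d, hd⟩ := s2.opp (s2.rot (s2.rot f2))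
        refine ⟨d, mem_sdiff.2 ⟨hd, fun hm => ?_⟩⟩
        rw [mem_rots] at hm
        rcases hm with ⟨-, e2, -⟩ | ⟨e1, -, -⟩ | ⟨e1, -, -⟩
        · exact n3 e2
        · exact n1 e1.symm
        · exact n2 e1
    obtain ⟨d, hd⟩ := g
    have := hT.uniq k' (mem_union_right _ hd)
    rwa [this]
  · intro hc
    obtain ⟨d, hd⟩ := s1.opp (mem_sdiff.1 k).1
    have hd' : (q, p, d) ∈ T₁ \ rots a y o := by
      refine mem_sdiff.2 ⟨hd, fun hm => hc ?_⟩
      rw [mem_rots] at hm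
      rcases hm with ⟨rfl, rfl, -⟩ | ⟨rfl, rfl, -⟩ | ⟨rfl, rfl, -⟩
      · exact Or.inl ⟨rfl, rfl⟩
      · exact Or.inr (Or.inr ⟨rfl, rfl⟩)
      · exact Or.inr (Or.inl ⟨rfl, rfl⟩)
    have := hT.uniq k' (mem_union_left _ hd')
    rwa [this]

omit [Infinite α] in
/-- crossing a side from the second part -/
private theorem bs5_cross2 {T₁ T₂ : Finset (α × α × α)} (s1 : IsSurf T₁) (s2 : IsSurf T₂)
    {a y o : α} (f1 : (a, y, o) ∈ T₁) (f2 : (y, a, o) ∈ T₂)
    (hT : IsSurf (glue a y o T₁ T₂)) {p q r s : α}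
    (k : (p, q, r) ∈ T₂ \ rots y a o) (k' : (q, p, s) ∈ glue a y o T₁ T₂) :
    (bs5_c y a o p q → (q, p, s) ∈ T₁ \ rots a y o) ∧
      (¬ bs5_c y a o p q → (q, p, s) ∈ T₂ \ rots y a o) := by
  have hg : glue a y o T₁ T₂ = glue y a o T₂ T₁ := union_comm _ _
  rw [hg] at hT k'
  exact bs5_cross1 s2 s1 f2 f1 hT k k'

omit [Infinite α] in
private theorem bs5_rec {T : Finset (α × α × α)} (h : IsSurf T) {a b c : α}
    (f : (a, b, c) ∈ T) : T = (T \ rots a b c) ∪ rots a b c :=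
  (sdiff_union_of_subset (rots_sub h f)).symm

/-- The two pieces are determined by the result.
PROOF.  Let `T` be the result, `R = T₁ \ rots a y o`, `S = T₂ \ rots y a o`, `R' , S'` the same for `T₁', T₂'`.  `T` is the disjoint union of `R`
and `S` (a common face would have vertices `a, y, o`, and `R` contains neither `rots a y o`, `S` not `rots y a o`).  `D = (R ∩ R') ∪ (S ∩ S')` is closed under
rotation and under crossing sides: if `(x,z,w) ∈ R`, `(z,x,w') ∈ T` then `(z,x,w') ∈ R` unless `(x,z)` is one of `(y,a), (a,o), (o,y)`, and in this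
case `(z,x,w') ∈ S`; the same for `R', S'`.  `D` is nonempty: the face of `T` at the dart `(y,a)` is in `R` and in `R'`.  By
`closed_sub`, `D = T`, so `R = R'`, `S = S'`, `T₁ = R ∪ rots a y o = T₁'`, `T₂ = T₂'`. -/
theorem glue_unique {T₁ T₂ T₁' T₂' : Finset (α × α × α)} (h1 : IsTri T₁) (h2 : IsTri T₂)
    (h1' : IsTri T₁') (h2' : IsTri T₂') {a y o : α}
    (f1 : (a, y, o) ∈ T₁) (f2 : (y, a, o) ∈ T₂) (f1' : (a, y, o) ∈ T₁') (f2' : (y, a, o) ∈ T₂')
    (hv : ∀ x ∈ vs T₁, x ∈ vs T₂ → x = a ∨ x = y ∨ x = o)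
    (hv' : ∀ x ∈ vs T₁', x ∈ vs T₂' → x = a ∨ x = y ∨ x = o)
    (he : glue a y o T₁ T₂ = glue a y o T₁' T₂') : T₁ = T₁' ∧ T₂ = T₂' := by
  have s1 := h1.toIsSurf
  have s2 := h2.toIsSurf
  have s1' := h1'.toIsSurf
  have s2' := h2'.toIsSurf
  have hT : IsSurf (glue a y o T₁ T₂) := (glue_tri h1 h2 f1 f2 hv).1.toIsSurf
  have hT' : IsSurf (glue a y o T₁' T₂') := (glue_tri h1' h2' f1' f2' hv').1.toIsSurf
  set R := T₁ \ rots a y o with hR
  set S := T₂ \ rots y a o with hS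
  set R' := T₁' \ rots a y o with hR'
  set S' := T₂' \ rots y a o with hS'
  have rR : RotC R := bs5_rotC_sdiff s1 a y o
  have rS : RotC S := bs5_rotC_sdiff s2 y a o
  have rR' : RotC R' := bs5_rotC_sdiff s1' a y o
  have rS' : RotC S' := bs5_rotC_sdiff s2' y a o
  have hD : (R ∩ R') ∪ (S ∩ S') = glue a y o T₁ T₂ := by
    refine closed_sub hT ?_ ?_ ?_ ?_
    · intro t ht
      rcases mem_union.1 ht with h | h
      · exact mem_union_left _ (mem_inter.1 h).1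
      · exact mem_union_right _ (mem_inter.1 h).1
    · obtain ⟨⟨d, hd⟩, -⟩ := bs5_vs (a := y) (y := a) (o := o) s1 f1
      obtain ⟨⟨d', hd'⟩, -⟩ := bs5_vs (a := y) (y := a) (o := o) s1' f1'
      have g1 : (y, a, d) ∈ glue a y o T₁ T₂ := mem_union_left _ hd
      have g2 : (y, a, d') ∈ glue a y o T₁ T₂ := by
        rw [he]
        exact mem_union_left _ hd'
      have := hT.uniq g1 g2
      subst this
      exact ⟨_, mem_union_left _ (mem_inter.2 ⟨hd, hd'⟩)⟩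
    · intro p q r h
      rcases mem_union.1 h with h | h
      · exact mem_union_left _ (mem_inter.2 ⟨rR (mem_inter.1 h).1, rR' (mem_inter.1 h).2⟩)
      · exact mem_union_right _ (mem_inter.2 ⟨rS (mem_inter.1 h).1, rS' (mem_inter.1 h).2⟩)
    · intro p q r s h hs
      have hs' : (q, p, s) ∈ glue a y o T₁' T₂' := by rw [← he]; exact hs
      rcases mem_union.1 h with h | h
      · obtain ⟨m1, m2⟩ := mem_inter.1 h
        have c1 := bs5_cross1 s1 s2 f1 f2 hT m1 hs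
        have c2 := bs5_cross1 s1' s2' f1' f2' hT' m2 hs'
        by_cases hc : bs5_c a y o p q
        · exact mem_union_right _ (mem_inter.2 ⟨c1.1 hc, c2.1 hc⟩)
        · exact mem_union_left _ (mem_inter.2 ⟨c1.2 hc, c2.2 hc⟩)
      · obtain ⟨m1, m2⟩ := mem_inter.1 h
        have c1 := bs5_cross2 s1 s2 f1 f2 hT m1 hs
        have c2 := bs5_cross2 s1' s2' f1' f2' hT' m2 hs'
        by_cases hc : bs5_c y a o p q
        · exact mem_union_left _ (mem_inter.2 ⟨c1.1 hc, c2.1 hc⟩)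
        · exact mem_union_right _ (mem_inter.2 ⟨c1.2 hc, c2.2 hc⟩)
  have eR : R = R' := by
    apply Subset.antisymm
    · rintro ⟨p, q, r⟩ ht
      have : (p, q, r) ∈ (R ∩ R') ∪ (S ∩ S') := by
        rw [hD]
        exact mem_union_left _ ht
      rcases mem_union.1 this with h | h
      · exact (mem_inter.1 h).2
      · exact (bs5_disj s1 s2 f1 f2 hv ht (mem_inter.1 h).1).elim
    · rintro ⟨p, q, r⟩ ht
      have : (p, q, r) ∈ (R ∩ R') ∪ (S ∩ S') := by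
        rw [hD, he]
        exact mem_union_left _ ht
      rcases mem_union.1 this with h | h
      · exact (mem_inter.1 h).1
      · exact (bs5_disj s1' s2' f1' f2' hv' ht (mem_inter.1 h).2).elim
  have eS : S = S' := by
    apply Subset.antisymm
    · rintro ⟨p, q, r⟩ ht
      have : (p, q, r) ∈ (R ∩ R') ∪ (S ∩ S') := by
        rw [hD]
        exact mem_union_right _ ht
      rcases mem_union.1 this with h | h
      · exact (bs5_disj s1 s2 f1 f2 hv (mem_inter.1 h).1 ht).elim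
      · exact (mem_inter.1 h).2
    · rintro ⟨p, q, r⟩ ht
      have : (p, q, r) ∈ (R ∩ R') ∪ (S ∩ S') := by
        rw [hD, he]
        exact mem_union_right _ ht
      rcases mem_union.1 this with h | h
      · exact (bs5_disj s1' s2' f1' f2' hv' (mem_inter.1 h).2 ht).elim
      · exact (mem_inter.1 h).1
  constructor
  · rw [bs5_rec s1 f1, bs5_rec s1' f1', ← hR, ← hR', eR]
  · rw [bs5_rec s2 f2, bs5_rec s2' f2', ← hS, ← hS', eS]

end H19S.PB
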