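import Pool.Agent.Lib.H19S.BList1

/-!
# H19S part B, chunk BL3: surgery of polygons (lists)

All three are consequences of `path_append` and of the fact that in a nodup list no vertex has two
in-edges or two out-edges.  E.g. `cyc (a :: (s ++ y :: t)) = path (a :: s ++ [y]) ∪ path (y :: t ++ [a])`,
`cyc (a :: (s ++ [y])) = path (a :: s ++ [y]) ∪ {(y, a)}` and `(y, a) ∉ path (a :: s ++ [y])` since `a` is the first
element of this nodup list; `cyc (a :: y :: t) = {(a, y)} ∪ path (y :: t ++ [a])`, `(a, y) ∉ path (y :: t ++ [a])` since the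
first components of this path are `y :: t`.
-/

namespace H19S.PB

open Finset

variable {α : Type*} [DecidableEq α]

theorem bl3_snd {l : List α} {x z : α} (h : (x, z) ∈ path l) : z ∈ l.tail := by
  obtain ⟨i, _, h2⟩ := bl1_mem_path_iff.1 h
  have : l.tail[i]? = some z := by rw [List.getElem?_tail]; exact h2
  exact List.mem_of_getElem? this

theorem bl3_snd' {a : α} {l : List α} {x z : α} (h : (x, z) ∈ path (a :: l)) : z ∈ l := by
  simpa using bl3_snd h

theorem bl3_cyc_split (a y : α) (s t : List α) :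
    cyc (a :: (s ++ y :: t)) = path (a :: (s ++ [y])) ∪ path (y :: (t ++ [a])) := by
  have e : cyc (a :: (s ++ y :: t)) = path ((a :: s) ++ y :: (t ++ [a])) := by
    rw [cyc]; congr 1; simp
  rw [e, path_append]
  rfl

theorem bl3_cyc_end (a y : α) (s : List α) :
    cyc (a :: (s ++ [y])) = insert (y, a) (path (a :: (s ++ [y]))) := by
  rw [bl3_cyc_split]
  have : path (y :: ([] ++ [a])) = {(y, a)} := by simp [path]
  rw [this, union_comm, insert_eq]

theorem bl3_cyc_cons (a y : α) (t : List α) :
    cyc (a :: y :: t) = insert (a, y) (path (y :: (t ++ [a]))) := by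
  rfl

theorem cyc_chord {a y : α} {s t : List α} (hl : (a :: (s ++ y :: t)).Nodup) :
    cyc (a :: (s ++ y :: t)) =
      (cyc (a :: (s ++ [y]))).erase (y, a) ∪ (cyc (a :: y :: t)).erase (a, y) := by
  have hl' := hl
  rw [List.nodup_cons, List.nodup_append] at hl
  obtain ⟨h1, h2, h3, h4⟩ := hl
  rw [List.nodup_cons] at h3
  have n1 : (y, a) ∉ path (a :: (s ++ [y])) := by
    intro h
    have := bl3_snd' h
    apply h1
    simp only [List.mem_append, List.mem_cons, List.not_mem_nil, or_false] at this ⊢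
    tauto
  have n2 : (a, y) ∉ path (y :: (t ++ [a])) := by
    intro h
    have := bl3_snd' h
    simp only [List.mem_append, List.mem_cons, List.not_mem_nil, or_false] at this
    rcases this with h | h
    · exact h3.1 h
    · apply h1
      rw [← h]
      simp
  rw [bl3_cyc_split, bl3_cyc_end, bl3_cyc_cons, erase_insert n1, erase_insert n2]

theorem cyc_chord_mem {a y : α} {s t : List α} :
    (y, a) ∈ cyc (a :: (s ++ [y])) ∧ (a, y) ∈ cyc (a :: y :: t) := by
  rw [bl3_cyc_end, bl3_cyc_cons]
  exact ⟨mem_insert_self _ _, mem_insert_self _ _⟩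

theorem cyc_insert {c0 c1 y : α} {l' : List α} (hl : (c0 :: y :: c1 :: l').Nodup) :
    cyc (c0 :: y :: c1 :: l') =
      insert (c0, y) (insert (y, c1) ((cyc (c0 :: c1 :: l')).erase (c0, c1))) ∧
    cyc (c0 :: c1 :: l') =
      insert (c0, c1) (((cyc (c0 :: y :: c1 :: l')).erase (c0, y)).erase (y, c1)) := by
  simp only [List.nodup_cons, List.mem_cons, not_or] at hl
  obtain ⟨⟨h1, h2, h3⟩, ⟨h4, h5⟩, h6, h7⟩ := hl
  have e1 : cyc (c0 :: y :: c1 :: l') =
      insert (c0, y) (insert (y, c1) (path (c1 :: (l' ++ [c0])))) := rfl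
  have e2 : cyc (c0 :: c1 :: l') = insert (c0, c1) (path (c1 :: (l' ++ [c0]))) := rfl
  have n1 : (c0, c1) ∉ path (c1 :: (l' ++ [c0])) := by
    intro h
    have := bl3_snd' h
    simp only [List.mem_append, List.mem_cons, List.not_mem_nil, or_false] at this
    rcases this with h | h
    · exact h6 h
    · exact h2 h.symm
  have n2 : (c0, y) ∉ insert (y, c1) (path (c1 :: (l' ++ [c0]))) := by
    rw [mem_insert, not_or]
    refine ⟨fun h => h1 (Prod.mk.inj h).1, fun h => ?_⟩
    have := bl3_snd' h
    simp only [List.mem_append, List.mem_cons, List.not_mem_nil, or_false] at this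
    rcases this with h | h
    · exact h5 h
    · exact h1 h.symm
  have n3 : (y, c1) ∉ path (c1 :: (l' ++ [c0])) := by
    intro h
    have := bl3_snd' h
    simp only [List.mem_append, List.mem_cons, List.not_mem_nil, or_false] at this
    rcases this with h | h
    · exact h6 h
    · exact h2 h.symm
  constructor
  · rw [e1, e2, erase_insert n1]
  · rw [e1, e2, erase_insert n2, erase_insert n3]

theorem cyc_ear {c0 c1 y : α} {s : List α} (hl : (c0 :: c1 :: (s ++ [y])).Nodup) :
    cyc (c1 :: (s ++ [y])) =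
      insert (y, c1) (((cyc (c0 :: c1 :: (s ++ [y]))).erase (y, c0)).erase (c0, c1)) ∧
    cyc (c0 :: c1 :: (s ++ [y])) =
      insert (y, c0) (insert (c0, c1) ((cyc (c1 :: (s ++ [y]))).erase (y, c1))) := by
  simp only [List.nodup_cons, List.mem_cons, not_or, List.mem_append, List.not_mem_nil,
    or_false] at hl
  obtain ⟨⟨h1, h2, h3⟩, ⟨h4, h5⟩, h6⟩ := hl
  have e1 : cyc (c0 :: c1 :: (s ++ [y])) =
      insert (y, c0) (insert (c0, c1) (path (c1 :: (s ++ [y])))) := by
    have := bl3_cyc_end c0 y (c1 :: s)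
    simpa [path] using this
  have e2 : cyc (c1 :: (s ++ [y])) = insert (y, c1) (path (c1 :: (s ++ [y]))) :=
    bl3_cyc_end c1 y s
  have m : ∀ x z, (x, z) ∈ path (c1 :: (s ++ [y])) → z ∈ s ∨ z = y := by
    intro x z h
    simpa using bl3_snd' h
  have n1 : (y, c0) ∉ insert (c0, c1) (path (c1 :: (s ++ [y]))) := by
    rw [mem_insert, not_or]
    refine ⟨fun h => h3 (Prod.mk.inj h).1.symm, fun h => ?_⟩
    rcases m _ _ h with h | h
    · exact h2 h
    · exact h3 h
  have n2 : (c0, c1) ∉ path (c1 :: (s ++ [y])) := by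
    intro h
    rcases m _ _ h with h | h
    · exact h4 h
    · exact h5 h
  have n3 : (y, c1) ∉ path (c1 :: (s ++ [y])) := by
    intro h
    rcases m _ _ h with h | h
    · exact h4 h
    · exact h5 h
  constructor
  · rw [e1, e2, erase_insert n1, erase_insert n2]
  · rw [e1, e2, erase_insert n3]

end H19S.PB
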