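import Pool.Agent.Lib.H19S.BTF
import Pool.Agent.Lib.H19S.BGlue
import Pool.Agent.Lib.H19S.BList3

/-!
# H19S part B, chunk BT2: gluing fillings along a chord

PROOF.  `(y, a) ∈ cyc (a :: (s ++ [y])) = lk T₁ o`, so `(a, y, o) ∈ T₁`; `(a, y) ∈ cyc (a :: y :: t) = lk T₂ o`, so `(y, a, o) ∈ T₂`
(`cyc_chord_mem`).  The common vertices are `a, y, o` (`s`, `t`, `I₁`, `I \ I₁`, `{a, y, o}` are pairwise disjoint).  `glue_tri` gives `IsTri` and the vertex set.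
`lk (glue ..) o = (lk T₁ o).erase (y, a) ∪ (lk T₂ o).erase (a, y)`: the only element `(x, z, o)` of `rots a y o` is `(a, y, o)` (as `o ≠ a, y`), and the only
one of `rots y a o` is `(y, a, o)`; then `cyc_chord`.  `Adj`: `(y, a, o) ∈ T₂`, by `opp` `(a, y, d) ∈ T₂`, not in `rots y a o`.
-/

namespace H19S.PB

open Finset

variable {α : Type*} [DecidableEq α] [Infinite α]

theorem BT2_lk_glue {o a y : α} {T₁ T₂ : Finset (α × α × α)} (hoa : o ≠ a) (hoy : o ≠ y) :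
    lk (glue a y o T₁ T₂) o = (lk T₁ o).erase (y, a) ∪ (lk T₂ o).erase (a, y) := by
  ext ⟨x, z⟩
  simp only [mem_lk, glue, mem_union, mem_sdiff, mem_rots, mem_erase, ne_eq, Prod.mk.injEq]
  constructor
  · rintro (⟨h, h'⟩ | ⟨h, h'⟩)
    · exact Or.inl ⟨fun hh => h' (Or.inl ⟨hh.2, hh.1, trivial⟩), h⟩
    · exact Or.inr ⟨fun hh => h' (Or.inl ⟨hh.2, hh.1, trivial⟩), h⟩
  · rintro (⟨h, h'⟩ | ⟨h, h'⟩)
    · refine Or.inl ⟨h', ?_⟩
      rintro (⟨h1, h2, -⟩ | ⟨-, -, h3⟩ | ⟨-, -, h3⟩)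
      · exact h ⟨h2, h1⟩
      · exact hoa h3
      · exact hoy h3
    · refine Or.inr ⟨h', ?_⟩
      rintro (⟨h1, h2, -⟩ | ⟨-, -, h3⟩ | ⟨-, -, h3⟩)
      · exact h ⟨h2, h1⟩
      · exact hoy h3
      · exact hoa h3

theorem glue_mem {o a y : α} {s t : List α} {I I₁ : Finset α}
    (hl : (a :: (s ++ y :: t)).Nodup) (hI : Disjoint I (a :: (s ++ y :: t)).toFinset)
    (ho : o ∉ (a :: (s ++ y :: t)).toFinset ∪ I) (hI₁ : I₁ ⊆ I) {T₁ T₂ : Finset (α × α × α)}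
    (h1 : T₁ ∈ TF o (a :: (s ++ [y])) I₁) (h2 : T₂ ∈ TF o (a :: y :: t) (I \ I₁)) :
    ((a, y, o) ∈ T₁ ∧ (y, a, o) ∈ T₂ ∧ ∀ x ∈ vs T₁, x ∈ vs T₂ → x = a ∨ x = y ∨ x = o) ∧
    glue a y o T₁ T₂ ∈ TF o (a :: (s ++ y :: t)) I ∧ Adj (glue a y o T₁ T₂) a y := by
  rw [mem_TF] at h1 h2 ⊢
  obtain ⟨t1, v1, l1⟩ := h1
  obtain ⟨t2, v2, l2⟩ := h2
  have f1 : (a, y, o) ∈ T₁ := by
    rw [← mem_lk, l1]; exact (cyc_chord_mem (t := t)).1
  have f2 : (y, a, o) ∈ T₂ := by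
    rw [← mem_lk, l2]; exact (cyc_chord_mem (s := s)).2
  have hoa : o ≠ a := by
    rintro rfl
    exact ho (by simp)
  have hoy : o ≠ y := by
    rintro rfl
    exact ho (by simp)
  have hay : a ≠ y := by
    rintro rfl
    simp at hl
  have hmI : ∀ x ∈ I, x ≠ a ∧ x ∉ s ∧ x ≠ y ∧ x ∉ t := by
    intro x hx
    have := Finset.disjoint_left.1 hI hx
    simp only [List.toFinset_cons, List.toFinset_append, mem_insert, mem_union,
      List.mem_toFinset, not_or] at this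
    exact ⟨this.1, this.2.1, this.2.2.1, this.2.2.2⟩
  have hst : ∀ x ∈ s, x ∉ t := by
    intro x hx hx'
    rw [List.nodup_cons, List.nodup_append] at hl
    exact hl.2.2.2 x hx x (List.mem_cons_of_mem _ hx') rfl
  have hmo : o ∉ s ∧ o ∉ t ∧ o ∉ I := by
    simp only [List.toFinset_cons, List.toFinset_append, mem_insert, mem_union,
      List.mem_toFinset, not_or] at ho
    exact ⟨ho.1.2.1, ho.1.2.2.2, ho.2⟩
  have hv : ∀ x ∈ vs T₁, x ∈ vs T₂ → x = a ∨ x = y ∨ x = o := by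
    intro x hx hx'
    rw [v1] at hx
    rw [v2] at hx'
    simp only [List.toFinset_cons, List.toFinset_append, mem_insert, mem_union,
      List.mem_toFinset, List.toFinset_nil, notMem_empty, or_false, mem_sdiff] at hx hx'
    rcases hx with rfl | (rfl | hx | rfl) | hx
    · exact Or.inr (Or.inr rfl)
    · exact Or.inl rfl
    · rcases hx' with rfl | (rfl | rfl | hx') | hx'
      · exact Or.inr (Or.inr rfl)
      · exact Or.inl rfl
      · exact Or.inr (Or.inl rfl)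
      · exact absurd hx' (hst x hx)
      · exact absurd hx (hmI x hx'.1).2.1
    · exact Or.inr (Or.inl rfl)
    · rcases hx' with rfl | (rfl | rfl | hx') | hx'
      · exact Or.inr (Or.inr rfl)
      · exact Or.inl rfl
      · exact Or.inr (Or.inl rfl)
      · exact absurd hx' (hmI x (hI₁ hx)).2.2.2
      · exact absurd hx hx'.2
  obtain ⟨g1, g2⟩ := glue_tri t1 t2 f1 f2 hv
  refine ⟨⟨f1, f2, hv⟩, ⟨g1, ?_, ?_⟩, ?_⟩
  · rw [g2, v1, v2]
    ext x
    simp only [List.toFinset_cons, List.toFinset_append, mem_insert, mem_union,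
      List.mem_toFinset, List.toFinset_nil, notMem_empty, or_false, mem_sdiff]
    have := @hI₁ x
    tauto
  · rw [BT2_lk_glue hoa hoy, l1, l2, cyc_chord hl]
  · obtain ⟨d, hd⟩ := t2.opp f2
    refine ⟨d, mem_union_right _ (mem_sdiff.2 ⟨hd, ?_⟩)⟩
    rw [mem_rots]
    rintro (⟨h, -, -⟩ | ⟨-, h, -⟩ | ⟨h, -, -⟩)
    · exact hay h
    · exact hoy h.symm
    · exact hoa h.symm

end H19S.PB
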