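import Pool.Agent.Lib.H19S.BList3

/-!
# H19S part B, chunk BL4: two orbits which make up a polygon with a chord

PROOF.  Let `C = cyc (a :: (s ++ y :: t))`.  Following `a, s, y` in `C`: claim every side of `path (a :: s ++ [y])` is in
`L1.erase (y, a)`.  The vertex `a` is in `vb L1`, so it has an out-edge `(a, x)` in `L1`; `(a, x) ≠ (y, a)` (as `a ≠ y`), so
`(a, x) ∈ C` and `x` is the successor of `a` in `C`.  Going on: if `x ≠ y` is reached then `x ∈ vb L1`, its out-edge in `L1` is
not `(y, a)` and therefore it is its out-edge in `C`.  We reach `y` after the elements of `s`.  So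
`path (a :: s ++ [y]) ⊆ L1`, i.e. `cyc (a :: (s ++ [y])) ⊆ L1`.  Conversely `L1` has unique out-edges, and the
set of vertices `a :: s ++ [y]` is closed under the out-edges of `L1`, so by `orbit` it contains all the vertices of `L1`:
`L1 = cyc (a :: (s ++ [y]))`.  The same with `y, t, a` and `L2` (out-edge of `y` in `L2` is `≠ (a, y)`, hence in `C`, etc.).
(No disjointness of the vertex sets is needed: `C` has unique out-edges.)
-/

namespace H19S.PB

open Finset

variable {α : Type*} [DecidableEq α]

theorem bl4_out {L : Finset (α × α)} (h : IsOrb L) {a b : α} (hab : (a, b) ∈ L) :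
    ∃ c, (b, c) ∈ L := by
  have := h.orbit hab hab
  rcases Relation.ReflTransGen.cases_head this with h1 | ⟨c, h1, _⟩
  · exact ⟨b, by rw [h1] at hab ⊢; exact hab⟩
  · exact ⟨c, h1⟩

theorem bl4_eq {L : Finset (α × α)} {l : List α} (h : IsOrb L) (hs : cyc l ⊆ L)
    {p q : α} (hpq : (p, q) ∈ cyc l) : L = cyc l := by
  have hmem : ∀ x ∈ l, ∃ y, (x, y) ∈ cyc l := by
    intro x hx
    obtain ⟨i, hi, h1⟩ := List.mem_iff_getElem.1 hx
    have h0 : 0 < l.length := by omega
    have hj : (i + 1) % l.length < l.length := Nat.mod_lt _ h0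
    exact ⟨l[(i + 1) % l.length], bl1_mem_cyc_iff.2
      ⟨i, hi, by rw [List.getElem?_eq_getElem hi, h1], List.getElem?_eq_getElem hj⟩⟩
  have hmem2 : ∀ {x y : α}, (x, y) ∈ cyc l → y ∈ l := by
    intro x y hxy
    obtain ⟨i, _, _, h1⟩ := bl1_mem_cyc_iff.1 hxy
    exact List.mem_of_getElem? h1
  have hout : ∀ {x y : α}, x ∈ l → (x, y) ∈ L → (x, y) ∈ cyc l := by
    intro x y hx hxy
    obtain ⟨z, hz⟩ := hmem x hx
    have := h.outu hxy (hs hz)
    rw [this]
    exact hz
  apply Subset.antisymm _ hs
  rintro ⟨c, d⟩ hcd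
  have hr := h.orbit (hs hpq) hcd
  have hc : c ∈ l := by
    clear hcd
    induction hr with
    | refl => exact hmem2 hpq
    | tail _ h2 ih => exact hmem2 (hout ih h2)
  exact hout hc hcd

theorem bl4_half {L C : Finset (α × α)} {a y : α} {s : List α} (hl : (a :: (s ++ [y])).Nodup)
    (h : IsOrb L) (hC : ∀ {p q r : α}, (p, q) ∈ C → (p, r) ∈ C → q = r) (m : (y, a) ∈ L)
    (hLC : L.erase (y, a) ⊆ C) (hp : path (a :: (s ++ [y])) ⊆ C) :
    L = cyc (a :: (s ++ [y])) := by
  have hlast : (a :: (s ++ [y]))[s.length + 1]? = some y := by simp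
  have hlen : (a :: (s ++ [y])).length = s.length + 2 := by simp
  have step : ∀ (i : ℕ) (x z : α), (a :: (s ++ [y]))[i]? = some x → (a :: (s ++ [y]))[i + 1]? = some z →
      (∃ w, (w, x) ∈ L) → (x, z) ∈ L := by
    rintro i x z h1 h2 ⟨w, hw⟩
    obtain ⟨z', hz'⟩ := bl4_out h hw
    have hxy : x ≠ y := by
      rintro rfl
      have := bl1_inj hl h1 hlast
      subst this
      rw [List.getElem?_eq_none (by rw [hlen])] at h2
      exact absurd h2 (by simp)
    have h3 : (x, z') ∈ C := hLC (mem_erase.2 ⟨fun e => hxy (Prod.mk.inj e).1, hz'⟩)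
    have h4 : (x, z) ∈ C := hp (bl1_mem_path_iff.2 ⟨i, h1, h2⟩)
    rw [hC h4 h3]
    exact hz'
  have key : ∀ (i : ℕ) (x : α), (a :: (s ++ [y]))[i]? = some x → ∃ w, (w, x) ∈ L := by
    intro i
    induction i with
    | zero =>
      intro x hx
      have : a = x := by simpa using hx
      exact ⟨y, this ▸ m⟩
    | succ i ih =>
      intro z hz
      obtain ⟨hi, _⟩ := List.getElem?_eq_some_iff.1 hz
      have hi' : i < (a :: (s ++ [y])).length := by omega
      have hx := List.getElem?_eq_getElem hi'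
      exact ⟨_, step i _ z hx hz (ih _ hx)⟩
  apply bl4_eq h (p := y) (q := a)
  · rw [bl3_cyc_end]
    intro e he
    rw [mem_insert] at he
    rcases he with rfl | he
    · exact m
    · obtain ⟨x, z⟩ := e
      obtain ⟨i, h1, h2⟩ := bl1_mem_path_iff.1 he
      exact step i x z h1 h2 (key i x h1)
  · rw [bl3_cyc_end]
    exact mem_insert_self _ _

theorem split_cyc {L1 L2 : Finset (α × α)} {a y : α} {s t : List α}
    (hl : (a :: (s ++ y :: t)).Nodup) (h1 : IsOrb L1) (h2 : IsOrb L2) (m1 : (y, a) ∈ L1)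
    (m2 : (a, y) ∈ L2) (h : L1.erase (y, a) ∪ L2.erase (a, y) = cyc (a :: (s ++ y :: t))) :
    L1 = cyc (a :: (s ++ [y])) ∧ L2 = cyc (a :: y :: t) := by
  have hs := bl3_cyc_split a y s t
  have hout := fun {p q r : α} => (cyc_orb hl).outu (a := p) (b := q) (c := r)
  have nd1 : (a :: (s ++ [y])).Nodup := by
    refine List.Nodup.sublist ?_ hl
    apply List.Sublist.cons_cons
    apply List.Sublist.append (List.Sublist.refl _)
    simp
  have nd2 : (y :: (t ++ [a])).Nodup := by
    have : (a :: y :: t).Nodup := by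
      refine List.Nodup.sublist ?_ hl
      apply List.Sublist.cons_cons
      exact List.sublist_append_right s (y :: t)
    have hp : (y :: (t ++ [a])).Perm (a :: y :: t) := by
      have := (List.perm_append_comm (l₁ := y :: t) (l₂ := [a]))
      simpa using this
    exact hp.nodup_iff.2 this
  constructor
  · apply bl4_half nd1 h1 hout m1
    · rw [← h]; exact subset_union_left
    · rw [hs]; exact subset_union_left
  · have := bl4_half nd2 h2 hout m2 (by rw [← h]; exact subset_union_right)
      (by rw [hs]; exact subset_union_right)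
    rw [this, bl3_cyc_end, bl3_cyc_cons]

end H19S.PB
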