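import Pool.Agent.Lib.H19S.BTF
import Pool.Agent.Lib.H19S.BGlue
import Pool.Agent.Lib.H19S.BCut
import Pool.Agent.Lib.H19S.BList4

/-!
# H19S part B, chunk BT3: cutting a filling along a chord

PROOF.  `a` and `y` are in `cyc = lk T o`, so both are adjacent to `o`.  `cut3_tri` gives `T₁, T₂` with `glue a y o T₁ T₂ = T`; by `glue_tri`
`vs T = vs T₁ ∪ vs T₂`.  `L₁ = lk T₁ o`, `L₂ = lk T₂ o` are orbits (`lk_orb`), `(y,a) ∈ L₁`, `(a,y) ∈ L₂`,
`L₁.erase (y,a) ∪ L₂.erase (a,y) = lk T o = cyc (a :: (s ++ y :: t))`.  `split_cyc` gives `L₁`, `L₂`.  Put `I₁ = I ∩ vs T₁`.  The elements of `s`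
are in `vs T₁` (they are in `L₁`), those of `t` in `vs T₂`; `vs T₁ ∩ vs T₂ = {a, y, o}` and `vs T₁ ∪ vs T₂ = insert o (.. ∪ I)` give
`vs T₁ = insert o ((a :: (s ++ [y])).toFinset ∪ I₁)`, `vs T₂ = insert o ((a :: y :: t).toFinset ∪ (I \ I₁))`.
-/

namespace H19S.PB

open Finset

variable {α : Type*} [DecidableEq α] [Infinite α]

theorem BT3_lk_glue {o a y : α} {T₁ T₂ : Finset (α × α × α)} (hoa : o ≠ a) (hoy : o ≠ y) :
    lk (glue a y o T₁ T₂) o = (lk T₁ o).erase (y, a) ∪ (lk T₂ o).erase (a, y) := by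
  ext ⟨x, z⟩
  simp only [mem_lk, glue, mem_union, mem_sdiff, mem_rots, mem_erase, ne_eq, Prod.mk.injEq]
  constructor
  · rintro (⟨h, h'⟩ | ⟨h, h'⟩)
    · exact Or.inl ⟨fun hh => h' (Or.inl ⟨hh.2, hh.1, trivial⟩), h⟩
    · exact Or.inr ⟨fun hh => h' (Or.inl ⟨hh.2, hh.1, trivial⟩), h⟩
  · rintro (⟨h, h'⟩ | ⟨h, h'⟩)
    · refine Or.inl ⟨h', ?_⟩
      rintro (⟨h1, h2, -⟩ | ⟨-, -, h3⟩ | ⟨-, -, h3⟩)
      · exact h ⟨h2, h1⟩
      · exact hoa h3
      · exact hoy h3
    · refine Or.inr ⟨h', ?_⟩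
      rintro (⟨h1, h2, -⟩ | ⟨-, -, h3⟩ | ⟨-, -, h3⟩)
      · exact h ⟨h2, h1⟩
      · exact hoy h3
      · exact hoa h3

theorem BT3_adj_of_vb {T : Finset (α × α × α)} (h : IsSurf T) {o x : α} (hx : x ∈ vb (lk T o)) :
    Adj T o x := by
  simp only [vb, mem_union, mem_image, Prod.exists, exists_and_right, exists_eq_right] at hx
  rcases hx with ⟨z, hz⟩ | ⟨z, hz⟩
  · rw [mem_lk] at hz
    exact adj_symm h ⟨z, h.rot hz⟩
  · rw [mem_lk] at hz
    exact ⟨z, h.rot (h.rot hz)⟩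

theorem BT3_mem_of_vb {T : Finset (α × α × α)} (h : IsSurf T) {o x : α} (hx : x ∈ vb (lk T o)) :
    x ∈ vs T ∧ o ∈ vs T := by
  obtain ⟨z, hz⟩ := BT3_adj_of_vb h hx
  have := mem_vs_of h hz
  exact ⟨this.2.1, this.1⟩

theorem cut_mem {o a y : α} {s t : List α} {I : Finset α}
    (hl : (a :: (s ++ y :: t)).Nodup) (hI : Disjoint I (a :: (s ++ y :: t)).toFinset)
    (ho : o ∉ (a :: (s ++ y :: t)).toFinset ∪ I) {T : Finset (α × α × α)}
    (hT : T ∈ TF o (a :: (s ++ y :: t)) I) (hay : Adj T a y) :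
    ∃ I₁ ⊆ I, ∃ T₁ ∈ TF o (a :: (s ++ [y])) I₁, ∃ T₂ ∈ TF o (a :: y :: t) (I \ I₁),
      glue a y o T₁ T₂ = T := by
  rw [mem_TF] at hT
  obtain ⟨tT, vT, lT⟩ := hT
  have hoa : o ≠ a := by
    rintro rfl
    exact ho (by simp)
  have hoy : o ≠ y := by
    rintro rfl
    exact ho (by simp)
  have hay' : a ≠ y := by
    rintro rfl
    simp at hl
  have hmI : ∀ x ∈ I, x ≠ a ∧ x ∉ s ∧ x ≠ y ∧ x ∉ t := by
    intro x hx
    have := Finset.disjoint_left.1 hI hx
    simp only [List.toFinset_cons, List.toFinset_append, mem_insert, mem_union,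
      List.mem_toFinset, not_or] at this
    exact ⟨this.1, this.2.1, this.2.2.1, this.2.2.2⟩
  have hls : ∀ x ∈ s, x ≠ a ∧ x ≠ y := by
    intro x hx
    rw [List.nodup_cons, List.nodup_append] at hl
    refine ⟨?_, hl.2.2.2 x hx y List.mem_cons_self⟩
    rintro rfl
    exact hl.1 (List.mem_append_left _ hx)
  have hlt : ∀ x ∈ t, x ≠ a ∧ x ≠ y := by
    intro x hx
    rw [List.nodup_cons, List.nodup_append] at hl
    refine ⟨?_, ?_⟩
    · rintro rfl
      exact hl.1 (List.mem_append_right _ (List.mem_cons_of_mem _ hx))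
    · rintro rfl
      exact (List.nodup_cons.1 hl.2.2.1).1 hx
  have hmo : o ∉ s ∧ o ∉ t ∧ o ∉ I := by
    simp only [List.toFinset_cons, List.toFinset_append, mem_insert, mem_union,
      List.mem_toFinset, not_or] at ho
    exact ⟨ho.1.2.1, ho.1.2.2.2, ho.2⟩
  have hva : a ∈ vb (lk T o) := by rw [lT, vb_cyc]; simp
  have hvy : y ∈ vb (lk T o) := by rw [lT, vb_cyc]; simp
  obtain ⟨T₁, T₂, t1, t2, f1, f2, hv, hg⟩ := cut3_tri tT hay
    (adj_symm tT.toIsSurf (BT3_adj_of_vb tT.toIsSurf hvy)) (BT3_adj_of_vb tT.toIsSurf hva)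
  have hvg := (glue_tri t1 t2 f1 f2 hv).2
  rw [hg] at hvg
  have hL := BT3_lk_glue (T₁ := T₁) (T₂ := T₂) hoa hoy
  rw [hg, lT] at hL
  obtain ⟨l1, l2⟩ := split_cyc hl (lk_orb t1.toIsSurf o) (lk_orb t2.toIsSurf o)
    (mem_lk.2 f1) (mem_lk.2 f2) hL.symm
  have hb1 : ∀ x ∈ (a :: (s ++ [y])).toFinset, x ∈ vs T₁ := by
    intro x hx
    rw [← vb_cyc, ← l1] at hx
    exact (BT3_mem_of_vb t1.toIsSurf hx).1
  have hb2 : ∀ x ∈ (a :: y :: t).toFinset, x ∈ vs T₂ := by
    intro x hx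
    rw [← vb_cyc, ← l2] at hx
    exact (BT3_mem_of_vb t2.toIsSurf hx).1
  have ho1 : o ∈ vs T₁ := (mem_vs_of t1.toIsSurf f1).2.2
  have ho2 : o ∈ vs T₂ := (mem_vs_of t2.toIsSurf f2).2.2
  refine ⟨I.filter (· ∈ vs T₁), filter_subset _ _, T₁, ?_, T₂, ?_, hg⟩
  · rw [mem_TF]
    refine ⟨t1, ?_, l1⟩
    ext x
    constructor
    · intro hx
      have hx' : x ∈ vs T := by rw [hvg]; exact mem_union_left _ hx
      rw [vT] at hx'
      simp only [List.toFinset_cons, List.toFinset_append, mem_insert, mem_union,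
        List.mem_toFinset, List.toFinset_nil, notMem_empty, or_false, mem_filter] at hx' ⊢
      rcases hx' with rfl | (rfl | h | rfl | h) | h
      · exact Or.inl rfl
      · exact Or.inr (Or.inl (Or.inl rfl))
      · exact Or.inr (Or.inl (Or.inr (Or.inl h)))
      · exact Or.inr (Or.inl (Or.inr (Or.inr rfl)))
      · exfalso
        rcases hv x hx (hb2 x (by simp [h])) with rfl | rfl | rfl
        · exact (hlt _ h).1 rfl
        · exact (hlt _ h).2 rfl
        · exact hmo.2.1 h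
      · exact Or.inr (Or.inr ⟨h, hx⟩)
    · intro hx
      rw [mem_insert, mem_union, mem_filter] at hx
      rcases hx with rfl | hx | hx
      · exact ho1
      · exact hb1 x hx
      · exact hx.2
  · rw [mem_TF]
    refine ⟨t2, ?_, l2⟩
    ext x
    constructor
    · intro hx
      have hx' : x ∈ vs T := by rw [hvg]; exact mem_union_right _ hx
      rw [vT] at hx'
      simp only [List.toFinset_cons, List.toFinset_append, mem_insert, mem_union,
        List.mem_toFinset, mem_filter, mem_sdiff, not_and] at hx' ⊢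
      rcases hx' with rfl | (rfl | h | rfl | h) | h
      · exact Or.inl rfl
      · exact Or.inr (Or.inl (Or.inl rfl))
      · exfalso
        rcases hv x (hb1 x (by simp [h])) hx with rfl | rfl | rfl
        · exact (hls _ h).1 rfl
        · exact (hls _ h).2 rfl
        · exact hmo.1 h
      · exact Or.inr (Or.inl (Or.inr (Or.inl rfl)))
      · exact Or.inr (Or.inl (Or.inr (Or.inr h)))
      · refine Or.inr (Or.inr ⟨h, fun _ h1 => ?_⟩)
        rcases hv x h1 hx with rfl | rfl | rfl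
        · exact (hmI _ h).1 rfl
        · exact (hmI _ h).2.2.1 rfl
        · exact hmo.2.2 h
    · intro hx
      rw [mem_insert, mem_union, mem_sdiff, mem_filter, not_and] at hx
      rcases hx with rfl | hx | hx
      · exact ho2
      · exact hb2 x hx
      · have hx' : x ∈ vs T := by
          rw [vT]; exact mem_insert_of_mem (mem_union_right _ hx.1)
        rw [hvg, mem_union] at hx'
        rcases hx' with h | h
        · exact absurd h (hx.2 hx.1)
        · exact h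

end H19S.PB
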