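import Pool.Agent.Lib.H19S.BChord1
import Pool.Agent.Lib.H19S.BChord2

/-!
# H19S part B, chunk BT4: counting fillings with a chord

PROOF.  `(I₁, T₁, T₂) ↦ glue a y o T₁ T₂` is a bijection from the triples with `I₁ ⊆ I`, `T₁ ∈ TF o (a :: (s ++ [y])) I₁`, `P1 T₁`,
`T₂ ∈ TF o (a :: y :: t) (I \ I₁)` onto the set on the left: well defined by `glue_mem` and `hP`, injective by `glue_unique` (`I₁` is determined by
`T₁`: `I₁ = vs T₁ \ insert o (a :: (s ++ [y])).toFinset`), surjective by `cut_mem`.  Use a `Finset.sigma` over `I.powerset` of products.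
-/

namespace H19S.PB

open Finset

variable {α : Type*} [DecidableEq α] [Infinite α]

theorem BT4_I_eq {o : α} {l : List α} {I I₁ I₁' : Finset α} (hI : Disjoint I l.toFinset)
    (ho : o ∉ I) (h1 : I₁ ⊆ I) (h : insert o (l.toFinset ∪ I₁) = insert o (l.toFinset ∪ I₁')) :
    I₁ ⊆ I₁' := by
  intro x hx
  have hxI := h1 hx
  have h2 : x ∈ insert o (l.toFinset ∪ I₁') := by
    rw [← h]; exact mem_insert_of_mem (mem_union_right _ hx)
  rw [mem_insert, mem_union] at h2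
  rcases h2 with rfl | h2 | h2
  · exact absurd hxI ho
  · exact absurd h2 (Finset.disjoint_left.1 hI hxI)
  · exact h2

open Classical in
theorem chord_count {o a y : α} {s t : List α} {I : Finset α}
    (hl : (a :: (s ++ y :: t)).Nodup) (hI : Disjoint I (a :: (s ++ y :: t)).toFinset)
    (ho : o ∉ (a :: (s ++ y :: t)).toFinset ∪ I) (P P1 : Finset (α × α × α) → Prop)
    (hP : ∀ I₁ ⊆ I, ∀ T₁ ∈ TF o (a :: (s ++ [y])) I₁, ∀ T₂ ∈ TF o (a :: y :: t) (I \ I₁),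
      (P (glue a y o T₁ T₂) ↔ P1 T₁)) :
    ((TF o (a :: (s ++ y :: t)) I).filter (fun T => Adj T a y ∧ P T)).card =
      ∑ I₁ ∈ I.powerset, ((TF o (a :: (s ++ [y])) I₁).filter P1).card *
        (TF o (a :: y :: t) (I \ I₁)).card := by
  have hIs : Disjoint I (a :: (s ++ [y])).toFinset := by
    refine Finset.disjoint_of_subset_right ?_ hI
    intro x hx
    simp only [List.toFinset_cons, List.toFinset_append, mem_insert, mem_union,
      List.mem_toFinset, List.toFinset_nil, notMem_empty, or_false] at hx ⊢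
    tauto
  have hoI : o ∉ I := fun h => ho (mem_union_right _ h)
  have hR : ∑ I₁ ∈ I.powerset, ((TF o (a :: (s ++ [y])) I₁).filter P1).card *
        (TF o (a :: y :: t) (I \ I₁)).card =
      (I.powerset.sigma (fun I₁ => ((TF o (a :: (s ++ [y])) I₁).filter P1) ×ˢ
        (TF o (a :: y :: t) (I \ I₁)))).card := by
    rw [card_sigma]
    exact sum_congr rfl fun I₁ _ => (card_product _ _).symm
  rw [hR]
  symm
  refine card_bij (fun x _ => glue a y o x.2.1 x.2.2) ?_ ?_ ?_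
  · rintro ⟨I₁, T₁, T₂⟩ hx
    simp only [mem_sigma, mem_powerset, mem_product, mem_filter] at hx ⊢
    obtain ⟨hI₁, ⟨h1, hp⟩, h2⟩ := hx
    obtain ⟨-, h3, h4⟩ := glue_mem hl hI ho hI₁ h1 h2
    exact ⟨h3, h4, (hP I₁ hI₁ T₁ h1 T₂ h2).2 hp⟩
  · rintro ⟨I₁, T₁, T₂⟩ hx ⟨I₁', T₁', T₂'⟩ hx' he
    simp only [mem_sigma, mem_powerset, mem_product, mem_filter] at hx hx' he
    obtain ⟨hI₁, ⟨h1, hp⟩, h2⟩ := hx
    obtain ⟨hI₁', ⟨h1', hp'⟩, h2'⟩ := hx'
    obtain ⟨⟨f1, f2, hv⟩, -, -⟩ := glue_mem hl hI ho hI₁ h1 h2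
    obtain ⟨⟨f1', f2', hv'⟩, -, -⟩ := glue_mem hl hI ho hI₁' h1' h2'
    have m1 := mem_TF.1 h1
    have m2 := mem_TF.1 h2
    have m1' := mem_TF.1 h1'
    have m2' := mem_TF.1 h2'
    obtain ⟨rfl, rfl⟩ := glue_unique m1.1 m2.1 m1'.1 m2'.1 f1 f2 f1' f2' hv hv' he
    have hII : I₁ = I₁' := by
      have h3 := m1.2.1.symm.trans m1'.2.1
      exact Finset.Subset.antisymm (BT4_I_eq hIs hoI hI₁ h3) (BT4_I_eq hIs hoI hI₁' h3.symm)
    subst hII
    rfl
  · intro T hT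
    rw [mem_filter] at hT
    obtain ⟨hT, hay, hp⟩ := hT
    obtain ⟨I₁, hI₁, T₁, h1, T₂, h2, rfl⟩ := cut_mem hl hI ho hT hay
    refine ⟨⟨I₁, T₁, T₂⟩, ?_, rfl⟩
    simp only [mem_sigma, mem_powerset, mem_product, mem_filter]
    exact ⟨hI₁, ⟨h1, (hP I₁ hI₁ T₁ h1 T₂ h2).1 hp⟩, h2⟩

end H19S.PB
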