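import Pool.Agent.Lib.H19S.BSurf

/-!
# H19S part B: the flip is a triangulation (from A7)
-/

namespace H19S.PB

open Finset

variable {α : Type*} [DecidableEq α]

theorem flip_tri {T : Finset (α × α × α)} (h : IsTri T) {a b y o : α} (h1 : (a, b, y) ∈ T)
    (h2 : (b, a, o) ∈ T) (hyo : y ≠ o) (hn : ¬ Adj T y o) :
    IsTri (flip a b y o T) ∧ vs (flip a b y o T) = vs T :=
  ⟨H19S.flip h h1 h2 hyo.symm (fun hh => hn (adj_symm h.toIsSurf hh)),
    H19S.vs_flip h h1 h2 hyo.symm (fun hh => hn (adj_symm h.toIsSurf hh))⟩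

end H19S.PB
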