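import Pool.Agent.Lib.H19S.BTF
import Pool.Agent.Lib.H19S.BFlip
import Pool.Agent.Lib.H19S.BList3

/-!
# H19S part B, chunk BT7: the root face has its third vertex inside

PROOF.  `T ↦ T' = flip c0 c1 y o T`.  `(c0,c1,y) ∈ T`, `(c1,c0,o) ∈ T` (as `(c0,c1) ∈ lk T o`), `y ≠ o`, and `y`, `o` are not adjacent: a neighbour of `o`
is in `vb (lk T o) = l.toFinset` (`Adj T o y` gives `(o, y, z) ∈ T`, `(y, z, o) ∈ T`, `(z, y) ∈ lk T o`), and `y ∈ I` is not.  `flip_tri`.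
`lk T' o = insert (c0, y) (insert (y, c1) ((lk T o).erase (c0, c1)))`: the removed faces `(x, z, o)` are `(c1, c0, o)` only, the new ones `(y, c0, o)` and
`(c1, y, o)`; with `cyc_insert` this is `cyc (c0 :: y :: c1 :: l')`.  The vertex set is the same.  `¬ Adj T' c0 c1`: a face `(c0, c1, x)` of `T'` is not new, so it
is in `T`, so `x = y` by `uniq` and it was removed.
Inverse: for `T'` in the set on the right, `(o, y, c0), (y, o, c1) ∈ T'` (from `(c0, y), (y, c1) ∈ lk T' o`), `c0 ≠ c1`, not adjacent, so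
`T = flip o y c0 c1 T'` (`= (T' \ (rots o y c0 ∪ rots y o c1)) ∪ (rots o c1 c0 ∪ rots c1 y c0)`) is `IsTri`, contains `(c0, c1, y)` (a rotation of `(c1, y, c0)`),
link and vertex set as above.  The two maps are inverse to each other: `rots o y c0 = rots c0 o y`, etc. (rotations of the same faces), the removed faces
are in the set and the added ones are not.
-/

namespace H19S.PB

open Finset

variable {α : Type*} [DecidableEq α]

theorem BT7_swap {β : Type*} [DecidableEq β] {T A B : Finset β} (hA : A ⊆ T)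
    (hB : ∀ x ∈ B, x ∉ T) : ((T \ A ∪ B) \ B) ∪ A = T := by
  ext x
  have h1 := @hA x
  have h2 := hB x
  simp only [mem_union, mem_sdiff]
  by_cases h3 : x ∈ A <;> by_cases h4 : x ∈ B <;> by_cases h5 : x ∈ T <;> simp_all

theorem BT7_rots (a b c : α) : rots b c a = rots a b c := by
  ext ⟨x, y, z⟩
  simp only [mem_rots]
  tauto

theorem BT7_rots' (a b c : α) : rots c a b = rots a b c := by
  ext ⟨x, y, z⟩
  simp only [mem_rots]
  tauto

theorem BT7_flip_flip {o c0 c1 y : α} {T : Finset (α × α × α)}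
    (hA : rots c0 c1 y ∪ rots c1 c0 o ⊆ T) (hB : ∀ x ∈ rots c0 o y ∪ rots o c1 y, x ∉ T) :
    flip o y c0 c1 (flip c0 c1 y o T) = T := by
  unfold flip
  rw [BT7_rots c0 o y, BT7_rots' o c1 y, BT7_rots' c1 c0 o, BT7_rots c0 c1 y,
    union_comm (rots c1 c0 o) (rots c0 c1 y)]
  exact BT7_swap hA hB

theorem BT7_flip_flip' {o c0 c1 y : α} {T : Finset (α × α × α)}
    (hA : rots c0 o y ∪ rots o c1 y ⊆ T) (hB : ∀ x ∈ rots c0 c1 y ∪ rots c1 c0 o, x ∉ T) :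
    flip c0 c1 y o (flip o y c0 c1 T) = T := by
  unfold flip
  rw [BT7_rots c0 o y, BT7_rots' o c1 y, BT7_rots' c1 c0 o, BT7_rots c0 c1 y,
    union_comm (rots c1 c0 o) (rots c0 c1 y)]
  exact BT7_swap hA hB

theorem BT7_lk1 {o c0 c1 y : α} {T : Finset (α × α × α)} (h0 : o ≠ c0) (h1 : o ≠ c1)
    (h2 : o ≠ y) :
    lk (flip c0 c1 y o T) o = insert (c0, y) (insert (y, c1) ((lk T o).erase (c0, c1))) := by
  ext ⟨x, z⟩
  simp only [mem_lk, flip, mem_union, mem_sdiff, mem_rots, mem_erase, mem_insert, ne_eq,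
    Prod.mk.injEq, not_or]
  constructor
  · rintro (⟨h, h'⟩ | h)
    · refine Or.inr (Or.inr ⟨?_, h⟩)
      rintro ⟨rfl, rfl⟩
      exact h'.2.1 ⟨rfl, rfl, trivial⟩
    · rcases h with (⟨-, -, h⟩ | ⟨-, -, h⟩ | ⟨rfl, rfl, -⟩) | (⟨-, -, h⟩ | ⟨rfl, rfl, -⟩ | ⟨-, -, h⟩)
      · exact absurd h h2
      · exact absurd h h0
      · exact Or.inl ⟨rfl, rfl⟩
      · exact absurd h h2
      · exact Or.inr (Or.inl ⟨rfl, rfl⟩)
      · exact absurd h h1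
  · rintro (⟨rfl, rfl⟩ | ⟨rfl, rfl⟩ | ⟨h, h'⟩)
    · exact Or.inr (Or.inl (Or.inr (Or.inr ⟨rfl, rfl, trivial⟩)))
    · exact Or.inr (Or.inr (Or.inr (Or.inl ⟨rfl, rfl, trivial⟩)))
    · refine Or.inl ⟨h', ⟨?_, ?_, ?_⟩, ⟨?_, ?_, ?_⟩⟩
      · exact fun hh => h2 hh.2.2
      · exact fun hh => h0 hh.2.2
      · exact fun hh => h1 hh.2.2
      · exact fun hh => h ⟨hh.2.1, hh.1⟩
      · exact fun hh => h1 hh.2.2
      · exact fun hh => h0 hh.2.2

theorem BT7_lk2 {o c0 c1 y : α} {T : Finset (α × α × α)} (h0 : o ≠ c0) (h1 : o ≠ c1)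
    (h2 : o ≠ y) (h3 : c0 ≠ y) (h4 : c0 ≠ c1) (h5 : c1 ≠ y) :
    lk (flip o y c0 c1 T) o =
      insert (c0, c1) (((lk T o).erase (c0, y)).erase (y, c1)) := by
  ext ⟨x, z⟩
  simp only [mem_lk, flip, mem_union, mem_sdiff, mem_rots, mem_erase, mem_insert, ne_eq,
    Prod.mk.injEq, not_or]
  constructor
  · rintro (⟨h, h'⟩ | h)
    · refine Or.inr ⟨?_, ?_, h⟩
      · rintro ⟨rfl, rfl⟩
        exact h'.2.2.2 ⟨rfl, rfl, trivial⟩
      · rintro ⟨rfl, rfl⟩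
        exact h'.1.2.1 ⟨rfl, rfl, trivial⟩
    · rcases h with (⟨-, -, h⟩ | ⟨rfl, rfl, -⟩ | ⟨-, -, h⟩) | (⟨-, -, h⟩ | ⟨-, -, h⟩ | ⟨-, -, h⟩)
      · exact absurd h h0
      · exact Or.inl ⟨rfl, rfl⟩
      · exact absurd h h1
      · exact absurd h h0
      · exact absurd h h1
      · exact absurd h h2
  · rintro (⟨rfl, rfl⟩ | ⟨h, h', h''⟩)
    · exact Or.inr (Or.inl (Or.inr (Or.inl ⟨rfl, rfl, trivial⟩)))
    · refine Or.inl ⟨h'', ⟨?_, ?_, ?_⟩, ⟨?_, ?_, ?_⟩⟩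
      · exact fun hh => h0 hh.2.2
      · exact fun hh => h' ⟨hh.2.1, hh.1⟩
      · exact fun hh => h2 hh.2.2
      · exact fun hh => h1 hh.2.2
      · exact fun hh => h2 hh.2.2
      · exact fun hh => h ⟨hh.2.1, hh.1⟩

open Classical in
theorem face_inner {o c0 c1 y : α} {l' : List α} {I : Finset α}
    (hl : (c0 :: c1 :: l').Nodup) (hl' : l' ≠ []) (hI : Disjoint I (c0 :: c1 :: l').toFinset)
    (ho : o ∉ (c0 :: c1 :: l').toFinset ∪ I) (hy : y ∈ I) :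
    ((TF o (c0 :: c1 :: l') I).filter (fun T => (c0, c1, y) ∈ T)).card =
      ((TF o (c0 :: y :: c1 :: l') (I.erase y)).filter (fun T => ¬ Adj T c0 c1)).card := by
  have ho' : o ≠ c0 ∧ o ≠ c1 ∧ o ∉ l' ∧ o ∉ I := by
    simp only [List.toFinset_cons, mem_insert, mem_union, List.mem_toFinset, not_or] at ho
    exact ⟨ho.1.1, ho.1.2.1, ho.1.2.2, ho.2⟩
  obtain ⟨h0, h1, hol, hoI⟩ := ho'
  have h2 : o ≠ y := by
    rintro rfl
    exact hoI hy
  have hyn : y ≠ c0 ∧ y ≠ c1 ∧ y ∉ l' := by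
    have := Finset.disjoint_left.1 hI hy
    simp only [List.toFinset_cons, mem_insert, List.mem_toFinset, not_or] at this
    exact this
  obtain ⟨y0, y1, yl⟩ := hyn
  have hn : c0 ≠ c1 ∧ c0 ∉ l' ∧ c1 ∉ l' ∧ l'.Nodup := by
    simp only [List.nodup_cons, List.mem_cons, not_or] at hl
    exact ⟨hl.1.1, hl.1.2, hl.2.1, hl.2.2⟩
  obtain ⟨n1, n2, n3, n4⟩ := hn
  have hl2 : (c0 :: y :: c1 :: l').Nodup := by
    simp only [List.nodup_cons, List.mem_cons, not_or]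
    exact ⟨⟨y0.symm, n1, n2⟩, ⟨y1, yl⟩, n3, n4⟩
  obtain ⟨e1, e2⟩ := cyc_insert hl2
  have hvs : insert o ((c0 :: c1 :: l').toFinset ∪ I) =
      insert o ((c0 :: y :: c1 :: l').toFinset ∪ I.erase y) := by
    ext x
    simp only [List.toFinset_cons, mem_insert, mem_union, List.mem_toFinset, mem_erase]
    by_cases hx : x = y
    · subst hx
      tauto
    · tauto
  -- facts on the left
  have hL : ∀ T, T ∈ TF o (c0 :: c1 :: l') I → (c1, c0, o) ∈ T ∧ ¬ Adj T o y := by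
    intro T hT
    obtain ⟨t, v, l⟩ := mem_TF.1 hT
    constructor
    · have : (c0, c1) ∈ lk T o := by rw [l, e2]; simp
      exact mem_lk.1 this
    · rintro ⟨z, hz⟩
      have h3 : (z, y) ∈ lk T o := mem_lk.2 (t.rot hz)
      have h4 : y ∈ vb (cyc (c0 :: c1 :: l')) := by
        rw [← l, vb, mem_union]
        exact Or.inr (mem_image.2 ⟨_, h3, rfl⟩)
      rw [vb_cyc] at h4
      exact Finset.disjoint_left.1 hI hy h4
  have hR : ∀ T, T ∈ TF o (c0 :: y :: c1 :: l') (I.erase y) →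
      (o, y, c0) ∈ T ∧ (y, o, c1) ∈ T := by
    intro T hT
    obtain ⟨t, v, l⟩ := mem_TF.1 hT
    constructor
    · have : (c0, y) ∈ lk T o := by rw [l, e1]; simp
      exact t.rot (t.rot (mem_lk.1 this))
    · have : (y, c1) ∈ lk T o := by rw [l, e1]; simp
      exact t.rot (mem_lk.1 this)
  refine card_nbij' (fun T => flip c0 c1 y o T) (fun T => flip o y c0 c1 T) ?_ ?_ ?_ ?_
  · intro T hT
    obtain ⟨hT, hf⟩ := mem_filter.1 (mem_coe.1 hT)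
    obtain ⟨g1, g2⟩ := hL T hT
    obtain ⟨t, v, l⟩ := mem_TF.1 hT
    obtain ⟨r1, r2⟩ := flip_tri t hf g1 h2.symm (fun h => g2 (adj_symm t.toIsSurf h))
    refine mem_coe.2 (mem_filter.2 ⟨mem_TF.2 ⟨r1, ?_, ?_⟩, ?_⟩)
    · rw [r2, v, hvs]
    · rw [BT7_lk1 h0 h1 h2, l, e1]
    · rintro ⟨x, hx⟩
      simp only [flip, mem_union, mem_sdiff, mem_rots, not_or] at hx
      rcases hx with ⟨hx, hx'⟩ | hx
      · have hxy := t.uniq hx hf
        exact hx'.1.1 ⟨trivial, trivial, hxy⟩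
      · rcases hx with (⟨-, h, -⟩ | ⟨h, -, -⟩ | ⟨h, -, -⟩) | (⟨h, -, -⟩ | ⟨h, -, -⟩ | ⟨h, -, -⟩)
        · exact h1 h.symm
        · exact h0 h.symm
        · exact y0 h.symm
        · exact h0 h.symm
        · exact n1 h
        · exact y0 h.symm
  · intro T hT
    obtain ⟨hT, hf⟩ := mem_filter.1 (mem_coe.1 hT)
    obtain ⟨g1, g2⟩ := hR T hT
    obtain ⟨t, v, l⟩ := mem_TF.1 hT
    obtain ⟨r1, r2⟩ := flip_tri t g1 g2 n1 hf
    refine mem_coe.2 (mem_filter.2 ⟨mem_TF.2 ⟨r1, ?_, ?_⟩, ?_⟩)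
    · rw [r2, v, hvs]
    · rw [BT7_lk2 h0 h1 h2 y0.symm n1 y1.symm, l, e2]
    · simp [flip, rots]
  · intro T hT
    obtain ⟨hT, hf⟩ := mem_filter.1 (mem_coe.1 hT)
    obtain ⟨g1, g2⟩ := hL T hT
    obtain ⟨t, v, l⟩ := mem_TF.1 hT
    refine BT7_flip_flip (union_subset (rots_sub t.toIsSurf hf) (rots_sub t.toIsSurf g1)) ?_
    rintro ⟨x, z, w⟩ hx hx'
    simp only [mem_union, mem_rots] at hx
    rcases hx with (⟨rfl, rfl, rfl⟩ | ⟨rfl, rfl, rfl⟩ | ⟨rfl, rfl, rfl⟩) |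
      (⟨rfl, rfl, rfl⟩ | ⟨rfl, rfl, rfl⟩ | ⟨rfl, rfl, rfl⟩)
    · exact g2 ⟨_, t.rot hx'⟩
    · exact g2 ⟨_, hx'⟩
    · exact g2 ⟨_, t.rot (t.rot hx')⟩
    · exact g2 (adj_symm t.toIsSurf ⟨_, t.rot (t.rot hx')⟩)
    · exact g2 (adj_symm t.toIsSurf ⟨_, t.rot hx'⟩)
    · exact g2 (adj_symm t.toIsSurf ⟨_, hx'⟩)
  · intro T hT
    obtain ⟨hT, hf⟩ := mem_filter.1 (mem_coe.1 hT)
    obtain ⟨g1, g2⟩ := hR T hT
    obtain ⟨t, v, l⟩ := mem_TF.1 hT
    refine BT7_flip_flip' ?_ ?_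
    · refine union_subset ?_ ?_
      · rw [← BT7_rots c0 o y]; exact rots_sub t.toIsSurf g1
      · rw [← BT7_rots' o c1 y]; exact rots_sub t.toIsSurf g2
    · rintro ⟨x, z, w⟩ hx hx'
      simp only [mem_union, mem_rots] at hx
      rcases hx with (⟨rfl, rfl, rfl⟩ | ⟨rfl, rfl, rfl⟩ | ⟨rfl, rfl, rfl⟩) |
        (⟨rfl, rfl, rfl⟩ | ⟨rfl, rfl, rfl⟩ | ⟨rfl, rfl, rfl⟩)
      · exact hf ⟨_, hx'⟩
      · exact hf ⟨_, t.rot (t.rot hx')⟩
      · exact hf ⟨_, t.rot hx'⟩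
      · exact hf (adj_symm t.toIsSurf ⟨_, hx'⟩)
      · exact hf (adj_symm t.toIsSurf ⟨_, t.rot (t.rot hx')⟩)
      · exact hf (adj_symm t.toIsSurf ⟨_, t.rot hx'⟩)

end H19S.PB
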