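import Pool.Agent.Lib.H19S.BDefs

/-!
# H19S part B, chunk BN2: closed form of `Zt`

PROOF.  `Zt_closed` for `n ≥ 2`, `n = k + 2`: `cn (2k+2) m = (2k+2) (4m+2k+1)! / (m! (3m+2k+2)!)`, `cn (2k+3) m = (2k+3) (4m+2k+2)! / (m! (3m+2k+3)!)`,
`C_{k+2} = 2(2k+3)/(k+3) C_{k+1}`, so `C_{k+2} - C_{k+1} = 3(k+1)/(k+3) C_{k+1}`, and
`2(2k+3)(2k+2)(3m+2k+3) - 3(k+1)(2k+3)(4m+2k+2) = 2(k+1)(2k+3)(k+3)`; finally `C_{k+1} (k+1)(2k+3) = (2k+3)!/(k!(k+2)!)`.
(`catalan_eq_centralBinom_div`, `Nat.succ_mul_catalan_eq_centralBinom`, `Nat.centralBinom` and factorials.)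
For `n = 1`: `catalan 1 * cn 0 m - 0`.

The Catalan sums: with `C_{N+1} = sum_{p+q=N} C_p C_q` (`catalan_succ'`); `sum_{p+q=N} C_{p+1} C_q` is the sum for `N+1` without the term
`(0, N+1)`, `sum_{p+q=N} C_{p+1} C_{q+1}` is the sum for `N+2` without the terms `(0, N+2)`, `(N+2, 0)`.
-/

namespace H19S.PB

open Finset

theorem bn2_cat (n : ℕ) : (catalan n : ℝ) = (2 * n).factorial / (n.factorial * (n + 1).factorial) := by
  have h1 : (n + 1) * catalan n = Nat.centralBinom n := succ_mul_catalan_eq_centralBinom n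
  have h2 : Nat.centralBinom n = Nat.choose (2 * n) n := Nat.centralBinom_eq_two_mul_choose n
  have h3 := Nat.choose_mul_factorial_mul_factorial (show n ≤ 2 * n by omega)
  have h4 : 2 * n - n = n := by omega
  rw [h4, ← h2, ← h1] at h3
  have h5 : (((n + 1) * catalan n * n.factorial * n.factorial : ℕ) : ℝ) = ((2 * n).factorial : ℝ) := by
    rw [h3]
  push_cast at h5
  have h6 : (n.factorial : ℝ) ≠ 0 := by exact_mod_cast Nat.factorial_ne_zero n
  rw [← h5, Nat.factorial_succ]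
  push_cast
  have h7 : ((n : ℝ) + 1) ≠ 0 := by positivity
  field_simp

theorem Zt_closed (n m : ℕ) : Zt (n + 2) m =
    (catalan (n + 1) : ℝ) * cn (2 * n) m - ((catalan (n + 1) : ℝ) - catalan n) * cn (2 * n + 1) m := by
  cases n with
  | zero =>
    simp [Zt, cn]
  | succ k =>
    have e1 : Zt (k + 1 + 2) m = Zf (k + 3) m := by
      unfold Zt
      rw [if_neg (by omega)]
    rw [e1]
    unfold Zf cn
    have f1 : k + 3 - 3 = k := by omega
    have f2 : 4 * m + 2 * (k + 1) - 1 = 4 * m + 2 * k + 1 := by omega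
    have f3 : 3 * m + 2 * (k + 1) = 3 * m + 2 * k + 2 := by omega
    have f4 : 4 * m + (2 * (k + 1) + 1) - 1 = (4 * m + 2 * k + 1) + 1 := by omega
    have f5 : 3 * m + (2 * (k + 1) + 1) = (3 * m + 2 * k + 2) + 1 := by omega
    have f6 : 3 * m + 2 * k + 3 = (3 * m + 2 * k + 2) + 1 := by omega
    rw [if_neg (by omega), if_neg (by omega), f1, f2, f3, f4, f5, f6, bn2_cat, bn2_cat]
    have g1 : 2 * (k + 1 + 1) = 2 * k + 2 + 1 + 1 := by omega
    have g2 : 2 * (k + 1) = 2 * k + 2 := by omega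
    have g3 : 2 * k + 3 = 2 * k + 2 + 1 := by omega
    have g4 : k + 1 + 1 + 1 = (k + 2) + 1 := by omega
    have g5 : k + 1 + 1 = k + 2 := by omega
    rw [g1, g2, g3, g4, g5, Nat.factorial_succ (2 * k + 2 + 1), Nat.factorial_succ (2 * k + 2),
      Nat.factorial_succ (k + 2), Nat.factorial_succ (4 * m + 2 * k + 1),
      Nat.factorial_succ (3 * m + 2 * k + 2), show (k + 2).factorial = (k + 2) * ((k + 1) * k.factorial) from by
        rw [show k + 2 = (k + 1) + 1 by rfl, Nat.factorial_succ, Nat.factorial_succ],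
      Nat.factorial_succ k]
    have p1 : (k.factorial : ℝ) ≠ 0 := by exact_mod_cast Nat.factorial_ne_zero k
    have p2 : (m.factorial : ℝ) ≠ 0 := by exact_mod_cast Nat.factorial_ne_zero m
    have p3 : ((3 * m + 2 * k + 2).factorial : ℝ) ≠ 0 := by exact_mod_cast Nat.factorial_ne_zero _
    have p4 : ((k : ℝ) + 1) ≠ 0 := by positivity
    have p5 : ((k : ℝ) + 2) ≠ 0 := by positivity
    have p6 : ((k : ℝ) + 2 + 1) ≠ 0 := by positivity
    have p7 : ((3 : ℝ) * m + 2 * k + 2 + 1) ≠ 0 := by positivity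
    push_cast
    field_simp
    ring

theorem cat_sum1 (N : ℕ) : ∑ p ∈ antidiagonal N, (catalan p.1 : ℝ) * catalan p.2 = catalan (N + 1) := by
  rw [catalan_succ']
  push_cast
  rfl

theorem cat_sum2 (N : ℕ) : ∑ p ∈ antidiagonal N, (catalan (p.1 + 1) : ℝ) * catalan p.2 =
    catalan (N + 2) - catalan (N + 1) := by
  have h := cat_sum1 (N + 1)
  rw [Nat.antidiagonal_succ, sum_cons, sum_map] at h
  simp only [catalan_zero, Nat.cast_one, one_mul] at h
  have h2 : ∑ x ∈ antidiagonal N, (catalan ((Function.Embedding.prodMap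
      { toFun := Nat.succ, inj' := Nat.succ_injective } (Function.Embedding.refl ℕ)) x).1 : ℝ) *
      (catalan ((Function.Embedding.prodMap
      { toFun := Nat.succ, inj' := Nat.succ_injective } (Function.Embedding.refl ℕ)) x).2 : ℝ) =
      ∑ p ∈ antidiagonal N, (catalan (p.1 + 1) : ℝ) * catalan p.2 := rfl
  rw [h2] at h
  rw [show N + 2 = N + 1 + 1 by rfl, ← h]
  ring

theorem cat_sum2' (N : ℕ) : ∑ p ∈ antidiagonal N, (catalan p.1 : ℝ) * catalan (p.2 + 1) =
    catalan (N + 2) - catalan (N + 1) := by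
  rw [← cat_sum2 N, ← Nat.sum_antidiagonal_swap]
  refine sum_congr rfl fun p _ => ?_
  simp only [Prod.fst_swap, Prod.snd_swap]
  ring

theorem cat_sum3 (N : ℕ) : ∑ p ∈ antidiagonal N, (catalan (p.1 + 1) : ℝ) * catalan (p.2 + 1) =
    catalan (N + 3) - 2 * catalan (N + 2) := by
  have h := cat_sum2' (N + 1)
  rw [Nat.antidiagonal_succ, sum_cons, sum_map] at h
  simp only [catalan_zero, Nat.cast_one, one_mul] at h
  have h2 : ∑ x ∈ antidiagonal N, (catalan ((Function.Embedding.prodMap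
      { toFun := Nat.succ, inj' := Nat.succ_injective } (Function.Embedding.refl ℕ)) x).1 : ℝ) *
      (catalan (((Function.Embedding.prodMap
      { toFun := Nat.succ, inj' := Nat.succ_injective } (Function.Embedding.refl ℕ)) x).2 + 1) : ℝ) =
      ∑ p ∈ antidiagonal N, (catalan (p.1 + 1) : ℝ) * catalan (p.2 + 1) := rfl
  rw [h2] at h
  have h3 : N + 1 + 2 = N + 3 := by ring
  have h4 : N + 1 + 1 = N + 2 := by ring
  rw [h3, h4] at h
  linarith

end H19S.PB
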