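import Pool.Agent.Lib.H19S.BNum1
import Pool.Agent.Lib.H19S.BNum2

/-!
# H19S part B, chunk BN3: the recursion for the numbers `Zt`

PROOF.  Let `a n = mk (Zt (n+2))`, `n ≥ 0` (this is `a_{n+1}` of PROOF.md).  By `Zt_closed` `a n = C_{n+1} P(2n) - (C_{n+1} - C_n) P(2n+1)`.
Claim (power series): `a (N+1) = ∑_{p+q=N} a p * a q + X * (a (N+2) - a 1 * a (N+1))`.
With `b = P 1`, `P r = b^r` (`P_mul`), `X b^4 = b - 1`:
`∑_{p+q=N} a p a q = b^{2N} (S1 - 2 (S1 - S2) b + (S1 - 2 S2 + S3) b²)`, `S1 = ∑ C_{p+1} C_{q+1} = C_{N+3} - 2 C_{N+2}`,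
`S2 = ∑ C_{p+1} C_q = C_{N+2} - C_{N+1}`, `S3 = ∑ C_p C_q = C_{N+1}`;
`X (a (N+2) - a 1 * a (N+1)) = X b^{2N+4} (..) = (b - 1) b^{2N} (α + β b - γ b²)`, `α = C_{N+3} - 2 C_{N+2}`, `β = - C_{N+3} + 4 C_{N+2} - 2 C_{N+1}`,
`γ = C_{N+2} - C_{N+1}`; the sum is `b^{2N} (C_{N+2} b² - (C_{N+2} - C_{N+1}) b³)`.
Then take the coefficient of `x^m`.
-/

namespace H19S.PB

open Finset

/-- The power series of the numbers `Zt (n+2) m`. -/
noncomputable def aser (n : ℕ) : PowerSeries ℝ := PowerSeries.mk fun m => Zt (n + 2) m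

theorem aser_eq (n : ℕ) : aser n = PowerSeries.C (catalan (n + 1) : ℝ) * P (2 * n) -
    PowerSeries.C ((catalan (n + 1) : ℝ) - catalan n) * P (2 * n + 1) := by
  ext m
  rw [map_sub, PowerSeries.coeff_C_mul, PowerSeries.coeff_C_mul, aser, P, P, PowerSeries.coeff_mk,
    PowerSeries.coeff_mk, PowerSeries.coeff_mk]
  exact Zt_closed n m

theorem aser_mul (N : ℕ) (p : ℕ × ℕ) (hp : p.1 + p.2 = N) : aser p.1 * aser p.2 =
    PowerSeries.C ((catalan (p.1 + 1) : ℝ) * catalan (p.2 + 1)) * P (2 * N) -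
    PowerSeries.C (((catalan (p.1 + 1) : ℝ) * catalan (p.2 + 1) - (catalan (p.1 + 1) : ℝ) * catalan p.2) +
      ((catalan (p.1 + 1) : ℝ) * catalan (p.2 + 1) - (catalan p.1 : ℝ) * catalan (p.2 + 1))) *
      P (2 * N + 1) +
    PowerSeries.C ((catalan (p.1 + 1) : ℝ) * catalan (p.2 + 1) - (catalan (p.1 + 1) : ℝ) * catalan p.2 -
      (catalan p.1 : ℝ) * catalan (p.2 + 1) + (catalan p.1 : ℝ) * catalan p.2) * P (2 * N + 2) := by
  have h0 : P (2 * N) = P (2 * p.1) * P (2 * p.2) := by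
    rw [P_mul]; congr 1; omega
  have h1 : P (2 * N + 1) = P (2 * p.1) * P (2 * p.2 + 1) := by
    rw [P_mul]; congr 1; omega
  have h1' : P (2 * N + 1) = P (2 * p.1 + 1) * P (2 * p.2) := by
    rw [P_mul]; congr 1; omega
  have h2 : P (2 * N + 2) = P (2 * p.1 + 1) * P (2 * p.2 + 1) := by
    rw [P_mul]; congr 1; omega
  rw [aser_eq, aser_eq]
  simp only [map_mul, map_sub, map_add]
  linear_combination (-(PowerSeries.C (catalan (p.1 + 1) : ℝ) * PowerSeries.C (catalan (p.2 + 1) : ℝ))) * h0 +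
    (PowerSeries.C (catalan (p.1 + 1) : ℝ) * PowerSeries.C (catalan (p.2 + 1) : ℝ) -
      PowerSeries.C (catalan (p.1 + 1) : ℝ) * PowerSeries.C (catalan p.2 : ℝ)) * h1 +
    (PowerSeries.C (catalan (p.1 + 1) : ℝ) * PowerSeries.C (catalan (p.2 + 1) : ℝ) -
      PowerSeries.C (catalan p.1 : ℝ) * PowerSeries.C (catalan (p.2 + 1) : ℝ)) * h1' -
    (PowerSeries.C (catalan (p.1 + 1) : ℝ) * PowerSeries.C (catalan (p.2 + 1) : ℝ) -
      PowerSeries.C (catalan (p.1 + 1) : ℝ) * PowerSeries.C (catalan p.2 : ℝ) -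
      PowerSeries.C (catalan p.1 : ℝ) * PowerSeries.C (catalan (p.2 + 1) : ℝ) +
      PowerSeries.C (catalan p.1 : ℝ) * PowerSeries.C (catalan p.2 : ℝ)) * h2

theorem aser_sum (N : ℕ) : ∑ p ∈ antidiagonal N, aser p.1 * aser p.2 =
    PowerSeries.C ((catalan (N + 3) : ℝ) - 2 * catalan (N + 2)) * P (2 * N) -
    PowerSeries.C (2 * (((catalan (N + 3) : ℝ) - 2 * catalan (N + 2)) -
      ((catalan (N + 2) : ℝ) - catalan (N + 1)))) * P (2 * N + 1) +
    PowerSeries.C (((catalan (N + 3) : ℝ) - 2 * catalan (N + 2)) -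
      2 * ((catalan (N + 2) : ℝ) - catalan (N + 1)) + catalan (N + 1)) * P (2 * N + 2) := by
  rw [Finset.sum_congr rfl fun p hp => aser_mul N p (mem_antidiagonal.1 hp)]
  rw [Finset.sum_add_distrib, Finset.sum_sub_distrib, ← Finset.sum_mul, ← Finset.sum_mul,
    ← Finset.sum_mul, ← map_sum, ← map_sum, ← map_sum]
  simp only [Finset.sum_add_distrib, Finset.sum_sub_distrib, cat_sum1, cat_sum2, cat_sum2', cat_sum3]
  congr 3
  · congr 1; ring
  · congr 1; ring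

theorem aser_rec (N : ℕ) : aser (N + 1) = ∑ p ∈ antidiagonal N, aser p.1 * aser p.2 +
    PowerSeries.X * (aser (N + 2) - aser 1 * aser (N + 1)) := by
  have hb : PowerSeries.X * P 4 = P 1 - 1 := by rw [P_one]; ring
  have e1 : P (2 * N + 1) = P (2 * N) * P 1 := (P_mul _ _).symm
  have e2 : P (2 * N + 2) = P (2 * N) * P 1 * P 1 := by rw [P_mul, P_mul]
  have e3 : P (2 * (N + 1) + 1) = P (2 * N) * P 1 * P 1 * P 1 := by rw [P_mul, P_mul, P_mul]; rfl
  have e2' : P (2 * (N + 1)) = P (2 * N) * P 1 * P 1 := by rw [P_mul, P_mul]; rfl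
  have f4 : P 4 = P 1 * P 1 * P 1 * P 1 := by rw [P_mul, P_mul, P_mul]
  have e4 : P (2 * (N + 2)) = P (2 * N) * P 1 * P 1 * P 1 * P 1 := by
    rw [P_mul, P_mul, P_mul, P_mul]; rfl
  have e5 : P (2 * (N + 2) + 1) = P (2 * N) * P 1 * P 1 * P 1 * P 1 * P 1 := by
    rw [P_mul, P_mul, P_mul, P_mul, P_mul]; rfl
  have g2 : P (2 * 1) = P 1 * P 1 := by rw [P_mul]
  have g3 : P (2 * 1 + 1) = P 1 * P 1 * P 1 := by rw [P_mul, P_mul]
  have c1 : (catalan 1 : ℝ) = 1 := by simp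
  have c2 : (catalan (1 + 1) : ℝ) = 2 := by
    have : catalan 2 = 2 := by rw [catalan_two]
    exact_mod_cast this
  rw [aser_sum, aser_eq, aser_eq, aser_eq 1, e1, e2, e3, e2', e4, e5, g2, g3, c2, c1]
  rw [f4] at hb
  simp only [map_mul, map_sub, map_add, map_one, map_ofNat]
  generalize P (2 * N) = β at *
  generalize P 1 = b at *
  have h21 : (N + 1 + 1) = N + 2 := rfl
  have h31 : (N + 2 + 1) = N + 3 := rfl
  rw [h21, h31]
  generalize PowerSeries.C (catalan (N + 3) : ℝ) = c3 at *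
  generalize PowerSeries.C (catalan (N + 2) : ℝ) = c2 at *
  generalize PowerSeries.C (catalan (N + 1) : ℝ) = c1 at *
  linear_combination (-β * (c3 - (c3 - c2) * b - (2 - b) * (c2 - (c2 - c1) * b))) * hb

theorem Zt_rec (N m : ℕ) : Zt (N + 3) m =
    ∑ p ∈ antidiagonal N, ∑ q ∈ antidiagonal m, Zt (p.1 + 2) q.1 * Zt (p.2 + 2) q.2 +
      (if m = 0 then 0 else Zt (N + 4) (m - 1) -
        ∑ q ∈ antidiagonal (m - 1), Zt 3 q.1 * Zt (N + 3) q.2) := by
  have h := congrArg (PowerSeries.coeff m) (aser_rec N)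
  rw [map_add, map_sum] at h
  have h1 : PowerSeries.coeff m (aser (N + 1)) = Zt (N + 3) m := by
    rw [aser, PowerSeries.coeff_mk]
  have h2 : ∀ p : ℕ × ℕ, PowerSeries.coeff m (aser p.1 * aser p.2) =
      ∑ q ∈ antidiagonal m, Zt (p.1 + 2) q.1 * Zt (p.2 + 2) q.2 := by
    intro p
    rw [PowerSeries.coeff_mul]
    refine Finset.sum_congr rfl fun q _ => ?_
    rw [aser, aser, PowerSeries.coeff_mk, PowerSeries.coeff_mk]
  rw [h1, Finset.sum_congr rfl fun p _ => h2 p] at h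
  rw [h]
  congr 1
  rcases m with _ | m
  · rw [if_pos rfl, PowerSeries.coeff_zero_X_mul]
  · rw [if_neg (Nat.succ_ne_zero m), PowerSeries.coeff_succ_X_mul, map_sub, PowerSeries.coeff_mul]
    rw [Nat.add_sub_cancel]
    congr 1
    · rw [aser, PowerSeries.coeff_mk]
    · refine Finset.sum_congr rfl fun q _ => ?_
      rw [aser, aser, PowerSeries.coeff_mk, PowerSeries.coeff_mk]

end H19S.PB
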