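import Pool.Agent.Lib.H19S.BFace
import Pool.Agent.Lib.H19S.BInner
import Pool.Agent.Lib.H19S.BBase
import Pool.Agent.Lib.H19S.BNum3

/-!
# H19S part B: the number of fillings (assembly)
-/

namespace H19S.PB

open Finset

variable {α : Type*} [DecidableEq α] [Infinite α]

/-- the inductive statement -/
def Good (α : Type*) [DecidableEq α] (n m : ℕ) : Prop :=
  ∀ (o : α) (l : List α) (I : Finset α), l.Nodup → l.length = n → I.card = m →
    Disjoint I l.toFinset → o ∉ l.toFinset ∪ I → ((TF o l I).card : ℝ) = m.factorial * Zt n m

omit [Infinite α] in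
theorem sum_powerset_card (I : Finset α) (f : ℕ → ℕ → ℝ) :
    ∑ J ∈ I.powerset, f J.card (I \ J).card =
      ∑ q ∈ antidiagonal I.card, (I.card.choose q.1 : ℝ) * f q.1 q.2 := by
  rw [Nat.sum_antidiagonal_eq_sum_range_succ_mk]
  have h := sum_powerset_apply_card (x := I) (fun i => f i (I.card - i))
  simp only [nsmul_eq_mul] at h
  rw [Nat.succ_eq_add_one]
  refine Eq.trans ?_ h
  apply sum_congr rfl
  intro J hJ
  rw [mem_powerset] at hJ
  rw [card_sdiff_of_subset hJ]

theorem choose_fact {m i j : ℕ} (h : i + j = m) :
    (m.choose i : ℝ) * (i.factorial * j.factorial) = m.factorial := by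
  have := Nat.choose_mul_factorial_mul_factorial (n := m) (k := i) (by omega)
  have hj : m - i = j := by omega
  rw [hj] at this
  rw [← this]
  push_cast
  ring

open Classical in
theorem step {N m : ℕ} (ih1 : ∀ n' < N + 3, 2 ≤ n' → ∀ i ≤ m, Good α n' i)
    (ih2 : ∀ n', 2 ≤ n' → ∀ i < m, Good α n' i) : Good α (N + 3) m := by
  intro o l I hl hn hm hI ho
  obtain ⟨c0, c1, l', rfl⟩ : ∃ c0 c1 l', l = c0 :: c1 :: l' := by
    match l, hn with
    | c0 :: c1 :: l', _ => exact ⟨c0, c1, l', rfl⟩
  have hlen : l'.length = N + 1 := by simpa using hn
  have hl' : l' ≠ [] := by rintro rfl; simp at hlen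
  rw [TF_card_split hl hl' hI, Zt_rec]
  push_cast
  have hA : ∑ k : Fin l'.length, (((TF o (c0 :: c1 :: l') I).filter
        (fun T => (c0, c1, l'.get k) ∈ T)).card : ℝ) =
      m.factorial * ∑ p ∈ antidiagonal N, ∑ q ∈ antidiagonal m,
        Zt (p.1 + 2) q.1 * Zt (p.2 + 2) q.2 := by
    have h1 : ∀ k : Fin l'.length, (((TF o (c0 :: c1 :: l') I).filter
        (fun T => (c0, c1, l'.get k) ∈ T)).card : ℝ) = m.factorial * ∑ q ∈ antidiagonal m,
        Zt (k + 2) q.1 * Zt (N - k + 2) q.2 := by
      intro k
      have hk := k.2
      have hdec : l' = l'.take k ++ l'.get k :: l'.drop (k + 1) := by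
        simp
      have e := face_bdry (o := o) (c0 := c0) (c1 := c1) (y := l'.get k) (s := l'.take k)
        (t := l'.drop (k + 1)) (I := I) (by rw [← hdec]; exact hl) (by rw [← hdec]; exact hI)
        (by rw [← hdec]; exact ho)
      rw [← hdec] at e
      rw [e]
      push_cast
      have hsub1 : ∀ x, x ∈ (c1 :: (l'.take k ++ [l'.get k])) → x ∈ (c0 :: c1 :: l') := by
        intro x hx
        simp only [List.mem_cons, List.mem_append, List.not_mem_nil, or_false] at hx ⊢
        rcases hx with rfl | h | rfl
        · simp
        · exact Or.inr (Or.inr (List.mem_of_mem_take h))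
        · exact Or.inr (Or.inr (List.get_mem _ _))
      have hsub2 : ∀ x, x ∈ (c0 :: l'.get k :: l'.drop (k + 1)) → x ∈ (c0 :: c1 :: l') := by
        intro x hx
        simp only [List.mem_cons] at hx ⊢
        rcases hx with rfl | rfl | h
        · simp
        · exact Or.inr (Or.inr (List.get_mem _ _))
        · exact Or.inr (Or.inr (List.mem_of_mem_drop h))
      have hnd := hl
      rw [hdec] at hnd
      have hnd1 : (c1 :: (l'.take k ++ [l'.get k])).Nodup := by
        refine List.Nodup.sublist ?_ hnd
        refine List.Sublist.cons _ (List.Sublist.cons_cons _ ?_)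
        exact List.Sublist.append_left (by rw [List.singleton_sublist]; exact List.mem_cons_self) _
      have hnd2 : (c0 :: l'.get k :: l'.drop (k + 1)).Nodup := by
        refine List.Nodup.sublist ?_ hnd
        refine List.Sublist.cons_cons _ (List.Sublist.cons _ ?_)
        exact List.sublist_append_right _ _
      have hc1 : (c1 :: (l'.take k ++ [l'.get k])).length = k + 2 := by
        simp only [List.length_cons, List.length_append, List.length_take, List.length_nil]
        omega
      have hc2 : (c0 :: l'.get k :: l'.drop (k + 1)).length = N - k + 2 := by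
        simp only [List.length_cons, List.length_drop]
        omega
      have h2 : ∀ J ∈ I.powerset, ((TF o (c1 :: (l'.take k ++ [l'.get k])) J).card : ℝ) *
          (TF o (c0 :: l'.get k :: l'.drop (k + 1)) (I \ J)).card =
          (fun i j => (i.factorial * Zt (k + 2) i) * (j.factorial * Zt (N - k + 2) j) :
            ℕ → ℕ → ℝ) J.card (I \ J).card := by
        intro J hJ
        rw [mem_powerset] at hJ
        have hJm : J.card ≤ m := hm ▸ card_le_card hJ
        have hJm' : (I \ J).card ≤ m := hm ▸ card_le_card sdiff_subset
        have hdis : ∀ x, x ∈ I → x ∉ (c0 :: c1 :: l').toFinset := fun x hx =>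
          Finset.disjoint_left.1 hI hx
        rw [ih1 (k + 2) (by omega) (by omega) J.card hJm o _ J hnd1 hc1 rfl
          (by
            rw [Finset.disjoint_left]
            intro x hx hx'
            exact hdis x (hJ hx) (List.mem_toFinset.2 (hsub1 x (List.mem_toFinset.1 hx'))))
          (by
            intro hx
            apply ho
            rw [mem_union] at hx ⊢
            rcases hx with hx | hx
            · exact Or.inl (List.mem_toFinset.2 (hsub1 _ (List.mem_toFinset.1 hx)))
            · exact Or.inr (hJ hx)),
          ih1 (N - k + 2) (by omega) (by omega) (I \ J).card hJm' o _ (I \ J) hnd2 hc2 rfl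
          (by
            rw [Finset.disjoint_left]
            intro x hx hx'
            exact hdis x (sdiff_subset hx) (List.mem_toFinset.2 (hsub2 x (List.mem_toFinset.1 hx'))))
          (by
            intro hx
            apply ho
            rw [mem_union] at hx ⊢
            rcases hx with hx | hx
            · exact Or.inl (List.mem_toFinset.2 (hsub2 _ (List.mem_toFinset.1 hx)))
            · exact Or.inr (sdiff_subset hx))]
      rw [sum_congr rfl h2]
      refine (sum_powerset_card I (fun i j => (i.factorial * Zt (k + 2) i) *
        (j.factorial * Zt (N - k + 2) j))).trans ?_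
      rw [hm, mul_sum]
      apply sum_congr rfl
      intro q hq
      rw [HasAntidiagonal.mem_antidiagonal] at hq
      rw [← choose_fact hq]
      ring
    rw [Fintype.sum_congr _ _ h1, ← mul_sum]
    congr 1
    rw [Nat.sum_antidiagonal_eq_sum_range_succ_mk, Nat.succ_eq_add_one, ← hlen]
    exact Fin.sum_univ_eq_sum_range (fun k => ∑ q ∈ antidiagonal m,
        Zt (k + 2) q.1 * Zt (N - k + 2) q.2) l'.length
  have hB : ∀ y ∈ I, (((TF o (c0 :: c1 :: l') I).filter (fun T => (c0, c1, y) ∈ T)).card : ℝ) =
      (m - 1).factorial * (Zt (N + 4) (m - 1) -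
        ∑ q ∈ antidiagonal (m - 1), Zt 3 q.1 * Zt (N + 3) q.2) := by
    intro y hy
    have hmpos : 0 < m := by rw [← hm]; exact card_pos.2 ⟨y, hy⟩
    have hyl : y ∉ (c0 :: c1 :: l').toFinset := Finset.disjoint_left.1 hI hy
    have hyl' : y ∉ (c0 :: c1 :: l') := fun h => hyl (List.mem_toFinset.2 h)
    have hoy : o ≠ y := by rintro rfl; exact ho (mem_union_right _ hy)
    have hIe : (I.erase y).card = m - 1 := by rw [card_erase_of_mem hy, hm]
    rw [face_inner hl hl' hI ho hy]
    have hnd : (c0 :: y :: c1 :: l').Nodup := by
      simp only [List.nodup_cons, List.mem_cons, not_or] at hl hyl' ⊢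
      exact ⟨⟨fun h => hyl'.1 h.symm, hl.1⟩, ⟨hyl'.2.1, hyl'.2.2⟩, hl.2⟩
    have hI' : Disjoint (I.erase y) (c0 :: y :: c1 :: l').toFinset := by
      rw [Finset.disjoint_left]
      intro x hx hx'
      rw [mem_erase] at hx
      have := Finset.disjoint_left.1 hI hx.2
      simp only [List.toFinset_cons, mem_insert, List.mem_toFinset, not_or] at this hx'
      rcases hx' with h | h | h | h
      · exact this.1 h
      · exact hx.1 h
      · exact this.2.1 h
      · exact this.2.2 h
    have ho' : o ∉ (c0 :: y :: c1 :: l').toFinset ∪ I.erase y := by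
      intro hx
      apply ho
      simp only [List.toFinset_cons, mem_union, mem_insert, List.mem_toFinset, mem_erase] at hx ⊢
      rcases hx with (h | h | h | h) | h
      · exact Or.inl (Or.inl h)
      · exact absurd h hoy
      · exact Or.inl (Or.inr (Or.inl h))
      · exact Or.inl (Or.inr (Or.inr h))
      · exact Or.inr h.2
    have hsplit : ((TF o (c0 :: y :: c1 :: l') (I.erase y)).filter
        (fun T => ¬ Adj T c0 c1)).card + ((TF o (c0 :: y :: c1 :: l') (I.erase y)).filter
        (fun T => Adj T c0 c1 ∧ True)).card = (TF o (c0 :: y :: c1 :: l') (I.erase y)).card := by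
      simp only [and_true]
      rw [add_comm]
      exact card_filter_add_card_filter_not _
    have hch := chord_count (o := o) (a := c0) (y := c1) (s := [y]) (t := l') (I := I.erase y)
      hnd hI' ho' (fun _ => True) (fun _ => True) (fun _ _ _ _ _ _ => Iff.rfl)
    have hall := ih2 (N + 4) (by omega) (m - 1) (by omega) o (c0 :: y :: c1 :: l') (I.erase y)
      hnd (by simp [hlen]) hIe hI' ho'
    have e1 : (((TF o (c0 :: y :: c1 :: l') (I.erase y)).filter
        (fun T => ¬ Adj T c0 c1)).card : ℝ) = (TF o (c0 :: y :: c1 :: l') (I.erase y)).card -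
        ((TF o (c0 :: y :: c1 :: l') (I.erase y)).filter
        (fun T => Adj T c0 c1 ∧ True)).card := by
      rw [← hsplit]; push_cast; ring
    have hch' : (((TF o (c0 :: y :: c1 :: l') (I.erase y)).filter
        (fun T => Adj T c0 c1 ∧ True)).card : ℝ) = (m - 1).factorial *
        ∑ q ∈ antidiagonal (m - 1), Zt 3 q.1 * Zt (N + 3) q.2 := by
      have h0 : (TF o (c0 :: y :: c1 :: l') (I.erase y)) =
        (TF o (c0 :: ([y] ++ c1 :: l')) (I.erase y)) := rfl
      rw [h0]
      refine (congrArg (fun n : ℕ => (n : ℝ)) (Eq.trans (by congr!) hch)).trans ?_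
      push_cast
      simp only [Finset.filter_true]
      have h2 : ∀ J ∈ (I.erase y).powerset,
          ((TF o (c0 :: ([y] ++ [c1])) J).card : ℝ) *
          (TF o (c0 :: c1 :: l') (I.erase y \ J)).card =
          (fun i j => (i.factorial * Zt 3 i) * (j.factorial * Zt (N + 3) j) :
            ℕ → ℕ → ℝ) J.card (I.erase y \ J).card := by
        intro J hJ
        rw [mem_powerset] at hJ
        have hJm : J.card < m := by
          have := card_le_card hJ
          omega
        have hJm' : (I.erase y \ J).card < m := by
          have := card_le_card (sdiff_subset : I.erase y \ J ⊆ I.erase y)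
          omega
        rw [ih2 3 (by omega) J.card hJm o _ J (by
            refine List.Nodup.sublist ?_ hnd
            simp) (by simp) rfl
          (by
            rw [Finset.disjoint_left]
            intro x hx hx'
            apply Finset.disjoint_left.1 hI' (hJ hx)
            simp only [List.toFinset_cons, mem_insert, List.mem_toFinset, List.cons_append,
              List.nil_append, List.toFinset_nil, notMem_empty, or_false] at hx' ⊢
            tauto)
          (by
            intro hx
            apply ho'
            simp only [List.toFinset_cons, mem_insert, List.mem_toFinset, List.cons_append,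
              List.nil_append, List.toFinset_nil, notMem_empty, or_false, mem_union] at hx ⊢
            rcases hx with hx | hx
            · tauto
            · exact Or.inr (hJ hx)),
          ih2 (N + 3) (by omega) (I.erase y \ J).card hJm' o _ (I.erase y \ J) hl (by simp [hlen]) rfl
          (by
            rw [Finset.disjoint_left]
            intro x hx hx'
            exact Finset.disjoint_left.1 hI (mem_of_mem_erase (sdiff_subset hx)) hx')
          (by
            intro hx
            apply ho
            rw [mem_union] at hx ⊢
            rcases hx with hx | hx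
            · exact Or.inl hx
            · exact Or.inr (mem_of_mem_erase (sdiff_subset hx)))]
      rw [sum_congr rfl h2]
      refine (sum_powerset_card (I.erase y) (fun i j => (i.factorial * Zt 3 i) *
        (j.factorial * Zt (N + 3) j))).trans ?_
      rw [hIe, mul_sum]
      apply sum_congr rfl
      intro q hq
      rw [HasAntidiagonal.mem_antidiagonal] at hq
      rw [← choose_fact hq]
      ring
    rw [e1, hch', hall]
    ring
  rw [hA, sum_congr rfl hB, sum_const, hm, nsmul_eq_mul]
  by_cases h0 : m = 0
  · subst h0; simp
  · rw [if_neg h0]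
    have : (m : ℝ) * (m - 1).factorial = m.factorial := by
      have := Nat.mul_factorial_pred h0
      exact_mod_cast this
    rw [mul_add, ← this]
    ring

theorem tf_card : ∀ m n : ℕ, 2 ≤ n → Good α n m := by
  intro m
  induction m using Nat.strong_induction_on with
  | _ m ihm =>
    intro n
    induction n using Nat.strong_induction_on with
    | _ n ihn =>
      intro h2
      rcases Nat.lt_or_ge n 3 with h3 | h3
      · obtain rfl : n = 2 := by omega
        intro o l I hl hn hm hI ho
        obtain ⟨a, b, rfl⟩ : ∃ a b, l = [a, b] := by
          match l, hn with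
          | [a, b], _ => exact ⟨a, b, rfl⟩
        rw [TF_two hl hI ho]
        by_cases h0 : m = 0
        · subst h0
          rw [Finset.card_eq_zero] at hm
          simp [hm, Zt]
        · have : I ≠ ∅ := by
            rintro rfl
            exact h0 (by simpa using hm.symm)
          simp [this, Zt, h0]
      · obtain ⟨N, rfl⟩ : ∃ N, n = N + 3 := ⟨n - 3, by omega⟩
        apply step
        · intro n' hn' h2' i hi
          rcases Nat.lt_or_eq_of_le hi with h | rfl
          · exact ihm i h n' h2'
          · exact ihn n' hn' h2'
        · intro n' h2' i hi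
          exact ihm i hi n' h2'

end H19S.PB
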