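import Pool.Agent.Lib.H19S.Iface
import Pool.Agent.Lib.H19S.A7

/-!
# H19S part B: definitions (enumeration of fillings)

Everything is done with the closed triangulations `T` (= filling + cone with apex `o`).
-/

namespace H19S.PB

open Finset

variable {α : Type*} [DecidableEq α]

/-- The sides of an open path. -/
def path : List α → Finset (α × α)
  | [] => ∅
  | [_] => ∅
  | a :: b :: l => insert (a, b) (path (b :: l))

/-- The sides of the closed polygon with vertices `l`. -/
def cyc : List α → Finset (α × α)
  | [] => ∅
  | a :: l => path (a :: l ++ [a])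

/-- A single orbit of a successor relation. -/
structure IsOrb (B : Finset (α × α)) : Prop where
  outu : ∀ {a b c : α}, (a, b) ∈ B → (a, c) ∈ B → b = c
  inu : ∀ {a b c : α}, (b, a) ∈ B → (c, a) ∈ B → b = c
  orbit : ∀ {a b c d : α}, (a, b) ∈ B → (c, d) ∈ B →
    Relation.ReflTransGen (fun x y => (x, y) ∈ B) b c

/-- The link of `o`: all `(a, b)` such that `(b, a, o)` is a face. -/
def lk (T : Finset (α × α × α)) (o : α) : Finset (α × α) :=
  (T.filter fun t => t.2.2 = o).image fun t => (t.2.1, t.1)

open Classical in
/-- The triangulations with vertex set `insert o (l ∪ I)` for which the link of `o` is the polygon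
`l`. -/
noncomputable def TF (o : α) (l : List α) (I : Finset α) : Finset (Finset (α × α × α)) :=
  ((insert o (l.toFinset ∪ I)) ×ˢ (insert o (l.toFinset ∪ I)) ×ˢ
    (insert o (l.toFinset ∪ I))).powerset.filter fun T =>
      IsTri T ∧ vs T = insert o (l.toFinset ∪ I) ∧ lk T o = cyc l

/-- Two triangulations glued along the triangle `a y o`. -/
def glue (a y o : α) (T₁ T₂ : Finset (α × α × α)) : Finset (α × α × α) :=
  (T₁ \ rots a y o) ∪ (T₂ \ rots y a o)

/-- Flip of the side `a b` of the faces `(a, b, y)` and `(b, a, o)`. -/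
def flip (a b y o : α) (T : Finset (α × α × α)) : Finset (α × α × α) :=
  (T \ (rots a b y ∪ rots b a o)) ∪ (rots a o y ∪ rots o b y)

/-- Insertion of `c` in the face `(p, q, r)`. -/
def ins (p q r c : α) (T : Finset (α × α × α)) : Finset (α × α × α) :=
  (T \ rots p q r) ∪ (rots p q c ∪ rots q r c ∪ rots r p c)

/-- Removal of `c`, where the faces at `c` are `(p, q, c)`, `(q, r, c)` and `(r, p, c)`. -/
def rem (p q r c : α) (T : Finset (α × α × α)) : Finset (α × α × α) :=
  (T \ (rots p q c ∪ rots q r c ∪ rots r p c)) ∪ rots p q r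

/-- `Zf` with the convention for the 2-gon. -/
noncomputable def Zt (l m : ℕ) : ℝ := if l = 2 then (if m = 0 then 1 else 0) else Zf l m

/-- `[x^m] B^r`, where `B = 1 + x B^4`. -/
noncomputable def cn (r m : ℕ) : ℝ :=
  if r = 0 then (if m = 0 then 1 else 0) else
    r * (4 * m + r - 1).factorial / (m.factorial * (3 * m + r).factorial)

end H19S.PB
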