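import Pool.Agent.Lib.H19S.BSurf

/-!
# H19S part B: insertion of a vertex of degree three (from A7)
-/

namespace H19S.PB

open Finset

variable {α : Type*} [DecidableEq α]

theorem ins_tri {T : Finset (α × α × α)} (h : IsTri T) {p q r c : α} (h1 : (p, q, r) ∈ T)
    (hc : c ∉ vs T) : IsTri (ins p q r c T) ∧ vs (ins p q r c T) = insert c (vs T) :=
  ⟨ins3 h h1 hc, vs_ins3 h h1 hc⟩

end H19S.PB
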