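import Pool.Agent.Lib.H19S.BSurf

/-!
# H19S part B: removal of a vertex of degree three (from A7)
-/

namespace H19S.PB

open Finset

variable {α : Type*} [DecidableEq α]

theorem rem_tri {T : Finset (α × α × α)} (h : IsTri T) {p q r c : α} (h1 : (p, q, c) ∈ T)
    (h2 : (q, r, c) ∈ T) (h3 : (r, p, c) ∈ T) :
    IsTri (rem p q r c T) ∧ vs (rem p q r c T) = (vs T).erase c :=
  ⟨del3 h h1 h2 h3, vs_del3 h h1 h2 h3⟩

end H19S.PB
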