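import Pool.Agent.Lib.H19S.BTF
import Pool.Agent.Lib.H19S.BIns
import Pool.Agent.Lib.H19S.BRem
import Pool.Agent.Lib.H19S.BList3

/-!
# H19S part B, chunk BT5: cutting off an ear

The fillings of `c0, c1, s, y` with face `(c0, c1, y)` correspond to the fillings of `c1, s, y`.
PROOF.  `T ↦ rem c1 y o c0 T` with inverse `T' ↦ ins c1 y o c0 T'`.  For `T` in the left set: `(c1, y, c0) ∈ T` (rotation), `(y, o, c0) ∈ T` (rotation of
`(c0, y, o)`, which is in `T` because `(y, c0) ∈ cyc = lk T o`), `(o, c1, c0) ∈ T` (rotation of `(c1, c0, o)`, as `(c0, c1) ∈ cyc`).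
`rem_tri` gives `IsTri` and the vertex set minus `c0`; `lk (rem ..) o = insert (y, c1) (((lk T o).erase (y, c0)).erase (c0, c1))`, then `cyc_ear`.
Conversely for `T'`: `(y, c1) ∈ cyc (c1 :: (s ++ [y]))` gives `(c1, y, o) ∈ T'`, `c0 ∉ vs T'`; `ins_tri`; the link of `o` in `ins c1 y o c0 T'` is
`insert (y, c0) (insert (c0, c1) ((lk T' o).erase (y, c1)))`; it contains the face `(c0, c1, y)`.
`ins (rem T) = T` and `rem (ins T') = T'` (the removed faces belong to `T` resp. `rots c1 y o ⊆ T'`; no face of `T'` contains `c0`, `rots c1 y o ∩ T = ∅`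
unless.. : if `(c1, y, o) ∈ T` then by `uniq` with `(c1, y, c0)` `o = c0`, impossible).
-/

namespace H19S.PB

open Finset

variable {α : Type*} [DecidableEq α]

theorem BT5_swap {β : Type*} [DecidableEq β] {T A B : Finset β} (hA : A ⊆ T)
    (hB : ∀ x ∈ B, x ∉ T) : ((T \ A ∪ B) \ B) ∪ A = T := by
  ext x
  have h1 := @hA x
  have h2 := hB x
  simp only [mem_union, mem_sdiff]
  by_cases h3 : x ∈ A <;> by_cases h4 : x ∈ B <;> by_cases h5 : x ∈ T <;> simp_all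

theorem BT5_lk_rem {o c0 c1 y : α} {T : Finset (α × α × α)} (h0 : o ≠ c0) (h1 : o ≠ c1)
    (h2 : o ≠ y) (h3 : c1 ≠ c0) (h4 : y ≠ c0) (h5 : y ≠ c1) :
    lk (rem c1 y o c0 T) o = insert (y, c1) (((lk T o).erase (y, c0)).erase (c0, c1)) := by
  ext ⟨x, z⟩
  simp only [mem_lk, rem, mem_union, mem_sdiff, mem_rots, mem_erase, mem_insert, ne_eq,
    Prod.mk.injEq, not_or]
  constructor
  · rintro (⟨h, h'⟩ | h)
    · refine Or.inr ⟨?_, ?_, h⟩
      · rintro ⟨rfl, rfl⟩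
        exact h'.2.2.1 ⟨rfl, rfl, trivial⟩
      · rintro ⟨rfl, rfl⟩
        exact h'.1.2.2.2 ⟨rfl, rfl, trivial⟩
    · rcases h with ⟨rfl, rfl, -⟩ | ⟨-, -, h⟩ | ⟨-, -, h⟩
      · exact Or.inl ⟨rfl, rfl⟩
      · exact absurd h h1
      · exact absurd h h2
  · rintro (⟨rfl, rfl⟩ | ⟨h, h', h''⟩)
    · exact Or.inr (Or.inl ⟨rfl, rfl, trivial⟩)
    · refine Or.inl ⟨h'', ⟨⟨?_, ?_, ?_⟩, ⟨?_, ?_, ?_⟩⟩, ⟨?_, ?_, ?_⟩⟩
      · exact fun hh => h0 hh.2.2
      · exact fun hh => h1 hh.2.2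
      · exact fun hh => h2 hh.2.2
      · exact fun hh => h0 hh.2.2
      · exact fun hh => h2 hh.2.2
      · exact fun hh => h' ⟨hh.2.1, hh.1⟩
      · exact fun hh => h0 hh.2.2
      · exact fun hh => h ⟨hh.2.1, hh.1⟩
      · exact fun hh => h1 hh.2.2

theorem BT5_lk_ins {o c0 c1 y : α} {T : Finset (α × α × α)} (h0 : o ≠ c0) (h1 : o ≠ c1)
    (h2 : o ≠ y) :
    lk (ins c1 y o c0 T) o = insert (y, c0) (insert (c0, c1) ((lk T o).erase (y, c1))) := by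
  ext ⟨x, z⟩
  simp only [mem_lk, ins, mem_union, mem_sdiff, mem_rots, mem_erase, mem_insert, ne_eq,
    Prod.mk.injEq, not_or]
  constructor
  · rintro (⟨h, h'⟩ | h)
    · refine Or.inr (Or.inr ⟨?_, h⟩)
      rintro ⟨rfl, rfl⟩
      exact h'.1 ⟨rfl, rfl, trivial⟩
    · rcases h with ((⟨-, -, h⟩ | ⟨-, -, h⟩ | ⟨-, -, h⟩) | (⟨-, -, h⟩ | ⟨-, -, h⟩ | ⟨rfl, rfl, -⟩)) |
        (⟨-, -, h⟩ | ⟨rfl, rfl, -⟩ | ⟨-, -, h⟩)
      · exact absurd h h0
      · exact absurd h h1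
      · exact absurd h h2
      · exact absurd h h0
      · exact absurd h h2
      · exact Or.inl ⟨rfl, rfl⟩
      · exact absurd h h0
      · exact Or.inr (Or.inl ⟨rfl, rfl⟩)
      · exact absurd h h1
  · rintro (⟨rfl, rfl⟩ | ⟨rfl, rfl⟩ | ⟨h, h'⟩)
    · exact Or.inr (Or.inl (Or.inr (Or.inr (Or.inr ⟨rfl, rfl, trivial⟩))))
    · exact Or.inr (Or.inr (Or.inr (Or.inl ⟨rfl, rfl, trivial⟩)))
    · refine Or.inl ⟨h', ?_, ?_, ?_⟩
      · exact fun hh => h ⟨hh.2.1, hh.1⟩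
      · exact fun hh => h1 hh.2.2
      · exact fun hh => h2 hh.2.2

open Classical in
theorem ear_count {o c0 c1 y : α} {s : List α} {I : Finset α}
    (hl : (c0 :: c1 :: (s ++ [y])).Nodup) (hI : Disjoint I (c0 :: c1 :: (s ++ [y])).toFinset)
    (ho : o ∉ (c0 :: c1 :: (s ++ [y])).toFinset ∪ I) :
    ((TF o (c0 :: c1 :: (s ++ [y])) I).filter (fun T => (c0, c1, y) ∈ T)).card =
      (TF o (c1 :: (s ++ [y])) I).card := by
  have ho' : o ≠ c0 ∧ o ≠ c1 ∧ o ∉ s ∧ o ≠ y ∧ o ∉ I := by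
    simp only [List.toFinset_cons, List.toFinset_append, mem_insert, mem_union,
      List.mem_toFinset, List.toFinset_nil, notMem_empty, or_false, not_or] at ho
    exact ⟨ho.1.1, ho.1.2.1, ho.1.2.2.1, ho.1.2.2.2, ho.2⟩
  obtain ⟨h0, h1, hos, h2, hoI⟩ := ho'
  have hn : c0 ≠ c1 ∧ c0 ∉ s ∧ c0 ≠ y ∧ c1 ∉ s ∧ c1 ≠ y := by
    simp only [List.nodup_cons, List.mem_cons, List.mem_append, not_or, List.not_mem_nil,
      or_false] at hl
    exact ⟨hl.1.1, hl.1.2.1, hl.1.2.2, hl.2.1.1, hl.2.1.2⟩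
  obtain ⟨n1, n2, n3, n4, n5⟩ := hn
  have hc0I : c0 ∉ I := fun h => Finset.disjoint_left.1 hI h (by simp)
  obtain ⟨e1, e2⟩ := cyc_ear hl
  have hc0v : c0 ∉ insert o ((c1 :: (s ++ [y])).toFinset ∪ I) := by
    simp only [List.toFinset_cons, List.toFinset_append, mem_insert, mem_union,
      List.mem_toFinset, List.toFinset_nil, notMem_empty, or_false, not_or]
    exact ⟨h0.symm, ⟨n1, n2, n3⟩, hc0I⟩
  -- facts on the left
  have hL : ∀ T, T ∈ TF o (c0 :: c1 :: (s ++ [y])) I → (c0, c1, y) ∈ T →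
      (c1, y, c0) ∈ T ∧ (y, o, c0) ∈ T ∧ (o, c1, c0) ∈ T := by
    intro T hT hf
    rw [mem_TF] at hT
    obtain ⟨t, v, l⟩ := hT
    refine ⟨t.rot hf, ?_, ?_⟩
    · have : (y, c0) ∈ lk T o := by rw [l, e2]; simp
      exact t.rot (mem_lk.1 this)
    · have : (c0, c1) ∈ lk T o := by rw [l, e2]; simp
      exact t.rot (t.rot (mem_lk.1 this))
  have hR : ∀ T, T ∈ TF o (c1 :: (s ++ [y])) I → (c1, y, o) ∈ T ∧ c0 ∉ vs T := by
    intro T hT
    rw [mem_TF] at hT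
    obtain ⟨t, v, l⟩ := hT
    refine ⟨?_, by rw [v]; exact hc0v⟩
    have : (y, c1) ∈ lk T o := by rw [l, e1]; simp
    exact mem_lk.1 this
  refine card_nbij' (fun T => rem c1 y o c0 T) (fun T => ins c1 y o c0 T) ?_ ?_ ?_ ?_
  · intro T hT
    simp only [coe_filter, Set.mem_setOf_eq] at hT
    obtain ⟨hT, hf⟩ := hT
    obtain ⟨g1, g2, g3⟩ := hL T hT hf
    obtain ⟨t, v, l⟩ := mem_TF.1 hT
    obtain ⟨r1, r2⟩ := rem_tri t g1 g2 g3
    refine mem_coe.2 (mem_TF.2 ⟨r1, ?_, ?_⟩)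
    · rw [r2, v]
      ext x
      simp only [List.toFinset_cons, List.toFinset_append, mem_insert, mem_union,
        List.mem_toFinset, List.toFinset_nil, notMem_empty, or_false, mem_erase] at hc0v ⊢
      constructor
      · rintro ⟨hx, hx'⟩
        tauto
      · intro hx
        refine ⟨?_, by tauto⟩
        rintro rfl
        exact hc0v hx
    · rw [BT5_lk_rem h0 h1 h2 n1.symm n3.symm n5.symm, l, e1]
  · intro T hT
    have hT := mem_coe.1 hT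
    obtain ⟨g1, g2⟩ := hR T hT
    obtain ⟨t, v, l⟩ := mem_TF.1 hT
    obtain ⟨r1, r2⟩ := ins_tri t g1 g2
    refine mem_coe.2 (mem_filter.2 ⟨mem_TF.2 ⟨r1, ?_, ?_⟩, ?_⟩)
    · rw [r2, v]
      ext x
      simp only [List.toFinset_cons, List.toFinset_append, mem_insert, mem_union,
        List.mem_toFinset, List.toFinset_nil, notMem_empty, or_false]
      tauto
    · rw [BT5_lk_ins h0 h1 h2, l, e2]
    · simp [ins, rots]
  · intro T hT
    simp only [coe_filter, Set.mem_setOf_eq] at hT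
    obtain ⟨hT, hf⟩ := hT
    obtain ⟨g1, g2, g3⟩ := hL T hT hf
    obtain ⟨t, v, l⟩ := mem_TF.1 hT
    refine BT5_swap ?_ ?_
    · exact union_subset (union_subset (rots_sub t.toIsSurf g1) (rots_sub t.toIsSurf g2))
        (rots_sub t.toIsSurf g3)
    · rintro ⟨x, z, w⟩ hx hx'
      have hh : (c1, y, o) ∈ T := by
        rw [mem_rots] at hx
        rcases hx with ⟨rfl, rfl, rfl⟩ | ⟨rfl, rfl, rfl⟩ | ⟨rfl, rfl, rfl⟩
        · exact hx'
        · exact t.rot (t.rot hx')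
        · exact t.rot hx'
      exact h0 (t.uniq hh g1)
  · intro T hT
    have hT := mem_coe.1 hT
    obtain ⟨g1, g2⟩ := hR T hT
    obtain ⟨t, v, l⟩ := mem_TF.1 hT
    refine BT5_swap (rots_sub t.toIsSurf g1) ?_
    rintro ⟨x, z, w⟩ hx hx'
    have hm := mem_vs_of t.toIsSurf hx'
    simp only [mem_union, mem_rots] at hx
    have : c0 = x ∨ c0 = z ∨ c0 = w := by
      rcases hx with ((⟨-, -, h⟩ | ⟨-, h, -⟩ | ⟨h, -, -⟩) | (⟨-, -, h⟩ | ⟨-, h, -⟩ | ⟨h, -, -⟩)) |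
        (⟨-, -, h⟩ | ⟨-, h, -⟩ | ⟨h, -, -⟩) <;> simp [h]
    rcases this with rfl | rfl | rfl
    · exact g2 hm.1
    · exact g2 hm.2.1
    · exact g2 hm.2.2

end H19S.PB
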