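import Pool.Agent.Lib.H19S.BChord3
import Pool.Agent.Lib.H19S.BEar

/-!
# H19S part B, chunk BT6: the root face has its third vertex on the boundary

PROOF.  `chord_count` with `a = c0`, `s := c1 :: s`, `P T = P1 T = ((c0, c1, y) ∈ T)`: the set on the left is contained in `Adj T c0 y`
(`(c0,c1,y) ∈ T` gives `(y,c0,c1) ∈ T`, so `Adj T y c0` and `Adj T c0 y`).  `hP`: `(c0, c1, y) ∈ glue ↔ (c0, c1, y) ∈ T₁`, since `c1 ∉ vs T₂` and
`(c0, c1, y) ∉ rots c0 y o` (`c1 ≠ y`, `c1 ≠ o`).  Then `ear_count` in each term.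
-/

namespace H19S.PB

open Finset

variable {α : Type*} [DecidableEq α] [Infinite α]

open Classical in
theorem face_bdry {o c0 c1 y : α} {s t : List α} {I : Finset α}
    (hl : (c0 :: c1 :: (s ++ y :: t)).Nodup)
    (hI : Disjoint I (c0 :: c1 :: (s ++ y :: t)).toFinset)
    (ho : o ∉ (c0 :: c1 :: (s ++ y :: t)).toFinset ∪ I) :
    ((TF o (c0 :: c1 :: (s ++ y :: t)) I).filter (fun T => (c0, c1, y) ∈ T)).card =
      ∑ I₁ ∈ I.powerset, (TF o (c1 :: (s ++ [y])) I₁).card * (TF o (c0 :: y :: t) (I \ I₁)).card := by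
  classical
  have hl1 : (c0 :: ((c1 :: s) ++ y :: t)).Nodup := hl
  have hnd := hl
  simp only [List.nodup_cons, List.mem_cons, List.mem_append, not_or, List.nodup_append] at hnd
  obtain ⟨⟨h01, h0s, h0y, h0t⟩, ⟨h1s, h1y, h1t⟩, _, ⟨hyt, _⟩, _⟩ := hnd
  have hoo := ho
  simp only [Finset.mem_union, List.mem_toFinset, List.mem_cons, List.mem_append, not_or] at hoo
  obtain ⟨⟨ho0, ho1, hos, hoy, hot⟩, hoI⟩ := hoo
  have hcI : ∀ x ∈ (c0 :: c1 :: (s ++ y :: t)), x ∉ I := by
    intro x hx hxI
    exact (Finset.disjoint_left.1 hI hxI) (List.mem_toFinset.2 hx)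
  have key := chord_count (o := o) (a := c0) (y := y) (s := c1 :: s) (t := t) (I := I) hl1 hI ho
    (fun T => (c0, c1, y) ∈ T) (fun T => (c0, c1, y) ∈ T) (by
      intro I₁ _ T₁ _ T₂ hT₂
      have hv := (mem_TF.1 hT₂).2.1
      have hs := (mem_TF.1 hT₂).1.toIsSurf
      constructor
      · intro h
        rcases Finset.mem_union.1 h with h | h
        · exact (Finset.mem_sdiff.1 h).1
        · exfalso
          have h2 := (Finset.mem_sdiff.1 h).1
          have h3 := (mem_vs_of hs h2).2.1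
          rw [hv] at h3
          simp only [Finset.mem_insert, Finset.mem_union, List.mem_toFinset, List.mem_cons,
            Finset.mem_sdiff] at h3
          rcases h3 with h3 | (h3 | h3 | h3) | ⟨h3, _⟩
          · exact ho1 h3.symm
          · exact h01 h3.symm
          · exact h1y h3
          · exact h1t h3
          · exact hcI c1 (by simp) h3
      · intro h
        refine Finset.mem_union_left _ (Finset.mem_sdiff.2 ⟨h, ?_⟩)
        rw [mem_rots]
        rintro (⟨_, h2, _⟩ | ⟨h2, _⟩ | ⟨h2, _⟩)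
        · exact h1y h2
        · exact h0y h2
        · exact ho0 h2.symm)
  have e1 : (TF o (c0 :: c1 :: (s ++ y :: t)) I).filter (fun T => (c0, c1, y) ∈ T) =
      (TF o (c0 :: ((c1 :: s) ++ y :: t)) I).filter
        (fun T => Adj T c0 y ∧ (c0, c1, y) ∈ T) := by
    apply Finset.filter_congr
    intro T hT
    have hs := (mem_TF.1 hT).1.toIsSurf
    constructor
    · intro h
      exact ⟨adj_symm hs ⟨_, hs.rot (hs.rot h)⟩, h⟩
    · exact fun h => h.2
  have e3 : ((TF o (c0 :: c1 :: (s ++ y :: t)) I).filter (fun T => (c0, c1, y) ∈ T)).card =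
      ∑ I₁ ∈ I.powerset, ((TF o (c0 :: ((c1 :: s) ++ [y])) I₁).filter
        (fun T => (c0, c1, y) ∈ T)).card * (TF o (c0 :: y :: t) (I \ I₁)).card := by
    rw [e1]
    convert key
  rw [e3]
  apply Finset.sum_congr rfl
  intro I₁ hI₁
  have hI₁' := Finset.mem_powerset.1 hI₁
  congr 1
  have hsub : ∀ x ∈ (c0 :: c1 :: (s ++ [y])), x ∈ (c0 :: c1 :: (s ++ y :: t)) := by
    intro x hx
    simp only [List.mem_cons, List.mem_append, List.not_mem_nil, or_false] at hx ⊢
    tauto
  apply ear_count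
  · refine List.Nodup.sublist ?_ hl
    refine List.Sublist.cons_cons _ (List.Sublist.cons_cons _ (List.Sublist.append_left ?_ _))
    simp
  · rw [Finset.disjoint_left]
    intro x hx hx2
    exact hcI x (hsub x (List.mem_toFinset.1 hx2)) (hI₁' hx)
  · intro h
    apply ho
    rcases Finset.mem_union.1 h with h | h
    · exact Finset.mem_union_left _ (List.mem_toFinset.2 (hsub o (List.mem_toFinset.1 h)))
    · exact Finset.mem_union_right _ (hI₁' h)

end H19S.PB
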