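import Pool.Agent.Lib.H19S.BTF

/-!
# H19S part B, chunk BT9: `Fill` and `TF`

PROOF.  Bijection `R ↦ R ∪ cone o (cyc l)`.  For `R ∈ Fill o (cyc l) I` no face of `R` contains `o`, and all the faces of the cone do; the
faces `(x, z, o)` of the cone are `(e.2, e.1, o)`, `e ∈ cyc l` (`o` is not in `vb (cyc l) = l.toFinset`), so `lk (R ∪ cone) o = cyc l`; the vertex set is
`vb (cyc l) ∪ I ∪ {o}`.  Injective: `R = (R ∪ cone) \ cone`.  Surjective: for `T ∈ TF o l I` put `R = T \ cone o (cyc l)`; `cone o (cyc l) ⊆ T`, and every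
face of `T` containing `o` is a rotation of `(x, z, o)` with `(z, x) ∈ lk T o = cyc l`, so it is in the cone.  So `R` consists of the faces without `o`,
`R ∪ cone = T`, and `vs R = l.toFinset ∪ I`: for `b ∈ l` take `(b, c) ∈ cyc l`; `(c, b, o) ∈ T`, by `opp` `(b, c, d) ∈ T`, and `d ≠ o` since otherwise
`(c, b) ∈ lk T o = cyc l`, against `cyc_no_rev`; `b, c ≠ o`; so `(b, c, d) ∈ R`.  For `i ∈ I` no face at `i` contains `o`
(`i` is not a neighbour of `o`).
-/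

namespace H19S.PB

open Finset

variable {α : Type*} [DecidableEq α]

theorem bt9_mem_cone {o x y z : α} {B : Finset (α × α)} : (x, y, z) ∈ cone o B ↔
    (z = o ∧ (y, x) ∈ B) ∨ (y = o ∧ (x, z) ∈ B) ∨ (x = o ∧ (z, y) ∈ B) := by
  simp only [cone, mem_union, mem_image, Prod.mk.injEq, Prod.exists]
  constructor
  · rintro ((⟨p, q, h, rfl, rfl, rfl⟩ | ⟨p, q, h, rfl, rfl, rfl⟩) | ⟨p, q, h, rfl, rfl, rfl⟩)
    · exact Or.inl ⟨rfl, h⟩
    · exact Or.inr (Or.inl ⟨rfl, h⟩)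
    · exact Or.inr (Or.inr ⟨rfl, h⟩)
  · rintro (⟨rfl, h⟩ | ⟨rfl, h⟩ | ⟨rfl, h⟩)
    · exact Or.inl (Or.inl ⟨_, _, h, rfl, rfl, rfl⟩)
    · exact Or.inl (Or.inr ⟨_, _, h, rfl, rfl, rfl⟩)
    · exact Or.inr ⟨_, _, h, rfl, rfl, rfl⟩

theorem bt9_vb {l : List α} {x y : α} (h : (x, y) ∈ cyc l) :
    x ∈ l.toFinset ∧ y ∈ l.toFinset := by
  rw [← vb_cyc]
  simp only [vb, mem_union, mem_image]
  exact ⟨Or.inl ⟨_, h, rfl⟩, Or.inr ⟨_, h, rfl⟩⟩

theorem bt9_mem_Fill {o : α} {l : List α} {I : Finset α} {R : Finset (α × α × α)} :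
    R ∈ Fill o (cyc l) I ↔ (∀ x y z, (x, y, z) ∈ R → x ∈ l.toFinset ∪ I ∧ y ∈ l.toFinset ∪ I ∧
      z ∈ l.toFinset ∪ I) ∧ IsTri (R ∪ cone o (cyc l)) ∧ vs R = l.toFinset ∪ I := by
  classical
  simp only [Fill, mem_filter, mem_powerset, vb_cyc]
  refine and_congr ?_ Iff.rfl
  constructor
  · intro h x y z hx
    have h2 := h hx
    simp only [mem_product] at h2
    exact h2
  · rintro h ⟨x, y, z⟩ hx
    simp only [mem_product]
    exact h x y z hx

/-- the first map -/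
theorem bt9_fwd {o : α} {l : List α} {I : Finset α} (hl : l.Nodup) (h3 : 3 ≤ l.length)
    (ho : o ∉ l.toFinset ∪ I) {R : Finset (α × α × α)} (hR : R ∈ Fill o (cyc l) I) :
    R ∪ cone o (cyc l) ∈ TF o l I := by
  rw [bt9_mem_Fill] at hR
  obtain ⟨h1, h2, h4⟩ := hR
  rw [mem_TF]
  refine ⟨h2, ?_, ?_⟩
  · ext x
    rw [mem_vs, mem_insert]
    constructor
    · rintro ⟨y, z, h⟩
      rw [mem_union, bt9_mem_cone] at h
      rcases h with h | ⟨_, h⟩ | ⟨_, h⟩ | ⟨h, _⟩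
      · exact Or.inr (h1 _ _ _ h).1
      · exact Or.inr (mem_union_left _ (bt9_vb h).2)
      · exact Or.inr (mem_union_left _ (bt9_vb h).1)
      · exact Or.inl h
    · rintro (rfl | h)
      · have hne : (cyc l).Nonempty := by
          rw [← Finset.card_pos, card_cyc hl]
          omega
        obtain ⟨⟨p, q⟩, hpq⟩ := hne
        exact ⟨q, p, mem_union_right _ (bt9_mem_cone.2 (Or.inr (Or.inr ⟨rfl, hpq⟩)))⟩
      · rw [← h4, mem_vs] at h
        obtain ⟨y, z, h⟩ := h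
        exact ⟨y, z, mem_union_left _ h⟩
  · ext ⟨x, y⟩
    rw [mem_lk, mem_union, bt9_mem_cone]
    constructor
    · rintro (h | ⟨_, h⟩ | ⟨rfl, h⟩ | ⟨rfl, h⟩)
      · exact absurd (h1 _ _ _ h).2.2 ho
      · exact h
      · exact absurd (mem_union_left _ (bt9_vb h).2) ho
      · exact absurd (mem_union_left _ (bt9_vb h).1) ho
    · intro h
      exact Or.inr (Or.inl ⟨rfl, h⟩)

theorem bt9_cone_sub {o : α} {l : List α} {I : Finset α} {T : Finset (α × α × α)}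
    (hT : T ∈ TF o l I) : cone o (cyc l) ⊆ T := by
  rw [mem_TF] at hT
  obtain ⟨h1, -, h2⟩ := hT
  rintro ⟨x, y, z⟩ h
  rw [bt9_mem_cone, ← h2, mem_lk, mem_lk, mem_lk] at h
  rcases h with ⟨rfl, h⟩ | ⟨rfl, h⟩ | ⟨rfl, h⟩
  · exact h
  · exact h1.rot h
  · exact h1.rot (h1.rot h)

theorem bt9_mem_of_o {o : α} {l : List α} {I : Finset α} {T : Finset (α × α × α)}
    (hT : T ∈ TF o l I) {x y z : α} (h : (x, y, z) ∈ T) :
    (x, y, z) ∈ cone o (cyc l) ↔ (x = o ∨ y = o ∨ z = o) := by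
  rw [mem_TF] at hT
  obtain ⟨h1, -, h2⟩ := hT
  rw [bt9_mem_cone, ← h2, mem_lk, mem_lk, mem_lk]
  constructor
  · rintro (⟨h, -⟩ | ⟨h, -⟩ | ⟨h, -⟩)
    · exact Or.inr (Or.inr h)
    · exact Or.inr (Or.inl h)
    · exact Or.inl h
  · rintro (rfl | rfl | rfl)
    · exact Or.inr (Or.inr ⟨rfl, h1.rot h⟩)
    · exact Or.inr (Or.inl ⟨rfl, h1.rot (h1.rot h)⟩)
    · exact Or.inl ⟨rfl, h⟩

/-- the second map -/
theorem bt9_bwd {o : α} {l : List α} {I : Finset α} (hl : l.Nodup) (h3 : 3 ≤ l.length)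
    (hI : Disjoint I l.toFinset) (ho : o ∉ l.toFinset ∪ I) {T : Finset (α × α × α)}
    (hT : T ∈ TF o l I) : T \ cone o (cyc l) ∈ Fill o (cyc l) I := by
  have hT' := mem_TF.1 hT
  obtain ⟨h1, h2, h4⟩ := hT'
  have hlo : ∀ x, x ∈ l.toFinset → x ≠ o := fun x hx e => ho (mem_union_left _ (e ▸ hx))
  have hIo : ∀ x, x ∈ I → x ≠ o := fun x hx e => ho (mem_union_right _ (e ▸ hx))
  have key : ∀ x y z, (x, y, z) ∈ T \ cone o (cyc l) ↔
      (x, y, z) ∈ T ∧ x ≠ o ∧ y ≠ o ∧ z ≠ o := by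
    intro x y z
    rw [mem_sdiff]
    refine and_congr_right fun h => ?_
    rw [bt9_mem_of_o hT h]
    push Not
    rfl
  have hco : ∀ x, x ∈ vs T → x ≠ o → x ∈ l.toFinset ∪ I := by
    intro x hx hxo
    rw [h2, mem_insert] at hx
    exact hx.resolve_left hxo
  rw [bt9_mem_Fill]
  refine ⟨?_, ?_, ?_⟩
  · intro x y z h
    rw [key] at h
    have h5 := mem_vs_of h1.toIsSurf h.1
    exact ⟨hco x h5.1 h.2.1, hco y h5.2.1 h.2.2.1, hco z h5.2.2 h.2.2.2⟩
  · rw [sdiff_union_of_subset (bt9_cone_sub hT)]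
    exact h1
  · ext x
    rw [mem_vs]
    constructor
    · rintro ⟨y, z, h⟩
      rw [key] at h
      exact hco x (mem_vs_of h1.toIsSurf h.1).1 h.2.1
    · intro h
      rcases mem_union.1 h with h | h
      · rw [← vb_cyc] at h
        simp only [vb, mem_union, mem_image, Prod.exists] at h
        have hed : ∀ p q, (p, q) ∈ cyc l → ∃ d, (p, q, d) ∈ T ∧ p ≠ o ∧ q ≠ o ∧ d ≠ o := by
          intro p q hpq
          have hv := bt9_vb hpq
          have h5 : (q, p, o) ∈ T := by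
            rw [← mem_lk, h4]; exact hpq
          obtain ⟨d, hd⟩ := h1.opp h5
          refine ⟨d, hd, hlo p hv.1, hlo q hv.2, ?_⟩
          rintro rfl
          rw [← mem_lk, h4] at hd
          exact cyc_no_rev hl h3 hpq hd
        rcases h with ⟨p, q, hpq, rfl⟩ | ⟨p, q, hpq, rfl⟩
        · obtain ⟨d, hd, h5, h6, h7⟩ := hed p q hpq
          exact ⟨q, d, (key _ _ _).2 ⟨hd, h5, h6, h7⟩⟩
        · obtain ⟨d, hd, h5, h6, h7⟩ := hed p q hpq
          exact ⟨d, p, (key _ _ _).2 ⟨h1.rot hd, h6, h7, h5⟩⟩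
      · have hx : x ∈ vs T := by
          rw [h2]
          exact mem_insert_of_mem (mem_union_right _ h)
        obtain ⟨y, z, hxyz⟩ := mem_vs.1 hx
        have hnl : x ∉ l.toFinset := fun h' => (Finset.disjoint_left.1 hI) h h'
        refine ⟨y, z, (key _ _ _).2 ⟨hxyz, hIo x h, ?_, ?_⟩⟩
        · rintro rfl
          have h5 := h1.rot (h1.rot hxyz)
          rw [← mem_lk, h4] at h5
          exact hnl (bt9_vb h5).1
        · rintro rfl
          rw [← mem_lk, h4] at hxyz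
          exact hnl (bt9_vb hxyz).2

theorem fill_eq {o : α} {l : List α} {I : Finset α} (hl : l.Nodup) (h3 : 3 ≤ l.length)
    (hI : Disjoint I l.toFinset) (ho : o ∉ l.toFinset ∪ I) :
    (Fill o (cyc l) I).card = (TF o l I).card := by
  refine Finset.card_nbij' (fun R => R ∪ cone o (cyc l)) (fun T => T \ cone o (cyc l)) ?_ ?_ ?_ ?_
  · intro R hR
    exact bt9_fwd hl h3 ho hR
  · intro T hT
    exact bt9_bwd hl h3 hI ho hT
  · intro R hR
    have hR' := (bt9_mem_Fill.1 hR).1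
    simp only
    rw [union_sdiff_right, Finset.sdiff_eq_self_iff_disjoint, Finset.disjoint_left]
    rintro ⟨x, y, z⟩ h h'
    rw [bt9_mem_cone] at h'
    have h5 := hR' x y z h
    rcases h' with ⟨rfl, -⟩ | ⟨rfl, -⟩ | ⟨rfl, -⟩
    · exact ho h5.2.2
    · exact ho h5.2.1
    · exact ho h5.1
  · intro T hT
    exact sdiff_union_of_subset (bt9_cone_sub hT)

end H19S.PB
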