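import Pool.Agent.Lib.H19S.BTF
import Pool.Agent.Lib.H19S.BIns
import Pool.Agent.Lib.H19S.BRem

/-!
# H19S part B, chunk BT10: triangulations with a given face

PROOF.  Bijection `F ↦ ins a b c o F`, inverse `T ↦ rem a b c o T`.  `cyc [b, a, c] = {(b,a), (a,c), (c,b)}`.  For `F` on the left `ins_tri` gives `IsTri` and
the vertex set `insert o S = insert o ([b,a,c].toFinset ∪ (S \ {a,b,c}))`; the faces of `ins a b c o F` containing `o` are `rots a b o ∪ rots b c o ∪ rots c a o`,
so the link of `o` is `{(b,a), (c,b), (a,c)}`.  For `T` on the right: `(a,b,o), (b,c,o), (c,a,o) ∈ T`; `rem_tri`; `(a,b,c) ∈ rem a b c o T`.  They are inverse to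
each other (`rots a b c` is in `F` but not in `ins ..`: by `uniq` `(a,b,o)` and `(a,b,c)` cannot both be faces).
-/

namespace H19S.PB

open Finset

theorem bt10_mem_LabS {S : Finset ℕ} {F : Finset (ℕ × ℕ × ℕ)} :
    F ∈ LabS S ↔ IsTri F ∧ vs F = S := by
  classical
  simp only [LabS, mem_filter, mem_powerset]
  constructor
  · exact fun h => h.2
  · intro h
    refine ⟨?_, h⟩
    rintro ⟨x, y, z⟩ ht
    have := mem_vs_of h.1.toIsSurf ht
    simp only [mem_product]
    rw [← h.2]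
    exact this

/-- the star of `o` -/
def bt10X (a b c o : ℕ) : Finset (ℕ × ℕ × ℕ) := rots a b o ∪ rots b c o ∪ rots c a o

theorem bt10_mem_X {a b c o x y z : ℕ} (h : (x, y, z) ∈ bt10X a b c o) :
    x = o ∨ y = o ∨ z = o := by
  simp only [bt10X, mem_union, mem_rots] at h
  tauto

theorem bt10_cyc (a b c : ℕ) : cyc [b, a, c] = {(b, a), (a, c), (c, b)} := by
  ext ⟨x, y⟩
  simp [cyc, path]

open Classical in
theorem lab_face {S : Finset ℕ} {a b c o : ℕ} (ha : a ∈ S) (hb : b ∈ S) (hc : c ∈ S)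
    (hab : a ≠ b) (hbc : b ≠ c) (hca : c ≠ a) (ho : o ∉ S) :
    ((LabS S).filter (fun F => (a, b, c) ∈ F)).card = (TF o [b, a, c] (S \ {a, b, c})).card := by
  have hao : a ≠ o := fun e => ho (e ▸ ha)
  have hbo : b ≠ o := fun e => ho (e ▸ hb)
  have hco : c ≠ o := fun e => ho (e ▸ hc)
  have hS : insert o ([b, a, c].toFinset ∪ (S \ {a, b, c})) = insert o S := by
    ext x
    simp only [mem_insert, mem_union, List.mem_toFinset, List.mem_cons, List.not_mem_nil,
      or_false, mem_sdiff, mem_singleton]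
    constructor
    · rintro (h | (rfl | rfl | rfl) | h)
      · exact Or.inl h
      · exact Or.inr hb
      · exact Or.inr ha
      · exact Or.inr hc
      · exact Or.inr h.1
    · rintro (h | h)
      · exact Or.inl h
      · by_cases h1 : x = a
        · exact Or.inr (Or.inl (Or.inr (Or.inl h1)))
        · by_cases h2 : x = b
          · exact Or.inr (Or.inl (Or.inl h2))
          · by_cases h3 : x = c
            · exact Or.inr (Or.inl (Or.inr (Or.inr h3)))
            · exact Or.inr (Or.inr ⟨h, by tauto⟩)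
  refine Finset.card_nbij' (fun F => ins a b c o F) (fun T => rem a b c o T) ?_ ?_ ?_ ?_
  · intro F hF
    rw [Finset.mem_coe, mem_filter, bt10_mem_LabS] at hF
    obtain ⟨⟨h1, h2⟩, h3⟩ := hF
    have h4 := ins_tri h1 h3 (c := o) (by rw [h2]; exact ho)
    rw [Finset.mem_coe, mem_TF]
    refine ⟨h4.1, ?_, ?_⟩
    · rw [hS, h4.2, h2]
    · ext ⟨x, y⟩
      rw [mem_lk, bt10_cyc]
      simp only [ins, mem_union, mem_sdiff, mem_rots, mem_insert, mem_singleton, Prod.mk.injEq]
      constructor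
      · rintro (⟨h5, -⟩ | (h5 | h5) | h5)
        · exact absurd (h2 ▸ (mem_vs_of h1.toIsSurf h5).2.2) ho
        · rcases h5 with ⟨h6, h7, -⟩ | ⟨-, -, h8⟩ | ⟨-, -, h8⟩
          · exact Or.inl ⟨h7, h6⟩
          · exact absurd h8.symm hao
          · exact absurd h8.symm hbo
        · rcases h5 with ⟨h6, h7, -⟩ | ⟨-, -, h8⟩ | ⟨-, -, h8⟩
          · exact Or.inr (Or.inr ⟨h7, h6⟩)
          · exact absurd h8.symm hbo
          · exact absurd h8.symm hco
        · rcases h5 with ⟨h6, h7, -⟩ | ⟨-, -, h8⟩ | ⟨-, -, h8⟩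
          · exact Or.inr (Or.inl ⟨h7, h6⟩)
          · exact absurd h8.symm hco
          · exact absurd h8.symm hao
      · rintro (⟨rfl, rfl⟩ | ⟨rfl, rfl⟩ | ⟨rfl, rfl⟩)
        · exact Or.inr (Or.inl (Or.inl (Or.inl ⟨rfl, rfl, trivial⟩)))
        · exact Or.inr (Or.inr (Or.inl ⟨rfl, rfl, trivial⟩))
        · exact Or.inr (Or.inl (Or.inr (Or.inl ⟨rfl, rfl, trivial⟩)))
  · intro T hT
    rw [Finset.mem_coe, mem_TF] at hT
    obtain ⟨h1, h2, h3⟩ := hT
    have e1 : (a, b, o) ∈ T := by rw [← mem_lk, h3, bt10_cyc]; simp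
    have e2 : (b, c, o) ∈ T := by rw [← mem_lk, h3, bt10_cyc]; simp
    have e3 : (c, a, o) ∈ T := by rw [← mem_lk, h3, bt10_cyc]; simp
    have h4 := rem_tri h1 e1 e2 e3
    rw [Finset.mem_coe, mem_filter, bt10_mem_LabS]
    refine ⟨⟨h4.1, ?_⟩, ?_⟩
    · rw [h4.2, h2, hS, Finset.erase_insert ho]
    · simp [rem, rots]
  · intro F hF
    rw [Finset.mem_coe, mem_filter, bt10_mem_LabS] at hF
    obtain ⟨⟨h1, h2⟩, h3⟩ := hF
    have hd : Disjoint (F \ rots a b c) (bt10X a b c o) := by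
      rw [Finset.disjoint_left]
      rintro ⟨x, y, z⟩ h5 h6
      have h7 := mem_vs_of h1.toIsSurf (mem_sdiff.1 h5).1
      rw [h2] at h7
      rcases bt10_mem_X h6 with rfl | rfl | rfl
      · exact ho h7.1
      · exact ho h7.2.1
      · exact ho h7.2.2
    show ((F \ rots a b c ∪ bt10X a b c o) \ bt10X a b c o) ∪ rots a b c = F
    rw [union_sdiff_right, (Finset.sdiff_eq_self_iff_disjoint).2 hd,
      sdiff_union_of_subset (rots_sub h1.toIsSurf h3)]
  · intro T hT
    rw [Finset.mem_coe, mem_TF] at hT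
    obtain ⟨h1, h2, h3⟩ := hT
    have e1 : (a, b, o) ∈ T := by rw [← mem_lk, h3, bt10_cyc]; simp
    have e2 : (b, c, o) ∈ T := by rw [← mem_lk, h3, bt10_cyc]; simp
    have e3 : (c, a, o) ∈ T := by rw [← mem_lk, h3, bt10_cyc]; simp
    have hd : Disjoint (T \ bt10X a b c o) (rots a b c) := by
      rw [Finset.disjoint_left]
      rintro ⟨x, y, z⟩ h5 h6
      have h5' := (mem_sdiff.1 h5).1
      rw [mem_rots] at h6
      have h7 : (a, b, c) ∈ T := by
        rcases h6 with ⟨rfl, rfl, rfl⟩ | ⟨rfl, rfl, rfl⟩ | ⟨rfl, rfl, rfl⟩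
        · exact h5'
        · exact h1.rot (h1.rot h5')
        · exact h1.rot h5'
      exact hco (h1.uniq h7 e1)
    have hX : bt10X a b c o ⊆ T := by
      unfold bt10X
      exact union_subset (union_subset (rots_sub h1.toIsSurf e1) (rots_sub h1.toIsSurf e2))
        (rots_sub h1.toIsSurf e3)
    show ((T \ bt10X a b c o ∪ rots a b c) \ rots a b c) ∪ bt10X a b c o = T
    rw [union_sdiff_right, (Finset.sdiff_eq_self_iff_disjoint).2 hd, sdiff_union_of_subset hX]

end H19S.PB
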