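import Pool.Agent.Lib.H19S.BDefs

/-!
# H19S part B, chunk BL1: basic facts on closed polygons given by lists

`path l` are the consecutive pairs of `l`, `cyc (a :: l) = path (a :: l ++ [a])`.
PROOFS.  First prove by induction on `l`:
* `path_append` : `path (l ++ b :: t) = path (l ++ [b]) ∪ path (b :: t)`,
* `(x, y) ∈ path l → x ∈ l.dropLast ∧ y ∈ l.tail`, and for `l` nodup the first (second) components are
  pairwise distinct, `(path l).card = l.length - 1`.
Everything below is elementary from this.
-/

namespace H19S.PB

open Finset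

variable {α : Type*} [DecidableEq α]

theorem path_append (l t : List α) (b : α) :
    path (l ++ b :: t) = path (l ++ [b]) ∪ path (b :: t) := by
  induction l with
  | nil => simp [path]
  | cons a l ih =>
    cases l with
    | nil =>
      simp only [List.cons_append, List.nil_append, path]
      rw [insert_union, empty_union]
    | cons c l =>
      simp only [List.cons_append] at ih ⊢
      rw [path, ih, path, insert_union]

/-- Characterisation of the sides of a path. -/
theorem mem_path {l : List α} {x y : α} :
    (x, y) ∈ path l ↔ ∃ s t : List α, l = s ++ x :: y :: t := by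
  induction l with
  | nil =>
    simp [path]
  | cons a l ih =>
    cases l with
    | nil =>
      simp only [path, notMem_empty, false_iff, not_exists]
      intro s t h
      have := congrArg List.length h
      simp at this
      omega
    | cons b l =>
      rw [path, mem_insert, ih]
      constructor
      · rintro (h | ⟨s, t, h⟩)
        · obtain ⟨rfl, rfl⟩ := Prod.mk.inj h
          exact ⟨[], l, rfl⟩
        · exact ⟨a :: s, t, by rw [h]; rfl⟩
      · rintro ⟨s, t, h⟩
        cases s with
        | nil =>
          left
          simp only [List.nil_append, List.cons.injEq] at h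
          rw [h.1, h.2.1]
        | cons c s =>
          right
          simp only [List.cons_append, List.cons.injEq] at h
          exact ⟨s, t, h.2⟩

/-- index form of `mem_path` -/
theorem bl1_mem_path_iff {l : List α} {x y : α} :
    (x, y) ∈ path l ↔ ∃ i : ℕ, l[i]? = some x ∧ l[i + 1]? = some y := by
  induction l with
  | nil => simp [path]
  | cons a l ih =>
    cases l with
    | nil =>
      simp [path]
    | cons b l =>
      rw [path, mem_insert, ih]
      constructor
      · rintro (h | ⟨i, h1, h2⟩)
        · obtain ⟨rfl, rfl⟩ := Prod.mk.inj h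
          exact ⟨0, by simp, by simp⟩
        · exact ⟨i + 1, by simpa using h1, by simpa using h2⟩
      · rintro ⟨i, h1, h2⟩
        cases i with
        | zero =>
          left
          simp at h1 h2
          rw [h1, h2]
        | succ i =>
          right
          exact ⟨i, by simpa using h1, by simpa using h2⟩

/-- index form of the sides of a closed polygon -/
theorem bl1_mem_cyc_iff {l : List α} {x y : α} :
    (x, y) ∈ cyc l ↔ ∃ i : ℕ, i < l.length ∧ l[i]? = some x ∧ l[(i + 1) % l.length]? = some y := by
  cases l with
  | nil => simp [cyc]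
  | cons a l =>
    rw [cyc, bl1_mem_path_iff]
    constructor
    · rintro ⟨i, h1, h2⟩
      have hi : i + 1 < (a :: l ++ [a]).length := by
        by_contra hc
        rw [List.getElem?_eq_none (by omega)] at h2
        exact absurd h2 (by simp)
      rw [List.length_append, List.length_singleton] at hi
      have hi' : i < (a :: l).length := by omega
      refine ⟨i, hi', ?_, ?_⟩
      · rwa [List.getElem?_append_left hi'] at h1
      · rcases Nat.lt_or_ge (i + 1) (a :: l).length with h | h
        · rw [Nat.mod_eq_of_lt h]
          rwa [List.getElem?_append_left h] at h2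
        · have he : i + 1 = (a :: l).length := by omega
          rw [he, Nat.mod_self]
          rw [he, List.getElem?_append_right (le_refl _)] at h2
          simpa using h2
    · rintro ⟨i, hi, h1, h2⟩
      refine ⟨i, ?_, ?_⟩
      · rwa [List.getElem?_append_left hi]
      · rcases Nat.lt_or_ge (i + 1) (a :: l).length with h | h
        · rw [Nat.mod_eq_of_lt h] at h2
          rwa [List.getElem?_append_left h]
        · have he : i + 1 = (a :: l).length := by omega
          rw [he, Nat.mod_self] at h2
          rw [he, List.getElem?_append_right (le_refl _)]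
          simpa using h2

theorem bl1_inj {l : List α} (hl : l.Nodup) {i j : ℕ} {x : α} (hi : l[i]? = some x)
    (hj : l[j]? = some x) : i = j := by
  obtain ⟨h1, h2⟩ := List.getElem?_eq_some_iff.1 hi
  obtain ⟨h3, h4⟩ := List.getElem?_eq_some_iff.1 hj
  exact (hl.getElem_inj_iff).1 (h2.trans h4.symm)

theorem vb_cyc (l : List α) : vb (cyc l) = l.toFinset := by
  ext x
  rw [List.mem_toFinset]
  unfold vb
  rw [mem_union, mem_image, mem_image]
  constructor
  · rintro (⟨⟨p, q⟩, h, rfl⟩ | ⟨⟨p, q⟩, h, rfl⟩)
    · obtain ⟨i, _, h1, _⟩ := bl1_mem_cyc_iff.1 h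
      exact List.mem_of_getElem? h1
    · obtain ⟨i, _, _, h1⟩ := bl1_mem_cyc_iff.1 h
      exact List.mem_of_getElem? h1
  · intro h
    obtain ⟨i, hi, h1⟩ := List.mem_iff_getElem.1 h
    have h0 : 0 < l.length := by omega
    have hj : (i + 1) % l.length < l.length := Nat.mod_lt _ h0
    left
    refine ⟨(x, l[(i + 1) % l.length]), ?_, rfl⟩
    rw [bl1_mem_cyc_iff]
    refine ⟨i, hi, ?_, ?_⟩
    · rw [List.getElem?_eq_getElem hi, h1]
    · rw [List.getElem?_eq_getElem hj]

theorem card_cyc {l : List α} (hl : l.Nodup) : (cyc l).card = l.length := by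
  rcases Nat.eq_zero_or_pos l.length with h0 | h0
  · have : l = [] := List.length_eq_zero_iff.1 h0
    subst this
    simp [cyc]
  · have hmod : ∀ i : ℕ, i % l.length < l.length := fun i => Nat.mod_lt _ h0
    have e : cyc l = (univ : Finset (Fin l.length)).image
        (fun i : Fin l.length => (l[i.1]'i.2, l[(i.1 + 1) % l.length]'(hmod _))) := by
      ext ⟨x, y⟩
      rw [bl1_mem_cyc_iff, mem_image]
      constructor
      · rintro ⟨i, hi, h1, h2⟩
        refine ⟨⟨i, hi⟩, mem_univ _, ?_⟩
        rw [List.getElem?_eq_getElem hi] at h1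
        rw [List.getElem?_eq_getElem (hmod _)] at h2
        exact Prod.ext (Option.some.inj h1) (Option.some.inj h2)
      · rintro ⟨⟨i, hi⟩, _, h⟩
        obtain ⟨h1, h2⟩ := Prod.mk.inj h
        refine ⟨i, hi, ?_, ?_⟩
        · rw [List.getElem?_eq_getElem hi]; exact congrArg some h1
        · rw [List.getElem?_eq_getElem (hmod _)]; exact congrArg some h2
    rw [e, card_image_of_injective, card_univ, Fintype.card_fin]
    rintro ⟨i, hi⟩ ⟨j, hj⟩ h
    have h1 := (Prod.mk.inj h).1
    apply Fin.ext
    apply bl1_inj hl (x := l[i])
    · rw [List.getElem?_eq_getElem hi]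
    · rw [List.getElem?_eq_getElem hj]; exact congrArg some h1.symm

theorem bl1_mod {n i j : ℕ} (hi : i < n) (hj : j < n) (h : (i + 1) % n = (j + 1) % n) : i = j := by
  rcases Nat.lt_or_ge (i + 1) n with h1 | h1
  · rcases Nat.lt_or_ge (j + 1) n with h2 | h2
    · rw [Nat.mod_eq_of_lt h1, Nat.mod_eq_of_lt h2] at h
      omega
    · have : j + 1 = n := by omega
      rw [Nat.mod_eq_of_lt h1, this, Nat.mod_self] at h
      omega
  · have h3 : i + 1 = n := by omega
    rcases Nat.lt_or_ge (j + 1) n with h2 | h2
    · rw [Nat.mod_eq_of_lt h2, h3, Nat.mod_self] at h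
      omega
    · omega

/-- The closed polygon of a nodup list is a single orbit: first components are pairwise distinct,
second components are pairwise distinct, and one can walk from any vertex to any other one. -/
theorem cyc_orb {l : List α} (hl : l.Nodup) : IsOrb (cyc l) where
  outu := by
    intro a b c h1 h2
    obtain ⟨i, hi, h3, h4⟩ := bl1_mem_cyc_iff.1 h1
    obtain ⟨j, hj, h5, h6⟩ := bl1_mem_cyc_iff.1 h2
    have := bl1_inj hl h3 h5
    subst this
    exact Option.some.inj (h4.symm.trans h6)
  inu := by
    intro a b c h1 h2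
    obtain ⟨i, hi, h3, h4⟩ := bl1_mem_cyc_iff.1 h1
    obtain ⟨j, hj, h5, h6⟩ := bl1_mem_cyc_iff.1 h2
    have := bl1_mod hi hj (bl1_inj hl h4 h6)
    subst this
    exact Option.some.inj (h3.symm.trans h5)
  orbit := by
    intro a b c d h1 h2
    obtain ⟨i, hi, h3, h4⟩ := bl1_mem_cyc_iff.1 h1
    obtain ⟨j, hj, h5, h6⟩ := bl1_mem_cyc_iff.1 h2
    have h0 : 0 < l.length := by omega
    have hmod : ∀ i : ℕ, i % l.length < l.length := fun i => Nat.mod_lt _ h0
    have key : ∀ k : ℕ, Relation.ReflTransGen (fun x y => (x, y) ∈ cyc l)
        (l[(i + 1) % l.length]'(hmod _)) (l[(i + 1 + k) % l.length]'(hmod _)) := by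
      intro k
      induction k with
      | zero => exact Relation.ReflTransGen.refl
      | succ k ih =>
        refine ih.tail ?_
        rw [bl1_mem_cyc_iff]
        refine ⟨(i + 1 + k) % l.length, hmod _, List.getElem?_eq_getElem (hmod _), ?_⟩
        have e : ((i + 1 + k) % l.length + 1) % l.length = (i + 1 + (k + 1)) % l.length := by
          rw [Nat.mod_add_mod]; rfl
        rw [e]
        exact List.getElem?_eq_getElem (hmod _)
    have h7 := key (j + l.length - (i + 1))
    have e2 : (i + 1 + (j + l.length - (i + 1))) % l.length = j := by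
      have : i + 1 + (j + l.length - (i + 1)) = j + l.length := by omega
      rw [this, Nat.add_mod_right, Nat.mod_eq_of_lt hj]
    have e3 : l[(i + 1) % l.length]'(hmod _) = b := by
      rw [List.getElem?_eq_getElem (hmod _)] at h4
      exact Option.some.inj h4
    have e4 : l[(i + 1 + (j + l.length - (i + 1))) % l.length]'(hmod _) = c := by
      have : l[(i + 1 + (j + l.length - (i + 1))) % l.length]? = some c := by
        rw [e2]; exact h5
      exact (List.getElem?_eq_some_iff.1 this).2
    rw [e3, e4] at h7
    exact h7

theorem cyc_ne {l : List α} (hl : l.Nodup) (h2 : 2 ≤ l.length) {a b : α} (h : (a, b) ∈ cyc l) :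
    a ≠ b := by
  rintro rfl
  obtain ⟨i, hi, h3, h4⟩ := bl1_mem_cyc_iff.1 h
  have := bl1_inj hl h3 h4
  rcases Nat.lt_or_ge (i + 1) l.length with h1 | h1
  · rw [Nat.mod_eq_of_lt h1] at this
    omega
  · have h5 : i + 1 = l.length := by omega
    rw [h5, Nat.mod_self] at this
    omega

/-- No side is traversed in both directions if the length is at least three. -/
theorem cyc_no_rev {l : List α} (hl : l.Nodup) (h3 : 3 ≤ l.length) {a b : α}
    (h : (a, b) ∈ cyc l) : (b, a) ∉ cyc l := by
  intro h'
  obtain ⟨i, hi, h5, h4⟩ := bl1_mem_cyc_iff.1 h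
  obtain ⟨j, hj, h6, h7⟩ := bl1_mem_cyc_iff.1 h'
  have e1 := bl1_inj hl h4 h6
  have e2 := bl1_inj hl h5 h7
  rcases Nat.lt_or_ge (i + 1) l.length with h1 | h1
  · rw [Nat.mod_eq_of_lt h1] at e1
    rcases Nat.lt_or_ge (j + 1) l.length with h8 | h8
    · rw [Nat.mod_eq_of_lt h8] at e2
      omega
    · have h9 : j + 1 = l.length := by omega
      rw [h9, Nat.mod_self] at e2
      omega
  · have h9 : i + 1 = l.length := by omega
    rw [h9, Nat.mod_self] at e1
    have h8 : j + 1 < l.length := by omega
    rw [Nat.mod_eq_of_lt h8] at e2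
    omega

end H19S.PB
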