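import Pool.Agent.Lib.H19S.BList1

/-!
# H19S part B, chunk BL2: a single orbit is the polygon of a nodup list

PROOF.  Every vertex of `vb L` has a unique out-edge (from `orbit` applied to a pair of edges one gets a
walk of positive length or equality) and a unique in-edge.  Take `(a, b) ∈ L`.  Consider the lists `l`
with `l.Nodup`, `path l ⊆ L`, `l` starting with `a`; their length is bounded by `(vb L).card`, take a longest
one, with last element `z`.  Let `(z, w)` be the out-edge of `z`.  If `w ∉ l` the list is not longest.  So `w ∈ l`;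
if `w ≠ a` then `w` has an in-edge from its predecessor in `l`, which is `≠ z`, and the in-edge from `z`: contradiction with
`inu`.  So `w = a` and `cyc l ⊆ L`.  Conversely the vertices reachable from `a` all belong to `l` (the out-edge of
a vertex of `l` is the one in `cyc l`), and by `orbit` every vertex of `L` is reachable, so `L ⊆ cyc l`.
The length is `card_cyc`.
-/

namespace H19S.PB

open Finset

variable {α : Type*} [DecidableEq α]

theorem bl2_out {L : Finset (α × α)} (h : IsOrb L) {a b : α} (hab : (a, b) ∈ L) :
    ∃ c, (b, c) ∈ L := by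
  have := h.orbit hab hab
  rcases Relation.ReflTransGen.cases_head this with h1 | ⟨c, h1, _⟩
  · exact ⟨b, by rw [h1] at hab ⊢; exact hab⟩
  · exact ⟨c, h1⟩

theorem orb_list {L : Finset (α × α)} (h : IsOrb L) (hne : L.Nonempty) :
    ∃ l : List α, l.Nodup ∧ L = cyc l ∧ l.length = L.card := by
  classical
  obtain ⟨⟨a, b⟩, hab⟩ := hne
  -- successor function
  let f : α → α := fun x => if hx : ∃ y, (x, y) ∈ L then hx.choose else x
  have hf : ∀ {x y : α}, (x, y) ∈ L → f x = y := by
    intro x y hxy
    have hx : ∃ y, (x, y) ∈ L := ⟨y, hxy⟩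
    have e : f x = hx.choose := dif_pos hx
    rw [e]
    exact h.outu hx.choose_spec hxy
  have hf2 : ∀ {x : α}, (∃ y, (x, y) ∈ L) → (x, f x) ∈ L := by
    rintro x ⟨y, hxy⟩
    rw [hf hxy]
    exact hxy
  -- all iterates have an out-edge
  have hit : ∀ n : ℕ, (f^[n] a, f (f^[n] a)) ∈ L := by
    intro n
    induction n with
    | zero => exact hf2 ⟨b, hab⟩
    | succ n ih =>
      rw [Function.iterate_succ_apply']
      exact hf2 (bl2_out h ih)
  -- everything reachable from an iterate is an iterate
  have hreach : ∀ {x y : α}, Relation.ReflTransGen (fun x y => (x, y) ∈ L) x y →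
      ∃ n : ℕ, y = f^[n] x := by
    intro x y hxy
    induction hxy with
    | refl => exact ⟨0, rfl⟩
    | tail _ h2 ih =>
      obtain ⟨n, hn⟩ := ih
      refine ⟨n + 1, ?_⟩
      rw [Function.iterate_succ_apply', ← hn, hf h2]
  have hfa : f a = b := hf hab
  have hfirst : ∀ {c d : α}, (c, d) ∈ L → ∃ n : ℕ, c = f^[n] a := by
    intro c d hcd
    obtain ⟨n, hn⟩ := hreach (h.orbit hab hcd)
    refine ⟨n + 1, ?_⟩
    rw [Function.iterate_succ_apply, hfa]
    exact hn
  have hper : a ∈ Function.periodicPts f := by
    obtain ⟨n, hn⟩ := hreach (h.orbit hab hab)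
    refine ⟨n + 1, Nat.succ_pos n, ?_⟩
    change f^[n + 1] a = a
    rw [Function.iterate_succ_apply, hfa]
    exact hn.symm
  have hpos : 0 < Function.minimalPeriod f a := Function.minimalPeriod_pos_of_mem_periodicPts hper
  set N := Function.minimalPeriod f a with hN
  have hmodN : ∀ n : ℕ, f^[n % N] a = f^[n] a := fun n => Function.iterate_mod_minimalPeriod_eq
  let l : List α := (List.range N).map (fun i => f^[i] a)
  have hlen : l.length = N := by simp [l]
  have hget : ∀ i : ℕ, i < N → l[i]? = some (f^[i] a) := by
    intro i hi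
    simp [l, hi]
  have hnd : l.Nodup := by
    apply List.Nodup.map_on _ List.nodup_range
    intro i hi j hj hij
    rw [List.mem_range] at hi hj
    exact Function.iterate_injOn_Iio_minimalPeriod hi hj hij
  have hL : L = cyc l := by
    ext ⟨x, y⟩
    rw [bl1_mem_cyc_iff, hlen]
    constructor
    · intro hxy
      obtain ⟨n, hn⟩ := hfirst hxy
      refine ⟨n % N, Nat.mod_lt _ hpos, ?_, ?_⟩
      · rw [hget _ (Nat.mod_lt _ hpos), hmodN, hn]
      · rw [hget _ (Nat.mod_lt _ hpos), hmodN, Function.iterate_succ_apply', hmodN, ← hn, hf hxy]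
    · rintro ⟨i, hi, h1, h2⟩
      rw [hget i hi] at h1
      rw [hget _ (Nat.mod_lt _ hpos), hmodN, Function.iterate_succ_apply'] at h2
      rw [← Option.some.inj h1, ← Option.some.inj h2]
      exact hit i
  refine ⟨l, hnd, hL, ?_⟩
  rw [← card_cyc hnd, ← hL]

end H19S.PB
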