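import Pool.Agent.Lib.H19S.BDefs

/-!
# H19S part B, chunk BN4: growth of the numbers `Zf`

PROOFS.  With `k = l - 3`: `Zf l (m+1) / Zf l m = (4m+2k+5)(4m+2k+4)(4m+2k+3)(4m+2k+2) / ((m+1)(3m+2k+6)(3m+2k+5)(3m+2k+4))`.
`En1` for `D = 1`: `27 (4m+2k+5)(4m+2k+4)(4m+2k+3)(4m+2k+2)(m+1)^2 - 256 m^3 (3m+2k+6)(3m+2k+5)(3m+2k+4)` is a polynomial in `m`, `k` with
nonnegative coefficients (expand, `positivity`/`nlinarith`); general `D` by induction (telescoping of `(m/(m+1))^3`).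
`En2` (`k = 0`): `4m+5 ≤ (4/3)(3m+6)`, `4m+3 ≤ (4/3)(3m+5)`, `4m+2 ≤ (4/3)(3m+4)`, `4m+4 = 4(m+1)`.
-/

namespace H19S.PB

open Finset

theorem Zf_pos (l m : ℕ) : 0 < Zf l m := by
  unfold Zf
  positivity

/-- The ratio of consecutive values. -/
theorem BN4_step (k m : ℕ) : Zf (k + 3) (m + 1) *
    (((m : ℝ) + 1) * ((3 * m + 2 * k + 6) * ((3 * m + 2 * k + 5) * (3 * m + 2 * k + 4)))) =
    Zf (k + 3) m * ((4 * m + 2 * k + 5) * ((4 * m + 2 * k + 4) * ((4 * m + 2 * k + 3) *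
      (4 * m + 2 * k + 2)))) := by
  have e1 : ((4 * (m + 1) + 2 * (k + 3 - 3) + 1).factorial : ℝ) =
      (4 * m + 2 * k + 5) * ((4 * m + 2 * k + 4) * ((4 * m + 2 * k + 3) *
      ((4 * m + 2 * k + 2) * (4 * m + 2 * (k + 3 - 3) + 1).factorial))) := by
    have h : 4 * (m + 1) + 2 * (k + 3 - 3) + 1 = (4 * m + 2 * k + 1) + 1 + 1 + 1 + 1 := by omega
    have h2 : 4 * m + 2 * (k + 3 - 3) + 1 = 4 * m + 2 * k + 1 := by omega
    rw [h, h2, Nat.factorial_succ, Nat.factorial_succ, Nat.factorial_succ, Nat.factorial_succ]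
    push_cast
    ring
  have e2 : ((3 * (m + 1) + 2 * (k + 3 - 3) + 3).factorial : ℝ) =
      (3 * m + 2 * k + 6) * ((3 * m + 2 * k + 5) * ((3 * m + 2 * k + 4) *
      (3 * m + 2 * (k + 3 - 3) + 3).factorial)) := by
    have h : 3 * (m + 1) + 2 * (k + 3 - 3) + 3 = (3 * m + 2 * k + 3) + 1 + 1 + 1 := by omega
    have h2 : 3 * m + 2 * (k + 3 - 3) + 3 = 3 * m + 2 * k + 3 := by omega
    rw [h, h2, Nat.factorial_succ, Nat.factorial_succ, Nat.factorial_succ]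
    push_cast
    ring
  have e3 : ((m + 1).factorial : ℝ) = (m + 1) * m.factorial := by
    rw [Nat.factorial_succ]; push_cast; ring
  unfold Zf
  rw [e1, e2, e3]
  have p1 : ((k + 3 - 3 + 2).factorial : ℝ) ≠ 0 := by positivity
  have p2 : ((k + 3 - 3).factorial : ℝ) ≠ 0 := by positivity
  have p3 : (m.factorial : ℝ) ≠ 0 := by positivity
  have p4 : ((3 * m + 2 * (k + 3 - 3) + 3).factorial : ℝ) ≠ 0 := by positivity
  have p5 : ((m : ℝ) + 1) ≠ 0 := by positivity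
  have p6 : ((3 : ℝ) * m + 2 * k + 6) ≠ 0 := by positivity
  have p7 : ((3 : ℝ) * m + 2 * k + 5) ≠ 0 := by positivity
  have p8 : ((3 : ℝ) * m + 2 * k + 4) ≠ 0 := by positivity
  field_simp

theorem BN4_one (k m : ℕ) :
    (256 / 27 : ℝ) * ((m : ℝ) / (m + 1)) ^ 3 * Zf (k + 3) m ≤ Zf (k + 3) (m + 1) := by
  have h := BN4_step k m
  have hZ := Zf_pos (k + 3) m
  have hm : (0 : ℝ) ≤ m := Nat.cast_nonneg m
  have hk : (0 : ℝ) ≤ k := Nat.cast_nonneg k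
  set Z := Zf (k + 3) m with hZd
  set W := Zf (k + 3) (m + 1) with hWd
  set M : ℝ := (m : ℝ) with hM
  set K : ℝ := (k : ℝ) with hK
  have hden : 0 < (M + 1) * ((3 * M + 2 * K + 6) * ((3 * M + 2 * K + 5) * (3 * M + 2 * K + 4))) := by
    positivity
  have key : 256 * M ^ 3 * ((3 * M + 2 * K + 6) * ((3 * M + 2 * K + 5) * (3 * M + 2 * K + 4))) ≤
      27 * (M + 1) ^ 2 * ((4 * M + 2 * K + 5) * ((4 * M + 2 * K + 4) * ((4 * M + 2 * K + 3) *
      (4 * M + 2 * K + 2)))) := by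
    rw [← sub_nonneg]
    ring_nf
    positivity
  have hW : W = Z * ((4 * M + 2 * K + 5) * ((4 * M + 2 * K + 4) * ((4 * M + 2 * K + 3) *
      (4 * M + 2 * K + 2)))) /
      ((M + 1) * ((3 * M + 2 * K + 6) * ((3 * M + 2 * K + 5) * (3 * M + 2 * K + 4)))) := by
    rw [eq_div_iff hden.ne']
    exact h
  rw [hW, div_pow, le_div_iff₀ hden]
  have e : (256 / 27 : ℝ) * (M ^ 3 / (M + 1) ^ 3) * Z *
      ((M + 1) * ((3 * M + 2 * K + 6) * ((3 * M + 2 * K + 5) * (3 * M + 2 * K + 4)))) =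
      Z * (256 * M ^ 3 * ((3 * M + 2 * K + 6) * ((3 * M + 2 * K + 5) * (3 * M + 2 * K + 4)))) /
        (27 * (M + 1) ^ 2) := by
    have : (M + 1) ≠ 0 := by positivity
    field_simp
  rw [e, div_le_iff₀ (by positivity)]
  calc Z * (256 * M ^ 3 * ((3 * M + 2 * K + 6) * ((3 * M + 2 * K + 5) * (3 * M + 2 * K + 4)))) ≤
      Z * (27 * (M + 1) ^ 2 * ((4 * M + 2 * K + 5) * ((4 * M + 2 * K + 4) * ((4 * M + 2 * K + 3) *
      (4 * M + 2 * K + 2))))) := mul_le_mul_of_nonneg_left key hZ.le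
    _ = _ := by ring

theorem En1 {l m : ℕ} (hl : 3 ≤ l) (hm : 1 ≤ m) (D : ℕ) :
    (256 / 27 : ℝ) ^ D * ((m : ℝ) / (m + D)) ^ 3 * Zf l m ≤ Zf l (m + D) := by
  obtain ⟨k, rfl⟩ : ∃ k, l = k + 3 := ⟨l - 3, by omega⟩
  have hm0 : (0 : ℝ) < m := by exact_mod_cast hm
  induction D with
  | zero =>
    simp [div_self hm0.ne']
  | succ D ih =>
    have h1 := BN4_one k (m + D)
    have h2 : (256 / 27 : ℝ) * (((m + D : ℕ) : ℝ) / (((m + D : ℕ) : ℝ) + 1)) ^ 3 *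
        ((256 / 27 : ℝ) ^ D * ((m : ℝ) / (m + D)) ^ 3 * Zf (k + 3) m) ≤
        (256 / 27 : ℝ) * (((m + D : ℕ) : ℝ) / (((m + D : ℕ) : ℝ) + 1)) ^ 3 *
          Zf (k + 3) (m + D) :=
      mul_le_mul_of_nonneg_left ih (by positivity)
    refine le_trans (le_of_eq ?_) (h2.trans h1)
    have hd : ((m : ℝ) + D) ≠ 0 := by positivity
    have hd1 : ((m : ℝ) + D + 1) ≠ 0 := by positivity
    push_cast
    rw [pow_succ (256 / 27 : ℝ) D, ← add_assoc]
    generalize (256 / 27 : ℝ) ^ D = E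
    field_simp

theorem En2 (m : ℕ) : Zf 3 (m + 1) ≤ 256 / 27 * Zf 3 m := by
  have h := BN4_step 0 m
  have hZ := Zf_pos (0 + 3) m
  have hm : (0 : ℝ) ≤ m := Nat.cast_nonneg m
  simp only [Nat.zero_add] at h hZ
  set Z := Zf 3 m with hZd
  set W := Zf 3 (m + 1) with hWd
  set M : ℝ := (m : ℝ) with hM
  simp only [Nat.cast_zero, mul_zero, add_zero] at h
  have hden : 0 < (M + 1) * ((3 * M + 6) * ((3 * M + 5) * (3 * M + 4))) := by positivity
  have key : (4 * M + 5) * ((4 * M + 4) * ((4 * M + 3) * (4 * M + 2))) ≤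
      256 / 27 * ((M + 1) * ((3 * M + 6) * ((3 * M + 5) * (3 * M + 4)))) := by
    rw [← sub_nonneg]
    ring_nf
    positivity
  have h2 : W * ((M + 1) * ((3 * M + 6) * ((3 * M + 5) * (3 * M + 4)))) ≤
      256 / 27 * Z * ((M + 1) * ((3 * M + 6) * ((3 * M + 5) * (3 * M + 4)))) := by
    rw [h]
    calc Z * ((4 * M + 5) * ((4 * M + 4) * ((4 * M + 3) * (4 * M + 2)))) ≤
        Z * (256 / 27 * ((M + 1) * ((3 * M + 6) * ((3 * M + 5) * (3 * M + 4))))) :=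
          mul_le_mul_of_nonneg_left key hZ.le
      _ = _ := by ring
  exact le_of_mul_le_mul_right h2 hden

theorem Zf3_zero : Zf 3 0 = 1 := by
  unfold Zf
  norm_num [Nat.factorial]

theorem Zf3_one : Zf 3 1 = 1 := by
  unfold Zf
  norm_num [Nat.factorial]

end H19S.PB
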