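import Pool.Agent.Lib.H19S.BCount
import Pool.Agent.Lib.H19S.BFill
import Pool.Agent.Lib.H19S.BLab
import Pool.Agent.Lib.H19S.BList2
import Pool.Agent.Lib.H19S.BNum4

/-!
# H19S part B: main results
-/

namespace H19S.PB

open Finset

theorem isCyc_orb {α : Type*} {B : Finset (α × α)} (h : IsCyc B) : IsOrb B :=
  ⟨h.outu, h.inu, h.orbit⟩

/-- PART B (enumeration of fillings). -/
theorem fill_card {B : Finset (ℕ × ℕ)} {I : Finset ℕ} {o : ℕ} (hB : IsCyc B)
    (hI : Disjoint I (vb B)) (ho : o ∉ vb B ∪ I) :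
    ((Fill o B I).card : ℝ) = I.card.factorial * Zf B.card I.card := by
  obtain ⟨l, hl, rfl, hc⟩ := orb_list (isCyc_orb hB) (card_pos.1 (by have := hB.card; omega))
  have h3 : 3 ≤ l.length := by rw [hc]; exact hB.card
  rw [vb_cyc] at hI ho
  rw [fill_eq hl h3 hI ho, tf_card I.card l.length (by omega) o l I hl rfl rfl hI ho, ← hc, Zt,
    if_neg (by omega)]

theorem sum_faces (S : Finset ℕ) : ∑ F ∈ LabS S, F.card =
    ∑ t ∈ S ×ˢ S ×ˢ S, ((LabS S).filter (fun F => t ∈ F)).card := by
  classical
  have h1 : ∀ F ∈ LabS S, F.card = ∑ t ∈ S ×ˢ S ×ˢ S, if t ∈ F then 1 else 0 := by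
    intro F hF
    rw [LabS, mem_filter, mem_powerset] at hF
    rw [← card_filter, ← inter_eq_right.2 hF.1]
    congr 1
    ext t
    simp only [mem_inter, mem_filter]
    exact ⟨fun h => ⟨h.1, h⟩, fun h => ⟨h.1, h.2.2⟩⟩
  rw [sum_congr rfl h1, sum_comm]
  apply sum_congr rfl
  intro t _
  rw [card_filter]

/-- PART B (number of labelled triangulations). -/
theorem lab_card {n : ℕ} (hn : 3 ≤ n) :
    ((Lab n).card : ℝ) * (6 * n - 12) = n.factorial * Zf 3 (n - 3) := by
  classical
  have h1 : ∀ F ∈ LabS (range n), (F.card : ℝ) = 6 * n - 12 := by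
    intro F hF
    rw [LabS, mem_filter] at hF
    have := hF.2.1.euler
    rw [hF.2.2, card_range] at this
    have : (F.card : ℝ) + 12 = 6 * n := by exact_mod_cast this
    linarith
  have h2 : ((Lab n).card : ℝ) * (6 * n - 12) = ((∑ F ∈ LabS (range n), F.card : ℕ) : ℝ) := by
    rw [Nat.cast_sum, sum_congr rfl h1, sum_const, nsmul_eq_mul]
    rfl
  rw [h2, sum_faces]
  have h3 : ∀ t ∈ range n ×ˢ range n ×ˢ range n,
      ((((LabS (range n)).filter (fun F => t ∈ F)).card : ℕ) : ℝ) =
      if (t.1 ≠ t.2.1 ∧ t.2.1 ≠ t.2.2 ∧ t.2.2 ≠ t.1) then (n - 3).factorial * Zf 3 (n - 3)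
      else 0 := by
    rintro ⟨a, b, c⟩ ht
    simp only [mem_product] at ht
    split_ifs with h
    · simp only at h
      rw [lab_face ht.1 ht.2.1 ht.2.2 h.1 h.2.1 h.2.2 (o := n) (by simp)]
      have hnd : [b, a, c].Nodup := by
        simp only [List.nodup_cons, List.mem_cons, List.not_mem_nil, or_false, not_or,
          not_false_eq_true, List.nodup_nil, and_true]
        exact ⟨⟨Ne.symm h.1, h.2.1⟩, Ne.symm h.2.2⟩
      have hsub : ({a, b, c} : Finset ℕ) ⊆ range n := by
        intro x hx
        simp only [mem_insert, mem_singleton] at hx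
        rcases hx with rfl | rfl | rfl
        exacts [ht.1, ht.2.1, ht.2.2]
      have hcard : (range n \ {a, b, c}).card = n - 3 := by
        rw [card_sdiff_of_subset hsub, card_range]
        congr 1
        rw [card_insert_of_notMem, card_insert_of_notMem, card_singleton]
        · simpa using h.2.1
        · simp only [mem_insert, mem_singleton, not_or]
          exact ⟨h.1, Ne.symm h.2.2⟩
      have hset : [b, a, c].toFinset = {a, b, c} := by
        ext x
        simp only [List.toFinset_cons, List.toFinset_nil, insert_empty_eq, mem_insert,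
          mem_singleton]
        tauto
      rw [tf_card (n - 3) 3 (by norm_num) n [b, a, c] _ hnd rfl hcard
        (by rw [hset]; exact sdiff_disjoint) (by
          rw [hset, mem_union, not_or]
          constructor
          · intro hh
            exact absurd (mem_range.1 (hsub hh)) (lt_irrefl _)
          · simp)]
      rw [Zt, if_neg (by norm_num)]
    · rw [Nat.cast_eq_zero, card_eq_zero, filter_eq_empty_iff]
      intro F hF hmem
      rw [LabS, mem_filter] at hF
      exact h (ne3 hF.2.1.toIsSurf hmem)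
  rw [Nat.cast_sum, sum_congr rfl h3, ← sum_filter, sum_const, nsmul_eq_mul]
  have h4 : ((range n ×ˢ range n ×ˢ range n).filter
      (fun t : ℕ × ℕ × ℕ => t.1 ≠ t.2.1 ∧ t.2.1 ≠ t.2.2 ∧ t.2.2 ≠ t.1)).card =
      n * (n - 1) * (n - 2) := by
    have hfib : ((range n ×ˢ range n ×ˢ range n).filter
      (fun t : ℕ × ℕ × ℕ => t.1 ≠ t.2.1 ∧ t.2.1 ≠ t.2.2 ∧ t.2.2 ≠ t.1)) =
        (range n).biUnion (fun a => ((range n).erase a).biUnion (fun b =>
          (((range n).erase a).erase b).image (fun c => (a, b, c)))) := by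
      ext ⟨a, b, c⟩
      simp only [mem_filter, mem_product, mem_biUnion, mem_erase, mem_image, Prod.mk.injEq]
      constructor
      · rintro ⟨⟨ha, hb, hc⟩, h1, h2, h3⟩
        exact ⟨a, ha, b, ⟨Ne.symm h1, hb⟩, c, ⟨Ne.symm h2, h3, hc⟩, rfl, rfl, rfl⟩
      · rintro ⟨a', ha, b', ⟨h1, hb⟩, c', ⟨h2, h3, hc⟩, rfl, rfl, rfl⟩
        exact ⟨⟨ha, hb, hc⟩, Ne.symm h1, Ne.symm h2, h3⟩
    rw [hfib, card_biUnion, sum_const_nat (m := (n - 1) * (n - 2)), card_range, mul_assoc]
    · intro a ha
      rw [card_biUnion, sum_const_nat (m := n - 2), card_erase_of_mem ha, card_range]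
      · intro b hb
        rw [card_image_of_injective _ (fun x y hxy => by simpa using hxy),
          card_erase_of_mem hb, card_erase_of_mem ha, card_range]
        rfl
      · intro b _ b' _ hbb'
        rw [Function.onFun, Finset.disjoint_left]
        intro t ht ht'
        simp only [mem_image] at ht ht'
        obtain ⟨x, _, rfl⟩ := ht
        obtain ⟨x', _, hx'⟩ := ht'
        simp only [Prod.mk.injEq] at hx'
        exact hbb' hx'.2.1.symm
    · intro a _ a' _ haa'
      rw [Function.onFun, Finset.disjoint_left]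
      intro t ht ht'
      simp only [mem_biUnion, mem_image] at ht ht'
      obtain ⟨_, _, _, _, rfl⟩ := ht
      obtain ⟨_, _, _, _, hx'⟩ := ht'
      simp only [Prod.mk.injEq] at hx'
      exact haa' hx'.1.symm
  rw [h4]
  have h5 : n * (n - 1) * (n - 2) * (n - 3).factorial = n.factorial := by
    obtain ⟨k, rfl⟩ : ∃ k, n = k + 3 := ⟨n - 3, by omega⟩
    simp only [Nat.add_sub_cancel, Nat.factorial_succ]
    have e1 : k + 3 - 1 = k + 2 := by omega
    have e2 : k + 3 - 2 = k + 1 := by omega
    rw [e1, e2]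
    ring
  rw [← mul_assoc, ← Nat.cast_mul, h5]

end H19S.PB
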