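import Pool.Agent.Lib.H19S.BDefs

/-!
# H19S part B, chunk BN1: the numbers `cn r m` (`[x^m] B^r`, `B = 1 + x B^4`)

PROOFS.  `cn (r+1) 0 = (r+1) r! / (r+1)! = 1`.
`cn_succ`: for `r ≥ 1`, with `M = (4m + r + 4)`: `cn (r+1) (m+1) = (r+1) (M)! / ((m+1)! (3m+r+4)!)`, `cn r (m+1) = r (M-1)! / ((m+1)! (3m+r+3)!)`,
`cn (r+4) m = (r+4) (M-1)! / (m! (3m+r+4)!)`; multiply by `(m+1)! (3m+r+4)! / (M-1)!`: `(r+1) M = r (3m+r+4) + (r+4)(m+1)`.
For `r = 0`: `cn 1 (m+1) = (4m+4)! / ((m+1)! (3m+4)!)`, `cn 4 m = 4 (4m+3)! / (m! (3m+4)!)`.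
`P_mul`: put `P r = PowerSeries.mk (cn r)`; `P 0 = 1`, `P (r+1) = P r + X * P (r+4)`.  Show by strong induction on `m` and, for fixed `m`, by induction on
`r`, that the coefficient `m` of `P r * P s - P (r+s)` vanishes for all `s`:
`P (r+1) * P s - P (r+1+s) = (P r * P s - P (r+s)) + X * (P (r+4) * P s - P (r+s+4))`.
-/

namespace H19S.PB

open Finset

theorem cn_zero (r : ℕ) : cn r 0 = 1 := by
  unfold cn
  rcases Nat.eq_zero_or_pos r with h | h
  · simp [h]
  · obtain ⟨k, rfl⟩ : ∃ k, r = k + 1 := ⟨r - 1, by omega⟩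
    have h1 : (4 * 0 + (k + 1) - 1) = k := by omega
    have h2 : (3 * 0 + (k + 1)) = k + 1 := by omega
    rw [if_neg (Nat.succ_ne_zero k), h1, h2, Nat.factorial_succ k]
    have h3 : (Nat.factorial k : ℝ) ≠ 0 := by exact_mod_cast Nat.factorial_ne_zero k
    have h4 : ((k : ℝ) + 1) ≠ 0 := by positivity
    push_cast
    rw [Nat.factorial_zero]
    field_simp
    simp

theorem cn_succ (r m : ℕ) : cn (r + 1) (m + 1) = cn r (m + 1) + cn (r + 4) m := by
  have hm : (Nat.factorial m : ℝ) ≠ 0 := by exact_mod_cast Nat.factorial_ne_zero m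
  have hm1 : ((m : ℝ) + 1) ≠ 0 := by positivity
  unfold cn
  rcases Nat.eq_zero_or_pos r with h | h
  · subst h
    have h1 : (4 * (m + 1) + (0 + 1) - 1) = (4 * m + 3) + 1 := by omega
    have h2 : (3 * (m + 1) + (0 + 1)) = 3 * m + 4 := by omega
    have h3 : (4 * m + (0 + 4) - 1) = 4 * m + 3 := by omega
    have h4 : (3 * m + (0 + 4)) = 3 * m + 4 := by omega
    rw [if_neg (Nat.succ_ne_zero _), if_pos rfl, if_neg (Nat.succ_ne_zero _),
      if_neg (by omega : ¬ (0 + 4 = 0)), h1, h2, h3, h4, Nat.factorial_succ (4 * m + 3),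
      Nat.factorial_succ m]
    have h5 : (Nat.factorial (3 * m + 4) : ℝ) ≠ 0 := by exact_mod_cast Nat.factorial_ne_zero _
    push_cast
    field_simp
    ring
  · have h1 : (4 * (m + 1) + (r + 1) - 1) = (4 * m + r + 3) + 1 := by omega
    have h2 : (3 * (m + 1) + (r + 1)) = (3 * m + r + 3) + 1 := by omega
    have h3 : (4 * (m + 1) + r - 1) = 4 * m + r + 3 := by omega
    have h4 : (3 * (m + 1) + r) = 3 * m + r + 3 := by omega
    have h5 : (4 * m + (r + 4) - 1) = 4 * m + r + 3 := by omega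
    have h6 : (3 * m + (r + 4)) = (3 * m + r + 3) + 1 := by omega
    rw [if_neg (Nat.succ_ne_zero _), if_neg (by omega : ¬ r = 0), if_neg (by omega : ¬ (r + 4 = 0)),
      h1, h2, h3, h4, h5, h6, Nat.factorial_succ (4 * m + r + 3), Nat.factorial_succ m,
      Nat.factorial_succ (3 * m + r + 3)]
    have h7 : (Nat.factorial (3 * m + r + 3) : ℝ) ≠ 0 := by exact_mod_cast Nat.factorial_ne_zero _
    have h8 : ((3 : ℝ) * m + r + 3 + 1) ≠ 0 := by positivity
    push_cast
    field_simp
    ring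

/-- The power series `B^r`. -/
noncomputable def P (r : ℕ) : PowerSeries ℝ := PowerSeries.mk (cn r)

theorem bn1_P_zero : P 0 = 1 := by
  ext n
  rw [P, PowerSeries.coeff_mk, PowerSeries.coeff_one]
  unfold cn
  simp

theorem bn1_P_succ (r : ℕ) : P (r + 1) = P r + PowerSeries.X * P (r + 4) := by
  ext n
  cases n with
  | zero =>
    simp [P, cn_zero]
  | succ m =>
    rw [map_add, PowerSeries.coeff_succ_X_mul, P, P, P, PowerSeries.coeff_mk, PowerSeries.coeff_mk,
      PowerSeries.coeff_mk, cn_succ]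

theorem P_mul (r s : ℕ) : P r * P s = P (r + s) := by
  have key : ∀ m r : ℕ, ∀ s : ℕ, PowerSeries.coeff m (P r * P s - P (r + s)) = 0 := by
    intro m
    induction m with
    | zero =>
      intro r
      induction r with
      | zero => intro s; simp [bn1_P_zero]
      | succ r ih =>
        intro s
        have e : P (r + 1) * P s - P (r + 1 + s) =
            (P r * P s - P (r + s)) + PowerSeries.X * (P (r + 4) * P s - P (r + 4 + s)) := by
          rw [show r + 1 + s = (r + s) + 1 by ring, bn1_P_succ (r + s), bn1_P_succ r,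
            show r + s + 4 = r + 4 + s by ring]
          ring
        rw [e, map_add, ih s, PowerSeries.coeff_zero_X_mul, add_zero]
    | succ m ihm =>
      intro r
      induction r with
      | zero => intro s; simp [bn1_P_zero]
      | succ r ih =>
        intro s
        have e : P (r + 1) * P s - P (r + 1 + s) =
            (P r * P s - P (r + s)) + PowerSeries.X * (P (r + 4) * P s - P (r + 4 + s)) := by
          rw [show r + 1 + s = (r + s) + 1 by ring, bn1_P_succ (r + s), bn1_P_succ r,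
            show r + s + 4 = r + 4 + s by ring]
          ring
        rw [e, map_add, ih s, PowerSeries.coeff_succ_X_mul, ihm (r + 4) s, add_zero]
  rw [← sub_eq_zero]
  ext m
  rw [key m r s]
  simp

theorem P_zero : P 0 = 1 := bn1_P_zero

/-- `B = 1 + x B^4`. -/
theorem P_one : P 1 = 1 + PowerSeries.X * P 4 := by
  have h := bn1_P_succ 0
  rw [bn1_P_zero] at h
  simpa using h

end H19S.PB
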