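import Pool.Agent.Lib.H19S.BDefs
import Pool.Agent.Lib.H19S.A1

/-!
# H19S part B, chunk BS1: basic facts on triangulated surfaces

PROOFS.
* `lk_orb`: `(a, b) ∈ lk T o` iff `(b, a, o) ∈ T` iff `(o, b, a) ∈ T`.  `outu`, `inu` are `uniq` after rotations.  For `orbit`: given
  `(a, b), (c, d) ∈ lk T o`; `(o, b, a) ∈ T` and, `c` being a neighbour of `o`, `(o, c, e) ∈ T` for some `e` (`(c, o, d) ∈ T`, use `opp`).
  `link` gives `ReflTransGen (fun x y => (o, x, y) ∈ T) c b`, and `(o, x, y) ∈ T` iff `(y, x) ∈ lk T o`; reverse this path.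
* `closed_sub`: this is `IsSurf.eq_of_bd_empty` of A1.  (Or directly: let `f ∈ D`.  By `link` and closure under `opp` and rotation, with one face at a vertex `v` all faces of `T` at `v` are
  in `D` (if `(v, x, y) ∈ D` and `(v, y, z) ∈ T` then `(y, v, x) ∈ D`, so `(v, y, z) ∈ D`, being the face of the opposite dart `(v, y)`).  By
  `conn` every vertex of `T` has this property (if all faces at `v` are in `D` and `Adj T v w`, then a face at `w` is in `D`).)
* `star_three`: the three rotated faces at `c` are `(c, p, q), (c, q, r), (c, r, p)`; they are closed under the successor of `link`, with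
  `uniq` every face `(c, x, y)` has `x ∈ {p, q, r}` and is one of them.
-/

namespace H19S.PB

open Finset

variable {α : Type*} [DecidableEq α]

theorem mem_lk {T : Finset (α × α × α)} {o a b : α} : (a, b) ∈ lk T o ↔ (b, a, o) ∈ T := by
  simp only [lk, mem_image, mem_filter, Prod.mk.injEq, Prod.exists]
  constructor
  · rintro ⟨x, y, z, ⟨h, rfl⟩, rfl, rfl⟩
    exact h
  · intro h
    exact ⟨b, a, o, ⟨h, rfl⟩, rfl, rfl⟩

theorem mem_rots {a b c x y z : α} : (x, y, z) ∈ rots a b c ↔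
    (x = a ∧ y = b ∧ z = c) ∨ (x = b ∧ y = c ∧ z = a) ∨ (x = c ∧ y = a ∧ z = b) := by
  simp [rots]

theorem mem_vs {T : Finset (α × α × α)} {x : α} : x ∈ vs T ↔ ∃ y z, (x, y, z) ∈ T := by
  simp [vs]

theorem mem_vs_of {T : Finset (α × α × α)} (h : IsSurf T) {a b c : α} (hf : (a, b, c) ∈ T) :
    a ∈ vs T ∧ b ∈ vs T ∧ c ∈ vs T :=
  ⟨mem_vs.2 ⟨_, _, hf⟩, mem_vs.2 ⟨_, _, h.rot hf⟩, mem_vs.2 ⟨_, _, h.rot (h.rot hf)⟩⟩

theorem rots_sub {T : Finset (α × α × α)} (h : IsSurf T) {a b c : α} (hf : (a, b, c) ∈ T) :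
    rots a b c ⊆ T := by
  intro t ht
  simp only [rots, mem_insert, mem_singleton] at ht
  rcases ht with rfl | rfl | rfl
  exacts [hf, h.rot hf, h.rot (h.rot hf)]

theorem ne3 {T : Finset (α × α × α)} (h : IsSurf T) {a b c : α} (hf : (a, b, c) ∈ T) :
    a ≠ b ∧ b ≠ c ∧ c ≠ a := ⟨h.ne hf, h.ne (h.rot hf), h.ne (h.rot (h.rot hf))⟩

theorem adj_symm {T : Finset (α × α × α)} (h : IsSurf T) {a b : α} (hab : Adj T a b) :
    Adj T b a := by
  obtain ⟨c, hc⟩ := hab
  exact h.opp hc

theorem lk_orb {T : Finset (α × α × α)} (h : IsSurf T) (o : α) : IsOrb (lk T o) where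
  outu := by
    intro a b c h1 h2
    rw [mem_lk] at h1 h2
    exact h.uniq (h.rot h1) (h.rot h2)
  inu := by
    intro a b c h1 h2
    rw [mem_lk] at h1 h2
    exact h.uniq (h.rot (h.rot h1)) (h.rot (h.rot h2))
  orbit := by
    intro a b c d h1 h2
    rw [mem_lk] at h1 h2
    obtain ⟨e, he⟩ := h.opp (h.rot h2)
    have hl := h.link he (h.rot (h.rot h1))
    have h3 : Relation.ReflTransGen (Function.swap (fun x y => (x, y) ∈ lk T o)) c b := by
      refine Relation.ReflTransGen.mono ?_ _ _ hl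
      intro x y hxy
      exact mem_lk.2 (h.rot hxy)
    exact Relation.reflTransGen_swap.1 h3

/-- A nonempty part of a surface which is closed under rotation and under crossing sides is
everything. -/
theorem closed_sub {T D : Finset (α × α × α)} (h : IsSurf T) (hD : D ⊆ T) (hne : D.Nonempty)
    (hrot : ∀ a b c, (a, b, c) ∈ D → (b, c, a) ∈ D)
    (hopp : ∀ a b c d, (a, b, c) ∈ D → (b, a, d) ∈ T → (b, a, d) ∈ D) : D = T :=
  h.eq_of_bd_empty hD (fun {a b c} hh => hrot a b c hh) hne hopp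

/-- The star of a vertex of degree three. -/
theorem star_three {T : Finset (α × α × α)} (h : IsSurf T) {p q r c : α} (h1 : (p, q, c) ∈ T)
    (h2 : (q, r, c) ∈ T) (h3 : (r, p, c) ∈ T) {x y : α} (hxy : (x, y, c) ∈ T) :
    (x = p ∧ y = q) ∨ (x = q ∧ y = r) ∨ (x = r ∧ y = p) := by
  have g1 := h.rot (h.rot h1)
  have g2 := h.rot (h.rot h2)
  have g3 := h.rot (h.rot h3)
  have gx := h.rot (h.rot hxy)
  have hl := h.link g1 gx
  have key : x = p ∨ x = q ∨ x = r := by
    clear gx hxy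
    induction hl with
    | refl => exact Or.inl rfl
    | tail _ hs ih =>
      rcases ih with rfl | rfl | rfl
      · exact Or.inr (Or.inl (h.uniq hs g1))
      · exact Or.inr (Or.inr (h.uniq hs g2))
      · exact Or.inl (h.uniq hs g3)
  rcases key with rfl | rfl | rfl
  · exact Or.inl ⟨rfl, h.uniq gx g1⟩
  · exact Or.inr (Or.inl ⟨rfl, h.uniq gx g2⟩)
  · exact Or.inr (Or.inr ⟨rfl, h.uniq gx g3⟩)

end H19S.PB
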