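import Pool.Agent.Lib.H19S.BSurf
import Pool.Agent.Lib.H19S.BList1

/-!
# H19S part B: membership in `TF`, the third vertex of the root face (chunk BT1)
-/

namespace H19S.PB

open Finset

variable {α : Type*} [DecidableEq α]

theorem mem_TF {o : α} {l : List α} {I : Finset α} {T : Finset (α × α × α)} :
    T ∈ TF o l I ↔ IsTri T ∧ vs T = insert o (l.toFinset ∪ I) ∧ lk T o = cyc l := by
  classical
  simp only [TF, mem_filter, mem_powerset]
  constructor
  · exact fun h => h.2
  · intro h
    refine ⟨?_, h⟩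
    rintro ⟨x, y, z⟩ ht
    have := mem_vs_of h.1.toIsSurf ht
    simp only [mem_product]
    rw [← h.2.1]
    exact this

/-- The third vertex `y` of the face at the dart `(c0, c1)`.
PROOF. `(c0,c1) ∈ cyc = lk T o`, so `(c1,c0,o) ∈ T` and by `opp` `(c0,c1,y) ∈ T` for some `y`, a vertex of `T`.  `y ≠ c0, c1` by `ne`.  If `y = o`
then `(c1,c0) ∈ lk T o = cyc l`, against `cyc_no_rev` (length at least 3). -/
theorem TF_third {o c0 c1 : α} {l' : List α} {I : Finset α} (hl : (c0 :: c1 :: l').Nodup)
    (hl' : l' ≠ []) {T : Finset (α × α × α)} (hT : T ∈ TF o (c0 :: c1 :: l') I) :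
    ∃ y, (c0, c1, y) ∈ T ∧ (y ∈ l' ∨ y ∈ I) := by
  obtain ⟨hT1, hT2, hT3⟩ := mem_TF.1 hT
  have h0 : (c0, c1) ∈ cyc (c0 :: c1 :: l') := by
    simp [cyc, path]
  have h1 : (c0, c1) ∈ lk T o := by rw [hT3]; exact h0
  obtain ⟨y, hy⟩ := hT1.toIsSurf.opp (mem_lk.1 h1)
  refine ⟨y, hy, ?_⟩
  obtain ⟨-, hn2, hn3⟩ := ne3 hT1.toIsSurf hy
  have hv := (mem_vs_of hT1.toIsSurf hy).2.2
  rw [hT2] at hv
  have hyo : y ≠ o := by
    rintro rfl
    have h2 : (c1, c0) ∈ lk T y := mem_lk.2 hy
    rw [hT3] at h2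
    refine cyc_no_rev hl ?_ h0 h2
    simp only [List.length_cons]
    have : l'.length ≠ 0 := fun h => hl' (List.length_eq_zero_iff.1 h)
    omega
  simp only [mem_insert, mem_union, List.mem_toFinset, List.mem_cons] at hv
  rcases hv with h | (h | h | h) | h
  · exact absurd h hyo
  · exact absurd h hn3
  · exact absurd h.symm hn2
  · exact Or.inl h
  · exact Or.inr h

open Classical in
/-- Splitting according to the third vertex (it is unique by `uniq`; the elements of `l'` and of `I` are
pairwise distinct). -/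
theorem TF_card_split {o c0 c1 : α} {l' : List α} {I : Finset α} (hl : (c0 :: c1 :: l').Nodup)
    (hl' : l' ≠ []) (hI : Disjoint I (c0 :: c1 :: l').toFinset) :
    (TF o (c0 :: c1 :: l') I).card =
      ∑ k : Fin l'.length, ((TF o (c0 :: c1 :: l') I).filter
        (fun T => (c0, c1, l'.get k) ∈ T)).card +
      ∑ y ∈ I, ((TF o (c0 :: c1 :: l') I).filter (fun T => (c0, c1, y) ∈ T)).card := by
  have e : (TF o (c0 :: c1 :: l') I).card = ∑ T ∈ TF o (c0 :: c1 :: l') I, 1 := by simp
  simp only [card_filter]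
  rw [e, sum_comm, sum_comm (s := I), ← sum_add_distrib]
  refine sum_congr rfl fun T hT => ?_
  obtain ⟨y, hy, hy'⟩ := TF_third hl hl' hT
  have hS := (mem_TF.1 hT).1.toIsSurf
  have hiff : ∀ z, (c0, c1, z) ∈ T ↔ z = y := fun z =>
    ⟨fun h => hS.uniq h hy, fun h => by rw [h]; exact hy⟩
  have hnd : l'.Nodup := by
    have := hl
    simp only [List.nodup_cons] at this
    exact this.2.2
  have e1 : ∑ k : Fin l'.length, (if (c0, c1, l'.get k) ∈ T then 1 else 0) =
      if y ∈ l' then 1 else 0 := by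
    by_cases h : y ∈ l'
    · obtain ⟨k0, hk0⟩ := List.mem_iff_get.1 h
      rw [if_pos h, sum_eq_single k0]
      · rw [if_pos ((hiff _).2 hk0)]
      · intro k _ hk
        rw [if_neg]
        intro h2
        apply hk
        have h3 := (hiff _).1 h2
        rw [← hk0] at h3
        exact (List.nodup_iff_injective_get.1 hnd) h3
      · intro h2
        exact absurd (mem_univ _) h2
    · rw [if_neg h]
      refine sum_eq_zero fun k _ => ?_
      rw [if_neg]
      intro h2
      apply h
      rw [← (hiff _).1 h2]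
      exact List.get_mem l' k
  have e2 : ∑ z ∈ I, (if (c0, c1, z) ∈ T then 1 else 0) = if y ∈ I then 1 else 0 := by
    have : ∀ z ∈ I, (if (c0, c1, z) ∈ T then 1 else 0) = if z = y then 1 else 0 := fun z _ =>
      if_congr (hiff z) rfl rfl
    rw [sum_congr rfl this, sum_ite_eq' I y (fun _ => 1)]
  rw [e1, e2]
  by_cases h : y ∈ l'
  · have hI' : y ∉ I := by
      intro h2
      have := Finset.disjoint_left.1 hI h2
      apply this
      simp [h]
    rw [if_pos h, if_neg hI']
  · have hI' : y ∈ I := hy'.resolve_left h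
    rw [if_neg h, if_pos hI']

end H19S.PB
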