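import Pool.Agent.Lib.H19S.C0b

/-!
# H19S, part C (Lemma D), chunk C1a: numbering of the link of a vertex

PLAN OF PART C.  `h = pot F 0 1`, `i(x) = thr F h x`.  A vertex `x` with link `y 0, ..., y (d-1)` is split
into `x` (keeping `y a, ..., y b`) and a new vertex `w` (keeping `y b, ..., y (a+d)`), plus the edge `xw`
(files C1*, C2*).  For at least `d^2/24` pairs `a < b` the throughput is shared: `i'(x) + i'(w) >= i(x)/2`
(C3*).  The map (F, x, a, b) -> (F', x) is injective for given `w`; counting over all `w` gives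
`(n-2) sum_{Lab n} sum_{x, d >= 100} psi i^2 d^2 <= 384 e sum_{Lab (n+1)} sum_x psi i^2 d` (C4*), and as
`|Lab (n+1)| <= K (n-2) |Lab n|` the mean `M n` of `sum_x psi i^2 d` satisfies `M n <= M (n+1)/2 + C`.
-/

namespace H19S

set_option linter.unusedSectionVars false

open Finset

variable {α : Type*} [DecidableEq α] {F : Finset (α × α × α)}

/-- `y` is a numbering of the link of `x`. -/
structure IsLk (F : Finset (α × α × α)) (x : α) (y : ℕ → α) : Prop where
  mem : ∀ i, (x, y i, y (i + 1)) ∈ F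
  inj : ∀ i j, y i = y j ↔ i ≡ j [MOD deg F x]

/-- (chunk C1a) The link of a vertex can be numbered.  Let `a₀` be a neighbour and `y i = σ^[i] a₀`, where
`σ a` is the vertex with `(x, a, σ a) ∈ F` (it exists for every neighbour `a`, since `opp` and
rotation give: `a` is a neighbour of `x`, i.e. `(x,a,c) ∈ F`; and `(x,c,_) ∈ F` again).  `σ` is injective
on the neighbours (`IsSurf.uniq'`), so `a₀` is a periodic point (finiteness) with minimal period
`m` (`Function.minimalPeriod`), `y i = y j ↔ i ≡ j [MOD m]`; by `link` every neighbour is some `y i`, so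
`m = (nbr F x).card = deg F x` (`IsSurf.deg_eq`). -/
theorem exists_lk (hF : IsSurf F) {x : α} (hx : x ∈ vs F) : ∃ y, IsLk F x y := by
  classical
  obtain ⟨a₀, b₀, h0⟩ := mem_vs.1 hx
  have hsucc : ∀ a : {a // a ∈ nbr F x}, ∃ c : {a // a ∈ nbr F x}, (x, a.1, c.1) ∈ F := by
    rintro ⟨a, ha⟩
    obtain ⟨c, hc⟩ := mem_nbr.1 ha
    exact ⟨⟨c, mem_nbr.2 (hF.adj_symm ⟨a, hF.rot2 hc⟩)⟩, hc⟩
  choose σ hσ using hsucc
  have hinj : Function.Injective σ := by
    intro a b hab
    have h1 := hσ a
    have h2 := hσ b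
    rw [← hab] at h2
    exact Subtype.ext (hF.uniq' h1 h2)
  let s0 : {a // a ∈ nbr F x} := ⟨a₀, mem_nbr.2 ⟨b₀, h0⟩⟩
  have hper := hinj.mem_periodicPts s0
  have hm : 0 < Function.minimalPeriod σ s0 := Function.minimalPeriod_pos_of_mem_periodicPts hper
  have hreach0 : ∀ b', Relation.ReflTransGen (fun p q => (x, p, q) ∈ F) a₀ b' →
      ∃ k, (σ^[k] s0).1 = b' := by
    intro b' h
    induction h with
    | refl => exact ⟨0, rfl⟩
    | tail _ hs ih =>
      obtain ⟨k, hk⟩ := ih
      refine ⟨k + 1, ?_⟩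
      rw [Function.iterate_succ_apply']
      have := hσ (σ^[k] s0)
      rw [hk] at this
      exact hF.uniq this hs
  have hreach : ∀ b : {a // a ∈ nbr F x}, ∃ k, σ^[k] s0 = b := by
    rintro ⟨b, hb⟩
    obtain ⟨c, hc⟩ := mem_nbr.1 hb
    obtain ⟨k, hk⟩ := hreach0 b (hF.link h0 hc)
    exact ⟨k, Subtype.ext hk⟩
  have hcard : Function.minimalPeriod σ s0 = deg F x := by
    have h1 : (range (Function.minimalPeriod σ s0)).image (fun k => σ^[k] s0) = univ := by
      ext b
      simp only [mem_image, mem_range, mem_univ, iff_true]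
      obtain ⟨k, hk⟩ := hreach b
      refine ⟨k % Function.minimalPeriod σ s0, Nat.mod_lt _ hm, ?_⟩
      rw [Function.iterate_mod_minimalPeriod_eq, hk]
    have h2 := card_image_of_injOn (s := range (Function.minimalPeriod σ s0))
      (f := fun k => σ^[k] s0) (by
        intro i hi j hj hij
        exact Function.iterate_injOn_Iio_minimalPeriod (Set.mem_Iio.2 (mem_range.1 hi))
          (Set.mem_Iio.2 (mem_range.1 hj)) hij)
    rw [h1, card_univ, Fintype.card_coe, card_range, ← hF.deg_eq] at h2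
    exact h2.symm
  refine ⟨fun i => (σ^[i] s0).1, ⟨fun i => ?_, fun i j => ?_⟩⟩
  · rw [Function.iterate_succ_apply']
    exact hσ _
  · rw [← hcard]
    constructor
    · intro h
      have h1 : σ^[i] s0 = σ^[j] s0 := Subtype.ext h
      rw [← Function.iterate_mod_minimalPeriod_eq (n := i),
        ← Function.iterate_mod_minimalPeriod_eq (n := j)] at h1
      exact Function.iterate_injOn_Iio_minimalPeriod (Set.mem_Iio.2 (Nat.mod_lt _ hm))
        (Set.mem_Iio.2 (Nat.mod_lt _ hm)) h1
    · intro h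
      have h1 : σ^[i] s0 = σ^[j] s0 := by
        rw [← Function.iterate_mod_minimalPeriod_eq (n := i),
          ← Function.iterate_mod_minimalPeriod_eq (n := j)]
        have h2 : i % Function.minimalPeriod σ s0 = j % Function.minimalPeriod σ s0 := h
        rw [h2]
      exact congrArg Subtype.val h1

open Classical in
/-- The chosen numbering of the link of `x`. -/
noncomputable def lk (F : Finset (α × α × α)) (x : α) : ℕ → α :=
  if h : ∃ y, IsLk F x y then h.choose else fun _ => x

theorem lk_isLk (hF : IsSurf F) {x : α} (hx : x ∈ vs F) : IsLk F x (lk F x) := by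
  have h := exists_lk hF hx
  unfold lk
  rw [dif_pos h]
  exact h.choose_spec

/-- Every neighbour occurs exactly once among `y a, ..., y (a+d-1)`, for any start `a`. -/
theorem IsLk.nbr_eq (hF : IsSurf F) {x : α} (_hx : x ∈ vs F) {y : ℕ → α} (hy : IsLk F x y) (a : ℕ) :
    nbr F x = (Ico a (a + deg F x)).image y ∧ Set.InjOn y (Ico a (a + deg F x)) := by
  have hinj : Set.InjOn y (Ico a (a + deg F x)) := by
    intro i hi j hj hij
    have hi := mem_Ico.1 (mem_coe.1 hi)
    have hj := mem_Ico.1 (mem_coe.1 hj)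
    have h1 := (hy.inj i j).1 hij
    have h2 := (Nat.modEq_iff_dvd.1 h1)
    have h3 : (j : ℤ) - i = 0 := by
      apply Int.eq_zero_of_abs_lt_dvd h2
      rw [abs_lt]
      constructor <;> omega
    omega
  refine ⟨?_, hinj⟩
  symm
  apply eq_of_subset_of_card_le
  · intro s hs
    obtain ⟨i, -, rfl⟩ := mem_image.1 hs
    exact mem_nbr.2 ⟨_, hy.mem i⟩
  · rw [card_image_of_injOn hinj, ← hF.deg_eq, Nat.card_Ico]
    omega

/-- Sum over the link. -/
theorem IsLk.sum_eq (hF : IsSurf F) {x : α} (hx : x ∈ vs F) {y : ℕ → α} (hy : IsLk F x y) (a : ℕ)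
    {M : Type*} [AddCommMonoid M] (f : α → M) :
    ∑ s ∈ nbr F x, f s = ∑ i ∈ Ico a (a + deg F x), f (y i) := by
  obtain ⟨h1, h2⟩ := hy.nbr_eq hF hx a
  rw [h1, sum_image h2]

end H19S
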