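import Pool.Agent.Lib.H19S.C1a

/-!
# H19S, chunk C1b: the splitting of a vertex, definitions, arcs of the link
-/

namespace H19S

set_option linter.unusedSectionVars false

open Finset

variable {α : Type*} [DecidableEq α] {F : Finset (α × α × α)} {x w p q : α} {P : Finset α}

/-- The faces at `x` (in all rotations) whose link side starts in `P`. -/
def mv (x : α) (P : Finset α) (t : α × α × α) : Prop :=
  (t.1 = x ∧ t.2.1 ∈ P) ∨ (t.2.1 = x ∧ t.2.2 ∈ P) ∨ (t.2.2 = x ∧ t.1 ∈ P)

instance (x : α) (P : Finset α) : DecidablePred (mv x P) := fun t => by unfold mv; infer_instance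

/-- The rotations of the two new faces `(x, q, w)` and `(x, w, p)`. -/
def six (x w p q : α) : Finset (α × α × α) :=
  {(x, q, w), (q, w, x), (w, x, q), (x, w, p), (w, p, x), (p, x, w)}

/-- Splitting of `x`: the faces `(x, s, t)` with `s ∈ P` are given to the new vertex `w`; new faces
`(x, q, w)` and `(x, w, p)`.  Here `P = {q, ...}` is the arc of the link of `x` from `q` (included)
to `p` (excluded). -/
def split (F : Finset (α × α × α)) (x w : α) (P : Finset α) (p q : α) : Finset (α × α × α) :=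
  F.filter (fun t => ¬ mv x P t) ∪
    (F.filter (mv x P)).image (map3 fun v => if v = x then w else v) ∪ six x w p q

/-- `P` is the arc of the link of `x` from `q` (included) to `p` (excluded). -/
structure IsArc (F : Finset (α × α × α)) (x : α) (P : Finset α) (p q : α) : Prop where
  adjp : Adj F x p
  adj : ∀ s ∈ P, Adj F x s
  notMem : p ∉ P
  mem : q ∈ P
  step : ∀ s t, (x, s, t) ∈ F → (t ∈ P ↔ t = q ∨ (s ∈ P ∧ t ≠ p))
  fromq : ∀ s ∈ P, Relation.ReflTransGen (fun s t => (x, s, t) ∈ F ∧ t ∈ P) q s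
  fromp : ∀ s, Adj F x s → s ∉ P → Relation.ReflTransGen (fun s t => (x, s, t) ∈ F ∧ t ∉ P) p s
  predp : ∀ s, (x, s, p) ∈ F → s ∈ P
  predq : ∀ s, (x, s, q) ∈ F → s ∉ P

/-- (chunk C1b) `P = {y b, ..., y (a+d-1)}`, `q = y b`, `p = y a`, for `a < b < d`.  Everything from
`IsLk.mem`, `IsLk.inj` and `IsLk.nbr_eq` (the neighbours not in `P` are `y a, ..., y (b-1)`; the successor
of `y i` is `y (i+1)` by `uniq`; for `step`, `predp`, `predq` write `s = y i` with `i ∈ Ico a (a+d)`). -/
theorem IsLk.isArc (hF : IsSurf F) (hx : x ∈ vs F) {y : ℕ → α} (hy : IsLk F x y) {a b : ℕ}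
    (hab : a < b) (hb : b < deg F x) :
    IsArc F x ((Ico b (a + deg F x)).image y) (y a) (y b) := by
  obtain ⟨hnbr, hinj⟩ := hy.nbr_eq hF hx a
  obtain ⟨-, hinj1⟩ := hy.nbr_eq hF hx (a + 1)
  have hper : y (a + deg F x) = y a := (hy.inj _ _).2 (Nat.add_modEq_right)
  have hadj : ∀ i, Adj F x (y i) := fun i => ⟨_, hy.mem i⟩
  have hP : ∀ i, a ≤ i → i < a + deg F x →
      (y i ∈ (Ico b (a + deg F x)).image y ↔ b ≤ i) := by
    intro i h1 h2
    constructor
    · intro h
      obtain ⟨j, hj, hji⟩ := mem_image.1 h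
      obtain ⟨hj1, hj2⟩ := mem_Ico.1 hj
      have := hinj (mem_coe.2 (mem_Ico.2 ⟨by omega, hj2⟩)) (mem_coe.2 (mem_Ico.2 ⟨h1, h2⟩)) hji
      omega
    · intro h
      exact mem_image.2 ⟨i, mem_Ico.2 ⟨h, h2⟩, rfl⟩
  have hidx : ∀ s, Adj F x s → ∃ i, a ≤ i ∧ i < a + deg F x ∧ y i = s := by
    intro s hs
    have h1 := mem_nbr.2 hs
    rw [hnbr] at h1
    obtain ⟨i, hi, hi'⟩ := mem_image.1 h1
    exact ⟨i, (mem_Ico.1 hi).1, (mem_Ico.1 hi).2, hi'⟩
  have hpP : y a ∉ (Ico b (a + deg F x)).image y := by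
    intro h
    have := (hP a le_rfl (by omega)).1 h
    omega
  have hqP : y b ∈ (Ico b (a + deg F x)).image y := (hP b (by omega) (by omega)).2 le_rfl
  refine ⟨hadj a, ?_, hpP, hqP, ?_, ?_, ?_, ?_, ?_⟩
  · intro s hs
    obtain ⟨i, -, rfl⟩ := mem_image.1 hs
    exact hadj i
  · intro s t hst
    obtain ⟨i, h1, h2, rfl⟩ := hidx s ⟨t, hst⟩
    have ht : y (i + 1) = t := hF.uniq (hy.mem i) hst
    subst ht
    rw [hP i h1 h2]
    rcases Nat.lt_or_ge (i + 1) (a + deg F x) with h3 | h3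
    · rw [hP (i + 1) (by omega) h3]
      constructor
      · intro h
        rcases Nat.eq_or_lt_of_le h with h4 | h4
        · left
          rw [h4]
        · right
          refine ⟨by omega, fun h5 => ?_⟩
          have := hinj (mem_coe.2 (mem_Ico.2 ⟨by omega, h3⟩))
            (mem_coe.2 (mem_Ico.2 ⟨le_rfl, by omega⟩)) h5
          omega
      · rintro (h | ⟨h, -⟩)
        · have := hinj (mem_coe.2 (mem_Ico.2 ⟨by omega, h3⟩))
            (mem_coe.2 (mem_Ico.2 ⟨by omega, by omega⟩)) h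
          omega
        · omega
    · have h4 : i + 1 = a + deg F x := by omega
      rw [h4, hper]
      constructor
      · intro h
        exact absurd h hpP
      · rintro (h | ⟨-, h⟩)
        · rw [h]
          exact hqP
        · exact absurd rfl h
  · intro s hs
    obtain ⟨i, hi, rfl⟩ := mem_image.1 hs
    obtain ⟨h1, h2⟩ := mem_Ico.1 hi
    clear hs hi
    induction i, h1 using Nat.le_induction with
    | base => exact Relation.ReflTransGen.refl
    | succ n hn ih =>
      exact (ih (by omega)).tail ⟨hy.mem n, (hP (n + 1) (by omega) h2).2 (by omega)⟩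
  · intro s hs hsP
    obtain ⟨i, h1, h2, rfl⟩ := hidx s hs
    rw [hP i h1 h2] at hsP
    clear hs
    induction i, h1 using Nat.le_induction with
    | base => exact Relation.ReflTransGen.refl
    | succ n hn ih =>
      refine (ih (by omega) (by omega)).tail ⟨hy.mem n, ?_⟩
      rw [hP (n + 1) (by omega) h2]
      exact hsP
  · intro s hs
    obtain ⟨i, h1, h2, rfl⟩ := hidx s ⟨_, hs⟩
    have ht : y (i + 1) = y a := hF.uniq (hy.mem i) hs
    rw [hP i h1 h2]
    rw [← hper] at ht
    have := hinj1 (mem_coe.2 (mem_Ico.2 ⟨by omega, by omega⟩))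
      (mem_coe.2 (mem_Ico.2 ⟨by omega, by omega⟩)) ht
    omega
  · intro s hs
    obtain ⟨i, h1, h2, rfl⟩ := hidx s ⟨_, hs⟩
    have ht : y (i + 1) = y b := hF.uniq (hy.mem i) hs
    rw [hP i h1 h2]
    have := hinj1 (mem_coe.2 (mem_Ico.2 ⟨by omega, by omega⟩))
      (mem_coe.2 (mem_Ico.2 ⟨by omega, by omega⟩)) ht
    omega

theorem IsArc.adjq (h : IsArc F x P p q) : Adj F x q := h.adj q h.mem

theorem IsArc.ne (h : IsArc F x P p q) : p ≠ q := fun e => h.notMem (e ▸ h.mem)

end H19S
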