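import Pool.Agent.Lib.H19S.C1b

/-!
# H19S, chunk C2a: the faces of the split triangulation
-/

namespace H19S

set_option linter.unusedSectionVars false

open Finset

variable {α : Type*} [DecidableEq α] {F : Finset (α × α × α)} {x w p q : α} {P : Finset α}

theorem C2a_mem {a b c : α} : (a, b, c) ∈ split F x w P p q ↔
    ((a, b, c) ∈ F ∧ ¬ mv x P (a, b, c)) ∨
    (∃ a' b' c', (a', b', c') ∈ F ∧ mv x P (a', b', c') ∧
      (if a' = x then w else a') = a ∧ (if b' = x then w else b') = b ∧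
      (if c' = x then w else c') = c) ∨ (a, b, c) ∈ six x w p q := by
  unfold split
  simp only [mem_union, mem_filter, mem_image, map3, Prod.exists, Prod.mk.injEq]
  constructor
  · rintro ((h | ⟨a', b', c', ⟨h1, h2⟩, h3⟩) | h)
    · exact Or.inl h
    · exact Or.inr (Or.inl ⟨a', b', c', h1, h2, h3⟩)
    · exact Or.inr (Or.inr h)
  · rintro (h | ⟨a', b', c', h1, h2, h3⟩ | h)
    · exact Or.inl (Or.inl h)
    · exact Or.inl (Or.inr ⟨a', b', c', ⟨h1, h2⟩, h3⟩)
    · exact Or.inr h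

theorem C2a_six {a b c : α} : (a, b, c) ∈ six x w p q ↔
    (a = x ∧ b = q ∧ c = w) ∨ (a = q ∧ b = w ∧ c = x) ∨ (a = w ∧ b = x ∧ c = q) ∨
    (a = x ∧ b = w ∧ c = p) ∨ (a = w ∧ b = p ∧ c = x) ∨ (a = p ∧ b = x ∧ c = w) := by
  unfold six
  simp only [mem_insert, mem_singleton, Prod.mk.injEq]

theorem C2a_xmem (hA : IsArc F x P p q) : x ∈ vs F := hA.adjp.mem_left

theorem C2a_wx (hA : IsArc F x P p q) (hw : w ∉ vs F) : w ≠ x :=
  fun h => hw (h ▸ C2a_xmem hA)

theorem C2a_pmem (hF : IsSurf F) (hA : IsArc F x P p q) : p ∈ vs F := hF.adj_mem_right hA.adjp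

theorem C2a_qmem (hF : IsSurf F) (hA : IsArc F x P p q) : q ∈ vs F := hF.adj_mem_right hA.adjq

theorem C2a_px (hF : IsSurf F) (hA : IsArc F x P p q) : p ≠ x := (hF.adj_ne hA.adjp).symm

theorem C2a_qx (hF : IsSurf F) (hA : IsArc F x P p q) : q ≠ x := (hF.adj_ne hA.adjq).symm

theorem C2a_pw (hF : IsSurf F) (hA : IsArc F x P p q) (hw : w ∉ vs F) : p ≠ w :=
  fun h => hw (h ▸ C2a_pmem hF hA)

theorem C2a_qw (hF : IsSurf F) (hA : IsArc F x P p q) (hw : w ∉ vs F) : q ≠ w :=
  fun h => hw (h ▸ C2a_qmem hF hA)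

/-- (chunk C2a) The faces of `split F x w P p q` at `x`.  Unfold `split`, `mv`, `six`, `map3`; a face of the image
has no vertex `x` (all three entries of a face are different, so exactly one entry equals `x` and it is
replaced by `w`). -/
theorem mem_split_x (hF : IsSurf F) (hA : IsArc F x P p q) (hw : w ∉ vs F) {s t : α} :
    (x, s, t) ∈ split F x w P p q ↔
      ((x, s, t) ∈ F ∧ s ∉ P) ∨ (s = q ∧ t = w) ∨ (s = w ∧ t = p) := by
  have hwx := C2a_wx hA hw
  have hpx := C2a_px hF hA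
  have hqx := C2a_qx hF hA
  rw [C2a_mem, C2a_six]
  constructor
  · rintro (⟨h1, h2⟩ | ⟨a', b', c', h1, h2, h3, h4, h5⟩ | h)
    · refine Or.inl ⟨h1, fun h => h2 (Or.inl ⟨rfl, h⟩)⟩
    · exfalso
      by_cases ha : a' = x
      · rw [if_pos ha] at h3
        exact hwx h3
      · rw [if_neg ha] at h3
        exact ha h3
    · rcases h with h | h | h | h | h | h
      · exact Or.inr (Or.inl h.2)
      · exact absurd h.1.symm hqx
      · exact absurd h.1.symm hwx
      · exact Or.inr (Or.inr h.2)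
      · exact absurd h.1.symm hwx
      · exact absurd h.1.symm hpx
  · rintro (⟨h1, h2⟩ | h | h)
    · refine Or.inl ⟨h1, ?_⟩
      rintro (h | h | h)
      · exact h2 h.2
      · exact hF.ne h1 h.1.symm
      · exact hF.ne3 h1 h.1
    · exact Or.inr (Or.inr (Or.inl ⟨rfl, h⟩))
    · exact Or.inr (Or.inr (Or.inr (Or.inr (Or.inr (Or.inl ⟨rfl, h⟩)))))

/-- The faces at `w`. -/
theorem mem_split_w (hF : IsSurf F) (hA : IsArc F x P p q) (hw : w ∉ vs F) {s t : α} :
    (w, s, t) ∈ split F x w P p q ↔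
      ((x, s, t) ∈ F ∧ s ∈ P) ∨ (s = p ∧ t = x) ∨ (s = x ∧ t = q) := by
  have hwx := C2a_wx hA hw
  have hpw := C2a_pw hF hA hw
  have hqw := C2a_qw hF hA hw
  rw [C2a_mem, C2a_six]
  constructor
  · rintro (⟨h1, h2⟩ | ⟨a', b', c', h1, h2, h3, h4, h5⟩ | h)
    · exact absurd (hF.vs1 h1) hw
    · have ha : a' = x := by
        by_contra ha
        rw [if_neg ha] at h3
        exact hw (h3 ▸ hF.vs1 h1)
      subst ha
      rw [if_neg (fun h => hF.ne h1 h.symm)] at h4
      rw [if_neg (hF.ne3 h1)] at h5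
      subst h4 h5
      refine Or.inl ⟨h1, ?_⟩
      rcases h2 with h | h | h
      · exact h.2
      · exact absurd h.1.symm (hF.ne h1)
      · exact absurd h.1 (hF.ne3 h1)
    · rcases h with h | h | h | h | h | h
      · exact absurd h.1 hwx
      · exact absurd h.1.symm hqw
      · exact Or.inr (Or.inr h.2)
      · exact absurd h.1 hwx
      · exact Or.inr (Or.inl h.2)
      · exact absurd h.1.symm hpw
  · rintro (⟨h1, h2⟩ | h | h)
    · refine Or.inr (Or.inl ⟨x, s, t, h1, Or.inl ⟨rfl, h2⟩, if_pos rfl, if_neg ?_, if_neg ?_⟩)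
      · exact fun h => hF.ne h1 h.symm
      · exact hF.ne3 h1
    · exact Or.inr (Or.inr (Or.inr (Or.inr (Or.inr (Or.inr (Or.inl ⟨rfl, h⟩))))))
    · exact Or.inr (Or.inr (Or.inr (Or.inr (Or.inl ⟨rfl, h⟩))))

/-- The faces at the other vertices. -/
theorem mem_split_v (hF : IsSurf F) (hA : IsArc F x P p q) (hw : w ∉ vs F) {v s t : α}
    (hvx : v ≠ x) (hvw : v ≠ w) :
    (v, s, t) ∈ split F x w P p q ↔
      ((v, s, t) ∈ F ∧ (s = x → t ∉ P) ∧ (t = x → v ∉ P)) ∨
      (s = w ∧ (v, x, t) ∈ F ∧ t ∈ P) ∨ (t = w ∧ (v, s, x) ∈ F ∧ v ∈ P) ∨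
      (v = q ∧ s = w ∧ t = x) ∨ (v = p ∧ s = x ∧ t = w) := by
  rw [C2a_mem, C2a_six]
  constructor
  · rintro (⟨h1, h2⟩ | ⟨a', b', c', h1, h2, h3, h4, h5⟩ | h)
    · exact Or.inl ⟨h1, fun h h' => h2 (Or.inr (Or.inl ⟨h, h'⟩)),
        fun h h' => h2 (Or.inr (Or.inr ⟨h, h'⟩))⟩
    · have ha : a' ≠ x := by
        intro ha
        rw [if_pos ha] at h3
        exact hvw h3.symm
      rw [if_neg ha] at h3
      subst h3
      rcases h2 with h | h | h
      · exact absurd h.1 ha
      · obtain ⟨h6, h7⟩ := h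
        simp only at h6 h7
        subst h6
        rw [if_pos rfl] at h4
        rw [if_neg (fun h => hF.ne2 h1 h.symm)] at h5
        subst h5
        exact Or.inr (Or.inl ⟨h4.symm, h1, h7⟩)
      · obtain ⟨h6, h7⟩ := h
        simp only at h6 h7
        subst h6
        rw [if_pos rfl] at h5
        rw [if_neg (hF.ne2 h1)] at h4
        subst h4
        exact Or.inr (Or.inr (Or.inl ⟨h5.symm, h1, h7⟩))
    · rcases h with h | h | h | h | h | h
      · exact absurd h.1 hvx
      · exact Or.inr (Or.inr (Or.inr (Or.inl h)))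
      · exact absurd h.1 hvw
      · exact absurd h.1 hvx
      · exact absurd h.1 hvw
      · exact Or.inr (Or.inr (Or.inr (Or.inr h)))
  · rintro (⟨h1, h2, h3⟩ | ⟨h1, h2, h3⟩ | ⟨h1, h2, h3⟩ | h | h)
    · refine Or.inl ⟨h1, ?_⟩
      rintro (h | h | h)
      · exact hvx h.1
      · exact h2 h.1 h.2
      · exact h3 h.1 h.2
    · subst h1
      exact Or.inr (Or.inl ⟨v, x, t, h2, Or.inr (Or.inl ⟨rfl, h3⟩), if_neg hvx, if_pos rfl,
        if_neg fun h => hF.ne2 h2 h.symm⟩)
    · subst h1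
      exact Or.inr (Or.inl ⟨v, s, x, h2, Or.inr (Or.inr ⟨rfl, h3⟩), if_neg hvx,
        if_neg (hF.ne2 h2), if_pos rfl⟩)
    · exact Or.inr (Or.inr (Or.inr (Or.inl h)))
    · exact Or.inr (Or.inr (Or.inr (Or.inr (Or.inr (Or.inr (Or.inr h))))))

theorem C2a_mv_rot {a b c : α} (h : mv x P (a, b, c)) : mv x P (b, c, a) := by
  rcases h with h | h | h
  · exact Or.inr (Or.inr h)
  · exact Or.inl h
  · exact Or.inr (Or.inl h)

theorem split_rot (hF : IsSurf F) (hA : IsArc F x P p q) (hw : w ∉ vs F) {a b c : α}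
    (h : (a, b, c) ∈ split F x w P p q) : (b, c, a) ∈ split F x w P p q := by
  rw [C2a_mem] at h ⊢
  rcases h with ⟨h1, h2⟩ | ⟨a', b', c', h1, h2, h3, h4, h5⟩ | h
  · refine Or.inl ⟨hF.rot h1, fun h => h2 (C2a_mv_rot (C2a_mv_rot h))⟩
  · exact Or.inr (Or.inl ⟨b', c', a', hF.rot h1, C2a_mv_rot h2, h4, h5, h3⟩)
  · refine Or.inr (Or.inr ?_)
    rw [C2a_six] at h ⊢
    tauto

/-- The vertices. -/
theorem vs_split (hF : IsSurf F) (hA : IsArc F x P p q) (hw : w ∉ vs F) :
    vs (split F x w P p q) = insert w (vs F) := by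
  ext v
  rw [mem_insert, mem_vs]
  constructor
  · rintro ⟨a, b, h⟩
    by_cases hvw : v = w
    · exact Or.inl hvw
    · right
      by_cases hvx : v = x
      · rw [hvx]; exact C2a_xmem hA
      · rw [mem_split_v hF hA hw hvx hvw] at h
        rcases h with h | h | h | h | h
        · exact hF.vs1 h.1
        · exact hF.vs1 h.2.1
        · exact hF.vs1 h.2.1
        · rw [h.1]; exact C2a_qmem hF hA
        · rw [h.1]; exact C2a_pmem hF hA
  · rintro (rfl | hv)
    · exact ⟨x, q, (mem_split_w hF hA hw).2 (Or.inr (Or.inr ⟨rfl, rfl⟩))⟩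
    · have hvw : v ≠ w := fun h => hw (h ▸ hv)
      by_cases hvx : v = x
      · subst hvx
        exact ⟨q, w, (mem_split_x hF hA hw).2 (Or.inr (Or.inl ⟨rfl, rfl⟩))⟩
      · obtain ⟨a, b, h⟩ := mem_vs.1 hv
        by_cases hm : mv x P (v, a, b)
        · refine ⟨_, _, C2a_mem.2 (Or.inr (Or.inl ⟨v, a, b, h, hm, if_neg hvx, rfl, rfl⟩))⟩
        · exact ⟨a, b, C2a_mem.2 (Or.inl ⟨h, hm⟩)⟩

/-- The three parts of `split` are disjoint, the image is injective (the entry `w` marks the place of `x`). -/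
theorem card_split (hF : IsSurf F) (hA : IsArc F x P p q) (hw : w ∉ vs F) :
    (split F x w P p q).card = F.card + 6 := by
  have hwx := C2a_wx hA hw
  have hpw := C2a_pw hF hA hw
  have hqw := C2a_qw hF hA hw
  have hpx := C2a_px hF hA
  have hqx := C2a_qx hF hA
  have hpq := hA.ne
  have hxp : x ≠ p := hpx.symm
  have hxq : x ≠ q := hqx.symm
  have hxw : x ≠ w := hwx.symm
  have hwp : w ≠ p := hpw.symm
  have hwq : w ≠ q := hqw.symm
  have hqp : q ≠ p := hpq.symm
  have hinj : Set.InjOn (map3 fun v => if v = x then w else v)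
      ((F.filter (mv x P) : Finset (α × α × α)) : Set (α × α × α)) := by
    rintro ⟨a, b, c⟩ h ⟨a', b', c'⟩ h' he
    have h1 : (a, b, c) ∈ F := (mem_filter.1 (mem_coe.1 h)).1
    have h2 : (a', b', c') ∈ F := (mem_filter.1 (mem_coe.1 h')).1
    have key : ∀ s s' : α, s ∈ vs F → s' ∈ vs F →
        (if s = x then w else s) = (if s' = x then w else s') → s = s' := by
      intro s s' hs hs' he
      split_ifs at he with e1 e2 e2
      · rw [e1, e2]
      · exact absurd (he ▸ hs' : w ∈ vs F) hw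
      · exact absurd (he ▸ hs : w ∈ vs F) hw
      · exact he
    simp only [map3, Prod.mk.injEq] at he
    rw [key a a' (hF.vs1 h1) (hF.vs1 h2) he.1, key b b' (hF.vs2 h1) (hF.vs2 h2) he.2.1,
      key c c' (hF.vs3 h1) (hF.vs3 h2) he.2.2]
  have hd1 : Disjoint (F.filter fun t => ¬ mv x P t)
      ((F.filter (mv x P)).image (map3 fun v => if v = x then w else v)) := by
    rw [disjoint_left]
    rintro ⟨a, b, c⟩ h h'
    have h1 := (mem_filter.1 h).1
    obtain ⟨⟨a', b', c'⟩, h2, h3⟩ := mem_image.1 h'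
    obtain ⟨h2, h4⟩ := mem_filter.1 h2
    simp only [map3, Prod.mk.injEq] at h3
    rcases h4 with h4 | h4 | h4
    · rw [if_pos h4.1] at h3
      exact hw (h3.1 ▸ hF.vs1 h1)
    · rw [if_pos h4.1] at h3
      exact hw (h3.2.1 ▸ hF.vs2 h1)
    · rw [if_pos h4.1] at h3
      exact hw (h3.2.2 ▸ hF.vs3 h1)
  have hd2 : Disjoint ((F.filter fun t => ¬ mv x P t) ∪
      ((F.filter (mv x P)).image (map3 fun v => if v = x then w else v))) (six x w p q) := by
    rw [disjoint_left]
    rintro ⟨a, b, c⟩ h h'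
    -- a face of `six` contains both `x` and `w`
    have h6 : (a = x ∨ b = x ∨ c = x) ∧ (a = w ∨ b = w ∨ c = w) := by
      rw [C2a_six] at h'
      tauto
    rcases mem_union.1 h with h | h
    · have h1 := (mem_filter.1 h).1
      rcases h6.2 with rfl | rfl | rfl
      · exact hw (hF.vs1 h1)
      · exact hw (hF.vs2 h1)
      · exact hw (hF.vs3 h1)
    · obtain ⟨⟨a', b', c'⟩, h2, h3⟩ := mem_image.1 h
      simp only [map3, Prod.mk.injEq] at h3
      have key : ∀ s : α, (if s = x then w else s) ≠ x := by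
        intro s
        split_ifs with e
        · exact hwx
        · exact e
      rcases h6.1 with h7 | h7 | h7
      · exact key a' (h3.1.trans h7)
      · exact key b' (h3.2.1.trans h7)
      · exact key c' (h3.2.2.trans h7)
  have h6 : (six x w p q).card = 6 := by
    unfold six
    rw [card_insert_of_notMem, card_insert_of_notMem, card_insert_of_notMem,
      card_insert_of_notMem, card_insert_of_notMem, card_singleton]
    all_goals
      simp only [mem_insert, mem_singleton, Prod.mk.injEq, not_or, not_and]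
      tauto
  unfold split
  rw [card_union_of_disjoint hd2, card_union_of_disjoint hd1, card_image_of_injOn hinj, h6]
  have := card_filter_add_card_filter_not (s := F) (mv x P)
  omega

end H19S
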