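import Pool.Agent.Lib.H19S.C2a

/-!
# H19S, chunk C2b: the split triangulation, first axioms
-/

namespace H19S

set_option linter.unusedSectionVars false

open Finset

variable {α : Type*} [DecidableEq α] {F : Finset (α × α × α)} {x w p q : α} {P : Finset α}

/-- (chunk C2b) -/
theorem split_ne (hF : IsSurf F) (hA : IsArc F x P p q) (hw : w ∉ vs F) {a b c : α}
    (h : (a, b, c) ∈ split F x w P p q) : a ≠ b := by
  have hwx := C2a_wx hA hw
  have hpw := C2a_pw hF hA hw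
  have hqw := C2a_qw hF hA hw
  have hpx := C2a_px hF hA
  have hqx := C2a_qx hF hA
  by_cases hax : a = x
  · subst hax
    rw [mem_split_x hF hA hw] at h
    rcases h with h | h | h
    · exact hF.ne h.1
    · rw [h.1]; exact hqx.symm
    · rw [h.1]; exact hwx.symm
  by_cases haw : a = w
  · subst haw
    rw [mem_split_w hF hA hw] at h
    rcases h with h | h | h
    · intro h'
      exact hw (h' ▸ hF.vs2 h.1)
    · rw [h.1]; exact hpw.symm
    · rw [h.1]; exact hwx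
  · rw [mem_split_v hF hA hw hax haw] at h
    rcases h with h | h | h | h | h
    · exact hF.ne h.1
    · rw [h.1]; exact haw
    · exact hF.ne h.2.1
    · rw [h.2.1]; exact haw
    · rw [h.2.1]; exact hax

/-- Cases `a = x`, `a = w`, other, with `mem_split_x/w/v`; `q` is not the start of a face kept by `x`
(`q ∈ P`), `p` is not the start of a face given to `w`; `predp`, `predq`. -/
theorem split_uniq (hF : IsSurf F) (hA : IsArc F x P p q) (hw : w ∉ vs F) {a b c d : α}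
    (h : (a, b, c) ∈ split F x w P p q) (h' : (a, b, d) ∈ split F x w P p q) : c = d := by
  have hwx := C2a_wx hA hw
  have hpw := C2a_pw hF hA hw
  have hqw := C2a_qw hF hA hw
  have hpx := C2a_px hF hA
  have hqx := C2a_qx hF hA
  have hnF : ∀ {s t : α}, (s, w, t) ∉ F := fun h => hw (hF.vs2 h)
  by_cases hax : a = x
  · subst hax
    rw [mem_split_x hF hA hw] at h h'
    rcases h with ⟨h1, h2⟩ | ⟨h1, h2⟩ | ⟨h1, h2⟩ <;> rcases h' with ⟨h3, h4⟩ | ⟨h3, h4⟩ | ⟨h3, h4⟩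
    · exact hF.uniq h1 h3
    · exact absurd hA.mem (h3 ▸ h2)
    · subst h3; exact absurd h1 hnF
    · exact absurd hA.mem (h1 ▸ h4)
    · rw [h2, h4]
    · exact absurd (h1.symm.trans h3) hqw
    · subst h1; exact absurd h3 hnF
    · exact absurd (h3.symm.trans h1) hqw
    · rw [h2, h4]
  by_cases haw : a = w
  · subst haw
    rw [mem_split_w hF hA hw] at h h'
    rcases h with ⟨h1, h2⟩ | ⟨h1, h2⟩ | ⟨h1, h2⟩ <;> rcases h' with ⟨h3, h4⟩ | ⟨h3, h4⟩ | ⟨h3, h4⟩
    · exact hF.uniq h1 h3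
    · exact absurd (h3 ▸ h2) hA.notMem
    · exact absurd h3.symm (hF.ne h1)
    · exact absurd (h1 ▸ h4) hA.notMem
    · rw [h2, h4]
    · exact absurd (h1.symm.trans h3) hpx
    · exact absurd h1.symm (hF.ne h3)
    · exact absurd (h3.symm.trans h1) hpx
    · rw [h2, h4]
  · rw [mem_split_v hF hA hw hax haw] at h h'
    have hvF : ∀ {s t : α}, (s, t, w) ∉ F := fun h => hw (hF.vs3 h)
    rcases h with ⟨h1, h2, h3⟩ | ⟨h1, h2, h3⟩ | ⟨h1, h2, h3⟩ | ⟨h1, h2, h3⟩ | ⟨h1, h2, h3⟩ <;>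
      rcases h' with ⟨k1, k2, k3⟩ | ⟨k1, k2, k3⟩ | ⟨k1, k2, k3⟩ | ⟨k1, k2, k3⟩ | ⟨k1, k2, k3⟩
    · exact hF.uniq h1 k1
    · subst k1; exact absurd h1 hnF
    · exact absurd k3 (h3 (hF.uniq h1 k2))
    · subst k2; exact absurd h1 hnF
    · subst k1 k2
      exact absurd (hA.predp c (hF.rot h1)) (h2 rfl)
    · subst h1; exact absurd k1 hnF
    · exact hF.uniq h2 k2
    · subst h1; exact absurd k2 hnF
    · subst k1
      exact absurd h3 (hA.predq c (hF.rot h2))
    · exact absurd (h1.symm.trans k2) hwx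
    · exact absurd h3 (k3 (hF.uniq k1 h2))
    · subst k1; exact absurd h2 hnF
    · rw [h1, k1]
    · subst k2; exact absurd h2 hnF
    · rw [h1, k3]
    · subst h2; exact absurd k1 hnF
    · subst h1
      exact absurd k3 (hA.predq d (hF.rot k2))
    · subst h2; exact absurd k2 hnF
    · rw [h3, k3]
    · exact absurd (h2.symm.trans k2) hwx
    · subst h1 h2
      exact absurd (hA.predp d (hF.rot k1)) (k2 rfl)
    · exact absurd (k1.symm.trans h2) hwx
    · rw [h3, k1]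
    · exact absurd (k2.symm.trans h2) hwx
    · rw [h3, k3]

/-- The other side: for the side `(x, s)` of `F` with `s ∉ P`: the face `(s, x, d)` of `F`, i.e. `(x, d, s)`,
has `d ∉ P` unless `s = p` (`step`); etc. -/
theorem split_opp (hF : IsSurf F) (hA : IsArc F x P p q) (hw : w ∉ vs F) {a b c : α}
    (h : (a, b, c) ∈ split F x w P p q) : ∃ d, (b, a, d) ∈ split F x w P p q := by
  have hwx := C2a_wx hA hw
  have hpw := C2a_pw hF hA hw
  have hqw := C2a_qw hF hA hw
  have hpx := C2a_px hF hA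
  have hqx := C2a_qx hF hA
  -- the six new faces
  have n1 : (x, q, w) ∈ split F x w P p q := (mem_split_x hF hA hw).2 (Or.inr (Or.inl ⟨rfl, rfl⟩))
  have n2 : (x, w, p) ∈ split F x w P p q := (mem_split_x hF hA hw).2 (Or.inr (Or.inr ⟨rfl, rfl⟩))
  have n1' := split_rot hF hA hw n1
  have n1'' := split_rot hF hA hw n1'
  have n2' := split_rot hF hA hw n2
  have n2'' := split_rot hF hA hw n2'
  -- unmoved and moved faces at `x`
  have m1 : ∀ {s t : α}, (x, s, t) ∈ F → s ∉ P → (x, s, t) ∈ split F x w P p q :=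
    fun h1 h2 => (mem_split_x hF hA hw).2 (Or.inl ⟨h1, h2⟩)
  have m2 : ∀ {s t : α}, (x, s, t) ∈ F → s ∈ P → (w, s, t) ∈ split F x w P p q :=
    fun h1 h2 => (mem_split_w hF hA hw).2 (Or.inl ⟨h1, h2⟩)
  have r1 := @split_rot _ _ F x w p q P hF hA hw
  -- sides `(x, s)` and `(s, x)`
  have o1 : ∀ {s t : α}, (x, s, t) ∈ F → s ∉ P → ∃ d, (s, x, d) ∈ split F x w P p q := by
    intro s t h1 h2
    obtain ⟨d, hd⟩ := hF.opp h1
    have hd' : (x, d, s) ∈ F := hF.rot hd
    by_cases hdP : d ∈ P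
    · have hsp : s = p := by
        by_contra hsp
        exact h2 ((hA.step d s hd').2 (Or.inr ⟨hdP, hsp⟩))
      subst hsp
      exact ⟨w, n2''⟩
    · exact ⟨d, r1 (r1 (m1 hd' hdP))⟩
  have o2 : ∀ {s t : α}, (x, s, t) ∈ F → s ∈ P → ∃ d, (s, w, d) ∈ split F x w P p q := by
    intro s t h1 h2
    obtain ⟨d, hd⟩ := hF.opp h1
    have hd' : (x, d, s) ∈ F := hF.rot hd
    by_cases hdP : d ∈ P
    · exact ⟨d, r1 (r1 (m2 hd' hdP))⟩
    · have hsq : s = q := by
        rcases (hA.step d s hd').1 h2 with h3 | h3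
        · exact h3
        · exact absurd h3.1 hdP
      subst hsq
      exact ⟨x, n1'⟩
  have o3 : ∀ {s t : α}, (x, s, t) ∈ F → s ∉ P → ∃ d, (x, t, d) ∈ split F x w P p q := by
    intro s t h1 h2
    obtain ⟨d, hd⟩ := hF.opp (hF.rot (hF.rot h1))
    by_cases htP : t ∈ P
    · have : t = q := by
        rcases (hA.step s t h1).1 htP with h3 | h3
        · exact h3
        · exact absurd h3.1 h2
      subst this
      exact ⟨w, n1⟩
    · exact ⟨d, m1 hd htP⟩
  have o4 : ∀ {s t : α}, (x, s, t) ∈ F → s ∈ P → ∃ d, (w, t, d) ∈ split F x w P p q := by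
    intro s t h1 h2
    obtain ⟨d, hd⟩ := hF.opp (hF.rot (hF.rot h1))
    by_cases htP : t ∈ P
    · exact ⟨d, m2 hd htP⟩
    · have : t = p := by
        by_contra h3
        exact htP ((hA.step s t h1).2 (Or.inr ⟨h2, h3⟩))
      subst this
      exact ⟨x, n2'⟩
  have o5 : ∀ {s t d : α}, (s, t, d) ∈ F → s ≠ x → t ≠ x → ∃ d, (s, t, d) ∈ split F x w P p q := by
    intro s t d h1 h2 h3
    have hsw : s ≠ w := fun h => hw (h ▸ hF.vs1 h1)
    by_cases hdx : d = x
    · subst hdx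
      by_cases hsP : s ∈ P
      · exact ⟨w, (mem_split_v hF hA hw h2 hsw).2 (Or.inr (Or.inr (Or.inl ⟨rfl, h1, hsP⟩)))⟩
      · exact ⟨d, (mem_split_v hF hA hw h2 hsw).2 (Or.inl ⟨h1, fun h => absurd h h3, fun _ => hsP⟩)⟩
    · exact ⟨d, (mem_split_v hF hA hw h2 hsw).2 (Or.inl ⟨h1, fun h => absurd h h3,
        fun h => absurd h hdx⟩)⟩
  by_cases hax : a = x
  · subst hax
    rw [mem_split_x hF hA hw] at h
    rcases h with ⟨h1, h2⟩ | ⟨h1, h2⟩ | ⟨h1, h2⟩
    · exact o1 h1 h2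
    · subst h1
      obtain ⟨e, he⟩ := hA.adjq
      obtain ⟨d, hd⟩ := hF.opp he
      have hd' : (a, d, b) ∈ F := hF.rot hd
      exact ⟨d, r1 (r1 (m1 hd' (hA.predq d hd')))⟩
    · subst h1
      exact ⟨q, n1''⟩
  by_cases haw : a = w
  · subst haw
    rw [mem_split_w hF hA hw] at h
    rcases h with ⟨h1, h2⟩ | ⟨h1, h2⟩ | ⟨h1, h2⟩
    · exact o2 h1 h2
    · subst h1
      obtain ⟨e, he⟩ := hA.adjp
      obtain ⟨d, hd⟩ := hF.opp he
      have hd' : (x, d, b) ∈ F := hF.rot hd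
      exact ⟨d, r1 (r1 (m2 hd' (hA.predp d hd')))⟩
    · subst h1
      exact ⟨p, n2⟩
  · rw [mem_split_v hF hA hw hax haw] at h
    rcases h with ⟨h1, h2, h3⟩ | ⟨h1, h2, h3⟩ | ⟨h1, h2, h3⟩ | ⟨h1, h2, h3⟩ | ⟨h1, h2, h3⟩
    · -- an old side `(a, b)`
      by_cases hbx : b = x
      · subst hbx
        exact o3 (hF.rot h1) (h2 rfl)
      · obtain ⟨d, hd⟩ := hF.opp h1
        exact o5 hd hbx hax
    · subst h1
      exact o4 (hF.rot h2) h3
    · subst h1
      obtain ⟨d, hd⟩ := hF.opp h2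
      exact o5 hd (hF.ne2 h2) hax
    · subst h1 h2
      obtain ⟨e, he⟩ := hA.adjq
      exact ⟨e, m2 he hA.mem⟩
    · subst h1 h2
      obtain ⟨e, he⟩ := hA.adjp
      exact ⟨e, m1 he hA.notMem⟩

end H19S
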