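import Pool.Agent.Lib.H19S.C2a

/-!
# H19S, chunk C2c: the links of the split triangulation, connectedness
-/

namespace H19S

set_option linter.unusedSectionVars false

open Finset Relation

variable {α : Type*} [DecidableEq α] {F : Finset (α × α × α)} {x w p q : α} {P : Finset α}

theorem c2c_adj_nw (hw : w ∉ vs F) {a b : α} (h : Adj F a b) : a ≠ w := by
  rintro rfl
  obtain ⟨c, hc⟩ := h
  exact hw (mem_image.2 ⟨_, hc, rfl⟩)

/-- The link at `x`: every start is reached from `p` and reaches `p`. -/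
theorem c2c_link_x (hF : IsSurf F) (hA : IsArc F x P p q) (hw : w ∉ vs F) {a b : α}
    (h : (x, a, b) ∈ split F x w P p q) :
    ReflTransGen (fun s t => (x, s, t) ∈ split F x w P p q) p a ∧
    ReflTransGen (fun s t => (x, s, t) ∈ split F x w P p q) a p := by
  have hm : ∀ s t, (x, s, t) ∈ F → s ∉ P → (x, s, t) ∈ split F x w P p q := fun s t h1 h2 =>
    (mem_split_x hF hA hw).2 (Or.inl ⟨h1, h2⟩)
  have hqw : (x, q, w) ∈ split F x w P p q :=
    (mem_split_x hF hA hw).2 (Or.inr (Or.inl ⟨rfl, rfl⟩))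
  have hwp : (x, w, p) ∈ split F x w P p q :=
    (mem_split_x hF hA hw).2 (Or.inr (Or.inr ⟨rfl, rfl⟩))
  have hp : ∀ s, ReflTransGen (fun s t => (x, s, t) ∈ F ∧ t ∉ P) p s →
      s ∉ P ∧ ReflTransGen (fun s t => (x, s, t) ∈ split F x w P p q) p s := by
    intro s hs
    induction hs with
    | refl => exact ⟨hA.notMem, ReflTransGen.refl⟩
    | tail _ h2 ih => exact ⟨h2.2, ih.2.tail (hm _ _ h2.1 ih.1)⟩
  have hpq : ReflTransGen (fun s t => (x, s, t) ∈ split F x w P p q) p q := by
    obtain ⟨z, hz⟩ := hA.adjq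
    obtain ⟨d, hd⟩ := hF.opp hz
    have h1 : (x, d, q) ∈ F := hF.rot hd
    have h2 := hA.predq d h1
    exact (hp d (hA.fromp d ⟨q, h1⟩ h2)).2.tail (hm _ _ h1 h2)
  have hqp : ReflTransGen (fun s t => (x, s, t) ∈ split F x w P p q) q p :=
    (ReflTransGen.single hqw).tail hwp
  have hsq : ∀ s, ReflTransGen (fun s t => (x, s, t) ∈ F) s q → s ∉ P →
      ReflTransGen (fun s t => (x, s, t) ∈ split F x w P p q) s q := by
    intro s hs
    induction hs using ReflTransGen.head_induction_on with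
    | refl => exact fun _ => ReflTransGen.refl
    | @head s t h1 h2 ih =>
      intro hsP
      by_cases ht : t ∈ P
      · rcases (hA.step s t h1).1 ht with h3 | h3
        · subst h3
          exact ReflTransGen.single (hm _ _ h1 hsP)
        · exact absurd h3.1 hsP
      · exact (ih ht).head (hm _ _ h1 hsP)
  rcases (mem_split_x hF hA hw).1 h with ⟨h1, h2⟩ | ⟨h1, -⟩ | ⟨h1, -⟩
  · refine ⟨(hp a (hA.fromp a ⟨b, h1⟩ h2)).2, ?_⟩
    obtain ⟨z, hz⟩ := hA.adjq
    exact (hsq a (hF.link h1 hz) h2).trans hqp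
  · subst h1
    exact ⟨hpq, hqp⟩
  · subst h1
    exact ⟨hpq.tail hqw, ReflTransGen.single hwp⟩

/-- The link at `w`: every start is reached from `x` and reaches `x`. -/
theorem c2c_link_w (hF : IsSurf F) (hA : IsArc F x P p q) (hw : w ∉ vs F) {a b : α}
    (h : (w, a, b) ∈ split F x w P p q) :
    ReflTransGen (fun s t => (w, s, t) ∈ split F x w P p q) x a ∧
    ReflTransGen (fun s t => (w, s, t) ∈ split F x w P p q) a x := by
  have hm : ∀ s t, (x, s, t) ∈ F → s ∈ P → (w, s, t) ∈ split F x w P p q := fun s t h1 h2 =>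
    (mem_split_w hF hA hw).2 (Or.inl ⟨h1, h2⟩)
  have hpx : (w, p, x) ∈ split F x w P p q :=
    (mem_split_w hF hA hw).2 (Or.inr (Or.inl ⟨rfl, rfl⟩))
  have hxq : (w, x, q) ∈ split F x w P p q :=
    (mem_split_w hF hA hw).2 (Or.inr (Or.inr ⟨rfl, rfl⟩))
  have hq : ∀ s, ReflTransGen (fun s t => (x, s, t) ∈ F ∧ t ∈ P) q s →
      s ∈ P ∧ ReflTransGen (fun s t => (w, s, t) ∈ split F x w P p q) x s := by
    intro s hs
    induction hs with
    | refl => exact ⟨hA.mem, ReflTransGen.single hxq⟩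
    | tail _ h2 ih => exact ⟨h2.2, ih.2.tail (hm _ _ h2.1 ih.1)⟩
  have hxp : ReflTransGen (fun s t => (w, s, t) ∈ split F x w P p q) x p := by
    obtain ⟨z, hz⟩ := hA.adjp
    obtain ⟨d, hd⟩ := hF.opp hz
    have h1 : (x, d, p) ∈ F := hF.rot hd
    have h2 := hA.predp d h1
    exact (hq d (hA.fromq d h2)).2.tail (hm _ _ h1 h2)
  have hsp : ∀ s, ReflTransGen (fun s t => (x, s, t) ∈ F) s p → s ∈ P →
      ReflTransGen (fun s t => (w, s, t) ∈ split F x w P p q) s p := by
    intro s hs
    induction hs using ReflTransGen.head_induction_on with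
    | refl => exact fun _ => ReflTransGen.refl
    | @head s t h1 h2 ih =>
      intro hsP
      by_cases ht : t ∈ P
      · exact (ih ht).head (hm _ _ h1 hsP)
      · have h3 : t = p := by
          by_contra h4
          exact ht ((hA.step s t h1).2 (Or.inr ⟨hsP, h4⟩))
        subst h3
        exact ReflTransGen.single (hm _ _ h1 hsP)
  rcases (mem_split_w hF hA hw).1 h with ⟨h1, h2⟩ | ⟨h1, -⟩ | ⟨h1, -⟩
  · refine ⟨(hq a (hA.fromq a h2)).2, ?_⟩
    obtain ⟨z, hz⟩ := hA.adjp
    exact (hsp a (hF.link h1 hz) h2).tail hpx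
  · subst h1
    exact ⟨hxp, ReflTransGen.single hpx⟩
  · subst h1
    exact ⟨ReflTransGen.refl, ReflTransGen.refl⟩

/-- The link at another vertex. -/
theorem c2c_link_v (hF : IsSurf F) (hA : IsArc F x P p q) (hw : w ∉ vs F) {v a b a' b' : α}
    (hvx : v ≠ x) (hvw : v ≠ w)
    (h : (v, a, b) ∈ split F x w P p q) (h' : (v, a', b') ∈ split F x w P p q) :
    ReflTransGen (fun s t => (v, s, t) ∈ split F x w P p q) a a' := by
  set g : α → α := fun s => if s = x then (if v ∈ P then w else x) else s with hg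
  have hgx : g x = if v ∈ P then w else x := if_pos rfl
  have hgn : ∀ s, s ≠ x → g s = s := fun s hs => if_neg hs
  have hm := @mem_split_v _ _ F x w p q P hF hA hw v
  -- the step out of `x`
  have hout : ∀ t, (v, x, t) ∈ F →
      ReflTransGen (fun s t => (v, s, t) ∈ split F x w P p q) (g x) t := by
    intro t ht
    have h1 : (x, t, v) ∈ F := hF.rot ht
    by_cases hv : v ∈ P
    · rw [hgx, if_pos hv]
      by_cases htP : t ∈ P
      · exact ReflTransGen.single ((hm hvx hvw).2 (Or.inr (Or.inl ⟨rfl, ht, htP⟩)))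
      · rcases (hA.step t v h1).1 hv with h2 | h2
        · refine (ReflTransGen.single ?_).tail
            ((hm hvx hvw).2 (Or.inl ⟨ht, fun _ => htP, fun e => ?_⟩))
          · exact (hm hvx hvw).2 (Or.inr (Or.inr (Or.inr (Or.inl ⟨h2, rfl, rfl⟩))))
          · exact absurd (hF.ne (hF.rot ht)) (by rw [e]; exact fun h => h rfl)
        · exact absurd h2.1 htP
    · rw [hgx, if_neg hv]
      by_cases htP : t ∈ P
      · have h2 : v = p := by
          by_contra h3
          exact hv ((hA.step t v h1).2 (Or.inr ⟨htP, h3⟩))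
        exact (ReflTransGen.single ((hm hvx hvw).2
          (Or.inr (Or.inr (Or.inr (Or.inr ⟨h2, rfl, rfl⟩)))))).tail
          ((hm hvx hvw).2 (Or.inr (Or.inl ⟨rfl, ht, htP⟩)))
      · exact ReflTransGen.single ((hm hvx hvw).2 (Or.inl ⟨ht, fun _ => htP, fun _ => hv⟩))
  have hstep : ∀ s t, (v, s, t) ∈ F →
      ReflTransGen (fun s t => (v, s, t) ∈ split F x w P p q) (g s) (g t) := by
    intro s t hst
    have hne : s ≠ t := hF.ne (hF.rot hst)
    by_cases hs : s = x
    · subst hs
      rw [hgn t hne.symm]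
      exact hout t hst
    · rw [hgn s hs]
      by_cases ht : t = x
      · subst ht
        rw [hgx]
        split_ifs with hv
        · exact ReflTransGen.single ((hm hvx hvw).2 (Or.inr (Or.inr (Or.inl ⟨rfl, hst, hv⟩))))
        · exact ReflTransGen.single ((hm hvx hvw).2 (Or.inl ⟨hst, fun e => absurd e hs,
            fun _ => hv⟩))
      · rw [hgn t ht]
        exact ReflTransGen.single ((hm hvx hvw).2 (Or.inl ⟨hst, fun e => absurd e hs,
          fun e => absurd e ht⟩))
  have hlift : ∀ s t, ReflTransGen (fun s t => (v, s, t) ∈ F) s t →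
      ReflTransGen (fun s t => (v, s, t) ∈ split F x w P p q) (g s) (g t) := by
    intro s t hst
    induction hst with
    | refl => exact ReflTransGen.refl
    | tail _ h2 ih => exact ih.trans (hstep _ _ h2)
  -- every new start reaches the image of an old start
  have hnext : ∀ s t, (v, s, t) ∈ F → ∃ c, (v, t, c) ∈ F := fun s t hst =>
    hF.opp (hF.rot (hF.rot hst))
  have hS : ∃ s c, (v, s, c) ∈ F ∧
      ReflTransGen (fun s t => (v, s, t) ∈ split F x w P p q) a (g s) := by
    rcases (hm hvx hvw).1 h with ⟨h1, -, -⟩ | ⟨h1, h2, h3⟩ | ⟨-, h2, -⟩ | ⟨h1, h2, -⟩ | ⟨h1, h2, -⟩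
    · by_cases ha : a = x
      · obtain ⟨c, hc⟩ := hnext a b h1
        refine ⟨b, c, hc, ?_⟩
        rw [hgn b (fun e => hF.ne (hF.rot h1) (ha.trans e.symm))]
        exact ReflTransGen.single h
      · exact ⟨a, b, h1, by rw [hgn a ha]⟩
    · obtain ⟨c, hc⟩ := hnext x b h2
      refine ⟨b, c, hc, ?_⟩
      rw [hgn b (hF.ne (hF.rot h2)).symm]
      exact ReflTransGen.single h
    · exact ⟨a, x, h2, by rw [hgn a (hF.ne (hF.rot h2))]⟩
    · obtain ⟨z, hz⟩ := hA.adjq
      obtain ⟨d, hd⟩ := hF.opp hz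
      refine ⟨x, d, by rw [h1]; exact hd, ?_⟩
      rw [hgx, h1, if_pos hA.mem, h2]
    · obtain ⟨z, hz⟩ := hA.adjp
      obtain ⟨d, hd⟩ := hF.opp hz
      refine ⟨x, d, by rw [h1]; exact hd, ?_⟩
      rw [hgx, h1, if_neg hA.notMem, h2]
  have hT : ∃ s c, (v, s, c) ∈ F ∧
      ReflTransGen (fun s t => (v, s, t) ∈ split F x w P p q) (g s) a' := by
    rcases (hm hvx hvw).1 h' with ⟨h1, h2, -⟩ | ⟨h1, h2, h3⟩ | ⟨-, h2, -⟩ | ⟨h1, h2, -⟩ |
      ⟨h1, h2, -⟩
    · by_cases ha : a' = x
      · refine ⟨x, b', by rw [← ha]; exact h1, ?_⟩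
        rw [hgx, ha]
        split_ifs with hv
        · have h3 : (x, b', v) ∈ F := hF.rot (by rw [← ha]; exact h1)
          rcases (hA.step b' v h3).1 hv with h4 | h4
          · exact ReflTransGen.single ((hm hvx hvw).2
              (Or.inr (Or.inr (Or.inr (Or.inl ⟨h4, rfl, rfl⟩)))))
          · exact absurd h4.1 (h2 ha)
        · exact ReflTransGen.refl
      · exact ⟨a', b', h1, by rw [hgn a' ha]⟩
    · refine ⟨x, b', h2, ?_⟩
      rw [hgx, h1]
      split_ifs with hv
      · exact ReflTransGen.refl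
      · have h4 : (x, b', v) ∈ F := hF.rot h2
        have h5 : v = p := by
          by_contra h6
          exact hv ((hA.step b' v h4).2 (Or.inr ⟨h3, h6⟩))
        exact ReflTransGen.single ((hm hvx hvw).2
          (Or.inr (Or.inr (Or.inr (Or.inr ⟨h5, rfl, rfl⟩)))))
    · exact ⟨a', x, h2, by rw [hgn a' (hF.ne (hF.rot h2))]⟩
    · obtain ⟨z, hz⟩ := hA.adjq
      obtain ⟨d, hd⟩ := hF.opp hz
      refine ⟨x, d, by rw [h1]; exact hd, ?_⟩
      rw [hgx, h1, if_pos hA.mem, h2]
    · obtain ⟨z, hz⟩ := hA.adjp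
      obtain ⟨d, hd⟩ := hF.opp hz
      refine ⟨x, d, by rw [h1]; exact hd, ?_⟩
      rw [hgx, h1, if_neg hA.notMem, h2]
  obtain ⟨s, c, hs, hs'⟩ := hS
  obtain ⟨t, d, ht, ht'⟩ := hT
  exact (hs'.trans (hlift s t (hF.link hs ht))).trans ht'

/-- (chunk C2c) The links are single orbits.  At `x`: `w → p → ... → q → w` by `fromp` (and the last step: the
predecessor of `q` is not in `P` by `predq`); at `w`: `x → q → ... → p → x` by `fromq`, `predp`; at a neighbour `v ∈ P`,
`v ≠ q`: the old link with `x` replaced by `w`; at `v ∉ P`, `v ≠ p` the old link; at `q`: the step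
`pred → x → succ` of the old link... becomes `pred → w → x → succ`, at `p`: `pred → x → w → succ` (use
`mem_split_v`, and `ReflTransGen.lift'`-type arguments: every old step is a path of new steps after the
replacement, and the new vertex is on the cycle). -/
theorem split_link (hF : IsSurf F) (hA : IsArc F x P p q) (hw : w ∉ vs F) {v a b a' b' : α}
    (h : (v, a, b) ∈ split F x w P p q) (h' : (v, a', b') ∈ split F x w P p q) :
    Relation.ReflTransGen (fun s t => (v, s, t) ∈ split F x w P p q) a a' := by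
  by_cases hvx : v = x
  · subst hvx
    exact (c2c_link_x hF hA hw h).2.trans (c2c_link_x hF hA hw h').1
  · by_cases hvw : v = w
    · subst hvw
      exact (c2c_link_w hF hA hw h).2.trans (c2c_link_w hF hA hw h').1
    · exact c2c_link_v hF hA hw hvx hvw h h'

/-- Connectedness: every edge `ab` of `F` with `a, b ≠ x` is an edge of the new graph; an edge `xb` is an edge
`xb` or `wb`, and `xw` is an edge. -/
theorem split_conn (hF : IsSurf F) (hA : IsArc F x P p q) (hw : w ∉ vs F) {a b : α}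
    (ha : a ∈ vs (split F x w P p q)) (hb : b ∈ vs (split F x w P p q)) :
    Relation.ReflTransGen (Adj (split F x w P p q)) a b := by
  have hxw : Adj (split F x w P p q) x w :=
    ⟨p, (mem_split_x hF hA hw).2 (Or.inr (Or.inr ⟨rfl, rfl⟩))⟩
  have hwx : Adj (split F x w P p q) w x :=
    ⟨q, (mem_split_w hF hA hw).2 (Or.inr (Or.inr ⟨rfl, rfl⟩))⟩
  have hstep : ∀ s t, Adj F s t → ReflTransGen (Adj (split F x w P p q)) s t := by
    rintro s t ⟨c, hc⟩
    have hsw : s ≠ w := c2c_adj_nw hw ⟨c, hc⟩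
    have hst : s ≠ t := hF.ne hc
    by_cases hs : s = x
    · subst hs
      by_cases ht : t ∈ P
      · exact (ReflTransGen.single hxw).tail ⟨c, (mem_split_w hF hA hw).2 (Or.inl ⟨hc, ht⟩)⟩
      · exact ReflTransGen.single ⟨c, (mem_split_x hF hA hw).2 (Or.inl ⟨hc, ht⟩)⟩
    · have hm := @mem_split_v _ _ F x w p q P hF hA hw s
      by_cases ht : t = x
      · subst ht
        have hcx : c ≠ t := (hF.ne (hF.rot hc)).symm
        by_cases hcP : c ∈ P
        · exact (ReflTransGen.single ⟨c, (hm hs hsw).2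
            (Or.inr (Or.inl ⟨rfl, hc, hcP⟩))⟩).tail hwx
        · exact ReflTransGen.single ⟨c, (hm hs hsw).2
            (Or.inl ⟨hc, fun _ => hcP, fun e => absurd e hcx⟩)⟩
      · by_cases hcx : c = x
        · by_cases hsP : s ∈ P
          · exact ReflTransGen.single ⟨w, (hm hs hsw).2
              (Or.inr (Or.inr (Or.inl ⟨rfl, by rw [← hcx]; exact hc, hsP⟩)))⟩
          · exact ReflTransGen.single ⟨c, (hm hs hsw).2
              (Or.inl ⟨hc, fun e => absurd e ht, fun _ => hsP⟩)⟩
        · exact ReflTransGen.single ⟨c, (hm hs hsw).2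
            (Or.inl ⟨hc, fun e => absurd e ht, fun e => absurd e hcx⟩)⟩
  have hlift : ∀ s t, ReflTransGen (Adj F) s t → ReflTransGen (Adj (split F x w P p q)) s t := by
    intro s t hst
    induction hst with
    | refl => exact ReflTransGen.refl
    | tail _ h2 ih => exact ih.trans (hstep _ _ h2)
  have hx : x ∈ vs F := by
    obtain ⟨c, hc⟩ := hA.adjp
    exact mem_image.2 ⟨_, hc, rfl⟩
  rw [vs_split hF hA hw, mem_insert] at ha hb
  have h1 : ReflTransGen (Adj (split F x w P p q)) a x := by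
    rcases ha with ha | ha
    · rw [ha]
      exact ReflTransGen.single hwx
    · exact hlift _ _ (hF.conn ha hx)
  have h2 : ReflTransGen (Adj (split F x w P p q)) x b := by
    rcases hb with hb | hb
    · rw [hb]
      exact ReflTransGen.single hxw
    · exact hlift _ _ (hF.conn hx hb)
  exact h1.trans h2

end H19S
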