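import Pool.Agent.Lib.H19S.C2b
import Pool.Agent.Lib.H19S.C2c

/-!
# H19S, chunk C2d: the split triangulation is a triangulation; sums over neighbours; recovering `F`
-/

namespace H19S

set_option linter.unusedSectionVars false

open Finset

variable {α : Type*} [DecidableEq α] {F : Finset (α × α × α)} {x w p q : α} {P : Finset α}

theorem IsSurf.split (hF : IsSurf F) (hA : IsArc F x P p q) (hw : w ∉ vs F) :
    IsSurf (split F x w P p q) where
  rot := split_rot hF hA hw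
  ne := split_ne hF hA hw
  uniq := split_uniq hF hA hw
  opp := split_opp hF hA hw
  link := split_link hF hA hw
  conn := split_conn hF hA hw
  nonempty := ⟨(x, q, w), (mem_split_x hF hA hw).2 (Or.inr (Or.inl ⟨rfl, rfl⟩))⟩

theorem IsTri.split (hF : IsTri F) (hA : IsArc F x P p q) (hw : w ∉ vs F) :
    IsTri (split F x w P p q) where
  toIsSurf := hF.toIsSurf.split hA hw
  euler := by
    rw [card_split hF.toIsSurf hA hw, vs_split hF.toIsSurf hA hw, card_insert_of_notMem hw]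
    have := hF.euler
    omega

/-- (chunk C2d) Neighbours of `x` in the split triangulation. -/
theorem nbr_split_x (hF : IsSurf F) (hA : IsArc F x P p q) (hw : w ∉ vs F) :
    nbr (H19S.split F x w P p q) x = insert w (insert q (nbr F x \ P)) := by
  ext y
  rw [mem_nbr, mem_insert, mem_insert, mem_sdiff, mem_nbr]
  constructor
  · rintro ⟨z, hz⟩
    rw [mem_split_x hF hA hw] at hz
    rcases hz with h | h | h
    · exact Or.inr (Or.inr ⟨⟨z, h.1⟩, h.2⟩)
    · exact Or.inr (Or.inl h.1)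
    · exact Or.inl h.1
  · rintro (h | h | ⟨⟨z, hz⟩, h⟩)
    · exact ⟨p, (mem_split_x hF hA hw).2 (Or.inr (Or.inr ⟨h, rfl⟩))⟩
    · exact ⟨w, (mem_split_x hF hA hw).2 (Or.inr (Or.inl ⟨h, rfl⟩))⟩
    · exact ⟨z, (mem_split_x hF hA hw).2 (Or.inl ⟨hz, h⟩)⟩

theorem nbr_split_w (hF : IsSurf F) (hA : IsArc F x P p q) (hw : w ∉ vs F) :
    nbr (H19S.split F x w P p q) w = insert x (insert p P) := by
  ext y
  rw [mem_nbr, mem_insert, mem_insert]
  constructor
  · rintro ⟨z, hz⟩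
    rw [mem_split_w hF hA hw] at hz
    rcases hz with h | h | h
    · exact Or.inr (Or.inr h.2)
    · exact Or.inr (Or.inl h.1)
    · exact Or.inl h.1
  · rintro (h | h | h)
    · exact ⟨q, (mem_split_w hF hA hw).2 (Or.inr (Or.inr ⟨h, rfl⟩))⟩
    · exact ⟨x, (mem_split_w hF hA hw).2 (Or.inr (Or.inl ⟨h, rfl⟩))⟩
    · obtain ⟨z, hz⟩ := hA.adj y h
      exact ⟨z, (mem_split_w hF hA hw).2 (Or.inl ⟨hz, h⟩)⟩

/-- Neighbours of another vertex. -/
theorem nbr_split_v (hF : IsSurf F) (hA : IsArc F x P p q) (hw : w ∉ vs F) {v : α} (hv : v ∈ vs F)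
    (hvx : v ≠ x) :
    nbr (H19S.split F x w P p q) v = (nbr F v \ {x}) ∪
      (if v ∈ insert q (nbr F x \ P) then {x} else ∅) ∪ (if v ∈ insert p P then {w} else ∅) := by
  have hvw : v ≠ w := fun h => hw (h ▸ hv)
  have hS := hF.split hA hw
  ext y
  rw [mem_union, mem_union, mem_sdiff, mem_singleton, mem_nbr, mem_nbr]
  have e1 : y ∈ (if v ∈ insert q (nbr F x \ P) then ({x} : Finset α) else ∅) ↔
      y = x ∧ v ∈ nbr (H19S.split F x w P p q) x := by
    rw [nbr_split_x hF hA hw, mem_insert (a := v) (b := w)]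
    split_ifs with h
    · rw [mem_singleton]
      exact ⟨fun h1 => ⟨h1, Or.inr h⟩, fun h1 => h1.1⟩
    · constructor
      · intro h1; exact absurd h1 (notMem_empty _)
      · rintro ⟨-, h1 | h1⟩
        · exact absurd h1 hvw
        · exact absurd h1 h
  have e2 : y ∈ (if v ∈ insert p P then ({w} : Finset α) else ∅) ↔
      y = w ∧ v ∈ nbr (H19S.split F x w P p q) w := by
    rw [nbr_split_w hF hA hw, mem_insert (a := v) (b := x)]
    split_ifs with h
    · rw [mem_singleton]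
      exact ⟨fun h1 => ⟨h1, Or.inr h⟩, fun h1 => h1.1⟩
    · constructor
      · intro h1; exact absurd h1 (notMem_empty _)
      · rintro ⟨-, h1 | h1⟩
        · exact absurd h1 hvx
        · exact absurd h1 h
  rw [e1, e2, mem_nbr, mem_nbr]
  constructor
  · intro h
    by_cases hyx : y = x
    · subst hyx
      exact Or.inl (Or.inr ⟨rfl, hS.adj_symm h⟩)
    by_cases hyw : y = w
    · subst hyw
      exact Or.inr ⟨rfl, hS.adj_symm h⟩
    refine Or.inl (Or.inl ⟨?_, hyx⟩)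
    obtain ⟨z, hz⟩ := h
    rw [mem_split_v hF hA hw hvx hvw] at hz
    rcases hz with h | h | h | h | h
    · exact ⟨z, h.1⟩
    · exact absurd h.1 hyw
    · exact ⟨x, h.2.1⟩
    · exact absurd h.2.1 hyw
    · exact absurd h.2.1 hyx
  · rintro ((⟨⟨z, hz⟩, hyx⟩ | ⟨rfl, h⟩) | ⟨rfl, h⟩)
    · by_cases hm : mv x P (v, y, z)
      · refine ⟨_, C2a_mem.2 (Or.inr (Or.inl ⟨v, y, z, hz, hm, if_neg hvx, if_neg hyx, rfl⟩))⟩
      · exact ⟨z, C2a_mem.2 (Or.inl ⟨hz, hm⟩)⟩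
    · exact hS.adj_symm h
    · exact hS.adj_symm h

/-- contraction -/
theorem C2d_contr (hF : IsSurf F) (hA : IsArc F x P p q) (hw : w ∉ vs F) :
    ((H19S.split F x w P p q).filter (fun t => ¬ ((t.1 = x ∨ t.2.1 = x ∨ t.2.2 = x) ∧
      (t.1 = w ∨ t.2.1 = w ∨ t.2.2 = w)))).image (map3 fun v => if v = w then x else v) = F := by
  have hwx := C2a_wx hA hw
  ext ⟨a, b, c⟩
  simp only [mem_image, mem_filter, map3, Prod.exists, Prod.mk.injEq]
  have key : ∀ s : α, s ∈ vs F → (if s = w then x else s) = s := by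
    intro s hs
    exact if_neg (fun h : s = w => hw (h ▸ hs))
  have key2 : ∀ s : α, s ∈ vs F → (if (if s = x then w else s) = w then x else
      (if s = x then w else s)) = s := by
    intro s hs
    by_cases h : s = x
    · rw [if_pos h, if_pos rfl, h]
    · rw [if_neg h]
      exact if_neg (fun h : s = w => hw (h ▸ hs))
  have key3 : ∀ s : α, (if s = x then w else s) ≠ x := by
    intro s
    split_ifs with e
    · exact hwx
    · exact e
  constructor
  · rintro ⟨a', b', c', ⟨h1, h2⟩, h3, h4, h5⟩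
    rw [C2a_mem, C2a_six] at h1
    rcases h1 with ⟨h1, -⟩ | ⟨a₁, b₁, c₁, h1, -, h6, h7, h8⟩ | h1
    · rw [key _ (hF.vs1 h1)] at h3
      rw [key _ (hF.vs2 h1)] at h4
      rw [key _ (hF.vs3 h1)] at h5
      rw [← h3, ← h4, ← h5]
      exact h1
    · rw [← h6, key2 _ (hF.vs1 h1)] at h3
      rw [← h7, key2 _ (hF.vs2 h1)] at h4
      rw [← h8, key2 _ (hF.vs3 h1)] at h5
      rw [← h3, ← h4, ← h5]
      exact h1
    · exfalso
      apply h2
      tauto
  · intro h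
    by_cases hm : mv x P (a, b, c)
    · refine ⟨_, _, _, ⟨C2a_mem.2 (Or.inr (Or.inl ⟨a, b, c, h, hm, rfl, rfl, rfl⟩)), ?_⟩,
        key2 _ (hF.vs1 h), key2 _ (hF.vs2 h), key2 _ (hF.vs3 h)⟩
      rintro ⟨h1 | h1 | h1, -⟩
      · exact key3 _ h1
      · exact key3 _ h1
      · exact key3 _ h1
    · refine ⟨a, b, c, ⟨C2a_mem.2 (Or.inl ⟨h, hm⟩), ?_⟩, key _ (hF.vs1 h), key _ (hF.vs2 h),
        key _ (hF.vs3 h)⟩
      rintro ⟨-, h1 | h1 | h1⟩
      · exact hw (h1 ▸ hF.vs1 h)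
      · exact hw (h1 ▸ hF.vs2 h)
      · exact hw (h1 ▸ hF.vs3 h)

/-- The triangulation `F` is recovered by contracting `w` into `x`: remove the faces which contain both, and
replace `w` by `x` in the others. -/
theorem split_inj {F₁ F₂ : Finset (α × α × α)} {P₁ P₂ : Finset α} {p₁ p₂ q₁ q₂ : α}
    (hF₁ : IsSurf F₁) (hF₂ : IsSurf F₂) (h₁ : IsArc F₁ x P₁ p₁ q₁) (h₂ : IsArc F₂ x P₂ p₂ q₂)
    (hw₁ : w ∉ vs F₁) (hw₂ : w ∉ vs F₂)
    (h : H19S.split F₁ x w P₁ p₁ q₁ = H19S.split F₂ x w P₂ p₂ q₂) : F₁ = F₂ ∧ p₁ = p₂ ∧ q₁ = q₂ := by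
  have hwx := C2a_wx h₁ hw₁
  refine ⟨?_, ?_, ?_⟩
  · rw [← C2d_contr hF₁ h₁ hw₁, ← C2d_contr hF₂ h₂ hw₂, h]
  · have h3 : (x, w, p₁) ∈ H19S.split F₁ x w P₁ p₁ q₁ :=
      (mem_split_x hF₁ h₁ hw₁).2 (Or.inr (Or.inr ⟨rfl, rfl⟩))
    rw [h, mem_split_x hF₂ h₂ hw₂] at h3
    rcases h3 with h3 | h3 | h3
    · exact absurd (hF₂.vs2 h3.1) hw₂
    · exact absurd h3.1.symm (C2a_qw hF₂ h₂ hw₂)
    · exact h3.2
  · have h3 : (x, q₁, w) ∈ H19S.split F₁ x w P₁ p₁ q₁ :=
      (mem_split_x hF₁ h₁ hw₁).2 (Or.inr (Or.inl ⟨rfl, rfl⟩))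
    rw [h, mem_split_x hF₂ h₂ hw₂] at h3
    rcases h3 with h3 | h3 | h3
    · exact absurd (hF₂.vs3 h3.1) hw₂
    · exact h3.1
    · exact absurd h3.1 (C2a_qw hF₁ h₁ hw₁)

end H19S
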