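import Pool.Agent.Lib.H19S.C2d

/-!
# H19S, chunk C3a: the potential of the split triangulation
-/

namespace H19S

set_option linter.unusedSectionVars false

open Finset

variable {α : Type*} [DecidableEq α] {F : Finset (α × α × α)} {x w p q : α} {P : Finset α}

/-- The lift of `h` to the split triangulation: `w` gets the value of `x`. -/
def lift (x w : α) (h : α → ℝ) (y : α) : ℝ := if y = w then h x else h y

/-- `∑ (h s - h x)` over the neighbours of `x` in the split triangulation which come from `F`. -/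
noncomputable def cc (F : Finset (α × α × α)) (x q : α) (P : Finset α) (h : α → ℝ) : ℝ :=
  ∑ s ∈ insert q (nbr F x \ P), (h s - h x)

/-- The Laplacian as a sum over neighbours (`IsSurf.sum_nbr`). -/
theorem lap_nbr (hF : IsSurf F) (h : α → ℝ) (v : α) : lap F h v = ∑ s ∈ nbr F v, (h s - h v) :=
  hF.sum_nbr v fun s => h s - h v

theorem C3a_ne (hF : IsSurf F) (hw : w ∉ vs F) {v s : α} (h : s ∈ nbr F v) : s ≠ w := by
  rintro rfl
  exact hw (hF.adj_mem_right (mem_nbr.1 h))

theorem C3a_ne' (hw : w ∉ vs F) {v : α} (h : v ∈ vs F) : v ≠ w := by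
  rintro rfl
  exact hw h

theorem C3a_lift_ne {h : α → ℝ} {v : α} (hv : v ≠ w) : lift x w h v = h v := if_neg hv

theorem C3a_lift_w {h : α → ℝ} : lift x w h w = h x := if_pos rfl

theorem C3a_P (hA : IsArc F x P p q) : P ⊆ nbr F x := fun s hs => mem_nbr.2 (hA.adj s hs)

/-- The Laplacian of the lift at an old vertex. -/
theorem C3a_gen (hF : IsSurf F) (hA : IsArc F x P p q) (hw : w ∉ vs F) (h : α → ℝ) {v : α}
    (hv : v ∈ vs F) (hvx : v ≠ x) :
    lap (split F x w P p q) (lift x w h) v = ∑ s ∈ nbr F v \ {x}, (h s - h v) +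
      (if v ∈ insert q (nbr F x \ P) then h x - h v else 0) +
      (if v ∈ insert p P then h x - h v else 0) := by
  have hxw : x ≠ w := C3a_ne' hw (Adj.mem_left hA.adjp)
  have hvw : v ≠ w := C3a_ne' hw hv
  rw [lap_nbr (hF.split hA hw), nbr_split_v hF hA hw hv hvx, sum_union, sum_union]
  · congr 1
    · congr 1
      · refine sum_congr rfl fun s hs => ?_
        rw [C3a_lift_ne (C3a_ne hF hw (mem_sdiff.1 hs).1), C3a_lift_ne hvw]
      · split_ifs
        · rw [sum_singleton, C3a_lift_ne hxw, C3a_lift_ne hvw]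
        · rfl
    · split_ifs
      · rw [sum_singleton, C3a_lift_w, C3a_lift_ne hvw]
      · rfl
  · split_ifs
    · rw [disjoint_singleton_right, mem_sdiff, mem_singleton]
      exact fun h1 => h1.2 rfl
    · exact disjoint_empty_right _
  · rw [disjoint_union_left]
    constructor
    · split_ifs
      · rw [disjoint_singleton_right, mem_sdiff]
        exact fun h1 => C3a_ne hF hw h1.1 rfl
      · exact disjoint_empty_right _
    · split_ifs
      · rw [disjoint_singleton_right, mem_singleton]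
        exact hxw.symm
      · exact disjoint_empty_right _
      · exact disjoint_empty_left _
      · exact disjoint_empty_left _

theorem C3a_old (hF : IsSurf F) (h : α → ℝ) {v : α} :
    lap F h v = ∑ s ∈ nbr F v \ {x}, (h s - h v) +
      (if v ∈ nbr F x then h x - h v else 0) := by
  rw [lap_nbr hF]
  by_cases hv : v ∈ nbr F x
  · have hx : x ∈ nbr F v := mem_nbr.2 (hF.adj_symm (mem_nbr.1 hv))
    rw [if_pos hv, sdiff_singleton_eq_erase, sum_erase_add _ _ hx]
  · have hx : x ∉ nbr F v := fun h1 => hv (mem_nbr.2 (hF.adj_symm (mem_nbr.1 h1)))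
    rw [if_neg hv, sdiff_singleton_eq_erase, erase_eq_of_notMem hx, add_zero]

/-- (chunk C3a) The Laplacian of the lift. -/
theorem lap_lift_v (hF : IsSurf F) (hA : IsArc F x P p q) (hw : w ∉ vs F) (h : α → ℝ) {v : α}
    (hv : v ∈ vs F) (hvx : v ≠ x) (hvp : v ≠ p) (hvq : v ≠ q) :
    lap (split F x w P p q) (lift x w h) v = lap F h v := by
  rw [C3a_gen hF hA hw h hv hvx, C3a_old (x := x) hF h, add_assoc]
  congr 1
  have e1 : v ∈ insert q (nbr F x \ P) ↔ v ∈ nbr F x ∧ v ∉ P := by
    rw [mem_insert, mem_sdiff]; simp [hvq]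
  have e2 : v ∈ insert p P ↔ v ∈ P := by
    rw [mem_insert]; simp [hvp]
  simp only [e1, e2]
  by_cases h1 : v ∈ P
  · simp [h1, C3a_P hA h1]
  · simp [h1]

theorem lap_lift_p (hF : IsSurf F) (hA : IsArc F x P p q) (hw : w ∉ vs F) (h : α → ℝ) :
    lap (split F x w P p q) (lift x w h) p = lap F h p - (h p - h x) := by
  have hp : p ∈ nbr F x := mem_nbr.2 hA.adjp
  rw [C3a_gen hF hA hw h (hF.adj_mem_right hA.adjp) (hF.adj_ne hA.adjp).symm,
    C3a_old (x := x) hF h, if_pos hp, if_pos (mem_insert_self _ _),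
    if_pos (mem_insert_of_mem (mem_sdiff.2 ⟨hp, hA.notMem⟩))]
  ring

theorem lap_lift_q (hF : IsSurf F) (hA : IsArc F x P p q) (hw : w ∉ vs F) (h : α → ℝ) :
    lap (split F x w P p q) (lift x w h) q = lap F h q - (h q - h x) := by
  have hq : q ∈ nbr F x := mem_nbr.2 hA.adjq
  rw [C3a_gen hF hA hw h (hF.adj_mem_right hA.adjq) (hF.adj_ne hA.adjq).symm,
    C3a_old (x := x) hF h, if_pos hq, if_pos (mem_insert_self _ _),
    if_pos (mem_insert_of_mem hA.mem)]
  ring

theorem lap_lift_x (hF : IsSurf F) (hA : IsArc F x P p q) (hw : w ∉ vs F) (h : α → ℝ) :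
    lap (split F x w P p q) (lift x w h) x = cc F x q P h := by
  have hxw : x ≠ w := C3a_ne' hw (Adj.mem_left hA.adjp)
  have hn : ∀ s ∈ insert q (nbr F x \ P), s ≠ w := by
    intro s hs
    rcases mem_insert.1 hs with rfl | hs
    · exact C3a_ne hF hw (mem_nbr.2 hA.adjq)
    · exact C3a_ne hF hw (mem_sdiff.1 hs).1
  rw [lap_nbr (hF.split hA hw), nbr_split_x hF hA hw, sum_insert fun h1 => hn w h1 rfl,
    C3a_lift_w, C3a_lift_ne hxw, sub_self, zero_add]
  unfold cc
  refine sum_congr rfl fun s hs => ?_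
  rw [C3a_lift_ne (hn s hs)]

/-- Uses that `∑ (h s - h x)` over all neighbours is `lap F h x`; `p` and `q` are counted twice. -/
theorem lap_lift_w (hF : IsSurf F) (hA : IsArc F x P p q) (hw : w ∉ vs F) (h : α → ℝ) :
    lap (split F x w P p q) (lift x w h) w =
      lap F h x + (h p - h x) + (h q - h x) - cc F x q P h := by
  have hxw : x ≠ w := C3a_ne' hw (Adj.mem_left hA.adjp)
  have hpw : p ≠ w := C3a_ne hF hw (mem_nbr.2 hA.adjp)
  have hx1 : x ∉ insert p P := by
    rw [mem_insert, not_or]
    exact ⟨hF.adj_ne hA.adjp, fun h1 => hF.adj_ne (hA.adj x h1) rfl⟩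
  have e1 : lap (split F x w P p q) (lift x w h) w = (h p - h x) + ∑ s ∈ P, (h s - h x) := by
    rw [lap_nbr (hF.split hA hw), nbr_split_w hF hA hw, sum_insert hx1,
      sum_insert hA.notMem, C3a_lift_w, C3a_lift_ne hxw, C3a_lift_ne hpw, sub_self, zero_add]
    congr 1
    refine sum_congr rfl fun s hs => ?_
    rw [C3a_lift_ne (C3a_ne hF hw (C3a_P hA hs))]
  have e2 : lap F h x = ∑ s ∈ nbr F x \ P, (h s - h x) + ∑ s ∈ P, (h s - h x) := by
    rw [lap_nbr hF, sum_sdiff (C3a_P hA)]
  have e3 : cc F x q P h = (h q - h x) + ∑ s ∈ nbr F x \ P, (h s - h x) := by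
    unfold cc
    rw [sum_insert fun h1 => (mem_sdiff.1 h1).2 hA.mem]
  rw [e1, e2, e3]
  ring

theorem C3a_lap_pot (hF : IsSurf F) {v u y : α} (hv : v ∈ vs F) (hu : u ∈ vs F) (hvu : v ≠ u)
    (hy : y ∈ vs F) :
    lap F (pot F v u) y = (if y = v then 1 else 0) - (if y = u then 1 else 0) := by
  have hh := pot_isPot hF hv hu hvu
  by_cases h1 : y = v
  · rw [h1, hh.src, if_pos rfl, if_neg hvu]; norm_num
  · by_cases h2 : y = u
    · rw [h2, hh.snk hF hv hu hvu, if_pos rfl, if_neg hvu.symm]; norm_num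
    · rw [hh.harm y hy h1 h2, if_neg h1, if_neg h2]; norm_num

/-- The potential of the split triangulation is the lift plus three dipoles: the difference of the two sides is
harmonic (`lap_lift_*`, `IsPot.harm`, `IsPot.src`, `IsPot.snk`, `lap F h x = 0`, linearity of `lap`:
`C0a_lap_add`, `C0a_lap_smul`, `C0a_lap_sub`), hence constant (`harm_const`). -/
theorem pot_split (hF : IsSurf F) (hA : IsArc F x P p q) (hw : w ∉ vs F) {v u : α}
    (hv : v ∈ vs F) (hu : u ∈ vs F) (hvu : v ≠ u) (hxv : x ≠ v) (hxu : x ≠ u) {m n : α}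
    (hm : m ∈ vs (split F x w P p q)) (hn : n ∈ vs (split F x w P p q)) :
    pot (split F x w P p q) v u m - pot (split F x w P p q) v u n =
      (lift x w (pot F v u) m - lift x w (pot F v u) n) +
      (pot F v u p - pot F v u x) *
        (pot (split F x w P p q) p w m - pot (split F x w P p q) p w n) +
      (pot F v u q - pot F v u x) *
        (pot (split F x w P p q) q w m - pot (split F x w P p q) q w n) +
      cc F x q P (pot F v u) *
        (pot (split F x w P p q) w x m - pot (split F x w P p q) w x n) := by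
  have hF' := hF.split hA hw
  have hvs := vs_split hF hA hw
  have hin : ∀ y ∈ vs F, y ∈ vs (split F x w P p q) := fun y hy => by
    rw [hvs]; exact mem_insert_of_mem hy
  have hw' : w ∈ vs (split F x w P p q) := by rw [hvs]; exact mem_insert_self _ _
  have hx : x ∈ vs F := Adj.mem_left hA.adjp
  have hp : p ∈ vs F := hF.adj_mem_right hA.adjp
  have hq : q ∈ vs F := hF.adj_mem_right hA.adjq
  have hxw : x ≠ w := C3a_ne' hw hx
  have hpw : p ≠ w := C3a_ne' hw hp
  have hqw : q ≠ w := C3a_ne' hw hq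
  have hpx : p ≠ x := (hF.adj_ne hA.adjp).symm
  have hqx : q ≠ x := (hF.adj_ne hA.adjq).symm
  have hpq := hA.ne
  set h := pot F v u with hdef
  set sp := h p - h x with hsp
  set sq := h q - h x with hsq
  set c := cc F x q P h with hc
  set G := split F x w P p q with hG
  have key : ∀ y ∈ vs G, lap G (fun y => pot G v u y - (((lift x w h y + sp * pot G p w y) +
      sq * pot G q w y) + c * pot G w x y)) y = 0 := by
    intro y hy
    rw [C0a_lap_sub, C0a_lap_add, C0a_lap_add, C0a_lap_add, C0a_lap_smul, C0a_lap_smul,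
      C0a_lap_smul, C3a_lap_pot hF' (hin v hv) (hin u hu) hvu hy,
      C3a_lap_pot hF' (hin p hp) hw' hpw hy, C3a_lap_pot hF' (hin q hq) hw' hqw hy,
      C3a_lap_pot hF' hw' (hin x hx) hxw.symm hy]
    rw [hvs] at hy
    rcases mem_insert.1 hy with rfl | hy
    · rw [lap_lift_w hF hA hw h, C3a_lap_pot hF hv hu hvu hx, if_neg (C3a_ne' hw hv).symm,
        if_neg (C3a_ne' hw hu).symm, if_neg hpw.symm, if_pos rfl, if_neg hqw.symm,
        if_neg hxw.symm, if_neg hxv, if_neg hxu]
      ring
    · by_cases h1 : y = x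
      · rw [h1, lap_lift_x hF hA hw h, if_neg hxv, if_neg hxu, if_neg hpx.symm, if_neg hxw,
          if_neg hqx.symm, if_pos rfl]
        ring
      · by_cases h2 : y = p
        · rw [h2, lap_lift_p hF hA hw h, C3a_lap_pot hF hv hu hvu hp, if_pos rfl, if_neg hpw,
            if_neg hpq, if_neg hpx]
          ring
        · by_cases h3 : y = q
          · rw [h3, lap_lift_q hF hA hw h, C3a_lap_pot hF hv hu hvu hq, if_neg hpq.symm,
              if_neg hqw, if_pos rfl, if_neg hqx]
            ring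
          · rw [lap_lift_v hF hA hw h hy h1 h2 h3, C3a_lap_pot hF hv hu hvu hy, if_neg h2,
              if_neg (C3a_ne' hw hy), if_neg h3, if_neg h1]
            ring
  have hconst := harm_const hF' key m hm n hn
  linarith

end H19S
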