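import Pool.Agent.Lib.H19S.C3a

/-!
# H19S, chunk C3b: the throughput of the split triangulation
-/

namespace H19S

set_option linter.unusedSectionVars false

open Finset

variable {α : Type*} [DecidableEq α] {F : Finset (α × α × α)} {x w p q : α} {P : Finset α}

theorem thr_nbr (hF : IsSurf F) (h : α → ℝ) (v : α) :
    thr F h v = (∑ s ∈ nbr F v, |h s - h v|) / 2 := by
  unfold thr
  rw [hF.sum_nbr v fun s => |h s - h v|]

/-- (chunk C3b) At the poles the throughput is `1/2`: all differences have the same sign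
(`IsPot.nonneg`, `IsPot.le_top`), and the Laplacian is `1` resp. `-1`. -/
theorem thr_src (hF : IsSurf F) {v u : α} (hv : v ∈ vs F) (hu : u ∈ vs F) (hvu : v ≠ u) :
    thr F (pot F v u) v = 1 / 2 := by
  have hh := pot_isPot hF hv hu hvu
  rw [thr_nbr hF]
  congr 1
  rw [← hh.src, lap_nbr hF]
  refine sum_congr rfl fun s hs => abs_of_nonneg ?_
  rw [hh.zero, sub_zero]
  exact hh.nonneg hF hv hu hvu (hF.adj_mem_right (mem_nbr.1 hs))

theorem thr_snk (hF : IsSurf F) {v u : α} (hv : v ∈ vs F) (hu : u ∈ vs F) (hvu : v ≠ u) :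
    thr F (pot F v u) u = 1 / 2 := by
  have hh := pot_isPot hF hv hu hvu
  rw [thr_nbr hF]
  congr 1
  have h1 : ∑ s ∈ nbr F u, |pot F v u s - pot F v u u| = - lap F (pot F v u) u := by
    rw [lap_nbr hF, ← sum_neg_distrib]
    refine sum_congr rfl fun s hs => abs_of_nonpos ?_
    have := hh.le_top hF hv hu hvu (hF.adj_mem_right (mem_nbr.1 hs))
    linarith
  rw [h1, hh.snk hF hv hu hvu, neg_neg]

/-- The potential between adjacent vertices has oscillation at most one (`IsPot.nonneg`, `IsPot.le_top`,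
`IsPot.grad_le` on the edge `vu`, `h v = 0`). -/
theorem osc_le (hF : IsSurf F) {v u : α} (h : Adj F v u) {m n : α} (hm : m ∈ vs F) (hn : n ∈ vs F) :
    |pot F v u m - pot F v u n| ≤ 1 := by
  have hv := Adj.mem_left h
  have hu := hF.adj_mem_right h
  have hvu := hF.adj_ne h
  have hh := pot_isPot hF hv hu hvu
  have h1 := hh.nonneg hF hv hu hvu hm
  have h2 := hh.nonneg hF hv hu hvu hn
  have h3 := hh.le_top hF hv hu hvu hm
  have h4 := hh.le_top hF hv hu hvu hn
  have h5 := hh.grad_le hF hv hu hvu h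
  rw [hh.zero, sub_zero, abs_le] at h5
  rw [abs_le]
  constructor <;> linarith [h5.2]

theorem C3b_adj (hF : IsSurf F) (hA : IsArc F x P p q) (hw : w ∉ vs F) :
    Adj (split F x w P p q) p w ∧ Adj (split F x w P p q) q w ∧ Adj (split F x w P p q) w x := by
  have hF' := hF.split hA hw
  have h1 : ∀ s, s ∈ insert x (insert p P) → Adj (split F x w P p q) w s := by
    intro s hs
    rw [← nbr_split_w hF hA hw] at hs
    exact mem_nbr.1 hs
  exact ⟨hF'.adj_symm (h1 p (by simp)), hF'.adj_symm (h1 q (by simp [hA.mem])), h1 x (by simp)⟩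

/-- The change of potential differences by the splitting (`pot_split`, `osc_le`; `p, q, x` are neighbours
of `w`). -/
theorem dep_split (hF : IsSurf F) (hA : IsArc F x P p q) (hw : w ∉ vs F) {v u : α}
    (hv : v ∈ vs F) (hu : u ∈ vs F) (hvu : v ≠ u) (hxv : x ≠ v) (hxu : x ≠ u) {m n : α}
    (hm : m ∈ vs (split F x w P p q)) (hn : n ∈ vs (split F x w P p q)) :
    |(pot (split F x w P p q) v u m - pot (split F x w P p q) v u n) -
      (lift x w (pot F v u) m - lift x w (pot F v u) n)| ≤
      |pot F v u p - pot F v u x| + |pot F v u q - pot F v u x| + |cc F x q P (pot F v u)| := by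
  have hF' := hF.split hA hw
  obtain ⟨a1, a2, a3⟩ := C3b_adj hF hA hw
  have h1 := osc_le hF' a1 hm hn
  have h2 := osc_le hF' a2 hm hn
  have h3 := osc_le hF' a3 hm hn
  have key := pot_split hF hA hw hv hu hvu hxv hxu hm hn
  have e : (pot (split F x w P p q) v u m - pot (split F x w P p q) v u n) -
      (lift x w (pot F v u) m - lift x w (pot F v u) n) =
      (pot F v u p - pot F v u x) *
        (pot (split F x w P p q) p w m - pot (split F x w P p q) p w n) +
      (pot F v u q - pot F v u x) *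
        (pot (split F x w P p q) q w m - pot (split F x w P p q) q w n) +
      cc F x q P (pot F v u) *
        (pot (split F x w P p q) w x m - pot (split F x w P p q) w x n) := by
    rw [key]; ring
  rw [e]
  have b1 : ∀ s t : ℝ, |t| ≤ 1 → |s * t| ≤ |s| := by
    intro s t ht
    rw [abs_mul]
    exact mul_le_of_le_one_right (abs_nonneg _) ht
  exact (abs_add_three _ _ _).trans (add_le_add (add_le_add (b1 _ _ h1) (b1 _ _ h2)) (b1 _ _ h3))

theorem C3b_low (hF : IsSurf F) (hA : IsArc F x P p q) (hw : w ∉ vs F) {v u : α}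
    (hv : v ∈ vs F) (hu : u ∈ vs F) (hvu : v ≠ u) (hxv : x ≠ v) (hxu : x ≠ u) {z : α}
    (hz : z ∈ vs (split F x w P p q)) :
    ∑ s ∈ nbr (split F x w P p q) z, |lift x w (pot F v u) s - lift x w (pot F v u) z| -
      |pot F v u p - pot F v u x| *
        (2 * thr (split F x w P p q) (pot (split F x w P p q) p w) z) -
      |pot F v u q - pot F v u x| *
        (2 * thr (split F x w P p q) (pot (split F x w P p q) q w) z) -
      |cc F x q P (pot F v u)| *
        (2 * thr (split F x w P p q) (pot (split F x w P p q) w x) z) ≤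
    2 * thr (split F x w P p q) (pot (split F x w P p q) v u) z := by
  have hF' := hF.split hA hw
  simp only [thr_nbr hF']
  set G := split F x w P p q with hG
  have hd : ∀ y : ℝ, 2 * (y / 2) = y := fun y => by ring
  simp only [hd, mul_sum]
  rw [← sum_sub_distrib, ← sum_sub_distrib, ← sum_sub_distrib]
  refine sum_le_sum fun s hs => ?_
  have hs' : s ∈ vs G := hF'.adj_mem_right (mem_nbr.1 hs)
  have key := pot_split hF hA hw hv hu hvu hxv hxu hs' hz
  rw [← hG] at key
  rw [key, ← abs_mul, ← abs_mul, ← abs_mul]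
  set A := lift x w (pot F v u) s - lift x w (pot F v u) z
  set B := (pot F v u p - pot F v u x) * (pot G p w s - pot G p w z)
  set C := (pot F v u q - pot F v u x) * (pot G q w s - pot G q w z)
  set D := cc F x q P (pot F v u) * (pot G w x s - pot G w x z)
  have h1 : |A| ≤ |A + B + C + D| + |B| + |C| + |D| := by
    have e : A = (A + B + C + D) - B - C - D := by ring
    calc |A| = |(A + B + C + D) - B - C - D| := by rw [← e]
      _ ≤ |(A + B + C + D) - B - C| + |D| := abs_sub _ _
      _ ≤ |(A + B + C + D) - B| + |C| + |D| := by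
          have := abs_sub ((A + B + C + D) - B) C
          linarith
      _ ≤ |A + B + C + D| + |B| + |C| + |D| := by
          have := abs_sub (A + B + C + D) B
          linarith
  linarith

/-- The throughput is shared.  `2 thr' x = ∑ over nbr' x of |∇h'| ≥ ∑ |∇g| - |s_p| ∑ |∇P_p| - |s_q| ∑ |∇P_q| - |c| ∑ |∇P_c|`,
`g` the lift, where the sums of `|∇P|` are at most `2` (`IsPot.thr_le`) and equal to `1` at the poles of the
dipole (`thr_src`, `thr_snk`): at `x`: `2, 2, 1`, at `w`: `1, 1, 1`; and the sums of `|∇g|` at `x` and `w`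
add up to `2 thr F h x + |s_p| + |s_q|` (`nbr_split_x`, `nbr_split_w`; `∇g = 0` on the edge `xw`). -/
theorem thr_split (hF : IsSurf F) (hA : IsArc F x P p q) (hw : w ∉ vs F) {v u : α}
    (hv : v ∈ vs F) (hu : u ∈ vs F) (hvu : v ≠ u) (hxv : x ≠ v) (hxu : x ≠ u) :
    thr F (pot F v u) x - |pot F v u p - pot F v u x| - |pot F v u q - pot F v u x| -
        |cc F x q P (pot F v u)| ≤
      thr (split F x w P p q) (pot (split F x w P p q) v u) x +
      thr (split F x w P p q) (pot (split F x w P p q) v u) w := by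
  have hF' := hF.split hA hw
  have hvs := vs_split hF hA hw
  have hin : ∀ y ∈ vs F, y ∈ vs (split F x w P p q) := fun y hy => by
    rw [hvs]; exact mem_insert_of_mem hy
  have hw' : w ∈ vs (split F x w P p q) := by rw [hvs]; exact mem_insert_self _ _
  have hx : x ∈ vs F := Adj.mem_left hA.adjp
  have hp : p ∈ vs F := hF.adj_mem_right hA.adjp
  have hq : q ∈ vs F := hF.adj_mem_right hA.adjq
  have hxw : x ≠ w := C3a_ne' hw hx
  have hpw : p ≠ w := C3a_ne' hw hp
  have hqw : q ≠ w := C3a_ne' hw hq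
  have k1 := C3b_low hF hA hw hv hu hvu hxv hxu (hin x hx)
  have k2 := C3b_low hF hA hw hv hu hvu hxv hxu hw'
  rw [thr_snk hF' hw' (hin x hx) hxw.symm] at k1
  rw [thr_snk hF' (hin p hp) hw' hpw, thr_snk hF' (hin q hq) hw' hqw,
    thr_src hF' hw' (hin x hx) hxw.symm] at k2
  have t1 := (pot_isPot hF' (hin p hp) hw' hpw).thr_le hF' (hin p hp) hw' hpw (hin x hx)
  have t2 := (pot_isPot hF' (hin q hq) hw' hqw).thr_le hF' (hin q hq) hw' hqw (hin x hx)
  have hx1 : x ∉ insert p P := by
    rw [mem_insert, not_or]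
    exact ⟨hF.adj_ne hA.adjp, fun h1 => hF.adj_ne (hA.adj x h1) rfl⟩
  have hn : ∀ s ∈ insert q (nbr F x \ P), s ≠ w := by
    intro s hs
    rcases mem_insert.1 hs with rfl | hs
    · exact C3a_ne hF hw (mem_nbr.2 hA.adjq)
    · exact C3a_ne hF hw (mem_sdiff.1 hs).1
  have s1 : ∑ s ∈ nbr (split F x w P p q) x, |lift x w (pot F v u) s - lift x w (pot F v u) x| =
      |pot F v u q - pot F v u x| + ∑ s ∈ nbr F x \ P, |pot F v u s - pot F v u x| := by
    rw [nbr_split_x hF hA hw, sum_insert fun h1 => hn w h1 rfl,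
      C3a_lift_w, C3a_lift_ne hxw, sub_self, abs_zero, zero_add]
    have : ∑ s ∈ insert q (nbr F x \ P), |lift x w (pot F v u) s - pot F v u x| =
        ∑ s ∈ insert q (nbr F x \ P), |pot F v u s - pot F v u x| :=
      sum_congr rfl fun s hs => by rw [C3a_lift_ne (hn s hs)]
    rw [this, sum_insert fun h1 => (mem_sdiff.1 h1).2 hA.mem]
  have s2 : ∑ s ∈ nbr (split F x w P p q) w, |lift x w (pot F v u) s - lift x w (pot F v u) w| =
      |pot F v u p - pot F v u x| + ∑ s ∈ P, |pot F v u s - pot F v u x| := by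
    rw [nbr_split_w hF hA hw, sum_insert hx1,
      sum_insert hA.notMem, C3a_lift_w, C3a_lift_ne hxw, C3a_lift_ne hpw, sub_self, abs_zero,
      zero_add]
    congr 1
    refine sum_congr rfl fun s hs => ?_
    rw [C3a_lift_ne (C3a_ne hF hw (C3a_P hA hs))]
  have s3 : 2 * thr F (pot F v u) x = ∑ s ∈ nbr F x \ P, |pot F v u s - pot F v u x| +
      ∑ s ∈ P, |pot F v u s - pot F v u x| := by
    rw [thr_nbr hF, sum_sdiff (C3a_P hA)]
    ring
  rw [s1] at k1
  rw [s2] at k2
  have n1 := abs_nonneg (pot F v u p - pot F v u x)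
  have n2 := abs_nonneg (pot F v u q - pot F v u x)
  nlinarith

end H19S
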