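import Mathlib

/-!
# H19S, chunk C3c: good pairs (a statement on finite sequences)
-/

namespace H19S

open Finset

/-- The pair `a < b` is good. -/
def GoodP (s : ℕ → ℝ) (Φ : ℝ) (a b : ℕ) : Prop :=
  |s a| ≤ Φ / 12 ∧ |s b| ≤ Φ / 12 ∧ |∑ i ∈ Icc a b, s i| ≤ Φ / 4

open Classical in
/-- The set of good pairs. -/
noncomputable def goodP (s : ℕ → ℝ) (Φ : ℝ) (d : ℕ) : Finset (ℕ × ℕ) :=
  (range d ×ˢ range d).filter fun e => e.1 < e.2 ∧ GoodP s Φ e.1 e.2

/-- Number of pairs in the same class. -/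
theorem c3c_pairs (A : Finset ℕ) (cl : ℕ → ℕ) (hcl : ∀ i, cl i < 6) :
    (A.card : ℝ) ^ 2 / 6 ≤
      2 * (((A ×ˢ A).filter fun e => e.1 < e.2 ∧ cl e.1 = cl e.2).card : ℝ) + A.card := by
  classical
  set P := (A ×ˢ A).filter fun e : ℕ × ℕ => cl e.1 = cl e.2 with hP
  set G := (A ×ˢ A).filter fun e : ℕ × ℕ => e.1 < e.2 ∧ cl e.1 = cl e.2 with hG
  set G' := (A ×ˢ A).filter fun e : ℕ × ℕ => e.2 < e.1 ∧ cl e.1 = cl e.2 with hG'
  set D := A.image fun a => (a, a) with hD
  have h1 : P.card ≤ G.card + G'.card + D.card := by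
    refine (card_le_card (t := (G ∪ G') ∪ D) ?_).trans
      ((card_union_le _ _).trans (add_le_add (card_union_le _ _) le_rfl))
    rintro ⟨a, b⟩ hab
    obtain ⟨h2, h3⟩ := mem_filter.mp hab
    simp only at h3
    rcases lt_trichotomy a b with h | h | h
    · exact mem_union_left _ (mem_union_left _ (mem_filter.mpr ⟨h2, h, h3⟩))
    · subst h
      exact mem_union_right _ (mem_image.mpr ⟨a, (mem_product.mp h2).1, rfl⟩)
    · exact mem_union_left _ (mem_union_right _ (mem_filter.mpr ⟨h2, h, h3⟩))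
  have h2 : G'.card = G.card := by
    refine card_bij (fun e _ => (e.2, e.1)) ?_ ?_ ?_
    · rintro ⟨a, b⟩ h
      obtain ⟨h3, h4, h5⟩ := mem_filter.mp h
      obtain ⟨h6, h7⟩ := mem_product.mp h3
      exact mem_filter.mpr ⟨mem_product.mpr ⟨h7, h6⟩, h4, h5.symm⟩
    · rintro ⟨a, b⟩ _ ⟨a', b'⟩ _ h
      simp only [Prod.mk.injEq] at h ⊢
      exact ⟨h.2, h.1⟩
    · rintro ⟨a, b⟩ h
      obtain ⟨h3, h4, h5⟩ := mem_filter.mp h
      obtain ⟨h6, h7⟩ := mem_product.mp h3
      exact ⟨(b, a), mem_filter.mpr ⟨mem_product.mpr ⟨h7, h6⟩, h4, h5.symm⟩, rfl⟩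
  have h3 : D.card ≤ A.card := card_image_le
  -- the number of pairs
  have h4 : P.card = ∑ k ∈ range 6, (A.filter fun i => cl i = k).card ^ 2 := by
    rw [card_eq_sum_card_fiberwise (f := fun e : ℕ × ℕ => cl e.1) (t := range 6)]
    · refine sum_congr rfl fun k _ => ?_
      rw [sq, ← card_product]
      congr 1
      ext ⟨a, b⟩
      simp only [hP, mem_filter, mem_product]
      constructor
      · rintro ⟨⟨⟨h5, h6⟩, h7⟩, h8⟩
        exact ⟨⟨h5, h8⟩, h6, h7 ▸ h8⟩
      · rintro ⟨⟨h5, h8⟩, h6, h7⟩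
        exact ⟨⟨⟨h5, h6⟩, h8.trans h7.symm⟩, h8⟩
    · intro e _
      exact mem_coe.mpr (mem_range.mpr (hcl _))
  have h5 : (∑ k ∈ range 6, (A.filter fun i => cl i = k).card) = A.card :=
    (card_eq_sum_card_fiberwise (f := cl) (t := range 6)
      (fun i _ => mem_coe.mpr (mem_range.mpr (hcl i)))).symm
  have h6 : (A.card : ℝ) ^ 2 ≤ 6 * (P.card : ℝ) := by
    have h7 := sq_sum_le_card_mul_sum_sq (s := range 6)
      (f := fun k => ((A.filter fun i => cl i = k).card : ℝ))
    rw [card_range] at h7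
    have h8 : (∑ k ∈ range 6, ((A.filter fun i => cl i = k).card : ℝ)) = (A.card : ℝ) := by
      exact_mod_cast h5
    have h9 : (∑ k ∈ range 6, ((A.filter fun i => cl i = k).card : ℝ) ^ 2) = (P.card : ℝ) := by
      rw [h4]
      push_cast
      rfl
    rw [h8, h9] at h7
    exact_mod_cast h7
  have h7 : (P.card : ℝ) ≤ 2 * (G.card : ℝ) + A.card := by
    have : P.card ≤ 2 * G.card + A.card := by omega
    exact_mod_cast this
  linarith

/-- (chunk C3c) If `Φ = 0` all `s i` vanish and all `d(d-1)/2` pairs are good.  Let `Φ > 0`.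
`A = {i < d : |s i| ≤ Φ/12}` has at least `d - 24` elements (`∑ |s i| = 2 Φ`).  Let `S i = ∑_{j < i} s j`; then
`|S i - S j| ≤ Φ` for `i, j ≤ d` (the positive parts and the negative parts have sum `Φ`).  With
`m = min_A S`, put `i ∈ A` in the class `min 5 ⌊6 (S i - m)/Φ⌋`; for `a < b` in the same class
`|S b - S a| ≤ Φ/6`, so `|∑_{Icc a b} s| = |S b - S a + s b| ≤ Φ/4`.  The number of pairs in the same class is
`∑_k n_k (n_k - 1)/2 ≥ (m²/6 - m)/2` for `m = |A| ≥ d - 24` (Cauchy-Schwarz), and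
`(d-24)(d-30)/12 ≥ d²/24` for `d ≥ 100`. -/
theorem goodP_card (s : ℕ → ℝ) (d : ℕ) (Φ : ℝ) (hd : 100 ≤ d) (h0 : ∑ i ∈ range d, s i = 0)
    (hΦ : ∑ i ∈ range d, |s i| = 2 * Φ) : (d : ℝ) ^ 2 / 24 ≤ ((goodP s Φ d).card : ℝ) := by
  classical
  have hΦ0 : 0 ≤ Φ := by
    have : 0 ≤ ∑ i ∈ range d, |s i| := sum_nonneg fun _ _ => abs_nonneg _
    linarith
  -- partial sums
  have hpart : ∀ T ⊆ range d, |∑ i ∈ T, s i| ≤ Φ := by
    intro T hT
    have h1 : ∑ i ∈ range d \ T, s i + ∑ i ∈ T, s i = 0 := by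
      rw [sum_sdiff hT, h0]
    have h2 : ∑ i ∈ range d \ T, |s i| + ∑ i ∈ T, |s i| = 2 * Φ := by
      rw [sum_sdiff hT, hΦ]
    have h3 := abs_sum_le_sum_abs s T
    have h4 := abs_sum_le_sum_abs s (range d \ T)
    have h5 : ∑ i ∈ range d \ T, s i = - ∑ i ∈ T, s i := by linarith
    rw [h5, abs_neg] at h4
    linarith
  set S : ℕ → ℝ := fun i => ∑ j ∈ range i, s j with hS
  have hIcc : ∀ a b, a ≤ b → ∑ i ∈ Icc a b, s i = S b - S a + s b := by
    intro a b hab
    have h1 : Icc a b = Ico a (b + 1) := by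
      ext x
      simp only [mem_Icc, mem_Ico]
      omega
    rw [h1, sum_Ico_eq_sub _ (by omega : a ≤ b + 1), sum_range_succ]
    simp only [hS]
    ring
  have hIco : ∀ a b, a ≤ b → b ≤ d → |S b - S a| ≤ Φ := by
    intro a b hab hbd
    have h1 : S b - S a = ∑ i ∈ Ico a b, s i := (sum_Ico_eq_sub _ hab).symm
    rw [h1]
    apply hpart
    intro x hx
    rw [mem_Ico] at hx
    rw [mem_range]
    omega
  set A := (range d).filter fun i => |s i| ≤ Φ / 12 with hA
  have hAc : (d : ℝ) - 24 ≤ (A.card : ℝ) := by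
    have h1 : ((range d).filter fun i => ¬ |s i| ≤ Φ / 12).card ≤ 24 := by
      rcases hΦ0.eq_or_lt with h | h
      · rw [← h] at hΦ ⊢
        have h2 : ((range d).filter fun i => ¬ |s i| ≤ 0 / 12) = ∅ := by
          rw [filter_eq_empty_iff]
          intro i hi
          have h3 : ∀ i ∈ range d, |s i| = 0 := by
            rw [← sum_eq_zero_iff_of_nonneg (fun _ _ => abs_nonneg _)]
            rw [hΦ]
            ring
          rw [not_not, h3 i hi]
          norm_num
        rw [h2]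
        simp
      · have h2 : ∑ i ∈ (range d).filter (fun i => ¬ |s i| ≤ Φ / 12), Φ / 12 ≤ 2 * Φ := by
          rw [← hΦ]
          refine (sum_le_sum (g := fun i => |s i|) ?_).trans
            (sum_le_sum_of_subset_of_nonneg (filter_subset _ _) fun _ _ _ => abs_nonneg _)
          intro i hi
          exact (not_le.mp (mem_filter.mp hi).2).le
        rw [sum_const, nsmul_eq_mul] at h2
        have h3 : (((range d).filter fun i => ¬ |s i| ≤ Φ / 12).card : ℝ) ≤ 24 := by
          have h4 : (((range d).filter fun i => ¬ |s i| ≤ Φ / 12).card : ℝ) * Φ ≤ 24 * Φ := by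
            linarith
          exact le_of_mul_le_mul_right h4 h
        exact_mod_cast h3
    have h2 := card_filter_add_card_filter_not (s := range d) (fun i => |s i| ≤ Φ / 12)
    rw [card_range] at h2
    have h3 : d ≤ A.card + 24 := by
      rw [← h2]
      exact Nat.add_le_add_left h1 _
    have h4 : (d : ℝ) ≤ (A.card : ℝ) + 24 := by exact_mod_cast h3
    linarith
  have hdr : (100 : ℝ) ≤ d := by exact_mod_cast hd
  have hAne : A.Nonempty := by
    rw [← card_pos]
    have : (0 : ℝ) < A.card := by linarith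
    exact_mod_cast this
  obtain ⟨i0, hi0, hmin⟩ := exists_min_image A S hAne
  have hAd : ∀ i ∈ A, i < d ∧ |s i| ≤ Φ / 12 := by
    intro i hi
    obtain ⟨h1, h2⟩ := mem_filter.mp hi
    exact ⟨mem_range.mp h1, h2⟩
  have hrange : ∀ i ∈ A, 0 ≤ S i - S i0 ∧ S i - S i0 ≤ Φ := by
    intro i hi
    refine ⟨by linarith [hmin i hi], ?_⟩
    rcases le_total i0 i with h | h
    · exact (le_abs_self _).trans (hIco i0 i h (hAd i hi).1.le)
    · have := hIco i i0 h (hAd i0 hi0).1.le
      rw [abs_sub_comm] at this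
      exact (le_abs_self _).trans this
  set cl : ℕ → ℕ := fun i => min 5 ⌊6 * (S i - S i0) / Φ⌋₊ with hcl
  have hcl6 : ∀ i, cl i < 6 := fun i => lt_of_le_of_lt (min_le_left _ _) (by norm_num)
  have hsame : ∀ a ∈ A, ∀ b ∈ A, cl a = cl b → |S b - S a| ≤ Φ / 6 := by
    intro a ha b hb hab
    rcases hΦ0.eq_or_lt with h | h
    · have h1 := hrange a ha
      have h2 := hrange b hb
      rw [← h] at h1 h2 ⊢
      have h3 : S b - S a = 0 := by linarith
      rw [h3]
      simp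
    · have key : ∀ i ∈ A, (cl i : ℝ) * Φ ≤ 6 * (S i - S i0) ∧
          6 * (S i - S i0) ≤ ((cl i : ℝ) + 1) * Φ := by
        intro i hi
        obtain ⟨h1, h2⟩ := hrange i hi
        have h3 : 0 ≤ 6 * (S i - S i0) / Φ := by positivity
        have h4 : (⌊6 * (S i - S i0) / Φ⌋₊ : ℝ) ≤ 6 * (S i - S i0) / Φ := Nat.floor_le h3
        have h5 : 6 * (S i - S i0) / Φ < (⌊6 * (S i - S i0) / Φ⌋₊ : ℝ) + 1 :=
          Nat.lt_floor_add_one _
        rw [le_div_iff₀ h] at h4
        rw [div_lt_iff₀ h] at h5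
        constructor
        · have h6 : (cl i : ℝ) ≤ (⌊6 * (S i - S i0) / Φ⌋₊ : ℝ) := by
            exact_mod_cast min_le_right _ _
          nlinarith
        · rcases le_total 5 ⌊6 * (S i - S i0) / Φ⌋₊ with h6 | h6
          · have h7 : cl i = 5 := min_eq_left h6
            rw [h7]
            push_cast
            linarith
          · have h7 : cl i = ⌊6 * (S i - S i0) / Φ⌋₊ := min_eq_right h6
            rw [h7]
            exact h5.le
      obtain ⟨a1, a2⟩ := key a ha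
      obtain ⟨b1, b2⟩ := key b hb
      rw [← hab] at b1 b2
      rw [abs_le]
      constructor <;> nlinarith
  have hpairs := c3c_pairs A cl hcl6
  have hsub : ((A ×ˢ A).filter fun e => e.1 < e.2 ∧ cl e.1 = cl e.2) ⊆ goodP s Φ d := by
    rintro ⟨a, b⟩ hab
    obtain ⟨h1, h2, h3⟩ := mem_filter.mp hab
    obtain ⟨ha, hb⟩ := mem_product.mp h1
    simp only at ha hb h2 h3
    obtain ⟨ha1, ha2⟩ := hAd a ha
    obtain ⟨hb1, hb2⟩ := hAd b hb
    unfold goodP
    refine mem_filter.mpr ⟨mem_product.mpr ⟨mem_range.mpr ha1, mem_range.mpr hb1⟩, h2, ha2, hb2, ?_⟩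
    simp only
    rw [hIcc a b h2.le]
    have h4 := hsame a ha b hb h3
    have h5 := abs_add_le (S b - S a) (s b)
    linarith
  have hcard : (((A ×ˢ A).filter fun e => e.1 < e.2 ∧ cl e.1 = cl e.2).card : ℝ) ≤
      ((goodP s Φ d).card : ℝ) := by
    exact_mod_cast card_le_card hsub
  nlinarith

end H19S
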