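import Pool.Agent.Lib.H19S.Iface

/-!
# H19S: the depth of a vertex (used in parts C and F)
-/

namespace H19S

/-- The depth of `x`: `h z - h x`, `h` the potential from `v = 0` to `u = 1`, `z = 2`. -/
noncomputable def dep (F : Finset (ℕ × ℕ × ℕ)) (x : ℕ) : ℝ := pot F 0 1 2 - pot F 0 1 x

end H19S
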