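import Pool.Agent.Lib.H19S.C3b
import Pool.Agent.Lib.H19S.C3c
import Pool.Agent.Lib.H19S.Dep

/-!
# H19S, chunk C4a: the weighted sums, relabelling
-/

namespace H19S

set_option linter.unusedSectionVars false

open Finset

/-- The weight function. -/
noncomputable def psi (a s : ℝ) : ℝ := Real.exp (-|s - a|)

theorem psi_pos (a s : ℝ) : 0 < psi a s := Real.exp_pos _

theorem psi_le_one (a s : ℝ) : psi a s ≤ 1 := by
  unfold psi
  rw [Real.exp_le_one_iff]
  linarith [abs_nonneg (s - a)]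

/-- `psi` changes at most by the factor `e` on distance one. -/
theorem psi_near {a s t : ℝ} (h : |s - t| ≤ 1) : psi a s ≤ Real.exp 1 * psi a t := by
  unfold psi
  rw [← Real.exp_add]
  apply Real.exp_le_exp.2
  have h1 : |t - a| ≤ |s - a| + |s - t| := by
    have := abs_sub_le t s a
    rw [abs_sub_comm t s] at this
    linarith
  linarith

/-- The weighted square of the throughput. -/
noncomputable def Ps (a : ℝ) (F : Finset (ℕ × ℕ × ℕ)) (x : ℕ) : ℝ :=
  psi a (dep F x) * (thr F (pot F 0 1) x) ^ 2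

theorem Ps_nonneg (a : ℝ) (F : Finset (ℕ × ℕ × ℕ)) (x : ℕ) : 0 ≤ Ps a F x :=
  mul_nonneg (psi_pos _ _).le (sq_nonneg _)

/-- The unmarked vertices of degree at least `D`. -/
def big (F : Finset (ℕ × ℕ × ℕ)) (D : ℕ) : Finset ℕ :=
  (vs F \ {0, 1, 2}).filter fun x => D ≤ deg F x

/-- `∑ psi i^2 d^e` over the unmarked vertices of degree at least `D`. -/
noncomputable def QQ (a : ℝ) (e D : ℕ) (F : Finset (ℕ × ℕ × ℕ)) : ℝ :=
  ∑ x ∈ big F D, Ps a F x * (deg F x : ℝ) ^ e

/-- (chunk C4a) -/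
theorem mem_LabS {S : Finset ℕ} {F : Finset (ℕ × ℕ × ℕ)} : F ∈ LabS S ↔ IsTri F ∧ vs F = S := by
  classical
  unfold LabS
  rw [mem_filter, mem_powerset]
  constructor
  · exact fun h => h.2
  · rintro ⟨hF, rfl⟩
    refine ⟨?_, hF, rfl⟩
    rintro ⟨a, b, c⟩ ht
    rw [mem_product, mem_product]
    exact ⟨hF.toIsSurf.vs1 ht, hF.toIsSurf.vs2 ht, hF.toIsSurf.vs3 ht⟩

theorem deg_prel (ρ : Equiv.Perm ℕ) (F : Finset (ℕ × ℕ × ℕ)) (x : ℕ) :
    deg (prel ρ F) (ρ x) = deg F x := by
  unfold deg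
  rw [C0a_filter, card_image_of_injective _ (C0a_map3_inj ρ)]

/-- Invariance under relabellings which fix the marked vertices (`pot_prel`, `thr_prel`; `thr F h x` depends only on
the values of `h` on `vs F`; `vs_relab`). -/
theorem QQ_prel (a : ℝ) (e D : ℕ) {F : Finset (ℕ × ℕ × ℕ)} (hF : IsSurf F)
    (h012 : {0, 1, 2} ⊆ vs F) (ρ : Equiv.Perm ℕ) (h0 : ρ 0 = 0) (h1 : ρ 1 = 1) (h2 : ρ 2 = 2) :
    QQ a e D (prel ρ F) = QQ a e D F := by
  have m0 : (0 : ℕ) ∈ vs F := h012 (by simp)
  have m1 : (1 : ℕ) ∈ vs F := h012 (by simp)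
  have hp : ∀ x, pot (prel ρ F) 0 1 (ρ x) = pot F 0 1 x := by
    intro x
    have := pot_prel hF m0 m1 (by norm_num) ρ x
    rwa [h0, h1] at this
  have hpf : pot (prel ρ F) 0 1 = fun y => pot F 0 1 (ρ.symm y) := by
    funext y
    have := hp (ρ.symm y)
    rwa [Equiv.apply_symm_apply] at this
  have ht : ∀ x, thr (prel ρ F) (pot (prel ρ F) 0 1) (ρ x) = thr F (pot F 0 1) x := by
    intro x
    rw [hpf]
    exact thr_prel ρ _ x
  have hd : ∀ x, dep (prel ρ F) (ρ x) = dep F x := by
    intro x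
    unfold dep
    rw [hp x]
    congr 1
    have := hp 2
    rwa [h2] at this
  have hbig : big (prel ρ F) D = (big F D).image ρ := by
    unfold big
    have hvs : vs (prel ρ F) = (vs F).image ρ := vs_relab _
    have h3 : (vs (prel ρ F) \ {0, 1, 2} : Finset ℕ) = (vs F \ {0, 1, 2}).image ρ := by
      rw [hvs]
      ext y
      simp only [mem_sdiff, mem_image, mem_insert, mem_singleton]
      constructor
      · rintro ⟨⟨x, hx, rfl⟩, hn⟩
        refine ⟨x, ⟨hx, ?_⟩, rfl⟩
        rintro (rfl | rfl | rfl)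
        · exact hn (Or.inl h0)
        · exact hn (Or.inr (Or.inl h1))
        · exact hn (Or.inr (Or.inr h2))
      · rintro ⟨x, ⟨hx, hn⟩, rfl⟩
        refine ⟨⟨x, hx, rfl⟩, ?_⟩
        rintro (h | h | h)
        · exact hn (Or.inl (ρ.injective (h.trans h0.symm)))
        · exact hn (Or.inr (Or.inl (ρ.injective (h.trans h1.symm))))
        · exact hn (Or.inr (Or.inr (ρ.injective (h.trans h2.symm))))
    rw [h3, filter_image]
    congr 1
    refine filter_congr fun x _ => ?_
    rw [deg_prel]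
  unfold QQ
  rw [hbig, sum_image fun _ _ _ _ h => ρ.injective h]
  refine sum_congr rfl fun x _ => ?_
  unfold Ps
  rw [hd, ht, deg_prel]

theorem C4a_prel_prel (ρ : Equiv.Perm ℕ) (hρ : ∀ x, ρ (ρ x) = x) (F : Finset (ℕ × ℕ × ℕ)) :
    prel ρ (prel ρ F) = F := by
  unfold prel relab
  rw [image_image]
  have : (map3 (fun x => ρ x) ∘ map3 (fun x => ρ x) : ℕ × ℕ × ℕ → ℕ × ℕ × ℕ) = id := by
    funext ⟨x, y, z⟩
    simp only [map3, Function.comp_apply, hρ, id_eq]
  rw [this, image_id]

/-- The relabelling by `Equiv.swap w n` maps `Lab n` bijectively onto `LabS (range (n+1) \ {w})`. -/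
theorem sum_LabS (a : ℝ) (e D : ℕ) {n w : ℕ} (hn : 3 ≤ n) (hw : w ∈ Icc 3 n) :
    ∑ F ∈ LabS ((range (n + 1)).erase w), QQ a e D F = ∑ F ∈ Lab n, QQ a e D F := by
  obtain ⟨hw3, hwn⟩ := mem_Icc.1 hw
  have hinv : ∀ x, Equiv.swap w n (Equiv.swap w n x) = x := fun x => Equiv.swap_apply_self w n x
  have hfix : ∀ x, x < 3 → Equiv.swap w n x = x := fun x hx =>
    Equiv.swap_apply_of_ne_of_ne (by omega) (by omega)
  have him : (range n).image (Equiv.swap w n) = (range (n + 1)).erase w := by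
    ext y
    simp only [mem_image, mem_range, mem_erase]
    constructor
    · rintro ⟨x, hx, rfl⟩
      by_cases hxw : x = w
      · subst hxw
        rw [Equiv.swap_apply_left]
        omega
      · rw [Equiv.swap_apply_of_ne_of_ne hxw (by omega)]
        omega
    · rintro ⟨hy, hyn⟩
      refine ⟨Equiv.swap w n y, ?_, hinv y⟩
      by_cases hyn' : y = n
      · subst hyn'
        rw [Equiv.swap_apply_right]
        omega
      · rw [Equiv.swap_apply_of_ne_of_ne hy hyn']
        omega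
  have him' : ((range (n + 1)).erase w).image (Equiv.swap w n) = range n := by
    rw [← him, image_image]
    have : (⇑(Equiv.swap w n) ∘ ⇑(Equiv.swap w n)) = id := by
      funext x
      exact hinv x
    rw [this, image_id]
  have hinj : Function.Injective (fun x => Equiv.swap w n x) := (Equiv.swap w n).injective
  symm
  unfold Lab
  refine sum_bij' (fun F _ => prel (Equiv.swap w n) F) (fun F _ => prel (Equiv.swap w n) F)
    ?_ ?_ ?_ ?_ ?_
  · intro F hF
    rw [mem_LabS] at hF ⊢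
    refine ⟨hF.1.relab hinj.injOn, ?_⟩
    unfold prel
    rw [vs_relab, hF.2]
    exact him
  · intro F hF
    rw [mem_LabS] at hF ⊢
    refine ⟨hF.1.relab hinj.injOn, ?_⟩
    unfold prel
    rw [vs_relab, hF.2]
    exact him'
  · intro F _
    exact C4a_prel_prel _ hinv F
  · intro F _
    exact C4a_prel_prel _ hinv F
  · intro F hF
    rw [mem_LabS] at hF
    refine (QQ_prel a e D hF.1.toIsSurf ?_ _ (hfix 0 (by norm_num)) (hfix 1 (by norm_num))
      (hfix 2 (by norm_num))).symm
    rw [hF.2]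
    intro x hx
    simp only [mem_insert, mem_singleton] at hx
    rw [mem_range]
    omega

end H19S
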