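import Pool.Agent.Lib.H19S.C4a

/-!
# H19S, chunk C4b: splitting one vertex
-/

namespace H19S

set_option linter.unusedSectionVars false

open Finset

/-- The splitting of `x` with new vertex `w` for the positions `e = (a, b)` in the link of `x`. -/
noncomputable def spl (F : Finset (ℕ × ℕ × ℕ)) (x w : ℕ) (e : ℕ × ℕ) : Finset (ℕ × ℕ × ℕ) :=
  split F x w ((Ico e.2 (e.1 + deg F x)).image (lk F x)) (lk F x e.1) (lk F x e.2)

/-- The sequence of differences of the potential around `x`. -/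
noncomputable def ss (F : Finset (ℕ × ℕ × ℕ)) (x i : ℕ) : ℝ := pot F 0 1 (lk F x i) - pot F 0 1 x

/-- The good pairs at `x`. -/
noncomputable def gp (F : Finset (ℕ × ℕ × ℕ)) (x : ℕ) : Finset (ℕ × ℕ) :=
  goodP (ss F x) (thr F (pot F 0 1) x) (deg F x)

theorem mem_gp {F : Finset (ℕ × ℕ × ℕ)} {x : ℕ} {e : ℕ × ℕ} : e ∈ gp F x ↔
    (e.1 < deg F x ∧ e.2 < deg F x) ∧ e.1 < e.2 ∧ GoodP (ss F x) (thr F (pot F 0 1) x) e.1 e.2 := by
  unfold gp goodP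
  simp only [mem_filter, mem_product, mem_range]

theorem C4b_sum {F : Finset (ℕ × ℕ × ℕ)} (hF : IsSurf F) {x : ℕ} (hx : x ∈ vs F) (f : ℕ → ℝ) :
    ∑ i ∈ range (deg F x), f (lk F x i) = ∑ s ∈ nbr F x, f s := by
  have h := (lk_isLk hF hx).sum_eq hF hx 0 f
  rw [zero_add, ← range_eq_Ico] at h
  exact h.symm

theorem C4b_pot {F : Finset (ℕ × ℕ × ℕ)} (hF : IsSurf F) (h012 : {0, 1, 2} ⊆ vs F) :
    IsPot F 0 1 (pot F 0 1) :=
  pot_isPot hF (h012 (by simp)) (h012 (by simp)) (by norm_num)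

/-- (chunk C4b) Number of good pairs: `goodP_card`, with `∑ ss = lap F h x = 0` (`lap_nbr`, `IsLk.sum_eq` with
`a = 0`) and `∑ |ss| = 2 thr F h x` (`thr_nbr`). -/
theorem gp_card {F : Finset (ℕ × ℕ × ℕ)} (hF : IsSurf F) (h012 : {0, 1, 2} ⊆ vs F) {x : ℕ}
    (hx : x ∈ big F 100) : (deg F x : ℝ) ^ 2 / 24 ≤ ((gp F x).card : ℝ) := by
  unfold big at hx
  obtain ⟨h1, h100⟩ := mem_filter.1 hx
  obtain ⟨hxv, hx3⟩ := mem_sdiff.1 h1
  simp only [mem_insert, mem_singleton, not_or] at hx3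
  have hp := C4b_pot hF h012
  refine goodP_card _ _ _ h100 ?_ ?_
  · have h2 := C4b_sum hF hxv (fun s => pot F 0 1 s - pot F 0 1 x)
    rw [← lap_nbr hF, hp.harm x hxv hx3.1 hx3.2.1] at h2
    exact h2
  · have h2 := C4b_sum hF hxv (fun s => |pot F 0 1 s - pot F 0 1 x|)
    rw [thr_nbr hF, ← h2]
    unfold ss
    ring

/-- `cc` in terms of the numbering: `insert q (nbr F x \ P) = {y a, ..., y b}`. -/
theorem cc_eq {F : Finset (ℕ × ℕ × ℕ)} (hF : IsSurf F) {x : ℕ} (hx : x ∈ vs F) {a b : ℕ}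
    (hab : a < b) (hb : b < deg F x) (h : ℕ → ℝ) :
    cc F x (lk F x b) ((Ico b (a + deg F x)).image (lk F x)) h =
      ∑ i ∈ Icc a b, (h (lk F x i) - h x) := by
  obtain ⟨hn, hinj⟩ := (lk_isLk hF hx).nbr_eq hF hx a
  have hs : insert (lk F x b) (nbr F x \ (Ico b (a + deg F x)).image (lk F x)) =
      (Icc a b).image (lk F x) := by
    rw [hn]
    ext s
    simp only [mem_insert, mem_sdiff, mem_image, mem_Ico, mem_Icc]
    constructor
    · rintro (rfl | ⟨⟨i, ⟨hi1, hi2⟩, rfl⟩, h2⟩)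
      · exact ⟨b, ⟨hab.le, le_rfl⟩, rfl⟩
      · refine ⟨i, ⟨hi1, ?_⟩, rfl⟩
        by_contra hc
        exact h2 ⟨i, ⟨by omega, hi2⟩, rfl⟩
    · rintro ⟨i, ⟨hi1, hi2⟩, rfl⟩
      rcases Nat.eq_or_lt_of_le hi2 with h3 | h3
      · left
        rw [h3]
      · right
        refine ⟨⟨i, ⟨hi1, by omega⟩, rfl⟩, ?_⟩
        rintro ⟨j, ⟨hj1, hj2⟩, hj3⟩
        have := hinj (mem_coe.2 (mem_Ico.2 ⟨by omega, hj2⟩))
          (mem_coe.2 (mem_Ico.2 ⟨hi1, by omega⟩)) hj3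
        omega
  unfold cc
  rw [hs, sum_image]
  intro i hi j hj hij
  have hi := mem_Icc.1 (mem_coe.1 hi)
  have hj := mem_Icc.1 (mem_coe.1 hj)
  exact hinj (mem_coe.2 (mem_Ico.2 ⟨hi.1, by omega⟩)) (mem_coe.2 (mem_Ico.2 ⟨hj.1, by omega⟩)) hij

theorem C4b_arc {F : Finset (ℕ × ℕ × ℕ)} (hF : IsSurf F) {x : ℕ} (hx : x ∈ vs F) {e : ℕ × ℕ}
    (he : e ∈ gp F x) :
    IsArc F x ((Ico e.2 (e.1 + deg F x)).image (lk F x)) (lk F x e.1) (lk F x e.2) := by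
  obtain ⟨⟨-, h2⟩, h3, -⟩ := mem_gp.1 he
  exact (lk_isLk hF hx).isArc hF hx h3 h2

/-- The effect of a good splitting: by `thr_split` and `cc_eq`,
`i' x + i' w ≥ i x (1 - 1/12 - 1/12 - 1/4) ≥ i x / 2`, so `i x ^ 2 ≤ 8 (i' x ^ 2 + i' w ^ 2)`; by `dep_split` (with `m = 2`,
`n = x` and `n = w`) the depths of `x` and `w` differ from the old depth of `x` by at most
`5/12 i x ≤ 1` (`IsPot.thr_le`), use `psi_near`. -/
theorem spl_ineq (a : ℝ) {F : Finset (ℕ × ℕ × ℕ)} (hF : IsSurf F) (h012 : {0, 1, 2} ⊆ vs F)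
    {x w : ℕ} (hx : x ∈ vs F) (hx3 : x ∉ ({0, 1, 2} : Finset ℕ)) (hw : w ∉ vs F) {e : ℕ × ℕ}
    (he : e ∈ gp F x) :
    Ps a F x ≤ 8 * Real.exp 1 * (Ps a (spl F x w e) x + Ps a (spl F x w e) w) := by
  have h0 : 0 ∈ vs F := h012 (by simp)
  have h1 : 1 ∈ vs F := h012 (by simp)
  have h2 : 2 ∈ vs F := h012 (by simp)
  simp only [mem_insert, mem_singleton, not_or] at hx3
  have hA := C4b_arc hF hx he
  obtain ⟨⟨-, hb⟩, hab, g1, g2, g3⟩ := mem_gp.1 he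
  have hp := C4b_pot hF h012
  have ht1 := hp.thr_le hF h0 h1 (by norm_num) hx
  have ht0 : 0 ≤ thr F (pot F 0 1) x := thr_nonneg x
  have hcc := cc_eq hF hx hab hb (pot F 0 1)
  have k1 := thr_split hF hA hw h0 h1 (by norm_num) hx3.1 hx3.2.1
  have hwx : x ≠ w := fun h => hw (h ▸ hx)
  have hw2 : 2 ≠ w := fun h => hw (h ▸ h2)
  have hvs := vs_split hF hA hw
  have hm2 : 2 ∈ vs (split F x w ((Ico e.2 (e.1 + deg F x)).image (lk F x)) (lk F x e.1)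
      (lk F x e.2)) := by
    rw [hvs]
    exact mem_insert_of_mem h2
  have hmx : x ∈ vs (split F x w ((Ico e.2 (e.1 + deg F x)).image (lk F x)) (lk F x e.1)
      (lk F x e.2)) := by
    rw [hvs]
    exact mem_insert_of_mem hx
  have hmw : w ∈ vs (split F x w ((Ico e.2 (e.1 + deg F x)).image (lk F x)) (lk F x e.1)
      (lk F x e.2)) := by
    rw [hvs]
    exact mem_insert_self _ _
  have k2 := dep_split hF hA hw h0 h1 (by norm_num) hx3.1 hx3.2.1 hm2 hmx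
  have k3 := dep_split hF hA hw h0 h1 (by norm_num) hx3.1 hx3.2.1 hm2 hmw
  have l2 : lift x w (pot F 0 1) 2 = pot F 0 1 2 := if_neg hw2
  have lx : lift x w (pot F 0 1) x = pot F 0 1 x := if_neg hwx
  have lw : lift x w (pot F 0 1) w = pot F 0 1 x := if_pos rfl
  rw [hcc] at k1 k2 k3
  rw [l2, lx] at k2
  rw [l2, lw] at k3
  change _ ≤ thr (spl F x w e) (pot (spl F x w e) 0 1) x +
    thr (spl F x w e) (pot (spl F x w e) 0 1) w at k1
  change |dep (spl F x w e) x - dep F x| ≤ |ss F x e.1| + |ss F x e.2| +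
    |∑ i ∈ Icc e.1 e.2, ss F x i| at k2
  change |dep (spl F x w e) w - dep F x| ≤ |ss F x e.1| + |ss F x e.2| +
    |∑ i ∈ Icc e.1 e.2, ss F x i| at k3
  change thr F (pot F 0 1) x - |ss F x e.1| - |ss F x e.2| - |∑ i ∈ Icc e.1 e.2, ss F x i| ≤ _ at k1
  have t1 : 0 ≤ thr (spl F x w e) (pot (spl F x w e) 0 1) x := thr_nonneg x
  have t2 : 0 ≤ thr (spl F x w e) (pot (spl F x w e) 0 1) w := thr_nonneg w
  have p1 : psi a (dep F x) ≤ Real.exp 1 * psi a (dep (spl F x w e) x) := by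
    apply psi_near
    rw [abs_sub_comm]
    linarith
  have p2 : psi a (dep F x) ≤ Real.exp 1 * psi a (dep (spl F x w e) w) := by
    apply psi_near
    rw [abs_sub_comm]
    linarith
  have p0 := psi_pos a (dep F x)
  unfold Ps
  set Φ := thr F (pot F 0 1) x
  set u := thr (spl F x w e) (pot (spl F x w e) 0 1) x
  set v := thr (spl F x w e) (pot (spl F x w e) 0 1) w
  have k4 : Φ / 2 ≤ u + v := by linarith
  have k5 : Φ ^ 2 ≤ 8 * (u ^ 2 + v ^ 2) := by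
    have h3 : Φ ^ 2 ≤ (2 * (u + v)) ^ 2 := pow_le_pow_left₀ ht0 (by linarith) 2
    nlinarith [sq_nonneg (u - v)]
  calc psi a (dep F x) * Φ ^ 2 ≤ psi a (dep F x) * (8 * (u ^ 2 + v ^ 2)) :=
        mul_le_mul_of_nonneg_left k5 p0.le
    _ = 8 * (psi a (dep F x) * u ^ 2 + psi a (dep F x) * v ^ 2) := by ring
    _ ≤ 8 * (Real.exp 1 * psi a (dep (spl F x w e) x) * u ^ 2 +
          Real.exp 1 * psi a (dep (spl F x w e) w) * v ^ 2) := by
        have q1 := mul_le_mul_of_nonneg_right p1 (sq_nonneg u)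
        have q2 := mul_le_mul_of_nonneg_right p2 (sq_nonneg v)
        linarith
    _ = _ := by ring

/-- The result is a triangulation, and `x` is a neighbour of `w`. -/
theorem spl_mem {n w : ℕ} (hw : w ∈ Icc 3 n) {F : Finset (ℕ × ℕ × ℕ)}
    (hF : F ∈ LabS ((range (n + 1)).erase w)) {x : ℕ} (hx : x ∈ vs F) {e : ℕ × ℕ}
    (he : e ∈ gp F x) : spl F x w e ∈ Lab (n + 1) ∧ x ∈ nbr (spl F x w e) w := by
  obtain ⟨hT, hv⟩ := mem_LabS.1 hF
  have hwF : w ∉ vs F := by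
    rw [hv]
    exact notMem_erase _ _
  have hA := C4b_arc hT.toIsSurf hx he
  refine ⟨mem_LabS.2 ⟨hT.split hA hwF, ?_⟩, ?_⟩
  · have := vs_split hT.toIsSurf hA hwF
    unfold spl
    rw [this, hv, insert_erase]
    rw [mem_range]
    have := (mem_Icc.1 hw).2
    omega
  · unfold spl
    rw [nbr_split_w hT.toIsSurf hA hwF]
    exact mem_insert_self _ _

/-- Injectivity: `split_inj`, then the positions are determined since the numbering `lk F x` is injective on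
`range (deg F x)`. -/
theorem spl_inj {n w : ℕ} (hw : w ∈ Icc 3 n) {F₁ F₂ : Finset (ℕ × ℕ × ℕ)}
    (hF₁ : F₁ ∈ LabS ((range (n + 1)).erase w)) (hF₂ : F₂ ∈ LabS ((range (n + 1)).erase w)) {x : ℕ}
    (hx₁ : x ∈ vs F₁) (hx₂ : x ∈ vs F₂) {e₁ e₂ : ℕ × ℕ} (he₁ : e₁ ∈ gp F₁ x) (he₂ : e₂ ∈ gp F₂ x)
    (h : spl F₁ x w e₁ = spl F₂ x w e₂) : F₁ = F₂ ∧ e₁ = e₂ := by
  obtain ⟨hT₁, hv₁⟩ := mem_LabS.1 hF₁
  obtain ⟨hT₂, hv₂⟩ := mem_LabS.1 hF₂
  have hw₁ : w ∉ vs F₁ := by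
    rw [hv₁]
    exact notMem_erase _ _
  have hw₂ : w ∉ vs F₂ := by
    rw [hv₂]
    exact notMem_erase _ _
  obtain ⟨h1, h2, h3⟩ := split_inj hT₁.toIsSurf hT₂.toIsSurf (C4b_arc hT₁.toIsSurf hx₁ he₁)
    (C4b_arc hT₂.toIsSurf hx₂ he₂) hw₁ hw₂ h
  subst h1
  obtain ⟨-, hinj⟩ := (lk_isLk hT₁.toIsSurf hx₁).nbr_eq hT₁.toIsSurf hx₁ 0
  obtain ⟨⟨a1, a2⟩, -, -⟩ := mem_gp.1 he₁
  obtain ⟨⟨b1, b2⟩, -, -⟩ := mem_gp.1 he₂
  refine ⟨rfl, Prod.ext ?_ ?_⟩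
  · exact hinj (mem_coe.2 (mem_Ico.2 ⟨Nat.zero_le _, by omega⟩))
      (mem_coe.2 (mem_Ico.2 ⟨Nat.zero_le _, by omega⟩)) h2
  · exact hinj (mem_coe.2 (mem_Ico.2 ⟨Nat.zero_le _, by omega⟩))
      (mem_coe.2 (mem_Ico.2 ⟨Nat.zero_le _, by omega⟩)) h3

end H19S
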