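import Pool.Agent.Lib.H19S.C4b

/-!
# H19S, chunk C4c: counting all splittings
-/

namespace H19S

set_option linter.unusedSectionVars false

open Finset

/-- the index set of all splittings -/
noncomputable def C4c_T (n w : ℕ) : Finset ((_ : Finset (ℕ × ℕ × ℕ)) × (_ : ℕ) × (ℕ × ℕ)) :=
  (LabS ((range (n + 1)).erase w)).sigma fun F => (big F 100).sigma fun x => gp F x

theorem C4c_012 {n w : ℕ} (hn : 4 ≤ n) (hw : w ∈ Icc 3 n) {F : Finset (ℕ × ℕ × ℕ)}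
    (hF : F ∈ LabS ((range (n + 1)).erase w)) : {0, 1, 2} ⊆ vs F ∧ w ∉ vs F ∧ IsTri F := by
  obtain ⟨hT, hv⟩ := mem_LabS.1 hF
  have h3 := (mem_Icc.1 hw).1
  refine ⟨?_, ?_, hT⟩
  · intro y hy
    rw [hv, mem_erase, mem_range]
    simp only [mem_insert, mem_singleton] at hy
    omega
  · rw [hv]
    exact notMem_erase _ _

theorem C4c_big {F : Finset (ℕ × ℕ × ℕ)} {x D : ℕ} (hx : x ∈ big F D) :
    x ∈ vs F ∧ x ∉ ({0, 1, 2} : Finset ℕ) ∧ D ≤ deg F x := by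
  unfold big at hx
  obtain ⟨h1, h2⟩ := mem_filter.1 hx
  obtain ⟨h3, h4⟩ := mem_sdiff.1 h1
  exact ⟨h3, h4, h2⟩

/-- (chunk C4c) For a given label `w` of the new vertex.  `QQ a 2 100 F / 24 ≤ ∑_{x ∈ big F 100} ∑_{e ∈ gp F x} Ps a F x`
(`gp_card`), each term is bounded by `spl_ineq`, and `(F, x, e) ↦ (spl F x w e, x)` is injective with values in the
pairs `(F', x)`, `F' ∈ Lab (n+1)`, `x ∈ nbr F' w \ {0,1,2}` (`spl_mem`, `spl_inj`): sum over a sigma type,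
`Finset.sum_image`-type argument with nonnegative terms. -/
theorem inj_ineq (a : ℝ) {n w : ℕ} (hn : 4 ≤ n) (hw : w ∈ Icc 3 n) :
    ∑ F ∈ LabS ((range (n + 1)).erase w), QQ a 2 100 F / 24 ≤
      8 * Real.exp 1 * ∑ F' ∈ Lab (n + 1), ∑ x ∈ nbr F' w \ {0, 1, 2}, (Ps a F' x + Ps a F' w) := by
  have h1 : ∑ F ∈ LabS ((range (n + 1)).erase w), QQ a 2 100 F / 24 ≤
      ∑ F ∈ LabS ((range (n + 1)).erase w), ∑ x ∈ big F 100, ∑ e ∈ gp F x,
        8 * Real.exp 1 * (Ps a (spl F x w e) x + Ps a (spl F x w e) w) := by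
    refine sum_le_sum fun F hF => ?_
    obtain ⟨h012, hwF, hT⟩ := C4c_012 hn hw hF
    unfold QQ
    rw [sum_div]
    refine sum_le_sum fun x hx => ?_
    obtain ⟨hxv, hx3, -⟩ := C4c_big hx
    have h2 := gp_card hT.toIsSurf h012 hx
    calc Ps a F x * (deg F x : ℝ) ^ 2 / 24 = Ps a F x * ((deg F x : ℝ) ^ 2 / 24) := by ring
      _ ≤ Ps a F x * ((gp F x).card : ℝ) := mul_le_mul_of_nonneg_left h2 (Ps_nonneg _ _ _)
      _ = ∑ e ∈ gp F x, Ps a F x := by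
          rw [sum_const, nsmul_eq_mul]
          ring
      _ ≤ _ := sum_le_sum fun e he => spl_ineq a hT.toIsSurf h012 hxv hx3 hwF he
  refine h1.trans ?_
  have h2 : ∑ F ∈ LabS ((range (n + 1)).erase w), ∑ x ∈ big F 100, ∑ e ∈ gp F x,
        8 * Real.exp 1 * (Ps a (spl F x w e) x + Ps a (spl F x w e) w) =
      ∑ T ∈ C4c_T n w, 8 * Real.exp 1 *
        (Ps a (spl T.1 T.2.1 w T.2.2) T.2.1 + Ps a (spl T.1 T.2.1 w T.2.2) w) := by
    unfold C4c_T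
    rw [sum_sigma]
    refine sum_congr rfl fun F _ => ?_
    rw [sum_sigma]
  rw [h2, ← mul_sum]
  refine mul_le_mul_of_nonneg_left ?_ (by positivity)
  have h3 : ∑ F' ∈ Lab (n + 1), ∑ x ∈ nbr F' w \ {0, 1, 2}, (Ps a F' x + Ps a F' w) =
      ∑ z ∈ (Lab (n + 1)).sigma (fun F' => nbr F' w \ {0, 1, 2}), (Ps a z.1 z.2 + Ps a z.1 w) := by
    rw [sum_sigma]
  rw [h3]
  have hinj : Set.InjOn (fun T : (_ : Finset (ℕ × ℕ × ℕ)) × (_ : ℕ) × (ℕ × ℕ) =>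
      (⟨spl T.1 T.2.1 w T.2.2, T.2.1⟩ : (_ : Finset (ℕ × ℕ × ℕ)) × ℕ)) (C4c_T n w) := by
    rintro ⟨F₁, x₁, e₁⟩ h₁ ⟨F₂, x₂, e₂⟩ h₂ h
    simp only [Sigma.mk.injEq, heq_eq_eq] at h
    obtain ⟨h4, h5⟩ := h
    subst h5
    have h₁ := mem_sigma.1 (mem_coe.1 h₁)
    have h₂ := mem_sigma.1 (mem_coe.1 h₂)
    have g₁ := mem_sigma.1 h₁.2
    have g₂ := mem_sigma.1 h₂.2
    obtain ⟨rfl, rfl⟩ := spl_inj hw h₁.1 h₂.1 (C4c_big g₁.1).1 (C4c_big g₂.1).1 g₁.2 g₂.2 h4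
    rfl
  rw [← sum_image (f := fun z : (_ : Finset (ℕ × ℕ × ℕ)) × ℕ => Ps a z.1 z.2 + Ps a z.1 w) hinj]
  refine sum_le_sum_of_subset_of_nonneg ?_ fun z _ _ =>
    add_nonneg (Ps_nonneg _ _ _) (Ps_nonneg _ _ _)
  intro z hz
  obtain ⟨⟨F, x, e⟩, hT, rfl⟩ := mem_image.1 hz
  have h₁ := mem_sigma.1 hT
  have g₁ := mem_sigma.1 h₁.2
  obtain ⟨hxv, hx3, -⟩ := C4c_big g₁.1
  obtain ⟨k1, k2⟩ := spl_mem hw h₁.1 hxv g₁.2
  exact mem_sigma.2 ⟨k1, mem_sdiff.2 ⟨k2, hx3⟩⟩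

/-- Double counting of adjacent pairs of unmarked vertices: every vertex `y` occurs at most `deg F y` times as `x`
(for a neighbour `w`) and at most `deg F y` times as `w` (`IsSurf.adj_symm`, `IsSurf.deg_eq`). -/
theorem sum_pairs (a : ℝ) {n : ℕ} {F : Finset (ℕ × ℕ × ℕ)} (hF : F ∈ Lab (n + 1)) (hn : 3 ≤ n) :
    ∑ w ∈ Icc 3 n, ∑ x ∈ nbr F w \ {0, 1, 2}, (Ps a F x + Ps a F w) ≤ 2 * QQ a 1 0 F := by
  obtain ⟨hT, hv⟩ := mem_LabS.1 hF
  have hV : big F 0 = Icc 3 n := by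
    unfold big
    ext y
    rw [mem_filter, mem_sdiff, hv, mem_range, mem_Icc]
    simp only [mem_insert, mem_singleton]
    omega
  have hQ : QQ a 1 0 F = ∑ x ∈ Icc 3 n, Ps a F x * (deg F x : ℝ) := by
    unfold QQ
    rw [hV]
    simp only [pow_one]
  have h1 : ∑ w ∈ Icc 3 n, ∑ x ∈ nbr F w \ {0, 1, 2}, Ps a F w ≤ QQ a 1 0 F := by
    rw [hQ]
    refine sum_le_sum fun w _ => ?_
    rw [sum_const, nsmul_eq_mul, mul_comm]
    refine mul_le_mul_of_nonneg_left ?_ (Ps_nonneg _ _ _)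
    rw [hT.toIsSurf.deg_eq]
    exact_mod_cast card_le_card sdiff_subset
  have h2 : ∑ w ∈ Icc 3 n, ∑ x ∈ nbr F w \ {0, 1, 2}, Ps a F x ≤ QQ a 1 0 F := by
    have h3 : ∑ w ∈ Icc 3 n, ∑ x ∈ nbr F w \ {0, 1, 2}, Ps a F x =
        ∑ x ∈ Icc 3 n, ∑ w ∈ nbr F x \ {0, 1, 2}, Ps a F x := by
      refine sum_comm' fun w x => ?_
      have hb : ∀ y, Adj F y x ∨ Adj F x y → y ∈ range (n + 1) := by
        intro y hy
        rw [← hv]
        rcases hy with h | h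
        · exact h.mem_left
        · exact hT.toIsSurf.adj_mem_right h
      constructor
      · rintro ⟨hw, hx⟩
        obtain ⟨hx1, hx2⟩ := mem_sdiff.1 hx
        have hadj := mem_nbr.1 hx1
        have hxr : x ∈ range (n + 1) := by
          rw [← hv]
          exact hT.toIsSurf.adj_mem_right hadj
        rw [mem_range] at hxr
        have hw3 := mem_Icc.1 hw
        simp only [mem_insert, mem_singleton] at hx2
        refine ⟨mem_sdiff.2 ⟨mem_nbr.2 (hT.toIsSurf.adj_symm hadj), ?_⟩, mem_Icc.2 ⟨?_, ?_⟩⟩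
        · simp only [mem_insert, mem_singleton]
          omega
        · omega
        · omega
      · rintro ⟨hw, hx⟩
        obtain ⟨hw1, hw2⟩ := mem_sdiff.1 hw
        have hadj := mem_nbr.1 hw1
        have hwr : w ∈ range (n + 1) := by
          rw [← hv]
          exact hT.toIsSurf.adj_mem_right hadj
        rw [mem_range] at hwr
        have hx3 := mem_Icc.1 hx
        simp only [mem_insert, mem_singleton] at hw2
        refine ⟨mem_Icc.2 ⟨?_, ?_⟩, mem_sdiff.2 ⟨mem_nbr.2 (hT.toIsSurf.adj_symm hadj), ?_⟩⟩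
        · omega
        · omega
        · simp only [mem_insert, mem_singleton]
          omega
    rw [h3, hQ]
    refine sum_le_sum fun x _ => ?_
    rw [sum_const, nsmul_eq_mul, mul_comm]
    refine mul_le_mul_of_nonneg_left ?_ (Ps_nonneg _ _ _)
    rw [hT.toIsSurf.deg_eq]
    exact_mod_cast card_le_card sdiff_subset
  have h4 : ∑ w ∈ Icc 3 n, ∑ x ∈ nbr F w \ {0, 1, 2}, (Ps a F x + Ps a F w) =
      ∑ w ∈ Icc 3 n, ∑ x ∈ nbr F w \ {0, 1, 2}, Ps a F x +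
      ∑ w ∈ Icc 3 n, ∑ x ∈ nbr F w \ {0, 1, 2}, Ps a F w := by
    rw [← sum_add_distrib]
    exact sum_congr rfl fun w _ => sum_add_distrib
  rw [h4]
  linarith

/-- Sum over the `n - 2` labels `w ∈ Icc 3 n` (`sum_LabS`, `inj_ineq`, `sum_pairs`). -/
theorem split_ineq (a : ℝ) {n : ℕ} (hn : 4 ≤ n) :
    ((n : ℝ) - 2) * ∑ F ∈ Lab n, QQ a 2 100 F ≤
      384 * Real.exp 1 * ∑ F ∈ Lab (n + 1), QQ a 1 0 F := by
  have h1 : ∑ w ∈ Icc 3 n, ∑ F ∈ LabS ((range (n + 1)).erase w), QQ a 2 100 F / 24 =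
      ((n : ℝ) - 2) * (∑ F ∈ Lab n, QQ a 2 100 F) / 24 := by
    have h2 : ∀ w ∈ Icc 3 n, ∑ F ∈ LabS ((range (n + 1)).erase w), QQ a 2 100 F / 24 =
        (∑ F ∈ Lab n, QQ a 2 100 F) / 24 := by
      intro w hw
      rw [← sum_div, sum_LabS a 2 100 (by omega) hw]
    rw [sum_congr rfl h2, sum_const, Nat.card_Icc, nsmul_eq_mul]
    have h3 : ((n + 1 - 3 : ℕ) : ℝ) = (n : ℝ) - 2 := by
      rw [Nat.cast_sub (by omega)]
      push_cast
      ring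
    rw [h3]
    ring
  have h2 : ∑ w ∈ Icc 3 n, ∑ F ∈ LabS ((range (n + 1)).erase w), QQ a 2 100 F / 24 ≤
      ∑ w ∈ Icc 3 n, 8 * Real.exp 1 * ∑ F' ∈ Lab (n + 1),
        ∑ x ∈ nbr F' w \ {0, 1, 2}, (Ps a F' x + Ps a F' w) :=
    sum_le_sum fun w hw => inj_ineq a hn hw
  have h3 : ∑ w ∈ Icc 3 n, 8 * Real.exp 1 * ∑ F' ∈ Lab (n + 1),
        ∑ x ∈ nbr F' w \ {0, 1, 2}, (Ps a F' x + Ps a F' w) =
      8 * Real.exp 1 * ∑ F' ∈ Lab (n + 1), ∑ w ∈ Icc 3 n,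
        ∑ x ∈ nbr F' w \ {0, 1, 2}, (Ps a F' x + Ps a F' w) := by
    rw [← mul_sum, sum_comm]
  have h4 : ∑ F' ∈ Lab (n + 1), ∑ w ∈ Icc 3 n,
        ∑ x ∈ nbr F' w \ {0, 1, 2}, (Ps a F' x + Ps a F' w) ≤
      ∑ F' ∈ Lab (n + 1), 2 * QQ a 1 0 F' :=
    sum_le_sum fun F' hF' => sum_pairs a hF' (by omega)
  rw [← mul_sum] at h4
  have h5 := mul_le_mul_of_nonneg_left h4 (by positivity : 0 ≤ 8 * Real.exp 1)
  rw [h1, h3] at h2
  linarith

end H19S
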