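import Pool.Agent.Lib.H19S.C4a

/-!
# H19S, chunk C4d: vertices of low degree
-/

namespace H19S

set_option linter.unusedSectionVars false

open Finset

theorem C4d_exp (k : ℕ) {y : ℝ} (h : (k : ℝ) ≤ y) : Real.exp (-y) ≤ (1 / 2 : ℝ) ^ k := by
  have h1 : Real.exp (-y) ≤ Real.exp (-(k : ℝ)) := Real.exp_le_exp.2 (by linarith)
  refine h1.trans ?_
  have h2 : Real.exp (-(k : ℝ)) = Real.exp (-1) ^ k := by
    rw [← Real.exp_nat_mul]
    congr 1
    ring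
  rw [h2]
  refine pow_le_pow_left₀ (Real.exp_pos _).le ?_ k
  rw [Real.exp_neg, one_div]
  refine inv_anti₀ (by norm_num) ?_
  have := Real.add_one_le_exp (1 : ℝ)
  linarith

theorem C4d_geo (M : Finset ℤ) (f : ℤ → ℕ) (hf : Set.InjOn f M) (g : ℤ → ℝ)
    (hg : ∀ m ∈ M, (f m : ℝ) ≤ g m) : ∑ m ∈ M, Real.exp (-g m) ≤ 2 := by
  have h1 : ∑ m ∈ M, Real.exp (-g m) ≤ ∑ m ∈ M, (1 / 2 : ℝ) ^ f m :=
    sum_le_sum fun m hm => C4d_exp _ (hg m hm)
  have h2 : ∑ m ∈ M, (1 / 2 : ℝ) ^ f m = ∑ k ∈ M.image f, (1 / 2 : ℝ) ^ k :=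
    (sum_image (f := fun k => (1 / 2 : ℝ) ^ k) hf).symm
  have h3 : ∑ k ∈ M.image f, (1 / 2 : ℝ) ^ k ≤ ∑' k : ℕ, (1 / 2 : ℝ) ^ k :=
    summable_geometric_two.sum_le_tsum _ fun k _ => by positivity
  rw [tsum_geometric_two] at h3
  linarith

/-- (chunk C4d) Geometric series: the `m ∈ M` with `m ≤ c` have distinct values `⌊c⌋ - m ∈ ℕ`, and
`exp (-|m-c|) ≤ exp (-(⌊c⌋-m))`; similarly for `m > c`. -/
theorem sum_exp_le (M : Finset ℤ) (c : ℝ) : ∑ m ∈ M, Real.exp (-|(m : ℝ) - c|) ≤ 4 := by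
  rw [← sum_filter_add_sum_filter_not M (fun m => m ≤ ⌊c⌋)]
  have hc1 := Int.floor_le c
  have hc2 := Int.lt_floor_add_one c
  have h1 : ∑ m ∈ M.filter (fun m => m ≤ ⌊c⌋), Real.exp (-|(m : ℝ) - c|) ≤ 2 := by
    refine C4d_geo _ (fun m => (⌊c⌋ - m).toNat) ?_ (fun m => |(m : ℝ) - c|) ?_
    · intro i hi j hj hij
      have h2 := (mem_filter.1 (mem_coe.1 hi)).2
      have h3 := (mem_filter.1 (mem_coe.1 hj)).2
      simp only at hij
      omega
    · intro m hm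
      have h2 := (mem_filter.1 hm).2
      have h3 : (((⌊c⌋ - m).toNat : ℤ) : ℝ) = ((⌊c⌋ - m : ℤ) : ℝ) := by
        rw [Int.toNat_of_nonneg (by omega)]
      have h4 : (((⌊c⌋ - m).toNat : ℕ) : ℝ) = (⌊c⌋ : ℝ) - m := by
        rw [← Int.cast_natCast, h3]
        push_cast
        ring
      show (((⌊c⌋ - m).toNat : ℕ) : ℝ) ≤ |(m : ℝ) - c|
      rw [h4, abs_sub_comm]
      exact (by linarith : (⌊c⌋ : ℝ) - m ≤ c - m).trans (le_abs_self _)
  have h2 : ∑ m ∈ M.filter (fun m => ¬ m ≤ ⌊c⌋), Real.exp (-|(m : ℝ) - c|) ≤ 2 := by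
    refine C4d_geo _ (fun m => (m - ⌊c⌋ - 1).toNat) ?_ (fun m => |(m : ℝ) - c|) ?_
    · intro i hi j hj hij
      have h2 := (mem_filter.1 (mem_coe.1 hi)).2
      have h3 := (mem_filter.1 (mem_coe.1 hj)).2
      simp only at hij
      omega
    · intro m hm
      have h2 := (mem_filter.1 hm).2
      have h3 : (((m - ⌊c⌋ - 1).toNat : ℤ) : ℝ) = ((m - ⌊c⌋ - 1 : ℤ) : ℝ) := by
        rw [Int.toNat_of_nonneg (by omega)]
      have h4 : (((m - ⌊c⌋ - 1).toNat : ℕ) : ℝ) = (m : ℝ) - ⌊c⌋ - 1 := by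
        rw [← Int.cast_natCast, h3]
        push_cast
        ring
      show (((m - ⌊c⌋ - 1).toNat : ℕ) : ℝ) ≤ |(m : ℝ) - c|
      rw [h4]
      exact (by linarith : (m : ℝ) - ⌊c⌋ - 1 ≤ m - c).trans (le_abs_self _)
  linarith

theorem C4d_pot {F : Finset (ℕ × ℕ × ℕ)} (hF : IsSurf F) (h01 : {0, 1} ⊆ vs F) :
    IsPot F 0 1 (pot F 0 1) ∧ 0 ∈ vs F ∧ 1 ∈ vs F := by
  have h0 : 0 ∈ vs F := h01 (by simp)
  have h1 : 1 ∈ vs F := h01 (by simp)
  exact ⟨pot_isPot hF h0 h1 (by norm_num), h0, h1⟩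

/-- The vertices with `m ≤ h x < m + 1`: all edges at such vertices have their ends in `[m-1, m+2]`
(`IsPot.grad_le`), so their gradients are those of the clamped function; `IsPot.energy_clamp` with `a = m-1`,
`b = m+2`, and `2 * energy = ∑ t ∈ F`. -/
theorem sum_band (F : Finset (ℕ × ℕ × ℕ)) (hF : IsSurf F) (h01 : {0, 1} ⊆ vs F) (m : ℤ) :
    ∑ x ∈ (vs F).filter (fun x => (m : ℝ) ≤ pot F 0 1 x ∧ pot F 0 1 x < m + 1),
      ∑ t ∈ F.filter (fun t => t.1 = x), (pot F 0 1 t.2.1 - pot F 0 1 x) ^ 2 ≤ 6 := by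
  obtain ⟨hp, h0, h1⟩ := C4d_pot hF h01
  have hen := hp.energy_clamp hF h0 h1 (by norm_num) (a := (m : ℝ) - 1) (b := (m : ℝ) + 2)
    (by linarith)
  unfold energy at hen
  set h := pot F 0 1
  have hcl : ∀ y : ℝ, (m : ℝ) - 1 ≤ y → y ≤ m + 2 → max ((m : ℝ) - 1) (min ((m : ℝ) + 2) y) = y := by
    intro y h3 h4
    rw [min_eq_right h4, max_eq_right h3]
  have h2 : ∑ x ∈ (vs F).filter (fun x => (m : ℝ) ≤ h x ∧ h x < m + 1),
      ∑ t ∈ F.filter (fun t => t.1 = x), (h t.2.1 - h x) ^ 2 ≤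
      ∑ x ∈ vs F, ∑ t ∈ F.filter (fun t => t.1 = x),
        (max ((m : ℝ) - 1) (min ((m : ℝ) + 2) (h t.2.1)) -
          max ((m : ℝ) - 1) (min ((m : ℝ) + 2) (h t.1))) ^ 2 := by
    have h3 : ∑ x ∈ (vs F).filter (fun x => (m : ℝ) ≤ h x ∧ h x < m + 1),
        ∑ t ∈ F.filter (fun t => t.1 = x), (h t.2.1 - h x) ^ 2 =
        ∑ x ∈ (vs F).filter (fun x => (m : ℝ) ≤ h x ∧ h x < m + 1),
          ∑ t ∈ F.filter (fun t => t.1 = x),
        (max ((m : ℝ) - 1) (min ((m : ℝ) + 2) (h t.2.1)) -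
          max ((m : ℝ) - 1) (min ((m : ℝ) + 2) (h t.1))) ^ 2 := by
      refine sum_congr rfl fun x hx => sum_congr rfl fun t ht => ?_
      obtain ⟨hxv, h3, h4⟩ := mem_filter.1 hx
      obtain ⟨htF, htx⟩ := mem_filter.1 ht
      have hg : |h t.2.1 - h t.1| ≤ 1 :=
        hp.grad_le hF h0 h1 (by norm_num) (a := t.1) (b := t.2.1) ⟨t.2.2, htF⟩
      rw [htx] at hg ⊢
      obtain ⟨h5, h6⟩ := abs_le.1 hg
      rw [hcl (h t.2.1) (by linarith) (by linarith), hcl (h x) (by linarith) (by linarith)]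
    rw [h3]
    exact sum_le_sum_of_subset_of_nonneg (filter_subset _ _) fun x _ _ =>
      sum_nonneg fun t _ => sq_nonneg _
  rw [sum_vs (F := F) (fun t => (max ((m : ℝ) - 1) (min ((m : ℝ) + 2) (h t.2.1)) -
          max ((m : ℝ) - 1) (min ((m : ℝ) + 2) (h t.1))) ^ 2)] at h2
  linarith

/-- Partition the vertices by `⌊h x⌋`; in the band `m`: `psi a (h 2 - h x) ≤ e * exp (-|m - (h 2 - a)|)`. -/
theorem sum_psi_energy (a : ℝ) (F : Finset (ℕ × ℕ × ℕ)) (hF : IsSurf F) (h01 : {0, 1} ⊆ vs F) :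
    ∑ x ∈ vs F, psi a (dep F x) *
      ∑ t ∈ F.filter (fun t => t.1 = x), (pot F 0 1 t.2.1 - pot F 0 1 x) ^ 2 ≤ 24 * Real.exp 1 := by
  set h := pot F 0 1 with hdef
  set M : Finset ℤ := (vs F).image fun x => ⌊h x⌋
  rw [← sum_fiberwise_of_maps_to (s := vs F) (t := M) (g := fun x => ⌊h x⌋)
    (fun x hx => mem_image_of_mem _ hx)]
  have h1 : ∀ m ∈ M, ∑ x ∈ (vs F).filter (fun x => ⌊h x⌋ = m), psi a (dep F x) *
      ∑ t ∈ F.filter (fun t => t.1 = x), (h t.2.1 - h x) ^ 2 ≤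
      6 * Real.exp 1 * Real.exp (-|(m : ℝ) - (h 2 - a)|) := by
    intro m _
    have hs : (vs F).filter (fun x => ⌊h x⌋ = m) =
        (vs F).filter (fun x => (m : ℝ) ≤ h x ∧ h x < m + 1) := by
      refine filter_congr fun x _ => ?_
      exact Int.floor_eq_iff
    have h2 := sum_band F hF h01 m
    rw [← hdef, ← hs] at h2
    calc ∑ x ∈ (vs F).filter (fun x => ⌊h x⌋ = m), psi a (dep F x) *
          ∑ t ∈ F.filter (fun t => t.1 = x), (h t.2.1 - h x) ^ 2 ≤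
        ∑ x ∈ (vs F).filter (fun x => ⌊h x⌋ = m),
          Real.exp 1 * Real.exp (-|(m : ℝ) - (h 2 - a)|) *
          ∑ t ∈ F.filter (fun t => t.1 = x), (h t.2.1 - h x) ^ 2 := by
          refine sum_le_sum fun x hx => mul_le_mul_of_nonneg_right ?_
            (sum_nonneg fun t _ => sq_nonneg _)
          obtain ⟨h3, h4⟩ := Int.floor_eq_iff.1 (mem_filter.1 hx).2
          unfold psi dep
          rw [← Real.exp_add, ← hdef]
          refine Real.exp_le_exp.2 ?_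
          have h5 : |(m : ℝ) - (h 2 - a)| ≤ |h 2 - h x - a| + |(m : ℝ) - h x| := by
            have h6 : (m : ℝ) - (h 2 - a) = -(h 2 - h x - a) + (m - h x) := by ring
            rw [h6]
            refine (abs_add_le _ _).trans ?_
            rw [abs_neg]
          have h6 : |(m : ℝ) - h x| ≤ 1 := by
            rw [abs_le]
            constructor <;> linarith
          linarith
      _ = Real.exp 1 * Real.exp (-|(m : ℝ) - (h 2 - a)|) *
          ∑ x ∈ (vs F).filter (fun x => ⌊h x⌋ = m),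
          ∑ t ∈ F.filter (fun t => t.1 = x), (h t.2.1 - h x) ^ 2 := by
          rw [mul_sum]
      _ ≤ Real.exp 1 * Real.exp (-|(m : ℝ) - (h 2 - a)|) * 6 :=
          mul_le_mul_of_nonneg_left h2 (by positivity)
      _ = _ := by ring
  refine (sum_le_sum h1).trans ?_
  rw [← mul_sum]
  have h2 := mul_le_mul_of_nonneg_left (sum_exp_le M (h 2 - a))
    (by positivity : 0 ≤ 6 * Real.exp 1)
  linarith

/-- Low degrees: `i^2 d ≤ d^2/4 * a(x)` (`thr_sq_le`). -/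
theorem low_deg (a : ℝ) (D : ℕ) (F : Finset (ℕ × ℕ × ℕ)) (hF : IsSurf F) (h01 : {0, 1} ⊆ vs F) :
    QQ a 1 0 F ≤ QQ a 1 D F + (D : ℝ) ^ 2 * (6 * Real.exp 1) := by
  have h1 := sum_psi_energy a F hF h01
  have h0 : big F 0 = vs F \ {0, 1, 2} := by
    unfold big
    exact filter_true_of_mem fun x _ => Nat.zero_le _
  have h2 : QQ a 1 0 F = QQ a 1 D F +
      ∑ x ∈ (vs F \ {0, 1, 2}).filter (fun x => ¬ D ≤ deg F x), Ps a F x * (deg F x : ℝ) ^ 1 := by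
    unfold QQ
    rw [h0]
    unfold big
    exact (sum_filter_add_sum_filter_not _ _ _).symm
  have h3 : ∑ x ∈ (vs F \ {0, 1, 2}).filter (fun x => ¬ D ≤ deg F x),
      Ps a F x * (deg F x : ℝ) ^ 1 ≤
      ∑ x ∈ (vs F \ {0, 1, 2}).filter (fun x => ¬ D ≤ deg F x), (D : ℝ) ^ 2 / 4 *
        (psi a (dep F x) *
          ∑ t ∈ F.filter (fun t => t.1 = x), (pot F 0 1 t.2.1 - pot F 0 1 x) ^ 2) := by
    refine sum_le_sum fun x hx => ?_
    have hd : (deg F x : ℝ) ≤ D := by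
      exact_mod_cast (not_le.1 (mem_filter.1 hx).2).le
    have h4 := thr_sq_le (F := F) (h := pot F 0 1) x
    have h5 : ∑ t ∈ F.filter (fun t => t.1 = x), (pot F 0 1 t.2.1 - pot F 0 1 t.1) ^ 2 =
        ∑ t ∈ F.filter (fun t => t.1 = x), (pot F 0 1 t.2.1 - pot F 0 1 x) ^ 2 :=
      sum_congr rfl fun t ht => by rw [(mem_filter.1 ht).2]
    rw [h5] at h4
    have hE : 0 ≤ ∑ t ∈ F.filter (fun t => t.1 = x), (pot F 0 1 t.2.1 - pot F 0 1 x) ^ 2 :=
      sum_nonneg fun t _ => sq_nonneg _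
    set E := ∑ t ∈ F.filter (fun t => t.1 = x), (pot F 0 1 t.2.1 - pot F 0 1 x) ^ 2
    have hp := (psi_pos a (dep F x)).le
    have hd0 : (0 : ℝ) ≤ deg F x := Nat.cast_nonneg _
    unfold Ps
    calc psi a (dep F x) * (thr F (pot F 0 1) x) ^ 2 * (deg F x : ℝ) ^ 1 =
        psi a (dep F x) * ((thr F (pot F 0 1) x) ^ 2 * (deg F x : ℝ)) := by ring
      _ ≤ psi a (dep F x) * ((deg F x : ℝ) / 4 * E * (deg F x : ℝ)) :=
          mul_le_mul_of_nonneg_left (mul_le_mul_of_nonneg_right h4 hd0) hp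
      _ = psi a (dep F x) * E / 4 * ((deg F x : ℝ) ^ 2) := by ring
      _ ≤ psi a (dep F x) * E / 4 * ((D : ℝ) ^ 2) :=
          mul_le_mul_of_nonneg_left (pow_le_pow_left₀ hd0 hd 2) (by positivity)
      _ = _ := by ring
  have h4 : ∑ x ∈ (vs F \ {0, 1, 2}).filter (fun x => ¬ D ≤ deg F x), (D : ℝ) ^ 2 / 4 *
        (psi a (dep F x) *
          ∑ t ∈ F.filter (fun t => t.1 = x), (pot F 0 1 t.2.1 - pot F 0 1 x) ^ 2) ≤
      ∑ x ∈ vs F, (D : ℝ) ^ 2 / 4 * (psi a (dep F x) *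
          ∑ t ∈ F.filter (fun t => t.1 = x), (pot F 0 1 t.2.1 - pot F 0 1 x) ^ 2) :=
    sum_le_sum_of_subset_of_nonneg ((filter_subset _ _).trans sdiff_subset) fun x _ _ =>
      mul_nonneg (by positivity) (mul_nonneg (psi_pos _ _).le (sum_nonneg fun t _ => sq_nonneg _))
  rw [← mul_sum, ← mul_sum] at h4
  rw [← mul_sum] at h3
  have h5 := mul_le_mul_of_nonneg_left h1 (by positivity : 0 ≤ (D : ℝ) ^ 2 / 4)
  rw [h2]
  linarith

/-- Trivial bound: `psi ≤ 1`, `i ≤ 1` (`IsPot.thr_le`), `∑ deg = |F| ≤ 6 n`. -/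
theorem QQ_triv (a : ℝ) {n : ℕ} (hn : 3 ≤ n) {F : Finset (ℕ × ℕ × ℕ)} (hF : F ∈ Lab n) :
    QQ a 1 0 F ≤ 6 * n := by
  obtain ⟨hT, hv⟩ := mem_LabS.1 hF
  have h01 : {0, 1} ⊆ vs F := by
    intro y hy
    rw [hv, mem_range]
    simp only [mem_insert, mem_singleton] at hy
    omega
  obtain ⟨hp, h0, h1⟩ := C4d_pot hT.toIsSurf h01
  have hcard : F.card ≤ 6 * n := by
    have := hT.euler
    rw [hv, card_range] at this
    omega
  have h2 : QQ a 1 0 F ≤ ∑ x ∈ vs F, (deg F x : ℝ) := by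
    unfold QQ big
    refine (sum_le_sum fun x hx => ?_).trans (sum_le_sum_of_subset_of_nonneg
      ((filter_subset _ _).trans sdiff_subset) fun x _ _ => Nat.cast_nonneg _)
    have hxv := (mem_sdiff.1 (mem_filter.1 hx).1).1
    have h3 : Ps a F x ≤ 1 := by
      unfold Ps
      have h4 := hp.thr_le hT.toIsSurf h0 h1 (by norm_num) hxv
      have h5 : (thr F (pot F 0 1) x) ^ 2 ≤ 1 := pow_le_one₀ (thr_nonneg x) h4
      have h6 := psi_le_one a (dep F x)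
      have h7 := (psi_pos a (dep F x)).le
      exact mul_le_one₀ h6 (sq_nonneg _) h5
    rw [pow_one]
    calc Ps a F x * (deg F x : ℝ) ≤ 1 * (deg F x : ℝ) :=
          mul_le_mul_of_nonneg_right h3 (Nat.cast_nonneg _)
      _ = _ := one_mul _
  have h3 : ∑ x ∈ vs F, (deg F x : ℝ) = (F.card : ℝ) := by
    rw [← sum_deg]
    push_cast
    rfl
  rw [h3] at h2
  refine h2.trans ?_
  exact_mod_cast hcard

end H19S
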