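import Pool.Agent.Lib.H19S.C4c
import Pool.Agent.Lib.H19S.C4d

/-!
# H19S, chunk C5b: the recursion
-/

namespace H19S

set_option linter.unusedSectionVars false

open Finset

theorem C5b_big {a : ℝ} {D : ℕ} (hD : 100 ≤ D) (F : Finset (ℕ × ℕ × ℕ)) :
    QQ a 1 D F ≤ 1 / (D : ℝ) * QQ a 2 100 F := by
  have hD0 : (0 : ℝ) < D := by
    have : 0 < D := by omega
    exact_mod_cast this
  unfold QQ
  rw [mul_sum]
  have hsub : big F D ⊆ big F 100 := by
    intro x hx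
    unfold big at hx ⊢
    obtain ⟨h1, h2⟩ := mem_filter.1 hx
    exact mem_filter.2 ⟨h1, hD.trans h2⟩
  refine (sum_le_sum fun x hx => ?_).trans (sum_le_sum_of_subset_of_nonneg hsub fun x _ _ =>
    mul_nonneg (by positivity) (mul_nonneg (Ps_nonneg _ _ _) (by positivity)))
  have h1 : (D : ℝ) ≤ deg F x := by
    unfold big at hx
    exact_mod_cast (mem_filter.1 hx).2
  have h2 : (deg F x : ℝ) ^ 1 ≤ 1 / (D : ℝ) * (deg F x : ℝ) ^ 2 := by
    rw [one_div, inv_mul_eq_div, le_div_iff₀ hD0, pow_one, pow_two]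
    exact mul_le_mul_of_nonneg_left h1 (Nat.cast_nonneg _)
  calc Ps a F x * (deg F x : ℝ) ^ 1 ≤ Ps a F x * (1 / (D : ℝ) * (deg F x : ℝ) ^ 2) :=
        mul_le_mul_of_nonneg_left h2 (Ps_nonneg _ _ _)
    _ = _ := by ring

/-- (chunk C5b) One step of the recursion: `M n = ∑_{Lab n} QQ a 1 0`.  With `D ≥ 100` and `D ≥ 768 e K`:
`M n ≤ ∑ QQ a 1 D + D² 6 e |Lab n|` (`low_deg`), `∑ QQ a 1 D ≤ (1/D) ∑ QQ a 2 100` and `split_ineq`. -/
theorem rec_step (K : ℝ) (hK : 0 < K) : ∃ C : ℝ, 0 < C ∧ ∀ (a : ℝ) (n : ℕ), 4 ≤ n →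
    ∑ F ∈ Lab n, QQ a 1 0 F ≤ C * (Lab n).card +
      1 / (2 * K * ((n : ℝ) - 2)) * ∑ F ∈ Lab (n + 1), QQ a 1 0 F := by
  obtain ⟨D', hD'⟩ := exists_nat_ge (768 * Real.exp 1 * K)
  set D := max D' 100
  have hD100 : 100 ≤ D := le_max_right _ _
  have hDK : 768 * Real.exp 1 * K ≤ (D : ℝ) :=
    hD'.trans (by exact_mod_cast le_max_left D' 100)
  have hD0 : (0 : ℝ) < D := by
    have : 0 < D := by omega
    exact_mod_cast this
  refine ⟨(D : ℝ) ^ 2 * (6 * Real.exp 1), by positivity, fun a n hn => ?_⟩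
  have hn2 : (0 : ℝ) < (n : ℝ) - 2 := by
    have : (4 : ℝ) ≤ n := by exact_mod_cast hn
    linarith
  have h1 : ∑ F ∈ Lab n, QQ a 1 0 F ≤
      ∑ F ∈ Lab n, (1 / (D : ℝ) * QQ a 2 100 F + (D : ℝ) ^ 2 * (6 * Real.exp 1)) := by
    refine sum_le_sum fun F hF => ?_
    obtain ⟨hT, hv⟩ := mem_LabS.1 hF
    have h01 : {0, 1} ⊆ vs F := by
      intro y hy
      rw [hv, mem_range]
      simp only [mem_insert, mem_singleton] at hy
      omega
    have h2 := low_deg a D F hT.toIsSurf h01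
    have h3 := C5b_big (a := a) hD100 F
    linarith
  rw [sum_add_distrib, ← mul_sum, sum_const, nsmul_eq_mul] at h1
  have h2 := split_ineq a hn
  have h4 : 0 ≤ ∑ F ∈ Lab (n + 1), QQ a 1 0 F := by
    refine sum_nonneg fun F _ => ?_
    unfold QQ
    exact sum_nonneg fun x _ => mul_nonneg (Ps_nonneg _ _ _) (by positivity)
  have h3 : 1 / (D : ℝ) * ∑ F ∈ Lab n, QQ a 2 100 F ≤
      1 / (2 * K * ((n : ℝ) - 2)) * ∑ F ∈ Lab (n + 1), QQ a 1 0 F := by
    set S := ∑ F ∈ Lab n, QQ a 2 100 F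
    set T := ∑ F ∈ Lab (n + 1), QQ a 1 0 F
    rw [one_div, one_div, inv_mul_eq_div, inv_mul_eq_div, div_le_div_iff₀ hD0 (by positivity)]
    have h5 : S * (2 * K * ((n : ℝ) - 2)) = 2 * K * (((n : ℝ) - 2) * S) := by ring
    rw [h5]
    have h6 := mul_le_mul_of_nonneg_left h2 (by positivity : 0 ≤ 2 * K)
    have h7 := mul_le_mul_of_nonneg_right hDK h4
    calc 2 * K * (((n : ℝ) - 2) * S) ≤ 2 * K * (384 * Real.exp 1 * T) := h6
      _ = 768 * Real.exp 1 * K * T := by ring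
      _ ≤ (D : ℝ) * T := h7
      _ = T * D := mul_comm _ _
  linarith

/-- Iteration: by induction on `m`, `M n ≤ (2 C + 2^(-m) 6 (n + m)) |Lab n|` for all `n ≥ 4` (start: `QQ_triv`), let
`m → ∞`. -/
theorem QQ_bound (K : ℝ) (hK : 0 < K) (hgr : ∀ n : ℕ, 4 ≤ n →
      ((Lab (n + 1)).card : ℝ) ≤ K * ((n : ℝ) - 2) * (Lab n).card) :
    ∃ C : ℝ, 0 < C ∧ ∀ (a : ℝ) (n : ℕ), 4 ≤ n →
      ∑ F ∈ Lab n, QQ a 1 0 F ≤ C * (Lab n).card := by
  obtain ⟨C, hC, hrec⟩ := rec_step K hK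
  have key : ∀ (a : ℝ) (m n : ℕ), 4 ≤ n → ∑ F ∈ Lab n, QQ a 1 0 F ≤
      (2 * C + (1 / 2 : ℝ) ^ m * (6 * ((n : ℝ) + m))) * (Lab n).card := by
    intro a m
    induction m with
    | zero =>
      intro n hn
      have h1 : ∑ F ∈ Lab n, QQ a 1 0 F ≤ ∑ F ∈ Lab n, (6 * n : ℝ) :=
        sum_le_sum fun F hF => QQ_triv a (by omega) hF
      rw [sum_const, nsmul_eq_mul] at h1
      have h2 : (0 : ℝ) ≤ ((Lab n).card : ℝ) := Nat.cast_nonneg _
      have h3 : 0 ≤ 2 * C * ((Lab n).card : ℝ) := by positivity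
      rw [pow_zero, Nat.cast_zero]
      linarith
    | succ m ih =>
      intro n hn
      have hn2 : (0 : ℝ) < (n : ℝ) - 2 := by
        have : (4 : ℝ) ≤ n := by exact_mod_cast hn
        linarith
      have h1 := hrec a n hn
      have h2 := ih (n + 1) (by omega)
      have h3 := hgr n hn
      have hL : (0 : ℝ) ≤ ((Lab n).card : ℝ) := Nat.cast_nonneg _
      set Y : ℝ := 2 * C + (1 / 2 : ℝ) ^ m * (6 * (((n + 1 : ℕ) : ℝ) + m)) with hY
      have hY0 : 0 ≤ Y := by positivity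
      have h4 : ∑ F ∈ Lab (n + 1), QQ a 1 0 F ≤ Y * (K * ((n : ℝ) - 2) * (Lab n).card) :=
        h2.trans (mul_le_mul_of_nonneg_left h3 hY0)
      have h5 := mul_le_mul_of_nonneg_left h4
        (by positivity : 0 ≤ 1 / (2 * K * ((n : ℝ) - 2)))
      have h6 : 1 / (2 * K * ((n : ℝ) - 2)) * (Y * (K * ((n : ℝ) - 2) * (Lab n).card)) =
          Y / 2 * (Lab n).card := by
        have hK0 := hK.ne'
        have hn0 := hn2.ne'
        field_simp
      rw [h6] at h5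
      have h7 : (2 * C + (1 / 2 : ℝ) ^ (m + 1) * (6 * ((n : ℝ) + (m + 1 : ℕ)))) =
          C + Y / 2 := by
        rw [hY, pow_succ]
        push_cast
        ring
      rw [h7]
      linarith
  refine ⟨2 * C, by positivity, fun a n hn => ?_⟩
  have hlim : Filter.Tendsto (fun m : ℕ =>
      (2 * C + (1 / 2 : ℝ) ^ m * (6 * ((n : ℝ) + m))) * ((Lab n).card : ℝ)) Filter.atTop
      (nhds ((2 * C + 0) * ((Lab n).card : ℝ))) := by
    refine (Filter.Tendsto.const_add _ ?_).mul_const _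
    have h1 : Filter.Tendsto (fun m : ℕ => (1 / 2 : ℝ) ^ m) Filter.atTop (nhds 0) :=
      tendsto_pow_atTop_nhds_zero_of_lt_one (by norm_num) (by norm_num)
    have h2 : Filter.Tendsto (fun m : ℕ => (m : ℝ) * (1 / 2 : ℝ) ^ m) Filter.atTop (nhds 0) :=
      tendsto_self_mul_const_pow_of_lt_one (by norm_num) (by norm_num)
    have h3 := (h1.const_mul (6 * (n : ℝ))).add (h2.const_mul 6)
    rw [mul_zero, mul_zero, add_zero] at h3
    refine h3.congr fun m => ?_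
    ring
  have h := ge_of_tendsto' hlim fun m => key a m n hn
  rw [add_zero] at h
  exact h

end H19S
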