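import Pool.Agent.Lib.H19S.C5a
import Pool.Agent.Lib.H19S.C5b

/-!
# H19S, chunk C5: Lemma D
-/

namespace H19S

set_option linter.unusedSectionVars false

open Finset

/-- `band F k ≤ e^(1/2) QQ (k + 1/2) 1 0 F`: in the band `|dep - (k+1/2)| ≤ 1/2`, and `deg ≥ 1`. -/
theorem band_le {n : ℕ} (hn : 3 ≤ n) {F : Finset (ℕ × ℕ × ℕ)} (hF : F ∈ Lab n) (k : ℤ) :
    band F k ≤ Real.exp 1 * QQ ((k : ℝ) + 1 / 2) 1 0 F := by
  unfold band QQ
  rw [mul_sum]
  have hbig : big F 0 = vs F \ {0, 1, 2} := by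
    unfold big
    exact filter_true_of_mem fun x _ => Nat.zero_le _
  rw [hbig]
  refine (sum_le_sum fun x hx => ?_).trans (sum_le_sum_of_subset_of_nonneg (filter_subset _ _) ?_)
  · obtain ⟨hx1, hx2, hx3⟩ := mem_filter.1 hx
    have hxv : x ∈ vs F := (mem_sdiff.1 hx1).1
    have hd : (1 : ℝ) ≤ deg F x := by exact_mod_cast deg_pos hxv
    have habs : |dep F x - ((k : ℝ) + 1 / 2)| ≤ 1 := by
      unfold dep
      rw [abs_le]
      constructor <;> linarith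
    have hpsi : 1 ≤ Real.exp 1 * psi ((k : ℝ) + 1 / 2) (dep F x) := by
      unfold psi
      rw [← Real.exp_add]
      apply Real.one_le_exp
      linarith
    unfold Ps
    rw [pow_one]
    have hsq := sq_nonneg (thr F (pot F 0 1) x)
    calc thr F (pot F 0 1) x ^ 2 = 1 * thr F (pot F 0 1) x ^ 2 * 1 := by ring
      _ ≤ (Real.exp 1 * psi ((k : ℝ) + 1 / 2) (dep F x)) * thr F (pot F 0 1) x ^ 2 * deg F x := by
          apply mul_le_mul _ hd (by norm_num) (mul_nonneg (by positivity) hsq)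
          exact mul_le_mul_of_nonneg_right hpsi hsq
      _ = _ := by ring
  · intro x _ _
    exact mul_nonneg (Real.exp_pos _).le
      (mul_nonneg (Ps_nonneg _ _ _) (pow_nonneg (Nat.cast_nonneg _) _))

/-- PART C, conclusion (= `lemmaD` of Top.lean), assuming the formula for `|Lab n|` (part B). -/
theorem lemmaD_of (hlab : ∀ n : ℕ, 3 ≤ n →
      ((Lab n).card : ℝ) * (6 * n - 12) = n.factorial * Zf 3 (n - 3)) :
    ∃ C : ℝ, 0 < C ∧ ∀ n : ℕ, 4 ≤ n → ∀ k : ℤ,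
    ∑ F ∈ Lab n, band F k ≤ C * (Lab n).card := by
  obtain ⟨K, hK, hgr⟩ := lab_growth hlab
  obtain ⟨C, hC, hQ⟩ := QQ_bound K hK hgr
  refine ⟨Real.exp 1 * C, by positivity, fun n hn k => ?_⟩
  calc ∑ F ∈ Lab n, band F k ≤ ∑ F ∈ Lab n, Real.exp 1 * QQ ((k : ℝ) + 1 / 2) 1 0 F :=
        sum_le_sum fun F hF => band_le (by omega) hF k
    _ = Real.exp 1 * ∑ F ∈ Lab n, QQ ((k : ℝ) + 1 / 2) 1 0 F := by rw [mul_sum]
    _ ≤ Real.exp 1 * (C * (Lab n).card) :=
        mul_le_mul_of_nonneg_left (hQ _ n hn) (Real.exp_pos _).le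
    _ = _ := by ring

end H19S
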