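import Pool.Agent.Lib.H19S.Iface

/-!
# H19S, chunk C5a: growth of the number of triangulations
-/

namespace H19S

set_option linter.unusedSectionVars false

open Finset

theorem c5a_Zf3 (m : ℕ) : Zf 3 m = 6 * (4 * m + 1).factorial / (m.factorial * (3 * m + 3).factorial) := by
  unfold Zf
  have h1 : (2 * (3 - 3) + 3).factorial = 6 := by decide
  have h2 : (3 - 3 + 2).factorial = 2 := by decide
  have h3 : (3 - 3).factorial = 1 := by decide
  rw [h1, h2, h3]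
  have h4 : 4 * m + 2 * (3 - 3) + 1 = 4 * m + 1 := by omega
  have h5 : 3 * m + 2 * (3 - 3) + 3 = 3 * m + 3 := by omega
  rw [h4, h5]
  have h6 : (0 : ℝ) < m.factorial := by exact_mod_cast Nat.factorial_pos m
  have h7 : (0 : ℝ) < (3 * m + 3).factorial := by exact_mod_cast Nat.factorial_pos _
  field_simp
  norm_num

theorem c5a_Zf_succ (m : ℕ) : Zf 3 (m + 1) ≤ 16 * Zf 3 m := by
  rw [c5a_Zf3, c5a_Zf3]
  have e1 : 4 * (m + 1) + 1 = 4 * m + 1 + 1 + 1 + 1 + 1 := by ring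
  have e2 : 3 * (m + 1) + 3 = 3 * m + 3 + 1 + 1 + 1 := by ring
  rw [e1, e2, Nat.factorial_succ (4 * m + 1 + 1 + 1 + 1), Nat.factorial_succ (4 * m + 1 + 1 + 1),
    Nat.factorial_succ (4 * m + 1 + 1), Nat.factorial_succ (4 * m + 1),
    Nat.factorial_succ (3 * m + 3 + 1 + 1), Nat.factorial_succ (3 * m + 3 + 1),
    Nat.factorial_succ (3 * m + 3), Nat.factorial_succ m]
  have h6 : (0 : ℝ) < m.factorial := by exact_mod_cast Nat.factorial_pos m
  have h7 : (0 : ℝ) < (3 * m + 3).factorial := by exact_mod_cast Nat.factorial_pos _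
  have h8 : (0 : ℝ) < (4 * m + 1).factorial := by exact_mod_cast Nat.factorial_pos _
  have hm : (0 : ℝ) ≤ m := Nat.cast_nonneg m
  push_cast
  rw [div_le_iff₀ (by positivity)]
  have h9 : 16 * (6 * ((4 * m + 1).factorial : ℝ) / (m.factorial * (3 * m + 3).factorial)) *
      (((m : ℝ) + 1) * m.factorial * ((3 * m + 3 + 1 + 1 + 1) * ((3 * m + 3 + 1 + 1) *
        ((3 * m + 3 + 1) * (3 * m + 3).factorial)))) =
      16 * 6 * ((m : ℝ) + 1) * (3 * m + 6) * (3 * m + 5) * (3 * m + 4) * (4 * m + 1).factorial := by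
    field_simp
    ring
  have h10 : (4 * (m : ℝ) + 5) * (4 * m + 4) * (4 * m + 3) * (4 * m + 2) ≤
      16 * (m + 1) * (3 * m + 6) * (3 * m + 5) * (3 * m + 4) := by
    have h11 : (4 * (m : ℝ) + 5) * (4 * m + 3) * (4 * m + 2) ≤
      4 * ((3 * m + 6) * (3 * m + 5) * (3 * m + 4)) := by
      have : 0 ≤ (m : ℝ) ^ 3 := by positivity
      have : 0 ≤ (m : ℝ) ^ 2 := by positivity
      nlinarith
    have h12 := mul_le_mul_of_nonneg_left h11 (show (0 : ℝ) ≤ 4 * (m + 1) by positivity)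
    calc (4 * (m : ℝ) + 5) * (4 * m + 4) * (4 * m + 3) * (4 * m + 2)
        = 4 * (m + 1) * ((4 * (m : ℝ) + 5) * (4 * m + 3) * (4 * m + 2)) := by ring
      _ ≤ _ := h12
      _ = _ := by ring
  calc _ = 6 * ((4 * (m : ℝ) + 5) * (4 * m + 4) * (4 * m + 3) * (4 * m + 2)) *
        (4 * m + 1).factorial := by ring
    _ ≤ 6 * (16 * (m + 1) * (3 * m + 6) * (3 * m + 5) * (3 * m + 4)) * (4 * m + 1).factorial := by
        gcongr
    _ = 16 * 6 * ((m : ℝ) + 1) * (3 * m + 6) * (3 * m + 5) * (3 * m + 4) * (4 * m + 1).factorial := by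
        ring
    _ = _ := by
        rw [← h9]

theorem c5a_Zf_nonneg (m : ℕ) : 0 ≤ Zf 3 m := by
  rw [c5a_Zf3]
  positivity

/-- (chunk C5a) The growth of the number of triangulations, from the formula (`lab_card` of Top.lean):
`Zf 3 (m+1) / Zf 3 m = (4m+5)(4m+4)(4m+3)(4m+2) / ((m+1)(3m+6)(3m+5)(3m+4)) ≤ 256/27` (or any cruder constant), and
`(n+1) (6n-12)/(6n-6) ≤ 2 (n-2)` up to a constant. -/
theorem lab_growth (hlab : ∀ n : ℕ, 3 ≤ n →
      ((Lab n).card : ℝ) * (6 * n - 12) = n.factorial * Zf 3 (n - 3)) :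
    ∃ K : ℝ, 0 < K ∧ ∀ n : ℕ, 4 ≤ n →
      ((Lab (n + 1)).card : ℝ) ≤ K * ((n : ℝ) - 2) * (Lab n).card := by
  refine ⟨48, by norm_num, ?_⟩
  intro n hn
  obtain ⟨m, rfl⟩ : ∃ m, n = m + 3 := ⟨n - 3, by omega⟩
  have hm1 : 1 ≤ m := by omega
  have hm : (1 : ℝ) ≤ m := by exact_mod_cast hm1
  have h1 := hlab (m + 3) (by omega)
  have h2 := hlab (m + 3 + 1) (by omega)
  have e1 : m + 3 - 3 = m := by omega
  have e2 : m + 3 + 1 - 3 = m + 1 := by omega
  rw [e1] at h1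
  rw [e2, Nat.factorial_succ] at h2
  push_cast at h1 h2 ⊢
  have hfac : (0 : ℝ) < (m + 3).factorial := by exact_mod_cast Nat.factorial_pos _
  set L1 : ℝ := ((Lab (m + 3 + 1)).card : ℝ)
  set L0 : ℝ := ((Lab (m + 3)).card : ℝ) with hL0
  have hL0' : 0 ≤ L0 := by rw [hL0]; exact Nat.cast_nonneg _
  have h3 := c5a_Zf_succ m
  have h4 : L1 * (6 * (m + 3 + 1) - 12) ≤ 16 * (m + 3 + 1) * (L0 * (6 * (m + 3) - 12)) := by
    calc L1 * (6 * ((m : ℝ) + 3 + 1) - 12) = ((m : ℝ) + 3 + 1) * (m + 3).factorial * Zf 3 (m + 1) := h2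
      _ ≤ ((m : ℝ) + 3 + 1) * (m + 3).factorial * (16 * Zf 3 m) := by
          apply mul_le_mul_of_nonneg_left h3
          positivity
      _ = 16 * (m + 3 + 1) * ((m + 3).factorial * Zf 3 m) := by ring
      _ = 16 * (m + 3 + 1) * (L0 * (6 * (m + 3) - 12)) := by rw [← h1]
  have h5 : (0 : ℝ) < 6 * ((m : ℝ) + 3 + 1) - 12 := by linarith
  have h6 : 16 * ((m : ℝ) + 3 + 1) * (L0 * (6 * (m + 3) - 12)) ≤
      (48 * ((m : ℝ) + 3 - 2) * L0) * (6 * (m + 3 + 1) - 12) := by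
    have h7 : 16 * ((m : ℝ) + 3 + 1) * (6 * (m + 3) - 12) ≤
        48 * ((m : ℝ) + 3 - 2) * (6 * (m + 3 + 1) - 12) := by
      nlinarith
    calc 16 * ((m : ℝ) + 3 + 1) * (L0 * (6 * (m + 3) - 12))
        = (16 * ((m : ℝ) + 3 + 1) * (6 * (m + 3) - 12)) * L0 := by ring
      _ ≤ (48 * ((m : ℝ) + 3 - 2) * (6 * (m + 3 + 1) - 12)) * L0 :=
          mul_le_mul_of_nonneg_right h7 hL0'
      _ = _ := by ring
  exact le_of_mul_le_mul_right (h4.trans h6) h5

end H19S
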