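import Pool.Agent.Lib.H19S.Iface

/-!
# H19S, Part D (loops): definitions

General finite graphs `(V, N)` (`N x` = neighbours of `x`), walks as lists, hitting families, the double
cover given by a `ZMod 2`-valued function on the edges, level sets.
-/

namespace H19S.PD

open Finset
open scoped ENNReal

section graph

variable {β : Type*} [DecidableEq β]

/-- `N` is the neighbour map of a finite symmetric graph with vertex set `V`, without isolated
vertices. -/
structure IsGr (V : Finset β) (N : β → Finset β) : Prop where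
  sub : ∀ x ∈ V, N x ⊆ V
  symm : ∀ x ∈ V, ∀ y ∈ N x, x ∈ N y
  ne : ∀ x ∈ V, (N x).Nonempty

/-- The Laplacian `∑_{y ~ x} (g y - g x)`. -/
noncomputable def nlap (N : β → Finset β) (g : β → ℝ) (x : β) : ℝ := ∑ y ∈ N x, (g y - g x)

/-- `p` is a (nonempty) walk for the neighbour map `N`. -/
def Walk (N : β → Finset β) (p : List β) : Prop := p ≠ [] ∧ p.IsChain (fun a b => b ∈ N a)

/-- The walks from `x` stopped at the first visit of `A`, which stay in `D` before:
all vertices but the last one are in `D` and not in `A`, the last vertex is in `A`. -/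
def Hit (N : β → Finset β) (D A : Set β) (x : β) : Set (List β) :=
  {p | p.head? = some x ∧ Walk N p ∧ (∀ y ∈ p.dropLast, y ∈ D ∧ y ∉ A) ∧
    ∀ y ∈ p.getLast?, y ∈ A}

/-- The probability to hit `A` before leaving `D`. -/
noncomputable def hp (N : β → Finset β) (D A : Set β) (x : β) : ℝ := (W N (Hit N D A x)).toReal

/-- Concatenation of families of walks (`q` starts where `p` ends). -/
def comp (G : Set (List β)) (H : List β → Set (List β)) : Set (List β) :=
  {r | ∃ p ∈ G, ∃ q ∈ H p, r = p ++ q.tail}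

/-- `k` is a 1-Lipschitz function on the finite graph `(V, N)`, harmonic where `a < k < b`, and from
every vertex one can reach a vertex with `k ≤ a`. -/
structure HarmOn (V : Finset β) (N : β → Finset β) (k : β → ℝ) (a b : ℝ) : Prop where
  gr : IsGr V N
  lip : ∀ x ∈ V, ∀ y ∈ N x, |k y - k x| ≤ 1
  harm : ∀ x ∈ V, a < k x → k x < b → nlap N k x = 0
  exit : ∀ x ∈ V, ∃ y ∈ V, k y ≤ a ∧ Relation.ReflTransGen (fun p q => q ∈ N p) x y

end graph

section cover

variable {α : Type*} [DecidableEq α]

/-- Neighbours in the double cover given by `σ`. -/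
def cov (N : α → Finset α) (σ : α → α → ZMod 2) (x : α × ZMod 2) : Finset (α × ZMod 2) :=
  (N x.1).image fun y => (y, x.2 + σ x.1 y)

/-- The deck transformation. -/
def deck (x : α × ZMod 2) : α × ZMod 2 := (x.1, x.2 + 1)

/-- The coboundary of `σ` on a face. -/
def cob (σ : α → α → ZMod 2) (t : α × α × α) : ZMod 2 :=
  σ t.1 t.2.1 + σ t.2.1 t.2.2 + σ t.2.2 t.1

/-- The lower endpoints of the edges crossing the level `s`. -/
def Low (F : Finset (α × α × α)) (h : α → ℝ) (s : ℝ) : Set α :=
  {x | h x ≤ s ∧ ∃ y, Adj F x y ∧ s < h y}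

/-- Total variation of `ψ` along the lift of the lower side of the level circuit at level `s`. -/
noncomputable def tv (F : Finset (α × α × α)) (h : α → ℝ) (σ : α → α → ZMod 2)
    (ψ : α × ZMod 2 → ℝ) (s : ℝ) : ℝ :=
  ∑ t ∈ F.filter (fun t => h t.1 ≤ s ∧ h t.2.1 ≤ s ∧ s < h t.2.2),
    ∑ e : ZMod 2, |ψ (t.1, e) - ψ (t.2.1, e + σ t.1 t.2.1)|

/-- The cutoff function: `0` for `h ≤ lo`, `1` for `lo + 8 ≤ h ≤ lo + 17`, `0` for `lo + 25 ≤ h`,
with slope `1/8` in between. -/
noncomputable def chi (h : α → ℝ) (lo : ℝ) (x : α) : ℝ :=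
  (max lo (min (lo + 8) (h x)) - max (lo + 17) (min (lo + 25) (h x)) + 17) / 8

end cover

end H19S.PD
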