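import Pool.Agent.Lib.H19S.DWalk

/-!
# H19S, Part D, chunk D-HIT. The proof is in the docstring of `DWalk.lean`.
-/

namespace H19S.PD

open Finset
open scoped ENNReal

variable {β : Type*} [DecidableEq β]

theorem hit_prefixFree (N : β → Finset β) (D A : Set β) (x : β) : PrefixFree (Hit N D A x) := by
  intro p hp q hq hpq
  obtain ⟨r, hr⟩ := hpq
  by_cases h0 : r = []
  · rw [h0, List.append_nil] at hr
    exact hr
  · exfalso
    have hpne : p ≠ [] := hp.2.1.1
    have h1 : q.dropLast = p ++ r.dropLast := by
      rw [← hr, List.dropLast_append_of_ne_nil h0]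
    have h2 : p.getLast hpne ∈ q.dropLast := by
      rw [h1]
      exact List.mem_append_left _ (List.getLast_mem hpne)
    refine (hq.2.2.1 _ h2).2 (hp.2.2.2 _ ?_)
    rw [List.getLast?_eq_some_getLast hpne]
    rfl

theorem DH_ne_top (N : β → Finset β) (D A : Set β) (x : β) : W N (Hit N D A x) ≠ ⊤ :=
  ne_top_of_le_ne_top ENNReal.one_ne_top
    (W_le_one N (hit_prefixFree N D A x) x (fun _ hp => hp.1))

/-- The weight of the hitting family is `hp` (it is finite by `W_le_one`). -/
theorem W_hit (N : β → Finset β) (D A : Set β) (x : β) :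
    W N (Hit N D A x) = ENNReal.ofReal (hp N D A x) := by
  unfold hp
  rw [ENNReal.ofReal_toReal (DH_ne_top N D A x)]

theorem hp_nonneg (N : β → Finset β) (D A : Set β) (x : β) : 0 ≤ hp N D A x :=
  ENNReal.toReal_nonneg

theorem hp_le_one (N : β → Finset β) (D A : Set β) (x : β) : hp N D A x ≤ 1 := by
  unfold hp
  have h1 := W_le_one N (hit_prefixFree N D A x) x (fun _ hp => hp.1)
  have h2 := ENNReal.toReal_mono ENNReal.one_ne_top h1
  rwa [ENNReal.toReal_one] at h2

theorem hp_mem (N : β → Finset β) (D : Set β) {A : Set β} {x : β} (hx : x ∈ A) :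
    hp N D A x = 1 := by
  classical
  have h1 : ∀ p : List β, p ∈ Hit N D A x ↔ p = [x] := by
    intro p
    constructor
    · intro hp
      cases p with
      | nil => exact absurd rfl hp.2.1.1
      | cons a l =>
        have h2 := hp.1
        simp only [List.head?_cons, Option.some.injEq] at h2
        subst h2
        cases l with
        | nil => rfl
        | cons b l =>
          exfalso
          refine (hp.2.2.1 a ?_).2 hx
          rw [List.dropLast_cons_cons]
          exact List.mem_cons_self
    · rintro rfl
      refine ⟨rfl, ⟨List.cons_ne_nil _ _, List.isChain_singleton _⟩, ?_, ?_⟩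
      · intro y hy
        simp at hy
      · intro y hy
        simp at hy
        subst hy
        exact hx
  unfold hp W
  rw [tsum_eq_single [x]]
  · rw [if_pos ((h1 [x]).2 rfl)]
    simp [wt]
  · intro p hp
    rw [if_neg (fun h => hp ((h1 p).1 h))]

theorem hp_out (N : β → Finset β) {D A : Set β} {x : β} (hD : x ∉ D) (hA : x ∉ A) :
    hp N D A x = 0 := by
  classical
  have h1 : ∀ p : List β, p ∉ Hit N D A x := by
    intro p hp
    cases p with
    | nil => exact absurd rfl hp.2.1.1
    | cons a l =>
      have h2 := hp.1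
      simp only [List.head?_cons, Option.some.injEq] at h2
      subst h2
      cases l with
      | nil => exact hA (hp.2.2.2 a rfl)
      | cons b l =>
        refine hD (hp.2.2.1 a ?_).1
        rw [List.dropLast_cons_cons]
        exact List.mem_cons_self
  unfold hp W
  have h2 : (∑' p : List β, (if p ∈ Hit N D A x then wt N p else 0)) = 0 := by
    rw [ENNReal.tsum_eq_zero]
    intro p
    rw [if_neg (h1 p)]
  rw [h2]
  rfl

theorem DH_cons (N : β → Finset β) {D A : Set β} {x y : β} {l : List β} (hD : x ∈ D)
    (hA : x ∉ A) : (x :: y :: l) ∈ Hit N D A x ↔ y ∈ N x ∧ (y :: l) ∈ Hit N D A y := by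
  unfold Hit Walk
  simp only [Set.mem_setOf_eq, List.head?_cons, ne_eq, reduceCtorEq, not_false_eq_true, true_and,
    List.isChain_cons_cons, List.dropLast_cons_cons, List.getLast?_cons_cons, List.mem_cons,
    forall_eq_or_imp]
  constructor
  · rintro ⟨⟨h1, h2⟩, ⟨_, h3⟩, h4⟩
    exact ⟨h1, h2, h3, h4⟩
  · rintro ⟨h1, h2, h3, h4⟩
    exact ⟨⟨h1, h2⟩, ⟨⟨hD, hA⟩, h3⟩, h4⟩

theorem DH_step {N : β → Finset β} {D A : Set β} {x : β} (hD : x ∈ D) (hA : x ∉ A) :
    W N (Hit N D A x) = ∑ y ∈ N x, ((N x).card : ℝ≥0∞)⁻¹ * W N (Hit N D A y) := by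
  classical
  have hinj : Function.Injective (List.cons x) := List.cons_injective
  unfold W
  rw [← hinj.tsum_eq]
  · have h1 : ∀ q : List β, (if (x :: q) ∈ Hit N D A x then wt N (x :: q) else 0) =
        ∑ y ∈ N x, ((N x).card : ℝ≥0∞)⁻¹ * (if q ∈ Hit N D A y then wt N q else 0) := by
      intro q
      cases q with
      | nil =>
        rw [if_neg, sum_eq_zero]
        · intro y _
          rw [if_neg, mul_zero]
          intro h
          exact h.2.1.1 rfl
        · intro h
          exact hA (h.2.2.2 x rfl)
      | cons y l =>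
        by_cases hy : y ∈ N x
        · rw [sum_eq_single y]
          · by_cases h2 : (y :: l) ∈ Hit N D A y
            · rw [if_pos ((DH_cons N hD hA).2 ⟨hy, h2⟩), if_pos h2]
              simp [wt, hy]
            · rw [if_neg (fun h => h2 ((DH_cons N hD hA).1 h).2), if_neg h2, mul_zero]
          · intro y' _ hne
            rw [if_neg, mul_zero]
            intro h
            have := h.1
            simp only [List.head?_cons, Option.some.injEq] at this
            exact hne this.symm
          · intro h
            exact absurd hy h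
        · rw [if_neg (fun h => hy ((DH_cons N hD hA).1 h).1), sum_eq_zero]
          intro y' hy'
          rw [if_neg, mul_zero]
          intro h
          have := h.1
          simp only [List.head?_cons, Option.some.injEq] at this
          subst this
          exact hy hy'
    calc ∑' q : List β, (if (x :: q) ∈ Hit N D A x then wt N (x :: q) else 0)
        = ∑' q : List β, ∑ y ∈ N x,
            ((N x).card : ℝ≥0∞)⁻¹ * (if q ∈ Hit N D A y then wt N q else 0) :=
          tsum_congr h1
      _ = ∑ y ∈ N x, ∑' q : List β,
            ((N x).card : ℝ≥0∞)⁻¹ * (if q ∈ Hit N D A y then wt N q else 0) :=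
          Summable.tsum_finsetSum (fun _ _ => ENNReal.summable)
      _ = ∑ y ∈ N x, ((N x).card : ℝ≥0∞)⁻¹ *
            ∑' q : List β, (if q ∈ Hit N D A y then wt N q else 0) := by
          refine sum_congr rfl fun y _ => ?_
          rw [ENNReal.tsum_mul_left]
  · intro p hp
    rw [Function.mem_support] at hp
    have h2 : p ∈ Hit N D A x := by
      by_contra h
      exact hp (if_neg h)
    cases p with
    | nil => exact absurd rfl h2.2.1.1
    | cons a l =>
      have h3 := h2.1
      simp only [List.head?_cons, Option.some.injEq] at h3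
      subst h3
      exact ⟨l, rfl⟩

theorem hp_harm {N : β → Finset β} {D A : Set β} {x : β} (hD : x ∈ D) (hA : x ∉ A)
    (hne : (N x).Nonempty) : nlap N (hp N D A) x = 0 := by
  have hc0 : ((N x).card : ℝ) ≠ 0 := by
    have := card_pos.2 hne
    positivity
  have hc1 : ((N x).card : ℝ≥0∞)⁻¹ ≠ ⊤ := by
    rw [ENNReal.inv_ne_top]
    have := (card_pos.2 hne).ne'
    exact_mod_cast this
  have h1 : hp N D A x = ((N x).card : ℝ)⁻¹ * ∑ y ∈ N x, hp N D A y := by
    have h2 := DH_step (N := N) hD hA
    have h3 := congrArg ENNReal.toReal h2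
    rw [ENNReal.toReal_sum] at h3
    · unfold hp
      rw [h3, mul_sum]
      refine sum_congr rfl fun y _ => ?_
      rw [ENNReal.toReal_mul, ENNReal.toReal_inv, ENNReal.toReal_natCast]
    · intro y _
      exact ENNReal.mul_ne_top hc1 (DH_ne_top N D A y)
  unfold nlap
  rw [sum_sub_distrib, sum_const, nsmul_eq_mul, h1]
  field_simp
  ring

end H19S.PD
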