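import Pool.Agent.Lib.H19S.DNbr
import Pool.Agent.Lib.H19S.A2

/-!
# H19S, Part D, chunk D-LEV: the lifted lower side of the level circuit is connected

Write `L = {h ≤ s}`, `H = {h > s}` (inside `vs F`), both connected. A function `f` on the lift
`Low × ZMod 2` which is invariant along the bottom sides of the faces of type `LLH` is constant.

PROOF. (a) If `g : α → ZMod 2` satisfies `g x = g x'` for every face `(x,x',y)` with `x, x' ∈ L`, `y ∈ H`, then `g` is constant
on `Low`: let `ω a b = g (the end in L)` if exactly one of `a, b` is in `L`, `ω a b = 0` otherwise. It is symmetric and closed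
on faces: type `LLH`: `g x + g x' = 0`; type `LHH`: `g x + g x = 0`. By `IsTri.H1` `ω = dφ`; `φ` is constant on `L`
and on `H` (`ω = 0` on the edges inside `L`, resp. `H`, and `L`, `H` are connected). So `g x = φ_L + φ_H` for `x ∈ Low`.
(b) Let `g x = f x 0 + f x 1`. For a face `LLH` `{f x 0, f x 1} = {f x' (σ), f x' (1 + σ)}`, so `g x = g x'`; by (a) `g = c` on `Low`.
If `c = 0`: `f x e` does not depend on `e` for `x ∈ Low`, and (a) applied to `x ↦ f x 0` finishes.
If `c = 1`: `f x (e + e') = f x e + e'` on `Low`. Put `ω a b = σ a b` if `a, b ∈ L`; `ω a b = f (end in L) 0` if exactly one end is in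
`L`; `ω a b = 0` if `a, b ∈ H`. Coboundary of `ω`: type `LLL`: `cob σ`; type `LLH`: `σ x x' + f x 0 + f x' 0 = 0`; types `LHH`, `HHH`: 0.
So `∑_{t ∈ F} cob ω t = 1` by `hsum`. But `∑_{t ∈ F} cob ω t = 3 ∑_{t ∈ F} ω t.1 t.2.1 = 0` (`sum_rot` twice, `sum_sym_zero`).
Contradiction.
-/

namespace H19S.PD

open Finset

variable {α : Type*} [DecidableEq α]

omit [DecidableEq α] in
theorem D_LEV_const {F : Finset (α × α × α)} {A : Set α} (hA : ConnIn F A) {φ : α → ZMod 2}
    (h : ∀ p ∈ A, ∀ q ∈ A, Adj F p q → φ p + φ q = 0) {x y : α} (hx : x ∈ A) (hy : y ∈ A) :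
    φ x = φ y := by
  have key : ∀ z, Relation.ReflTransGen (fun p q => q ∈ A ∧ Adj F p q) x z → z ∈ A ∧ φ x = φ z := by
    intro z hz
    induction hz with
    | refl => exact ⟨hx, rfl⟩
    | tail _ hs ih =>
      refine ⟨hs.1, ?_⟩
      have h1 := h _ ih.1 _ hs.1 hs.2
      rw [ih.2]
      exact CharTwo.add_eq_zero.1 h1
  exact (key y (hA x hx y hy)).2

/-- Part (a). -/
theorem low_const {F : Finset (α × α × α)} (hF : IsTri F) {h : α → ℝ} {s : ℝ}
    (hL : ConnIn F {x | x ∈ vs F ∧ h x ≤ s}) (hH : ConnIn F {x | x ∈ vs F ∧ s < h x})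
    {g : α → ZMod 2}
    (hg : ∀ t ∈ F, h t.1 ≤ s → h t.2.1 ≤ s → s < h t.2.2 → g t.1 = g t.2.1) :
    ∀ x ∈ Low F h s, ∀ x' ∈ Low F h s, g x = g x' := by
  classical
  obtain ⟨φ, hφ⟩ := hF.H1
    (fun a b => if h a ≤ s then (if h b ≤ s then 0 else g a) else (if h b ≤ s then g b else 0))
    (by
      intro a b
      by_cases ha : h a ≤ s <;> by_cases hb : h b ≤ s <;> simp [ha, hb])
    (by
      intro a b c habc
      have two : ∀ x : ZMod 2, x + x = 0 := fun x => CharTwo.add_self_eq_zero x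
      have k1 := hg _ habc
      have k2 := hg _ (hF.rot habc)
      have k3 := hg _ (hF.toIsSurf.rot2 habc)
      simp only at k1 k2 k3
      by_cases ha : h a ≤ s <;> by_cases hb : h b ≤ s <;> by_cases hc : h c ≤ s <;>
        simp only [ha, hb, hc, if_true, if_false, add_zero, zero_add, two]
      · rw [k1 ha hb (not_le.1 hc)]
        exact two _
      · rw [k3 hc ha (not_le.1 hb)]
        exact two _
      · rw [k2 hb hc (not_le.1 ha)]
        exact two _)
  have hadjH : ∀ x y, Adj F x y → s < h y → y ∈ {x | x ∈ vs F ∧ s < h x} :=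
    fun x y h1 h2 => ⟨hF.toIsSurf.adj_mem_right h1, h2⟩
  have hcL : ∀ x y, x ∈ vs F → y ∈ vs F → h x ≤ s → h y ≤ s → φ x = φ y := by
    intro x y hx hy hxs hys
    refine D_LEV_const hL ?_ (show x ∈ {x | x ∈ vs F ∧ h x ≤ s} from ⟨hx, hxs⟩)
      (show y ∈ {x | x ∈ vs F ∧ h x ≤ s} from ⟨hy, hys⟩)
    intro p hp q hq hpq
    have h1 := hφ p q hpq
    rw [if_pos hp.2, if_pos hq.2] at h1
    exact h1.symm
  have hcH : ∀ x y, x ∈ vs F → y ∈ vs F → s < h x → s < h y → φ x = φ y := by
    intro x y hx hy hxs hys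
    refine D_LEV_const hH ?_ (show x ∈ {x | x ∈ vs F ∧ s < h x} from ⟨hx, hxs⟩)
      (show y ∈ {x | x ∈ vs F ∧ s < h x} from ⟨hy, hys⟩)
    intro p hp q hq hpq
    have h1 := hφ p q hpq
    rw [if_neg (not_le.2 hp.2), if_neg (not_le.2 hq.2)] at h1
    exact h1.symm
  rintro x ⟨hx, y, hxy, hy⟩ x' ⟨hx', y', hxy', hy'⟩
  have h1 := hφ x y hxy
  have h2 := hφ x' y' hxy'
  rw [if_pos hx, if_neg (not_le.2 hy)] at h1
  rw [if_pos hx', if_neg (not_le.2 hy')] at h2
  rw [h1, h2, hcL x x' hxy.mem_left hxy'.mem_left hx hx',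
    hcH y y' (hF.toIsSurf.adj_mem_right hxy) (hF.toIsSurf.adj_mem_right hxy') hy hy']

theorem D_LEV_two (x : ZMod 2) : x = 0 ∨ x = 1 := by
  revert x
  decide

/-- D-LEV. -/
theorem level_const {F : Finset (α × α × α)} (hF : IsTri F) {h : α → ℝ} {s : ℝ}
    (hL : ConnIn F {x | x ∈ vs F ∧ h x ≤ s}) (hH : ConnIn F {x | x ∈ vs F ∧ s < h x})
    {σ : α → α → ZMod 2} (hσ : ∀ a b, σ a b = σ b a)
    (hsum : ∑ t ∈ F.filter (fun t => h t.1 ≤ s ∧ h t.2.1 ≤ s ∧ h t.2.2 ≤ s), cob σ t = 1)
    {f : α → ZMod 2 → ZMod 2}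
    (hf : ∀ t ∈ F, h t.1 ≤ s → h t.2.1 ≤ s → s < h t.2.2 →
      ∀ e, f t.1 e = f t.2.1 (e + σ t.1 t.2.1)) :
    ∀ x ∈ Low F h s, ∀ x' ∈ Low F h s, ∀ e e', f x e = f x' e' := by
  classical
  have two : ∀ x : ZMod 2, x + x = 0 := fun x => CharTwo.add_self_eq_zero x
  have hg := low_const hF hL hH (g := fun x => f x 0 + f x 1) (by
    intro t ht h1 h2 h3
    have k0 := hf t ht h1 h2 h3 0
    have k1 := hf t ht h1 h2 h3 1
    rw [k0, k1]
    rcases D_LEV_two (σ t.1 t.2.1) with e | e
    · rw [e, add_zero, add_zero]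
    · rw [e, zero_add, two 1, add_comm])
  intro x hx x' hx' e e'
  rcases D_LEV_two (f x 0 + f x 1) with hc | hc
  · have hall : ∀ y ∈ Low F h s, ∀ e, f y e = f y 0 := by
      intro y hy e
      have h1 := hg y hy x hx
      rw [hc] at h1
      rcases D_LEV_two e with rfl | rfl
      · rfl
      · exact (CharTwo.add_eq_zero.1 h1).symm
    have h2 := low_const hF hL hH (g := fun x => f x 0) (by
      intro t ht h1 h2 h3
      have hlow : t.2.1 ∈ Low F h s := ⟨h2, t.2.2, ⟨t.1, hF.rot (a := t.1) (b := t.2.1) ht⟩, h3⟩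
      change f t.1 0 = f t.2.1 0
      rw [hf t ht h1 h2 h3 0]
      exact hall _ hlow _)
    rw [hall x hx e, hall x' hx' e']
    exact h2 x hx x' hx'
  · exfalso
    have hall : ∀ y ∈ Low F h s, f y 1 = f y 0 + 1 := by
      intro y hy
      have h1 := hg y hy x hx
      rw [hc] at h1
      linear_combination h1 - two (f y 0)
    set ω : α → α → ZMod 2 := fun a b => if h a ≤ s then (if h b ≤ s then σ a b else f a 0) else
      (if h b ≤ s then f b 0 else 0) with hω
    have hωs : ∀ a b, ω a b = ω b a := by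
      intro a b
      rw [hω]
      by_cases ha : h a ≤ s <;> by_cases hb : h b ≤ s <;> simp [ha, hb, hσ a b]
    have hface : ∀ a b c, (a, b, c) ∈ F → h a ≤ s → h b ≤ s → ¬ h c ≤ s →
        σ a b + f a 0 + f b 0 = 0 := by
      intro a b c habc ha hb hc'
      have k := hf _ habc ha hb (not_le.1 hc') 0
      simp only [zero_add] at k
      have hlow : b ∈ Low F h s := ⟨hb, c, ⟨a, hF.rot habc⟩, not_le.1 hc'⟩
      rw [k]
      rcases D_LEV_two (σ a b) with e | e
      · rw [e, zero_add]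
        exact two _
      · rw [e, hall b hlow]
        linear_combination two 1 + two (f b 0)
    have hcob : ∀ t ∈ F, cob ω t =
        if h t.1 ≤ s ∧ h t.2.1 ≤ s ∧ h t.2.2 ≤ s then cob σ t else 0 := by
      rintro ⟨a, b, c⟩ habc
      have k1 := hface a b c habc
      have k2 := hface b c a (hF.rot habc)
      have k3 := hface c a b (hF.toIsSurf.rot2 habc)
      unfold cob
      simp only [hω]
      by_cases ha : h a ≤ s <;> by_cases hb : h b ≤ s <;> by_cases hc' : h c ≤ s <;>
        simp only [ha, hb, hc', if_true, if_false, add_zero, zero_add, two, true_and, false_and,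
          and_true, and_false]
      · linear_combination k1 ha hb hc'
      · linear_combination k3 hc' ha hb
      · linear_combination k2 hb hc' ha
    have h1 : ∑ t ∈ F, cob ω t = 1 := by
      rw [sum_congr rfl hcob, ← sum_filter, hsum]
    have h2 : ∑ t ∈ F, cob ω t = 0 := by
      unfold cob
      rw [sum_add_distrib, sum_add_distrib]
      have r0 := sum_sym_zero hF.toIsSurf ω hωs
      have r1 := sum_rot hF.toIsSurf (fun t => ω t.1 t.2.1)
      have r2 := sum_rot hF.toIsSurf (fun t => ω t.2.1 t.2.2)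
      simp only at r1 r2
      rw [r2, r1, r0]
      decide
    rw [h1] at h2
    exact one_ne_zero h2

end H19S.PD
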