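import Pool.Agent.Lib.H19S.DDefs

/-!
# H19S, Part D, chunks D-PART and D-MIN: summation by parts, minimum principle

D-PART. Write `∑_{y ∈ N x} f x (g y - g x)`; by symmetry of `N` the double sum over the darts
`S = V.sigma N` (or `V ×ˢ V` filtered by `y ∈ N x`) is invariant under exchanging `x` and `y`
(`Finset.sum_comm'` : `x ∈ V ∧ y ∈ N x ↔ y ∈ V ∧ x ∈ N y`), so
`∑ f x (g y - g x) = ∑ f y (g x - g y)`, and the sum of the two is `- ∑ (f y - f x)(g y - g x)`.

D-MIN. If `w` is negative somewhere on `D`, let `m < 0` be the minimum of `w` on `D`, attained at `x`.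
Claim: every point reachable from `x` lies in `D` and has `w = m` (contradiction to `hr`). One step: if
`p ∈ D`, `w p = m`, all `y ∈ N p` have `w y ≥ m` (in `D`: minimum; outside: `0 ≤ w y` by `hb`) and
`∑ (w y - w p) ≤ 0`, so all `w y = m` (`Finset.sum_eq_zero_iff_of_nonneg`), and `y ∈ D`, because otherwise
`0 ≤ w y = m < 0`.
-/

namespace H19S.PD

open Finset

variable {β : Type*} [DecidableEq β]

theorem dpart_swap {V : Finset β} {N : β → Finset β} (hG : IsGr V N) (F : β → β → ℝ) :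
    ∑ x ∈ V, ∑ y ∈ N x, F x y = ∑ x ∈ V, ∑ y ∈ N x, F y x := by
  apply Finset.sum_comm'
  intro x y
  constructor
  · rintro ⟨hx, hy⟩
    exact ⟨hG.symm x hx y hy, hG.sub x hx hy⟩
  · rintro ⟨hx, hy⟩
    exact ⟨hG.sub y hy hx, hG.symm y hy x hx⟩

/-- D-PART. -/
theorem sum_parts {V : Finset β} {N : β → Finset β} (hG : IsGr V N) (f g : β → ℝ) :
    ∑ x ∈ V, f x * nlap N g x
      = -((∑ x ∈ V, ∑ y ∈ N x, (f y - f x) * (g y - g x)) / 2) := by
  have h1 : ∑ x ∈ V, f x * nlap N g x = ∑ x ∈ V, ∑ y ∈ N x, f x * (g y - g x) := by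
    apply Finset.sum_congr rfl
    intro x _
    rw [nlap, Finset.mul_sum]
  have h2 := dpart_swap hG (fun x y => f x * (g y - g x))
  have h3 : (∑ x ∈ V, ∑ y ∈ N x, f x * (g y - g x)) + ∑ x ∈ V, ∑ y ∈ N x, f y * (g x - g y) =
      - ∑ x ∈ V, ∑ y ∈ N x, (f y - f x) * (g y - g x) := by
    rw [← Finset.sum_add_distrib, ← Finset.sum_neg_distrib]
    apply Finset.sum_congr rfl
    intro x _
    rw [← Finset.sum_add_distrib, ← Finset.sum_neg_distrib]
    apply Finset.sum_congr rfl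
    intro y _
    ring
  rw [← h2] at h3
  rw [h1]
  linarith

/-- D-MIN. -/
theorem min_principle {N : β → Finset β} {D : Finset β} {w : β → ℝ}
    (hs : ∀ x ∈ D, nlap N w x ≤ 0) (hb : ∀ x ∈ D, ∀ y ∈ N x, y ∉ D → 0 ≤ w y)
    (hr : ∀ x ∈ D, ∃ y, y ∉ D ∧ Relation.ReflTransGen (fun p q => q ∈ N p) x y) :
    ∀ x ∈ D, 0 ≤ w x := by
  by_contra hcon
  push Not at hcon
  obtain ⟨x0, hx0, hneg⟩ := hcon
  obtain ⟨x, hx, hmin⟩ := Finset.exists_min_image D w ⟨x0, hx0⟩
  have hm : w x < 0 := lt_of_le_of_lt (hmin x0 hx0) hneg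
  obtain ⟨y, hy, hp⟩ := hr x hx
  have key : ∀ z, Relation.ReflTransGen (fun p q => q ∈ N p) x z → z ∈ D ∧ w z = w x := by
    intro z hz
    induction hz with
    | refl => exact ⟨hx, rfl⟩
    | @tail b c _ hbc ih =>
      obtain ⟨hbD, hwb⟩ := ih
      have hge : ∀ y ∈ N b, 0 ≤ w y - w b := by
        intro y hy
        by_cases hyD : y ∈ D
        · have := hmin y hyD
          linarith
        · have := hb b hbD y hy hyD
          linarith
      have hle := hs b hbD
      have h0 : ∑ y ∈ N b, (w y - w b) = 0 :=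
        le_antisymm hle (Finset.sum_nonneg hge)
      have hc := (Finset.sum_eq_zero_iff_of_nonneg hge).1 h0 c hbc
      have hwc : w c = w x := by linarith
      refine ⟨?_, hwc⟩
      by_contra hcD
      have := hb b hbD c hbc hcD
      linarith
  exact hy (key y hp).1

end H19S.PD
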