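import Pool.Agent.Lib.H19S.DHit
import Pool.Agent.Lib.H19S.DPart

/-!
# H19S, Part D, chunk D-LOW: lower bound of hitting probabilities by (sub)harmonic functions

PROOF. `w = hp - g` satisfies on the finite set `E = D \ A`: `nlap w x = 0 - nlap g x ≤ 0` (`hp_harm`); for a
neighbour `y ∉ E` of `x ∈ E`: if `y ∈ A`, `hp y = 1 ≥ g y`; else `y ∉ D`, `hp y = 0 ≥ g y`. Apply `min_principle`.
-/

namespace H19S.PD

open Finset

variable {β : Type*} [DecidableEq β]

/-- D-LOW. -/
theorem hp_ge {N : β → Finset β} {D A : Set β} {E : Finset β} (hE : ∀ x, x ∈ E ↔ x ∈ D ∧ x ∉ A)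
    (g : β → ℝ) (hg : ∀ x ∈ E, 0 ≤ nlap N g x) (hA : ∀ x ∈ E, ∀ y ∈ N x, y ∈ A → g y ≤ 1)
    (ho : ∀ x ∈ E, ∀ y ∈ N x, y ∉ D → y ∉ A → g y ≤ 0) (hne : ∀ x ∈ E, (N x).Nonempty)
    (hr : ∀ x ∈ E, ∃ y, y ∉ E ∧ Relation.ReflTransGen (fun p q => q ∈ N p) x y) :
    ∀ x ∈ E, g x ≤ hp N D A x := by
  have key : ∀ x ∈ E, 0 ≤ hp N D A x - g x := by
    refine min_principle (N := N) (D := E) (w := fun x => hp N D A x - g x) ?_ ?_ hr
    · intro x hx
      have h1 : nlap N (hp N D A) x = 0 := hp_harm ((hE x).1 hx).1 ((hE x).1 hx).2 (hne x hx)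
      have h2 : nlap N (fun x => hp N D A x - g x) x = nlap N (hp N D A) x - nlap N g x := by
        unfold nlap
        rw [← Finset.sum_sub_distrib]
        exact Finset.sum_congr rfl fun y _ => by ring
      have h3 := hg x hx
      rw [h2, h1]
      linarith
    · intro x hx y hy hyE
      by_cases hyA : y ∈ A
      · have := hA x hx y hy hyA
        have h4 : hp N D A y = 1 := hp_mem N D hyA
        show 0 ≤ hp N D A y - g y
        rw [h4]; linarith
      · have hyD : y ∉ D := fun h => hyE ((hE y).2 ⟨h, hyA⟩)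
        have := ho x hx y hy hyD hyA
        have h4 : hp N D A y = 0 := hp_out N hyD hyA
        show 0 ≤ hp N D A y - g y
        rw [h4]; linarith
  intro x hx
  have := key x hx
  linarith

end H19S.PD
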