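import Pool.Agent.Lib.H19S.DDefs
import Pool.Agent.Lib.H19S.A0

/-!
# H19S, Part D, chunk D-NBR: the graph of a triangulation

`nbr_isGr`: symmetry from `IsSurf.adj_symm`; `nbr F x ⊆ vs F` from `IsSurf.adj_mem_right`; nonempty since
`x ∈ vs F` (A0: `mem_nbr`, `mem_vs`). `dart_sum`: `sum_vs` and `IsSurf.sum_nbr`. `lap_eq`: `IsSurf.sum_nbr`.
`sum_rot`: `t ↦ (t.2.1, t.2.2, t.1)` is a bijection of `F` (`rot`, `rot2`). `nbr_reach`: from `conn`.
`sum_sym_zero`: the map sending `(a,b,c) ∈ F` to the face `(b,a,d) ∈ F` (`opp`, `uniq`) is a fixed point free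
involution of `F` and `ω a b + ω b a = 0` in `ZMod 2` (`Finset.sum_involution`).
-/

namespace H19S.PD

open Finset

variable {α : Type*} [DecidableEq α]

theorem nbr_isGr {F : Finset (α × α × α)} (hF : IsSurf F) : IsGr (vs F) (nbr F) := by
  constructor
  · intro x _ y hy
    exact hF.adj_mem_right (mem_nbr.1 hy)
  · intro x _ y hy
    exact mem_nbr.2 (hF.adj_symm (mem_nbr.1 hy))
  · intro x hx
    obtain ⟨a, b, h⟩ := mem_vs.1 hx
    exact ⟨a, mem_nbr.2 ⟨b, h⟩⟩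

theorem dart_sum {F : Finset (α × α × α)} (hF : IsSurf F) (f : α → α → ℝ) :
    ∑ x ∈ vs F, ∑ y ∈ nbr F x, f x y = ∑ t ∈ F, f t.1 t.2.1 := by
  rw [← sum_vs]
  refine sum_congr rfl fun x _ => ?_
  rw [← hF.sum_nbr x (f x)]
  refine sum_congr rfl fun t ht => ?_
  rw [(mem_filter.1 ht).2]

theorem lap_eq {F : Finset (α × α × α)} (hF : IsSurf F) (g : α → ℝ) (x : α) :
    lap F g x = nlap (nbr F) g x := by
  unfold lap nlap
  exact hF.sum_nbr x (fun y => g y - g x)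

theorem nbr_reach {F : Finset (α × α × α)} (hF : IsSurf F) {x y : α} (hx : x ∈ vs F)
    (hy : y ∈ vs F) : Relation.ReflTransGen (fun p q => q ∈ nbr F p) x y :=
  Relation.ReflTransGen.mono (fun _ _ h => mem_nbr.2 h) _ _ (hF.conn hx hy)

theorem conn_vs {F : Finset (α × α × α)} (hF : IsSurf F) : ConnIn F {x | x ∈ vs F} := by
  intro x hx y hy
  exact Relation.ReflTransGen.mono (fun _ _ h => ⟨hF.adj_mem_right h, h⟩) _ _ (hF.conn hx hy)

theorem sum_rot {F : Finset (α × α × α)} (hF : IsSurf F) {M : Type*} [AddCommMonoid M]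
    (f : α × α × α → M) : ∑ t ∈ F, f (t.2.1, t.2.2, t.1) = ∑ t ∈ F, f t := by
  refine sum_nbij' (fun t => (t.2.1, t.2.2, t.1)) (fun t => (t.2.2, t.1, t.2.1)) ?_ ?_ ?_ ?_ ?_
  · rintro ⟨a, b, c⟩ h
    exact hF.rot h
  · rintro ⟨a, b, c⟩ h
    exact hF.rot2 h
  · rintro ⟨a, b, c⟩ _
    rfl
  · rintro ⟨a, b, c⟩ _
    rfl
  · rintro ⟨a, b, c⟩ _
    rfl

theorem sum_sym_zero {F : Finset (α × α × α)} (hF : IsSurf F) (ω : α → α → ZMod 2)
    (hs : ∀ a b, ω a b = ω b a) : ∑ t ∈ F, ω t.1 t.2.1 = 0 := by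
  classical
  have hex : ∀ t ∈ F, ∃ d, (t.2.1, t.1, d) ∈ F := by
    rintro ⟨a, b, c⟩ h
    exact hF.opp h
  refine sum_involution (fun t ht => (t.2.1, t.1, (hex t ht).choose)) ?_ ?_ ?_ ?_
  · intro t ht
    change ω t.1 t.2.1 + ω t.2.1 t.1 = 0
    rw [hs t.2.1 t.1]
    exact CharTwo.add_self_eq_zero _
  · rintro ⟨a, b, c⟩ ht _ h
    simp only [Prod.mk.injEq] at h
    exact hF.ne ht h.2.1
  · intro t ht
    exact (hex t ht).choose_spec
  · rintro ⟨a, b, c⟩ ht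
    have h1 := (hex _ ht).choose_spec
    have h2 := (hex _ h1).choose_spec
    have h3 := hF.uniq h2 ht
    simp only [Prod.mk.injEq, true_and]
    exact h3

end H19S.PD
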