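import Pool.Agent.Lib.H19S.DNbr
import Pool.Agent.Lib.H19S.C0b

/-!
# H19S, Part D, chunk D-POT: the potential as a harmonic function in the sense of `HarmOn`; the cutoff

`pot_harmOn`: `lap_eq`, `IsPot.harm` (`x ≠ v` since `h v = 0 ≤ a < h x`, `x ≠ u` since `h x < b ≤ h u`),
`IsPot.grad_le`, `nbr_reach` to `v`.
`chi_energy`: `chi = (c1 - c2 + 17)/8` with `c1, c2` truncations of `h` to intervals of length 8, both monotone
functions of `h`, so `Δc1 * Δc2 ≥ 0` and `(Δc1 - Δc2)^2 ≤ (Δc1)^2 + (Δc2)^2`; `∑_{t ∈ F} (Δc)^2 = 2 energy ≤ 16`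
(`IsPot.energy_clamp`); total `(16 + 16)/64`.
-/

namespace H19S.PD

open Finset

variable {α : Type*} [DecidableEq α]

theorem pot_harmOn {F : Finset (α × α × α)} (hF : IsSurf F) {v u : α} (hv : v ∈ vs F)
    (hu : u ∈ vs F) (hvu : v ≠ u) {h : α → ℝ} (hh : IsPot F v u h) {a b : ℝ} (ha : 0 ≤ a)
    (hb : b ≤ h u) : HarmOn (vs F) (nbr F) h a b where
  gr := nbr_isGr hF
  lip := fun _ _ _ hy => hh.grad_le hF hv hu hvu (mem_nbr.1 hy)
  harm := fun x hx h1 h2 => by
    rw [← lap_eq hF]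
    refine hh.harm x hx ?_ ?_
    · rintro rfl
      rw [hh.zero] at h1
      linarith
    · rintro rfl
      linarith
  exit := fun _ hx => ⟨v, hv, by rw [hh.zero]; exact ha, nbr_reach hF hx hv⟩

theorem chi_eq_one {h : α → ℝ} {lo : ℝ} {x : α} (h1 : lo + 8 ≤ h x) (h2 : h x ≤ lo + 17) :
    chi h lo x = 1 := by
  unfold chi
  rw [min_eq_left h1, max_eq_right (by linarith : lo ≤ lo + 8),
    min_eq_right (by linarith : h x ≤ lo + 25), max_eq_left h2]
  ring

theorem chi_ne_zero {h : α → ℝ} {lo : ℝ} {x : α} (hx : chi h lo x ≠ 0) :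
    lo < h x ∧ h x < lo + 25 := by
  unfold chi at hx
  constructor
  · by_contra hcon
    push Not at hcon
    apply hx
    rw [min_eq_right (by linarith : h x ≤ lo + 8), max_eq_left hcon,
      min_eq_right (by linarith : h x ≤ lo + 25), max_eq_left (by linarith : h x ≤ lo + 17)]
    ring
  · by_contra hcon
    push Not at hcon
    apply hx
    rw [min_eq_left (by linarith : lo + 8 ≤ h x), max_eq_right (by linarith : lo ≤ lo + 8),
      min_eq_left hcon, max_eq_right (by linarith : lo + 17 ≤ lo + 25)]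
    ring

theorem DPOT_sq {a b a' b' p q : ℝ} :
    ((max a (min b q) - max a' (min b' q) + 17) / 8 -
      (max a (min b p) - max a' (min b' p) + 17) / 8) ^ 2 ≤
    ((max a (min b q) - max a (min b p)) ^ 2 + (max a' (min b' q) - max a' (min b' p)) ^ 2) / 64 := by
  have hmul : 0 ≤ (max a (min b q) - max a (min b p)) * (max a' (min b' q) - max a' (min b' p)) := by
    rcases le_total p q with h | h
    · have h1 := (C0b_clamp (a := a) (b := b) h).1
      have h2 := (C0b_clamp (a := a') (b := b') h).1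
      exact mul_nonneg h1 h2
    · have h1 := (C0b_clamp (a := a) (b := b) h).1
      have h2 := (C0b_clamp (a := a') (b := b') h).1
      nlinarith [mul_nonneg h1 h2]
  nlinarith [hmul]

theorem chi_energy {F : Finset (α × α × α)} (hF : IsSurf F) {v u : α} (hv : v ∈ vs F)
    (hu : u ∈ vs F) (hvu : v ≠ u) {h : α → ℝ} (hh : IsPot F v u h) (lo : ℝ) :
    ∑ t ∈ F, (chi h lo t.2.1 - chi h lo t.1) ^ 2 ≤ 1 / 2 := by
  have h1 := hh.energy_clamp hF hv hu hvu (a := lo) (b := lo + 8) (by linarith)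
  have h2 := hh.energy_clamp hF hv hu hvu (a := lo + 17) (b := lo + 25) (by linarith)
  unfold energy at h1 h2
  have h3 : ∑ t ∈ F, (chi h lo t.2.1 - chi h lo t.1) ^ 2 ≤
      ∑ t ∈ F, ((max lo (min (lo + 8) (h t.2.1)) - max lo (min (lo + 8) (h t.1))) ^ 2 +
        (max (lo + 17) (min (lo + 25) (h t.2.1)) - max (lo + 17) (min (lo + 25) (h t.1))) ^ 2) / 64 :=
    sum_le_sum fun t _ => DPOT_sq
  rw [← sum_div, sum_add_distrib] at h3
  linarith

end H19S.PD
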