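import Pool.Agent.Lib.H19S.DLow

/-!
# H19S, Part D, chunk D-UP: hitting bounds for harmonic functions

All by `hp_ge` with `E = V.filter ...` (`D \ A` as a finite set; classical decidability) and an affine function `g` of `k`:
`hit_down`: `g = (b - k)/(b - a + 1)`; a neighbour `y ∈ A` of `x ∈ D` has `k y ≥ k x - 1 > a - 1`; a neighbour
outside `D` and `A` has `k y ≥ b` (it is in `V` by `gr.sub`). `hit_up`: `g = (k - a)/(b - a + 1)`; a neighbour in `A` has
`k y ≤ b + 1`. `hit_low`: `A` = lower endpoints of the edges crossing the level `s`, `g = (k - a)/(s - a)`; a neighbour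
`y` of `x ∈ D \ A` has `k y ≤ s`, so `y ∈ D` or `k y ≤ a`; if `x ∈ A` then `hp = 1 ≥ g x`.
Reachability: `HarmOn.exit`. Harmonicity of `g`: `nlap` is linear.
-/

namespace H19S.PD

open Finset

variable {β : Type*} [DecidableEq β]

theorem d_up_nlap (N : β → Finset β) (k : β → ℝ) (c d : ℝ) (x : β) :
    nlap N (fun y => c * k y + d) x = c * nlap N k x := by
  unfold nlap
  rw [Finset.mul_sum]
  apply Finset.sum_congr rfl
  intro y _
  ring

theorem hit_down {V : Finset β} {N : β → Finset β} {k : β → ℝ} {a b : ℝ}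
    (hk : HarmOn V N k a b) {x : β} (hx : x ∈ V) (h1 : a < k x) (h2 : k x < b) :
    (b - k x) / (b - a + 1)
      ≤ hp N {y | y ∈ V ∧ a < k y ∧ k y < b} {y | y ∈ V ∧ k y ≤ a} x := by
  classical
  have hpos : 0 < b - a + 1 := by linarith
  have hE : ∀ x, x ∈ V.filter (fun y => a < k y ∧ k y < b) ↔
      x ∈ {y | y ∈ V ∧ a < k y ∧ k y < b} ∧ x ∉ {y | y ∈ V ∧ k y ≤ a} := by
    intro x
    simp only [Finset.mem_filter, Set.mem_setOf_eq]
    constructor
    · rintro ⟨h1, h2, h3⟩
      exact ⟨⟨h1, h2, h3⟩, fun h => not_lt.2 h.2 h2⟩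
    · rintro ⟨h1, _⟩
      exact h1
  have key := hp_ge (N := N) hE (fun y => (-(1 / (b - a + 1))) * k y + b / (b - a + 1)) ?_ ?_ ?_ ?_ ?_
    x (by simp [hx, h1, h2])
  · refine le_trans (le_of_eq ?_) key
    field_simp
    ring
  · intro z hz
    simp only [Finset.mem_filter] at hz
    rw [d_up_nlap, hk.harm z hz.1 hz.2.1 hz.2.2, mul_zero]
  · intro z hz y hy hyA
    simp only [Finset.mem_filter] at hz
    have hl := abs_le.1 (hk.lip z hz.1 y hy)
    have : -(1 / (b - a + 1)) * k y + b / (b - a + 1) = (b - k y) / (b - a + 1) := by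
      field_simp
      ring
    rw [this, div_le_one hpos]
    linarith [hl.1]
  · intro z hz y hy hyD hyA
    simp only [Finset.mem_filter] at hz
    have hyV := hk.gr.sub z hz.1 hy
    simp only [Set.mem_setOf_eq, not_and, not_lt, not_le] at hyD hyA
    have hb := hyD hyV (hyA hyV)
    have : -(1 / (b - a + 1)) * k y + b / (b - a + 1) = (b - k y) / (b - a + 1) := by
      field_simp
      ring
    rw [this]
    apply div_nonpos_of_nonpos_of_nonneg _ hpos.le
    linarith
  · intro z hz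
    simp only [Finset.mem_filter] at hz
    exact hk.gr.ne z hz.1
  · intro z hz
    simp only [Finset.mem_filter] at hz
    obtain ⟨y, hy, hya, hr⟩ := hk.exit z hz.1
    refine ⟨y, ?_, hr⟩
    simp only [Finset.mem_filter, not_and, not_lt]
    intro _ h
    linarith

theorem hit_up {V : Finset β} {N : β → Finset β} {k : β → ℝ} {a b : ℝ}
    (hk : HarmOn V N k a b) {x : β} (hx : x ∈ V) (h1 : a < k x) (h2 : k x < b) :
    (k x - a) / (b - a + 1)
      ≤ hp N {y | y ∈ V ∧ a < k y ∧ k y < b} {y | y ∈ V ∧ b ≤ k y} x := by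
  classical
  have hpos : 0 < b - a + 1 := by linarith
  have hE : ∀ x, x ∈ V.filter (fun y => a < k y ∧ k y < b) ↔
      x ∈ {y | y ∈ V ∧ a < k y ∧ k y < b} ∧ x ∉ {y | y ∈ V ∧ b ≤ k y} := by
    intro x
    simp only [Finset.mem_filter, Set.mem_setOf_eq]
    constructor
    · rintro ⟨h1, h2, h3⟩
      exact ⟨⟨h1, h2, h3⟩, fun h => not_lt.2 h.2 h3⟩
    · rintro ⟨h1, _⟩
      exact h1
  have hform : ∀ y, (1 / (b - a + 1)) * k y + -(a / (b - a + 1)) = (k y - a) / (b - a + 1) := by
    intro y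
    field_simp
    ring
  have key := hp_ge (N := N) hE (fun y => (1 / (b - a + 1)) * k y + -(a / (b - a + 1))) ?_ ?_ ?_ ?_ ?_
    x (by simp [hx, h1, h2])
  · simp only [hform] at key
    exact key
  · intro z hz
    simp only [Finset.mem_filter] at hz
    rw [d_up_nlap, hk.harm z hz.1 hz.2.1 hz.2.2, mul_zero]
  · intro z hz y hy hyA
    simp only [Finset.mem_filter] at hz
    have hl := abs_le.1 (hk.lip z hz.1 y hy)
    simp only [hform]
    rw [div_le_one hpos]
    linarith [hl.2]
  · intro z hz y hy hyD hyA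
    simp only [Finset.mem_filter] at hz
    have hyV := hk.gr.sub z hz.1 hy
    simp only [Set.mem_setOf_eq, not_and, not_lt, not_le] at hyD hyA
    have hb : k y ≤ a := by
      by_contra hc
      push Not at hc
      exact absurd (hyD hyV hc) (not_le.2 (hyA hyV))
    simp only [hform]
    apply div_nonpos_of_nonpos_of_nonneg _ hpos.le
    linarith
  · intro z hz
    simp only [Finset.mem_filter] at hz
    exact hk.gr.ne z hz.1
  · intro z hz
    simp only [Finset.mem_filter] at hz
    obtain ⟨y, hy, hya, hr⟩ := hk.exit z hz.1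
    refine ⟨y, ?_, hr⟩
    simp only [Finset.mem_filter, not_and, not_lt]
    intro _ h
    linarith

theorem hit_low {V : Finset β} {N : β → Finset β} {k : β → ℝ} {a b s : ℝ}
    (hk : HarmOn V N k a b) (hs : s < b) {x : β} (hx : x ∈ V) (h1 : a < k x) (h2 : k x ≤ s) :
    (k x - a) / (s - a)
      ≤ hp N {y | y ∈ V ∧ a < k y ∧ k y ≤ s} {y | y ∈ V ∧ k y ≤ s ∧ ∃ z ∈ N y, s < k z} x := by
  classical
  have hpos : 0 < s - a := by linarith
  by_cases hxA : ∃ z ∈ N x, s < k z
  · rw [hp_mem N _ (show x ∈ {y | y ∈ V ∧ k y ≤ s ∧ ∃ z ∈ N y, s < k z} from ⟨hx, h2, hxA⟩)]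
    rw [div_le_one hpos]
    linarith
  have hE : ∀ x, x ∈ V.filter (fun y => (a < k y ∧ k y ≤ s) ∧ ¬ ∃ z ∈ N y, s < k z) ↔
      x ∈ {y | y ∈ V ∧ a < k y ∧ k y ≤ s} ∧ x ∉ {y | y ∈ V ∧ k y ≤ s ∧ ∃ z ∈ N y, s < k z} := by
    intro x
    simp only [Finset.mem_filter, Set.mem_setOf_eq]
    constructor
    · rintro ⟨h1, h2, h3⟩
      exact ⟨⟨h1, h2⟩, fun h => h3 h.2.2⟩
    · rintro ⟨h1, h2⟩
      exact ⟨h1.1, h1.2, fun h => h2 ⟨h1.1, h1.2.2, h⟩⟩
  have hform : ∀ y, (1 / (s - a)) * k y + -(a / (s - a)) = (k y - a) / (s - a) := by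
    intro y
    field_simp
    ring
  have key := hp_ge (N := N) hE (fun y => (1 / (s - a)) * k y + -(a / (s - a))) ?_ ?_ ?_ ?_ ?_
    x (by simp only [Finset.mem_filter]; exact ⟨hx, ⟨h1, h2⟩, hxA⟩)
  · simp only [hform] at key
    exact key
  · intro z hz
    simp only [Finset.mem_filter] at hz
    rw [d_up_nlap, hk.harm z hz.1 hz.2.1.1 (by linarith [hz.2.1.2]), mul_zero]
  · intro z hz y hy hyA
    simp only [hform]
    rw [div_le_one hpos]
    linarith [hyA.2.1]
  · intro z hz y hy hyD hyA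
    simp only [Finset.mem_filter] at hz
    have hyV := hk.gr.sub z hz.1 hy
    have hys : k y ≤ s := by
      by_contra hc
      push Not at hc
      exact hz.2.2 ⟨y, hy, hc⟩
    have hb : k y ≤ a := by
      by_contra hc
      push Not at hc
      exact hyD ⟨hyV, hc, hys⟩
    simp only [hform]
    apply div_nonpos_of_nonpos_of_nonneg _ hpos.le
    linarith
  · intro z hz
    simp only [Finset.mem_filter] at hz
    exact hk.gr.ne z hz.1
  · intro z hz
    simp only [Finset.mem_filter] at hz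
    obtain ⟨y, hy, hya, hr⟩ := hk.exit z hz.1
    refine ⟨y, ?_, hr⟩
    simp only [Finset.mem_filter, not_and]
    intro _ h
    linarith [h.1]

end H19S.PD
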