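import Mathlib

/-!
# H19S (problem MP_8001a2_pr): limits of circle packings of random triangulations are singular

DEFINITIONS.  A simple triangulation of the sphere is given by the finite set `F` of its positively
oriented faces, each face `abc` being listed three times, as `(a,b,c)`, `(b,c,a)`, `(c,a,b)`.
-/

namespace H19S

open Finset
open scoped ENNReal

section comb

variable {α : Type*} [DecidableEq α]

/-- The set of vertices of a set of oriented faces. -/
def vs (F : Finset (α × α × α)) : Finset α := F.image fun t => t.1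

/-- Adjacency: `(x, y)` is a side of some face. -/
def Adj (F : Finset (α × α × α)) (x y : α) : Prop := ∃ z, (x, y, z) ∈ F

/-- `F` is the set of oriented faces of a connected closed oriented triangulated surface without
loops and multiple edges. -/
structure IsSurf (F : Finset (α × α × α)) : Prop where
  rot : ∀ {a b c : α}, (a, b, c) ∈ F → (b, c, a) ∈ F
  ne : ∀ {a b c : α}, (a, b, c) ∈ F → a ≠ b
  uniq : ∀ {a b c d : α}, (a, b, c) ∈ F → (a, b, d) ∈ F → c = d
  opp : ∀ {a b c : α}, (a, b, c) ∈ F → ∃ d, (b, a, d) ∈ F
  link : ∀ {v a b a' b' : α}, (v, a, b) ∈ F → (v, a', b') ∈ F →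
    Relation.ReflTransGen (fun x y => (v, x, y) ∈ F) a a'
  conn : ∀ {a b : α}, a ∈ vs F → b ∈ vs F → Relation.ReflTransGen (Adj F) a b
  nonempty : F.Nonempty

/-- `F` is the set of oriented faces of a simple triangulation of the sphere: a surface as above
with Euler characteristic `#vertices - #F/2 + #F/3 = 2`. -/
structure IsTri (F : Finset (α × α × α)) : Prop extends IsSurf F where
  euler : F.card + 12 = 6 * (vs F).card

/-- The degree of a vertex. -/
def deg (F : Finset (α × α × α)) (x : α) : ℕ := (F.filter fun t => t.1 = x).card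

/-- The set of neighbours of a vertex. -/
def nbr (F : Finset (α × α × α)) (x : α) : Finset α := (F.filter fun t => t.1 = x).image fun t => t.2.1

/-- Dirichlet energy `∑_{edges xy} (g x - g y)^2`. -/
noncomputable def energy (F : Finset (α × α × α)) (g : α → ℝ) : ℝ :=
  (∑ t ∈ F, (g t.2.1 - g t.1) ^ 2) / 2

/-- The Laplacian `∑_{y ~ x} (g y - g x)`. -/
noncomputable def lap (F : Finset (α × α × α)) (g : α → ℝ) (x : α) : ℝ :=
  ∑ t ∈ F.filter (fun t => t.1 = x), (g t.2.1 - g x)

/-- `h` is the potential of the unit flow between `v` (where `h = 0`) and `u` (where `h` is maximal). -/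
structure IsPot (F : Finset (α × α × α)) (v u : α) (h : α → ℝ) : Prop where
  zero : h v = 0
  out : ∀ x, x ∉ vs F → h x = 0
  harm : ∀ x ∈ vs F, x ≠ v → x ≠ u → lap F h x = 0
  src : lap F h v = 1

open Classical in
/-- The potential of the unit flow between `v` and `u`. -/
noncomputable def pot (F : Finset (α × α × α)) (v u : α) : α → ℝ :=
  if h : ∃ h : α → ℝ, IsPot F v u h then h.choose else fun _ => 0

/-- The throughput `(1/2) ∑_{y ~ x} |h y - h x|` of the flow at `x`. -/
noncomputable def thr (F : Finset (α × α × α)) (h : α → ℝ) (x : α) : ℝ :=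
  (∑ t ∈ F.filter (fun t => t.1 = x), |h t.2.1 - h x|) / 2

/-- `A` is connected in the graph of `F` (any two points of `A` are joined inside `A`). -/
def ConnIn (F : Finset (α × α × α)) (A : Set α) : Prop :=
  ∀ x ∈ A, ∀ y ∈ A, Relation.ReflTransGen (fun p q => q ∈ A ∧ Adj F p q) x y

/-- The faces of `F` which have no vertex in `K`. -/
def avoid (F : Finset (α × α × α)) (K : Finset α) : Finset (α × α × α) :=
  F.filter fun t => t.1 ∉ K ∧ t.2.1 ∉ K ∧ t.2.2 ∉ K

/-- One step between (oriented, rotated) faces inside `R`: rotate, or cross the first side. -/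
def RStep (R : Finset (α × α × α)) (s t : α × α × α) : Prop :=
  t ∈ R ∧ (t = (s.2.1, s.2.2, s.1) ∨ ∃ d, t = (s.2.1, s.1, d))

open Classical in
/-- The hole of `K` at `y`: all faces of `F` without vertex in `K` which can be reached from a face
at `y` by crossing sides of faces, never using a face with a vertex in `K`. -/
noncomputable def hole (F : Finset (α × α × α)) (K : Finset α) (y : α) : Finset (α × α × α) :=
  (avoid F K).filter fun t => ∃ b c, (y, b, c) ∈ avoid F K ∧
    Relation.ReflTransGen (RStep (avoid F K)) (y, b, c) t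

/-- The inner vertices of a set `R` of faces of `F`: all faces around the vertex are in `R`. -/
def inner (F R : Finset (α × α × α)) : Finset α :=
  (vs R).filter fun x => ∀ t ∈ F, t.1 = x → t ∈ R

/-- The boundary of `R ⊆ F`: the oriented sides `(a, b)` with a face of `R` on the left and no face
of `R` on the right. -/
def bd (R : Finset (α × α × α)) : Finset (α × α) :=
  (R.image fun t => (t.1, t.2.1)).filter fun e => ∀ t ∈ R, (t.1, t.2.1) ≠ (e.2, e.1)

/-- The cone with apex `o` over the reversed boundary `B`; `R ∪ cone o (bd R)` closes `R`. -/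
def cone (o : α) (B : Finset (α × α)) : Finset (α × α × α) :=
  B.image (fun e => (e.2, e.1, o)) ∪ B.image (fun e => (e.1, o, e.2)) ∪
    B.image (fun e => (o, e.2, e.1))

/-- The vertices of a set of oriented sides. -/
def vb (B : Finset (α × α)) : Finset α := B.image (fun e => e.1) ∪ B.image (fun e => e.2)

/-- `B` is a simple directed cycle of length at least three. -/
structure IsCyc (B : Finset (α × α)) : Prop where
  card : 3 ≤ B.card
  outu : ∀ {a b c : α}, (a, b) ∈ B → (a, c) ∈ B → b = c
  inu : ∀ {a b c : α}, (b, a) ∈ B → (c, a) ∈ B → b = c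
  orbit : ∀ {a b c d : α}, (a, b) ∈ B → (c, d) ∈ B →
    Relation.ReflTransGen (fun x y => (x, y) ∈ B) b c

/-- Relabelling of faces. -/
def map3 {β : Type*} (f : α → β) (t : α × α × α) : β × β × β := (f t.1, f t.2.1, f t.2.2)

/-- Relabelling of a set of faces. -/
def relab {β : Type*} [DecidableEq β] (f : α → β) (F : Finset (α × α × α)) : Finset (β × β × β) :=
  F.image (map3 f)

/-- The relabelling by a permutation. -/
def prel (ρ : Equiv.Perm α) (F : Finset (α × α × α)) : Finset (α × α × α) := relab (fun x => ρ x) F

end comb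

section walks

variable {β : Type*} [DecidableEq β]

/-- Weight of a walk of the simple random walk of a locally finite graph with neighbour sets `N`:
product of `1 / degree` over all vertices but the last one (zero if the list is not a walk). -/
noncomputable def wt (N : β → Finset β) : List β → ℝ≥0∞
  | [] => 0
  | [_] => 1
  | x :: y :: l => (if y ∈ N x then ((N x).card : ℝ≥0∞)⁻¹ else 0) * wt N (y :: l)

open Classical in
/-- Total weight of a set of walks. -/
noncomputable def W (N : β → Finset β) (G : Set (List β)) : ℝ≥0∞ :=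
  ∑' p : List β, if p ∈ G then wt N p else 0

/-- No element of `G` is a proper prefix of another one. -/
def PrefixFree (G : Set (List β)) : Prop := ∀ p ∈ G, ∀ q ∈ G, p <+: q → p = q

end walks

section finite

open Classical in
/-- All simple triangulations with vertex set `S`. -/
noncomputable def LabS (S : Finset ℕ) : Finset (Finset (ℕ × ℕ × ℕ)) :=
  (S ×ˢ S ×ˢ S).powerset.filter fun F => IsTri F ∧ vs F = S

/-- All simple triangulations with vertex set `{0, ..., n-1}`. -/
noncomputable def Lab (n : ℕ) : Finset (Finset (ℕ × ℕ × ℕ)) := LabS (range n)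

open Classical in
/-- All simple triangulations with `n` vertices, labelled by elements of `{0, ..., N-1}`, the labels
`0`, `1` and `2` being used. -/
noncomputable def LabN (N n : ℕ) : Finset (Finset (ℕ × ℕ × ℕ)) :=
  (range N ×ˢ range N ×ˢ range N).powerset.filter fun F =>
    IsTri F ∧ {0, 1, 2} ⊆ vs F ∧ (vs F).card = n

end finite

section packings

variable {α : Type*} [DecidableEq α]

/-- The unit sphere of `ℝ³`, with the chordal distance. -/
abbrev S2 : Type := Metric.sphere (0 : EuclideanSpace ℝ (Fin 3)) 1

/-- `(c, r)` is a circle packing of the triangulation `F`: the closed spherical discs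
`closedBall (c x) (r x)` (chordal radius) have pairwise disjoint interiors, and two of them
meet exactly when the vertices are adjacent. -/
structure IsPacking (F : Finset (α × α × α)) (c : α → S2) (r : α → ℝ) : Prop where
  pos : ∀ x ∈ vs F, 0 < r x
  disj : ∀ x ∈ vs F, ∀ y ∈ vs F, x ≠ y →
    Disjoint (Metric.ball (c x) (r x)) (Metric.ball (c y) (r y))
  tang : ∀ x ∈ vs F, ∀ y ∈ vs F, x ≠ y →
    ((Metric.closedBall (c x) (r x) ∩ Metric.closedBall (c y) (r y)).Nonempty ↔ Adj F x y)

/-- The point `x` is regular on the scales `[rN, r0]`, for the centres of the discs. -/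
def RegPt (F : Finset (α × α × α)) (c : α → S2) (r : α → ℝ) (a A rN r0 : ℝ) (x : α) : Prop :=
  ∀ s : ℝ, rN ≤ s → s ≤ r0 →
    a * s ^ 2 * (vs F).card ≤ ((vs F).filter fun w => dist (c w) (c x) ≤ s).card ∧
    (((vs F).filter fun w => dist (c w) (c x) ≤ s).card : ℝ) ≤ A * s ^ 2 * (vs F).card ∧
    ∀ w ∈ vs F, (Metric.closedBall (c w) (r w) ∩ Metric.closedBall (c x) s).Nonempty → r w ≤ s / 10

end packings

/-- The event that `F` (with marked vertices `v = 0`, `u = 1`, `z = 2`) has a circle packing for which
`v` and `u` are regular on the scales `[rN, r0]`, `v` and `u` are at distance at least `c0` and the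
distance of `z` and `v` is between `δz` and `c1`. -/
def RegEv (a A rN r0 c0 δz c1 : ℝ) (F : Finset (ℕ × ℕ × ℕ)) : Prop :=
  ∃ (c : ℕ → S2) (r : ℕ → ℝ), IsPacking F c r ∧ RegPt F c r a A rN r0 0 ∧ RegPt F c r a A rN r0 1 ∧
    c0 ≤ dist (c 0) (c 1) ∧ δz ≤ dist (c 2) (c 0) ∧ dist (c 2) (c 0) ≤ c1

end H19S
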