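import Pool.Agent.Lib.H19S.Iface

/-!
# H19S, chunk E0: spherical caps (chordal metric) in terms of inner products

For `0 < r < 2` the closed disc `closedBall c r` of the unit sphere (chordal distance) is the set of
points `q` with `uu c r q ≥ 0`, the open disc is `uu c r q > 0`, and the boundary circle is
`uu c r q = 0`, where `uu c r q = (⟪q, c⟫ - ct r) / st r`, `ct r` and `st r` being the cosine and the
sine of the angular radius.
-/

namespace H19S

open Metric
open scoped InnerProductSpace

/-- The ambient space. -/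
abbrev E3 : Type := EuclideanSpace ℝ (Fin 3)

/-- Inner product of two points of the sphere. -/
noncomputable def ip (p q : S2) : ℝ := ⟪(p : E3), (q : E3)⟫_ℝ

theorem norm_S2 (p : S2) : ‖(p : E3)‖ = 1 := mem_sphere_zero_iff_norm.1 p.2

theorem ip_self (p : S2) : ip p p = 1 := by
  unfold ip
  rw [real_inner_self_eq_norm_sq, norm_S2]
  norm_num

theorem ip_comm (p q : S2) : ip p q = ip q p := by
  unfold ip
  exact real_inner_comm _ _

theorem ip_le_one (p q : S2) : ip p q ≤ 1 := by
  unfold ip
  have := real_inner_le_norm (p : E3) (q : E3)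
  rw [norm_S2, norm_S2] at this
  linarith

theorem neg_one_le_ip (p q : S2) : -1 ≤ ip p q := by
  unfold ip
  have := abs_real_inner_le_norm (p : E3) (q : E3)
  rw [norm_S2, norm_S2] at this
  have := abs_le.1 this
  linarith [this.1]

theorem dist_sq (p q : S2) : dist p q ^ 2 = 2 - 2 * ip p q := by
  unfold ip
  rw [Subtype.dist_eq, dist_eq_norm, norm_sub_sq_real, norm_S2, norm_S2]
  ring

/-- Equality case. -/
theorem eq_of_ip_eq_one {p q : S2} (h : 1 ≤ ip p q) : p = q := by
  have h1 := dist_sq p q
  have h2 : dist p q ^ 2 ≤ 0 := by linarith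
  have h3 : dist p q = 0 := by
    have h4 : 0 ≤ dist p q := dist_nonneg
    nlinarith
  exact dist_eq_zero.1 h3

theorem dist_le_two (p q : S2) : dist p q ≤ 2 := by
  have h1 := dist_sq p q
  have h2 := neg_one_le_ip p q
  have h4 : 0 ≤ dist p q := dist_nonneg
  nlinarith

theorem continuous_ip (c : S2) : Continuous fun q : S2 => ip q c := by
  unfold ip
  exact continuous_subtype_val.inner continuous_const

/-- Cosine of the angular radius of a disc of chordal radius `r`. -/
noncomputable def ct (r : ℝ) : ℝ := 1 - r ^ 2 / 2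

/-- Sine of the angular radius of a disc of chordal radius `r`. -/
noncomputable def st (r : ℝ) : ℝ := r * √(1 - r ^ 2 / 4)

theorem st_pos {r : ℝ} (h0 : 0 < r) (h2 : r < 2) : 0 < st r := by
  unfold st
  refine mul_pos h0 (Real.sqrt_pos.2 ?_)
  nlinarith

theorem ct_sq_add_st_sq {r : ℝ} (h0 : 0 < r) (h2 : r < 2) : ct r ^ 2 + st r ^ 2 = 1 := by
  unfold ct st
  have h : 0 ≤ 1 - r ^ 2 / 4 := by nlinarith
  rw [mul_pow, Real.sq_sqrt h]
  ring

/-- Signed normalised height of `q` over the boundary of the disc `(c, r)`. -/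
noncomputable def uu (c : S2) (r : ℝ) (q : S2) : ℝ := (ip q c - ct r) / st r

theorem continuous_uu (c : S2) (r : ℝ) : Continuous fun q : S2 => uu c r q := by
  unfold uu
  exact ((continuous_ip c).sub continuous_const).div_const _

theorem mem_closedBall_iff {c : S2} {r : ℝ} (h0 : 0 < r) (h2 : r < 2) {q : S2} :
    q ∈ closedBall c r ↔ 0 ≤ uu c r q := by
  have hs := st_pos h0 h2
  have hd := dist_sq q c
  have hn : 0 ≤ dist q c := dist_nonneg
  rw [mem_closedBall]
  unfold uu ct
  constructor
  · intro h
    apply div_nonneg _ hs.le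
    nlinarith
  · intro h
    have h3 : 0 ≤ ip q c - (1 - r ^ 2 / 2) := by
      by_contra hc
      push Not at hc
      have := div_neg_of_neg_of_pos hc hs
      linarith
    have h4 : dist q c ^ 2 ≤ r ^ 2 := by linarith
    exact (sq_le_sq₀ hn h0.le).1 h4

theorem mem_ball_iff {c : S2} {r : ℝ} (h0 : 0 < r) (h2 : r < 2) {q : S2} :
    q ∈ ball c r ↔ 0 < uu c r q := by
  have hs := st_pos h0 h2
  have hd := dist_sq q c
  have hn : 0 ≤ dist q c := dist_nonneg
  rw [mem_ball]
  unfold uu ct
  constructor
  · intro h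
    apply div_pos _ hs
    nlinarith
  · intro h
    have h3 : 0 < ip q c - (1 - r ^ 2 / 2) := by
      by_contra hc
      push Not at hc
      have := div_nonpos_of_nonpos_of_nonneg hc hs.le
      linarith
    have h4 : dist q c ^ 2 < r ^ 2 := by linarith
    exact (sq_lt_sq₀ hn h0.le).1 h4

theorem uu_eq_zero_iff' {c : S2} {r : ℝ} (h0 : 0 < r) (h2 : r < 2) {q : S2} :
    uu c r q = 0 ↔ ip q c = ct r := by
  have hs := st_pos h0 h2
  unfold uu
  rw [div_eq_zero_iff]
  constructor
  · rintro (h | h)
    · linarith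
    · exact absurd h hs.ne'
  · intro h
    left
    linarith

theorem uu_eq_zero_iff {c : S2} {r : ℝ} (h0 : 0 < r) (h2 : r < 2) {q : S2} :
    uu c r q = 0 ↔ dist q c = r := by
  rw [uu_eq_zero_iff' h0 h2]
  have hd := dist_sq q c
  have hn : 0 ≤ dist q c := dist_nonneg
  unfold ct
  constructor
  · intro h
    have h4 : dist q c ^ 2 = r ^ 2 := by rw [hd, h]; ring
    exact (sq_eq_sq₀ hn h0.le).1 h4
  · intro h
    rw [h] at hd
    linarith

end H19S
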