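import Pool.Agent.Lib.H19S.E0

/-!
# H19S, chunk E1: great circle arcs, connectedness of discs and circles, subdiscs
-/

namespace H19S

open Metric
open scoped InnerProductSpace

private theorem e1_exists_orth (c : S2) : ∃ e : E3, ‖e‖ = 1 ∧ ⟪(c : E3), e⟫_ℝ = 0 := by
  have hc : (c : E3) ≠ 0 := by
    intro h
    have := norm_S2 c
    rw [h, norm_zero] at this
    norm_num at this
  have : Fact (Module.finrank ℝ E3 = 2 + 1) := ⟨by simp⟩
  have hf := Submodule.finrank_orthogonal_span_singleton (𝕜 := ℝ) (n := 2) hc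
  have hne : (ℝ ∙ (c : E3))ᗮ ≠ ⊥ := by
    intro h
    rw [h, finrank_bot] at hf
    norm_num at hf
  obtain ⟨v, hv, hv0⟩ := Submodule.exists_mem_ne_zero_of_ne_bot hne
  have hvn : ‖v‖ ≠ 0 := norm_ne_zero_iff.2 hv0
  have h0 : ⟪(c : E3), v⟫_ℝ = 0 := Submodule.mem_orthogonal_singleton_iff_inner_right.1 hv
  refine ⟨‖v‖⁻¹ • v, ?_, ?_⟩
  · rw [norm_smul, norm_inv, norm_norm, inv_mul_cancel₀ hvn]
  · rw [inner_smul_right, h0, mul_zero]

/-- (chunk E1) Polar coordinates around `c`: every `q` is `cos θ c + sin θ e` with `e ⟂ c` a unit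
vector and `0 ≤ θ ≤ π`, `cos θ = ip q c`.  (`q ≠ ± c`: `θ = arccos (ip q c)`,
`e = (q - cos θ c) / sin θ`; `q = ± c`: any unit vector orthogonal to `c`; it exists since the dimension
is `3 > 1`.) -/
theorem polar (c q : S2) : ∃ (e : E3) (θ : ℝ), ‖e‖ = 1 ∧ ⟪(c : E3), e⟫_ℝ = 0 ∧ 0 ≤ θ ∧
    θ ≤ Real.pi ∧ ip q c = Real.cos θ ∧ (q : E3) = Real.cos θ • (c : E3) + Real.sin θ • e := by
  have h1 := ip_le_one q c
  have h2 := neg_one_le_ip q c
  have hcos : Real.cos (Real.arccos (ip q c)) = ip q c := Real.cos_arccos h2 h1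
  have hcc : ⟪(c : E3), (c : E3)⟫_ℝ = 1 := by rw [real_inner_self_eq_norm_sq, norm_S2]; norm_num
  have hqq : ⟪(q : E3), (q : E3)⟫_ℝ = 1 := by rw [real_inner_self_eq_norm_sq, norm_S2]; norm_num
  have hqc : ⟪(q : E3), (c : E3)⟫_ℝ = ip q c := rfl
  have hcq : ⟪(c : E3), (q : E3)⟫_ℝ = ip q c := by rw [real_inner_comm]; rfl
  set v : E3 := (q : E3) - ip q c • (c : E3) with hv
  have hcv : ⟪(c : E3), v⟫_ℝ = 0 := by
    rw [hv, inner_sub_right, inner_smul_right, hcc, hcq]
    ring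
  have hvv : ‖v‖ ^ 2 = 1 - ip q c ^ 2 := by
    rw [← real_inner_self_eq_norm_sq, hv, inner_sub_left, inner_sub_right, inner_sub_right]
    simp only [inner_smul_left, inner_smul_right, RCLike.conj_to_real, hcc, hqq, hqc, hcq]
    ring
  have hsin : Real.sin (Real.arccos (ip q c)) = ‖v‖ := by
    rw [Real.sin_arccos, ← hvv, Real.sqrt_sq (norm_nonneg _)]
  have hq : (q : E3) = ip q c • (c : E3) + v := by rw [hv]; abel
  by_cases hv0 : v = 0
  · obtain ⟨e, he, hce⟩ := e1_exists_orth c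
    refine ⟨e, Real.arccos (ip q c), he, hce, Real.arccos_nonneg _, Real.arccos_le_pi _,
      hcos.symm, ?_⟩
    rw [hcos, hsin, hv0, norm_zero, zero_smul, add_zero]
    rw [hv0, add_zero] at hq
    exact hq
  · have hvn : ‖v‖ ≠ 0 := norm_ne_zero_iff.2 hv0
    refine ⟨‖v‖⁻¹ • v, Real.arccos (ip q c), ?_, ?_, Real.arccos_nonneg _, Real.arccos_le_pi _,
      hcos.symm, ?_⟩
    · rw [norm_smul, norm_inv, norm_norm, inv_mul_cancel₀ hvn]
    · rw [inner_smul_right, hcv, mul_zero]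
    · rw [hcos, hsin, smul_smul, mul_inv_cancel₀ hvn, one_smul]
      exact hq

/-- The point `cos φ c + sin φ e` of the sphere. -/
noncomputable def arc (c : S2) (e : E3) (he : ‖e‖ = 1) (hce : ⟪(c : E3), e⟫_ℝ = 0) (φ : ℝ) : S2 :=
  ⟨Real.cos φ • (c : E3) + Real.sin φ • e, by
    rw [mem_sphere_zero_iff_norm, ← sq_eq_sq₀ (norm_nonneg _) zero_le_one,
      ← real_inner_self_eq_norm_sq, inner_add_left, inner_add_right, inner_add_right]
    have h1 : ⟪(c : E3), (c : E3)⟫_ℝ = (1 : ℝ) := by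
      rw [real_inner_self_eq_norm_sq, mem_sphere_zero_iff_norm.1 c.2]; norm_num
    have h2 : ⟪e, e⟫_ℝ = (1 : ℝ) := by
      rw [real_inner_self_eq_norm_sq, he]; norm_num
    have h3 : ⟪e, (c : E3)⟫_ℝ = (0 : ℝ) := by rw [real_inner_comm]; exact hce
    simp only [inner_smul_left, inner_smul_right, h1, h2, h3, hce, RCLike.conj_to_real]
    nlinarith [Real.sin_sq_add_cos_sq φ]⟩

theorem continuous_arc (c : S2) (e : E3) (he : ‖e‖ = 1) (hce : ⟪(c : E3), e⟫_ℝ = 0) :
    Continuous (arc c e he hce) := by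
  unfold arc
  refine Continuous.subtype_mk ?_ _
  exact (Real.continuous_cos.smul continuous_const).add (Real.continuous_sin.smul continuous_const)

/-- `ip (arc φ) (arc ψ) = cos (φ - ψ)`. -/
theorem ip_arc (c : S2) (e : E3) (he : ‖e‖ = 1) (hce : ⟪(c : E3), e⟫_ℝ = 0) (φ ψ : ℝ) :
    ip (arc c e he hce φ) (arc c e he hce ψ) = Real.cos (φ - ψ) := by
  unfold ip arc
  have h1 : ⟪(c : E3), (c : E3)⟫_ℝ = (1 : ℝ) := by
    rw [real_inner_self_eq_norm_sq, mem_sphere_zero_iff_norm.1 c.2]; norm_num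
  have h2 : ⟪e, e⟫_ℝ = (1 : ℝ) := by
    rw [real_inner_self_eq_norm_sq, he]; norm_num
  have h3 : ⟪e, (c : E3)⟫_ℝ = (0 : ℝ) := by rw [real_inner_comm]; exact hce
  rw [inner_add_left, inner_add_right, inner_add_right]
  simp only [inner_smul_left, inner_smul_right, h1, h2, h3, hce, RCLike.conj_to_real]
  rw [Real.cos_sub]
  ring

theorem arc_zero (c : S2) (e : E3) (he : ‖e‖ = 1) (hce : ⟪(c : E3), e⟫_ℝ = 0) :
    arc c e he hce 0 = c := by
  unfold arc
  apply Subtype.ext
  simp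

private theorem e1_ip_arc_c (c : S2) (e : E3) (he : ‖e‖ = 1) (hce : ⟪(c : E3), e⟫_ℝ = 0) (φ : ℝ) :
    ip (arc c e he hce φ) c = Real.cos φ := by
  have h := ip_arc c e he hce φ 0
  rwa [arc_zero, sub_zero] at h

private theorem e1_dist_arc (c : S2) (e : E3) (he : ‖e‖ = 1) (hce : ⟪(c : E3), e⟫_ℝ = 0) (φ : ℝ) :
    dist (arc c e he hce φ) c ^ 2 = 2 - 2 * Real.cos φ := by
  rw [dist_sq, e1_ip_arc_c]

/-- (chunk E1) Every point `q` of the closed disc is a limit of points of the open disc: if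
`dist q c < r` trivial; if `q = arc θ` with `0 < θ ≤ π`, take `arc φ`, `φ → θ` from below:
`ip (arc φ) c = cos φ > cos θ`, so `dist (arc φ) c < dist q c ≤ r`. -/
theorem closedBall_subset_closure_ball (c : S2) {r : ℝ} (hr : 0 < r) :
    closedBall c r ⊆ closure (ball c r) := by
  intro q hq
  rw [mem_closedBall] at hq
  by_cases hlt : dist q c < r
  · exact subset_closure (mem_ball.2 hlt)
  obtain ⟨e, θ, he, hce, h0, hpi, hcos, hqe⟩ := polar c q
  have hqarc : arc c e he hce θ = q := Subtype.ext hqe.symm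
  have hθ : 0 < θ := by
    rcases h0.eq_or_lt with h | h
    · exfalso
      rw [← h, Real.cos_zero] at hcos
      have := eq_of_ip_eq_one hcos.ge
      rw [this, dist_self] at hlt
      exact hlt hr
    · exact h
  have ht : Filter.Tendsto (arc c e he hce) (nhdsWithin θ (Set.Iio θ)) (nhds q) := by
    rw [← hqarc]
    exact (continuous_arc c e he hce).continuousAt.tendsto.mono_left nhdsWithin_le_nhds
  refine mem_closure_of_tendsto ht ?_
  have hev : ∀ᶠ φ in nhdsWithin θ (Set.Iio θ), 0 < φ ∧ φ < θ := by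
    have h1 : ∀ᶠ φ in nhdsWithin θ (Set.Iio θ), φ < θ := self_mem_nhdsWithin
    have h2 : ∀ᶠ φ in nhdsWithin θ (Set.Iio θ), 0 < φ :=
      nhdsWithin_le_nhds (lt_mem_nhds hθ)
    exact h2.and h1
  filter_upwards [hev] with φ hφ
  rw [mem_ball]
  have hc : Real.cos θ < Real.cos φ :=
    Real.cos_lt_cos_of_nonneg_of_le_pi hφ.1.le hpi hφ.2
  have h1 := e1_dist_arc c e he hce φ
  have h2 := dist_sq q c
  rw [hcos] at h2
  have h3 : dist (arc c e he hce φ) c ^ 2 < dist q c ^ 2 := by linarith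
  have h4 := (sq_lt_sq₀ dist_nonneg dist_nonneg).1 h3
  linarith

/-- (chunk E1) -/
theorem not_mem_ball_of_disjoint {c c' : S2} {r r' : ℝ} (hr' : 0 < r')
    (h : Disjoint (ball c r) (ball c' r')) {q : S2} (hq : q ∈ closedBall c' r') : q ∉ ball c r := by
  intro hqc
  have h1 := closedBall_subset_closure_ball c' hr' hq
  rw [_root_.mem_closure_iff] at h1
  obtain ⟨x, hx1, hx2⟩ := h1 (ball c r) isOpen_ball hqc
  exact Set.disjoint_left.1 h hx1 hx2

private theorem e1_antipode {p c : S2} (h : 2 ≤ dist p c) : (p : E3) = -(c : E3) := by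
  have h1 := dist_sq p c
  have h2 : ip p c = -1 := by
    have := neg_one_le_ip p c
    nlinarith
  have h3 : ‖(p : E3) + (c : E3)‖ ^ 2 = 0 := by
    rw [norm_add_sq_real, norm_S2, norm_S2]
    have : ⟪(p : E3), (c : E3)⟫_ℝ = -1 := h2
    rw [this]
    ring
  have h4 : (p : E3) + (c : E3) = 0 := by
    rw [← norm_eq_zero]
    exact pow_eq_zero_iff (two_ne_zero) |>.1 h3
  exact eq_neg_of_add_eq_zero_left h4

/-- (chunk E1) If an open disc is disjoint from another open disc (of positive radius) its radius is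
less than two: otherwise it contains everything but at most the antipode of its centre; the other
disc contains at least two points. -/
theorem lt_two_of_disjoint {c c' : S2} {r r' : ℝ} (hr' : 0 < r')
    (h : Disjoint (ball c r) (ball c' r')) : r < 2 := by
  by_contra hr
  push Not at hr
  have key : ∀ p ∈ ball c' r', (p : E3) = -(c : E3) := by
    intro p hp
    apply e1_antipode
    by_contra hlt
    push Not at hlt
    exact Set.disjoint_left.1 h (mem_ball.2 (hlt.trans_le hr)) hp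
  have h1 := key c' (mem_ball_self hr')
  obtain ⟨e, he, hce⟩ := e1_exists_orth c'
  set φ := min (r' / 2) 1 with hφ
  have hφ0 : 0 < φ := lt_min (by linarith) one_pos
  have hφ1 : φ ≤ 1 := min_le_right _ _
  have hφr : φ ≤ r' / 2 := min_le_left _ _
  have hd := e1_dist_arc c' e he hce φ
  have hcos1 : 1 - φ ^ 2 / 2 ≤ Real.cos φ := Real.one_sub_sq_div_two_le_cos
  have hdle : dist (arc c' e he hce φ) c' ≤ φ := by
    have h2 : dist (arc c' e he hce φ) c' ^ 2 ≤ φ ^ 2 := by linarith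
    exact (sq_le_sq₀ dist_nonneg hφ0.le).1 h2
  have h2 := key (arc c' e he hce φ) (mem_ball.2 (by linarith))
  have h3 : arc c' e he hce φ = c' := Subtype.ext (h2.trans h1.symm)
  rw [h3, dist_self] at hd
  have hcos2 : Real.cos φ < 1 := by
    have := Real.cos_lt_cos_of_nonneg_of_le_pi (x := 0) (y := φ) le_rfl
      (by linarith [Real.pi_gt_three]) hφ0
    rwa [Real.cos_zero] at this
  linarith

/-- (chunk E1) Discs are connected: each point `q = arc θ` is joined to `c` by `arc '' [0, θ]`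
(`isPreconnected_of_forall`). -/
theorem isPreconnected_disc (c : S2) (r : ℝ) : IsPreconnected (closedBall c r) := by
  refine isPreconnected_of_forall c ?_
  intro q hq
  rw [mem_closedBall] at hq
  obtain ⟨e, θ, he, hce, h0, hpi, hcos, hqe⟩ := polar c q
  have hqarc : arc c e he hce θ = q := Subtype.ext hqe.symm
  refine ⟨arc c e he hce '' Set.Icc 0 θ, ?_, ⟨0, ⟨le_rfl, h0⟩, arc_zero c e he hce⟩,
    ⟨θ, ⟨h0, le_rfl⟩, hqarc⟩, isPreconnected_Icc.image _ (continuous_arc c e he hce).continuousOn⟩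
  rintro _ ⟨φ, ⟨hφ0, hφθ⟩, rfl⟩
  rw [mem_closedBall]
  have hc : Real.cos θ ≤ Real.cos φ := Real.cos_le_cos_of_nonneg_of_le_pi hφ0 hpi hφθ
  have h1 := e1_dist_arc c e he hce φ
  have h2 := dist_sq q c
  rw [hcos] at h2
  have h3 : dist (arc c e he hce φ) c ^ 2 ≤ dist q c ^ 2 := by linarith
  have h4 := (sq_le_sq₀ dist_nonneg dist_nonneg).1 h3
  linarith

end H19S
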