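import Pool.Agent.Lib.H19S.E9

/-!
# H19S, chunk E10: area of discs of the sphere, lower bound
-/

namespace H19S

open Finset Metric MeasureTheory
open scoped Pointwise

/-- The area measure of the unit sphere (total mass `4 π`). -/
noncomputable def sarea : Measure S2 := (volume : Measure E3).toSphere

theorem e10_sub (p : S2) {s t : ℝ} (hs : 0 < s) (hs2 : s ≤ 2) (ht1 : 1 / 2 ≤ t) (ht2 : t < 5 / 8) :
    ball (t • (p : E3)) (s / 16) ⊆ Set.Ioo (0 : ℝ) 1 • ((↑) '' (ball p s) : Set E3) := by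
  intro q hq
  have hp : ‖(p : E3)‖ = 1 := by simp
  rw [mem_ball, dist_eq_norm] at hq
  have htp : ‖t • (p : E3)‖ = t := by rw [norm_smul, hp, mul_one, Real.norm_of_nonneg (by linarith)]
  have h1 : |‖q‖ - t| < s / 16 := by
    have := abs_norm_sub_norm_le q (t • (p : E3))
    rw [htp] at this
    linarith
  have h1' := abs_lt.1 h1
  have hq0 : 0 < ‖q‖ := by linarith
  have hqne : q ≠ 0 := norm_pos_iff.1 hq0
  have hu1 : ‖(‖q‖⁻¹ • q)‖ = 1 := by rw [norm_smul, norm_inv, norm_norm, inv_mul_cancel₀ hq0.ne']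
  have hu : ‖q‖⁻¹ • q ∈ Metric.sphere (0 : E3) 1 := by simpa using hu1
  refine Set.mem_smul.2 ⟨‖q‖, ⟨hq0, by linarith⟩, ‖q‖⁻¹ • q, ⟨⟨_, hu⟩, ?_, rfl⟩, ?_⟩
  · rw [mem_ball, Subtype.dist_eq, dist_eq_norm]
    have e1 : ‖q‖⁻¹ • q - (p : E3) = (t⁻¹ * (t - ‖q‖)) • (‖q‖⁻¹ • q) + t⁻¹ • (q - t • (p : E3)) := by
      have ht0 : t ≠ 0 := by linarith
      rw [smul_sub, smul_smul t⁻¹ t, inv_mul_cancel₀ ht0, one_smul, smul_smul, ← add_sub_assoc,
        ← add_smul]
      congr 2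
      field_simp
      ring
    have ht0 : 0 < t⁻¹ := by positivity
    have ht2' : t⁻¹ ≤ 2 := by
      rw [inv_le_comm₀ (by linarith) (by norm_num)]; linarith
    calc ‖‖q‖⁻¹ • q - (p : E3)‖ ≤ ‖(t⁻¹ * (t - ‖q‖)) • (‖q‖⁻¹ • q)‖ + ‖t⁻¹ • (q - t • (p : E3))‖ := by
          rw [e1]; exact norm_add_le _ _
      _ = t⁻¹ * |‖q‖ - t| + t⁻¹ * ‖q - t • (p : E3)‖ := by
          rw [norm_smul, hu1, mul_one, norm_mul, norm_smul, Real.norm_of_nonneg ht0.le, Real.norm_eq_abs,
            abs_sub_comm]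
      _ ≤ 2 * (s / 16) + 2 * (s / 16) := by
          gcongr
      _ < s := by linarith
  · rw [smul_smul, mul_inv_cancel₀ hq0.ne', one_smul]

/-- (chunk E10) Lower bound.  PROOF.  `Measure.toSphere_apply'`: the area is `3 * volume (cone)`, cone
`= {t • a : 0 < t < 1, a ∈ disc}`.  It contains the disjoint balls of radius `s/16` centred at `t_j • p`,
`t_j = 1/2 + (j + 1/2) s/4`, `j < ⌈1/s⌉` (`t_j + s/16 < 1` for `s ≤ 2`; a point `q` of such a ball has
`‖q/‖q‖ - p‖ ≤ 2 (s/16) / t_j < s`), so `volume (cone) ≥ (1/s) (s/16)³ (4π/3)`; take e.g. `a = 1/4096`. -/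
theorem sarea_lower : ∃ a : ℝ, 0 < a ∧ ∀ (p : S2) (s : ℝ), 0 < s → s ≤ 2 →
    ENNReal.ofReal (a * s ^ 2) ≤ sarea (ball p s) := by
  set v : ℝ := (volume (ball (0 : E3) 1)).toReal with hv
  have hvfin : volume (ball (0 : E3) 1) ≠ ⊤ := measure_ball_lt_top.ne
  have hvpos : 0 < v := ENNReal.toReal_pos (measure_ball_pos _ _ one_pos).ne' hvfin
  have hvol : ∀ (x : E3) (r : ℝ), 0 < r → volume (ball x r) = ENNReal.ofReal (r ^ 3 * v) := by
    intro x r hr
    rw [Measure.addHaar_ball_of_pos _ _ hr, ENNReal.ofReal_mul (by positivity), hv,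
      ENNReal.ofReal_toReal hvfin]
    simp
  refine ⟨3 * v / 4096, by positivity, ?_⟩
  intro p s hs hs2
  have hp : ‖(p : E3)‖ = 1 := by simp
  rw [sarea, Measure.toSphere_apply' _ measurableSet_ball]
  set N := ⌈1 / s⌉₊ with hN
  set c : ℕ → E3 := fun j => (1 / 2 + j * (s / 8) : ℝ) • (p : E3) with hc
  have hsub : (⋃ j ∈ Finset.range N, ball (c j) (s / 16)) ⊆
      Set.Ioo (0 : ℝ) 1 • ((↑) '' (ball p s) : Set E3) := by
    refine Set.iUnion₂_subset ?_
    intro j hj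
    have hj' : (j : ℝ) < 1 / s := by
      have := Finset.mem_range.1 hj
      exact Nat.lt_ceil.1 this
    rw [lt_div_iff₀ hs] at hj'
    refine e10_sub p hs hs2 ?_ ?_
    · have : (0 : ℝ) ≤ j * (s / 8) := by positivity
      linarith
    · linarith
  have hdisj : Set.PairwiseDisjoint (↑(Finset.range N)) fun j => ball (c j) (s / 16) := by
    intro i _ j _ hij
    refine ball_disjoint_ball ?_
    rw [hc, dist_eq_norm]
    simp only
    rw [← sub_smul, norm_smul, hp, mul_one, Real.norm_eq_abs]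
    have e : (1 / 2 + i * (s / 8) - (1 / 2 + j * (s / 8)) : ℝ) = ((i : ℝ) - j) * (s / 8) := by ring
    rw [e, abs_mul, abs_of_pos (show 0 < s / 8 by positivity)]
    have : (1 : ℝ) ≤ |(i : ℝ) - j| := by
      have h0 : (i : ℤ) - j ≠ 0 := by
        intro h; apply hij; omega
      have := Int.one_le_abs h0
      exact_mod_cast this
    nlinarith
  have hmeas : volume (⋃ j ∈ Finset.range N, ball (c j) (s / 16)) =
      ENNReal.ofReal (N * ((s / 16) ^ 3 * v)) := by
    rw [measure_biUnion_finset hdisj (fun _ _ => measurableSet_ball)]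
    simp_rw [hvol _ _ (show 0 < s / 16 by positivity)]
    rw [Finset.sum_const, Finset.card_range, nsmul_eq_mul, ENNReal.ofReal_mul (Nat.cast_nonneg N),
      ENNReal.ofReal_natCast]
  have hNs : 1 / s ≤ N := Nat.le_ceil _
  calc ENNReal.ofReal (3 * v / 4096 * s ^ 2)
      ≤ ENNReal.ofReal (3 * (N * ((s / 16) ^ 3 * v))) := by
        apply ENNReal.ofReal_le_ofReal
        have h1 : 1 ≤ N * s := by
          rw [div_le_iff₀ hs] at hNs; exact hNs
        have h2 : (s / 16) ^ 3 = s ^ 2 * s / 4096 := by ring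
        rw [h2]
        have h3 : 3 * (↑N * (s ^ 2 * s / 4096 * v)) = 3 * v / 4096 * s ^ 2 * (N * s) := by ring
        rw [h3]
        exact le_mul_of_one_le_right (by positivity) h1
    _ = ((Module.finrank ℝ E3 : ℕ) : ENNReal) * volume (⋃ j ∈ Finset.range N, ball (c j) (s / 16)) := by
        rw [hmeas, ENNReal.ofReal_mul (by norm_num)]
        simp
    _ ≤ _ := by gcongr

end H19S
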