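import Pool.Agent.Lib.H19S.E10

/-!
# H19S, chunk E10b: area of discs of the sphere, upper bound
-/

namespace H19S

open Finset Metric MeasureTheory
open scoped Pointwise

/-- (chunk E10b) Upper bound.  For `s ≤ 1` the cone `{t • a : 0 < t < 1, a ∈ disc}` is contained in the union of the
closed balls of radius `2s` around `(j s) • p`, `0 ≤ j ≤ ⌊1/s⌋` (at most `2/s` of them), so `sarea ≤ 3 (2/s) (2s)³ (4π/3)`.
For `s ≥ 1` the total area is a constant; `s = 0`: a point (let `s → 0`). -/
theorem sarea_upper : ∃ A : ℝ, 0 < A ∧ ∀ (p : S2) (s : ℝ), 0 ≤ s →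
    sarea (closedBall p s) ≤ ENNReal.ofReal (A * s ^ 2) := by
  set v : ℝ := (volume (ball (0 : E3) 1)).toReal with hv
  have hvfin : volume (ball (0 : E3) 1) ≠ ⊤ := measure_ball_lt_top.ne
  have hvpos : 0 < v := ENNReal.toReal_pos (measure_ball_pos _ _ one_pos).ne' hvfin
  have hvol : ∀ (x : E3) (r : ℝ), 0 < r → volume (closedBall x r) = ENNReal.ofReal (r ^ 3 * v) := by
    intro x r hr
    rw [Measure.addHaar_closedBall _ _ hr.le, ENNReal.ofReal_mul (by positivity), hv,
      ENNReal.ofReal_toReal hvfin]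
    simp
  have main : ∀ (p : S2) (s : ℝ), 0 < s → s ≤ 1 → sarea (closedBall p s) ≤ ENNReal.ofReal (48 * v * s ^ 2) := by
    intro p s hs hs1
    have hp : ‖(p : E3)‖ = 1 := by simp
    rw [sarea, Measure.toSphere_apply' _ measurableSet_closedBall]
    set N := ⌊1 / s⌋₊ + 1 with hN
    set c : ℕ → E3 := fun j => (j * s : ℝ) • (p : E3) with hc
    have hsub : Set.Ioo (0 : ℝ) 1 • ((↑) '' (closedBall p s) : Set E3) ⊆
        (⋃ j ∈ Finset.range N, closedBall (c j) (2 * s)) := by
      rintro _ ⟨t, ⟨ht0, ht1⟩, _, ⟨a, ha, rfl⟩, rfl⟩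
      have hj : ⌊t / s⌋₊ < N := by
        have : ⌊t / s⌋₊ ≤ ⌊1 / s⌋₊ := Nat.floor_le_floor (by gcongr)
        omega
      refine Set.mem_iUnion₂.2 ⟨⌊t / s⌋₊, Finset.mem_range.2 hj, ?_⟩
      rw [mem_closedBall, Subtype.dist_eq, dist_eq_norm] at ha
      rw [mem_closedBall, dist_eq_norm]
      have hf1 : (⌊t / s⌋₊ : ℝ) ≤ t / s := Nat.floor_le (by positivity)
      have hf2 : t / s < ⌊t / s⌋₊ + 1 := Nat.lt_floor_add_one _
      rw [le_div_iff₀ hs] at hf1
      rw [div_lt_iff₀ hs] at hf2
      have e : t • (a : E3) - c ⌊t / s⌋₊ = t • ((a : E3) - p) + (t - ⌊t / s⌋₊ * s) • (p : E3) := by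
        rw [hc]; simp only; rw [smul_sub, sub_smul]; abel
      calc ‖t • (a : E3) - c ⌊t / s⌋₊‖ ≤ ‖t • ((a : E3) - p)‖ + ‖(t - ⌊t / s⌋₊ * s) • (p : E3)‖ := by
            rw [e]; exact norm_add_le _ _
        _ = t * ‖(a : E3) - p‖ + (t - ⌊t / s⌋₊ * s) := by
            rw [norm_smul, norm_smul, hp, mul_one, Real.norm_of_nonneg ht0.le, Real.norm_of_nonneg (by linarith)]
        _ ≤ 1 * s + s := by
            gcongr
            nlinarith
        _ = 2 * s := by ring
    have hNs : (N : ℝ) ≤ 2 / s := by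
      have h1 : (⌊1 / s⌋₊ : ℝ) ≤ 1 / s := Nat.floor_le (by positivity)
      have h2 : (1 : ℝ) ≤ 1 / s := by rw [le_div_iff₀ hs]; linarith
      have h3 : (2 : ℝ) / s = 1 / s + 1 / s := by ring
      rw [hN]; push_cast; linarith
    calc ((Module.finrank ℝ E3 : ℕ) : ENNReal) * volume (Set.Ioo (0 : ℝ) 1 • ((↑) '' (closedBall p s) : Set E3))
        ≤ ((Module.finrank ℝ E3 : ℕ) : ENNReal) * volume (⋃ j ∈ Finset.range N, closedBall (c j) (2 * s)) := by
          gcongr
      _ ≤ ((Module.finrank ℝ E3 : ℕ) : ENNReal) * ∑ j ∈ Finset.range N, volume (closedBall (c j) (2 * s)) := by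
          gcongr
          exact measure_biUnion_finset_le _ _
      _ = ENNReal.ofReal (3 * (N * ((2 * s) ^ 3 * v))) := by
          simp_rw [hvol _ _ (show 0 < 2 * s by positivity)]
          rw [Finset.sum_const, Finset.card_range, nsmul_eq_mul, ENNReal.ofReal_mul (by norm_num : (0:ℝ) ≤ 3),
            ENNReal.ofReal_mul (Nat.cast_nonneg N), ENNReal.ofReal_natCast]
          simp
      _ ≤ ENNReal.ofReal (48 * v * s ^ 2) := by
          apply ENNReal.ofReal_le_ofReal
          have h1 : N * s ≤ 2 := by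
            rw [le_div_iff₀ hs] at hNs; exact hNs
          have h3 : 3 * (↑N * ((2 * s) ^ 3 * v)) = 24 * v * s ^ 2 * (N * s) := by ring
          rw [h3]
          have h4 : 48 * v * s ^ 2 = 24 * v * s ^ 2 * 2 := by ring
          rw [h4]
          gcongr
  refine ⟨48 * v, by positivity, ?_⟩
  intro p s hs
  rcases lt_or_ge 1 s with h1 | h1
  · calc sarea (closedBall p s) ≤ sarea Set.univ := measure_mono (Set.subset_univ _)
      _ = ENNReal.ofReal (3 * v) := by
          rw [sarea, Measure.toSphere_apply_univ, ENNReal.ofReal_mul (by norm_num), hv,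
            ENNReal.ofReal_toReal hvfin]
          simp
      _ ≤ ENNReal.ofReal (48 * v * s ^ 2) := by
          apply ENNReal.ofReal_le_ofReal
          nlinarith [mul_pos hvpos (show 0 < s by linarith), mul_pos hvpos (mul_pos (show 0 < s by linarith) (show 0 < s by linarith)),
            mul_le_mul_of_nonneg_left (show (1:ℝ) ≤ s ^ 2 by nlinarith) hvpos.le]
  · rcases hs.lt_or_eq with h0 | h0
    · exact main p s h0 h1
    · subst h0
      refine le_of_forall_gt_imp_ge_of_dense ?_
      intro b hb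
      have hb0 : 0 < b := by
        refine lt_of_le_of_lt ?_ hb
        simp
      -- choose e
      rcases eq_or_ne b ⊤ with hbt | hbt
      · subst hbt; exact le_top
      have hbr : 0 < b.toReal := ENNReal.toReal_pos hb0.ne' hbt
      set e : ℝ := min 1 (b.toReal / (48 * v)) with he
      have he0 : 0 < e := lt_min one_pos (by positivity)
      have he1 : e ≤ 1 := min_le_left _ _
      calc sarea (closedBall p 0) ≤ sarea (closedBall p e) := measure_mono (closedBall_subset_closedBall he0.le)
        _ ≤ ENNReal.ofReal (48 * v * e ^ 2) := main p e he0 he1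
        _ ≤ ENNReal.ofReal b.toReal := by
            apply ENNReal.ofReal_le_ofReal
            have h2 : e ≤ b.toReal / (48 * v) := min_le_right _ _
            rw [le_div_iff₀ (by positivity)] at h2
            nlinarith [mul_pos hvpos he0]
        _ = b := ENNReal.ofReal_toReal hbt

end H19S
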