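import Pool.Agent.Lib.H19S.A0

/-!
# H19S, chunk E11: variation along a chain
-/

namespace H19S

open Finset Metric MeasureTheory

variable {α : Type*} [DecidableEq α] {F : Finset (α × α × α)}

open Classical in
/-- (chunk E11) In a connected set `A` of vertices which contains points with `g = 0` and `g = 1`, the sum of `|∇g|` over the
oriented edges inside `A` is at least one: take a simple path (or: for each level `τ ∈ (0,1)` some oriented edge inside `A` has
`g ≤ τ < g`; integrate over `τ`). -/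
theorem chain_sum (hF : IsSurf F) {A : Set α} (hA : ConnIn F A) {g : α → ℝ} {x y : α}
    (hx : x ∈ A) (hy : y ∈ A) (hgx : g x = 0) (hgy : g y = 1) :
    1 ≤ ∑ t ∈ F.filter (fun t => t.1 ∈ A ∧ t.2.1 ∈ A), |g t.2.1 - g t.1| := by
  classical
  set S := F.filter (fun t => t.1 ∈ A ∧ t.2.1 ∈ A) with hS
  have hsub : Set.Ico (0 : ℝ) 1 ⊆ ⋃ t ∈ S, Set.Ico (g t.1) (g t.2.1) := by
    intro τ hτ
    by_contra hcon
    have hno : ∀ p q : α, p ∈ A → q ∈ A → Adj F p q → g p ≤ τ → g q ≤ τ := by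
      intro p q hp hq hpq hgp
      by_contra hlt
      apply hcon
      obtain ⟨z, hz⟩ := hpq
      refine Set.mem_iUnion₂.2 ⟨(p, q, z), ?_, hgp, not_le.1 hlt⟩
      rw [hS]
      exact Finset.mem_filter.2 ⟨hz, hp, hq⟩
    have hall : ∀ z : α, Relation.ReflTransGen (fun p q => q ∈ A ∧ Adj F p q) x z →
        z ∈ A ∧ g z ≤ τ := by
      intro z hz
      induction hz with
      | refl => exact ⟨hx, hgx ▸ hτ.1⟩
      | tail _ hbc ih => exact ⟨hbc.1, hno _ _ ih.1 hbc.1 hbc.2 ih.2⟩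
    have h1 := (hall y (hA x hx y hy)).2
    rw [hgy] at h1
    exact absurd hτ.2 (not_lt.2 h1)
  have hvol : volume (Set.Ico (0 : ℝ) 1) ≤ ∑ t ∈ S, volume (Set.Ico (g t.1) (g t.2.1)) :=
    (measure_mono hsub).trans (measure_biUnion_finset_le S _)
  rw [Real.volume_Ico, sub_zero, ENNReal.ofReal_one] at hvol
  have h2 : ∑ t ∈ S, volume (Set.Ico (g t.1) (g t.2.1)) ≤
      ENNReal.ofReal (∑ t ∈ S, |g t.2.1 - g t.1|) := by
    rw [ENNReal.ofReal_sum_of_nonneg (fun _ _ => abs_nonneg _)]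
    refine Finset.sum_le_sum fun t _ => ?_
    rw [Real.volume_Ico]
    exact ENNReal.ofReal_le_ofReal (le_abs_self _)
  exact ENNReal.one_le_ofReal.1 (hvol.trans h2)

end H19S
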