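import Pool.Agent.Lib.H19S.E0

/-!
# H19S, chunk E11b: the set of radii of circles hitting a disc
-/

namespace H19S

open Finset Metric MeasureTheory

/-- The set of radii `s` for which the circle of radius `s` around `w` meets the disc `D`. -/
def hits (w c : S2) (r : ℝ) : Set ℝ := {s | ∃ q ∈ closedBall c r, dist q w = s}

/-- It is the image of a compact set under a continuous map. -/
theorem measurableSet_hits (w c : S2) (r : ℝ) : MeasurableSet (hits w c r) := by
  have h1 : hits w c r = (fun q : S2 => dist q w) '' closedBall c r := rfl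
  rw [h1]
  exact ((isCompact_closedBall c r).image (continuous_id.dist continuous_const)).measurableSet

/-- It is contained in `[dist c w - r, dist c w + r]`. -/
theorem volume_hits_le (w c : S2) {r : ℝ} (hr : 0 ≤ r) :
    volume (hits w c r) ≤ ENNReal.ofReal (2 * r) := by
  have _ := hr
  have h1 : hits w c r ⊆ Set.Icc (dist c w - r) (dist c w + r) := by
    rintro s ⟨q, hq, rfl⟩
    rw [mem_closedBall] at hq
    have h2 := dist_triangle q c w
    have h3 := dist_triangle c q w
    rw [dist_comm c q] at h3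
    constructor <;> linarith
  refine (measure_mono h1).trans ?_
  rw [Real.volume_Icc]
  exact ENNReal.ofReal_le_ofReal (by linarith)

/-- `ℓ_x`: length of the set of `s ∈ (s₁, s₂)` for which the circle meets `D_x`. -/
noncomputable def ell (w c : S2) (r s₁ s₂ : ℝ) : ℝ := (volume (hits w c r ∩ Set.Ioo s₁ s₂)).toReal

theorem ell_nonneg (w c : S2) (r s₁ s₂ : ℝ) : 0 ≤ ell w c r s₁ s₂ :=
  ENNReal.toReal_nonneg

theorem ell_le (w c : S2) {r s₁ s₂ : ℝ} (hr : 0 ≤ r) (h : s₁ ≤ s₂) :
    ell w c r s₁ s₂ ≤ min (2 * r) (s₂ - s₁) := by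
  refine le_min ?_ ?_
  · refine ENNReal.toReal_le_of_le_ofReal (by linarith) ?_
    exact (measure_mono Set.inter_subset_left).trans (volume_hits_le w c hr)
  · refine ENNReal.toReal_le_of_le_ofReal (by linarith) ?_
    exact (measure_mono Set.inter_subset_right).trans Real.volume_Ioo.le

theorem ell_eq_zero (w c : S2) {r s₁ s₂ : ℝ}
    (h : ¬ (closedBall c r ∩ ball w s₂).Nonempty) : ell w c r s₁ s₂ = 0 := by
  have h1 : hits w c r ∩ Set.Ioo s₁ s₂ = ∅ := by
    rw [Set.eq_empty_iff_forall_notMem]
    rintro s ⟨⟨q, hq, rfl⟩, hs⟩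
    exact h ⟨q, hq, mem_ball.2 hs.2⟩
  unfold ell
  rw [h1]
  simp

end H19S
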