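import Pool.Agent.Lib.H19S.E8
import Pool.Agent.Lib.H19S.E11
import Pool.Agent.Lib.H19S.E11b

/-!
# H19S, chunk E11c: the length inequality
-/

namespace H19S

open Finset Metric MeasureTheory

variable {α : Type*} [DecidableEq α] {F : Finset (α × α × α)} {c : α → S2} {r : α → ℝ}

/-- (chunk E11c) For each `s ∈ (s₁, s₂)` the vertices whose discs meet the circle `{dist · w = s}` form a connected set
(`conn_of_preconnected`, `isPreconnected_circle`) and contain points of `S₁` and of `S₂`; apply `chain_sum` and integrate over `s`: an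
oriented edge `t` contributes `|∇g| * volume {s ∈ (s₁,s₂) : both discs are met} ≤ |∇g| min (ℓ_{t.1}, ℓ_{t.2.1})`. -/
theorem IsPacking.length_sum (hF : IsTri F) (h4 : 4 ≤ (vs F).card) (hP : IsPacking F c r) {w : S2}
    {s₁ s₂ : ℝ} (h12 : s₁ ≤ s₂) {S₁ S₂ : Set α} (hS₁ : S₁ ⊆ (vs F : Set α))
    (hS₂ : S₂ ⊆ (vs F : Set α)) (hh₁ : ∀ s, s₁ < s → s < s₂ → ∃ x ∈ S₁, s ∈ hits w (c x) (r x))
    (hh₂ : ∀ s, s₁ < s → s < s₂ → ∃ x ∈ S₂, s ∈ hits w (c x) (r x)) {g : α → ℝ}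
    (hg₁ : ∀ x ∈ S₁, g x = 0) (hg₂ : ∀ x ∈ S₂, g x = 1) :
    s₂ - s₁ ≤ ∑ t ∈ F, |g t.2.1 - g t.1| *
      min (ell w (c t.1) (r t.1) s₁ s₂) (ell w (c t.2.1) (r t.2.1) s₁ s₂) := by
  classical
  set H : α × α × α → Set ℝ :=
    fun t => hits w (c t.1) (r t.1) ∩ hits w (c t.2.1) (r t.2.1) with hH
  have hHm : ∀ t, MeasurableSet (H t) := fun t =>
    (measurableSet_hits _ _ _).inter (measurableSet_hits _ _ _)
  have key : ∀ s ∈ Set.Ioo s₁ s₂,
      (1 : ℝ) ≤ ∑ t ∈ F, |g t.2.1 - g t.1| * (H t).indicator (fun _ => (1 : ℝ)) s := by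
    rintro s ⟨hs1, hs2⟩
    obtain ⟨x, hx, q, hq, hqs⟩ := hh₁ s hs1 hs2
    obtain ⟨y, hy, q', hq', hqs'⟩ := hh₂ s hs1 hs2
    have h1 := chain_sum hF.toIsSurf
      (hP.conn_of_preconnected hF h4 (isPreconnected_circle w s)) (g := g)
      (x := x) (y := y) ⟨hS₁ hx, q, hq, hqs⟩ ⟨hS₂ hy, q', hq', hqs'⟩ (hg₁ x hx) (hg₂ y hy)
    refine h1.trans ?_
    rw [sum_filter]
    refine sum_le_sum fun t ht => ?_
    split_ifs with hc
    · obtain ⟨⟨-, p, hp, hps⟩, ⟨-, p', hp', hps'⟩⟩ := hc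
      have : s ∈ H t := ⟨⟨p, hp, hps⟩, ⟨p', hp', hps'⟩⟩
      rw [Set.indicator_of_mem this, mul_one]
    · exact mul_nonneg (abs_nonneg _) (Set.indicator_nonneg (fun _ _ => zero_le_one) _)
  have hint : ∀ t ∈ F, Integrable (fun s => |g t.2.1 - g t.1| *
      (H t).indicator (fun _ => (1 : ℝ)) s) (volume.restrict (Set.Ioo s₁ s₂)) := by
    intro t _
    exact ((integrable_const (1 : ℝ)).indicator (hHm t)).const_mul _
  have h2 : ∫ _ in Set.Ioo s₁ s₂, (1 : ℝ) ≤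
      ∫ s in Set.Ioo s₁ s₂, ∑ t ∈ F, |g t.2.1 - g t.1| * (H t).indicator (fun _ => (1 : ℝ)) s := by
    refine setIntegral_mono_on (integrable_const (1 : ℝ)) (integrable_finsetSum _ hint)
      measurableSet_Ioo key
  have h3 : ∫ _ in Set.Ioo s₁ s₂, (1 : ℝ) = s₂ - s₁ := by
    rw [setIntegral_const, smul_eq_mul, mul_one, Real.volume_real_Ioo_of_le h12]
  rw [h3, integral_finsetSum _ hint] at h2
  refine h2.trans (sum_le_sum fun t _ => ?_)
  rw [integral_const_mul]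
  refine mul_le_mul_of_nonneg_left ?_ (abs_nonneg _)
  rw [integral_indicator (hHm t), setIntegral_const, smul_eq_mul, mul_one, measureReal_def,
    Measure.restrict_apply (hHm t)]
  have hfin : ∀ B : Set ℝ, volume (B ∩ Set.Ioo s₁ s₂) ≠ ⊤ := fun B =>
    ((measure_mono Set.inter_subset_right).trans_lt (by rw [Real.volume_Ioo]; exact
      ENNReal.ofReal_lt_top)).ne
  refine le_min ?_ ?_
  · exact ENNReal.toReal_mono (hfin _) (measure_mono (Set.inter_subset_inter_left _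
      Set.inter_subset_left))
  · exact ENNReal.toReal_mono (hfin _) (measure_mono (Set.inter_subset_inter_left _
      Set.inter_subset_right))

end H19S
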