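import Pool.Agent.Lib.H19S.E1

/-!
# H19S, chunk E1c: subdiscs
-/

namespace H19S

open Metric
open scoped InnerProductSpace

/-- angular radius -/
noncomputable def E1c_th (r : ℝ) : ℝ := Real.arccos (1 - r ^ 2 / 2)

theorem E1c_angle (p q : S2) : InnerProductGeometry.angle (p : E3) (q : E3) =
    Real.arccos (ip p q) := by
  unfold InnerProductGeometry.angle ip
  rw [norm_S2, norm_S2]
  norm_num

theorem E1c_dist_lt {x c : S2} {r : ℝ} (h0 : 0 ≤ r) (h2 : r ≤ 2) :
    dist x c < r ↔ InnerProductGeometry.angle (x : E3) (c : E3) < E1c_th r := by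
  rw [E1c_angle, E1c_th]
  have h1 := dist_sq x c
  have hd : 0 ≤ dist x c := dist_nonneg
  have hm1 : ip x c ∈ Set.Icc (-1 : ℝ) 1 := ⟨neg_one_le_ip x c, ip_le_one x c⟩
  have hm2 : 1 - r ^ 2 / 2 ∈ Set.Icc (-1 : ℝ) 1 := ⟨by nlinarith, by nlinarith⟩
  rw [Real.strictAntiOn_arccos.lt_iff_gt hm1 hm2]
  constructor
  · intro h
    nlinarith
  · intro h
    by_contra hcon
    push Not at hcon
    nlinarith

theorem E1c_dist_le {x c : S2} {r : ℝ} (h0 : 0 ≤ r) (h2 : r ≤ 2) :
    dist x c ≤ r ↔ InnerProductGeometry.angle (x : E3) (c : E3) ≤ E1c_th r := by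
  rw [E1c_angle, E1c_th]
  have h1 := dist_sq x c
  have hd : 0 ≤ dist x c := dist_nonneg
  have hm1 : ip x c ∈ Set.Icc (-1 : ℝ) 1 := ⟨neg_one_le_ip x c, ip_le_one x c⟩
  have hm2 : 1 - r ^ 2 / 2 ∈ Set.Icc (-1 : ℝ) 1 := ⟨by nlinarith, by nlinarith⟩
  rw [Real.strictAntiOn_arccos.le_iff_ge hm1 hm2]
  constructor
  · intro h
    nlinarith
  · intro h
    by_contra hcon
    push Not at hcon
    nlinarith

theorem E1c_mono {r r' : ℝ} (h0 : 0 < r') (h : r' ≤ r) : E1c_th r' ≤ E1c_th r := by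
  unfold E1c_th
  apply Real.arccos_le_arccos
  nlinarith

/-- (chunk E1c) Subdiscs: `ϑ r = 2 arcsin (r / 2)` is the angular radius; `q ∈ ball c r` iff
the angle of `q` and `c` is `< ϑ r` (for `0 ≤ r ≤ 2`).  If `r' ≥ 2` take `c' = c`; if `r > 2` take
`c' = p`.  Otherwise let `p = arc c e θ` (polar around `c`), `θ ≤ ϑ r`, and
`c' = arc c e (max 0 (θ - ϑ r'))`...: if `θ ≤ ϑ r - ϑ r'` take `c' = p`, else
`c' = arc c e (ϑ r - ϑ r')`, at angle `θ - (ϑ r - ϑ r') ≤ ϑ r'` from `p`.  In both cases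
`angle c' c + ϑ r' ≤ ϑ r` and the triangle inequality
`InnerProductGeometry.angle_le_angle_add_angle` gives `ball c' r' ⊆ ball c r`. -/
theorem subcap {c p : S2} {r r' : ℝ} (h0 : 0 < r') (h : r' ≤ r) (hp : p ∈ closedBall c r) :
    ∃ c' : S2, dist c' p ≤ r' ∧ ball c' r' ⊆ ball c r := by
  by_cases h1 : 2 ≤ r'
  · exact ⟨c, (dist_le_two c p).trans h1, ball_subset_ball h⟩
  push Not at h1
  by_cases h2 : 2 < r
  · refine ⟨p, by rw [dist_self]; exact h0.le, ?_⟩
    intro x _
    rw [mem_ball]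
    exact (dist_le_two x c).trans_lt h2
  push Not at h2
  obtain ⟨e, θ, he, hce, hθ0, hθπ, hip, hpe⟩ := polar c p
  have hr0 : 0 ≤ r := by linarith
  have hmono := E1c_mono h0 h
  -- the angle of `p` and `c`
  have hangle : InnerProductGeometry.angle (p : E3) (c : E3) = θ := by
    rw [E1c_angle, hip, Real.arccos_cos hθ0 hθπ]
  have hθr : θ ≤ E1c_th r := by
    rw [← hangle, ← E1c_dist_le hr0 h2]
    exact hp
  -- a good centre is one at angle at most `ϑ r - ϑ r'` from `c`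
  have hgood : ∀ c' : S2, InnerProductGeometry.angle (c' : E3) (c : E3) + E1c_th r' ≤ E1c_th r →
      ball c' r' ⊆ ball c r := by
    intro c' hc' x hx
    rw [mem_ball, E1c_dist_lt h0.le h1.le] at hx
    rw [mem_ball, E1c_dist_lt hr0 h2]
    have := InnerProductGeometry.angle_le_angle_add_angle (x : E3) (c' : E3) (c : E3)
    linarith
  by_cases hcase : θ ≤ E1c_th r - E1c_th r'
  · refine ⟨p, by rw [dist_self]; exact h0.le, hgood p ?_⟩
    rw [hangle]; linarith
  · push Not at hcase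
    set φ := E1c_th r - E1c_th r' with hφ
    have hφ0 : 0 ≤ φ := by linarith
    have hφπ : φ ≤ Real.pi := by linarith
    have hpeq : p = arc c e he hce θ := Subtype.ext hpe
    refine ⟨arc c e he hce φ, ?_, hgood _ ?_⟩
    · rw [E1c_dist_le h0.le h1.le, E1c_angle, hpeq, ip_arc,
        show φ - θ = -(θ - φ) by ring, Real.cos_neg, Real.arccos_cos (by linarith) (by linarith)]
      linarith
    · rw [E1c_angle]
      have h3 : ip (arc c e he hce φ) c = Real.cos φ := by
        have h4 := ip_arc c e he hce φ 0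
        rw [arc_zero, sub_zero] at h4
        exact h4
      rw [h3, Real.arccos_cos hφ0 hφπ]
      linarith

end H19S
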