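import Pool.Agent.Lib.H19S.E9
import Pool.Agent.Lib.H19S.E1c

/-!
# H19S, chunk E9b: area of disjoint discs, kissing
-/

namespace H19S

open Finset Metric MeasureTheory

theorem e9b_floor {a b : ℝ} (ha : 0 < a) (hab : a ≤ b) : b ≤ 2 * (a * (⌊b / a⌋₊ : ℝ)) := by
  have h1 : (1 : ℝ) ≤ b / a := by
    rw [le_div_iff₀ ha]
    linarith
  have h2 : b / a < (⌊b / a⌋₊ : ℝ) + 1 := Nat.lt_floor_add_one _
  have h3 : 1 ≤ ⌊b / a⌋₊ := by
    rw [Nat.one_le_floor_iff]
    exact h1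
  have h4 : (1 : ℝ) ≤ (⌊b / a⌋₊ : ℝ) := by exact_mod_cast h3
  rw [div_lt_iff₀ ha] at h2
  nlinarith

/-- (chunk E9b) Area lemma.  PROOF.  Put `ρᵢ = min (r i) ρ`.  Choose `pᵢ ∈ closedBall (c i) (r i) ∩ ball y (2ρ)` and, by `subcap`, `c'ᵢ` with
`dist c'ᵢ pᵢ ≤ ρᵢ` and `ball c'ᵢ ρᵢ ⊆ ball (c i) (r i)`; these are disjoint.  Let `mᵢ = ⌊ρ/ρᵢ⌋ ≥ ρ/(2ρᵢ)` and consider the
balls of radius `ρᵢ/4` of `E3` centred at `(1 + ρᵢ (j + 1/2)) c'ᵢ`, `j < mᵢ`: for fixed `i` they are disjoint (the centres have mutual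
distances `≥ ρᵢ`), for different `i` they are disjoint by `proj_mem_ball`; they are contained in the ball of centre `y`, radius
`5ρ`: `‖t c' - y‖ ≤ ρ + ρ + 2ρ`.  (WLOG `ρ ≤ 2`, otherwise replace `ρ` by 2: if `ρ > 2` then `min (r i) ρ`... note
`r i < 2` by `lt_two_of_disjoint` unless there is only one disc; treat `ρᵢ ≤ 2` accordingly, or bound one disc directly.)
`disjoint_balls`: `∑ (ρ/(2ρᵢ)) (ρᵢ/4)³ ≤ (5ρ)³`, so `∑ ρᵢ² ≤ 16000 ρ²`. -/
theorem area_sum {ι : Type*} (s : Finset ι) (c : ι → S2) (r : ι → ℝ) (hr : ∀ i ∈ s, 0 < r i)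
    (hd : ∀ i ∈ s, ∀ j ∈ s, i ≠ j → Disjoint (ball (c i) (r i)) (ball (c j) (r j)))
    {y : S2} {ρ : ℝ} (hρ : 0 < ρ) (hρ2 : ρ ≤ 2)
    (hm : ∀ i ∈ s, (closedBall (c i) (r i) ∩ ball y (2 * ρ)).Nonempty) :
    ∑ i ∈ s, min (r i) ρ ^ 2 ≤ 16000 * ρ ^ 2 := by
  classical
  set rr : ι → ℝ := fun i => min (r i) ρ with hrr
  have hrr0 : ∀ i ∈ s, 0 < rr i := fun i hi => lt_min (hr i hi) hρ
  have hrrρ : ∀ i, rr i ≤ ρ := fun i => min_le_right _ _
  have hrrr : ∀ i, rr i ≤ r i := fun i => min_le_left _ _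
  -- choice of the centres
  have hex : ∀ i, ∃ c' : S2, i ∈ s → dist c' y < rr i + 2 * ρ ∧
      ball c' (rr i) ⊆ ball (c i) (r i) := by
    intro i
    by_cases hi : i ∈ s
    · obtain ⟨p, hp1, hp2⟩ := hm i hi
      obtain ⟨c', h1, h2⟩ := subcap (hrr0 i hi) (hrrr i) hp1
      refine ⟨c', fun _ => ⟨?_, h2⟩⟩
      have h3 := dist_triangle c' p y
      have h4 : dist p y < 2 * ρ := mem_ball.mp hp2
      linarith
    · exact ⟨y, fun h => absurd h hi⟩
  choose c' hc' using hex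
  set m : ι → ℕ := fun i => ⌊ρ / rr i⌋₊ with hmdef
  set T : Finset (Σ _ : ι, ℕ) := s.sigma fun i => range (m i) with hT
  set tt : (Σ _ : ι, ℕ) → ℝ := fun x => 1 + rr x.1 * ((x.2 : ℝ) + 1 / 2) with htt
  set a : (Σ _ : ι, ℕ) → E3 := fun x => tt x • (c' x.1 : E3) with ha
  have hmem : ∀ x ∈ T, x.1 ∈ s ∧ x.2 < m x.1 := by
    intro x hx
    rw [hT, mem_sigma] at hx
    exact ⟨hx.1, mem_range.mp hx.2⟩
  have htt1 : ∀ x ∈ T, 1 + rr x.1 / 2 ≤ tt x := by
    intro x hx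
    obtain ⟨h1, h2⟩ := hmem x hx
    have h3 := hrr0 _ h1
    have h4 : (0 : ℝ) ≤ (x.2 : ℝ) := Nat.cast_nonneg _
    simp only [htt]
    nlinarith
  have httu : ∀ x ∈ T, tt x - 1 ≤ ρ := by
    intro x hx
    obtain ⟨h1, h2⟩ := hmem x hx
    have h3 := hrr0 _ h1
    have h4 : (x.2 : ℝ) + 1 ≤ (m x.1 : ℝ) := by exact_mod_cast h2
    have h5 : (m x.1 : ℝ) ≤ ρ / rr x.1 := Nat.floor_le (by positivity)
    have h6 : rr x.1 * (m x.1 : ℝ) ≤ ρ := by
      calc rr x.1 * (m x.1 : ℝ) ≤ rr x.1 * (ρ / rr x.1) := by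
            exact mul_le_mul_of_nonneg_left h5 h3.le
        _ = ρ := by field_simp
    simp only [htt]
    nlinarith
  have hnorm : ∀ p : S2, ‖(p : E3)‖ = 1 := norm_S2
  -- points of the balls
  have hqnorm : ∀ x ∈ T, ∀ q ∈ ball (a x) (rr x.1 / 4), 0 < ‖q‖ := by
    intro x hx q hq
    have h1 := htt1 x hx
    have h2 := hrr0 _ (hmem x hx).1
    have h3 : ‖a x‖ = tt x := by
      simp only [ha]
      rw [norm_smul, hnorm, mul_one, Real.norm_eq_abs, abs_of_pos]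
      linarith
    have h4 : dist q (a x) < rr x.1 / 4 := mem_ball.mp hq
    rw [dist_eq_norm] at h4
    have h5 : ‖a x‖ - ‖q‖ ≤ ‖a x - q‖ := norm_sub_norm_le _ _
    rw [norm_sub_rev] at h5
    linarith
  have key := disjoint_balls T a (fun x => rr x.1 / 4) (y : E3) (5 * ρ) ?_ ?_ ?_
  · -- numerics
    rw [max_eq_left (by positivity : (0 : ℝ) ≤ 5 * ρ)] at key
    rw [hT, sum_sigma] at key
    have hterm : ∀ i ∈ s, ρ * rr i ^ 2 / 128 ≤ ∑ _j ∈ range (m i), (rr i / 4) ^ 3 := by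
      intro i hi
      rw [sum_const, card_range, nsmul_eq_mul]
      have h1 := hrr0 i hi
      have h2 := e9b_floor h1 (hrrρ i)
      have h3 : ρ ≤ 2 * (rr i * (m i : ℝ)) := h2
      nlinarith [sq_nonneg (rr i), mul_le_mul_of_nonneg_left h3 (sq_nonneg (rr i))]
    have hsum := (sum_le_sum hterm).trans key
    rw [← sum_div, ← mul_sum] at hsum
    have h5 : ρ * ∑ i ∈ s, rr i ^ 2 ≤ ρ * (16000 * ρ ^ 2) := by
      nlinarith
    exact le_of_mul_le_mul_left h5 hρ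
  · intro x hx
    have := hrr0 _ (hmem x hx).1
    positivity
  · -- disjointness
    intro x hx x' hx' hne
    obtain ⟨i, j⟩ := x
    obtain ⟨i', j'⟩ := x'
    have hi : i ∈ s := (hmem _ hx).1
    have hi' : i' ∈ s := (hmem _ hx').1
    by_cases hii : i = i'
    · subst hii
      have hjj : j ≠ j' := fun h => hne (by rw [h])
      apply ball_disjoint_ball
      have h1 := hrr0 i hi
      have h2 : dist (a ⟨i, j⟩) (a ⟨i, j'⟩) = rr i * |(j : ℝ) - j'| := by
        simp only [ha, htt]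
        rw [dist_eq_norm, ← sub_smul, norm_smul, hnorm, mul_one, Real.norm_eq_abs]
        have : 1 + rr i * ((j : ℝ) + 1 / 2) - (1 + rr i * ((j' : ℝ) + 1 / 2)) =
            rr i * ((j : ℝ) - j') := by ring
        rw [this, abs_mul, abs_of_pos h1]
      rw [h2]
      have h3 : (1 : ℝ) ≤ |(j : ℝ) - j'| := by
        have h4 : (1 : ℤ) ≤ |(j : ℤ) - j'| := by
          apply Int.one_le_abs
          intro h
          apply hjj
          omega
        exact_mod_cast h4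
      simp only
      nlinarith
    · rw [Set.disjoint_left]
      intro q hq hq'
      have hq0 := hqnorm _ hx q hq
      set p : S2 := ⟨‖q‖⁻¹ • q, by
        rw [mem_sphere_zero_iff_norm, norm_smul, norm_inv, norm_norm,
          inv_mul_cancel₀ hq0.ne']⟩ with hp
      have hpq : ‖q‖ • (p : E3) = q := by
        rw [hp]
        simp only
        rw [smul_smul, mul_inv_cancel₀ hq0.ne', one_smul]
      have h1 := hrr0 i hi
      have h1' := hrr0 i' hi'
      have m1 : p ∈ ball (c' i) (rr i) :=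
        proj_mem_ball (t := tt ⟨i, j⟩) (by have := htt1 _ hx; simp only at this; linarith) h1
          ((hrrρ i).trans hρ2) hq p hpq
      have m2 : p ∈ ball (c' i') (rr i') :=
        proj_mem_ball (t := tt ⟨i', j'⟩) (by have := htt1 _ hx'; simp only at this; linarith) h1'
          ((hrrρ i').trans hρ2) hq' p hpq
      exact Set.disjoint_left.mp (hd i hi i' hi' hii) ((hc' i hi).2 m1) ((hc' i' hi').2 m2)
  · -- containment
    intro x hx q hq
    obtain ⟨hi, -⟩ := hmem x hx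
    have h1 := hrr0 _ hi
    have h2 := httu x hx
    have h3 := htt1 x hx
    have h4 : dist q (a x) < rr x.1 / 4 := mem_ball.mp hq
    have h5 : dist (a x) (c' x.1 : E3) = tt x - 1 := by
      simp only [ha]
      rw [dist_eq_norm]
      have : tt x • (c' x.1 : E3) - (c' x.1 : E3) = (tt x - 1) • (c' x.1 : E3) := by
        rw [sub_smul, one_smul]
      rw [this, norm_smul, hnorm, mul_one, Real.norm_eq_abs, abs_of_nonneg]
      linarith
    have h6 : dist (c' x.1 : E3) (y : E3) < rr x.1 + 2 * ρ := (hc' x.1 hi).1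
    have h7 := dist_triangle q (a x) (y : E3)
    have h8 := dist_triangle (a x) (c' x.1 : E3) (y : E3)
    have h9 := hrrρ x.1
    exact mem_ball.mpr (by linarith)

/-- (chunk E9b) Kissing: `area_sum` with `ρ = r₀` around `c₀`. -/
theorem kissing {ι : Type*} (s : Finset ι) (c : ι → S2) (r : ι → ℝ) {c₀ : S2} {r₀ : ℝ} (h0 : 0 < r₀)
    (h2 : r₀ ≤ 2) (hr : ∀ i ∈ s, r₀ ≤ r i)
    (hd : ∀ i ∈ s, ∀ j ∈ s, i ≠ j → Disjoint (ball (c i) (r i)) (ball (c j) (r j)))
    (hm : ∀ i ∈ s, (closedBall (c i) (r i) ∩ closedBall c₀ r₀).Nonempty) : s.card ≤ 16000 := by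
  have h := area_sum s c r (fun i hi => h0.trans_le (hr i hi)) hd (y := c₀) h0 h2 (fun i hi =>
    (hm i hi).mono (Set.inter_subset_inter_right _ (closedBall_subset_ball (by linarith))))
  have h1 : ∑ i ∈ s, min (r i) r₀ ^ 2 = s.card * r₀ ^ 2 := by
    rw [← nsmul_eq_mul, ← sum_const]
    exact sum_congr rfl fun i hi => by rw [min_eq_right (hr i hi)]
  rw [h1] at h
  have h3 : (s.card : ℝ) ≤ 16000 := le_of_mul_le_mul_right h (by positivity)
  exact_mod_cast h3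

end H19S
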