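import Pool.Agent.Lib.H19S.E5
import Pool.Agent.Lib.H19S.E9b

/-!
# H19S, chunk E12: kissing in a packing, sums over edges
-/

namespace H19S

open Finset Metric MeasureTheory

variable {α : Type*} [DecidableEq α] {F : Finset (α × α × α)} {c : α → S2} {r : α → ℝ}

/-- (N5 of Part I) kissing in a packing. -/
theorem IsPacking.kissing (hF : IsTri F) (hP : IsPacking F c r) {x : α} (hx : x ∈ vs F) :
    ((nbr F x).filter fun y => r x ≤ r y).card ≤ 16000 := by
  have hS := hF.toIsSurf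
  refine H19S.kissing (c₀ := c x) (r₀ := r x) _ c r (hP.pos x hx) (hP.lt_two hF hx).le ?_ ?_ ?_
  · intro y hy
    exact (mem_filter.1 hy).2
  · intro y hy z hz hyz
    exact hP.disj y (hS.adj_mem_right (mem_nbr.1 (mem_filter.1 hy).1)) z
      (hS.adj_mem_right (mem_nbr.1 (mem_filter.1 hz).1)) hyz
  · intro y hy
    obtain ⟨p, hp1, hp2⟩ := hP.exists_touch hF (mem_nbr.1 (mem_filter.1 hy).1)
    exact ⟨p, hp2, hp1⟩

/-- (chunk E12) Sum over the oriented edges of the square of the smaller of two vertex quantities `a x ≤ 2 r x`... : by symmetry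
(`IsSurf.sum_rev`) the sum is at most twice the sum over the oriented edges with `r t.1 ≤ r t.2.1`, for which the
number of `t` with given `t.1 = x` is at most `16000` (`kissing`). -/
theorem IsPacking.edge_sum_le (hF : IsTri F) (hP : IsPacking F c r) (a : α → ℝ)
    (ha : ∀ x ∈ vs F, 0 ≤ a x) :
    ∑ t ∈ F, min (a t.1) (a t.2.1) ^ 2 ≤ 32000 * ∑ x ∈ vs F, a x ^ 2 := by
  have hS := hF.toIsSurf
  have h1 : ∀ t ∈ F, min (a t.1) (a t.2.1) ^ 2 ≤
      (if r t.1 ≤ r t.2.1 then a t.1 ^ 2 else 0) + (if r t.2.1 ≤ r t.1 then a t.2.1 ^ 2 else 0) := by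
    rintro ⟨x, y, z⟩ ht
    have hx := ha x (hS.vs1 ht)
    have hy := ha y (hS.vs2 ht)
    have h0 : 0 ≤ min (a x) (a y) := le_min hx hy
    have hmx : min (a x) (a y) ^ 2 ≤ a x ^ 2 := pow_le_pow_left₀ h0 (min_le_left _ _) 2
    have hmy : min (a x) (a y) ^ 2 ≤ a y ^ 2 := pow_le_pow_left₀ h0 (min_le_right _ _) 2
    simp only
    rcases le_total (r x) (r y) with h | h
    · rw [if_pos h]
      have : (0 : ℝ) ≤ if r y ≤ r x then a y ^ 2 else 0 := by split_ifs <;> positivity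
      linarith
    · rw [if_pos h]
      have : (0 : ℝ) ≤ if r x ≤ r y then a x ^ 2 else 0 := by split_ifs <;> positivity
      linarith
  have h2 : ∑ t ∈ F, (if r t.2.1 ≤ r t.1 then a t.2.1 ^ 2 else 0) =
      ∑ t ∈ F, (if r t.1 ≤ r t.2.1 then a t.1 ^ 2 else 0) :=
    hS.sum_rev fun x y => if r y ≤ r x then a y ^ 2 else 0
  have h3 : ∑ t ∈ F, (if r t.1 ≤ r t.2.1 then a t.1 ^ 2 else 0) ≤ 16000 * ∑ x ∈ vs F, a x ^ 2 := by
    rw [← sum_vs (F := F) (fun t => if r t.1 ≤ r t.2.1 then a t.1 ^ 2 else 0), mul_sum]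
    refine sum_le_sum fun x hx => ?_
    have e1 : ∑ t ∈ F.filter (fun t => t.1 = x), (if r t.1 ≤ r t.2.1 then a t.1 ^ 2 else 0) =
        ∑ t ∈ F.filter (fun t => t.1 = x), (if r x ≤ r t.2.1 then a x ^ 2 else 0) := by
      refine sum_congr rfl fun t ht => ?_
      rw [(mem_filter.1 ht).2]
    rw [e1, hS.sum_nbr x (fun y => if r x ≤ r y then a x ^ 2 else 0), ← sum_filter, sum_const,
      nsmul_eq_mul]
    have h4 : (((nbr F x).filter fun y => r x ≤ r y).card : ℝ) ≤ 16000 := by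
      exact_mod_cast hP.kissing hF hx
    exact mul_le_mul_of_nonneg_right h4 (by positivity)
  calc ∑ t ∈ F, min (a t.1) (a t.2.1) ^ 2 ≤
      ∑ t ∈ F, ((if r t.1 ≤ r t.2.1 then a t.1 ^ 2 else 0) +
        (if r t.2.1 ≤ r t.1 then a t.2.1 ^ 2 else 0)) := sum_le_sum h1
    _ ≤ 32000 * ∑ x ∈ vs F, a x ^ 2 := by
        rw [sum_add_distrib, h2]
        linarith

end H19S
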