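import Pool.Agent.Lib.H19S.E12
import Pool.Agent.Lib.H19S.E11c

/-!
# H19S, chunk E12b: the length-area estimate
-/

namespace H19S

open Finset Metric MeasureTheory

variable {α : Type*} [DecidableEq α] {F : Finset (α × α × α)} {c : α → S2} {r : α → ℝ}

/-- (chunk E12b) `∑ ℓ_x² ≤ 16000 s₂²`: only discs meeting `ball w s₂` contribute (`ell_eq_zero`), and
`ℓ_x² ≤ min (2 r_x) s₂ ^ 2 = 4 min (r_x) (s₂/2) ^ 2` (`ell_le`); use `area_sum` with `ρ = s₂ / 2`. -/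
theorem IsPacking.ell_sum_le (hP : IsPacking F c r) {w : S2} {s₁ s₂ : ℝ} (h0 : 0 ≤ s₁)
    (h12 : s₁ ≤ s₂) (hs₂ : 0 < s₂) (h2 : s₂ ≤ 2) :
    ∑ x ∈ vs F, ell w (c x) (r x) s₁ s₂ ^ 2 ≤ 16000 * s₂ ^ 2 := by
  classical
  set A := (vs F).filter (fun x => (closedBall (c x) (r x) ∩ ball w s₂).Nonempty) with hA
  have h1 : ∑ x ∈ vs F, ell w (c x) (r x) s₁ s₂ ^ 2 = ∑ x ∈ A, ell w (c x) (r x) s₁ s₂ ^ 2 := by
    symm
    apply Finset.sum_subset (Finset.filter_subset _ _)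
    intro x hx hxA
    have : ¬ (closedBall (c x) (r x) ∩ ball w s₂).Nonempty := by
      intro hne
      exact hxA (Finset.mem_filter.2 ⟨hx, hne⟩)
    rw [ell_eq_zero w (c x) this]
    norm_num
  have h3 := area_sum A c r (fun i hi => hP.pos i (Finset.mem_filter.1 hi).1)
    (fun i hi j hj hij => hP.disj i (Finset.mem_filter.1 hi).1 j (Finset.mem_filter.1 hj).1 hij)
    (y := w) (ρ := s₂ / 2) (by linarith) (by linarith)
    (fun i hi => by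
      have := (Finset.mem_filter.1 hi).2
      rwa [mul_div_cancel₀ s₂ (two_ne_zero)])
  have h4 : ∑ x ∈ A, ell w (c x) (r x) s₁ s₂ ^ 2 ≤ ∑ x ∈ A, 4 * min (r x) (s₂ / 2) ^ 2 := by
    apply Finset.sum_le_sum
    intro x hx
    have hr := hP.pos x (Finset.mem_filter.1 hx).1
    have h5 : ell w (c x) (r x) s₁ s₂ ≤ 2 * min (r x) (s₂ / 2) := by
      refine (ell_le w (c x) hr.le h12).trans ?_
      rw [mul_min_of_nonneg _ _ (by norm_num : (0 : ℝ) ≤ 2)]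
      apply min_le_min le_rfl
      linarith
    have h6 := pow_le_pow_left₀ (ell_nonneg w (c x) (r x) s₁ s₂) h5 2
    refine h6.trans (le_of_eq ?_)
    ring
  rw [h1]
  refine h4.trans ?_
  rw [← Finset.mul_sum]
  calc 4 * ∑ x ∈ A, min (r x) (s₂ / 2) ^ 2 ≤ 4 * (16000 * (s₂ / 2) ^ 2) := by linarith
    _ = 16000 * s₂ ^ 2 := by ring

/-- (chunk E12b) Length-area: Cauchy-Schwarz in `length_sum`: `(s₂ - s₁)² ≤ (∑_t |∇g|²) (∑_t min(ℓ,ℓ)²)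
= 2 energy · (≤ 32000 · 16000 s₂²)`. -/
theorem IsPacking.length_area (hF : IsTri F) (h4 : 4 ≤ (vs F).card) (hP : IsPacking F c r) {w : S2}
    {s₁ s₂ : ℝ} (h0 : 0 ≤ s₁) (h12 : s₁ ≤ s₂) (h2 : s₂ ≤ 2) {S₁ S₂ : Set α}
    (hS₁ : S₁ ⊆ (vs F : Set α)) (hS₂ : S₂ ⊆ (vs F : Set α))
    (hh₁ : ∀ s, s₁ < s → s < s₂ → ∃ x ∈ S₁, s ∈ hits w (c x) (r x))
    (hh₂ : ∀ s, s₁ < s → s < s₂ → ∃ x ∈ S₂, s ∈ hits w (c x) (r x)) {g : α → ℝ}
    (hg₁ : ∀ x ∈ S₁, g x = 0) (hg₂ : ∀ x ∈ S₂, g x = 1) :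
    (s₂ - s₁) ^ 2 ≤ 1024000000 * s₂ ^ 2 * energy F g := by
  rcases (h0.trans h12).eq_or_lt with hs | hs
  · have h1 : s₁ = 0 := le_antisymm (by rw [hs]; exact h12) h0
    rw [← hs, h1]
    norm_num
  have hls := hP.length_sum hF h4 h12 hS₁ hS₂ hh₁ hh₂ hg₁ hg₂
  have hsq := pow_le_pow_left₀ (sub_nonneg.2 h12) hls 2
  have hcs := Finset.sum_mul_sq_le_sq_mul_sq F (fun t => |g t.2.1 - g t.1|)
    (fun t => min (ell w (c t.1) (r t.1) s₁ s₂) (ell w (c t.2.1) (r t.2.1) s₁ s₂))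
  have h5 : ∑ t ∈ F, |g t.2.1 - g t.1| ^ 2 = 2 * energy F g := by
    unfold energy
    rw [mul_div_cancel₀ _ (two_ne_zero)]
    exact Finset.sum_congr rfl (fun t _ => sq_abs _)
  have h6 := hP.edge_sum_le hF (fun x => ell w (c x) (r x) s₁ s₂)
    (fun x _ => ell_nonneg w (c x) (r x) s₁ s₂)
  have h7 := hP.ell_sum_le (w := w) h0 h12 hs h2
  rw [h5] at hcs
  have hE : 0 ≤ energy F g := by
    unfold energy
    positivity
  calc (s₂ - s₁) ^ 2 ≤ _ := hsq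
    _ ≤ _ := hcs
    _ ≤ 2 * energy F g * (32000 * (16000 * s₂ ^ 2)) := by
        apply mul_le_mul_of_nonneg_left _ (by positivity)
        refine h6.trans ?_
        apply mul_le_mul_of_nonneg_left h7 (by norm_num)
    _ = 1024000000 * s₂ ^ 2 * energy F g := by ring

end H19S
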