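import Pool.Agent.Lib.H19S.E0

/-!
# H19S, chunk E13: choice of the centre of the circles
-/

namespace H19S

open Finset Metric MeasureTheory
open scoped InnerProductSpace

theorem e13_sq (w p : S2) : ‖(w : E3) - (p : E3)‖ ^ 2 = 2 - 2 * ⟪(w : E3), (p : E3)⟫_ℝ := by
  have h := dist_sq w p
  rw [Subtype.dist_eq, dist_eq_norm] at h
  exact h

/-- (chunk E13) Choice of the centre of the circles.  `‖w - p‖² - ‖w - y‖² = 2 ⟪w, y - p⟫` on the unit sphere.  Let `w' = q₁ ± (R/8) (y - p)`, the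
sign being the sign of `⟪q₁, y - p⟫`, and `w = w' / ‖w'‖`.  Then `|⟪w', y - p⟫| ≥ (R/8) ρ²`, `|‖w'‖ - 1| ≤ R ρ / 8 ≤ 1/160`,
so `‖w - q₁‖ ≤ 2 ‖w' - q₁‖ = R ρ / 4` and `|⟪w, y - p⟫| ≥ R ρ² / 9`; finally
`‖w - p‖ + ‖w - y‖ ≤ 2 ‖w - y‖ + ρ ≤ 2 (5/4) R ρ + ρ ≤ 4 R ρ`, so `| ‖w - p‖ - ‖w - y‖ | ≥ (2 R ρ²/9)/(4 R ρ) = ρ / 18`. -/
theorem exists_centre {y p q₁ : S2} {ρ R : ℝ} (hρ : 0 < ρ) (hR : 1 ≤ R) (hRρ : R * ρ ≤ 1 / 20)
    (hp : dist p y = ρ) (hq : dist q₁ y = R * ρ) :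
    ∃ w : S2, dist w q₁ ≤ R * ρ / 4 ∧ ρ / 18 ≤ |dist w p - dist w y| := by
  set e : E3 := (y : E3) - (p : E3) with he
  have hen : ‖e‖ = ρ := by
    rw [he, ← hp, dist_comm, Subtype.dist_eq, dist_eq_norm]
  have hRρ0 : 0 < R * ρ := by positivity
  obtain ⟨σ, hσ, hσi⟩ : ∃ σ : ℝ, |σ| = 1 ∧ 0 ≤ σ * ⟪(q₁ : E3), e⟫_ℝ := by
    rcases le_total 0 (⟪(q₁ : E3), e⟫_ℝ) with h | h
    · exact ⟨1, by simp, by simpa using h⟩
    · exact ⟨-1, by simp, by simpa using h⟩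
  have hσ2 : σ * σ = 1 := by
    rw [← abs_mul_abs_self, hσ, mul_one]
  set w' : E3 := (q₁ : E3) + (σ * (R / 8)) • e with hw'
  have hw'q : ‖w' - (q₁ : E3)‖ = R * ρ / 8 := by
    rw [hw', add_sub_cancel_left, norm_smul, hen, Real.norm_eq_abs, abs_mul, hσ, one_mul,
      abs_of_pos (by positivity)]
    ring
  have hq1 : ‖(q₁ : E3)‖ = 1 := norm_S2 q₁
  have hn1 : |‖w'‖ - 1| ≤ R * ρ / 8 := by
    have := abs_norm_sub_norm_le w' (q₁ : E3)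
    rwa [hq1, hw'q] at this
  have hn1' := abs_le.1 hn1
  have hnpos : 0 < ‖w'‖ := by linarith [hn1'.1]
  have hne : ‖w'‖ ≠ 0 := hnpos.ne'
  have hinner : σ * ⟪w', e⟫_ℝ = σ * ⟪(q₁ : E3), e⟫_ℝ + R / 8 * ρ ^ 2 := by
    rw [hw', inner_add_left, inner_smul_left, real_inner_self_eq_norm_sq, hen]
    simp only [conj_trivial]
    have : σ * (⟪(q₁ : E3), e⟫_ℝ + σ * (R / 8) * ρ ^ 2) =
      σ * ⟪(q₁ : E3), e⟫_ℝ + (σ * σ) * (R / 8) * ρ ^ 2 := by ring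
    rw [this, hσ2, one_mul]
  have hinner2 : R / 8 * ρ ^ 2 ≤ |⟪w', e⟫_ℝ| := by
    have h1 : R / 8 * ρ ^ 2 ≤ σ * ⟪w', e⟫_ℝ := by rw [hinner]; linarith
    calc R / 8 * ρ ^ 2 ≤ σ * ⟪w', e⟫_ℝ := h1
      _ ≤ |σ * ⟪w', e⟫_ℝ| := le_abs_self _
      _ = |⟪w', e⟫_ℝ| := by rw [abs_mul, hσ, one_mul]
  -- the centre
  have hwmem : (‖w'‖⁻¹ • w') ∈ sphere (0 : E3) 1 := by
    rw [mem_sphere_zero_iff_norm, norm_smul, norm_inv, norm_norm, inv_mul_cancel₀ hne]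
  set w : S2 := ⟨‖w'‖⁻¹ • w', hwmem⟩ with hw
  have hwc : (w : E3) = ‖w'‖⁻¹ • w' := rfl
  have hww' : ‖(w : E3) - w'‖ ≤ R * ρ / 8 := by
    have h1 : (w : E3) - w' = (‖w'‖⁻¹ * (1 - ‖w'‖)) • w' := by
      rw [hwc, mul_sub, mul_one, inv_mul_cancel₀ hne, sub_smul, one_smul]
    rw [h1, norm_smul, norm_mul, norm_inv, norm_norm]
    have h2 : ‖w'‖⁻¹ * ‖1 - ‖w'‖‖ * ‖w'‖ = ‖1 - ‖w'‖‖ := by
      field_simp
    rw [h2, Real.norm_eq_abs, abs_sub_comm]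
    exact hn1
  have hwq : dist w q₁ ≤ R * ρ / 4 := by
    rw [Subtype.dist_eq, dist_eq_norm]
    calc ‖(w : E3) - (q₁ : E3)‖ = ‖((w : E3) - w') + (w' - (q₁ : E3))‖ := by congr 1; abel
      _ ≤ ‖(w : E3) - w'‖ + ‖w' - (q₁ : E3)‖ := norm_add_le _ _
      _ ≤ R * ρ / 4 := by rw [hw'q]; linarith
  refine ⟨w, hwq, ?_⟩
  have hie : R * ρ ^ 2 / 9 ≤ |⟪(w : E3), e⟫_ℝ| := by
    rw [hwc, inner_smul_left, abs_mul]
    simp only [conj_trivial]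
    rw [abs_of_pos (inv_pos.2 hnpos)]
    have h1 : (160 : ℝ) / 161 ≤ ‖w'‖⁻¹ := by
      rw [le_inv_comm₀ (by norm_num) hnpos]
      have : ((160 : ℝ) / 161)⁻¹ = 161 / 160 := by norm_num
      rw [this]
      linarith [hn1'.2]
    calc R * ρ ^ 2 / 9 ≤ 160 / 161 * (R / 8 * ρ ^ 2) := by
          have : 0 < R * ρ ^ 2 := by positivity
          linarith
      _ ≤ ‖w'‖⁻¹ * |⟪w', e⟫_ℝ| := by
          apply mul_le_mul h1 hinner2 (by positivity) (by positivity)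
  have hdiff : dist w p ^ 2 - dist w y ^ 2 = 2 * ⟪(w : E3), e⟫_ℝ := by
    rw [dist_sq, dist_sq, he, inner_sub_right]
    unfold ip
    ring
  have hwy : dist w y ≤ 5 / 4 * (R * ρ) := by
    have := dist_triangle w q₁ y
    rw [hq] at this
    linarith
  have hwp : dist w p ≤ dist w y + ρ := by
    have := dist_triangle w y p
    rw [dist_comm y p, hp] at this
    exact this
  have hsum : dist w p + dist w y ≤ 4 * (R * ρ) := by
    have : ρ ≤ R * ρ := by nlinarith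
    linarith
  have hprod : |dist w p - dist w y| * (dist w p + dist w y) = 2 * |⟪(w : E3), e⟫_ℝ| := by
    have h0 : 0 ≤ dist w p + dist w y := add_nonneg dist_nonneg dist_nonneg
    have h1 : |dist w p - dist w y| * (dist w p + dist w y) =
        |(dist w p - dist w y) * (dist w p + dist w y)| := by
      rw [abs_mul, abs_of_nonneg h0]
    rw [h1]
    have h2 : (dist w p - dist w y) * (dist w p + dist w y) = 2 * ⟪(w : E3), e⟫_ℝ := by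
      rw [← hdiff]; ring
    rw [h2, abs_mul]
    norm_num
  have h3 : 2 * (R * ρ ^ 2 / 9) ≤ |dist w p - dist w y| * (4 * (R * ρ)) := by
    calc 2 * (R * ρ ^ 2 / 9) ≤ 2 * |⟪(w : E3), e⟫_ℝ| := by linarith
      _ = |dist w p - dist w y| * (dist w p + dist w y) := hprod.symm
      _ ≤ |dist w p - dist w y| * (4 * (R * ρ)) := mul_le_mul_of_nonneg_left hsum (abs_nonneg _)
  have h4 : ρ / 18 * (4 * (R * ρ)) ≤ |dist w p - dist w y| * (4 * (R * ρ)) := by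
    refine le_trans (le_of_eq ?_) h3
    ring
  exact le_of_mul_le_mul_right h4 (by positivity)

end H19S
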