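import Pool.Agent.Lib.H19S.E12b
import Pool.Agent.Lib.H19S.E13

/-!
# H19S, chunk E13b: lemma A2
-/

namespace H19S

open Finset Metric MeasureTheory
open scoped InnerProductSpace

variable {F : Finset (ℕ × ℕ × ℕ)} {c : ℕ → S2} {r : ℕ → ℝ}

/-- Intermediate values: the union of the discs of a connected set `S` of vertices containing points at distance `≤ s` and
`≥ s` from `w` contains a point at distance `s` (`union_conn`). -/
theorem IsPacking.exists_hit (hF : IsTri F) (hP : IsPacking F c r) {S : Set ℕ}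
    (hS : S ⊆ (vs F : Set ℕ)) (hc : ConnIn F S) {w a b : S2} {s : ℝ}
    (ha : ∃ x ∈ S, a ∈ closedBall (c x) (r x)) (hb : ∃ x ∈ S, b ∈ closedBall (c x) (r x))
    (h1 : dist a w ≤ s) (h2 : s ≤ dist b w) :
    ∃ q : S2, dist q w = s ∧ ∃ x ∈ S, q ∈ closedBall (c x) (r x) := by
  have hU := hP.union_conn hF hS hc
  have hf : ContinuousOn (fun q : S2 => dist q w) (⋃ x ∈ S, closedBall (c x) (r x)) :=
    (continuous_id.dist continuous_const).continuousOn
  obtain ⟨x, hx, hax⟩ := ha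
  obtain ⟨x', hx', hbx'⟩ := hb
  have hi := hU.intermediate_value (Set.mem_biUnion hx hax) (Set.mem_biUnion hx' hbx') hf
  obtain ⟨q, hq, hqs⟩ := hi ⟨h1, h2⟩
  simp only [Set.mem_iUnion, exists_prop] at hq
  exact ⟨q, hqs, hq⟩

/-- (chunk E13b) Lemma A2.  `S₁` contains points of discs at distance `0` and `≥ ρ` from `y` (`y` itself, a centre), so
some point `p` at distance `ρ` exactly (`exists_hit` with `w = y`); `S₂` contains a point `q₁` at distance exactly `R ρ` (a point at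
distance `≤ R ρ`, a centre at distance `≥ 10 R ρ`).  Let `w` be given by `exists_centre`, `m = min (dist w p) (dist w y)`,
`s₂ = max (dist w p) (dist w y)`, `s₁ = max m (dist w q₁)`.  Then `s₂ - s₁ ≥ ρ/18` (if `s₁ = m` by the choice of `w`; otherwise
`s₁ = dist w q₁ ≤ Rρ/4` and `s₂ ≥ dist w y ≥ Rρ - Rρ/4`), `s₂ ≤ (5/4) R ρ + ρ ≤ (9/4) R ρ ≤ 1`.  For `s ∈ (s₁, s₂)`: `S₁` contains points at
distances `m ≤ s` and `s₂ ≥ s` from `w` (`p`, `y`); `S₂` contains `q₁` (distance `≤ s`) and a centre at distance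
`≥ 10 R ρ - dist w y ≥ 8 R ρ ≥ s`.  `length_area`: `(ρ/18)² ≤ 1.024e9 · (9/4)² R² ρ² · energy`. -/
theorem lemA2E : ∃ C2 : ℝ, 1 ≤ C2 ∧ ∀ (F : Finset (ℕ × ℕ × ℕ)), IsTri F → 4 ≤ (vs F).card →
    ∀ (c : ℕ → S2) (r : ℕ → ℝ), IsPacking F c r → ∀ (y : S2) (ρ R : ℝ), 0 < ρ → 1 ≤ R →
    R * ρ ≤ 1 / 20 → ∀ (S₁ S₂ : Set ℕ), S₁ ⊆ vs F → S₂ ⊆ vs F → ConnIn F S₁ → ConnIn F S₂ →
    (∃ x ∈ S₁, y ∈ Metric.closedBall (c x) (r x)) → (∃ x ∈ S₁, ρ ≤ dist (c x) y) →
    (∃ x ∈ S₂, (Metric.closedBall (c x) (r x) ∩ Metric.closedBall y (R * ρ)).Nonempty) →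
    (∃ x ∈ S₂, 10 * (R * ρ) ≤ dist (c x) y) →
    ∀ g : ℕ → ℝ, (∀ x ∈ S₁, g x = 0) → (∀ x ∈ S₂, g x = 1) → 1 ≤ C2 * R ^ 2 * energy F g := by
  refine ⟨1679616000000, by norm_num, ?_⟩
  intro F hF h4 c r hP y ρ R hρ hR hRρ S₁ S₂ hS₁ hS₂ hc₁ hc₂ hy1 hy2 hz1 hz2 g hg₁ hg₂
  have hself : ∀ x ∈ vs F, c x ∈ closedBall (c x) (r x) := fun x hx =>
    mem_closedBall_self (hP.pos x hx).le
  have hRρ0 : ρ ≤ R * ρ := le_mul_of_one_le_left hρ.le hR
  -- the point `p`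
  obtain ⟨x2, hx2, hx2d⟩ := hy2
  obtain ⟨p, hp, hpS⟩ := hP.exists_hit hF hS₁ hc₁ (w := y) (a := y) (b := c x2) (s := ρ) hy1
    ⟨x2, hx2, hself x2 (hS₁ hx2)⟩ (by rw [dist_self]; exact hρ.le) hx2d
  -- the point `q₁`
  obtain ⟨x3, hx3, q', hq'1, hq'2⟩ := hz1
  obtain ⟨x4, hx4, hx4d⟩ := hz2
  obtain ⟨q₁, hq₁, hq₁S⟩ := hP.exists_hit hF hS₂ hc₂ (w := y) (a := q') (b := c x4)
    (s := R * ρ) ⟨x3, hx3, hq'1⟩ ⟨x4, hx4, hself x4 (hS₂ hx4)⟩ (mem_closedBall.mp hq'2)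
    (by linarith)
  obtain ⟨w, hw1, hw2⟩ := exists_centre hρ hR hRρ hp hq₁
  have t1 : dist w y ≤ dist w q₁ + dist q₁ y := dist_triangle _ _ _
  have t2 : dist q₁ y ≤ dist q₁ w + dist w y := dist_triangle _ _ _
  have t3 : dist w p ≤ dist w y + dist y p := dist_triangle _ _ _
  rw [dist_comm q₁ w] at t2
  rw [dist_comm y p] at t3
  have t4 : dist (c x4) y ≤ dist (c x4) w + dist w y := dist_triangle _ _ _
  set s₂ := max (dist w p) (dist w y) with hs₂
  set m := min (dist w p) (dist w y) with hm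
  set s₁ := max m (dist w q₁) with hs₁
  have h0 : 0 ≤ s₁ := le_max_of_le_right dist_nonneg
  have hs₂y : dist w y ≤ s₂ := le_max_right _ _
  have hs₂u : s₂ ≤ 9 / 4 * (R * ρ) := by
    apply max_le <;> linarith
  have hgap : ρ / 18 ≤ s₂ - s₁ := by
    rcases le_total m (dist w q₁) with h | h
    · rw [hs₁, max_eq_right h]
      linarith
    · rw [hs₁, max_eq_left h, hs₂, hm, max_sub_min_eq_abs, abs_sub_comm]
      exact hw2
  have h12 : s₁ ≤ s₂ := by linarith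
  have hla := hP.length_area hF h4 (w := w) h0 h12 (by linarith) hS₁ hS₂ ?_ ?_ hg₁ hg₂
  · have hE : 0 ≤ energy F g := by
      unfold energy
      exact div_nonneg (sum_nonneg fun _ _ => sq_nonneg _) (by norm_num)
    have e1 : (ρ / 18) ^ 2 ≤ (s₂ - s₁) ^ 2 := pow_le_pow_left₀ (by positivity) hgap 2
    have e2 : s₂ ^ 2 ≤ (9 / 4 * (R * ρ)) ^ 2 := pow_le_pow_left₀ (by linarith) hs₂u 2
    have e3 : 1024000000 * s₂ ^ 2 * energy F g ≤
        1024000000 * (9 / 4 * (R * ρ)) ^ 2 * energy F g := by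
      apply mul_le_mul_of_nonneg_right _ hE
      linarith
    have e4 : ρ ^ 2 * 1 ≤ ρ ^ 2 * (1679616000000 * R ^ 2 * energy F g) := by
      have : (ρ / 18) ^ 2 ≤ 1024000000 * (9 / 4 * (R * ρ)) ^ 2 * energy F g := by linarith
      calc ρ ^ 2 * 1 = 324 * (ρ / 18) ^ 2 := by ring
        _ ≤ 324 * (1024000000 * (9 / 4 * (R * ρ)) ^ 2 * energy F g) := by linarith
        _ = ρ ^ 2 * (1679616000000 * R ^ 2 * energy F g) := by ring
    exact le_of_mul_le_mul_left e4 (by positivity)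
  · intro s hs1 hs2
    have hms : m ≤ s := (le_max_left _ _).trans hs1.le
    have key : ∃ q : S2, dist q w = s ∧ ∃ x ∈ S₁, q ∈ closedBall (c x) (r x) := by
      rcases le_total (dist w p) (dist w y) with h | h
      · refine hP.exists_hit hF hS₁ hc₁ (a := p) (b := y) hpS hy1 ?_ ?_
        · rw [dist_comm]
          rw [hm, min_eq_left h] at hms
          exact hms
        · rw [dist_comm]
          rw [hs₂, max_eq_right h] at hs2
          exact hs2.le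
      · refine hP.exists_hit hF hS₁ hc₁ (a := y) (b := p) hy1 hpS ?_ ?_
        · rw [dist_comm]
          rw [hm, min_eq_right h] at hms
          exact hms
        · rw [dist_comm]
          rw [hs₂, max_eq_left h] at hs2
          exact hs2.le
    obtain ⟨q, hq, x, hx, hqx⟩ := key
    exact ⟨x, hx, q, hqx, hq⟩
  · intro s hs1 hs2
    obtain ⟨q, hq, x, hx, hqx⟩ := hP.exists_hit hF hS₂ hc₂ (w := w) (a := q₁) (b := c x4) (s := s)
      hq₁S ⟨x4, hx4, hself x4 (hS₂ hx4)⟩ (by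
        rw [dist_comm]
        exact (le_max_right _ _).trans hs1.le) (by linarith)
    exact ⟨x, hx, q, hqx, hq⟩

end H19S
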