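import Pool.Agent.Lib.H19S.E5
import Pool.Agent.Lib.H19S.E9b

/-!
# H19S, chunk E14: lemma B, the geometric part
-/

namespace H19S

open Finset Metric

variable {F : Finset (ℕ × ℕ × ℕ)} {c : ℕ → S2} {r : ℕ → ℝ}

/-- Clamped distance to the centre of `D_v`. -/
noncomputable def sx (c : ℕ → S2) (v : ℕ) (ρ R' : ℝ) (x : ℕ) : ℝ := max ρ (min R' (dist (c x) (c v)))

/-- The regularity hypothesis of Lemma B. -/
def RegB (F : Finset (ℕ × ℕ × ℕ)) (c : ℕ → S2) (r : ℕ → ℝ) (v : ℕ) (ρ R' : ℝ) : Prop :=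
  ∀ s : ℝ, ρ ≤ s → s ≤ 2 * R' → ∀ w ∈ vs F,
    (Metric.closedBall (c w) (r w) ∩ Metric.closedBall (c v) s).Nonempty → r w ≤ s / 10

theorem e14_aux (hP : IsPacking F c r) {v : ℕ}
    {ρ R' : ℝ} (hρ : 0 < ρ) (hρR : ρ < R') (hreg : RegB F c r v ρ R') {x y : ℕ} (hx : x ∈ vs F)
    (hy : y ∈ vs F) (hd : dist (c x) (c v) < dist (c y) (c v)) {p : S2}
    (hpx : p ∈ closedBall (c x) (r x)) (hpy : p ∈ closedBall (c y) (r y))
    (hne : sx c v ρ R' x ≠ sx c v ρ R' y) :
    dist (c x) (c v) ≤ 2 * R' ∧ dist (c y) (c v) ≤ 2 * R' ∧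
      |Real.log (sx c v ρ R' y) - Real.log (sx c v ρ R' x)| ≤
        2 * (r x / sx c v ρ R' x + r y / sx c v ρ R' y) := by
  have hrx := hP.pos x hx
  have hry := hP.pos y hy
  have hR0 : 0 < R' := hρ.trans hρR
  have hdx : dist (c x) (c v) < R' := by
    by_contra hcon
    push Not at hcon
    apply hne
    unfold sx
    rw [min_eq_left hcon, min_eq_left (hcon.trans hd.le)]
  have hsx : sx c v ρ R' x = max ρ (dist (c x) (c v)) := by
    unfold sx
    rw [min_eq_right hdx.le]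
  set s := max ρ (dist (c x) (c v)) with hs
  have hs0 : ρ ≤ s := le_max_left _ _
  have hs1 : dist (c x) (c v) ≤ s := le_max_right _ _
  have hsR : s < R' := max_lt hρR hdx
  have hspos : 0 < s := hρ.trans_le hs0
  have h1 : r x ≤ s / 10 := hreg s hs0 (by linarith) x hx
    ⟨c x, mem_closedBall_self hrx.le, mem_closedBall.2 hs1⟩
  have hpv : dist p (c v) ≤ s + r x := by
    have := dist_triangle p (c x) (c v)
    have h2 : dist p (c x) ≤ r x := mem_closedBall.1 hpx
    linarith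
  have h2 : r y ≤ (s + r x) / 10 := hreg (s + r x) (by linarith) (by linarith) y hy
    ⟨p, hpy, mem_closedBall.2 hpv⟩
  have hxy : dist (c y) (c x) ≤ r x + r y := by
    have := dist_triangle (c y) p (c x)
    have h3 : dist p (c x) ≤ r x := mem_closedBall.1 hpx
    have h4 : dist p (c y) ≤ r y := mem_closedBall.1 hpy
    rw [dist_comm (c y) p] at this
    linarith
  have hdy : dist (c y) (c v) ≤ s + r x + r y := by
    have := dist_triangle (c y) (c x) (c v)
    linarith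
  have hsy : sx c v ρ R' y ≤ s + r x + r y := by
    unfold sx
    apply max_le
    · linarith
    · exact (min_le_right _ _).trans hdy
  have hsxy : s ≤ sx c v ρ R' y := by
    rw [hs]
    unfold sx
    apply max_le_max le_rfl
    apply le_min hdx.le hd.le
  have hsypos : 0 < sx c v ρ R' y := hspos.trans_le hsxy
  refine ⟨by linarith, by linarith, ?_⟩
  rw [hsx]
  have hlog : Real.log s ≤ Real.log (sx c v ρ R' y) := Real.log_le_log hspos hsxy
  rw [abs_of_nonneg (by linarith)]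
  have h5 : Real.log (sx c v ρ R' y) - Real.log s ≤ (r x + r y) / s := by
    rw [← Real.log_div hsypos.ne' hspos.ne']
    have h6 := Real.log_le_sub_one_of_pos (div_pos hsypos hspos)
    refine h6.trans ?_
    rw [div_sub_one hspos.ne']
    apply div_le_div_of_nonneg_right _ hspos.le
    linarith
  refine h5.trans ?_
  have h7 : r y / s ≤ 2 * (r y / sx c v ρ R' y) := by
    rw [← mul_div_assoc, div_le_div_iff₀ hspos hsypos]
    have : sx c v ρ R' y ≤ 2 * s := by linarith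
    nlinarith
  have h8 : 0 < r x / s := div_pos hrx hspos
  rw [add_div]
  linarith

/-- (chunk E14) If the edge `x y` has `s_x ≠ s_y` then both centres are at distance `≤ 2 R'` from `c v` and
`|log s_x - log s_y| ≤ 2 (r_x / s_x + r_y / s_y)`.
PROOF.  WLOG `dist (c x) (c v) < dist (c y) (c v)`, so `d = dist (c x) (c v) < R'` and `s_x = max ρ d` (`s_x ≤ s_y`).  `RegB` with
`s = max ρ d` for `x`: `r_x ≤ s_x / 10`.  `D_y` meets `D_x`, so it meets `closedBall (c v) (s_x + r_x)`, and `RegB` with `s = s_x + r_x ≤ 1.1 R'`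
gives `r_y ≤ 0.11 s_x`.  `dist (c x) (c y) ≤ r_x + r_y` (common point), so `s_y ≤ s_x + r_x + r_y ≤ 1.21 s_x`,
`dist (c y) (c v) ≤ 1.21 R'`, and `log s_y - log s_x ≤ (s_y - s_x) / s_x ≤ (r_x + r_y)/s_x ≤ r_x/s_x + 1.21 r_y / s_y`. -/
theorem IsPacking.log_edge (hF : IsTri F) (hP : IsPacking F c r) {v : ℕ} (hv : v ∈ vs F)
    {ρ R' : ℝ} (hρ : 0 < ρ) (hρR : ρ < R') (hreg : RegB F c r v ρ R') {x y : ℕ} (h : Adj F x y)
    (hne : sx c v ρ R' x ≠ sx c v ρ R' y) :
    dist (c x) (c v) ≤ 2 * R' ∧ dist (c y) (c v) ≤ 2 * R' ∧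
      |Real.log (sx c v ρ R' y) - Real.log (sx c v ρ R' x)| ≤
        2 * (r x / sx c v ρ R' x + r y / sx c v ρ R' y) := by
  have hx : x ∈ vs F := h.mem_left
  have hy : y ∈ vs F := hF.toIsSurf.adj_mem_right h
  obtain ⟨p, hpx, hpy⟩ := (hP.tang x hx y hy (hF.toIsSurf.adj_ne h)).2 h
  rcases lt_trichotomy (dist (c x) (c v)) (dist (c y) (c v)) with hd | hd | hd
  · exact e14_aux hP hρ hρR hreg hx hy hd hpx hpy hne
  · exfalso
    apply hne
    unfold sx
    rw [hd]
  · obtain ⟨h1, h2, h3⟩ := e14_aux hP hρ hρR hreg hy hx hd hpy hpx (Ne.symm hne)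
    refine ⟨h2, h1, ?_⟩
    rw [abs_sub_comm, add_comm (r x / _)]
    exact h3

end H19S
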