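import Pool.Agent.Lib.H19S.E14

/-!
# H19S, chunk E14b: lemma B, sum over the shells
-/

namespace H19S

open Finset Metric

variable {F : Finset (ℕ × ℕ × ℕ)} {c : ℕ → S2} {r : ℕ → ℝ}

/-- One shell: `area_sum` around `c v`: the discs whose centre is at distance `≤ 2 t` have
`∑ min (r x) t' ^ 2 ≤ 16000 t'^2` for `t' = 2 t`...; here the centre itself is in `ball (c v) (2 (2t))`. -/
theorem IsPacking.shell (hP : IsPacking F c r) (v : ℕ) {t : ℝ} (ht : 0 < t)
    (ht2 : t ≤ 1) (X : Finset ℕ) (hX : X ⊆ vs F) (h1 : ∀ x ∈ X, dist (c x) (c v) ≤ 2 * t)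
    (h2 : ∀ x ∈ X, r x ≤ 2 * t) : ∑ x ∈ X, r x ^ 2 ≤ 64000 * t ^ 2 := by
  have h := area_sum X c r (fun i hi => hP.pos i (hX hi))
    (fun i hi j hj hij => hP.disj i (hX hi) j (hX hj) hij) (y := c v) (ρ := 2 * t)
    (by linarith) (by linarith) (fun i hi => ⟨c i, mem_closedBall_self (hP.pos i (hX hi)).le, by
      rw [mem_ball]
      have := h1 i hi
      linarith⟩)
  have h3 : ∑ x ∈ X, r x ^ 2 = ∑ x ∈ X, min (r x) (2 * t) ^ 2 := by
    refine Finset.sum_congr rfl fun x hx => ?_
    rw [min_eq_left (h2 x hx)]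
  rw [h3]
  linarith

/-- (chunk E14b) `∑ (r_x / s_x)² ≤ C (log (R'/ρ) + 1)` over the vertices with `dist (c x) (c v) ≤ 2 R'`.
PROOF.  For such `x` one has `r_x ≤ max ρ d / 10`, `d = dist (c x) (c v)` (`RegB` with `s = max ρ d ≤ 2 R'`).  Put `x` in the shell `j` if
`j` is the least integer `≥ 0` with `d ≤ 2^(j+1) ρ`; so `d > 2^j ρ` if `j ≥ 1`; `s_x ≥ 2^j ρ / 2` (for `j ≥ 1`: `s_x ≥ min R' d`, `R' ≥ d / 2`) and
`j ≤ log₂ (2R'/ρ)`.  Shell `j` contributes at most `64000 (2^j ρ)² / (2^j ρ/2)² = 256000` by `shell` with `t = 2^j ρ`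
(`t < d ≤ 2R' ≤ 1/20`).  The number of shells is at most `log₂ (2 R'/ρ) + 1 ≤ 2 log (R'/ρ) + 2`. -/
theorem IsPacking.shells (hP : IsPacking F c r) {v : ℕ} (hv : v ∈ vs F)
    {ρ R' : ℝ} (hρ : 0 < ρ) (hρR : ρ < R') (hR' : R' ≤ 1 / 40) (hreg : RegB F c r v ρ R') :
    ∑ x ∈ (vs F).filter (fun x => dist (c x) (c v) ≤ 2 * R'), (r x / sx c v ρ R' x) ^ 2 ≤
      600000 * (Real.log (R' / ρ) + 1) := by
  classical
  set A := (vs F).filter (fun x => dist (c x) (c v) ≤ 2 * R') with hA
  have hR0 : 0 < R' := hρ.trans hρR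
  -- regularity
  have hr : ∀ x ∈ A, r x ≤ max ρ (dist (c x) (c v)) / 10 := by
    intro x hx
    rw [hA, Finset.mem_filter] at hx
    refine hreg (max ρ (dist (c x) (c v))) (le_max_left _ _)
      (max_le (by linarith) hx.2) x hx.1 ⟨c x, mem_closedBall_self (hP.pos x hx.1).le, ?_⟩
    rw [mem_closedBall]
    exact le_max_right _ _
  -- the shell index
  have hex : ∀ x : ℕ, ∃ j : ℕ, dist (c x) (c v) ≤ 2 ^ (j + 1) * ρ := by
    intro x
    obtain ⟨j, hj⟩ := pow_unbounded_of_one_lt (dist (c x) (c v) / ρ) (show (1 : ℝ) < 2 by norm_num)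
    refine ⟨j, ?_⟩
    rw [div_lt_iff₀ hρ] at hj
    have h2 : (2 : ℝ) ^ j * ρ ≤ 2 ^ (j + 1) * ρ := by
      rw [pow_succ]
      have : 0 < (2 : ℝ) ^ j * ρ := by positivity
      linarith
    linarith
  set J : ℕ → ℕ := fun x => Nat.find (hex x) with hJ
  have hJ1 : ∀ x, dist (c x) (c v) ≤ 2 ^ (J x + 1) * ρ := fun x => Nat.find_spec (hex x)
  have hJ2 : ∀ x, J x ≠ 0 → 2 ^ (J x) * ρ < dist (c x) (c v) := by
    intro x h0
    obtain ⟨i, hi⟩ := Nat.exists_eq_succ_of_ne_zero h0
    have h1 := Nat.find_min (hex x) (m := i) (by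
      change i < J x
      omega)
    rw [not_le] at h1
    rw [hi]
    exact h1
  set M : ℕ := ⌊Real.log (2 * R' / ρ) / Real.log 2⌋₊ with hM
  have hlog2 : 0 < Real.log 2 := Real.log_pos (by norm_num)
  have hJM : ∀ x ∈ A, J x ∈ range (M + 1) := by
    intro x hx
    rw [hA, Finset.mem_filter] at hx
    rw [Finset.mem_range]
    rcases Nat.eq_zero_or_pos (J x) with h0 | h0
    · omega
    · have h1 := hJ2 x h0.ne'
      have h2 : (2 : ℝ) ^ (J x) < 2 * R' / ρ := by
        rw [lt_div_iff₀ hρ]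
        linarith
      have h3 : (J x : ℝ) ≤ Real.log (2 * R' / ρ) / Real.log 2 := by
        rw [le_div_iff₀ hlog2, ← Real.log_pow]
        exact (Real.log_lt_log (by positivity) h2).le
      have h4 : J x ≤ M := Nat.le_floor h3
      omega
  -- one shell
  have hshell : ∀ j ∈ range (M + 1),
      ∑ x ∈ A.filter (fun x => J x = j), (r x / sx c v ρ R' x) ^ 2 ≤ 256000 := by
    intro j _
    have ht : 0 < (2 : ℝ) ^ j * ρ := by positivity
    rcases (A.filter (fun x => J x = j)).eq_empty_or_nonempty with h0 | ⟨x0, hx0⟩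
    · rw [h0, Finset.sum_empty]
      norm_num
    · have hbig : ∀ x ∈ A.filter (fun x => J x = j), 2 ^ j * ρ / 2 ≤ sx c v ρ R' x := by
        intro x hx
        rw [Finset.mem_filter, hA, Finset.mem_filter] at hx
        obtain ⟨⟨hxF, hxR⟩, hxj⟩ := hx
        unfold sx
        rcases Nat.eq_zero_or_pos j with hj0 | hj0
        · rw [hj0, pow_zero, one_mul]
          have := le_max_left ρ (min R' (dist (c x) (c v)))
          linarith
        · have h1 := hJ2 x (by omega)
          rw [hxj] at h1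
          refine le_trans ?_ (le_max_right _ _)
          refine le_min ?_ ?_
          · linarith
          · linarith
      have ht1 : (2 : ℝ) ^ j * ρ ≤ 1 := by
        rw [Finset.mem_filter, hA, Finset.mem_filter] at hx0
        obtain ⟨⟨hxF, hxR⟩, hxj⟩ := hx0
        rcases Nat.eq_zero_or_pos j with hj0 | hj0
        · rw [hj0, pow_zero, one_mul]
          linarith
        · have h1 := hJ2 x0 (by omega)
          rw [hxj] at h1
          linarith
      have hs := hP.shell v ht ht1 (A.filter (fun x => J x = j))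
        (fun x hx => (Finset.mem_filter.1 (Finset.mem_filter.1 hx).1).1)
        (by
          intro x hx
          have h1 := hJ1 x
          rw [(Finset.mem_filter.1 hx).2, pow_succ] at h1
          linarith)
        (by
          intro x hx
          have h1 := hJ1 x
          rw [(Finset.mem_filter.1 hx).2, pow_succ] at h1
          have h2 := hr x (Finset.mem_filter.1 hx).1
          have h3 : max ρ (dist (c x) (c v)) ≤ 2 * (2 ^ j * ρ) := by
            refine max_le ?_ (by linarith)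
            have : (1 : ℝ) ≤ 2 ^ j := one_le_pow₀ (by norm_num)
            nlinarith
          linarith)
      have h5 : ∀ x ∈ A.filter (fun x => J x = j), (r x / sx c v ρ R' x) ^ 2 ≤
          (4 / (2 ^ j * ρ) ^ 2) * r x ^ 2 := by
        intro x hx
        have h6 := hbig x hx
        have h7 : 0 < r x := hP.pos x (Finset.mem_filter.1 (Finset.mem_filter.1 hx).1).1
        have h8 : r x / sx c v ρ R' x ≤ r x / (2 ^ j * ρ / 2) :=
          div_le_div_of_nonneg_left h7.le (by positivity) h6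
        have h9 : 0 ≤ r x / sx c v ρ R' x := div_nonneg h7.le (by
          have : 0 < (2 : ℝ) ^ j * ρ / 2 := by positivity
          linarith)
        calc (r x / sx c v ρ R' x) ^ 2 ≤ (r x / (2 ^ j * ρ / 2)) ^ 2 := by
              exact pow_le_pow_left₀ h9 h8 2
          _ = (4 / (2 ^ j * ρ) ^ 2) * r x ^ 2 := by
              field_simp
              norm_num
      calc ∑ x ∈ A.filter (fun x => J x = j), (r x / sx c v ρ R' x) ^ 2
          ≤ ∑ x ∈ A.filter (fun x => J x = j), (4 / (2 ^ j * ρ) ^ 2) * r x ^ 2 :=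
            Finset.sum_le_sum h5
        _ = (4 / (2 ^ j * ρ) ^ 2) * ∑ x ∈ A.filter (fun x => J x = j), r x ^ 2 := by
            rw [Finset.mul_sum]
        _ ≤ (4 / (2 ^ j * ρ) ^ 2) * (64000 * (2 ^ j * ρ) ^ 2) :=
            mul_le_mul_of_nonneg_left hs (by positivity)
        _ = 256000 := by
            field_simp
            norm_num
  have hsum : ∑ x ∈ A, (r x / sx c v ρ R' x) ^ 2 =
      ∑ j ∈ range (M + 1), ∑ x ∈ A.filter (fun x => J x = j), (r x / sx c v ρ R' x) ^ 2 := by
    rw [Finset.sum_fiberwise_of_maps_to]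
    exact hJM
  rw [hsum]
  refine (Finset.sum_le_sum hshell).trans ?_
  rw [Finset.sum_const, Finset.card_range, nsmul_eq_mul]
  have hL0 : 0 ≤ Real.log (R' / ρ) := Real.log_nonneg (by
    rw [le_div_iff₀ hρ]
    linarith)
  have hM1 : (M : ℝ) ≤ 1 + Real.log (R' / ρ) / Real.log 2 := by
    have h1 : (M : ℝ) ≤ Real.log (2 * R' / ρ) / Real.log 2 := by
      apply Nat.floor_le
      apply div_nonneg _ hlog2.le
      apply Real.log_nonneg
      rw [le_div_iff₀ hρ]
      linarith
    have h2 : Real.log (2 * R' / ρ) = Real.log 2 + Real.log (R' / ρ) := by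
      rw [mul_div_assoc, Real.log_mul (by norm_num) (div_pos hR0 hρ).ne']
    rw [h2, add_div, div_self hlog2.ne'] at h1
    exact h1
  have hlog2' : (0.6931 : ℝ) < Real.log 2 := by
    have := Real.log_two_gt_d9
    linarith
  have h3 : Real.log (R' / ρ) / Real.log 2 ≤ Real.log (R' / ρ) * (2 : ℝ) := by
    rw [div_le_iff₀ hlog2]
    nlinarith
  push_cast
  have h4 : Real.log (R' / ρ) / Real.log 2 ≤ Real.log (R' / ρ) * (1.45 : ℝ) := by
    rw [div_le_iff₀ hlog2]
    nlinarith
  nlinarith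

end H19S
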