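import Pool.Agent.Lib.H19S.E1

/-!
# H19S, chunk E1b: circles are connected
-/

namespace H19S

open Metric
open scoped InnerProductSpace

/-- the orthogonal complement of `c` -/
noncomputable abbrev E1b_W (c : S2) : Submodule ℝ E3 := (ℝ ∙ (c : E3))ᗮ

theorem E1b_norm (c : S2) {s : ℝ} (h0 : 0 < s) (h2 : s < 2) (w : E1b_W c) (hw : ‖w‖ = 1) :
    ‖ct s • (c : E3) + st s • (w : E3)‖ = 1 := by
  have h1 : ⟪(c : E3), (w : E3)⟫_ℝ = 0 := Submodule.mem_orthogonal_singleton_iff_inner_right.1 w.2
  have h2' : ⟪(w : E3), (c : E3)⟫_ℝ = 0 := by rw [real_inner_comm]; exact h1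
  have h3 : ⟪(c : E3), (c : E3)⟫_ℝ = 1 := ip_self c
  have h4 : ⟪(w : E3), (w : E3)⟫_ℝ = 1 := by
    rw [real_inner_self_eq_norm_sq]
    have : ‖(w : E3)‖ = 1 := hw
    rw [this]; norm_num
  have h5 := ct_sq_add_st_sq h0 h2
  have h6 : ‖ct s • (c : E3) + st s • (w : E3)‖ ^ 2 = 1 := by
    rw [← real_inner_self_eq_norm_sq, inner_add_left, inner_add_right, inner_add_right]
    simp only [inner_smul_left, inner_smul_right, RCLike.conj_to_real, h1, h2', h3, h4]
    nlinarith
  have h7 : 0 ≤ ‖ct s • (c : E3) + st s • (w : E3)‖ := norm_nonneg _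
  nlinarith

/-- the parametrisation of the circle by the unit sphere of the orthogonal complement -/
noncomputable def E1b_phi (c : S2) {s : ℝ} (h0 : 0 < s) (h2 : s < 2)
    (w : sphere (0 : E1b_W c) 1) : S2 :=
  ⟨ct s • (c : E3) + st s • ((w : E1b_W c) : E3), by
    rw [mem_sphere_zero_iff_norm]
    exact E1b_norm c h0 h2 w (mem_sphere_zero_iff_norm.1 w.2)⟩

/-- (chunk E1b) Circles are connected: for `0 < s < 2` the circle is the image of the unit sphere of
the orthogonal complement of `c` (dimension `2`, `isPreconnected_sphere`) under the continuous map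
`w ↦ ct s • c + st s • w`; for other `s` it is empty or a single point. -/
theorem isPreconnected_circle (c : S2) (s : ℝ) : IsPreconnected {q : S2 | dist q c = s} := by
  by_cases h0 : 0 < s
  · by_cases h2 : s < 2
    · -- the main case
      have hrank : 1 < Module.rank ℝ (E1b_W c) := by
        have hc0 : (c : E3) ≠ 0 := by
          intro h
          have h1 := norm_S2 c
          rw [h, norm_zero] at h1
          norm_num at h1
        haveI : Fact (Module.finrank ℝ E3 = 2 + 1) := ⟨by simp⟩
        have h1 : Module.finrank ℝ (E1b_W c) = 2 := Submodule.finrank_orthogonal_span_singleton hc0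
        rw [← Module.finrank_eq_rank, h1]
        norm_num
      have hsph : IsPreconnected (sphere (0 : E1b_W c) 1) := isPreconnected_sphere hrank 0 1
      haveI : PreconnectedSpace (sphere (0 : E1b_W c) 1) :=
        Subtype.preconnectedSpace hsph
      have hcont : Continuous (E1b_phi c h0 h2) := by
        unfold E1b_phi
        apply Continuous.subtype_mk
        fun_prop
      have hrange : {q : S2 | dist q c = s} = Set.range (E1b_phi c h0 h2) := by
        have hst := st_pos h0 h2
        have hcs := ct_sq_add_st_sq h0 h2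
        ext q
        rw [Set.mem_setOf_eq, Set.mem_range, ← uu_eq_zero_iff h0 h2, uu_eq_zero_iff' h0 h2]
        constructor
        · intro hq
          have hq' : ⟪(c : E3), (q : E3)⟫_ℝ = ct s := by
            rw [real_inner_comm]; exact hq
          have hq'' : ⟪(q : E3), (c : E3)⟫_ℝ = ct s := hq
          have hcc : ⟪(c : E3), (c : E3)⟫_ℝ = 1 := ip_self c
          have hqq : ⟪(q : E3), (q : E3)⟫_ℝ = 1 := ip_self q
          have hmem : (st s)⁻¹ • ((q : E3) - ct s • (c : E3)) ∈ E1b_W c := by
            rw [Submodule.mem_orthogonal_singleton_iff_inner_right, inner_smul_right,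
              inner_sub_right, inner_smul_right, hq', hcc]
            ring
          have hnorm : ‖(⟨(st s)⁻¹ • ((q : E3) - ct s • (c : E3)), hmem⟩ : E1b_W c)‖ = 1 := by
            change ‖(st s)⁻¹ • ((q : E3) - ct s • (c : E3))‖ = 1
            have h6 : ‖(st s)⁻¹ • ((q : E3) - ct s • (c : E3))‖ ^ 2 = 1 := by
              rw [← real_inner_self_eq_norm_sq, inner_smul_left, inner_smul_right, inner_sub_left,
                inner_sub_right, inner_sub_right]
              simp only [inner_smul_left, inner_smul_right, RCLike.conj_to_real, hq', hq'', hcc,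
                hqq]
              field_simp
              nlinarith
            have h7 : 0 ≤ ‖(st s)⁻¹ • ((q : E3) - ct s • (c : E3))‖ := norm_nonneg _
            nlinarith
          refine ⟨⟨⟨_, hmem⟩, mem_sphere_zero_iff_norm.2 hnorm⟩, ?_⟩
          apply Subtype.ext
          change ct s • (c : E3) + st s • ((st s)⁻¹ • ((q : E3) - ct s • (c : E3))) = (q : E3)
          rw [smul_smul, mul_inv_cancel₀ hst.ne', one_smul]
          abel
        · rintro ⟨w, rfl⟩
          have h1 : ⟪((w : E1b_W c) : E3), (c : E3)⟫_ℝ = 0 :=
            Submodule.mem_orthogonal_singleton_iff_inner_left.1 (w : E1b_W c).2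
          have hcc : ⟪(c : E3), (c : E3)⟫_ℝ = 1 := ip_self c
          change ⟪ct s • (c : E3) + st s • ((w : E1b_W c) : E3), (c : E3)⟫_ℝ = ct s
          rw [inner_add_left, inner_smul_left, inner_smul_left, h1, hcc]
          simp
      rw [hrange]
      exact isPreconnected_range hcont
    · -- at most the antipode
      apply Set.Subsingleton.isPreconnected
      intro q hq q' hq'
      rw [Set.mem_setOf_eq] at hq hq'
      push Not at h2
      have e1 := dist_sq q c
      have e2 := dist_sq q' c
      have e3 := dist_le_two q c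
      have e4 := neg_one_le_ip q c
      have e5 := neg_one_le_ip q' c
      have f1 : ip q c = -1 := by rw [hq] at e1; nlinarith
      have f2 : ip q' c = -1 := by rw [hq'] at e2; nlinarith
      have key : ∀ x : S2, ip x c = -1 → (x : E3) = -(c : E3) := by
        intro x hx
        have h3 : ‖(x : E3) + (c : E3)‖ ^ 2 = 0 := by
          have g1 : ⟪(x : E3), (c : E3)⟫_ℝ = -1 := hx
          have g2 : ⟪(c : E3), (x : E3)⟫_ℝ = -1 := by rw [real_inner_comm]; exact g1
          have g3 : ⟪(c : E3), (c : E3)⟫_ℝ = 1 := ip_self c
          have g4 : ⟪(x : E3), (x : E3)⟫_ℝ = 1 := ip_self x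
          rw [← real_inner_self_eq_norm_sq, inner_add_left, inner_add_right, inner_add_right,
            g1, g2, g3, g4]
          norm_num
        have h4 : (x : E3) + (c : E3) = 0 := by
          rw [← norm_eq_zero]
          exact pow_eq_zero_iff (two_ne_zero) |>.1 h3
        exact eq_neg_of_add_eq_zero_left h4
      apply Subtype.ext
      rw [key q f1, key q' f2]
  · -- at most the centre
    apply Set.Subsingleton.isPreconnected
    intro q hq q' hq'
    rw [Set.mem_setOf_eq] at hq hq'
    have e1 : dist q c = 0 := le_antisymm (by rw [hq]; exact not_lt.1 h0) dist_nonneg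
    have e2 : dist q' c = 0 := le_antisymm (by rw [hq']; exact not_lt.1 h0) dist_nonneg
    rw [dist_eq_zero.1 e1, dist_eq_zero.1 e2]

end H19S
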