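import Pool.Agent.Lib.H19S.E1

/-!
# H19S, chunk E2: tangent discs
-/

namespace H19S

open Metric
open scoped InnerProductSpace

/-- Inner unit normal (in the tangent plane of the sphere) of the disc `(c, r)` at its boundary
point `p`. -/
noncomputable def nv (c : S2) (r : ℝ) (p : S2) : E3 := (st r)⁻¹ • ((c : E3) - ct r • (p : E3))

theorem E2_inner_self (p : S2) : ⟪(p : E3), (p : E3)⟫_ℝ = 1 := ip_self p

theorem E2_centre {c p : S2} {r : ℝ} (h0 : 0 < r) (h2 : r < 2) :
    (c : E3) = ct r • (p : E3) + st r • nv c r p := by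
  have h := (st_pos h0 h2).ne'
  unfold nv
  rw [smul_smul, mul_inv_cancel₀ h, one_smul]
  abel

theorem norm_nv {c p : S2} {r : ℝ} (h0 : 0 < r) (h2 : r < 2) (hp : uu c r p = 0) :
    ‖nv c r p‖ = 1 := by
  have hs := st_pos h0 h2
  have hip : ip p c = ct r := (uu_eq_zero_iff' h0 h2).1 hp
  have hcs := ct_sq_add_st_sq h0 h2
  have h1 : ‖nv c r p‖ ^ 2 = 1 := by
    rw [← real_inner_self_eq_norm_sq]
    unfold nv
    have e1 : ⟪(c : E3), (p : E3)⟫_ℝ = ct r := by
      rw [← hip, ip_comm]; rfl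
    have e2 : ⟪(p : E3), (c : E3)⟫_ℝ = ct r := hip
    rw [inner_smul_left, inner_smul_right, inner_sub_left, inner_sub_right, inner_sub_right,
      inner_smul_left, inner_smul_right, inner_smul_left, inner_smul_right,
      E2_inner_self, E2_inner_self, e1, e2]
    simp only [RCLike.conj_to_real]
    field_simp
    nlinarith
  have h3 : 0 ≤ ‖nv c r p‖ := norm_nonneg _
  nlinarith

theorem inner_nv {c p : S2} {r : ℝ} (h0 : 0 < r) (h2 : r < 2) (hp : uu c r p = 0) :
    ⟪(p : E3), nv c r p⟫_ℝ = 0 := by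
  have hs := st_pos h0 h2
  have hip : ip p c = ct r := (uu_eq_zero_iff' h0 h2).1 hp
  unfold nv
  have e2 : ⟪(p : E3), (c : E3)⟫_ℝ = ct r := hip
  rw [inner_smul_right, inner_sub_right, inner_smul_right, E2_inner_self, e2]
  ring

/-- `uu c r q = ⟪q, n⟫ - (ct r / st r) (1 - ip q p)`, from `c = ct r • p + st r • n`. -/
theorem uu_eq {c p : S2} {r : ℝ} (h0 : 0 < r) (h2 : r < 2) (q : S2) :
    uu c r q = ⟪(q : E3), nv c r p⟫_ℝ - ct r / st r * (1 - ip q p) := by
  have hs := (st_pos h0 h2).ne'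
  unfold nv uu
  have e1 : ⟪(q : E3), (c : E3)⟫_ℝ = ip q c := rfl
  have e2 : ⟪(q : E3), (p : E3)⟫_ℝ = ip q p := rfl
  rw [inner_smul_right, inner_sub_right, inner_smul_right, e1, e2]
  field_simp
  ring

/-- The angle of the centres is the sum of the angular radii (external tangency). -/
def Tg (c : S2) (r : ℝ) (c' : S2) (r' : ℝ) : Prop := ip c c' = ct r * ct r' - st r * st r'

theorem Tg.symm {c c' : S2} {r r' : ℝ} (h : Tg c r c' r') : Tg c' r' c r := by
  unfold Tg at *; rw [ip_comm, h]; ring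

/-- Expand `c = ct r • p + st r • n`, `c' = ct r' • p - st r' • n`. -/
theorem Tg_of_touch {c c' p : S2} {r r' : ℝ} (h0 : 0 < r) (h2 : r < 2) (h0' : 0 < r') (h2' : r' < 2)
    (hp : uu c r p = 0) (hp' : uu c' r' p = 0) (hn : nv c' r' p = - nv c r p) :
    Tg c r c' r' := by
  unfold Tg ip
  have hc := E2_centre (c := c) (p := p) h0 h2
  have hc' := E2_centre (c := c') (p := p) h0' h2'
  rw [hn] at hc'
  have e1 : ⟪(p : E3), nv c r p⟫_ℝ = 0 := inner_nv h0 h2 hp
  have e2 : ⟪nv c r p, (p : E3)⟫_ℝ = 0 := by rw [real_inner_comm]; exact e1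
  have e3 : ⟪nv c r p, nv c r p⟫_ℝ = 1 := by
    rw [real_inner_self_eq_norm_sq, norm_nv h0 h2 hp]; norm_num
  rw [hc, hc', inner_add_left, inner_add_right, inner_add_right]
  simp only [inner_smul_left, inner_smul_right, inner_neg_right, RCLike.conj_to_real,
    E2_inner_self, e1, e2, e3]
  ring

/-- From `uu_eq`. -/
theorem sum_uu {c c' p : S2} {r r' : ℝ} (h0 : 0 < r) (h2 : r < 2) (h0' : 0 < r') (h2' : r' < 2)
    (hn : nv c' r' p = - nv c r p) (q : S2) :
    uu c r q + uu c' r' q = - (ct r / st r + ct r' / st r') * (1 - ip q p) := by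
  rw [uu_eq (p := p) h0 h2 q, uu_eq (p := p) h0' h2' q, hn, inner_neg_right]
  ring

/-- `κ > 0` if some point is outside both discs (`1 - ip q p ≥ 0`). -/
theorem kappa_pos {c c' p q : S2} {r r' : ℝ} (h0 : 0 < r) (h2 : r < 2) (h0' : 0 < r')
    (h2' : r' < 2) (hn : nv c' r' p = - nv c r p) (hq : uu c r q + uu c' r' q < 0) :
    0 < ct r / st r + ct r' / st r' := by
  rw [sum_uu h0 h2 h0' h2' hn q] at hq
  have h1 := ip_le_one q p
  by_contra hcon
  push Not at hcon
  nlinarith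

end H19S
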