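import Pool.Agent.Lib.H19S.E2

/-!
# H19S, chunk E2b: discs with disjoint interiors and a common point are tangent
-/

namespace H19S

open Metric
open scoped InnerProductSpace

/-- moving from a boundary point `p` in a direction `m` with `⟪m, n⟫ > 0` one enters the disc -/
theorem E2b_enter {c p : S2} {r : ℝ} (h0 : 0 < r) (h2 : r < 2) (hp : uu c r p = 0) (m : E3)
    (hpm : ⟪(p : E3), m⟫_ℝ = 0) (hm : 0 < ⟪m, nv c r p⟫_ℝ) {ε : ℝ} (hε : 0 < ε)
    (hε2 : ε * ‖m‖ ^ 2 < 2 * st r * ⟪m, nv c r p⟫_ℝ) (q : S2) (L : ℝ) (hL : 0 < L)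
    (hL2 : L ^ 2 = 1 + ε ^ 2 * ‖m‖ ^ 2) (hq : L • (q : E3) = (p : E3) + ε • m) :
    q ∈ ball c r := by
  rw [mem_ball_iff h0 h2]
  have hs := st_pos h0 h2
  have hcs := ct_sq_add_st_sq h0 h2
  have hc := E2_centre (c := c) (p := p) h0 h2
  have e1 : ⟪(p : E3), nv c r p⟫_ℝ = 0 := inner_nv h0 h2 hp
  have e2 : ⟪m, (p : E3)⟫_ℝ = 0 := by rw [real_inner_comm]; exact hpm
  have h1 : L * ip q c = ct r + ε * (st r * ⟪m, nv c r p⟫_ℝ) := by
    have h3 : L * ip q c = ⟪L • (q : E3), (c : E3)⟫_ℝ := by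
      rw [inner_smul_left]; rfl
    have k1 : ⟪(p : E3), (c : E3)⟫_ℝ = ct r := by
      rw [hc, inner_add_right, inner_smul_right, inner_smul_right, E2_inner_self, e1]
      ring
    have k2 : ⟪m, (c : E3)⟫_ℝ = st r * ⟪m, nv c r p⟫_ℝ := by
      rw [hc, inner_add_right, inner_smul_right, inner_smul_right, e2]
      ring
    rw [h3, hq, inner_add_left, inner_smul_left, k1, k2]
    simp only [RCLike.conj_to_real]
  unfold uu
  apply div_pos _ hs
  have hct : ct r ≤ 1 := by nlinarith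
  have hL1 : 1 ≤ L := by nlinarith [sq_nonneg (ε * ‖m‖)]
  have hLle : L - 1 ≤ ε ^ 2 * ‖m‖ ^ 2 / 2 := by nlinarith
  have h4 : ct r * (L - 1) ≤ ε ^ 2 * ‖m‖ ^ 2 / 2 := by nlinarith
  have h5 : ε * (ε * ‖m‖ ^ 2) < ε * (2 * st r * ⟪m, nv c r p⟫_ℝ) :=
    mul_lt_mul_of_pos_left hε2 hε
  have h6 : 0 < L * (ip q c - ct r) := by nlinarith
  exact (mul_pos_iff_of_pos_left hL).1 h6

/-- (chunk E2b) Two discs with disjoint interiors and a common point `p` are tangent at `p`: `p` is on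
both boundaries by `not_mem_ball_of_disjoint`; let `n, n'` be the unit normals (orthogonal to `p`).
If `n ≠ - n'` then `m = n + n'` satisfies `⟪m, n⟫ = ⟪m, n'⟫ = 1 + ⟪n, n'⟫ > 0`, and
`q = (p + ε m) / ‖p + ε m‖` is in both open discs for small `ε > 0`:
`uu c r q * ‖p + ε m‖ = ε ⟪m, n⟫ - (ct r / st r) (‖p + ε m‖ - 1)` and
`0 ≤ ‖p + ε m‖ - 1 ≤ ε² ‖m‖² / 2`. -/
theorem touch {c c' p : S2} {r r' : ℝ} (h0 : 0 < r) (h2 : r < 2) (h0' : 0 < r') (h2' : r' < 2)
    (hd : Disjoint (ball c r) (ball c' r')) (hp : p ∈ closedBall c r) (hp' : p ∈ closedBall c' r') :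
    uu c r p = 0 ∧ uu c' r' p = 0 ∧ nv c' r' p = - nv c r p := by
  have hnb : p ∉ ball c r := not_mem_ball_of_disjoint h0' hd hp'
  have hnb' : p ∉ ball c' r' := not_mem_ball_of_disjoint h0 hd.symm hp
  have hu : uu c r p = 0 := by
    rw [mem_closedBall_iff h0 h2] at hp
    rw [mem_ball_iff h0 h2] at hnb
    linarith
  have hu' : uu c' r' p = 0 := by
    rw [mem_closedBall_iff h0' h2'] at hp'
    rw [mem_ball_iff h0' h2'] at hnb'
    linarith
  refine ⟨hu, hu', ?_⟩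
  set n := nv c r p with hn
  set n' := nv c' r' p with hn'
  have e1 : ⟪n, n⟫_ℝ = 1 := by
    rw [real_inner_self_eq_norm_sq, norm_nv h0 h2 hu]; norm_num
  have e2 : ⟪n', n'⟫_ℝ = 1 := by
    rw [real_inner_self_eq_norm_sq, norm_nv h0' h2' hu']; norm_num
  have e3 : ⟪(p : E3), n⟫_ℝ = 0 := inner_nv h0 h2 hu
  have e4 : ⟪(p : E3), n'⟫_ℝ = 0 := inner_nv h0' h2' hu'
  by_contra hne
  have hm0 : n + n' ≠ 0 := by
    intro h
    exact hne (eq_neg_of_add_eq_zero_right h)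
  have hmpos : 0 < ‖n + n'‖ ^ 2 := by
    have := norm_pos_iff.2 hm0
    positivity
  have hms : ‖n + n'‖ ^ 2 = 2 + 2 * ⟪n, n'⟫_ℝ := by
    rw [← real_inner_self_eq_norm_sq, inner_add_left, inner_add_right, inner_add_right, e1, e2,
      real_inner_comm n n']
    ring
  have hk : 0 < 1 + ⟪n, n'⟫_ℝ := by linarith
  have f1 : ⟪n + n', n⟫_ℝ = 1 + ⟪n, n'⟫_ℝ := by
    rw [inner_add_left, e1, real_inner_comm]
  have f2 : ⟪n + n', n'⟫_ℝ = 1 + ⟪n, n'⟫_ℝ := by
    rw [inner_add_left, e2]; ring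
  have hpm : ⟪(p : E3), n + n'⟫_ℝ = 0 := by rw [inner_add_right, e3, e4]; ring
  have hs := st_pos h0 h2
  have hs' := st_pos h0' h2'
  obtain ⟨ε, hε, hε1, hε2⟩ : ∃ ε : ℝ, 0 < ε ∧
      ε * ‖n + n'‖ ^ 2 < 2 * st r * (1 + ⟪n, n'⟫_ℝ) ∧
      ε * ‖n + n'‖ ^ 2 < 2 * st r' * (1 + ⟪n, n'⟫_ℝ) := by
    refine ⟨min (st r) (st r') / 2, by positivity, ?_, ?_⟩
    · rw [hms]
      have := min_le_left (st r) (st r')
      nlinarith
    · rw [hms]
      have := min_le_right (st r) (st r')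
      nlinarith
  set v : E3 := (p : E3) + ε • (n + n') with hv
  have hvn : ‖v‖ ^ 2 = 1 + ε ^ 2 * ‖n + n'‖ ^ 2 := by
    have g1 : ⟪n + n', (p : E3)⟫_ℝ = 0 := by rw [real_inner_comm]; exact hpm
    rw [← real_inner_self_eq_norm_sq, hv, inner_add_left, inner_add_right, inner_add_right,
      inner_smul_left, inner_smul_right, inner_smul_left, inner_smul_right, E2_inner_self, hpm,
      g1, real_inner_self_eq_norm_sq]
    simp only [RCLike.conj_to_real]
    ring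
  have hvpos : 0 < ‖v‖ := by
    refine lt_of_le_of_ne (norm_nonneg _) (fun h => ?_)
    rw [← h] at hvn
    nlinarith [sq_nonneg (ε * ‖n + n'‖)]
  let q : S2 := ⟨‖v‖⁻¹ • v, by
    rw [mem_sphere_zero_iff_norm, norm_smul, norm_inv, norm_norm, inv_mul_cancel₀ hvpos.ne']⟩
  have hq : ‖v‖ • (q : E3) = (p : E3) + ε • (n + n') := by
    change ‖v‖ • (‖v‖⁻¹ • v) = _
    rw [smul_smul, mul_inv_cancel₀ hvpos.ne', one_smul]
  have hq1 : q ∈ ball c r := E2b_enter h0 h2 hu (n + n') hpm (by rw [← hn, f1]; exact hk) hε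
    (by rw [← hn, f1]; exact hε1) q ‖v‖ hvpos hvn hq
  have hq2 : q ∈ ball c' r' := E2b_enter h0' h2' hu' (n + n') hpm (by rw [← hn', f2]; exact hk) hε
    (by rw [← hn', f2]; exact hε2) q ‖v‖ hvpos hvn hq
  exact Set.disjoint_left.1 hd hq1 hq2

/-- Tangent discs have only one common point (`sum_uu`, `κ > 0`: `0 ≤ - κ (1 - ip q p)` gives
`ip q p ≥ 1`).  The hypothesis: some point `q'` is outside both closed discs. -/
theorem touch_unique {c c' p q q' : S2} {r r' : ℝ} (h0 : 0 < r) (h2 : r < 2) (h0' : 0 < r')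
    (h2' : r' < 2) (hd : Disjoint (ball c r) (ball c' r')) (hq' : q' ∉ closedBall c r)
    (hq'' : q' ∉ closedBall c' r') (hp : p ∈ closedBall c r) (hp' : p ∈ closedBall c' r')
    (h1 : q ∈ closedBall c r) (h1' : q ∈ closedBall c' r') : q = p := by
  obtain ⟨hu, hu', hn⟩ := touch h0 h2 h0' h2' hd hp hp'
  rw [mem_closedBall_iff h0 h2] at hq' h1
  rw [mem_closedBall_iff h0' h2'] at hq'' h1'
  have hk := kappa_pos (q := q') h0 h2 h0' h2' hn (by linarith)
  have hs := sum_uu h0 h2 h0' h2' hn q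
  apply eq_of_ip_eq_one
  by_contra hcon
  push Not at hcon
  nlinarith

/-- Three discs with pairwise disjoint interiors have no common point: the normals at `p` satisfy
`n' = -n`, `n'' = -n`, `n'' = -n'`, so `n = 0`, but `‖n‖ = 1`. -/
theorem no_three {c c' c'' p : S2} {r r' r'' : ℝ} (h0 : 0 < r) (h0' : 0 < r') (h0'' : 0 < r'')
    (hd : Disjoint (ball c r) (ball c' r')) (hd' : Disjoint (ball c r) (ball c'' r''))
    (hd'' : Disjoint (ball c' r') (ball c'' r'')) (hp : p ∈ closedBall c r)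
    (hp' : p ∈ closedBall c' r') (hp'' : p ∈ closedBall c'' r'') : False := by
  have h2 : r < 2 := lt_two_of_disjoint h0' hd
  have h2' : r' < 2 := lt_two_of_disjoint h0 hd.symm
  have h2'' : r'' < 2 := lt_two_of_disjoint h0 hd'.symm
  obtain ⟨hu, hu', hn⟩ := touch h0 h2 h0' h2' hd hp hp'
  obtain ⟨-, -, hn'⟩ := touch h0 h2 h0'' h2'' hd' hp hp''
  obtain ⟨-, -, hn''⟩ := touch h0' h2' h0'' h2'' hd'' hp' hp''
  have h1 : nv c r p = 0 := by
    rw [hn, neg_neg] at hn''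
    rw [hn'] at hn''
    have h3 : nv c r p + nv c r p = 0 := by
      nth_rewrite 1 [← hn'']
      simp
    have h4 : (2 : ℝ) • nv c r p = 0 := by rw [two_smul]; exact h3
    exact (smul_eq_zero.1 h4).resolve_left (by norm_num)
  have h5 := norm_nv h0 h2 hu
  rw [h1, norm_zero] at h5
  norm_num at h5

end H19S
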