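import Pool.Agent.Lib.H19S.E2

/-!
# H19S, chunk E3: the circle through the three contact points of three mutually tangent discs

`bb` is one half of the determinant of the four Lorentz vectors `(q, 1)`, `(cᵢ, tᵢ) / sᵢ`
(`tᵢ = ct rᵢ`, `sᵢ = st rᵢ`) up to sign.  It vanishes exactly on the circle through the three contact points.
-/

namespace H19S

open Metric
open scoped InnerProductSpace

/-- Triple product. -/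
def tp (a b c : E3) : ℝ :=
  a 0 * (b 1 * c 2 - b 2 * c 1) - a 1 * (b 0 * c 2 - b 2 * c 0) + a 2 * (b 0 * c 1 - b 1 * c 0)

noncomputable def bb (c₁ : S2) (r₁ : ℝ) (c₂ : S2) (r₂ : ℝ) (c₃ : S2) (r₃ : ℝ) (q : S2) : ℝ :=
  (ct r₁ * tp q c₂ c₃ + ct r₂ * tp c₁ q c₃ + ct r₃ * tp c₁ c₂ q - tp c₁ c₂ c₃) /
    (2 * st r₁ * st r₂ * st r₃)

theorem E3_continuous_coord (i : Fin 3) : Continuous fun q : S2 => (q : E3) i := by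
  have h1 : Continuous fun q : S2 => (q : E3) := continuous_subtype_val
  exact (EuclideanSpace.proj (𝕜 := ℝ) i).continuous.comp h1

theorem continuous_bb (c₁ : S2) (r₁ : ℝ) (c₂ : S2) (r₂ : ℝ) (c₃ : S2) (r₃ : ℝ) :
    Continuous fun q => bb c₁ r₁ c₂ r₂ c₃ r₃ q := by
  unfold bb tp
  have h0 := E3_continuous_coord 0
  have h1 := E3_continuous_coord 1
  have h2 := E3_continuous_coord 2
  fun_prop

theorem bb_swap (c₁ : S2) (r₁ : ℝ) (c₂ : S2) (r₂ : ℝ) (c₃ : S2) (r₃ : ℝ) (q : S2) :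
    bb c₂ r₂ c₁ r₁ c₃ r₃ q = - bb c₁ r₁ c₂ r₂ c₃ r₃ q := by
  unfold bb tp
  rw [← neg_div]
  congr 1
  · ring
  · ring

theorem bb_rot (c₁ : S2) (r₁ : ℝ) (c₂ : S2) (r₂ : ℝ) (c₃ : S2) (r₃ : ℝ) (q : S2) :
    bb c₂ r₂ c₃ r₃ c₁ r₁ q = bb c₁ r₁ c₂ r₂ c₃ r₃ q := by
  unfold bb tp
  congr 1
  · ring
  · ring

theorem E3_inner (a b : E3) : ⟪a, b⟫_ℝ = a 0 * b 0 + a 1 * b 1 + a 2 * b 2 := by
  rw [PiLp.inner_apply, Fin.sum_univ_three]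
  simp only [RCLike.inner_apply, conj_trivial]
  ring

/-- the determinant of a symmetric `4 × 4` matrix -/
def E3_D (a b c d e f g h i j : ℝ) : ℝ :=
  a * (e * (h * j - i * i) - f * (f * j - i * g) + g * (f * i - h * g)) -
  b * (b * (h * j - i * i) - f * (c * j - i * d) + g * (c * i - h * d)) +
  c * (b * (f * j - g * i) - e * (c * j - i * d) + g * (c * g - f * d)) -
  d * (b * (f * i - g * h) - e * (c * i - h * d) + f * (c * g - f * d))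

/-- The Gram determinant identity for the Lorentz form in dimension four, with the first vector
`(q, 1)`. -/
theorem E3_gram (q0 q1 q2 x0 x1 x2 y0 y1 y2 z0 z1 z2 t1 t2 t3 : ℝ) :
    (t1 * (q0 * (y1 * z2 - y2 * z1) - q1 * (y0 * z2 - y2 * z0) + q2 * (y0 * z1 - y1 * z0)) +
      t2 * (x0 * (q1 * z2 - q2 * z1) - x1 * (q0 * z2 - q2 * z0) + x2 * (q0 * z1 - q1 * z0)) +
      t3 * (x0 * (y1 * q2 - y2 * q1) - x1 * (y0 * q2 - y2 * q0) + x2 * (y0 * q1 - y1 * q0)) -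
      (x0 * (y1 * z2 - y2 * z1) - x1 * (y0 * z2 - y2 * z0) + x2 * (y0 * z1 - y1 * z0))) ^ 2 =
    - E3_D (q0 * q0 + q1 * q1 + q2 * q2 - 1) (q0 * x0 + q1 * x1 + q2 * x2 - t1)
      (q0 * y0 + q1 * y1 + q2 * y2 - t2) (q0 * z0 + q1 * z1 + q2 * z2 - t3)
      (x0 * x0 + x1 * x1 + x2 * x2 - t1 * t1) (x0 * y0 + x1 * y1 + x2 * y2 - t1 * t2)
      (x0 * z0 + x1 * z1 + x2 * z2 - t1 * t3) (y0 * y0 + y1 * y1 + y2 * y2 - t2 * t2)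
      (y0 * z0 + y1 * z1 + y2 * z2 - t2 * t3) (z0 * z0 + z1 * z1 + z2 * z2 - t3 * t3) := by
  unfold E3_D
  ring

theorem E3_D_tangent (w1 w2 w3 s1 s2 s3 : ℝ) :
    - E3_D 0 w1 w2 w3 (s1 ^ 2) (-(s1 * s2)) (-(s1 * s3)) (s2 ^ 2) (-(s2 * s3)) (s3 ^ 2) =
      4 * (s1 * s2 * s3) * (s3 * (w1 * w2) + s1 * (w2 * w3) + s2 * (w3 * w1)) := by
  unfold E3_D
  ring

/-- (chunk E3) THE IDENTITY.  With `A` the `4 × 4` matrix with rows `(q, 1)`, `(cᵢ / sᵢ, tᵢ / sᵢ)` and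
`J = diag (1, 1, 1, -1)` one has `det A = ± 2 bb` and `A J Aᵀ = [0 u₁ u₂ u₃; u₁ 1 -1 -1; u₂ -1 1 -1; u₃ -1 -1 1]`
(tangency), whose determinant is `-4 (u₁ u₂ + u₂ u₃ + u₃ u₁)`; take determinants. -/
theorem bb_sq {c₁ c₂ c₃ : S2} {r₁ r₂ r₃ : ℝ} (h1 : 0 < r₁) (h1' : r₁ < 2) (h2 : 0 < r₂)
    (h2' : r₂ < 2) (h3 : 0 < r₃) (h3' : r₃ < 2) (h12 : Tg c₁ r₁ c₂ r₂) (h13 : Tg c₁ r₁ c₃ r₃)
    (h23 : Tg c₂ r₂ c₃ r₃) (q : S2) :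
    bb c₁ r₁ c₂ r₂ c₃ r₃ q ^ 2 = uu c₁ r₁ q * uu c₂ r₂ q + uu c₂ r₂ q * uu c₃ r₃ q +
      uu c₃ r₃ q * uu c₁ r₁ q := by
  have hs1 := st_pos h1 h1'
  have hs2 := st_pos h2 h2'
  have hs3 := st_pos h3 h3'
  have k1 := ct_sq_add_st_sq h1 h1'
  have k2 := ct_sq_add_st_sq h2 h2'
  have k3 := ct_sq_add_st_sq h3 h3'
  have g00 : (q : E3) 0 * (q : E3) 0 + (q : E3) 1 * (q : E3) 1 + (q : E3) 2 * (q : E3) 2 - 1 = 0 := by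
    rw [← E3_inner, E2_inner_self]; ring
  have g11 : (c₁ : E3) 0 * (c₁ : E3) 0 + (c₁ : E3) 1 * (c₁ : E3) 1 + (c₁ : E3) 2 * (c₁ : E3) 2 -
      ct r₁ * ct r₁ = st r₁ ^ 2 := by
    rw [← E3_inner, E2_inner_self]; linarith
  have g22 : (c₂ : E3) 0 * (c₂ : E3) 0 + (c₂ : E3) 1 * (c₂ : E3) 1 + (c₂ : E3) 2 * (c₂ : E3) 2 -
      ct r₂ * ct r₂ = st r₂ ^ 2 := by
    rw [← E3_inner, E2_inner_self]; linarith
  have g33 : (c₃ : E3) 0 * (c₃ : E3) 0 + (c₃ : E3) 1 * (c₃ : E3) 1 + (c₃ : E3) 2 * (c₃ : E3) 2 -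
      ct r₃ * ct r₃ = st r₃ ^ 2 := by
    rw [← E3_inner, E2_inner_self]; linarith
  unfold Tg ip at h12 h13 h23
  have g12 : (c₁ : E3) 0 * (c₂ : E3) 0 + (c₁ : E3) 1 * (c₂ : E3) 1 + (c₁ : E3) 2 * (c₂ : E3) 2 -
      ct r₁ * ct r₂ = -(st r₁ * st r₂) := by
    rw [← E3_inner, h12]; ring
  have g13 : (c₁ : E3) 0 * (c₃ : E3) 0 + (c₁ : E3) 1 * (c₃ : E3) 1 + (c₁ : E3) 2 * (c₃ : E3) 2 -
      ct r₁ * ct r₃ = -(st r₁ * st r₃) := by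
    rw [← E3_inner, h13]; ring
  have g23 : (c₂ : E3) 0 * (c₃ : E3) 0 + (c₂ : E3) 1 * (c₃ : E3) 1 + (c₂ : E3) 2 * (c₃ : E3) 2 -
      ct r₂ * ct r₃ = -(st r₂ * st r₃) := by
    rw [← E3_inner, h23]; ring
  have hN := E3_gram ((q : E3) 0) ((q : E3) 1) ((q : E3) 2) ((c₁ : E3) 0) ((c₁ : E3) 1)
    ((c₁ : E3) 2) ((c₂ : E3) 0) ((c₂ : E3) 1) ((c₂ : E3) 2) ((c₃ : E3) 0) ((c₃ : E3) 1)
    ((c₃ : E3) 2) (ct r₁) (ct r₂) (ct r₃)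
  rw [g00, g11, g22, g33, g12, g13, g23, ← E3_inner, ← E3_inner, ← E3_inner, E3_D_tangent] at hN
  have w1 : ⟪(q : E3), (c₁ : E3)⟫_ℝ - ct r₁ = st r₁ * uu c₁ r₁ q := by
    unfold uu ip
    rw [mul_div_cancel₀ _ hs1.ne']
  have w2 : ⟪(q : E3), (c₂ : E3)⟫_ℝ - ct r₂ = st r₂ * uu c₂ r₂ q := by
    unfold uu ip
    rw [mul_div_cancel₀ _ hs2.ne']
  have w3 : ⟪(q : E3), (c₃ : E3)⟫_ℝ - ct r₃ = st r₃ * uu c₃ r₃ q := by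
    unfold uu ip
    rw [mul_div_cancel₀ _ hs3.ne']
  rw [w1, w2, w3] at hN
  have hbb : bb c₁ r₁ c₂ r₂ c₃ r₃ q ^ 2 * (2 * st r₁ * st r₂ * st r₃) ^ 2 =
      4 * (st r₁ * st r₂ * st r₃) * (st r₃ * (st r₁ * uu c₁ r₁ q * (st r₂ * uu c₂ r₂ q)) +
        st r₁ * (st r₂ * uu c₂ r₂ q * (st r₃ * uu c₃ r₃ q)) +
        st r₂ * (st r₃ * uu c₃ r₃ q * (st r₁ * uu c₁ r₁ q))) := by
    rw [← hN]
    unfold bb tp
    rw [div_pow, div_mul_cancel₀]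
    positivity
  have hpos : (2 * st r₁ * st r₂ * st r₃) ^ 2 ≠ 0 := by positivity
  apply mul_right_cancel₀ hpos
  rw [hbb]
  ring

end H19S
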