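import Pool.Agent.Lib.H19S.E3

/-!
# H19S, chunk E4: `bb` seen from a contact point
-/

namespace H19S

open Metric
open scoped InnerProductSpace

theorem E4_tp_id (p n c q : E3) :
    tp q n c * ⟪p, p⟫_ℝ = ⟪q, p⟫_ℝ * tp p n c + ⟪n, p⟫_ℝ * tp q p c + ⟪c, p⟫_ℝ * tp q n p := by
  rw [E3_inner, E3_inner, E3_inner, E3_inner]
  unfold tp
  ring

theorem E4_tp_swap (p n q : E3) : tp q n p = - tp p n q := by
  unfold tp
  ring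

/-- the linear relation coming from the two tangencies -/
theorem E4_rel {c₁ c₂ c₃ p : S2} {r₁ r₂ r₃ : ℝ} (h1 : 0 < r₁) (h1' : r₁ < 2) (h2 : 0 < r₂)
    (h2' : r₂ < 2) (hn : nv c₂ r₂ p = - nv c₁ r₁ p)
    (h13 : Tg c₁ r₁ c₃ r₃) (h23 : Tg c₂ r₂ c₃ r₃) :
    (ct r₁ * st r₂ + ct r₂ * st r₁) * (ip p c₃ - ct r₃) = - 2 * (st r₁ * st r₂ * st r₃) := by
  have hc1 := E2_centre (c := c₁) (p := p) h1 h1'
  have hc2 := E2_centre (c := c₂) (p := p) h2 h2'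
  rw [hn] at hc2
  unfold Tg ip at h13 h23
  rw [hc1, inner_add_left, inner_smul_left, inner_smul_left] at h13
  rw [hc2, inner_add_left, inner_smul_left, inner_smul_left, inner_neg_left] at h23
  simp only [RCLike.conj_to_real] at h13 h23
  have e : ip p c₃ = ⟪(p : E3), (c₃ : E3)⟫_ℝ := rfl
  rw [e]
  linear_combination st r₂ * h13 + st r₁ * h23

/-- (chunk E4) Let `n = nv c₁ r₁ p`, `p ⟂ n` unit vectors, `c₁ = t₁ p + s₁ n`, `c₂ = t₂ p - s₂ n`.  Then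
`f = - p × n` works, with `ρ = ⟪c₃, f⟫ (κ / 2) / s₃`, `κ = t₁/s₁ + t₂/s₂` (up to sign; checked numerically).
PROOF.  `(p, n, p × n)` is an orthonormal basis, and `tp` is the determinant of coordinates in this
basis.  `c₃` satisfies `⟪c₃, c₁⟫ = t₁ t₃ - s₁ s₃`, `⟪c₃, c₂⟫ = t₂ t₃ - s₂ s₃`, i.e. with `a = ⟪c₃, p⟫`,
`b = ⟪c₃, n⟫`: `t₁ a + s₁ b = t₁ t₃ - s₁ s₃`, `t₂ a - s₂ b = t₂ t₃ - s₂ s₃`.  Hence
`κ (a - t₃) = - 2 s₃`.  Write `q = (1 - λ) p + y n + x (p × n)`, `λ = 1 - ip q p`, and expand the numerator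
of `bb` (bilinear in `(c₁, c₂)`, only the parts `c₁ ∧ c₂ = -(t₁ s₂ + t₂ s₁) p ∧ n` etc. matter). -/
theorem bb_chart {c₁ c₂ p : S2} {r₁ r₂ : ℝ} (h1 : 0 < r₁) (h1' : r₁ < 2) (h2 : 0 < r₂)
    (h2' : r₂ < 2) (hp1 : uu c₁ r₁ p = 0) (hp2 : uu c₂ r₂ p = 0)
    (hn : nv c₂ r₂ p = - nv c₁ r₁ p) :
    ∃ f : E3, ∀ (c₃ : S2) (r₃ : ℝ), 0 < r₃ → r₃ < 2 → Tg c₁ r₁ c₃ r₃ → Tg c₂ r₂ c₃ r₃ →
      ∃ ρ : ℝ, ∀ q : S2, bb c₁ r₁ c₂ r₂ c₃ r₃ q = ⟪(q : E3), f⟫_ℝ - ρ * (1 - ip q p) := by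
  have hs1 := st_pos h1 h1'
  have hs2 := st_pos h2 h2'
  have hc1 := E2_centre (c := c₁) (p := p) h1 h1'
  have hc2 := E2_centre (c := c₂) (p := p) h2 h2'
  have hin : ⟪(p : E3), nv c₁ r₁ p⟫_ℝ = 0 := inner_nv h1 h1' hp1
  rw [hn] at hc2
  set n := nv c₁ r₁ p with hndef
  refine ⟨!₂[-((p : E3) 1 * n 2 - (p : E3) 2 * n 1), -((p : E3) 2 * n 0 - (p : E3) 0 * n 2),
    -((p : E3) 0 * n 1 - (p : E3) 1 * n 0)], ?_⟩
  intro c₃ r₃ h3 h3' h13 h23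
  have hs3 := st_pos h3 h3'
  have hrel := E4_rel h1 h1' h2 h2' hn h13 h23
  refine ⟨-((ct r₁ * st r₂ + ct r₂ * st r₁) * tp p n c₃ / (2 * st r₁ * st r₂ * st r₃)), ?_⟩
  intro q
  have hf : ⟪(q : E3), (!₂[-((p : E3) 1 * n 2 - (p : E3) 2 * n 1),
      -((p : E3) 2 * n 0 - (p : E3) 0 * n 2),
      -((p : E3) 0 * n 1 - (p : E3) 1 * n 0)] : E3)⟫_ℝ = - tp p n q := by
    rw [E3_inner]
    unfold tp
    simp only [Matrix.cons_val_zero, Matrix.cons_val_one, Matrix.cons_val]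
    ring
  rw [hf]
  have c10 : (c₁ : E3) 0 = ct r₁ * (p : E3) 0 + st r₁ * n 0 := by rw [hc1]; simp
  have c11 : (c₁ : E3) 1 = ct r₁ * (p : E3) 1 + st r₁ * n 1 := by rw [hc1]; simp
  have c12 : (c₁ : E3) 2 = ct r₁ * (p : E3) 2 + st r₁ * n 2 := by rw [hc1]; simp
  have c20 : (c₂ : E3) 0 = ct r₂ * (p : E3) 0 - st r₂ * n 0 := by rw [hc2]; simp; ring
  have c21 : (c₂ : E3) 1 = ct r₂ * (p : E3) 1 - st r₂ * n 1 := by rw [hc2]; simp; ring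
  have c22 : (c₂ : E3) 2 = ct r₂ * (p : E3) 2 - st r₂ * n 2 := by rw [hc2]; simp; ring
  have hT : tp q n c₃ = ip q p * tp p n c₃ - ip p c₃ * tp p n q := by
    have h := E4_tp_id (p : E3) n (c₃ : E3) (q : E3)
    rw [E2_inner_self, real_inner_comm (p : E3) n, hin, E4_tp_swap (p : E3) n (q : E3)] at h
    have e1 : ip q p = ⟪(q : E3), (p : E3)⟫_ℝ := rfl
    have e2 : ip p c₃ = ⟪(c₃ : E3), (p : E3)⟫_ℝ := by rw [ip_comm]; rfl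
    rw [e1, e2]
    linarith
  have hN : ct r₁ * tp q c₂ c₃ + ct r₂ * tp c₁ q c₃ + ct r₃ * tp c₁ c₂ q - tp c₁ c₂ c₃ =
      -(ct r₁ * st r₂ + ct r₂ * st r₁) * (tp q n c₃ + ct r₃ * tp p n q - tp p n c₃) := by
    unfold tp
    rw [c10, c11, c12, c20, c21, c22]
    ring
  unfold bb
  rw [hN, hT]
  field_simp
  linear_combination (tp p n q) * hrel

/-- The value of `uu c₃ r₃` at the contact point of the two other discs. -/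
theorem uu_contact {c₁ c₂ c₃ p : S2} {r₁ r₂ r₃ : ℝ} (h1 : 0 < r₁) (h1' : r₁ < 2) (h2 : 0 < r₂)
    (h2' : r₂ < 2) (h3 : 0 < r₃) (h3' : r₃ < 2) (hn : nv c₂ r₂ p = - nv c₁ r₁ p)
    (h13 : Tg c₁ r₁ c₃ r₃) (h23 : Tg c₂ r₂ c₃ r₃) :
    (ct r₁ / st r₁ + ct r₂ / st r₂) * uu c₃ r₃ p = -2 := by
  have hs1 := st_pos h1 h1'
  have hs2 := st_pos h2 h2'
  have hs3 := st_pos h3 h3'
  have hrel := E4_rel h1 h1' h2 h2' hn h13 h23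
  unfold uu
  field_simp
  linear_combination hrel

end H19S
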