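import Pool.Agent.Lib.H19S.E4
import Pool.Agent.Lib.H19S.E2b
import Pool.Agent.Lib.H19S.A0

/-!
# H19S, chunk E5: circle packings: contact points, the free side of a face
-/

namespace H19S

open Finset Metric
open scoped InnerProductSpace

variable {α : Type*} [DecidableEq α] {F : Finset (α × α × α)} {c : α → S2} {r : α → ℝ}

/-- (chunk E5) -/
theorem IsPacking.lt_two (hF : IsTri F) (hP : IsPacking F c r) {x : α} (hx : x ∈ vs F) :
    r x < 2 := by
  obtain ⟨y, hy, hxy⟩ : ∃ y ∈ vs F, y ≠ x :=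
    Finset.exists_mem_ne (by have := hF.three_le; omega) x
  exact lt_two_of_disjoint (hP.pos y hy) (hP.disj x hx y hy (Ne.symm hxy))

/-- Adjacent discs touch (some common point). -/
theorem IsPacking.exists_touch (hF : IsTri F) (hP : IsPacking F c r) {x y : α} (h : Adj F x y) :
    ∃ p : S2, p ∈ closedBall (c x) (r x) ∧ p ∈ closedBall (c y) (r y) := by
  obtain ⟨p, hp⟩ := (hP.tang x h.mem_left y (hF.toIsSurf.adj_mem_right h)
    (hF.toIsSurf.adj_ne h)).2 h
  exact ⟨p, hp.1, hp.2⟩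

/-- Discs with a common point are equal or adjacent. -/
theorem IsPacking.adj_of_mem (hP : IsPacking F c r) {x y : α} (hx : x ∈ vs F) (hy : y ∈ vs F)
    {p : S2} (hpx : p ∈ closedBall (c x) (r x)) (hpy : p ∈ closedBall (c y) (r y)) :
    x = y ∨ Adj F x y := by
  by_cases hxy : x = y
  · exact Or.inl hxy
  · exact Or.inr ((hP.tang x hx y hy hxy).1 ⟨p, hpx, hpy⟩)

theorem IsPacking.touch (hF : IsTri F) (hP : IsPacking F c r) {x y : α} (hx : x ∈ vs F)
    (hy : y ∈ vs F) (hxy : x ≠ y) {p : S2} (hpx : p ∈ closedBall (c x) (r x))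
    (hpy : p ∈ closedBall (c y) (r y)) :
    uu (c x) (r x) p = 0 ∧ uu (c y) (r y) p = 0 ∧ nv (c y) (r y) p = - nv (c x) (r x) p :=
  _root_.H19S.touch (hP.pos x hx) (hP.lt_two hF hx) (hP.pos y hy) (hP.lt_two hF hy)
    (hP.disj x hx y hy hxy) hpx hpy

theorem IsPacking.Tg (hF : IsTri F) (hP : IsPacking F c r) {x y : α} (h : Adj F x y) :
    Tg (c x) (r x) (c y) (r y) := by
  obtain ⟨p, hpx, hpy⟩ := hP.exists_touch hF h
  have hx : x ∈ vs F := h.mem_left
  have hy : y ∈ vs F := hF.toIsSurf.adj_mem_right h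
  obtain ⟨h1, h2, h3⟩ := hP.touch hF hx hy (hF.toIsSurf.adj_ne h) hpx hpy
  exact Tg_of_touch (hP.pos x hx) (hP.lt_two hF hx) (hP.pos y hy) (hP.lt_two hF hy) h1 h2 h3

/-- (N1 of Part I) The contact point is unique. -/
theorem IsPacking.touch_unique (hF : IsTri F) (hP : IsPacking F c r) {x y : α} (hx : x ∈ vs F)
    (hy : y ∈ vs F) (hxy : x ≠ y) {p q : S2} (hpx : p ∈ closedBall (c x) (r x))
    (hpy : p ∈ closedBall (c y) (r y)) (hqx : q ∈ closedBall (c x) (r x))
    (hqy : q ∈ closedBall (c y) (r y)) : p = q := by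
  obtain ⟨z, hz, hzx, hzy⟩ : ∃ z ∈ vs F, z ≠ x ∧ z ≠ y := by
    by_contra hcon
    push Not at hcon
    have hsub : vs F ⊆ {x, y} := by
      intro z hz
      by_cases hzx : z = x
      · simp [hzx]
      · simp [hcon z hz hzx]
    have h1 := Finset.card_le_card hsub
    have h2 := Finset.card_le_two (a := x) (b := y)
    have h3 := hF.three_le
    omega
  have key : ∀ w ∈ vs F, z ≠ w → c z ∉ closedBall (c w) (r w) := by
    intro w hw hzw hmem
    exact not_mem_ball_of_disjoint (hP.pos w hw) (hP.disj z hz w hw hzw) hmem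
      (mem_ball_self (hP.pos z hz))
  exact _root_.H19S.touch_unique (hP.pos x hx) (hP.lt_two hF hx) (hP.pos y hy)
    (hP.lt_two hF hy) (hP.disj x hx y hy hxy) (key x hx hzx) (key y hy hzy) hqx hqy hpx hpy

/-- (N2 of Part I) -/
theorem IsPacking.no_three (hP : IsPacking F c r) {x y z : α} (hx : x ∈ vs F)
    (hy : y ∈ vs F) (hz : z ∈ vs F) {p : S2} (hpx : p ∈ closedBall (c x) (r x))
    (hpy : p ∈ closedBall (c y) (r y)) (hpz : p ∈ closedBall (c z) (r z)) :
    x = y ∨ y = z ∨ x = z := by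
  by_contra hcon
  push Not at hcon
  obtain ⟨h1, h2, h3⟩ := hcon
  exact _root_.H19S.no_three (hP.pos x hx) (hP.pos y hy) (hP.pos z hz) (hP.disj x hx y hy h1)
    (hP.disj x hx z hz h3) (hP.disj y hy z hz h2) hpx hpy hpz

/-- (N3 of Part I) -/
theorem IsPacking.not_mem_ball (hP : IsPacking F c r) {x w : α} (hx : x ∈ vs F) (hw : w ∈ vs F)
    (hxw : x ≠ w) {p : S2} (hpx : p ∈ closedBall (c x) (r x)) : p ∉ ball (c w) (r w) :=
  not_mem_ball_of_disjoint (hP.pos x hx) (hP.disj w hw x hx (Ne.symm hxw)) hpx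

theorem IsPacking.not_mem_ball' (hP : IsPacking F c r) {x y w : α} (hx : x ∈ vs F)
    (hy : y ∈ vs F) (hw : w ∈ vs F) (hxy : x ≠ y) {p : S2} (hpx : p ∈ closedBall (c x) (r x))
    (hpy : p ∈ closedBall (c y) (r y)) : p ∉ ball (c w) (r w) := by
  by_cases hxw : x = w
  · have hyw : y ≠ w := fun h => hxy (hxw.trans h.symm)
    exact hP.not_mem_ball hy hw hyw hpy
  · exact hP.not_mem_ball hx hw hxw hpx

/-- `bb` for three vertices. -/
noncomputable def BB (c : α → S2) (r : α → ℝ) (x y z : α) (q : S2) : ℝ :=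
  bb (c x) (r x) (c y) (r y) (c z) (r z) q

/-- The closed free side of the face `(x, y, z)`: the points which are not on the same side of the
circle `BB = 0` as the other discs. -/
def Fc (F : Finset (α × α × α)) (c : α → S2) (r : α → ℝ) (x y z : α) : Set S2 :=
  {q | ∀ w ∈ vs F, w ≠ x → w ≠ y → w ≠ z → ∀ p ∈ closedBall (c w) (r w),
    BB c r x y z q * BB c r x y z p ≤ 0}

/-- The interstice (curvilinear triangle) of the face. -/
def Fr (F : Finset (α × α × α)) (c : α → S2) (r : α → ℝ) (x y z : α) : Set S2 :=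
  {q | q ∈ Fc F c r x y z ∧ q ∉ closedBall (c x) (r x) ∧ q ∉ closedBall (c y) (r y) ∧
    q ∉ closedBall (c z) (r z)}

theorem Fc_swap (x y z : α) : Fc F c r y x z = Fc F c r x y z := by
  have h : ∀ q, BB c r y x z q = - BB c r x y z q := fun q => bb_swap _ _ _ _ _ _ q
  unfold Fc
  ext q
  simp only [Set.mem_setOf_eq, h, neg_mul_neg]
  exact ⟨fun H w hw h1 h2 => H w hw h2 h1, fun H w hw h1 h2 => H w hw h2 h1⟩

theorem Fc_rot (x y z : α) : Fc F c r y z x = Fc F c r x y z := by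
  have h : ∀ q, BB c r y z x q = BB c r x y z q := fun q => bb_rot _ _ _ _ _ _ q
  unfold Fc
  ext q
  simp only [Set.mem_setOf_eq, h]
  exact ⟨fun H w hw h1 h2 h3 => H w hw h2 h3 h1, fun H w hw h1 h2 h3 => H w hw h3 h1 h2⟩

theorem IsPacking.BB_sq (hF : IsTri F) (hP : IsPacking F c r) {x y z : α} (h : (x, y, z) ∈ F)
    (q : S2) : BB c r x y z q ^ 2 = uu (c x) (r x) q * uu (c y) (r y) q +
      uu (c y) (r y) q * uu (c z) (r z) q + uu (c z) (r z) q * uu (c x) (r x) q := by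
  have hS := hF.toIsSurf
  have hx := hS.vs1 h
  have hy := hS.vs2 h
  have hz := hS.vs3 h
  have h1 : Adj F x y := ⟨z, h⟩
  have h2 : Adj F y z := ⟨x, hS.rot h⟩
  have h3 : Adj F z x := ⟨y, hS.rot2 h⟩
  exact bb_sq (hP.pos x hx) (hP.lt_two hF hx) (hP.pos y hy) (hP.lt_two hF hy) (hP.pos z hz)
    (hP.lt_two hF hz) (hP.Tg hF h1) (hP.Tg hF (hS.adj_symm h3)) (hP.Tg hF h2) q

/-- `BB ≠ 0` on every other disc `D_w`: there `uu ≤ 0` for `x, y, z` (`not_mem_ball`); if `BB = 0` the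
three products `≥ 0` vanish, so two of the three `uu` vanish and the point is in three discs
(`no_three`). -/
theorem IsPacking.BB_ne (hF : IsTri F) (hP : IsPacking F c r) {x y z w : α} (h : (x, y, z) ∈ F)
    (hw : w ∈ vs F) (hx : w ≠ x) (hy : w ≠ y) (hz : w ≠ z) {p : S2}
    (hp : p ∈ closedBall (c w) (r w)) : BB c r x y z p ≠ 0 := by
  intro h0
  have hS := hF.toIsSurf
  have hxv := hS.vs1 h
  have hyv := hS.vs2 h
  have hzv := hS.vs3 h
  have hsq := hP.BB_sq hF h p
  rw [h0] at hsq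
  have key : ∀ v ∈ vs F, w ≠ v → uu (c v) (r v) p ≤ 0 := by
    intro v hv hwv
    have h1 := hP.not_mem_ball hw hv hwv hp
    rw [mem_ball_iff (hP.pos v hv) (hP.lt_two hF hv)] at h1
    exact not_lt.1 h1
  have ux := key x hxv hx
  have uy := key y hyv hy
  have uz := key z hzv hz
  have mem : ∀ v ∈ vs F, uu (c v) (r v) p = 0 → p ∈ closedBall (c v) (r v) := by
    intro v hv h1
    rw [mem_closedBall_iff (hP.pos v hv) (hP.lt_two hF hv), h1]
  have m1 : 0 ≤ uu (c x) (r x) p * uu (c y) (r y) p := mul_nonneg_of_nonpos_of_nonpos ux uy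
  have m2 : 0 ≤ uu (c y) (r y) p * uu (c z) (r z) p := mul_nonneg_of_nonpos_of_nonpos uy uz
  have m3 : 0 ≤ uu (c z) (r z) p * uu (c x) (r x) p := mul_nonneg_of_nonpos_of_nonpos uz ux
  have e1 : uu (c x) (r x) p * uu (c y) (r y) p = 0 := by nlinarith
  have e2 : uu (c y) (r y) p * uu (c z) (r z) p = 0 := by nlinarith
  have e3 : uu (c z) (r z) p * uu (c x) (r x) p = 0 := by nlinarith
  have contra : ∀ v ∈ vs F, ∀ v' ∈ vs F, w ≠ v → w ≠ v' → v ≠ v' →
      uu (c v) (r v) p = 0 → uu (c v') (r v') p = 0 → False := by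
    intro v hv v' hv' h1 h2 h3 h4 h5
    rcases hP.no_three hw hv hv' hp (mem v hv h4) (mem v' hv' h5) with h6 | h6 | h6
    · exact h1 h6
    · exact h3 h6
    · exact h2 h6
  have nxy : x ≠ y := hS.ne h
  have nyz : y ≠ z := hS.ne2 h
  have nzx : z ≠ x := hS.ne3 h
  rcases mul_eq_zero.1 e1 with a | a
  · rcases mul_eq_zero.1 e2 with b | b
    · exact contra x hxv y hyv hx hy nxy a b
    · exact contra x hxv z hzv hx hz nzx.symm a b
  · rcases mul_eq_zero.1 e3 with b | b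
    · exact contra y hyv z hzv hy hz nyz a b
    · exact contra y hyv x hxv hy hx nxy.symm a b

end H19S
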