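import Pool.Agent.Lib.H19S.E5
import Pool.Agent.Lib.H19S.A8

/-!
# H19S, chunk E5b: the free side of a face
-/

namespace H19S

open Finset Metric
open scoped InnerProductSpace

variable {α : Type*} [DecidableEq α] {F : Finset (α × α × α)} {c : α → S2} {r : α → ℝ}

/-- The union of the discs of a connected set of vertices is connected
(`IsPreconnected.biUnion_of_reflTransGen`, `isPreconnected_disc`). -/
theorem IsPacking.union_conn (hF : IsTri F) (hP : IsPacking F c r) {S : Set α}
    (hS : S ⊆ (vs F : Set α)) (hc : ConnIn F S) :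
    IsPreconnected (⋃ x ∈ S, closedBall (c x) (r x)) := by
  apply IsPreconnected.biUnion_of_reflTransGen
  · intro x _
    exact isPreconnected_disc (c x) (r x)
  · intro x hx y hy
    have h := hc x hx y hy
    have key : ∀ z, Relation.ReflTransGen (fun p q => q ∈ S ∧ Adj F p q) x z →
        z ∈ S ∧ Relation.ReflTransGen (fun i j => (closedBall (c i) (r i) ∩
          closedBall (c j) (r j)).Nonempty ∧ i ∈ S) x z := by
      intro z hz
      induction hz with
      | refl => exact ⟨hx, Relation.ReflTransGen.refl⟩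
      | @tail p q _ hs ih =>
        obtain ⟨p', h1, h2⟩ := hP.exists_touch hF hs.2
        exact ⟨hs.1, ih.2.tail ⟨⟨p', h1, h2⟩, ih.1⟩⟩
    exact (key y h).2

/-- (chunk E5b) The other discs are all on the same side: their union is connected (`conn_minus_face`,
`union_conn`) and `BB` does not vanish on it. -/
theorem IsPacking.side (hF : IsTri F) (h4 : 4 ≤ (vs F).card) (hP : IsPacking F c r) {x y z : α}
    (h : (x, y, z) ∈ F) : ∃ ε : ℝ, (ε = 1 ∨ ε = -1) ∧
      (∀ w ∈ vs F, w ≠ x → w ≠ y → w ≠ z → ∀ p ∈ closedBall (c w) (r w),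
        0 < ε * BB c r x y z p) ∧
      Fc F c r x y z = {q | ε * BB c r x y z q ≤ 0} := by
  have hcont : Continuous fun q => BB c r x y z q := continuous_bb _ _ _ _ _ _
  have hpre := hP.union_conn hF (S := (vs F : Set α) \ {x, y, z}) Set.diff_subset
    (conn_minus_face hF.toIsSurf h4 h)
  obtain ⟨w0, hw0, hw0'⟩ : ∃ w0 ∈ vs F, w0 ∉ ({x, y, z} : Finset α) := by
    by_contra hcon
    push Not at hcon
    have h1 := Finset.card_le_card hcon
    have h2 := Finset.card_le_three (a := x) (b := y) (c := z)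
    omega
  simp only [Finset.mem_insert, Finset.mem_singleton, not_or] at hw0'
  obtain ⟨hw1, hw2, hw3⟩ := hw0'
  have hmemU : ∀ w ∈ vs F, w ≠ x → w ≠ y → w ≠ z → ∀ p ∈ closedBall (c w) (r w),
      p ∈ ⋃ v ∈ ((vs F : Set α) \ {x, y, z}), closedBall (c v) (r v) := by
    intro w hw h1 h2 h3 p hp
    simp only [Set.mem_iUnion]
    exact ⟨w, ⟨hw, by simp [h1, h2, h3]⟩, hp⟩
  have hne : ∀ p ∈ ⋃ v ∈ ((vs F : Set α) \ {x, y, z}), closedBall (c v) (r v),
      BB c r x y z p ≠ 0 := by
    intro p hp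
    simp only [Set.mem_iUnion] at hp
    obtain ⟨w, ⟨hw, hw'⟩, hp⟩ := hp
    simp only [Set.mem_insert_iff, Set.mem_singleton_iff, not_or] at hw'
    exact hP.BB_ne hF h hw hw'.1 hw'.2.1 hw'.2.2 hp
  have hp0 : c w0 ∈ closedBall (c w0) (r w0) := mem_closedBall_self (hP.pos w0 hw0).le
  have hp0U := hmemU w0 hw0 hw1 hw2 hw3 _ hp0
  have hB0 := hne _ hp0U
  obtain ⟨ε, hε, hpos0⟩ : ∃ ε : ℝ, (ε = 1 ∨ ε = -1) ∧ 0 < ε * BB c r x y z (c w0) := by
    rcases lt_or_gt_of_ne hB0 with hb | hb
    · exact ⟨-1, Or.inr rfl, by linarith⟩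
    · exact ⟨1, Or.inl rfl, by linarith⟩
  have hεsq : ε * ε = 1 := by rcases hε with rfl | rfl <;> norm_num
  have hall : ∀ w ∈ vs F, w ≠ x → w ≠ y → w ≠ z → ∀ p ∈ closedBall (c w) (r w),
      0 < ε * BB c r x y z p := by
    intro w hw h1 h2 h3 p hp
    by_contra hcon
    have hpU := hmemU w hw h1 h2 h3 p hp
    have hiv := hpre.intermediate_value hpU hp0U
      ((continuous_const.mul hcont : Continuous fun q => ε * BB c r x y z q).continuousOn)
    obtain ⟨q, hqU, hq⟩ := hiv (show (0 : ℝ) ∈ Set.Icc (ε * BB c r x y z p)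
      (ε * BB c r x y z (c w0)) from ⟨not_lt.1 hcon, hpos0.le⟩)
    have hq' : ε * BB c r x y z q = 0 := hq
    rcases mul_eq_zero.1 hq' with h5 | h5
    · rcases hε with h6 | h6 <;> rw [h6] at h5 <;> norm_num at h5
    · exact hne q hqU h5
  refine ⟨ε, hε, hall, ?_⟩
  have hprod : ∀ q p, BB c r x y z q * BB c r x y z p
      = (ε * BB c r x y z q) * (ε * BB c r x y z p) := by
    intro q p
    calc BB c r x y z q * BB c r x y z p
        = (ε * ε) * (BB c r x y z q * BB c r x y z p) := by rw [hεsq, one_mul]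
      _ = _ := by ring
  ext q
  constructor
  · intro hq
    have h1 : BB c r x y z q * BB c r x y z (c w0) ≤ 0 := hq w0 hw0 hw1 hw2 hw3 _ hp0
    rw [hprod] at h1
    change ε * BB c r x y z q ≤ 0
    by_contra hcon
    have h2 := mul_pos (not_le.1 hcon) hpos0
    linarith
  · intro hq w hw h1 h2 h3 p hp
    have hq' : ε * BB c r x y z q ≤ 0 := hq
    rw [hprod]
    exact mul_nonpos_of_nonpos_of_nonneg hq' (hall w hw h1 h2 h3 p hp).le

theorem IsPacking.isClosed_Fc (x y z : α) : IsClosed (Fc F c r x y z) := by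
  have hcont : Continuous fun q => BB c r x y z q := continuous_bb _ _ _ _ _ _
  have h : Fc F c r x y z = ⋂ w, ⋂ (_ : w ∈ vs F), ⋂ (_ : w ≠ x), ⋂ (_ : w ≠ y), ⋂ (_ : w ≠ z),
      ⋂ p, ⋂ (_ : p ∈ closedBall (c w) (r w)), {q | BB c r x y z q * BB c r x y z p ≤ 0} := by
    ext q
    simp only [Set.mem_iInter]
    exact Iff.rfl
  rw [h]
  refine isClosed_iInter fun w => isClosed_iInter fun _ => isClosed_iInter fun _ =>
    isClosed_iInter fun _ => isClosed_iInter fun _ => isClosed_iInter fun p =>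
    isClosed_iInter fun _ => isClosed_le (hcont.mul continuous_const) continuous_const

/-- Outside the three closed discs `BB ≠ 0`, so `Fr` is given by strict inequalities. -/
theorem IsPacking.isOpen_Fr (hF : IsTri F) (h4 : 4 ≤ (vs F).card) (hP : IsPacking F c r)
    {x y z : α} (h : (x, y, z) ∈ F) : IsOpen (Fr F c r x y z) := by
  have hcont : Continuous fun q => BB c r x y z q := continuous_bb _ _ _ _ _ _
  obtain ⟨ε, hε, -, hFc⟩ := hP.side hF h4 h
  have hS := hF.toIsSurf
  have heq : Fr F c r x y z = {q | ε * BB c r x y z q < 0} ∩ (closedBall (c x) (r x))ᶜ ∩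
      (closedBall (c y) (r y))ᶜ ∩ (closedBall (c z) (r z))ᶜ := by
    ext q
    constructor
    · rintro ⟨h1, h2, h3, h5⟩
      rw [hFc] at h1
      have h1' : ε * BB c r x y z q ≤ 0 := h1
      refine ⟨⟨⟨?_, h2⟩, h3⟩, h5⟩
      change ε * BB c r x y z q < 0
      rcases lt_or_eq_of_le h1' with h6 | h6
      · exact h6
      · exfalso
        have hB : BB c r x y z q = 0 := by
          rcases mul_eq_zero.1 h6 with h7 | h7
          · rcases hε with h8 | h8 <;> rw [h8] at h7 <;> norm_num at h7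
          · exact h7
        have hsq := hP.BB_sq hF h q
        rw [hB] at hsq
        have key : ∀ v ∈ vs F, q ∉ closedBall (c v) (r v) → uu (c v) (r v) q < 0 := by
          intro v hv hqv
          rw [mem_closedBall_iff (hP.pos v hv) (hP.lt_two hF hv)] at hqv
          exact not_le.1 hqv
        have ux := key x (hS.vs1 h) h2
        have uy := key y (hS.vs2 h) h3
        have uz := key z (hS.vs3 h) h5
        have m1 := mul_pos_of_neg_of_neg ux uy
        have m2 := mul_pos_of_neg_of_neg uy uz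
        have m3 := mul_pos_of_neg_of_neg uz ux
        nlinarith
    · rintro ⟨⟨⟨h1, h2⟩, h3⟩, h5⟩
      refine ⟨?_, h2, h3, h5⟩
      rw [hFc]
      have h1' : ε * BB c r x y z q < 0 := h1
      exact h1'.le
  rw [heq]
  exact (((isOpen_lt (continuous_const.mul hcont) continuous_const).inter
    isClosed_closedBall.isOpen_compl).inter isClosed_closedBall.isOpen_compl).inter
    isClosed_closedBall.isOpen_compl

theorem IsPacking.Fr_not_mem (hF : IsTri F) (h4 : 4 ≤ (vs F).card) (hP : IsPacking F c r)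
    {x y z : α} (h : (x, y, z) ∈ F) {q : S2} (hq : q ∈ Fr F c r x y z) {w : α} (hw : w ∈ vs F) :
    q ∉ closedBall (c w) (r w) := by
  intro hqw
  by_cases h1 : w = x
  · rw [h1] at hqw
    exact hq.2.1 hqw
  by_cases h2 : w = y
  · rw [h2] at hqw
    exact hq.2.2.1 hqw
  by_cases h3 : w = z
  · rw [h3] at hqw
    exact hq.2.2.2 hqw
  have h5 := hq.1 w hw h1 h2 h3 q hqw
  have h6 := hP.BB_ne hF h hw h1 h2 h3 hqw
  have h7 := mul_self_pos.2 h6
  linarith

/-- `closure (Fr) ⊆ Fc`, and `Fc` minus the three discs is `Fr`. -/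
theorem IsPacking.closure_Fr (hF : IsTri F) (h4 : 4 ≤ (vs F).card) (hP : IsPacking F c r)
    {x y z : α} (h : (x, y, z) ∈ F) {q : S2} (hq : q ∈ closure (Fr F c r x y z)) :
    q ∈ Fr F c r x y z ∨ q ∈ closedBall (c x) (r x) ∨ q ∈ closedBall (c y) (r y) ∨
      q ∈ closedBall (c z) (r z) := by
  have h1 : q ∈ Fc F c r x y z :=
    closure_minimal (fun _ hy => hy.1) (IsPacking.isClosed_Fc x y z) hq
  by_contra hcon
  push Not at hcon
  exact hcon.1 ⟨h1, hcon.2.1, hcon.2.2.1, hcon.2.2.2⟩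

theorem IsPacking.closure_Fr_disc (hF : IsTri F) (h4 : 4 ≤ (vs F).card) (hP : IsPacking F c r)
    {x y z w : α} (h : (x, y, z) ∈ F) {q : S2} (hq : q ∈ closure (Fr F c r x y z))
    (hw : w ∈ vs F) (hqw : q ∈ closedBall (c w) (r w)) : w = x ∨ w = y ∨ w = z := by
  have h0 : q ∈ Fc F c r x y z :=
    closure_minimal (fun _ hy => hy.1) (IsPacking.isClosed_Fc x y z) hq
  by_contra hcon
  push Not at hcon
  obtain ⟨h1, h2, h3⟩ := hcon
  have h5 := h0 w hw h1 h2 h3 q hqw
  have h6 := hP.BB_ne hF h hw h1 h2 h3 hqw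
  have h7 := mul_self_pos.2 h6
  linarith

end H19S
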