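import Pool.Agent.Lib.H19S.E5b

/-!
# H19S, chunk E6: the two interstices at a contact point
-/

namespace H19S

open Finset Metric Filter Topology

variable {α : Type*} [DecidableEq α] {F : Finset (α × α × α)} {c : α → S2} {r : α → ℝ}

/-- (chunk E6) Near the contact point `p` of `x ~ y`, every point which is not in the two open discs is in one of the two
closed free sides of the faces `(x, y, z)` and `(y, x, z')`.
PROOF.  `z' ≠ z` (`no_rev`), `z' ∉ {x, y, z}`.  Write `b = BB x y z`, `b' = BB x y z'` (so `BB y x z' = - b'`,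
`Fc y x z' = Fc x y z'`), `λ q = 1 - ip q p ≥ 0`.  By `bb_chart`: `b - b' = k λ` for a constant `k`.  Let `ε, ε'` be the
signs of `side` for `(x,y,z)` and for `(y,x,z')` (use it for `b'`: `ε' = - ε_side`), so `ε b > 0` on `D_z'` and
`ε' b' > 0` on `D_z`.  At a common point `q` of `D_z'` and `D_x` one has `b' q = 0` (`BB_sq`), so
`0 < ε b q = ε k λ q`, hence `ε k > 0`; at a common point of `D_z` and `D_x`: `b q = 0`, `0 < ε' b' q = - ε' k λ q`, so
`ε' k < 0`; hence `ε' = - ε`.  Put `K = ε k > 0`.  If `q` (with `uu x q ≤ 0`, `uu y q ≤ 0`) is in neither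
closed free side then `0 < ε b q < K λ q`, so, with `κ = ct (r x) / st (r x) + ct (r y) / st (r y)`, by `BB_sq` and
`sum_uu`: `K² λ² > b² = uu x q * uu y q - κ λ uu z q ≥ - κ λ uu z q`, i.e. `- κ uu z q < K² λ q`.  As `q → p` the left
side tends to `- κ uu z p = 2` (`uu_contact`) and the right side to `0`. -/
theorem IsPacking.local_cover (hF : IsTri F) (h4 : 4 ≤ (vs F).card) (hP : IsPacking F c r)
    {x y z z' : α} (h : (x, y, z) ∈ F) (h' : (y, x, z') ∈ F) {p : S2}
    (hpx : p ∈ closedBall (c x) (r x)) (hpy : p ∈ closedBall (c y) (r y)) :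
    ∀ᶠ q in 𝓝 p, uu (c x) (r x) q ≤ 0 → uu (c y) (r y) q ≤ 0 →
      q ∈ Fc F c r x y z ∨ q ∈ Fc F c r y x z' := by
  have hS : IsSurf F := hF.toIsSurf
  have hx : x ∈ vs F := hS.vs1 h
  have hy : y ∈ vs F := hS.vs2 h
  have hz : z ∈ vs F := hS.vs3 h
  have hz' : z' ∈ vs F := hS.vs3 h'
  have hxy : x ≠ y := hS.ne h
  have hyz : y ≠ z := hS.ne2 h
  have hzx : z ≠ x := hS.ne3 h
  have hxz' : x ≠ z' := hS.ne2 h'
  have hz'y : z' ≠ y := hS.ne3 h'
  have hzz' : z ≠ z' := by
    intro e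
    rw [← e] at h'
    exact hS.no_rev h4 h h'
  have x0 := hP.pos x hx
  have y0 := hP.pos y hy
  have z0 := hP.pos z hz
  have z0' := hP.pos z' hz'
  have x2 := hP.lt_two hF hx
  have y2 := hP.lt_two hF hy
  have z2 := hP.lt_two hF hz
  have z2' := hP.lt_two hF hz'
  obtain ⟨ux, uy, hn⟩ := hP.touch hF hx hy hxy hpx hpy
  have axz : Adj F x z := by
    obtain ⟨w, hw⟩ := hS.opp (hS.rot2 h)
    exact ⟨w, hw⟩
  have ayz : Adj F y z := ⟨x, hS.rot h⟩
  have axz' : Adj F x z' := ⟨y, hS.rot h'⟩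
  have ayz' : Adj F y z' := by
    obtain ⟨w, hw⟩ := hS.opp (hS.rot2 h')
    exact ⟨w, hw⟩
  have txz := hP.Tg hF axz
  have tyz := hP.Tg hF ayz
  have txz' := hP.Tg hF axz'
  have tyz' := hP.Tg hF ayz'
  obtain ⟨f, hf⟩ := bb_chart x0 x2 y0 y2 ux uy hn
  obtain ⟨ρ, hρ⟩ := hf (c z) (r z) z0 z2 txz tyz
  obtain ⟨ρ', hρ'⟩ := hf (c z') (r z') z0' z2' txz' tyz'
  have hdiff : ∀ q, BB c r x y z q = BB c r x y z' q + (ρ' - ρ) * (1 - ip q p) := by
    intro q
    unfold BB
    rw [hρ q, hρ' q]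
    ring
  have hswap : ∀ q, BB c r y x z' q = - BB c r x y z' q := fun q => bb_swap _ _ _ _ _ _ q
  obtain ⟨ε, hε, hside, hFc⟩ := hP.side hF h4 h
  obtain ⟨ε₁, hε₁, hside₁, hFc₁⟩ := hP.side hF h4 h'
  have hlam : ∀ q, 0 ≤ 1 - ip q p := fun q => by linarith [ip_le_one q p]
  -- first sign
  obtain ⟨q1, hq1x, hq1z⟩ := hP.exists_touch hF axz'
  have s1 : 0 < ε * (ρ' - ρ) := by
    obtain ⟨u1, u2, -⟩ := hP.touch hF hx hz' hxz' hq1x hq1z
    have h1 := hP.BB_sq hF h' q1
    rw [u1, u2] at h1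
    have h2 : BB c r y x z' q1 = 0 := by
      have : BB c r y x z' q1 ^ 2 = 0 := by rw [h1]; ring
      exact pow_eq_zero_iff (two_ne_zero) |>.1 this
    have h3 : BB c r x y z' q1 = 0 := by
      have := hswap q1
      linarith
    have h4' := hside z' hz' hxz'.symm hz'y hzz'.symm q1 hq1z
    rw [hdiff q1, h3] at h4'
    have h5 := hlam q1
    by_contra hcon
    push Not at hcon
    nlinarith
  obtain ⟨q2, hq2x, hq2z⟩ := hP.exists_touch hF axz
  have s2 : 0 < ε₁ * (ρ' - ρ) := by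
    obtain ⟨u1, u2, -⟩ := hP.touch hF hx hz hzx.symm hq2x hq2z
    have h1 := hP.BB_sq hF h q2
    rw [u1, u2] at h1
    have h2 : BB c r x y z q2 = 0 := by
      have : BB c r x y z q2 ^ 2 = 0 := by rw [h1]; ring
      exact pow_eq_zero_iff (two_ne_zero) |>.1 this
    have h4' := hside₁ z hz hyz.symm hzx hzz' q2 hq2z
    rw [hswap q2] at h4'
    have h6 := hdiff q2
    rw [h2] at h6
    have h7 : ε₁ * ((ρ' - ρ) * (1 - ip q2 p)) = ε₁ * - BB c r x y z' q2 := by
      have : - BB c r x y z' q2 = (ρ' - ρ) * (1 - ip q2 p) := by linarith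
      rw [this]
    have h5 := hlam q2
    by_contra hcon
    push Not at hcon
    nlinarith
  have hεε : ε₁ = ε := by
    rcases hε with rfl | rfl <;> rcases hε₁ with rfl | rfl
    · rfl
    · exfalso; linarith
    · exfalso; linarith
    · rfl
  set K : ℝ := ε * (ρ' - ρ) with hK
  set κ : ℝ := ct (r x) / st (r x) + ct (r y) / st (r y) with hκ
  have hc : κ * uu (c z) (r z) p = -2 := uu_contact x0 x2 y0 y2 z0 z2 hn txz tyz
  have hev : ∀ᶠ q in 𝓝 p, K ^ 2 * (1 - ip q p) < - κ * uu (c z) (r z) q := by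
    have c1 : Continuous fun q : S2 => K ^ 2 * (1 - ip q p) :=
      continuous_const.mul (continuous_const.sub (continuous_ip p))
    have c2 : Continuous fun q : S2 => - κ * uu (c z) (r z) q :=
      continuous_const.mul (continuous_uu _ _)
    have h0 : K ^ 2 * (1 - ip p p) < - κ * uu (c z) (r z) p := by
      rw [ip_self]
      linarith
    exact (isOpen_lt c1 c2).mem_nhds h0
  filter_upwards [hev] with q hq hqx hqy
  rw [hFc, hFc₁]
  by_contra hcon
  rw [not_or] at hcon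
  simp only [Set.mem_ofPred_eq, not_le] at hcon
  obtain ⟨g1, g2⟩ := hcon
  rw [hswap q, hεε] at g2
  have g3 := hdiff q
  have g4 : ε * BB c r x y z q = ε * BB c r x y z' q + K * (1 - ip q p) := by
    rw [g3, hK]; ring
  have g5 : ε * BB c r x y z q < K * (1 - ip q p) := by linarith
  have g6 : (ε * BB c r x y z q) ^ 2 < (K * (1 - ip q p)) ^ 2 := by
    nlinarith
  have e2 : ε ^ 2 = 1 := by rcases hε with rfl | rfl <;> norm_num
  have g7 : BB c r x y z q ^ 2 < K ^ 2 * (1 - ip q p) ^ 2 := by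
    have : (ε * BB c r x y z q) ^ 2 = BB c r x y z q ^ 2 := by rw [mul_pow, e2, one_mul]
    rw [this, mul_pow] at g6
    exact g6
  have g8 := hP.BB_sq hF h q
  have g9 : uu (c x) (r x) q + uu (c y) (r y) q = - κ * (1 - ip q p) :=
    sum_uu x0 x2 y0 y2 hn q
  have g10 : 0 ≤ uu (c x) (r x) q * uu (c y) (r y) q := mul_nonneg_of_nonpos_of_nonpos hqx hqy
  have g11 : - κ * uu (c z) (r z) q * (1 - ip q p) ≤ BB c r x y z q ^ 2 := by
    rw [g8]
    have : uu (c y) (r y) q * uu (c z) (r z) q + uu (c z) (r z) q * uu (c x) (r x) q =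
        uu (c z) (r z) q * (- κ * (1 - ip q p)) := by rw [← g9]; ring
    nlinarith
  have g12 : 0 < 1 - ip q p := by
    have : 0 < K * (1 - ip q p) := g1.trans g5
    exact pos_of_mul_pos_right this s1.le
  have g13 : - κ * uu (c z) (r z) q * (1 - ip q p) < K ^ 2 * (1 - ip q p) * (1 - ip q p) := by
    nlinarith
  have g14 := lt_of_mul_lt_mul_right g13 g12.le
  linarith

end H19S
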