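import Pool.Agent.Lib.H19S.E6
import Pool.Agent.Lib.H19S.E1b

/-!
# H19S, chunk E7: closed free sides cover the circles
-/

namespace H19S

open Finset Metric Filter Topology

variable {α : Type*} [DecidableEq α] {F : Finset (α × α × α)} {c : α → S2} {r : α → ℝ}

/-- A point of the circle of `x` in a closed free side has a neighbourhood in the circle covered by closed free sides. -/
theorem IsPacking.e7_local (hF : IsTri F) (h4 : 4 ≤ (vs F).card) (hP : IsPacking F c r)
    {x : α} (hx : x ∈ vs F) {q : S2} (hq : uu (c x) (r x) q = 0)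
    {y z : α} (h : (x, y, z) ∈ F) (hqF : q ∈ Fc F c r x y z) :
    ∀ᶠ p in 𝓝 q, uu (c x) (r x) p = 0 → ∃ y z, (x, y, z) ∈ F ∧ p ∈ Fc F c r x y z := by
  have hx2 : r x < 2 := IsPacking.lt_two hF hP hx
  have hx0 : 0 < r x := hP.pos x hx
  have hy : y ∈ vs F := hF.toIsSurf.vs2 h
  have hz : z ∈ vs F := hF.toIsSurf.vs3 h
  have hy2 : r y < 2 := IsPacking.lt_two hF hP hy
  have hy0 : 0 < r y := hP.pos y hy
  have hz2 : r z < 2 := IsPacking.lt_two hF hP hz
  have hz0 : 0 < r z := hP.pos z hz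
  have hxy : x ≠ y := hF.toIsSurf.ne h
  have hzx : z ≠ x := hF.toIsSurf.ne3 h
  obtain ⟨ε, hε, -, hFc⟩ := IsPacking.side hF h4 hP h
  have hcont : Continuous fun q => ε * BB c r x y z q :=
    continuous_const.mul (continuous_bb (c x) (r x) (c y) (r y) (c z) (r z))
  have hle : ε * BB c r x y z q ≤ 0 := by
    rw [hFc] at hqF
    exact hqF
  have hqx : q ∈ closedBall (c x) (r x) := (mem_closedBall_iff hx0 hx2).2 hq.ge
  rcases hle.lt_or_eq with hlt | heq
  · have : ∀ᶠ p in 𝓝 q, ε * BB c r x y z p < 0 := hcont.continuousAt.eventually_lt_const hlt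
    filter_upwards [this] with p hp _
    refine ⟨y, z, h, ?_⟩
    rw [hFc]
    exact hp.le
  · have hε0 : ε ≠ 0 := by rcases hε with rfl | rfl <;> norm_num
    have hB : BB c r x y z q = 0 := by
      rcases mul_eq_zero.1 heq with h1 | h1
      · exact absurd h1 hε0
      · exact h1
    have hsq := IsPacking.BB_sq hF hP h q
    rw [hB, hq] at hsq
    have hprod : uu (c y) (r y) q * uu (c z) (r z) q = 0 := by nlinarith
    rcases mul_eq_zero.1 hprod with h1 | h1
    · obtain ⟨z', hz'⟩ := hF.toIsSurf.opp h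
      have hqy : q ∈ closedBall (c y) (r y) := (mem_closedBall_iff hy0 hy2).2 h1.ge
      filter_upwards [IsPacking.local_cover hF h4 hP h hz' hqx hqy] with p hp hpx
      have hpx' : p ∈ closedBall (c x) (r x) := (mem_closedBall_iff hx0 hx2).2 hpx.ge
      have hpy : uu (c y) (r y) p ≤ 0 := by
        by_contra hcon
        push Not at hcon
        exact IsPacking.not_mem_ball hP hx hy hxy hpx' ((mem_ball_iff hy0 hy2).2 hcon)
      rcases hp hpx.le hpy with h2 | h2
      · exact ⟨y, z, h, h2⟩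
      · refine ⟨z', y, hF.toIsSurf.rot hz', ?_⟩
        rw [Fc_rot y x z']
        exact h2
    · have hzxy : (z, x, y) ∈ F := hF.toIsSurf.rot2 h
      obtain ⟨y', hy'⟩ := hF.toIsSurf.opp hzxy
      have hqz : q ∈ closedBall (c z) (r z) := (mem_closedBall_iff hz0 hz2).2 h1.ge
      filter_upwards [IsPacking.local_cover hF h4 hP hzxy hy' hqz hqx] with p hp hpx
      have hpx' : p ∈ closedBall (c x) (r x) := (mem_closedBall_iff hx0 hx2).2 hpx.ge
      have hpz : uu (c z) (r z) p ≤ 0 := by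
        by_contra hcon
        push Not at hcon
        exact IsPacking.not_mem_ball hP hx hz hzx.symm hpx' ((mem_ball_iff hz0 hz2).2 hcon)
      rcases hp hpz hpx.le with h2 | h2
      · refine ⟨y, z, h, ?_⟩
        rw [Fc_rot z x y]
        exact h2
      · exact ⟨z, y', hy', h2⟩

/-- (chunk E7) The boundary circle of `D_x` is covered by the closed free sides of the faces at `x`.
PROOF.  Let `C` be the union of `Fc x y z` over the faces `(x, y, z)` at `x`: closed.  It is open in the circle `γ = {uu x = 0}`: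
let `q ∈ γ ∩ Fc x y z`, with sign `ε` from `side`.  If `ε BB q < 0` this holds near `q`.  If `BB q = 0` then by `BB_sq`
`uu y q * uu z q = 0`, so `q` is a contact point with `D_y` or `D_z`; apply `local_cover` (for the edge `x y` with the faces
`(x,y,z)`, `(y,x,z')`, the latter being `(x,z',y)` rotated; or for the edge `x z` with the faces `(z,x,y)` and `(x,z,y')`), and `uu y ≤ 0`
on `γ` because the open disc of `y` does not meet `D_x`.  Nonempty: the contact point with a neighbour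
`y` is in `Fc x y z` because `BB = 0` there.  `γ` is connected (`isPreconnected_circle`). -/
theorem IsPacking.circ_cover (hF : IsTri F) (h4 : 4 ≤ (vs F).card) (hP : IsPacking F c r)
    {x : α} (hx : x ∈ vs F) {q : S2} (hq : uu (c x) (r x) q = 0) :
    ∃ y z, (x, y, z) ∈ F ∧ q ∈ Fc F c r x y z := by
  have hx2 : r x < 2 := IsPacking.lt_two hF hP hx
  have hx0 : 0 < r x := hP.pos x hx
  set C : Set S2 := ⋃ t ∈ F.filter (fun t => t.1 = x), Fc F c r x t.2.1 t.2.2 with hC
  have memC : ∀ p, p ∈ C ↔ ∃ y z, (x, y, z) ∈ F ∧ p ∈ Fc F c r x y z := by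
    intro p
    rw [hC]
    simp only [Set.mem_iUnion, exists_prop, mem_filter]
    constructor
    · rintro ⟨⟨x', y, z⟩, ⟨h1, h2⟩, h3⟩
      simp only at h2 h3
      subst h2
      exact ⟨y, z, h1, h3⟩
    · rintro ⟨y, z, h1, h2⟩
      exact ⟨(x, y, z), ⟨h1, rfl⟩, h2⟩
  have hCcl : IsClosed C := by
    rw [hC]
    refine Set.Finite.isClosed_biUnion (F.filter (fun t => t.1 = x)).finite_toSet ?_
    intro t _
    exact IsPacking.isClosed_Fc x t.2.1 t.2.2
  have hconn : IsPreconnected {q : S2 | dist q (c x) = r x} := isPreconnected_circle (c x) (r x)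
  have hγ : ∀ p : S2, p ∈ {q : S2 | dist q (c x) = r x} ↔ uu (c x) (r x) p = 0 := fun p =>
    (uu_eq_zero_iff hx0 hx2).symm
  rw [← memC]
  by_contra hqC
  let u : Set S2 := {q | ∀ᶠ p in 𝓝 q, uu (c x) (r x) p = 0 → p ∈ C}
  have hu : IsOpen u := isOpen_setOfPred_eventually_nhds
  have hv : IsOpen Cᶜ := hCcl.isOpen_compl
  have key : ∀ p, uu (c x) (r x) p = 0 → p ∈ C → p ∈ u := by
    intro p hp hpC
    obtain ⟨y, z, h1, h2⟩ := (memC p).1 hpC
    have := IsPacking.e7_local hF h4 hP hx hp h1 h2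
    show ∀ᶠ p in 𝓝 p, uu (c x) (r x) p = 0 → p ∈ C
    filter_upwards [this] with p' hp' h3
    exact (memC p').2 (hp' h3)
  have hsub : {q : S2 | dist q (c x) = r x} ⊆ u ∪ Cᶜ := by
    intro p hp
    rw [hγ] at hp
    by_cases hpC : p ∈ C
    · exact Or.inl (key p hp hpC)
    · exact Or.inr hpC
  obtain ⟨a, b, hab⟩ := mem_vs.1 hx
  have ha : a ∈ vs F := hF.toIsSurf.vs2 hab
  have hxa : x ≠ a := hF.toIsSurf.ne hab
  obtain ⟨p0, hp0x, hp0a⟩ := IsPacking.exists_touch hF hP ⟨b, hab⟩
  obtain ⟨t1, t2, -⟩ := IsPacking.touch hF hP hx ha hxa hp0x hp0a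
  have hp0C : p0 ∈ C := by
    rw [memC]
    refine ⟨a, b, hab, ?_⟩
    obtain ⟨ε, -, -, hFc⟩ := IsPacking.side hF h4 hP hab
    have hsq := IsPacking.BB_sq hF hP hab p0
    rw [t1, t2] at hsq
    have hB : BB c r x a b p0 = 0 := by
      have : BB c r x a b p0 ^ 2 = 0 := by rw [hsq]; ring
      exact pow_eq_zero_iff (two_ne_zero) |>.1 this
    rw [hFc]
    show ε * BB c r x a b p0 ≤ 0
    rw [hB, mul_zero]
  obtain ⟨p, hp1, hp2, hp3⟩ := hconn u Cᶜ hu hv hsub ⟨p0, (hγ p0).2 t1, key p0 t1 hp0C⟩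
    ⟨q, (hγ q).2 hq, hqC⟩
  exact hp3 (hp2.self_of_nhds ((hγ p).1 hp1))

end H19S
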