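import Pool.Agent.Lib.H19S.E7

/-!
# H19S, chunk E7b: discs and interstices cover the sphere
-/

namespace H19S

open Finset Metric Filter Topology

variable {α : Type*} [DecidableEq α] {F : Finset (α × α × α)} {c : α → S2} {r : α → ℝ}

/-- The union of the closed discs and of the interstices. -/
def E7b_U (F : Finset (α × α × α)) (c : α → S2) (r : α → ℝ) : Set S2 :=
  {q | (∃ x ∈ vs F, q ∈ closedBall (c x) (r x)) ∨ ∃ x y z, (x, y, z) ∈ F ∧ q ∈ Fr F c r x y z}

theorem E7b_of_Fc (hF : IsSurf F) {x y z : α} (h : (x, y, z) ∈ F) {q : S2}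
    (hq : q ∈ Fc F c r x y z) : q ∈ E7b_U F c r := by
  by_cases hx : q ∈ closedBall (c x) (r x)
  · exact Or.inl ⟨x, hF.vs1 h, hx⟩
  by_cases hy : q ∈ closedBall (c y) (r y)
  · exact Or.inl ⟨y, hF.vs2 h, hy⟩
  by_cases hz : q ∈ closedBall (c z) (r z)
  · exact Or.inl ⟨z, hF.vs3 h, hz⟩
  exact Or.inr ⟨x, y, z, h, hq, hx, hy, hz⟩

theorem IsPacking.E7b_contact (hF : IsTri F) (h4 : 4 ≤ (vs F).card) (hP : IsPacking F c r)
    {x y z : α} (h : (x, y, z) ∈ F) {p : S2} (hpx : p ∈ closedBall (c x) (r x))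
    (hpy : p ∈ closedBall (c y) (r y)) : E7b_U F c r ∈ 𝓝 p := by
  have hS := hF.toIsSurf
  obtain ⟨z', h'⟩ := hS.opp h
  have hx := hS.vs1 h
  have hy := hS.vs2 h
  filter_upwards [hP.local_cover hF h4 h h' hpx hpy] with q hq
  by_cases hqx : uu (c x) (r x) q ≤ 0
  · by_cases hqy : uu (c y) (r y) q ≤ 0
    · rcases hq hqx hqy with h1 | h1
      · exact E7b_of_Fc hS h h1
      · exact E7b_of_Fc hS h' h1
    · exact Or.inl ⟨y, hy, (mem_closedBall_iff (hP.pos y hy) (hP.lt_two hF hy)).2
        (not_le.1 hqy).le⟩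
  · exact Or.inl ⟨x, hx, (mem_closedBall_iff (hP.pos x hx) (hP.lt_two hF hx)).2
      (not_le.1 hqx).le⟩

theorem IsPacking.E7b_open (hF : IsTri F) (h4 : 4 ≤ (vs F).card) (hP : IsPacking F c r) :
    IsOpen (E7b_U F c r) := by
  have hS := hF.toIsSurf
  rw [isOpen_iff_mem_nhds]
  rintro q (⟨x, hx, hq⟩ | ⟨x, y, z, h, hq⟩)
  · have h0 := hP.pos x hx
    have h2 := hP.lt_two hF hx
    rcases (lt_or_eq_of_le ((mem_closedBall_iff h0 h2).1 hq)) with hlt | heq
    · have hb : ball (c x) (r x) ∈ 𝓝 q := isOpen_ball.mem_nhds ((mem_ball_iff h0 h2).2 hlt)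
      filter_upwards [hb] with q' hq'
      exact Or.inl ⟨x, hx, ball_subset_closedBall hq'⟩
    · obtain ⟨y, z, h, hFc⟩ := hP.circ_cover hF h4 hx heq.symm
      obtain ⟨ε, hε, -, hside⟩ := hP.side hF h4 h
      have hy := hS.vs2 h
      have hz := hS.vs3 h
      rw [hside] at hFc
      rcases lt_or_eq_of_le (show ε * BB c r x y z q ≤ 0 from hFc) with hlt | hz0
      · have hcont : Continuous fun q : S2 => ε * BB c r x y z q :=
          continuous_const.mul (continuous_bb _ _ _ _ _ _)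
        filter_upwards [(hcont.tendsto q).eventually_lt_const hlt] with q' hq'
        refine E7b_of_Fc hS h ?_
        rw [hside]
        exact (hq' : ε * BB c r x y z q' < 0).le
      · have hB : BB c r x y z q = 0 := by
          rcases hε with rfl | rfl
          · linarith
          · linarith
        have hsq := hP.BB_sq hF h q
        rw [hB, ← heq] at hsq
        have hprod : uu (c y) (r y) q * uu (c z) (r z) q = 0 := by nlinarith
        rcases mul_eq_zero.1 hprod with h3 | h3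
        · have hqy : q ∈ closedBall (c y) (r y) :=
            (mem_closedBall_iff (hP.pos y hy) (hP.lt_two hF hy)).2 h3.ge
          exact hP.E7b_contact hF h4 h hq hqy
        · have hqz : q ∈ closedBall (c z) (r z) :=
            (mem_closedBall_iff (hP.pos z hz) (hP.lt_two hF hz)).2 h3.ge
          exact hP.E7b_contact hF h4 (hS.rot2 h) hqz hq
  · filter_upwards [(hP.isOpen_Fr hF h4 h).mem_nhds hq] with q' hq'
    exact Or.inr ⟨x, y, z, h, hq'⟩

theorem IsPacking.E7b_closed (hF : IsTri F) (h4 : 4 ≤ (vs F).card) (hP : IsPacking F c r) :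
    IsClosed (E7b_U F c r) := by
  have hS := hF.toIsSurf
  have h1 : E7b_U F c r = (⋃ x ∈ vs F, closedBall (c x) (r x)) ∪
      (⋃ t ∈ F, Fr F c r t.1 t.2.1 t.2.2) := by
    ext q
    simp only [E7b_U, Set.mem_ofPred_eq, Set.mem_union, Set.mem_iUnion, Prod.exists, exists_prop]
  refine isClosed_of_closure_subset ?_
  intro q hq
  rw [h1, closure_union] at hq
  rcases hq with hq | hq
  · rw [Finset.closure_biUnion] at hq
    obtain ⟨x, hx, hqx⟩ := Set.mem_iUnion₂.1 hq
    rw [isClosed_closedBall.closure_eq] at hqx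
    exact Or.inl ⟨x, hx, hqx⟩
  · rw [Finset.closure_biUnion] at hq
    obtain ⟨⟨x, y, z⟩, h, hqx⟩ := Set.mem_iUnion₂.1 hq
    rcases hP.closure_Fr hF h4 h hqx with h2 | h2 | h2 | h2
    · exact Or.inr ⟨x, y, z, h, h2⟩
    · exact Or.inl ⟨x, hS.vs1 h, h2⟩
    · exact Or.inl ⟨y, hS.vs2 h, h2⟩
    · exact Or.inl ⟨z, hS.vs3 h, h2⟩

theorem E7b_conn : IsPreconnected (Set.univ : Set S2) := by
  have h : 1 < Module.rank ℝ (EuclideanSpace ℝ (Fin 3)) := by
    rw [← Module.finrank_eq_rank, finrank_euclideanSpace]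
    norm_num
  have h1 := isPreconnected_sphere h (0 : EuclideanSpace ℝ (Fin 3)) 1
  have h2 := isPreconnected_iff_preconnectedSpace.1 h1
  exact h2.isPreconnected_univ

/-- (chunk E7b) Every point of the sphere is in a closed disc or in an interstice.
PROOF.  The union `U` is closed (`closure_Fr`) and nonempty; the sphere is connected (`isPreconnected_sphere`); `U` is open: points
of open discs and of interstices (`isOpen_Fr`) are interior.  If `uu x q = 0`, take the face `(x,y,z)` with `q ∈ Fc x y z`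
(`circ_cover`).  If `ε BB q < 0` then the same near `q`, so near `q` every point is in `D_x ∪ D_y ∪ D_z ∪ Fr x y z`.
If `BB q = 0`, `q` is a contact point of `x` with `y` or `z`; `local_cover`. -/
theorem IsPacking.cover (hF : IsTri F) (h4 : 4 ≤ (vs F).card) (hP : IsPacking F c r) (q : S2) :
    (∃ x ∈ vs F, q ∈ closedBall (c x) (r x)) ∨ ∃ x y z, (x, y, z) ∈ F ∧ q ∈ Fr F c r x y z := by
  have hclopen : IsClopen (E7b_U F c r) := ⟨hP.E7b_closed hF h4, hP.E7b_open hF h4⟩
  have hne : (E7b_U F c r).Nonempty := by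
    obtain ⟨x, hx⟩ : (vs F).Nonempty := by
      rw [← Finset.card_pos]
      omega
    exact ⟨c x, Or.inl ⟨x, hx, mem_closedBall_self (hP.pos x hx).le⟩⟩
  have : PreconnectedSpace S2 := ⟨E7b_conn⟩
  have huniv := hclopen.eq_univ hne
  have : q ∈ E7b_U F c r := by
    rw [huniv]
    exact Set.mem_univ q
  exact this

end H19S
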