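import Pool.Agent.Lib.H19S.E7b

/-!
# H19S, chunk E8: the discs met by a connected set form a connected set of vertices
-/

namespace H19S

open Finset Metric Filter Topology

variable {α : Type*} [DecidableEq α] {F : Finset (α × α × α)} {c : α → S2} {r : α → ℝ}

/-- points of class A -/
def E8_A (F : Finset (α × α × α)) (c : α → S2) (r : α → ℝ) (P : Set α) (q : S2) : Prop :=
  (∃ x ∈ vs F, x ∈ P ∧ q ∈ closedBall (c x) (r x)) ∨
    ((∀ w ∈ vs F, q ∉ closedBall (c w) (r w)) ∧
      ∀ a b d, (a, b, d) ∈ F → q ∈ Fr F c r a b d → a ∈ P ∨ b ∈ P ∨ d ∈ P)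

theorem E8_near (hF : IsTri F) (h4 : 4 ≤ (vs F).card) (hP : IsPacking F c r) (q : S2) :
    ∀ᶠ q' in 𝓝 q, (∀ w ∈ vs F, q' ∈ closedBall (c w) (r w) → q ∈ closedBall (c w) (r w)) ∧
      (∀ t ∈ F, q' ∈ Fr F c r t.1 t.2.1 t.2.2 → q ∈ closure (Fr F c r t.1 t.2.1 t.2.2)) ∧
      (∀ t ∈ F, q ∈ Fr F c r t.1 t.2.1 t.2.2 → q' ∈ Fr F c r t.1 t.2.1 t.2.2) := by
  refine Filter.Eventually.and ?_ (Filter.Eventually.and ?_ ?_)
  · rw [Filter.eventually_all_finset]
    intro w hw
    by_cases h : q ∈ closedBall (c w) (r w)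
    · exact Filter.Eventually.of_forall fun _ _ => h
    · have h1 : (closedBall (c w) (r w))ᶜ ∈ 𝓝 q := isClosed_closedBall.isOpen_compl.mem_nhds h
      filter_upwards [h1] with q' hq' h2
      exact absurd h2 hq'
  · rw [Filter.eventually_all_finset]
    intro t ht
    by_cases h : q ∈ closure (Fr F c r t.1 t.2.1 t.2.2)
    · exact Filter.Eventually.of_forall fun _ _ => h
    · have h1 : (closure (Fr F c r t.1 t.2.1 t.2.2))ᶜ ∈ 𝓝 q :=
        isClosed_closure.isOpen_compl.mem_nhds h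
      filter_upwards [h1] with q' hq' h2
      exact absurd (subset_closure h2) hq'
  · rw [Filter.eventually_all_finset]
    intro t ht
    by_cases h : q ∈ Fr F c r t.1 t.2.1 t.2.2
    · filter_upwards [(hP.isOpen_Fr hF h4 (x := t.1) (y := t.2.1) (z := t.2.2) ht).mem_nhds h]
        with q' hq' _
      exact hq'
    · exact Filter.Eventually.of_forall fun _ h2 => absurd h2 h

/-- (chunk E8) PROOF.  Let `V` be the set of vertices whose disc meets `γ`, `x₀ ∈ V`, `P` the set of vertices of `V` reachable from `x₀` inside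
`V`; no vertex of `V \ P` is adjacent to a vertex of `P`.  Suppose `y₀ ∈ V \ P`.  Call a point `q ∈ γ` of class A if it is in
a closed disc `D_x`, `x ∈ P`, or if it is in no closed disc and every face `(a,b,d)` with `q ∈ Fr a b d` has a vertex in `P`.
The class is locally constant on `γ`, contradiction with connectedness (`γ` contains points of both classes: points of
`D_{x₀}` and of `D_{y₀}`; a point of `D_y`, `y ∈ V \ P`, is not of class A since discs with a common point are equal or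
adjacent).  LOCALLY CONSTANT: there are finitely many discs and interstices.
* `q` in no closed disc: for each face the conditions `q ∈ Fr`, `q ∉ Fr` are both open at `q` (`isOpen_Fr`; `closure_Fr`).
* `q ∈ D_x`, `x ∈ P`: near `q` a point `q'` of `γ` is only in discs `D_w` containing `q` (the others are closed), then
  `w ∈ V` is `x` or adjacent to `x`, so `w ∈ P`; if `q' ∈ Fr a b d` then (`q'` near `q`) `q ∈ closure (Fr a b d)` and `x ∈ {a,b,d}` by
  `closure_Fr_disc`.  So `q'` is of class A.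
* `q ∈ D_y`, `y ∈ V \ P`: near `q` the point `q'` is only in discs `D_w`, `w ∈ V \ P`; if `q'` is in no disc it is in some
  `Fr a b d` (`cover`), and `q ∈ closure (Fr a b d)`, so `y ∈ {a,b,d}`, and then no vertex of the face is in `P` (it would be `y` or adjacent
  to `y`, and `y ∈ V` would be in `P`).  So `q'` is not of class A. -/
theorem IsPacking.conn_of_preconnected (hF : IsTri F) (h4 : 4 ≤ (vs F).card)
    (hP : IsPacking F c r) {γ : Set S2} (hγ : IsPreconnected γ) :
    ConnIn F {x | x ∈ vs F ∧ (closedBall (c x) (r x) ∩ γ).Nonempty} := by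
  classical
  have hS := hF.toIsSurf
  set V : Set α := {x | x ∈ vs F ∧ (closedBall (c x) (r x) ∩ γ).Nonempty} with hV
  intro x₀ hx₀ y₀ hy₀
  by_contra hnot
  set P : Set α := {x | Relation.ReflTransGen (fun p q => q ∈ V ∧ Adj F p q) x₀ x} with hPdef
  have hstep : ∀ x ∈ P, ∀ y ∈ V, (x = y ∨ Adj F x y) → y ∈ P := by
    rintro x hx y hy (rfl | h)
    · exact hx
    · exact Relation.ReflTransGen.tail hx ⟨hy, h⟩
  have hx₀P : x₀ ∈ P := Relation.ReflTransGen.refl
  have hVmem : ∀ x ∈ vs F, ∀ q ∈ γ, q ∈ closedBall (c x) (r x) → x ∈ V :=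
    fun x hx q hq hqx => ⟨hx, q, hqx, hq⟩
  -- two discs with a common point
  have hcommon : ∀ x ∈ vs F, x ∈ P → ∀ y ∈ vs F, y ∈ V → ∀ q, q ∈ closedBall (c x) (r x) →
      q ∈ closedBall (c y) (r y) → y ∈ P := by
    intro x hx hxP y hy hyV q hqx hqy
    exact hstep x hxP y hyV (hP.adj_of_mem hx hy hqx hqy)
  have hface : ∀ a b d, (a, b, d) ∈ F → ∀ x ∈ V, (x = a ∨ x = b ∨ x = d) →
      (a ∈ P ∨ b ∈ P ∨ d ∈ P) → x ∈ P := by
    intro a b d habd x hxV hx hp
    have hab : Adj F a b := ⟨d, habd⟩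
    have hbd : Adj F b d := ⟨a, hS.rot habd⟩
    have hda : Adj F d a := ⟨b, hS.rot2 habd⟩
    have hba := hS.adj_symm hab
    have hdb := hS.adj_symm hbd
    have had := hS.adj_symm hda
    rcases hp with hp | hp | hp <;> rcases hx with rfl | rfl | rfl <;>
      refine hstep _ hp _ hxV ?_ <;> tauto
  have hloc : ∀ q ∈ γ, ∀ᶠ q' in 𝓝[γ] q, (E8_A F c r P q' ↔ E8_A F c r P q) := by
    intro q hq
    have hnear := (E8_near hF h4 hP q).filter_mono (nhdsWithin_le_nhds (s := γ))
    filter_upwards [hnear, self_mem_nhdsWithin] with q' hq' hq'γ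
    obtain ⟨n1, n2, n3⟩ := hq'
    by_cases hdisc : ∃ x ∈ vs F, q ∈ closedBall (c x) (r x)
    · obtain ⟨x, hx, hqx⟩ := hdisc
      have hxV := hVmem x hx q hq hqx
      by_cases hxP : x ∈ P
      · refine ⟨fun _ => Or.inl ⟨x, hx, hxP, hqx⟩, fun _ => ?_⟩
        by_cases hd' : ∃ w ∈ vs F, q' ∈ closedBall (c w) (r w)
        · obtain ⟨w, hw, hqw⟩ := hd'
          exact Or.inl ⟨w, hw, hcommon x hx hxP w hw (hVmem w hw q' hq'γ hqw) q hqx
            (n1 w hw hqw), hqw⟩
        · refine Or.inr ⟨fun w hw h => hd' ⟨w, hw, h⟩, fun a b d habd hfr => ?_⟩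
          have h1 := n2 _ habd hfr
          rcases hP.closure_Fr_disc hF h4 habd h1 hx hqx with h2 | h2 | h2
          · exact Or.inl (h2 ▸ hxP)
          · exact Or.inr (Or.inl (h2 ▸ hxP))
          · exact Or.inr (Or.inr (h2 ▸ hxP))
      · constructor
        · rintro (⟨x', hx', hx'P, hqx'⟩ | ⟨h1, h2⟩)
          · exact absurd (hcommon x' hx' hx'P x hx hxV q (n1 x' hx' hqx') hqx) hxP
          · exfalso
            rcases hP.cover hF h4 q' with ⟨w, hw, h3⟩ | ⟨a, b, d, habd, h3⟩
            · exact h1 w hw h3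
            · have h4' := h2 a b d habd h3
              have h5 := hP.closure_Fr_disc hF h4 habd (n2 _ habd h3) hx hqx
              exact hxP (hface a b d habd x hxV h5 h4')
        · rintro (⟨x', hx', hx'P, hqx'⟩ | ⟨h1, _⟩)
          · exact absurd (hcommon x' hx' hx'P x hx hxV q hqx' hqx) hxP
          · exact absurd hqx (h1 x hx)
    · have hnd : ∀ w ∈ vs F, q ∉ closedBall (c w) (r w) := fun w hw h => hdisc ⟨w, hw, h⟩
      have hnd' : ∀ w ∈ vs F, q' ∉ closedBall (c w) (r w) := fun w hw h => hnd w hw (n1 w hw h)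
      have hfr : ∀ a b d, (a, b, d) ∈ F → (q' ∈ Fr F c r a b d ↔ q ∈ Fr F c r a b d) := by
        intro a b d habd
        refine ⟨fun h => ?_, fun h => n3 _ habd h⟩
        rcases hP.closure_Fr hF h4 habd (n2 _ habd h) with h2 | h2 | h2 | h2
        · exact h2
        · exact absurd h2 (hnd a (hS.vs1 habd))
        · exact absurd h2 (hnd b (hS.vs2 habd))
        · exact absurd h2 (hnd d (hS.vs3 habd))
      constructor
      · rintro (⟨x', hx', _, hqx'⟩ | ⟨_, h2⟩)
        · exact absurd hqx' (hnd' x' hx')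
        · exact Or.inr ⟨hnd, fun a b d habd h => h2 a b d habd ((hfr a b d habd).2 h)⟩
      · rintro (⟨x', hx', _, hqx'⟩ | ⟨_, h2⟩)
        · exact absurd hqx' (hnd x' hx')
        · exact Or.inr ⟨hnd', fun a b d habd h => h2 a b d habd ((hfr a b d habd).1 h)⟩
  have hcont : ContinuousOn (fun q : S2 => decide (E8_A F c r P q)) γ := by
    intro q hq
    unfold ContinuousWithinAt
    rw [nhds_discrete, tendsto_pure]
    filter_upwards [hloc q hq] with q' hq'
    simp only [hq']
  obtain ⟨hx₀F, q0, hq0, hq0γ⟩ := hx₀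
  obtain ⟨hy₀F, q1, hq1, hq1γ⟩ := hy₀
  have heq := hγ.constant hcont hq0γ hq1γ
  have hA0 : E8_A F c r P q0 := Or.inl ⟨x₀, hx₀F, hx₀P, hq0⟩
  have hA1 : ¬ E8_A F c r P q1 := by
    rintro (⟨x', hx', hx'P, hqx'⟩ | ⟨h1, _⟩)
    · exact hnot (hcommon x' hx' hx'P y₀ hy₀F (hVmem y₀ hy₀F q1 hq1γ hq1) q1 hqx' hq1)
    · exact h1 y₀ hy₀F hq1
  simp only [hA0, hA1, decide_true, decide_false] at heq
  exact absurd heq (by decide)

end H19S
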