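import Pool.Agent.Lib.H19S.E1

/-!
# H19S, chunk E9: disjoint balls, radial projection
-/

namespace H19S

open Finset Metric MeasureTheory

/-- (chunk E9) Pairwise disjoint balls in a ball: compare volumes
(`MeasureTheory.Measure.addHaar_ball`, dimension 3). -/
theorem disjoint_balls {ι : Type*} (s : Finset ι) (a : ι → E3) (ρ : ι → ℝ) (a₀ : E3) (R : ℝ)
    (hρ : ∀ i ∈ s, 0 < ρ i) (hd : ∀ i ∈ s, ∀ j ∈ s, i ≠ j → Disjoint (ball (a i) (ρ i)) (ball (a j) (ρ j)))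
    (hR : ∀ i ∈ s, ball (a i) (ρ i) ⊆ ball a₀ R) : ∑ i ∈ s, ρ i ^ 3 ≤ max R 0 ^ 3 := by
  rcases s.eq_empty_or_nonempty with hs | ⟨i0, hi0⟩
  · subst hs
    simp
  have hR0 : 0 < R := by
    by_contra hc
    push Not at hc
    have h1 : ball a₀ R = ∅ := ball_eq_empty.2 hc
    have h2 := hR i0 hi0 (mem_ball_self (hρ i0 hi0))
    rw [h1] at h2
    exact h2
  rw [max_eq_left hR0.le]
  have hfr : Module.finrank ℝ E3 = 3 := by simp [E3]
  set μ : Measure E3 := volume with hμ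
  have hb0 : μ (ball (0 : E3) 1) ≠ 0 := (measure_ball_pos μ _ one_pos).ne'
  have hbt : μ (ball (0 : E3) 1) ≠ ⊤ := measure_ball_lt_top.ne
  have h1 : ∑ i ∈ s, μ (ball (a i) (ρ i)) ≤ μ (ball a₀ R) := by
    rw [← measure_biUnion_finset]
    · apply measure_mono
      exact Set.iUnion₂_subset (fun i hi => hR i hi)
    · intro i hi j hj hij
      exact hd i hi j hj hij
    · intro i _
      exact measurableSet_ball
  have h2 : ∑ i ∈ s, μ (ball (a i) (ρ i)) = (∑ i ∈ s, ENNReal.ofReal (ρ i ^ 3)) * μ (ball (0 : E3) 1) := by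
    rw [Finset.sum_mul]
    apply Finset.sum_congr rfl
    intro i hi
    rw [Measure.addHaar_ball μ _ (hρ i hi).le, hfr]
  rw [h2, Measure.addHaar_ball μ _ hR0.le, hfr] at h1
  have h3 := (ENNReal.mul_le_mul_iff_left hb0 hbt).1 h1
  rw [← ENNReal.ofReal_sum_of_nonneg (fun i hi => pow_nonneg (hρ i hi).le 3)] at h3
  exact (ENNReal.ofReal_le_ofReal_iff (pow_nonneg hR0.le 3)).1 h3

/-- Radial projection: a point at distance `< s / 4` from `t • c'` (`t ≥ 1`, `c'` in the sphere) has its radial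
projection at distance `< s` from `c'` (`| ‖q‖ - t | < s / 4`, `‖ q/‖q‖ - q/t ‖ = |t - ‖q‖| / t`). -/
theorem proj_mem_ball {c' : S2} {t s : ℝ} (ht : 1 ≤ t) (hs : 0 < s) (hs2 : s ≤ 2) {q : E3}
    (hq : q ∈ ball (t • (c' : E3)) (s / 4)) (p : S2) (hp : ‖q‖ • (p : E3) = q) :
    p ∈ ball c' s := by
  have hc : ‖(c' : E3)‖ = 1 := norm_S2 c'
  have hpn : ‖(p : E3)‖ = 1 := norm_S2 p
  rw [mem_ball, dist_eq_norm] at hq
  have h1 : ‖t • (c' : E3)‖ = t := by
    rw [norm_smul, hc, mul_one, Real.norm_eq_abs, abs_of_pos (by linarith)]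
  have h2 : |‖q‖ - t| ≤ ‖q - t • (c' : E3)‖ := by
    have := abs_norm_sub_norm_le q (t • (c' : E3))
    rwa [h1] at this
  have h3 : t • ((p : E3) - (c' : E3)) = (t - ‖q‖) • (p : E3) + (q - t • (c' : E3)) := by
    rw [smul_sub, sub_smul, hp]
    abel
  have h4 : ‖t • ((p : E3) - (c' : E3))‖ < s / 2 := by
    rw [h3]
    calc ‖(t - ‖q‖) • (p : E3) + (q - t • (c' : E3))‖
        ≤ ‖(t - ‖q‖) • (p : E3)‖ + ‖q - t • (c' : E3)‖ := norm_add_le _ _
      _ = |‖q‖ - t| + ‖q - t • (c' : E3)‖ := by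
          rw [norm_smul, hpn, mul_one, Real.norm_eq_abs, abs_sub_comm]
      _ < s / 2 := by linarith
  rw [norm_smul, Real.norm_eq_abs, abs_of_pos (by linarith)] at h4
  have h5 : ‖(p : E3) - (c' : E3)‖ ≤ t * ‖(p : E3) - (c' : E3)‖ := by
    have := norm_nonneg ((p : E3) - (c' : E3))
    nlinarith
  rw [mem_ball, Subtype.dist_eq, dist_eq_norm]
  linarith

end H19S
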