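import Pool.Agent.Lib.H19S.TopE
import Pool.Agent.Lib.H19S.C0b
import Pool.Agent.Lib.H19S.Dep

/-!
# H19S, Part F: definitions; chunk F0
-/

namespace H19S

open Finset
open scoped ENNReal

/-- Constant of `lemA2`. -/
noncomputable def CA : ℝ := lemA2.choose

/-- Constant of `lemB`. -/
noncomputable def CB : ℝ := lemB.choose

theorem one_le_CA : 1 ≤ CA := lemA2.choose_spec.1

theorem one_le_CB : 1 ≤ CB := lemB.choose_spec.1

/-- `lemA2` with the constant `CA`. -/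
theorem lemA2' : ∀ (F : Finset (ℕ × ℕ × ℕ)), IsTri F → 4 ≤ (vs F).card →
    ∀ (c : ℕ → S2) (r : ℕ → ℝ), IsPacking F c r → ∀ (y : S2) (ρ R : ℝ), 0 < ρ → 1 ≤ R →
    R * ρ ≤ 1 / 20 → ∀ (S₁ S₂ : Set ℕ), S₁ ⊆ vs F → S₂ ⊆ vs F → ConnIn F S₁ → ConnIn F S₂ →
    (∃ x ∈ S₁, y ∈ Metric.closedBall (c x) (r x)) → (∃ x ∈ S₁, ρ ≤ dist (c x) y) →
    (∃ x ∈ S₂, (Metric.closedBall (c x) (r x) ∩ Metric.closedBall y (R * ρ)).Nonempty) →
    (∃ x ∈ S₂, 10 * (R * ρ) ≤ dist (c x) y) →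
    ∀ g : ℕ → ℝ, (∀ x ∈ S₁, g x = 0) → (∀ x ∈ S₂, g x = 1) → 1 ≤ CA * R ^ 2 * energy F g :=
  lemA2.choose_spec.2

/-- `lemB` with the constant `CB`. -/
theorem lemB' : ∀ (F : Finset (ℕ × ℕ × ℕ)), IsTri F → 4 ≤ (vs F).card →
    ∀ (c : ℕ → S2) (r : ℕ → ℝ), IsPacking F c r → ∀ v ∈ vs F, ∀ u ∈ vs F, v ≠ u →
    ∀ (ρ R' a b : ℝ), 0 < ρ → ρ < R' → R' ≤ 1 / 40 →
    (∀ s : ℝ, ρ ≤ s → s ≤ 2 * R' → ∀ w ∈ vs F,
      (Metric.closedBall (c w) (r w) ∩ Metric.closedBall (c v) s).Nonempty → r w ≤ s / 10) →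
    0 ≤ a → a < b → b ≤ pot F v u u →
    (∀ x ∈ vs F, pot F v u x ≤ a → dist (c x) (c v) ≤ ρ) →
    (∀ x ∈ vs F, b ≤ pot F v u x → R' ≤ dist (c x) (c v)) →
    Real.log (R' / ρ) ≤ CB * (1 + ∑ x ∈ (vs F).filter (fun x => a - 1 ≤ pot F v u x ∧
      pot F v u x ≤ b + 1), (thr F (pot F v u) x) ^ 2) :=
  lemB.choose_spec.2

/-- The standing assumptions of Part F. -/
structure Geo (F : Finset (ℕ × ℕ × ℕ)) (c : ℕ → S2) (r : ℕ → ℝ) (a A rN r0 c0 δz c1 : ℝ) :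
    Prop where
  tri : IsTri F
  m0 : 0 ∈ vs F
  m1 : 1 ∈ vs F
  m2 : 2 ∈ vs F
  four : 4 ≤ (vs F).card
  pack : IsPacking F c r
  reg0 : RegPt F c r a A rN r0 0
  reg1 : RegPt F c r a A rN r0 1
  far : c0 ≤ dist (c 0) (c 1)
  zlo : δz ≤ dist (c 2) (c 0)
  zhi : dist (c 2) (c 0) ≤ c1
  a_pos : 0 < a
  A_pos : 0 < A
  rN_pos : 0 < rN
  rN_le : rN ≤ r0
  δz_pos : 0 < δz
  h1 : 100 * c1 ≤ r0
  h2 : 100 * r0 ≤ c0
  h3 : 1000 * r0 ≤ 1

/-- Largest distance of the centres of `S` from the centre of `p`. -/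
noncomputable def od (c : ℕ → S2) (p : ℕ) (S : Finset ℕ) : ℝ :=
  ((S.sup fun x => nndist (c x) (c p) : NNReal) : ℝ)

/-- Outer radius of `{depth ≥ t}`. -/
noncomputable def dd (F : Finset (ℕ × ℕ × ℕ)) (c : ℕ → S2) (t : ℝ) : ℝ :=
  od c 0 ((vs F).filter fun x => t ≤ dep F x)

/-- Number of vertices at depth at least `t`. -/
noncomputable def cnt (F : Finset (ℕ × ℕ × ℕ)) (t : ℝ) : ℕ :=
  ((vs F).filter fun x => t ≤ dep F x).card

theorem od_nonneg {c : ℕ → S2} {p : ℕ} {S : Finset ℕ} : 0 ≤ od c p S := NNReal.coe_nonneg _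

theorem le_od {c : ℕ → S2} {p : ℕ} {S : Finset ℕ} {x : ℕ} (hx : x ∈ S) :
    dist (c x) (c p) ≤ od c p S := by
  have h := Finset.le_sup (f := fun x => nndist (c x) (c p)) hx
  unfold od
  rw [← coe_nndist]
  exact_mod_cast h

theorem exists_od {c : ℕ → S2} {p : ℕ} {S : Finset ℕ} (hS : S.Nonempty) :
    ∃ x ∈ S, dist (c x) (c p) = od c p S := by
  obtain ⟨x, hx, h⟩ := Finset.exists_mem_eq_sup S hS (fun x => nndist (c x) (c p))
  refine ⟨x, hx, ?_⟩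
  unfold od
  rw [h, coe_nndist]

theorem le_dd {F : Finset (ℕ × ℕ × ℕ)} {c : ℕ → S2} {t : ℝ} {x : ℕ} (hx : x ∈ vs F)
    (ht : t ≤ dep F x) : dist (c x) (c 0) ≤ dd F c t :=
  le_od (mem_filter.2 ⟨hx, ht⟩)

theorem dd_anti {F : Finset (ℕ × ℕ × ℕ)} {c : ℕ → S2} {t t' : ℝ} (h : t ≤ t') :
    dd F c t' ≤ dd F c t := by
  unfold dd od
  rw [NNReal.coe_le_coe]
  refine Finset.sup_mono fun x hx => ?_
  rw [mem_filter] at hx ⊢
  exact ⟨hx.1, h.trans hx.2⟩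

theorem cnt_anti {F : Finset (ℕ × ℕ × ℕ)} {t t' : ℝ} (h : t ≤ t') : cnt F t' ≤ cnt F t := by
  unfold cnt
  refine card_le_card fun x hx => ?_
  rw [mem_filter] at hx ⊢
  exact ⟨hx.1, h.trans hx.2⟩

/-- If `dd F c t > 0` it is attained. -/
theorem exists_dd {F : Finset (ℕ × ℕ × ℕ)} {c : ℕ → S2} {t : ℝ} (h : 0 < dd F c t) :
    ∃ x ∈ vs F, t ≤ dep F x ∧ dist (c x) (c 0) = dd F c t := by
  have hne : ((vs F).filter fun x => t ≤ dep F x).Nonempty := by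
    by_contra hcon
    rw [not_nonempty_iff_eq_empty] at hcon
    unfold dd od at h
    rw [hcon, Finset.sup_empty] at h
    simp at h
  obtain ⟨x, hx, hd⟩ := exists_od (c := c) (p := 0) hne
  rw [mem_filter] at hx
  exact ⟨x, hx.1, hx.2, hd⟩

/-- The potential vanishes only at its source: if `h x = 0`, `x ≠ v`, then `x ≠ u` (the potential of `u` is positive) and all
neighbours of `x` have potential `0` (harmonicity and `nonneg`); `vs F \ {v}` is connected (the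
neighbours of `v` are joined along the link of `v`), so `h u = 0`, contradiction. -/
theorem pot_pos {F : Finset (ℕ × ℕ × ℕ)} (hF : IsTri F) (h4 : 4 ≤ (vs F).card) {v u x : ℕ}
    (hv : v ∈ vs F) (hu : u ∈ vs F) (hvu : v ≠ u) (hx : x ∈ vs F) (hxv : x ≠ v) :
    0 < pot F v u x := by
  have hS : IsSurf F := hF.toIsSurf
  have hh : IsPot F v u (pot F v u) := pot_isPot hS hv hu hvu
  set h := pot F v u with hdef
  have hnn : ∀ y ∈ vs F, 0 ≤ h y := fun y hy => hh.nonneg hS hv hu hvu hy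
  by_contra hneg
  have hx0 : h x = 0 := le_antisymm (not_lt.1 hneg) (hnn x hx)
  -- all neighbours of `v` cannot have potential zero
  have hsrc : ¬ ∀ y, Adj F v y → h y = 0 := by
    intro hall
    have h1 := hh.src
    unfold lap at h1
    rw [sum_eq_zero] at h1
    · exact zero_ne_one h1
    · intro t ht
      obtain ⟨ht1, ht2⟩ := mem_filter.1 ht
      have h2 : Adj F v t.2.1 := ⟨t.2.2, by rw [← ht2]; exact ht1⟩
      rw [hall _ h2, hh.zero, sub_zero]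
  have hu0 : h u ≠ 0 := by
    intro h0
    apply hsrc
    intro y hy
    have hyF : y ∈ vs F := hS.adj_mem_right hy
    exact le_antisymm (h0 ▸ hh.le_top hS hv hu hvu hyF) (hnn y hyF)
  have hstep : ∀ p ∈ vs F, p ≠ v → h p = 0 → ∀ q, Adj F p q → h q = 0 := by
    intro p hp hpv hp0 q hq
    have hpu : p ≠ u := by
      intro e
      rw [e] at hp0
      exact hu0 hp0
    have h1 := hh.harm p hp hpv hpu
    unfold lap at h1
    obtain ⟨w, hw⟩ := hq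
    have h2 := (sum_eq_zero_iff_of_nonneg (fun t ht => by
      have ht1 := (mem_filter.1 ht).1
      have h3 : t.2.1 ∈ vs F := hS.vs2 (a := t.1) (b := t.2.1) (c := t.2.2) ht1
      rw [hp0, sub_zero]
      exact hnn _ h3)).1 h1 (p, q, w) (mem_filter.2 ⟨hw, rfl⟩)
    simp only at h2
    linarith
  by_cases hnb : ∃ y, Adj F v y ∧ h y = 0
  · obtain ⟨y, ⟨w, hw⟩, hy0⟩ := hnb
    apply hsrc
    rintro q ⟨w', hq⟩
    have hl := hS.link hw hq
    have key : ∀ q', Relation.ReflTransGen (fun x y => (v, x, y) ∈ F) y q' → h q' = 0 ∧ Adj F v q' := by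
      intro q' hq'
      induction hq' with
      | refl => exact ⟨hy0, ⟨w, hw⟩⟩
      | tail hab hbc ih =>
        rename_i b c
        obtain ⟨ih1, ih2⟩ := ih
        have hbc' : Adj F b c := ⟨v, hS.rot hbc⟩
        have hbv : b ≠ v := (hS.adj_ne ih2).symm
        refine ⟨hstep b (hS.adj_mem_right ih2) hbv ih1 c hbc', ?_⟩
        obtain ⟨d, hd⟩ := hS.opp (hS.rot2 hbc)
        exact ⟨d, hd⟩
    exact (key q hl).1
  · push Not at hnb
    have key : ∀ q, Relation.ReflTransGen (Adj F) x q → h q = 0 ∧ q ≠ v ∧ q ∈ vs F := by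
      intro q hq
      induction hq with
      | refl => exact ⟨hx0, hxv, hx⟩
      | tail hab hbc ih =>
        rename_i b c
        obtain ⟨ih1, ih2, ih3⟩ := ih
        refine ⟨hstep b ih3 ih2 ih1 c hbc, ?_, hS.adj_mem_right hbc⟩
        intro e
        rw [e] at hbc
        exact hnb b (hS.adj_symm hbc) ih1
    exact (key v (hS.conn hx hv)).2.1 rfl

end H19S
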