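import Pool.Agent.Lib.H19S.F0

/-!
# H19S, chunks F1 (sepA) and F2 (window sums)
-/

namespace H19S

open Finset
open scoped ENNReal

/-- energy of an affine image -/
theorem f1_energy {F : Finset (ℕ × ℕ × ℕ)} (f : ℕ → ℝ) (a gap : ℝ) :
    energy F (fun z => (f z - a) / gap) = energy F f / gap ^ 2 := by
  unfold energy
  have h : ∀ t ∈ F, ((f t.2.1 - a) / gap - (f t.1 - a) / gap) ^ 2 =
      (f t.2.1 - f t.1) ^ 2 / gap ^ 2 := by
    intro t _
    rw [← sub_div, div_pow]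
    congr 1
    ring
  rw [sum_congr rfl h, ← sum_div]
  ring

/-- If `{h ≤ a}` (`h` the potential from `p` to `q`) contains a vertex at distance `≥ ρ` from `p`, then the discs meeting the ball of radius
`R ρ` have `h ≤ a + CA R²`.  Proof: let `h x > a + CA R²`, `gap = h x - a`; `S₁ = {h ≤ a}`, `S₂ = {h ≥ h x}` are connected
(`conn_le`, `conn_ge`), `p ∈ S₁` (`a ≥ 0` because of the hypothesis), `q ∈ S₂` (`le_top`);
`g = (clamp(h, a, h x) - a) / gap` is `0` on `S₁`, `1` on `S₂`, energy `≤ gap / gap²` (`energy_clamp`); `lemA2'` gives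
`1 ≤ CA R² / gap`, contradiction. -/
theorem sepA {F : Finset (ℕ × ℕ × ℕ)} (hF : IsTri F) (h4 : 4 ≤ (vs F).card) {c : ℕ → S2}
    {r : ℕ → ℝ} (hP : IsPacking F c r) {p q : ℕ} (hp : p ∈ vs F) (hq : q ∈ vs F) (hpq : p ≠ q)
    {ρ R a : ℝ} (hρ : 0 < ρ) (hR : 1 ≤ R) (hRρ : R * ρ ≤ 1 / 20)
    (hfar : 10 * (R * ρ) ≤ dist (c q) (c p))
    (hex : ∃ x ∈ vs F, pot F p q x ≤ a ∧ ρ ≤ dist (c x) (c p)) {x : ℕ} (hx : x ∈ vs F)
    (hm : (Metric.closedBall (c x) (r x) ∩ Metric.closedBall (c p) (R * ρ)).Nonempty) :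
    pot F p q x ≤ a + CA * R ^ 2 := by
  have hS := hF.toIsSurf
  have hh : IsPot F p q (pot F p q) := pot_isPot hS hp hq hpq
  set h := pot F p q with hhdef
  by_contra hlt
  push Not at hlt
  have hCA := one_le_CA
  have hR2 : 1 ≤ R ^ 2 := one_le_pow₀ hR
  have hC1 : 1 ≤ CA * R ^ 2 := by nlinarith
  obtain ⟨x0, hx0, hx0a, hx0ρ⟩ := hex
  have ha : 0 ≤ a := (hh.nonneg hS hp hq hpq hx0).trans hx0a
  have hgap : 0 < h x - a := by linarith
  have hE : energy F (fun z => (max a (min (h x) (h z)) - a) / (h x - a)) ≤ 1 / (h x - a) := by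
    rw [f1_energy]
    have h1 := hh.energy_clamp hS hp hq hpq (a := a) (b := h x) (by linarith)
    rw [div_le_div_iff₀ (by positivity) hgap]
    nlinarith
  have key := lemA2' F hF h4 c r hP (c p) ρ R hρ hR hRρ {z | z ∈ vs F ∧ h z ≤ a}
    {z | z ∈ vs F ∧ h x ≤ h z} (fun z hz => hz.1) (fun z hz => hz.1)
    (hh.conn_le hS hp hq hpq a) (hh.conn_ge hS hp hq hpq (h x))
    ⟨p, ⟨hp, by rw [hh.zero]; exact ha⟩, Metric.mem_closedBall_self (hP.pos p hp).le⟩
    ⟨x0, ⟨hx0, hx0a⟩, hx0ρ⟩ ⟨x, ⟨hx, le_refl _⟩, hm⟩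
    ⟨q, ⟨hq, hh.le_top hS hp hq hpq hx⟩, hfar⟩
    (fun z => (max a (min (h x) (h z)) - a) / (h x - a)) ?_ ?_
  · have h2 : CA * R ^ 2 * energy F (fun z => (max a (min (h x) (h z)) - a) / (h x - a)) ≤
        CA * R ^ 2 * (1 / (h x - a)) := mul_le_mul_of_nonneg_left hE (by linarith)
    have h3 : CA * R ^ 2 * (1 / (h x - a)) < 1 := by
      rw [mul_one_div, div_lt_one hgap]
      linarith
    linarith
  · rintro z ⟨-, hz⟩
    rw [min_eq_right (by linarith), max_eq_left hz, sub_self, zero_div]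
  · rintro z ⟨-, hz⟩
    rw [min_eq_left hz, max_eq_right (by linarith), div_self hgap.ne']

/-- Sum of `i²` over a depth window is at most `3` (the marked vertices, `thr_le`) plus the bands meeting the window. -/
theorem sum_thr_le_band {F : Finset (ℕ × ℕ × ℕ)} (hF : IsTri F) (h0 : 0 ∈ vs F) (h1 : 1 ∈ vs F)
    (s t : ℝ) :
    ∑ x ∈ (vs F).filter (fun x => s ≤ dep F x ∧ dep F x ≤ t), (thr F (pot F 0 1) x) ^ 2 ≤
      3 + ∑ k ∈ Icc ⌊s⌋ ⌊t⌋, band F k := by
  classical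
  have hS := hF.toIsSurf
  have hh : IsPot F 0 1 (pot F 0 1) := pot_isPot hS h0 h1 (by norm_num)
  set f : ℕ → ℝ := fun x => (thr F (pot F 0 1) x) ^ 2 with hf
  set W := (vs F).filter (fun x => s ≤ dep F x ∧ dep F x ≤ t) with hW
  have hsplit : ∑ x ∈ W, f x = ∑ x ∈ W.filter (fun x => x ∈ ({0, 1, 2} : Finset ℕ)), f x +
      ∑ x ∈ W.filter (fun x => ¬ x ∈ ({0, 1, 2} : Finset ℕ)), f x :=
    (sum_filter_add_sum_filter_not W _ _).symm
  rw [hsplit]
  apply add_le_add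
  · have hle : ∀ x ∈ W.filter (fun x => x ∈ ({0, 1, 2} : Finset ℕ)), f x ≤ 1 := by
      intro x hx
      have hxv : x ∈ vs F := (mem_filter.mp (mem_filter.mp hx).1).1
      have h2 := hh.thr_le hS h0 h1 (by norm_num) hxv
      have h3 : 0 ≤ thr F (pot F 0 1) x := thr_nonneg x
      simp only [hf]
      exact pow_le_one₀ h3 h2
    have h4 := sum_le_card_nsmul _ _ _ hle
    have h5 : (W.filter (fun x => x ∈ ({0, 1, 2} : Finset ℕ))).card ≤ 3 := by
      refine (card_le_card (t := ({0, 1, 2} : Finset ℕ)) ?_).trans (by decide)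
      intro x hx
      exact (mem_filter.mp hx).2
    have h6 : ((W.filter (fun x => x ∈ ({0, 1, 2} : Finset ℕ))).card : ℝ) ≤ 3 := by
      exact_mod_cast h5
    rw [nsmul_eq_mul, mul_one] at h4
    linarith
  · have hmaps : ∀ x ∈ W.filter (fun x => ¬ x ∈ ({0, 1, 2} : Finset ℕ)),
        ⌊dep F x⌋ ∈ Icc ⌊s⌋ ⌊t⌋ := by
      intro x hx
      obtain ⟨h2, h3⟩ := (mem_filter.mp (mem_filter.mp hx).1).2
      exact mem_Icc.mpr ⟨Int.floor_le_floor h2, Int.floor_le_floor h3⟩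
    rw [← sum_fiberwise_of_maps_to hmaps]
    apply sum_le_sum
    intro k _
    unfold band
    apply sum_le_sum_of_subset_of_nonneg
    · intro x hx
      obtain ⟨h2, h3⟩ := mem_filter.mp hx
      obtain ⟨h4, h5⟩ := mem_filter.mp h2
      have hxv : x ∈ vs F := (mem_filter.mp h4).1
      rw [Int.floor_eq_iff] at h3
      exact mem_filter.mpr ⟨mem_sdiff.mpr ⟨hxv, h5⟩, h3⟩
    · intro x _ _
      exact sq_nonneg _

/-- The same for the potential from `1` to `0` (`pot_swap`). -/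
theorem sum_thr_le_band' {F : Finset (ℕ × ℕ × ℕ)} (hF : IsTri F) (h0 : 0 ∈ vs F) (h1 : 1 ∈ vs F)
    (a b : ℝ) :
    ∑ x ∈ (vs F).filter (fun x => a - 1 ≤ pot F 1 0 x ∧ pot F 1 0 x ≤ b + 1),
        (thr F (pot F 1 0) x) ^ 2 ≤
      3 + ∑ k ∈ Icc ⌊pot F 0 1 2 - pot F 0 1 1 + a - 1⌋ ⌊pot F 0 1 2 - pot F 0 1 1 + b + 1⌋,
        band F k := by
  classical
  have hS := hF.toIsSurf
  have hsw : ∀ x ∈ vs F, pot F 1 0 x = pot F 0 1 1 - pot F 0 1 x := fun x hx =>
    pot_swap hS h0 h1 (by norm_num) hx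
  refine le_trans (le_of_eq ?_) (sum_thr_le_band hF h0 h1
    (pot F 0 1 2 - pot F 0 1 1 + a - 1) (pot F 0 1 2 - pot F 0 1 1 + b + 1))
  refine sum_congr ?_ ?_
  · apply filter_congr
    intro x hx
    rw [hsw x hx]
    unfold dep
    constructor
    · rintro ⟨h2, h3⟩
      constructor <;> linarith
    · rintro ⟨h2, h3⟩
      constructor <;> linarith
  · intro x hx
    congr 1
    unfold thr
    congr 1
    refine sum_congr rfl ?_
    rintro ⟨p, q, w⟩ ht
    obtain ⟨ht1, ht2⟩ := mem_filter.mp ht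
    simp only at ht2
    subst ht2
    simp only
    rw [hsw q (hS.vs2 ht1), hsw p (hS.vs1 ht1), abs_sub_comm]
    congr 1
    ring

theorem band_nonneg (F : Finset (ℕ × ℕ × ℕ)) (k : ℤ) : 0 ≤ band F k := by
  unfold band
  exact sum_nonneg fun x _ => sq_nonneg _

end H19S
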