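import Pool.Agent.Lib.H19S.F1

/-!
# H19S, chunk F3: first geometric consequences near `v = 0`
-/

namespace H19S

open Finset
open scoped ENNReal

variable {F : Finset (ℕ × ℕ × ℕ)} {c : ℕ → S2} {r : ℕ → ℝ} {a A rN r0 c0 δz c1 : ℝ}

theorem f3_mem (hG : Geo F c r a A rN r0 c0 δz c1) {x : ℕ} (hx : x ∈ vs F) :
    c x ∈ Metric.closedBall (c x) (r x) :=
  Metric.mem_closedBall_self (hG.pack.pos x hx).le

theorem f3_r0 (hG : Geo F c r a A rN r0 c0 δz c1) : 0 < r0 := hG.rN_pos.trans_le hG.rN_le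

theorem f3_z (hG : Geo F c r a A rN r0 c0 δz c1) : 0 < dist (c 2) (c 0) :=
  hG.δz_pos.trans_le hG.zlo

/-- `sepA` for the poles `0` and `1`. -/
theorem f3_sep (hG : Geo F c r a A rN r0 c0 δz c1) {ρ R t : ℝ} (hρ : 0 < ρ) (hR : 1 ≤ R)
    (hRρ : R * ρ ≤ r0) (hex : ∃ x ∈ vs F, t ≤ dep F x ∧ ρ ≤ dist (c x) (c 0)) {x : ℕ}
    (hx : x ∈ vs F)
    (hm : (Metric.closedBall (c x) (r x) ∩ Metric.closedBall (c 0) (R * ρ)).Nonempty) :
    t - CA * R ^ 2 ≤ dep F x := by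
  have h2 := hG.h2
  have h3 := hG.h3
  have hfar := hG.far
  rw [dist_comm] at hfar
  have hr0 := f3_r0 hG
  obtain ⟨y, hy, hyt, hyρ⟩ := hex
  have key := sepA hG.tri hG.four hG.pack hG.m0 hG.m1 (by norm_num) hρ hR (by linarith)
    (by linarith) (a := pot F 0 1 2 - t) ⟨y, hy, by unfold dep at hyt; linarith, hyρ⟩ hx hm
  unfold dep
  linarith

/-- `sepA` with `p = 0`, `q = 1`, level `h 2`, `ρ = dist (c 2) (c 0)`, `R = 1` (`2` is in `{h ≤ h 2}`). -/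
theorem v0 (hG : Geo F c r a A rN r0 c0 δz c1) {x : ℕ} (hx : x ∈ vs F)
    (hm : (Metric.closedBall (c x) (r x) ∩ Metric.closedBall (c 0) (dist (c 2) (c 0))).Nonempty) :
    - CA ≤ dep F x := by
  have h1 := hG.h1
  have hz := hG.zhi
  have hr0 := f3_r0 hG
  have hzp := f3_z hG
  have key := f3_sep hG (ρ := dist (c 2) (c 0)) (R := 1) (t := 0) hzp le_rfl (by linarith)
    ⟨2, hG.m2, by unfold dep; linarith, le_rfl⟩ hx (by rwa [one_mul])
  linarith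

/-- `sepA` with level `h 2 - t`, `R = max 1 (dist (c 2) (c 0) / ρ)`, applied to the vertex `2`. -/
theorem v1 (hG : Geo F c r a A rN r0 c0 δz c1) {x : ℕ} (hx : x ∈ vs F) {ρ t : ℝ} (hρ : 0 < ρ)
    (hρr : ρ ≤ r0) (ht : t ≤ dep F x) (hd : ρ ≤ dist (c x) (c 0)) :
    t ≤ CA * (max 1 (dist (c 2) (c 0) / ρ)) ^ 2 := by
  have h1 := hG.h1
  have hz := hG.zhi
  have hr0 := f3_r0 hG
  have hzp := f3_z hG
  have hle : dist (c 2) (c 0) ≤ max 1 (dist (c 2) (c 0) / ρ) * ρ := by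
    have := le_max_right 1 (dist (c 2) (c 0) / ρ)
    rwa [div_le_iff₀ hρ] at this
  have hup : max 1 (dist (c 2) (c 0) / ρ) * ρ ≤ r0 := by
    rw [max_mul_of_nonneg _ _ hρ.le, one_mul, div_mul_cancel₀ _ hρ.ne']
    exact max_le hρr (by linarith)
  have key := f3_sep hG (ρ := ρ) (R := max 1 (dist (c 2) (c 0) / ρ)) (t := t) hρ
    (le_max_left _ _) hup ⟨x, hx, ht, hd⟩ hG.m2
    ⟨c 2, f3_mem hG hG.m2, Metric.mem_closedBall.mpr hle⟩
  have h0 : dep F 2 = 0 := by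
    unfold dep
    ring
  rw [h0] at key
  linarith

/-- Consequence of `v1` with `ρ = dist (c 2) (c 0)`: for `t > CA` the set `{depth ≥ t}` is nearer than `z`. -/
theorem dd_lt (hG : Geo F c r a A rN r0 c0 δz c1) {t : ℝ} (ht : CA < t) :
    dd F c t < dist (c 2) (c 0) := by
  have h1 := hG.h1
  have hz := hG.zhi
  have hr0 := f3_r0 hG
  have hzp := f3_z hG
  by_contra hlt
  push Not at hlt
  obtain ⟨x, hx, hxt, hxd⟩ := exists_dd (hzp.trans_le hlt)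
  have key := v1 hG hx (ρ := dist (c 2) (c 0)) hzp (by linarith) hxt (by rw [hxd]; exact hlt)
  rw [div_self hzp.ne', max_self] at key
  linarith

/-- Consequence of `v1`: `dd F c t < ρ` if `t > CA * (max 1 (c1 / ρ))²`. -/
theorem dd_lt' (hG : Geo F c r a A rN r0 c0 δz c1) {t ρ : ℝ} (hρ : 0 < ρ) (hρr : ρ ≤ r0)
    (ht : CA * (max 1 (c1 / ρ)) ^ 2 < t) : dd F c t < ρ := by
  by_contra hlt
  push Not at hlt
  obtain ⟨x, hx, hxt, hxd⟩ := exists_dd (hρ.trans_le hlt)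
  have key := v1 hG hx (ρ := ρ) hρ hρr hxt (by rw [hxd]; exact hlt)
  have hmax : max 1 (dist (c 2) (c 0) / ρ) ≤ max 1 (c1 / ρ) :=
    max_le_max le_rfl (div_le_div_of_nonneg_right hG.zhi hρ.le)
  have h1 : (max 1 (dist (c 2) (c 0) / ρ)) ^ 2 ≤ (max 1 (c1 / ρ)) ^ 2 :=
    pow_le_pow_left₀ (le_max_of_le_left zero_le_one) hmax 2
  have h2 := mul_le_mul_of_nonneg_left h1 (zero_le_one.trans one_le_CA)
  linarith

/-- `sepA` with level `h 2 - t`. -/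
theorem v2 (hG : Geo F c r a A rN r0 c0 δz c1) {t ρ R : ℝ} (hρ : 0 < ρ) (hR : 1 ≤ R)
    (hRρ : R * ρ ≤ r0) (hex : ∃ x ∈ vs F, t ≤ dep F x ∧ ρ ≤ dist (c x) (c 0)) {x : ℕ}
    (hx : x ∈ vs F) (hd : dist (c x) (c 0) ≤ R * ρ) : t - CA * R ^ 2 ≤ dep F x :=
  f3_sep hG hρ hR hRρ hex hx ⟨c x, f3_mem hG hx, Metric.mem_closedBall.mpr hd⟩

/-- Upper bound for the number of vertices at depth `≥ t` (they are in the ball of radius `dd`). -/
theorem cnt_le (hG : Geo F c r a A rN r0 c0 δz c1) {t : ℝ} (h : rN ≤ dd F c t)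
    (h' : dd F c t ≤ r0) : (cnt F t : ℝ) ≤ A * (dd F c t) ^ 2 * (vs F).card := by
  have h1 := (hG.reg0 _ h h').2.1
  refine le_trans ?_ h1
  unfold cnt
  have h2 : ((vs F).filter fun x => t ≤ dep F x) ⊆
      (vs F).filter fun w => dist (c w) (c 0) ≤ dd F c t := by
    intro x hx
    obtain ⟨h3, h4⟩ := mem_filter.mp hx
    exact mem_filter.mpr ⟨h3, le_dd h3 h4⟩
  exact_mod_cast card_le_card h2

/-- Lower bound (`v2`, `exists_dd`). -/
theorem cnt_ge (hG : Geo F c r a A rN r0 c0 δz c1) {t R : ℝ} (hR : 1 ≤ R) (h : rN ≤ dd F c t)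
    (h' : R * dd F c t ≤ r0) :
    a * R ^ 2 * (dd F c t) ^ 2 * (vs F).card ≤ cnt F (t - CA * R ^ 2) := by
  have hd0 : 0 < dd F c t := hG.rN_pos.trans_le h
  have hle : dd F c t ≤ R * dd F c t := le_mul_of_one_le_left hd0.le hR
  have h1 := (hG.reg0 (R * dd F c t) (h.trans hle) h').1
  obtain ⟨y, hy, hyt, hyd⟩ := exists_dd hd0
  have h2 : ((vs F).filter fun w => dist (c w) (c 0) ≤ R * dd F c t) ⊆
      (vs F).filter fun x => t - CA * R ^ 2 ≤ dep F x := by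
    intro x hx
    obtain ⟨h3, h4⟩ := mem_filter.mp hx
    exact mem_filter.mpr ⟨h3, v2 hG hd0 hR h' ⟨y, hy, hyt, hyd.ge⟩ h3 h4⟩
  have h3 : (((vs F).filter fun w => dist (c w) (c 0) ≤ R * dd F c t).card : ℝ) ≤
      cnt F (t - CA * R ^ 2) := by
    unfold cnt
    exact_mod_cast card_le_card h2
  calc a * R ^ 2 * (dd F c t) ^ 2 * (vs F).card
      = a * (R * dd F c t) ^ 2 * (vs F).card := by ring
    _ ≤ _ := h1.trans h3

end H19S
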