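import Pool.Agent.Lib.H19S.F3

/-!
# H19S, chunk F4b: logarithmic growth on the side of v
-/

namespace H19S

open Finset
open scoped ENNReal

variable {F : Finset (ℕ × ℕ × ℕ)} {c : ℕ → S2} {r : ℕ → ℝ} {a A rN r0 c0 δz c1 : ℝ}

theorem F4b_c1 (hG : Geo F c r a A rN r0 c0 δz c1) : dist (c 2) (c 0) ≤ r0 / 100 := by
  have := hG.zhi
  have := hG.h1
  linarith

theorem F4b_r0 (hG : Geo F c r a A rN r0 c0 δz c1) : 0 < r0 := hG.rN_pos.trans_le hG.rN_le

/-- The part of `lemB'` common to `v5` and `v3`: poles `0`, `1`. -/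
theorem F4b_core (hG : Geo F c r a A rN r0 c0 δz c1) {ρ R' s t Sg : ℝ} (hρ : rN ≤ ρ)
    (hρR : ρ < R') (hR' : R' ≤ r0 / 100) (ht : t ≤ pot F 0 1 2) (hst : s < t)
    (hs : pot F 0 1 2 - s ≤ pot F 0 1 1)
    (hlow : ∀ x ∈ vs F, t ≤ dep F x → dist (c x) (c 0) ≤ ρ)
    (hhigh : ∀ x ∈ vs F, dep F x ≤ s → R' ≤ dist (c x) (c 0))
    (hS : ∑ k ∈ Icc ⌊s - 1⌋ ⌊t + 1⌋, band F k ≤ Sg) :
    Real.log (R' / ρ) ≤ CB * (4 + Sg) := by
  have hr0 := F4b_r0 hG
  have h3 := hG.h3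
  have hρ0 : 0 < ρ := hG.rN_pos.trans_le hρ
  have h1 := lemB' F hG.tri hG.four c r hG.pack 0 hG.m0 1 hG.m1 (by norm_num) ρ R'
    (pot F 0 1 2 - t) (pot F 0 1 2 - s) hρ0 hρR (by linarith)
    (fun s' hs1 hs2 w hw hm => (hG.reg0 s' (hρ.trans hs1) (by linarith)).2.2 w hw hm)
    (by linarith) (by linarith) hs
    (fun x hx hp => hlow x hx (by unfold dep; linarith))
    (fun x hx hp => hhigh x hx (by unfold dep; linarith))
  refine h1.trans ?_
  have hCB := one_le_CB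
  have h2 := sum_thr_le_band hG.tri hG.m0 hG.m1 (s - 1) (t + 1)
  have h4 : (vs F).filter (fun x => pot F 0 1 2 - t - 1 ≤ pot F 0 1 x ∧
      pot F 0 1 x ≤ pot F 0 1 2 - s + 1) =
      (vs F).filter (fun x => s - 1 ≤ dep F x ∧ dep F x ≤ t + 1) := by
    ext x
    simp only [mem_filter, dep]
    constructor
    · rintro ⟨h5, h6, h7⟩
      exact ⟨h5, by linarith, by linarith⟩
    · rintro ⟨h5, h6, h7⟩
      exact ⟨h5, by linarith, by linarith⟩
  rw [h4]
  have h5 : (0 : ℝ) ≤ CB := by linarith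
  refine mul_le_mul_of_nonneg_left ?_ h5
  linarith

theorem F4b_log {x y z : ℝ} (hx : 0 < x) (hy : 0 < y) (h : Real.log (x / y) ≤ z) :
    x * Real.exp (-z) ≤ y := by
  rw [Real.log_le_iff_le_exp (div_pos hx hy), div_le_iff₀ hy] at h
  rw [Real.exp_neg, ← div_eq_mul_inv, div_le_iff₀ (Real.exp_pos z)]
  linarith

/-- (chunk F4b)  `lemB'` with poles `0, 1`, `R' = dist (c 2) (c 0) =: s`, `b = h 2 + CA + 1 ≤ h 1` (vertices with depth `≤ -CA-1`
are at distance `> s`, `v0`), `a = h 2 - t'` or `a = 0` if `t' > h 2`. -/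
theorem v5 (hG : Geo F c r a A rN r0 c0 δz c1) (hH : CA + 1 ≤ pot F 0 1 1 - pot F 0 1 2)
    {t' Sg : ℝ} (ht' : 0 ≤ t') (hS : ∑ k ∈ Icc ⌊-(CA + 2)⌋ ⌊t' + 1⌋, band F k ≤ Sg)
    (hrN : rN < dist (c 2) (c 0) * Real.exp (-(CB * (4 + Sg)))) :
    t' ≤ pot F 0 1 2 ∧ dist (c 2) (c 0) * Real.exp (-(CB * (4 + Sg))) ≤ dd F c t' := by
  have hCA := one_le_CA
  have hCB := one_le_CB
  have hs0 : 0 < dist (c 2) (c 0) := hG.δz_pos.trans_le hG.zlo
  have hSg : 0 ≤ Sg := (sum_nonneg fun k _ => band_nonneg F k).trans hS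
  have hexp : Real.exp (-(CB * (4 + Sg))) ≤ 1 := by
    rw [Real.exp_le_one_iff]
    have : 0 ≤ CB * (4 + Sg) := by positivity
    linarith
  have hes : dist (c 2) (c 0) * Real.exp (-(CB * (4 + Sg))) ≤ dist (c 2) (c 0) :=
    mul_le_of_le_one_right hs0.le hexp
  have hS' : ∀ t : ℝ, t ≤ t' → ∑ k ∈ Icc ⌊-(CA + 1) - 1⌋ ⌊t + 1⌋, band F k ≤ Sg := fun t ht => by
    refine le_trans ?_ hS
    refine sum_le_sum_of_subset_of_nonneg (Icc_subset_Icc (Int.floor_le_floor (by linarith))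
      (Int.floor_le_floor (by linarith))) fun k _ _ => band_nonneg F k
  have hhigh : ∀ x ∈ vs F, dep F x ≤ -(CA + 1) → dist (c 2) (c 0) ≤ dist (c x) (c 0) := by
    intro x hx hd
    by_contra hcon
    push Not at hcon
    have h1 := v0 hG hx ⟨c x, Metric.mem_closedBall_self (hG.pack.pos x hx).le,
      Metric.mem_closedBall.2 hcon.le⟩
    linarith
  have hle : t' ≤ pot F 0 1 2 := by
    by_contra hcon
    push Not at hcon
    have hz := (pot_isPot hG.tri.toIsSurf hG.m0 hG.m1 (by norm_num)).nonneg hG.tri.toIsSurf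
      hG.m0 hG.m1 (by norm_num) hG.m2
    have h1 := F4b_core hG (ρ := rN) (R' := dist (c 2) (c 0)) (s := -(CA + 1))
      (t := pot F 0 1 2) (Sg := Sg) le_rfl (hrN.trans_le hes) (F4b_c1 hG) le_rfl (by linarith)
      (by linarith) ?_ hhigh (hS' _ hcon.le)
    · exact absurd (F4b_log hs0 hG.rN_pos h1) (not_le.2 hrN)
    · intro x hx hd
      have hx0 : x = 0 := by
        by_contra hne
        have := pot_pos hG.tri hG.four hG.m0 hG.m1 (by norm_num) hx hne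
        unfold dep at hd
        linarith
      rw [hx0, dist_self]
      exact hG.rN_pos.le
  refine ⟨hle, ?_⟩
  by_contra hcon
  push Not at hcon
  have hρ : max rN (dd F c t') < dist (c 2) (c 0) * Real.exp (-(CB * (4 + Sg))) := max_lt hrN hcon
  have h1 := F4b_core hG (ρ := max rN (dd F c t')) (R' := dist (c 2) (c 0)) (s := -(CA + 1))
    (t := t') (Sg := Sg) (le_max_left _ _) (hρ.trans_le hes) (F4b_c1 hG) hle (by linarith)
    (by linarith) (fun x hx hd => (le_dd hx hd).trans (le_max_right _ _)) hhigh (hS' _ le_rfl)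
  exact absurd (F4b_log hs0 (hG.rN_pos.trans_le (le_max_left _ _)) h1) (not_le.2 hρ)

/-- (chunk F4b)  `lemB'` with `b = h 2 - t`, `a = h 2 - t'`, `R' = dd F c (t + CA + 1)` (vertices with depth `≤ t` are at distance
`> R'` by `v2` with `R = 1`), `ρ = dd F c t'` (nothing to prove if `R' ≤ ρ`). -/
theorem v3 (hG : Geo F c r a A rN r0 c0 δz c1) (hH : 0 ≤ pot F 0 1 1 - pot F 0 1 2)
    {t t' Sg : ℝ} (ht : 0 ≤ t) (htt : t < t') (ht' : t' ≤ pot F 0 1 2)
    (hS : ∑ k ∈ Icc ⌊t - 1⌋ ⌊t' + 1⌋, band F k ≤ Sg) (hN : rN ≤ dd F c t') :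
    dd F c (t + CA + 1) ≤ dd F c t' * Real.exp (CB * (4 + Sg)) := by
  have hCA := one_le_CA
  have hCB := one_le_CB
  have hSg : 0 ≤ Sg := (sum_nonneg fun k _ => band_nonneg F k).trans hS
  have hρ0 : 0 < dd F c t' := hG.rN_pos.trans_le hN
  have hexp : 1 ≤ Real.exp (CB * (4 + Sg)) := Real.one_le_exp (by positivity)
  by_cases hRρ : dd F c (t + CA + 1) ≤ dd F c t'
  · exact hRρ.trans (le_mul_of_one_le_right hρ0.le hexp)
  push Not at hRρ
  have hlt := dd_lt hG (t := t + CA + 1) (by linarith)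
  have hR'0 : 0 < dd F c (t + CA + 1) := hρ0.trans hRρ
  obtain ⟨y, hy, hyt, hyd⟩ := exists_dd hR'0
  have hc1 := F4b_c1 hG
  have hr0 := F4b_r0 hG
  have h1 := F4b_core hG (ρ := dd F c t') (R' := dd F c (t + CA + 1)) (s := t) (t := t')
    (Sg := Sg) hN hRρ (by linarith) ht' htt (by linarith)
    (fun x hx hd => le_dd hx hd) ?_ hS
  · have h2 := F4b_log hR'0 hρ0 h1
    rw [Real.exp_neg, ← div_eq_mul_inv, div_le_iff₀ (Real.exp_pos _)] at h2
    exact h2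
  · intro x hx hd
    by_contra hcon
    push Not at hcon
    have h3 := v2 hG (t := t + CA + 1) (ρ := dd F c (t + CA + 1)) (R := 1) hR'0 le_rfl
      (by linarith) ⟨y, hy, hyt, hyd.ge⟩ hx (by rw [one_mul]; exact hcon.le)
    rw [one_pow, mul_one] at h3
    linarith

end H19S
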