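import Pool.Agent.Lib.H19S.F4b

/-!
# H19S, chunk F5: counting in a good window
-/

namespace H19S

open Finset
open scoped ENNReal

variable {F : Finset (ℕ × ℕ × ℕ)} {c : ℕ → S2} {r : ℕ → ℝ} {a A rN r0 c0 δz c1 : ℝ}

/-- A power of two between. -/
theorem F5_pow {n m : ℝ} (hm : 1 ≤ m) (hmn : m ≤ n) :
    ∃ k : ℕ, m ≤ n / 2 ^ k ∧ n / 2 ^ k < 2 * m := by
  have h1 : 1 ≤ n / m := (one_le_div (by linarith)).2 hmn
  obtain ⟨k, hk1, hk2⟩ := exists_nat_pow_near h1 (one_lt_two (α := ℝ))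
  have h2 : (0 : ℝ) < 2 ^ k := by positivity
  have hm0 : 0 < m := by linarith
  refine ⟨k, ?_, ?_⟩
  · rw [le_div_iff₀ h2]
    have := (le_div_iff₀ hm0).1 hk1
    linarith
  · rw [div_lt_iff₀ h2]
    have := (div_lt_iff₀ hm0).1 hk2
    rw [pow_succ] at this
    linarith

/-- Let `dmax = dd (t0+38)`, `dmin = dd (t0+2M+40+CA)`, `E = exp (CB (4+Λ0))`.  `v3` (with `t = t0 + 37 - CA`,
`t' = t0+2M+40+CA`): `dmax ≤ E dmin`.  `cnt (t0+38) ≤ A dmax² n ≤ A E² dmin² n`; `cnt (t0+2M+39) ≥ a dmin² n`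
(`cnt_ge`, `R = 1`).  `cnt (t0+2M) ≤ A d² n` and `cnt (t0+M+39) ≥ a R² d² n ≥ 2 A d² n` with `d = dd (t0+2M)` (`cnt_ge`,
`R d ≤ r0` by `dd_lt'` with `ρ = r0/R`).  So `cnt (t0+M+39) ≥ 2 cnt (t0+2M)`, `cnt (t0+2M) ≥ 1`, and there is `k` with
`n/2^k ∈ [cnt (t0+2M), 2 cnt (t0+2M))`. -/
theorem window (hG : Geo F c r a A rN r0 c0 δz c1) (hH : 0 ≤ pot F 0 1 1 - pot F 0 1 2)
    {t0 M R Λ0 : ℝ} (hR : 1 ≤ R) (hRA : 2 * A ≤ a * R ^ 2) (ht0 : CA * R ^ 2 + 1 ≤ t0)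
    (hM : CA * R ^ 2 + 40 ≤ M) (htop : t0 + 2 * M + 40 + CA ≤ pot F 0 1 2)
    (hS : ∑ k ∈ Icc ⌊t0 - CA⌋ ⌊t0 + 2 * M + 41 + CA⌋, band F k ≤ Λ0)
    (hN : rN ≤ dd F c (t0 + 2 * M + 40 + CA)) :
    ∃ k : ℕ, (cnt F (t0 + 2 * M) : ℝ) ≤ (vs F).card / 2 ^ k ∧
      ((vs F).card : ℝ) / 2 ^ k < cnt F (t0 + M + 39) ∧
      a / A * Real.exp (-(2 * (CB * (4 + Λ0)))) * ((vs F).card / 2 ^ k) ≤ cnt F (t0 + 2 * M + 39) ∧
      (cnt F (t0 + 38) : ℝ) ≤ A / a * Real.exp (2 * (CB * (4 + Λ0))) * ((vs F).card / 2 ^ k) ∧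
      a * (dd F c (t0 + 2 * M + 40 + CA)) ^ 2 ≤ 1 / 2 ^ k ∧
      1 / 2 ^ k ≤ A * (dd F c (t0 + 38)) ^ 2 := by
  have hCA := one_le_CA
  have hCAR : CA ≤ CA * R ^ 2 := by nlinarith [one_le_pow₀ hR (n := 2)]
  have ha := hG.a_pos
  have hA := hG.A_pos
  have hrN := hG.rN_pos
  have hδ := hG.δz_pos
  have hzlo := hG.zlo
  have hzhi := hG.zhi
  have hh1 := hG.h1
  have hr0 : 0 < r0 := hrN.trans_le hG.rN_le
  have hn : (0 : ℝ) < (vs F).card := by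
    have := hG.four
    exact_mod_cast (by omega : 0 < (vs F).card)
  -- the distances
  have hdle : ∀ t : ℝ, CA < t → dd F c t ≤ r0 := fun t ht => by
    have := dd_lt hG ht
    linarith
  have hdge : ∀ t : ℝ, t ≤ t0 + 2 * M + 40 + CA → rN ≤ dd F c t := fun t ht =>
    hN.trans (dd_anti ht)
  have e1 : dd F c (t0 + 38) ≤ dd F c (t0 + 2 * M + 40 + CA) * Real.exp (CB * (4 + Λ0)) := by
    have h1 := v3 hG hH (t := t0 + 37 - CA) (t' := t0 + 2 * M + 40 + CA) (Sg := Λ0) (by linarith)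
      (by linarith) htop ?_ hN
    · have h2 : t0 + 37 - CA + CA + 1 = t0 + 38 := by ring
      rwa [h2] at h1
    · refine le_trans ?_ hS
      refine sum_le_sum_of_subset_of_nonneg (Icc_subset_Icc (Int.floor_le_floor (by linarith))
        (Int.floor_le_floor (by linarith))) fun k _ _ => band_nonneg F k
  set dmax := dd F c (t0 + 38) with hdmax
  set dmin := dd F c (t0 + 2 * M + 40 + CA) with hdmin
  set E := Real.exp (CB * (4 + Λ0)) with hE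
  have hEpos : 0 < E := Real.exp_pos _
  have hdmin0 : 0 < dmin := hrN.trans_le hN
  have hE2 : Real.exp (2 * (CB * (4 + Λ0))) = E ^ 2 := by
    rw [hE, ← Real.exp_nat_mul]; norm_num
  have hE2' : Real.exp (-(2 * (CB * (4 + Λ0)))) = (E ^ 2)⁻¹ := by
    rw [Real.exp_neg, hE2]
  -- the counts
  have c1' : (cnt F (t0 + 38) : ℝ) ≤ A * dmax ^ 2 * (vs F).card :=
    cnt_le hG (hdge _ (by linarith)) (hdle _ (by linarith))
  have c2' : a * dmin ^ 2 * (vs F).card ≤ cnt F (t0 + 2 * M + 39) := by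
    have h1 := cnt_ge hG (t := t0 + 2 * M + 39 + CA) (R := 1) le_rfl (hdge _ (by linarith))
      (by rw [one_mul]; exact hdle _ (by linarith))
    have h2 : t0 + 2 * M + 39 + CA - CA * 1 ^ 2 = t0 + 2 * M + 39 := by ring
    rw [h2] at h1
    refine le_trans ?_ h1
    have h3 : dmin ≤ dd F c (t0 + 2 * M + 39 + CA) := dd_anti (by linarith)
    have h4 : dmin ^ 2 ≤ (dd F c (t0 + 2 * M + 39 + CA)) ^ 2 := by gcongr
    rw [one_pow, mul_one]
    gcongr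
  have c3' : (cnt F (t0 + 2 * M) : ℝ) ≤ A * (dd F c (t0 + 2 * M)) ^ 2 * (vs F).card :=
    cnt_le hG (hdge _ (by linarith)) (hdle _ (by nlinarith))
  have hRd : R * dd F c (t0 + 2 * M) ≤ r0 := by
    have hR0 : 0 < R := by linarith
    have hρ : 0 < r0 / R := div_pos hr0 hR0
    have h1 := dd_lt' hG (t := t0 + 2 * M) (ρ := r0 / R) hρ (div_le_self hr0.le hR) ?_
    · rw [lt_div_iff₀ hR0] at h1
      linarith
    · have h2 : max 1 (c1 / (r0 / R)) ≤ R := by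
        refine max_le hR ?_
        rw [div_le_iff₀ hρ, mul_div_cancel₀ _ hR0.ne']
        linarith
      have h3 : (max 1 (c1 / (r0 / R))) ^ 2 ≤ R ^ 2 := by
        have : (0 : ℝ) ≤ max 1 (c1 / (r0 / R)) := le_trans zero_le_one (le_max_left _ _)
        gcongr
      have h4 : CA * (max 1 (c1 / (r0 / R))) ^ 2 ≤ CA * R ^ 2 := by gcongr
      nlinarith
  have c4' : 2 * (cnt F (t0 + 2 * M) : ℝ) ≤ cnt F (t0 + M + 39) := by
    have h1 := cnt_ge hG (t := t0 + 2 * M) (R := R) hR (hdge _ (by linarith)) hRd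
    have h2 : (cnt F (t0 + 2 * M - CA * R ^ 2) : ℝ) ≤ cnt F (t0 + M + 39) := by
      exact_mod_cast cnt_anti (by linarith)
    refine le_trans ?_ (h1.trans h2)
    have h3 : 2 * (A * (dd F c (t0 + 2 * M)) ^ 2 * (vs F).card) =
        (2 * A) * ((dd F c (t0 + 2 * M)) ^ 2 * (vs F).card) := by ring
    have h4 : a * R ^ 2 * (dd F c (t0 + 2 * M)) ^ 2 * (vs F).card =
        (a * R ^ 2) * ((dd F c (t0 + 2 * M)) ^ 2 * (vs F).card) := by ring
    rw [h4]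
    have h5 : (0 : ℝ) ≤ (dd F c (t0 + 2 * M)) ^ 2 * (vs F).card := by positivity
    calc 2 * (cnt F (t0 + 2 * M) : ℝ) ≤
        (2 * A) * ((dd F c (t0 + 2 * M)) ^ 2 * (vs F).card) := by linarith
      _ ≤ _ := mul_le_mul_of_nonneg_right hRA h5
  have c5' : (1 : ℝ) ≤ cnt F (t0 + 2 * M) := by
    have h1 : 0 < dd F c (t0 + 2 * M) := hrN.trans_le (hdge _ (by linarith))
    obtain ⟨x, hx, hxt, -⟩ := exists_dd h1
    have h2 : 0 < cnt F (t0 + 2 * M) := card_pos.2 ⟨x, mem_filter.2 ⟨hx, hxt⟩⟩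
    exact_mod_cast h2
  have c6' : (cnt F (t0 + 2 * M) : ℝ) ≤ (vs F).card := by
    exact_mod_cast card_le_card (filter_subset _ _)
  have c7' : (cnt F (t0 + M + 39) : ℝ) ≤ cnt F (t0 + 38) := by
    exact_mod_cast cnt_anti (by nlinarith)
  have c8' : (cnt F (t0 + 2 * M + 39) : ℝ) ≤ cnt F (t0 + 2 * M) := by
    exact_mod_cast cnt_anti (by linarith)
  obtain ⟨k, hk1, hk2⟩ := F5_pow c5' c6'
  have hk3 : ((vs F).card : ℝ) / 2 ^ k < cnt F (t0 + M + 39) := hk2.trans_le c4'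
  have hdE : dmax ^ 2 ≤ dmin ^ 2 * E ^ 2 := by
    have h0 : 0 ≤ dmax := od_nonneg
    rw [← mul_pow]
    gcongr
  have c9' : (cnt F (t0 + 38) : ℝ) ≤ A * E ^ 2 * (dmin ^ 2 * (vs F).card) := by
    refine c1'.trans ?_
    have : A * E ^ 2 * (dmin ^ 2 * (vs F).card) = A * (dmin ^ 2 * E ^ 2) * (vs F).card := by ring
    rw [this]
    gcongr
  have h2k : (0 : ℝ) < 2 ^ k := by positivity
  refine ⟨k, hk1, hk3, ?_, ?_, ?_, ?_⟩
  · rw [hE2']
    have h1 : ((vs F).card : ℝ) / 2 ^ k ≤ A * E ^ 2 * (dmin ^ 2 * (vs F).card) :=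
      hk3.le.trans (c7'.trans c9')
    calc a / A * (E ^ 2)⁻¹ * ((vs F).card / 2 ^ k) ≤
        a / A * (E ^ 2)⁻¹ * (A * E ^ 2 * (dmin ^ 2 * (vs F).card)) := by gcongr
      _ = a * dmin ^ 2 * (vs F).card := by
        field_simp
      _ ≤ _ := c2'
  · rw [hE2]
    have h1 : a * dmin ^ 2 * (vs F).card ≤ (vs F).card / 2 ^ k :=
      c2'.trans (c8'.trans hk1)
    calc (cnt F (t0 + 38) : ℝ) ≤ A * E ^ 2 * (dmin ^ 2 * (vs F).card) := c9'
      _ = A / a * E ^ 2 * (a * dmin ^ 2 * (vs F).card) := by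
        field_simp
      _ ≤ A / a * E ^ 2 * ((vs F).card / 2 ^ k) := by gcongr
  · have h1 : a * dmin ^ 2 * (vs F).card ≤ (vs F).card / 2 ^ k :=
      c2'.trans (c8'.trans hk1)
    rw [div_eq_mul_one_div, mul_comm ((vs F).card : ℝ)] at h1
    exact le_of_mul_le_mul_right h1 hn
  · have h1 : ((vs F).card : ℝ) / 2 ^ k ≤ A * dmax ^ 2 * (vs F).card :=
      hk3.le.trans (c7'.trans c1')
    rw [div_eq_mul_one_div, mul_comm ((vs F).card : ℝ)] at h1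
    exact le_of_mul_le_mul_right h1 hn

end H19S
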