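import Pool.Agent.Lib.H19S.F0
import Pool.Agent.Lib.H19S.A4a

/-!
# H19S, chunk F6: holes and level sets
-/

namespace H19S

open Finset
open scoped ENNReal

variable {F : Finset (ℕ × ℕ × ℕ)} {K : Finset ℕ}

/-- Vertices of a hole are joined to its base point avoiding `K`. -/
theorem hole_joined (hF : IsSurf F) {y x : ℕ} (hx : x ∈ vs (hole F K y)) :
    Relation.ReflTransGen (fun p q => q ∈ vs F ∧ q ∉ K ∧ Adj F p q) y x := by
  obtain ⟨a, b, hab⟩ := mem_vs.1 hx
  obtain ⟨h1, b0, c0, h2, h3⟩ := a4a_mem_hole.1 hab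
  have key : ∀ t, Relation.ReflTransGen (RStep (avoid F K)) (y, b0, c0) t →
      t ∈ avoid F K ∧
        Relation.ReflTransGen (fun p q => q ∈ vs F ∧ q ∉ K ∧ Adj F p q) y t.1 := by
    intro t ht
    induction ht with
    | refl => exact ⟨h2, Relation.ReflTransGen.refl⟩
    | @tail s t _ hst ih =>
      obtain ⟨ih1, ih2⟩ := ih
      obtain ⟨s1, s2, s3⟩ := s
      have h4 := a4a_mem_avoid.1 ih1
      have h5 : Relation.ReflTransGen (fun p q => q ∈ vs F ∧ q ∉ K ∧ Adj F p q) y s2 :=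
        ih2.tail ⟨hF.vs2 h4.1, h4.2.2.1, ⟨s3, h4.1⟩⟩
      refine ⟨hst.1, ?_⟩
      rcases hst.2 with h6 | ⟨d, h6⟩
      · rw [h6]
        exact h5
      · rw [h6]
        exact h5
  exact (key _ h3).2

/-- all faces at `q` are in the hole if all avoid `K` and one is in the hole -/
theorem F6_star (hF : IsSurf F) {y q b c b' c' : ℕ}
    (hall : ∀ b c, (q, b, c) ∈ F → (q, b, c) ∈ avoid F K) (h : (q, b, c) ∈ hole F K y)
    (h' : (q, b', c') ∈ F) : (q, b', c') ∈ hole F K y := by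
  have hl := hF.link (hole_subset' h) h'
  have key : ∀ p, Relation.ReflTransGen (fun x y' => (q, x, y') ∈ F) b p →
      ∀ r, (q, p, r) ∈ F → (q, p, r) ∈ hole F K y := by
    intro p hp
    induction hp with
    | refl =>
      intro r hr
      rw [← hF.uniq (hole_subset' h) hr]
      exact h
    | tail hbc hstep ih =>
      intro r hr
      have h1 := ih _ hstep
      have h3 := hole_rotC hF h1
      have h4 := hole_rotC hF h3
      exact hole_cross hF h4 (hall _ _ hr)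
  exact key b' hl c' h'

/-- a connected set all of whose faces avoid `K` is inner -/
theorem F6_inner (hF : IsSurf F) {A : Set ℕ} {y x : ℕ} (hA : ConnIn F A) (hy : y ∈ A)
    (hx : x ∈ A) (hyv : y ∈ vs F) (hav : ∀ q ∈ A, ∀ b c, (q, b, c) ∈ F → (q, b, c) ∈ avoid F K) :
    x ∈ inner F (hole F K y) := by
  have hbase : ∀ b c, (y, b, c) ∈ F → (y, b, c) ∈ hole F K y := by
    intro b c hbc
    have h4 := hav y hy b c hbc
    exact a4a_mem_hole.mpr ⟨h4, b, c, h4, Relation.ReflTransGen.refl⟩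
  have key : ∀ z, Relation.ReflTransGen (fun p q => q ∈ A ∧ Adj F p q) y z →
      z ∈ vs F ∧ z ∈ A ∧ ∀ b c, (z, b, c) ∈ F → (z, b, c) ∈ hole F K y := by
    intro z hz
    induction hz with
    | refl => exact ⟨hyv, hy, hbase⟩
    | @tail p q _ hpq ih =>
      obtain ⟨ih1, ih2, ih3⟩ := ih
      obtain ⟨hq, hadj⟩ := hpq
      refine ⟨hF.adj_mem_right hadj, hq, ?_⟩
      obtain ⟨r, hr⟩ := hadj
      have h1 := hole_rotC hF (ih3 _ _ hr)
      intro b c hbc
      exact F6_star hF (hav q hq) h1 hbc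
  obtain ⟨h1, _, h3⟩ := key x (hA y hy x hx)
  unfold inner
  rw [mem_filter]
  refine ⟨?_, ?_⟩
  · obtain ⟨a, b, hab⟩ := mem_vs.mp h1
    exact mem_vs.mpr ⟨a, b, h3 a b hab⟩
  · rintro ⟨t1, t2, t3⟩ ht htx
    simp only at htx
    subst htx
    exact h3 t2 t3 ht

/-- If `K` is at depth `< T` and `h 2 ≥ T + 1` then all vertices at depth `≥ T + 1` are inner vertices of the hole at `0`: the set
`{depth ≥ T+1}` is connected (`conn_le`), contains `0`, and all neighbours of its points have depth `≥ T` (`grad_le`), so all faces at its points avoid `K`; adjacent points share faces. -/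
theorem inner_deep (hF : IsTri F) (h0 : 0 ∈ vs F) (h1 : 1 ∈ vs F) {T : ℝ}
    (hK : ∀ y ∈ K, dep F y < T) (hT : T + 1 ≤ pot F 0 1 2) {x : ℕ} (hx : x ∈ vs F)
    (hd : T + 1 ≤ dep F x) : x ∈ inner F (hole F K 0) := by
  have hS := hF.toIsSurf
  have hh := pot_isPot hS h0 h1 (by norm_num : (0 : ℕ) ≠ 1)
  have hc := hh.conn_le hS h0 h1 (by norm_num) (pot F 0 1 2 - (T + 1))
  refine F6_inner hS hc ⟨h0, ?_⟩ ⟨hx, ?_⟩ h0 ?_
  · rw [hh.zero]
    linarith
  · unfold dep at hd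
    linarith
  · rintro q ⟨hq, hq2⟩ b c hbc
    have hqb := hh.grad_le hS h0 h1 (by norm_num) (a := q) (b := b) ⟨c, hbc⟩
    have hqc := hh.grad_le hS h0 h1 (by norm_num) (a := q) (b := c)
      (hS.adj_symm ⟨b, hS.rot2 hbc⟩)
    rw [abs_le] at hqb hqc
    refine a4a_mem_avoid.2 ⟨hbc, ?_, ?_, ?_⟩
    · intro hk
      have := hK _ hk
      unfold dep at this
      linarith
    · intro hk
      have := hK _ hk
      unfold dep at this
      linarith [hqb.2]
    · intro hk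
      have := hK _ hk
      unfold dep at this
      linarith [hqc.2]

/-- The same at `u = 1`, for `K ⊆ {h < h 2 + 1}`. -/
theorem inner_high (hF : IsTri F) (h0 : 0 ∈ vs F) (h1 : 1 ∈ vs F)
    (hK : ∀ y ∈ K, -1 < dep F y) (hT : 2 ≤ pot F 0 1 1 - pot F 0 1 2) {x : ℕ} (hx : x ∈ vs F)
    (hd : dep F x ≤ -2) : x ∈ inner F (hole F K 1) := by
  have hS := hF.toIsSurf
  have hh := pot_isPot hS h0 h1 (by norm_num : (0 : ℕ) ≠ 1)
  have hc := hh.conn_ge hS h0 h1 (by norm_num) (pot F 0 1 2 + 2)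
  refine F6_inner hS hc ⟨h1, ?_⟩ ⟨hx, ?_⟩ h1 ?_
  · linarith
  · unfold dep at hd
    linarith
  · rintro q ⟨hq, hq2⟩ b c hbc
    have hqb := hh.grad_le hS h0 h1 (by norm_num) (a := q) (b := b) ⟨c, hbc⟩
    have hqc := hh.grad_le hS h0 h1 (by norm_num) (a := q) (b := c)
      (hS.adj_symm ⟨b, hS.rot2 hbc⟩)
    rw [abs_le] at hqb hqc
    refine a4a_mem_avoid.2 ⟨hbc, ?_, ?_, ?_⟩
    · intro hk
      have := hK _ hk
      unfold dep at this
      linarith
    · intro hk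
      have := hK _ hk
      unfold dep at this
      linarith [hqb.1]
    · intro hk
      have := hK _ hk
      unfold dep at this
      linarith [hqc.1]

/-- the common argument of `hole_deep` and `hole_high` -/
theorem F6_sep (hF : IsSurf F) {y z : ℕ} {B : Set ℕ} {K' : Finset ℕ} (hK' : K' ⊆ K)
    (hB : ConnIn F B) (hz : z ∈ B) (hBK : ∀ k ∈ K', k ∉ B) {x : ℕ}
    (hx : x ∈ vs (hole F K y)) (hxB : x ∈ B) :
    ∃ A : Set ℕ, ConnIn F A ∧ y ∈ A ∧ z ∈ A ∧ ∀ k ∈ K', k ∉ A := by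
  have hyK : y ∉ K := by
    obtain ⟨a, b, hab⟩ := mem_vs.1 hx
    obtain ⟨_, b0, c0, h2, _⟩ := a4a_mem_hole.1 hab
    exact (a4a_mem_avoid.1 h2).2.1
  set S : Set ℕ := {p | Relation.ReflTransGen (fun p q => q ∈ vs F ∧ q ∉ K ∧ Adj F p q) y p}
    with hS
  set A : Set ℕ := S ∪ B with hA
  have hyA : y ∈ A := Or.inl Relation.ReflTransGen.refl
  have hS1 : ∀ p ∈ S, Relation.ReflTransGen (C0b_step F A) y p := by
    intro p hp
    have hp' : Relation.ReflTransGen (fun p q => q ∈ vs F ∧ q ∉ K ∧ Adj F p q) y p := hp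
    induction hp' with
    | refl => exact Relation.ReflTransGen.refl
    | @tail p q hp1 hpq ih =>
      exact (ih hp1).tail ⟨Or.inl (hp1.tail hpq), hpq.2.2⟩
  have hxS : x ∈ S := hole_joined hF hx
  have hB1 : ∀ p ∈ B, Relation.ReflTransGen (C0b_step F A) y p := by
    intro p hp
    have h1 := hB x hxB p hp
    have h2 : Relation.ReflTransGen (C0b_step F A) x p :=
      Relation.ReflTransGen.mono (r := fun p q => q ∈ B ∧ Adj F p q) (p := C0b_step F A)
        (fun a b hab => ⟨Or.inr hab.1, hab.2⟩) x p h1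
    exact (hS1 x hxS).trans h2
  have hall : ∀ p ∈ A, Relation.ReflTransGen (C0b_step F A) y p := by
    rintro p (hp | hp)
    · exact hS1 p hp
    · exact hB1 p hp
  refine ⟨A, ?_, hyA, Or.inr hz, ?_⟩
  · intro p hp q hq
    exact (C0b_rev hF hyA (hall p hp)).trans (hall q hq)
  · rintro k hk (hkA | hkA)
    · have hk' : Relation.ReflTransGen (fun p q => q ∈ vs F ∧ q ∉ K ∧ Adj F p q) y k := hkA
      cases hk' with
      | refl => exact hyK (hK' hk)
      | tail _ h => exact h.2.1 (hK' hk)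
    · exact hBK k hk hkA

/-- If part of `K` separates `0` from `1` at depths `> s`, the hole at `0` is at depths `> s`: a vertex of the hole at depth `≤ s`
would be joined to `1` inside `{depth ≤ s}` (`conn_ge`) and to `0` avoiding `K`. -/
theorem hole_deep (hF : IsTri F) (h0 : 0 ∈ vs F) (h1 : 1 ∈ vs F) {s : ℝ} {K' : Finset ℕ}
    (hK' : K' ⊆ K) (hsep : Sep F 0 1 K') (hd : ∀ y ∈ K', s < dep F y)
    (hs : dep F 1 ≤ s) {x : ℕ} (hx : x ∈ vs (hole F K 0)) : s < dep F x := by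
  have hS := hF.toIsSurf
  have hh := pot_isPot hS h0 h1 (by norm_num : (0 : ℕ) ≠ 1)
  by_contra hcon
  have hc := hh.conn_ge hS h0 h1 (by norm_num) (pot F 0 1 2 - s)
  have hxF : x ∈ vs F := by
    obtain ⟨a, b, hab⟩ := mem_vs.1 hx
    exact mem_vs.2 ⟨a, b, hole_subset' hab⟩
  unfold dep at hcon hs hd
  obtain ⟨A, hA1, hA2, hA3, hA4⟩ := F6_sep hS hK' hc (z := 1) ⟨h1, by linarith⟩ (by
    rintro k hk ⟨_, hk2⟩
    have := hd k hk
    linarith) hx ⟨hxF, by linarith⟩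
  obtain ⟨k, hk, hkA⟩ := hsep A hA1 hA2 hA3
  exact hA4 k hk hkA

/-- The same at `u = 1`. -/
theorem hole_high (hF : IsTri F) (h0 : 0 ∈ vs F) (h1 : 1 ∈ vs F) {s : ℝ} {K' : Finset ℕ}
    (hK' : K' ⊆ K) (hsep : Sep F 0 1 K') (hd : ∀ y ∈ K', dep F y < s)
    (hs : s ≤ dep F 0) {x : ℕ} (hx : x ∈ vs (hole F K 1)) : dep F x < s := by
  have hS := hF.toIsSurf
  have hh := pot_isPot hS h0 h1 (by norm_num : (0 : ℕ) ≠ 1)
  by_contra hcon
  have hc := hh.conn_le hS h0 h1 (by norm_num) (pot F 0 1 2 - s)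
  have hxF : x ∈ vs F := by
    obtain ⟨a, b, hab⟩ := mem_vs.1 hx
    exact mem_vs.2 ⟨a, b, hole_subset' hab⟩
  unfold dep at hcon hs hd
  obtain ⟨A, hA1, hA2, hA3, hA4⟩ := F6_sep hS hK' hc (z := 0) ⟨h0, by linarith⟩ (by
    rintro k hk ⟨_, hk2⟩
    have := hd k hk
    linarith) hx ⟨hxF, by linarith⟩
  obtain ⟨k, hk, hkA⟩ := hsep A hA1 hA3 hA2
  exact hA4 k hk hkA

/-- Monotonicity of the hole at an inner vertex. -/
theorem hole_mono {K' : Finset ℕ} (h : K' ⊆ K) {y : ℕ} : hole F K y ⊆ hole F K' y := by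
  have hav : avoid F K ⊆ avoid F K' := by
    rintro ⟨a, b, c⟩ ht
    rw [a4a_mem_avoid] at ht ⊢
    exact ⟨ht.1, fun h1 => ht.2.1 (h h1), fun h1 => ht.2.2.1 (h h1), fun h1 => ht.2.2.2 (h h1)⟩
  intro t ht
  obtain ⟨h1, b0, c0, h2, h3⟩ := a4a_mem_hole.1 ht
  exact a4a_mem_hole.2 ⟨hav h1, b0, c0, hav h2,
    Relation.ReflTransGen.mono (r := RStep (avoid F K)) (p := RStep (avoid F K'))
      (fun a b hab => ⟨hav hab.1, hab.2⟩) _ _ h3⟩

end H19S
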