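import Pool.Agent.Lib.H19S.F0
import Pool.Agent.Lib.H19S.TopD

/-!
# H19S, chunk F7: the family of walks of window `j`
-/

namespace H19S

open Finset
open scoped ENNReal

/-- Requirements on the walks of the window starting at depth `t0`, spacing `M`: started at `2`; heights `< 1`, depths
`< t0 + 2M + 38`; a prefix `π₁` with depths `< t0 + M + 38` contains a set at depths in `(t0, t0+38)` and one at
depths in `(t0+M, t0+M+38)` which separate `0` from `1`; the whole walk contains such a set at depths in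
`(t0+2M, t0+2M+38)`. -/
def WinWalk (F : Finset (ℕ × ℕ × ℕ)) (t0 M : ℝ) (π : List ℕ) : Prop :=
  π.head? = some 2 ∧ (∀ y ∈ π, -1 < dep F y ∧ dep F y < t0 + 2 * M + 38) ∧
  (∃ π₁ : List ℕ, π₁ <+: π ∧ π₁ ≠ [] ∧ (∀ y ∈ π₁, dep F y < t0 + M + 38) ∧
    (∃ KZ : Finset ℕ, KZ ⊆ π₁.toFinset ∧ Sep F 0 1 KZ ∧ ∀ y ∈ KZ, t0 < dep F y ∧ dep F y < t0 + 38) ∧
    (∃ KA : Finset ℕ, KA ⊆ π₁.toFinset ∧ Sep F 0 1 KA ∧
      ∀ y ∈ KA, t0 + M < dep F y ∧ dep F y < t0 + M + 38)) ∧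
  ∃ KB : Finset ℕ, KB ⊆ π.toFinset ∧ Sep F 0 1 KB ∧
    ∀ y ∈ KB, t0 + 2 * M < dep F y ∧ dep F y < t0 + 2 * M + 38

/-- Composition of a family with families started at the end points. -/
theorem F7_step {N : ℕ → Finset ℕ} {G : Set (List ℕ)} (hG : PrefixFree G) (hne : ∀ p ∈ G, p ≠ [])
    {Q : List ℕ → List ℕ → Prop} (c : ℝ≥0∞)
    (h : ∀ p ∈ G, ∀ y, p.getLast? = some y → ∃ H : Set (List ℕ), PrefixFree H ∧
      (∀ q ∈ H, q.head? = some y ∧ Q p q) ∧ c ≤ W N H) :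
    ∃ G' : Set (List ℕ), PrefixFree G' ∧
      (∀ r ∈ G', ∃ p ∈ G, ∃ q, q ≠ [] ∧ q.head? = p.getLast? ∧ Q p q ∧ r = p ++ q.tail) ∧
      W N G * c ≤ W N G' := by
  classical
  have h' : ∀ p, ∃ H : Set (List ℕ), p ∈ G → PrefixFree H ∧
      (∀ q ∈ H, q ≠ [] ∧ q.head? = p.getLast? ∧ Q p q) ∧ c ≤ W N H := by
    intro p
    by_cases hp : p ∈ G
    · have hn := hne p hp
      obtain ⟨H, h1, h2, h3⟩ := h p hp (p.getLast hn) (List.getLast?_eq_getLast_of_ne_nil hn)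
      refine ⟨H, fun _ => ⟨h1, ?_, h3⟩⟩
      intro q hq
      obtain ⟨h4, h5⟩ := h2 q hq
      refine ⟨?_, ?_, h5⟩
      · rintro rfl
        simp at h4
      · rw [h4, List.getLast?_eq_getLast_of_ne_nil hn]
    · exact ⟨∅, fun h => absurd h hp⟩
  choose H hH using h'
  refine ⟨PD.comp G H, ?_, ?_, ?_⟩
  · exact PD.comp_prefixFree hG (fun p hp => (hH p hp).1) hne
      (fun p hp q hq => ⟨((hH p hp).2.1 q hq).1, ((hH p hp).2.1 q hq).2.1⟩)
  · rintro r ⟨p, hp, q, hq, rfl⟩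
    obtain ⟨h1, h2, h3⟩ := (hH p hp).2.1 q hq
    exact ⟨p, hp, q, h1, h2, h3, rfl⟩
  · exact PD.W_comp_ge N hG (fun p hp => (hH p hp).1) hne
      (fun p hp q hq => ⟨((hH p hp).2.1 q hq).1, ((hH p hp).2.1 q hq).2.1⟩) c
      (fun p hp => (hH p hp).2.2)

/-- Going down to depth `T` before height `1`. -/
theorem F7_down {F : Finset (ℕ × ℕ × ℕ)} (hF : IsTri F) (h0 : 0 ∈ vs F) (h1 : 1 ∈ vs F)
    {T : ℝ} (hT : 0 ≤ T) (hT2 : T ≤ pot F 0 1 2) (hH : 2 < pot F 0 1 1 - pot F 0 1 2) {x : ℕ}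
    (hx : x ∈ vs F) (hx1 : -1 < dep F x) (hx2 : dep F x < T) :
    ∃ H : Set (List ℕ), PrefixFree H ∧
      (∀ q ∈ H, q.head? = some x ∧ ((∀ y ∈ q, y ∈ vs F ∧ -1 < dep F y ∧ dep F y < T + 1) ∧
        ∀ y ∈ q.getLast?, T ≤ dep F y)) ∧
      ENNReal.ofReal ((dep F x + 1) / (T + 2)) ≤ W (nbr F) H := by
  have hS : IsSurf F := hF.toIsSurf
  have h01 : (0 : ℕ) ≠ 1 := by norm_num
  have hp := pot_isPot hS h0 h1 h01
  have hk := PD.pot_harmOn hS h0 h1 h01 hp (a := pot F 0 1 2 - T) (b := pot F 0 1 2 + 1)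
    (by linarith) (by linarith)
  unfold dep at hx1 hx2
  have hd := PD.hit_down hk hx (by linarith) (by linarith)
  refine ⟨PD.Hit (nbr F) {y | y ∈ vs F ∧ pot F 0 1 2 - T < pot F 0 1 y ∧
    pot F 0 1 y < pot F 0 1 2 + 1} {y | y ∈ vs F ∧ pot F 0 1 y ≤ pot F 0 1 2 - T} x,
    PD.hit_prefixFree _ _ _ _, ?_, ?_⟩
  · intro q hq
    have hxA : x ∉ {y | y ∈ vs F ∧ pot F 0 1 y ≤ pot F 0 1 2 - T} := by
      rintro ⟨_, h⟩
      linarith
    refine ⟨hq.1, ?_, ?_⟩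
    · intro y hy
      rcases PD.hit_mem hq hy with h | ⟨h, h'⟩
      · obtain ⟨a, b, c⟩ := h
        exact ⟨a, by unfold dep; linarith, by unfold dep; linarith⟩
      · rcases h' with h' | ⟨w, hw, hwy⟩
        · exfalso
          obtain ⟨hq1, ⟨hq0, _⟩, _, hq4⟩ := hq
          have e : q = [q.getLast hq0] := by
            conv_lhs => rw [← List.dropLast_append_getLast hq0, h']
            rfl
          rw [e] at hq1
          simp only [List.head?_cons, Option.some.injEq] at hq1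
          have := hq4 (q.getLast hq0) (List.getLast?_eq_getLast_of_ne_nil hq0)
          rw [hq1] at this
          exact hxA this
        · obtain ⟨hw1, hw2, hw3⟩ := (hq.2.2.1 w hw).1
          have hgr := hp.grad_le hS h0 h1 h01 (mem_nbr.1 hwy)
          obtain ⟨ha, hb⟩ := h
          rw [abs_le] at hgr
          exact ⟨ha, by unfold dep; linarith, by unfold dep; linarith [hgr.1]⟩
    · intro y hy
      obtain ⟨_, h⟩ := hq.2.2.2 y hy
      unfold dep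
      linarith
  · rw [PD.W_hit]
    apply ENNReal.ofReal_le_ofReal
    refine le_trans (le_of_eq ?_) hd
    unfold dep
    congr 1 <;> ring

/-- Loops in the window of depths `(t, t + 38)`. -/
theorem F7_loop {c1 : ℝ} (hloop : ∀ (F : Finset (ℕ × ℕ × ℕ)), IsTri F →
    ∀ v ∈ vs F, ∀ u ∈ vs F, v ≠ u → ∀ lo : ℝ, 1 < lo → lo + 38 < pot F v u u - 1 →
    ∀ x ∈ vs F, |pot F v u x - (lo + 19)| ≤ 1 →
    ∃ G : Set (List ℕ), PrefixFree G ∧
      (∀ π ∈ G, π.head? = some x ∧ (∀ y ∈ π, lo < pot F v u y ∧ pot F v u y < lo + 38) ∧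
        Sep F v u π.toFinset) ∧
      ENNReal.ofReal c1 ≤ W (nbr F) G)
    {F : Finset (ℕ × ℕ × ℕ)} (hF : IsTri F) (h0 : 0 ∈ vs F) (h1 : 1 ∈ vs F) {t : ℝ} (ht : 0 ≤ t)
    (ht2 : t + 40 ≤ pot F 0 1 2) (hH : 2 < pot F 0 1 1 - pot F 0 1 2) {x : ℕ} (hx : x ∈ vs F)
    (hx1 : t + 19 ≤ dep F x) (hx2 : dep F x < t + 20) :
    ∃ G : Set (List ℕ), PrefixFree G ∧
      (∀ π ∈ G, π.head? = some x ∧ ((∀ y ∈ π, y ∈ vs F ∧ t < dep F y ∧ dep F y < t + 38) ∧
        Sep F 0 1 π.toFinset)) ∧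
      ENNReal.ofReal c1 ≤ W (nbr F) G := by
  have hS : IsSurf F := hF.toIsSurf
  have h01 : (0 : ℕ) ≠ 1 := by norm_num
  have hp := pot_isPot hS h0 h1 h01
  unfold dep at hx1 hx2
  obtain ⟨G, g1, g2, g3⟩ := hloop F hF 0 h0 1 h1 h01 (pot F 0 1 2 - t - 38) (by linarith)
    (by linarith) x hx (by rw [abs_le]; constructor <;> linarith)
  refine ⟨G, g1, ?_, g3⟩
  intro π hπ
  obtain ⟨a, b, c⟩ := g2 π hπ
  refine ⟨a, ?_, c⟩
  intro y hy
  obtain ⟨b1, b2⟩ := b y hy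
  refine ⟨?_, ?_, ?_⟩
  · by_contra hcon
    rw [hp.out y hcon] at b1
    linarith
  · unfold dep; linarith
  · unfold dep; linarith

/-- The walk from `2`: (0) reach depth `≥ t0 + 19` before height `≥ 1`, probability `≥ 1/(t0+21)`; the end point has depth in
`[t0+19, t0+20)` (`grad_le`); (1) `loops` in the window of depths `(t0, t0+38)` (`lo = h 2 - t0 - 38`), probability `≥ c1`;
(2) from its end point reach depth `≥ t0+M+19` before height `≥ 1`, probability `≥ (t0+1)/(t0+M+21) ≥ 1/(M+22)`;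
(3) `loops` in `(t0+M, t0+M+38)`; (4) reach depth `≥ t0+2M+19` before height `≥ 1`, probability `≥ 1/(M+22)`;
(5) `loops` in `(t0+2M, t0+2M+38)`.  Concatenate the prefix-free families (Part D: concatenation lemma and the bound
`P(reach h ≤ a before h ≥ b) ≥ (b - h x)/(b - a + 1)`); `π₁` = the part up to the end of (3).  Total weight at least
`c1³ / ((t0+21) (M+22)²)`. -/
theorem walkfam {M : ℝ} (hM : 38 ≤ M) : ∃ cw : ℝ, 0 < cw ∧ ∀ F : Finset (ℕ × ℕ × ℕ), IsTri F →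
    0 ∈ vs F → 1 ∈ vs F → 2 ∈ vs F → ∀ t0 : ℝ, 1 ≤ t0 → t0 + 2 * M + 40 ≤ pot F 0 1 2 →
    2 < pot F 0 1 1 - pot F 0 1 2 →
    ∃ H : Set (List ℕ), PrefixFree H ∧ (∀ π ∈ H, WinWalk F t0 M π) ∧
      ENNReal.ofReal (cw / t0) ≤ W (nbr F) H := by
  obtain ⟨c1, hc1, hc1', hloop⟩ := loops
  refine ⟨c1 ^ 3 / (22 * (M + 22) ^ 2), by positivity, ?_⟩
  intro F hF h0 h1 h2 t0 ht0 htop hH
  have hS : IsSurf F := hF.toIsSurf
  have hd2 : dep F 2 = 0 := by unfold dep; ring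
  -- stage 0
  obtain ⟨G0, a1, a2, a3⟩ := F7_down hF h0 h1 (T := t0 + 19) (by linarith) (by linarith) hH h2
    (by rw [hd2]; norm_num) (by rw [hd2]; linarith)
  have a0 : ∀ p ∈ G0, p ≠ [] := by
    rintro p hp rfl
    have := (a2 [] hp).1
    simp at this
  -- stage 1
  obtain ⟨G1, b1, b2, b3⟩ := F7_step (N := nbr F) a1 a0
    (Q := fun _ q => (∀ y ∈ q, y ∈ vs F ∧ t0 < dep F y ∧ dep F y < t0 + 38) ∧
        Sep F 0 1 q.toFinset) (ENNReal.ofReal c1) (by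
      intro p hp y hy
      have hy' : y ∈ p := List.mem_of_getLast? hy
      obtain ⟨_, c2, c3⟩ := a2 p hp
      exact F7_loop hloop hF h0 h1 (by linarith) (by linarith) hH (c2 y hy').1 (c3 y hy)
        (by linarith [(c2 y hy').2.2]))
  have b0 : ∀ p ∈ G1, p ≠ [] := by
    rintro r hr
    obtain ⟨p, hp, q, _, _, _, rfl⟩ := b2 r hr
    simp [a0 p hp]
  -- summary of stage 1
  have s1 : ∀ r ∈ G1, r.head? = some 2 ∧ (∀ y ∈ r, y ∈ vs F ∧ -1 < dep F y ∧ dep F y < t0 + 38) ∧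
      (∃ KZ : Finset ℕ, KZ ⊆ r.toFinset ∧ Sep F 0 1 KZ ∧
        ∀ y ∈ KZ, t0 < dep F y ∧ dep F y < t0 + 38) ∧ ∀ y ∈ r.getLast?, t0 < dep F y := by
    intro r hr
    obtain ⟨p, hp, q, hq0, hq1, ⟨hq2, hq3⟩, rfl⟩ := b2 r hr
    obtain ⟨c1', c2, c3⟩ := a2 p hp
    refine ⟨?_, ?_, ?_, ?_⟩
    · rw [PD.head_append (a0 p hp), c1']
    · intro y hy
      rcases (PD.mem_append_tail (a0 p hp) hq1).1 hy with h | h
      · exact ⟨(c2 y h).1, (c2 y h).2.1, by linarith [(c2 y h).2.2]⟩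
      · exact ⟨(hq2 y h).1, by linarith [(hq2 y h).2.1], (hq2 y h).2.2⟩
    · refine ⟨q.toFinset, ?_, hq3, ?_⟩
      · intro y hy
        rw [List.mem_toFinset] at hy ⊢
        exact (PD.mem_append_tail (a0 p hp) hq1).2 (Or.inr hy)
      · intro y hy
        exact (hq2 y (List.mem_toFinset.1 hy)).2
    · intro y hy
      rw [PD.last_append (a0 p hp) hq0 hq1] at hy
      exact (hq2 y (List.mem_of_getLast? hy)).2.1
  -- stage 2
  have hratio : ∀ (d T : ℝ), t0 < d → T + 2 ≤ t0 + M + 21 →  0 < T + 2 →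
      1 / (M + 22) ≤ (d + 1) / (T + 2) := by
    intro d T hd hT hT0
    rw [div_le_div_iff₀ (by linarith) hT0]
    nlinarith
  obtain ⟨G2, d1, d2, d3⟩ := F7_step (N := nbr F) b1 b0
    (Q := fun _ q => (∀ y ∈ q, y ∈ vs F ∧ -1 < dep F y ∧ dep F y < t0 + M + 19 + 1) ∧
        ∀ y ∈ q.getLast?, t0 + M + 19 ≤ dep F y) (ENNReal.ofReal (1 / (M + 22))) (by
      intro p hp y hy
      have hy' : y ∈ p := List.mem_of_getLast? hy
      obtain ⟨_, c2, _, c3⟩ := s1 p hp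
      obtain ⟨H, e1, e2, e3⟩ := F7_down hF h0 h1 (T := t0 + M + 19) (by linarith) (by linarith) hH
        (c2 y hy').1 (c2 y hy').2.1 (by linarith [(c2 y hy').2.2])
      refine ⟨H, e1, e2, le_trans (ENNReal.ofReal_le_ofReal ?_) e3⟩
      exact hratio _ _ (c3 y hy) (by linarith) (by linarith))
  have d0 : ∀ p ∈ G2, p ≠ [] := by
    rintro r hr
    obtain ⟨p, hp, q, _, _, _, rfl⟩ := d2 r hr
    simp [b0 p hp]
  have s2 : ∀ r ∈ G2, r.head? = some 2 ∧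
      (∀ y ∈ r, y ∈ vs F ∧ -1 < dep F y ∧ dep F y < t0 + M + 20) ∧
      (∃ KZ : Finset ℕ, KZ ⊆ r.toFinset ∧ Sep F 0 1 KZ ∧
        ∀ y ∈ KZ, t0 < dep F y ∧ dep F y < t0 + 38) ∧
      ∀ y ∈ r.getLast?, t0 + M + 19 ≤ dep F y := by
    intro r hr
    obtain ⟨p, hp, q, hq0, hq1, ⟨hq2, hq3⟩, rfl⟩ := d2 r hr
    obtain ⟨c1', c2, ⟨KZ, k1, k2, k3⟩, _⟩ := s1 p hp
    refine ⟨?_, ?_, ?_, ?_⟩
    · rw [PD.head_append (b0 p hp), c1']
    · intro y hy
      rcases (PD.mem_append_tail (b0 p hp) hq1).1 hy with h | h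
      · exact ⟨(c2 y h).1, (c2 y h).2.1, by linarith [(c2 y h).2.2]⟩
      · exact ⟨(hq2 y h).1, by linarith [(hq2 y h).2.1], by linarith [(hq2 y h).2.2]⟩
    · refine ⟨KZ, ?_, k2, k3⟩
      intro y hy
      have := k1 hy
      rw [List.mem_toFinset] at this ⊢
      exact (PD.mem_append_tail (b0 p hp) hq1).2 (Or.inl this)
    · intro y hy
      rw [PD.last_append (b0 p hp) hq0 hq1] at hy
      exact hq3 y hy
  -- stage 3
  obtain ⟨G3, f1, f2, f3⟩ := F7_step (N := nbr F) d1 d0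
    (Q := fun _ q => (∀ y ∈ q, y ∈ vs F ∧ t0 + M < dep F y ∧ dep F y < t0 + M + 38) ∧
        Sep F 0 1 q.toFinset) (ENNReal.ofReal c1) (by
      intro p hp y hy
      have hy' : y ∈ p := List.mem_of_getLast? hy
      obtain ⟨_, c2, _, c3⟩ := s2 p hp
      exact F7_loop hloop hF h0 h1 (by linarith) (by linarith) hH (c2 y hy').1 (c3 y hy)
        (by linarith [(c2 y hy').2.2]))
  have f0 : ∀ p ∈ G3, p ≠ [] := by
    rintro r hr
    obtain ⟨p, hp, q, _, _, _, rfl⟩ := f2 r hr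
    simp [d0 p hp]
  have s3 : ∀ r ∈ G3, r.head? = some 2 ∧
      (∀ y ∈ r, y ∈ vs F ∧ -1 < dep F y ∧ dep F y < t0 + M + 38) ∧
      (∃ KZ : Finset ℕ, KZ ⊆ r.toFinset ∧ Sep F 0 1 KZ ∧
        ∀ y ∈ KZ, t0 < dep F y ∧ dep F y < t0 + 38) ∧
      (∃ KA : Finset ℕ, KA ⊆ r.toFinset ∧ Sep F 0 1 KA ∧
        ∀ y ∈ KA, t0 + M < dep F y ∧ dep F y < t0 + M + 38) ∧
      ∀ y ∈ r.getLast?, t0 < dep F y := by
    intro r hr
    obtain ⟨p, hp, q, hq0, hq1, ⟨hq2, hq3⟩, rfl⟩ := f2 r hr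
    obtain ⟨c1', c2, ⟨KZ, k1, k2, k3⟩, _⟩ := s2 p hp
    refine ⟨?_, ?_, ?_, ?_, ?_⟩
    · rw [PD.head_append (d0 p hp), c1']
    · intro y hy
      rcases (PD.mem_append_tail (d0 p hp) hq1).1 hy with h | h
      · exact ⟨(c2 y h).1, (c2 y h).2.1, by linarith [(c2 y h).2.2]⟩
      · exact ⟨(hq2 y h).1, by linarith [(hq2 y h).2.1], by linarith [(hq2 y h).2.2]⟩
    · refine ⟨KZ, ?_, k2, k3⟩
      intro y hy
      have := k1 hy
      rw [List.mem_toFinset] at this ⊢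
      exact (PD.mem_append_tail (d0 p hp) hq1).2 (Or.inl this)
    · refine ⟨q.toFinset, ?_, hq3, ?_⟩
      · intro y hy
        rw [List.mem_toFinset] at hy ⊢
        exact (PD.mem_append_tail (d0 p hp) hq1).2 (Or.inr hy)
      · intro y hy
        exact (hq2 y (List.mem_toFinset.1 hy)).2
    · intro y hy
      rw [PD.last_append (d0 p hp) hq0 hq1] at hy
      linarith [(hq2 y (List.mem_of_getLast? hy)).2.1]
  -- stage 4
  obtain ⟨G4, g1, g2, g3⟩ := F7_step (N := nbr F) f1 f0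
    (Q := fun _ q => (∀ y ∈ q, y ∈ vs F ∧ -1 < dep F y ∧ dep F y < t0 + 2 * M + 19 + 1) ∧
        ∀ y ∈ q.getLast?, t0 + 2 * M + 19 ≤ dep F y) (ENNReal.ofReal (1 / (M + 22))) (by
      intro p hp y hy
      have hy' : y ∈ p := List.mem_of_getLast? hy
      obtain ⟨hh, c2, _, _, c3⟩ := s3 p hp
      obtain ⟨p', hp', q, hq0, hq1, ⟨hq2, hq3⟩, rfl⟩ := f2 p hp
      rw [PD.last_append (d0 p' hp') hq0 hq1] at hy
      have hyM := (hq2 y (List.mem_of_getLast? hy)).2.1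
      obtain ⟨H, e1, e2, e3⟩ := F7_down hF h0 h1 (T := t0 + 2 * M + 19) (by linarith) (by linarith)
        hH (c2 y hy').1 (c2 y hy').2.1 (by linarith [(c2 y hy').2.2])
      refine ⟨H, e1, e2, le_trans (ENNReal.ofReal_le_ofReal ?_) e3⟩
      rw [div_le_div_iff₀ (by linarith) (by linarith)]
      nlinarith)
  have g0 : ∀ p ∈ G4, p ≠ [] := by
    rintro r hr
    obtain ⟨p, hp, q, _, _, _, rfl⟩ := g2 r hr
    simp [f0 p hp]
  have s4 : ∀ r ∈ G4, r.head? = some 2 ∧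
      (∀ y ∈ r, y ∈ vs F ∧ -1 < dep F y ∧ dep F y < t0 + 2 * M + 20) ∧
      (∃ π₁ : List ℕ, π₁ <+: r ∧ π₁ ≠ [] ∧ (∀ y ∈ π₁, dep F y < t0 + M + 38) ∧
      (∃ KZ : Finset ℕ, KZ ⊆ π₁.toFinset ∧ Sep F 0 1 KZ ∧
        ∀ y ∈ KZ, t0 < dep F y ∧ dep F y < t0 + 38) ∧
      (∃ KA : Finset ℕ, KA ⊆ π₁.toFinset ∧ Sep F 0 1 KA ∧
        ∀ y ∈ KA, t0 + M < dep F y ∧ dep F y < t0 + M + 38)) ∧
      ∀ y ∈ r.getLast?, t0 + 2 * M + 19 ≤ dep F y := by
    intro r hr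
    obtain ⟨p, hp, q, hq0, hq1, ⟨hq2, hq3⟩, rfl⟩ := g2 r hr
    obtain ⟨c1', c2, kZ, kA, _⟩ := s3 p hp
    refine ⟨?_, ?_, ?_, ?_⟩
    · rw [PD.head_append (f0 p hp), c1']
    · intro y hy
      rcases (PD.mem_append_tail (f0 p hp) hq1).1 hy with h | h
      · exact ⟨(c2 y h).1, (c2 y h).2.1, by linarith [(c2 y h).2.2]⟩
      · exact ⟨(hq2 y h).1, by linarith [(hq2 y h).2.1], by linarith [(hq2 y h).2.2]⟩
    · exact ⟨p, List.prefix_append _ _, f0 p hp, fun y hy => (c2 y hy).2.2, kZ, kA⟩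
    · intro y hy
      rw [PD.last_append (f0 p hp) hq0 hq1] at hy
      exact hq3 y hy
  -- stage 5
  obtain ⟨G5, i1, i2, i3⟩ := F7_step (N := nbr F) g1 g0
    (Q := fun _ q => (∀ y ∈ q, y ∈ vs F ∧ t0 + 2 * M < dep F y ∧ dep F y < t0 + 2 * M + 38) ∧
        Sep F 0 1 q.toFinset) (ENNReal.ofReal c1) (by
      intro p hp y hy
      have hy' : y ∈ p := List.mem_of_getLast? hy
      obtain ⟨_, c2, _, c3⟩ := s4 p hp
      exact F7_loop hloop hF h0 h1 (by linarith) (by linarith) hH (c2 y hy').1 (c3 y hy)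
        (by linarith [(c2 y hy').2.2]))
  refine ⟨G5, i1, ?_, ?_⟩
  · intro r hr
    obtain ⟨p, hp, q, hq0, hq1, ⟨hq2, hq3⟩, rfl⟩ := i2 r hr
    obtain ⟨c1', c2, ⟨π₁, m1, m2, m3, m4, m5⟩, _⟩ := s4 p hp
    refine ⟨?_, ?_, ?_, ?_⟩
    · rw [PD.head_append (g0 p hp), c1']
    · intro y hy
      rcases (PD.mem_append_tail (g0 p hp) hq1).1 hy with h | h
      · exact ⟨(c2 y h).2.1, by linarith [(c2 y h).2.2]⟩
      · exact ⟨by linarith [(hq2 y h).2.1], (hq2 y h).2.2⟩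
    · exact ⟨π₁, m1.trans (List.prefix_append _ _), m2, m3, m4, m5⟩
    · refine ⟨q.toFinset, ?_, hq3, ?_⟩
      · intro y hy
        rw [List.mem_toFinset] at hy ⊢
        exact (PD.mem_append_tail (g0 p hp) hq1).2 (Or.inr hy)
      · intro y hy
        exact (hq2 y (List.mem_toFinset.1 hy)).2
  · -- weights
    rw [hd2] at a3
    have hM0 : 0 < M + 22 := by linarith
    have key : ENNReal.ofReal (c1 ^ 3 / (22 * (M + 22) ^ 2) / t0) ≤
        ENNReal.ofReal ((0 + 1) / (t0 + 19 + 2)) * ENNReal.ofReal c1 *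
          ENNReal.ofReal (1 / (M + 22)) * ENNReal.ofReal c1 * ENNReal.ofReal (1 / (M + 22)) *
          ENNReal.ofReal c1 := by
      rw [← ENNReal.ofReal_mul (by positivity), ← ENNReal.ofReal_mul (by positivity),
        ← ENNReal.ofReal_mul (by positivity), ← ENNReal.ofReal_mul (by positivity),
        ← ENNReal.ofReal_mul (by positivity)]
      apply ENNReal.ofReal_le_ofReal
      have e1 : (0 + 1) / (t0 + 19 + 2) * c1 * (1 / (M + 22)) * c1 * (1 / (M + 22)) * c1 =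
          c1 ^ 3 / ((M + 22) ^ 2) / (t0 + 21) := by
        field_simp
        ring
      have e2 : c1 ^ 3 / (22 * (M + 22) ^ 2) / t0 = c1 ^ 3 / ((M + 22) ^ 2) / (22 * t0) := by
        field_simp
      rw [e1, e2]
      apply div_le_div_of_nonneg_left (by positivity) (by linarith) (by linarith)
    refine key.trans (le_trans ?_ i3)
    gcongr
    refine le_trans ?_ g3
    gcongr
    refine le_trans ?_ f3
    gcongr
    refine le_trans ?_ d3
    gcongr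
    refine le_trans ?_ b3
    gcongr

end H19S
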