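import Pool.Agent.Lib.H19S.F5
import Pool.Agent.Lib.H19S.F6
import Pool.Agent.Lib.H19S.F7
import Pool.Agent.Lib.H19S.TopD

/-!
# H19S, chunk F8: the walks of window `j` have a prefix in `GoodStop`
-/

namespace H19S

open Finset
open scoped ENNReal

variable {F : Finset (ℕ × ℕ × ℕ)}

theorem f8_inner_vs {R : Finset (ℕ × ℕ × ℕ)} {x : ℕ} (h : x ∈ inner F R) : x ∈ vs R := by
  unfold inner at h
  exact (mem_filter.1 h).1

theorem f8_vs_sub {R : Finset (ℕ × ℕ × ℕ)} (h : R ⊆ F) {x : ℕ} (hx : x ∈ vs R) : x ∈ vs F := by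
  unfold vs at *
  exact image_subset_image h hx

theorem f8_energy (f : ℕ → ℝ) (a d : ℝ) (hd : 0 < d) :
    energy F (fun x => (f x - a) / d) = energy F f / d ^ 2 := by
  unfold energy
  have h : ∀ t : ℕ × ℕ × ℕ, ((f t.2.1 - a) / d - (f t.1 - a) / d) ^ 2 =
      (f t.2.1 - f t.1) ^ 2 * (1 / d ^ 2) := by
    intro t
    field_simp
    ring
  simp only [h, ← Finset.sum_mul]
  ring

theorem f8_take_prefix {π π' : List ℕ} {k : ℕ} (h : π' <+: π.take k) (hne : π' ≠ π.take k) :
    ∃ j < k, π' = π.take j := by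
  refine ⟨π'.length, ?_, ?_⟩
  · have h1 := h.length_le
    have h2 : π'.length ≠ (π.take k).length := fun he => hne (h.eq_of_length he)
    have h3 : (π.take k).length ≤ k := by simp
    omega
  · have h1 : π' <+: π := h.trans (List.take_prefix _ _)
    exact List.prefix_iff_eq_take.1 h1

/-- Let `π'` be the shortest nonempty prefix of `π` with `Mh F π'.toFinset 0 ≤ μ`; it exists since `Mh F π.toFinset 0 ≤ cnt (t0+2M) ≤ μ`
(`hole_deep` with `KB`).  As long as the depths are `< t0+M+38`, `Mh ≥ cnt (t0+M+39) > μ` (`inner_deep`), so `π'` is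
longer than `π₁`.  `0` is inner and `Mh F π' 0 ≥ cnt (t0+2M+39) ≥ η μ` (`inner_deep`, `T = t0+2M+38`); `1` is
inner and `Mh F π' 1 ≥ #{depth ≤ -2} ≥ η' n` (`inner_high`).  Certificate: `Q = {x : dep F x < t0 + 38}` (connected, `conn_gt`),
`vs (hole 1) ⊆ Q` (`hole_high` with `KZ`, `s = t0+38`), `vs (hole 0) ⊆ {depth > t0 + M}` (`hole_deep` with `KA`);
`g = (clamp (h, h 2 - t0 - M, h 2 - t0 - 38) - (h 2 - t0 - M)) / (M - 38)`, energy `≤ 1/(M-38) ≤ κ`;
`|vs F \ Q| = cnt (t0+38) ≤ Λ μ`. -/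
theorem goodStop_prefix (hF : IsTri F) (h0 : 0 ∈ vs F) (h1 : 1 ∈ vs F) {t0 M μ η η' Λ κ : ℝ}
    (ht0 : 1 ≤ t0) (hM : 39 ≤ M) (hκ : 1 ≤ κ * (M - 38)) (htop : t0 + 2 * M + 40 ≤ pot F 0 1 2)
    (hH : 2 < pot F 0 1 1 - pot F 0 1 2)
    (k1 : (cnt F (t0 + 2 * M) : ℝ) ≤ μ) (k2 : μ < cnt F (t0 + M + 39))
    (k3 : η * μ ≤ cnt F (t0 + 2 * M + 39)) (k4 : (cnt F (t0 + 38) : ℝ) ≤ Λ * μ)
    (k5 : η' * (vs F).card ≤ ((vs F).filter fun x => dep F x ≤ -2).card)
    {π : List ℕ} (hπ : WinWalk F t0 M π) : ∃ π' ∈ GoodStop F μ η η' Λ κ, π' <+: π := by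
  classical
  obtain ⟨hhead, hdep, ⟨π₁, hπ₁, hπ₁ne, hπ₁d, ⟨KZ, hKZ, hKZs, hKZd⟩, KA, hKA, hKAs, hKAd⟩,
    KB, hKB, hKBs, hKBd⟩ := hπ
  have h01 : (0 : ℕ) ≠ 1 := by norm_num
  have hS := hF.toIsSurf
  have hpot := pot_isPot hS h0 h1 h01
  have hdep0 : dep F 0 = pot F 0 1 2 := by
    unfold dep
    rw [hpot.zero, sub_zero]
  have hdep1 : dep F 1 < -2 := by
    unfold dep
    linarith
  -- monotonicity in the prefix
  have hsub : ∀ l : List ℕ, l <+: π → ∀ y ∈ l.toFinset, -1 < dep F y ∧ dep F y < t0 + 2 * M + 38 :=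
    fun l hl y hy => hdep y (hl.subset (List.mem_toFinset.1 hy))
  -- lower bound of `Mh` at `0`
  have hlow : ∀ (K : Finset ℕ) (T : ℝ), (∀ y ∈ K, dep F y < T) → T + 1 ≤ pot F 0 1 2 →
      (cnt F (T + 1) : ℝ) ≤ Mh F K 0 := by
    intro K T hK hT
    unfold cnt Mh
    refine Nat.cast_le.2 (card_le_card fun x hx => ?_)
    rw [mem_filter] at hx
    exact inner_deep hF h0 h1 hK hT hx.1 hx.2
  have hπne : π ≠ [] := by
    rintro rfl
    simp at hhead
  -- the shortest prefix
  have hex : ∃ k, 1 ≤ k ∧ (Mh F (π.take k).toFinset 0 : ℝ) ≤ μ := by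
    refine ⟨π.length, List.length_pos_iff.2 hπne, ?_⟩
    rw [List.take_length]
    refine le_trans ?_ k1
    unfold cnt Mh
    refine Nat.cast_le.2 (card_le_card fun x hx => ?_)
    have hx' := f8_inner_vs hx
    rw [mem_filter]
    exact ⟨f8_vs_sub hole_subset' hx', (hole_deep hF h0 h1 (s := t0 + 2 * M) hKB hKBs
      (fun y hy => (hKBd y hy).1) (by linarith) hx').le⟩
  set k0 := Nat.find hex with hk0
  obtain ⟨hk1, hk2⟩ := Nat.find_spec hex
  rw [← hk0] at hk1 hk2
  have hmin : ∀ j, j < k0 → 1 ≤ j → μ < Mh F (π.take j).toFinset 0 := by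
    intro j hj hj1
    by_contra hcon
    exact Nat.find_min hex hj ⟨hj1, not_lt.1 hcon⟩
  set π' := π.take k0 with hπ'
  have hπ'p : π' <+: π := List.take_prefix _ _
  have hlen : π₁.length < k0 := by
    by_contra hcon
    push Not at hcon
    have h2 : π' <+: π₁ := by
      have h3 : π₁ = π.take π₁.length := List.prefix_iff_eq_take.1 hπ₁
      rw [h3]
      exact List.take_prefix_take_left hcon
    have h3 := hlow π'.toFinset (t0 + M + 38) (fun y hy =>
      hπ₁d y (h2.subset (List.mem_toFinset.1 hy))) (by linarith)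
    have h4 : t0 + M + 38 + 1 = t0 + M + 39 := by ring
    rw [h4] at h3
    linarith
  have hπ₁' : π₁ <+: π' := by
    have h3 : π₁ = π.take π₁.length := List.prefix_iff_eq_take.1 hπ₁
    rw [h3]
    exact List.take_prefix_take_left hlen.le
  have hsubF : ∀ K : Finset ℕ, K ⊆ π₁.toFinset → K ⊆ π'.toFinset := by
    intro K hK y hy
    exact List.mem_toFinset.2 (hπ₁'.subset (List.mem_toFinset.1 (hK hy)))
  have hd38 : (0 : ℝ) < M - 38 := by linarith
  refine ⟨π', ⟨?_, hk2, ?_, ?_, ?_, ?_, ?_, ?_⟩, hπ'p⟩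
  · rw [hπ', List.head?_take, if_neg (by omega)]
    exact hhead
  · intro l hl hlne hlne'
    obtain ⟨j, hj, rfl⟩ := f8_take_prefix hl hlne'
    refine hmin j hj ?_
    by_contra hcon
    have : j = 0 := by omega
    subst this
    exact hlne (by simp)
  · exact inner_deep hF h0 h1 (T := t0 + 2 * M + 38) (fun y hy => (hsub π' hπ'p y hy).2)
      (by linarith) h0 (by rw [hdep0]; linarith)
  · exact inner_high hF h0 h1 (fun y hy => (hsub π' hπ'p y hy).1) hH.le h1 (by linarith)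
  · refine k3.trans ?_
    have h3 := hlow π'.toFinset (t0 + 2 * M + 38) (fun y hy => (hsub π' hπ'p y hy).2)
      (by linarith)
    have h4 : t0 + 2 * M + 38 + 1 = t0 + 2 * M + 39 := by ring
    rwa [h4] at h3
  · refine k5.trans ?_
    unfold Mh
    refine Nat.cast_le.2 (card_le_card fun x hx => ?_)
    rw [mem_filter] at hx
    exact inner_high hF h0 h1 (fun y hy => (hsub π' hπ'p y hy).1) hH.le hx.1 hx.2
  · have hA : ∀ x ∈ vs (hole F π'.toFinset 0), t0 + M < dep F x := fun x hx =>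
      hole_deep hF h0 h1 (hsubF KA hKA) hKAs (fun y hy => (hKAd y hy).1) (by linarith) hx
    have hZ : ∀ x ∈ vs (hole F π'.toFinset 1), dep F x < t0 + 38 := fun x hx =>
      hole_high hF h0 h1 (hsubF KZ hKZ) hKZs (fun y hy => (hKZd y hy).2)
        (by rw [hdep0]; linarith) hx
    refine ⟨(vs F).filter fun x => dep F x < t0 + 38,
      fun x => (max (pot F 0 1 2 - t0 - M) (min (pot F 0 1 2 - t0 - 38) (pot F 0 1 x)) -
        (pot F 0 1 2 - t0 - M)) / (M - 38), filter_subset _ _, ?_, ?_, ?_, ?_, ?_, ?_, ?_⟩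
    · have h3 := hpot.conn_gt hS h0 h1 h01 (pot F 0 1 2 - t0 - 38)
      have h4 : (((vs F).filter fun x => dep F x < t0 + 38 : Finset ℕ) : Set ℕ) =
          {x | x ∈ vs F ∧ pot F 0 1 2 - t0 - 38 < pot F 0 1 x} := by
        ext x
        simp only [coe_filter, Set.mem_ofPred_eq, dep]
        constructor
        · rintro ⟨e1, e2⟩
          exact ⟨e1, by linarith⟩
        · rintro ⟨e1, e2⟩
          exact ⟨e1, by linarith⟩
      rw [h4]
      exact h3
    · intro x hx
      rw [mem_filter]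
      exact ⟨f8_vs_sub hole_subset' hx, hZ x hx⟩
    · rw [Finset.disjoint_left]
      intro x hx hx2
      rw [mem_filter] at hx2
      have := hA x hx
      linarith [hx2.2]
    · intro x hx
      have h3 := hA x hx
      unfold dep at h3
      have h4 : max (pot F 0 1 2 - t0 - M) (min (pot F 0 1 2 - t0 - 38) (pot F 0 1 x)) =
          pot F 0 1 2 - t0 - M := by
        apply max_eq_left
        exact (min_le_right _ _).trans (by linarith)
      simp only [h4, sub_self, zero_div]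
    · intro x hx
      rw [mem_filter] at hx
      have h3 := hx.2
      unfold dep at h3
      have h4 : max (pot F 0 1 2 - t0 - M) (min (pot F 0 1 2 - t0 - 38) (pot F 0 1 x)) =
          pot F 0 1 2 - t0 - 38 := by
        rw [min_eq_left (by linarith), max_eq_right (by linarith)]
      simp only [h4]
      rw [div_eq_one_iff_eq hd38.ne']
      ring
    · rw [f8_energy (fun x => max (pot F 0 1 2 - t0 - M) (min (pot F 0 1 2 - t0 - 38)
        (pot F 0 1 x))) _ _ hd38]
      have h3 := hpot.energy_clamp hS h0 h1 h01 (a := pot F 0 1 2 - t0 - M)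
        (b := pot F 0 1 2 - t0 - 38) (by linarith)
      rw [div_le_iff₀ (by positivity)]
      calc _ ≤ _ := h3
        _ = (M - 38) * 1 := by ring
        _ ≤ (M - 38) * (κ * (M - 38)) := by gcongr
        _ = κ * (M - 38) ^ 2 := by ring
    · refine le_trans (Nat.cast_le.2 (card_le_card fun x hx => ?_)) k4
      rw [mem_sdiff, mem_filter] at hx
      rw [mem_filter]
      refine ⟨hx.1, ?_⟩
      by_contra hcon
      exact hx.2 ⟨hx.1, not_le.1 hcon⟩

end H19S
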