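import Pool.Agent.Lib.H19S.F3

/-!
# H19S, chunk F9: no big gaps
-/

namespace H19S

open Finset
open scoped ENNReal

variable {F : Finset (ℕ × ℕ × ℕ)} {c : ℕ → S2} {r : ℕ → ℝ} {a A rN r0 c0 δz c1 : ℝ}

/-- Suppose `(H, Q, g)` as in `NBig`.  `s = sqrt (|H| / (2 A n))` is in `[rN, r0/R]`; since `A s² n = |H|/2 < |H|` some vertex of
`H` is at distance `> s` from `c 0`.  If a disc of `Q` met the ball of radius `R s` around `c 0`, `lemA2'` (`ρ = s`,
`S₁ = H`, `S₂ = Q ∋ 1`) would give `1 ≤ CA R² κ`, contradiction.  So no vertex with centre within `R s` is in `Q`: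
`|vs F \ Q| ≥ a R² s² n = a R² |H| / (2A) > 6 |H|`. -/
theorem not_nbig (hG : Geo F c r a A rN r0 c0 δz c1) {R κ D1 D2 : ℝ} (hR : 1 ≤ R)
    (hRA : 13 * A ≤ a * R ^ 2) (hκ : CA * R ^ 2 * κ < 1)
    (hD1 : 2 * A * rN ^ 2 * (vs F).card ≤ D1) (hD1' : 0 < D1)
    (hD2 : D2 * R ^ 2 ≤ 2 * A * r0 ^ 2 * (vs F).card) : ¬ NBig F κ D1 D2 := by
  rintro ⟨H, Q, g, hHs, hQs, hHc, hQc, h0, h1, hgH, hgQ, hen, hQ6, hH1, hH2⟩
  have hA := hG.A_pos
  have hrN := hG.rN_pos
  have hn : (0 : ℝ) < (vs F).card := by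
    have := hG.four
    have h4 : (4 : ℝ) ≤ (vs F).card := by exact_mod_cast this
    linarith
  set n : ℝ := ((vs F).card : ℝ) with hn'
  set hc : ℝ := (H.card : ℝ) with hhc
  have hcpos : 0 < hc := lt_of_lt_of_le hD1' hH1
  have hden : 0 < 2 * A * n := by positivity
  set s : ℝ := √(hc / (2 * A * n)) with hs
  have hspos : 0 < s := Real.sqrt_pos.2 (div_pos hcpos hden)
  have hs2 : s ^ 2 = hc / (2 * A * n) := Real.sq_sqrt (div_pos hcpos hden).le
  have hs3 : A * s ^ 2 * n = hc / 2 := by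
    rw [hs2]
    field_simp
  have hr0 : 0 < r0 := lt_of_lt_of_le hrN hG.rN_le
  have hRpos : 0 < R := by linarith
  have hrNs : rN ≤ s := by
    rw [hs]
    apply Real.le_sqrt_of_sq_le
    rw [le_div_iff₀ hden]
    calc rN ^ 2 * (2 * A * n) = 2 * A * rN ^ 2 * n := by ring
      _ ≤ D1 := hD1
      _ ≤ hc := hH1
  have hRs : R * s ≤ r0 := by
    have h2 : (R * s) ^ 2 ≤ r0 ^ 2 := by
      rw [mul_pow, hs2, mul_div_assoc', div_le_iff₀ hden]
      calc R ^ 2 * hc ≤ R ^ 2 * D2 := by gcongr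
        _ = D2 * R ^ 2 := by ring
        _ ≤ 2 * A * r0 ^ 2 * n := hD2
        _ = r0 ^ 2 * (2 * A * n) := by ring
    exact (pow_le_pow_iff_left₀ (by positivity) hr0.le two_ne_zero).1 h2
  have hsRs : s ≤ R * s := by nlinarith
  have hreg := hG.reg0 s hrNs (hsRs.trans hRs)
  -- some vertex of `H` is far
  have hfar : ∃ x ∈ H, s < dist (c x) (c 0) := by
    by_contra hcon
    push Not at hcon
    have hsub : H ⊆ (vs F).filter fun w => dist (c w) (c 0) ≤ s := fun x hx =>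
      mem_filter.2 ⟨hHs hx, hcon x hx⟩
    have h2 : hc ≤ (((vs F).filter fun w => dist (c w) (c 0) ≤ s).card : ℝ) :=
      Nat.cast_le.2 (card_le_card hsub)
    have h3 := h2.trans hreg.2.1
    rw [hs3] at h3
    linarith
  obtain ⟨x1, hx1, hx1d⟩ := hfar
  by_cases hm : ∃ x ∈ Q, (Metric.closedBall (c x) (r x) ∩
      Metric.closedBall (c 0) (R * s)).Nonempty
  · have h2 := lemA2' F hG.tri hG.four c r hG.pack (c 0) s R hspos hR (by
        have := hG.h3
        linarith) (H : Set ℕ) (Q : Set ℕ) (by exact_mod_cast hHs) (by exact_mod_cast hQs) hHc hQc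
        ⟨0, h0, Metric.mem_closedBall_self (hG.pack.pos 0 hG.m0).le⟩ ⟨x1, hx1, hx1d.le⟩ hm
        ⟨1, h1, by
          have e1 := hG.far
          have e2 := hG.h2
          rw [dist_comm]
          linarith⟩ g hgH hgQ
    have hCA := one_le_CA
    have h3 : CA * R ^ 2 * energy F g ≤ CA * R ^ 2 * κ := by
      apply mul_le_mul_of_nonneg_left hen
      positivity
    linarith
  · push Not at hm
    have hreg2 := (hG.reg0 (R * s) (hrNs.trans hsRs) hRs).1
    have hsub : ((vs F).filter fun w => dist (c w) (c 0) ≤ R * s) ⊆ vs F \ Q := by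
      intro w hw
      rw [mem_filter] at hw
      rw [mem_sdiff]
      refine ⟨hw.1, fun hwQ => ?_⟩
      have h2 := hm w hwQ
      have h3 : c w ∈ Metric.closedBall (c w) (r w) ∩ Metric.closedBall (c 0) (R * s) :=
        ⟨Metric.mem_closedBall_self (hG.pack.pos w hw.1).le, Metric.mem_closedBall.2 hw.2⟩
      rw [h2] at h3
      exact h3
    have h2 : (((vs F).filter fun w => dist (c w) (c 0) ≤ R * s).card : ℝ) ≤
        ((vs F \ Q).card : ℝ) := by exact_mod_cast card_le_card hsub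
    have h3 : a * (R * s) ^ 2 * n ≤ 6 * hc := hreg2.trans (h2.trans hQ6)
    have h4 : a * (R * s) ^ 2 * n = a * R ^ 2 * (s ^ 2 * n) := by ring
    have h5 : A * (s ^ 2 * n) = hc / 2 := by rw [← hs3]; ring
    have h6 : 0 < s ^ 2 * n := by positivity
    have h7 : 13 * A * (s ^ 2 * n) ≤ a * R ^ 2 * (s ^ 2 * n) :=
      mul_le_mul_of_nonneg_right hRA h6.le
    rw [h4] at h3
    nlinarith

end H19S
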