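import Pool.Agent.Lib.H19S.Defs

/-!
# H19S: further definitions used by the interfaces between the parts
-/

namespace H19S

open Finset
open scoped ENNReal

section

variable {α : Type*} [DecidableEq α]

/-- `K` separates `v` from `u`: every connected set containing both meets `K`. -/
def Sep (F : Finset (α × α × α)) (v u : α) (K : Finset α) : Prop :=
  ∀ A : Set α, ConnIn F A → v ∈ A → u ∈ A → ∃ y ∈ K, y ∈ A

/-- Number of inner vertices of the hole of `K` at `y`. -/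
noncomputable def Mh (F : Finset (α × α × α)) (K : Finset α) (y : α) : ℕ :=
  (inner F (hole F K y)).card

open Classical in
/-- All fillings of the cycle `B` with set of inner vertices `I`: sets `R` of faces such that
`R ∪ cone o B` is a triangulation of the sphere (`o` is a label not in `vb B ∪ I`). -/
noncomputable def Fill (o : α) (B : Finset (α × α)) (I : Finset α) :
    Finset (Finset (α × α × α)) :=
  ((vb B ∪ I) ×ˢ (vb B ∪ I) ×ˢ (vb B ∪ I)).powerset.filter fun R =>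
    IsTri (R ∪ cone o B) ∧ vs R = vb B ∪ I

end

/-- Number of simple triangulations of an `ℓ`-gon with `m` unlabelled inner vertices (chords allowed,
boundary labelled), `ℓ ≥ 3`: with `k = ℓ - 3` it is
`2 (2k+3)! (4m+2k+1)! / ((k+2)! k! m! (3m+2k+3)!)`. -/
noncomputable def Zf (l m : ℕ) : ℝ :=
  2 * (2 * (l - 3) + 3).factorial * (4 * m + 2 * (l - 3) + 1).factorial /
    ((l - 3 + 2).factorial * (l - 3).factorial * m.factorial * (3 * m + 2 * (l - 3) + 3).factorial)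

/-- The stopped walks `π` started at `z = 2` used at scale `μ`: `π` is stopped at the first time when
the hole of its trace at `v = 0` has at most `μ` inner vertices, it then still has at least `η μ`
of them, the hole at `u = 1` has at least `η' n` inner vertices, and there is a certificate
`(Q, g)` that the two holes are far apart. -/
def GoodStop (F : Finset (ℕ × ℕ × ℕ)) (μ η η' Λ κ : ℝ) : Set (List ℕ) :=
  {π | π.head? = some 2 ∧ (Mh F π.toFinset 0 : ℝ) ≤ μ ∧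
    (∀ π' : List ℕ, π' <+: π → π' ≠ [] → π' ≠ π → μ < Mh F π'.toFinset 0) ∧
    0 ∈ inner F (hole F π.toFinset 0) ∧ 1 ∈ inner F (hole F π.toFinset 1) ∧
    η * μ ≤ Mh F π.toFinset 0 ∧ η' * (vs F).card ≤ Mh F π.toFinset 1 ∧
    ∃ (Q : Finset ℕ) (g : ℕ → ℝ), Q ⊆ vs F ∧ ConnIn F (Q : Set ℕ) ∧
      vs (hole F π.toFinset 1) ⊆ Q ∧ Disjoint (vs (hole F π.toFinset 0)) Q ∧
      (∀ x ∈ vs (hole F π.toFinset 0), g x = 0) ∧ (∀ x ∈ Q, g x = 1) ∧
      energy F g ≤ κ ∧ ((vs F \ Q).card : ℝ) ≤ Λ * μ}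

/-- There are connected sets `H ∋ 0`, `Q ∋ 1` far from each other (energy `≤ κ`), with `D1 ≤ |H| ≤ D2`
and with at most `6 |H|` vertices outside `Q`. -/
def NBig (F : Finset (ℕ × ℕ × ℕ)) (κ D1 D2 : ℝ) : Prop :=
  ∃ (H Q : Finset ℕ) (g : ℕ → ℝ), H ⊆ vs F ∧ Q ⊆ vs F ∧ ConnIn F (H : Set ℕ) ∧
    ConnIn F (Q : Set ℕ) ∧ 0 ∈ H ∧ 1 ∈ Q ∧ (∀ x ∈ H, g x = 0) ∧ (∀ x ∈ Q, g x = 1) ∧
    energy F g ≤ κ ∧ ((vs F \ Q).card : ℝ) ≤ 6 * H.card ∧ D1 ≤ H.card ∧ (H.card : ℝ) ≤ D2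

/-- `∑ i(x)^2` over the vertices (other than the marked ones) at depth in `[k, k+1)`; the depth of `x`
is `h z - h x`, where `h` is the potential from `v = 0` to `u = 1` and `z = 2`. -/
noncomputable def band (F : Finset (ℕ × ℕ × ℕ)) (k : ℤ) : ℝ :=
  ∑ x ∈ ((vs F) \ {0, 1, 2}).filter (fun x =>
      (k : ℝ) ≤ pot F 0 1 2 - pot F 0 1 x ∧ pot F 0 1 2 - pot F 0 1 x < k + 1),
    (thr F (pot F 0 1) x) ^ 2

/-- The typical event. -/
def Typ (F : Finset (ℕ × ℕ × ℕ)) (K0 : ℕ) (B : ℝ) (J : ℕ) : Prop :=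
  (∑ k ∈ Icc (-(K0 : ℤ)) K0, band F k ≤ B) ∧
  (∑ k ∈ Icc 1 J, band F (k : ℤ) / k ≤ B * Real.log J) ∧
  (∑ k ∈ Icc 1 J, band F (k : ℤ) ≤ B * J)

/-- `F` has no nontrivial (orientation preserving) automorphism. -/
def Asym (F : Finset (ℕ × ℕ × ℕ)) : Prop :=
  ∀ ρ : Equiv.Perm ℕ, (∀ x, x ∉ vs F → ρ x = x) → prel ρ F = F → ρ = 1

end H19S
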