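import Pool.Agent.Lib.H19S.A4e
import Pool.Agent.Lib.H19S.A5c
import Pool.Agent.Lib.H19S.A6
import Pool.Agent.Lib.H19S.Iface
import Pool.Agent.Lib.H19S.TopB

/-!
# H19S, Part G: definitions
-/

namespace H19S

open Finset
open scoped ENNReal

/-- `F` is a triangulation, `K` a nonempty connected set of vertices, `0` and `1` are interior vertices of
holes of `K` with disjoint vertex sets. -/
structure Val (F : Finset (ℕ × ℕ × ℕ)) (K : Finset ℕ) : Prop where
  tri : IsTri F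
  sub : K ⊆ vs F
  ne : K.Nonempty
  conn : ConnIn F (K : Set ℕ)
  in0 : 0 ∈ inner F (hole F K 0)
  in1 : 1 ∈ inner F (hole F K 1)
  disj : Disjoint (vs (hole F K 0)) (vs (hole F K 1))

/-- The exterior of the two holes. -/
noncomputable def ext (F : Finset (ℕ × ℕ × ℕ)) (K : Finset ℕ) : Finset (ℕ × ℕ × ℕ) :=
  (F \ hole F K 0) \ hole F K 1

/-- The exterior of the two holes and their boundaries. -/
noncomputable def key (F : Finset (ℕ × ℕ × ℕ)) (K : Finset ℕ) :
    Finset (ℕ × ℕ × ℕ) × Finset (ℕ × ℕ) × Finset (ℕ × ℕ) :=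
  (ext F K, bd (hole F K 0), bd (hole F K 1))

/-- The image family of the surgery at scale `μ` (with `Δ` additional vertices in the hole at `0`). -/
def Tk (N n : ℕ) (D1 D2 μ η η' Λ κ : ℝ) (Δ : ℕ) (F' : Finset (ℕ × ℕ × ℕ)) : Set (List ℕ) :=
  {π | Val F' π.toFinset ∧ wt (nbr F') π ≠ 0 ∧ ∃ F ∈ LabN N n, ¬ NBig F κ D1 D2 ∧
    π ∈ GoodStop F μ η η' Λ κ ∧ wt (nbr F) π ≠ 0 ∧ Val F π.toFinset ∧
    key F π.toFinset = key F' π.toFinset ∧ Mh F' π.toFinset 0 = Mh F π.toFinset 0 + Δ}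

end H19S
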