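import Pool.Agent.Lib.H19S.G0

/-!
# H19S, chunk G1a: fillings with an interior vertex are dual connected
-/

namespace H19S

open Finset

variable {α : Type*} [DecidableEq α]

/-- A simple cycle contained in a simple cycle is equal to it (closed under taking the next side). -/
theorem cyc_eq_of_subset {B B' : Finset (α × α)} (hB : IsCyc B) (hB' : IsCyc B') (h : B' ⊆ B) :
    B' = B := by
  refine Finset.Subset.antisymm h ?_
  rintro ⟨c, d⟩ hcd
  have hne : B'.Nonempty := by
    rw [← Finset.card_pos]
    have := hB'.card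
    omega
  obtain ⟨⟨a0, b0⟩, hab⟩ := hne
  have key : ∀ x, Relation.ReflTransGen (fun x y => (x, y) ∈ B) b0 x → ∃ z, (x, z) ∈ B' := by
    intro x hx
    induction hx with
    | refl => exact hB'.out (a5_vb_right hab)
    | tail _ h2 ih =>
      obtain ⟨z, hz⟩ := ih
      have := hB.outu h2 (h hz)
      subst this
      exact hB'.out (a5_vb_right hz)
  obtain ⟨z, hz⟩ := key c (hB.orbit (h hab) hcd)
  have := hB.outu hcd (h hz)
  subst this
  exact hz

/-- Let `T = R ∪ cone o B` be a triangulation of the sphere, `y` a vertex of `R` not on `B`.  Then `R` is the hole of `{o}` at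
`y`: `T` is a triangulation, `{o}` is connected, `y` is inner for `hole T {o} y` (its faces are in `R`, they do
not contain `o`); by `hole_isCyc` the boundary of this hole is a simple cycle, by `hole_bd_third` it is contained in
`B` (the link of `o`), so it is `B` (`cyc_eq_of_subset`), and `bd R = B` (`bd_of_fill`); use `region_unique`. -/
theorem fill_eq_hole {R : Finset (α × α × α)} {B : Finset (α × α)} {o y : α} (hB : IsCyc B)
    (ho : NoV o R) (hob : o ∉ vb B) (hT : IsTri (R ∪ cone o B)) (hv : vb B ⊆ vs R)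
    (hy : y ∈ vs R) (hyB : y ∉ vb B) : hole (R ∪ cone o B) {o} y = R := by
  have hS := hT.toIsSurf
  have hyo : y ≠ o := by
    rintro rfl
    obtain ⟨a, b, hab⟩ := mem_vs.1 hy
    exact (ho _ hab).1 rfl
  have hconn : ConnIn (R ∪ cone o B) (({o} : Finset α) : Set α) := by
    intro x hx z hz
    rw [Finset.mem_coe, Finset.mem_singleton] at hx hz
    subst hx hz
    exact Relation.ReflTransGen.refl
  have hosub : ({o} : Finset α) ⊆ vs (R ∪ cone o B) := by
    intro x hx
    rw [Finset.mem_singleton] at hx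
    subst hx
    have hne : B.Nonempty := by
      rw [← Finset.card_pos]
      have := hB.card
      omega
    obtain ⟨⟨a, b⟩, hab⟩ := hne
    exact mem_vs.2 ⟨b, a, a5a_mem.2 (Or.inr (Or.inr (Or.inr ⟨rfl, hab⟩)))⟩
  have hyin : y ∈ inner (R ∪ cone o B) (hole (R ∪ cone o B) {o} y) := by
    rw [inner_hole_iff hS]
    refine ⟨?_, ?_⟩
    · obtain ⟨a, b, hab⟩ := mem_vs.1 hy
      exact mem_vs.2 ⟨a, b, mem_union_left _ hab⟩
    · intro b c hbc
      have hR : (y, b, c) ∈ R := by
        rcases a5a_mem.1 hbc with h | ⟨_, h⟩ | ⟨_, h⟩ | ⟨h, _⟩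
        · exact h
        · exact absurd (a5_vb_right h) hyB
        · exact absurd (a5_vb_left h) hyB
        · exact absurd h hyo
      have h3 := ho _ hR
      rw [a4a_mem_avoid]
      simp only [Finset.mem_singleton]
      exact ⟨hbc, h3.1, h3.2.1, h3.2.2⟩
  have hcyc := hole_isCyc hT hconn hosub (Finset.singleton_nonempty o) hyin
  have hsub : bd (hole (R ∪ cone o B) {o} y) ⊆ B := by
    rintro ⟨a, b⟩ hab
    obtain ⟨k, hk, hk2⟩ := hole_bd_third hS hab
    rw [Finset.mem_singleton] at hk
    subst hk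
    rcases a5a_mem.1 hk2 with h | ⟨_, h⟩ | ⟨h, h2⟩ | ⟨h, h2⟩
    · exact absurd rfl (ho _ h).2.2
    · exact h
    · exact absurd (a5_vb_right h2) hob
    · exact absurd (a5_vb_left h2) hob
  have heq := cyc_eq_of_subset hB hcyc hsub
  have hbdR := bd_of_fill hB ho hS hv
  refine region_unique hS hole_subset' subset_union_left (hole_rotC hS) (rotC_of_fill hB ho hS) ?_ ?_
  · rw [← Finset.card_pos]
    have := hcyc.card
    omega
  · rw [heq, hbdR]

/-- Consequence (`hole_conn`): any two faces of `R` are joined inside `R`. -/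
theorem fill_conn {R : Finset (α × α × α)} {B : Finset (α × α)} {o y : α} (hB : IsCyc B)
    (ho : NoV o R) (hob : o ∉ vb B) (hT : IsTri (R ∪ cone o B)) (hv : vb B ⊆ vs R)
    (hy : y ∈ vs R) (hyB : y ∉ vb B) {s t : α × α × α} (hs : s ∈ R) (ht : t ∈ R) :
    Relation.ReflTransGen (RStep R) s t := by
  have hS := hT.toIsSurf
  have heq := fill_eq_hole hB ho hob hT hv hy hyB
  have hyin : y ∈ inner (R ∪ cone o B) (hole (R ∪ cone o B) {o} y) := by
    rw [heq]
    unfold inner
    rw [Finset.mem_filter]
    refine ⟨hy, ?_⟩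
    rintro ⟨t1, t2, t3⟩ htT h1
    simp only at h1
    subst h1
    rcases a5a_mem.1 htT with h | ⟨_, h⟩ | ⟨_, h⟩ | ⟨h, _⟩
    · exact h
    · exact absurd (a5_vb_right h) hyB
    · exact absurd (a5_vb_left h) hyB
    · subst h
      obtain ⟨a, b, hab⟩ := mem_vs.1 hy
      exact absurd rfl (ho _ hab).1
  have hs' : s ∈ hole (R ∪ cone o B) {o} y := by rw [heq]; exact hs
  have ht' : t ∈ hole (R ∪ cone o B) {o} y := by rw [heq]; exact ht
  have := hole_conn hS hyin hs' ht'
  rw [heq] at this
  exact this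

end H19S
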