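import Pool.Agent.Lib.H19S.G1a

/-!
# H19S, chunk G1b: replacing the content of a hole
-/

namespace H19S

open Finset

variable {α : Type*} [DecidableEq α] {F R' : Finset (α × α × α)} {K I' : Finset α} {y o : α}

theorem G1b_rstep_mono {R S : Finset (α × α × α)} (h : R ⊆ S) {s t : α × α × α}
    (hst : Relation.ReflTransGen (RStep R) s t) : Relation.ReflTransGen (RStep S) s t := by
  induction hst with
  | refl => exact .refl
  | tail _ h2 ih => exact ih.tail ⟨h h2.1, h2.2⟩

theorem G1b_mem_avoid {a b c : α} :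
    (a, b, c) ∈ avoid F K ↔ (a, b, c) ∈ F ∧ a ∉ K ∧ b ∉ K ∧ c ∉ K := by
  unfold avoid
  rw [mem_filter]

theorem G1b_mem_hole {t : α × α × α} :
    t ∈ hole F K y ↔ t ∈ avoid F K ∧ ∃ b c, (y, b, c) ∈ avoid F K ∧
    Relation.ReflTransGen (RStep (avoid F K)) (y, b, c) t := by
  classical
  unfold hole
  simp only [mem_filter]

theorem G1b_conn_mono {F' : Finset (α × α × α)} {A : Set α}
    (h : ∀ p ∈ A, ∀ q ∈ A, Adj F p q → Adj F' p q) (hA : ConnIn F A) : ConnIn F' A := by
  intro x hx z hz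
  have key : ∀ w, Relation.ReflTransGen (fun p q => q ∈ A ∧ Adj F p q) x w →
      w ∈ A ∧ Relation.ReflTransGen (fun p q => q ∈ A ∧ Adj F' p q) x w := by
    intro w hw
    induction hw with
    | refl => exact ⟨hx, .refl⟩
    | tail _ h2 ih => exact ⟨h2.1, ih.2.tail ⟨h2.1, h _ ih.1 _ h2.1 h2.2⟩⟩
  exact (key z (hA x hx z hz)).2

/-- Replacing the hole of `K` at `y` by another filling `R'` of its boundary with inner vertices `I' ∋ y`.
`IsTri`: `glue` (`hd`: a side of both `R'` and `F \ hole` has both endpoints in `vb (bd hole)`; by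
`hole_no_chord` it is a boundary side of `F \ hole`, i.e. its reverse is in `bd (hole) = bd R'`, but then it is not a
side of `R'`).  `K ⊆ vs F'`, `ConnIn F' K`: no face of the hole has a vertex in `K`, so all faces at `K` are
kept.  `hole F' K y = R'`: `avoid F' K = (avoid F K \ hole) ∪ R'`; `R'` is dual connected (`fill_conn`), and one cannot leave it:
at a boundary side the third vertex of the other face is in `K` (`hole_bd_third`).  Other holes: they
do not touch the boundary sides of `hole F K y` for the same reason. -/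
theorem repl (hF : IsTri F) (hK : ConnIn F (K : Set α)) (hKF : K ⊆ vs F) (hKne : K.Nonempty)
    (hy : y ∈ inner F (hole F K y)) (ho : NoV o R') (hob : o ∉ vb (bd (hole F K y)))
    (hR' : IsTri (R' ∪ cone o (bd (hole F K y)))) (hv : vs R' = vb (bd (hole F K y)) ∪ I')
    (hI : Disjoint I' (vs F \ inner F (hole F K y))) (hy' : y ∈ I') :
    IsTri ((F \ hole F K y) ∪ R') ∧
    vs ((F \ hole F K y) ∪ R') = (vs F \ inner F (hole F K y)) ∪ I' ∧
    K ⊆ vs ((F \ hole F K y) ∪ R') ∧ ConnIn ((F \ hole F K y) ∪ R') (K : Set α) ∧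
    hole ((F \ hole F K y) ∪ R') K y = R' ∧ bd R' = bd (hole F K y) ∧
    inner ((F \ hole F K y) ∪ R') R' = I' ∧
    Disjoint R' (F \ hole F K y) ∧
    ∀ y2, y2 ∈ inner F (hole F K y2) → Disjoint (hole F K y2) (hole F K y) →
      hole ((F \ hole F K y) ∪ R') K y2 = hole F K y2 ∧
      inner ((F \ hole F K y) ∪ R') (hole F K y2) = inner F (hole F K y2) := by
  classical
  have hFs := hF.toIsSurf
  have hHF : hole F K y ⊆ F := hole_subset'
  have hrc : RotC (hole F K y) := hole_rotC hFs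
  have hB : IsCyc (bd (hole F K y)) := hole_isCyc hF hK hKF hKne hy
  have hvb : vb (bd (hole F K y)) ⊆ vs R' := by rw [hv]; exact subset_union_left
  have hbd : bd R' = bd (hole F K y) := bd_of_fill hB ho hR'.toIsSurf hvb
  have hrc' : RotC R' := rotC_of_fill hB ho hR'.toIsSurf
  have hsd : vs (F \ hole F K y) = vs F \ inner F (hole F K y) := vs_sdiff hFs hHF hrc
  have hin : inner F (hole F K y) = vs (hole F K y) \ vb (bd (hole F K y)) :=
    inner_eq hFs hHF hrc
  have hrcs : RotC (F \ hole F K y) := A5b_rotC_sdiff hFs hrc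
  have hvbH : vb (bd (hole F K y)) ⊆ vs (hole F K y) := vb_bd_subset hrc
  have hvsH : vs (hole F K y) ⊆ vs F := by
    intro x hx
    obtain ⟨a, b, h⟩ := mem_vs.1 hx
    exact mem_vs.2 ⟨a, b, hHF h⟩
  have hvbE : vb (bd (hole F K y)) ⊆ vs F \ inner F (hole F K y) := by
    intro x hx
    rw [mem_sdiff]
    refine ⟨hvsH (hvbH hx), fun h => ?_⟩
    rw [hin, mem_sdiff] at h
    exact h.2 hx
  have hInt : vs R' ∩ vs (F \ hole F K y) ⊆ vb (bd (hole F K y)) := by
    intro x hx
    rw [mem_inter, hv, hsd, mem_union] at hx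
    rcases hx.1 with h | h
    · exact h
    · exact absurd hx.2 (disjoint_left.1 hI h)
  have hd : ∀ a b c d, (a, b, c) ∈ R' → (a, b, d) ∈ F \ hole F K y → False := by
    intro a b c d h1 h2
    have ha : a ∈ vb (bd (hole F K y)) :=
      hInt (mem_inter.2 ⟨mem_vs.2 ⟨_, _, h1⟩, mem_vs.2 ⟨_, _, h2⟩⟩)
    have hb : b ∈ vb (bd (hole F K y)) :=
      hInt (mem_inter.2 ⟨mem_vs.2 ⟨_, _, hrc' h1⟩, mem_vs.2 ⟨_, _, hrcs h2⟩⟩)
    obtain ⟨h3, h4⟩ := mem_sdiff.1 h2
    obtain ⟨d', hd'⟩ := hFs.opp h3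
    by_cases h5 : (b, a, d') ∈ hole F K y
    · have h6 : (b, a) ∈ bd (hole F K y) := mem_bd.2 ⟨⟨d', h5⟩, fun e he => by
        rw [hFs.uniq (hHF he) h3] at he
        exact h4 he⟩
      rw [← hbd] at h6
      exact (mem_bd.1 h6).2 c h1
    · exact hole_no_chord hF hK hKF hKne hy ha hb h3 hd' h4 h5
  have hT : IsTri ((F \ hole F K y) ∪ R') := glue hF hHF hrc hB ho hR' hInt hvb hd
  have hTs := hT.toIsSurf
  have hR'T : R' ⊆ (F \ hole F K y) ∪ R' := subset_union_right
  have hET : F \ hole F K y ⊆ (F \ hole F K y) ∪ R' := subset_union_left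
  have hKH : ∀ k ∈ K, k ∉ vs (hole F K y) := fun k hk h => hole_not_mem hFs h hk
  have hKE : K ⊆ vs F \ inner F (hole F K y) := by
    intro k hk
    rw [mem_sdiff]
    refine ⟨hKF hk, fun h => ?_⟩
    rw [hin, mem_sdiff] at h
    exact hKH k hk h.1
  have hKR' : ∀ k ∈ K, k ∉ vs R' := by
    intro k hk h
    rw [hv, mem_union] at h
    rcases h with h | h
    · exact hKH k hk (hvbH h)
    · exact disjoint_left.1 hI h (hKE hk)
  have hvsT : vs ((F \ hole F K y) ∪ R') = (vs F \ inner F (hole F K y)) ∪ I' := by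
    have e : vs ((F \ hole F K y) ∪ R') = vs (F \ hole F K y) ∪ vs R' := by
      unfold vs
      rw [image_union]
    rw [e, hsd, hv, ← union_assoc, union_eq_left.2 hvbE]
  have havR' : R' ⊆ avoid ((F \ hole F K y) ∪ R') K := by
    rintro ⟨a, b, c⟩ h
    rw [G1b_mem_avoid]
    refine ⟨hR'T h, fun hk => ?_, fun hk => ?_, fun hk => ?_⟩
    · exact hKR' _ hk (mem_vs.2 ⟨_, _, h⟩)
    · exact hKR' _ hk (mem_vs.2 ⟨_, _, hrc' h⟩)
    · exact hKR' _ hk (mem_vs.2 ⟨_, _, hrc' (hrc' h)⟩)
  have hyE : y ∉ vs F \ inner F (hole F K y) := disjoint_left.1 hI hy'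
  have hyR' : y ∈ vs R' := by rw [hv]; exact mem_union_right _ hy'
  have hdisj : Disjoint R' (F \ hole F K y) := by
    rw [disjoint_left]
    rintro ⟨a, b, c⟩ h1 h2
    exact hd a b c c h1 h2
  have hhole : hole ((F \ hole F K y) ∪ R') K y = R' := by
    apply Subset.antisymm
    · intro t ht
      obtain ⟨-, b, c, hbc, hpath⟩ := G1b_mem_hole.1 ht
      have hst : (y, b, c) ∈ R' := by
        rcases mem_union.1 (G1b_mem_avoid.1 hbc).1 with h | h
        · exact absurd (hsd ▸ mem_vs.2 ⟨_, _, h⟩) hyE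
        · exact h
      clear ht
      induction hpath with
      | refl => exact hst
      | @tail s t _ h2 ih =>
        obtain ⟨a, b, c⟩ := s
        obtain ⟨h3, h4 | ⟨d, h4⟩⟩ := h2
        · rw [h4]; exact hrc' ih
        · simp only at h4
          subst h4
          by_contra h5
          have h6 := (G1b_mem_avoid.1 h3).1
          have h7 : (b, a, d) ∈ F \ hole F K y := (mem_union.1 h6).resolve_right h5
          have h8 : (a, b) ∈ bd R' := mem_bd.2 ⟨⟨c, ih⟩, fun e he => by
            rw [hTs.uniq (hR'T he) h6] at he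
            exact h5 he⟩
          rw [hbd] at h8
          obtain ⟨k, hk, hk'⟩ := hole_bd_third hFs h8
          rw [hFs.uniq hk' (mem_sdiff.1 h7).1] at hk
          exact (G1b_mem_avoid.1 h3).2.2.2 hk
    · intro t ht
      obtain ⟨b, c, hbc⟩ := mem_vs.1 hyR'
      have hyB : y ∉ vb (bd (hole F K y)) := fun h => hyE (hvbE h)
      rw [G1b_mem_hole]
      exact ⟨havR' ht, b, c, havR' hbc,
        G1b_rstep_mono havR' (fill_conn hB ho hob hR' hvb hyR' hyB hbc ht)⟩
  refine ⟨hT, hvsT, ?_, ?_, hhole, hbd, ?_, hdisj, ?_⟩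
  · rw [hvsT]
    exact hKE.trans subset_union_left
  · apply G1b_conn_mono _ hK
    rintro p hp q hq ⟨c, hc⟩
    refine ⟨c, hET (mem_sdiff.2 ⟨hc, fun h => ?_⟩)⟩
    exact hKH p (mem_coe.1 hp) (mem_vs.2 ⟨_, _, h⟩)
  · rw [inner_eq hTs hR'T hrc', hbd, hv]
    ext x
    rw [mem_sdiff, mem_union]
    constructor
    · rintro ⟨h | h, h'⟩
      · exact absurd h h'
      · exact h
    · intro h
      exact ⟨Or.inr h, fun h' => disjoint_left.1 hI h (hvbE h')⟩
  · intro y2 hy2 hdj
    have hH2F : hole F K y2 ⊆ F := hole_subset'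
    have hrc2 : RotC (hole F K y2) := hole_rotC hFs
    have hH2E : hole F K y2 ⊆ F \ hole F K y := by
      intro t ht
      exact mem_sdiff.2 ⟨hH2F ht, disjoint_left.1 hdj ht⟩
    have hH2T : hole F K y2 ⊆ (F \ hole F K y) ∪ R' := hH2E.trans hET
    have havH2 : hole F K y2 ⊆ avoid ((F \ hole F K y) ∪ R') K := by
      rintro ⟨a, b, c⟩ h
      exact G1b_mem_avoid.2 ⟨hH2T h, (G1b_mem_avoid.1 (hole_subset h)).2⟩
    have hy2all := (inner_hole_iff hFs).1 hy2
    have hy2vs : y2 ∈ vs (hole F K y2) := (mem_filter.1 hy2).1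
    have hy2H : ∀ b c, (y2, b, c) ∈ F → (y2, b, c) ∈ hole F K y2 := by
      intro b c h
      exact (mem_filter.1 hy2).2 _ h rfl
    constructor
    · apply Subset.antisymm
      · intro t ht
        obtain ⟨-, b, c, hbc, hpath⟩ := G1b_mem_hole.1 ht
        have hst : (y2, b, c) ∈ hole F K y2 := by
          rcases mem_union.1 (G1b_mem_avoid.1 hbc).1 with h | h
          · exact hy2H _ _ (mem_sdiff.1 h).1
          · exfalso
            obtain ⟨b', c', h'⟩ := mem_vs.1 hy2vs
            have h1 : y2 ∈ vb (bd (hole F K y)) :=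
              hInt (mem_inter.2 ⟨mem_vs.2 ⟨_, _, h⟩, mem_vs.2 ⟨_, _, hH2E h'⟩⟩)
            obtain ⟨b'', c'', h''⟩ := mem_vs.1 (hvbH h1)
            exact disjoint_left.1 hdj (hy2H _ _ (hHF h'')) h''
        clear ht
        induction hpath with
        | refl => exact hst
        | @tail s t _ h2 ih =>
          obtain ⟨a, b, c⟩ := s
          obtain ⟨h3, h4 | ⟨d, h4⟩⟩ := h2
          · rw [h4]; exact hrc2 ih
          · simp only at h4
            subst h4
            obtain ⟨h5, h6⟩ := G1b_mem_avoid.1 h3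
            rcases mem_union.1 h5 with h7 | h7
            · exact hole_cross hFs ih (G1b_mem_avoid.2 ⟨(mem_sdiff.1 h7).1, h6⟩)
            · exfalso
              have h8 : (b, a) ∈ bd R' := mem_bd.2 ⟨⟨d, h7⟩, fun e he => by
                rw [hTs.uniq (hR'T he) (hH2T ih)] at he
                exact disjoint_left.1 hdisj he (hH2E ih)⟩
              rw [hbd] at h8
              obtain ⟨k, hk, hk'⟩ := hole_bd_third hFs h8
              rw [hFs.uniq hk' (hH2F ih)] at hk
              exact (G1b_mem_avoid.1 (hole_subset ih)).2.2.2 hk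
      · intro t ht
        obtain ⟨b, c, hbc⟩ := mem_vs.1 hy2vs
        rw [G1b_mem_hole]
        exact ⟨havH2 ht, b, c, havH2 hbc, G1b_rstep_mono havH2 (hole_conn hFs hy2 hbc ht)⟩
    · rw [inner_eq hTs hH2T hrc2, inner_eq hFs hH2F hrc2]

end H19S
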