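import Pool.Agent.Lib.H19S.G1b

/-!
# H19S, chunk G2: replacing the contents of the two holes
-/

namespace H19S

open Finset

variable {F : Finset (ℕ × ℕ × ℕ)} {K : Finset ℕ} {o : ℕ}

theorem G2_mem_Fill {o : ℕ} {B : Finset (ℕ × ℕ)} {I : Finset ℕ} {R : Finset (ℕ × ℕ × ℕ)} :
    R ∈ Fill o B I ↔ R ⊆ (vb B ∪ I) ×ˢ (vb B ∪ I) ×ˢ (vb B ∪ I) ∧ IsTri (R ∪ cone o B) ∧
      vs R = vb B ∪ I := by
  classical
  unfold Fill
  simp only [mem_filter, mem_powerset]

theorem G2_sub {R : Finset (ℕ × ℕ × ℕ)} {S : Finset ℕ} (hR : RotC R) (h : vs R ⊆ S) :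
    R ⊆ S ×ˢ S ×ˢ S := by
  rintro ⟨a, b, c⟩ habc
  rw [mem_product, mem_product]
  exact ⟨h (mem_vs.2 ⟨_, _, habc⟩), h (mem_vs.2 ⟨_, _, hR habc⟩), h (mem_vs.2 ⟨_, _, hR (hR habc)⟩)⟩

theorem G2_vs_hole (hF : IsSurf F) {y : ℕ} :
    vs (hole F K y) = vb (bd (hole F K y)) ∪ inner F (hole F K y) := by
  have hrc : RotC (hole F K y) := hole_rotC hF
  rw [inner_eq hF hole_subset' hrc, union_sdiff_of_subset (vb_bd_subset hrc)]

/-- The content of a hole is a filling (`hole_isCyc`, `cut_tri`, `inner_eq`). -/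
theorem hole_mem_fill (hF : IsTri F) (hK : ConnIn F (K : Set ℕ)) (hKF : K ⊆ vs F)
    (hKne : K.Nonempty) {y : ℕ} (hy : y ∈ inner F (hole F K y)) (ho : o ∉ vs F) :
    hole F K y ∈ Fill o (bd (hole F K y)) (inner F (hole F K y)) := by
  have hFs := hF.toIsSurf
  have hrc : RotC (hole F K y) := hole_rotC hFs
  rw [G2_mem_Fill]
  refine ⟨?_, cut_tri hF hole_subset' hrc (hole_isCyc hF hK hKF hKne hy) ho, G2_vs_hole hFs⟩
  rw [← G2_vs_hole hFs]
  exact G2_sub hrc Subset.rfl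

theorem G2_mem_inner {R : Finset (ℕ × ℕ × ℕ)} {x : ℕ} (hx : x ∈ vs F) :
    x ∈ inner F R ↔ ∀ a b, (x, a, b) ∈ F → (x, a, b) ∈ R := by
  unfold inner
  rw [mem_filter]
  constructor
  · rintro ⟨-, h⟩ a b hab
    exact h _ hab rfl
  · intro h
    obtain ⟨a, b, hab⟩ := mem_vs.1 hx
    refine ⟨mem_vs.2 ⟨a, b, h a b hab⟩, ?_⟩
    rintro ⟨x', a', b'⟩ h' h''
    simp only at h''
    subst h''
    exact h _ _ h'

/-- Vertices of the exterior (`vs_sdiff` twice; the two holes have disjoint vertex sets). -/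
theorem vs_ext (hV : Val F K) :
    vs (ext F K) = (vs F \ inner F (hole F K 0)) \ inner F (hole F K 1) := by
  have hFs := hV.tri.toIsSurf
  have hd := hV.disj
  ext x
  unfold ext
  constructor
  · intro hx
    obtain ⟨a, b, hab⟩ := mem_vs.1 hx
    obtain ⟨h1, h2⟩ := mem_sdiff.1 hab
    obtain ⟨h3, h4⟩ := mem_sdiff.1 h1
    have hxF : x ∈ vs F := mem_vs.2 ⟨_, _, h3⟩
    rw [mem_sdiff, mem_sdiff, G2_mem_inner hxF, G2_mem_inner hxF]
    exact ⟨⟨hxF, fun h => h4 (h _ _ h3)⟩, fun h => h2 (h _ _ h3)⟩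
  · intro hx
    rw [mem_sdiff, mem_sdiff] at hx
    obtain ⟨⟨hxF, h0⟩, h1⟩ := hx
    rw [G2_mem_inner hxF] at h0 h1
    by_cases hx0 : x ∈ vs (hole F K 0)
    · push Not at h0
      obtain ⟨a, b, hab, hn⟩ := h0
      refine mem_vs.2 ⟨a, b, mem_sdiff.2 ⟨mem_sdiff.2 ⟨hab, hn⟩, fun h => ?_⟩⟩
      exact disjoint_left.1 hd hx0 (mem_vs.2 ⟨_, _, h⟩)
    · push Not at h1
      obtain ⟨a, b, hab, hn⟩ := h1
      exact mem_vs.2 ⟨a, b, mem_sdiff.2 ⟨mem_sdiff.2 ⟨hab, fun h => hx0 (mem_vs.2 ⟨_, _, h⟩)⟩, hn⟩⟩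

/-- Symmetric version of `Val`. -/
structure G2V (F : Finset (ℕ × ℕ × ℕ)) (K : Finset ℕ) (y y2 : ℕ) : Prop where
  tri : IsTri F
  sub : K ⊆ vs F
  ne : K.Nonempty
  conn : ConnIn F (K : Set ℕ)
  iny : y ∈ inner F (hole F K y)
  iny2 : y2 ∈ inner F (hole F K y2)
  disj : Disjoint (vs (hole F K y)) (vs (hole F K y2))

theorem G2V.symm {y y2 : ℕ} (h : G2V F K y y2) : G2V F K y2 y :=
  ⟨h.tri, h.sub, h.ne, h.conn, h.iny2, h.iny, h.disj.symm⟩

theorem Val.toG2V (h : Val F K) : G2V F K 0 1 :=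
  ⟨h.tri, h.sub, h.ne, h.conn, h.in0, h.in1, h.disj⟩

theorem G2V.toVal (h : G2V F K 0 1) : Val F K :=
  ⟨h.tri, h.sub, h.ne, h.conn, h.iny, h.iny2, h.disj⟩

theorem G2_disj_of_vs {R S : Finset (ℕ × ℕ × ℕ)} (h : Disjoint (vs R) (vs S)) : Disjoint R S := by
  rw [disjoint_left]
  rintro ⟨a, b, c⟩ h1 h2
  exact disjoint_left.1 h (mem_vs.2 ⟨_, _, h1⟩) (mem_vs.2 ⟨_, _, h2⟩)

theorem G2_step {y y2 : ℕ} (hV : G2V F K y y2) {I' : Finset ℕ} {R' : Finset (ℕ × ℕ × ℕ)}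
    (ho : o ∉ vb (bd (hole F K y)) ∪ I') (hR : R' ∈ Fill o (bd (hole F K y)) I')
    (hI : Disjoint I' (vs F \ inner F (hole F K y))) (hy' : y ∈ I') :
    ∃ F' : Finset (ℕ × ℕ × ℕ), G2V F' K y y2 ∧ hole F' K y = R' ∧ hole F' K y2 = hole F K y2 ∧
      inner F' R' = I' ∧ inner F' (hole F K y2) = inner F (hole F K y2) ∧
      bd R' = bd (hole F K y) ∧
      (F' \ hole F' K y) \ hole F' K y2 = (F \ hole F K y) \ hole F K y2 ∧
      vs F' = (vs F \ inner F (hole F K y)) ∪ I' := by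
  classical
  obtain ⟨hR1, hR2, hR3⟩ := G2_mem_Fill.1 hR
  have hNo : NoV o R' := by
    rintro ⟨a, b, c⟩ h
    have := hR1 h
    rw [mem_product, mem_product] at this
    exact ⟨fun h => ho (h ▸ this.1), fun h => ho (h ▸ this.2.1), fun h => ho (h ▸ this.2.2)⟩
  have hob : o ∉ vb (bd (hole F K y)) := fun h => ho (mem_union_left _ h)
  obtain ⟨h1, h2, h3, h4, h5, h6, h7, h8, h9⟩ :=
    repl hV.tri hV.conn hV.sub hV.ne hV.iny hNo hob hR2 hR3 hI hy'
  have hdj : Disjoint (hole F K y2) (hole F K y) := (G2_disj_of_vs hV.disj).symm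
  obtain ⟨h10, h11⟩ := h9 y2 hV.iny2 hdj
  have hFs := hV.tri.toIsSurf
  refine ⟨(F \ hole F K y) ∪ R', ⟨h1, h3, hV.ne, h4, ?_, ?_, ?_⟩, h5, h10, h7, h11, h6, ?_, h2⟩
  · rw [h5, h7]; exact hy'
  · rw [h10, h11]; exact hV.iny2
  · rw [h5, h10, hR3, disjoint_union_left]
    constructor
    · exact Disjoint.mono_left (by rw [G2_vs_hole hFs]; exact subset_union_left) hV.disj
    · rw [disjoint_left]
      intro x hx hx'
      apply disjoint_left.1 hI hx
      rw [mem_sdiff]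
      constructor
      · obtain ⟨a, b, h⟩ := mem_vs.1 hx'
        exact mem_vs.2 ⟨a, b, hole_subset' h⟩
      · intro h
        refine disjoint_left.1 hV.disj ?_ hx'
        rw [G2_vs_hole hFs]
        exact mem_union_right _ h
  · rw [h5, h10, union_sdiff_cancel_right h8.symm]

theorem G2_decomp : F = ext F K ∪ hole F K 0 ∪ hole F K 1 := by
  ext t
  unfold ext
  rw [mem_union, mem_union, mem_sdiff, mem_sdiff]
  constructor
  · intro h
    by_cases h0 : t ∈ hole F K 0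
    · exact Or.inl (Or.inr h0)
    by_cases h1 : t ∈ hole F K 1
    · exact Or.inr h1
    exact Or.inl (Or.inl ⟨⟨h, h0⟩, h1⟩)
  · rintro ((⟨⟨h, -⟩, -⟩ | h) | h)
    · exact h
    · exact hole_subset' h
    · exact hole_subset' h

theorem G2_vb_ext (hV : Val F K) :
    vb (bd (hole F K 0)) ⊆ vs (ext F K) ∧ vb (bd (hole F K 1)) ⊆ vs (ext F K) := by
  have hFs := hV.tri.toIsSurf
  have hrc0 : RotC (hole F K 0) := hole_rotC hFs
  have hrc1 : RotC (hole F K 1) := hole_rotC hFs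
  have e0 := inner_eq hFs (hole_subset' (K := K) (y := 0)) hrc0
  have e1 := inner_eq hFs (hole_subset' (K := K) (y := 1)) hrc1
  have hvs : ∀ {y x : ℕ}, x ∈ vs (hole F K y) → x ∈ vs F := by
    intro y x hx
    obtain ⟨a, b, h⟩ := mem_vs.1 hx
    exact mem_vs.2 ⟨a, b, hole_subset' h⟩
  rw [vs_ext hV, e0, e1]
  constructor
  · intro x hx
    have hx0 := vb_bd_subset hrc0 hx
    rw [mem_sdiff, mem_sdiff, mem_sdiff, mem_sdiff]
    refine ⟨⟨hvs hx0, fun h => h.2 hx⟩, fun h => ?_⟩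
    exact disjoint_left.1 hV.disj hx0 h.1
  · intro x hx
    have hx0 := vb_bd_subset hrc1 hx
    rw [mem_sdiff, mem_sdiff, mem_sdiff, mem_sdiff]
    refine ⟨⟨hvs hx0, fun h => ?_⟩, fun h => h.2 hx⟩
    exact disjoint_left.1 hV.disj h.1 hx0

theorem G2_relab_id {f : ℕ → ℕ} {S : Finset (ℕ × ℕ × ℕ)}
    (h : ∀ a b c, (a, b, c) ∈ S → f a = a ∧ f b = b ∧ f c = c) : relab f S = S := by
  ext ⟨a, b, c⟩
  rw [mem_relab]
  constructor
  · rintro ⟨a', b', c', h1, h2⟩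
    obtain ⟨e1, e2, e3⟩ := h _ _ _ h1
    rw [e1, e2, e3] at h2
    rw [h2]; exact h1
  · intro h1
    obtain ⟨e1, e2, e3⟩ := h _ _ _ h1
    exact ⟨a, b, c, h1, by rw [e1, e2, e3]⟩

/-- Fresh labels for the content of the hole at `1`. -/
theorem G2_fresh (hV : Val F K) (M : ℕ) (hM : ∀ x ∈ vs F, x < M) :
    ∃ (o' : ℕ) (I' : Finset ℕ) (R' : Finset (ℕ × ℕ × ℕ)), o' ∉ vb (bd (hole F K 1)) ∪ I' ∧
      R' ∈ Fill o' (bd (hole F K 1)) I' ∧ 1 ∈ I' ∧ ∀ x ∈ I', x = 1 ∨ M ≤ x := by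
  classical
  have hFs := hV.tri.toIsSurf
  have hrc : RotC (hole F K 1) := hole_rotC hFs
  have hvs : ∀ {x : ℕ}, x ∈ vs (hole F K 1) → x ∈ vs F := by
    intro x hx
    obtain ⟨a, b, h⟩ := mem_vs.1 hx
    exact mem_vs.2 ⟨a, b, hole_subset' h⟩
  have e1 := inner_eq hFs (hole_subset' (K := K) (y := 1)) hrc
  set f : ℕ → ℕ := fun x => if x ∈ inner F (hole F K 1) ∧ x ≠ 1 then x + M else x with hf
  have hfix : ∀ x, x ∉ inner F (hole F K 1) → f x = x := by
    intro x hx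
    simp only [hf]
    rw [if_neg (fun h => hx h.1)]
  have hf1 : f 1 = 1 := by
    simp only [hf]
    rw [if_neg (fun h => h.2 rfl)]
  have hin : ∀ x ∈ inner F (hole F K 1), x < M := by
    intro x hx
    rw [e1, mem_sdiff] at hx
    exact hM x (hvs hx.1)
  have h2M : 2 * M ∉ vs F := fun h => by have := hM _ h; omega
  have h2Mi : 2 * M ∉ inner F (hole F K 1) := fun h => by have := hin _ h; omega
  have hvb : ∀ x ∈ vb (bd (hole F K 1)), x ∉ inner F (hole F K 1) := by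
    intro x hx h
    rw [e1, mem_sdiff] at h
    exact h.2 hx
  have hfill := hole_mem_fill hV.tri hV.conn hV.sub hV.ne hV.in1 h2M
  obtain ⟨g1, g2, g3⟩ := G2_mem_Fill.1 hfill
  have hinj : Set.InjOn f (vs (hole F K 1 ∪ cone (2 * M) (bd (hole F K 1)))) := by
    have hlt : ∀ x ∈ vs (hole F K 1 ∪ cone (2 * M) (bd (hole F K 1))), x < M ∨ x = 2 * M := by
      intro x hx
      rw [vs_union_cone hrc (hole_isCyc hV.tri hV.conn hV.sub hV.ne hV.in1), mem_insert] at hx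
      rcases hx with h | h
      · exact Or.inr h
      · exact Or.inl (hM _ (hvs h))
    intro x hx x' hx' he
    have hx1 := hlt x (mem_coe.1 hx)
    have hx2 := hlt x' (mem_coe.1 hx')
    simp only [hf] at he
    by_cases c1 : x ∈ inner F (hole F K 1) ∧ x ≠ 1
    · have d1 := hin _ c1.1
      by_cases c2 : x' ∈ inner F (hole F K 1) ∧ x' ≠ 1
      · rw [if_pos c1, if_pos c2] at he; omega
      · rw [if_pos c1, if_neg c2] at he; omega
    · by_cases c2 : x' ∈ inner F (hole F K 1) ∧ x' ≠ 1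
      · have d2 := hin _ c2.1
        rw [if_neg c1, if_pos c2] at he; omega
      · rw [if_neg c1, if_neg c2] at he; exact he
  have hrel : relab f (hole F K 1 ∪ cone (2 * M) (bd (hole F K 1))) =
      relab f (hole F K 1) ∪ cone (2 * M) (bd (hole F K 1)) := by
    have : relab f (hole F K 1 ∪ cone (2 * M) (bd (hole F K 1))) =
        relab f (hole F K 1) ∪ relab f (cone (2 * M) (bd (hole F K 1))) := by
      unfold relab; rw [image_union]
    rw [this]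
    congr 1
    apply G2_relab_id
    intro a b c habc
    obtain ⟨p, q, hpq, h⟩ := mem_cone.1 habc
    have hp : f p = p := hfix p (hvb p (A5b_mem_vb.2 (Or.inl ⟨q, hpq⟩)))
    have hq : f q = q := hfix q (hvb q (A5b_mem_vb.2 (Or.inr ⟨p, hpq⟩)))
    have hm : f (2 * M) = 2 * M := hfix _ h2Mi
    rcases h with h | h | h <;>
    · simp only [Prod.mk.injEq] at h
      obtain ⟨rfl, rfl, rfl⟩ := h
      exact ⟨by assumption, by assumption, by assumption⟩
  have htri := hV.tri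
  have hT : IsTri (relab f (hole F K 1) ∪ cone (2 * M) (bd (hole F K 1))) := by
    rw [← hrel]
    exact g2.relab hinj
  have hvsR : vs (relab f (hole F K 1)) =
      vb (bd (hole F K 1)) ∪ (inner F (hole F K 1)).image f := by
    rw [vs_relab, g3, image_union]
    congr 1
    ext x
    rw [mem_image]
    constructor
    · rintro ⟨z, hz, rfl⟩
      rw [hfix z (hvb z hz)]; exact hz
    · intro hx
      exact ⟨x, hx, hfix x (hvb x hx)⟩
  have hrc' : RotC (relab f (hole F K 1)) := by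
    intro a b c h
    obtain ⟨a', b', c', h', he⟩ := mem_relab.1 h
    simp only [Prod.mk.injEq] at he
    obtain ⟨rfl, rfl, rfl⟩ := he
    exact mem_relab.2 ⟨b', c', a', hrc h', rfl⟩
  refine ⟨2 * M, (inner F (hole F K 1)).image f, relab f (hole F K 1), ?_, ?_, ?_, ?_⟩
  · rw [mem_union]
    rintro (h | h)
    · exact h2M (hvs (vb_bd_subset hrc h))
    · obtain ⟨z, hz, hz'⟩ := mem_image.1 h
      have := hin z hz
      simp only [hf] at hz'
      split_ifs at hz' <;> omega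
  · rw [G2_mem_Fill]
    refine ⟨?_, hT, hvsR⟩
    rw [← hvsR]
    exact G2_sub hrc' Subset.rfl
  · exact mem_image.2 ⟨1, hV.in1, hf1⟩
  · intro x hx
    obtain ⟨z, hz, rfl⟩ := mem_image.1 hx
    by_cases h : z = 1
    · left; rw [h]; exact hf1
    · right
      simp only [hf]
      rw [if_pos ⟨hz, h⟩]; omega

/-- Apply `repl` at `0`, then at `1`. -/
theorem repl2 (hV : Val F K) {Iv Iu : Finset ℕ} {Rv Ru : Finset (ℕ × ℕ × ℕ)}
    (hov : o ∉ vs (ext F K)) (hoIv : o ∉ Iv) (hoIu : o ∉ Iu)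
    (hv : Rv ∈ Fill o (bd (hole F K 0)) Iv) (hu : Ru ∈ Fill o (bd (hole F K 1)) Iu)
    (h0 : 0 ∈ Iv) (h1 : 1 ∈ Iu) (hd : Disjoint Iv Iu) (hdv : Disjoint Iv (vs (ext F K)))
    (hdu : Disjoint Iu (vs (ext F K))) :
    Val (ext F K ∪ Rv ∪ Ru) K ∧ hole (ext F K ∪ Rv ∪ Ru) K 0 = Rv ∧
    hole (ext F K ∪ Rv ∪ Ru) K 1 = Ru ∧ inner (ext F K ∪ Rv ∪ Ru) Rv = Iv ∧
    inner (ext F K ∪ Rv ∪ Ru) Ru = Iu ∧ key (ext F K ∪ Rv ∪ Ru) K = key F K ∧
    vs (ext F K ∪ Rv ∪ Ru) = vs (ext F K) ∪ Iv ∪ Iu := by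
  classical
  have hFs := hV.tri.toIsSurf
  obtain ⟨hb0, hb1⟩ := G2_vb_ext hV
  set S := vs F ∪ Iv ∪ Iu with hS
  set M := S.sup id + 1 with hM
  have hSM : ∀ x ∈ S, x < M := by
    intro x hx
    have : x ≤ S.sup id := le_sup (f := id) hx
    omega
  obtain ⟨o', I1, R1, f1, f2, f3, f4⟩ := G2_fresh hV M
    (fun x hx => hSM x (mem_union_left _ (mem_union_left _ hx)))
  -- step 0: fresh labels in the hole at `1`
  have hI1 : Disjoint I1 (vs F \ inner F (hole F K 1)) := by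
    rw [disjoint_left]
    intro x hx hx'
    obtain ⟨hx1, hx2⟩ := mem_sdiff.1 hx'
    rcases f4 x hx with rfl | h
    · exact hx2 hV.in1
    · have := hSM x (mem_union_left _ (mem_union_left _ hx1)); omega
  obtain ⟨F1, hV1, a1, a2, a3, a4, a5, a6, a7⟩ := G2_step hV.toG2V.symm f1 f2 hI1 f3
  -- step A
  have hoA : o ∉ vb (bd (hole F1 K 0)) ∪ Iv := by
    rw [a2, mem_union]
    rintro (h | h)
    · exact hov (hb0 h)
    · exact hoIv h
  have hIv : Disjoint Iv (vs F1 \ inner F1 (hole F1 K 0)) := by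
    rw [disjoint_left]
    intro x hx hx'
    rw [a2, a4, a7, mem_sdiff, mem_union] at hx'
    obtain ⟨h | h, h'⟩ := hx'
    · apply disjoint_left.1 hdv hx
      rw [vs_ext hV]
      exact mem_sdiff.2 ⟨mem_sdiff.2 ⟨(mem_sdiff.1 h).1, h'⟩, (mem_sdiff.1 h).2⟩
    · rcases f4 x h with rfl | h3
      · exact disjoint_left.1 hd hx h1
      · have := hSM x (mem_union_left _ (mem_union_right _ hx)); omega
  obtain ⟨F2, hV2, b1, b2, b3, b4, b5, b6, b7⟩ := G2_step hV1.symm hoA (by rw [a2]; exact hv) hIv h0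
  -- step B
  have hoB : o ∉ vb (bd (hole F2 K 1)) ∪ Iu := by
    rw [b2, a1, a5, mem_union]
    rintro (h | h)
    · exact hov (hb1 h)
    · exact hoIu h
  have hIu : Disjoint Iu (vs F2 \ inner F2 (hole F2 K 1)) := by
    rw [disjoint_left]
    intro x hx hx'
    rw [b2, b4, a1, a3, b7, a2, a4, a7, mem_sdiff, mem_union, mem_sdiff, mem_union] at hx'
    obtain ⟨⟨h | h, h'⟩ | h, h''⟩ := hx'
    · apply disjoint_left.1 hdu hx
      rw [vs_ext hV]
      exact mem_sdiff.2 ⟨mem_sdiff.2 ⟨(mem_sdiff.1 h).1, h'⟩, (mem_sdiff.1 h).2⟩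
    · exact h'' h
    · exact disjoint_left.1 hd h hx
  obtain ⟨F3, hV3, c1, c2, c3, c4, c5, c6, c7⟩ := G2_step hV2.symm hoB
    (by rw [b2, a1, a5]; exact hu) hIu h1
  -- conclusion
  have hext : ext F3 K = ext F K := by
    unfold ext
    rw [sdiff_right_comm, c6, sdiff_right_comm, b6, sdiff_right_comm, a6, sdiff_right_comm]
  have hh0 : hole F3 K 0 = Rv := by rw [c2, b1]
  have hG : ext F K ∪ Rv ∪ Ru = F3 := by
    conv_rhs => rw [G2_decomp (F := F3) (K := K)]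
    rw [hext, hh0, c1]
  rw [hG]
  refine ⟨hV3.symm.toVal, hh0, c1, ?_, c3, ?_, ?_⟩
  · rw [← b3, ← b1]; exact c4
  · unfold key
    rw [hext, hh0, c1, b5, a2, c5, b2, a1, a5]
  · rw [← hG]
    have e : vs (ext F K ∪ Rv ∪ Ru) = vs (ext F K) ∪ vs Rv ∪ vs Ru := by
      unfold vs
      rw [image_union, image_union]
    rw [e, (G2_mem_Fill.1 hv).2.2, (G2_mem_Fill.1 hu).2.2]
    ext x
    simp only [mem_union]
    constructor
    · rintro ((h | h | h) | h | h)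
      · exact Or.inl (Or.inl h)
      · exact Or.inl (Or.inl (hb0 h))
      · exact Or.inl (Or.inr h)
      · exact Or.inl (Or.inl (hb1 h))
      · exact Or.inr h
    · rintro ((h | h) | h)
      · exact Or.inl (Or.inl h)
      · exact Or.inl (Or.inr (Or.inr h))
      · exact Or.inr (Or.inr h)

end H19S
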