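import Pool.Agent.Lib.H19S.G2

/-!
# H19S, chunk G3: number of completions of a given exterior
-/

namespace H19S

open Finset

theorem G3_pairs {A : Finset ℕ} {m m' : ℕ} (h0 : 0 ∈ A) (h1 : 1 ∈ A) (hm : 1 ≤ m) (hm' : 1 ≤ m') :
    ((A.powerset ×ˢ A.powerset).filter (fun p : Finset ℕ × Finset ℕ =>
      0 ∈ p.1 ∧ 1 ∈ p.2 ∧ p.1.card = m ∧ p.2.card = m' ∧ Disjoint p.1 p.2)).card =
      (A.card - 2).choose (m - 1) * (A.card - 2 - (m - 1)).choose (m' - 1) := by
  classical
  set A' := (A.erase 0).erase 1 with hA'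
  have hA'c : A'.card = A.card - 2 := by
    rw [hA', card_erase_of_mem (mem_erase.2 ⟨one_ne_zero, h1⟩), card_erase_of_mem h0]
    omega
  have h0' : 0 ∉ A' := by simp [hA']
  have h1' : 1 ∉ A' := by simp [hA']
  have hsub : A' ⊆ A := (erase_subset _ _).trans (erase_subset _ _)
  have key : ((A.powerset ×ˢ A.powerset).filter (fun p : Finset ℕ × Finset ℕ =>
      0 ∈ p.1 ∧ 1 ∈ p.2 ∧ p.1.card = m ∧ p.2.card = m' ∧ Disjoint p.1 p.2)).card =
      ((powersetCard (m - 1) A').sigma (fun J => powersetCard (m' - 1) (A' \ J))).card := by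
    apply card_nbij' (fun p => (⟨p.1.erase 0, p.2.erase 1⟩ : Σ _ : Finset ℕ, Finset ℕ))
      (fun q => (insert 0 q.1, insert 1 q.2))
    · rintro ⟨I, J⟩ h
      have h := mem_coe.1 h
      simp only [mem_filter, mem_product, mem_powerset] at h
      obtain ⟨⟨hI, hJ⟩, hI0, hJ1, hIc, hJc, hd⟩ := h
      have hI1 : 1 ∉ I := fun h => disjoint_left.1 hd h hJ1
      have hJ0 : 0 ∉ J := fun h => disjoint_left.1 hd hI0 h
      apply mem_coe.2
      simp only [mem_sigma, mem_powersetCard]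
      refine ⟨⟨?_, ?_⟩, ?_, ?_⟩
      · intro x hx
        obtain ⟨hx0, hx⟩ := mem_erase.1 hx
        exact mem_erase.2 ⟨fun h => hI1 (h ▸ hx), mem_erase.2 ⟨hx0, hI hx⟩⟩
      · rw [card_erase_of_mem hI0, hIc]
      · intro x hx
        obtain ⟨hx1, hx⟩ := mem_erase.1 hx
        refine mem_sdiff.2 ⟨mem_erase.2 ⟨hx1, mem_erase.2 ⟨fun h => hJ0 (h ▸ hx), hJ hx⟩⟩, ?_⟩
        intro h
        exact disjoint_left.1 hd (mem_of_mem_erase h) hx
      · rw [card_erase_of_mem hJ1, hJc]
    · rintro ⟨I, J⟩ h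
      have h := mem_coe.1 h
      simp only [mem_sigma, mem_powersetCard] at h
      obtain ⟨⟨hI, hIc⟩, hJ, hJc⟩ := h
      have hJ' : J ⊆ A' := hJ.trans sdiff_subset
      apply mem_coe.2
      simp only [mem_filter, mem_product, mem_powerset]
      have hI0 : 0 ∉ I := fun h => h0' (hI h)
      have hI1 : 1 ∉ I := fun h => h1' (hI h)
      have hJ0 : 0 ∉ J := fun h => h0' (hJ' h)
      have hJ1 : 1 ∉ J := fun h => h1' (hJ' h)
      refine ⟨⟨insert_subset h0 (hI.trans hsub), insert_subset h1 (hJ'.trans hsub)⟩,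
        mem_insert_self _ _, mem_insert_self _ _, ?_, ?_, ?_⟩
      · rw [card_insert_of_notMem hI0, hIc]; omega
      · rw [card_insert_of_notMem hJ1, hJc]; omega
      · rw [disjoint_left]
        intro x hx hx'
        rcases mem_insert.1 hx with rfl | hx
        · rcases mem_insert.1 hx' with h | h
          · exact zero_ne_one h
          · exact hJ0 h
        · rcases mem_insert.1 hx' with rfl | h
          · exact hI1 hx
          · exact (mem_sdiff.1 (hJ h)).2 hx
    · rintro ⟨I, J⟩ h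
      have h := mem_coe.1 h
      simp only [mem_filter, mem_product, mem_powerset] at h
      obtain ⟨⟨hI, hJ⟩, hI0, hJ1, hIc, hJc, hd⟩ := h
      simp only [insert_erase hI0, insert_erase hJ1]
    · rintro ⟨I, J⟩ h
      have h := mem_coe.1 h
      simp only [mem_sigma, mem_powersetCard] at h
      obtain ⟨⟨hI, hIc⟩, hJ, hJc⟩ := h
      have hJ' : J ⊆ A' := hJ.trans sdiff_subset
      have hI0 : 0 ∉ I := fun h => h0' (hI h)
      have hJ1 : 1 ∉ J := fun h => h1' (hJ' h)
      simp only [erase_insert hI0, erase_insert hJ1]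
  rw [key, card_sigma]
  have hfib : ∀ J ∈ powersetCard (m - 1) A', (powersetCard (m' - 1) (A' \ J)).card =
      (A.card - 2 - (m - 1)).choose (m' - 1) := by
    intro J hJ
    obtain ⟨hJ1, hJ2⟩ := mem_powersetCard.1 hJ
    rw [card_powersetCard, card_sdiff_of_subset hJ1, hA'c, hJ2]
  rw [sum_congr rfl hfib, sum_const, card_powersetCard, hA'c, smul_eq_mul]

theorem G3_num {c m m' : ℕ} (hm : 1 ≤ m) (hm' : 1 ≤ m') (hle : m + m' ≤ c) :
    (((c - 2).choose (m - 1) * (c - 2 - (m - 1)).choose (m' - 1) : ℕ) : ℝ) *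
      ((m.factorial : ℝ) * m'.factorial) = (c - 2).factorial / (c - (m + m')).factorial * m * m' := by
  obtain ⟨p, rfl⟩ : ∃ p, m = p + 1 := ⟨m - 1, by omega⟩
  obtain ⟨p', rfl⟩ : ∃ p', m' = p' + 1 := ⟨m' - 1, by omega⟩
  obtain ⟨e, rfl⟩ : ∃ e, c = e + p + p' + 2 := ⟨c - p - p' - 2, by omega⟩
  have e1 : e + p + p' + 2 - 2 = (e + p') + p := by omega
  have e2 : e + p + p' + 2 - (p + 1 + (p' + 1)) = e := by omega
  have e3 : e + p' + p - p = e + p' := by omega
  rw [e1, e2]
  simp only [Nat.add_sub_cancel]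
  have h1 := Nat.add_choose_mul_factorial_mul_factorial (e + p') p
  have h2 := Nat.add_choose_mul_factorial_mul_factorial e p'
  have h1' : (((e + p' + p).choose p : ℕ) : ℝ) * (e + p').factorial * p.factorial =
    ((e + p' + p).factorial : ℕ) := by exact_mod_cast h1
  have h2' : (((e + p').choose p' : ℕ) : ℝ) * e.factorial * p'.factorial =
    ((e + p').factorial : ℕ) := by exact_mod_cast h2
  have hne : ((e.factorial : ℕ) : ℝ) ≠ 0 := by exact_mod_cast Nat.factorial_ne_zero e
  rw [Nat.factorial_succ p, Nat.factorial_succ p']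
  push_cast
  rw [← h1', ← h2']
  field_simp

theorem G3_vs_split {F : Finset (ℕ × ℕ × ℕ)} {K : Finset ℕ} (hV : Val F K) :
    Disjoint (vs (ext F K)) (inner F (hole F K 0)) ∧ Disjoint (vs (ext F K)) (inner F (hole F K 1)) ∧
    Disjoint (inner F (hole F K 0)) (inner F (hole F K 1)) ∧
    vs F = vs (ext F K) ∪ inner F (hole F K 0) ∪ inner F (hole F K 1) := by
  have hsub : ∀ {y x : ℕ}, x ∈ inner F (hole F K y) → x ∈ vs (hole F K y) := by
    intro y x hx
    exact (mem_filter.1 hx).1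
  have hvs : ∀ {y x : ℕ}, x ∈ vs (hole F K y) → x ∈ vs F := by
    intro y x hx
    obtain ⟨a, b, h⟩ := mem_vs.1 hx
    exact mem_vs.2 ⟨a, b, hole_subset' h⟩
  rw [vs_ext hV]
  refine ⟨?_, ?_, ?_, ?_⟩
  · rw [disjoint_left]
    intro x hx h
    exact (mem_sdiff.1 (mem_sdiff.1 hx).1).2 h
  · rw [disjoint_left]
    intro x hx h
    exact (mem_sdiff.1 hx).2 h
  · rw [disjoint_left]
    intro x hx h
    exact disjoint_left.1 hV.disj (hsub hx) (hsub h)
  · ext x
    simp only [mem_union, mem_sdiff]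
    constructor
    · intro h
      by_cases h0 : x ∈ inner F (hole F K 0)
      · exact Or.inl (Or.inr h0)
      by_cases h1 : x ∈ inner F (hole F K 1)
      · exact Or.inr h1
      exact Or.inl (Or.inl ⟨⟨h, h0⟩, h1⟩)
    · rintro ((⟨⟨h, -⟩, -⟩ | h) | h)
      · exact h
      · exact hvs (hsub h)
      · exact hvs (hsub h)

theorem G3_mem_LabN {N n : ℕ} {F : Finset (ℕ × ℕ × ℕ)} :
    F ∈ LabN N n ↔ F ⊆ range N ×ˢ range N ×ˢ range N ∧ IsTri F ∧ {0, 1, 2} ⊆ vs F ∧
      (vs F).card = n := by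
  classical
  unfold LabN
  simp only [mem_filter, mem_powerset]

/-- Number of triangulations `F ∈ LabN N n` with a given key (realised by `F0`) and `m` inner vertices in the hole at
`0`, `a = |vs (ext F0 K)|`, `n = a + m + m'`.  By `hole_mem_fill` and `repl2` (with `o = N`, which is not a label),
`F ↦ (Iv, Iu, Rv, Ru)` is a bijection onto the quadruples with `Iv, Iu ⊆ range N \ vs (ext F0 K)` disjoint, `0 ∈ Iv`,
`1 ∈ Iu`, `|Iv| = m`, `|Iu| = m'`, `Rv ∈ Fill N Bv Iv`, `Ru ∈ Fill N Bu Iu`.  There are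
`binom(N-a-2, m-1) * binom(N-a-1-m, m'-1)` pairs `(Iv, Iu)` and `m! Zf(|Bv|,m) * m'! Zf(|Bu|,m')` fillings
(`fill_card`); the product is the right hand side.  (`F = ext F ∪ hole ∪ hole`.) -/
theorem count_comp {F0 : Finset (ℕ × ℕ × ℕ)} {K : Finset ℕ} (hV : Val F0 K) (h2 : 2 ∈ K)
    {N m m' : ℕ} (hN : vs (ext F0 K) ⊆ range N) (hm : 1 ≤ m) (hm' : 1 ≤ m')
    (hle : (vs (ext F0 K)).card + m + m' ≤ N) :
    ((by classical exact ((LabN N ((vs (ext F0 K)).card + m + m')).filter (fun F =>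
        Val F K ∧ key F K = key F0 K ∧ Mh F K 0 = m)).card : ℕ) : ℝ) =
      (N - (vs (ext F0 K)).card - 2).factorial /
        (N - ((vs (ext F0 K)).card + m + m')).factorial * m * m' *
        Zf (bd (hole F0 K 0)).card m * Zf (bd (hole F0 K 1)).card m' := by
  classical
  set E := ext F0 K with hE
  set a := (vs E).card with ha
  set B0 := bd (hole F0 K 0) with hB0
  set B1 := bd (hole F0 K 1) with hB1
  set A := range N \ vs E with hA
  obtain ⟨d1, d2, d3, d4⟩ := G3_vs_split hV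
  have hAc : A.card = N - a := by
    rw [hA, card_sdiff_of_subset hN, card_range]
  have h0A : 0 ∈ A := by
    rw [hA, mem_sdiff, mem_range]
    exact ⟨by omega, fun h => disjoint_left.1 d1 h hV.in0⟩
  have h1A : 1 ∈ A := by
    rw [hA, mem_sdiff, mem_range]
    exact ⟨by omega, fun h => disjoint_left.1 d2 h hV.in1⟩
  set pairs := (A.powerset ×ˢ A.powerset).filter (fun p : Finset ℕ × Finset ℕ =>
      0 ∈ p.1 ∧ 1 ∈ p.2 ∧ p.1.card = m ∧ p.2.card = m' ∧ Disjoint p.1 p.2) with hpairs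
  have hNE : N ∉ vs E := fun h => by have := mem_range.1 (hN h); omega
  have hNA : N ∉ A := by
    rw [hA, mem_sdiff, mem_range]
    exact fun h => lt_irrefl _ h.1
  have hcyc0 : IsCyc B0 := hole_isCyc hV.tri hV.conn hV.sub hV.ne hV.in0
  have hcyc1 : IsCyc B1 := hole_isCyc hV.tri hV.conn hV.sub hV.ne hV.in1
  obtain ⟨hvb0, hvb1⟩ := G2_vb_ext hV
  -- the bijection
  have hcard : ((LabN N (a + m + m')).filter (fun F =>
        Val F K ∧ key F K = key F0 K ∧ Mh F K 0 = m)).card =
      (pairs.sigma (fun p => Fill N B0 p.1 ×ˢ Fill N B1 p.2)).card := by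
    apply card_nbij'
      (fun F => (⟨(inner F (hole F K 0), inner F (hole F K 1)), (hole F K 0, hole F K 1)⟩ :
        Σ _ : Finset ℕ × Finset ℕ, Finset (ℕ × ℕ × ℕ) × Finset (ℕ × ℕ × ℕ)))
      (fun q => E ∪ q.2.1 ∪ q.2.2)
    · intro F h
      have h := mem_coe.1 h
      rw [mem_filter, G3_mem_LabN] at h
      obtain ⟨⟨hF1, hF2, hF3, hF4⟩, hVF, hkey, hMh⟩ := h
      simp only [key, Prod.mk.injEq] at hkey
      obtain ⟨hk1, hk2, hk3⟩ := hkey
      have hk1 : ext F K = E := hk1
      obtain ⟨e1, e2, e3, e4⟩ := G3_vs_split hVF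
      have hvsN : ∀ x ∈ vs F, x < N := by
        intro x hx
        obtain ⟨b, c, hbc⟩ := mem_vs.1 hx
        have := hF1 hbc
        rw [mem_product] at this
        exact mem_range.1 this.1
      have hNF : N ∉ vs F := fun h => lt_irrefl _ (hvsN N h)
      have hc := hF4
      rw [e4, card_union_of_disjoint (disjoint_union_left.2 ⟨e2, e3⟩), card_union_of_disjoint e1,
        hk1] at hc
      have hm0 : (inner F (hole F K 0)).card = m := hMh
      have hm1 : (inner F (hole F K 1)).card = m' := by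
        rw [hm0] at hc
        omega
      have hsub0 : inner F (hole F K 0) ⊆ A := by
        intro x hx
        rw [hA, mem_sdiff, mem_range]
        refine ⟨hvsN x ?_, fun h => ?_⟩
        · rw [e4]; exact mem_union_left _ (mem_union_right _ hx)
        · rw [hk1] at e1
          exact disjoint_left.1 e1 h hx
      have hsub1 : inner F (hole F K 1) ⊆ A := by
        intro x hx
        rw [hA, mem_sdiff, mem_range]
        refine ⟨hvsN x ?_, fun h => ?_⟩
        · rw [e4]; exact mem_union_right _ hx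
        · rw [hk1] at e2
          exact disjoint_left.1 e2 h hx
      apply mem_coe.2
      simp only [mem_sigma, mem_product, hpairs, mem_filter, mem_powerset]
      refine ⟨⟨⟨hsub0, hsub1⟩, hVF.in0, hVF.in1, hm0, hm1, e3⟩, ?_, ?_⟩
      · rw [hB0, ← hk2]
        exact hole_mem_fill hVF.tri hVF.conn hVF.sub hVF.ne hVF.in0 hNF
      · rw [hB1, ← hk3]
        exact hole_mem_fill hVF.tri hVF.conn hVF.sub hVF.ne hVF.in1 hNF
    · rintro ⟨⟨Iv, Iu⟩, ⟨Rv, Ru⟩⟩ h
      have h := mem_coe.1 h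
      simp only [mem_sigma, mem_product, hpairs, mem_filter, mem_powerset] at h
      obtain ⟨⟨⟨hIv, hIu⟩, h0, h1, hcv, hcu, hd⟩, hRv, hRu⟩ := h
      have hdv : Disjoint Iv (vs E) := by
        rw [disjoint_left]
        intro x hx
        exact (mem_sdiff.1 (hIv hx)).2
      have hdu : Disjoint Iu (vs E) := by
        rw [disjoint_left]
        intro x hx
        exact (mem_sdiff.1 (hIu hx)).2
      obtain ⟨g1, g2, g3, g4, g5, g6, g7⟩ := repl2 hV (o := N) hNE (fun h => hNA (hIv h))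
        (fun h => hNA (hIu h)) hRv hRu h0 h1 hd hdv hdu
      apply mem_coe.2
      show E ∪ Rv ∪ Ru ∈ _
      rw [mem_filter, G3_mem_LabN]
      have hvsN : vs (E ∪ Rv ∪ Ru) ⊆ range N := by
        rw [g7]
        refine union_subset (union_subset hN ?_) ?_
        · exact hIv.trans sdiff_subset
        · exact hIu.trans sdiff_subset
      refine ⟨⟨?_, g1.tri, ?_, ?_⟩, g1, g6, ?_⟩
      · exact G2_sub (fun {a b c} h => g1.tri.rot h) hvsN
      · intro x hx
        simp only [mem_insert, mem_singleton] at hx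
        rcases hx with rfl | rfl | rfl
        · rw [g7]; exact mem_union_left _ (mem_union_right _ h0)
        · rw [g7]; exact mem_union_right _ h1
        · exact g1.sub h2
      · rw [g7, card_union_of_disjoint (disjoint_union_left.2 ⟨hdu.symm, hd⟩),
          card_union_of_disjoint hdv.symm, hcv, hcu]
      · show (inner _ (hole _ K 0)).card = m
        rw [g2, g4, hcv]
    · intro F h
      have h := mem_coe.1 h
      rw [mem_filter, G3_mem_LabN] at h
      obtain ⟨-, hVF, hkey, hMh⟩ := h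
      simp only [key, Prod.mk.injEq] at hkey
      obtain ⟨hk1, hk2, hk3⟩ := hkey
      show E ∪ hole F K 0 ∪ hole F K 1 = F
      rw [hE, ← hk1]
      exact G2_decomp.symm
    · rintro ⟨⟨Iv, Iu⟩, ⟨Rv, Ru⟩⟩ h
      have h := mem_coe.1 h
      simp only [mem_sigma, mem_product, hpairs, mem_filter, mem_powerset] at h
      obtain ⟨⟨⟨hIv, hIu⟩, h0, h1, hcv, hcu, hd⟩, hRv, hRu⟩ := h
      have hdv : Disjoint Iv (vs E) := by
        rw [disjoint_left]
        intro x hx
        exact (mem_sdiff.1 (hIv hx)).2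
      have hdu : Disjoint Iu (vs E) := by
        rw [disjoint_left]
        intro x hx
        exact (mem_sdiff.1 (hIu hx)).2
      obtain ⟨g1, g2, g3, g4, g5, g6, g7⟩ := repl2 hV (o := N) hNE (fun h => hNA (hIv h))
        (fun h => hNA (hIu h)) hRv hRu h0 h1 hd hdv hdu
      show (⟨(inner (E ∪ Rv ∪ Ru) (hole (E ∪ Rv ∪ Ru) K 0),
        inner (E ∪ Rv ∪ Ru) (hole (E ∪ Rv ∪ Ru) K 1)),
        (hole (E ∪ Rv ∪ Ru) K 0, hole (E ∪ Rv ∪ Ru) K 1)⟩ :
        Σ _ : Finset ℕ × Finset ℕ, Finset (ℕ × ℕ × ℕ) × Finset (ℕ × ℕ × ℕ)) =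
          ⟨(Iv, Iu), (Rv, Ru)⟩
      rw [hE, g2, g3, g4, g5]
  have hfib : ∀ p ∈ pairs, ((Fill N B0 p.1 ×ˢ Fill N B1 p.2).card : ℝ) =
      (m.factorial * Zf B0.card m) * (m'.factorial * Zf B1.card m') := by
    rintro ⟨Iv, Iu⟩ h
    simp only [hpairs, mem_filter, mem_product, mem_powerset] at h
    obtain ⟨⟨hIv, hIu⟩, h0, h1, hcv, hcu, hd⟩ := h
    rw [card_product]
    push_cast
    have hd0 : Disjoint Iv (vb B0) := by
      rw [disjoint_left]
      intro x hx hx'
      exact (mem_sdiff.1 (hIv hx)).2 (hvb0 hx')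
    have hd1 : Disjoint Iu (vb B1) := by
      rw [disjoint_left]
      intro x hx hx'
      exact (mem_sdiff.1 (hIu hx)).2 (hvb1 hx')
    have hN0 : N ∉ vb B0 ∪ Iv := by
      rw [mem_union]
      rintro (h | h)
      · exact hNE (hvb0 h)
      · exact hNA (hIv h)
    have hN1 : N ∉ vb B1 ∪ Iu := by
      rw [mem_union]
      rintro (h | h)
      · exact hNE (hvb1 h)
      · exact hNA (hIu h)
    rw [fill_card hcyc0 hd0 hN0, fill_card hcyc1 hd1 hN1, hcv, hcu]
  have hpc : (pairs.card : ℝ) * ((m.factorial : ℝ) * m'.factorial) =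
      (N - a - 2).factorial / (N - (a + m + m')).factorial * m * m' := by
    rw [hpairs, G3_pairs h0A h1A hm hm', hAc, G3_num hm hm' (by omega)]
    have : N - a - (m + m') = N - (a + m + m') := by omega
    rw [this]
  refine (congrArg (Nat.cast : ℕ → ℝ) hcard).trans ?_
  rw [card_sigma]
  push_cast
  rw [sum_congr rfl hfib, sum_const, nsmul_eq_mul]
  calc (pairs.card : ℝ) * (m.factorial * Zf B0.card m * (m'.factorial * Zf B1.card m'))
      = ((pairs.card : ℝ) * ((m.factorial : ℝ) * m'.factorial)) * Zf B0.card m * Zf B1.card m' := by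
        ring
    _ = _ := by rw [hpc]

end H19S
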