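import Pool.Agent.Lib.H19S.G4a

/-!
# H19S, chunk G4b: the ratio of the numbers of completions
-/

namespace H19S

open Finset

theorem G4b_fac {n : ℕ} (h3 : 3 ≤ n) :
    (n.factorial : ℝ) = n * (n - 1) * (n - 2) * (n - 3).factorial := by
  obtain ⟨k, rfl⟩ := Nat.exists_eq_add_of_le h3
  have h : 3 + k - 3 = k := by omega
  rw [h, show 3 + k = ((k + 1) + 1) + 1 by ring, Nat.factorial_succ, Nat.factorial_succ,
    Nat.factorial_succ]
  push_cast
  ring

theorem G4b_lab {n : ℕ} (h3 : 3 ≤ n) :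
    ((Lab n).card : ℝ) = n * (n - 1) * (n - 3).factorial * Zf 3 (n - 3) / 6 := by
  have h := lab_card h3
  rw [G4b_fac h3] at h
  have h2 : (0 : ℝ) < (n : ℝ) - 2 := by
    have : (3 : ℝ) ≤ n := by exact_mod_cast h3
    linarith
  have h4 : ((Lab n).card : ℝ) * 6 * ((n : ℝ) - 2) =
      n * (n - 1) * (n - 3).factorial * Zf 3 (n - 3) * ((n : ℝ) - 2) := by
    linear_combination h
  have h5 := mul_right_cancel₀ h2.ne' h4
  linarith

theorem G4b_choose {n N : ℕ} (h3 : 3 ≤ n) (hn : n ≤ N) :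
    (((N - 3).choose (n - 3) : ℕ) : ℝ) * (n - 3).factorial * (N - n).factorial =
      (N - 3).factorial := by
  have h := Nat.choose_mul_factorial_mul_factorial (n := N - 3) (k := n - 3) (by omega)
  rw [show N - 3 - (n - 3) = N - n by omega] at h
  exact_mod_cast h

theorem G4b_labN {n N : ℕ} (h3 : 3 ≤ n) (hn : n ≤ N) :
    ((LabN N n).card : ℝ) * (N - n).factorial =
      (N - 3).factorial * (n * (n - 1) * Zf 3 (n - 3) / 6) := by
  rw [labN_card h3 hn, Nat.cast_mul, G4b_lab h3, ← G4b_choose h3 hn]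
  ring

theorem G4b_Zf_nonneg (l m : ℕ) : 0 ≤ Zf l m := by
  unfold Zf
  positivity

theorem G4b_one (En1 : ∀ l m D : ℕ, 3 ≤ l → 1 ≤ m →
      (256 / 27 : ℝ) ^ D * ((m : ℝ) / (m + D)) ^ 3 * Zf l m ≤ Zf l (m + D))
    {l m D : ℕ} {A : ℝ} (hl : 3 ≤ l) (hm : 1 ≤ m) (h1 : (m : ℝ) + D ≤ A * m) :
    (256 / 27 : ℝ) ^ D * (m * Zf l m) ≤ A ^ 2 * ((m + D) * Zf l (m + D)) := by
  have hm0 : (0 : ℝ) < m := by exact_mod_cast hm
  have hmD : (0 : ℝ) < (m : ℝ) + D := by positivity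
  have h := En1 l m D hl hm
  have hZ := G4b_Zf_nonneg l (m + D)
  have h2 : (256 / 27 : ℝ) ^ D * (m * Zf l m) ≤ (((m : ℝ) + D) ^ 3 / m ^ 2) * Zf l (m + D) := by
    have h3 : (256 / 27 : ℝ) ^ D * (m * Zf l m) = (((m : ℝ) + D) ^ 3 / m ^ 2) *
        ((256 / 27 : ℝ) ^ D * ((m : ℝ) / (m + D)) ^ 3 * Zf l m) := by
      field_simp
    rw [h3]
    exact mul_le_mul_of_nonneg_left h (by positivity)
  refine h2.trans ?_
  have h4 : (((m : ℝ) + D) ^ 3 / m ^ 2) ≤ A ^ 2 * (m + D) := by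
    rw [div_le_iff₀ (by positivity)]
    have h5 : ((m : ℝ) + D) ^ 2 ≤ (A * m) ^ 2 := pow_le_pow_left₀ hmD.le h1 2
    calc ((m : ℝ) + D) ^ 3 = ((m : ℝ) + D) ^ 2 * (m + D) := by ring
      _ ≤ (A * m) ^ 2 * (m + D) := mul_le_mul_of_nonneg_right h5 hmD.le
      _ = A ^ 2 * (m + D) * m ^ 2 := by ring
  calc (((m : ℝ) + D) ^ 3 / m ^ 2) * Zf l (m + D) ≤ (A ^ 2 * (m + D)) * Zf l (m + D) :=
        mul_le_mul_of_nonneg_right h4 hZ
    _ = A ^ 2 * ((m + D) * Zf l (m + D)) := by ring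

/-- Chunk G4b.  From Part B (use these two facts as hypotheses `En1`, `En2`, they are proved in Part B):
the ratio is `(m'/m)^2 (q'/q)^2 n'(n'-1)/(n(n-1)) ≤ 12 α² β²`, where `m' = m + D1`, `q' = q + D2`. -/
theorem ratio (En1 : ∀ l m D : ℕ, 3 ≤ l → 1 ≤ m →
      (256 / 27 : ℝ) ^ D * ((m : ℝ) / (m + D)) ^ 3 * Zf l m ≤ Zf l (m + D))
    (En2 : ∀ m D : ℕ, Zf 3 (m + D) ≤ (256 / 27 : ℝ) ^ D * Zf 3 m)
    {N a m q D1 D2 l l' : ℕ} {A B : ℝ} (ha : 1 ≤ a) (hm : 1 ≤ m) (hq : 1 ≤ q) (hl : 3 ≤ l)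
    (hl' : 3 ≤ l') (hN : a + m + q + D1 + D2 ≤ N) (h1 : (m : ℝ) + D1 ≤ A * m)
    (h2 : (q : ℝ) + D2 ≤ B * q) (h3 : D1 + D2 ≤ 2 * (a + m + q)) :
    ((N - a - 2).factorial / (N - (a + m + q)).factorial * m * q * Zf l m * Zf l' q : ℝ) *
        (LabN N (a + m + q + D1 + D2)).card ≤
      12 * A ^ 2 * B ^ 2 *
        ((N - a - 2).factorial / (N - (a + m + q + D1 + D2)).factorial * (m + D1 : ℕ) *
          (q + D2 : ℕ) * Zf l (m + D1) * Zf l' (q + D2)) * (LabN N (a + m + q)).card := by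
  have hn3 : 3 ≤ a + m + q := by omega
  have hnN : a + m + q ≤ N := by omega
  have e1 := G4b_labN (n := a + m + q) (N := N) hn3 hnN
  have e2 := G4b_labN (n := a + m + q + D1 + D2) (N := N) (by omega) hN
  have hZ1 := En2 (a + m + q - 3) (D1 + D2)
  rw [show a + m + q - 3 + (D1 + D2) = a + m + q + D1 + D2 - 3 by omega] at hZ1
  have hm1 := G4b_one En1 hl hm h1
  have hq1 := G4b_one En1 hl' hq h2
  have hZ0 : 0 ≤ Zf 3 (a + m + q - 3) := G4b_Zf_nonneg _ _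
  have hZ0' : 0 ≤ Zf 3 (a + m + q + D1 + D2 - 3) := G4b_Zf_nonneg _ _
  have hzm := G4b_Zf_nonneg l m
  have hzq := G4b_Zf_nonneg l' q
  have hzm' := G4b_Zf_nonneg l (m + D1)
  have hzq' := G4b_Zf_nonneg l' (q + D2)
  generalize hn : a + m + q = n at *
  generalize hn' : n + D1 + D2 = n' at *
  have hf1 : (0 : ℝ) < (N - n).factorial := by exact_mod_cast Nat.factorial_pos _
  have hf2 : (0 : ℝ) < (N - n').factorial := by exact_mod_cast Nat.factorial_pos _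
  have hnr : (3 : ℝ) ≤ n := by exact_mod_cast hn3
  have hn'r : (n' : ℝ) ≤ 3 * n := by
    have : n' ≤ 3 * n := by omega
    exact_mod_cast this
  have hn'r0 : (3 : ℝ) ≤ n' := by
    have : 3 ≤ n' := by omega
    exact_mod_cast this
  have hnn : (n' : ℝ) * (n' - 1) ≤ 12 * (n * (n - 1)) := by nlinarith
  have key : (256 / 27 : ℝ) ^ D1 * (m * Zf l m) * ((256 / 27 : ℝ) ^ D2 * (q * Zf l' q)) *
      (n' * (n' - 1)) ≤ (A ^ 2 * ((m + D1) * Zf l (m + D1))) *
        (B ^ 2 * ((q + D2) * Zf l' (q + D2))) * (12 * (n * (n - 1))) := by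
    apply mul_le_mul _ hnn
    · nlinarith
    · positivity
    · apply mul_le_mul hm1 hq1 <;> positivity
  have key2 : (m : ℝ) * q * Zf l m * Zf l' q * (n' * (n' - 1) * Zf 3 (n' - 3)) ≤
      12 * A ^ 2 * B ^ 2 * ((m + D1) * (q + D2) * Zf l (m + D1) * Zf l' (q + D2)) *
        (n * (n - 1) * Zf 3 (n - 3)) := by
    have h5 : (0 : ℝ) ≤ n' * (n' - 1) := by nlinarith
    calc (m : ℝ) * q * Zf l m * Zf l' q * (n' * (n' - 1) * Zf 3 (n' - 3))
        ≤ (m : ℝ) * q * Zf l m * Zf l' q *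
            (n' * (n' - 1) * ((256 / 27 : ℝ) ^ (D1 + D2) * Zf 3 (n - 3))) := by
          apply mul_le_mul_of_nonneg_left _ (by positivity)
          exact mul_le_mul_of_nonneg_left hZ1 h5
      _ = (256 / 27 : ℝ) ^ D1 * (m * Zf l m) * ((256 / 27 : ℝ) ^ D2 * (q * Zf l' q)) *
            (n' * (n' - 1)) * Zf 3 (n - 3) := by
          rw [pow_add]
          ring
      _ ≤ (A ^ 2 * ((m + D1) * Zf l (m + D1))) *
            (B ^ 2 * ((q + D2) * Zf l' (q + D2))) * (12 * (n * (n - 1))) * Zf 3 (n - 3) :=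
          mul_le_mul_of_nonneg_right key hZ0
      _ = _ := by ring
  have e1' : ((LabN N n).card : ℝ) = (N - 3).factorial * (n * (n - 1) * Zf 3 (n - 3) / 6) /
      (N - n).factorial := by
    rw [eq_div_iff hf1.ne']
    exact e1
  have e2' : ((LabN N n').card : ℝ) = (N - 3).factorial * (n' * (n' - 1) * Zf 3 (n' - 3) / 6) /
      (N - n').factorial := by
    rw [eq_div_iff hf2.ne']
    exact e2
  rw [e1', e2']
  have hc : (0 : ℝ) ≤ (N - a - 2).factorial * (N - 3).factorial /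
      ((N - n).factorial * (N - n').factorial * 6) := by positivity
  have := mul_le_mul_of_nonneg_left key2 hc
  push_cast
  calc _ = (N - a - 2).factorial * (N - 3).factorial /
      ((N - n).factorial * (N - n').factorial * 6) *
        ((m : ℝ) * q * Zf l m * Zf l' q * (n' * (n' - 1) * Zf 3 (n' - 3))) := by
        field_simp
    _ ≤ _ := this
    _ = _ := by field_simp

end H19S
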