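import Pool.Agent.Lib.H19S.G2

/-!
# H19S, chunk G5a: traces of walks of positive weight
-/

namespace H19S

open Finset
open scoped ENNReal

theorem g5a_wt_cons {β : Type*} [DecidableEq β] {N : β → Finset β} {x y : β} {l : List β}
    (h : wt N (x :: y :: l) ≠ 0) : y ∈ N x ∧ wt N (y :: l) ≠ 0 := by
  have h1 : wt N (x :: y :: l) =
    (if y ∈ N x then ((N x).card : ℝ≥0∞)⁻¹ else 0) * wt N (y :: l) := rfl
  rw [h1] at h
  constructor
  · by_contra hy
    rw [if_neg hy, zero_mul] at h
    exact h rfl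
  · intro h2
    rw [h2, mul_zero] at h
    exact h rfl

theorem g5a_mono {F : Finset (ℕ × ℕ × ℕ)} {A B : Set ℕ} (h : A ⊆ B) {x y : ℕ}
    (hxy : Relation.ReflTransGen (fun p q => q ∈ A ∧ Adj F p q) x y) :
    Relation.ReflTransGen (fun p q => q ∈ B ∧ Adj F p q) x y :=
  Relation.ReflTransGen.mono (fun _ _ hpq => ⟨h hpq.1, hpq.2⟩) _ _ hxy

/-- (chunk G5a) Walks of positive weight have connected trace. -/
theorem conn_of_wt {F : Finset (ℕ × ℕ × ℕ)} (hF : IsTri F) {π : List ℕ}
    (hw : wt (nbr F) π ≠ 0) : ConnIn F (π.toFinset : Set ℕ) := by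
  induction π with
  | nil =>
    intro x hx
    simp at hx
  | cons x l ih =>
    cases l with
    | nil =>
      intro a ha b hb
      simp at ha hb
      rw [ha, hb]
    | cons y l =>
      obtain ⟨h1, h2⟩ := g5a_wt_cons hw
      have ih' := ih h2
      have hadj : Adj F x y := mem_nbr.1 h1
      have hadj' : Adj F y x := hF.toIsSurf.adj_symm hadj
      have hsub : ((y :: l).toFinset : Set ℕ) ⊆ ((x :: y :: l).toFinset : Set ℕ) := by
        intro a ha
        rw [Finset.mem_coe, List.mem_toFinset] at ha ⊢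
        exact List.mem_cons_of_mem _ ha
      have hy : y ∈ ((y :: l).toFinset : Set ℕ) := by simp
      have hx : x ∈ ((x :: y :: l).toFinset : Set ℕ) := by simp
      intro a ha b hb
      have hca : a = x ∨ a ∈ ((y :: l).toFinset : Set ℕ) := by
        rw [Finset.mem_coe, List.mem_toFinset, List.mem_cons] at ha
        rcases ha with h | h
        · exact Or.inl h
        · exact Or.inr (by rw [Finset.mem_coe, List.mem_toFinset]; exact h)
      have hcb : b = x ∨ b ∈ ((y :: l).toFinset : Set ℕ) := by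
        rw [Finset.mem_coe, List.mem_toFinset, List.mem_cons] at hb
        rcases hb with h | h
        · exact Or.inl h
        · exact Or.inr (by rw [Finset.mem_coe, List.mem_toFinset]; exact h)
      have hxy : Relation.ReflTransGen
          (fun p q => q ∈ ((x :: y :: l).toFinset : Set ℕ) ∧ Adj F p q) x y :=
        Relation.ReflTransGen.single ⟨hsub hy, hadj⟩
      have hyx : Relation.ReflTransGen
          (fun p q => q ∈ ((x :: y :: l).toFinset : Set ℕ) ∧ Adj F p q) y x :=
        Relation.ReflTransGen.single ⟨hx, hadj'⟩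
      rcases hca with rfl | ha'
      · rcases hcb with rfl | hb'
        · exact Relation.ReflTransGen.refl
        · exact hxy.trans (g5a_mono hsub (ih' y hy b hb'))
      · rcases hcb with rfl | hb'
        · exact (g5a_mono hsub (ih' a ha' y hy)).trans hyx
        · exact g5a_mono hsub (ih' a ha' b hb')

theorem g5a_sub {F : Finset (ℕ × ℕ × ℕ)} (hF : IsTri F) {π : List ℕ} {x0 : ℕ}
    (hhead : π.head? = some x0) (h0 : x0 ∈ vs F) (hw : wt (nbr F) π ≠ 0) :
    ∀ x ∈ π, x ∈ vs F := by
  induction π generalizing x0 with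
  | nil => intro x hx; simp at hx
  | cons x l ih =>
    have hx0 : x = x0 := by simpa using hhead
    subst hx0
    cases l with
    | nil =>
      intro a ha
      rw [List.mem_singleton] at ha
      rw [ha]
      exact h0
    | cons y l =>
      obtain ⟨h1, h2⟩ := g5a_wt_cons hw
      have hadj : Adj F x y := mem_nbr.1 h1
      intro a ha
      rcases List.mem_cons.1 ha with h | h
      · rw [h]; exact h0
      · exact ih (x0 := y) rfl (hF.toIsSurf.adj_mem_right hadj) h2 a h

/-- (chunk G5a) A walk of positive weight has a connected trace inside the vertex set; so a good stopped walk gives `Val`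
(`disj` from the certificate: `vs (hole 1) ⊆ Q`, disjoint from `vs (hole 0)`). -/
theorem goodStop_val {F : Finset (ℕ × ℕ × ℕ)} (hF : IsTri F) (h2 : 2 ∈ vs F) {μ η η' Λ κ : ℝ} {π : List ℕ}
    (hπ : π ∈ GoodStop F μ η η' Λ κ) (hw : wt (nbr F) π ≠ 0) : Val F π.toFinset := by
  obtain ⟨hhead, -, -, hin0, hin1, -, -, Q, g, -, -, hQ, hdisj, -⟩ := hπ
  refine ⟨hF, ?_, ?_, conn_of_wt hF hw, hin0, hin1, ?_⟩
  · intro x hx
    rw [List.mem_toFinset] at hx
    exact g5a_sub hF hhead h2 hw x hx
  · cases π with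
    | nil => simp at hhead
    | cons x l => exact ⟨x, by simp⟩
  · exact Finset.disjoint_of_subset_right hQ hdisj

theorem g5a_mem_ext {F : Finset (ℕ × ℕ × ℕ)} {K : Finset ℕ} {x a b : ℕ} (hx : x ∈ K)
    (h : (x, a, b) ∈ F) : (x, a, b) ∈ ext F K := by
  unfold ext
  have h1 : ∀ y, (x, a, b) ∉ hole F K y := by
    intro y hy
    exact (a4a_mem_avoid.1 (hole_subset hy)).2.1 hx
  rw [Finset.mem_sdiff, Finset.mem_sdiff]
  exact ⟨⟨h, h1 0⟩, h1 1⟩

theorem g5a_ext_sub {F : Finset (ℕ × ℕ × ℕ)} {K : Finset ℕ} : ext F K ⊆ F := by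
  unfold ext
  exact Finset.sdiff_subset.trans Finset.sdiff_subset

theorem g5a_nbr {F F' : Finset (ℕ × ℕ × ℕ)} {K : Finset ℕ} (h : ext F K = ext F' K) {x : ℕ}
    (hx : x ∈ K) : nbr F x = nbr F' x := by
  have key : ∀ G G' : Finset (ℕ × ℕ × ℕ), ext G K = ext G' K → nbr G x ⊆ nbr G' x := by
    intro G G' hG y hy
    rw [mem_nbr] at hy ⊢
    obtain ⟨z, hz⟩ := hy
    refine ⟨z, g5a_ext_sub (K := K) ?_⟩
    rw [← hG]
    exact g5a_mem_ext hx hz
  exact Finset.Subset.antisymm (key F F' h) (key F' F h.symm)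

theorem g5a_wt_congr {N N' : ℕ → Finset ℕ} {π : List ℕ} (h : ∀ x ∈ π, N x = N' x) :
    wt N π = wt N' π := by
  induction π with
  | nil => rfl
  | cons x l ih =>
    cases l with
    | nil => rfl
    | cons y l =>
      have h1 : wt N (x :: y :: l) =
        (if y ∈ N x then ((N x).card : ℝ≥0∞)⁻¹ else 0) * wt N (y :: l) := rfl
      have h2 : wt N' (x :: y :: l) =
        (if y ∈ N' x then ((N' x).card : ℝ≥0∞)⁻¹ else 0) * wt N' (y :: l) := rfl
      rw [h1, h2, h x (by simp), ih (fun z hz => h z (List.mem_cons_of_mem _ hz))]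

/-- (chunk G5a) The weight of a walk with trace `K` depends only on the faces at `K`, which are all in the exterior of the
holes of `K`. -/
theorem wt_key {F F' : Finset (ℕ × ℕ × ℕ)} (hF : IsTri F) (hF' : IsTri F') {π : List ℕ}
    (h : key F π.toFinset = key F' π.toFinset) : wt (nbr F) π = wt (nbr F') π := by
  have h1 : ext F π.toFinset = ext F' π.toFinset := congrArg Prod.fst h
  apply g5a_wt_congr
  intro x hx
  exact g5a_nbr h1 (List.mem_toFinset.2 hx)

end H19S
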