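import Pool.Agent.Lib.H19S.G3
import Pool.Agent.Lib.H19S.G4b
import Pool.Agent.Lib.H19S.G5a

/-!
# H19S, chunk G5b: the surgery inequality for a fixed walk
-/

namespace H19S

open Finset
open scoped ENNReal

theorem g5b_hole_vs {F : Finset (ℕ × ℕ × ℕ)} {K : Finset ℕ} {y : ℕ} :
    vs (hole F K y) ⊆ vs F := by
  unfold vs
  exact Finset.image_subset_image hole_subset'

theorem g5b_inner_sub {F R : Finset (ℕ × ℕ × ℕ)} : inner F R ⊆ vs R := by
  unfold inner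
  exact Finset.filter_subset _ _

theorem g5b_card {F : Finset (ℕ × ℕ × ℕ)} {K : Finset ℕ} (hV : Val F K) :
    (vs (ext F K)).card + Mh F K 0 + Mh F K 1 = (vs F).card := by
  rw [vs_ext hV]
  have h0 : inner F (hole F K 0) ⊆ vs F := g5b_inner_sub.trans g5b_hole_vs
  have h1 : inner F (hole F K 1) ⊆ vs F := g5b_inner_sub.trans g5b_hole_vs
  have hd : Disjoint (inner F (hole F K 0)) (inner F (hole F K 1)) :=
    Finset.disjoint_of_subset_left g5b_inner_sub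
      (Finset.disjoint_of_subset_right g5b_inner_sub hV.disj)
  have h2 : inner F (hole F K 1) ⊆ vs F \ inner F (hole F K 0) := by
    intro x hx
    rw [Finset.mem_sdiff]
    exact ⟨h1 hx, fun hx0 => (Finset.disjoint_left.1 hd) hx0 hx⟩
  have h3 := Finset.card_sdiff_add_card_eq_card h2
  have h4 := Finset.card_sdiff_add_card_eq_card h0
  unfold Mh
  omega

theorem g5b_mem_labN {N n : ℕ} {F : Finset (ℕ × ℕ × ℕ)} (h : F ∈ LabN N n) :
    IsTri F ∧ {0, 1, 2} ⊆ vs F ∧ (vs F).card = n ∧ vs F ⊆ range N := by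
  classical
  unfold LabN at h
  simp only [Finset.mem_filter, Finset.mem_powerset] at h
  obtain ⟨h1, h2, h3, h4⟩ := h
  refine ⟨h2, h3, h4, ?_⟩
  intro x hx
  unfold vs at hx
  obtain ⟨t, ht, rfl⟩ := Finset.mem_image.1 hx
  exact (Finset.mem_product.1 (h1 ht)).1

/-- the inequality for one class -/
theorem g5b_class (En1 : ∀ l m D : ℕ, 3 ≤ l → 1 ≤ m →
      (256 / 27 : ℝ) ^ D * ((m : ℝ) / (m + D)) ^ 3 * Zf l m ≤ Zf l (m + D))
    (En2 : ∀ m D : ℕ, Zf 3 (m + D) ≤ (256 / 27 : ℝ) ^ D * Zf 3 m)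
    {N n Δ Δs : ℕ} {μ η η' Λ : ℝ} (hη : 0 < η) (hη' : 0 < η') (hΛ : 1 ≤ Λ) (hμ : 1 ≤ μ)
    (hΔ : (Δ : ℝ) ≤ Λ * μ + 1) (hΔs : Δ ≤ Δs) (hΔs' : Δs ≤ 2 * n) (hN : N = n + Δs)
    {F0 : Finset (ℕ × ℕ × ℕ)} {K : Finset ℕ} (hF0 : F0 ∈ LabN N n) (hV : Val F0 K) (h2 : 2 ∈ K)
    (hm : η * μ ≤ Mh F0 K 0) (hq : η' * n ≤ Mh F0 K 1)
    (L T : Finset (Finset (ℕ × ℕ × ℕ)))
    (hL : ∀ F ∈ L, F ∈ LabN N n ∧ Val F K ∧ key F K = key F0 K ∧ Mh F K 0 = Mh F0 K 0)
    (hT : ∀ F, F ∈ LabN N (n + Δs) → Val F K → key F K = key F0 K →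
      Mh F K 0 = Mh F0 K 0 + Δ → F ∈ T) :
    (L.card : ℝ) * (LabN N (n + Δs)).card ≤
      12 * (1 + (Λ + 1) / η) ^ 2 * (1 + 2 / η') ^ 2 * (LabN N n).card * T.card := by
  classical
  obtain ⟨htri, h012, hvcard, hvN⟩ := g5b_mem_labN hF0
  have hcard := g5b_card hV
  rw [hvcard] at hcard
  set a := (vs (ext F0 K)).card with ha_def
  set m := Mh F0 K 0 with hm_def
  set q := Mh F0 K 1 with hq_def
  have hm1 : 1 ≤ m := Finset.card_pos.2 ⟨0, hV.in0⟩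
  have hq1 : 1 ≤ q := Finset.card_pos.2 ⟨1, hV.in1⟩
  have hextN : vs (ext F0 K) ⊆ range N := by
    refine Finset.Subset.trans ?_ hvN
    rw [vs_ext hV]
    exact Finset.sdiff_subset.trans Finset.sdiff_subset
  have ha1 : 1 ≤ a := by
    apply Finset.card_pos.2
    refine ⟨2, ?_⟩
    rw [vs_ext hV, Finset.mem_sdiff, Finset.mem_sdiff]
    refine ⟨⟨hV.sub h2, ?_⟩, ?_⟩
    · intro h
      exact hole_not_mem htri.toIsSurf (g5b_inner_sub h) h2
    · intro h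
      exact hole_not_mem htri.toIsSurf (g5b_inner_sub h) h2
  have hcL := count_comp hV h2 (N := N) (m := m) (m' := q) hextN hm1 hq1 (by omega)
  have hcT := count_comp hV h2 (N := N) (m := m + Δ) (m' := q + (Δs - Δ)) hextN (by omega)
    (by omega) (by omega)
  rw [← ha_def] at hcL hcT
  have hl : 3 ≤ (bd (hole F0 K 0)).card :=
    (hole_isCyc htri hV.conn hV.sub hV.ne hV.in0).card
  have hl' : 3 ≤ (bd (hole F0 K 1)).card :=
    (hole_isCyc htri hV.conn hV.sub hV.ne hV.in1).card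
  have hmR : (0 : ℝ) < m := by exact_mod_cast hm1
  have hqR : (0 : ℝ) < q := by exact_mod_cast hq1
  have hr := ratio En1 En2 (N := N) (a := a) (m := m) (q := q) (D1 := Δ) (D2 := Δs - Δ)
    (l := (bd (hole F0 K 0)).card) (l' := (bd (hole F0 K 1)).card)
    (A := 1 + (Λ + 1) / η) (B := 1 + 2 / η') ha1 hm1 hq1 hl hl' (by omega)
    (by
      have h1 : (Δ : ℝ) ≤ (Λ + 1) * μ := by linarith
      have h3 : (Λ + 1) * μ ≤ (Λ + 1) / η * m := by
        rw [div_mul_eq_mul_div, le_div_iff₀ hη]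
        nlinarith
      linarith)
    (by
      have h1 : ((Δs - Δ : ℕ) : ℝ) ≤ 2 * n := by
        have : Δs - Δ ≤ 2 * n := by omega
        exact_mod_cast this
      have h3 : 2 * (n : ℝ) ≤ 2 / η' * q := by
        rw [div_mul_eq_mul_div, le_div_iff₀ hη']
        nlinarith
      linarith)
    (by omega)
  have e1 : a + (m + Δ) + (q + (Δs - Δ)) = n + Δs := by omega
  have e2 : a + m + q + Δ + (Δs - Δ) = n + Δs := by omega
  rw [hcard] at hcL hr
  rw [e1] at hcT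
  have e3 : n + Δ + (Δs - Δ) = n + Δs := by omega
  rw [e3] at hr
  -- comparison with `L` and `T`
  have hLle : (L.card : ℝ) ≤ ((N - a - 2).factorial : ℝ) / (N - n).factorial * m * q *
      Zf (bd (hole F0 K 0)).card m * Zf (bd (hole F0 K 1)).card q := by
    rw [← hcL]
    norm_cast
    apply Finset.card_le_card
    intro F hF
    obtain ⟨g1, g2, g3, g4⟩ := hL F hF
    rw [Finset.mem_filter]
    exact ⟨g1, g2, g3, g4⟩
  have hTge : ((N - a - 2).factorial : ℝ) / (N - (n + Δs)).factorial * (m + Δ : ℕ) *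
      (q + (Δs - Δ) : ℕ) * Zf (bd (hole F0 K 0)).card (m + Δ) *
      Zf (bd (hole F0 K 1)).card (q + (Δs - Δ)) ≤ (T.card : ℝ) := by
    rw [← hcT]
    norm_cast
    apply Finset.card_le_card
    intro F hF
    rw [Finset.mem_filter] at hF
    exact hT F hF.1 hF.2.1 hF.2.2.1 hF.2.2.2
  have hpos : (0 : ℝ) ≤ 12 * (1 + (Λ + 1) / η) ^ 2 * (1 + 2 / η') ^ 2 := by positivity
  calc (L.card : ℝ) * (LabN N (n + Δs)).card
      ≤ (((N - a - 2).factorial : ℝ) / (N - n).factorial * m * q *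
      Zf (bd (hole F0 K 0)).card m * Zf (bd (hole F0 K 1)).card q) *
        (LabN N (n + Δs)).card := by
        apply mul_le_mul_of_nonneg_right hLle (by positivity)
    _ ≤ 12 * (1 + (Λ + 1) / η) ^ 2 * (1 + 2 / η') ^ 2 *
        (((N - a - 2).factorial : ℝ) / (N - (n + Δs)).factorial * (m + Δ : ℕ) *
      (q + (Δs - Δ) : ℕ) * Zf (bd (hole F0 K 0)).card (m + Δ) *
      Zf (bd (hole F0 K 1)).card (q + (Δs - Δ))) * (LabN N n).card := hr
    _ ≤ 12 * (1 + (Λ + 1) / η) ^ 2 * (1 + 2 / η') ^ 2 * T.card * (LabN N n).card := by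
        apply mul_le_mul_of_nonneg_right _ (by positivity)
        exact mul_le_mul_of_nonneg_left hTge hpos
    _ = 12 * (1 + (Λ + 1) / η) ^ 2 * (1 + 2 / η') ^ 2 * (LabN N n).card * T.card := by ring

/-- the summation over the classes, for arbitrary finite sets with given elements -/
theorem g5b_main (En1 : ∀ l m D : ℕ, 3 ≤ l → 1 ≤ m →
      (256 / 27 : ℝ) ^ D * ((m : ℝ) / (m + D)) ^ 3 * Zf l m ≤ Zf l (m + D))
    (En2 : ∀ m D : ℕ, Zf 3 (m + D) ≤ (256 / 27 : ℝ) ^ D * Zf 3 m)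
    {N n Δ Δs : ℕ} {D1 D2 μ η η' Λ κ : ℝ} (hη : 0 < η) (hη' : 0 < η') (hΛ : 1 ≤ Λ) (hμ : 1 ≤ μ)
    (hΔ : (Δ : ℝ) ≤ Λ * μ + 1) (hΔs : Δ ≤ Δs) (hΔs' : Δs ≤ 2 * n) (hN : N = n + Δs)
    (π : List ℕ) (A B : Finset (Finset (ℕ × ℕ × ℕ)))
    (hA : ∀ F ∈ A, F ∈ LabN N n ∧ ¬ NBig F κ D1 D2 ∧ π ∈ GoodStop F μ η η' Λ κ)
    (hB : ∀ F', F' ∈ LabN N (n + Δs) → π ∈ Tk N n D1 D2 μ η η' Λ κ Δ F' → F' ∈ B) :
    (∑ F ∈ A, wt (nbr F) π) * (LabN N (n + Δs)).card ≤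
      ENNReal.ofReal (12 * (1 + (Λ + 1) / η) ^ 2 * (1 + 2 / η') ^ 2 * (LabN N n).card) *
        ∑ F' ∈ B, wt (nbr F') π := by
  classical
  set K := π.toFinset with hK
  set C : ℝ := 12 * (1 + (Λ + 1) / η) ^ 2 * (1 + 2 / η') ^ 2 * (LabN N n).card with hC
  have hC0 : 0 ≤ C := by positivity
  -- remove the terms of weight zero
  set S := A.filter (fun F => wt (nbr F) π ≠ 0) with hS
  have hsumS : ∑ F ∈ A, wt (nbr F) π = ∑ F ∈ S, wt (nbr F) π := by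
    rw [hS, Finset.sum_filter_ne_zero]
  have hSval : ∀ F ∈ S, F ∈ LabN N n ∧ ¬ NBig F κ D1 D2 ∧ π ∈ GoodStop F μ η η' Λ κ ∧
      wt (nbr F) π ≠ 0 ∧ Val F K := by
    intro F hF
    rw [hS, Finset.mem_filter] at hF
    obtain ⟨h1, h2, h3⟩ := hA F hF.1
    obtain ⟨g1, g2, -, -⟩ := g5b_mem_labN h1
    exact ⟨h1, h2, h3, hF.2, goodStop_val g1 (g2 (by simp)) h3 hF.2⟩
  let f : Finset (ℕ × ℕ × ℕ) →
      (Finset (ℕ × ℕ × ℕ) × Finset (ℕ × ℕ) × Finset (ℕ × ℕ)) × ℕ := fun F => (key F K, Mh F K 0)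
  set I := S.image f with hI
  let T : (Finset (ℕ × ℕ × ℕ) × Finset (ℕ × ℕ) × Finset (ℕ × ℕ)) × ℕ →
      Finset (Finset (ℕ × ℕ × ℕ)) := fun c =>
    (LabN N (n + Δs)).filter (fun F' => Val F' K ∧ key F' K = c.1 ∧ Mh F' K 0 = c.2 + Δ)
  have hfib : ∑ F ∈ S, wt (nbr F) π = ∑ c ∈ I, ∑ F ∈ S.filter (fun F => f F = c),
      wt (nbr F) π := by
    have h1 := Finset.sum_fiberwise_of_maps_to (s := S) (t := I) (g := f)
      (fun F hF => Finset.mem_image_of_mem f hF) (fun F => wt (nbr F) π)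
    rw [← h1]
  -- the inequality for one class
  have hclass : ∀ c ∈ I, (∑ F ∈ S.filter (fun F => f F = c), wt (nbr F) π) *
      ((LabN N (n + Δs)).card : ℝ≥0∞) ≤ ENNReal.ofReal C * ∑ F' ∈ T c, wt (nbr F') π := by
    intro c hc
    obtain ⟨F0, hF0, rfl⟩ := Finset.mem_image.1 hc
    obtain ⟨g1, g2, g3, g4, g5⟩ := hSval F0 hF0
    obtain ⟨t1, t2, t3, -⟩ := g5b_mem_labN g1
    have hwL : ∀ F ∈ S.filter (fun F => f F = f F0), wt (nbr F) π = wt (nbr F0) π := by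
      intro F hF
      rw [Finset.mem_filter] at hF
      obtain ⟨k1, -, -, -, k5⟩ := hSval F hF.1
      exact wt_key k5.tri t1 (congrArg Prod.fst hF.2)
    have hwT : ∀ F' ∈ T (f F0), wt (nbr F') π = wt (nbr F0) π := by
      intro F' hF'
      rw [Finset.mem_filter] at hF'
      exact wt_key hF'.2.1.tri t1 hF'.2.2.1
    rw [Finset.sum_congr rfl hwL, Finset.sum_congr rfl hwT, Finset.sum_const, Finset.sum_const,
      nsmul_eq_mul, nsmul_eq_mul]
    have h2K : 2 ∈ K := by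
      obtain ⟨hh, -⟩ := g3
      rw [hK, List.mem_toFinset]
      cases π with
      | nil => simp at hh
      | cons x l =>
        have : x = 2 := by simpa using hh
        rw [this]
        exact List.mem_cons_self
    have hgm : η * μ ≤ Mh F0 K 0 := g3.2.2.2.2.2.1
    have hgq : η' * n ≤ Mh F0 K 1 := by
      have := g3.2.2.2.2.2.2.1
      rw [t3] at this
      exact this
    have hreal := g5b_class En1 En2 hη hη' hΛ hμ hΔ hΔs hΔs' hN g1 g5 h2K hgm hgq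
      (S.filter (fun F => f F = f F0)) (T (f F0))
      (by
        intro F hF
        rw [Finset.mem_filter] at hF
        obtain ⟨k1, -, -, -, k5⟩ := hSval F hF.1
        exact ⟨k1, k5, congrArg Prod.fst hF.2, congrArg Prod.snd hF.2⟩)
      (by
        intro F hF hVF hkF hmF
        rw [Finset.mem_filter]
        exact ⟨hF, hVF, hkF, hmF⟩)
    rw [← hC] at hreal
    have henn : ((S.filter (fun F => f F = f F0)).card : ℝ≥0∞) *
        ((LabN N (n + Δs)).card : ℝ≥0∞) ≤ ENNReal.ofReal C * ((T (f F0)).card : ℝ≥0∞) := by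
      have h1 := ENNReal.ofReal_le_ofReal hreal
      rw [ENNReal.ofReal_mul (by positivity), ENNReal.ofReal_mul hC0,
        ENNReal.ofReal_natCast, ENNReal.ofReal_natCast, ENNReal.ofReal_natCast] at h1
      exact h1
    calc ((S.filter (fun F => f F = f F0)).card : ℝ≥0∞) * wt (nbr F0) π *
          ((LabN N (n + Δs)).card : ℝ≥0∞)
        = (((S.filter (fun F => f F = f F0)).card : ℝ≥0∞) *
          ((LabN N (n + Δs)).card : ℝ≥0∞)) * wt (nbr F0) π := by ring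
      _ ≤ (ENNReal.ofReal C * ((T (f F0)).card : ℝ≥0∞)) * wt (nbr F0) π := by gcongr
      _ = ENNReal.ofReal C * (((T (f F0)).card : ℝ≥0∞) * wt (nbr F0) π) := by ring
  have hTdisj : ∀ c ∈ I, ∀ c' ∈ I, c ≠ c' → Disjoint (T c) (T c') := by
    intro c _ c' _ hne
    rw [Finset.disjoint_left]
    intro F' h1 h2
    rw [Finset.mem_filter] at h1 h2
    apply hne
    apply Prod.ext
    · rw [← h1.2.2.1, h2.2.2.1]
    · have := h1.2.2.2
      have := h2.2.2.2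
      omega
  have hTsub : I.biUnion T ⊆ B := by
    intro F' hF'
    obtain ⟨c, hc, hF''⟩ := Finset.mem_biUnion.1 hF'
    obtain ⟨F0, hF0, rfl⟩ := Finset.mem_image.1 hc
    obtain ⟨g1, g2, g3, g4, g5⟩ := hSval F0 hF0
    rw [Finset.mem_filter] at hF''
    obtain ⟨k1, k2, k3, k4⟩ := hF''
    apply hB F' k1
    refine ⟨k2, ?_, F0, g1, g2, g3, g4, g5, k3.symm, k4⟩
    rw [wt_key k2.tri g5.tri k3]
    exact g4
  have hsumT : ∑ c ∈ I, ∑ F' ∈ T c, wt (nbr F') π ≤ ∑ F' ∈ B, wt (nbr F') π := by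
    rw [← Finset.sum_biUnion (fun c hc c' hc' hne => hTdisj c hc c' hc' hne)]
    exact Finset.sum_le_sum_of_subset hTsub
  calc (∑ F ∈ A, wt (nbr F) π) * ((LabN N (n + Δs)).card : ℝ≥0∞)
      = ∑ c ∈ I, (∑ F ∈ S.filter (fun F => f F = c), wt (nbr F) π) *
        ((LabN N (n + Δs)).card : ℝ≥0∞) := by rw [hsumS, hfib, Finset.sum_mul]
    _ ≤ ∑ c ∈ I, ENNReal.ofReal C * ∑ F' ∈ T c, wt (nbr F') π := Finset.sum_le_sum hclass
    _ = ENNReal.ofReal C * ∑ c ∈ I, ∑ F' ∈ T c, wt (nbr F') π := by rw [Finset.mul_sum]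
    _ ≤ ENNReal.ofReal C * ∑ F' ∈ B, wt (nbr F') π := by gcongr

/-- (chunk G5b) The surgery inequality for a fixed walk `π`.  If `wt (nbr F) π = 0` the term vanishes.  Group the
triangulations `F` on the left (all satisfy `Val F K`, `K = π.toFinset`, by `goodStop_val`) by `(key F K, Mh F K 0)`.  For a
given value, realised by `F0`, `m = Mh F0 K 0 ≥ η μ`, `q = Mh F0 K 1 ≥ η' n`, `n = a + m + q`: the number of
`F` is at most `count_comp` for `n`, and by `ratio` (with `D1 = Δ`, `D2 = Δs - Δ`,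
`A = 1 + (Λ+1)/η`, `B = 1 + 2/η'`; `Δ ≤ Λ μ + 1 ≤ (Λ+1) μ ≤ (Λ+1)/η m`, `D2 ≤ 2 n ≤ (2/η') q`) at most
`12 A² B² |LabN N n| / |LabN N n'|` times the number of `F' ∈ LabN N n'` with the same key and
`Mh F' K 0 = m + Δ`; each such `F'` has `π ∈ Tk ... F'` and the same weight (`wt_key`). -/
theorem surgery_pi (En1 : ∀ l m D : ℕ, 3 ≤ l → 1 ≤ m →
      (256 / 27 : ℝ) ^ D * ((m : ℝ) / (m + D)) ^ 3 * Zf l m ≤ Zf l (m + D))
    (En2 : ∀ m D : ℕ, Zf 3 (m + D) ≤ (256 / 27 : ℝ) ^ D * Zf 3 m)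
    {N n Δ Δs : ℕ} {D1 D2 μ η η' Λ κ : ℝ} (hη : 0 < η) (hη' : 0 < η') (hΛ : 1 ≤ Λ) (hμ : 1 ≤ μ)
    (hΔ : (Δ : ℝ) ≤ Λ * μ + 1) (hΔs : Δ ≤ Δs) (hΔs' : Δs ≤ 2 * n) (hN : N = n + Δs)
    (hn : 3 ≤ n) (π : List ℕ) :
    (∑ F ∈ (by classical exact (LabN N n).filter (fun F => ¬ NBig F κ D1 D2 ∧
        π ∈ GoodStop F μ η η' Λ κ)), wt (nbr F) π) * (LabN N (n + Δs)).card ≤
      ENNReal.ofReal (12 * (1 + (Λ + 1) / η) ^ 2 * (1 + 2 / η') ^ 2 * (LabN N n).card) *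
        ∑ F' ∈ (by classical exact (LabN N (n + Δs)).filter (fun F' =>
          π ∈ Tk N n D1 D2 μ η η' Λ κ Δ F')), wt (nbr F') π := by
  apply g5b_main En1 En2 hη hη' hΛ hμ hΔ hΔs hΔs' hN (D1 := D1) (D2 := D2) (κ := κ)
  · intro F hF
    simp only [Finset.mem_filter] at hF
    exact hF
  · intro F' h1 h2
    simp only [Finset.mem_filter]
    exact ⟨h1, h2⟩

end H19S
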