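import Pool.Agent.Lib.H19S.G2

/-!
# H19S, chunk G6a: the hole of a smaller set
-/

namespace H19S

open Finset

theorem G6a_avoid_mono {F : Finset (ℕ × ℕ × ℕ)} {K K'' : Finset ℕ} (hK'' : K'' ⊆ K) :
    avoid F K ⊆ avoid F K'' := by
  rintro ⟨a, b, c⟩ h
  rw [a4a_mem_avoid] at h ⊢
  exact ⟨h.1, fun h' => h.2.1 (hK'' h'), fun h' => h.2.2.1 (hK'' h'), fun h' => h.2.2.2 (hK'' h')⟩

theorem G6a_rstep_mono {R R' : Finset (ℕ × ℕ × ℕ)} (h : R ⊆ R') {s t : ℕ × ℕ × ℕ}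
    (hst : Relation.ReflTransGen (RStep R) s t) : Relation.ReflTransGen (RStep R') s t := by
  induction hst with
  | refl => exact Relation.ReflTransGen.refl
  | tail _ h2 ih => exact ih.tail ⟨h h2.1, h2.2⟩

theorem G6a_hole_mono {F : Finset (ℕ × ℕ × ℕ)} {K K'' : Finset ℕ} (hK'' : K'' ⊆ K) (y : ℕ) :
    hole F K y ⊆ hole F K'' y := by
  intro t ht
  rw [a4a_mem_hole] at ht ⊢
  obtain ⟨h1, b, c, h2, h3⟩ := ht
  exact ⟨G6a_avoid_mono hK'' h1, b, c, G6a_avoid_mono hK'' h2,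
    G6a_rstep_mono (G6a_avoid_mono hK'') h3⟩

/-- a dual path in `avoid F K''` starting in the hole stays in the hole -/
theorem G6a_path {F : Finset (ℕ × ℕ × ℕ)} {K'' : Finset ℕ} {y : ℕ} {s t : ℕ × ℕ × ℕ}
    (hs : s ∈ hole F K'' y) (h : Relation.ReflTransGen (RStep (avoid F K'')) s t) :
    t ∈ hole F K'' y := (a4a_path hs h).1

theorem Val.G6a_in {F : Finset (ℕ × ℕ × ℕ)} {K : Finset ℕ} (hV : Val F K) {i : ℕ}
    (hi : i = 0 ∨ i = 1) : i ∈ inner F (hole F K i) := by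
  rcases hi with rfl | rfl
  · exact hV.in0
  · exact hV.in1

theorem Val.G6a_part {F : Finset (ℕ × ℕ × ℕ)} {K : Finset ℕ} {t : ℕ × ℕ × ℕ}
    (ht : t ∈ F) : t ∈ ext F K ∨ ∃ i, (i = 0 ∨ i = 1) ∧ t ∈ hole F K i := by
  by_cases h0 : t ∈ hole F K 0
  · exact Or.inr ⟨0, Or.inl rfl, h0⟩
  by_cases h1 : t ∈ hole F K 1
  · exact Or.inr ⟨1, Or.inr rfl, h1⟩
  left
  unfold ext
  rw [mem_sdiff, mem_sdiff]
  exact ⟨⟨ht, h0⟩, h1⟩

theorem G6a_ext_not {F : Finset (ℕ × ℕ × ℕ)} {K : Finset ℕ} {t : ℕ × ℕ × ℕ}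
    (ht : t ∈ ext F K) {i : ℕ} (hi : i = 0 ∨ i = 1) : t ∉ hole F K i := by
  unfold ext at ht
  rw [mem_sdiff, mem_sdiff] at ht
  rcases hi with rfl | rfl
  · exact ht.1.2
  · exact ht.2

theorem G6a_ext_sub {F : Finset (ℕ × ℕ × ℕ)} {K : Finset ℕ} {t : ℕ × ℕ × ℕ}
    (ht : t ∈ ext F K) : t ∈ F := by
  unfold ext at ht
  rw [mem_sdiff, mem_sdiff] at ht
  exact ht.1.1

theorem Val.G6a_disj {F : Finset (ℕ × ℕ × ℕ)} {K : Finset ℕ} (hV : Val F K) {i j : ℕ}
    (hi : i = 0 ∨ i = 1) (hj : j = 0 ∨ j = 1) {x : ℕ} (h : x ∈ vs (hole F K i))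
    (h' : x ∈ vs (hole F K j)) : i = j := by
  rcases hi with rfl | rfl <;> rcases hj with rfl | rfl
  · rfl
  · exact absurd h' (Finset.disjoint_left.1 hV.disj h)
  · exact absurd h (Finset.disjoint_left.1 hV.disj h')
  · rfl

theorem G6a_ext_rot {F : Finset (ℕ × ℕ × ℕ)} {K : Finset ℕ} (hF : IsSurf F) {a b c : ℕ}
    (h : (a, b, c) ∈ ext F K) : (b, c, a) ∈ ext F K := by
  have hF' := G6a_ext_sub h
  rcases Val.G6a_part (K := K) (hF.rot hF') with h1 | ⟨i, hi, h1⟩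
  · exact h1
  · exact absurd (hole_rotC hF (hole_rotC hF h1)) (G6a_ext_not h hi)

/-- The contents of the holes of `K` are dual connected, in `avoid F K''`. -/
theorem Val.G6a_all {F : Finset (ℕ × ℕ × ℕ)} {K K'' : Finset ℕ} (hV : Val F K)
    (hK'' : K'' ⊆ K) {y i : ℕ} (hi : i = 0 ∨ i = 1) {t : ℕ × ℕ × ℕ} (ht : t ∈ hole F K i)
    (ht' : t ∈ hole F K'' y) : hole F K i ⊆ hole F K'' y := by
  intro s hs
  have h1 := hole_conn hV.tri.toIsSurf (hV.G6a_in hi) ht hs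
  exact G6a_path ht' (G6a_rstep_mono (hole_subset.trans (G6a_avoid_mono hK'')) h1)

theorem G6a_bd {F F' : Finset (ℕ × ℕ × ℕ)} {K : Finset ℕ} (hk : key F K = key F' K) {i : ℕ}
    (hi : i = 0 ∨ i = 1) : bd (hole F K i) = bd (hole F' K i) := by
  unfold key at hk
  simp only [Prod.mk.injEq] at hk
  rcases hi with rfl | rfl
  · exact hk.2.1
  · exact hk.2.2

theorem G6a_ext {F F' : Finset (ℕ × ℕ × ℕ)} {K : Finset ℕ} (hk : key F K = key F' K) :
    ext F K = ext F' K := by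
  unfold key at hk
  simp only [Prod.mk.injEq] at hk
  exact hk.1

/-- Transfer of paths. -/
theorem G6a_main {F F' : Finset (ℕ × ℕ × ℕ)} {K K'' : Finset ℕ} (hV : Val F K) (hV' : Val F' K)
    (hk : key F K = key F' K) (hK'' : K'' ⊆ K) {y : ℕ} (hy : y = 0 ∨ y = 1) {t : ℕ × ℕ × ℕ}
    (ht : t ∈ hole F K'' y) : (t ∈ ext F K → t ∈ hole F' K'' y) ∧
      ∀ i, (i = 0 ∨ i = 1) → t ∈ hole F K i → hole F' K i ⊆ hole F' K'' y := by
  have hS := hV.tri.toIsSurf
  have hS' := hV'.tri.toIsSurf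
  rw [a4a_mem_hole] at ht
  obtain ⟨-, b0, c0, h0, hp⟩ := ht
  induction hp with
  | refl =>
    have h1 : (y, b0, c0) ∈ hole F K y := by
      have h2 := hV.G6a_in hy
      unfold inner at h2
      exact (Finset.mem_filter.mp h2).2 _ (a4a_mem_avoid.1 h0).1 rfl
    refine ⟨fun h2 => absurd h1 (G6a_ext_not h2 hy), fun i hi h2 => ?_⟩
    have h3 : i = y := hV.G6a_disj hi hy (mem_vs.2 ⟨_, _, h2⟩) (mem_vs.2 ⟨_, _, h1⟩)
    subst h3
    exact G6a_hole_mono hK'' i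
  | @tail s t hsp hst ih =>
    obtain ⟨a, b, c⟩ := s
    obtain ⟨ht, h | ⟨d, h⟩⟩ := hst
    · simp only at h
      subst h
      refine ⟨fun hE => ?_, fun i hi hH => ?_⟩
      · have h1 := ih.1 (G6a_ext_rot hS (G6a_ext_rot hS hE))
        exact hole_rotC hS' h1
      · exact ih.2 i hi (hole_rotC hS (hole_rotC hS hH))
    · simp only at h
      subst h
      have hav := a4a_mem_avoid.1 ht
      have hsF : (a, b, c) ∈ F := (a4a_mem_avoid.1 (a1_mem h0 hsp)).1
      refine ⟨fun hE => ?_, fun i hi hH => ?_⟩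
      · have hF1 : (b, a, d) ∈ F' := by
          rw [G6a_ext hk] at hE
          exact G6a_ext_sub hE
        have hav' : (b, a, d) ∈ avoid F' K'' :=
          a4a_mem_avoid.2 ⟨hF1, hav.2⟩
        rcases Val.G6a_part (K := K) hsF with h1 | ⟨i, hi, h1⟩
        · exact hole_cross hS' (ih.1 h1) hav'
        · have hb : (a, b) ∈ bd (hole F K i) := by
            rw [mem_bd]
            refine ⟨⟨c, h1⟩, fun d' hd' => ?_⟩
            have := hS.uniq (hole_subset' hd') hav.1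
            subst this
            exact G6a_ext_not hE hi hd'
          rw [G6a_bd hk hi, mem_bd] at hb
          obtain ⟨⟨c', hc'⟩, -⟩ := hb
          exact hole_cross hS' (ih.2 i hi h1 hc') hav'
      · rcases Val.G6a_part (K := K) hsF with h1 | ⟨j, hj, h1⟩
        · have hb : (b, a) ∈ bd (hole F K i) := by
            rw [mem_bd]
            refine ⟨⟨d, hH⟩, fun c' hc' => ?_⟩
            have := hS.uniq (hole_subset' hc') hsF
            subst this
            exact G6a_ext_not h1 hi hc'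
          rw [G6a_bd hk hi, mem_bd] at hb
          obtain ⟨⟨d', hd'⟩, -⟩ := hb
          have h2 : (b, a, d') ∈ hole F' K'' y :=
            hole_cross hS' (ih.1 h1) (G6a_avoid_mono hK'' (hole_subset hd'))
          exact hV'.G6a_all hK'' hi hd' h2
        · have hij : i = j := by
            refine hV.G6a_disj hi hj (x := a) ?_ (mem_vs.2 ⟨_, _, h1⟩)
            exact mem_vs.2 ⟨_, _, hole_rotC hS hH⟩
          subst hij
          exact ih.2 i hi h1

theorem Val.G6a_ne {F : Finset (ℕ × ℕ × ℕ)} {K : Finset ℕ} (hV : Val F K) {i : ℕ}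
    (hi : i = 0 ∨ i = 1) : ∃ t, t ∈ hole F K i := by
  have h2 := hV.G6a_in hi
  unfold inner at h2
  obtain ⟨a, b, h⟩ := mem_vs.1 (Finset.mem_filter.mp h2).1
  exact ⟨_, h⟩

/-- (chunk G6a) `F` and `F'` have the same exterior with respect to `K`, and `K'' ⊆ K`.  Then the holes of `K''` at `y ∈ {0, 1}` are
obtained from each other by exchanging the contents.  Proof: the contents of the holes of `K` are dual
connected (`hole_conn`) and have the same boundary sides.  Follow a path of `avoid F K''` from a face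
at `y`; invariant `P t`: if `t` is in the exterior it can be reached in `F'`; if `t ∈ hole F K 0` all faces of
`hole F' K 0` can be reached in `F'`; same for `1`. -/
theorem subhole_ext {F F' : Finset (ℕ × ℕ × ℕ)} {K K'' : Finset ℕ} (hV : Val F K) (hV' : Val F' K)
    (hk : key F K = key F' K) (hK'' : K'' ⊆ K) {y : ℕ} (hy : y = 0 ∨ y = 1) :
    (∀ t ∈ ext F K, t ∈ hole F K'' y ↔ t ∈ hole F' K'' y) ∧
    hole F K y ⊆ hole F K'' y ∧
    (hole F K (1 - y) ⊆ hole F K'' y ↔ hole F' K (1 - y) ⊆ hole F' K'' y) ∧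
    (hole F K (1 - y) ⊆ hole F K'' y ∨ Disjoint (hole F K (1 - y)) (hole F K'' y)) := by
  have hy' : 1 - y = 0 ∨ 1 - y = 1 := by omega
  refine ⟨fun t ht => ⟨fun h => ?_, fun h => ?_⟩, G6a_hole_mono hK'' y, ⟨fun h => ?_, fun h => ?_⟩, ?_⟩
  · exact (G6a_main hV hV' hk hK'' hy h).1 ht
  · refine (G6a_main hV' hV hk.symm hK'' hy h).1 ?_
    rw [← G6a_ext hk]
    exact ht
  · obtain ⟨t, ht⟩ := hV.G6a_ne hy'
    exact (G6a_main hV hV' hk hK'' hy (h ht)).2 _ hy' ht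
  · obtain ⟨t, ht⟩ := hV'.G6a_ne hy'
    exact (G6a_main hV' hV hk.symm hK'' hy (h ht)).2 _ hy' ht
  · by_cases h : Disjoint (hole F K (1 - y)) (hole F K'' y)
    · exact Or.inr h
    · left
      obtain ⟨t, h1, h2⟩ := Finset.not_disjoint_iff.1 h
      exact hV.G6a_all hK'' hy' h1 h2

end H19S
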