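import Pool.Agent.Lib.H19S.HDefs

/-!
# H19S, chunk H1: relabelling of triangulations of a vertex set
-/

namespace H19S.Asy

open Finset

/-- Membership in `LabS S`: a face `(a,b,c)` of a triangulation has all its three entries in `vs F`
(`IsSurf.vs1`, `vs2`, `vs3`), so the condition `F ∈ (S ×ˢ S ×ˢ S).powerset` is automatic. -/
theorem mem_LabS {S : Finset ℕ} {F : Finset (ℕ × ℕ × ℕ)} : F ∈ LabS S ↔ IsTri F ∧ vs F = S := by
  classical
  unfold LabS
  rw [mem_filter]
  constructor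
  · exact fun h => h.2
  · rintro ⟨h1, h2⟩
    refine ⟨?_, h1, h2⟩
    rw [mem_powerset]
    rintro ⟨a, b, c⟩ ht
    rw [mem_product, mem_product, ← h2]
    exact ⟨h1.toIsSurf.vs1 ht, h1.toIsSurf.vs2 ht, h1.toIsSurf.vs3 ht⟩

theorem mem_Lab {n : ℕ} {F : Finset (ℕ × ℕ × ℕ)} : F ∈ Lab n ↔ IsTri F ∧ vs F = range n := by
  unfold Lab
  exact mem_LabS

theorem h1_map3_inj {α : Type*} (ρ : Equiv.Perm α) :
    Function.Injective (map3 (fun x => ρ x) : α × α × α → α × α × α) := by
  rintro ⟨a, b, c⟩ ⟨a', b', c'⟩ h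
  simp only [map3, Prod.mk.injEq, EmbeddingLike.apply_eq_iff_eq] at h
  obtain ⟨rfl, rfl, rfl⟩ := h
  rfl

/-- `prel ρ` is undone by `prel ρ⁻¹`. -/
theorem prel_prel_inv {α : Type*} [DecidableEq α] (ρ : Equiv.Perm α) (F : Finset (α × α × α)) :
    prel ρ⁻¹ (prel ρ F) = F := by
  unfold prel relab
  rw [image_image]
  have : (map3 (fun x => ρ⁻¹ x) ∘ map3 (fun x => ρ x) : α × α × α → α × α × α) = id := by
    funext t
    simp [map3]
  rw [this, image_id]

theorem mem_prel {α : Type*} [DecidableEq α] {ρ : Equiv.Perm α} {F : Finset (α × α × α)}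
    {t : α × α × α} : map3 ρ t ∈ prel ρ F ↔ t ∈ F := by
  unfold prel relab
  exact (h1_map3_inj ρ).mem_finset_image

theorem deg_prel {α : Type*} [DecidableEq α] (ρ : Equiv.Perm α) (F : Finset (α × α × α)) (x : α) :
    deg (prel ρ F) (ρ x) = deg F x := by
  unfold deg prel relab
  rw [filter_image, card_image_of_injective _ (h1_map3_inj ρ)]
  congr 1
  ext t
  simp [map3]

theorem vs_prel {α : Type*} [DecidableEq α] (ρ : Equiv.Perm α) (F : Finset (α × α × α)) :
    vs (prel ρ F) = (vs F).image ρ := by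
  unfold prel
  exact vs_relab _

theorem D3_prel {α : Type*} [DecidableEq α] (ρ : Equiv.Perm α) (F : Finset (α × α × α)) :
    D3 (prel ρ F) = (D3 F).image ρ := by
  unfold D3
  rw [vs_prel, filter_image]
  simp only [deg_prel]

theorem card_vs_prel {α : Type*} [DecidableEq α] (ρ : Equiv.Perm α) (F : Finset (α × α × α)) :
    (vs (prel ρ F)).card = (vs F).card := by
  rw [vs_prel, card_image_of_injective _ ρ.injective]

theorem card_D3_prel {α : Type*} [DecidableEq α] (ρ : Equiv.Perm α) (F : Finset (α × α × α)) :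
    (D3 (prel ρ F)).card = (D3 F).card := by
  rw [D3_prel, card_image_of_injective _ ρ.injective]

/-- `IsTri.relab` for a permutation. -/
theorem tri_prel {α : Type*} [DecidableEq α] {ρ : Equiv.Perm α} {F : Finset (α × α × α)}
    (hF : IsTri F) : IsTri (prel ρ F) := by
  unfold prel
  exact hF.relab ρ.injective.injOn

theorem h1_prel_mul {α : Type*} [DecidableEq α] (ρ σ : Equiv.Perm α) (F : Finset (α × α × α)) :
    prel ρ (prel σ F) = prel (ρ * σ) F := by
  unfold prel relab
  rw [image_image]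
  congr 1

theorem h1_prel_one {α : Type*} [DecidableEq α] (F : Finset (α × α × α)) :
    prel (1 : Equiv.Perm α) F = F := by
  unfold prel relab
  have : (map3 (fun x => (1 : Equiv.Perm α) x) : α × α × α → α × α × α) = id := by
    funext t
    simp [map3]
  rw [this, image_id]

/-- Conjugate the automorphism: if `σ` is an automorphism of `prel ρ F` then `ρ⁻¹ σ ρ` is one of
`F`. -/
theorem asym_prel {ρ : Equiv.Perm ℕ} {F : Finset (ℕ × ℕ × ℕ)} (h : Asym F) :
    Asym (prel ρ F) := by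
  intro σ h1 h2
  have h3 : ρ⁻¹ * σ * ρ = 1 := by
    refine h _ (fun x hx => ?_) ?_
    · have h4 : ρ x ∉ vs (prel ρ F) := by
        rw [vs_prel, mem_image]
        rintro ⟨y, hy, hxy⟩
        exact hx (ρ.injective hxy ▸ hy)
      have h5 := h1 _ h4
      simp [Equiv.Perm.mul_apply, h5]
    · rw [← h1_prel_mul, ← h1_prel_mul, h2, prel_prel_inv]
  have h4 : σ = ρ * (ρ⁻¹ * σ * ρ) * ρ⁻¹ := by group
  rw [h4, h3]
  group

/-- For two finite sets of natural numbers of the same cardinality there is a permutation of `ℕ`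
mapping one onto the other (both complements are infinite subsets of `ℕ`, hence denumerable; or: extend
a bijection inside the finite set `S ∪ T`). -/
theorem exists_perm {S T : Finset ℕ} (h : S.card = T.card) : ∃ ρ : Equiv.Perm ℕ, S.image ρ = T := by
  classical
  have e1 : {x // x ∈ S} ≃ {x // x ∈ T} := Finset.equivOfCardEq h
  have i1 : Infinite {x : ℕ // x ∉ S} := Set.infinite_coe_iff.2 S.finite_toSet.infinite_compl
  have i2 : Infinite {x : ℕ // x ∉ T} := Set.infinite_coe_iff.2 T.finite_toSet.infinite_compl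
  obtain ⟨d1⟩ := nonempty_denumerable {x : ℕ // x ∉ S}
  obtain ⟨d2⟩ := nonempty_denumerable {x : ℕ // x ∉ T}
  have e2 : {x : ℕ // x ∉ S} ≃ {x : ℕ // x ∉ T} := Denumerable.equiv₂ _ _
  let ρ : Equiv.Perm ℕ := (Equiv.sumCompl (· ∈ S)).symm.trans
    ((Equiv.sumCongr e1 e2).trans (Equiv.sumCompl (· ∈ T)))
  have hρ : ∀ x (hx : x ∈ S), ρ x = e1 ⟨x, hx⟩ := by
    intro x hx
    change (Equiv.sumCompl (· ∈ T)) ((Equiv.sumCongr e1 e2) ((Equiv.sumCompl (· ∈ S)).symm x)) = _
    rw [Equiv.sumCompl_symm_apply_of_pos hx]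
    rfl
  refine ⟨ρ, ?_⟩
  ext y
  rw [mem_image]
  constructor
  · rintro ⟨x, hx, rfl⟩
    rw [hρ x hx]
    exact (e1 ⟨x, hx⟩).2
  · intro hy
    refine ⟨e1.symm ⟨y, hy⟩, (e1.symm ⟨y, hy⟩).2, ?_⟩
    rw [hρ _ (e1.symm ⟨y, hy⟩).2]
    simp

open Classical in
/-- The number of triangulations with vertex set `S` and with a relabelling invariant property only
depends on `#S` (`Finset.card_bij` with `prel ρ`, `ρ` from `exists_perm`). -/
theorem card_LabS_filter {S : Finset ℕ} {n : ℕ} (hS : S.card = n)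
    (P : Finset (ℕ × ℕ × ℕ) → Prop) (hP : ∀ (ρ : Equiv.Perm ℕ) (F : Finset (ℕ × ℕ × ℕ)),
      P F → P (prel ρ F)) :
    ((LabS S).filter P).card = ((Lab n).filter P).card := by
  obtain ⟨ρ, hρ⟩ := exists_perm (S := S) (T := range n) (by rw [hS, card_range])
  refine Finset.card_bij (fun F _ => prel ρ F) ?_ ?_ ?_
  · intro F hF
    rw [mem_filter, mem_LabS] at hF
    rw [mem_filter, mem_Lab]
    refine ⟨⟨tri_prel hF.1.1, ?_⟩, hP _ _ hF.2⟩
    rw [vs_prel, hF.1.2, hρ]
  · intro F _ F' _ he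
    have := congrArg (prel ρ⁻¹) he
    simpa only [prel_prel_inv] using this
  · intro F hF
    rw [mem_filter, mem_Lab] at hF
    refine ⟨prel ρ⁻¹ F, ?_, ?_⟩
    · rw [mem_filter, mem_LabS]
      refine ⟨⟨tri_prel hF.1.1, ?_⟩, hP _ _ hF.2⟩
      rw [vs_prel, hF.1.2, ← hρ, image_image]
      ext x
      simp
    · rw [h1_prel_mul, mul_inv_cancel, h1_prel_one]

theorem card_GS {S : Finset ℕ} {n : ℕ} (hS : S.card = n) : (GS S).card = (GS (range n)).card := by
  unfold GS
  refine card_LabS_filter hS GSp ?_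
  rintro ρ F ⟨h1, h2⟩
  refine ⟨fun h3 => h1 ?_, ?_⟩
  · have := asym_prel (ρ := ρ⁻¹) h3
    rwa [prel_prel_inv] at this
  · rw [card_D3_prel, card_vs_prel]
    exact h2

end H19S.Asy
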