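import Pool.Agent.Lib.H19S.H4

/-!
# H19S, chunk H10: double counting, upper bound
-/

namespace H19S.Asy

open Finset

/-- The data chosen for `s`: a face `f` whose first side is the image of the first side of `t₀`. -/
def H10_P (F : Finset (ℕ × ℕ × ℕ)) (t₀ : ℕ × ℕ × ℕ)
    (s : (ℕ × ℕ × ℕ) × (ℕ × ℕ × ℕ) × (ℕ × ℕ × ℕ)) (f : ℕ × ℕ × ℕ) : Prop :=
  f ∈ F ∧ ∃ g : ℕ → ℕ, (∀ t, IsBs F t → IsBs F (map3 g t)) ∧
    (∀ y ∈ D3 F, ((y = s.1.1 ∨ y = s.2.1.1 ∨ y = s.2.2.1) ↔ ∃ t, Around F y t ∧ map3 g t ∈ F)) ∧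
    f.1 = g t₀.1 ∧ f.2.1 = g t₀.2.1

theorem H10_exists {F : Finset (ℕ × ℕ × ℕ)} (hF : IsTri F) {t₀ : ℕ × ℕ × ℕ} (h₀ : IsBs F t₀)
    {s : (ℕ × ℕ × ℕ) × (ℕ × ℕ × ℕ) × (ℕ × ℕ × ℕ)} (hs : s ∈ Sg F) : ∃ f, H10_P F t₀ s f := by
  classical
  rw [Sg, mem_filter] at hs
  obtain ⟨-, -, g, hg, hy⟩ := hs
  have h1 : IsBs F (g t₀.1, g t₀.2.1, g t₀.2.2) := hg _ h₀
  obtain ⟨z, hz⟩ := isBs_adj hF h1
  exact ⟨(g t₀.1, g t₀.2.1, z), hz, g, hg, hy, rfl, rfl⟩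

/-- two triples with the same face have the same set of new vertices -/
theorem H10_same {F : Finset (ℕ × ℕ × ℕ)} (hF : IsTri F) (h5 : 5 ≤ (vs F).card)
    {t₀ : ℕ × ℕ × ℕ} (h₀ : IsBs F t₀)
    {s s' : (ℕ × ℕ × ℕ) × (ℕ × ℕ × ℕ) × (ℕ × ℕ × ℕ)} {f : ℕ × ℕ × ℕ}
    (h : H10_P F t₀ s f) (h' : H10_P F t₀ s' f) {y : ℕ} (hy : y ∈ D3 F)
    (hys : y = s'.1.1 ∨ y = s'.2.1.1 ∨ y = s'.2.2.1) : y = s.1.1 ∨ y = s.2.1.1 ∨ y = s.2.2.1 := by
  obtain ⟨-, g, hg, hX, e1, e2⟩ := h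
  obtain ⟨-, g', hg', hX', e1', e2'⟩ := h'
  have k1 : IsBs F (g t₀.1, g t₀.2.1, g t₀.2.2) := hg _ h₀
  have k2 : IsBs F (g' t₀.1, g' t₀.2.1, g' t₀.2.2) := hg' _ h₀
  rw [← e1, ← e2] at k1
  rw [← e1', ← e2'] at k2
  have k3 := isBs_uniq hF k1 k2
  have k4 : map3 g t₀ = map3 g' t₀ := by
    simp only [map3]
    rw [← e1, ← e2, ← e1', ← e2', k3]
  have k5 := isBs_rigid hF h5 hg hg' h₀ k4
  obtain ⟨t, ht, htF⟩ := (hX' y hy).1 hys
  refine (hX y hy).2 ⟨t, ht, ?_⟩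
  rw [k5 t (isBs_of_around hF h5 hy ht)]
  exact htF

theorem H10_card_filter {F : Finset (ℕ × ℕ × ℕ)} {X : Finset ℕ} (hX : X ⊆ D3 F)
    (h3 : X.card ≤ 3) : (F.filter fun t => t.1 ∈ X).card ≤ 9 := by
  have h1 : (F.filter fun t => t.1 ∈ X) = X.biUnion fun x => F.filter fun t => t.1 = x := by
    ext t
    simp only [mem_filter, mem_biUnion]
    constructor
    · rintro ⟨h, h'⟩
      exact ⟨t.1, h', h, rfl⟩
    · rintro ⟨x, hx, h, rfl⟩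
      exact ⟨h, hx⟩
  rw [h1]
  refine card_biUnion_le.trans ?_
  have h2 : ∀ x ∈ X, (F.filter fun t => t.1 = x).card = 3 := by
    intro x hx
    have := hX hx
    rw [D3, mem_filter] at this
    exact this.2
  rw [sum_congr rfl h2, sum_const, smul_eq_mul]
  omega

/-- Fix `t₀` with `IsBs F t₀` (`exists_isBs`).  For `s ∈ Sg F` let `g` be the map of `AData`; then
`IsBs F (map3 g t₀)`, so (`isBs_adj`) there is `z` with `e s := (g t₀.1, g t₀.2.1, z) ∈ F`.  If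
`e s = e s'` then `map3 g t₀ = map3 g' t₀` by `isBs_uniq`, so `g` and `g'` agree on all faces of the base
(`isBs_rigid`), and for `y ∈ D3 F` the condition `∃ t, Around F y t ∧ map3 g t ∈ F` is the same for `g`
and `g'` (`isBs_of_around`).  So the sets `X = {s.1.1, s.2.1.1, s.2.2.1}` and `X'` are the same, and `s'`
belongs to `Y ×ˢ Y ×ˢ Y` with `Y = F.filter (fun t => t.1 ∈ X)`, `#Y ≤ 9`, as the elements of `X` have
degree three.  So the fibres of `e` have at most `729` elements (`Finset.card_le_mul_card_image`, image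
contained in `F`). -/
theorem card_Sg {F : Finset (ℕ × ℕ × ℕ)} (hF : IsTri F) (h5 : 5 ≤ (vs F).card) :
    (Sg F).card ≤ 729 * F.card := by
  classical
  obtain ⟨t₀, h₀⟩ := exists_isBs hF h5
  let e : (ℕ × ℕ × ℕ) × (ℕ × ℕ × ℕ) × (ℕ × ℕ × ℕ) → ℕ × ℕ × ℕ := fun s =>
    if h : ∃ f, H10_P F t₀ s f then h.choose else (0, 0, 0)
  have he : ∀ s ∈ Sg F, H10_P F t₀ s (e s) := by
    intro s hs
    have h := H10_exists hF h₀ hs
    have : e s = h.choose := dif_pos h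
    rw [this]
    exact h.choose_spec
  refine card_le_mul_card_image_of_maps_to (f := e) (fun s hs => (he s hs).1) 729 ?_
  intro b _
  rcases ((Sg F).filter fun s => e s = b).eq_empty_or_nonempty with h | ⟨s₀, hs₀⟩
  · rw [h]; simp
  rw [mem_filter] at hs₀
  have hP₀ := he s₀ hs₀.1
  rw [hs₀.2] at hP₀
  have hD : ∀ s ∈ Sg F, s.1.1 ∈ D3 F ∧ s.2.1.1 ∈ D3 F ∧ s.2.2.1 ∈ D3 F := by
    intro s hs
    rw [Sg, mem_filter] at hs
    exact hs.2.1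
  have hFm : ∀ s ∈ Sg F, s.1 ∈ F ∧ s.2.1 ∈ F ∧ s.2.2 ∈ F := by
    intro s hs
    rw [Sg, mem_filter, mem_product, mem_product] at hs
    exact hs.1
  set X : Finset ℕ := {s₀.1.1, s₀.2.1.1, s₀.2.2.1} with hXdef
  have hX : X ⊆ D3 F := by
    intro y hy
    obtain ⟨d1, d2, d3⟩ := hD s₀ hs₀.1
    simp only [hXdef, mem_insert, mem_singleton] at hy
    rcases hy with rfl | rfl | rfl <;> assumption
  have hX3 : X.card ≤ 3 := card_le_three
  set Y := F.filter fun t => t.1 ∈ X with hY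
  have hYc : Y.card ≤ 9 := H10_card_filter hX hX3
  have hsub : ((Sg F).filter fun s => e s = b) ⊆ Y ×ˢ Y ×ˢ Y := by
    intro s hs
    rw [mem_filter] at hs
    have hP := he s hs.1
    rw [hs.2] at hP
    obtain ⟨d1, d2, d3⟩ := hD s hs.1
    obtain ⟨f1, f2, f3⟩ := hFm s hs.1
    have key : ∀ y ∈ D3 F, (y = s.1.1 ∨ y = s.2.1.1 ∨ y = s.2.2.1) → y ∈ X := by
      intro y hy hys
      have := H10_same hF h5 h₀ hP₀ hP hy hys
      simpa only [hXdef, mem_insert, mem_singleton] using this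
    rw [mem_product, mem_product]
    refine ⟨mem_filter.2 ⟨f1, key _ d1 (Or.inl rfl)⟩, mem_filter.2 ⟨f2, key _ d2 (Or.inr (Or.inl rfl))⟩,
      mem_filter.2 ⟨f3, key _ d3 (Or.inr (Or.inr rfl))⟩⟩
  refine (card_le_card hsub).trans ?_
  rw [card_product, card_product]
  calc Y.card * (Y.card * Y.card) ≤ 9 * (9 * 9) := by gcongr
    _ = 729 := by norm_num

end H19S.Asy
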