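import Pool.Agent.Lib.H19S.H2

/-!
# H19S, chunk H3: removal of a vertex of degree three
-/

namespace H19S.Asy

open Finset

variable {α : Type*} [DecidableEq α] {F : Finset (α × α × α)}

/-- The link of a vertex of degree three is a triangle.  Proof: take a face `(x,a,b)`; `(b,x,a) ∈ F`
(`rot2`) and `opp` give `c` with `(x,b,c) ∈ F`.  If `c = a`, then `{a,b}` is closed under the link
relation, so by `link` all neighbours of `x` are in `{a,b}` and `deg F x = #nbr ≤ 2` (`IsSurf.deg_eq`).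
So `c ≠ a`, `c ≠ b` and `nbr F x = {a,b,c}`.  Again there is `d` with `(x,c,d) ∈ F`, `d ∈ {a,b,c}`;
`d ≠ c`, and `d ≠ b` by `uniq'`. -/
theorem exists_around (hF : IsSurf F) {x : α} (hx : x ∈ D3 F) : ∃ t, Around F x t := by
  rw [D3, mem_filter] at hx
  obtain ⟨hxv, hdeg⟩ := hx
  obtain ⟨a, b, hab⟩ := mem_vs.1 hxv
  obtain ⟨c, hbc⟩ := hF.opp (hF.rot2 hab)
  have hn : (nbr F x).card = 3 := by rw [← hF.deg_eq x]; exact hdeg
  have hca : c ≠ a := by
    rintro rfl
    have hsub : nbr F x ⊆ {c, b} := by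
      intro y hy
      obtain ⟨z, hz⟩ := mem_nbr.1 hy
      have hl := hF.link hab hz
      have : y = c ∨ y = b := by
        clear hz hy
        induction hl with
        | refl => exact Or.inl rfl
        | @tail p q _ hpq ih =>
          rcases ih with rfl | rfl
          · exact Or.inr (hF.uniq hpq hab)
          · exact Or.inl (hF.uniq hpq hbc)
      simpa using this
    have := (card_le_card hsub).trans (card_le_two)
    omega
  have hcb : b ≠ c := hF.ne2 hbc
  have haN : a ∈ nbr F x := mem_nbr.2 ⟨b, hab⟩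
  have hbN : b ∈ nbr F x := mem_nbr.2 ⟨c, hbc⟩
  obtain ⟨d, hcd⟩ := hF.opp (hF.rot2 hbc)
  have hcN : c ∈ nbr F x := mem_nbr.2 ⟨d, hcd⟩
  have hcard : ({a, b, c} : Finset α).card = 3 := by
    rw [card_insert_of_notMem, card_insert_of_notMem, card_singleton]
    · simpa using hcb
    · simp only [mem_insert, mem_singleton, not_or]
      exact ⟨hF.ne2 hab, Ne.symm hca⟩
  have hsub : ({a, b, c} : Finset α) ⊆ nbr F x := by
    intro y hy
    simp only [mem_insert, mem_singleton] at hy
    rcases hy with rfl | rfl | rfl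
    exacts [haN, hbN, hcN]
  have heq : ({a, b, c} : Finset α) = nbr F x := eq_of_subset_of_card_le hsub (by omega)
  obtain ⟨e, hde⟩ := hF.opp (hF.rot2 hcd)
  have hdN : d ∈ nbr F x := mem_nbr.2 ⟨e, hde⟩
  rw [← heq] at hdN
  simp only [mem_insert, mem_singleton] at hdN
  rcases hdN with rfl | rfl | rfl
  · exact ⟨(d, b, c), hab, hbc, hcd⟩
  · exact absurd (hF.uniq' hab hcd) (Ne.symm hca)
  · exact absurd rfl (hF.ne2 hcd)

/-- The triangle around `x` is unique up to rotation. -/
theorem around_unique (hF : IsSurf F) {x : α} (hx : x ∈ D3 F) {s t : α × α × α}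
    (hs : Around F x s) (ht : Around F x t) : s ∈ rot3 t := by
  obtain ⟨a, b, c⟩ := t
  obtain ⟨p, q, r⟩ := s
  obtain ⟨h1, h2, h3⟩ := ht
  obtain ⟨k1, k2, k3⟩ := hs
  simp only at h1 h2 h3 k1 k2 k3
  have hl := hF.link h1 k1
  have : p = a ∨ p = b ∨ p = c := by
    clear k1 k2 k3 hx
    induction hl with
    | refl => exact Or.inl rfl
    | @tail u v _ huv ih =>
      rcases ih with rfl | rfl | rfl
      · exact Or.inr (Or.inl (hF.uniq huv h1))
      · exact Or.inr (Or.inr (hF.uniq huv h2))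
      · exact Or.inl (hF.uniq huv h3)
  rw [mem_rot3]
  rcases this with rfl | rfl | rfl
  · have e1 := hF.uniq k1 h1
    subst e1
    have e2 := hF.uniq k2 h2
    subst e2
    exact Or.inl rfl
  · have e1 := hF.uniq k1 h2
    subst e1
    have e2 := hF.uniq k2 h3
    subst e2
    exact Or.inr (Or.inl rfl)
  · have e1 := hF.uniq k1 h3
    subst e1
    have e2 := hF.uniq k2 h1
    subst e2
    exact Or.inr (Or.inr rfl)

/-- Removal: `del3` (A7) for the triangle `t` around `x`.  With `t = (a,b,c)`: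
`F₀ = (F \ (rots a b x ∪ rots b c x ∪ rots c a x)) ∪ rots a b c`; no rotation of `(a,b,c)` is in `F`
because of `uniq` (`(a,b,x) ∈ F`, `c ≠ x`), so `insV F₀ t x = F`. -/
theorem exists_del (hF : IsTri F) {x : α} {t : α × α × α} (hx : x ∈ D3 F) (ht : Around F x t) :
    ∃ F₀, IsTri F₀ ∧ t ∈ F₀ ∧ vs F₀ = (vs F).erase x ∧ insV F₀ t x = F := by
  obtain ⟨a, b, c⟩ := t
  obtain ⟨h1, h2, h3⟩ := ht
  simp only at h1 h2 h3
  have hS := hF.toIsSurf
  have k1 : (a, b, x) ∈ F := hS.rot h1
  have k2 : (b, c, x) ∈ F := hS.rot h2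
  have k3 : (c, a, x) ∈ F := hS.rot h3
  have hcx : x ≠ c := hS.ne h3
  have hax : x ≠ a := hS.ne h1
  have hbx : x ≠ b := hS.ne h2
  refine ⟨(F \ (rots a b x ∪ rots b c x ∪ rots c a x)) ∪ rots a b c, del3 hF k1 k2 k3, ?_,
    vs_del3 hF k1 k2 k3, ?_⟩
  · simp [rots]
  · have hd : ∀ t ∈ rots a b c, t ∉ F := by
      intro t ht hFt
      simp only [rots, mem_insert, mem_singleton] at ht
      rcases ht with rfl | rfl | rfl
      · exact hcx (hS.uniq k1 hFt)
      · exact hax (hS.uniq k2 hFt)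
      · exact hbx (hS.uniq k3 hFt)
    have hsub : rots a b x ∪ rots b c x ∪ rots c a x ⊆ F := by
      intro t ht
      simp only [rots, mem_union, mem_insert, mem_singleton] at ht
      rcases ht with ((rfl | rfl | rfl) | (rfl | rfl | rfl)) | (rfl | rfl | rfl)
      exacts [k1, hS.rot k1, h1, k2, hS.rot k2, h2, k3, hS.rot k3, h3]
    ext t
    simp only [insV, mem_union, mem_sdiff]
    constructor
    · rintro (⟨⟨h, _⟩ | h, h'⟩ | h)
      · exact h
      · exact absurd h h'
      · exact hsub (by simpa only [mem_union] using h)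
    · intro h
      by_cases hc : (t ∈ rots a b x ∨ t ∈ rots b c x) ∨ t ∈ rots c a x
      · exact Or.inr hc
      · exact Or.inl ⟨Or.inl ⟨h, hc⟩, fun h' => hd t h' h⟩

/-- Two vertices of degree three are not adjacent if there are at least five vertices: remove `x`
(`exists_around`, `exists_del`); the degree of its neighbour `y` drops to two (`deg_insV_vert`), which
contradicts `IsSurf.three_le_deg`. -/
theorem D3_not_adj (hF : IsTri F) (h5 : 5 ≤ (vs F).card) {x y : α} (hx : x ∈ D3 F) (hy : y ∈ D3 F) :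
    ¬ Adj F x y := by
  intro hadj
  obtain ⟨t, ht⟩ := exists_around hF.toIsSurf hx
  obtain ⟨F₀, hF₀, htF, hv, he⟩ := exists_del hF hx ht
  have hxv : x ∈ vs F := (mem_filter.1 hx).1
  have hyv : y ∈ vs F := (mem_filter.1 hy).1
  have hyx : y ≠ x := (hF.toIsSurf.adj_ne hadj).symm
  have hx0 : x ∉ vs F₀ := by rw [hv]; simp
  have hy0 : y ∈ vs F₀ := by rw [hv]; exact mem_erase.2 ⟨hyx, hyv⟩
  have hyt : y = t.1 ∨ y = t.2.1 ∨ y = t.2.2 := by
    obtain ⟨z, hz⟩ := hadj
    obtain ⟨h1, h2, h3⟩ := ht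
    have hl := hF.link h1 hz
    clear hz hy hyv hyx hy0 hx
    induction hl with
    | refl => exact Or.inl rfl
    | @tail u v _ huv ih =>
      rcases ih with rfl | rfl | rfl
      · exact Or.inr (Or.inl (hF.uniq huv h1))
      · exact Or.inr (Or.inr (hF.uniq huv h2))
      · exact Or.inl (hF.uniq huv h3)
  have hd := deg_insV_vert hF₀ htF hx0 hyt
  rw [he, (mem_filter.1 hy).2] at hd
  have hc : 4 ≤ (vs F₀).card := by
    rw [hv, card_erase_of_mem hxv]
    omega
  have := hF₀.toIsSurf.three_le_deg hc hy0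
  omega

/-- `F₀` (as in `exists_del`) has the vertices of degree three of `F` other than `x`, and possibly
more. -/
theorem D3_del (hF₀ : IsTri F) (h4 : 4 ≤ (vs F).card) {x : α} {t : α × α × α} (ht : t ∈ F)
    (hx : x ∉ vs F) : (D3 (insV F t x)).erase x ⊆ D3 F := by
  intro y hy
  rw [mem_erase] at hy
  obtain ⟨hyx, hy⟩ := hy
  rw [D3, mem_filter, vs_insV hF₀ ht hx, mem_insert] at hy
  obtain ⟨hyv, hd⟩ := hy
  have hyv' : y ∈ vs F := hyv.resolve_left hyx
  rw [D3, mem_filter]
  refine ⟨hyv', ?_⟩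
  by_cases hyt : y = t.1 ∨ y = t.2.1 ∨ y = t.2.2
  · have h1 := deg_insV_vert hF₀ ht hx hyt
    have h2 := hF₀.toIsSurf.three_le_deg h4 hyv'
    omega
  · push Not at hyt
    rw [deg_insV_other hF₀ ht hx hyt.1 hyt.2.1 hyt.2.2 hyx] at hd
    exact hd

end H19S.Asy
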