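import Pool.Agent.Lib.H19S.H1
import Pool.Agent.Lib.H19S.H3

/-!
# H19S, chunk H11: removing one vertex of degree three
-/

namespace H19S.Asy

open Finset

theorem h11_around_start {F : Finset (ℕ × ℕ × ℕ)} (hF : IsSurf F) {x a b : ℕ} (hx : x ∈ D3 F)
    (hs : (x, a, b) ∈ F) : ∃ c, Around F x (a, b, c) := by
  obtain ⟨t, ht⟩ := exists_around hF hx
  obtain ⟨p, q, w⟩ := t
  obtain ⟨h1, h2, h3⟩ := ht
  simp only at h1 h2 h3
  have hpq : p ≠ q := hF.ne (hF.rot h1)
  have hqw : q ≠ w := hF.ne (hF.rot h2)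
  have hwp : w ≠ p := hF.ne (hF.rot h3)
  have hdeg : (F.filter fun t => t.1 = x).card = 3 := by
    have := (Finset.mem_filter.mp hx).2
    exact this
  have hsub : ({(x, p, q), (x, q, w), (x, w, p)} : Finset (ℕ × ℕ × ℕ)) ⊆
      F.filter (fun t => t.1 = x) := by
    intro s hs'
    simp only [Finset.mem_insert, Finset.mem_singleton] at hs'
    rw [Finset.mem_filter]
    rcases hs' with rfl | rfl | rfl
    · exact ⟨h1, rfl⟩
    · exact ⟨h2, rfl⟩
    · exact ⟨h3, rfl⟩
  have hcard : ({(x, p, q), (x, q, w), (x, w, p)} : Finset (ℕ × ℕ × ℕ)).card = 3 := by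
    rw [Finset.card_insert_of_notMem, Finset.card_insert_of_notMem, Finset.card_singleton]
    · simp only [Finset.mem_singleton, Prod.mk.injEq, true_and, not_and]
      intro h
      exact absurd h hqw
    · simp only [Finset.mem_insert, Finset.mem_singleton, Prod.mk.injEq, true_and, not_or, not_and]
      exact ⟨fun h => absurd h hpq, fun h => absurd h.symm hwp⟩
  have heq := Finset.eq_of_subset_of_card_le hsub (by rw [hcard, hdeg])
  have hmem : (x, a, b) ∈ ({(x, p, q), (x, q, w), (x, w, p)} : Finset (ℕ × ℕ × ℕ)) := by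
    rw [heq, Finset.mem_filter]
    exact ⟨hs, rfl⟩
  simp only [Finset.mem_insert, Finset.mem_singleton, Prod.mk.injEq, true_and] at hmem
  rcases hmem with ⟨rfl, rfl⟩ | ⟨rfl, rfl⟩ | ⟨rfl, rfl⟩
  · exact ⟨w, h1, h2, h3⟩
  · exact ⟨p, h2, h3, h1⟩
  · exact ⟨q, h3, h1, h2⟩

/-- Consider the pairs `(F, s)`, `F ∈ Ex (n+1) (θ+1)`, `s ∈ F` with `s.1 ∈ D3 F`: there are at least
`3 (θ+1) #Ex (n+1) (θ+1)` of them (each `x ∈ D3 F` has three faces).  The map
`(x, F₀, t) ↦ (insV F₀ t x, (x, t.1, t.2.1))`, `x < n+1`, `F₀ ∈ LabS (range (n+1) \ {x})` with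
`θ ≤ #D3 F₀`, `t ∈ F₀`, is onto these pairs: `exists_around`, `exists_del`, `D3_del` (start the triangle
around `x` with the second and third entry of `s`; `around_unique` or a rotation).  The number of
triples `(x, F₀, t)` is `(n+1) * #Ex n θ * (6n - 12)` (`card_LabS_filter`, `card_D3_prel`,
`IsTri.euler`).  Divide by 3.  (`Finset.card_le_card_of_surjOn`.) -/
theorem exc_step {n θ : ℕ} (hn : 4 ≤ n) :
    (θ + 1) * (Ex (n + 1) (θ + 1)).card ≤ (n + 1) * (2 * n) * (Ex n θ).card := by
  classical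
  set A : Finset ((_ : Finset (ℕ × ℕ × ℕ)) × (ℕ × ℕ × ℕ)) :=
    (Ex (n + 1) (θ + 1)).sigma (fun F => F.filter fun s => s.1 ∈ D3 F) with hA
  set LL : ℕ → Finset (Finset (ℕ × ℕ × ℕ)) := fun x =>
    (LabS ((range (n + 1)).erase x)).filter (fun F => θ ≤ (D3 F).card) with hLL
  set B : Finset ((_ : ℕ) × (_ : Finset (ℕ × ℕ × ℕ)) × (ℕ × ℕ × ℕ)) :=
    (range (n + 1)).sigma (fun x => (LL x).sigma (fun F => F)) with hB
  -- lower bound for A
  have hAcard : 3 * ((θ + 1) * (Ex (n + 1) (θ + 1)).card) ≤ A.card := by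
    rw [hA, Finset.card_sigma]
    calc 3 * ((θ + 1) * (Ex (n + 1) (θ + 1)).card)
        = ∑ _F ∈ Ex (n + 1) (θ + 1), 3 * (θ + 1) := by
          rw [Finset.sum_const, smul_eq_mul]; ring
      _ ≤ ∑ F ∈ Ex (n + 1) (θ + 1), (F.filter fun s => s.1 ∈ D3 F).card := by
          apply Finset.sum_le_sum
          intro F hF
          have hD : θ + 1 ≤ (D3 F).card := (Finset.mem_filter.mp hF).2
          have h1 : (F.filter fun s => s.1 ∈ D3 F).card = 3 * (D3 F).card := by
            rw [Finset.card_eq_sum_card_fiberwise (f := fun s => s.1) (t := D3 F)]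
            · have : ∀ x ∈ D3 F, ((F.filter fun s => s.1 ∈ D3 F).filter (fun s => s.1 = x)).card
                  = 3 := by
                intro x hx
                have h2 : (F.filter fun s => s.1 ∈ D3 F).filter (fun s => s.1 = x) =
                    F.filter (fun s => s.1 = x) := by
                  ext s
                  simp only [Finset.mem_filter]
                  constructor
                  · rintro ⟨⟨h, _⟩, h'⟩; exact ⟨h, h'⟩
                  · rintro ⟨h, h'⟩; exact ⟨⟨h, h' ▸ hx⟩, h'⟩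
                rw [h2]
                exact (Finset.mem_filter.mp hx).2
              rw [Finset.sum_congr rfl this, Finset.sum_const, smul_eq_mul, mul_comm]
            · intro s hs
              exact (Finset.mem_filter.mp (Finset.mem_coe.mp hs)).2
          rw [h1]
          exact Nat.mul_le_mul_left 3 hD
  -- cardinality of B
  have hLLcard : ∀ x ∈ range (n + 1), (LL x).card = (Ex n θ).card := by
    intro x hx
    have hc : ((range (n + 1)).erase x).card = n := by
      rw [Finset.card_erase_of_mem hx, card_range]; rfl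
    have h1 := card_LabS_filter hc (fun F => θ ≤ (D3 F).card)
      (by
        intro ρ F h
        rw [card_D3_prel]
        exact h)
    unfold Ex
    simp only [hLL]
    convert h1
  have hBcard : B.card = (n + 1) * ((Ex n θ).card * (6 * n - 12)) := by
    rw [hB, Finset.card_sigma]
    have h1 : ∀ x ∈ range (n + 1), ((LL x).sigma (fun F => F)).card =
        (Ex n θ).card * (6 * n - 12) := by
      intro x hx
      rw [Finset.card_sigma]
      have h2 : ∀ F ∈ LL x, F.card = 6 * n - 12 := by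
        intro F hF
        have hF' := (Finset.mem_filter.mp hF).1
        rw [mem_LabS] at hF'
        have he := hF'.1.euler
        rw [hF'.2, Finset.card_erase_of_mem hx, card_range] at he
        omega
      rw [Finset.sum_congr rfl h2, Finset.sum_const, smul_eq_mul, hLLcard x hx]
    rw [Finset.sum_congr rfl h1, Finset.sum_const, smul_eq_mul, card_range]
  -- surjection
  have hsurj : A.card ≤ B.card := by
    apply Finset.card_le_card_of_surjOn
      (fun b : (_ : ℕ) × (_ : Finset (ℕ × ℕ × ℕ)) × (ℕ × ℕ × ℕ) =>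
        (⟨insV b.2.1 b.2.2 b.1, (b.1, b.2.2.1, b.2.2.2.1)⟩ :
          (_ : Finset (ℕ × ℕ × ℕ)) × (ℕ × ℕ × ℕ)))
    rintro ⟨F, s⟩ hFs
    rw [Finset.mem_coe, hA, Finset.mem_sigma] at hFs
    obtain ⟨hF, hs⟩ := hFs
    simp only at hF hs
    obtain ⟨x, a, b⟩ := s
    rw [Finset.mem_filter] at hs
    obtain ⟨hs, hx⟩ := hs
    simp only at hx
    have hFD : θ + 1 ≤ (D3 F).card := (Finset.mem_filter.mp hF).2
    have hFL := mem_Lab.mp (Finset.mem_filter.mp hF).1
    obtain ⟨c, hc⟩ := h11_around_start hFL.1.toIsSurf hx hs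
    obtain ⟨F₀, hF₀, ht, hvs, hins⟩ := exists_del hFL.1 hx hc
    have hxv : x ∈ range (n + 1) := by
      rw [← hFL.2]
      exact (Finset.mem_filter.mp hx).1
    have hvs' : vs F₀ = (range (n + 1)).erase x := by rw [hvs, hFL.2]
    have hcard4 : (vs F₀).card = n := by
      rw [hvs', Finset.card_erase_of_mem hxv, card_range]; rfl
    have hxn : x ∉ vs F₀ := by rw [hvs']; exact Finset.notMem_erase _ _
    have hD := D3_del hF₀ (by rw [hcard4]; exact hn) ht hxn
    rw [hins] at hD
    have hDc : θ ≤ (D3 F₀).card := by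
      have h1 := Finset.card_le_card hD
      rw [Finset.card_erase_of_mem hx] at h1
      omega
    refine ⟨⟨x, F₀, (a, b, c)⟩, ?_, ?_⟩
    · rw [Finset.mem_coe, hB, Finset.mem_sigma]
      refine ⟨hxv, ?_⟩
      rw [Finset.mem_sigma]
      refine ⟨?_, ht⟩
      rw [hLL, Finset.mem_filter]
      exact ⟨mem_LabS.mpr ⟨hF₀, hvs'⟩, hDc⟩
    · simp only
      rw [hins]
  have h := hAcard.trans hsurj
  rw [hBcard] at h
  have h2 : (Ex n θ).card * (6 * n - 12) ≤ (Ex n θ).card * (3 * (2 * n)) :=
    Nat.mul_le_mul_left _ (by omega)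
  have h3 : 3 * ((θ + 1) * (Ex (n + 1) (θ + 1)).card) ≤ 3 * ((n + 1) * (2 * n) * (Ex n θ).card) := by
    calc _ ≤ (n + 1) * ((Ex n θ).card * (6 * n - 12)) := h
      _ ≤ (n + 1) * ((Ex n θ).card * (3 * (2 * n))) := Nat.mul_le_mul_left _ h2
      _ = 3 * ((n + 1) * (2 * n) * (Ex n θ).card) := by ring
  exact Nat.le_of_mul_le_mul_left h3 (by norm_num)

end H19S.Asy
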