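import Pool.Agent.Lib.H19S.H11

/-!
# H19S, chunk H12: few triangulations have many vertices of degree three
-/

namespace H19S.Asy

open Finset

/-- Induction on `j`.  `j = 0`: `Ex n θ ⊆ Lab n`.  Step: `n = m + 1`, `θ = θ' + 1`; by `exc_step`, the
induction hypothesis for `(m, θ')` and `hL`,
`6^(j+1) #Ex n θ (θ'+1) ≤ 12 m (m+1) 5^j #Lab m ≤ (3/2) m 5^j #Lab n ≤ 5^(j+1) (θ'+1) #Lab n`, as
`10 (θ'+1) ≥ 3 (m+1)`. -/
theorem exc_ind {n1 : ℕ} (h4 : 4 ≤ n1)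
    (hL : ∀ n, n1 ≤ n → 8 * (n + 1) * (Lab n).card ≤ (Lab (n + 1)).card) :
    ∀ j n θ : ℕ, n1 + j ≤ n → 3 * n + 10 * j ≤ 10 * θ →
      6 ^ j * (Ex n θ).card ≤ 5 ^ j * (Lab n).card := by
  intro j
  induction j with
  | zero =>
    intro n θ _ _
    rw [pow_zero, pow_zero, one_mul, one_mul]
    exact Finset.card_le_card (Finset.filter_subset _ _)
  | succ j ih =>
    intro n θ h1 h2
    obtain ⟨m, rfl⟩ : ∃ m, n = m + 1 := ⟨n - 1, by omega⟩
    obtain ⟨t, rfl⟩ : ∃ t, θ = t + 1 := ⟨θ - 1, by omega⟩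
    have i1 := ih m t (by omega) (by omega)
    have s1 := exc_step (n := m) (θ := t) (by omega)
    have l1 := hL m (by omega)
    have h3 : 3 * m ≤ 10 * (t + 1) := by omega
    set E' := (Ex (m + 1) (t + 1)).card
    set E := (Ex m t).card
    set L' := (Lab (m + 1)).card
    set L := (Lab m).card
    have key : (t + 1) * (2 * (6 ^ (j + 1) * E')) ≤ (t + 1) * (2 * (5 ^ (j + 1) * L')) := by
      calc (t + 1) * (2 * (6 ^ (j + 1) * E')) = 2 * 6 ^ (j + 1) * ((t + 1) * E') := by ring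
        _ ≤ 2 * 6 ^ (j + 1) * ((m + 1) * (2 * m) * E) := Nat.mul_le_mul_left _ s1
        _ = 24 * m * (m + 1) * (6 ^ j * E) := by ring
        _ ≤ 24 * m * (m + 1) * (5 ^ j * L) := Nat.mul_le_mul_left _ i1
        _ = 3 * m * 5 ^ j * (8 * (m + 1) * L) := by ring
        _ ≤ 3 * m * 5 ^ j * L' := Nat.mul_le_mul_left _ l1
        _ ≤ 10 * (t + 1) * 5 ^ j * L' :=
            Nat.mul_le_mul_right _ (Nat.mul_le_mul_right _ h3)
        _ = (t + 1) * (2 * (5 ^ (j + 1) * L')) := by ring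
    have key2 := Nat.le_of_mul_le_mul_left key (Nat.succ_pos t)
    omega

/-- Use `exc_ind` with `θ = (2n+4)/5`, `j = n/10`, for `n ≥ 2 n1`; `n^2 (5/6)^(n/10)` is bounded.  For
`n < 2 n1` the constant `4 n1^2` works. -/
theorem exc_bound {n1 : ℕ} (h4 : 4 ≤ n1)
    (hL : ∀ n, n1 ≤ n → 8 * (n + 1) * (Lab n).card ≤ (Lab (n + 1)).card) :
    ∃ C : ℝ, 0 ≤ C ∧ ∀ n : ℕ, ((Ex n ((2 * n + 4) / 5)).card : ℝ) * n ^ 2 ≤ C * (Lab n).card := by
  obtain ⟨C1, hC1⟩ : ∃ C1 : ℝ, ∀ j : ℕ, (j : ℝ) ^ 2 * (5 / 6) ^ j ≤ C1 := by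
    have h := tendsto_pow_const_mul_const_pow_of_abs_lt_one 2
      (show |(5 / 6 : ℝ)| < 1 by rw [abs_of_pos (by norm_num)]; norm_num)
    obtain ⟨C, hC⟩ := h.bddAbove_range
    exact ⟨C, fun j => hC ⟨j, rfl⟩⟩
  have hC10 : 0 ≤ C1 := by
    have := hC1 0
    simpa using this
  refine ⟨120 * C1 + 4 * n1 ^ 2, by positivity, ?_⟩
  intro n
  have hExL : (Ex n ((2 * n + 4) / 5)).card ≤ (Lab n).card :=
    Finset.card_le_card (Finset.filter_subset _ _)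
  have hExL' : ((Ex n ((2 * n + 4) / 5)).card : ℝ) ≤ (Lab n).card := by exact_mod_cast hExL
  have hL0 : (0 : ℝ) ≤ (Lab n).card := Nat.cast_nonneg _
  rcases lt_or_ge n (2 * n1) with hn | hn
  · have h1 : (n : ℝ) ^ 2 ≤ 4 * n1 ^ 2 := by
      have h2 : (n : ℝ) ≤ 2 * n1 := by exact_mod_cast hn.le
      have h3 : (0 : ℝ) ≤ n := Nat.cast_nonneg _
      nlinarith
    calc ((Ex n ((2 * n + 4) / 5)).card : ℝ) * n ^ 2 ≤ (Lab n).card * (4 * n1 ^ 2) :=
          mul_le_mul hExL' h1 (by positivity) hL0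
      _ ≤ (120 * C1 + 4 * n1 ^ 2) * (Lab n).card := by nlinarith [mul_nonneg hC10 hL0]
  · have h1 := exc_ind h4 hL (n / 10) n ((2 * n + 4) / 5) (by omega) (by omega)
    set j := n / 10 with hj
    have h2 : (6 : ℝ) ^ j * ((Ex n ((2 * n + 4) / 5)).card : ℝ) ≤ 5 ^ j * (Lab n).card := by
      exact_mod_cast h1
    have h3 : (n : ℝ) ≤ 10 * ((j + 1 : ℕ) : ℝ) := by
      have : n ≤ 10 * (j + 1) := by omega
      exact_mod_cast this
    have h4' : (n : ℝ) ^ 2 ≤ 100 * ((j + 1 : ℕ) : ℝ) ^ 2 := by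
      have h5 : (0 : ℝ) ≤ n := Nat.cast_nonneg _
      nlinarith
    have h5 := hC1 (j + 1)
    have h6 : (6 : ℝ) ^ j * (((Ex n ((2 * n + 4) / 5)).card : ℝ) * n ^ 2) ≤
        6 ^ j * (120 * C1 * (Lab n).card) := by
      have e1 : (5 : ℝ) ^ j = (5 / 6) ^ (j + 1) * (6 ^ j * (6 / 5)) := by
        rw [div_pow, pow_succ, pow_succ]
        field_simp
      calc (6 : ℝ) ^ j * (((Ex n ((2 * n + 4) / 5)).card : ℝ) * n ^ 2)
          = (6 ^ j * ((Ex n ((2 * n + 4) / 5)).card : ℝ)) * n ^ 2 := by ring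
        _ ≤ (5 ^ j * (Lab n).card) * (100 * ((j + 1 : ℕ) : ℝ) ^ 2) :=
            mul_le_mul h2 h4' (by positivity) (by positivity)
        _ = (((j + 1 : ℕ) : ℝ) ^ 2 * (5 / 6) ^ (j + 1)) * (6 ^ j * 120 * (Lab n).card) := by
            rw [e1]; ring
        _ ≤ C1 * (6 ^ j * 120 * (Lab n).card) :=
            mul_le_mul_of_nonneg_right h5 (by positivity)
        _ = 6 ^ j * (120 * C1 * (Lab n).card) := by ring
    have h7 := le_of_mul_le_mul_left h6 (by positivity)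
    have h8 : (0 : ℝ) ≤ 4 * n1 ^ 2 * (Lab n).card := by positivity
    linarith

end H19S.Asy
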