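import Pool.Agent.Lib.H19S.Iface

/-!
# H19S, chunk H13: ratios of the numbers of labelled triangulations
-/

namespace H19S.Asy

open Finset

/-- The exact number of labelled triangulations (PART B). -/
def LabCard : Prop := ∀ n : ℕ, 3 ≤ n →
  ((Lab n).card : ℝ) * (6 * n - 12) = n.factorial * Zf 3 (n - 3)

/-- `Zf 3 m = 6 (4m+1)! / (m! (3m+3)!)`, so
`Zf 3 (m+1) = Zf 3 m * 4 (4m+5)(4m+3)(4m+2) / ((3m+6)(3m+5)(3m+4))`. -/
theorem Zf_succ (m : ℕ) :
    Zf 3 (m + 1) * ((3 * m + 6) * (3 * m + 5) * (3 * m + 4)) =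
      Zf 3 m * (4 * (4 * m + 5) * (4 * m + 3) * (4 * m + 2)) := by
  unfold Zf
  have f1 : (4 * (m + 1) + 2 * (3 - 3) + 1).factorial =
      (4 * m + 5) * ((4 * m + 4) * ((4 * m + 3) * ((4 * m + 2) * (4 * m + 1).factorial))) := by
    rw [show 4 * (m + 1) + 2 * (3 - 3) + 1 = (4 * m + 4) + 1 by omega, Nat.factorial_succ,
      Nat.factorial_succ, Nat.factorial_succ, Nat.factorial_succ]
  have f2 : (4 * m + 2 * (3 - 3) + 1).factorial = (4 * m + 1).factorial := by
    norm_num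
  have f3 : (3 * (m + 1) + 2 * (3 - 3) + 3).factorial =
      (3 * m + 6) * ((3 * m + 5) * ((3 * m + 4) * (3 * m + 3).factorial)) := by
    rw [show 3 * (m + 1) + 2 * (3 - 3) + 3 = (3 * m + 5) + 1 by omega, Nat.factorial_succ,
      Nat.factorial_succ, Nat.factorial_succ]
  have f4 : (3 * m + 2 * (3 - 3) + 3).factorial = (3 * m + 3).factorial := by
    norm_num
  have f5 : (m + 1).factorial = (m + 1) * m.factorial := Nat.factorial_succ m
  rw [f1, f2, f3, f4, f5]
  have g1 : ((4 * m + 1).factorial : ℝ) ≠ 0 := by positivity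
  have g2 : ((3 * m + 3).factorial : ℝ) ≠ 0 := by positivity
  have g3 : (m.factorial : ℝ) ≠ 0 := by positivity
  push_cast
  field_simp

/-- `4 (4m+5)(4m+3)(4m+2) ≤ 10 (3m+6)(3m+5)(3m+4)` for all `m`, and `(6n-12)/(6n-6) ≤ 1`. -/
theorem lab_upper (hlab : LabCard) {n : ℕ} (hn : 3 ≤ n) :
    (Lab (n + 1)).card ≤ 10 * (n + 1) * (Lab n).card := by
  obtain ⟨m, rfl⟩ : ∃ m, n = m + 3 := ⟨n - 3, by omega⟩
  have a1 := hlab (m + 3) (by omega)
  have a2 := hlab (m + 3 + 1) (by omega)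
  rw [show m + 3 - 3 = m by omega] at a1
  rw [show m + 3 + 1 - 3 = m + 1 by omega, Nat.factorial_succ] at a2
  have z := Zf_succ m
  set L := ((Lab (m + 3)).card : ℝ) with hL
  set L' := ((Lab (m + 3 + 1)).card : ℝ) with hL'
  have hL0 : 0 ≤ L := Nat.cast_nonneg _
  push_cast at a1 a2
  have hm : (0 : ℝ) ≤ m := Nat.cast_nonneg _
  have key : L' * (6 * (m + 2)) * ((3 * m + 6) * (3 * m + 5) * (3 * m + 4)) =
      (m + 4) * (L * (6 * (m + 1))) * (4 * (4 * m + 5) * (4 * m + 3) * (4 * m + 2)) := by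
    have b1 : L' * (6 * (m + 2)) = (m + 4) * (m + 3).factorial * Zf 3 (m + 1) := by
      have : ((m : ℝ) + 3 + 1) = m + 4 := by ring
      rw [this] at a2
      rw [← a2]
      ring
    have b2 : L * (6 * (m + 1)) = (m + 3).factorial * Zf 3 m := by
      rw [← a1]
      ring
    rw [b1, b2]
    calc (m + 4) * (m + 3).factorial * Zf 3 (m + 1) * ((3 * m + 6) * (3 * m + 5) * (3 * m + 4)) =
        (m + 4) * (m + 3).factorial *
          (Zf 3 (m + 1) * ((3 * m + 6) * (3 * m + 5) * (3 * m + 4))) := by ring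
      _ = _ := by rw [z]; ring
  have goal : L' ≤ 10 * (m + 4) * L := by
    have hpos : (0 : ℝ) < (6 * (m + 2)) * ((3 * m + 6) * (3 * m + 5) * (3 * m + 4)) := by
      positivity
    refine le_of_mul_le_mul_right ?_ hpos
    rw [← mul_assoc L', key]
    have h1 : (6 * ((m : ℝ) + 1)) * (4 * (4 * m + 5) * (4 * m + 3) * (4 * m + 2)) ≤
        10 * ((6 * (m + 2)) * ((3 * m + 6) * (3 * m + 5) * (3 * m + 4))) := by
      have : 0 ≤ 10 * ((6 * ((m : ℝ) + 2)) * ((3 * m + 6) * (3 * m + 5) * (3 * m + 4))) -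
          (6 * ((m : ℝ) + 1)) * (4 * (4 * m + 5) * (4 * m + 3) * (4 * m + 2)) := by
        ring_nf
        positivity
      linarith
    have h2 : 0 ≤ ((m : ℝ) + 4) * L := by positivity
    nlinarith [mul_le_mul_of_nonneg_left h1 h2]
  have goal' : ((Lab (m + 3 + 1)).card : ℝ) ≤
      ((10 * (m + 3 + 1) * (Lab (m + 3)).card : ℕ) : ℝ) := by
    push_cast
    have : (m : ℝ) + 3 + 1 = m + 4 := by ring
    rw [this]
    exact goal
  exact_mod_cast goal'

/-- `#Lab (n+1) / #Lab n = (n+1) r(n-3) (6n-12)/(6n-6)` with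
`r(m) = 4 (4m+5)(4m+3)(4m+2) / ((3m+6)(3m+5)(3m+4))`, which tends to `256/27 > 8`; `n1 = 100` is
enough (a polynomial inequality). -/
theorem lab_lower (hlab : LabCard) {n : ℕ} (hn : 100 ≤ n) :
    8 * (n + 1) * (Lab n).card ≤ (Lab (n + 1)).card := by
  obtain ⟨m, rfl⟩ : ∃ m, n = m + 3 := ⟨n - 3, by omega⟩
  have a1 := hlab (m + 3) (by omega)
  have a2 := hlab (m + 3 + 1) (by omega)
  rw [show m + 3 - 3 = m by omega] at a1
  rw [show m + 3 + 1 - 3 = m + 1 by omega, Nat.factorial_succ] at a2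
  have z := Zf_succ m
  set L := ((Lab (m + 3)).card : ℝ) with hL
  set L' := ((Lab (m + 3 + 1)).card : ℝ) with hL'
  have hL0 : 0 ≤ L := Nat.cast_nonneg _
  push_cast at a1 a2
  have hm : (97 : ℝ) ≤ m := by
    have : 97 ≤ m := by omega
    exact_mod_cast this
  have key : L' * (6 * (m + 2)) * ((3 * m + 6) * (3 * m + 5) * (3 * m + 4)) =
      (m + 4) * (L * (6 * (m + 1))) * (4 * (4 * m + 5) * (4 * m + 3) * (4 * m + 2)) := by
    have b1 : L' * (6 * (m + 2)) = (m + 4) * (m + 3).factorial * Zf 3 (m + 1) := by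
      have : ((m : ℝ) + 3 + 1) = m + 4 := by ring
      rw [this] at a2
      rw [← a2]
      ring
    have b2 : L * (6 * (m + 1)) = (m + 3).factorial * Zf 3 m := by
      rw [← a1]
      ring
    rw [b1, b2]
    calc (m + 4) * (m + 3).factorial * Zf 3 (m + 1) * ((3 * m + 6) * (3 * m + 5) * (3 * m + 4)) =
        (m + 4) * (m + 3).factorial *
          (Zf 3 (m + 1) * ((3 * m + 6) * (3 * m + 5) * (3 * m + 4))) := by ring
      _ = _ := by rw [z]; ring
  have goal : 8 * (m + 4) * L ≤ L' := by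
    have hpos : (0 : ℝ) < (6 * (m + 2)) * ((3 * m + 6) * (3 * m + 5) * (3 * m + 4)) := by
      positivity
    refine le_of_mul_le_mul_right ?_ hpos
    rw [← mul_assoc L', key]
    have h1 : 8 * ((6 * ((m : ℝ) + 2)) * ((3 * m + 6) * (3 * m + 5) * (3 * m + 4))) ≤
        (6 * ((m : ℝ) + 1)) * (4 * (4 * m + 5) * (4 * m + 3) * (4 * m + 2)) := by
      obtain ⟨k, hk⟩ : ∃ k : ℝ, (m : ℝ) = 97 + k := ⟨m - 97, by ring⟩
      have hk0 : 0 ≤ k := by linarith
      rw [hk]
      have : 0 ≤ (6 * ((97 + k : ℝ) + 1)) * (4 * (4 * (97 + k) + 5) * (4 * (97 + k) + 3) *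
          (4 * (97 + k) + 2)) - 8 * ((6 * ((97 + k : ℝ) + 2)) * ((3 * (97 + k) + 6) *
          (3 * (97 + k) + 5) * (3 * (97 + k) + 4))) := by
        ring_nf
        positivity
      linarith
    have h2 : 0 ≤ ((m : ℝ) + 4) * L := by positivity
    nlinarith [mul_le_mul_of_nonneg_left h1 h2]
  have goal' : ((8 * (m + 3 + 1) * (Lab (m + 3)).card : ℕ) : ℝ) ≤
      ((Lab (m + 3 + 1)).card : ℝ) := by
    push_cast
    have : (m : ℝ) + 3 + 1 = m + 4 := by ring
    rw [this]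
    exact goal
  exact_mod_cast goal'

end H19S.Asy
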