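import Pool.Agent.Lib.H19S.H8

/-!
# H19S, chunk H9: double counting, lower bound
-/

namespace H19S.Asy

open Finset

theorem H9_sum1 {N a b : ℕ} (ha : a ∈ range N) (hb : b ∈ range N) :
    ∑ c ∈ range N, (if a ≠ b ∧ a ≠ c ∧ b ≠ c then 1 else 0) = if a ≠ b then N - 2 else 0 := by
  by_cases h : a = b
  · simp [h]
  · rw [if_pos h, ← card_filter]
    have : ((range N).filter fun c => a ≠ b ∧ a ≠ c ∧ b ≠ c) = ((range N).erase a).erase b := by
      ext c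
      simp only [mem_filter, mem_erase]
      constructor
      · rintro ⟨h1, h2, h3, h4⟩
        exact ⟨h4.symm, h3.symm, h1⟩
      · rintro ⟨h1, h2, h3⟩
        exact ⟨h3, h, h2.symm, h1.symm⟩
    rw [this, card_erase_of_mem (mem_erase.2 ⟨fun h' => h h'.symm, hb⟩), card_erase_of_mem ha,
      card_range]
    omega

theorem H9_sum2 {N a : ℕ} (ha : a ∈ range N) :
    ∑ b ∈ range N, (if a ≠ b then N - 2 else 0) = (N - 1) * (N - 2) := by
  rw [← sum_filter, sum_const, smul_eq_mul]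
  have : ((range N).filter fun b => a ≠ b) = (range N).erase a := by
    ext c
    simp only [mem_filter, mem_erase]
    constructor
    · rintro ⟨h1, h2⟩
      exact ⟨h2.symm, h1⟩
    · rintro ⟨h1, h2⟩
      exact ⟨h2, h1.symm⟩
  rw [this, card_erase_of_mem ha, card_range]

theorem card_X3 (n : ℕ) : (X3 (n + 3)).card = (n + 3) * (n + 2) * (n + 1) := by
  rw [X3, card_filter, sum_product]
  have h1 : ∀ a ∈ range (n + 3), ∑ y ∈ range (n + 3) ×ˢ range (n + 3),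
      (if (a, y).1 ≠ (a, y).2.1 ∧ (a, y).1 ≠ (a, y).2.2 ∧ (a, y).2.1 ≠ (a, y).2.2 then 1 else 0) =
      (n + 3 - 1) * (n + 3 - 2) := by
    intro a ha
    rw [sum_product, ← H9_sum2 ha]
    exact sum_congr rfl fun b hb => H9_sum1 ha hb
  rw [sum_congr rfl h1, sum_const, card_range, smul_eq_mul]
  have e1 : n + 3 - 1 = n + 2 := by omega
  have e2 : n + 3 - 2 = n + 1 := by omega
  rw [e1, e2]
  ring

theorem H9_new3 {n : ℕ} {x : ℕ × ℕ × ℕ} (hx : x ∈ X3 (n + 3)) {F : Finset (ℕ × ℕ × ℕ)}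
    (hv : vs F = range (n + 3) \ {x.1, x.2.1, x.2.2}) : New3 F x := by
  rw [X3, mem_filter] at hx
  obtain ⟨-, h12, h13, h23⟩ := hx
  refine ⟨?_, ?_, ?_, h12, h13, h23⟩ <;> rw [hv] <;> simp

theorem H9_card {n : ℕ} {x : ℕ × ℕ × ℕ} (hx : x ∈ X3 (n + 3)) :
    (range (n + 3) \ {x.1, x.2.1, x.2.2}).card = n := by
  rw [X3, mem_filter, mem_product, mem_product] at hx
  obtain ⟨⟨h1, h2, h3⟩, h12, h13, h23⟩ := hx
  rw [card_sdiff_of_subset, card_range, card_insert_of_notMem, card_pair h23]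
  · omega
  · simp [h12, h13]
  · intro y hy
    simp only [mem_insert, mem_singleton] at hy
    rcases hy with rfl | rfl | rfl <;> assumption

theorem H9_vs {n : ℕ} {x : ℕ × ℕ × ℕ} (hx : x ∈ X3 (n + 3)) :
    {x.1, x.2.1, x.2.2} ∪ (range (n + 3) \ {x.1, x.2.1, x.2.2}) = range (n + 3) := by
  rw [X3, mem_filter, mem_product, mem_product] at hx
  obtain ⟨⟨h1, h2, h3⟩, -⟩ := hx
  apply union_sdiff_of_subset
  intro y hy
  simp only [mem_insert, mem_singleton] at hy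
  rcases hy with rfl | rfl | rfl <;> assumption

/-- The map `(x, F, p) ↦ (F', s)`, `F' = insV3 F p x`, `s_i = (x_i, (p_i).1, (p_i).2.1)`, is injective
(`x` is read off from `s`, then `insV3_inj`) from the sigma type of the left side to the one of the right
side: `F' ∈ Lab (n+3)` by `insV3_tri` and `vs_insV3`, `s_i ∈ F'` by `around_insV3`, `AData` by
`aData_insV3` (`g = gof F`, `exists_nAut`).  (`Finset.card_sigma`, `Finset.card_le_card_of_injOn`.) -/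
theorem count_inj {n : ℕ} (hn : 5 ≤ n) :
    ∑ x ∈ X3 (n + 3), ∑ F ∈ GS (range (n + 3) \ {x.1, x.2.1, x.2.2}), (Adm F (gof F)).card ≤
      ∑ F ∈ Lab (n + 3), (Sg F).card := by
  have e1 : ∑ x ∈ X3 (n + 3), ∑ F ∈ GS (range (n + 3) \ {x.1, x.2.1, x.2.2}),
      (Adm F (gof F)).card = ((X3 (n + 3)).sigma fun x =>
        (GS (range (n + 3) \ {x.1, x.2.1, x.2.2})).sigma fun F => Adm F (gof F)).card := by
    rw [card_sigma]
    exact sum_congr rfl fun x _ => (card_sigma _ _).symm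
  rw [e1, ← card_sigma]
  have hmem : ∀ {x : ℕ × ℕ × ℕ} {F : Finset (ℕ × ℕ × ℕ)}
      {p : (ℕ × ℕ × ℕ) × (ℕ × ℕ × ℕ) × (ℕ × ℕ × ℕ)}, x ∈ X3 (n + 3) →
      F ∈ GS (range (n + 3) \ {x.1, x.2.1, x.2.2}) → p ∈ Adm F (gof F) →
      IsTri F ∧ 4 ≤ (vs F).card ∧ New3 F x ∧ NAut F (gof F) ∧
        vs F = range (n + 3) \ {x.1, x.2.1, x.2.2} := by
    intro x F p hx hF hp
    simp only [GS, mem_filter, mem_LabS] at hF
    obtain ⟨⟨hF1, hF2⟩, hF3⟩ := hF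
    refine ⟨hF1, ?_, H9_new3 hx hF2, exists_nAut hF3.1, hF2⟩
    rw [hF2, H9_card hx]
    omega
  refine card_le_card_of_injOn
    (fun q => ⟨insV3 q.2.1 q.2.2 q.1, ((q.1.1, q.2.2.1.1, q.2.2.1.2.1),
      (q.1.2.1, q.2.2.2.1.1, q.2.2.2.1.2.1), (q.1.2.2, q.2.2.2.2.1, q.2.2.2.2.2.1))⟩) ?_ ?_
  · rintro ⟨x, F, p⟩ hq
    simp only [coe_sigma, Set.mem_sigma_iff, mem_coe, mem_sigma] at hq ⊢
    obtain ⟨hx, hF, hp⟩ := hq
    obtain ⟨hT, h4, hN, hA, hv⟩ := hmem hx hF hp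
    have P := fun s => around_insV3 hT h4 hp hN (s := s)
    refine ⟨?_, ?_⟩
    · rw [mem_Lab]
      refine ⟨insV3_tri hT h4 hp hN, ?_⟩
      rw [vs_insV3 hT h4 hp hN, hv, H9_vs hx]
    · simp only [Sg, mem_filter, mem_product]
      exact ⟨⟨((P _).1.2 (H8_mem_rot3_self _)).1, ((P _).2.1.2 (H8_mem_rot3_self _)).1,
        ((P _).2.2.1.2 (H8_mem_rot3_self _)).1⟩, aData_insV3 hT h4 hA hp hN⟩
  · rintro ⟨x, F, p⟩ hq ⟨y, G, q⟩ hr he
    simp only [coe_sigma, Set.mem_sigma_iff, mem_coe, mem_sigma] at hq hr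
    obtain ⟨hx, hF, hp⟩ := hq
    obtain ⟨hy, hG, hq⟩ := hr
    simp only [Sigma.mk.injEq, heq_eq_eq, Prod.mk.injEq] at he
    obtain ⟨h0, ⟨a1, a2, a3⟩, ⟨b1, b2, b3⟩, c1, c2, c3⟩ := he
    have hxy : x = y := Prod.ext a1 (Prod.ext b1 c1)
    subst hxy
    obtain ⟨hT, h4, hN, hA, hv⟩ := hmem hx hF hp
    obtain ⟨hT', h4', hN', hA', hv'⟩ := hmem hy hG hq
    obtain ⟨rfl, rfl⟩ := insV3_inj hT hT' h4 h4' hp hq hN hN' h0 a2 a3 b2 b3 c2 c3
    rfl

end H19S.Asy
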