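import Pool.Agent.Lib.H19S.H6
import Pool.Agent.Lib.H19S.H9
import Pool.Agent.Lib.H19S.H10
import Pool.Agent.Lib.H19S.H12
import Pool.Agent.Lib.H19S.H13

/-!
# H19S, chunk H14: almost all triangulations are asymmetric
-/

namespace H19S.Asy

open Finset

theorem H14_card_sdiff {n : ℕ} {x : ℕ × ℕ × ℕ} (hx : x ∈ X3 (n + 3)) :
    (range (n + 3) \ {x.1, x.2.1, x.2.2}).card = n := by
  rw [X3, mem_filter, mem_product, mem_product] at hx
  obtain ⟨⟨h1, h2, h3⟩, h12, h13, h23⟩ := hx
  rw [card_sdiff_of_subset, card_range, card_insert_of_notMem, card_pair h23]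
  · omega
  · simp [h12, h13]
  · intro y hy
    simp only [mem_insert, mem_singleton] at hy
    rcases hy with rfl | rfl | rfl <;> assumption

/-- `(n+3)(n+2)(n+1) #GS n * n^3/16 ≤ ∑ #Adm ≤ ∑ #Sg ≤ 729 (6 (n+3)) #Lab (n+3)` (`card_X3`, `card_GS`,
`card_Adm_ge`, `count_inj`, `card_Sg`) and `#Lab (n+3) ≤ 1000 (n+3)(n+2)(n+1) #Lab n` (`lab_upper`), so
`#GS n * n^3 ≤ 16 * 729 * 6000 * (n+3) #Lab n`. -/
theorem gs_bound (hlab : LabCard) {n : ℕ} (hn : 108 ≤ n) :
    (GS (range n)).card * n ^ 2 ≤ 140000000 * (Lab n).card := by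
  have h1 := count_inj (n := n) (by omega)
  have h2 : (n + 3) * (n + 2) * (n + 1) * ((GS (range n)).card * n ^ 3) ≤
      16 * ∑ x ∈ X3 (n + 3), ∑ F ∈ GS (range (n + 3) \ {x.1, x.2.1, x.2.2}),
        (Adm F (gof F)).card := by
    rw [← card_X3, ← smul_eq_mul, ← sum_const, mul_sum]
    refine sum_le_sum fun x hx => ?_
    rw [← card_GS (H14_card_sdiff hx), ← smul_eq_mul, ← sum_const, mul_sum]
    refine sum_le_sum fun F hF => ?_
    simp only [GS, mem_filter, mem_LabS] at hF
    obtain ⟨⟨hF1, hF2⟩, hF3⟩ := hF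
    have hc : (vs F).card = n := by rw [hF2, H14_card_sdiff hx]
    have := card_Adm_ge hF1 (by omega) hF3
    rwa [hc] at this
  have h3 : ∑ F ∈ Lab (n + 3), (Sg F).card ≤ (Lab (n + 3)).card * (729 * (6 * (n + 1))) := by
    rw [← smul_eq_mul, ← sum_const]
    refine sum_le_sum fun F hF => ?_
    rw [mem_Lab] at hF
    have hc : (vs F).card = n + 3 := by rw [hF.2, card_range]
    have h4 := card_Sg hF.1 (by omega)
    have h5 := hF.1.euler
    rw [hc] at h5
    have h6 : F.card = 6 * (n + 1) := by omega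
    rwa [h6] at h4
  have h4 : (Lab (n + 3)).card ≤ 1000 * ((n + 3) * (n + 2) * (n + 1)) * (Lab n).card := by
    have e1 := lab_upper hlab (n := n) (by omega)
    have e2 := lab_upper hlab (n := n + 1) (by omega)
    have e3 := lab_upper hlab (n := n + 2) (by omega)
    calc (Lab (n + 3)).card ≤ 10 * (n + 2 + 1) * (Lab (n + 2)).card := e3
      _ ≤ 10 * (n + 2 + 1) * (10 * (n + 1 + 1) * (Lab (n + 1)).card) := Nat.mul_le_mul_left _ e2
      _ ≤ 10 * (n + 2 + 1) * (10 * (n + 1 + 1) * (10 * (n + 1) * (Lab n).card)) :=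
          Nat.mul_le_mul_left _ (Nat.mul_le_mul_left _ e1)
      _ = _ := by ring
  have h5 : (n + 3) * (n + 2) * (n + 1) * ((GS (range n)).card * n ^ 3) ≤
      (n + 3) * (n + 2) * (n + 1) * (140000000 * (Lab n).card * n) := by
    calc (n + 3) * (n + 2) * (n + 1) * ((GS (range n)).card * n ^ 3)
        ≤ 16 * ((Lab (n + 3)).card * (729 * (6 * (n + 1)))) :=
          h2.trans (Nat.mul_le_mul_left _ (h1.trans h3))
      _ ≤ 16 * ((1000 * ((n + 3) * (n + 2) * (n + 1)) * (Lab n).card) * (729 * (6 * (n + 1)))) :=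
          Nat.mul_le_mul_left _ (Nat.mul_le_mul_right _ h4)
      _ = (n + 3) * (n + 2) * (n + 1) * ((Lab n).card * (69984000 * (n + 1))) := by ring
      _ ≤ (n + 3) * (n + 2) * (n + 1) * ((Lab n).card * (140000000 * n)) :=
          Nat.mul_le_mul_left _ (Nat.mul_le_mul_left _ (by omega))
      _ = _ := by ring
  have h6 := Nat.le_of_mul_le_mul_left h5 (by positivity)
  have h7 : (GS (range n)).card * n ^ 2 * n ≤ 140000000 * (Lab n).card * n := by
    calc _ = (GS (range n)).card * n ^ 3 := by ring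
      _ ≤ _ := h6
  exact Nat.le_of_mul_le_mul_right h7 (by omega)

/-- A symmetric triangulation is in `GS (range n)` or in `Ex n ((2n+4)/5)`. -/
theorem symbound_of (hlab : LabCard) : ∃ C : ℝ, ∀ n : ℕ, 10 ≤ n →
    (by classical exact (((Lab n).filter (fun F => ¬ Asym F)).card : ℝ)) * n ^ 2 ≤
      C * (Lab n).card := by
  classical
  obtain ⟨C, hC0, hC⟩ := exc_bound (n1 := 100) (by norm_num) (fun n hn => lab_lower hlab hn)
  refine ⟨C + 140000000, fun n hn => ?_⟩
  have hle : ((Lab n).filter (fun F => ¬ Asym F)).card ≤ (Lab n).card := card_filter_le _ _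
  have hL0 : (0 : ℝ) ≤ (Lab n).card := Nat.cast_nonneg _
  rcases lt_or_ge n 108 with h | h
  · have h1 : ((n : ℝ)) ^ 2 ≤ 140000000 := by
      have : (n : ℝ) ≤ 108 := by exact_mod_cast h.le
      nlinarith
    have h2 : (((Lab n).filter (fun F => ¬ Asym F)).card : ℝ) ≤ (Lab n).card := by
      exact_mod_cast hle
    calc (((Lab n).filter (fun F => ¬ Asym F)).card : ℝ) * n ^ 2
        ≤ (Lab n).card * 140000000 := mul_le_mul h2 h1 (by positivity) hL0
      _ ≤ (C + 140000000) * (Lab n).card := by nlinarith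
  · have hsub : (Lab n).filter (fun F => ¬ Asym F) ⊆ GS (range n) ∪ Ex n ((2 * n + 4) / 5) := by
      intro F hF
      rw [mem_filter] at hF
      obtain ⟨hF1, hF2⟩ := hF
      rw [mem_union]
      by_cases hd : 5 * (D3 F).card < 2 * (vs F).card
      · left
        simp only [GS, mem_filter]
        exact ⟨hF1, hF2, hd⟩
      · right
        rw [Ex, mem_filter]
        refine ⟨hF1, ?_⟩
        rw [(mem_Lab.1 hF1).2, card_range] at hd
        omega
    have h1 : ((Lab n).filter (fun F => ¬ Asym F)).card ≤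
        (GS (range n)).card + (Ex n ((2 * n + 4) / 5)).card :=
      (card_le_card hsub).trans (card_union_le _ _)
    have h2 : (((Lab n).filter (fun F => ¬ Asym F)).card : ℝ) ≤
        (GS (range n)).card + (Ex n ((2 * n + 4) / 5)).card := by exact_mod_cast h1
    have h3 : ((GS (range n)).card : ℝ) * n ^ 2 ≤ 140000000 * (Lab n).card := by
      exact_mod_cast gs_bound hlab h
    have h4 := hC n
    calc (((Lab n).filter (fun F => ¬ Asym F)).card : ℝ) * n ^ 2
        ≤ ((GS (range n)).card + (Ex n ((2 * n + 4) / 5)).card) * n ^ 2 :=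
          mul_le_mul_of_nonneg_right h2 (by positivity)
      _ ≤ (C + 140000000) * (Lab n).card := by nlinarith

end H19S.Asy
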