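import Pool.Agent.Lib.H19S.HDefs

/-!
# H19S, chunk H2: insertion of a vertex of degree three
-/

namespace H19S.Asy

open Finset

variable {α : Type*} [DecidableEq α] {F : Finset (α × α × α)}

theorem mem_rot3 {s t : α × α × α} :
    s ∈ rot3 t ↔ s = t ∨ s = (t.2.1, t.2.2, t.1) ∨ s = (t.2.2, t.1, t.2.1) := by
  simp [rot3, rots]

theorem card_rot3_le (t : α × α × α) : (rot3 t).card ≤ 3 := by
  unfold rot3 rots
  exact card_le_three

theorem rot3_symm {s t : α × α × α} (h : s ∈ rot3 t) : t ∈ rot3 s := by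
  obtain ⟨a, b, c⟩ := s
  obtain ⟨a', b', c'⟩ := t
  rw [mem_rot3] at h ⊢
  simp only [Prod.mk.injEq] at h ⊢
  grind

/-- `ins3` (A7). -/
theorem insV_tri (hF : IsTri F) {t : α × α × α} {w : α} (ht : t ∈ F) (hw : w ∉ vs F) :
    IsTri (insV F t w) := by
  obtain ⟨a, b, c⟩ := t
  exact ins3 hF ht hw

/-- `vs_ins3` (A7). -/
theorem vs_insV (hF : IsTri F) {t : α × α × α} {w : α} (ht : t ∈ F) (hw : w ∉ vs F) :
    vs (insV F t w) = insert w (vs F) := by
  obtain ⟨a, b, c⟩ := t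
  exact vs_ins3 hF ht hw

theorem h2_mem {a b c w x y z : α} : (x, y, z) ∈ insV F (a, b, c) w ↔
    ((x, y, z) ∈ F ∧ ¬ ((x = a ∧ y = b ∧ z = c) ∨ (x = b ∧ y = c ∧ z = a) ∨
      (x = c ∧ y = a ∧ z = b))) ∨
    ((x = a ∧ y = b ∧ z = w) ∨ (x = b ∧ y = w ∧ z = a) ∨ (x = w ∧ y = a ∧ z = b)) ∨
    ((x = b ∧ y = c ∧ z = w) ∨ (x = c ∧ y = w ∧ z = b) ∨ (x = w ∧ y = b ∧ z = c)) ∨
    ((x = c ∧ y = a ∧ z = w) ∨ (x = a ∧ y = w ∧ z = c) ∨ (x = w ∧ y = c ∧ z = a)) := by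
  unfold insV
  simp only [mem_union, mem_sdiff, A7_mem_rots]
  rw [or_assoc]

/-- The old faces. -/
theorem mem_insV_old {t s : α × α × α} {w : α} (h1 : s.1 ≠ w) (h2 : s.2.1 ≠ w) (h3 : s.2.2 ≠ w) :
    s ∈ insV F t w ↔ s ∈ F ∧ s ∉ rot3 t := by
  obtain ⟨a, b, c⟩ := t
  obtain ⟨x, y, z⟩ := s
  rw [h2_mem, mem_rot3]
  simp only [Prod.mk.injEq] at h1 h2 h3 ⊢
  grind

/-- The new faces: the triangle around `w` is `t`. -/
theorem around_new (hF : IsTri F) {t s : α × α × α} {w : α} (ht : t ∈ F) (hw : w ∉ vs F) :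
    Around (insV F t w) w s ↔ s ∈ rot3 t := by
  obtain ⟨a, b, c⟩ := t
  obtain ⟨x, y, z⟩ := s
  have n1 : a ≠ b := hF.ne ht
  have n2 : b ≠ c := hF.toIsSurf.ne2 ht
  have n3 : c ≠ a := hF.toIsSurf.ne3 ht
  have m1 : a ≠ w := fun h => hw (h ▸ hF.toIsSurf.vs1 ht)
  have m2 : b ≠ w := fun h => hw (h ▸ hF.toIsSurf.vs2 ht)
  have m3 : c ≠ w := fun h => hw (h ▸ hF.toIsSurf.vs3 ht)
  have hF0 : ∀ y z, (w, y, z) ∉ F := fun y z h => hw (hF.toIsSurf.vs1 h)
  unfold Around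
  simp only [h2_mem, mem_rot3, hF0, Prod.mk.injEq]
  grind

theorem h2_filter_new (hF : IsTri F) {a b c w : α} (ht : (a, b, c) ∈ F) (hw : w ∉ vs F) :
    (insV F (a, b, c) w).filter (fun t => t.1 = w) = {(w, a, b), (w, b, c), (w, c, a)} := by
  have m1 : a ≠ w := fun h => hw (h ▸ hF.toIsSurf.vs1 ht)
  have m2 : b ≠ w := fun h => hw (h ▸ hF.toIsSurf.vs2 ht)
  have m3 : c ≠ w := fun h => hw (h ▸ hF.toIsSurf.vs3 ht)
  have hF0 : ∀ y z, (w, y, z) ∉ F := fun y z h => hw (hF.toIsSurf.vs1 h)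
  ext ⟨x, y, z⟩
  rw [mem_filter, h2_mem]
  simp only [mem_insert, mem_singleton, Prod.mk.injEq]
  constructor
  · rintro ⟨h, rfl⟩
    simp only [hF0, false_and, false_or] at h
    grind
  · intro h
    grind

/-- The faces at `w` are `(w, t.1, t.2.1), (w, t.2.1, t.2.2), (w, t.2.2, t.1)`. -/
theorem deg_insV_new (hF : IsTri F) {t : α × α × α} {w : α} (ht : t ∈ F) (hw : w ∉ vs F) :
    deg (insV F t w) w = 3 := by
  obtain ⟨a, b, c⟩ := t
  have n1 : a ≠ b := hF.ne ht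
  have n2 : b ≠ c := hF.toIsSurf.ne2 ht
  have n3 : c ≠ a := hF.toIsSurf.ne3 ht
  unfold deg
  rw [h2_filter_new hF ht hw, card_insert_of_notMem, card_insert_of_notMem, card_singleton]
  · simp only [mem_singleton, Prod.mk.injEq]
    grind
  · simp only [mem_insert, mem_singleton, Prod.mk.injEq]
    grind

theorem h2_deg_vert (hF : IsTri F) {a b c w : α} (ht : (a, b, c) ∈ F) (hw : w ∉ vs F) :
    deg (insV F (a, b, c) w) a = deg F a + 1 := by
  have n1 : a ≠ b := hF.ne ht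
  have n2 : b ≠ c := hF.toIsSurf.ne2 ht
  have n3 : c ≠ a := hF.toIsSurf.ne3 ht
  have m1 : a ≠ w := fun h => hw (h ▸ hF.toIsSurf.vs1 ht)
  have m2 : b ≠ w := fun h => hw (h ▸ hF.toIsSurf.vs2 ht)
  have m3 : c ≠ w := fun h => hw (h ▸ hF.toIsSurf.vs3 ht)
  have hF1 : ∀ x z, (x, w, z) ∉ F := fun y z h => hw (hF.toIsSurf.vs2 h)
  have hF2 : ∀ x z, (x, z, w) ∉ F := fun y z h => hw (hF.toIsSurf.vs3 h)
  unfold deg
  have e : (insV F (a, b, c) w).filter (fun t => t.1 = a) =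
      insert (a, b, w) (insert (a, w, c) ((F.filter (fun t => t.1 = a)).erase (a, b, c))) := by
    ext ⟨x, y, z⟩
    rw [mem_filter, h2_mem]
    simp only [mem_insert, mem_erase, mem_filter, Prod.mk.injEq, ne_eq]
    constructor
    · rintro ⟨h, rfl⟩
      grind
    · intro h
      rcases h with ⟨rfl, rfl, rfl⟩ | ⟨rfl, rfl, rfl⟩ | ⟨h, h', rfl⟩
      · grind
      · grind
      · refine ⟨Or.inl ⟨h', ?_⟩, rfl⟩
        grind
  rw [e, card_insert_of_notMem, card_insert_of_notMem, card_erase_of_mem]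
  · have : 0 < (F.filter (fun t => t.1 = a)).card := card_pos.mpr ⟨_, mem_filter.mpr ⟨ht, rfl⟩⟩
    omega
  · exact mem_filter.mpr ⟨ht, rfl⟩
  · simp only [mem_erase, mem_filter, hF1, false_and, and_false, not_false_eq_true]
  · simp only [mem_insert, mem_erase, mem_filter, hF2, false_and, and_false, Prod.mk.injEq]
    grind

theorem h2_insV_rot (F : Finset (α × α × α)) (a b c w : α) :
    insV F (a, b, c) w = insV F (b, c, a) w := by
  have e : rots a b c = rots b c a := by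
    ext ⟨x, y, z⟩
    rw [A7_mem_rots, A7_mem_rots]
    grind
  unfold insV
  simp only
  rw [e, union_assoc (rots a b w), union_comm (rots a b w)]

/-- The degree of the vertices of `t` increases by one (the one face `t` at `y` is replaced by two). -/
theorem deg_insV_vert (hF : IsTri F) {t : α × α × α} {w y : α} (ht : t ∈ F) (hw : w ∉ vs F)
    (hy : y = t.1 ∨ y = t.2.1 ∨ y = t.2.2) : deg (insV F t w) y = deg F y + 1 := by
  obtain ⟨a, b, c⟩ := t
  rcases hy with rfl | rfl | rfl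
  · exact h2_deg_vert hF ht hw
  · rw [h2_insV_rot]
    exact h2_deg_vert hF (hF.rot ht) hw
  · rw [h2_insV_rot, h2_insV_rot]
    exact h2_deg_vert hF (hF.rot (hF.rot ht)) hw

/-- The degree of the other vertices does not change. -/
theorem deg_insV_other (hF : IsTri F) {t : α × α × α} {w y : α} (ht : t ∈ F) (hw : w ∉ vs F)
    (h1 : y ≠ t.1) (h2 : y ≠ t.2.1) (h3 : y ≠ t.2.2) (h4 : y ≠ w) :
    deg (insV F t w) y = deg F y := by
  obtain ⟨a, b, c⟩ := t
  have _ := hF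
  have _ := ht
  have _ := hw
  unfold deg
  congr 1
  ext ⟨x, y', z⟩
  rw [mem_filter, mem_filter, h2_mem]
  simp only at h1 h2 h3 ⊢
  constructor
  · rintro ⟨h, rfl⟩
    grind
  · rintro ⟨h, rfl⟩
    grind

end H19S.Asy
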