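import Pool.Agent.Lib.H19S.H3

/-!
# H19S, chunk H4: the base
-/

namespace H19S.Asy

open Finset

variable {α : Type*} [DecidableEq α] {F : Finset (α × α × α)}

/-- The vertices of the triangle around a vertex of degree three are not of degree three
(`D3_not_adj`). -/
theorem isBs_of_around (hF : IsTri F) (h5 : 5 ≤ (vs F).card) {x : α} (hx : x ∈ D3 F)
    {t : α × α × α} (ht : Around F x t) : IsBs F t := by
  have hS := hF.toIsSurf
  refine ⟨⟨fun h => ?_, fun h => ?_, fun h => ?_⟩, Or.inr ⟨x, hx, ht⟩⟩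
  · exact D3_not_adj hF h5 hx h ⟨_, ht.1⟩
  · exact D3_not_adj hF h5 hx h ⟨_, ht.2.1⟩
  · exact D3_not_adj hF h5 hx h ⟨_, ht.2.2⟩

theorem isBs_rot (hF : IsTri F) {a b c : α} (h : IsBs F (a, b, c)) : IsBs F (b, c, a) := by
  obtain ⟨⟨h1, h2, h3⟩, h4⟩ := h
  refine ⟨⟨h2, h3, h1⟩, ?_⟩
  rcases h4 with h4 | ⟨x, hx, k1, k2, k3⟩
  · exact Or.inl (hF.rot h4)
  · exact Or.inr ⟨x, hx, k2, k3, k1⟩

/-- A side of a face of the base is an edge of `F`. -/
theorem isBs_adj (hF : IsTri F) {a b c : α} (h : IsBs F (a, b, c)) : Adj F a b := by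
  rcases h.2 with h4 | ⟨x, hx, k1, k2, k3⟩
  · exact ⟨c, h4⟩
  · exact ⟨x, hF.rot k1⟩

/-- Four cases.  If `(a,b,c) ∈ F` and `Around F x (a,b,d)`, then `(a,b,x) ∈ F` so `x = c`, but `c ∉ D3`.
If `Around F x (a,b,c)`, `Around F y (a,b,d)` then `x = y` and `(x,b,c), (x,b,d) ∈ F`. -/
theorem isBs_uniq (hF : IsTri F) {a b c d : α} (h : IsBs F (a, b, c)) (h' : IsBs F (a, b, d)) :
    c = d := by
  have hS := hF.toIsSurf
  rcases h.2 with h4 | ⟨x, hx, k1, k2, k3⟩
  · rcases h'.2 with h4' | ⟨y, hy, l1, l2, l3⟩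
    · exact hS.uniq h4 h4'
    · have := hS.uniq h4 (hS.rot l1)
      exact absurd (this ▸ hy) h.1.2.2
  · rcases h'.2 with h4' | ⟨y, hy, l1, l2, l3⟩
    · have := hS.uniq h4' (hS.rot k1)
      exact absurd (this ▸ hx) h'.1.2.2
    · have e : x = y := hS.uniq (hS.rot k1) (hS.rot l1)
      subst e
      exact hS.uniq k2 l2

theorem exists_isBs (hF : IsTri F) (h5 : 5 ≤ (vs F).card) : ∃ t, IsBs F t := by
  by_cases hD : (D3 F).Nonempty
  · obtain ⟨x, hx⟩ := hD
    obtain ⟨t, ht⟩ := exists_around hF.toIsSurf hx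
    exact ⟨t, isBs_of_around hF h5 hx ht⟩
  · rw [not_nonempty_iff_eq_empty] at hD
    obtain ⟨t, ht⟩ := hF.nonempty
    exact ⟨t, ⟨by simp [hD], by simp [hD], by simp [hD]⟩, Or.inl ht⟩

/-- the base face seen from a dart with free ends -/
theorem h4_dart (hF : IsTri F) (h5 : 5 ≤ (vs F).card) {a b c : α} (h : (a, b, c) ∈ F)
    (ha : a ∉ D3 F) (hb : b ∉ D3 F) :
    (c ∉ D3 F ∧ IsBs F (a, b, c)) ∨ (c ∈ D3 F ∧ ∃ e, Around F c (a, b, e) ∧ IsBs F (a, b, e)) := by
  have hS := hF.toIsSurf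
  by_cases hc : c ∈ D3 F
  · refine Or.inr ⟨hc, ?_⟩
    obtain ⟨⟨p, q, r⟩, ht⟩ := exists_around hS hc
    obtain ⟨k1, k2, k3⟩ := ht
    simp only at k1 k2 k3
    have hl := hS.link k1 (hS.rot2 h)
    have hpa : a = p ∨ a = q ∨ a = r := by
      generalize a = z at hl
      induction hl with
      | refl => exact Or.inl rfl
      | @tail u v _ huv ih =>
        rcases ih with rfl | rfl | rfl
        · exact Or.inr (Or.inl (hS.uniq huv k1))
        · exact Or.inr (Or.inr (hS.uniq huv k2))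
        · exact Or.inl (hS.uniq huv k3)
    have hcab := hS.rot2 h
    rcases hpa with rfl | rfl | rfl
    · have e1 := hS.uniq hcab k1
      subst e1
      exact ⟨r, ⟨k1, k2, k3⟩, isBs_of_around hF h5 hc ⟨k1, k2, k3⟩⟩
    · have e1 := hS.uniq hcab k2
      subst e1
      exact ⟨p, ⟨k2, k3, k1⟩, isBs_of_around hF h5 hc ⟨k2, k3, k1⟩⟩
    · have e1 := hS.uniq hcab k3
      subst e1
      exact ⟨q, ⟨k3, k1, k2⟩, isBs_of_around hF h5 hc ⟨k3, k1, k2⟩⟩
  · exact Or.inl ⟨hc, ⟨ha, hb, hc⟩, Or.inl h⟩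

/-- The base is connected (in the dual sense).  Proof: let `R` be the set of the `s ∈ F` such that
either `s` is free and `P s`, or one of the three entries of `s` is a vertex `x ∈ D3 F` and `P t` for
every triangle `t` around `x`.  `R` is closed under rotation and under crossing sides inside `F`: let
`(a,b,c) ∈ R`, `(b,a,d) ∈ F`.
(i) If `a ∈ D3 F` (or `b ∈ D3 F`), both faces have the same vertex of degree three.
(ii) If `a, b ∉ D3 F`: let `t = (a,b,c)` if `c ∉ D3 F`, and `t = (a,b,c')` the triangle around `c` if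
`c ∈ D3 F`: in both cases `IsBs F t`, `P t`; similarly `t' = (b,a,d)` or `(b,a,d')`, `IsBs F t'`; so
`P t'` by `hcr`, and by `hrot` and `around_unique` for all triangles around `d`.
So `R = F` by `IsSurf.eq_of_bd_empty` (A1), and every `t` with `IsBs F t` has `P t`. -/
theorem isBs_ind (hF : IsTri F) (h5 : 5 ≤ (vs F).card) (P : α × α × α → Prop)
    (hrot : ∀ a b c, IsBs F (a, b, c) → P (a, b, c) → P (b, c, a))
    (hcr : ∀ a b c d, IsBs F (a, b, c) → P (a, b, c) → IsBs F (b, a, d) → P (b, a, d))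
    {t₀ : α × α × α} (h₀ : IsBs F t₀) (hP : P t₀) : ∀ t, IsBs F t → P t := by
  classical
  have hS := hF.toIsSurf
  -- property of a face
  let Q : α × α × α → Prop := fun s =>
    (Free F s ∧ P s) ∨ ∃ x ∈ D3 F, (x = s.1 ∨ x = s.2.1 ∨ x = s.2.2) ∧
      ∀ t, Around F x t → P t
  have hallrot : ∀ x ∈ D3 F, ∀ t, Around F x t → P t → ∀ t', Around F x t' → P t' := by
    rintro x hx ⟨a, b, c⟩ ht hPt t' ht'
    have hb := isBs_of_around hF h5 hx ht
    have := around_unique hS hx ht' ht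
    rw [mem_rot3] at this
    have hPb := hrot a b c hb hPt
    have hPc := hrot b c a (isBs_rot hF hb) hPb
    rcases this with rfl | rfl | rfl
    exacts [hPt, hPb, hPc]
  have hR : (F.filter Q) = F := by
    apply hS.eq_of_bd_empty (filter_subset _ _)
    · intro a b c h
      rw [mem_filter] at h ⊢
      refine ⟨hF.rot h.1, ?_⟩
      rcases h.2 with ⟨⟨f1, f2, f3⟩, hp⟩ | ⟨x, hx, hxs, hall⟩
      · exact Or.inl ⟨⟨f2, f3, f1⟩, hrot a b c ⟨⟨f1, f2, f3⟩, Or.inl h.1⟩ hp⟩
      · refine Or.inr ⟨x, hx, ?_, hall⟩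
        simp only at hxs ⊢
        tauto
    · rcases h₀.2 with h4 | ⟨x, hx, ht⟩
      · exact ⟨t₀, mem_filter.2 ⟨h4, Or.inl ⟨h₀.1, hP⟩⟩⟩
      · exact ⟨(x, t₀.1, t₀.2.1), mem_filter.2 ⟨ht.1, Or.inr ⟨x, hx, Or.inl rfl,
          hallrot x hx t₀ ht hP⟩⟩⟩
    · intro a b c d h hopp
      rw [mem_filter] at h ⊢
      refine ⟨hopp, ?_⟩
      obtain ⟨habc, hQ⟩ := h
      by_cases ha : a ∈ D3 F
      · rcases hQ with ⟨⟨f1, _, _⟩, _⟩ | ⟨x, hx, hxs, hall⟩
        · exact absurd ha f1
        · by_cases hxa : x = a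
          · exact Or.inr ⟨x, hx, Or.inr (Or.inl hxa), hall⟩
          · exfalso
            have hadj : Adj F a x := by
              simp only at hxs
              rcases hxs with rfl | rfl | rfl
              · exact absurd rfl hxa
              · exact ⟨_, habc⟩
              · exact hS.adj_symm ⟨_, hS.rot2 habc⟩
            exact D3_not_adj hF h5 ha hx hadj
      · by_cases hb : b ∈ D3 F
        · rcases hQ with ⟨⟨_, f1, _⟩, _⟩ | ⟨x, hx, hxs, hall⟩
          · exact absurd hb f1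
          · by_cases hxb : x = b
            · exact Or.inr ⟨x, hx, Or.inl hxb, hall⟩
            · exfalso
              have hadj : Adj F b x := by
                simp only at hxs
                rcases hxs with rfl | rfl | rfl
                · exact hS.adj_symm ⟨_, habc⟩
                · exact absurd rfl hxb
                · exact ⟨_, hS.rot habc⟩
              exact D3_not_adj hF h5 hb hx hadj
        · -- the base face on the left
          have hleft : ∃ e, IsBs F (a, b, e) ∧ P (a, b, e) := by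
            rcases h4_dart hF h5 habc ha hb with ⟨hc, hB⟩ | ⟨hc, e, hAr, hB⟩
            · refine ⟨c, hB, ?_⟩
              rcases hQ with ⟨_, hp⟩ | ⟨x, hx, hxs, _⟩
              · exact hp
              · simp only at hxs
                rcases hxs with rfl | rfl | rfl
                exacts [absurd hx ha, absurd hx hb, absurd hx hc]
            · refine ⟨e, hB, ?_⟩
              rcases hQ with ⟨⟨_, _, f3⟩, _⟩ | ⟨x, hx, hxs, hall⟩
              · exact absurd hc f3
              · simp only at hxs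
                rcases hxs with rfl | rfl | rfl
                exacts [absurd hx ha, absurd hx hb, hall _ hAr]
          obtain ⟨e, hBe, hPe⟩ := hleft
          rcases h4_dart hF h5 hopp hb ha with ⟨hd, hB⟩ | ⟨hd, e', hAr, hB⟩
          · exact Or.inl ⟨⟨hb, ha, hd⟩, hcr a b e d hBe hPe hB⟩
          · exact Or.inr ⟨d, hd, Or.inr (Or.inr rfl),
              hallrot d hd _ hAr (hcr a b e e' hBe hPe hB)⟩
  intro t ht
  rcases ht.2 with h4 | ⟨x, hx, hAr⟩
  · have h6 := h4
    rw [← hR, mem_filter] at h6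
    rcases h6.2 with ⟨_, hp⟩ | ⟨x, hx, hxs, _⟩
    · exact hp
    · obtain ⟨f1, f2, f3⟩ := ht.1
      rcases hxs with rfl | rfl | rfl
      exacts [absurd hx f1, absurd hx f2, absurd hx f3]
  · have h6 := hAr.1
    rw [← hR, mem_filter] at h6
    rcases h6.2 with ⟨⟨f1, _, _⟩, _⟩ | ⟨y, hy, hys, hall⟩
    · exact absurd hx f1
    · obtain ⟨f1, f2, f3⟩ := ht.1
      simp only at hys
      rcases hys with rfl | rfl | rfl
      exacts [hall _ hAr, absurd hy f1, absurd hy f2]

/-- Rigidity: two self-maps of the base which agree on one face agree on all faces (`isBs_ind` with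
`P t := map3 g t = map3 g' t`; for crossing use `isBs_uniq`). -/
theorem isBs_rigid (hF : IsTri F) (h5 : 5 ≤ (vs F).card) {g g' : α → α}
    (hg : ∀ t, IsBs F t → IsBs F (map3 g t)) (hg' : ∀ t, IsBs F t → IsBs F (map3 g' t))
    {t₀ : α × α × α} (h₀ : IsBs F t₀) (h : map3 g t₀ = map3 g' t₀) :
    ∀ t, IsBs F t → map3 g t = map3 g' t := by
  apply isBs_ind hF h5 (fun t => map3 g t = map3 g' t) _ _ h₀ h
  · intro a b c _ hp
    simp only [map3, Prod.mk.injEq] at hp ⊢
    exact ⟨hp.2.1, hp.2.2, hp.1⟩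
  · intro a b c d _ hp hB
    simp only [map3, Prod.mk.injEq] at hp ⊢
    refine ⟨hp.2.1, hp.1, ?_⟩
    have k1 := hg _ hB
    have k2 := hg' _ hB
    simp only [map3] at k1 k2
    rw [← hp.1, ← hp.2.1] at k2
    exact isBs_uniq hF k1 k2

end H19S.Asy
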