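import Pool.Agent.Lib.H19S.H1
import Pool.Agent.Lib.H19S.H4

/-!
# H19S, chunk H5: automorphisms
-/

namespace H19S.Asy

open Finset

variable {α : Type*} [DecidableEq α] {F : Finset (α × α × α)} {g : Equiv.Perm α}

theorem exists_nAut {F : Finset (ℕ × ℕ × ℕ)} (h : ¬ Asym F) : NAut F (gof F) := by
  rw [Asym] at h
  push Not at h
  obtain ⟨ρ, h1, h2, h3⟩ := h
  have hex : ∃ g, NAut F g := ⟨ρ, ⟨h1, h2, h3⟩⟩
  rw [gof, dif_pos hex]
  exact hex.choose_spec

/-- From `mem_prel` (H1) and `prel g F = F`. -/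
theorem NAut.mem_iff (hg : NAut F g) {t : α × α × α} : map3 g t ∈ F ↔ t ∈ F := by
  have h := mem_prel (ρ := g) (F := F) (t := t)
  rw [hg.map] at h
  exact h

theorem NAut.inv (hg : NAut F g) : NAut F g⁻¹ := by
  refine ⟨fun x hx => ?_, ?_, ?_⟩
  · rw [Equiv.Perm.inv_eq_iff_eq, hg.fix x hx]
  · have h := prel_prel_inv g F
    rwa [hg.map] at h
  · intro h
    exact hg.ne (inv_eq_one.1 h)

theorem NAut.mem_D3 (hg : NAut F g) {x : α} : g x ∈ D3 F ↔ x ∈ D3 F := by
  have h := D3_prel g F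
  rw [hg.map] at h
  constructor
  · intro hx
    rw [h, mem_image] at hx
    obtain ⟨y, hy, e⟩ := hx
    rwa [← g.injective e]
  · intro hx
    rw [h]
    exact mem_image_of_mem _ hx

theorem NAut.free (hg : NAut F g) {t : α × α × α} : Free F (map3 g t) ↔ Free F t := by
  simp only [Free, map3, hg.mem_D3]

theorem NAut.around (hg : NAut F g) {x : α} {t : α × α × α} :
    Around F (g x) (map3 g t) ↔ Around F x t := by
  have h1 := hg.mem_iff (t := (x, t.1, t.2.1))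
  have h2 := hg.mem_iff (t := (x, t.2.1, t.2.2))
  have h3 := hg.mem_iff (t := (x, t.2.2, t.1))
  simp only [map3] at h1 h2 h3
  simp only [Around, map3]
  rw [h1, h2, h3]

theorem NAut.isBs (hg : NAut F g) {t : α × α × α} : IsBs F (map3 g t) ↔ IsBs F t := by
  rw [IsBs, IsBs, hg.free, hg.mem_iff]
  refine and_congr_right (fun _ => or_congr_right ?_)
  constructor
  · rintro ⟨x, hx, h⟩
    have e : g (g⁻¹ x) = x := g.apply_symm_apply x
    refine ⟨g⁻¹ x, ?_, ?_⟩
    · rw [← hg.mem_D3, e]; exact hx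
    · rw [← hg.around, e]; exact h
  · rintro ⟨x, hx, h⟩
    exact ⟨g x, hg.mem_D3.2 hx, hg.around.2 h⟩

/-- A nontrivial automorphism fixes no oriented side.  Otherwise the set `R` of the faces `(a,b,c)`
with `g a = a`, `g b = b`, `g c = c` is nonempty (`uniq`), closed under rotation and crossing sides
(`(b,a,d), (b,a,g d) ∈ F` so `g d = d`), so it is `F` (`IsSurf.eq_of_bd_empty`), and `g = 1` by `fix`. -/
theorem NAut.no_fix (hF : IsSurf F) (hg : NAut F g) {a b c : α} (h : (a, b, c) ∈ F) :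
    ¬ (g a = a ∧ g b = b) := by
  rintro ⟨ha, hb⟩
  have hR : (F.filter fun t => g t.1 = t.1 ∧ g t.2.1 = t.2.1 ∧ g t.2.2 = t.2.2) = F := by
    apply hF.eq_of_bd_empty (filter_subset _ _)
    · intro p q r hpq
      rw [mem_filter] at hpq ⊢
      exact ⟨hF.rot hpq.1, hpq.2.2.1, hpq.2.2.2, hpq.2.1⟩
    · refine ⟨(a, b, c), mem_filter.2 ⟨h, ha, hb, ?_⟩⟩
      have h1 := hg.mem_iff.2 h
      simp only [map3] at h1
      rw [ha, hb] at h1
      exact hF.uniq h1 h
    · intro p q r d hpq hopp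
      rw [mem_filter] at hpq ⊢
      simp only at hpq ⊢
      refine ⟨hopp, hpq.2.2.1, hpq.2.1, ?_⟩
      have h1 := hg.mem_iff.2 hopp
      simp only [map3] at h1
      rw [hpq.2.1, hpq.2.2.1] at h1
      exact hF.uniq h1 hopp
  apply hg.ne
  ext x
  by_cases hx : x ∈ vs F
  · obtain ⟨y, z, hyz⟩ := mem_vs.1 hx
    rw [← hR, mem_filter] at hyz
    exact hyz.2.1
  · exact hg.fix x hx

/-- Opposite faces are not both fixed.  Let `(a,b,c)` be fixed: `g(a,b,c)` is `(b,c,a)` or `(c,a,b)`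
(`no_fix`).  If `(b,a,d)` is fixed, then `(g b, g a) = (a, d)` or `(d, b)`.  In the first case
`(g a, g b) = (b, c)`: `(c, b) = (a, d)` impossible (`c ≠ a`), `(c,b) = (d,b)` gives `d = c`,
contradiction to `IsSurf.no_rev`.  In the second case `(g a, g b) = (c, a)`: `(a, c) = (a, d)` gives
`d = c` again, `(a,c) = (d,b)` gives `a = d`, impossible. -/
theorem NAut.opp_not_fixed (hF : IsTri F) (h4 : 4 ≤ (vs F).card) (hg : NAut F g) {a b c d : α}
    (h : (a, b, c) ∈ F) (h' : (b, a, d) ∈ F) (hfix : map3 g (a, b, c) ∈ rot3 (a, b, c)) :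
    map3 g (b, a, d) ∉ rot3 (b, a, d) := by
  intro hfix'
  rw [mem_rot3] at hfix hfix'
  simp only [map3, Prod.mk.injEq] at hfix hfix'
  have hS := hF.toIsSurf
  have hnr := hS.no_rev h4 h
  have n1 := hS.ne h
  have n2 := hS.ne2 h
  have n3 := hS.ne3 h
  rcases hfix with ⟨e1, e2, _⟩ | ⟨e1, e2, _⟩ | ⟨e1, e2, _⟩
  · exact hg.no_fix hS h ⟨e1, e2⟩
  · rcases hfix' with ⟨f1, f2, _⟩ | ⟨f1, f2, _⟩ | ⟨f1, f2, _⟩
    · exact hg.no_fix hS h ⟨f2, f1⟩
    · rw [e2] at f1
      exact n3 f1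
    · rw [e2] at f1
      subst f1
      exact hnr h'
  · rcases hfix' with ⟨f1, f2, _⟩ | ⟨f1, f2, _⟩ | ⟨f1, f2, _⟩
    · exact hg.no_fix hS h ⟨f2, f1⟩
    · rw [e1] at f2
      subst f2
      exact hnr h'
    · rw [e1] at f2
      exact n2 f2.symm

end H19S.Asy
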