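import Pool.Agent.Lib.H19S.H5

/-!
# H19S, chunk H6: the number of free faces which are not fixed, and of admissible triples
-/

namespace H19S.Asy

open Finset

variable {α : Type*} [DecidableEq α] {F : Finset (α × α × α)} {g : Equiv.Perm α}

/-- There are `3 #D3` faces with first (second, third) entry in `D3 F`. -/
theorem card_D3_darts : (F.filter fun t => t.1 ∈ D3 F).card = 3 * (D3 F).card := by
  rw [card_eq_sum_card_fiberwise (f := fun t : α × α × α => t.1) (t := D3 F)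
    (fun t ht => mem_coe.2 (mem_filter.1 (mem_coe.1 ht)).2)]
  have h : ∀ x ∈ D3 F, ((F.filter fun t => t.1 ∈ D3 F).filter fun t => t.1 = x).card = 3 := by
    intro x hx
    have e : ((F.filter fun t => t.1 ∈ D3 F).filter fun t => t.1 = x) =
        F.filter fun t => t.1 = x := by
      ext t
      rw [mem_filter, mem_filter, mem_filter]
      constructor
      · rintro ⟨⟨h1, -⟩, h2⟩
        exact ⟨h1, h2⟩
      · rintro ⟨h1, h2⟩
        exact ⟨⟨h1, h2 ▸ hx⟩, h2⟩
    rw [e]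
    exact (mem_filter.1 hx).2
  rw [sum_congr rfl h, sum_const, smul_eq_mul, mul_comm]

theorem card_D3_darts2 (hF : IsTri F) :
    (F.filter fun t => t.2.1 ∈ D3 F).card = 3 * (D3 F).card := by
  rw [← card_D3_darts]
  refine card_nbij' (fun t => (t.2.1, t.2.2, t.1)) (fun t => (t.2.2, t.1, t.2.1)) ?_ ?_ ?_ ?_
  · rintro ⟨a, b, c⟩ h
    obtain ⟨h1, h2⟩ := mem_filter.1 (mem_coe.1 h)
    exact mem_coe.2 (mem_filter.2 ⟨hF.rot h1, h2⟩)
  · rintro ⟨a, b, c⟩ h
    obtain ⟨h1, h2⟩ := mem_filter.1 (mem_coe.1 h)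
    exact mem_coe.2 (mem_filter.2 ⟨hF.rot (hF.rot h1), h2⟩)
  · rintro ⟨a, b, c⟩ _
    rfl
  · rintro ⟨a, b, c⟩ _
    rfl

theorem card_D3_darts3 (hF : IsTri F) :
    (F.filter fun t => t.2.2 ∈ D3 F).card = 3 * (D3 F).card := by
  rw [← card_D3_darts]
  refine card_nbij' (fun t => (t.2.2, t.1, t.2.1)) (fun t => (t.2.1, t.2.2, t.1)) ?_ ?_ ?_ ?_
  · rintro ⟨a, b, c⟩ h
    obtain ⟨h1, h2⟩ := mem_filter.1 (mem_coe.1 h)
    exact mem_coe.2 (mem_filter.2 ⟨hF.rot (hF.rot h1), h2⟩)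
  · rintro ⟨a, b, c⟩ h
    obtain ⟨h1, h2⟩ := mem_filter.1 (mem_coe.1 h)
    exact mem_coe.2 (mem_filter.2 ⟨hF.rot h1, h2⟩)
  · rintro ⟨a, b, c⟩ _
    rfl
  · rintro ⟨a, b, c⟩ _
    rfl

theorem h6_mem_AA {t : α × α × α} : t ∈ AA F g ↔ t ∈ F ∧ Free F t ∧ map3 g t ∉ rot3 t := by
  classical
  simp only [AA, mem_filter]

/-- `#F ≤ #T₀ + 9 #D3` where `T₀` is the set of free faces.  `T₀ = AA ∪ Fx`, `Fx` the fixed ones.
The map `(a,b,c) ↦ (b,a,d)` (face on the other side of `ab`) is injective on `Fx` with values in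
`AA ∪ {t ∈ F : t.2.2 ∈ D3 F}` (`opp_not_fixed`), so `#Fx ≤ #AA + 3 #D3`.  Hence
`#F ≤ 2 #AA + 12 #D3`, and `#F + 12 = 6 #vs F`. -/
theorem card_AA (hF : IsTri F) (h4 : 4 ≤ (vs F).card) (hg : NAut F g) :
    3 * (vs F).card ≤ (AA F g).card + 6 * (D3 F).card + 6 := by
  classical
  set T1 := F.filter fun t => t.1 ∈ D3 F with hT1
  set T2 := F.filter fun t => t.2.1 ∈ D3 F with hT2
  set T3 := F.filter fun t => t.2.2 ∈ D3 F with hT3
  set Fx := F.filter fun t => Free F t ∧ map3 g t ∈ rot3 t with hFx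
  have c1 : T1.card = 3 * (D3 F).card := card_D3_darts
  have c2 : T2.card = 3 * (D3 F).card := card_D3_darts2 hF
  have c3 : T3.card = 3 * (D3 F).card := card_D3_darts3 hF
  have hsub : F ⊆ AA F g ∪ Fx ∪ (T1 ∪ T2 ∪ T3) := by
    intro t ht
    by_cases hfree : Free F t
    · refine mem_union_left _ ?_
      by_cases h : map3 g t ∈ rot3 t
      · exact mem_union_right _ (mem_filter.2 ⟨ht, hfree, h⟩)
      · exact mem_union_left _ (h6_mem_AA.2 ⟨ht, hfree, h⟩)
    · refine mem_union_right _ ?_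
      unfold Free at hfree
      by_cases h1 : t.1 ∈ D3 F
      · exact mem_union_left _ (mem_union_left _ (mem_filter.2 ⟨ht, h1⟩))
      · by_cases h2 : t.2.1 ∈ D3 F
        · exact mem_union_left _ (mem_union_right _ (mem_filter.2 ⟨ht, h2⟩))
        · refine mem_union_right _ (mem_filter.2 ⟨ht, ?_⟩)
          by_contra h3
          exact hfree ⟨h1, h2, h3⟩
  have e1 : F.card ≤ (AA F g).card + Fx.card + (T1.card + T2.card + T3.card) := by
    refine (card_le_card hsub).trans ((card_union_le _ _).trans ?_)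
    have := card_union_le (AA F g) Fx
    have := card_union_le (T1 ∪ T2) T3
    have := card_union_le T1 T2
    omega
  -- the map to the other side
  have hop : ∀ t : α × α × α, ∃ d, t ∈ F → (t.2.1, t.1, d) ∈ F := by
    rintro ⟨a, b, c⟩
    by_cases h : (a, b, c) ∈ F
    · obtain ⟨d, hd⟩ := hF.opp h
      exact ⟨d, fun _ => hd⟩
    · exact ⟨a, fun h' => absurd h' h⟩
  choose o ho using hop
  have e2 : Fx.card ≤ (AA F g ∪ T3).card := by
    refine card_le_card_of_injOn (fun t => (t.2.1, t.1, o t)) ?_ ?_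
    · rintro ⟨a, b, c⟩ ht
      obtain ⟨h1, h2, h3⟩ := mem_filter.1 (mem_coe.1 ht)
      have h5 := ho (a, b, c) h1
      simp only at h5 ⊢
      rw [mem_coe]
      by_cases h6 : o (a, b, c) ∈ D3 F
      · exact mem_union_right _ (mem_filter.2 ⟨h5, h6⟩)
      · refine mem_union_left _ (h6_mem_AA.2 ⟨h5, ⟨h2.2.1, h2.1, h6⟩, ?_⟩)
        exact NAut.opp_not_fixed hF h4 hg h1 h5 h3
    · rintro ⟨a, b, c⟩ ht ⟨a', b', c'⟩ ht' he
      obtain ⟨h1, -⟩ := mem_filter.1 (mem_coe.1 ht)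
      obtain ⟨h1', -⟩ := mem_filter.1 (mem_coe.1 ht')
      simp only [Prod.mk.injEq] at he
      obtain ⟨rfl, rfl, -⟩ := he
      rw [hF.uniq h1 h1']
  have e3 := card_union_le (AA F g) T3
  have e4 := hF.euler
  omega

theorem h6_bad (t : α × α × α) : (bad g t).card ≤ 9 := by
  unfold bad
  have h1 := card_union_le (rot3 t ∪ rot3 (map3 g t)) (rot3 (map3 (g⁻¹ : Equiv.Perm α) t))
  have h2 := card_union_le (rot3 t) (rot3 (map3 g t))
  have h3 := card_rot3_le t
  have h4 := card_rot3_le (map3 g t)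
  have h5 := card_rot3_le (map3 (g⁻¹ : Equiv.Perm α) t)
  omega

/-- `bad g t` has at most nine elements; of the `#AA ^ 3` triples at most `9 #AA ^ 2` are excluded by
each of the three conditions. -/
theorem card_Adm : (AA F g).card ^ 3 ≤ (Adm F g).card + 27 * (AA F g).card ^ 2 := by
  classical
  set A := AA F g with hA
  set S1 := (A ×ˢ A).biUnion fun q => (bad g q.1).image fun b => (q.1, b, q.2) with hS1
  set S2 := (A ×ˢ A).biUnion fun q => (bad g q.1).image fun c => (q.1, q.2, c) with hS2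
  set S3 := (A ×ˢ A).biUnion fun q => (bad g q.2).image fun c => (q.1, q.2, c) with hS3
  have b1 : S1.card ≤ (A ×ˢ A).card * 9 :=
    card_biUnion_le_card_mul _ _ _ fun q _ => card_image_le.trans (h6_bad _)
  have b2 : S2.card ≤ (A ×ˢ A).card * 9 :=
    card_biUnion_le_card_mul _ _ _ fun q _ => card_image_le.trans (h6_bad _)
  have b3 : S3.card ≤ (A ×ˢ A).card * 9 :=
    card_biUnion_le_card_mul _ _ _ fun q _ => card_image_le.trans (h6_bad _)
  have hsub : A ×ˢ A ×ˢ A ⊆ Adm F g ∪ (S1 ∪ S2 ∪ S3) := by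
    rintro ⟨a, b, c⟩ h
    obtain ⟨ha, hbc⟩ := mem_product.1 h
    obtain ⟨hb, hc⟩ := mem_product.1 hbc
    simp only at ha hb hc
    by_cases h1 : b ∈ bad g a
    · exact mem_union_right _ (mem_union_left _ (mem_union_left _ (mem_biUnion.2
        ⟨(a, c), mem_product.2 ⟨ha, hc⟩, mem_image.2 ⟨b, h1, rfl⟩⟩)))
    · by_cases h2 : c ∈ bad g a
      · exact mem_union_right _ (mem_union_left _ (mem_union_right _ (mem_biUnion.2
          ⟨(a, b), mem_product.2 ⟨ha, hb⟩, mem_image.2 ⟨c, h2, rfl⟩⟩)))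
      · by_cases h3 : c ∈ bad g b
        · exact mem_union_right _ (mem_union_right _ (mem_biUnion.2
            ⟨(a, b), mem_product.2 ⟨ha, hb⟩, mem_image.2 ⟨c, h3, rfl⟩⟩))
        · exact mem_union_left _ (mem_filter.2 ⟨h, h1, h2, h3⟩)
  have h1 := card_le_card hsub
  have h2 := card_union_le (Adm F g) (S1 ∪ S2 ∪ S3)
  have h3 := card_union_le (S1 ∪ S2) S3
  have h4 := card_union_le S1 S2
  have e1 : (A ×ˢ A ×ˢ A).card = A.card ^ 3 := by
    rw [card_product, card_product]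
    ring
  have e2 : (A ×ˢ A).card = A.card ^ 2 := by
    rw [card_product]
    ring
  rw [e1] at h1
  rw [e2] at b1 b2 b3
  omega

/-- For `n ≥ 108`: `5 #AA ≥ 15 n - 30 - 30 #D3 ≥ 3 n - 30`, so `#AA ≥ n/2`, `#AA - 27 ≥ n/4`. -/
theorem card_Adm_ge {F : Finset (ℕ × ℕ × ℕ)} (hF : IsTri F) (hn : 108 ≤ (vs F).card)
    (hs : GSp F) : (vs F).card ^ 3 ≤ 16 * (Adm F (gof F)).card := by
  obtain ⟨h1, h2⟩ := hs
  have hg := exists_nAut h1
  have h3 := card_AA hF (by omega) hg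
  have h4 := card_Adm (F := F) (g := gof F)
  set m := (AA F (gof F)).card with hm
  set n := (vs F).card with hn'
  set A := (Adm F (gof F)).card with hA
  have h5 : n ≤ 2 * m := by omega
  have h6 : 54 ≤ m := by omega
  have h7 : n ^ 3 ≤ (2 * m) ^ 3 := Nat.pow_le_pow_left h5 3
  have h8 : 54 * m ^ 2 ≤ m ^ 3 := by
    rw [pow_succ m 2, mul_comm]
    exact Nat.mul_le_mul_left _ h6
  have h9 : (2 * m) ^ 3 = 8 * m ^ 3 := by ring
  omega

end H19S.Asy
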