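import Pool.Agent.Lib.H19S.H5

/-!
# H19S, chunk H7: insertion of three vertices of degree three does not change the base
-/

namespace H19S.Asy

open Finset

variable {α : Type*} [DecidableEq α] {F : Finset (α × α × α)} {g : Equiv.Perm α}

theorem H7_mem_at {t : α × α × α} {w y p q : α} (h1 : y ≠ t.1) (h2 : y ≠ t.2.1)
    (h3 : y ≠ t.2.2) (h4 : y ≠ w) : (y, p, q) ∈ insV F t w ↔ (y, p, q) ∈ F := by
  simp only [insV, rots, mem_union, mem_sdiff, mem_insert, mem_singleton, Prod.mk.injEq, h1, h2,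
    h3, h4, false_and, or_false, and_iff_left_iff_imp]
  intro _ h
  simp at h

theorem H7_D3_vs {y : α} (hy : y ∈ D3 F) : y ∈ vs F := (mem_filter.1 hy).1

/-- The vertices of `t` have degree at least four (`three_le_deg`), and it increases. -/
theorem D3_insV (hF : IsTri F) (h4 : 4 ≤ (vs F).card) {t : α × α × α} {w : α} (ht : t ∈ F)
    (hfree : Free F t) (hw : w ∉ vs F) : D3 (insV F t w) = insert w (D3 F) := by
  ext y
  have ht' : (t.1, t.2.1, t.2.2) ∈ F := ht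
  rw [D3, mem_filter, vs_insV hF ht hw, mem_insert, mem_insert]
  by_cases hyw : y = w
  · subst hyw
    simp [deg_insV_new hF ht hw]
  · by_cases hy : y = t.1 ∨ y = t.2.1 ∨ y = t.2.2
    · have h1 := deg_insV_vert hF ht hw hy
      have hyv : y ∈ vs F := by
        rcases hy with rfl | rfl | rfl
        · exact hF.vs1 ht'
        · exact hF.vs2 ht'
        · exact hF.vs3 ht'
      have h3 := hF.three_le_deg h4 hyv
      have hn : y ∉ D3 F := by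
        rcases hy with rfl | rfl | rfl
        · exact hfree.1
        · exact hfree.2.1
        · exact hfree.2.2
      have hn' : deg F y ≠ 3 := fun h => hn (mem_filter.2 ⟨hyv, h⟩)
      constructor
      · rintro ⟨_, h⟩
        omega
      · rintro (h | h)
        · exact absurd h hyw
        · exact absurd h hn
    · push Not at hy
      rw [deg_insV_other hF ht hw hy.1 hy.2.1 hy.2.2 hyw]
      simp only [hyw, false_or, D3, mem_filter]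

/-- For `y ∈ D3 F`: `y` is not a vertex of `t`, so the faces at `y` do not change. -/
theorem around_old (hF : IsTri F) {t s : α × α × α} {w y : α} (ht : t ∈ F)
    (hfree : Free F t) (hw : w ∉ vs F) (hy : y ∈ D3 F) :
    Around (insV F t w) y s ↔ Around F y s := by
  have h1 : y ≠ t.1 := fun h => hfree.1 (h ▸ hy)
  have h2 : y ≠ t.2.1 := fun h => hfree.2.1 (h ▸ hy)
  have h3 : y ≠ t.2.2 := fun h => hfree.2.2 (h ▸ hy)
  have h4 : y ≠ w := fun h => hw (h ▸ H7_D3_vs hy)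
  unfold Around
  rw [H7_mem_at h1 h2 h3 h4, H7_mem_at h1 h2 h3 h4, H7_mem_at h1 h2 h3 h4]

theorem H7_free_insV (hF : IsTri F) (h4 : 4 ≤ (vs F).card) {t s : α × α × α} {w : α} (ht : t ∈ F)
    (hfree : Free F t) (hw : w ∉ vs F) :
    Free (insV F t w) s ↔ Free F s ∧ s.1 ≠ w ∧ s.2.1 ≠ w ∧ s.2.2 ≠ w := by
  unfold Free
  rw [D3_insV hF h4 ht hfree hw]
  simp only [mem_insert, not_or]
  tauto

theorem H7_ne_of_mem (hF : IsTri F) {s : α × α × α} {w : α} (hw : w ∉ vs F) (hs : s ∈ F) :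
    s.1 ≠ w ∧ s.2.1 ≠ w ∧ s.2.2 ≠ w := by
  have hs' : (s.1, s.2.1, s.2.2) ∈ F := hs
  exact ⟨fun h => hw (h ▸ hF.vs1 hs'), fun h => hw (h ▸ hF.vs2 hs'), fun h => hw (h ▸ hF.vs3 hs')⟩

theorem H7_ne_of_around (hF : IsTri F) {s : α × α × α} {w y : α} (hw : w ∉ vs F)
    (hs : Around F y s) : s.1 ≠ w ∧ s.2.1 ≠ w ∧ s.2.2 ≠ w :=
  ⟨fun h => hw (h ▸ hF.vs2 hs.1), fun h => hw (h ▸ hF.vs3 hs.1), fun h => hw (h ▸ hF.vs3 hs.2.1)⟩

theorem H7_mem_of_rot3 (hF : IsTri F) {s t : α × α × α} (ht : t ∈ F) (hs : s ∈ rot3 t) : s ∈ F := by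
  have ht' : (t.1, t.2.1, t.2.2) ∈ F := ht
  rcases mem_rot3.1 hs with rfl | rfl | rfl
  · exact ht
  · exact hF.rot ht'
  · exact hF.rot2 ht'

/-- The base does not change: `s` free in `insV F t w` iff `s` free in `F` and without entry `w`; for
such `s`: `s ∈ insV F t w ↔ s ∈ F ∧ s ∉ rot3 t`, `Around (insV F t w) w s ↔ s ∈ rot3 t`, and
`around_old`. Elements of `rot3 t` are in `F` and free. -/
theorem isBs_insV (hF : IsTri F) (h4 : 4 ≤ (vs F).card) {t s : α × α × α} {w : α} (ht : t ∈ F)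
    (hfree : Free F t) (hw : w ∉ vs F) : IsBs (insV F t w) s ↔ IsBs F s := by
  unfold IsBs
  rw [H7_free_insV hF h4 ht hfree hw]
  constructor
  · rintro ⟨⟨hf, h1, h2, h3⟩, h | ⟨x, hx, h⟩⟩
    · exact ⟨hf, Or.inl ((mem_insV_old h1 h2 h3).1 h).1⟩
    · rw [D3_insV hF h4 ht hfree hw, mem_insert] at hx
      rcases hx with rfl | hx
      · exact ⟨hf, Or.inl (H7_mem_of_rot3 hF ht ((around_new hF ht hw).1 h))⟩
      · exact ⟨hf, Or.inr ⟨x, hx, (around_old hF ht hfree hw hx).1 h⟩⟩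
  · rintro ⟨hf, h | ⟨x, hx, h⟩⟩
    · have hne := H7_ne_of_mem hF hw h
      refine ⟨⟨hf, hne⟩, ?_⟩
      by_cases hr : s ∈ rot3 t
      · refine Or.inr ⟨w, ?_, (around_new hF ht hw).2 hr⟩
        rw [D3_insV hF h4 ht hfree hw]
        exact mem_insert_self _ _
      · exact Or.inl ((mem_insV_old hne.1 hne.2.1 hne.2.2).2 ⟨h, hr⟩)
    · refine ⟨⟨hf, H7_ne_of_around hF hw h⟩, Or.inr ⟨x, ?_, (around_old hF ht hfree hw hx).2 h⟩⟩
      rw [D3_insV hF h4 ht hfree hw]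
      exact mem_insert_of_mem hx

/-- The hypotheses on the new labels. -/
structure New3 (F : Finset (α × α × α)) (x : α × α × α) : Prop where
  m1 : x.1 ∉ vs F
  m2 : x.2.1 ∉ vs F
  m3 : x.2.2 ∉ vs F
  n12 : x.1 ≠ x.2.1
  n13 : x.1 ≠ x.2.2
  n23 : x.2.1 ≠ x.2.2

variable {p : (α × α × α) × (α × α × α) × (α × α × α)} {x : α × α × α}

/-- All the facts on the intermediate triangulations. -/
structure H7Chain (F F1 F2 : Finset (α × α × α)) (p : (α × α × α) × (α × α × α) × (α × α × α))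
    (x : α × α × α) : Prop where
  t0 : IsTri F
  t1 : IsTri F1
  t2 : IsTri F2
  c0 : 4 ≤ (vs F).card
  c1 : 4 ≤ (vs F1).card
  c2 : 4 ≤ (vs F2).card
  m0 : p.1 ∈ F
  m1 : p.2.1 ∈ F1
  m2 : p.2.2 ∈ F2
  f0 : Free F p.1
  f1 : Free F1 p.2.1
  f2 : Free F2 p.2.2
  n0 : x.1 ∉ vs F
  n1 : x.2.1 ∉ vs F1
  n2 : x.2.2 ∉ vs F2
  e1 : F1 = insV F p.1 x.1
  e2 : F2 = insV F1 p.2.1 x.2.1
  m1' : p.2.1 ∈ F
  m2' : p.2.2 ∈ F
  r12 : p.2.1 ∉ rot3 p.1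
  r13 : p.2.2 ∉ rot3 p.1
  r23 : p.2.2 ∉ rot3 p.2.1

theorem H7_adm (hp : p ∈ Adm F g) : (p.1 ∈ F ∧ p.2.1 ∈ F ∧ p.2.2 ∈ F) ∧
    (Free F p.1 ∧ Free F p.2.1 ∧ Free F p.2.2) ∧
    (p.2.1 ∉ rot3 p.1 ∧ p.2.2 ∉ rot3 p.1 ∧ p.2.2 ∉ rot3 p.2.1) := by
  simp only [Adm, AA, bad, mem_filter, mem_product, mem_union, not_or] at hp
  tauto

theorem H7_chain (hF : IsTri F) (h4 : 4 ≤ (vs F).card) (hp : p ∈ Adm F g) (hx : New3 F x) :
    H7Chain F (insV F p.1 x.1) (insV (insV F p.1 x.1) p.2.1 x.2.1) p x := by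
  obtain ⟨⟨a1, a2, a3⟩, ⟨f1, f2, f3⟩, r12, r13, r23⟩ := H7_adm hp
  have t1 := insV_tri hF a1 hx.m1
  have v1 := vs_insV hF a1 hx.m1
  have c1 : 4 ≤ (vs (insV F p.1 x.1)).card := by
    rw [v1]
    exact h4.trans (card_le_card (subset_insert _ _))
  have n1 : x.2.1 ∉ vs (insV F p.1 x.1) := by
    rw [v1, mem_insert, not_or]
    exact ⟨hx.n12.symm, hx.m2⟩
  have m1 : p.2.1 ∈ insV F p.1 x.1 := by
    have hne := H7_ne_of_mem hF hx.m1 a2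
    exact (mem_insV_old hne.1 hne.2.1 hne.2.2).2 ⟨a2, r12⟩
  have fr1 : Free (insV F p.1 x.1) p.2.1 :=
    (H7_free_insV hF h4 a1 f1 hx.m1).2 ⟨f2, H7_ne_of_mem hF hx.m1 a2⟩
  have fr1' : Free (insV F p.1 x.1) p.2.2 :=
    (H7_free_insV hF h4 a1 f1 hx.m1).2 ⟨f3, H7_ne_of_mem hF hx.m1 a3⟩
  have m1' : p.2.2 ∈ insV F p.1 x.1 := by
    have hne := H7_ne_of_mem hF hx.m1 a3
    exact (mem_insV_old hne.1 hne.2.1 hne.2.2).2 ⟨a3, r13⟩
  have t2 := insV_tri t1 m1 n1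
  have v2 := vs_insV t1 m1 n1
  have c2 : 4 ≤ (vs (insV (insV F p.1 x.1) p.2.1 x.2.1)).card := by
    rw [v2]
    exact c1.trans (card_le_card (subset_insert _ _))
  have n2 : x.2.2 ∉ vs (insV (insV F p.1 x.1) p.2.1 x.2.1) := by
    rw [v2, v1, mem_insert, mem_insert, not_or, not_or]
    exact ⟨hx.n23.symm, hx.n13.symm, hx.m3⟩
  have m2 : p.2.2 ∈ insV (insV F p.1 x.1) p.2.1 x.2.1 := by
    have hne := H7_ne_of_mem t1 n1 m1'
    exact (mem_insV_old hne.1 hne.2.1 hne.2.2).2 ⟨m1', r23⟩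
  have fr2 : Free (insV (insV F p.1 x.1) p.2.1 x.2.1) p.2.2 :=
    (H7_free_insV t1 c1 m1 fr1 n1).2 ⟨fr1', H7_ne_of_mem t1 n1 m1'⟩
  exact ⟨hF, t1, t2, h4, c1, c2, a1, m1, m2, f1, fr1, fr2, hx.m1, n1, n2, rfl, rfl, a2, a3,
    r12, r13, r23⟩

theorem insV3_tri (hF : IsTri F) (h4 : 4 ≤ (vs F).card) (hp : p ∈ Adm F g) (hx : New3 F x) :
    IsTri (insV3 F p x) := by
  have h := H7_chain hF h4 hp hx
  exact insV_tri h.t2 h.m2 h.n2

theorem vs_insV3 (hF : IsTri F) (h4 : 4 ≤ (vs F).card) (hp : p ∈ Adm F g) (hx : New3 F x) :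
    vs (insV3 F p x) = {x.1, x.2.1, x.2.2} ∪ vs F := by
  have h := H7_chain hF h4 hp hx
  rw [insV3, vs_insV h.t2 h.m2 h.n2, vs_insV h.t1 h.m1 h.n1, vs_insV h.t0 h.m0 h.n0]
  ext y
  simp only [mem_insert, mem_union, mem_singleton]
  tauto

theorem D3_insV3 (hF : IsTri F) (h4 : 4 ≤ (vs F).card) (hp : p ∈ Adm F g) (hx : New3 F x) :
    D3 (insV3 F p x) = {x.1, x.2.1, x.2.2} ∪ D3 F := by
  have h := H7_chain hF h4 hp hx
  rw [insV3, D3_insV h.t2 h.c2 h.m2 h.f2 h.n2, D3_insV h.t1 h.c1 h.m1 h.f1 h.n1,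
    D3_insV h.t0 h.c0 h.m0 h.f0 h.n0]
  ext y
  simp only [mem_insert, mem_union, mem_singleton]
  tauto

theorem isBs_insV3 (hF : IsTri F) (h4 : 4 ≤ (vs F).card) (hp : p ∈ Adm F g) (hx : New3 F x)
    {s : α × α × α} : IsBs (insV3 F p x) s ↔ IsBs F s := by
  have h := H7_chain hF h4 hp hx
  rw [insV3, isBs_insV h.t2 h.c2 h.m2 h.f2 h.n2, isBs_insV h.t1 h.c1 h.m1 h.f1 h.n1,
    isBs_insV h.t0 h.c0 h.m0 h.f0 h.n0]

theorem mem_insV3_old (hF : IsTri F) (h4 : 4 ≤ (vs F).card) (hp : p ∈ Adm F g) (hx : New3 F x)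
    {s : α × α × α} (h1 : s.1 ∈ vs F) (h2 : s.2.1 ∈ vs F) (h3 : s.2.2 ∈ vs F) :
    s ∈ insV3 F p x ↔ s ∈ F ∧ s ∉ rot3 p.1 ∧ s ∉ rot3 p.2.1 ∧ s ∉ rot3 p.2.2 := by
  have _ := H7_chain hF h4 hp hx
  have k : ∀ {y w : α}, y ∈ vs F → w ∉ vs F → y ≠ w := fun hy hw h => hw (h ▸ hy)
  rw [insV3, mem_insV_old (k h1 hx.m3) (k h2 hx.m3) (k h3 hx.m3),
    mem_insV_old (k h1 hx.m2) (k h2 hx.m2) (k h3 hx.m2),
    mem_insV_old (k h1 hx.m1) (k h2 hx.m1) (k h3 hx.m1)]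
  tauto

theorem around_insV3 (hF : IsTri F) (h4 : 4 ≤ (vs F).card) (hp : p ∈ Adm F g) (hx : New3 F x)
    {s : α × α × α} :
    (Around (insV3 F p x) x.1 s ↔ s ∈ rot3 p.1) ∧
    (Around (insV3 F p x) x.2.1 s ↔ s ∈ rot3 p.2.1) ∧
    (Around (insV3 F p x) x.2.2 s ↔ s ∈ rot3 p.2.2) ∧
    ∀ y ∈ D3 F, (Around (insV3 F p x) y s ↔ Around F y s) := by
  have h := H7_chain hF h4 hp hx
  have d1 := D3_insV h.t0 h.c0 h.m0 h.f0 h.n0
  have d2 := D3_insV h.t1 h.c1 h.m1 h.f1 h.n1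
  have a1 : x.1 ∈ D3 (insV F p.1 x.1) := d1 ▸ mem_insert_self _ _
  have a2 : x.1 ∈ D3 (insV (insV F p.1 x.1) p.2.1 x.2.1) := d2 ▸ mem_insert_of_mem a1
  have b2 : x.2.1 ∈ D3 (insV (insV F p.1 x.1) p.2.1 x.2.1) := d2 ▸ mem_insert_self _ _
  refine ⟨?_, ?_, ?_, fun y hy => ?_⟩
  · rw [insV3, around_old h.t2 h.m2 h.f2 h.n2 a2, around_old h.t1 h.m1 h.f1 h.n1 a1,
      around_new h.t0 h.m0 h.n0]
  · rw [insV3, around_old h.t2 h.m2 h.f2 h.n2 b2, around_new h.t1 h.m1 h.n1]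
  · rw [insV3, around_new h.t2 h.m2 h.n2]
  · have y1 : y ∈ D3 (insV F p.1 x.1) := d1 ▸ mem_insert_of_mem hy
    have y2 : y ∈ D3 (insV (insV F p.1 x.1) p.2.1 x.2.1) := d2 ▸ mem_insert_of_mem y1
    rw [insV3, around_old h.t2 h.m2 h.f2 h.n2 y2, around_old h.t1 h.m1 h.f1 h.n1 y1,
      around_old h.t0 h.m0 h.f0 h.n0 hy]

end H19S.Asy
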