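import Pool.Agent.Lib.H19S.H7

/-!
# H19S, chunk H8: the data of a triple insertion; the triangulation is recovered
-/

namespace H19S.Asy

open Finset

variable {α : Type*} [DecidableEq α] {F : Finset (α × α × α)} {g : Equiv.Perm α}
  {p : (α × α × α) × (α × α × α) × (α × α × α)} {x : α × α × α}

theorem H8_map3_rot3 {g : α → α} {s t : α × α × α} (h : s ∈ rot3 t) :
    map3 g s ∈ rot3 (map3 g t) := by
  rw [mem_rot3] at h ⊢
  rcases h with rfl | rfl | rfl <;> simp [map3]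

theorem H8_map3_inv (g : Equiv.Perm α) (t : α × α × α) :
    map3 (g⁻¹ : Equiv.Perm α) (map3 g t) = t := by
  simp [map3]

theorem H8_mem_rot3_self (t : α × α × α) : t ∈ rot3 t := mem_rot3.2 (Or.inl rfl)

/-- If `q ∉ bad g p` then `g p` is not a rotation of `q` and `g q` is not a rotation of `p`. -/
theorem H8_bad {p q : α × α × α} (h : q ∉ bad g p) :
    map3 g p ∉ rot3 q ∧ map3 g q ∉ rot3 p := by
  rw [bad, mem_union, mem_union, not_or, not_or] at h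
  obtain ⟨⟨_, h2⟩, h3⟩ := h
  refine ⟨fun hc => h2 (rot3_symm hc), fun hc => h3 ?_⟩
  have := H8_map3_rot3 (g := (g⁻¹ : Equiv.Perm α)) hc
  rwa [H8_map3_inv] at this

theorem H8_adm (hp : p ∈ Adm F g) :
    (map3 g p.1 ∉ rot3 p.1 ∧ map3 g p.1 ∉ rot3 p.2.1 ∧ map3 g p.1 ∉ rot3 p.2.2) ∧
    (map3 g p.2.1 ∉ rot3 p.1 ∧ map3 g p.2.1 ∉ rot3 p.2.1 ∧ map3 g p.2.1 ∉ rot3 p.2.2) ∧
    (map3 g p.2.2 ∉ rot3 p.1 ∧ map3 g p.2.2 ∉ rot3 p.2.1 ∧ map3 g p.2.2 ∉ rot3 p.2.2) := by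
  simp only [Adm, AA, mem_filter, mem_product] at hp
  obtain ⟨⟨⟨_, _, a1⟩, ⟨_, _, a2⟩, ⟨_, _, a3⟩⟩, b1, b2, b3⟩ := hp
  have c1 := H8_bad b1
  have c2 := H8_bad b2
  have c3 := H8_bad b3
  exact ⟨⟨a1, c1.1, c2.1⟩, ⟨c1.2, a2, c3.1⟩, ⟨c2.2, c3.2, a3⟩⟩

/-- `g` acts on the base of `F' = insV3 F p x`, which is the base of `F` (`isBs_insV3`, `NAut.isBs`).
Let `y ∈ D3 F' = {x₁,x₂,x₃} ∪ D3 F`.
If `y = x_i`: the triangle `p_i` around `y` is a face of `F`, so is `g p_i`, and `g p_i ∉ rot3 p_j` for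
all `j` (for `j = i` by definition of `AA`, for `j ≠ i` by definition of `Adm` and of `bad`), so
`g p_i ∈ F'` (`mem_insV3_old`).
If `y ∈ D3 F` (so `y ≠ x_i`): let `t` be a triangle around `y` in `F'`, hence in `F`; `Around F (g y) (g t)`
(`NAut.around`); if `g t ∈ F'` then `g t ∈ F` (its entries are in `vs F`), but `(g t.1, g t.2.1, g y) ∈ F`,
so `g t.2.2 = g y` by `uniq`, contradiction. -/
theorem aData_insV3 (hF : IsTri F) (h4 : 4 ≤ (vs F).card) (hg : NAut F g) (hp : p ∈ Adm F g)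
    (hx : New3 F x) : AData (insV3 F p x) x := by
  have hD := D3_insV3 hF h4 hp hx
  obtain ⟨⟨a1, a2, a3⟩, -, -⟩ := H7_adm hp
  obtain ⟨b1, b2, b3⟩ := H8_adm hp
  have key : ∀ q ∈ F, map3 g q ∉ rot3 p.1 ∧ map3 g q ∉ rot3 p.2.1 ∧ map3 g q ∉ rot3 p.2.2 →
      map3 g q ∈ insV3 F p x := by
    intro q hq hb
    have hq' : map3 g q ∈ F := hg.mem_iff.2 hq
    have hq'' : ((map3 g q).1, (map3 g q).2.1, (map3 g q).2.2) ∈ F := hq'
    exact (mem_insV3_old hF h4 hp hx (hF.vs1 hq'') (hF.vs2 hq'') (hF.vs3 hq'')).2 ⟨hq', hb⟩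
  refine ⟨?_, ⇑g, fun t ht => ?_, fun y hy => ⟨fun h => ?_, ?_⟩⟩
  · rw [hD]
    refine ⟨?_, ?_, ?_⟩ <;> simp
  · rw [isBs_insV3 hF h4 hp hx] at ht ⊢
    exact hg.isBs.2 ht
  · rcases h with rfl | rfl | rfl
    · exact ⟨p.1, (around_insV3 hF h4 hp hx).1.2 (H8_mem_rot3_self _), key _ a1 b1⟩
    · exact ⟨p.2.1, (around_insV3 hF h4 hp hx).2.1.2 (H8_mem_rot3_self _), key _ a2 b2⟩
    · exact ⟨p.2.2, (around_insV3 hF h4 hp hx).2.2.1.2 (H8_mem_rot3_self _), key _ a3 b3⟩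
  · rintro ⟨t, ht, htF⟩
    rw [hD] at hy
    simp only [mem_union, mem_insert, mem_singleton] at hy
    rcases hy with hy | hy
    · exact hy
    · exfalso
      have h1 : Around F y t := ((around_insV3 hF h4 hp hx).2.2.2 y hy).1 ht
      have h2 : Around F (g y) (map3 g t) := hg.around.2 h1
      have h3 : map3 g t ∈ F :=
        ((mem_insV3_old hF h4 hp hx (hF.vs2 h2.1) (hF.vs3 h2.1) (hF.vs3 h2.2.1)).1 htF).1
      have h4' : (g y, (map3 g t).1, (map3 g t).2.1) ∈ F := h2.1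
      have h5 := hF.rot h4'
      have h6 : ((map3 g t).1, (map3 g t).2.1, (map3 g t).2.2) ∈ F := h3
      have h7 := hF.uniq h5 h6
      exact hF.ne3 h2.2.1 h7.symm

/-- `F` is recovered from `F' = insV3 F p x`, `x` and `p`: its faces are the faces of `F'` without
entry `x_i`, and the rotations of the `p_i`. -/
theorem recover (hF : IsTri F) (h4 : 4 ≤ (vs F).card) (hp : p ∈ Adm F g) (hx : New3 F x) :
    F = ((insV3 F p x).filter fun s => s.1 ∉ ({x.1, x.2.1, x.2.2} : Finset α) ∧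
      s.2.1 ∉ ({x.1, x.2.1, x.2.2} : Finset α) ∧ s.2.2 ∉ ({x.1, x.2.1, x.2.2} : Finset α)) ∪
      rot3 p.1 ∪ rot3 p.2.1 ∪ rot3 p.2.2 := by
  obtain ⟨⟨a1, a2, a3⟩, -, -⟩ := H7_adm hp
  have hv := vs_insV3 hF h4 hp hx
  have hT := insV3_tri hF h4 hp hx
  have hnx : ∀ y ∈ vs F, y ∉ ({x.1, x.2.1, x.2.2} : Finset α) := by
    intro y hy hy'
    simp only [mem_insert, mem_singleton] at hy'
    rcases hy' with rfl | rfl | rfl
    · exact hx.m1 hy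
    · exact hx.m2 hy
    · exact hx.m3 hy
  have hxn : ∀ y ∈ vs (insV3 F p x), y ∉ ({x.1, x.2.1, x.2.2} : Finset α) → y ∈ vs F := by
    intro y hy hy'
    rw [hv, mem_union] at hy
    exact hy.resolve_left hy'
  ext s
  simp only [mem_union, mem_filter]
  constructor
  · intro hs
    have hs' : (s.1, s.2.1, s.2.2) ∈ F := hs
    by_cases h1 : s ∈ rot3 p.1
    · exact Or.inl (Or.inl (Or.inr h1))
    by_cases h2 : s ∈ rot3 p.2.1
    · exact Or.inl (Or.inr h2)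
    by_cases h3 : s ∈ rot3 p.2.2
    · exact Or.inr h3
    exact Or.inl (Or.inl (Or.inl ⟨(mem_insV3_old hF h4 hp hx (hF.vs1 hs') (hF.vs2 hs')
      (hF.vs3 hs')).2 ⟨hs, h1, h2, h3⟩, hnx _ (hF.vs1 hs'), hnx _ (hF.vs2 hs'),
      hnx _ (hF.vs3 hs')⟩))
  · rintro (((⟨hs, h1, h2, h3⟩ | h) | h) | h)
    · have hs' : (s.1, s.2.1, s.2.2) ∈ insV3 F p x := hs
      exact ((mem_insV3_old hF h4 hp hx (hxn _ (hT.vs1 hs') h1) (hxn _ (hT.vs2 hs') h2)
        (hxn _ (hT.vs3 hs') h3)).1 hs).1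
    · exact H7_mem_of_rot3 hF a1 h
    · exact H7_mem_of_rot3 hF a2 h
    · exact H7_mem_of_rot3 hF a3 h

/-- The new vertices `x_i` and the first two entries of the `p_i` determine everything: the third
entry of `p_i` is determined by `(x_i, b_i, c_i) ∈ F'` (`around_insV3`, `uniq`), then use `recover`. -/
theorem insV3_inj {F₁ F₂ : Finset (α × α × α)} {g₁ g₂ : Equiv.Perm α}
    {p q : (α × α × α) × (α × α × α) × (α × α × α)} {x : α × α × α}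
    (h₁ : IsTri F₁) (h₂ : IsTri F₂) (h41 : 4 ≤ (vs F₁).card) (h42 : 4 ≤ (vs F₂).card)
    (hp : p ∈ Adm F₁ g₁) (hq : q ∈ Adm F₂ g₂) (hx₁ : New3 F₁ x) (hx₂ : New3 F₂ x)
    (h : insV3 F₁ p x = insV3 F₂ q x)
    (e1 : p.1.1 = q.1.1) (e2 : p.1.2.1 = q.1.2.1) (e3 : p.2.1.1 = q.2.1.1)
    (e4 : p.2.1.2.1 = q.2.1.2.1) (e5 : p.2.2.1 = q.2.2.1) (e6 : p.2.2.2.1 = q.2.2.2.1) :
    F₁ = F₂ ∧ p = q := by
  have hT := insV3_tri h₂ h42 hq hx₂
  have P := fun s => around_insV3 h₁ h41 hp hx₁ (s := s)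
  have Q := fun s => around_insV3 h₂ h42 hq hx₂ (s := s)
  have key : ∀ (y : α) (s t : α × α × α), Around (insV3 F₁ p x) y s → Around (insV3 F₂ q x) y t →
      s.1 = t.1 → s.2.1 = t.2.1 → s = t := by
    intro y s t hs ht r1 r2
    rw [h] at hs
    have k1 := hs.2.1
    have k2 := ht.2.1
    rw [r2] at k1
    have k3 := hT.uniq k1 k2
    exact Prod.ext r1 (Prod.ext r2 k3)
  have f1 := key x.1 p.1 q.1 ((P _).1.2 (H8_mem_rot3_self _)) ((Q _).1.2 (H8_mem_rot3_self _)) e1 e2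
  have f2 := key x.2.1 p.2.1 q.2.1 ((P _).2.1.2 (H8_mem_rot3_self _))
    ((Q _).2.1.2 (H8_mem_rot3_self _)) e3 e4
  have f3 := key x.2.2 p.2.2 q.2.2 ((P _).2.2.1.2 (H8_mem_rot3_self _))
    ((Q _).2.2.1.2 (H8_mem_rot3_self _)) e5 e6
  have hpq : p = q := Prod.ext f1 (Prod.ext f2 f3)
  refine ⟨?_, hpq⟩
  rw [recover h₁ h41 hp hx₁, recover h₂ h42 hq hx₂, h, hpq]

end H19S.Asy
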