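import Pool.Agent.Lib.H19S.Iface
import Pool.Agent.Lib.H19S.A0
import Pool.Agent.Lib.H19S.A0b
import Pool.Agent.Lib.H19S.A1
import Pool.Agent.Lib.H19S.A7

/-!
# H19S, part H (almost all triangulations are asymmetric): definitions

PLAN.  `F ∈ Lab n` with a nontrivial automorphism `g`.

(1) If `F` has fewer than `2n/5` vertices of degree three, then at least `c n` faces of `F` have no
vertex of degree three (`Free`) and are not fixed by `g` (`AA`).  Insert three new vertices of degree
three into three such faces `p₁, p₂, p₃` such that `p_i` is not a rotation of `p_j`, `g p_j`,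
`g⁻¹ p_j` (`Adm`); the number of choices is `≥ c n³`.  The new triangulation `F'` has the same base
(`IsBs`: remove the vertices of degree three) and `g` acts on the base.  The set of the three new
vertices is determined by `F'` and the restriction of `g` to the base (they are the vertices `y` of
degree three of `F'` such that `g` of the triangle around `y` is a face of `F'`), and this restriction is
determined by the image of one side.  So each `F'` is obtained `O(n)` times (labels of the three new
vertices included), which gives `n³ * n³ * #Sym n ≤ C n #Lab (n+3)`.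

(2) The number of `F` with at least `2n/5` vertices of degree three is exponentially smaller than
`#Lab n`: removing one vertex of degree three gives
`(θ+1) #Ex (n+1) (θ+1) ≤ (n+1) (2n) #Ex n θ`, whereas `#Lab (n+1) ≥ 8 (n+1) #Lab n`.
-/

namespace H19S.Asy

open Finset

section
variable {α : Type*} [DecidableEq α]

/-- The three rotations of the face `t`. -/
def rot3 (t : α × α × α) : Finset (α × α × α) := rots t.1 t.2.1 t.2.2

/-- Insertion of a new vertex `w` (of degree three) into the face `t`. -/
def insV (F : Finset (α × α × α)) (t : α × α × α) (w : α) : Finset (α × α × α) :=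
  (F \ rots t.1 t.2.1 t.2.2) ∪ (rots t.1 t.2.1 w ∪ rots t.2.1 t.2.2 w ∪ rots t.2.2 t.1 w)

/-- The vertices of degree three. -/
def D3 (F : Finset (α × α × α)) : Finset α := (vs F).filter fun x => deg F x = 3

/-- No vertex of `t` is a vertex of degree three of `F`. -/
def Free (F : Finset (α × α × α)) (t : α × α × α) : Prop :=
  t.1 ∉ D3 F ∧ t.2.1 ∉ D3 F ∧ t.2.2 ∉ D3 F

/-- `t` is the (oriented) triangle around `x`. -/
def Around (F : Finset (α × α × α)) (x : α) (t : α × α × α) : Prop :=
  (x, t.1, t.2.1) ∈ F ∧ (x, t.2.1, t.2.2) ∈ F ∧ (x, t.2.2, t.1) ∈ F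

/-- The faces of the base of `F` (all vertices of degree three are removed). -/
def IsBs (F : Finset (α × α × α)) (t : α × α × α) : Prop :=
  Free F t ∧ (t ∈ F ∨ ∃ x ∈ D3 F, Around F x t)

/-- `g` is a nontrivial automorphism of `F`. -/
structure NAut (F : Finset (α × α × α)) (g : Equiv.Perm α) : Prop where
  fix : ∀ x, x ∉ vs F → g x = x
  map : prel g F = F
  ne : g ≠ 1

open Classical in
/-- The free faces of `F` which are not fixed by `g`. -/
noncomputable def AA (F : Finset (α × α × α)) (g : Equiv.Perm α) : Finset (α × α × α) :=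
  F.filter fun t => Free F t ∧ map3 g t ∉ rot3 t

/-- The faces which may not be chosen together with `t`. -/
def bad (g : Equiv.Perm α) (t : α × α × α) : Finset (α × α × α) :=
  rot3 t ∪ rot3 (map3 g t) ∪ rot3 (map3 (g⁻¹ : Equiv.Perm α) t)

/-- The admissible triples of faces. -/
noncomputable def Adm (F : Finset (α × α × α)) (g : Equiv.Perm α) :
    Finset ((α × α × α) × (α × α × α) × (α × α × α)) :=
  (AA F g ×ˢ AA F g ×ˢ AA F g).filter fun p =>
    p.2.1 ∉ bad g p.1 ∧ p.2.2 ∉ bad g p.1 ∧ p.2.2 ∉ bad g p.2.1

/-- Insertion of three new vertices `x.1, x.2.1, x.2.2` into the faces `p.1, p.2.1, p.2.2`. -/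
def insV3 (F : Finset (α × α × α)) (p : (α × α × α) × (α × α × α) × (α × α × α))
    (x : α × α × α) : Finset (α × α × α) :=
  insV (insV (insV F p.1 x.1) p.2.1 x.2.1) p.2.2 x.2.2

/-- The condition on `(F', x)` (with `F' = insV3 F p x`) remembered in the counting argument. -/
def AData (F : Finset (α × α × α)) (x : α × α × α) : Prop :=
  (x.1 ∈ D3 F ∧ x.2.1 ∈ D3 F ∧ x.2.2 ∈ D3 F) ∧
    ∃ g : α → α, (∀ t, IsBs F t → IsBs F (map3 g t)) ∧
      ∀ y ∈ D3 F, ((y = x.1 ∨ y = x.2.1 ∨ y = x.2.2) ↔ ∃ t, Around F y t ∧ map3 g t ∈ F)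

open Classical in
/-- Triples of faces `s_i = (x_i, a_i, b_i)` of `F` with `AData F (x_1, x_2, x_3)`. -/
noncomputable def Sg (F : Finset (α × α × α)) :
    Finset ((α × α × α) × (α × α × α) × (α × α × α)) :=
  (F ×ˢ F ×ˢ F).filter fun s => AData F (s.1.1, s.2.1.1, s.2.2.1)

end

/-- Symmetric, with fewer than `2n/5` vertices of degree three. -/
def GSp (F : Finset (ℕ × ℕ × ℕ)) : Prop := ¬ Asym F ∧ 5 * (D3 F).card < 2 * (vs F).card

open Classical in
/-- The symmetric triangulations with vertex set `S` and fewer than `2n/5` vertices of degree three. -/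
noncomputable def GS (S : Finset ℕ) : Finset (Finset (ℕ × ℕ × ℕ)) := (LabS S).filter GSp

open Classical in
/-- The chosen nontrivial automorphism. -/
noncomputable def gof (F : Finset (ℕ × ℕ × ℕ)) : Equiv.Perm ℕ :=
  if h : ∃ g, NAut F g then h.choose else 1

/-- Ordered triples of different labels smaller than `N`. -/
def X3 (N : ℕ) : Finset (ℕ × ℕ × ℕ) :=
  (range N ×ˢ range N ×ˢ range N).filter fun x => x.1 ≠ x.2.1 ∧ x.1 ≠ x.2.2 ∧ x.2.1 ≠ x.2.2

/-- The triangulations with at least `θ` vertices of degree three. -/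
noncomputable def Ex (n θ : ℕ) : Finset (Finset (ℕ × ℕ × ℕ)) :=
  (Lab n).filter fun F => θ ≤ (D3 F).card

end H19S.Asy
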