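import Pool.Agent.Lib.H19S.ICont2

/-!
# H19S, chunk I-BD: bounds, monotonicity in `N`, invariance under rotations
-/

namespace H19S

open Finset MeasureTheory Filter Topology
open scoped ENNReal

theorem ibd_cl_nonneg (t : ℝ) : 0 ≤ cl t := le_max_left _ _

theorem ibd_cl_le_one (t : ℝ) : cl t ≤ 1 := max_le zero_le_one (min_le_left _ _)

theorem ibd_phi1_nonneg (a A s : ℝ) (x : S2) (μ : ProbabilityMeasure S2) : 0 ≤ phi1 a A s x μ :=
  mul_nonneg (mul_nonneg (ibd_cl_nonneg _) (ibd_cl_nonneg _)) (ibd_cl_nonneg _)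

theorem ibd_phi1_le_one (a A s : ℝ) (x : S2) (μ : ProbabilityMeasure S2) : phi1 a A s x μ ≤ 1 :=
  mul_le_one₀ (mul_le_one₀ (ibd_cl_le_one _) (ibd_cl_nonneg _) (ibd_cl_le_one _))
    (ibd_cl_nonneg _) (ibd_cl_le_one _)

theorem phi_nonneg (a A r0 : ℝ) (N : ℕ) (x : S2) (μ : ProbabilityMeasure S2) :
    0 ≤ phi a A r0 N x μ :=
  Finset.prod_nonneg fun _ _ => ibd_phi1_nonneg _ _ _ _ _

theorem phi_le_one (a A r0 : ℝ) (N : ℕ) (x : S2) (μ : ProbabilityMeasure S2) :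
    phi a A r0 N x μ ≤ 1 :=
  Finset.prod_le_one (fun _ _ => ibd_phi1_nonneg _ _ _ _ _) fun _ _ => ibd_phi1_le_one _ _ _ _ _

theorem ibd_integrand_nonneg (a A r0 c0 : ℝ) (N : ℕ) (μ : ProbabilityMeasure S2) (x y : S2) :
    0 ≤ phi a A r0 N x μ * phi a A r0 N y μ * cl (dist x y / c0 - 1) :=
  mul_nonneg (mul_nonneg (phi_nonneg _ _ _ _ _ _) (phi_nonneg _ _ _ _ _ _)) (ibd_cl_nonneg _)

theorem ibd_integrand_le_one (a A r0 c0 : ℝ) (N : ℕ) (μ : ProbabilityMeasure S2) (x y : S2) :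
    phi a A r0 N x μ * phi a A r0 N y μ * cl (dist x y / c0 - 1) ≤ 1 :=
  mul_le_one₀ (mul_le_one₀ (phi_le_one _ _ _ _ _ _) (phi_nonneg _ _ _ _ _ _)
    (phi_le_one _ _ _ _ _ _)) (ibd_cl_nonneg _) (ibd_cl_le_one _)

theorem ibd_int_le_one {μ : ProbabilityMeasure S2} {f : S2 → ℝ} (h0 : ∀ x, 0 ≤ f x)
    (h1 : ∀ x, f x ≤ 1) : ∫ x, f x ∂(μ : Measure S2) ≤ 1 := by
  have h := norm_integral_le_of_norm_le_const (μ := (μ : Measure S2)) (f := f) (C := 1)
    (Filter.Eventually.of_forall fun x => by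
      rw [Real.norm_eq_abs, abs_of_nonneg (h0 x)]
      exact h1 x)
  rw [Real.norm_eq_abs] at h
  have h2 := le_trans (le_abs_self _) h
  simpa using h2

theorem Phi_nonneg (a A r0 c0 : ℝ) (N : ℕ) (μ : ProbabilityMeasure S2) :
    0 ≤ Phi a A r0 c0 N μ :=
  integral_nonneg fun _ => integral_nonneg fun _ => ibd_integrand_nonneg _ _ _ _ _ _ _ _

theorem Phi_le_one (a A r0 c0 : ℝ) (N : ℕ) (μ : ProbabilityMeasure S2) :
    Phi a A r0 c0 N μ ≤ 1 :=
  ibd_int_le_one (fun _ => integral_nonneg fun _ => ibd_integrand_nonneg _ _ _ _ _ _ _ _)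
    fun _ => ibd_int_le_one (fun _ => ibd_integrand_nonneg _ _ _ _ _ _ _ _)
      fun _ => ibd_integrand_le_one _ _ _ _ _ _ _ _

theorem ibd_surj {R : S2 → S2} (hR : IsRot R) : Function.Surjective R := by
  obtain ⟨g, -, -, h⟩ := hR.exists_inv
  exact fun y => ⟨g y, h y⟩

theorem ibd_int {R : S2 → S2} (hR : IsRot R)
    {μ ν : ProbabilityMeasure S2} (h : (ν : Measure S2) = (μ : Measure S2).map R)
    (f : S2 → ℝ) : ∫ x, f x ∂(ν : Measure S2) = ∫ x, f (R x) ∂(μ : Measure S2) := by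
  rw [h]
  exact hR.isometry.isClosedEmbedding.measurableEmbedding.integral_map f

theorem ibd_mass {R : S2 → S2} (hR : IsRot R)
    {μ ν : ProbabilityMeasure S2} (h : (ν : Measure S2) = (μ : Measure S2).map R)
    (s : ℝ) (x : S2) : mass s (R x) ν = mass s x μ := by
  unfold mass
  rw [ibd_int hR h]
  simp only [hR.isometry.dist_eq]

theorem ibd_dens {R : S2 → S2} (hR : IsRot R)
    {μ ν : ProbabilityMeasure S2} (h : (ν : Measure S2) = (μ : Measure S2).map R)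
    (a s : ℝ) (x : S2) : dens a s (R x) ν = dens a s x μ := by
  unfold dens
  rw [← (ibd_surj hR).iInf_comp]
  simp only [hR.isometry.dist_eq, ibd_mass hR h]

theorem ibd_phi {R : S2 → S2} (hR : IsRot R)
    {μ ν : ProbabilityMeasure S2} (h : (ν : Measure S2) = (μ : Measure S2).map R)
    (a A r0 : ℝ) (N : ℕ) (x : S2) : phi a A r0 N (R x) ν = phi a A r0 N x μ := by
  unfold phi phi1
  simp only [ibd_dens hR h, ibd_mass hR h]

/-- Change of variables; a rotation is a surjective isometry. -/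
theorem Phi_inv (a A r0 c0 : ℝ) (N : ℕ) {R : S2 → S2} (hR : IsRot R) (μ ν : ProbabilityMeasure S2)
    (h : (ν : Measure S2) = (μ : Measure S2).map R) :
    Phi a A r0 c0 N ν = Phi a A r0 c0 N μ := by
  unfold Phi
  rw [ibd_int hR h]
  simp only [ibd_int hR h, ibd_phi hR h, hR.isometry.dist_eq]

end H19S
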