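import Pool.Agent.Lib.H19S.IFun

/-!
# H19S, chunk I-CONT1: integrals of jointly continuous functions over a compact space against a
continuously varying probability measure
-/

namespace H19S

open Finset MeasureTheory Filter Topology
open scoped ENNReal

/-- Proof. Fix `z0`. The map `z ↦ f z` into `C(X, ℝ)` with the sup norm is continuous
(`ContinuousMap.curry`, `X` compact), so `|∫ f z d(m z) - ∫ f z0 d(m z)| ≤ ‖f z - f z0‖ → 0`; and
`∫ f z0 d(m z) → ∫ f z0 d(m z0)` since `m` is continuous
(`ProbabilityMeasure.tendsto_iff_forall_integral_tendsto`). -/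
theorem int_cont {Z X : Type*} [TopologicalSpace Z] [TopologicalSpace X] [CompactSpace X]
    [MeasurableSpace X] [BorelSpace X] (f : Z → X → ℝ)
    (hf : Continuous (Function.uncurry f)) (m : Z → ProbabilityMeasure X) (hm : Continuous m) :
    Continuous fun z => ∫ x, f z x ∂(m z : Measure X) := by
  have hfz : ∀ z, Continuous (f z) := fun z => hf.comp (Continuous.prodMk_right z)
  let F : Z → C(X, ℝ) := fun z => ⟨f z, hfz z⟩
  have hF : Continuous F := ContinuousMap.continuous_of_continuous_uncurry F hf
  have hint : ∀ (g : C(X, ℝ)) (z : Z), Integrable (fun x => g x) (m z : Measure X) := by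
    intro g z
    exact (BoundedContinuousFunction.mkOfCompact g).integrable (m z : Measure X)
  rw [continuous_iff_continuousAt]
  intro z0
  have h1 : Tendsto (fun z => ∫ x, (F z0) x ∂(m z : Measure X)) (𝓝 z0)
      (𝓝 (∫ x, (F z0) x ∂(m z0 : Measure X))) := by
    have := (ProbabilityMeasure.tendsto_iff_forall_integral_tendsto.1 (hm.tendsto z0))
      (BoundedContinuousFunction.mkOfCompact (F z0))
    exact this
  have h2 : Tendsto (fun z => ∫ x, (F z - F z0) x ∂(m z : Measure X)) (𝓝 z0) (𝓝 0) := by
    have h3 : Tendsto (fun z => ‖F z - F z0‖) (𝓝 z0) (𝓝 0) := by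
      have := (tendsto_iff_norm_sub_tendsto_zero.1 (hF.tendsto z0))
      exact this
    apply squeeze_zero_norm _ h3
    intro z
    have h4 := norm_integral_le_of_norm_le_const (μ := (m z : Measure X))
      (f := fun x => (F z - F z0) x) (C := ‖F z - F z0‖)
      (Eventually.of_forall (fun x => (F z - F z0).norm_coe_le_norm x))
    simpa using h4
  have h5 := h2.add h1
  rw [zero_add] at h5
  refine (h5.congr ?_)
  intro z
  rw [← integral_add (hint (F z - F z0) z) (hint (F z0) z)]
  apply integral_congr_ae
  apply Eventually.of_forall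
  intro x
  simp [F]

end H19S
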