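import Pool.Agent.Lib.H19S.ICont1

/-!
# H19S, chunk I-CONT2: continuity of `mass`, `dens`, `phi`, `Phi`
-/

namespace H19S

open Finset MeasureTheory Filter Topology
open scoped ENNReal

theorem icont2_cl_cont : Continuous cl := by
  unfold cl
  fun_prop

theorem icont2_bump_cont (s : ℝ) : Continuous (bump s) := by
  unfold bump
  exact icont2_cl_cont.comp (by fun_prop)

/-- `int_cont` with `Z = S2 × ProbabilityMeasure S2`. -/
theorem mass_cont (s : ℝ) :
    Continuous fun q : S2 × ProbabilityMeasure S2 => mass s q.1 q.2 := by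
  unfold mass
  apply int_cont (fun (q : S2 × ProbabilityMeasure S2) (w : S2) => bump s (dist q.1 w)) _
    (fun q => q.2) continuous_snd
  have h : Continuous fun p : (S2 × ProbabilityMeasure S2) × S2 => dist p.1.1 p.2 := by
    fun_prop
  exact (icont2_bump_cont s).comp h

theorem icont2_swap : Continuous fun p : (S2 × ProbabilityMeasure S2) × S2 => (p.2, p.1.2) := by
  fun_prop

theorem icont2_comp_swap (F : S2 → ProbabilityMeasure S2 → ℝ)
    (h : Continuous fun q : S2 × ProbabilityMeasure S2 => F q.1 q.2) :
    Continuous fun p : (S2 × ProbabilityMeasure S2) × S2 => F p.2 p.1.2 := by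
  have := h.comp icont2_swap
  exact this

/-- Infimum over a compact space of a jointly continuous function
(`IsCompact.continuous_sInf`, with `K = univ`). -/
theorem dens_cont (a s : ℝ) :
    Continuous fun q : S2 × ProbabilityMeasure S2 => dens a s q.1 q.2 := by
  have h2 := icont2_comp_swap (mass (s / 80)) (mass_cont (s / 80))
  have h3 : Continuous fun p : (S2 × ProbabilityMeasure S2) × S2 =>
      2 * max 0 (dist p.1.1 p.2 / s - 3) := by
    fun_prop
  have h1 := (h2.div_const (a * s ^ 2)).add h3
  have h4 : Continuous fun p : (S2 × ProbabilityMeasure S2) =>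
      sInf ((fun y : S2 => mass (s / 80) y p.2 / (a * s ^ 2) + 2 * max 0 (dist p.1 y / s - 3)) ''
        Set.univ) :=
    IsCompact.continuous_sInf (f := fun (p : S2 × ProbabilityMeasure S2) (y : S2) =>
      mass (s / 80) y p.2 / (a * s ^ 2) + 2 * max 0 (dist p.1 y / s - 3)) isCompact_univ h1
  have h5 : (fun q : S2 × ProbabilityMeasure S2 => dens a s q.1 q.2) = fun p =>
      sInf ((fun y : S2 => mass (s / 80) y p.2 / (a * s ^ 2) + 2 * max 0 (dist p.1 y / s - 3)) ''
        Set.univ) := by
    funext p
    unfold dens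
    rw [Set.image_univ]
    rfl
  rw [h5]
  exact h4

theorem icont2_phi1_cont (a A s : ℝ) :
    Continuous fun q : S2 × ProbabilityMeasure S2 => phi1 a A s q.1 q.2 := by
  unfold phi1
  have h1 := mass_cont s
  have h2 := dens_cont a s
  exact ((icont2_cl_cont.comp ((h1.div_const _).sub continuous_const)).mul
    (icont2_cl_cont.comp (continuous_const.sub (h1.div_const _)))).mul
    (icont2_cl_cont.comp (h2.sub continuous_const))

theorem phi_cont (a A r0 : ℝ) (N : ℕ) :
    Continuous fun q : S2 × ProbabilityMeasure S2 => phi a A r0 N q.1 q.2 := by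
  unfold phi
  exact continuous_finsetProd _ fun i _ => icont2_phi1_cont a A (r0 / 2 ^ i)

theorem icont2_dist (c0 : ℝ) : Continuous fun p : (S2 × ProbabilityMeasure S2) × S2 =>
    cl (dist p.1.1 p.2 / c0 - 1) := by
  have h : Continuous fun p : (S2 × ProbabilityMeasure S2) × S2 => dist p.1.1 p.2 / c0 - 1 := by
    fun_prop
  exact icont2_cl_cont.comp h

theorem icont2_inner (F : S2 → ProbabilityMeasure S2 → ℝ)
    (hF : Continuous fun q : S2 × ProbabilityMeasure S2 => F q.1 q.2) (c0 : ℝ) :
    Continuous fun q : S2 × ProbabilityMeasure S2 =>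
      ∫ y, F q.1 q.2 * F y q.2 * cl (dist q.1 y / c0 - 1) ∂(q.2 : Measure S2) := by
  have h2 : Continuous fun p : (S2 × ProbabilityMeasure S2) × S2 => F p.1.1 p.1.2 := by
    have := hF.comp (continuous_fst (X := S2 × ProbabilityMeasure S2) (Y := S2))
    exact this
  have h3 := icont2_comp_swap F hF
  have h4 := (h2.mul h3).mul (icont2_dist c0)
  exact int_cont (fun (q : S2 × ProbabilityMeasure S2) (y : S2) =>
      F q.1 q.2 * F y q.2 * cl (dist q.1 y / c0 - 1)) h4 (fun q => q.2) continuous_snd

theorem icont2_outer (F : S2 → ProbabilityMeasure S2 → ℝ)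
    (hF : Continuous fun q : S2 × ProbabilityMeasure S2 => F q.1 q.2) :
    Continuous fun μ : ProbabilityMeasure S2 => ∫ x, F x μ ∂(μ : Measure S2) := by
  have h : Continuous fun p : ProbabilityMeasure S2 × S2 => F p.2 p.1 := by
    have := hF.comp (continuous_swap (X := ProbabilityMeasure S2) (Y := S2))
    exact this
  exact int_cont (fun (μ : ProbabilityMeasure S2) (x : S2) => F x μ) h (fun μ => μ)
    continuous_id

/-- `int_cont` twice. -/
theorem Phi_cont (a A r0 c0 : ℝ) (N : ℕ) : Continuous (Phi a A r0 c0 N) := by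
  have h := icont2_outer (fun x μ => ∫ y, phi a A r0 N x μ * phi a A r0 N y μ *
      cl (dist x y / c0 - 1) ∂(μ : Measure S2))
    (icont2_inner (phi a A r0 N) (phi_cont a A r0 N) c0)
  exact h

end H19S
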