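import Pool.Agent.Lib.H19S.IBd

/-!
# H19S, chunk I-FIN1: `Φ` on the quotient, convergence of the averages
-/

namespace H19S

open Finset MeasureTheory Filter Topology
open scoped ENNReal

/-- `Φ_{m,N}` as a continuous function on `MQ`, with values in `[0, 1]`. -/
theorem exists_PhiQ (m N : ℕ) : ∃ f : BoundedContinuousFunction MQ ℝ,
    ∀ μ : ProbabilityMeasure S2, f (toMQ μ) = PhiM m N μ := by
  have hinv : ∀ μ ν : ProbabilityMeasure S2, rotSetoid μ ν → PhiM m N μ = PhiM m N ν := by
    rintro μ ν ⟨R, hR, h⟩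
    exact (Phi_inv _ _ _ _ _ hR μ ν h).symm
  have hcont : Continuous (Quotient.lift (PhiM m N) hinv : Quotient rotSetoid → ℝ) :=
    Continuous.quotient_lift (Phi_cont _ _ _ _ _) hinv
  refine ⟨BoundedContinuousFunction.ofNormedAddCommGroup
    (Quotient.lift (PhiM m N) hinv : MQ → ℝ) hcont 1 ?_, fun μ => rfl⟩
  intro x
  obtain ⟨μ, rfl⟩ : ∃ μ, toMQ μ = x := Quotient.exists_rep x
  change ‖PhiM m N μ‖ ≤ 1
  unfold PhiM
  rw [Real.norm_of_nonneg (Phi_nonneg _ _ _ _ _ _)]
  exact Phi_le_one _ _ _ _ _ _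

/-- Convergence in law gives convergence of the averages. -/
theorem avg_tendsto (P : ∀ n, Cls n → ProbabilityMeasure S2) (k : ℕ → ℕ)
    (law : ℕ → ProbabilityMeasure MQ)
    (hlaw : ∀ j, (law j : Measure MQ) =
      (ProbabilityTheory.uniformOn (Set.univ : Set (Cls (k j)))).map (fun T => toMQ (P (k j) T)))
    (Q : ProbabilityMeasure MQ) (hQ : Tendsto law atTop (𝓝 Q))
    (f : BoundedContinuousFunction MQ ℝ) :
    Tendsto (fun j => (∑ T : Cls (k j), f (toMQ (P (k j) T))) / Fintype.card (Cls (k j))) atTop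
      (𝓝 (∫ x, f x ∂(Q : Measure MQ))) := by
  have h1 := (ProbabilityMeasure.tendsto_iff_forall_integral_tendsto.mp hQ) f
  refine h1.congr ?_
  intro j
  rw [hlaw j, integral_map (measurable_from_top.aemeasurable)
    f.continuous.aestronglyMeasurable]
  unfold ProbabilityTheory.uniformOn ProbabilityTheory.cond
  rw [integral_smul_measure, Measure.restrict_univ, Measure.count_univ, integral_count,
    smul_eq_mul, ENNReal.toReal_inv, ENat.card_eq_coe_fintype_card]
  simp only [ENat.toENNReal_coe, ENNReal.toReal_natCast]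
  rw [div_eq_inv_mul]

end H19S
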