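import Pool.Agent.Lib.H19S.IPos3

/-!
# H19S, chunk I-POS3B: if `μ` is not singular then `Φ_{m,N}(μ)` stays away from `0` as `N → ∞`
-/

namespace H19S

open Finset MeasureTheory Filter Topology
open scoped ENNReal

theorem ipos3b_reg_mono {μ : ProbabilityMeasure S2} {a A r1 a' A' r1' : ℝ} {x : S2}
    (h : Reg μ a A r1 x) (ha : a' ≤ a) (hA : A ≤ A') (hr : r1' ≤ r1) : Reg μ a' A' r1' x := by
  intro s hs hs1
  obtain ⟨h1, h2, h3⟩ := h s hs (hs1.trans hr)
  have hs2 : 0 ≤ s ^ 2 := sq_nonneg s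
  refine ⟨?_, ?_, fun y hy => ?_⟩
  · nlinarith
  · nlinarith
  · have := h3 y hy
    nlinarith

theorem ipos3b_cl_nonneg (t : ℝ) : 0 ≤ cl t := le_max_left _ _

theorem ipos3b_cl_one {t : ℝ} (h : 1 ≤ t) : cl t = 1 := by
  unfold cl
  rw [min_eq_left h]
  norm_num

/-- Markov inequality for a continuous function on the sphere. -/
theorem ipos3b_markov (μ : ProbabilityMeasure S2) (f : S2 → ℝ) (hf : Continuous f)
    (h0 : ∀ x, 0 ≤ f x) (ε : ℝ) :
    ε * (μ : Measure S2).real {x | ε ≤ f x} ≤ ∫ x, f x ∂(μ : Measure S2) := by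
  have hi : Integrable f (μ : Measure S2) := by
    have := hf.integrable_of_hasCompactSupport (μ := (μ : Measure S2))
      (HasCompactSupport.of_compactSpace f)
    exact this
  exact mul_meas_ge_le_integral_of_nonneg (Eventually.of_forall h0) hi ε

/-- Let `G = {x | Reg μ (1/(k+1)) (k+1) (1/(k+1)) x}`, `μ G > 0` (`reg_pts`). For `x ∈ G`
the measure of `closedBall x s` tends to `0` as `s → 0`. So there are `m ≥ k` and a Borel set
`G' = {x | ∀ N, phi (1/(m+1)) (m+1) (1/(1000(m+1))) N x μ = 1} ⊇ G` and `c0 = 1/(m+1)` with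
`2 c0 ≤ s`, `μ (closedBall x s) ≤ μ G / 2`, `x ∈ G`; hence for `x ∈ G`:
`∫ y, phi .. y μ * cl (dist x y / c0 - 1) ∂μ ≥ μ (G' \ closedBall x s) ≥ μ G / 2`. As this inner
integral is continuous in `x`, `{x | inner integral ≥ μ G / 2}` is a closed set containing `G`, and
`Φ ≥ (μ G / 2) * μ (G' ∩ this set) ≥ (μ G)^2 / 2`. (`phi .. N` is decreasing in `N`; `G` may be
non-measurable, its outer measure is used.) -/
theorem pos_of_not_singular (μ : ProbabilityMeasure S2) (h : ¬ (μ : Measure S2) ⟂ₘ area) :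
    ∃ (m : ℕ) (δ : ℝ), 0 < δ ∧ ∀ N : ℕ, δ ≤ PhiM m N μ := by
  obtain ⟨k, hk⟩ := reg_pts μ h
  set G := {x | Reg μ (1 / (k + 1)) (k + 1) (1 / (k + 1)) x} with hG
  set η := (μ : Measure S2).real G with hη
  have hη0 : 0 < η := by
    rw [hη, measureReal_def]
    exact ENNReal.toReal_pos hk.ne' (measure_ne_top _ _)
  -- choice of m
  obtain ⟨m0, hm0⟩ := exists_nat_gt ((k + 1) * 2 / η)
  set m := max k m0 with hm
  have hmk : (k : ℝ) ≤ m := by exact_mod_cast le_max_left _ _
  have hmm : (m0 : ℝ) ≤ m := by exact_mod_cast le_max_right _ _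
  have hk0 : (0 : ℝ) ≤ k := Nat.cast_nonneg k
  have hm1 : (0 : ℝ) < m + 1 := by linarith
  have hk1 : (0 : ℝ) < k + 1 := by linarith
  set c0 : ℝ := 1 / (m + 1) with hc0
  have hc0pos : 0 < c0 := by positivity
  have hck : c0 ≤ 1 / (k + 1) := one_div_le_one_div_of_le hk1 (by linarith)
  have hc1 : c0 ≤ 1 := by
    rw [hc0, div_le_one hm1]
    linarith
  have hball : ∀ x ∈ G, (μ : Measure S2).real (Metric.closedBall x (2 * c0)) ≤ η / 2 := by
    intro x hx
    obtain ⟨-, h2, -⟩ := hx c0 hc0pos hck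
    refine h2.trans ?_
    have e1 : c0 ^ 2 ≤ c0 := by nlinarith
    have e2 : ((k : ℝ) + 1) * c0 ≤ η / 2 := by
      rw [hc0, mul_one_div, div_le_iff₀ hm1]
      have e3 : (k + 1) * 2 / η < (m : ℝ) + 1 := by linarith
      rw [div_lt_iff₀ hη0] at e3
      linarith
    calc ((k : ℝ) + 1) * c0 ^ 2 ≤ (k + 1) * c0 := by gcongr
      _ ≤ η / 2 := e2
  have hphi : ∀ (N : ℕ), ∀ x ∈ G,
      phi (1 / (m + 1)) (m + 1) (1 / (1000 * (m + 1))) N x μ = 1 := by
    intro N x hx
    have hr : Reg μ (1 / (m + 1)) (m + 1) (1 / (m + 1)) x :=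
      ipos3b_reg_mono hx hck (by linarith) hck
    refine phi_eq_one (by positivity) hm1 hr (by positivity) ?_ N
    apply one_div_le_one_div_of_le hm1
    nlinarith
  refine ⟨m, η / 2 * η, by positivity, fun N => ?_⟩
  set F : S2 → ProbabilityMeasure S2 → ℝ :=
    phi (1 / (m + 1)) (m + 1) (1 / (1000 * (m + 1))) N with hF
  have hFc : Continuous fun q : S2 × ProbabilityMeasure S2 => F q.1 q.2 :=
    phi_cont _ _ _ N
  have hF0 : ∀ x, 0 ≤ F x μ := fun x => phi_nonneg _ _ _ N x μ
  have hpair : Continuous fun x : S2 => ((x, μ) : S2 × ProbabilityMeasure S2) := by fun_prop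
  have hFx : Continuous fun x : S2 => F x μ := by
    have := hFc.comp hpair
    exact this
  set J : S2 → ℝ := fun x => ∫ y, F x μ * F y μ * cl (dist x y / c0 - 1) ∂(μ : Measure S2)
    with hJ
  have hJc : Continuous J := by
    have := (icont2_inner F hFc c0).comp hpair
    exact this
  have hcl : ∀ x : S2, Continuous fun y : S2 => cl (dist x y / c0 - 1) := by
    intro x
    have h1 : Continuous fun y : S2 => dist x y / c0 - 1 := by fun_prop
    exact icont2_cl_cont.comp h1
  have hJ0 : ∀ x, 0 ≤ J x := fun x =>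
    integral_nonneg fun y => mul_nonneg (mul_nonneg (hF0 x) (hF0 y)) (ipos3b_cl_nonneg _)
  have hJG : ∀ x ∈ G, η / 2 ≤ J x := by
    intro x hx
    have hfx : F x μ = 1 := hphi N x hx
    have hc : Continuous fun y : S2 => F x μ * F y μ * cl (dist x y / c0 - 1) :=
      (continuous_const.mul hFx).mul (hcl x)
    have h1 := ipos3b_markov μ _ hc
      (fun y => mul_nonneg (mul_nonneg (hF0 x) (hF0 y)) (ipos3b_cl_nonneg _)) 1
    have h2 : G ⊆ Metric.closedBall x (2 * c0) ∪
        {y | 1 ≤ F x μ * F y μ * cl (dist x y / c0 - 1)} := by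
      intro y hy
      by_cases hd : dist y x ≤ 2 * c0
      · exact Or.inl hd
      · refine Or.inr ?_
        have hfy : F y μ = 1 := hphi N y hy
        have h3 : cl (dist x y / c0 - 1) = 1 := by
          apply ipos3b_cl_one
          rw [dist_comm] at hd
          have h4 : 2 ≤ dist x y / c0 := by
            rw [le_div_iff₀ hc0pos]
            linarith
          linarith
        show 1 ≤ F x μ * F y μ * cl (dist x y / c0 - 1)
        rw [hfx, hfy, h3]
        norm_num
    have h3 : η ≤ (μ : Measure S2).real (Metric.closedBall x (2 * c0)) +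
        (μ : Measure S2).real {y | 1 ≤ F x μ * F y μ * cl (dist x y / c0 - 1)} :=
      (measureReal_mono h2).trans (measureReal_union_le _ _)
    have h4 := hball x hx
    rw [one_mul] at h1
    have h5 : η / 2 ≤ (μ : Measure S2).real
        {y | 1 ≤ F x μ * F y μ * cl (dist x y / c0 - 1)} := by linarith
    exact h5.trans h1
  have h1 := ipos3b_markov μ J hJc hJ0 (η / 2)
  have h2 : η ≤ (μ : Measure S2).real {x | η / 2 ≤ J x} := measureReal_mono hJG
  have h3 : PhiM m N μ = ∫ x, J x ∂(μ : Measure S2) := rfl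
  rw [h3]
  refine le_trans ?_ h1
  gcongr

end H19S
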