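import Pool.Agent.Lib.H19S.IKey
import Pool.Agent.Lib.H19S.IPos3b
import Pool.Agent.Lib.H19S.IFin1

/-!
# H19S, chunk I-FIN2: the final theorem
-/

namespace H19S

open Finset MeasureTheory Filter Topology
open scoped ENNReal

/-- FINAL THEOREM (part I). Proof. If not, then by `pos_of_not_singular` and countability of `m` and
`δ = 1/(l+1)`, some closed set `{x | ∀ N, δ ≤ PhiQ m N x}` has measure `q > 0`. So `∫ PhiQ m N ∂Q ≥ δ q`
for all `N`; by `mean_small` (with `δ q / 2`) and `avg_tendsto`, for some `N`,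
`∫ PhiQ m N ∂Q ≤ δ q / 2`. Contradiction. -/
theorem final (P : ∀ n, Cls n → ProbabilityMeasure S2) (hP : ∀ n T, IsTangMeas T (P n T))
    (k : ℕ → ℕ) (hk : StrictMono k) (law : ℕ → ProbabilityMeasure MQ)
    (hlaw : ∀ j, (law j : Measure MQ) =
      (ProbabilityTheory.uniformOn (Set.univ : Set (Cls (k j)))).map (fun T => toMQ (P (k j) T)))
    (Q : ProbabilityMeasure MQ) (hQ : Tendsto law atTop (𝓝 Q)) :
    ∀ᵐ x ∂(Q : Measure MQ), ∀ μ : ProbabilityMeasure S2, toMQ μ = x →
      (μ : Measure S2) ⟂ₘ area := by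
  choose f hf using exists_PhiQ
  -- the bad set is contained in a countable union of closed sets
  set B : ℕ → ℕ → Set MQ := fun m l => ⋂ N : ℕ, {x | (1 : ℝ) / (l + 1) ≤ f m N x} with hB
  have hBclosed : ∀ m l, IsClosed (B m l) := by
    intro m l
    apply isClosed_iInter
    intro N
    exact isClosed_le continuous_const (f m N).continuous
  have hnull : ∀ m l, (Q : Measure MQ) (B m l) = 0 := by
    intro m l
    by_contra hne
    have hq : 0 < (Q : Measure MQ).real (B m l) := by
      rw [Measure.real, ENNReal.toReal_pos_iff]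
      exact ⟨pos_iff_ne_zero.mpr hne, measure_lt_top _ _⟩
    set q := (Q : Measure MQ).real (B m l) with hqdef
    have hl : (0 : ℝ) < 1 / (l + 1) := by positivity
    obtain ⟨N, n1, hN⟩ := mean_small m (1 / (l + 1) * q / 2) (by positivity)
    have hlow : 1 / (l + 1) * q ≤ ∫ x, f m N x ∂(Q : Measure MQ) := by
      have hnonneg : ∀ x, 0 ≤ f m N x := by
        intro x
        obtain ⟨μ, rfl⟩ : ∃ μ, toMQ μ = x := Quotient.exists_rep x
        rw [hf]
        exact Phi_nonneg _ _ _ _ _ _
      have hint : Integrable (fun x => f m N x) (Q : Measure MQ) := (f m N).integrable _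
      have h1 : ∫ x in B m l, (1 / (l + 1) : ℝ) ∂(Q : Measure MQ) ≤
          ∫ x in B m l, f m N x ∂(Q : Measure MQ) := by
        apply setIntegral_mono_on (integrableOn_const (by
          exact (measure_lt_top _ _).ne)) hint.integrableOn (hBclosed m l).measurableSet
        intro x hx
        exact (Set.mem_iInter.mp hx N)
      have h2 : ∫ x in B m l, f m N x ∂(Q : Measure MQ) ≤ ∫ x, f m N x ∂(Q : Measure MQ) :=
        setIntegral_le_integral hint (Filter.Eventually.of_forall hnonneg)
      rw [setIntegral_const, smul_eq_mul] at h1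
      calc (1 / (l + 1) : ℝ) * q = q * (1 / (l + 1)) := mul_comm _ _
        _ ≤ _ := h1.trans h2
    have htend := avg_tendsto P k law hlaw Q hQ (f m N)
    have hup : ∫ x, f m N x ∂(Q : Measure MQ) ≤ 1 / (l + 1) * q / 2 := by
      refine le_of_tendsto htend ?_
      filter_upwards [eventually_ge_atTop n1] with j hj
      have hkj : n1 ≤ k j := hj.trans (hk.id_le j)
      have h1 := hN (k j) hkj (P (k j)) (hP (k j))
      have h2 : ∑ T : Cls (k j), f m N (toMQ (P (k j) T)) = ∑ T, PhiM m N (P (k j) T) :=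
        Finset.sum_congr rfl (fun T _ => hf m N _)
      rw [h2]
      rcases Nat.eq_zero_or_pos (Fintype.card (Cls (k j))) with h0 | h0
      · rw [h0]
        simp only [Nat.cast_zero, div_zero]
        positivity
      · rw [div_le_iff₀ (by exact_mod_cast h0)]
        exact h1
    have : 0 < 1 / ((l : ℝ) + 1) * q := by positivity
    linarith
  have hunion : (Q : Measure MQ) (⋃ m : ℕ, ⋃ l : ℕ, B m l) = 0 := by
    rw [measure_iUnion_null_iff]
    intro m
    rw [measure_iUnion_null_iff]
    exact hnull m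
  rw [ae_iff]
  refine measure_mono_null ?_ hunion
  intro x hx
  simp only [Set.mem_setOf_eq, not_forall] at hx
  obtain ⟨μ, hμ, hs⟩ := hx
  obtain ⟨m, δ, hδ, hΦ⟩ := pos_of_not_singular μ hs
  obtain ⟨l, hl⟩ := exists_nat_one_div_lt hδ
  simp only [Set.mem_iUnion]
  refine ⟨m, l, ?_⟩
  rw [hB]
  apply Set.mem_iInter.mpr
  intro N
  rw [Set.mem_setOf_eq, ← hμ, hf]
  exact hl.le.trans (hΦ N)

end H19S
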