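import Pool.Agent.Lib.H19S.IStat

/-!
# H19S, part I: the continuous functionals `Phi` and their elementary properties

`Phi a A r0 c0 N μ` is a continuous lower bound for the `μ ⊗ μ`-measure of the pairs `(x, y)` with
distance at least `c0` such that `x` and `y` are regular for `μ` on the scales `r0 / 2^i`, `i ≤ N`.
-/

namespace H19S

open Finset MeasureTheory Filter Topology
open scoped ENNReal

noncomputable section

/-- Truncation to `[0, 1]`. -/
def cl (t : ℝ) : ℝ := max 0 (min 1 t)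

/-- Cut-off: `1` for `t ≤ s`, `0` for `t ≥ 2 s`. -/
def bump (s t : ℝ) : ℝ := cl (2 - t / s)

/-- Smoothed mass of the ball of radius `s` at `x`: between the mass of `closedBall x s` and the mass
of `ball x (2 s)`. -/
def mass (s : ℝ) (x : S2) (μ : ProbabilityMeasure S2) : ℝ :=
  ∫ w, bump s (dist x w) ∂(μ : Measure S2)

/-- Large iff all the balls of radius `s / 80` near `x` have mass `≥ 2 a s^2`. -/
def dens (a s : ℝ) (x : S2) (μ : ProbabilityMeasure S2) : ℝ :=
  ⨅ y : S2, (mass (s / 80) y μ / (a * s ^ 2) + 2 * max 0 (dist x y / s - 3))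

/-- Regularity of `x` at the scale `s`. -/
def phi1 (a A s : ℝ) (x : S2) (μ : ProbabilityMeasure S2) : ℝ :=
  cl (mass s x μ / (a * s ^ 2) - 1) * cl (2 - mass s x μ / (A * s ^ 2)) * cl (dens a s x μ - 1)

/-- Regularity of `x` at the scales `r0 / 2^i`, `i ≤ N`. -/
def phi (a A r0 : ℝ) (N : ℕ) (x : S2) (μ : ProbabilityMeasure S2) : ℝ :=
  ∏ i ∈ range (N + 1), phi1 a A (r0 / 2 ^ i) x μ

/-- The functional `Φ`. -/
def Phi (a A r0 c0 : ℝ) (N : ℕ) (μ : ProbabilityMeasure S2) : ℝ :=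
  ∫ x, (∫ y, phi a A r0 N x μ * phi a A r0 N y μ * cl (dist x y / c0 - 1) ∂(μ : Measure S2))
    ∂(μ : Measure S2)

/-- `Φ` with the standard choice of the parameters: `a = 1/(m+1)`, `A = m+1`,
`r0 = 1/(1000 (m+1))`, `c0 = 1/(m+1)`. -/
def PhiM (m N : ℕ) (μ : ProbabilityMeasure S2) : ℝ :=
  Phi (1 / (m + 1)) (m + 1) (1 / (1000 * (m + 1))) (1 / (m + 1)) N μ

end

end H19S
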