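import Pool.Agent.Lib.H19S.INeedE
import Pool.Agent.Lib.H19S.A0

/-!
# H19S, chunk I-GEO1: the set of tangency points
-/

namespace H19S

open Finset MeasureTheory Filter Topology

variable {F : Finset (ℕ × ℕ × ℕ)} {c : ℕ → S2} {r : ℕ → ℝ}

theorem igeo1_map (hF : IsTri F) (h4 : 4 ≤ (vs F).card) (hp : IsPacking F c r) :
    ∃ f : S2 → ℕ × ℕ × ℕ, Set.MapsTo f (tangPts F c r) (F : Set (ℕ × ℕ × ℕ)) ∧
      Set.InjOn f (tangPts F c r) := by
  classical
  have h : ∀ p : S2, p ∈ tangPts F c r → ∃ t : ℕ × ℕ × ℕ, t ∈ F ∧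
      p ∈ Metric.closedBall (c t.1) (r t.1) ∧ p ∈ Metric.closedBall (c t.2.1) (r t.2.1) := by
    rintro p ⟨x, y, ⟨z, hz⟩, h1, h2⟩
    exact ⟨(x, y, z), hz, h1, h2⟩
  choose! f hf using h
  refine ⟨f, fun p hpp => (hf p hpp).1, ?_⟩
  intro p hpp q hqq hpq
  obtain ⟨h1, h2, h3⟩ := hf p hpp
  obtain ⟨h1', h2', h3'⟩ := hf q hqq
  rw [← hpq] at h2' h3' h1'
  have hs := hF.toIsSurf
  have hadj : Adj F (f p).1 (f p).2.1 := ⟨(f p).2.2, h1⟩
  exact need_unique hF h4 hp hadj.mem_left (hs.adj_mem_right hadj) (hs.adj_ne hadj) h2 h3 h2' h3'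

/-- The tangency points form a finite set: every dart `(x, y)` has at most one point
(`need_unique`). -/
theorem tang_finite (hF : IsTri F) (h4 : 4 ≤ (vs F).card) (hp : IsPacking F c r) :
    (tangPts F c r).Finite := by
  obtain ⟨f, h1, h2⟩ := igeo1_map hF h4 hp
  exact Set.Finite.of_injOn h1 h2 F.finite_toSet

theorem igeo1_point (hF : IsTri F) (hp : IsPacking F c r) {x y : ℕ} (h : Adj F x y) :
    ∃ p, p ∈ tangPts F c r ∧ p ∈ Metric.closedBall (c x) (r x) := by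
  have hs := hF.toIsSurf
  obtain ⟨p, h1, h2⟩ := (hp.tang x h.mem_left y (hs.adj_mem_right h) (hs.adj_ne h)).2 h
  exact ⟨p, ⟨x, y, h, h1, h2⟩, h1⟩

theorem tang_nonempty (hF : IsTri F) (hp : IsPacking F c r) : (tangPts F c r).Nonempty := by
  obtain ⟨⟨x, y, z⟩, ht⟩ := hF.toIsSurf.nonempty
  obtain ⟨p, h1, -⟩ := igeo1_point hF hp (x := x) (y := y) ⟨z, ht⟩
  exact ⟨p, h1⟩

/-- More generally: if every vertex of `A` has a tangency point in `S` on its disc, then
`|A| ≤ 2 |S|`. -/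
theorem card_le_two_mul (hF : IsTri F) (h4 : 4 ≤ (vs F).card) (hp : IsPacking F c r)
    (A : Finset ℕ) (hA : A ⊆ vs F) (S : Finset S2)
    (h : ∀ w ∈ A, ∃ p ∈ S, p ∈ Metric.closedBall (c w) (r w)) :
    A.card ≤ 2 * S.card := by
  classical
  haveI : Nonempty S2 := ⟨c 0⟩
  choose! g hg using h
  refine Finset.card_le_mul_card_image_of_maps_to (f := g) (fun a ha => (hg a ha).1) 2 ?_
  intro p _
  by_contra hc
  push Not at hc
  rw [Finset.two_lt_card] at hc
  obtain ⟨x, hx, y, hy, z, hz, hxy, hxz, hyz⟩ := hc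
  rw [Finset.mem_filter] at hx hy hz
  have h1 := (hg x hx.1).2
  have h2 := (hg y hy.1).2
  have h3 := (hg z hz.1).2
  rw [hx.2] at h1
  rw [hy.2] at h2
  rw [hz.2] at h3
  rcases need_two hF h4 hp (hA hx.1) (hA hy.1) (hA hz.1) h1 h2 h3 with h | h | h
  · exact hxy h
  · exact hyz h
  · exact hxz h

/-- Each vertex has a tangency point on its disc, and a point lies in at most two discs
(`need_two`). -/
theorem tang_card_ge (hF : IsTri F) (h4 : 4 ≤ (vs F).card) (hp : IsPacking F c r) :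
    (vs F).card ≤ 2 * (tangPts F c r).ncard := by
  classical
  rw [Set.ncard_eq_toFinset_card _ (tang_finite hF h4 hp)]
  refine card_le_two_mul hF h4 hp (vs F) (Finset.Subset.refl _) _ ?_
  intro w hw
  obtain ⟨a, b, hab⟩ := mem_vs.1 hw
  obtain ⟨p, h1, h2⟩ := igeo1_point hF hp (x := w) (y := a) ⟨b, hab⟩
  exact ⟨p, (Set.Finite.mem_toFinset _).2 h1, h2⟩

/-- At most one point for every dart, `6 n - 12` darts. -/
theorem tang_card_le (hF : IsTri F) (h4 : 4 ≤ (vs F).card) (hp : IsPacking F c r) :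
    (tangPts F c r).ncard ≤ 6 * (vs F).card := by
  obtain ⟨f, h1, h2⟩ := igeo1_map hF h4 hp
  have h3 := Set.ncard_le_ncard_of_injOn f h1 h2 F.finite_toSet
  rw [Set.ncard_coe_finset] at h3
  have := hF.euler
  omega

end H19S
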