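import Pool.Agent.Lib.H19S.IGeo1

/-!
# H19S, chunk I-GEO1B: assignment of the tangency points to vertices
-/

namespace H19S

open Finset MeasureTheory Filter Topology

/-- Every tangency point `p` is assigned to the vertex `sv p`, the smaller one of its two discs;
at most `K` tangency points are assigned to the same vertex (`need_kiss`, `need_unique`). -/
theorem exists_sv : ∃ K : ℕ, 0 < K ∧ ∀ (F : Finset (ℕ × ℕ × ℕ)) (c : ℕ → S2) (r : ℕ → ℝ),
    IsTri F → 4 ≤ (vs F).card → IsPacking F c r → ∃ sv : S2 → ℕ,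
      (∀ p ∈ tangPts F c r, sv p ∈ vs F ∧ p ∈ Metric.closedBall (c (sv p)) (r (sv p))) ∧
      ∀ (S : Finset S2) (v : ℕ), (∀ p ∈ S, p ∈ tangPts F c r ∧ sv p = v) → S.card ≤ K := by
  classical
  obtain ⟨K, hK, hkiss⟩ := need_kiss
  refine ⟨K, hK, ?_⟩
  intro F c r hF h4 hp
  have hex : ∀ p : S2, ∃ xy : ℕ × ℕ, p ∈ tangPts F c r →
      Adj F xy.1 xy.2 ∧ p ∈ Metric.closedBall (c xy.1) (r xy.1) ∧
        p ∈ Metric.closedBall (c xy.2) (r xy.2) ∧ r xy.1 ≤ r xy.2 := by
    intro p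
    by_cases h : p ∈ tangPts F c r
    · obtain ⟨x, y, hxy, hx, hy⟩ := h
      rcases le_total (r x) (r y) with h1 | h1
      · exact ⟨(x, y), fun _ => ⟨hxy, hx, hy, h1⟩⟩
      · exact ⟨(y, x), fun _ => ⟨hF.toIsSurf.adj_symm hxy, hy, hx, h1⟩⟩
    · exact ⟨(0, 0), fun h' => absurd h' h⟩
  choose xy hxy using hex
  refine ⟨fun p => (xy p).1, ?_, ?_⟩
  · intro p hpt
    exact ⟨(hxy p hpt).1.mem_left, (hxy p hpt).2.1⟩
  · intro S v hS
    rcases S.eq_empty_or_nonempty with h0 | ⟨p0, hp0⟩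
    · rw [h0]
      simp
    · have hv : v ∈ vs F := by
        rw [← (hS p0 hp0).2]
        exact (hxy p0 (hS p0 hp0).1).1.mem_left
      refine le_trans ?_ (hkiss F c r hF h4 hp v hv)
      apply Finset.card_le_card_of_injOn (fun p => (xy p).2)
      · intro p hpS
        have hpS' : p ∈ S := hpS
        obtain ⟨h1, h2⟩ := hS p hpS'
        have h2 : (xy p).1 = v := h2
        obtain ⟨h3, -, -, h6⟩ := hxy p h1
        rw [h2] at h3 h6
        exact Finset.mem_coe.2 (Finset.mem_filter.2 ⟨mem_nbr.2 h3, h6⟩)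
      · intro p hpS q hqS hpq
        have hpS' : p ∈ S := hpS
        have hqS' : q ∈ S := hqS
        obtain ⟨h1, h2⟩ := hS p hpS'
        obtain ⟨h1', h2'⟩ := hS q hqS'
        have h2 : (xy p).1 = v := h2
        have h2' : (xy q).1 = v := h2'
        obtain ⟨h3, h4', h5, -⟩ := hxy p h1
        obtain ⟨-, h4'', h5', -⟩ := hxy q h1'
        have hpq' : (xy p).2 = (xy q).2 := hpq
        rw [← hpq'] at h5'
        rw [h2'] at h4''
        rw [h2] at h3 h4'
        exact need_unique hF h4 hp hv (hF.toIsSurf.adj_mem_right h3) (hF.toIsSurf.adj_ne h3)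
          h4' h5 h4'' h5'

end H19S
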