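import Pool.Agent.Lib.H19S.IStat
import Pool.Agent.Lib.H19S.E1c
import Pool.Agent.Lib.H19S.E5
import Pool.Agent.Lib.H19S.E12

/-!
# H19S, part I: geometric facts of part E used by part I
-/

namespace H19S

open Finset MeasureTheory Filter Topology

variable {F : Finset (ℕ × ℕ × ℕ)} {c : ℕ → S2} {r : ℕ → ℝ}

/-- Two discs have at most one common point. -/
theorem need_unique (hF : IsTri F) (_h4 : 4 ≤ (vs F).card) (hp : IsPacking F c r) {x y : ℕ}
    (hx : x ∈ vs F) (hy : y ∈ vs F) (hxy : x ≠ y) {p q : S2}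
    (hpx : p ∈ Metric.closedBall (c x) (r x)) (hpy : p ∈ Metric.closedBall (c y) (r y))
    (hqx : q ∈ Metric.closedBall (c x) (r x)) (hqy : q ∈ Metric.closedBall (c y) (r y)) :
    p = q :=
  hp.touch_unique hF hx hy hxy hpx hpy hqx hqy

/-- A point lies in at most two discs. -/
theorem need_two (_hF : IsTri F) (_h4 : 4 ≤ (vs F).card) (hp : IsPacking F c r) {x y z : ℕ}
    (hx : x ∈ vs F) (hy : y ∈ vs F) (hz : z ∈ vs F) {p : S2}
    (hpx : p ∈ Metric.closedBall (c x) (r x)) (hpy : p ∈ Metric.closedBall (c y) (r y))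
    (hpz : p ∈ Metric.closedBall (c z) (r z)) : x = y ∨ y = z ∨ x = z :=
  hp.no_three hx hy hz hpx hpy hpz

/-- A tangency point does not lie in an open disc. -/
theorem need_ball (_hF : IsTri F) (_h4 : 4 ≤ (vs F).card) (hp : IsPacking F c r) {x y w : ℕ}
    (hx : x ∈ vs F) (hy : y ∈ vs F) (hw : w ∈ vs F) (hxy : x ≠ y) {p : S2}
    (hpx : p ∈ Metric.closedBall (c x) (r x)) (hpy : p ∈ Metric.closedBall (c y) (r y)) :
    p ∉ Metric.ball (c w) (r w) :=
  hp.not_mem_ball' hx hy hw hxy hpx hpy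

/-- Sub-discs. -/
theorem need_subcap {c0 q : S2} {r0 r' : ℝ} (hq : q ∈ Metric.closedBall c0 r0) (h0 : 0 < r')
    (h1 : r' ≤ r0) : ∃ c' : S2, dist c' q ≤ r' ∧ Metric.ball c' r' ⊆ Metric.ball c0 r0 :=
  subcap h0 h1 hq

/-- Kissing numbers. -/
theorem need_kiss : ∃ K : ℕ, 0 < K ∧ ∀ (F : Finset (ℕ × ℕ × ℕ)) (c : ℕ → S2) (r : ℕ → ℝ), IsTri F →
    4 ≤ (vs F).card → IsPacking F c r → ∀ x ∈ vs F,
      ((nbr F x).filter (fun y => r x ≤ r y)).card ≤ K :=
  ⟨16000, by norm_num, fun _ _ _ hF _ hp _ hx => hp.kissing hF hx⟩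

end H19S
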