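import Pool.Agent.Lib.H19S.IFun
import Pool.Agent.Lib.H19S.INeedE
import Pool.Agent.Lib.H19S.IBd

/-!
# H19S, chunk I-GEO2: consequences of `phi > 0`
-/

namespace H19S

open Finset MeasureTheory Filter Topology

theorem igeo2_cl_nonneg (t : ℝ) : 0 ≤ cl t := le_max_left _ _

theorem igeo2_cl_le_one (t : ℝ) : cl t ≤ 1 := max_le zero_le_one (min_le_left _ _)

theorem igeo2_cl_pos {t : ℝ} (h : cl t ≠ 0) : 0 < t := by
  by_contra ht
  push Not at ht
  apply h
  unfold cl
  rw [min_eq_right (ht.trans zero_le_one), max_eq_left ht]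

theorem igeo2_cl_cont : Continuous cl := by
  unfold cl
  fun_prop

theorem igeo2_bump_cont (s : ℝ) (x : S2) : Continuous fun w : S2 => bump s (dist x w) := by
  unfold bump
  exact igeo2_cl_cont.comp (by fun_prop)

theorem igeo2_bump_one {s t : ℝ} (hs : 0 < s) (h : t ≤ s) : bump s t = 1 := by
  unfold bump cl
  have h1 : t / s ≤ 1 := (div_le_one hs).2 h
  rw [min_eq_left (by linarith), max_eq_right zero_le_one]

theorem igeo2_bump_zero {s t : ℝ} (hs : 0 < s) (h : 2 * s ≤ t) : bump s t = 0 := by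
  unfold bump cl
  have h1 : 2 ≤ t / s := (le_div_iff₀ hs).2 h
  rw [min_eq_right (by linarith), max_eq_left (by linarith)]

theorem igeo2_bump_int (s : ℝ) (x : S2) (μ : ProbabilityMeasure S2) :
    Integrable (fun w : S2 => bump s (dist x w)) (μ : Measure S2) := by
  refine Integrable.of_bound (igeo2_bump_cont s x).aestronglyMeasurable 1 (Eventually.of_forall ?_)
  intro w
  have h1 : 0 ≤ bump s (dist x w) := igeo2_cl_nonneg _
  rw [Real.norm_eq_abs, abs_of_nonneg h1]
  exact igeo2_cl_le_one _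

theorem igeo2_mass_le {s : ℝ} (hs : 0 < s) (x : S2) (μ : ProbabilityMeasure S2) :
    mass s x μ ≤ (μ : Measure S2).real (Metric.ball x (2 * s)) := by
  have e : (μ : Measure S2).real (Metric.ball x (2 * s)) =
      ∫ w, (Metric.ball x (2 * s)).indicator (fun _ => (1 : ℝ)) w ∂(μ : Measure S2) := by
    rw [integral_indicator Metric.isOpen_ball.measurableSet]
    simp
  rw [e]
  unfold mass
  refine integral_mono (igeo2_bump_int s x μ) ?_ ?_
  · exact (integrable_const (1 : ℝ)).indicator Metric.isOpen_ball.measurableSet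
  · intro w
    show bump s (dist x w) ≤ (Metric.ball x (2 * s)).indicator (fun _ => (1 : ℝ)) w
    by_cases hw : w ∈ Metric.ball x (2 * s)
    · rw [Set.indicator_of_mem hw]
      exact igeo2_cl_le_one _
    · rw [Set.indicator_of_notMem hw]
      rw [Metric.mem_ball, not_lt, dist_comm] at hw
      exact (igeo2_bump_zero hs hw).le

theorem igeo2_le_mass {s : ℝ} (hs : 0 < s) (x : S2) (μ : ProbabilityMeasure S2) :
    (μ : Measure S2).real (Metric.closedBall x s) ≤ mass s x μ := by
  have e : (μ : Measure S2).real (Metric.closedBall x s) =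
      ∫ w, (Metric.closedBall x s).indicator (fun _ => (1 : ℝ)) w ∂(μ : Measure S2) := by
    rw [integral_indicator Metric.isClosed_closedBall.measurableSet]
    simp
  rw [e]
  unfold mass
  refine integral_mono ?_ (igeo2_bump_int s x μ) ?_
  · exact (integrable_const (1 : ℝ)).indicator Metric.isClosed_closedBall.measurableSet
  · intro w
    show (Metric.closedBall x s).indicator (fun _ => (1 : ℝ)) w ≤ bump s (dist x w)
    by_cases hw : w ∈ Metric.closedBall x s
    · rw [Set.indicator_of_mem hw]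
      rw [Metric.mem_closedBall, dist_comm] at hw
      exact (igeo2_bump_one hs hw).ge
    · rw [Set.indicator_of_notMem hw]
      exact igeo2_cl_nonneg _

theorem igeo2_mass_nonneg (s : ℝ) (x : S2) (μ : ProbabilityMeasure S2) : 0 ≤ mass s x μ :=
  integral_nonneg fun _ => igeo2_cl_nonneg _

/-- `phi > 0` at a point `x`: quantitative regularity at each of the scales `s = r0 / 2^i`, `i ≤ N`.
(`cl t > 0` iff `t > 0`; `mass s x μ ≤ μ (ball x (2 s))`, `mass s x μ ≥ μ (closedBall x s)`; if
`dens > 1` and `dist x y ≤ 3 s` then `mass (s/80) y μ > a s^2 > 0`, so the ball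
`ball y (s/40)` has positive mass.) -/
theorem phi_pos {a A r0 : ℝ} (ha : 0 < a) (hA : 0 < A) (h0 : 0 < r0) {N : ℕ} {x : S2}
    {μ : ProbabilityMeasure S2} (h : 0 < phi a A r0 N x μ) {i : ℕ} (hi : i ≤ N) :
    a * (r0 / 2 ^ i) ^ 2 < (μ : Measure S2).real (Metric.ball x (2 * (r0 / 2 ^ i))) ∧
    (μ : Measure S2).real (Metric.closedBall x (r0 / 2 ^ i)) < 2 * A * (r0 / 2 ^ i) ^ 2 ∧
    ∀ y : S2, dist x y ≤ 3 * (r0 / 2 ^ i) →
      0 < (μ : Measure S2).real (Metric.ball y (r0 / 2 ^ i / 40)) := by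
  have hs : 0 < r0 / 2 ^ i := by positivity
  set s := r0 / 2 ^ i with hsdef
  have h1 : phi1 a A s x μ ≠ 0 := by
    intro h2
    apply h.ne'
    unfold phi
    exact Finset.prod_eq_zero (Finset.mem_range.2 (Nat.lt_succ_of_le hi)) h2
  unfold phi1 at h1
  have c1 : cl (mass s x μ / (a * s ^ 2) - 1) ≠ 0 := fun h2 => h1 (by rw [h2]; ring)
  have c2 : cl (2 - mass s x μ / (A * s ^ 2)) ≠ 0 := fun h2 => h1 (by rw [h2]; ring)
  have c3 : cl (dens a s x μ - 1) ≠ 0 := fun h2 => h1 (by rw [h2]; ring)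
  have d1 := igeo2_cl_pos c1
  have d2 := igeo2_cl_pos c2
  have d3 := igeo2_cl_pos c3
  have has : 0 < a * s ^ 2 := by positivity
  have hAs : 0 < A * s ^ 2 := by positivity
  refine ⟨?_, ?_, ?_⟩
  · have e1 : 1 < mass s x μ / (a * s ^ 2) := by linarith
    have e2 : a * s ^ 2 < mass s x μ := (one_lt_div has).1 e1
    exact e2.trans_le (igeo2_mass_le hs x μ)
  · have e1 : mass s x μ / (A * s ^ 2) < 2 := by linarith
    have e2 : mass s x μ < 2 * (A * s ^ 2) := (div_lt_iff₀ hAs).1 e1
    calc (μ : Measure S2).real (Metric.closedBall x s) ≤ mass s x μ := igeo2_le_mass hs x μ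
      _ < 2 * (A * s ^ 2) := e2
      _ = 2 * A * s ^ 2 := by ring
  · intro y hy
    have hb : BddBelow (Set.range fun y : S2 =>
        mass (s / 80) y μ / (a * s ^ 2) + 2 * max 0 (dist x y / s - 3)) := by
      refine ⟨0, ?_⟩
      rintro _ ⟨z, rfl⟩
      have := igeo2_mass_nonneg (s / 80) z μ
      have h5 : 0 ≤ max 0 (dist x z / s - 3) := le_max_left _ _
      positivity
    have e1 : 1 < dens a s x μ := by linarith
    have e2 : dens a s x μ ≤ mass (s / 80) y μ / (a * s ^ 2) + 2 * max 0 (dist x y / s - 3) :=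
      ciInf_le hb y
    have e3 : dist x y / s ≤ 3 := (div_le_iff₀ hs).2 hy
    rw [max_eq_left (by linarith)] at e2
    have e4 : 1 < mass (s / 80) y μ / (a * s ^ 2) := by linarith
    have e5 : a * s ^ 2 < mass (s / 80) y μ := (one_lt_div has).1 e4
    have e6 := igeo2_mass_le (by positivity : 0 < s / 80) y μ
    have e7 : 2 * (s / 80) = s / 40 := by ring
    rw [e7] at e6
    linarith

end H19S
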