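import Pool.Agent.Lib.H19S.IBd

/-!
# H19S, chunk I-GEO2B: uniform measures on finite sets
-/

namespace H19S

open Finset MeasureTheory Filter Topology

/-- The uniform measure on a finite set `E`. -/
theorem unif_real {μ : ProbabilityMeasure S2} {E : Set S2} (hE : E.Finite) (hne : E.Nonempty)
    (hμ : (μ : Measure S2) = ProbabilityTheory.uniformOn E) (S : Set S2) :
    (μ : Measure S2).real S = ((E ∩ S).ncard : ℝ) / E.ncard := by
  classical
  rw [Measure.real, hμ, ← ProbabilityTheory.uniformOn_inter_self hE]
  have hEm : MeasurableSet E := hE.measurableSet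
  have hS : (E ∩ S).Finite := hE.inter_of_left S
  rw [ProbabilityTheory.uniformOn, ProbabilityTheory.cond_apply hEm, ← Set.inter_assoc,
    Set.inter_self, Measure.count_apply_finite E hE, Measure.count_apply_finite _ hS,
    Set.ncard_eq_toFinset_card _ hS, Set.ncard_eq_toFinset_card _ hE, ENNReal.toReal_mul,
    ENNReal.toReal_inv, ENNReal.toReal_natCast, ENNReal.toReal_natCast, div_eq_inv_mul]

theorem unif_integral {μ : ProbabilityMeasure S2} {E : Set S2} (hE : E.Finite) (hne : E.Nonempty)
    (hμ : (μ : Measure S2) = ProbabilityTheory.uniformOn E) (f : S2 → ℝ) :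
    ∫ x, f x ∂(μ : Measure S2) = (∑ x ∈ hE.toFinset, f x) / E.ncard := by
  classical
  have hEm : MeasurableSet E := hE.measurableSet
  have hrest : (Measure.count : Measure S2).restrict E = ∑ x ∈ hE.toFinset, Measure.dirac x := by
    ext s hs
    rw [Measure.restrict_apply hs, Measure.count_apply_finite _ (hE.inter_of_right s),
      Measure.finsetSum_apply]
    have h1 : (hE.inter_of_right s).toFinset = hE.toFinset.filter (fun x => x ∈ s) := by
      ext x
      simp [and_comm]
    rw [h1, Finset.card_filter]
    push_cast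
    refine Finset.sum_congr rfl fun x _ => ?_
    rw [Measure.dirac_apply' _ hs]
    by_cases hx : x ∈ s
    · simp [hx]
    · simp [hx]
  rw [hμ, ProbabilityTheory.uniformOn, ProbabilityTheory.cond, integral_smul_measure, hrest,
    Measure.count_apply_finite E hE, Set.ncard_eq_toFinset_card _ hE,
    integral_finsetSum_measure]
  · simp only [integral_dirac, ENNReal.toReal_inv, ENNReal.toReal_natCast, smul_eq_mul]
    rw [div_eq_inv_mul]
  · intro x _
    exact integrable_dirac (by simp)

/-- `Φ` of a uniform measure is at most the proportion of the pairs `(p, q)` with `phi p > 0`,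
`phi q > 0` and distance `> c0` (`cl t ≤ 1`, `cl t = 0` for `t ≤ 0`). -/
theorem Phi_unif {a A r0 c0 : ℝ} (hc0 : 0 < c0) {N : ℕ}
    {μ : ProbabilityMeasure S2} {E : Set S2} (hE : E.Finite) (hne : E.Nonempty)
    (hμ : (μ : Measure S2) = ProbabilityTheory.uniformOn E) :
    Phi a A r0 c0 N μ * (E.ncard : ℝ) ^ 2 ≤
      (((hE.toFinset ×ˢ hE.toFinset).filter (fun q => 0 < phi a A r0 N q.1 μ ∧
        0 < phi a A r0 N q.2 μ ∧ c0 < dist q.1 q.2)).card : ℝ) := by
  classical
  have hn : (0 : ℝ) < E.ncard := by
    exact_mod_cast (Set.ncard_pos hE).2 hne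
  unfold Phi
  rw [unif_integral hE hne hμ]
  simp only [unif_integral hE hne hμ]
  rw [← Finset.sum_div, div_div, ← pow_two, div_mul_cancel₀ _ (pow_ne_zero 2 hn.ne'),
    ← Finset.sum_product', Finset.card_filter]
  push_cast
  refine Finset.sum_le_sum fun q _ => ?_
  split_ifs with h
  · exact ibd_integrand_le_one _ _ _ _ _ _ _ _
  · apply le_of_eq
    by_contra hne'
    apply h
    have hp : 0 < phi a A r0 N q.1 μ := by
      rcases (phi_nonneg a A r0 N q.1 μ).lt_or_eq with h' | h'
      · exact h'
      · exact absurd (by rw [← h']; simp) hne'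
    have hq : 0 < phi a A r0 N q.2 μ := by
      rcases (phi_nonneg a A r0 N q.2 μ).lt_or_eq with h' | h'
      · exact h'
      · exact absurd (by rw [← h']; simp) hne'
    refine ⟨hp, hq, ?_⟩
    by_contra hd
    push Not at hd
    apply hne'
    have h1 : dist q.1 q.2 / c0 - 1 ≤ 0 := by
      have := (div_le_one hc0).2 hd
      linarith
    have h2 : cl (dist q.1 q.2 / c0 - 1) = 0 := by
      unfold cl
      exact max_eq_left (le_trans (min_le_right _ _) h1)
    rw [h2, mul_zero]

end H19S
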