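import Pool.Agent.Lib.H19S.IGeo1b
import Pool.Agent.Lib.H19S.IGeo2
import Pool.Agent.Lib.H19S.IGeo2b

/-!
# H19S, chunk I-GEO3: discs near a regular tangency point are small
-/

namespace H19S

open Finset MeasureTheory Filter Topology

variable {F : Finset (ℕ × ℕ × ℕ)} {c : ℕ → S2} {r : ℕ → ℝ}

/-- A tangency point does not lie in an open disc. -/
theorem igeo3_tang_not_ball (hF : IsTri F) (h4 : 4 ≤ (vs F).card) (hp : IsPacking F c r) {p : S2}
    (hpt : p ∈ tangPts F c r) {w : ℕ} (hw : w ∈ vs F) : p ∉ Metric.ball (c w) (r w) := by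
  obtain ⟨x, y, hxy, hx, hy⟩ := hpt
  exact need_ball hF h4 hp (Adj.mem_left hxy) (hF.toIsSurf.adj_mem_right hxy) hw
    (hF.toIsSurf.adj_ne hxy) hx hy

/-- If every ball of radius `s / 40` with centre at distance at most `3 s` from `p` contains a
tangency point, then every disc which meets `closedBall p (2 s)` has radius `< s / 40`.
(Otherwise it contains, by `need_subcap`, an open disc of radius `s / 40` with centre at distance
`≤ 2 s + s / 40` from `p`, and no tangency point by `need_ball`.) -/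
theorem small_discs (hF : IsTri F) (h4 : 4 ≤ (vs F).card) (hp : IsPacking F c r) {p : S2} {s : ℝ}
    (hs : 0 < s)
    (h : ∀ y : S2, dist p y ≤ 3 * s → ∃ q ∈ tangPts F c r, q ∈ Metric.ball y (s / 40)) (w : ℕ)
    (hw : w ∈ vs F)
    (hm : (Metric.closedBall (c w) (r w) ∩ Metric.closedBall p (2 * s)).Nonempty) :
    r w < s / 40 := by
  by_contra hcon
  rw [not_lt] at hcon
  obtain ⟨q, hq1, hq2⟩ := hm
  obtain ⟨c', hc1, hc2⟩ := need_subcap hq1 (by positivity : 0 < s / 40) hcon
  rw [Metric.mem_closedBall] at hq2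
  have hd : dist p c' ≤ 3 * s := by
    have h1 := dist_triangle p q c'
    rw [dist_comm p q] at h1
    rw [dist_comm c' q] at hc1
    linarith
  obtain ⟨t, ht1, ht2⟩ := h c' hd
  exact igeo3_tang_not_ball hF h4 hp ht1 hw (hc2 ht2)

end H19S
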