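import Pool.Agent.Lib.H19S.IGeo3

/-!
# H19S, chunk I-GEO3B: regular tangency points give regular vertices
-/

namespace H19S

open Finset MeasureTheory Filter Topology

variable {F : Finset (ℕ × ℕ × ℕ)} {c : ℕ → S2} {r : ℕ → ℝ}

/-- dyadic scale -/
theorem igeo3b_scale {r0 s : ℝ} (h0 : 0 < r0) {N : ℕ} (h1 : 8 * r0 / 2 ^ N ≤ s) (h2 : s ≤ r0 / 4) :
    ∃ i : ℕ, 2 ≤ i ∧ i + 2 < N ∧ r0 / 2 ^ i ≤ s ∧ s < 2 * (r0 / 2 ^ i) := by
  classical
  have hex : ∃ i : ℕ, r0 / 2 ^ i ≤ s := by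
    refine ⟨N, le_trans ?_ h1⟩
    rw [div_le_div_iff_of_pos_right (by positivity)]
    linarith
  have hi := Nat.find_spec hex
  have hm : ∀ j, j < Nat.find hex → s < r0 / 2 ^ j := by
    intro j hj
    exact not_le.1 (Nat.find_min hex hj)
  set i := Nat.find hex with hidef
  have hi2 : 2 ≤ i := by
    by_contra hcon
    have h3 : i = 0 ∨ i = 1 := by omega
    rcases h3 with h3 | h3
    · rw [h3] at hi
      simp at hi
      linarith
    · rw [h3] at hi
      simp at hi
      linarith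
  have hlt : s < 2 * (r0 / 2 ^ i) := by
    have h3 := hm (i - 1) (by omega)
    have h4 : r0 / 2 ^ (i - 1) = 2 * (r0 / 2 ^ i) := by
      have h5 : (2 : ℝ) ^ i = 2 ^ (i - 1) * 2 := by
        rw [← pow_succ]
        congr 1
        omega
      rw [h5]
      field_simp
    rw [← h4]
    exact h3
  refine ⟨i, hi2, ?_, hi, hlt⟩
  have h3 : 8 * r0 / 2 ^ N < 2 * (r0 / 2 ^ i) := lt_of_le_of_lt h1 hlt
  have h4 : (2 : ℝ) ^ (i + 2) < 2 ^ N := by
    have h5 : (0 : ℝ) < 2 ^ N := by positivity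
    have h6 : (0 : ℝ) < 2 ^ i := by positivity
    rw [div_lt_iff₀ h5] at h3
    have h7 : 2 * (r0 / 2 ^ i) * 2 ^ N = 2 * r0 * 2 ^ N / 2 ^ i := by ring
    rw [h7, lt_div_iff₀ h6] at h3
    rw [pow_add]
    have h8 : 2 * r0 * (2 ^ i * 2 ^ 2) < 2 * r0 * 2 ^ N := by linarith
    exact lt_of_mul_lt_mul_left h8 (by positivity)
  exact (pow_lt_pow_iff_right₀ (by norm_num : (1 : ℝ) < 2)).1 h4

/-- every vertex has a tangency point on its disc -/
theorem igeo3b_exists_tang (hF : IsTri F) (hp : IsPacking F c r) {w : ℕ} (hw : w ∈ vs F) :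
    ∃ t ∈ tangPts F c r, t ∈ Metric.closedBall (c w) (r w) := by
  obtain ⟨a, b, hab⟩ := mem_vs.1 hw
  have hadj : Adj F w a := ⟨b, hab⟩
  have ha : a ∈ vs F := hF.toIsSurf.adj_mem_right hadj
  obtain ⟨t, ht1, ht2⟩ := (hp.tang w hw a ha (hF.toIsSurf.adj_ne hadj)).2 hadj
  exact ⟨t, ⟨w, a, hadj, ht1, ht2⟩, ht1⟩

/-- Let `p` be a tangency point with `phi a A r0 N p μ > 0`, on the disc of the vertex `v`.
Then `v` is a regular vertex on the scales `[rN, r0/4]`, `rN = 8 r0 / 2^N`, with the constants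
`a/(128 K)` (`K` from `exists_sv`) and `384 A`, and `r v ≤ r0 / 40`.
Proof. `E` = tangency points, `n = |vs F|`, `n/2 ≤ |E| ≤ 6 n`, `s_i = r0/2^i`. For `s ∈ [rN, r0/4]`
choose `i` with `s_i ≤ s < 2 s_i`; `2 ≤ i ≤ N - 2`. By `phi_pos` and `small_discs` at the scale
`s_N`, `r v < s_N/40 ≤ s/40`.
DISCS: `S = s_{i-2} = 4 s_i`, `2 s < S ≤ 4 s`: a disc meeting `closedBall (c v) s` meets
`closedBall p (2 S)`, so its radius is `< S/40 ≤ s/10`.
UPPER BOUND: each vertex `w` with `dist (c w) (c v) ≤ s` has a tangency point on its disc, at distance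
`≤ r w + s + r v ≤ 2 s ≤ S` from `p`; `|E ∩ closedBall p S| < 2 A S^2 |E| ≤ 192 A s^2 n`; use
`card_le_two_mul`.
LOWER BOUND: `j = i + 2 ≤ N`, `s/8 < s_j ≤ s/4`: `|E ∩ ball p (2 s_j)| > a s_j^2 |E| ≥ a s^2 n/128`;
each of these points `t` is assigned to a vertex `w = sv t` with `r w < s_j/40`, so
`dist (c w) (c v) ≤ 3 s_j ≤ s`, and each `w` is used at most `K` times. -/
theorem regPt_of_phi {K : ℕ} (hK : 0 < K) (hF : IsTri F) (h4 : 4 ≤ (vs F).card)
    (hp : IsPacking F c r) (sv : S2 → ℕ)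
    (hsv : ∀ p ∈ tangPts F c r, sv p ∈ vs F ∧ p ∈ Metric.closedBall (c (sv p)) (r (sv p)))
    (hsK : ∀ (S : Finset S2) (v : ℕ), (∀ p ∈ S, p ∈ tangPts F c r ∧ sv p = v) → S.card ≤ K)
    {μ : ProbabilityMeasure S2} (hμ : (μ : Measure S2) = ProbabilityTheory.uniformOn (tangPts F c r))
    {a A r0 : ℝ} (ha : 0 < a) (hA : 0 < A) (h0 : 0 < r0) {N : ℕ} {p : S2}
    (hpt : p ∈ tangPts F c r) (hφ : 0 < phi a A r0 N p μ) {v : ℕ} (hv : v ∈ vs F)
    (hpv : p ∈ Metric.closedBall (c v) (r v)) :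
    r v ≤ r0 / 40 ∧ RegPt F c r (a / (128 * K)) (384 * A) (8 * r0 / 2 ^ N) (r0 / 4) v := by
  classical
  have hfin := tang_finite hF h4 hp
  have hne : (tangPts F c r).Nonempty := ⟨p, hpt⟩
  set E := tangPts F c r with hE
  have hnE := tang_card_ge hF h4 hp
  have hEn := tang_card_le hF h4 hp
  rw [← hE] at hnE hEn
  have hnE' : ((vs F).card : ℝ) ≤ 2 * (E.ncard : ℝ) := by exact_mod_cast hnE
  have hEn' : (E.ncard : ℝ) ≤ 6 * ((vs F).card : ℝ) := by exact_mod_cast hEn
  have hn0 : (0 : ℝ) < ((vs F).card : ℝ) := by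
    have : 0 < (vs F).card := by omega
    exact_mod_cast this
  have hE0 : (0 : ℝ) < (E.ncard : ℝ) := by linarith
  have hK0 : (0 : ℝ) < (K : ℝ) := by exact_mod_cast hK
  -- small discs at every scale
  have hsmall : ∀ i, i ≤ N → ∀ w ∈ vs F,
      (Metric.closedBall (c w) (r w) ∩ Metric.closedBall p (2 * (r0 / 2 ^ i))).Nonempty →
      r w < (r0 / 2 ^ i) / 40 := by
    intro i hi w hw hm
    refine small_discs hF h4 hp (by positivity) ?_ w hw hm
    intro y hy
    have h1 := (phi_pos ha hA h0 hφ hi).2.2 y hy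
    rw [unif_real hfin hne hμ] at h1
    have h2 : (E ∩ Metric.ball y (r0 / 2 ^ i / 40)).Nonempty := by
      by_contra hcon
      rw [Set.not_nonempty_iff_eq_empty] at hcon
      rw [hcon, Set.ncard_empty] at h1
      simp at h1
    obtain ⟨q, hq1, hq2⟩ := h2
    exact ⟨q, hq1, hq2⟩
  have hrv : ∀ i, i ≤ N → r v < (r0 / 2 ^ i) / 40 := by
    intro i hi
    refine hsmall i hi v hv ⟨p, hpv, ?_⟩
    rw [Metric.mem_closedBall, dist_self]
    positivity
  have hpv' : dist p (c v) ≤ r v := hpv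
  refine ⟨?_, ?_⟩
  · have h1 := hrv 0 (Nat.zero_le _)
    simp at h1
    linarith
  intro s hs1 hs2
  obtain ⟨i, hi2, hiN, hsi1, hsi2⟩ := igeo3b_scale h0 hs1 hs2
  have hs0 : 0 < s := lt_of_lt_of_le (by positivity) hsi1
  set σ := r0 / 2 ^ i with hσ
  have hσ0 : 0 < σ := by positivity
  -- the scale i - 2
  have hS : r0 / 2 ^ (i - 2) = 4 * σ := by
    have h5 : (2 : ℝ) ^ i = 2 ^ (i - 2) * 4 := by
      rw [show (4 : ℝ) = 2 ^ 2 by norm_num, ← pow_add]
      congr 1
      omega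
    rw [hσ, h5]
    field_simp
  -- the scale i + 2
  have hJ : r0 / 2 ^ (i + 2) = σ / 4 := by
    rw [hσ, pow_add]
    field_simp
    norm_num
  have hrvs : r v < s / 10 := by
    have h1 := hrv i (by omega)
    rw [← hσ] at h1
    linarith
  have hrvj : r v < σ / 4 / 40 := by
    have h1 := hrv (i + 2) (by omega)
    rw [hJ] at h1
    exact h1
  -- discs
  have hdiscs : ∀ w ∈ vs F, (Metric.closedBall (c w) (r w) ∩ Metric.closedBall (c v) s).Nonempty →
      r w ≤ s / 10 := by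
    intro w hw hm
    obtain ⟨q, hq1, hq2⟩ := hm
    have h1 := hsmall (i - 2) (by omega) w hw ⟨q, hq1, ?_⟩
    · rw [hS] at h1
      linarith
    · rw [Metric.mem_closedBall] at hq2 ⊢
      rw [hS]
      have h2 := dist_triangle q (c v) p
      rw [dist_comm (c v) p] at h2
      linarith
  refine ⟨?_, ?_, hdiscs⟩
  · -- lower bound
    have h1 := (phi_pos ha hA h0 hφ (i := i + 2) (by omega)).1
    rw [hJ, unif_real hfin hne hμ, lt_div_iff₀ hE0] at h1
    have hfinB : (E ∩ Metric.ball p (2 * (σ / 4))).Finite := hfin.subset Set.inter_subset_left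
    set T : Finset S2 := hfinB.toFinset with hT
    have hTc : (E ∩ Metric.ball p (2 * (σ / 4))).ncard = T.card := by
      rw [hT, ← Set.ncard_coe_finset, Set.Finite.coe_toFinset]
    rw [hTc] at h1
    have hTm : ∀ t ∈ T, t ∈ E ∧ dist t p < 2 * (σ / 4) := by
      intro t ht
      rw [hT, Set.Finite.mem_toFinset] at ht
      exact ⟨ht.1, ht.2⟩
    have hsub : T.image sv ⊆ (vs F).filter fun w => dist (c w) (c v) ≤ s := by
      intro w hw
      rw [mem_image] at hw
      obtain ⟨t, ht, rfl⟩ := hw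
      obtain ⟨ht1, ht2⟩ := hTm t ht
      obtain ⟨hsv1, hsv2⟩ := hsv t ht1
      rw [mem_filter]
      refine ⟨hsv1, ?_⟩
      have h2 := hsmall (i + 2) (by omega) (sv t) hsv1 ⟨t, hsv2, by
        rw [Metric.mem_closedBall, hJ]
        exact ht2.le⟩
      rw [hJ] at h2
      rw [Metric.mem_closedBall] at hsv2
      have h3 := dist_triangle4 (c (sv t)) t p (c v)
      rw [dist_comm (c (sv t)) t] at h3
      linarith
    have hcard : T.card ≤ K * (T.image sv).card := by
      apply Finset.card_le_mul_card_image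
      intro w _
      apply hsK _ w
      intro t ht
      rw [mem_filter] at ht
      exact ⟨(hTm t ht.1).1, ht.2⟩
    have hcard2 := Finset.card_le_card hsub
    have hcard3 : (T.card : ℝ) ≤ K * (((vs F).filter fun w => dist (c w) (c v) ≤ s).card : ℝ) := by
      have : T.card ≤ K * ((vs F).filter fun w => dist (c w) (c v) ≤ s).card :=
        hcard.trans (Nat.mul_le_mul_left K hcard2)
      exact_mod_cast this
    have h5 : a * s ^ 2 * ((vs F).card : ℝ) ≤ 128 * (T.card : ℝ) := by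
      have h6 : s ^ 2 ≤ 4 * σ ^ 2 := by nlinarith
      have h7 : a * s ^ 2 * ((vs F).card : ℝ) ≤ a * (4 * σ ^ 2) * (2 * (E.ncard : ℝ)) := by
        apply mul_le_mul _ hnE' hn0.le (by positivity)
        exact mul_le_mul_of_nonneg_left h6 ha.le
      nlinarith
    have h8 : a / (128 * K) * s ^ 2 * ((vs F).card : ℝ) =
        a * s ^ 2 * ((vs F).card : ℝ) / (128 * K) := by ring
    rw [h8, div_le_iff₀ (by positivity)]
    nlinarith
  · -- upper bound
    have h1 := (phi_pos ha hA h0 hφ (i := i - 2) (by omega)).2.1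
    rw [hS, unif_real hfin hne hμ, div_lt_iff₀ hE0] at h1
    have hfinB : (E ∩ Metric.closedBall p (4 * σ)).Finite := hfin.subset Set.inter_subset_left
    set T : Finset S2 := hfinB.toFinset with hT
    have hTc : (E ∩ Metric.closedBall p (4 * σ)).ncard = T.card := by
      rw [hT, ← Set.ncard_coe_finset, Set.Finite.coe_toFinset]
    rw [hTc] at h1
    have h2 : ((vs F).filter fun w => dist (c w) (c v) ≤ s).card ≤ 2 * T.card := by
      apply card_le_two_mul hF h4 hp _ (filter_subset _ _)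
      intro w hw
      rw [mem_filter] at hw
      obtain ⟨hw1, hw2⟩ := hw
      obtain ⟨t, ht1, ht2⟩ := igeo3b_exists_tang hF hp hw1
      refine ⟨t, ?_, ht2⟩
      rw [hT, Set.Finite.mem_toFinset]
      refine ⟨ht1, ?_⟩
      have hrw : r w ≤ s / 10 := hdiscs w hw1 ⟨c w, by
        rw [Metric.mem_closedBall, dist_self]
        exact (hp.pos w hw1).le, hw2⟩
      rw [Metric.mem_closedBall] at ht2 ⊢
      have h3 := dist_triangle4 t (c w) (c v) p
      rw [dist_comm (c v) p] at h3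
      linarith
    have h3 : (((vs F).filter fun w => dist (c w) (c v) ≤ s).card : ℝ) ≤ 2 * (T.card : ℝ) := by
      exact_mod_cast h2
    have h6 : σ ^ 2 ≤ s ^ 2 := by nlinarith
    have h7 : 2 * A * (4 * σ) ^ 2 * (E.ncard : ℝ) ≤ 2 * A * (16 * s ^ 2) * (6 * ((vs F).card : ℝ)) := by
      apply mul_le_mul _ hEn' hE0.le (by positivity)
      apply mul_le_mul_of_nonneg_left _ (by positivity)
      nlinarith
    nlinarith

end H19S
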