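import Pool.Agent.Lib.H19S.IGeo3b
import Pool.Agent.Lib.H19S.I0

/-!
# H19S, chunk I-GEO4: many good triples
-/

namespace H19S

open Finset MeasureTheory Filter Topology

theorem igeo4_reg_mono {F : Finset (ℕ × ℕ × ℕ)} {c : ℕ → S2} {r : ℕ → ℝ} {a A rN rN' r0 : ℝ}
    (h : rN ≤ rN') {v : ℕ} (hv : RegPt F c r a A rN r0 v) : RegPt F c r a A rN' r0 v :=
  fun s h1 h2 => hv s (h.trans h1) h2

/-- for a regular vertex `v` there are many vertices `z` in the annulus -/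
theorem igeo4_annulus {F : Finset (ℕ × ℕ × ℕ)} {c : ℕ → S2} {r : ℕ → ℝ} {a A rN r0 δz c1 : ℝ}
    (h1 : rN ≤ δz) (h2 : δz ≤ c1) (h3 : c1 ≤ r0) (hδ : A * δz ^ 2 ≤ a * c1 ^ 2 / 2) {v : ℕ}
    (hv : RegPt F c r a A rN r0 v) :
    a * c1 ^ 2 / 2 * ((vs F).card : ℝ) ≤
      (((vs F).filter (fun z => δz ≤ dist (c z) (c v) ∧ dist (c z) (c v) ≤ c1)).card : ℝ) := by
  classical
  have hA := (hv c1 (h1.trans h2) h3).1
  have hB := (hv δz h1 (h2.trans h3)).2.1
  have hsub : ((vs F).filter fun w => dist (c w) (c v) ≤ c1) ⊆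
      ((vs F).filter (fun z => δz ≤ dist (c z) (c v) ∧ dist (c z) (c v) ≤ c1)) ∪
      ((vs F).filter fun w => dist (c w) (c v) ≤ δz) := by
    intro w hw
    rw [mem_filter] at hw
    rw [mem_union, mem_filter, mem_filter]
    rcases le_total δz (dist (c w) (c v)) with h | h
    · exact Or.inl ⟨hw.1, h, hw.2⟩
    · exact Or.inr ⟨hw.1, h⟩
  have hcard := (Finset.card_le_card hsub).trans (Finset.card_union_le _ _)
  have hcard' : (((vs F).filter fun w => dist (c w) (c v) ≤ c1).card : ℝ) ≤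
      (((vs F).filter (fun z => δz ≤ dist (c z) (c v) ∧ dist (c z) (c v) ≤ c1)).card : ℝ) +
      (((vs F).filter fun w => dist (c w) (c v) ≤ δz).card : ℝ) := by
    exact_mod_cast hcard
  have hn0 : (0 : ℝ) ≤ ((vs F).card : ℝ) := Nat.cast_nonneg _
  have h5 : A * δz ^ 2 * ((vs F).card : ℝ) ≤ a * c1 ^ 2 / 2 * ((vs F).card : ℝ) :=
    mul_le_mul_of_nonneg_right hδ hn0
  linarith

/-- the count, for general parameters -/
theorem igeo4_core {K : ℕ} (hK : 0 < K) {F : Finset (ℕ × ℕ × ℕ)} {c : ℕ → S2} {r : ℕ → ℝ}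
    (hF : IsTri F) (h4 : 4 ≤ (vs F).card) (hp : IsPacking F c r) (sv : S2 → ℕ)
    (hsv : ∀ p ∈ tangPts F c r, sv p ∈ vs F ∧ p ∈ Metric.closedBall (c (sv p)) (r (sv p)))
    (hsK : ∀ (S : Finset S2) (v : ℕ), (∀ p ∈ S, p ∈ tangPts F c r ∧ sv p = v) → S.card ≤ K)
    {μ : ProbabilityMeasure S2} (hμ : (μ : Measure S2) = ProbabilityTheory.uniformOn (tangPts F c r))
    {a A R C : ℝ} (ha : 0 < a) (hA : 0 < A) (hR : 0 < R) (hC : 0 < C) (hRC : R ≤ C) {N : ℕ}
    {rN δz c1 : ℝ} (hrN : 8 * R / 2 ^ N ≤ rN) (hδN : 8 * R / 2 ^ N ≤ δz) (hδ1 : δz ≤ c1)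
    (hc1 : c1 ≤ R / 4) (hδA : 384 * A * δz ^ 2 ≤ a / (128 * K) * c1 ^ 2 / 2) :
    a / (128 * K) * c1 ^ 2 / (8 * K ^ 2) * Phi a A R C N μ * ((vs F).card : ℝ) ^ 3 ≤
        (by classical exact (((vs F ×ˢ vs F ×ˢ vs F).filter
          (GoodTr F c r (a / (128 * K)) (384 * A) rN (R / 4) (C / 2) δz c1)).card : ℝ)) := by
  classical
  have hfin := tang_finite hF h4 hp
  have hne := tang_nonempty hF hp
  have hnE := tang_card_ge hF h4 hp
  have hK0 : (0 : ℝ) < (K : ℝ) := by exact_mod_cast hK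
  have hn0 : (0 : ℝ) < ((vs F).card : ℝ) := by
    have : 0 < (vs F).card := by omega
    exact_mod_cast this
  have hnE' : ((vs F).card : ℝ) ≤ 2 * ((tangPts F c r).ncard : ℝ) := by exact_mod_cast hnE
  have hPhi := Phi_unif (a := a) (A := A) (r0 := R) hC (N := N) hfin hne hμ
  set E : Finset S2 := hfin.toFinset with hE
  set P : Finset (S2 × S2) := (E ×ˢ E).filter (fun q => 0 < phi a A R N q.1 μ ∧
        0 < phi a A R N q.2 μ ∧ C < dist q.1 q.2) with hP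
  set a' : ℝ := a / (128 * K) with ha'
  have ha'0 : 0 < a' := by positivity
  set A' : ℝ := 384 * A with hA'
  set G : Finset (ℕ × ℕ) := (vs F ×ˢ vs F).filter (fun g =>
    RegPt F c r a' A' (8 * R / 2 ^ N) (R / 4) g.1 ∧ RegPt F c r a' A' (8 * R / 2 ^ N) (R / 4) g.2 ∧
      C / 2 ≤ dist (c g.1) (c g.2)) with hG
  -- the pairs of tangency points
  have hEm : ∀ p, p ∈ E ↔ p ∈ tangPts F c r := fun p => by rw [hE, Set.Finite.mem_toFinset]
  have himg : P.image (fun q => (sv q.1, sv q.2)) ⊆ G := by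
    intro g hg
    rw [mem_image] at hg
    obtain ⟨q, hq, rfl⟩ := hg
    rw [hP, mem_filter, mem_product, hEm, hEm] at hq
    obtain ⟨⟨hq1, hq2⟩, hq3, hq4, hq5⟩ := hq
    obtain ⟨h1a, h1b⟩ := hsv q.1 hq1
    obtain ⟨h2a, h2b⟩ := hsv q.2 hq2
    obtain ⟨e1, e2⟩ := regPt_of_phi hK hF h4 hp sv hsv hsK hμ ha hA hR hq1 hq3 h1a h1b
    obtain ⟨f1, f2⟩ := regPt_of_phi hK hF h4 hp sv hsv hsK hμ ha hA hR hq2 hq4 h2a h2b
    rw [hG, mem_filter, mem_product]
    refine ⟨⟨h1a, h2a⟩, e2, f2, ?_⟩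
    rw [Metric.mem_closedBall] at h1b h2b
    have h3 := dist_triangle4 q.1 (c (sv q.1)) (c (sv q.2)) q.2
    rw [dist_comm (c (sv q.2)) q.2] at h3
    simp only
    linarith
  have hfib : P.card ≤ K ^ 2 * (P.image (fun q => (sv q.1, sv q.2))).card := by
    apply Finset.card_le_mul_card_image
    intro g _
    have hsub : (P.filter fun q => (sv q.1, sv q.2) = g) ⊆
        (E.filter fun p => sv p = g.1) ×ˢ (E.filter fun p => sv p = g.2) := by
      intro q hq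
      rw [mem_filter, hP, mem_filter, mem_product] at hq
      rw [mem_product, mem_filter, mem_filter]
      have h1 : sv q.1 = g.1 := by rw [← hq.2]
      have h2 : sv q.2 = g.2 := by rw [← hq.2]
      exact ⟨⟨hq.1.1.1, h1⟩, ⟨hq.1.1.2, h2⟩⟩
    refine (Finset.card_le_card hsub).trans ?_
    rw [card_product, sq]
    apply Nat.mul_le_mul
    · apply hsK _ g.1
      intro p hp
      rw [mem_filter, hEm] at hp
      exact hp
    · apply hsK _ g.2
      intro p hp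
      rw [mem_filter, hEm] at hp
      exact hp
  have hPG : (P.card : ℝ) ≤ K ^ 2 * (G.card : ℝ) := by
    have h1 := hfib.trans (Nat.mul_le_mul_left _ (Finset.card_le_card himg))
    exact_mod_cast h1
  -- the triples
  set Z : ℕ → Finset ℕ := fun v =>
    (vs F).filter (fun z => δz ≤ dist (c z) (c v) ∧ dist (c z) (c v) ≤ c1) with hZ
  set T : Finset (ℕ × ℕ × ℕ) := (vs F ×ˢ vs F ×ˢ vs F).filter
    (GoodTr F c r a' A' rN (R / 4) (C / 2) δz c1) with hT
  have hsig : (G.sigma fun g => Z g.1).card ≤ T.card := by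
    apply Finset.card_le_card_of_injOn (fun x => (x.1.1, x.1.2, x.2))
    · intro x hx
      rw [Finset.mem_coe, mem_sigma, hG, mem_filter, mem_product, hZ] at hx
      obtain ⟨⟨⟨hx1, hx2⟩, hx3, hx4, hx5⟩, hx6⟩ := hx
      rw [mem_filter] at hx6
      rw [Finset.mem_coe, hT, mem_filter, mem_product, mem_product]
      exact ⟨⟨hx1, hx2, hx6.1⟩, igeo4_reg_mono hrN hx3, igeo4_reg_mono hrN hx4, hx5, hx6.2.1,
        hx6.2.2⟩
    · rintro ⟨⟨x1, x2⟩, x3⟩ _ ⟨⟨y1, y2⟩, y3⟩ _ hxy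
      simp only [Prod.mk.injEq] at hxy
      obtain ⟨rfl, rfl, rfl⟩ := hxy
      rfl
  rw [card_sigma] at hsig
  have hsig2 : (G.card : ℝ) * (a' * c1 ^ 2 / 2 * ((vs F).card : ℝ)) ≤ (T.card : ℝ) := by
    have h1 : (G.card : ℝ) * (a' * c1 ^ 2 / 2 * ((vs F).card : ℝ)) ≤
        ∑ g ∈ G, ((Z g.1).card : ℝ) := by
      rw [← nsmul_eq_mul]
      apply Finset.card_nsmul_le_sum
      intro g hg
      rw [hG, mem_filter] at hg
      exact igeo4_annulus hδN hδ1 hc1 hδA hg.2.1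
    refine h1.trans ?_
    exact_mod_cast hsig
  -- conclusion
  have hmain : Phi a A R C N μ * ((vs F).card : ℝ) ^ 2 ≤ 4 * (K : ℝ) ^ 2 * (G.card : ℝ) := by
    rcases le_total 0 (Phi a A R C N μ) with h0 | h0
    · have h1 : ((vs F).card : ℝ) ^ 2 ≤ 4 * ((tangPts F c r).ncard : ℝ) ^ 2 := by nlinarith
      have h2 := mul_le_mul_of_nonneg_left h1 h0
      nlinarith
    · have h1 : Phi a A R C N μ * ((vs F).card : ℝ) ^ 2 ≤ 0 :=
        mul_nonpos_of_nonpos_of_nonneg h0 (by positivity)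
      have h2 : (0 : ℝ) ≤ 4 * (K : ℝ) ^ 2 * (G.card : ℝ) := by positivity
      linarith
  have hfinal : a' * c1 ^ 2 / (8 * K ^ 2) * Phi a A R C N μ * ((vs F).card : ℝ) ^ 3 ≤
      (T.card : ℝ) := by
    refine le_trans ?_ hsig2
    have h1 : a' * c1 ^ 2 / (8 * K ^ 2) * Phi a A R C N μ * ((vs F).card : ℝ) ^ 3 =
        (a' * c1 ^ 2 / (8 * K ^ 2) * ((vs F).card : ℝ)) * (Phi a A R C N μ * ((vs F).card : ℝ) ^ 2) := by
      ring
    rw [h1]
    refine (mul_le_mul_of_nonneg_left hmain (by positivity)).trans (le_of_eq ?_)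
    field_simp
    ring
  exact hfinal

/-- For every `m` there are constants (admissible in `mainfin`) such that for all `rN > 0` there
is an `N` such that in every packing at least `κ Φ_{m,N}(μ) n^3` triples of vertices are good.
Proof. `K` from `exists_sv`, `a = 1/(m+1)`, `A = m+1`, `R = 1/(1000(m+1))`, `C = 1/(m+1)` the
parameters of `PhiM m`; `a' = a/(128 K)`, `A' = 384 A`, `r0' = R/4`, `c0' = C/2`, `c1 = R/400`,
`δz = c1 a'/(2 A')`, `κ = a' c1^2/(8 K^2)`; `N` such that `8 R/2^N ≤ min rN δz`.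
By `Phi_unif` there are at least `Φ |E|^2 ≥ Φ n^2/4` pairs `(p, q)` of tangency points with
`phi p, phi q > 0`, `dist p q > C`; they give (`exists_sv`, `regPt_of_phi`) at least `Φ n^2/(4 K^2)`
pairs `(v, u)` of regular vertices with distance of the centres `≥ C - 2 R/40 ≥ C/2`. For each of
them, by regularity of `v` at the scales `c1` and `δz`, at least
`a' c1^2 n - A' δz^2 n ≥ a' c1^2 n/2` vertices `z` satisfy `δz ≤ dist (c z) (c v) ≤ c1`. -/
theorem tri_count (m : ℕ) : ∃ a A r0 c0 δz c1 κ : ℝ, 0 < a ∧ 0 < A ∧ 0 < r0 ∧ 0 < c0 ∧ 0 < δz ∧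
    δz ≤ c1 ∧ 100 * c1 ≤ r0 ∧ 100 * r0 ≤ c0 ∧ 1000 * r0 ≤ 1 ∧ 0 < κ ∧
    ∀ rN : ℝ, 0 < rN → ∃ N : ℕ, ∀ (F : Finset (ℕ × ℕ × ℕ)) (c : ℕ → S2) (r : ℕ → ℝ), IsTri F →
      4 ≤ (vs F).card → IsPacking F c r → ∀ μ : ProbabilityMeasure S2,
      (μ : Measure S2) = ProbabilityTheory.uniformOn (tangPts F c r) →
      κ * PhiM m N μ * ((vs F).card : ℝ) ^ 3 ≤
        (by classical exact (((vs F ×ˢ vs F ×ˢ vs F).filter
          (GoodTr F c r a A rN r0 c0 δz c1)).card : ℝ)) := by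
  obtain ⟨K, hK, hsv⟩ := exists_sv
  have hK0 : (0 : ℝ) < (K : ℝ) := by exact_mod_cast hK
  have hK1 : (1 : ℝ) ≤ (K : ℝ) := by exact_mod_cast hK
  have hm0 : (0 : ℝ) < (m : ℝ) + 1 := by positivity
  have hm1 : (1 : ℝ) ≤ (m : ℝ) + 1 := by linarith [(Nat.cast_nonneg m : (0 : ℝ) ≤ (m : ℝ))]
  set C : ℝ := 1 / (m + 1) with hC
  set R : ℝ := 1 / (1000 * (m + 1)) with hR
  set A : ℝ := m + 1 with hA
  have hC0 : 0 < C := by positivity
  have hC1 : C ≤ 1 := by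
    rw [hC, div_le_one hm0]
    exact hm1
  have hRC : R = C / 1000 := by
    rw [hR, hC]
    field_simp
  have hR0 : 0 < R := by positivity
  set a' : ℝ := C / (128 * K) with ha'
  have ha'0 : 0 < a' := by positivity
  have ha'1 : a' ≤ 1 := by
    rw [ha', div_le_one (by positivity)]
    nlinarith
  set c1 : ℝ := R / 400 with hc1
  have hc10 : 0 < c1 := by positivity
  set δz : ℝ := c1 * a' / (2 * (384 * A)) with hδ
  have hδ0 : 0 < δz := by positivity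
  have hδ1 : δz ≤ c1 := by
    rw [hδ, div_le_iff₀ (by positivity)]
    nlinarith
  have hδA : 384 * A * δz ^ 2 ≤ a' * c1 ^ 2 / 2 := by
    have h1 : 384 * A * δz ^ 2 = a' * c1 ^ 2 * (a' / (4 * (384 * A))) := by
      rw [hδ]
      field_simp
      ring
    rw [h1]
    have h2 : a' / (4 * (384 * A)) ≤ 1 / 2 := by
      rw [div_le_iff₀ (by positivity)]
      nlinarith
    have h3 : 0 ≤ a' * c1 ^ 2 := by positivity
    nlinarith
  refine ⟨a', 384 * A, R / 4, C / 2, δz, c1, a' * c1 ^ 2 / (8 * K ^ 2), ha'0, by positivity,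
    by positivity, by positivity, hδ0, hδ1, ?_, ?_, ?_, by positivity, ?_⟩
  · rw [hc1]
    linarith
  · rw [hRC]
    linarith
  · rw [hRC]
    linarith
  intro rN hrN
  have hmin : 0 < min rN δz := lt_min hrN hδ0
  obtain ⟨N, hN⟩ : ∃ N : ℕ, 8 * R / 2 ^ N ≤ min rN δz := by
    obtain ⟨N, hN⟩ := pow_unbounded_of_one_lt (8 * R / min rN δz) (by norm_num : (1 : ℝ) < 2)
    refine ⟨N, ?_⟩
    rw [div_lt_iff₀ hmin] at hN
    rw [div_le_iff₀ (by positivity)]
    linarith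
  refine ⟨N, ?_⟩
  intro F c r hF h4 hp μ hμ
  obtain ⟨sv, hsv1, hsv2⟩ := hsv F c r hF h4 hp
  exact igeo4_core hK hF h4 hp sv hsv1 hsv2 hμ hC0 (by positivity) hR0 hC0 (by rw [hRC]; linarith)
    (hN.trans (min_le_left _ _)) (hN.trans (min_le_right _ _)) hδ1 (by rw [hc1]; linarith) hδA

end H19S
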