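import Pool.Agent.Lib.H19S.ILab1

/-!
# H19S, chunk I-LAB1B: permutations with a given image of a triple
-/

namespace H19S

open Finset

theorem ilab1b_swap {n a b : ℕ} (ha : a < n) (hb : b < n) : Equiv.swap a b ∈ permN n := by
  rw [mem_permN]
  intro x hx
  exact Equiv.swap_apply_of_ne_of_ne (by omega) (by omega)

theorem ilab1b_exists {n a b c : ℕ} (hn : 3 ≤ n) (ha : a < n) (hb : b < n) (hc : c < n)
    (h1 : a ≠ b) (h2 : a ≠ c) (h3 : b ≠ c) :
    ∃ τ ∈ permN n, τ a = 0 ∧ τ b = 1 ∧ τ c = 2 := by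
  set s1 : Equiv.Perm ℕ := Equiv.swap a 0 with hs1
  have m1 : s1 ∈ permN n := ilab1b_swap ha (by omega)
  have e1 : s1 a = 0 := Equiv.swap_apply_left _ _
  set b1 := s1 b with hb1
  set c1 := s1 c with hc1
  have n1 : b1 ≠ 0 := by
    intro h
    exact h1 (s1.injective (by rw [e1, ← hb1, h]))
  have n2 : c1 ≠ 0 := by
    intro h
    exact h2 (s1.injective (by rw [e1, ← hc1, h]))
  have n3 : b1 ≠ c1 := fun h => h3 (s1.injective h)
  have l1 : b1 < n := (ilab1_lt m1).mpr hb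
  have l2 : c1 < n := (ilab1_lt m1).mpr hc
  set s2 : Equiv.Perm ℕ := Equiv.swap b1 1 with hs2
  have m2 : s2 ∈ permN n := ilab1b_swap l1 (by omega)
  have e2 : s2 0 = 0 := Equiv.swap_apply_of_ne_of_ne n1.symm (by omega)
  have e3 : s2 b1 = 1 := Equiv.swap_apply_left _ _
  set c2 := s2 c1 with hc2
  have n4 : c2 ≠ 0 := by
    intro h
    exact n2 (s2.injective (by rw [e2, ← hc2, h]))
  have n5 : c2 ≠ 1 := by
    intro h
    exact n3 (s2.injective (by rw [e3, ← hc2, h]))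
  have l3 : c2 < n := (ilab1_lt m2).mpr l2
  set s3 : Equiv.Perm ℕ := Equiv.swap c2 2 with hs3
  have m3 : s3 ∈ permN n := ilab1b_swap l3 (by omega)
  have e4 : s3 0 = 0 := Equiv.swap_apply_of_ne_of_ne n4.symm (by omega)
  have e5 : s3 1 = 1 := Equiv.swap_apply_of_ne_of_ne n5.symm (by omega)
  have e6 : s3 c2 = 2 := Equiv.swap_apply_left _ _
  refine ⟨s3 * (s2 * s1), ilab1_mul m3 (ilab1_mul m2 m1), ?_, ?_, ?_⟩
  · rw [Equiv.Perm.mul_apply, Equiv.Perm.mul_apply, e1, e2, e4]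
  · rw [Equiv.Perm.mul_apply, Equiv.Perm.mul_apply, ← hb1, e3, e5]
  · rw [Equiv.Perm.mul_apply, Equiv.Perm.mul_apply, ← hc1, ← hc2, e6]

/-- There are `n (n-1) (n-2) ≤ n^3` injective images of `(v, u, z)`, and the numbers of `ρ` with a
given image are equal (compose with a permutation). -/
theorem card_perm3 {n v u z : ℕ} (hn : 3 ≤ n) (hv : v < n) (hu : u < n) (hz : z < n) (h1 : v ≠ u)
    (h2 : v ≠ z) (h3 : u ≠ z) :
    n.factorial ≤ n ^ 3 * ((permN n).filter (fun ρ => ρ v = 0 ∧ ρ u = 1 ∧ ρ z = 2)).card := by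
  set K := ((permN n).filter (fun ρ => ρ v = 0 ∧ ρ u = 1 ∧ ρ z = 2)).card with hK
  set f : Equiv.Perm ℕ → ℕ × ℕ × ℕ := fun ρ => (ρ v, ρ u, ρ z) with hf
  have key := card_le_mul_card_image (f := f) (permN n) K (by
    rintro t ht
    obtain ⟨ρ0, hρ0, rfl⟩ := mem_image.mp ht
    obtain ⟨τ, hτ, t1, t2, t3⟩ := ilab1b_exists hn ((ilab1_lt hρ0).mpr hv)
      ((ilab1_lt hρ0).mpr hu) ((ilab1_lt hρ0).mpr hz) (fun h => h1 (ρ0.injective h))
      (fun h => h2 (ρ0.injective h)) (fun h => h3 (ρ0.injective h))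
    rw [hK]
    apply card_le_card_of_injOn (fun ρ => τ * ρ)
    · intro ρ hρ
      have hρ' := mem_filter.mp (mem_coe.mp hρ)
      have he := hρ'.2
      simp only [hf, Prod.mk.injEq] at he
      apply mem_coe.mpr
      apply mem_filter.mpr
      refine ⟨ilab1_mul hτ hρ'.1, ?_, ?_, ?_⟩
      · rw [Equiv.Perm.mul_apply, he.1, t1]
      · rw [Equiv.Perm.mul_apply, he.2.1, t2]
      · rw [Equiv.Perm.mul_apply, he.2.2, t3]
    · intro ρ _ ρ' _ h
      exact mul_left_cancel h)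
  rw [card_permN] at key
  have himg : ((permN n).image f).card ≤ n ^ 3 := by
    have hsub : (permN n).image f ⊆ range n ×ˢ (range n ×ˢ range n) := by
      intro t ht
      obtain ⟨ρ, hρ, rfl⟩ := mem_image.mp ht
      simp only [hf, mem_product, mem_range]
      exact ⟨(ilab1_lt hρ).mpr hv, (ilab1_lt hρ).mpr hu, (ilab1_lt hρ).mpr hz⟩
    have := card_le_card hsub
    rw [card_product, card_product, card_range] at this
    calc _ ≤ _ := this
      _ = n ^ 3 := by ring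
  calc n.factorial ≤ K * ((permN n).image f).card := key
    _ ≤ K * n ^ 3 := Nat.mul_le_mul_left _ himg
    _ = n ^ 3 * K := Nat.mul_comm _ _

end H19S
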