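import Pool.Agent.Lib.H19S.ILab2b
import Pool.Agent.Lib.H19S.ILab1b

/-!
# H19S, chunk I-LAB3: good triples of the classes and labelled triangulations
-/

namespace H19S

open Finset

theorem ilab3_vs {n : ℕ} {F : Finset (ℕ × ℕ × ℕ)} (hF : F ∈ Lab n) : vs F = range n := by
  classical
  unfold Lab LabS at hF
  exact (Finset.mem_filter.1 hF).2.2

theorem ilab3_inv {n : ℕ} {ρ : Equiv.Perm ℕ} (hρ : ρ ∈ permN n) : ρ⁻¹ ∈ permN n := by
  rw [mem_permN] at hρ ⊢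
  intro x hx
  rw [Equiv.Perm.inv_eq_iff_eq]
  exact (hρ x hx).symm

theorem ilab3_mul {n : ℕ} {ρ σ : Equiv.Perm ℕ} (hρ : ρ ∈ permN n) (hσ : σ ∈ permN n) :
    ρ * σ ∈ permN n := by
  rw [mem_permN] at hρ hσ ⊢
  intro x hx
  rw [Equiv.Perm.mul_apply, hσ x hx, hρ x hx]

open Classical in
theorem ilab3_one {n : ℕ} (hn : 3 ≤ n) (R : Equiv.Perm ℕ → Prop) (G : Finset (ℕ × ℕ × ℕ))
    (hg : ∀ t ∈ G, t.1 < n ∧ t.2.1 < n ∧ t.2.2 < n ∧ t.1 ≠ t.2.1 ∧ t.1 ≠ t.2.2 ∧ t.2.1 ≠ t.2.2)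
    (hr : ∀ t ∈ G, ∀ ρ ∈ permN n, ρ t.1 = 0 → ρ t.2.1 = 1 → ρ t.2.2 = 2 → R ρ) :
    n.factorial * G.card ≤ n ^ 3 * ((permN n).filter R).card := by
  have h1 : n.factorial * G.card ≤
      ∑ t ∈ G, n ^ 3 * ((permN n).filter (fun ρ => ρ t.1 = 0 ∧ ρ t.2.1 = 1 ∧ ρ t.2.2 = 2)).card := by
    rw [mul_comm, ← smul_eq_mul, ← Finset.sum_const]
    apply Finset.sum_le_sum
    intro t ht
    obtain ⟨a1, a2, a3, a4, a5, a6⟩ := hg t ht
    exact card_perm3 hn a1 a2 a3 a4 a5 a6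
  refine le_trans h1 ?_
  rw [← Finset.mul_sum]
  apply Nat.mul_le_mul_left
  rw [← Finset.card_biUnion]
  · apply Finset.card_le_card
    intro ρ hρ
    rw [Finset.mem_biUnion] at hρ
    obtain ⟨t, ht, hρ⟩ := hρ
    rw [Finset.mem_filter] at hρ ⊢
    exact ⟨hρ.1, hr t ht ρ hρ.1 hρ.2.1 hρ.2.2.1 hρ.2.2.2⟩
  · intro t _ t' _ hne
    simp only [Function.onFun]
    rw [Finset.disjoint_left]
    intro ρ h1 h2
    rw [Finset.mem_filter] at h1 h2
    apply hne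
    obtain ⟨-, a1, a2, a3⟩ := h1
    obtain ⟨-, b1, b2, b3⟩ := h2
    have c1 : t.1 = t'.1 := ρ.injective (a1.trans b1.symm)
    have c2 : t.2.1 = t'.2.1 := ρ.injective (a2.trans b2.symm)
    have c3 : t.2.2 = t'.2.2 := ρ.injective (a3.trans b3.symm)
    exact Prod.ext c1 (Prod.ext c2 c3)

open Classical in
theorem ilab3_two {n : ℕ} (reg : Finset (ℕ × ℕ × ℕ) → Prop)
    (rep : Cls n → Finset (ℕ × ℕ × ℕ)) (hrep : ∀ T, ∃ h : rep T ∈ Lab n, toCls (rep T) h = T) :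
    ∑ T ∈ (univ : Finset (Cls n)).filter (fun T => AsymC T),
      ((permN n).filter (fun ρ => reg (prel ρ (rep T)))).card ≤ ((Lab n).filter reg).card := by
  rw [← Finset.card_sigma]
  apply Finset.card_le_card_of_injOn (fun x => prel x.2 (rep x.1))
  · rintro ⟨T, ρ⟩ hx
    rw [Finset.mem_coe, Finset.mem_sigma, Finset.mem_filter, Finset.mem_filter] at hx
    rw [Finset.mem_coe, Finset.mem_filter]
    obtain ⟨h, -⟩ := hrep T
    exact ⟨lab_prel h hx.2.1, hx.2.2⟩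
  · rintro ⟨T, ρ⟩ hx ⟨T', ρ'⟩ hx' heq
    rw [Finset.mem_coe, Finset.mem_sigma, Finset.mem_filter, Finset.mem_filter] at hx hx'
    obtain ⟨⟨-, hT⟩, hρ, -⟩ := hx
    obtain ⟨-, hρ', -⟩ := hx'
    simp only at heq hT hρ hρ'
    obtain ⟨h, e⟩ := hrep T
    obtain ⟨h', e'⟩ := hrep T'
    have h1 : prel (ρ'⁻¹ * ρ) (rep T) = rep T' := by
      rw [prel_mul, heq, ← prel_mul, inv_mul_cancel, prel_one]
    have hTT : T = T' := by
      rw [← e, ← e']
      exact Quotient.sound ⟨ρ'⁻¹ * ρ, h1⟩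
    subst hTT
    have hA : Asym (rep T) := hT (rep T) h e
    have h2 : ρ'⁻¹ * ρ = 1 := by
      apply hA _ _ h1
      intro x hx
      rw [ilab3_vs h, Finset.mem_range, not_lt] at hx
      exact mem_permN.1 (ilab3_mul (ilab3_inv hρ') hρ) x hx
    have h3 : ρ = ρ' := by
      rw [inv_mul_eq_one] at h2
      exact h2.symm
    rw [h3]

/-- Proof. The map `(T, ρ) ↦ prel ρ (rep T)` is injective for asymmetric classes `T`, `ρ ∈ permN n`,
with values in `Lab n`. For fixed `T`, the number of `ρ ∈ permN n` with `reg (prel ρ (rep T))` is at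
least the number of the `ρ` which map some (unique) `t ∈ good T` to `(0, 1, 2)`, which is
`∑_{t ∈ good T} #{ρ : ρ t = (0,1,2)} ≥ |good T| n!/n^3` by `card_perm3`. -/
theorem lab_reg {n : ℕ} (hn : 3 ≤ n) (reg : Finset (ℕ × ℕ × ℕ) → Prop)
    (rep : Cls n → Finset (ℕ × ℕ × ℕ)) (hrep : ∀ T, ∃ h : rep T ∈ Lab n, toCls (rep T) h = T)
    (good : Cls n → Finset (ℕ × ℕ × ℕ))
    (hg : ∀ T, ∀ t ∈ good T, t.1 < n ∧ t.2.1 < n ∧ t.2.2 < n ∧ t.1 ≠ t.2.1 ∧ t.1 ≠ t.2.2 ∧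
      t.2.1 ≠ t.2.2)
    (hr : ∀ T, ∀ t ∈ good T, ∀ ρ ∈ permN n, ρ t.1 = 0 → ρ t.2.1 = 1 → ρ t.2.2 = 2 →
      reg (prel ρ (rep T))) :
    (by classical exact n.factorial *
      ∑ T ∈ (univ : Finset (Cls n)).filter (fun T => AsymC T), (good T).card) ≤
      (by classical exact n ^ 3 * ((Lab n).filter reg).card) := by
  classical
  have h2 := ilab3_two reg rep hrep
  have h1 : n.factorial * ∑ T ∈ (univ : Finset (Cls n)).filter (fun T => AsymC T), (good T).card ≤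
      n ^ 3 * ∑ T ∈ (univ : Finset (Cls n)).filter (fun T => AsymC T),
      ((permN n).filter (fun ρ => reg (prel ρ (rep T)))).card := by
    rw [Finset.mul_sum, Finset.mul_sum]
    apply Finset.sum_le_sum
    intro T _
    exact ilab3_one hn (fun ρ => reg (prel ρ (rep T))) (good T) (hg T) (hr T)
  refine le_trans (le_of_eq ?_) (le_trans h1 (le_trans (Nat.mul_le_mul_left _ h2) (le_of_eq ?_)))
  · congr!
  · congr!

end H19S
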