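import Pool.Agent.Lib.H19S.Top
import Pool.Agent.Lib.H19S.ILab3
import Pool.Agent.Lib.H19S.IGeo4

/-!
# H19S, chunk I-KEY: the mean of `Φ_{m,N}` is small for large `N` and `n`
-/

namespace H19S

open Finset MeasureTheory Filter Topology
open scoped ENNReal

theorem ikey_vs {n : ℕ} {F : Finset (ℕ × ℕ × ℕ)} (h : F ∈ Lab n) : IsTri F ∧ vs F = range n := by
  unfold Lab LabS at h
  simp only [Finset.mem_filter] at h
  exact h.2

/-- Proof. Constants from `tri_count m`; `p = δ κ / 2`; `rN`, `n0` from `mainfin`; `N` from `tri_count`;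
`C` from `symbound`. For `n ≥ max n0 10` and the representatives `rep T`, packings and good triples
(`GoodTr`) belonging to `P T`: `κ Φ(P T) n^3 ≤ |good T|`, and `|good T| ≤ n^3`. So
`κ n^3 n! ∑_T Φ(P T) ≤ n! ∑_{T asym} |good T| + n! n^3 #{T not asym}`
`≤ n^3 #{F ∈ Lab n : RegEv F} + n^3 6 n #{F ∈ Lab n : not Asym F}` (`lab_reg`, `regEv_of_good`,
`nonasym_cls`) `≤ n^3 (p + 6 C / n) |Lab n| ≤ n^3 (p + 6 C/n) n! |Cls n|` (`lab_card_le`). Take
`n ≥ 12 C/(δ κ)`. -/
theorem mean_small (m : ℕ) (δ : ℝ) (hδ : 0 < δ) : ∃ N n1 : ℕ, ∀ n : ℕ, n1 ≤ n →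
    ∀ P : Cls n → ProbabilityMeasure S2, (∀ T, IsTangMeas T (P T)) →
      ∑ T, PhiM m N (P T) ≤ δ * Fintype.card (Cls n) := by
  classical
  obtain ⟨a, A, r0, c0, δz, c1, κ, ha, hA, hr0, hc0, hδz, hδc, h100, h100', h1000, hκ, htri⟩ :=
    tri_count m
  obtain ⟨rN, n0, hrN, hmain⟩ := mainfin a A r0 c0 δz c1 (δ * κ / 2) ha hA hr0 hc0 hδz hδc h100 h100'
    h1000 (by positivity)
  obtain ⟨N, hN⟩ := htri rN hrN
  obtain ⟨C, hC⟩ := symbound
  refine ⟨N, max (max n0 10) ⌈12 * |C| / (δ * κ)⌉₊, ?_⟩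
  intro n hn P hP
  have hn0 : n0 ≤ n := le_trans (le_trans (le_max_left _ _) (le_max_left _ _)) hn
  have hn10 : 10 ≤ n := le_trans (le_trans (le_max_right _ _) (le_max_left _ _)) hn
  have hnC : 12 * |C| / (δ * κ) ≤ n := by
    have h1 : (⌈12 * |C| / (δ * κ)⌉₊ : ℝ) ≤ n := by
      exact_mod_cast le_trans (le_max_right _ _) hn
    exact le_trans (Nat.le_ceil _) h1
  have hnr : (10 : ℝ) ≤ n := by exact_mod_cast hn10
  choose rep hrep c r hcls hpack hmeas using hP
  set good : Cls n → Finset (ℕ × ℕ × ℕ) := fun T =>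
    (vs (rep T) ×ˢ vs (rep T) ×ˢ vs (rep T)).filter
      (GoodTr (rep T) (c T) (r T) a A rN r0 c0 δz c1) with hgood
  have hvs : ∀ T, vs (rep T) = range n := fun T => (ikey_vs (hrep T)).2
  have hcard : ∀ T, (vs (rep T)).card = n := fun T => by rw [hvs T, card_range]
  -- lower bound for the number of good triples
  have h1 : ∀ T, κ * PhiM m N (P T) * (n : ℝ) ^ 3 ≤ ((good T).card : ℝ) := by
    intro T
    have h2 := hN (rep T) (c T) (r T) (ikey_vs (hrep T)).1 (by rw [hcard T]; omega) (hpack T) (P T)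
      (hmeas T)
    rw [hcard T] at h2
    convert h2 using 2
  have h2 : ∀ T, (good T).card ≤ n ^ 3 := by
    intro T
    calc (good T).card ≤ (vs (rep T) ×ˢ vs (rep T) ×ˢ vs (rep T)).card := card_filter_le _ _
      _ = n ^ 3 := by
        rw [card_product, card_product, hcard T]
        ring
  have h3 := lab_reg (n := n) (by omega) (RegEv a A rN r0 c0 δz c1) rep
    (fun T => ⟨hrep T, hcls T⟩) good
    (by
      intro T t ht
      simp only [hgood, Finset.mem_filter, Finset.mem_product, hvs T, Finset.mem_range] at ht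
      obtain ⟨⟨ht1, ht2, ht3⟩, hg⟩ := ht
      obtain ⟨_, _, hd1, hd2, hd3⟩ := hg
      refine ⟨ht1, ht2, ht3, ?_, ?_, ?_⟩
      · intro h
        rw [h, dist_self] at hd1
        linarith
      · intro h
        rw [← h, dist_self] at hd2
        linarith
      · intro h
        rw [h, dist_comm] at hd1
        linarith)
    (by
      intro T t ht ρ _ e0 e1 e2
      have hg := (Finset.mem_filter.mp ht).2
      exact regEv_of_good (hpack T) t hg ρ e0 e1 e2)
  have h4 := nonasym_cls n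
  have h5 := hmain n hn0
  have h6 := hC n hn10
  have h7 := lab_card_le n
  -- pass to real numbers
  set NR : ℕ := ((Lab n).filter (RegEv a A rN r0 c0 δz c1)).card with hNR
  set NA : ℕ := ((Lab n).filter (fun F => ¬ Asym F)).card with hNA
  set NC : ℕ := ((univ : Finset (Cls n)).filter (fun T => ¬ AsymC T)).card with hNC
  have h3' : n.factorial * ∑ T ∈ (univ : Finset (Cls n)).filter (fun T => AsymC T), (good T).card ≤
      n ^ 3 * NR := by
    convert h3 using 2
  have h4' : n.factorial * NC ≤ 6 * n * NA := by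
    convert h4 using 2
  have h5' : (NR : ℝ) ≤ δ * κ / 2 * (Lab n).card := by
    convert h5 using 2
  have h6' : (NA : ℝ) * (n : ℝ) ^ 2 ≤ C * (Lab n).card := by
    convert h6 using 2
  have h8 : n.factorial * ∑ T : Cls n, (good T).card ≤ n ^ 3 * NR + n ^ 3 * (6 * n * NA) := by
    have h9 := Finset.sum_filter_add_sum_filter_not (univ : Finset (Cls n)) (fun T => AsymC T)
      (fun T => (good T).card)
    have h10 : ∑ T ∈ (univ : Finset (Cls n)).filter (fun T => ¬ AsymC T), (good T).card ≤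
        NC * n ^ 3 := by
      calc _ ≤ ∑ T ∈ (univ : Finset (Cls n)).filter (fun T => ¬ AsymC T), n ^ 3 :=
            Finset.sum_le_sum (fun T _ => h2 T)
        _ = NC * n ^ 3 := by rw [Finset.sum_const, smul_eq_mul]
    calc n.factorial * ∑ T : Cls n, (good T).card
        = n.factorial * ∑ T ∈ (univ : Finset (Cls n)).filter (fun T => AsymC T), (good T).card +
          n.factorial * ∑ T ∈ (univ : Finset (Cls n)).filter (fun T => ¬ AsymC T), (good T).card := by
          rw [← Nat.mul_add, h9]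
      _ ≤ n ^ 3 * NR + n.factorial * (NC * n ^ 3) := by
          gcongr
      _ = n ^ 3 * NR + n ^ 3 * (n.factorial * NC) := by ring
      _ ≤ n ^ 3 * NR + n ^ 3 * (6 * n * NA) := by
          gcongr
  have h8r : (n.factorial : ℝ) * ∑ T : Cls n, ((good T).card : ℝ) ≤
      (n : ℝ) ^ 3 * NR + (n : ℝ) ^ 3 * (6 * n * NA) := by
    exact_mod_cast h8
  have h7r : ((Lab n).card : ℝ) ≤ n.factorial * Fintype.card (Cls n) := by
    exact_mod_cast h7
  have hL0 : (0 : ℝ) ≤ (Lab n).card := Nat.cast_nonneg _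
  have hnpos : (0 : ℝ) < n := by linarith
  have h11 : 6 * (n : ℝ) * NA ≤ δ * κ / 2 * (Lab n).card := by
    have h12 : 6 * (n : ℝ) * NA * n ≤ 6 * |C| * (Lab n).card := by
      calc 6 * (n : ℝ) * NA * n = 6 * (NA * (n : ℝ) ^ 2) := by ring
        _ ≤ 6 * (C * (Lab n).card) := by linarith
        _ ≤ 6 * (|C| * (Lab n).card) := by
          have := mul_le_mul_of_nonneg_right (le_abs_self C) hL0
          linarith
        _ = 6 * |C| * (Lab n).card := by ring
    have h13 : 6 * |C| ≤ δ * κ / 2 * n := by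
      rw [div_le_iff₀ (by positivity)] at hnC
      linarith
    have h14 : 6 * (n : ℝ) * NA * n ≤ (δ * κ / 2 * (Lab n).card) * n := by
      calc _ ≤ 6 * |C| * (Lab n).card := h12
        _ ≤ (δ * κ / 2 * n) * (Lab n).card := mul_le_mul_of_nonneg_right h13 hL0
        _ = (δ * κ / 2 * (Lab n).card) * n := by ring
    exact le_of_mul_le_mul_right h14 hnpos
  have hfac : (0 : ℝ) < n.factorial := by exact_mod_cast Nat.factorial_pos n
  have h15 : (n.factorial : ℝ) * (κ * (∑ T : Cls n, PhiM m N (P T)) * (n : ℝ) ^ 3) ≤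
      (n.factorial : ℝ) * (κ * (δ * Fintype.card (Cls n)) * (n : ℝ) ^ 3) := by
    calc (n.factorial : ℝ) * (κ * (∑ T : Cls n, PhiM m N (P T)) * (n : ℝ) ^ 3)
        = (n.factorial : ℝ) * ∑ T : Cls n, (κ * PhiM m N (P T) * (n : ℝ) ^ 3) := by
          rw [Finset.mul_sum, Finset.sum_mul]
      _ ≤ (n.factorial : ℝ) * ∑ T : Cls n, ((good T).card : ℝ) := by
          apply mul_le_mul_of_nonneg_left _ hfac.le
          exact Finset.sum_le_sum (fun T _ => h1 T)
      _ ≤ (n : ℝ) ^ 3 * NR + (n : ℝ) ^ 3 * (6 * n * NA) := h8r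
      _ = (n : ℝ) ^ 3 * (NR + 6 * n * NA) := by ring
      _ ≤ (n : ℝ) ^ 3 * (δ * κ * (Lab n).card) := by
          apply mul_le_mul_of_nonneg_left _ (by positivity)
          linarith
      _ ≤ (n : ℝ) ^ 3 * (δ * κ * (n.factorial * Fintype.card (Cls n))) := by
          apply mul_le_mul_of_nonneg_left _ (by positivity)
          exact mul_le_mul_of_nonneg_left h7r (by positivity)
      _ = (n.factorial : ℝ) * (κ * (δ * Fintype.card (Cls n)) * (n : ℝ) ^ 3) := by ring
  have h16 := le_of_mul_le_mul_left h15 hfac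
  have h17 := le_of_mul_le_mul_right h16 (by positivity)
  exact le_of_mul_le_mul_left h17 hκ

end H19S
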