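import Pool.Agent.Lib.H19S.I0
import Pool.Agent.Lib.H19S.Iface
import Pool.Agent.Lib.H19S.A0
import Pool.Agent.Lib.H19S.A0b

/-!
# H19S, chunk I-LAB1: permutations of the labels `0, …, n-1`
-/

namespace H19S

open Finset

/-- The permutations of `ℕ` which fix all labels `≥ n`. -/
noncomputable def permN (n : ℕ) : Finset (Equiv.Perm ℕ) := by
  classical
  exact (univ : Finset (Equiv.Perm (Fin n))).image (fun σ => σ.extendDomain Fin.equivSubtype)

theorem mem_permN {n : ℕ} {ρ : Equiv.Perm ℕ} : ρ ∈ permN n ↔ ∀ x, n ≤ x → ρ x = x := by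
  classical
  unfold permN
  rw [mem_image]
  constructor
  · rintro ⟨σ, -, rfl⟩ x hx
    exact Equiv.Perm.extendDomain_apply_not_subtype _ _ (by omega)
  · intro h
    have hlt : ∀ x, ρ x < n ↔ x < n := by
      intro x
      constructor
      · intro hx
        by_contra hc
        rw [h x (by omega)] at hx
        omega
      · intro hx
        by_contra hc
        have h1 := h (ρ x) (by omega)
        have h2 := ρ.injective h1
        omega
    refine ⟨((Fin.equivSubtype (n := n)).symm.permCongr (ρ.subtypePerm (p := fun x => x < n) hlt)),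
      mem_univ _, ?_⟩
    ext x
    by_cases hx : x < n
    · rw [Equiv.Perm.extendDomain_apply_subtype (p := fun x => x < n) _ _ hx]
      simp [Equiv.permCongr_apply, Equiv.Perm.subtypePerm_apply]
    · rw [Equiv.Perm.extendDomain_apply_not_subtype (p := fun x => x < n) _ _ hx, h x (by omega)]

theorem card_permN (n : ℕ) : (permN n).card = n.factorial := by
  classical
  unfold permN
  have hinj : Function.Injective (fun σ : Equiv.Perm (Fin n) =>
      σ.extendDomain (Fin.equivSubtype (n := n))) :=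
    Equiv.Perm.extendDomainHom_injective (Fin.equivSubtype (n := n))
  rw [card_image_of_injective _ hinj, card_univ, Fintype.card_perm, Fintype.card_fin]

theorem ilab1_mem_lab {n : ℕ} {F : Finset (ℕ × ℕ × ℕ)} : F ∈ Lab n ↔ IsTri F ∧ vs F = range n := by
  classical
  unfold Lab LabS
  rw [mem_filter, mem_powerset]
  constructor
  · exact fun h => h.2
  · refine fun h => ⟨?_, h⟩
    rintro ⟨a, b, c⟩ ht
    rw [mem_product, mem_product, ← h.2]
    exact ⟨h.1.vs1 ht, h.1.vs2 ht, h.1.vs3 ht⟩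

theorem ilab1_congr {F : Finset (ℕ × ℕ × ℕ)} (hF : IsSurf F) {ρ ρ' : Equiv.Perm ℕ}
    (h : ∀ x ∈ vs F, ρ x = ρ' x) : prel ρ F = prel ρ' F := by
  unfold prel relab
  apply image_congr
  rintro ⟨a, b, c⟩ ht
  have ht := mem_coe.mp ht
  simp only [map3]
  rw [h _ (hF.vs1 ht), h _ (hF.vs2 ht), h _ (hF.vs3 ht)]

theorem ilab1_lt {n : ℕ} {ρ : Equiv.Perm ℕ} (hρ : ρ ∈ permN n) {x : ℕ} : ρ x < n ↔ x < n := by
  have h := mem_permN.mp hρ
  constructor
  · intro hx
    by_contra hc
    rw [h x (by omega)] at hx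
    omega
  · intro hx
    by_contra hc
    have h1 := h (ρ x) (by omega)
    have h2 := ρ.injective h1
    omega

theorem ilab1_one (n : ℕ) : (1 : Equiv.Perm ℕ) ∈ permN n := mem_permN.mpr fun _ _ => rfl

theorem ilab1_mul {n : ℕ} {ρ ρ' : Equiv.Perm ℕ} (h : ρ ∈ permN n) (h' : ρ' ∈ permN n) :
    ρ * ρ' ∈ permN n := by
  rw [mem_permN] at h h' ⊢
  intro x hx
  rw [Equiv.Perm.mul_apply, h' x hx, h x hx]

theorem ilab1_inv {n : ℕ} {ρ : Equiv.Perm ℕ} (h : ρ ∈ permN n) : ρ⁻¹ ∈ permN n := by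
  rw [mem_permN] at h ⊢
  intro x hx
  rw [Equiv.Perm.inv_eq_iff_eq, h x hx]

theorem ilab1_image {n : ℕ} {ρ : Equiv.Perm ℕ} (h : ρ ∈ permN n) :
    (range n).image (fun x => ρ x) = range n := by
  apply eq_of_subset_of_card_le
  · intro y hy
    obtain ⟨x, hx, rfl⟩ := mem_image.mp hy
    exact mem_range.mpr ((ilab1_lt h).mpr (mem_range.mp hx))
  · rw [card_image_of_injective _ ρ.injective]

/-- If `F`, `F'` in `Lab n` are equivalent then `F' = prel ρ F` with `ρ ∈ permN n`. -/
theorem exists_permN {n : ℕ} {F F' : Finset (ℕ × ℕ × ℕ)} (hF : F ∈ Lab n) (hF' : F' ∈ Lab n)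
    {ρ : Equiv.Perm ℕ} (h : prel ρ F = F') : ∃ ρ' ∈ permN n, prel ρ' F = F' := by
  classical
  obtain ⟨h1, h2⟩ := ilab1_mem_lab.mp hF
  obtain ⟨h1', h2'⟩ := ilab1_mem_lab.mp hF'
  have h3 : (range n).image (fun x => ρ x) = range n := by
    have h4 := vs_relab (F := F) (fun x => ρ x)
    rw [← h2, ← h4, h2, ← h2', ← h]
    rfl
  have hlt : ∀ x, ρ x < n ↔ x < n := by
    intro x
    constructor
    · intro hx
      have hx' := mem_range.mpr hx
      rw [← h3, mem_image] at hx'
      obtain ⟨y, hy, he⟩ := hx'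
      rw [← ρ.injective he]
      exact mem_range.mp hy
    · intro hx
      have : ρ x ∈ (range n).image (fun x => ρ x) := mem_image.mpr ⟨x, mem_range.mpr hx, rfl⟩
      rw [h3] at this
      exact mem_range.mp this
  refine ⟨Equiv.Perm.ofSubtype (ρ.subtypePerm (p := fun x => x < n) hlt), ?_, ?_⟩
  · rw [mem_permN]
    intro x hx
    exact Equiv.Perm.ofSubtype_apply_of_not_mem _ (by omega)
  · rw [← h]
    apply ilab1_congr h1.toIsSurf
    intro x hx
    rw [h2, mem_range] at hx
    exact Equiv.Perm.ofSubtype_apply_of_mem (p := fun x => x < n) (ρ.subtypePerm hlt) hx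

/-- `Lab n` is stable under `permN n`. -/
theorem lab_prel {n : ℕ} {F : Finset (ℕ × ℕ × ℕ)} (hF : F ∈ Lab n) {ρ : Equiv.Perm ℕ}
    (hρ : ρ ∈ permN n) : prel ρ F ∈ Lab n := by
  obtain ⟨h1, h2⟩ := ilab1_mem_lab.mp hF
  rw [ilab1_mem_lab]
  constructor
  · exact h1.relab ρ.injective.injOn
  · have h4 := vs_relab (F := F) (fun x => ρ x)
    rw [h2, ilab1_image hρ] at h4
    exact h4

end H19S
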