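import Pool.Agent.Lib.H19S.ILab1

/-!
# H19S, chunk I-LAB2: classes and labelled triangulations; automorphisms
-/

namespace H19S

open Finset

/-- Every labelled triangulation in the class of `F` is `prel ρ F` with `ρ ∈ permN n`. -/
theorem lab_card_le (n : ℕ) : (Lab n).card ≤ n.factorial * Fintype.card (Cls n) := by
  classical
  have key := card_le_mul_card_image (f := fun F : {F // F ∈ Lab n} => toCls F.1 F.2)
    (Lab n).attach n.factorial (by
    intro T hT
    obtain ⟨⟨F0, hF0⟩, -, rfl⟩ := mem_image.mp hT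
    have h1 : (((Lab n).attach.filter
        (fun F : {F // F ∈ Lab n} => toCls F.1 F.2 = toCls F0 hF0)).image (fun F => F.1)) ⊆
        (permN n).image (fun ρ => prel ρ F0) := by
      intro F hF
      obtain ⟨⟨F1, hF1⟩, h2, rfl⟩ := mem_image.mp hF
      have h3 : toCls F1 hF1 = toCls F0 hF0 := (mem_filter.mp h2).2
      have h4 : (isoSetoid n).r ⟨F1, hF1⟩ ⟨F0, hF0⟩ := Quotient.exact h3
      obtain ⟨ρ, hρ⟩ := (isoSetoid n).iseqv.symm h4
      obtain ⟨ρ', h5, h6⟩ := exists_permN hF0 hF1 hρ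
      exact mem_image.mpr ⟨ρ', h5, h6⟩
    have h7 := card_le_card h1
    rw [card_image_of_injective _ Subtype.val_injective] at h7
    refine h7.trans (card_image_le.trans ?_)
    rw [card_permN])
  rw [card_attach] at key
  exact key.trans (Nat.mul_le_mul_left _ (card_le_univ _))

theorem ilab2_mem {ρ : Equiv.Perm ℕ} {F : Finset (ℕ × ℕ × ℕ)} (h : prel ρ F = F) {a b c : ℕ}
    (ht : (a, b, c) ∈ F) : (ρ a, ρ b, ρ c) ∈ F := by
  rw [← h]
  exact mem_image.mpr ⟨(a, b, c), ht, rfl⟩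

theorem ilab2_star {ρ ρ' : Equiv.Perm ℕ} {F : Finset (ℕ × ℕ × ℕ)} (hF : IsSurf F)
    (h : prel ρ F = F) (h' : prel ρ' F = F) {v a b : ℕ} (ht : (v, a, b) ∈ F) (hv : ρ v = ρ' v)
    (ha : ρ a = ρ' a) {x y : ℕ} (hxy : (v, x, y) ∈ F) : ρ x = ρ' x ∧ ρ y = ρ' y := by
  have step : ∀ {p q : ℕ}, (v, p, q) ∈ F → ρ p = ρ' p → ρ q = ρ' q := by
    intro p q hpq hp
    have e1 := ilab2_mem h hpq
    have e2 := ilab2_mem h' hpq
    rw [← hv, ← hp] at e2
    exact hF.uniq e1 e2
  have hl := hF.link ht hxy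
  have hx : ρ x = ρ' x := by
    clear hxy
    induction hl with
    | refl => exact ha
    | tail _ hs ih => exact step hs ih
  exact ⟨hx, step hxy hx⟩

theorem ilab2_unique {ρ ρ' : Equiv.Perm ℕ} {F : Finset (ℕ × ℕ × ℕ)} (hF : IsSurf F)
    (h : prel ρ F = F) (h' : prel ρ' F = F) {v a b : ℕ} (ht : (v, a, b) ∈ F) (hv : ρ v = ρ' v)
    (ha : ρ a = ρ' a) {w : ℕ} (hw : w ∈ vs F) : ρ w = ρ' w := by
  have key : ∀ w, Relation.ReflTransGen (Adj F) v w →
      ρ w = ρ' w ∧ ∃ a b, (w, a, b) ∈ F ∧ ρ a = ρ' a := by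
    intro w hvw
    induction hvw with
    | refl => exact ⟨hv, a, b, ht, ha⟩
    | tail _ hs ih =>
      obtain ⟨hp, a1, b1, h1, h2⟩ := ih
      obtain ⟨z, hz⟩ := hs
      obtain ⟨h3, h4⟩ := ilab2_star hF h h' h1 hp h2 hz
      exact ⟨h3, z, _, hF.rot hz, h4⟩
  exact (key w (hF.conn (hF.vs1 ht) hw)).1

/-- An automorphism is determined by the image of one oriented face: if `ρ` and `ρ'` agree at the
vertices of the face `(a, b, c)` and are both automorphisms (with `ρ, ρ' ∈ permN n`) then they agree at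
all neighbours of these vertices (`link`) and, by connectivity, everywhere. -/
theorem aut_card_le {n : ℕ} {F : Finset (ℕ × ℕ × ℕ)} (hF : F ∈ Lab n) :
    ((permN n).filter (fun ρ => prel ρ F = F)).card ≤ 6 * n := by
  obtain ⟨h1, h2⟩ := ilab1_mem_lab.mp hF
  obtain ⟨⟨a, b, c⟩, ht⟩ := h1.nonempty
  have hcard : F.card ≤ 6 * n := by
    have := h1.euler
    rw [h2, card_range] at this
    omega
  refine le_trans ?_ hcard
  apply card_le_card_of_injOn (fun ρ : Equiv.Perm ℕ => (ρ a, ρ b, ρ c))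
  · intro ρ hρ
    have hρ' := mem_filter.mp (mem_coe.mp hρ)
    exact mem_coe.mpr (ilab2_mem hρ'.2 ht)
  · intro ρ hρ ρ' hρ' he
    have g := mem_filter.mp (mem_coe.mp hρ)
    have g' := mem_filter.mp (mem_coe.mp hρ')
    simp only [Prod.mk.injEq] at he
    ext x
    by_cases hx : x < n
    · exact ilab2_unique h1.toIsSurf g.2 g'.2 ht he.1 he.2.1 (by rw [h2]; exact mem_range.mpr hx)
    · rw [mem_permN.mp g.1 x (by omega), mem_permN.mp g'.1 x (by omega)]

end H19S
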