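import Pool.Agent.Lib.H19S.ILab2

/-!
# H19S, chunk I-LAB2B: orbits and asymmetric classes
-/

namespace H19S

open Finset

/-- The class of `F` has at least `n! / (6 n)` elements. -/
theorem orbit_card {n : ℕ} {F : Finset (ℕ × ℕ × ℕ)} (hF : F ∈ Lab n) :
    n.factorial ≤ 6 * n * ((permN n).image (fun ρ => prel ρ F)).card := by
  have key := card_le_mul_card_image (f := fun ρ => prel ρ F) (permN n) (6 * n) (by
    intro F' hF'
    obtain ⟨ρ0, hρ0, rfl⟩ := mem_image.mp hF'
    refine le_trans ?_ (aut_card_le hF)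
    apply card_le_card_of_injOn (fun ρ => ρ0⁻¹ * ρ)
    · intro ρ hρ
      have g := mem_filter.mp (mem_coe.mp hρ)
      apply mem_coe.mpr
      apply mem_filter.mpr
      refine ⟨ilab1_mul (ilab1_inv hρ0) g.1, ?_⟩
      have g2 : prel ρ F = prel ρ0 F := g.2
      show prel (ρ0⁻¹ * ρ) F = F
      rw [prel_mul, g2, ← prel_mul, inv_mul_cancel, prel_one]
    · intro ρ _ ρ' _ h
      exact mul_left_cancel h)
  rw [card_permN] at key
  exact key

theorem asym_prel {n : ℕ} {F : Finset (ℕ × ℕ × ℕ)} (hF : F ∈ Lab n) {ρ : Equiv.Perm ℕ}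
    (hρ : ρ ∈ permN n) (h : Asym F) : Asym (prel ρ F) := by
  intro σ hσ hs
  have h1 := h (ρ⁻¹ * (σ * ρ)) (by
    intro x hx
    rw [Equiv.Perm.mul_apply, Equiv.Perm.mul_apply, Equiv.Perm.inv_eq_iff_eq]
    apply hσ
    intro hc
    have h4 := vs_relab (F := F) (fun x => ρ x)
    change ρ x ∈ vs (relab (fun x => ρ x) F) at hc
    rw [h4, mem_image] at hc
    obtain ⟨y, hy, he⟩ := hc
    exact hx (ρ.injective he ▸ hy)) (by
    rw [prel_mul, prel_mul, hs, ← prel_mul, inv_mul_cancel, prel_one])
  have h2 : σ * ρ = ρ := by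
    exact (inv_mul_eq_one.mp h1).symm
  exact mul_eq_right.mp h2

/-- All the triangulations of the class `T` are asymmetric. -/
def AsymC {n : ℕ} (T : Cls n) : Prop := ∀ (F : Finset (ℕ × ℕ × ℕ)) (h : F ∈ Lab n), toCls F h = T → Asym F

/-- The orbits of the non-asymmetric classes are disjoint, consist of non-asymmetric
triangulations and have at least `n!/(6n)` elements. -/
theorem nonasym_cls (n : ℕ) :
    (by classical exact n.factorial * ((univ : Finset (Cls n)).filter (fun T => ¬ AsymC T)).card) ≤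
      (by classical exact 6 * n * ((Lab n).filter (fun F => ¬ Asym F)).card) := by
  classical
  set A : Finset (Cls n) := (univ : Finset (Cls n)).filter (fun T => ¬ AsymC T) with hA
  set L := (Lab n).attach.filter (fun F : {F // F ∈ Lab n} => ¬ Asym F.1) with hL
  have hLc : L.card = ((Lab n).filter (fun F => ¬ Asym F)).card := by
    rw [hL]
    apply card_bij (fun F _ => F.1)
    · intro F hF
      exact mem_filter.mpr ⟨F.2, (mem_filter.mp hF).2⟩
    · intro F _ F' _ h
      exact Subtype.ext h
    · intro F hF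
      obtain ⟨h1, h2⟩ := mem_filter.mp hF
      exact ⟨⟨F, h1⟩, mem_filter.mpr ⟨mem_attach _ _, h2⟩, rfl⟩
  have hfib : ∀ T ∈ A, n.factorial ≤ 6 * n * (L.filter (fun F => toCls F.1 F.2 = T)).card := by
    intro T hT
    have hT2 := (mem_filter.mp hT).2
    unfold AsymC at hT2
    push Not at hT2
    obtain ⟨F, hF, hFT, hFA⟩ := hT2
    refine (orbit_card hF).trans (Nat.mul_le_mul_left _ ?_)
    have hsub : (permN n).image (fun ρ => prel ρ F) ⊆
        (L.filter (fun F => toCls F.1 F.2 = T)).image (fun F => F.1) := by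
      intro F' hF'
      obtain ⟨ρ, hρ, rfl⟩ := mem_image.mp hF'
      have hl := lab_prel hF hρ
      refine mem_image.mpr ⟨⟨prel ρ F, hl⟩, ?_, rfl⟩
      rw [mem_filter, hL, mem_filter]
      refine ⟨⟨mem_attach _ _, ?_⟩, ?_⟩
      · intro hc
        apply hFA
        have := asym_prel hl (ilab1_inv hρ) hc
        rwa [← prel_mul, inv_mul_cancel, prel_one] at this
      · rw [← hFT]
        apply Quotient.sound
        exact ⟨ρ⁻¹, by rw [← prel_mul, inv_mul_cancel, prel_one]⟩
    have := card_le_card hsub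
    rwa [card_image_of_injective _ Subtype.val_injective] at this
  have hsum : ∑ T ∈ A, (L.filter (fun F => toCls F.1 F.2 = T)).card ≤ L.card := by
    rw [← card_biUnion]
    · apply card_le_card
      intro F hF
      obtain ⟨T, -, h⟩ := mem_biUnion.mp hF
      exact (mem_filter.mp h).1
    · intro T _ T' _ hne
      refine disjoint_left.mpr ?_
      intro F h1 h2
      exact hne ((mem_filter.mp h1).2.symm.trans (mem_filter.mp h2).2)
  have hfin : n.factorial * A.card ≤ 6 * n * L.card := by
    calc n.factorial * A.card = ∑ _T ∈ A, n.factorial := by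
          rw [sum_const, smul_eq_mul, mul_comm]
      _ ≤ ∑ T ∈ A, 6 * n * (L.filter (fun F => toCls F.1 F.2 = T)).card := sum_le_sum hfib
      _ = 6 * n * ∑ T ∈ A, (L.filter (fun F => toCls F.1 F.2 = T)).card := by rw [mul_sum]
      _ ≤ 6 * n * L.card := Nat.mul_le_mul_left _ hsum
  rw [hLc] at hfin
  convert hfin using 2

end H19S
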