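import Pool.Agent.Lib.H19S.IFun
import Pool.Agent.Lib.H19S.E10b

/-!
# H19S, chunk I-POS1: the area measure is doubling
-/

namespace H19S

open Finset MeasureTheory Filter Topology
open scoped ENNReal

theorem ipos1_area : area = ((sarea Set.univ)⁻¹) • sarea := rfl

instance ipos1_fin : IsFiniteMeasure sarea :=
  inferInstanceAs (IsFiniteMeasure ((volume : Measure (EuclideanSpace ℝ (Fin 3))).toSphere))

theorem ipos1_univ_ne_zero : sarea Set.univ ≠ 0 := by
  intro h
  have h1 : sarea = 0 := Measure.measure_univ_eq_zero.1 h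
  exact Measure.toSphere_ne_zero (volume : Measure (EuclideanSpace ℝ (Fin 3))) h1

theorem ipos1_univ_ne_top : sarea Set.univ ≠ ⊤ := measure_ne_top _ _

/-- Area bounds (from part E). -/
theorem area_bds : ∃ c C : ℝ, 0 < c ∧ 0 < C ∧ ∀ (p : S2) (s : ℝ), 0 < s → s ≤ 2 →
    ENNReal.ofReal (c * s ^ 2) ≤ area (Metric.closedBall p s) ∧
      area (Metric.closedBall p s) ≤ ENNReal.ofReal (C * s ^ 2) := by
  obtain ⟨a, ha, hlow⟩ := sarea_lower
  obtain ⟨A, hA, hup⟩ := sarea_upper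
  have hT : 0 < (sarea Set.univ).toReal :=
    ENNReal.toReal_pos ipos1_univ_ne_zero ipos1_univ_ne_top
  have hinv : (sarea Set.univ)⁻¹ = ENNReal.ofReal ((sarea Set.univ).toReal)⁻¹ := by
    rw [ENNReal.ofReal_inv_of_pos hT, ENNReal.ofReal_toReal ipos1_univ_ne_top]
  have key : ∀ (x : ℝ), ENNReal.ofReal ((sarea Set.univ).toReal)⁻¹ * ENNReal.ofReal x =
      ENNReal.ofReal (((sarea Set.univ).toReal)⁻¹ * x) := fun x =>
    (ENNReal.ofReal_mul (inv_nonneg.2 hT.le)).symm
  refine ⟨((sarea Set.univ).toReal)⁻¹ * a, ((sarea Set.univ).toReal)⁻¹ * A,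
    mul_pos (inv_pos.2 hT) ha, mul_pos (inv_pos.2 hT) hA, fun p s hs hs2 => ?_⟩
  have h1 : area (Metric.closedBall p s) =
      (sarea Set.univ)⁻¹ * sarea (Metric.closedBall p s) := by
    rw [ipos1_area, Measure.smul_apply, smul_eq_mul]
  rw [h1, hinv, mul_assoc, mul_assoc, ← key, ← key]
  constructor
  · gcongr
    exact (hlow p s hs hs2).trans (measure_mono Metric.ball_subset_closedBall)
  · gcongr
    exact hup p s hs.le

instance area_finite : IsFiniteMeasure area := by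
  constructor
  rw [ipos1_area, Measure.smul_apply, smul_eq_mul]
  exact ENNReal.mul_lt_top (ENNReal.inv_lt_top.2 (pos_iff_ne_zero.2 ipos1_univ_ne_zero))
    (measure_lt_top _ _)

/-- `area (closedBall x (2 ε)) ≤ (4 C / c) area (closedBall x ε)` for `ε ≤ 1`. -/
instance area_doubling : IsUnifLocDoublingMeasure area := by
  obtain ⟨c, C, hc, hC, h⟩ := area_bds
  refine ⟨⟨Real.toNNReal (4 * C / c), ?_⟩⟩
  have hmem : Set.Ioc (0 : ℝ) 1 ∈ 𝓝[>] (0 : ℝ) := Ioc_mem_nhdsGT one_pos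
  filter_upwards [hmem] with ε hε x
  have h1 := (h x (2 * ε) (by linarith [hε.1]) (by linarith [hε.2])).2
  have h2 := (h x ε hε.1 (by linarith [hε.2])).1
  refine h1.trans ?_
  have h3 : ENNReal.ofReal (C * (2 * ε) ^ 2) =
      ((Real.toNNReal (4 * C / c) : NNReal) : ℝ≥0∞) * ENNReal.ofReal (c * ε ^ 2) := by
    have h4 : ((Real.toNNReal (4 * C / c) : NNReal) : ℝ≥0∞) = ENNReal.ofReal (4 * C / c) := rfl
    rw [h4, ← ENNReal.ofReal_mul (by positivity)]
    congr 1
    field_simp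
    ring
  rw [h3]
  gcongr

end H19S
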