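import Pool.Agent.Lib.H19S.IPos1

/-!
# H19S, chunk I-POS2: differentiation of measures
-/

namespace H19S

open Finset MeasureTheory Filter Topology
open scoped ENNReal

/-- From the Vitali family to balls. -/
theorem ipos2_balls (x : S2) (P : Set S2 → Prop)
    (hP : ∀ᶠ a in (IsUnifLocDoublingMeasure.vitaliFamily area 400).filterAt x, P a) :
    ∃ s0 : ℝ, 0 < s0 ∧ ∀ (y : S2) (δ : ℝ), 0 < δ → δ ≤ s0 → dist x y ≤ 400 * δ →
      P (Metric.closedBall y δ) := by
  let l : Filter (S2 × ℝ) := (comap Prod.snd (𝓝[>] (0 : ℝ))) ⊓ 𝓟 {q | dist x q.1 ≤ 400 * q.2}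
  have h1 : Tendsto (fun q : S2 × ℝ => Metric.closedBall q.1 q.2) l
      ((IsUnifLocDoublingMeasure.vitaliFamily area 400).filterAt x) := by
    refine IsUnifLocDoublingMeasure.tendsto_closedBall_filterAt (μ := area) Prod.fst Prod.snd ?_ ?_
    · exact tendsto_comap.mono_left inf_le_left
    · have : {q : S2 × ℝ | dist x q.1 ≤ 400 * q.2} ∈ l := mem_inf_of_right (mem_principal_self _)
      filter_upwards [this] with q hq
      exact Metric.mem_closedBall.2 hq
  have h2 := h1 hP
  have h3 : ∀ᶠ q in l, P (Metric.closedBall q.1 q.2) := h2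
  rw [eventually_inf_principal, eventually_comap] at h3
  obtain ⟨u, hu, hs⟩ := (mem_nhdsGT_iff_exists_Ioc_subset).1 h3
  refine ⟨u, hu, fun y δ h0 hδ hd => ?_⟩
  have h4 := hs (show δ ∈ Set.Ioc (0 : ℝ) u from ⟨h0, hδ⟩)
  exact h4 (y, δ) rfl hd

/-- A probability measure which is not singular with respect to the area has a positive
finite density with respect to the area (for balls close to `x`, not necessarily centred at `x`)
at the points of a set of positive measure.
Proof. `vf := IsUnifLocDoublingMeasure.vitaliFamily area 400`; `VitaliFamily.ae_tendsto_rnDeriv`: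
for `area`-a.e. `x`, `μ s / area s → μ.rnDeriv area x` as `s → x` in `vf`. Let
`E = {x : this holds, 0 < rnDeriv x < ∞}`. `area E > 0`, because otherwise `rnDeriv = 0` a.e. and
`μ` is its singular part (`Measure.rnDeriv_eq_zero`), and `μ E ≥ ∫ x in E, rnDeriv x ∂area > 0`
(`Measure.withDensity_rnDeriv_le`). For `x ∈ E`, `f = rnDeriv x`:
`IsUnifLocDoublingMeasure.tendsto_closedBall_filterAt` (with `K = 400`), by contradiction with
sequences, gives `s0 > 0` such that `f / 2 ≤ μ B / area B ≤ 2 f` for all balls `B = closedBall y δ`,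
`0 < δ ≤ s0`, `dist x y ≤ 400 δ`. -/
theorem dens_pts (μ : ProbabilityMeasure S2) (h : ¬ (μ : Measure S2) ⟂ₘ area) :
    ∃ E : Set S2, 0 < (μ : Measure S2) E ∧ ∀ x ∈ E, ∃ (f s0 : ℝ), 0 < f ∧ 0 < s0 ∧
      ∀ (y : S2) (δ : ℝ), 0 < δ → δ ≤ s0 → dist x y ≤ 400 * δ →
        ENNReal.ofReal f * area (Metric.closedBall y δ) ≤ (μ : Measure S2) (Metric.closedBall y δ) ∧
        (μ : Measure S2) (Metric.closedBall y δ) ≤
          ENNReal.ofReal (4 * f) * area (Metric.closedBall y δ) := by
  obtain ⟨c, C, hc, hC, hb⟩ := area_bds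
  set g : S2 → ℝ≥0∞ := (μ : Measure S2).rnDeriv area with hg
  have hgm : Measurable g := Measure.measurable_rnDeriv _ _
  set v := IsUnifLocDoublingMeasure.vitaliFamily area 400 with hv
  have hae : ∀ᵐ x ∂area, Tendsto (fun a => (μ : Measure S2) a / area a) (v.filterAt x) (𝓝 (g x)) :=
    VitaliFamily.ae_tendsto_rnDeriv v _
  have hfin : ∀ᵐ x ∂area, g x < ∞ := Measure.rnDeriv_lt_top _ _
  -- the exceptional set
  obtain ⟨Z, hZsub, hZm, hZ0⟩ := exists_measurable_superset_of_null
    (s := {x | ¬ (Tendsto (fun a => (μ : Measure S2) a / area a) (v.filterAt x) (𝓝 (g x)) ∧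
      g x < ∞)}) (ae_iff.1 (hae.and hfin))
  let E : Set S2 := {x | 0 < g x} \ Z
  have hEm : MeasurableSet E := (measurableSet_lt measurable_const hgm).diff hZm
  have hEae : ∀ᵐ x ∂area, x ∉ Z := by
    rw [ae_iff]
    simpa using hZ0
  refine ⟨E, ?_, ?_⟩
  · -- positivity
    by_contra hcon
    have h0 : (μ : Measure S2) E = 0 := by simpa using hcon
    have h1 : ∫⁻ x in E, g x ∂area = 0 := by
      have h2 : (area.withDensity g) E ≤ (μ : Measure S2) E :=
        Measure.withDensity_rnDeriv_le _ _ E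
      rw [withDensity_apply _ hEm, h0] at h2
      exact le_antisymm h2 bot_le
    have h2 : ∀ᵐ x ∂(area.restrict E), g x = 0 := by
      rw [lintegral_eq_zero_iff hgm] at h1
      exact h1
    have h3 : ∀ᵐ x ∂area, x ∈ E → g x = 0 := (ae_restrict_iff' hEm).1 h2
    have h4 : g =ᵐ[area] 0 := by
      filter_upwards [h3, hEae] with x hx1 hx2
      by_contra hne
      have hpos : 0 < g x := pos_iff_ne_zero.2 hne
      exact hne (hx1 ⟨hpos, hx2⟩)
    have hLD : (μ : Measure S2).HaveLebesgueDecomposition area := Measure.haveLebesgueDecomposition_of_sigmaFinite _ _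
    exact h ((Measure.rnDeriv_eq_zero (μ : Measure S2) area).1 h4)
  · rintro x ⟨hx0, hxZ⟩
    have hx : Tendsto (fun a => (μ : Measure S2) a / area a) (v.filterAt x) (𝓝 (g x)) ∧
        g x < ∞ := by
      by_contra hcon
      exact hxZ (hZsub hcon)
    obtain ⟨hx1, hx2⟩ := hx
    have hx0' : 0 < g x := hx0
    have hgr : 0 < (g x).toReal := ENNReal.toReal_pos hx0'.ne' hx2.ne
    have hgeq : g x = ENNReal.ofReal (g x).toReal := (ENNReal.ofReal_toReal hx2.ne).symm
    have hlo : ENNReal.ofReal ((g x).toReal / 2) < g x := by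
      conv_rhs => rw [hgeq]
      exact (ENNReal.ofReal_lt_ofReal_iff hgr).2 (by linarith)
    have hhi : g x < ENNReal.ofReal (4 * ((g x).toReal / 2)) := by
      conv_lhs => rw [hgeq]
      exact (ENNReal.ofReal_lt_ofReal_iff (by linarith)).2 (by linarith)
    have hev : ∀ᶠ a in v.filterAt x,
        ENNReal.ofReal ((g x).toReal / 2) ≤ (μ : Measure S2) a / area a ∧
          (μ : Measure S2) a / area a ≤ ENNReal.ofReal (4 * ((g x).toReal / 2)) := by
      filter_upwards [hx1 (lt_mem_nhds hlo), hx1 (gt_mem_nhds hhi)] with a ha1 ha2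
      exact ⟨le_of_lt ha1, le_of_lt ha2⟩
    obtain ⟨s0, hs0, hs⟩ := ipos2_balls x _ hev
    refine ⟨(g x).toReal / 2, min s0 2, by linarith, lt_min hs0 (by norm_num), ?_⟩
    intro y δ hδ hδs hd
    obtain ⟨h1, h2⟩ := hs y δ hδ (le_trans hδs (min_le_left _ _)) hd
    obtain ⟨h3, h4⟩ := hb y δ hδ (le_trans hδs (min_le_right _ _))
    have hne0 : area (Metric.closedBall y δ) ≠ 0 := by
      have : 0 < ENNReal.ofReal (c * δ ^ 2) := ENNReal.ofReal_pos.2 (by positivity)
      exact (lt_of_lt_of_le this h3).ne'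
    have hnet : area (Metric.closedBall y δ) ≠ ∞ := (lt_of_le_of_lt h4 ENNReal.ofReal_lt_top).ne
    refine ⟨?_, ?_⟩
    · exact (ENNReal.le_div_iff_mul_le (Or.inl hne0) (Or.inl hnet)).1 h1
    · exact (ENNReal.div_le_iff hne0 hnet).1 h2

end H19S
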