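import Pool.Agent.Lib.H19S.IPos2

/-!
# H19S, chunk I-POS2B: uniform constants
-/

namespace H19S

open Finset MeasureTheory Filter Topology
open scoped ENNReal

/-- The point `x` is regular at all the scales `≤ r1` for the measure `μ`. -/
def Reg (μ : ProbabilityMeasure S2) (a A r1 : ℝ) (x : S2) : Prop :=
  ∀ s : ℝ, 0 < s → s ≤ r1 → 2 * a * s ^ 2 ≤ (μ : Measure S2).real (Metric.closedBall x s) ∧
    (μ : Measure S2).real (Metric.closedBall x (2 * s)) ≤ A * s ^ 2 ∧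
    ∀ y : S2, dist x y ≤ 4 * s → 2 * a * s ^ 2 ≤ (μ : Measure S2).real (Metric.closedBall y (s / 80))

theorem ipos2b_exists {μ : ProbabilityMeasure S2} {x : S2} {c C f s0 : ℝ} (hc : 0 < c)
    (hb : ∀ (p : S2) (s : ℝ), 0 < s → s ≤ 2 →
      ENNReal.ofReal (c * s ^ 2) ≤ area (Metric.closedBall p s) ∧
      area (Metric.closedBall p s) ≤ ENNReal.ofReal (C * s ^ 2)) (hf : 0 < f) (hs0 : 0 < s0)
    (hx : ∀ (y : S2) (δ : ℝ), 0 < δ → δ ≤ s0 → dist x y ≤ 400 * δ →
        ENNReal.ofReal f * area (Metric.closedBall y δ) ≤ (μ : Measure S2) (Metric.closedBall y δ) ∧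
        (μ : Measure S2) (Metric.closedBall y δ) ≤
          ENNReal.ofReal (4 * f) * area (Metric.closedBall y δ)) :
    ∃ k : ℕ, Reg μ (1 / (k + 1)) (k + 1) (1 / (k + 1)) x := by
  obtain ⟨k1, hk1⟩ := exists_nat_gt (12800 / (f * c))
  obtain ⟨k2, hk2⟩ := exists_nat_gt (16 * f * |C|)
  obtain ⟨k3, hk3⟩ := exists_nat_gt (2 / s0)
  refine ⟨k1 + k2 + k3, ?_⟩
  have hkpos : (0 : ℝ) < ((k1 + k2 + k3 : ℕ) : ℝ) + 1 := by positivity
  have e1 : 12800 / (f * c) ≤ ((k1 + k2 + k3 : ℕ) : ℝ) + 1 := by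
    push_cast
    have := hk1.le
    have h2 : (0 : ℝ) ≤ k2 := Nat.cast_nonneg _
    have h3 : (0 : ℝ) ≤ k3 := Nat.cast_nonneg _
    linarith
  have e2 : 16 * f * |C| ≤ ((k1 + k2 + k3 : ℕ) : ℝ) + 1 := by
    push_cast
    have := hk2.le
    have h2 : (0 : ℝ) ≤ k1 := Nat.cast_nonneg _
    have h3 : (0 : ℝ) ≤ k3 := Nat.cast_nonneg _
    linarith
  have e3 : 2 / s0 ≤ ((k1 + k2 + k3 : ℕ) : ℝ) + 1 := by
    push_cast
    have := hk3.le
    have h2 : (0 : ℝ) ≤ k1 := Nat.cast_nonneg _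
    have h3 : (0 : ℝ) ≤ k2 := Nat.cast_nonneg _
    linarith
  have e4 : (1 : ℝ) ≤ ((k1 + k2 + k3 : ℕ) : ℝ) + 1 := by
    have : (0 : ℝ) ≤ ((k1 + k2 + k3 : ℕ) : ℝ) := Nat.cast_nonneg _
    linarith
  generalize hK : ((k1 + k2 + k3 : ℕ) : ℝ) + 1 = K at *
  have hfc : 0 < f * c := mul_pos hf hc
  have f1 : 2 * (1 / K) ≤ f * c / 6400 := by
    rw [div_le_iff₀ hfc] at e1
    rw [mul_one_div, div_le_div_iff₀ hkpos (by norm_num)]
    nlinarith
  have f3 : 1 / K ≤ s0 / 2 := by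
    rw [div_le_iff₀ hs0] at e3
    rw [div_le_div_iff₀ hkpos (by norm_num)]
    linarith
  have f4 : 1 / K ≤ 1 := by
    rw [div_le_one hkpos]; exact e4
  -- lower bounds for the measure of balls
  have low : ∀ (y : S2) (δ : ℝ), 0 < δ → δ ≤ s0 → δ ≤ 2 → dist x y ≤ 400 * δ →
      f * c * δ ^ 2 ≤ (μ : Measure S2).real (Metric.closedBall y δ) := by
    intro y δ h0 h1 h2 h3
    have h4 := (hx y δ h0 h1 h3).1
    have h5 := (hb y δ h0 h2).1
    have h6 : ENNReal.ofReal (f * c * δ ^ 2) ≤ (μ : Measure S2) (Metric.closedBall y δ) := by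
      calc ENNReal.ofReal (f * c * δ ^ 2) = ENNReal.ofReal f * ENNReal.ofReal (c * δ ^ 2) := by
            rw [← ENNReal.ofReal_mul hf.le]; congr 1; ring
        _ ≤ ENNReal.ofReal f * area (Metric.closedBall y δ) := by gcongr
        _ ≤ _ := h4
    exact (ENNReal.ofReal_le_iff_le_toReal (measure_ne_top _ _)).1 h6
  have upp : ∀ (y : S2) (δ : ℝ), 0 < δ → δ ≤ s0 → δ ≤ 2 → dist x y ≤ 400 * δ →
      (μ : Measure S2).real (Metric.closedBall y δ) ≤ 4 * f * |C| * δ ^ 2 := by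
    intro y δ h0 h1 h2 h3
    have h4 := (hx y δ h0 h1 h3).2
    have h5 := (hb y δ h0 h2).2
    have h6 : (μ : Measure S2) (Metric.closedBall y δ) ≤ ENNReal.ofReal (4 * f * |C| * δ ^ 2) := by
      calc (μ : Measure S2) (Metric.closedBall y δ)
          ≤ ENNReal.ofReal (4 * f) * area (Metric.closedBall y δ) := h4
        _ ≤ ENNReal.ofReal (4 * f) * ENNReal.ofReal (|C| * δ ^ 2) := by
            gcongr
            refine le_trans h5 (ENNReal.ofReal_le_ofReal ?_)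
            gcongr
            exact le_abs_self C
        _ = _ := by
            rw [← ENNReal.ofReal_mul (by positivity)]; congr 1; ring
    exact ENNReal.toReal_le_of_le_ofReal (by positivity) h6
  intro s hs hsr
  refine ⟨?_, ?_, ?_⟩
  · have h1 := low x s hs (by linarith) (by linarith) (by rw [dist_self]; positivity)
    refine le_trans ?_ h1
    have : 2 * (1 / K) ≤ f * c := by linarith
    exact mul_le_mul_of_nonneg_right this (sq_nonneg s)
  · have h1 := upp x (2 * s) (by linarith) (by linarith) (by linarith)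
      (by rw [dist_self]; positivity)
    refine le_trans h1 ?_
    have h2 : 4 * f * |C| * (2 * s) ^ 2 = (16 * f * |C|) * s ^ 2 := by ring
    rw [h2]
    exact mul_le_mul_of_nonneg_right e2 (sq_nonneg s)
  · intro y hy
    have h1 := low y (s / 80) (by positivity) (by linarith) (by linarith) (by linarith)
    refine le_trans ?_ h1
    have h2 : f * c * (s / 80) ^ 2 = (f * c / 6400) * s ^ 2 := by ring
    rw [h2]
    exact mul_le_mul_of_nonneg_right f1 (sq_nonneg s)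

/-- Uniform constants. Proof: `dens_pts` and `area_bds`; for `x ∈ E` there is `k : ℕ` with
`Reg μ (1/(k+1)) (k+1) (1/(k+1)) x`, and `Reg μ (1/(k+1)) (k+1) (1/(k+1))` increases with `k`; `E` is
contained in a countable union, so that one of these sets has positive (outer) measure. -/
theorem reg_pts (μ : ProbabilityMeasure S2) (h : ¬ (μ : Measure S2) ⟂ₘ area) :
    ∃ k : ℕ, 0 < (μ : Measure S2) {x | Reg μ (1 / (k + 1)) (k + 1) (1 / (k + 1)) x} := by
  obtain ⟨c, C, hc, hC, hb⟩ := area_bds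
  obtain ⟨E, hE, hE2⟩ := dens_pts μ h
  by_contra hcon
  push Not at hcon
  have h1 : ∀ k : ℕ, (μ : Measure S2) {x | Reg μ (1 / (k + 1)) (k + 1) (1 / (k + 1)) x} = 0 :=
    fun k => le_antisymm (hcon k) bot_le
  have h2 : (μ : Measure S2) (⋃ k : ℕ, {x | Reg μ (1 / (k + 1)) (k + 1) (1 / (k + 1)) x}) = 0 :=
    measure_iUnion_null h1
  have h3 : E ⊆ ⋃ k : ℕ, {x | Reg μ (1 / (k + 1)) (k + 1) (1 / (k + 1)) x} := by
    intro x hx
    obtain ⟨f, s0, hf, hs0, hx'⟩ := hE2 x hx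
    obtain ⟨k, hk⟩ := ipos2b_exists hc hb hf hs0 hx'
    exact Set.mem_iUnion.2 ⟨k, hk⟩
  exact hE.ne' (measure_mono_null h3 h2)

end H19S
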