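import Pool.Agent.Lib.H19S.IPos2b
import Pool.Agent.Lib.H19S.IBd

/-!
# H19S, chunk I-POS3: `Reg` implies `phi = 1`
-/

namespace H19S

open Finset MeasureTheory Filter Topology
open scoped ENNReal

theorem ipos3_cl_nonneg (t : ℝ) : 0 ≤ cl t := le_max_left _ _

theorem ipos3_cl_le_one (t : ℝ) : cl t ≤ 1 := max_le zero_le_one (min_le_left _ _)

theorem ipos3_cl_eq_one {t : ℝ} (h : 1 ≤ t) : cl t = 1 := by
  unfold cl
  rw [min_eq_left h, max_eq_right zero_le_one]

theorem ipos3_cl_eq_zero {t : ℝ} (h : t ≤ 0) : cl t = 0 := by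
  unfold cl
  rw [max_eq_left]
  exact (min_le_right _ _).trans h

theorem ipos3_cl_cont : Continuous cl := by
  unfold cl
  exact continuous_const.max (continuous_const.min continuous_id)

theorem ipos3_int (s : ℝ) (x : S2) (μ : ProbabilityMeasure S2) :
    Integrable (fun w => bump s (dist x w)) (μ : Measure S2) := by
  have hc : Continuous (fun w : S2 => bump s (dist x w)) := by
    unfold bump
    exact ipos3_cl_cont.comp (continuous_const.sub ((continuous_const.dist continuous_id).div_const _))
  refine Integrable.of_bound hc.aestronglyMeasurable 1 (Eventually.of_forall ?_)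
  intro w
  unfold bump
  rw [Real.norm_of_nonneg (ipos3_cl_nonneg _)]
  exact ipos3_cl_le_one _

theorem ipos3_mass_ge {s : ℝ} (hs : 0 < s) (x : S2) (μ : ProbabilityMeasure S2) :
    (μ : Measure S2).real (Metric.closedBall x s) ≤ mass s x μ := by
  unfold mass
  rw [← integral_indicator_one Metric.isClosed_closedBall.measurableSet]
  apply integral_mono _ (ipos3_int s x μ)
  · intro w
    by_cases hw : w ∈ Metric.closedBall x s
    · rw [Set.indicator_of_mem hw]
      change (1 : ℝ) ≤ bump s (dist x w)
      unfold bump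
      rw [ipos3_cl_eq_one]
      rw [Metric.mem_closedBall, dist_comm] at hw
      have : dist x w / s ≤ 1 := by
        rw [div_le_one hs]; exact hw
      linarith
    · rw [Set.indicator_of_notMem hw]
      exact ipos3_cl_nonneg _
  · exact (integrable_const (1 : ℝ)).indicator Metric.isClosed_closedBall.measurableSet

theorem ipos3_mass_le {s : ℝ} (hs : 0 < s) (x : S2) (μ : ProbabilityMeasure S2) :
    mass s x μ ≤ (μ : Measure S2).real (Metric.closedBall x (2 * s)) := by
  unfold mass
  rw [← integral_indicator_one Metric.isClosed_closedBall.measurableSet]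
  apply integral_mono (ipos3_int s x μ)
  · exact (integrable_const (1 : ℝ)).indicator Metric.isClosed_closedBall.measurableSet
  · intro w
    by_cases hw : w ∈ Metric.closedBall x (2 * s)
    · rw [Set.indicator_of_mem hw]
      exact ipos3_cl_le_one _
    · rw [Set.indicator_of_notMem hw]
      change bump s (dist x w) ≤ 0
      unfold bump
      rw [ipos3_cl_eq_zero]
      rw [Metric.mem_closedBall, dist_comm, not_le] at hw
      have : 2 ≤ dist x w / s := by
        rw [le_div_iff₀ hs]; exact hw.le
      linarith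

/-- `Reg` implies that the cut-offs are equal to `1`. (`mass s x μ ≥ μ (closedBall x s) ≥ 2 a s^2`,
`mass s x μ ≤ μ (closedBall x (2 s)) ≤ A s^2`; for `dist x y ≤ 4 s`,
`mass (s/80) y μ ≥ μ (closedBall y (s/80)) ≥ 2 a s^2`, for `dist x y > 4 s` the second term in the
infimum `dens` is at least `2`.) -/
theorem phi_eq_one {μ : ProbabilityMeasure S2} {a A r1 : ℝ} {x : S2} (ha : 0 < a) (hA : 0 < A)
    (h : Reg μ a A r1 x) {r0 : ℝ} (h0 : 0 < r0) (h1 : r0 ≤ r1) (N : ℕ) :
    phi a A r0 N x μ = 1 := by
  unfold phi
  apply Finset.prod_eq_one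
  intro i _
  set s := r0 / 2 ^ i with hs
  have hs0 : 0 < s := by positivity
  have hs1 : s ≤ r1 := by
    refine le_trans ?_ h1
    rw [hs]
    exact div_le_self h0.le (one_le_pow₀ (by norm_num))
  obtain ⟨e1, e2, e3⟩ := h s hs0 hs1
  have has : 0 < a * s ^ 2 := by positivity
  have hAs : 0 < A * s ^ 2 := by positivity
  have m1 : 2 * a * s ^ 2 ≤ mass s x μ := e1.trans (ipos3_mass_ge hs0 x μ)
  have m2 : mass s x μ ≤ A * s ^ 2 := (ipos3_mass_le hs0 x μ).trans e2
  have c1 : cl (mass s x μ / (a * s ^ 2) - 1) = 1 := by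
    apply ipos3_cl_eq_one
    have : 2 ≤ mass s x μ / (a * s ^ 2) := by
      rw [le_div_iff₀ has]; linarith
    linarith
  have c2 : cl (2 - mass s x μ / (A * s ^ 2)) = 1 := by
    apply ipos3_cl_eq_one
    have : mass s x μ / (A * s ^ 2) ≤ 1 := by
      rw [div_le_one hAs]; exact m2
    linarith
  have c3 : cl (dens a s x μ - 1) = 1 := by
    apply ipos3_cl_eq_one
    have : 2 ≤ dens a s x μ := by
      unfold dens
      have : Nonempty S2 := ⟨x⟩
      apply le_ciInf
      intro y
      by_cases hy : dist x y ≤ 4 * s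
      · have m3 : 2 * a * s ^ 2 ≤ mass (s / 80) y μ :=
          (e3 y hy).trans (ipos3_mass_ge (by positivity) y μ)
        have : 2 ≤ mass (s / 80) y μ / (a * s ^ 2) := by
          rw [le_div_iff₀ has]; linarith
        have h4 : 0 ≤ max 0 (dist x y / s - 3) := le_max_left _ _
        linarith
      · rw [not_le] at hy
        have h4 : 1 ≤ max 0 (dist x y / s - 3) := by
          refine le_max_of_le_right ?_
          have : 4 ≤ dist x y / s := by
            rw [le_div_iff₀ hs0]; exact hy.le
          linarith
        have h5 : 0 ≤ mass (s / 80) y μ / (a * s ^ 2) := by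
          apply div_nonneg _ has.le
          exact le_trans measureReal_nonneg (ipos3_mass_ge (by positivity) y μ)
        linarith
    linarith
  unfold phi1
  rw [c1, c2, c3]
  norm_num

end H19S
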