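import Pool.Agent.Lib.H19S.Defs

/-!
# H19S, part I: the definitions used by the final statement (problem MP_8001a2_pr)

`𝒯_n^S` = isomorphism classes of simple triangulations of the sphere with `n` vertices, tangency
measures of circle packings, probability measures on the sphere modulo rotations.
-/

namespace H19S

open Finset MeasureTheory Filter Topology
open scoped ENNReal

noncomputable section

theorem prel_mul {α : Type*} [DecidableEq α] (ρ ρ' : Equiv.Perm α) (F : Finset (α × α × α)) :
    prel (ρ * ρ') F = prel ρ (prel ρ' F) := by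
  unfold prel relab
  rw [Finset.image_image]
  rfl

theorem prel_one {α : Type*} [DecidableEq α] (F : Finset (α × α × α)) :
    prel (1 : Equiv.Perm α) F = F := by
  unfold prel relab
  have : map3 (fun x => (1 : Equiv.Perm α) x) = id := by
    funext t
    rfl
  rw [this, Finset.image_id]

/-- Two labelled triangulations with `n` vertices are equivalent if they differ by a relabelling of
the vertices (which keeps the orientation), that is, by an orientation preserving homeomorphism. -/
def Iso (n : ℕ) (F F' : {F : Finset (ℕ × ℕ × ℕ) // F ∈ Lab n}) : Prop :=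
  ∃ ρ : Equiv.Perm ℕ, prel ρ F.1 = F'.1

theorem iso_equivalence (n : ℕ) : Equivalence (Iso n) := by
  refine ⟨fun F => ⟨1, prel_one _⟩, ?_, ?_⟩
  · rintro F F' ⟨ρ, h⟩
    exact ⟨ρ⁻¹, by rw [← h, ← prel_mul, inv_mul_cancel, prel_one]⟩
  · rintro F F' F'' ⟨ρ, h⟩ ⟨ρ', h'⟩
    exact ⟨ρ' * ρ, by rw [prel_mul, h, h']⟩

/-- Isomorphism (keeping the orientation) of labelled triangulations with `n` vertices. -/
def isoSetoid (n : ℕ) : Setoid {F : Finset (ℕ × ℕ × ℕ) // F ∈ Lab n} := ⟨Iso n, iso_equivalence n⟩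

/-- `𝒯_n^S`: simple triangulations of the sphere with `n` vertices up to orientation preserving
homeomorphism. -/
def Cls (n : ℕ) : Type := Quotient (isoSetoid n)

instance (n : ℕ) : Fintype (Cls n) :=
  @Quotient.fintype _ _ (isoSetoid n) (Classical.decRel _)

instance (n : ℕ) : MeasurableSpace (Cls n) := ⊤

/-- The class of a labelled triangulation. -/
def toCls {n : ℕ} (F : Finset (ℕ × ℕ × ℕ)) (h : F ∈ Lab n) : Cls n := Quotient.mk (isoSetoid n) ⟨F, h⟩

/-- The set of tangency points of a packing. -/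
def tangPts (F : Finset (ℕ × ℕ × ℕ)) (c : ℕ → S2) (r : ℕ → ℝ) : Set S2 :=
  {p | ∃ x y, Adj F x y ∧ p ∈ Metric.closedBall (c x) (r x) ∧ p ∈ Metric.closedBall (c y) (r y)}

/-- `μ` is the uniform measure on the tangency points of a circle packing of (a labelled
triangulation in) the class `T`. -/
def IsTangMeas {n : ℕ} (T : Cls n) (μ : ProbabilityMeasure S2) : Prop :=
  ∃ (F : Finset (ℕ × ℕ × ℕ)) (h : F ∈ Lab n) (c : ℕ → S2) (r : ℕ → ℝ), toCls F h = T ∧
    IsPacking F c r ∧ (μ : Measure S2) = ProbabilityTheory.uniformOn (tangPts F c r)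

/-- `f` is a rotation of the sphere: it is given by a matrix `A` with `A Aᵀ = 1` and `det A = 1`. -/
def IsRot (f : S2 → S2) : Prop :=
  ∃ A : Matrix (Fin 3) (Fin 3) ℝ, A * A.transpose = 1 ∧ A.det = 1 ∧
    ∀ (x : S2) (i : Fin 3), (f x).1 i = ∑ j, A i j * x.1 j

theorem rot_inner {A : Matrix (Fin 3) (Fin 3) ℝ} (hA : A * A.transpose = 1) (x y : Fin 3 → ℝ) :
    ∑ i, (∑ j, A i j * x j) * (∑ j, A i j * y j) = ∑ i, x i * y i := by
  have hA' : A.transpose * A = 1 := mul_eq_one_comm.1 hA
  have h1 : ∑ i, (∑ j, A i j * x j) * (∑ j, A i j * y j) = A.mulVec x ⬝ᵥ A.mulVec y := rfl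
  have h2 : A.mulVec x ⬝ᵥ A.mulVec y = x ⬝ᵥ y := by
    rw [Matrix.dotProduct_mulVec, Matrix.vecMul_mulVec, hA', Matrix.vecMul_one]
  rw [h1, h2]
  rfl

theorem IsRot.isometry {f : S2 → S2} (h : IsRot f) : Isometry f := by
  obtain ⟨A, h1, -, h3⟩ := h
  apply Isometry.of_dist_eq
  intro x y
  rw [Subtype.dist_eq, Subtype.dist_eq, EuclideanSpace.dist_eq, EuclideanSpace.dist_eq]
  congr 1
  have h4 := rot_inner h1 (fun i => x.1 i - y.1 i) (fun i => x.1 i - y.1 i)
  calc ∑ i, dist ((f x).1 i) ((f y).1 i) ^ 2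
      = ∑ i, (∑ j, A i j * (x.1 j - y.1 j)) * (∑ j, A i j * (x.1 j - y.1 j)) := by
        apply Finset.sum_congr rfl
        intro i _
        rw [Real.dist_eq, sq_abs, h3, h3, ← Finset.sum_sub_distrib, sq]
        simp only [mul_sub]
    _ = ∑ i, (x.1 i - y.1 i) * (x.1 i - y.1 i) := h4
    _ = ∑ i, dist (x.1 i) (y.1 i) ^ 2 := by
        apply Finset.sum_congr rfl
        intro i _
        rw [Real.dist_eq, sq_abs, sq]

theorem IsRot.id : IsRot (fun x => x) := by
  refine ⟨1, by simp, by simp, fun x i => ?_⟩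
  simp [Matrix.one_apply]

theorem IsRot.comp {f g : S2 → S2} (hf : IsRot f) (hg : IsRot g) : IsRot (fun x => f (g x)) := by
  obtain ⟨A, h1, h2, h3⟩ := hf
  obtain ⟨B, h4, h5, h6⟩ := hg
  refine ⟨A * B, ?_, ?_, fun x i => ?_⟩
  · rw [Matrix.transpose_mul, Matrix.mul_assoc, ← Matrix.mul_assoc B, h4, Matrix.one_mul, h1]
  · rw [Matrix.det_mul, h2, h5, mul_one]
  · rw [h3]
    simp only [h6, Matrix.mul_apply, Finset.mul_sum, Finset.sum_mul]
    rw [Finset.sum_comm]
    simp only [mul_assoc]

/-- The inverse of a rotation. -/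
theorem IsRot.exists_inv {f : S2 → S2} (hf : IsRot f) :
    ∃ g, IsRot g ∧ (∀ x, g (f x) = x) ∧ ∀ x, f (g x) = x := by
  obtain ⟨A, h1, h2, h3⟩ := hf
  have h1' : A.transpose * A = 1 := mul_eq_one_comm.1 h1
  have hB : A.transpose * A.transpose.transpose = 1 := by rw [Matrix.transpose_transpose, h1']
  let g : S2 → S2 := fun x => ⟨WithLp.toLp 2 (fun i => ∑ j, A.transpose i j * x.1 j), by
    have hx := x.2
    rw [mem_sphere_zero_iff_norm, EuclideanSpace.norm_eq, Real.sqrt_eq_one] at hx ⊢
    have h4 := rot_inner hB (fun i => x.1 i) (fun i => x.1 i)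
    simp only [Real.norm_eq_abs, sq_abs] at hx ⊢
    simp only [← sq] at h4
    exact h4.trans hx⟩
  have hg : ∀ (x : S2) (i : Fin 3), (g x).1 i = ∑ j, A.transpose i j * x.1 j := fun x i => rfl
  refine ⟨g, ⟨A.transpose, hB, by rw [Matrix.det_transpose, h2], hg⟩, fun x => ?_, fun x => ?_⟩
  · apply Subtype.ext
    ext i
    rw [hg]
    simp only [h3]
    have h5 : ∑ j, A.transpose i j * ∑ k, A j k * x.1 k =
        ((A.transpose * A).mulVec fun k => x.1 k) i := by
      rw [← Matrix.mulVec_mulVec]
      rfl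
    rw [h5, h1', Matrix.one_mulVec]
  · apply Subtype.ext
    ext i
    rw [h3]
    simp only [hg]
    have h5 : ∑ j, A i j * ∑ k, A.transpose j k * x.1 k =
        ((A * A.transpose).mulVec fun k => x.1 k) i := by
      rw [← Matrix.mulVec_mulVec]
      rfl
    rw [h5, h1, Matrix.one_mulVec]

/-- `ν` is the image of `μ` under a rotation of the sphere (an element of `SO(3)`). -/
def RotRel (μ ν : ProbabilityMeasure S2) : Prop :=
  ∃ f : S2 → S2, IsRot f ∧ (ν : Measure S2) = (μ : Measure S2).map f

theorem rotRel_equivalence : Equivalence RotRel := by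
  refine ⟨fun μ => ⟨fun x => x, IsRot.id, (Measure.map_id').symm⟩, ?_, ?_⟩
  · rintro μ ν ⟨f, h1, h2⟩
    obtain ⟨g, h3, h4, -⟩ := h1.exists_inv
    refine ⟨g, h3, ?_⟩
    rw [h2, Measure.map_map h3.isometry.continuous.measurable h1.isometry.continuous.measurable]
    have : g ∘ f = fun x => x := by
      funext x
      exact h4 x
    rw [this, Measure.map_id']
  · rintro μ ν ξ ⟨f, h1, h2⟩ ⟨g, h3, h4⟩
    refine ⟨fun x => g (f x), h3.comp h1, ?_⟩
    rw [h4, h2, Measure.map_map h3.isometry.continuous.measurable h1.isometry.continuous.measurable]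
    rfl

/-- The equivalence relation `RotRel` (equality up to a rotation of the sphere). -/
def rotSetoid : Setoid (ProbabilityMeasure S2) := ⟨RotRel, rotRel_equivalence⟩

/-- Probability measures on the sphere modulo rotations, with the quotient topology. -/
def MQ : Type := Quotient rotSetoid

instance : TopologicalSpace MQ := instTopologicalSpaceQuotient

instance : MeasurableSpace MQ := borel MQ

instance : BorelSpace MQ := ⟨rfl⟩

/-- The class modulo rotations of a probability measure on the sphere. -/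
def toMQ (μ : ProbabilityMeasure S2) : MQ := Quotient.mk rotSetoid μ

/-- The area measure on the sphere. -/
def surf : Measure S2 := (volume : Measure (EuclideanSpace ℝ (Fin 3))).toSphere

/-- The normalized area measure on the sphere. -/
def area : Measure S2 := (surf Set.univ)⁻¹ • surf

end

end H19S
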